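import Pool.Agent.ZI.EX
import Pool.Agent.ZP.Proc

/-! # Row EX: the clocks exist (with recovery labels) -/

set_option autoImplicit false

open MeasureTheory ProbabilityTheory
open scoped NNReal ENNReal BigOperators Classical

noncomputable section

namespace ZP.EX

open ZI.EX

variable (m : Model) (δ : ℝ)

lemma lamR_nonneg (hδ : 0 ≤ δ) (d k : ℕ) : 0 ≤ lamR m δ d k := by
  cases k with
  | zero =>
    show 0 ≤ δ / (2 * d)
    positivity
  | succ k => exact ZI.EX.lam_nonneg m d k

/-- law of a block -/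
def B (d : ℕ) : Pos d ⊕ Lab (Pos d) d → Measure W
  | .inl _ => (muP m).toMeasure.map cst
  | .inr l => Q (lamR m δ d l.2.1).toNNReal

instance (d : ℕ) (i : Pos d ⊕ Lab (Pos d) d) : IsProbabilityMeasure (B m δ d i) := by
  cases i with
  | inl x =>
    show IsProbabilityMeasure ((muP m).toMeasure.map cst)
    exact Measure.isProbabilityMeasure_map (Measurable.of_discrete).aemeasurable
  | inr l =>
    show IsProbabilityMeasure (Q (lamR m δ d l.2.1).toNNReal)
    infer_instance

/-- the probability space -/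
abbrev Om (d : ℕ) := Pos d ⊕ Lab (Pos d) d → W

/-- the probability -/
def PP (d : ℕ) : Measure (Om d) := Measure.infinitePi (B m δ d)

instance (d : ℕ) : IsProbabilityMeasure (PP m δ d) := by unfold PP; infer_instance

lemma eval_law (d : ℕ) (i : Pos d ⊕ Lab (Pos d) d) {S : Set W} (hS : MeasurableSet S) :
    PP m δ d {ω | ω i ∈ S} = B m δ d i S := by
  have h : (PP m δ d).map (fun ω : Om d => ω i) = B m δ d i := Measure.infinitePi_map_eval (B m δ d) i
  rw [← h, Measure.map_apply (measurable_pi_apply i) hS]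
  rfl

/-- index sets of the blocks -/
abbrev kap (d : ℕ) : Pos d ⊕ Lab (Pos d) d → Type
  | .inl _ => Unit
  | .inr _ => ℕ

/-- the functions of the blocks -/
def fB (d : ℕ) (t : ℕ → ℝ) : (i : Pos d ⊕ Lab (Pos d) d) → kap d i → W → ℕ
  | .inl _ => fun _ w => (w 0).1
  | .inr _ => fun j w => (ringW w ∩ Set.Ioc (t j) (t (j + 1))).ncard

lemma fB_meas (d : ℕ) (t : ℕ → ℝ) (i : Pos d ⊕ Lab (Pos d) d) (j : kap d i) :
    Measurable (fB d t i j) := by
  cases i with
  | inl x => exact measurable_fst.comp (measurable_pi_apply 0)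
  | inr l => exact meas_ncard _ _

lemma fB_indep (d : ℕ) (t : ℕ → ℝ) (ht : Monotone t) (ht0 : 0 ≤ t 0) (i : Pos d ⊕ Lab (Pos d) d) :
    iIndepFun (fB d t i) (B m δ d i) := by
  cases i with
  | inl x =>
    have : Subsingleton (kap d (Sum.inl x : Pos d ⊕ Lab (Pos d) d)) := inferInstanceAs (Subsingleton Unit)
    exact iIndepFun.of_subsingleton
  | inr l =>
    have h0 : ∀ j, 0 ≤ t j := fun j => ht0.trans (ht (Nat.zero_le j))
    have h := indep_cS (lamR m δ d l.2.1).toNNReal (fun j : ℕ => Set.Ioc (t j) (t (j + 1)))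
      (fun j => ⌈t (j + 1)⌉₊) (fun _ => measurableSet_Ioc)
      (by
        intro j k hjk
        rw [Set.disjoint_left]
        rintro x ⟨h1, h2⟩ ⟨h3, h4⟩
        rcases lt_or_gt_of_ne hjk with h | h
        · exact absurd (h2.trans (ht h)) (not_le.mpr h3)
        · exact absurd (h4.trans (ht h)) (not_le.mpr h1))
      (by
        rintro j x ⟨h1, h2⟩
        exact ⟨lt_of_le_of_lt (h0 j) h1, h2.trans (Nat.le_ceil _)⟩)
    refine iIndepFun.congr (fun j => ?_) h
    filter_upwards [good_ae (lamR m δ d l.2.1).toNNReal] with w hw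
    show cS _ _ w = (ringW w ∩ Set.Ioc (t j) (t (j + 1))).ncard
    rw [ncard_eq, if_pos hw]

lemma indep_blocks (d : ℕ) (t : ℕ → ℝ) (ht : Monotone t) (ht0 : 0 ≤ t 0) :
    iIndepFun (fun (p : (i : Pos d ⊕ Lab (Pos d) d) × kap d i) (ω : Om d) => fB d t p.1 p.2 (ω p.1))
      (PP m δ d) := by
  refine iIndepFun_uncurry (P := PP m δ d) (X := fun i j (ω : Om d) => fB d t i j (ω i))
    (fun i j => (fB_meas d t i j).comp (measurable_pi_apply i)) ?_ ?_
  · exact iIndepFun_infinitePi (P := B m δ d) (X := fun i w j => fB d t i j w)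
      (fun i => measurable_pi_lambda _ fun j => fB_meas d t i j)
  · intro i
    have h := fB_indep m δ d t ht ht0 i
    rw [iIndepFun_iff_map_fun_eq_infinitePi_map (fun j => fB_meas d t i j)] at h
    rw [iIndepFun_iff_map_fun_eq_infinitePi_map (X := fun j (ω : Om d) => fB d t i j (ω i))
      (fun j => (fB_meas d t i j).comp (measurable_pi_apply i))]
    have h1 : (PP m δ d).map (fun ω : Om d => ω i) = B m δ d i := Measure.infinitePi_map_eval (B m δ d) i
    have h2 : ∀ j, (PP m δ d).map (fun ω : Om d => fB d t i j (ω i)) = (B m δ d i).map (fB d t i j) := by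
      intro j
      rw [← h1, Measure.map_map (fB_meas d t i j) (measurable_pi_apply i)]
      rfl
    simp only [h2]
    rw [← h, ← h1, Measure.map_map (measurable_pi_lambda _ fun j => fB_meas d t i j)
      (measurable_pi_apply i)]
    rfl

end ZP.EX

namespace ZP.Rows

open ZI.EX hiding Om PP B kap fB eval_law indep_blocks fB_meas fB_indep
open ZP.EX

theorem exists_clocks (m : Model) (δ : ℝ) (hδ : 0 ≤ δ) (d : ℕ) : ∃ (Ω : Type) (_ : MeasurableSpace Ω)
    (P : Measure Ω) (_ : IsProbabilityMeasure P), Nonempty (Clocks m δ d P) := by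
  refine ⟨Om d, inferInstance, PP m δ d, inferInstance, ⟨?_⟩⟩
  refine
    { η0 := fun ω x => (ω (Sum.inl x) 0).1
      ring := fun ω l => ringW (ω (Sum.inr l))
      η0_meas := fun x => ?_
      ring_fin := fun ω l a b => ringW_fin _ a b
      ring_meas := fun l a b => (meas_ncard a b).comp (measurable_pi_apply _)
      η0_law := fun x k => ?_
      ring_law := fun l a b ha hab j => ?_
      indep := fun t ht ht0 => ?_ }
  · exact measurable_fst.comp ((measurable_pi_apply 0).comp (measurable_pi_apply (Sum.inl x)))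
  · have hS : MeasurableSet {w : W | (w 0).1 = k} :=
      (measurable_fst.comp (measurable_pi_apply 0)) (measurableSet_singleton k)
    have h := eval_law m δ d (Sum.inl x) hS
    show PP m δ d {ω | ω (Sum.inl x) ∈ {w : W | (w 0).1 = k}} = m.mu k
    rw [h]
    show ((muP m).toMeasure.map cst) {w : W | (w 0).1 = k} = m.mu k
    rw [Measure.map_apply Measurable.of_discrete hS]
    have h2 : cst ⁻¹' {w : W | (w 0).1 = k} = {k} := by
      ext y; simp [cst]
    rw [h2, PMF.toMeasure_apply_singleton _ _ (measurableSet_singleton k)]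
    rfl
  · have hS : MeasurableSet {w : W | (ringW w ∩ Set.Ioc a b).ncard = j} :=
      (meas_ncard a b) (measurableSet_singleton j)
    have h := eval_law m δ d (Sum.inr l) hS
    show PP m δ d {ω | ω (Sum.inr l) ∈ {w : W | (ringW w ∩ Set.Ioc a b).ncard = j}} = _
    rw [h]
    show Q (lamR m δ d l.2.1).toNNReal {w : W | (ringW w ∩ Set.Ioc a b).ncard = j} = _
    have h2 : Q (lamR m δ d l.2.1).toNNReal {w : W | (ringW w ∩ Set.Ioc a b).ncard = j} =
        Q (lamR m δ d l.2.1).toNNReal {w : W | cS (Set.Ioc a b) ⌈b⌉₊ w = j} := by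
      refine measure_congr ?_
      filter_upwards [good_ae (lamR m δ d l.2.1).toNNReal] with w hw
      show ((ringW w ∩ Set.Ioc a b).ncard = j) = (cS (Set.Ioc a b) ⌈b⌉₊ w = j)
      rw [ncard_eq, if_pos hw]
    rw [h2, law_cS _ _ measurableSet_Ioc
      (fun x hx => ⟨lt_of_le_of_lt ha hx.1, hx.2.trans (Nat.le_ceil _)⟩), poissonMeasure_singleton]
    congr 2
    rw [NNReal.coe_mul, Real.coe_toNNReal _ (lamR_nonneg m δ hδ d _), Real.coe_toNNReal _ measureReal_nonneg,
      Measure.real, Real.volume_Ioc, ENNReal.toReal_ofReal (by linarith)]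
  · have h := indep_blocks m δ d t ht ht0
    have hφ : Function.Injective (fun i : Pos d ⊕ (Lab (Pos d) d × ℕ) =>
        (match i with
          | .inl x => ⟨.inl x, ()⟩
          | .inr (l, j) => ⟨.inr l, j⟩ : (i : Pos d ⊕ Lab (Pos d) d) × kap d i)) := by
      rintro (x | ⟨l, j⟩) (y | ⟨l', j'⟩) hxy
      · simp only [Sigma.mk.injEq, Sum.inl.injEq] at hxy
        rw [hxy.1]
      · simp at hxy
      · simp at hxy
      · simp only [Sigma.mk.injEq, Sum.inr.injEq] at hxy
        obtain ⟨h1, h2⟩ := hxy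
        subst h1
        rw [eq_of_heq h2]
    have h3 := h.precomp hφ
    refine iIndepFun.congr (fun i => Filter.Eventually.of_forall fun ω => ?_) h3
    rcases i with x | ⟨l, j⟩
    · rfl
    · rfl

end ZP.Rows
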