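import Pool.Agent.ZP.ProcE
import Pool.Agent.ZP.EX

/-! # Row P2a: no two labels ring at the same time (with recovery labels) -/

set_option autoImplicit false

open scoped ENNReal BigOperators Classical Pointwise
open MeasureTheory ProbabilityTheory

noncomputable section

namespace ZP.Rows

open ZP

variable {d : ℕ} {m : Model} {δ : ℝ}

section PL

variable {Ω : Type} [MeasurableSpace Ω] {P : Measure Ω}

namespace P2a

/-- the probability that a label rings in an interval -/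
lemma ring_prob [IsProbabilityMeasure P] (C : Clocks m δ d P) (l : Lab (Pos d) d) (a b : ℝ) (ha : 0 ≤ a)
    (hab : a ≤ b) :
    P {ω | (C.ring ω l ∩ Set.Ioc a b).ncard ≠ 0} ≤ ENNReal.ofReal (lamR m δ d l.2.1 * (b - a)) := by
  have h0 := C.ring_law l a b ha hab 0
  simp only [pow_zero, mul_one, Nat.factorial_zero, Nat.cast_one, div_one] at h0
  have hm : MeasurableSet {ω | (C.ring ω l ∩ Set.Ioc a b).ncard = 0} :=
    (C.ring_meas l a b) (measurableSet_singleton 0)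
  have h1 : {ω | (C.ring ω l ∩ Set.Ioc a b).ncard ≠ 0} =
      {ω | (C.ring ω l ∩ Set.Ioc a b).ncard = 0}ᶜ := by
    ext ω; simp
  rw [h1, prob_compl_eq_one_sub hm, h0, ← ENNReal.ofReal_one, ← ENNReal.ofReal_sub _ (Real.exp_pos _).le]
  apply ENNReal.ofReal_le_ofReal
  have := Real.add_one_le_exp (-(lamR m δ d l.2.1 * (b - a)))
  linarith

lemma two_prob [IsProbabilityMeasure P] (hδ : 0 ≤ δ) (C : Clocks m δ d P) (l l' : Lab (Pos d) d) (hl : l ≠ l')
    (T n : ℕ) (hn : 0 < n) :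
    P {ω | ∃ s : ℝ, 0 < s ∧ s ≤ T ∧ s ∈ C.ring ω l ∧ s ∈ C.ring ω l'} ≤
      ENNReal.ofReal (lamR m δ d l.2.1 * lamR m δ d l'.2.1 * (T : ℝ) ^ 2 * (1 / (n : ℝ))) := by
  have hnr : (0 : ℝ) < n := by exact_mod_cast hn
  set t : ℕ → ℝ := fun j => j * ((T : ℝ) / n) with ht
  have hD : (0 : ℝ) ≤ (T : ℝ) / n := by positivity
  have htm : Monotone t := fun i j hij => mul_le_mul_of_nonneg_right (by exact_mod_cast hij) hD
  have ht0 : 0 ≤ t 0 := by simp [ht]
  have htj : ∀ j, 0 ≤ t j := fun j => ht0.trans (htm (Nat.zero_le j))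
  have hstep : ∀ j, t (j + 1) - t j = (T : ℝ) / n := fun j => by simp only [ht]; push_cast; ring
  have hsub : {ω | ∃ s : ℝ, 0 < s ∧ s ≤ T ∧ s ∈ C.ring ω l ∧ s ∈ C.ring ω l'} ⊆
      ⋃ j ∈ Finset.range n, {ω | (C.ring ω l ∩ Set.Ioc (t j) (t (j + 1))).ncard ≠ 0} ∩
        {ω | (C.ring ω l' ∩ Set.Ioc (t j) (t (j + 1))).ncard ≠ 0} := by
    rintro ω ⟨s, hs0, hsT, hl1, hl2⟩
    have hT : (0 : ℝ) < T := lt_of_lt_of_le hs0 hsT
    have hDp : (0 : ℝ) < (T : ℝ) / n := by positivity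
    obtain ⟨j, hj⟩ : ∃ j : ℕ, ⌈s / ((T : ℝ) / n)⌉₊ = j + 1 := by
      have : 0 < ⌈s / ((T : ℝ) / n)⌉₊ := Nat.ceil_pos.mpr (by positivity)
      exact ⟨_, (Nat.succ_pred_eq_of_pos this).symm⟩
    have h1 : s ≤ t (j + 1) := by
      have := Nat.le_ceil (s / ((T : ℝ) / n))
      rw [hj, div_le_iff₀ hDp] at this
      exact this
    have h2 : t j < s := by
      have : (j : ℝ) < s / ((T : ℝ) / n) := by
        rw [← Nat.lt_ceil, hj]; omega
      rw [lt_div_iff₀ hDp] at this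
      exact this
    have h3 : j < n := by
      have h4 : (j : ℝ) * ((T : ℝ) / n) < T := lt_of_lt_of_le h2 hsT
      have h5 : (j : ℝ) < n := by
        by_contra hc
        rw [not_lt] at hc
        have : (n : ℝ) * ((T : ℝ) / n) ≤ j * ((T : ℝ) / n) := mul_le_mul_of_nonneg_right hc hD
        rw [mul_div_cancel₀ _ hnr.ne'] at this
        linarith
      exact_mod_cast h5
    simp only [Set.mem_iUnion, Finset.mem_range, exists_prop]
    refine ⟨j, h3, ?_, ?_⟩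
    · show (C.ring ω l ∩ Set.Ioc (t j) (t (j + 1))).ncard ≠ 0
      rw [Ne, Set.ncard_eq_zero (C.ring_fin ω l _ _)]
      exact Set.Nonempty.ne_empty ⟨s, hl1, h2, h1⟩
    · show (C.ring ω l' ∩ Set.Ioc (t j) (t (j + 1))).ncard ≠ 0
      rw [Ne, Set.ncard_eq_zero (C.ring_fin ω l' _ _)]
      exact Set.Nonempty.ne_empty ⟨s, hl2, h2, h1⟩
  have hind := C.indep t htm ht0
  have hpair : ∀ j, P ({ω | (C.ring ω l ∩ Set.Ioc (t j) (t (j + 1))).ncard ≠ 0} ∩
      {ω | (C.ring ω l' ∩ Set.Ioc (t j) (t (j + 1))).ncard ≠ 0}) ≤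
      ENNReal.ofReal (lamR m δ d l.2.1 * ((T : ℝ) / n)) * ENNReal.ofReal (lamR m δ d l'.2.1 * ((T : ℝ) / n)) := by
    intro j
    have h1 := hind.indepFun (i := Sum.inr (l, j)) (j := Sum.inr (l', j))
      (fun h => hl (by simpa using h))
    have h2 := h1.measure_inter_preimage_eq_mul {0}ᶜ {0}ᶜ (measurableSet_singleton 0).compl
      (measurableSet_singleton 0).compl
    refine (le_of_eq h2).trans ?_
    refine mul_le_mul' ?_ ?_
    · have := ring_prob C l (t j) (t (j + 1)) (htj j) (htm (Nat.le_succ j))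
      rw [hstep] at this
      exact this
    · have := ring_prob C l' (t j) (t (j + 1)) (htj j) (htm (Nat.le_succ j))
      rw [hstep] at this
      exact this
  calc P {ω | ∃ s : ℝ, 0 < s ∧ s ≤ T ∧ s ∈ C.ring ω l ∧ s ∈ C.ring ω l'}
      ≤ P (⋃ j ∈ Finset.range n, {ω | (C.ring ω l ∩ Set.Ioc (t j) (t (j + 1))).ncard ≠ 0} ∩
        {ω | (C.ring ω l' ∩ Set.Ioc (t j) (t (j + 1))).ncard ≠ 0}) := measure_mono hsub
    _ ≤ ∑ j ∈ Finset.range n, P ({ω | (C.ring ω l ∩ Set.Ioc (t j) (t (j + 1))).ncard ≠ 0} ∩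
        {ω | (C.ring ω l' ∩ Set.Ioc (t j) (t (j + 1))).ncard ≠ 0}) := measure_biUnion_finset_le _ _
    _ ≤ ∑ j ∈ Finset.range n, ENNReal.ofReal (lamR m δ d l.2.1 * ((T : ℝ) / n)) *
        ENNReal.ofReal (lamR m δ d l'.2.1 * ((T : ℝ) / n)) := Finset.sum_le_sum fun j _ => hpair j
    _ = ENNReal.ofReal (lamR m δ d l.2.1 * lamR m δ d l'.2.1 * (T : ℝ) ^ 2 * (1 / (n : ℝ))) := by
        rw [Finset.sum_const, Finset.card_range, nsmul_eq_mul,
          ← ENNReal.ofReal_mul (mul_nonneg (ZP.EX.lamR_nonneg m δ hδ d _) hD), ← ENNReal.ofReal_natCast,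
          ← ENNReal.ofReal_mul hnr.le]
        congr 1
        field_simp

lemma pair_null [IsProbabilityMeasure P] (hδ : 0 ≤ δ) (C : Clocks m δ d P) (l l' : Lab (Pos d) d) (hl : l ≠ l')
    (T : ℕ) : P {ω | ∃ s : ℝ, 0 < s ∧ s ≤ T ∧ s ∈ C.ring ω l ∧ s ∈ C.ring ω l'} = 0 := by
  have h1 : Filter.Tendsto (fun n : ℕ => ENNReal.ofReal
      (lamR m δ d l.2.1 * lamR m δ d l'.2.1 * (T : ℝ) ^ 2 * (1 / ((n : ℝ) + 1)))) Filter.atTop
      (nhds (ENNReal.ofReal (lamR m δ d l.2.1 * lamR m δ d l'.2.1 * (T : ℝ) ^ 2 * 0))) :=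
    (ENNReal.continuous_ofReal.tendsto _).comp
      (tendsto_one_div_add_atTop_nhds_zero_nat.const_mul _)
  rw [mul_zero, ENNReal.ofReal_zero] at h1
  refine le_antisymm (ge_of_tendsto' h1 fun n => ?_) bot_le
  have := two_prob hδ C l l' hl T (n + 1) (Nat.succ_pos n)
  push_cast at this
  exact this

end P2a

theorem no_ties [IsProbabilityMeasure P] (hδ : 0 ≤ δ) (C : Clocks m δ d P) : ∀ᵐ ω ∂P, NoTies C ω := by
  have h : ∀ᵐ ω ∂P, ∀ l l' : Lab (Pos d) d, ∀ T : ℕ, l ≠ l' →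
      ¬ ∃ s : ℝ, 0 < s ∧ s ≤ T ∧ s ∈ C.ring ω l ∧ s ∈ C.ring ω l' := by
    rw [ae_all_iff]; intro l
    rw [ae_all_iff]; intro l'
    rw [ae_all_iff]; intro T
    by_cases hl : l = l'
    · exact Filter.Eventually.of_forall fun ω h => absurd hl h
    · have := measure_eq_zero_iff_ae_notMem.mp (P2a.pair_null hδ C l l' hl T)
      filter_upwards [this] with ω hω _ using hω
  filter_upwards [h] with ω hω l l' hl s hs h1 h2
  obtain ⟨T, hT⟩ := exists_nat_ge s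
  exact hω l l' T hl ⟨s, hs, hT, h1, h2⟩

end PL

end ZP.Rows
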