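import Pool.Agent.ZP.PJ
import Pool.Agent.ZI.R2

/-! # Row R2: the torus chain with recovery: detailed balance and reversal with marks, stationarity,
translations -/

set_option autoImplicit false

open scoped ENNReal BigOperators Classical

noncomputable section

namespace ZP.R2aux

open ZP ZI.R2aux

section chain

variable {d : ℕ} {m : Model} {δ : ℝ} (q : Par d m δ)

lemma stepA_of_mark {M K : ℕ} {η : Tor d M → ℕ} {a : Let d M K} {x : Tor d M}
    (h : mark a = some x) : stepA η a = η := by
  unfold mark at h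
  unfold stepA
  cases h1 : toLab a with
  | none => rfl
  | some l =>
    rw [h1] at h
    have h2 : (if l.2.1 = 0 then some l.1 else none) = some x := h
    obtain ⟨y, k, e⟩ := l
    cases k with
    | zero => rfl
    | succ k => simp at h2

lemma sum_w' (hd : 0 < d) : ∑ a, q.w a = 1 := by
  have h := Rows.sum_w_prj q hd (fun _ => 1)
  simp only [mul_one] at h
  rw [h]
  exact ZI.R2aux.sum_w' q.toZI hd

/-- transition probabilities with marks -/
def tr (η : Tor d q.M → ℕ) (z : Option (Tor d q.M) × (Tor d q.M → ℕ)) : ℝ≥0∞ :=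
  ∑ a, if (mark a, stepA η a) = z then q.w a else 0

lemma balance_aux (hd : 0 < d) (o : Option (Tor d q.M)) (η η' : Tor d q.M → ℕ) :
    prw (m.m1 q.K) η * (∑ a, if stepA η a = η' ∧ mark a = o then q.w a else 0) =
      prw (m.m1 q.K) η' * (∑ a, if stepA η' a = η ∧ mark a = o then q.w a else 0) := by
  by_cases hne : η = η'
  · rw [hne]
  cases o with
  | some x =>
    have h1 : ∀ a : Let d q.M (q.K + 1), ¬ (stepA η a = η' ∧ mark a = some x) := by
      rintro a ⟨h1, h2⟩
      rw [stepA_of_mark h2] at h1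
      exact hne h1
    have h2 : ∀ a : Let d q.M (q.K + 1), ¬ (stepA η' a = η ∧ mark a = some x) := by
      rintro a ⟨h1, h2⟩
      rw [stepA_of_mark h2] at h1
      exact hne h1.symm
    rw [Finset.sum_eq_zero fun a _ => if_neg (h1 a), Finset.sum_eq_zero fun a _ => if_neg (h2 a),
      mul_zero, mul_zero]
  | none =>
    have key : ∀ ξ ξ' : Tor d q.M → ℕ, ξ ≠ ξ' →
        (∑ a, if stepA ξ a = ξ' ∧ mark a = none then q.w a else 0) =
          ∑ b : Let d q.M q.K, (q.toZI.w : Let d q.M q.K → ℝ≥0∞) b *
            (if ZI.stepA ξ b = ξ' then (1 : ℝ≥0∞) else 0) := by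
      intro ξ ξ' hξ
      have h1 : ∀ a : Let d q.M (q.K + 1), (if stepA ξ a = ξ' ∧ mark a = none then q.w a else 0) =
          q.w a * (fun b : Let d q.M q.K => if ZI.stepA ξ b = ξ' then (1 : ℝ≥0∞) else 0) (prj a) := by
        intro a
        have h2 := Rows.stepA_prj (d := d) ξ a
        show _ = q.w a * (if ZI.stepA ξ (prj a) = ξ' then (1 : ℝ≥0∞) else 0)
        rw [← h2]
        by_cases h3 : stepA ξ a = ξ'
        · have h4 : mark a = none := by
            cases h5 : mark a with
            | none => rfl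
            | some x => exact absurd ((stepA_of_mark h5).symm.trans h3) hξ
          rw [if_pos ⟨h3, h4⟩, if_pos h3, mul_one]
        · rw [if_neg (fun h => h3 h.1), if_neg h3, mul_zero]
      rw [Finset.sum_congr rfl fun a _ => h1 a]
      exact Rows.sum_w_prj q hd (fun b : Let d q.M q.K => if ZI.stepA ξ b = ξ' then (1 : ℝ≥0∞) else 0)
    have key2 : ∀ ξ ξ' : Tor d q.M → ℕ,
        ∑ b : Let d q.M q.K, (q.toZI.w : Let d q.M q.K → ℝ≥0∞) b *
            (if ZI.stepA ξ b = ξ' then (1 : ℝ≥0∞) else 0) = ZI.R2aux.tr q.toZI ξ ξ' := by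
      intro ξ ξ'
      refine Finset.sum_congr rfl fun b _ => ?_
      by_cases h3 : ZI.stepA ξ b = ξ'
      · rw [if_pos h3]
        refine (mul_one _).trans ?_
        exact (if_pos h3).symm
      · rw [if_neg h3]
        refine (mul_zero _).trans ?_
        exact (if_neg h3).symm
    rw [key η η' hne, key η' η (Ne.symm hne), key2, key2]
    exact ZI.R2aux.balance' q.toZI η η'

lemma balance' (hd : 0 < d) (o : Option (Tor d q.M)) (η η' : Tor d q.M → ℕ) :
    prw (m.m1 q.K) η * tr q η (o, η') = prw (m.m1 q.K) η' * tr q η' (o, η) := by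
  have h := balance_aux q hd o η η'
  have h1 : ∀ ξ ξ' : Tor d q.M → ℕ, tr q ξ (o, ξ') =
      ∑ a, if stepA ξ a = ξ' ∧ mark a = o then q.w a else 0 := by
    intro ξ ξ'
    unfold tr
    refine Finset.sum_congr rfl fun a _ => ?_
    by_cases h2 : (mark a, stepA ξ a) = (o, ξ')
    · rw [if_pos h2]
      rw [Prod.mk.injEq] at h2
      rw [if_pos ⟨h2.2, h2.1⟩]
    · rw [if_neg h2]
      rw [Prod.mk.injEq] at h2
      rw [if_neg (fun h3 => h2 ⟨h3.2, h3.1⟩)]
  rw [h1, h1]
  exact h

lemma sum_step (F : Option (Tor d q.M) × (Tor d q.M → ℕ) → ℝ≥0∞) (η : Tor d q.M → ℕ) :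
    ∑ a, q.w a * F (mark a, stepA η a) = ∑' z, tr q η z * F z := by
  unfold tr
  simp_rw [Finset.sum_mul]
  rw [Summable.tsum_finsetSum (fun i _ => ENNReal.summable)]
  refine Finset.sum_congr rfl fun a _ => ?_
  rw [tsum_eq_single (mark a, stepA η a)]
  · rw [if_pos rfl]
  · intro y hy
    rw [if_neg (Ne.symm hy), zero_mul]

/-- the expectation of a function of the path with its marks -/
def HE (N : ℕ) (F : List (Tor d q.M → ℕ) → List (Option (Tor d q.M)) → ℝ≥0∞)
    (η : Tor d q.M → ℕ) : ℝ≥0∞ :=
  EvE q.w N (fun l => F (path η l) (l.map mark))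

lemma HE_congr (N : ℕ) (F G : List (Tor d q.M → ℕ) → List (Option (Tor d q.M)) → ℝ≥0∞)
    (η : Tor d q.M → ℕ)
    (h : ∀ l : List (Let d q.M (q.K + 1)), F (path η l) (l.map mark) = G (path η l) (l.map mark)) :
    HE q N F η = HE q N G η := by
  unfold HE
  exact congrArg (EvE q.w N) (funext h)

lemma HE_succ (N : ℕ) (F : List (Tor d q.M → ℕ) → List (Option (Tor d q.M)) → ℝ≥0∞)
    (η : Tor d q.M → ℕ) :
    HE q (N + 1) F η = ∑' z : Option (Tor d q.M) × (Tor d q.M → ℕ),
      tr q η z * HE q N (fun L O => F (η :: L) (z.1 :: O)) z.2 := by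
  rw [← sum_step q (fun z => HE q N (fun L O => F (η :: L) (z.1 :: O)) z.2) η]
  rfl

lemma HE_tsum_mul {ι : Type} (N : ℕ) (c : ι → ℝ≥0∞)
    (F : ι → List (Tor d q.M → ℕ) → List (Option (Tor d q.M)) → ℝ≥0∞) (η : Tor d q.M → ℕ) :
    HE q N (fun L O => ∑' i, c i * F i L O) η = ∑' i, c i * HE q N (F i) η := by
  unfold HE
  rw [EvE_tsum]
  exact tsum_congr fun i => EvE_mul q.w (c i) N (fun l => F i (path η l) (l.map mark))

lemma path_ne_nil (η : Tor d q.M → ℕ) (l : List (Let d q.M (q.K + 1))) : path η l ≠ [] := by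
  cases l <;> simp [path]

lemma head_path (η η0 : Tor d q.M → ℕ) (l : List (Let d q.M (q.K + 1))) :
    (path η l).headD η0 = η := by
  cases l <;> rfl

lemma HE_snoc (η0 : Tor d q.M → ℕ) : ∀ (N : ℕ)
    (F : List (Tor d q.M → ℕ) → List (Option (Tor d q.M)) → ℝ≥0∞)
    (η : Tor d q.M → ℕ), HE q (N + 1) F η =
      HE q N (fun L O => ∑' z : Option (Tor d q.M) × (Tor d q.M → ℕ),
        tr q (L.getLastD η0) z * F (L ++ [z.2]) (O ++ [z.1])) η
  | 0, F, η => by
      rw [HE_succ]
      rfl
  | N + 1, F, η => by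
      rw [HE_succ, HE_succ]
      refine tsum_congr fun y => ?_
      congr 1
      rw [HE_snoc η0 N (fun L O => F (η :: L) (y.1 :: O)) y.2]
      refine HE_congr q N _ _ y.2 fun l => ?_
      obtain ⟨a, t, hl⟩ := List.exists_cons_of_ne_nil (path_ne_nil q y.2 l)
      rw [hl]
      rfl

lemma reversal_aux (hd : 0 < d) :
    ∀ (N : ℕ) (F : List (Tor d q.M → ℕ) → List (Option (Tor d q.M)) → ℝ≥0∞),
      ∑' η, prw (m.m1 q.K) η * HE q N F η =
        ∑' η, prw (m.m1 q.K) η * HE q N (fun L O => F L.reverse O.reverse) η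
  | 0, F => rfl
  | N + 1, F => by
      have h1 : ∑' η, prw (m.m1 q.K) η * HE q (N + 1) F η =
          ∑' η, prw (m.m1 q.K) η *
            HE q N (fun L O => ∑' z : Option (Tor d q.M) × (Tor d q.M → ℕ),
              tr q (L.headD 0) z * F (z.2 :: L) (z.1 :: O)) η := by
        calc ∑' η, prw (m.m1 q.K) η * HE q (N + 1) F η
            = ∑' η : Tor d q.M → ℕ, ∑' o : Option (Tor d q.M), ∑' y : Tor d q.M → ℕ,
                prw (m.m1 q.K) η * (tr q η (o, y) *
                  HE q N (fun L O => F (η :: L) (o :: O)) y) := by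
              refine tsum_congr fun η => ?_
              rw [HE_succ, ← ENNReal.tsum_mul_left, ENNReal.tsum_prod']
          _ = ∑' o : Option (Tor d q.M), ∑' η : Tor d q.M → ℕ, ∑' y : Tor d q.M → ℕ,
                prw (m.m1 q.K) η * (tr q η (o, y) *
                  HE q N (fun L O => F (η :: L) (o :: O)) y) := ENNReal.tsum_comm
          _ = ∑' o : Option (Tor d q.M), ∑' y : Tor d q.M → ℕ, ∑' η : Tor d q.M → ℕ,
                prw (m.m1 q.K) η * (tr q η (o, y) *
                  HE q N (fun L O => F (η :: L) (o :: O)) y) :=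
              tsum_congr fun o => ENNReal.tsum_comm
          _ = ∑' y : Tor d q.M → ℕ, ∑' o : Option (Tor d q.M), ∑' η : Tor d q.M → ℕ,
                prw (m.m1 q.K) η * (tr q η (o, y) *
                  HE q N (fun L O => F (η :: L) (o :: O)) y) := ENNReal.tsum_comm
          _ = ∑' y, prw (m.m1 q.K) y * ∑' z : Option (Tor d q.M) × (Tor d q.M → ℕ),
                tr q y z * HE q N (fun L O => F (z.2 :: L) (z.1 :: O)) y := by
              refine tsum_congr fun y => ?_
              rw [ENNReal.tsum_prod', ← ENNReal.tsum_mul_left]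
              refine tsum_congr fun o => ?_
              rw [← ENNReal.tsum_mul_left]
              refine tsum_congr fun η => ?_
              rw [← mul_assoc, balance' q hd o η y, mul_assoc]
          _ = _ := by
              refine tsum_congr fun y => ?_
              rw [← HE_tsum_mul q N (fun z => tr q y z)
                (fun z L O => F (z.2 :: L) (z.1 :: O)) y]
              congr 1
              refine HE_congr q N _ _ y fun l => ?_
              rw [head_path]
      rw [h1, reversal_aux hd N]
      refine tsum_congr fun η => ?_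
      rw [HE_snoc q 0 N (fun L O => F L.reverse O.reverse) η]
      congr 1
      refine HE_congr q N _ _ η fun l => ?_
      refine tsum_congr fun y => ?_
      have h2 : ((path η l).reverse).headD 0 = (path η l).getLastD 0 := by
        rw [List.headD_eq_head?_getD, List.head?_reverse, List.getLastD_eq_getLast?]
      rw [h2, List.reverse_append, List.reverse_append]
      rfl

lemma sum_tr (hd : 0 < d) (η : Tor d q.M → ℕ) : ∑' z, tr q η z = 1 := by
  have h := sum_step q (fun _ => 1) η
  simp only [mul_one] at h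
  rw [← h, sum_w' q hd]

lemma stat_aux (hd : 0 < d) (F : (Tor d q.M → ℕ) → ℝ≥0∞) : ∀ N : ℕ,
    ∑' η, prw (m.m1 q.K) η * EvE q.w N (fun l => F (l.foldl stepA η)) =
      ∑' η, prw (m.m1 q.K) η * F η
  | 0 => rfl
  | N + 1 => by
      rw [← stat_aux hd F N]
      calc ∑' η, prw (m.m1 q.K) η * EvE q.w (N + 1) (fun l => F (l.foldl stepA η))
          = ∑' η : Tor d q.M → ℕ, ∑' o : Option (Tor d q.M), ∑' y : Tor d q.M → ℕ,
              prw (m.m1 q.K) η * (tr q η (o, y) *
              EvE q.w N (fun l => F (l.foldl stepA y))) := by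
            refine tsum_congr fun η => ?_
            rw [show EvE q.w (N + 1) (fun l => F (l.foldl stepA η)) =
              ∑ a, q.w a * (fun z : Option (Tor d q.M) × (Tor d q.M → ℕ) =>
                EvE q.w N (fun l => F (l.foldl stepA z.2))) (mark a, stepA η a) from rfl,
              sum_step q (fun z => EvE q.w N (fun l => F (l.foldl stepA z.2))) η,
              ← ENNReal.tsum_mul_left, ENNReal.tsum_prod']
        _ = ∑' o : Option (Tor d q.M), ∑' η : Tor d q.M → ℕ, ∑' y : Tor d q.M → ℕ,
              prw (m.m1 q.K) η * (tr q η (o, y) *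
              EvE q.w N (fun l => F (l.foldl stepA y))) := ENNReal.tsum_comm
        _ = ∑' o : Option (Tor d q.M), ∑' y : Tor d q.M → ℕ, ∑' η : Tor d q.M → ℕ,
              prw (m.m1 q.K) η * (tr q η (o, y) *
              EvE q.w N (fun l => F (l.foldl stepA y))) := tsum_congr fun o => ENNReal.tsum_comm
        _ = ∑' y : Tor d q.M → ℕ, ∑' o : Option (Tor d q.M), ∑' η : Tor d q.M → ℕ,
              prw (m.m1 q.K) η * (tr q η (o, y) *
              EvE q.w N (fun l => F (l.foldl stepA y))) := ENNReal.tsum_comm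
        _ = ∑' y, prw (m.m1 q.K) y * EvE q.w N (fun l => F (l.foldl stepA y)) := by
            refine tsum_congr fun y => ?_
            have h : ∀ (o : Option (Tor d q.M)) (η : Tor d q.M → ℕ),
                prw (m.m1 q.K) η * (tr q η (o, y) *
                EvE q.w N (fun l => F (l.foldl stepA y))) =
                tr q y (o, η) * (prw (m.m1 q.K) y * EvE q.w N (fun l => F (l.foldl stepA y))) :=
              fun o η => by
                rw [← mul_assoc, balance' q hd o η y]
                ring
            simp_rw [h]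
            rw [← ENNReal.tsum_prod' (f := fun z : Option (Tor d q.M) × (Tor d q.M → ℕ) =>
              tr q y z * (prw (m.m1 q.K) y * EvE q.w N (fun l => F (l.foldl stepA y))))]
            rw [ENNReal.tsum_mul_right, sum_tr q hd, one_mul]

lemma w_shL (z : Tor d q.M) (a : Let d q.M (q.K + 1)) : q.w (shE z a) = q.w a := by
  cases a <;> rfl

end chain

end ZP.R2aux

namespace ZP.Rows

open ZP ZP.R2aux

variable {d : ℕ} {m : Model} {δ : ℝ} (q : Par d m δ)

theorem sum_w (hd : 0 < d) : ∑ a, q.w a = 1 := ZP.R2aux.sum_w' q hd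

/-- detailed balance, for every mark -/
theorem balance (hd : 0 < d) (o : Option (Tor d q.M)) (η η' : Tor d q.M → ℕ) :
    prw (m.m1 q.K) η * (∑ a, if stepA η a = η' ∧ mark a = o then q.w a else 0) =
      prw (m.m1 q.K) η' * (∑ a, if stepA η' a = η ∧ mark a = o then q.w a else 0) :=
  balance_aux q hd o η η'

/-- reversal of the path with its marks -/
theorem reversal (hd : 0 < d) (N : ℕ)
    (F : List (Tor d q.M → ℕ) → List (Option (Tor d q.M)) → ℝ≥0∞) :
    q.EE N (fun η l => F (path η l) (l.map mark)) =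
      q.EE N (fun η l => F (path η l).reverse (l.map mark).reverse) :=
  reversal_aux q hd N F

/-- stationarity -/
theorem stationary (hd : 0 < d) (N M : ℕ)
    (F : (Tor d q.M → ℕ) → List (Let d q.M (q.K + 1)) → ℝ≥0∞) :
    q.EE (N + M) (fun η l => F ((l.take N).foldl stepA η) (l.drop N)) = q.EE M F := by
  unfold Par.EE
  rw [← stat_aux q hd (fun η => EvE q.w M (F η)) N]
  refine tsum_congr fun η => ?_
  exact congrArg _ (ZI.R2aux.EvE_take_drop q.w M N (fun l l' => F (l.foldl stepA η) l'))

/-- past and future are independent given the present; the past is a reversed chain -/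
theorem past_future (hd : 0 < d) (N M : ℕ) (F : List (Tor d q.M → ℕ) → List (Option (Tor d q.M)) →
    List (Let d q.M (q.K + 1)) → ℝ≥0∞) :
    q.EE (N + M) (fun η l => F (path η (l.take N)).reverse ((l.take N).map mark).reverse (l.drop N)) =
      q.EE (N + M) (fun η l => F (path η (l.take N)) ((l.take N).map mark) (l.drop N)) := by
  have h := reversal q hd N (fun L O => EvE q.w M (F L O))
  unfold Par.EE at h ⊢
  have h1 : ∀ η : Tor d q.M → ℕ,
      EvE q.w (N + M) (fun l => F (path η (l.take N)).reverse ((l.take N).map mark).reverse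
        (l.drop N)) =
        EvE q.w N (fun l => EvE q.w M (F (path η l).reverse (l.map mark).reverse)) := fun η =>
    ZI.R2aux.EvE_take_drop q.w M N (fun l l' => F (path η l).reverse (l.map mark).reverse l')
  have h2 : ∀ η : Tor d q.M → ℕ,
      EvE q.w (N + M) (fun l => F (path η (l.take N)) ((l.take N).map mark) (l.drop N)) =
        EvE q.w N (fun l => EvE q.w M (F (path η l) (l.map mark))) := fun η =>
    ZI.R2aux.EvE_take_drop q.w M N (fun l l' => F (path η l) (l.map mark) l')
  simp_rw [h1, h2]
  exact h.symm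

/-- translation invariance -/
theorem translation (z : Tor d q.M) (N : ℕ)
    (F : (Tor d q.M → ℕ) → List (Let d q.M (q.K + 1)) → ℝ≥0∞) :
    q.EE N (fun η l => F (fun x => η (x - z)) (l.map (shL z))) = q.EE N F := by
  unfold Par.EE
  have h1 : ∀ η : Tor d q.M → ℕ,
      EvE q.w N (fun l => F (fun x => η (x - z)) (l.map (shL z))) =
        EvE q.w N (F (fun x => η (x - z))) := fun η =>
    ZI.R2aux.EvE_map q.w (ZI.R2aux.shE z) (w_shL q z) N (F (fun x => η (x - z)))
  simp_rw [h1]
  rw [← Equiv.tsum_eq (Equiv.arrowCongr (Equiv.addRight z) (Equiv.refl ℕ))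
    (fun η => prw (m.m1 q.K) η * EvE q.w N (F η))]
  refine tsum_congr fun η => ?_
  have h2 : (Equiv.arrowCongr (Equiv.addRight z) (Equiv.refl ℕ)) η = fun x => η (x - z) := by
    funext x
    simp [Equiv.arrowCongr, sub_eq_add_neg]
  rw [h2]
  congr 1
  unfold ZI.prw
  exact (Equiv.prod_comp (Equiv.subRight z) (fun x => m.m1 q.K (η x))).symm

end ZP.Rows
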