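import Pool.Agent.ZP.M0
import Pool.Agent.ZI.C5
import Pool.Agent.ZI.C6
import Pool.Agent.ZI.C8
import Pool.Agent.ZI.LK

/-! # Row LO: locality, the system restricted to a bigger ball -/

set_option autoImplicit false

open scoped ENNReal BigOperators Classical

noncomputable section

namespace ZI.LO

open ZI ZI.R2aux

variable {d : ℕ}

/-! ### hitting against the final value -/

section hits

variable {σ α : Type} [Fintype α] (w : α → ℝ≥0∞)

theorem iter_le (step : σ → α → σ) (inv : σ → Prop) (f : σ → ℝ≥0∞) (c : ℝ≥0∞)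
    (hinv : ∀ s a, inv s → inv (step s a))
    (hf : ∀ s, inv s → f s ≤ c * ∑ a, w a * f (step s a)) (N : ℕ) :
    ∀ s, inv s → f s ≤ c ^ N * EvE w N (fun l => f (l.foldl step s)) := by
  induction N with
  | zero =>
    intro s _
    rw [pow_zero, one_mul, EvE_zero]
    exact le_rfl
  | succ N ih =>
    intro s hs
    calc f s ≤ c * ∑ a, w a * f (step s a) := hf s hs
      _ ≤ c * ∑ a, w a * (c ^ N * EvE w N (fun l => f (l.foldl step (step s a)))) := by
          gcongr with a _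
          exact ih _ (hinv s a hs)
      _ = c ^ (N + 1) * EvE w (N + 1) (fun l => f (l.foldl step s)) := by
          rw [EvE_succ, Finset.mul_sum, Finset.mul_sum]
          refine Finset.sum_congr rfl fun a _ => ?_
          simp only [List.foldl_cons]
          ring

theorem hits_le (hw : ∑ a, w a = 1) (step : σ → α → σ) (inv bad : σ → Prop) (f : σ → ℝ≥0∞)
    (c : ℝ≥0∞) (hc : 1 ≤ c) (hinv : ∀ s a, inv s → inv (step s a))
    (hbad : ∀ s, inv s → bad s → 1 ≤ f s)
    (hf : ∀ s, inv s → f s ≤ c * ∑ a, w a * f (step s a)) (N : ℕ) :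
    ∀ s, inv s → PrE w N (fun l => ∃ i ≤ N, bad ((l.take i).foldl step s)) ≤
      c ^ N * EvE w N (fun l => f (l.foldl step s)) := by
  induction N with
  | zero =>
    intro s hs
    unfold PrE
    rw [EvE_zero, EvE_zero, pow_zero, one_mul]
    split_ifs with h
    · obtain ⟨i, -, hi⟩ := h
      rw [List.take_nil] at hi
      exact hbad s hs hi
    · exact bot_le
  | succ N ih =>
    intro s hs
    by_cases hb : bad s
    · exact (PrE_le_one w hw _ _).trans ((hbad s hs hb).trans (iter_le w step inv f c hinv hf _ s hs))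
    · have h1 : ∀ a, PrE w N (fun l => ∃ i ≤ N + 1, bad (((a :: l).take i).foldl step s)) ≤
          c ^ N * EvE w N (fun l => f (l.foldl step (step s a))) := by
        intro a
        refine le_trans ?_ (ih (step s a) (hinv s a hs))
        refine PrE_mono w N fun l _ => ?_
        rintro ⟨i, hi, hbi⟩
        cases i with
        | zero => exact absurd hbi hb
        | succ j => exact ⟨j, by omega, hbi⟩
      calc PrE w (N + 1) (fun l => ∃ i ≤ N + 1, bad ((l.take i).foldl step s)) =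
          ∑ a, w a * PrE w N (fun l => ∃ i ≤ N + 1, bad (((a :: l).take i).foldl step s)) := rfl
        _ ≤ ∑ a, w a * (c ^ N * EvE w N (fun l => f (l.foldl step (step s a)))) := by
            gcongr with a _
            exact h1 a
        _ = c ^ N * EvE w (N + 1) (fun l => f (l.foldl step s)) := by
            rw [EvE_succ, Finset.mul_sum]
            refine Finset.sum_congr rfl fun a _ => ?_
            simp only [List.foldl_cons]
            ring
        _ ≤ _ := by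
            gcongr
            exact Nat.le_succ N

end hits

/-! ### distance from the centre -/

/-- distance from `x` in the torus -/
def rt {M : ℕ} (x v : Tor d M) : ℕ := sInf {n | v ∈ ZP.Bt x n}

theorem mem_rt {M : ℕ} [NeZero M] (x v : Tor d M) : v ∈ ZP.Bt x (rt x v) := by
  refine Nat.sInf_mem (s := {n | v ∈ ZP.Bt x n}) ?_
  refine ⟨supn (fun j => (((v j - x j).val : ℕ) : ℤ)), _, le_rfl, ?_⟩
  funext j
  simp [tv]

theorem mem_iff {M : ℕ} [NeZero M] (x v : Tor d M) (n : ℕ) : v ∈ ZP.Bt x n ↔ rt x v ≤ n := by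
  constructor
  · exact fun h => Nat.sInf_le h
  · intro h
    obtain ⟨y, hy, rfl⟩ := mem_rt x v
    exact ⟨y, hy.trans h, rfl⟩

theorem rt_step {M : ℕ} [NeZero M] (x v : Tor d M) (e : Dir d) :
    rt x (v + tv (dv e)) ≤ rt x v + 1 := by
  rw [← mem_iff]
  obtain ⟨y, hy, h⟩ := mem_rt x v
  refine ⟨y + dv e, (LK.supn_add_dv y e).trans (by omega), ?_⟩
  rw [Rows.tv_add, ← add_assoc, ← h]

theorem rt_step' {M : ℕ} [NeZero M] (x v : Tor d M) (e : Dir d) :
    rt x v ≤ rt x (v + tv (dv e)) + 1 := by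
  have h := rt_step x (v + tv (dv e)) (ng e)
  rwa [tv_ng, add_neg_cancel_right] at h

theorem card_Bt {M : ℕ} [NeZero M] (x : Tor d M) (n : ℕ) :
    (Finset.univ.filter (fun v => v ∈ ZP.Bt x n)).card ≤ (2 * n + 1) ^ d := by
  have h1 : (Finset.univ.filter (fun v => v ∈ ZP.Bt x n)) ⊆
      (Fintype.piFinset (fun _ : Fin d => Finset.Icc (-(n : ℤ)) n)).image (fun y => x + tv y) := by
    intro v hv
    obtain ⟨y, hy, rfl⟩ := (Finset.mem_filter.1 hv).2
    refine Finset.mem_image.2 ⟨y, ?_, rfl⟩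
    rw [Fintype.mem_piFinset]
    intro j
    have := LK.supn_le.1 hy j
    rw [Finset.mem_Icc]
    omega
  refine (Finset.card_le_card h1).trans (Finset.card_image_le.trans ?_)
  rw [Fintype.card_piFinset]
  simp only [Int.card_Icc, Finset.prod_const, Finset.card_univ, Fintype.card_fin]
  refine Nat.pow_le_pow_left ?_ d
  omega

/-! ### the weighted difference -/

/-- the weighted difference -/
def Sd {V : Type} [Fintype V] (G : V → ℝ≥0∞) (ξ ζ : V → ℕ) : ℝ≥0∞ := ∑ v, ((ξ v - ζ v : ℕ) : ℝ≥0∞) * G v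

theorem Sd_up0 {V : Type} [Fintype V] (G : V → ℝ≥0∞) (ξ ζ ξ' ζ' : V → ℕ)
    (h : ∀ v, G v ≠ 0 → ξ' v - ζ' v ≤ ξ v - ζ v) : Sd G ξ' ζ' ≤ Sd G ξ ζ := by
  unfold Sd
  refine Finset.sum_le_sum fun v _ => ?_
  by_cases hG : G v = 0
  · rw [hG, mul_zero]
    exact bot_le
  · have h1 : ((ξ' v - ζ' v : ℕ) : ℝ≥0∞) ≤ ((ξ v - ζ v : ℕ) : ℝ≥0∞) := by
      exact_mod_cast h v hG
    exact mul_le_mul_left h1 _

theorem Sd_up1 {V : Type} [Fintype V] (G : V → ℝ≥0∞) (ξ ζ ξ' ζ' : V → ℕ) (y : V)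
    (h : ∀ v, G v ≠ 0 → (v = y → ξ' v - ζ' v ≤ (ξ v - ζ v) + 1) ∧
      (v ≠ y → ξ' v - ζ' v ≤ ξ v - ζ v)) :
    Sd G ξ' ζ' ≤ Sd G ξ ζ + G y := by
  unfold Sd
  have h1 : ∀ v ∈ Finset.univ, ((ξ' v - ζ' v : ℕ) : ℝ≥0∞) * G v ≤
      ((ξ v - ζ v : ℕ) : ℝ≥0∞) * G v + if v = y then G y else 0 := by
    intro v _
    by_cases hG : G v = 0
    · rw [hG, mul_zero]
      exact bot_le
    · obtain ⟨h2, h3⟩ := h v hG
      by_cases hv : v = y
      · have h4 : ((ξ' v - ζ' v : ℕ) : ℝ≥0∞) ≤ ((ξ v - ζ v : ℕ) : ℝ≥0∞) + 1 := by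
          exact_mod_cast h2 hv
        rw [if_pos hv]
        calc _ ≤ (((ξ v - ζ v : ℕ) : ℝ≥0∞) + 1) * G v := mul_le_mul_left h4 _
          _ = _ := by rw [add_mul, one_mul, hv]
      · have h4 : ((ξ' v - ζ' v : ℕ) : ℝ≥0∞) ≤ ((ξ v - ζ v : ℕ) : ℝ≥0∞) := by
          exact_mod_cast h3 hv
        rw [if_neg hv, add_zero]
        exact mul_le_mul_left h4 _
  refine (Finset.sum_le_sum h1).trans ?_
  rw [Finset.sum_add_distrib]
  simp

/-- values after a ring -/
theorem vals {M : ℕ} (η : Tor d M → ℕ) (b : Lab (Tor d M) d) (h : b.2.1 < η b.1) (v : Tor d M) :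
    ∃ δ : ℕ, δ ≤ 1 ∧ (v = b.1 + tv (dv b.2.2) → δ = 1) ∧ (v ≠ b.1 + tv (dv b.2.2) → δ = 0) ∧
      (v = b.1 → mv nbT η b v = η v - 1 + δ) ∧ (v ≠ b.1 → mv nbT η b v = η v + δ) := by
  refine ⟨if v = b.1 + tv (dv b.2.2) then 1 else 0, by split_ifs <;> omega, fun h' => if_pos h',
    fun h' => if_neg h', fun h' => ?_, fun h' => ?_⟩
  · rw [C8.mv_apply η b v h, if_pos h', h']
  · rw [C8.mv_apply η b v h, if_neg h']

/-- one ring, upper bound -/
theorem up {M : ℕ} [NeZero M] (Λ : Set (Tor d M)) (G : Tor d M → ℝ≥0∞) (hG : ∀ v, v ∉ Λ → G v = 0)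
    (ξ ζ : Tor d M → ℕ) (h : ∀ v ∈ Λ, ζ v ≤ ξ v) (b : Lab (Tor d M) d) :
    Sd G (mv nbT ξ b) (if b.1 ∈ Λ then mv nbT ζ b else ζ) ≤ Sd G ξ ζ +
      ((if b.1 ∈ Λ ∧ ζ b.1 ≤ b.2.1 ∧ b.2.1 < ξ b.1 then G (b.1 + tv (dv b.2.2)) else 0) +
      (if b.1 ∉ Λ ∧ b.2.1 < ξ b.1 then G (b.1 + tv (dv b.2.2)) else 0)) := by
  have hΛ : ∀ v, G v ≠ 0 → v ∈ Λ := fun v hv => by
    by_contra h'
    exact hv (hG v h')
  by_cases h1 : b.2.1 < ξ b.1
  · by_cases h2 : b.1 ∈ Λ
    · have h3 := h b.1 h2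
      rw [if_pos h2]
      by_cases h4 : b.2.1 < ζ b.1
      · refine (Sd_up0 G ξ ζ _ _ fun v hv => ?_).trans le_self_add
        obtain ⟨δ, -, e1, e2, e3, e4⟩ := vals ξ b h1 v
        obtain ⟨δ', -, f1, f2, f3, f4⟩ := vals ζ b h4 v
        have h0 := h v (hΛ v hv)
        have hδ : δ = δ' := by
          by_cases hv' : v = b.1 + tv (dv b.2.2)
          · rw [e1 hv', f1 hv']
          · rw [e2 hv', f2 hv']
        by_cases h5 : v = b.1
        · rw [e3 h5, f3 h5, h5]
          omega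
        · rw [e4 h5, f4 h5]
          omega
      · rw [if_pos ⟨h2, not_lt.1 h4, h1⟩]
        refine (Sd_up1 G ξ ζ _ _ (b.1 + tv (dv b.2.2)) fun v hv => ?_).trans
          (add_le_add_right le_self_add _)
        obtain ⟨δ, e0, e1, e2, e3, e4⟩ := vals ξ b h1 v
        rw [Rows.mv_neff ζ b h4]
        have h0 := h v (hΛ v hv)
        refine ⟨fun _ => ?_, fun h6 => ?_⟩
        · by_cases h5 : v = b.1
          · rw [e3 h5]
            omega
          · rw [e4 h5]
            omega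
        · have := e2 h6
          by_cases h5 : v = b.1
          · rw [e3 h5]
            omega
          · rw [e4 h5]
            omega
    · rw [if_neg h2, if_neg (c := b.1 ∈ Λ ∧ _) (fun h' => h2 h'.1), if_pos ⟨h2, h1⟩, zero_add]
      refine Sd_up1 G ξ ζ _ _ (b.1 + tv (dv b.2.2)) fun v hv => ?_
      obtain ⟨δ, e0, e1, e2, e3, e4⟩ := vals ξ b h1 v
      have h5 : v ≠ b.1 := fun h' => h2 (h' ▸ hΛ v hv)
      have h7 := e4 h5
      refine ⟨fun _ => ?_, fun h6 => ?_⟩
      · rw [h7]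
        omega
      · have := e2 h6
        rw [h7]
        omega
  · refine (Sd_up0 G ξ ζ _ _ fun v hv => ?_).trans le_self_add
    rw [Rows.mv_neff ξ b h1]
    by_cases h2 : b.1 ∈ Λ
    · have h3 := h b.1 h2
      rw [if_pos h2, Rows.mv_neff ζ b (by omega)]
    · rw [if_neg h2]

/-- one ring, lower bound -/
theorem low {M : ℕ} [NeZero M] (Λ : Set (Tor d M)) (G : Tor d M → ℝ≥0∞) (hG : ∀ v, v ∉ Λ → G v = 0)
    (ξ ζ : Tor d M → ℕ) (h : ∀ v ∈ Λ, ζ v ≤ ξ v) (b : Lab (Tor d M) d) :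
    Sd G ξ ζ ≤ Sd G (mv nbT ξ b) (if b.1 ∈ Λ then mv nbT ζ b else ζ) +
      if b.1 ∈ Λ ∧ ζ b.1 ≤ b.2.1 ∧ b.2.1 < ξ b.1 then G b.1 else 0 := by
  have hΛ : ∀ v, G v ≠ 0 → v ∈ Λ := fun v hv => by
    by_contra h'
    exact hv (hG v h')
  by_cases h1 : b.2.1 < ξ b.1
  · by_cases h2 : b.1 ∈ Λ
    · have h3 := h b.1 h2
      rw [if_pos h2]
      by_cases h4 : b.2.1 < ζ b.1
      · refine (Sd_up0 G _ _ ξ ζ fun v hv => ?_).trans le_self_add
        obtain ⟨δ, -, e1, e2, e3, e4⟩ := vals ξ b h1 v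
        obtain ⟨δ', -, f1, f2, f3, f4⟩ := vals ζ b h4 v
        have h0 := h v (hΛ v hv)
        have hδ : δ = δ' := by
          by_cases hv' : v = b.1 + tv (dv b.2.2)
          · rw [e1 hv', f1 hv']
          · rw [e2 hv', f2 hv']
        by_cases h5 : v = b.1
        · rw [e3 h5, f3 h5, h5]
          omega
        · rw [e4 h5, f4 h5]
          omega
      · rw [if_pos ⟨h2, not_lt.1 h4, h1⟩]
        refine Sd_up1 G _ _ ξ ζ b.1 fun v hv => ?_
        obtain ⟨δ, e0, e1, e2, e3, e4⟩ := vals ξ b h1 v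
        rw [Rows.mv_neff ζ b h4]
        refine ⟨fun h5 => ?_, fun h5 => ?_⟩
        · rw [e3 h5]
          omega
        · rw [e4 h5]
          omega
    · rw [if_neg h2, if_neg (fun h' => h2 h'.1), add_zero]
      refine Sd_up0 G _ _ ξ ζ fun v hv => ?_
      obtain ⟨δ, e0, e1, e2, e3, e4⟩ := vals ξ b h1 v
      have h5 : v ≠ b.1 := fun h' => h2 (h' ▸ hΛ v hv)
      rw [e4 h5]
      omega
  · refine (Sd_up0 G _ _ ξ ζ fun v hv => ?_).trans le_self_add
    rw [Rows.mv_neff ξ b h1]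
    by_cases h2 : b.1 ∈ Λ
    · have h3 := h b.1 h2
      rw [if_pos h2, Rows.mv_neff ζ b (by omega)]
    · rw [if_neg h2]

/-- order inside -/
theorem inv_step {M : ℕ} [NeZero M] (Λ : Set (Tor d M)) (ξ ζ : Tor d M → ℕ)
    (h : ∀ v ∈ Λ, ζ v ≤ ξ v) (b : Lab (Tor d M) d) :
    ∀ v ∈ Λ, (if b.1 ∈ Λ then mv nbT ζ b else ζ) v ≤ mv nbT ξ b v := by
  intro v hv
  have h0 := h v hv
  by_cases h1 : b.2.1 < ξ b.1
  · rw [C8.mv_apply ξ b v h1]
    by_cases h2 : b.1 ∈ Λ
    · have h3 := h b.1 h2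
      rw [if_pos h2]
      by_cases h4 : b.2.1 < ζ b.1
      · rw [C8.mv_apply ζ b v h4]
        split_ifs <;> omega
      · rw [Rows.mv_neff ζ b h4]
        by_cases h5 : v = b.1
        · rw [if_pos h5, h5]
          omega
        · rw [if_neg h5]
          omega
    · rw [if_neg h2]
      have h5 : v ≠ b.1 := fun h' => h2 (h' ▸ hv)
      rw [if_neg h5]
      omega
  · rw [Rows.mv_neff ξ b h1]
    by_cases h2 : b.1 ∈ Λ
    · have h3 := h b.1 h2
      rw [if_pos h2, Rows.mv_neff ζ b (by omega)]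
      omega
    · rw [if_neg h2]
      exact h0

theorem real_step (A B : ℝ≥0∞) (x : ℝ) (hx0 : 0 < x) (hx : x ≤ 1 / 8) (hB : B ≠ ∞)
    (h : B ≤ A + ENNReal.ofReal x * B) : B ≤ ENNReal.ofReal (1 + 2 * x) * A := by
  by_cases hA : A = ∞
  · rw [hA, ENNReal.mul_top]
    · exact le_top
    · rw [Ne, ENNReal.ofReal_eq_zero, not_le]
      positivity
  · lift A to NNReal using hA
    lift B to NNReal using hB
    have h2 : (B : ℝ) ≤ A + x * B := by
      have h3 := ENNReal.toReal_mono (by finiteness) h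
      rw [ENNReal.toReal_add (by finiteness) (by finiteness), ENNReal.toReal_mul,
        ENNReal.toReal_ofReal hx0.le] at h3
      simpa using h3
    have hB0 : (0 : ℝ) ≤ B := B.coe_nonneg
    have hA0 : (0 : ℝ) ≤ A := A.coe_nonneg
    have h4 : (1 - x) * B ≤ A := by linarith
    have h5 : 1 ≤ (1 + 2 * x) * (1 - x) := by nlinarith
    have h6 : (B : ℝ) ≤ (1 + 2 * x) * A := by
      calc (B : ℝ) = 1 * B := (one_mul _).symm
        _ ≤ ((1 + 2 * x) * (1 - x)) * B := mul_le_mul_of_nonneg_right h5 hB0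
        _ = (1 + 2 * x) * ((1 - x) * B) := by ring
        _ ≤ (1 + 2 * x) * A := mul_le_mul_of_nonneg_left h4 (by linarith)
    calc (B : ℝ≥0∞) = ENNReal.ofReal (B : ℝ) := (ENNReal.ofReal_coe_nnreal).symm
      _ ≤ ENNReal.ofReal ((1 + 2 * x) * A) := ENNReal.ofReal_le_ofReal h6
      _ = _ := by rw [ENNReal.ofReal_mul (by positivity), ENNReal.ofReal_coe_nnreal]

/-! ### the two systems -/

section chain

variable {m : Model} (q : Par d m)

/-- one letter for the two systems -/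
def st2 {M K : ℕ} (Λ : Set (Tor d M)) (s : (Tor d M → ℕ) × (Tor d M → ℕ)) (a : Let d M K) :
    (Tor d M → ℕ) × (Tor d M → ℕ) := (stepA s.1 a, stepA s.2 (ZP.res Λ a))

theorem st2_none {M K : ℕ} (Λ : Set (Tor d M)) (s : (Tor d M → ℕ) × (Tor d M → ℕ)) :
    st2 Λ s (none : Let d M K) = s := rfl

theorem st2_some {M K : ℕ} (Λ : Set (Tor d M)) (s : (Tor d M → ℕ) × (Tor d M → ℕ))
    (l : Tor d M × Fin K × Dir d) : st2 Λ s (some l) =
      (mv nbT s.1 (l.1, (l.2.1 : ℕ), l.2.2),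
        if l.1 ∈ Λ then mv nbT s.2 (l.1, (l.2.1 : ℕ), l.2.2) else s.2) := by
  unfold st2 ZP.res
  by_cases h : l.1 ∈ Λ
  · simp only [if_pos h]
    rfl
  · simp only [if_neg h]
    rfl

theorem foldl_st2 {M K : ℕ} (Λ : Set (Tor d M)) (l : List (Let d M K)) :
    ∀ s : (Tor d M → ℕ) × (Tor d M → ℕ), l.foldl (st2 Λ) s =
      (l.foldl stepA s.1, (l.map (ZP.res Λ)).foldl stepA s.2) := by
  induction l with
  | nil => intro s; rfl
  | cons a l ih =>
    intro s
    rw [List.foldl_cons, ih]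
    rfl

theorem lam_w (l : Tor d q.M × Fin q.K × Dir d) :
    q.w (some l) ≤ ENNReal.ofReal (m.Gp / (2 * d) * q.p) := by
  have h1 := C8.lam_le m d l.2.1
  have h2 := q.p_pos
  exact ENNReal.ofReal_le_ofReal (by gcongr)

theorem card_k (a b : ℕ) :
    (Finset.univ.filter fun k : Fin q.K => a ≤ (k : ℕ) ∧ (k : ℕ) < b).card ≤ b - a := by
  rw [← Nat.card_Ico]
  refine Finset.card_le_card_of_injOn (fun k => (k : ℕ)) ?_ ?_
  · intro k hk
    have := (Finset.mem_filter.1 hk).2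
    exact Finset.mem_coe.2 (Finset.mem_Ico.2 this)
  · intro k _ k' _ hkk
    exact Fin.ext hkk

/-- the rings that move a difference -/
theorem sum_diff (hd : 0 < d) (Λ : Set (Tor d q.M)) (ξ ζ : Tor d q.M → ℕ)
    (H : Tor d q.M → Dir d → ℝ≥0∞) (G : Tor d q.M → ℝ≥0∞) (hH : ∀ x ∈ Λ, ∀ e, H x e ≤ G x) :
    ∑ l : Tor d q.M × Fin q.K × Dir d, q.w (some l) *
      (if l.1 ∈ Λ ∧ ζ l.1 ≤ (l.2.1 : ℕ) ∧ (l.2.1 : ℕ) < ξ l.1 then H l.1 l.2.2 else 0) ≤
      ENNReal.ofReal (m.Gp * q.p) * Sd G ξ ζ := by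
  have hp := q.p_pos
  have hGp : 0 < m.Gp := by
    have := m.le_Gp
    linarith
  have hd' : (0 : ℝ) < d := by positivity
  rw [Fintype.sum_prod_type]
  unfold Sd
  rw [Finset.mul_sum]
  refine Finset.sum_le_sum fun x _ => ?_
  rw [Fintype.sum_prod_type_right]
  by_cases hx : x ∈ Λ
  · have h1 : ∀ e : Dir d, ∑ k : Fin q.K, q.w (some (x, k, e)) *
        (if x ∈ Λ ∧ ζ x ≤ (k : ℕ) ∧ (k : ℕ) < ξ x then H x e else 0) ≤
        ((ξ x - ζ x : ℕ) : ℝ≥0∞) * (ENNReal.ofReal (m.Gp / (2 * d) * q.p) * G x) := by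
      intro e
      have h2 : ∀ k : Fin q.K, q.w (some (x, k, e)) *
          (if x ∈ Λ ∧ ζ x ≤ (k : ℕ) ∧ (k : ℕ) < ξ x then H x e else 0) ≤
          if ζ x ≤ (k : ℕ) ∧ (k : ℕ) < ξ x then ENNReal.ofReal (m.Gp / (2 * d) * q.p) * G x
            else 0 := by
        intro k
        by_cases hk : ζ x ≤ (k : ℕ) ∧ (k : ℕ) < ξ x
        · rw [if_pos ⟨hx, hk⟩, if_pos hk]
          exact mul_le_mul' (lam_w q _) (hH x hx e)
        · rw [if_neg (fun h => hk h.2), mul_zero]
          exact bot_le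
      refine (Finset.sum_le_sum fun k _ => h2 k).trans ?_
      rw [← Finset.sum_filter, Finset.sum_const, nsmul_eq_mul]
      gcongr
      exact_mod_cast card_k q _ _
    refine (Finset.sum_le_sum fun e _ => h1 e).trans ?_
    rw [Finset.sum_const, Finset.card_univ, Fintype.card_prod, Fintype.card_fin,
      Fintype.card_bool, nsmul_eq_mul]
    have h3 : ((d * 2 : ℕ) : ℝ≥0∞) * ENNReal.ofReal (m.Gp / (2 * d) * q.p) =
        ENNReal.ofReal (m.Gp * q.p) := by
      rw [← ENNReal.ofReal_natCast, ← ENNReal.ofReal_mul (by positivity)]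
      congr 1
      push_cast
      field_simp
    rw [← h3]
    refine le_of_eq ?_
    ring
  · refine le_trans (le_of_eq ?_) bot_le
    refine Finset.sum_eq_zero fun e _ => Finset.sum_eq_zero fun k _ => ?_
    rw [if_neg (fun h => hx h.1), mul_zero]


/-- the difference of a state -/
def fS (G : Tor d q.M → ℝ≥0∞) (s : (Tor d q.M → ℕ) × (Tor d q.M → ℕ)) : ℝ≥0∞ := Sd G s.1 s.2

/-- the order of a state -/
def Inv (Λ : Set (Tor d q.M)) (s : (Tor d q.M → ℕ) × (Tor d q.M → ℕ)) : Prop := ∀ v ∈ Λ, s.2 v ≤ s.1 v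

theorem inv_st2 (Λ : Set (Tor d q.M)) (s : (Tor d q.M → ℕ) × (Tor d q.M → ℕ)) (a : Let d q.M q.K)
    (h : Inv q Λ s) : Inv q Λ (st2 Λ s a) := by
  cases a with
  | none => exact h
  | some l =>
    rw [st2_some]
    exact inv_step Λ s.1 s.2 h (l.1, (l.2.1 : ℕ), l.2.2)

/-- lower drift -/
theorem drift_low (hd : 0 < d) (Λ : Set (Tor d q.M)) (G : Tor d q.M → ℝ≥0∞)
    (hG : ∀ v, v ∉ Λ → G v = 0) (hfin : ∀ v, G v ≠ ∞) (s : (Tor d q.M → ℕ) × (Tor d q.M → ℕ))
    (h : Inv q Λ s) :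
    fS q G s ≤ ENNReal.ofReal (1 + 2 * m.Gp * q.p) * ∑ a, q.w a * fS q G (st2 Λ s a) := by
  have hp := q.p_pos
  have hps := q.p_small
  have hGp : 0 < m.Gp := by
    have := m.le_Gp
    linarith
  have h1 : fS q G s ≤ ∑ a, q.w a * fS q G (st2 Λ s a) +
      ENNReal.ofReal (m.Gp * q.p) * fS q G s := by
    calc fS q G s = ∑ a, q.w a * fS q G s := by rw [← Finset.sum_mul, Rows.sum_w q hd, one_mul]
      _ ≤ ∑ a, q.w a * (fS q G (st2 Λ s a) + (match a with
          | none => 0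
          | some l => if l.1 ∈ Λ ∧ s.2 l.1 ≤ (l.2.1 : ℕ) ∧ (l.2.1 : ℕ) < s.1 l.1 then G l.1
            else 0)) := by
          refine Finset.sum_le_sum fun a _ => mul_le_mul_right ?_ _
          cases a with
          | none => exact le_self_add
          | some l =>
            rw [st2_some]
            exact low Λ G hG s.1 s.2 h (l.1, (l.2.1 : ℕ), l.2.2)
      _ = ∑ a, q.w a * fS q G (st2 Λ s a) + ∑ l : Tor d q.M × Fin q.K × Dir d, q.w (some l) *
          (if l.1 ∈ Λ ∧ s.2 l.1 ≤ (l.2.1 : ℕ) ∧ (l.2.1 : ℕ) < s.1 l.1 then G l.1 else 0) := by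
          simp only [mul_add]
          rw [Finset.sum_add_distrib]
          congr 1
          rw [Fintype.sum_option, mul_zero, zero_add]
      _ ≤ _ := by
          gcongr
          exact sum_diff q hd Λ s.1 s.2 (fun x _ => G x) G (fun x _ _ => le_rfl)
  set A := ∑ a, q.w a * fS q G (st2 Λ s a) with hA
  set B := fS q G s with hB
  have hBfin : B ≠ ∞ := by
    rw [hB]
    unfold fS Sd
    exact ENNReal.sum_ne_top.2 fun v _ => ENNReal.mul_ne_top (ENNReal.natCast_ne_top _) (hfin v)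
  have hx : m.Gp * q.p ≤ 1 / 8 := by linarith
  have h2 := real_step A B (m.Gp * q.p) (by positivity) hx hBfin h1
  rwa [show 1 + 2 * (m.Gp * q.p) = 1 + 2 * m.Gp * q.p by ring] at h2

/-- inflow -/
def infl (Λ : Set (Tor d q.M)) (G : Tor d q.M → ℝ≥0∞) (ξ : Tor d q.M → ℕ) : ℝ≥0∞ :=
  ∑ b : Tor d q.M × Dir d, (if b.1 ∉ Λ then G (b.1 + tv (dv b.2)) else 0) *
    (ENNReal.ofReal (q.p / (2 * d)) * ENNReal.ofReal (m.gK q.K (ξ b.1)))

/-- upper drift -/
theorem drift_up (hd : 0 < d) (Λ : Set (Tor d q.M)) (G : Tor d q.M → ℝ≥0∞)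
    (hG : ∀ v, v ∉ Λ → G v = 0)
    (hG1 : ∀ v ∈ Λ, ∀ e, G (v + tv (dv e)) ≤ ENNReal.ofReal (Real.exp 1) * G v)
    (s : (Tor d q.M → ℕ) × (Tor d q.M → ℕ)) (h : Inv q Λ s) :
    ∑ a, q.w a * fS q G (st2 Λ s a) ≤
      ENNReal.ofReal (1 + 3 * m.Gp * q.p) * fS q G s + infl q Λ G s.1 := by
  have hp := q.p_pos
  have hGp : 0 < m.Gp := by
    have := m.le_Gp
    linarith
  have hd' : (0 : ℝ) < d := by positivity
  have h1 : ∑ a, q.w a * fS q G (st2 Λ s a) ≤ fS q G s +
      (∑ l : Tor d q.M × Fin q.K × Dir d, q.w (some l) *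
          (if l.1 ∈ Λ ∧ s.2 l.1 ≤ (l.2.1 : ℕ) ∧ (l.2.1 : ℕ) < s.1 l.1 then
            G (l.1 + tv (dv l.2.2)) else 0) +
        ∑ l : Tor d q.M × Fin q.K × Dir d, q.w (some l) *
          (if l.1 ∉ Λ ∧ (l.2.1 : ℕ) < s.1 l.1 then G (l.1 + tv (dv l.2.2)) else 0)) := by
    calc ∑ a, q.w a * fS q G (st2 Λ s a) ≤ ∑ a, q.w a * (fS q G s + (match a with
          | none => 0
          | some l => (if l.1 ∈ Λ ∧ s.2 l.1 ≤ (l.2.1 : ℕ) ∧ (l.2.1 : ℕ) < s.1 l.1 then
              G (l.1 + tv (dv l.2.2)) else 0) +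
            (if l.1 ∉ Λ ∧ (l.2.1 : ℕ) < s.1 l.1 then G (l.1 + tv (dv l.2.2)) else 0))) := by
          refine Finset.sum_le_sum fun a _ => mul_le_mul_right ?_ _
          cases a with
          | none => exact le_self_add
          | some l =>
            rw [st2_some]
            exact up Λ G hG s.1 s.2 h (l.1, (l.2.1 : ℕ), l.2.2)
      _ = _ := by
          simp only [mul_add]
          rw [Finset.sum_add_distrib, ← Finset.sum_mul, Rows.sum_w q hd, one_mul]
          congr 1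
          rw [Fintype.sum_option, mul_zero, zero_add]
          simp only [mul_add]
          rw [Finset.sum_add_distrib]
  refine h1.trans ?_
  have h2 := sum_diff q hd Λ s.1 s.2 (fun x e => G (x + tv (dv e)))
    (fun x => ENNReal.ofReal (Real.exp 1) * G x) hG1
  have h3 : Sd (fun x => ENNReal.ofReal (Real.exp 1) * G x) s.1 s.2 =
      ENNReal.ofReal (Real.exp 1) * fS q G s := by
    unfold fS Sd
    rw [Finset.mul_sum]
    exact Finset.sum_congr rfl fun v _ => by ring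
  rw [h3] at h2
  have h4 : ∑ l : Tor d q.M × Fin q.K × Dir d, q.w (some l) *
      (if l.1 ∉ Λ ∧ (l.2.1 : ℕ) < s.1 l.1 then G (l.1 + tv (dv l.2.2)) else 0) =
      infl q Λ G s.1 := by
    unfold infl
    rw [Fintype.sum_prod_type, Fintype.sum_prod_type]
    refine Finset.sum_congr rfl fun x _ => ?_
    rw [Fintype.sum_prod_type_right]
    refine Finset.sum_congr rfl fun e _ => ?_
    by_cases hx : x ∈ Λ
    · rw [if_neg (fun h' => h' hx), zero_mul]
      refine Finset.sum_eq_zero fun k _ => ?_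
      rw [if_neg (fun h' => h'.1 hx), mul_zero]
    · rw [if_pos hx]
      have h5 := sum_lam q (s.1 x)
      have h6 : ENNReal.ofReal (q.p / (2 * d)) * ENNReal.ofReal (m.gK q.K (s.1 x)) =
          ENNReal.ofReal (m.gK q.K (s.1 x) / (2 * d) * q.p) := by
        rw [← ENNReal.ofReal_mul (by positivity)]
        congr 1
        ring
      rw [h6, ← h5, Finset.mul_sum]
      refine Finset.sum_congr rfl fun k _ => ?_
      by_cases hk : (k : ℕ) < s.1 x
      · rw [if_pos ⟨hx, hk⟩, if_pos hk, mul_comm]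
        rfl
      · rw [if_neg (fun h' => hk h'.2), if_neg hk, mul_zero, mul_zero]
  rw [h4, ← add_assoc]
  gcongr
  calc fS q G s + _ ≤ fS q G s + ENNReal.ofReal (m.Gp * q.p) *
        (ENNReal.ofReal (Real.exp 1) * fS q G s) := by
        gcongr
    _ = ENNReal.ofReal (1 + m.Gp * q.p * Real.exp 1) * fS q G s := by
        rw [ENNReal.ofReal_add zero_le_one (by positivity), ENNReal.ofReal_one,
          ENNReal.ofReal_mul (p := m.Gp * q.p) (q := Real.exp 1) (by positivity)]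
        ring
    _ ≤ _ := by
        refine mul_le_mul_left (ENNReal.ofReal_le_ofReal ?_) _
        have := Real.exp_one_lt_d9
        have hx : 0 < m.Gp * q.p := by positivity
        nlinarith

/-- expectation of the inflow -/
theorem EE_infl (hd : 0 < d) (Λ : Set (Tor d q.M)) (G : Tor d q.M → ℝ≥0∞) (c : ℝ≥0∞)
    (hG : ∀ v, v ∉ Λ → G v = 0)
    (hGc : ∀ v, v ∉ Λ → ∀ e, G (v + tv (dv e)) ≤ c) (N : ℕ) :
    q.EE N (fun η l => infl q Λ G (l.foldl stepA η)) ≤
      ((Finset.univ.filter (fun v => v ∈ Λ)).card : ℝ≥0∞) * (c * ENNReal.ofReal (m.φ * q.p)) := by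
  have hp := q.p_pos
  have hφ := m.φ_pos
  have hd' : (0 : ℝ) < d := by positivity
  have h1 : q.EE N (fun η l => infl q Λ G (l.foldl stepA η)) =
      q.EE 0 (fun η _ => infl q Λ G η) := by
    rw [← Rows.stationary q hd N 0 (fun η _ => infl q Λ G η)]
    rw [Nat.add_zero]
    unfold Par.EE
    refine tsum_congr fun η => ?_
    congr 1
    refine EvE_congr q.w N fun l hl => ?_
    show infl q Λ G (l.foldl stepA η) = infl q Λ G ((l.take N).foldl stepA η)
    rw [List.take_of_length_le (by omega)]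
  rw [h1]
  unfold infl
  rw [C5.EE_sum]
  have h2 : ∀ b : Tor d q.M × Dir d, q.EE 0 (fun η _ =>
      (if b.1 ∉ Λ then G (b.1 + tv (dv b.2)) else 0) *
        (ENNReal.ofReal (q.p / (2 * d)) * ENNReal.ofReal (m.gK q.K (η b.1)))) =
      (if b.1 ∉ Λ then G (b.1 + tv (dv b.2)) else 0) *
        (ENNReal.ofReal (q.p / (2 * d)) * ENNReal.ofReal m.φ) := by
    intro b
    rw [C5.EE_mul, C5.EE_mul]
    congr 2
    exact Rows.mean_g m d q b.1
  rw [Finset.sum_congr rfl fun b _ => h2 b, ← Finset.sum_mul]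
  have h3 : ∑ b : Tor d q.M × Dir d, (if b.1 ∉ Λ then G (b.1 + tv (dv b.2)) else 0) ≤
      ∑ b : Tor d q.M × Dir d, (if b.1 ∈ Λ then c else 0) := by
    have h4 : ∀ b : Tor d q.M × Dir d, (if b.1 ∉ Λ then G (b.1 + tv (dv b.2)) else 0) ≤
        if b.1 + tv (dv b.2) ∈ Λ then c else 0 := by
      intro b
      by_cases h5 : b.1 ∈ Λ
      · rw [if_neg (fun h' => h' h5)]
        exact bot_le
      · rw [if_pos h5]
        by_cases h6 : b.1 + tv (dv b.2) ∈ Λ
        · rw [if_pos h6]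
          exact hGc _ h5 _
        · rw [if_neg h6, hG _ h6]
    refine (Finset.sum_le_sum fun b _ => h4 b).trans (le_of_eq ?_)
    exact Fintype.sum_equiv (jumpEquiv q) _ _ (fun b => rfl)
  refine (mul_le_mul_left h3 _).trans (le_of_eq ?_)
  have h8 : ∑ b : Tor d q.M × Dir d, (if b.1 ∈ Λ then c else 0) =
      ((d * 2 : ℕ) : ℝ≥0∞) * (((Finset.univ.filter (fun v => v ∈ Λ)).card : ℝ≥0∞) * c) := by
    calc ∑ b : Tor d q.M × Dir d, (if b.1 ∈ Λ then c else 0) =
        ∑ x : Tor d q.M, ∑ _e : Dir d, (if x ∈ Λ then c else 0) := Fintype.sum_prod_type _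
      _ = ∑ x : Tor d q.M, ((d * 2 : ℕ) : ℝ≥0∞) * (if x ∈ Λ then c else 0) := by
          refine Finset.sum_congr rfl fun x _ => ?_
          rw [Finset.sum_const, Finset.card_univ, Fintype.card_prod, Fintype.card_fin,
            Fintype.card_bool, nsmul_eq_mul]
      _ = _ := by
          rw [← Finset.mul_sum, ← Finset.sum_filter, Finset.sum_const, nsmul_eq_mul]
  rw [h8]
  have h7 : ((d * 2 : ℕ) : ℝ≥0∞) * ENNReal.ofReal (q.p / (2 * d)) = ENNReal.ofReal q.p := by
    rw [← ENNReal.ofReal_natCast, ← ENNReal.ofReal_mul (by positivity)]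
    congr 1
    push_cast
    field_simp
  rw [ENNReal.ofReal_mul hφ.le, ← h7]
  ring

/-- expectation of the final difference -/
theorem EE_fS (hd : 0 < d) (Λ : Set (Tor d q.M)) (G : Tor d q.M → ℝ≥0∞) (c : ℝ≥0∞)
    (hG : ∀ v, v ∉ Λ → G v = 0)
    (hG1 : ∀ v ∈ Λ, ∀ e, G (v + tv (dv e)) ≤ ENNReal.ofReal (Real.exp 1) * G v)
    (hGc : ∀ v, v ∉ Λ → ∀ e, G (v + tv (dv e)) ≤ c) (N : ℕ) :
    q.EE N (fun η l => fS q G (l.foldl (st2 Λ) (η, ZP.cut Λ η))) ≤
      ENNReal.ofReal (1 + 3 * m.Gp * q.p) ^ N * (N *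
        (((Finset.univ.filter (fun v => v ∈ Λ)).card : ℝ≥0∞) *
          (c * ENNReal.ofReal (m.φ * q.p)))) := by
  have hp := q.p_pos
  have hGp : 0 < m.Gp := by
    have := m.le_Gp
    linarith
  set B : ℝ≥0∞ := ((Finset.univ.filter (fun v => v ∈ Λ)).card : ℝ≥0∞) *
          (c * ENNReal.ofReal (m.φ * q.p)) with hB
  have hinv0 : ∀ η : Tor d q.M → ℕ, Inv q Λ (η, ZP.cut Λ η) := by
    intro η v hv
    simp [ZP.cut, hv]
  have hinv : ∀ (l : List (Let d q.M q.K)) (s : (Tor d q.M → ℕ) × (Tor d q.M → ℕ)), Inv q Λ s →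
      Inv q Λ (l.foldl (st2 Λ) s) := by
    intro l
    induction l with
    | nil => exact fun s hs => hs
    | cons a l ih => exact fun s hs => ih _ (inv_st2 q Λ s a hs)
  induction N with
  | zero =>
    refine le_of_eq ?_
    rw [Nat.cast_zero, zero_mul, mul_zero]
    unfold Par.EE
    rw [ENNReal.tsum_eq_zero]
    intro η
    rw [EvE_zero]
    have h0 : fS q G (η, ZP.cut Λ η) = 0 := by
      unfold fS Sd
      refine Finset.sum_eq_zero fun v _ => ?_
      by_cases hv : v ∈ Λ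
      · simp [ZP.cut, hv]
      · rw [hG v hv, mul_zero]
    show prw (m.m1 q.K) η * fS q G (η, ZP.cut Λ η) = 0
    rw [h0, mul_zero]
  | succ N ih =>
    rw [C5.EE_succ]
    calc q.EE N (fun η l => ∑ a, q.w a * fS q G ((l ++ [a]).foldl (st2 Λ) (η, ZP.cut Λ η)))
        ≤ q.EE N (fun η l => ENNReal.ofReal (1 + 3 * m.Gp * q.p) *
            fS q G (l.foldl (st2 Λ) (η, ZP.cut Λ η)) + infl q Λ G (l.foldl stepA η)) := by
          refine C5.EE_mono q N fun η l => ?_
          have h1 := drift_up q hd Λ G hG hG1 _ (hinv l _ (hinv0 η))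
          rw [foldl_st2 Λ l (η, ZP.cut Λ η)] at h1
          simp only [List.foldl_append, List.foldl_cons, List.foldl_nil]
          rw [foldl_st2 Λ l (η, ZP.cut Λ η)]
          exact h1
      _ = ENNReal.ofReal (1 + 3 * m.Gp * q.p) *
            q.EE N (fun η l => fS q G (l.foldl (st2 Λ) (η, ZP.cut Λ η))) +
            q.EE N (fun η l => infl q Λ G (l.foldl stepA η)) := by
          rw [C5.EE_add, C5.EE_mul]
      _ ≤ ENNReal.ofReal (1 + 3 * m.Gp * q.p) *
            (ENNReal.ofReal (1 + 3 * m.Gp * q.p) ^ N * (N * B)) + B := by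
          gcongr
          exact EE_infl q hd Λ G c hG hGc N
      _ ≤ ENNReal.ofReal (1 + 3 * m.Gp * q.p) *
            (ENNReal.ofReal (1 + 3 * m.Gp * q.p) ^ N * (N * B)) +
            ENNReal.ofReal (1 + 3 * m.Gp * q.p) ^ (N + 1) * B := by
          gcongr
          refine le_mul_of_one_le_left' ?_ 
          refine one_le_pow₀ ?_
          rw [← ENNReal.ofReal_one]
          exact ENNReal.ofReal_le_ofReal (by nlinarith)
      _ = _ := by
          push_cast
          ring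

end chain

end ZI.LO

namespace ZP.Rows

open ZI ZI.LO

variable {d : ℕ}

theorem local_ball (m : Model) (d : ℕ) (hd : 0 < d) (φhi : ℝ) : ∃ C : ℕ, ∀ (φ : ℝ) (h : 0 < φ),
    φ ≤ φhi → ∀ q : ZI.Par d (wf m φ h), ∀ (x : Tor d q.M) (ρ D U : ℕ), 2 * (ρ + D) + 4 ≤ q.M →
    q.PP (U * q.N1) (fun η w => ∃ i ≤ U * q.N1, ∃ v ∈ Bt x ρ,
      (w.take i).foldl ZI.stepA η v ≠
        ((w.map (res (Bt x (ρ + D)))).take i).foldl ZI.stepA (cut (Bt x (ρ + D)) η) v) ≤
      ENNReal.ofReal (C * (ρ + D + 1 : ℝ) ^ C * Real.exp (C * U - D)) := by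
  have hGp1 := m.le_Gp
  have hGp : 0 < m.Gp := by linarith
  obtain ⟨C1, hC1⟩ := exists_nat_ge (5 * m.Gp + 1)
  obtain ⟨C2, hC2⟩ := exists_nat_ge (φhi * 2 ^ d)
  refine ⟨C1 + C2 + d, fun φ h hφ q x ρ D U _ => ?_⟩
  have hp := q.p_pos
  set Λ := Bt x (ρ + D) with hΛ
  set G : Tor d q.M → ℝ≥0∞ := fun v =>
    if v ∈ Λ then ENNReal.ofReal (Real.exp ((ρ : ℝ) - rt x v)) else 0 with hG
  have hG0 : ∀ v, v ∉ Λ → G v = 0 := fun v hv => if_neg hv
  have hfin : ∀ v, G v ≠ ∞ := by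
    intro v
    simp only [hG]
    split_ifs
    · exact ENNReal.ofReal_ne_top
    · exact ENNReal.zero_ne_top
  have hG1 : ∀ v ∈ Λ, ∀ e, G (v + tv (dv e)) ≤ ENNReal.ofReal (Real.exp 1) * G v := by
    intro v hv e
    simp only [hG]
    rw [if_pos hv]
    split_ifs with h1
    · rw [← ENNReal.ofReal_mul (Real.exp_pos _).le, ← Real.exp_add]
      refine ENNReal.ofReal_le_ofReal (Real.exp_le_exp.2 ?_)
      have h2 : (rt x v : ℝ) ≤ rt x (v + tv (dv e)) + 1 := by exact_mod_cast rt_step' x v e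
      linarith
    · exact bot_le
  have hGc : ∀ v, v ∉ Λ → ∀ e, G (v + tv (dv e)) ≤ ENNReal.ofReal (Real.exp (-(D : ℝ))) := by
    intro v hv e
    simp only [hG]
    split_ifs with h1
    · refine ENNReal.ofReal_le_ofReal (Real.exp_le_exp.2 ?_)
      rw [hΛ, mem_iff, not_le] at hv
      have h2 := rt_step' x v e
      have h3 : ρ + D ≤ rt x (v + tv (dv e)) := by omega
      have h4 : (ρ : ℝ) + D ≤ rt x (v + tv (dv e)) := by exact_mod_cast h3
      linarith
    · exact bot_le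
  set N := U * q.N1 with hN
  -- hitting against the final value
  have h1 : q.PP N (fun η w => ∃ i ≤ N, ∃ v ∈ Bt x ρ, (w.take i).foldl ZI.stepA η v ≠
      ((w.map (res Λ)).take i).foldl ZI.stepA (cut Λ η) v) ≤
      ENNReal.ofReal (1 + 2 * m.Gp * q.p) ^ N *
        q.EE N (fun η l => fS q G (l.foldl (st2 Λ) (η, cut Λ η))) := by
    rw [← C5.EE_mul]
    unfold ZI.Par.PP ZI.Par.EE
    refine ENNReal.tsum_le_tsum fun η => mul_le_mul_right ?_ _
    rw [EvE_mul]
    have h2 := hits_le q.w (ZI.Rows.sum_w q hd) (st2 Λ) (Inv q Λ)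
      (fun s => ∃ v ∈ Bt x ρ, s.1 v ≠ s.2 v) (fS q G) (ENNReal.ofReal (1 + 2 * m.Gp * q.p))
      (by
        rw [← ENNReal.ofReal_one]
        exact ENNReal.ofReal_le_ofReal (by nlinarith [mul_pos hGp hp]))
      (fun s a hs => inv_st2 q Λ s a hs)
      (by
        rintro s hs ⟨v, hv, hne⟩
        have hvΛ : v ∈ Λ := by
          rw [hΛ, mem_iff]
          rw [mem_iff] at hv
          omega
        have h3 := hs v hvΛ
        have h4 : 1 ≤ s.1 v - s.2 v := by omega
        unfold fS Sd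
        refine le_trans ?_ (Finset.single_le_sum (f := fun v => ((s.1 v - s.2 v : ℕ) : ℝ≥0∞) * G v)
          (fun _ _ => bot_le) (Finset.mem_univ v))
        have h5 : (1 : ℝ≥0∞) ≤ ((s.1 v - s.2 v : ℕ) : ℝ≥0∞) := by exact_mod_cast h4
        have h6 : (1 : ℝ≥0∞) ≤ G v := by
          simp only [hG]
          rw [if_pos hvΛ, ← ENNReal.ofReal_one]
          refine ENNReal.ofReal_le_ofReal (Real.one_le_exp ?_)
          rw [mem_iff] at hv
          have : (rt x v : ℝ) ≤ ρ := by exact_mod_cast hv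
          linarith
        calc (1 : ℝ≥0∞) = 1 * 1 := (one_mul 1).symm
          _ ≤ _ := mul_le_mul' h5 h6)
      (fun s hs => drift_low q hd Λ G hG0 hfin s hs) N (η, cut Λ η)
      (by
        intro v hv
        simp [ZP.cut, hv])
    refine le_trans (EvE_mono q.w N fun l hl => ?_) h2
    beta_reduce
    by_cases hE : ∃ i ≤ N, ∃ v ∈ Bt x ρ, (l.take i).foldl ZI.stepA η v ≠
      ((l.map (res Λ)).take i).foldl ZI.stepA (cut Λ η) v
    · rw [if_pos hE, if_pos]
      obtain ⟨i, hi, v, hv, hne⟩ := hE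
      refine ⟨i, hi, v, hv, ?_⟩
      rw [foldl_st2, List.map_take]
      exact hne
    · rw [if_neg hE]
      exact bot_le
  refine h1.trans ?_
  have h2 := EE_fS q hd Λ G _ hG0 hG1 hGc N
  refine (mul_le_mul_right h2 _).trans ?_
  have hcard : ((Finset.univ.filter (fun v => v ∈ Λ)).card : ℝ≥0∞) ≤
      ENNReal.ofReal ((2 * (ρ + D : ℝ) + 1) ^ d) := by
    have h3 := card_Bt x (ρ + D)
    calc ((Finset.univ.filter (fun v => v ∈ Λ)).card : ℝ≥0∞) ≤ (((2 * (ρ + D) + 1) ^ d : ℕ) : ℝ≥0∞) := by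
          exact_mod_cast h3
      _ = _ := by
          rw [← ENNReal.ofReal_natCast]
          push_cast
          rfl
  have hx0 : 0 < m.Gp * q.p := mul_pos hGp hp
  calc ENNReal.ofReal (1 + 2 * m.Gp * q.p) ^ N * (ENNReal.ofReal (1 + 3 * m.Gp * q.p) ^ N * (N *
        (((Finset.univ.filter (fun v => v ∈ Λ)).card : ℝ≥0∞) *
          (ENNReal.ofReal (Real.exp (-(D : ℝ))) * ENNReal.ofReal (φ * q.p)))))
      ≤ ENNReal.ofReal (1 + 2 * m.Gp * q.p) ^ N * (ENNReal.ofReal (1 + 3 * m.Gp * q.p) ^ N * (N *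
        (ENNReal.ofReal ((2 * (ρ + D : ℝ) + 1) ^ d) *
          (ENNReal.ofReal (Real.exp (-(D : ℝ))) * ENNReal.ofReal (φ * q.p))))) := by
        gcongr
    _ = ENNReal.ofReal ((1 + 2 * m.Gp * q.p) ^ N * ((1 + 3 * m.Gp * q.p) ^ N * (N *
        ((2 * (ρ + D : ℝ) + 1) ^ d * (Real.exp (-(D : ℝ)) * (φ * q.p)))))) := by
        rw [← ENNReal.ofReal_natCast, ← ENNReal.ofReal_pow (by nlinarith),
          ← ENNReal.ofReal_pow (by nlinarith), ← ENNReal.ofReal_mul (Real.exp_pos _).le,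
          ← ENNReal.ofReal_mul (by positivity), ← ENNReal.ofReal_mul (by positivity),
          ← ENNReal.ofReal_mul (pow_nonneg (by nlinarith) _),
          ← ENNReal.ofReal_mul (pow_nonneg (by nlinarith) _)]
    _ ≤ _ := by
        refine ENNReal.ofReal_le_ofReal ?_
        have hpN : (N : ℝ) * q.p ≤ U := by
          have h3 := q.p_ub
          rw [hN]
          push_cast
          calc (U : ℝ) * q.N1 * q.p = U * (q.N1 * q.p) := by ring
            _ ≤ U * 1 := by gcongr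
            _ = U := mul_one _
        have e1 : (1 + 2 * m.Gp * q.p) ^ N ≤ Real.exp (2 * m.Gp * U) := by
          calc (1 + 2 * m.Gp * q.p) ^ N ≤ (Real.exp (2 * m.Gp * q.p)) ^ N := by
                refine pow_le_pow_left₀ (by nlinarith) ?_ _
                rw [add_comm]
                exact Real.add_one_le_exp _
            _ = Real.exp (2 * m.Gp * (N * q.p)) := by
                rw [← Real.exp_nat_mul]
                congr 1
                ring
            _ ≤ _ := by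
                apply Real.exp_le_exp.2
                gcongr
        have e2 : (1 + 3 * m.Gp * q.p) ^ N ≤ Real.exp (3 * m.Gp * U) := by
          calc (1 + 3 * m.Gp * q.p) ^ N ≤ (Real.exp (3 * m.Gp * q.p)) ^ N := by
                refine pow_le_pow_left₀ (by nlinarith) ?_ _
                rw [add_comm]
                exact Real.add_one_le_exp _
            _ = Real.exp (3 * m.Gp * (N * q.p)) := by
                rw [← Real.exp_nat_mul]
                congr 1
                ring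
            _ ≤ _ := by
                apply Real.exp_le_exp.2
                gcongr
        have e3 : (2 * (ρ + D : ℝ) + 1) ^ d ≤ 2 ^ d * (ρ + D + 1 : ℝ) ^ d := by
          rw [← mul_pow]
          refine pow_le_pow_left₀ (by positivity) ?_ _
          have : (0 : ℝ) ≤ ρ + D := by positivity
          linarith
        have e4 : (U : ℝ) ≤ Real.exp U := by
          have := Real.add_one_le_exp (U : ℝ)
          linarith
        have e5 : (ρ + D + 1 : ℝ) ^ d ≤ (ρ + D + 1 : ℝ) ^ (C1 + C2 + d) := by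
          refine pow_le_pow_right₀ ?_ (by omega)
          have : (0 : ℝ) ≤ ρ + D := by positivity
          linarith
        have hφhi : 0 < φhi := lt_of_lt_of_le h hφ
        have hexp : Real.exp (2 * m.Gp * U) * Real.exp (3 * m.Gp * U) * Real.exp U *
            Real.exp (-(D : ℝ)) = Real.exp ((5 * m.Gp + 1) * U - D) := by
          rw [← Real.exp_add, ← Real.exp_add, ← Real.exp_add]
          congr 1
          ring
        have hexp2 : Real.exp ((5 * m.Gp + 1) * U - D) ≤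
            Real.exp (((C1 + C2 + d : ℕ) : ℝ) * U - D) := by
          apply Real.exp_le_exp.2
          have : 5 * m.Gp + 1 ≤ ((C1 + C2 + d : ℕ) : ℝ) := by
            push_cast
            have : (0 : ℝ) ≤ C2 := by positivity
            have : (0 : ℝ) ≤ d := by positivity
            linarith
          gcongr
        calc (1 + 2 * m.Gp * q.p) ^ N * ((1 + 3 * m.Gp * q.p) ^ N * (N *
            ((2 * (ρ + D : ℝ) + 1) ^ d * (Real.exp (-(D : ℝ)) * (φ * q.p))))) =
            (1 + 2 * m.Gp * q.p) ^ N * (1 + 3 * m.Gp * q.p) ^ N * (N * q.p) *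
              ((2 * (ρ + D : ℝ) + 1) ^ d) * φ * Real.exp (-(D : ℝ)) := by ring
          _ ≤ Real.exp (2 * m.Gp * U) * Real.exp (3 * m.Gp * U) * Real.exp U *
              (2 ^ d * (ρ + D + 1 : ℝ) ^ d) * φhi * Real.exp (-(D : ℝ)) := by
              have e6 : (N : ℝ) * q.p ≤ Real.exp U := hpN.trans e4
              gcongr
          _ = (φhi * 2 ^ d) * (ρ + D + 1 : ℝ) ^ d * (Real.exp (2 * m.Gp * U) *
              Real.exp (3 * m.Gp * U) * Real.exp U * Real.exp (-(D : ℝ))) := by ring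
          _ = (φhi * 2 ^ d) * (ρ + D + 1 : ℝ) ^ d * Real.exp ((5 * m.Gp + 1) * U - D) := by
              rw [hexp]
          _ ≤ ((C1 + C2 + d : ℕ) : ℝ) * (ρ + D + 1 : ℝ) ^ (C1 + C2 + d) *
              Real.exp (((C1 + C2 + d : ℕ) : ℝ) * U - D) := by
              have e7 : φhi * 2 ^ d ≤ ((C1 + C2 + d : ℕ) : ℝ) := by
                push_cast
                have : (0 : ℝ) ≤ C1 := by positivity
                have : (0 : ℝ) ≤ d := by positivity
                linarith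
              gcongr

end ZP.Rows
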