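import Pool.Agent.ZP.M0

/-! # Definitions for the good event of a scale, text part M7 -/

set_option autoImplicit false

open scoped ENNReal BigOperators Classical

noncomputable section

namespace ZP

variable {d : ℕ}

/-- the ancestor of the level `l` of the index `c` of the level `0` -/
def anc (A : Prm) (l : ℕ) (c : Pos d) : Pos d := fun t => c t / (A.nx l : ℤ)

/-- the block of the level `0` with the index `c` at the time `j T k` is in the hub of its ancestor -/
def Memb (A : Prm) (bad : ℕ → Blk d → Prop) (k : ℕ) (c : Pos d) (j : ℕ) : Prop :=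
  ∀ l < k, ∀ Q ∈ Rg (A.n l) (8 * d + 8) (anc A (l + 1) c, j * (A.ix d k / A.ix d (l + 1))),
    bd Q (anc A l c, j * (A.ix d k / A.ix d l)) ≤ A.D l → ¬ bad l Q

/-- bad blocks with the anchor `a` along a word: the block `v` of the level `l` (nominal time `a + v.2 T l`); the
blocks with the time index `0`, `1` count as bad -/
def badW {M K : ℕ} (N1 : ℕ) (A : Prm) (η : Tor d M → ℕ) (w : List (Let d M (K + 1))) (a : ℕ)
    (b : Bool) (l : ℕ) (v : Blk d) : Prop :=
  v.2 < 2 ∨ sft N1 (sm (A.S l) v.1) (a + (v.2 - 2) * A.T d l) (PBad N1 A b l) η w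

/-- bad for one of the two reasons -/
def badA {M K : ℕ} (N1 : ℕ) (A : Prm) (η : Tor d M → ℕ) (w : List (Let d M (K + 1))) (a : ℕ)
    (l : ℕ) (v : Blk d) : Prop :=
  Bad (badW N1 A η w a false) (badW N1 A η w a true) l v

/-- the block of the level `0` with the index `c` at the time `3 T k` is in the hub of its ancestor (window
`[0, 8 T k]`) -/
def MembE {M K : ℕ} (N1 : ℕ) (A : Prm) (k : ℕ) (c : Pos d) : Ev d M K := fun η w =>
  Memb A (badA N1 A η w 0) k c 3

/-- the same for the letters version, the two signs separately; `true`: increasing, `false`: decreasing.  The event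
that there IS a bad block. -/
def NMemb {M K : ℕ} (N1 : ℕ) (A : Prm) (b : Bool) (k : ℕ) (c : Pos d) : Ev d M K := fun η w =>
  ∃ l < k, ∃ Q ∈ Rg (A.n l) (8 * d + 8) (anc A (l + 1) c, 3 * (A.ix d k / A.ix d (l + 1))),
    bd Q (anc A l c, 3 * (A.ix d k / A.ix d l)) ≤ A.D l ∧ 2 ≤ Q.2 ∧
      sft N1 (sm (A.S l) Q.1) ((Q.2 - 2) * A.T d l) (if b then BadP N1 A l else BadM N1 A l) η w

/-- translate of an index along the diagonal -/
def dg (c : Pos d) (s : ℕ) : Pos d := fun t => c t + (s : ℤ)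

/-- the meeting property of the index `c`, for the time `s'`, in a word with the horizon `H`: the block `(c, s')` is
in a hub, the cell `c` is a meeting cell, and the reversed block `(c, s' + τ)` is in a hub -/
def Meet {M K : ℕ} (N1 : ℕ) (A : Prm) (k H s' : ℕ) (c : Pos d) : Ev d M K := fun η w =>
  sft N1 0 (s' - 3 * A.T d k) (MembE N1 A k c) η w ∧
  sft N1 (sm A.L c) s' (FOpn N1 A.L A.τ) η w ∧
  sft N1 0 (H - (s' + A.τ) - 3 * A.T d k) (MembE N1 A k c) (stt η w w.length) (rword η w)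

/-- the core event of the scale `(k, r)` for a word with the horizon `H`; `T = A.T d k` -/
structure CoreE {M K : ℕ} (N1 : ℕ) (A : Prm) (k r H Θ : ℕ) (η : Tor d M → ℕ)
    (w : List (Let d M (K + 1))) : Prop where
  len : w.length = H * N1
  fwd : ∀ (x : Pos d) (t : ℕ), t + 6 * A.T d k ≤ H → ∀ b, ¬ sft N1 x t (PBad N1 A b k) η w
  bwd : ∀ (x : Pos d) (t : ℕ), t + 6 * A.T d k ≤ H → ∀ b,
    ¬ sft N1 x t (PBad N1 A b k) (stt η w w.length) (rword η w)
  meet : ∀ (s' : ℕ) (c : Pos d), 10 * A.T d k ≤ s' → s' + 10 * A.T d k ≤ H →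
    ∃ i < 3 * r, Meet N1 A k H s' (dg c (i * A.T d k ^ 2)) η w
  visit : ∀ (s : ℕ) (c : Pos d), 10 * A.T d k ≤ s → s + A.T d k ^ 4 + (4 * r + 1) * Θ ≤ H →
    ∃ i < 4 * r, sft N1 0 (s + A.T d k ^ 4 + i * Θ - 3 * A.T d k) (MembE N1 A k c) η w

/-- the meeting property in a window of the length `16 T k`, for the time `8 T k` -/
def MeetL {M K : ℕ} (N1 : ℕ) (A : Prm) (k : ℕ) (c : Pos d) : Ev d M K := fun η w =>
  Meet N1 A k (16 * A.T d k) (8 * A.T d k) c η (w.take (16 * A.T d k * N1))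

/-- the environment seen from the time `u` on -/
def Env.shift (E : Env d) (u : ℕ) : Env d where
  V := E.V
  nb := E.nb
  pr := E.pr
  η0 := cfg E.nb E.η0 E.U u
  U := fun t => E.U (u + t)

/-- finite speed in an environment -/
def Speed (E : Env d) (Cv r S : ℕ) : Prop :=
  (∀ s t x y, s ≤ t → t ≤ S → E.R (fun _ => Set.univ) s x t y → nrm (y - x) ≤ Cv * ((t : ℝ) - s) + r) ∧
  (∀ s t x y, s ≤ t → t ≤ S → E.vis (fun _ => Set.univ) s x t y →
    nrm (y - x) ≤ Cv * ((t : ℝ) - s) + r)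

/-- alive for the time `l` -/
def FG (E : Env d) (l s : ℕ) (x : Pos d) : Prop := ∃ y, E.R (fun _ => Set.univ) s x (s + l) y

/-- infected by an infection of the age `l` -/
def BG (E : Env d) (l t : ℕ) (y : Pos d) : Prop := ∃ s x, t = s + l ∧ E.R (fun _ => Set.univ) s x t y

/-- the properties of routes at the scale `T` (horizon `H`, visiting time `Θ'`) -/
structure Route (E : Env d) (T Θ' H : ℕ) : Prop where
  p1 : ∀ s x, 3 * T ≤ s → FG E (16 * T) s x → ∀ t, s ≤ t → t + 6 * T ≤ H →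
    ∃ y, E.R (fun _ => Set.univ) s x t y
  p1' : ∀ t y, t + 3 * T ≤ H → BG E (16 * T) t y → ∀ s, s ≤ t → 6 * T ≤ s →
    ∃ x, E.R (fun _ => Set.univ) s x t y
  p2 : ∀ s, 3 * T ≤ s → s + 40 * T ≤ H → ∀ x : Pos d, ∃ y : Pos d, supn (y - x) ≤ 2 * T ∧
    ∃ z, E.R (fun _ => Set.univ) s y (s + 32 * T) z
  p3 : ∀ s t x y, 10 * T ≤ s → t + 10 * T ≤ H → FG E (16 * T) s x → BG E (16 * T) t y →
    nrm (x - y) ≤ (T : ℝ) ^ 2 → s + 2 * T ^ 4 + 10 * T ≤ t → t ≤ s + 4 * T ^ 4 + 10 * T →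
    E.R (fun _ => Set.univ) s x t y
  p4 : ∀ s x b, 10 * T ≤ s → s + Θ' ≤ H → FG E (16 * T) s x → nrm (x - b) ≤ (T : ℝ) ^ 2 →
    E.vis (fun _ => Set.univ) s x (s + Θ') b

end ZP
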