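import Pool.Agent.ZP.R2
import Pool.Agent.ZP.Core
import Pool.Agent.ZI.R1

/-! # Row SF2: probabilities of shifted and local events, union bound -/

set_option autoImplicit false

open scoped ENNReal BigOperators Classical Pointwise

noncomputable section

namespace ZP.SF2

open ZP

variable {d : ℕ}

theorem stt_take {M K : ℕ} (η : Tor d M → ℕ) (w : List (Let d M K)) (i j : ℕ) (h : i ≤ j) :
    stt η (w.take j) i = stt η w i := by
  unfold stt
  rw [List.take_take, min_eq_left h]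

theorem getD_take {α : Type} (w : List α) (a : α) (i j : ℕ) (h : i < j) :
    (w.take j).getD i a = w.getD i a := by
  rw [List.getD_eq_getElem?_getD, List.getD_eq_getElem?_getD, List.getElem?_take_of_lt h]

/-- a local event does not depend on the letters after its window -/
theorem loc_take {M K N1 : ℕ} {Λ : Set (Tor d M)} {u1 u2 : ℕ} {E : Ev d M K}
    (h : LocE N1 Λ u1 u2 E) (η : Tor d M → ℕ) (w : List (Let d M (K + 1)))
    (hw : u2 * N1 ≤ w.length) : E η (w.take (u2 * N1)) ↔ E η w := by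
  have h1 : Rel N1 Λ u1 u2 η (w.take (u2 * N1)) η w := by
    refine ⟨?_, hw, ?_, ?_⟩
    · rw [List.length_take, min_eq_left hw]
    · intro i _ h2 v _
      rw [stt_take η w i _ h2]
    · intro i _ h2
      rw [getD_take w none i _ h2]
  have h2 : Rel N1 Λ u1 u2 η w η (w.take (u2 * N1)) := by
    refine ⟨hw, ?_, ?_, ?_⟩
    · rw [List.length_take, min_eq_left hw]
    · intro i _ h2 v _
      rw [stt_take η w i _ h2]
    · intro i _ h2
      rw [getD_take w none i _ h2]
  exact ⟨h _ _ _ _ h1 h2, h _ _ _ _ h2 h1⟩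

/-- the shifted event depends on the position modulo the torus only -/
theorem sft_tv {M K : ℕ} (N1 : ℕ) (x y : Pos d) (h : (tv x : Tor d M) = tv y) (t : ℕ)
    (E : Ev d M K) : sft N1 x t E = sft N1 y t E := by
  funext η w
  unfold sft
  rw [h]

/-- a position above each site of the torus -/
def up {M : ℕ} (v : Tor d M) : Pos d := fun j => (v j).cast

theorem tv_up {M : ℕ} [NeZero M] (v : Tor d M) : tv (up v) = v := by
  funext j
  show (((v j).cast : ℤ) : ZMod M) = v j
  exact ZMod.intCast_zmod_cast (v j)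

section chain

variable {m : Model} {δ : ℝ} (q : Par d m δ)

theorem EE_congr (N : ℕ) {F G : (Tor d q.M → ℕ) → List (Let d q.M (q.K + 1)) → ℝ≥0∞}
    (h : ∀ η w, w.length = N → F η w = G η w) : q.EE N F = q.EE N G := by
  unfold Par.EE
  refine tsum_congr fun η => ?_
  rw [ZI.EvE_congr q.w N (h η)]

theorem EE_mono (N : ℕ) {F G : (Tor d q.M → ℕ) → List (Let d q.M (q.K + 1)) → ℝ≥0∞}
    (h : ∀ η w, w.length = N → F η w ≤ G η w) : q.EE N F ≤ q.EE N G := by
  unfold Par.EE
  refine ENNReal.tsum_le_tsum fun η => ?_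
  exact mul_le_mul_right (ZI.EvE_mono q.w N (h η)) _

theorem EE_add (N : ℕ) (F G : (Tor d q.M → ℕ) → List (Let d q.M (q.K + 1)) → ℝ≥0∞) :
    q.EE N (fun η w => F η w + G η w) = q.EE N F + q.EE N G := by
  unfold Par.EE
  rw [← ENNReal.tsum_add]
  refine tsum_congr fun η => ?_
  rw [ZI.EvE_add q.w N (F η) (G η), mul_add]

theorem EE_one (hd : 0 < d) (N : ℕ) : q.EE N (fun _ _ => 1) = 1 := by
  unfold Par.EE
  have h : ∀ η : Tor d q.M → ℕ, prw (m.m1 q.K) η * EvE q.w N (fun _ => 1) = prw (m.m1 q.K) η := by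
    intro η
    rw [ZI.R2aux.EvE_const q.w (ZP.Rows.sum_w q hd) 1 N, mul_one]
  rw [tsum_congr h]
  exact ZI.Rows.tsum_prw q.toZI

theorem EE_take (hd : 0 < d) (N L : ℕ) (F : (Tor d q.M → ℕ) → List (Let d q.M (q.K + 1)) → ℝ≥0∞) :
    q.EE (N + L) (fun η w => F η (w.take N)) = q.EE N F := by
  unfold Par.EE
  refine tsum_congr fun η => ?_
  rw [ZI.R2aux.EvE_take_drop q.w L N (fun l _ => F η l)]
  congr 1
  refine ZI.EvE_congr q.w N fun l _ => ?_
  exact ZI.R2aux.EvE_const q.w (ZP.Rows.sum_w q hd) _ L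

theorem PP_congr (N : ℕ) {E E' : Ev d q.M q.K} (h : ∀ η w, w.length = N → (E η w ↔ E' η w)) :
    q.PP N E = q.PP N E' := by
  unfold Par.PP
  refine EE_congr q N fun η w hw => ?_
  by_cases h1 : E η w
  · rw [if_pos h1, if_pos ((h η w hw).1 h1)]
  · rw [if_neg h1, if_neg (fun h2 => h1 ((h η w hw).2 h2))]

end chain

end ZP.SF2

namespace ZP.Rows

open ZP ZP.SF2

variable {d : ℕ} {m : Model} {δ : ℝ} (q : Par d m δ)

/-- the probability of a shifted event -/
theorem PP_sft (hd : 0 < d) (x : Pos d) (t N : ℕ) (E : Ev d q.M q.K) :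
    q.PP (t * q.N1 + N) (sft q.N1 x t E) = q.PP N E := by
  have h1 := stationary q hd (t * q.N1) N (fun η w =>
    if E (fun v => η (v - (-(tv x)))) (w.map (shL (-(tv x)))) then (1 : ℝ≥0∞) else 0)
  have h2 := translation q (-(tv x)) N (fun η w => if E η w then (1 : ℝ≥0∞) else 0)
  have h3 := h1.trans h2
  refine Eq.trans ?_ h3
  unfold Par.PP
  refine EE_congr q _ fun η w _ => ?_
  have h4 : sft q.N1 x t E η w ↔ E (fun v => ((w.take (t * q.N1)).foldl stepA η) (v - (-(tv x))))
      ((w.drop (t * q.N1)).map (shL (-(tv x)))) := by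
    unfold sft stt
    simp only [sub_neg_eq_add]
  by_cases h5 : sft q.N1 x t E η w
  · rw [if_pos h5, if_pos (h4.1 h5)]
  · rw [if_neg h5, if_neg (fun h6 => h5 (h4.2 h6))]

/-- the word may be longer than the window -/
theorem PP_loc (hd : 0 < d) {Λ : Set (Tor d q.M)} {u1 u2 : ℕ} {E : Ev d q.M q.K}
    (h : LocE q.N1 Λ u1 u2 E) (N : ℕ) (hN : u2 * q.N1 ≤ N) : q.PP N E = q.PP (u2 * q.N1) E := by
  obtain ⟨L, rfl⟩ := Nat.exists_eq_add_of_le hN
  have h1 : q.PP (u2 * q.N1 + L) E = q.PP (u2 * q.N1 + L) (fun η w => E η (w.take (u2 * q.N1))) := by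
    refine PP_congr q _ fun η w hw => ?_
    exact (loc_take h η w (by omega)).symm
  rw [h1]
  exact EE_take q hd (u2 * q.N1) L (fun η w => if E η w then (1 : ℝ≥0∞) else 0)

theorem PP_mono (N : ℕ) {E E' : Ev d q.M q.K} (h : ∀ η w, w.length = N → E η w → E' η w) :
    q.PP N E ≤ q.PP N E' := by
  unfold Par.PP
  refine EE_mono q N fun η w hw => ?_
  by_cases h1 : E η w
  · rw [if_pos h1, if_pos (h η w hw h1)]
  · rw [if_neg h1]
    exact bot_le

theorem PP_or (N : ℕ) (E E' : Ev d q.M q.K) :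
    q.PP N (fun η w => E η w ∨ E' η w) ≤ q.PP N E + q.PP N E' := by
  unfold Par.PP
  rw [← EE_add]
  refine EE_mono q N fun η w _ => ?_
  by_cases h1 : E η w
  · rw [if_pos h1, if_pos (Or.inl h1)]
    exact le_self_add
  · by_cases h2 : E' η w
    · rw [if_neg h1, if_pos h2, if_pos (Or.inr h2), zero_add]
    · rw [if_neg (fun h => h.elim h1 h2)]
      exact bot_le

theorem PP_le_one (hd : 0 < d) (N : ℕ) (E : Ev d q.M q.K) : q.PP N E ≤ 1 := by
  rw [← EE_one q hd N]
  unfold Par.PP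
  refine EE_mono q N fun η w _ => ?_
  by_cases h1 : E η w
  · rw [if_pos h1]
  · rw [if_neg h1]
    exact bot_le

/-- union bound over a finite set -/
theorem PP_finset {ι : Type} (N : ℕ) (s : Finset ι) (E : ι → Ev d q.M q.K) :
    q.PP N (fun η w => ∃ i ∈ s, E i η w) ≤ ∑ i ∈ s, q.PP N (E i) := by
  induction s using Finset.induction_on with
  | empty =>
    unfold Par.PP Par.EE
    simp only [Finset.notMem_empty, false_and, exists_false, if_false, Finset.sum_empty]
    have h1 : ∀ η : Tor d q.M → ℕ, prw (m.m1 q.K) η * EvE q.w N (fun _ => (0 : ℝ≥0∞)) = 0 := by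
      intro η
      have h2 := ZI.EvE_mul q.w N 0 (fun _ => (0 : ℝ≥0∞))
      simp only [zero_mul] at h2
      rw [h2, mul_zero]
    rw [tsum_congr h1, tsum_zero]
  | insert a s ha ih =>
    rw [Finset.sum_insert ha]
    refine le_trans ?_ (add_le_add le_rfl ih)
    refine le_trans (PP_mono q N (E' := fun η w => E a η w ∨ ∃ i ∈ s, E i η w) ?_) (PP_or q N _ _)
    rintro η w _ ⟨i, hi, h⟩
    rcases Finset.mem_insert.1 hi with rfl | hi
    · exact Or.inl h
    · exact Or.inr ⟨i, hi, h⟩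

/-- union bound over the sites of the torus and the times -/
theorem PP_union (hd : 0 < d) (H U : ℕ) (E : Ev d q.M q.K) {Λ : Set (Tor d q.M)} {u1 : ℕ}
    (h : LocE q.N1 Λ u1 U E) :
    q.PP (H * q.N1) (fun η w => ∃ (x : Pos d) (t : ℕ), t + U ≤ H ∧ sft q.N1 x t E η w) ≤
      (H + 1) * (q.M : ℝ≥0∞) ^ d * q.PP (U * q.N1) E := by
  have h1 : q.PP (H * q.N1) (fun η w => ∃ (x : Pos d) (t : ℕ), t + U ≤ H ∧ sft q.N1 x t E η w) ≤
      q.PP (H * q.N1) (fun η w => ∃ i ∈ ((Finset.range (H + 1)).filter (fun t => t + U ≤ H)) ×ˢ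
        (Finset.univ : Finset (Tor d q.M)), sft q.N1 (up i.2) i.1 E η w) := by
    refine PP_mono q _ ?_
    rintro η w _ ⟨x, t, h2, h3⟩
    refine ⟨(t, tv x), ?_, ?_⟩
    · simp only [Finset.mem_product, Finset.mem_filter, Finset.mem_range, Finset.mem_univ, and_true]
      omega
    · rw [sft_tv q.N1 (up (tv x : Tor d q.M)) x (tv_up _) t E]
      exact h3
  refine h1.trans ((PP_finset q _ _ _).trans ?_)
  have h2 : ∀ i ∈ ((Finset.range (H + 1)).filter (fun t => t + U ≤ H)) ×ˢ
      (Finset.univ : Finset (Tor d q.M)),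
      q.PP (H * q.N1) (sft q.N1 (up i.2) i.1 E) = q.PP (U * q.N1) E := by
    rintro ⟨t, v⟩ hi
    simp only [Finset.mem_product, Finset.mem_filter, Finset.mem_range, Finset.mem_univ,
      and_true] at hi
    have h3 : H * q.N1 = t * q.N1 + (H - t) * q.N1 := by
      rw [← add_mul]
      congr 1
      omega
    show q.PP (H * q.N1) (sft q.N1 (up v) t E) = q.PP (U * q.N1) E
    rw [h3, PP_sft q hd]
    exact PP_loc q hd h _ (Nat.mul_le_mul_right _ (by omega))
  rw [Finset.sum_congr rfl h2, Finset.sum_const, nsmul_eq_mul]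
  refine mul_le_mul_left ?_ _
  have h4 : (((Finset.range (H + 1)).filter (fun t => t + U ≤ H)) ×ˢ
      (Finset.univ : Finset (Tor d q.M))).card ≤ (H + 1) * q.M ^ d := by
    rw [Finset.card_product]
    refine Nat.mul_le_mul ?_ ?_
    · exact (Finset.card_filter_le _ _).trans (by rw [Finset.card_range])
    · rw [Finset.card_univ, Fintype.card_fun, ZMod.card, Fintype.card_fin]
  calc ((((Finset.range (H + 1)).filter (fun t => t + U ≤ H)) ×ˢ
      (Finset.univ : Finset (Tor d q.M))).card : ℝ≥0∞) ≤ (((H + 1) * q.M ^ d : ℕ) : ℝ≥0∞) := by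
        exact_mod_cast h4
    _ = (H + 1) * (q.M : ℝ≥0∞) ^ d := by push_cast; rfl

end ZP.Rows
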