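import Pool.Agent.ZP.SF1
import Pool.Agent.ZP.SF2
import Pool.Agent.ZI.C6

/-! # Row LOW: no site of a finite set gets low up to the time `U` -/

set_option autoImplicit false

open scoped ENNReal BigOperators Classical Pointwise

noncomputable section

namespace ZP.LOW

open ZP

variable {d : ℕ}

/-! ### letters that hit -/

section hit

variable {M K : ℕ}

/-- some letter of the word has the property `X` with respect to the configuration before it -/
def Hit (X : (Tor d M → ℕ) → Let d M K → Prop) : (Tor d M → ℕ) → List (Let d M K) → Prop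
  | _, [] => False
  | η, a :: l => X η a ∨ Hit X (stepA η a) l

/-- the letter brings the site `v` from above `b` to at most `b` -/
def Dn (v : Tor d M) (b : ℕ) (η : Tor d M → ℕ) (a : Let d M K) : Prop := b < η v ∧ stepA η a v ≤ b

theorem low_or (v : Tor d M) (b : ℕ) (w : List (Let d M K)) : ∀ (η : Tor d M → ℕ) (i : ℕ),
    stt η w i v ≤ b → η v ≤ b ∨ Hit (Dn v b) η w := by
  induction w with
  | nil =>
    intro η i h
    left
    have h1 : stt η ([] : List (Let d M K)) i = η := by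
      unfold stt
      rw [List.take_nil]
      rfl
    rwa [h1] at h
  | cons a w ih =>
    intro η i h
    by_cases h0 : η v ≤ b
    · exact Or.inl h0
    right
    cases i with
    | zero => exact absurd h h0
    | succ i =>
      rcases ih (stepA η a) i h with h1 | h1
      · exact Or.inl ⟨by omega, h1⟩
      · exact Or.inr h1

/-- only the jumps of the site can bring it down, and only from `b + 1` -/
theorem dn_lab (hM : 2 ≤ M) (v : Tor d M) (b : ℕ) (η : Tor d M → ℕ) (a : Let d M K)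
    (h : Dn v b η a) : η v = b + 1 ∧ ∃ k ≤ b, ∃ e : Dir d, toLab a = some (v, k + 1, e) := by
  obtain ⟨h1, h2⟩ := h
  cases ha : toLab a with
  | none =>
    rw [E1.stepA_none _ _ ha] at h2
    omega
  | some l =>
    obtain ⟨x, j, e⟩ := l
    cases j with
    | zero =>
      have hs : stepA η a = η := E1.stepA_some η a _ ha
      rw [hs] at h2
      omega
    | succ k =>
      have hs : stepA η a = ZI.mv nbT η (x, k, e) := E1.stepA_some η a _ ha
      rw [hs] at h2
      by_cases hk : k < η x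
      · have hx : 0 < η x := lt_of_le_of_lt (Nat.zero_le _) hk
        obtain ⟨a1, a2, a3⟩ := ZI.C5.jump_vals hM η x e hx
        rw [ZI.C5.mv_add η (x, k, e) hk] at h2
        change ZI.R2aux.add (ZI.R2aux.rem η x) (x + tv (dv e)) v ≤ b at h2
        by_cases c1 : v = x
        · subst c1
          exact ⟨by omega, k, by omega, e, rfl⟩
        · by_cases c2 : v = x + tv (dv e)
          · rw [c2, a2] at h2
            rw [c2] at h1
            omega
          · rw [a3 v c1 c2] at h2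
            omega
      · rw [ZI.C5.mv_stay _ _ hk] at h2
        omega

end hit

section par

variable {m : Model} {δ : ℝ} (q : Par d m δ)

theorem PP_hit_succ (hd : 0 < d) (X : (Tor d q.M → ℕ) → Let d q.M (q.K + 1) → Prop) (N : ℕ) :
    q.PP (N + 1) (fun η l => Hit X η l) ≤
      ∑' η : Tor d q.M → ℕ, prw (m.m1 q.K) η * ∑ a, q.w a * (if X η a then 1 else 0) +
        q.PP N (fun η l => Hit X η l) := by
  have hs := ZP.Rows.stationary q hd 1 N (fun η l => if Hit X η l then 1 else 0)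
  have h1 : q.PP N (fun η l => Hit X η l) =
      ∑' η : Tor d q.M → ℕ, prw (m.m1 q.K) η *
        ∑ a, q.w a * EvE q.w N (fun l => if Hit X (stepA η a) l then 1 else 0) := by
    show q.EE N (fun η l => if Hit X η l then 1 else 0) = _
    rw [← hs, Nat.add_comm 1 N]
    rfl
  rw [h1, ← ENNReal.tsum_add]
  refine ENNReal.tsum_le_tsum fun η => ?_
  rw [← mul_add]
  refine mul_le_mul_right ?_ _
  rw [ZI.EvE_succ, ← Finset.sum_add_distrib]
  refine Finset.sum_le_sum fun a _ => ?_
  rw [← mul_add]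
  refine mul_le_mul_right ?_ _
  have h2 : (if X η a then (1 : ℝ≥0∞) else 0) = EvE q.w N (fun _ => if X η a then 1 else 0) :=
    (ZI.EvE_const q.w (ZP.Rows.sum_w q hd) N _).symm
  rw [h2, ← ZI.EvE_add]
  refine ZI.EvE_mono q.w N fun l _ => ?_
  show (if Hit X η (a :: l) then (1 : ℝ≥0∞) else 0) ≤
    (if X η a then 1 else 0) + (if Hit X (stepA η a) l then 1 else 0)
  by_cases h3 : X η a
  · rw [if_pos h3]
    refine le_trans ?_ le_self_add
    split_ifs
    · exact le_rfl
    · exact zero_le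
  · rw [if_neg h3, zero_add]
    by_cases h4 : Hit X (stepA η a) l
    · rw [if_pos h4]
      split_ifs
      · exact le_rfl
      · exact zero_le
    · rw [if_neg h4, if_neg]
      rintro (h5 | h5)
      · exact h3 h5
      · exact h4 h5

theorem PP_hit (hd : 0 < d) (X : (Tor d q.M → ℕ) → Let d q.M (q.K + 1) → Prop) (N : ℕ) :
    q.PP N (fun η l => Hit X η l) ≤
      N * ∑' η : Tor d q.M → ℕ, prw (m.m1 q.K) η * ∑ a, q.w a * (if X η a then 1 else 0) := by
  induction N with
  | zero =>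
    have : q.PP 0 (fun η l => Hit X η l) = 0 := by
      show ∑' η : Tor d q.M → ℕ, prw (m.m1 q.K) η *
        (if Hit X η ([] : List (Let d q.M (q.K + 1))) then 1 else 0) = 0
      simp [Hit]
    rw [this]
    exact zero_le
  | succ N ih =>
    refine (PP_hit_succ q hd X N).trans ?_
    push_cast
    rw [add_mul, one_mul, add_comm]
    gcongr

/-- weight of the letters that bring a site down -/
theorem sum_dn (hd : 0 < d) (v : Tor d q.M) (b : ℕ) (η : Tor d q.M → ℕ) :
    ∑ a, q.w a * (if Dn v b η a then 1 else 0) ≤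
      (if η v = b + 1 then 1 else 0) * ENNReal.ofReal ((b + 1) * m.Gp * q.p) := by
  have hM : 2 ≤ q.M := by have := q.M_ge; omega
  by_cases h0 : η v = b + 1
  · rw [if_pos h0, one_mul]
    set S : Finset (Let d q.M (q.K + 1)) :=
      Finset.univ.filter (fun a => ∃ k ≤ b, ∃ e : Dir d, toLab a = some (v, k + 1, e)) with hS
    have h1 : ∀ a ∈ S, q.w a * (if Dn v b η a then 1 else 0) ≤
        ENNReal.ofReal (m.Gp / (2 * d) * q.p) := by
      intro a ha
      rw [hS, Finset.mem_filter] at ha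
      obtain ⟨-, k, hk, e, he⟩ := ha
      have h2 : q.w a ≤ ENNReal.ofReal (m.Gp / (2 * d) * q.p) := by
        cases a with
        | none => simp [toLab] at he
        | some l =>
          have he' : (some (l.1, (l.2.1 : ℕ), l.2.2) : Option (Lab (Tor d q.M) d)) =
            some (v, k + 1, e) := he
          have hl : (l.2.1 : ℕ) = k + 1 := (Prod.mk.inj (Prod.mk.inj (Option.some.inj he')).2).1
          show ENNReal.ofReal (lamR m δ d l.2.1 * q.p) ≤ _
          rw [hl]
          refine ENNReal.ofReal_le_ofReal (mul_le_mul_of_nonneg_right ?_ q.p_pos.le)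
          show (m.g (k + 1) - m.g k) / (2 * d) ≤ m.Gp / (2 * d)
          exact div_le_div_of_nonneg_right (m.inc_ub k) (by positivity)
      refine le_trans ?_ h2
      split_ifs
      · rw [mul_one]
      · rw [mul_zero]
        exact zero_le
    have h2 : ∑ a, q.w a * (if Dn v b η a then 1 else 0) =
        ∑ a ∈ S, q.w a * (if Dn v b η a then 1 else 0) := by
      refine (Finset.sum_subset (Finset.subset_univ S) fun a _ ha => ?_).symm
      rw [if_neg, mul_zero]
      intro h3
      refine ha ?_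
      obtain ⟨-, k, hk, e, he⟩ := dn_lab hM v b η a h3
      rw [hS, Finset.mem_filter]
      exact ⟨Finset.mem_univ _, k, hk, e, he⟩
    rw [h2]
    refine (Finset.sum_le_card_nsmul S _ _ h1).trans ?_
    rw [nsmul_eq_mul]
    have hcard : S.card ≤ (b + 1) * (d * 2) := by
      have hsub : S ⊆
          ((Finset.range (b + 1)) ×ˢ (Finset.univ : Finset (Dir d))).image
            (fun z => (if h : z.1 + 1 < q.K + 1 then some (v, ⟨z.1 + 1, h⟩, z.2) else none :
              Let d q.M (q.K + 1))) := by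
        intro a ha
        rw [hS, Finset.mem_filter] at ha
        obtain ⟨-, k, hk, e, he⟩ := ha
        rw [Finset.mem_image]
        refine ⟨(k, e), ?_, ?_⟩
        · simp only [Finset.mem_product, Finset.mem_range, Finset.mem_univ, and_true]
          omega
        · cases a with
          | none => simp [toLab] at he
          | some l =>
            obtain ⟨x, j, e'⟩ := l
            have he' : (some (x, (j : ℕ), e') : Option (Lab (Tor d q.M) d)) =
              some (v, k + 1, e) := he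
            obtain ⟨r1, r2⟩ := Prod.mk.inj (Option.some.inj he')
            obtain ⟨r3, r4⟩ := Prod.mk.inj r2
            have hlt : k + 1 < q.K + 1 := by
              rw [← r3]
              exact j.isLt
            show (if h : k + 1 < q.K + 1 then some (v, ⟨k + 1, h⟩, e) else none :
              Let d q.M (q.K + 1)) = some (x, j, e')
            rw [dif_pos hlt, r1, r4]
            congr 3
            exact Fin.ext r3.symm
      refine (Finset.card_le_card hsub).trans (Finset.card_image_le.trans ?_)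
      rw [Finset.card_product, Finset.card_range, Finset.card_univ, ZP.Rows.card_Dir]
    calc (S.card : ℝ≥0∞) * ENNReal.ofReal (m.Gp / (2 * d) * q.p)
        ≤ (((b + 1) * (d * 2) : ℕ) : ℝ≥0∞) * ENNReal.ofReal (m.Gp / (2 * d) * q.p) := by
          gcongr
      _ = ENNReal.ofReal ((b + 1) * m.Gp * q.p) := by
          rw [← ENNReal.ofReal_natCast, ← ENNReal.ofReal_mul (by positivity)]
          congr 1
          have hd' : (0 : ℝ) < d := by exact_mod_cast hd
          push_cast
          field_simp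
  · rw [if_neg h0, zero_mul]
    refine (Finset.sum_eq_zero fun a _ => ?_).le
    rw [if_neg (fun h => h0 (dn_lab hM v b η a h).1), mul_zero]

end par

/-! ### the law of one site -/

section law

variable (m : Model)

theorem wt_ub (φ : ℝ) (h : 0 < φ) (h1 : 1 ≤ φ) (K : ℕ) (hK : 2 ≤ K) (k n : ℕ) (hk : k ≤ n) :
    (wf m φ h).wt K k ≤ (φ / m.Gm) ^ n := by
  have hG := m.Gm_pos
  have h2 : (wf m φ h).wt K k ≤ (φ / m.Gm) ^ k := by
    show φ ^ k / ∏ i ∈ Finset.range k, (wf m φ h).gK K (i + 1) ≤ _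
    rw [div_pow]
    have h3 : m.Gm ^ k ≤ ∏ i ∈ Finset.range k, (wf m φ h).gK K (i + 1) := by
      rw [← Finset.card_range k, ← Finset.prod_const, Finset.card_range]
      refine Finset.prod_le_prod (fun _ _ => hG.le) fun i _ => ?_
      obtain ⟨j, hj⟩ : ∃ j, min (i + 1) K = j + 1 := ⟨min (i + 1) K - 1, by omega⟩
      show m.Gm ≤ m.g (min (i + 1) K)
      rw [hj]
      have h4 := m.inc_lb j
      have h5 := ZI.R2aux.g_mono m (Nat.zero_le j)
      rw [m.g0] at h5
      linarith
    exact div_le_div_of_nonneg_left (by positivity) (by positivity) h3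
  refine h2.trans (pow_le_pow_right₀ ?_ hk)
  rw [le_div_iff₀ hG]
  have := m.Gm_le
  linarith

theorem g_le (k : ℕ) : m.g k ≤ m.Gp * k := by
  induction k with
  | zero => simp [m.g0]
  | succ k ih =>
    have := m.inc_ub k
    push_cast
    linarith

theorem wt_lb (φ : ℝ) (h : 0 < φ) (K : ℕ) (hK : 2 ≤ K) (j : ℕ) (hj : 2 * m.Gp * j ≤ φ) :
    (2 : ℝ) ^ j ≤ (wf m φ h).wt K j := by
  have hG : 0 < m.Gp := lt_of_lt_of_le one_pos m.le_Gp
  show _ ≤ φ ^ j / ∏ i ∈ Finset.range j, (wf m φ h).gK K (i + 1)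
  have hpos : 0 < ∏ i ∈ Finset.range j, (wf m φ h).gK K (i + 1) :=
    Finset.prod_pos fun i _ => ZI.R2aux.gK_pos (wf m φ h) K hK i
  rw [le_div_iff₀ hpos]
  have h3 : ∏ i ∈ Finset.range j, (wf m φ h).gK K (i + 1) ≤ (m.Gp * j) ^ j := by
    have h4 : ∏ i ∈ Finset.range j, (wf m φ h).gK K (i + 1) ≤ ∏ _i ∈ Finset.range j, (m.Gp * j) := by
      refine Finset.prod_le_prod (fun i _ => ZI.R2aux.gK_nonneg (wf m φ h) K (i + 1)) fun i hi => ?_
      have h5 := Finset.mem_range.1 hi
      show m.g (min (i + 1) K) ≤ m.Gp * j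
      refine (g_le m _).trans (mul_le_mul_of_nonneg_left ?_ hG.le)
      exact_mod_cast (min_le_left _ _).trans h5
    rwa [Finset.prod_const, Finset.card_range] at h4
  calc (2 : ℝ) ^ j * ∏ i ∈ Finset.range j, (wf m φ h).gK K (i + 1)
      ≤ (2 : ℝ) ^ j * (m.Gp * j) ^ j := mul_le_mul_of_nonneg_left h3 (by positivity)
    _ = (2 * m.Gp * j) ^ j := by rw [← mul_pow, mul_assoc]
    _ ≤ φ ^ j := pow_le_pow_left₀ (by positivity) hj j

/-- exponent -/
def c0 : ℝ := Real.log 2 / (2 * m.Gp)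

theorem c0_pos : 0 < c0 m := by
  have hG : 0 < m.Gp := lt_of_lt_of_le one_pos m.le_Gp
  exact div_pos (Real.log_pos (by norm_num)) (by positivity)

theorem Z_lb (φ : ℝ) (h : 0 < φ) (K : ℕ) (hK : 2 ≤ K) (hb : 2 * φ ≤ m.g K) :
    Real.exp (c0 m * φ) / 2 ≤ ∑' j, (wf m φ h).wt K j := by
  have hG : 0 < m.Gp := lt_of_lt_of_le one_pos m.le_Gp
  set j := ⌊φ / (2 * m.Gp)⌋₊ with hjd
  have h1 : (j : ℝ) ≤ φ / (2 * m.Gp) := Nat.floor_le (by positivity)
  have h2 : 2 * m.Gp * j ≤ φ := by
    rw [le_div_iff₀ (by positivity)] at h1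
    linarith
  have h3 := wt_lb m φ h K hK j h2
  have hs := ZI.R2aux.summable_wt (wf m φ h) K hK hb
  have h4 : (wf m φ h).wt K j ≤ ∑' j, (wf m φ h).wt K j :=
    hs.le_tsum j fun i _ => (ZI.R2aux.wt_pos (wf m φ h) K hK i).le
  refine le_trans ?_ (h3.trans h4)
  have h5 : φ / (2 * m.Gp) < j + 1 := Nat.lt_floor_add_one _
  have h6 : c0 m * φ ≤ Real.log 2 * (j + 1) := by
    have h7 : c0 m * φ = Real.log 2 * (φ / (2 * m.Gp)) := by
      unfold c0
      ring
    rw [h7]
    exact mul_le_mul_of_nonneg_left h5.le (Real.log_nonneg (by norm_num))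
  have h8 : Real.exp (c0 m * φ) ≤ 2 ^ (j + 1) := by
    refine (Real.exp_le_exp.2 h6).trans (le_of_eq ?_)
    rw [← Real.rpow_natCast, Real.rpow_def_of_pos (by norm_num)]
    push_cast
    ring_nf
  rw [pow_succ] at h8
  linarith

/-- constant -/
def CC (b : ℕ) : ℝ := 2 * (b + 2) * (1 / m.Gm) ^ (b + 1) * ((b + 1).factorial / (c0 m / 2) ^ (b + 1))

theorem CC_pos (b : ℕ) : 0 < CC m b := by
  have := m.Gm_pos
  have := c0_pos m
  unfold CC
  positivity

theorem m1_low (b : ℕ) (φ : ℝ) (h : 0 < φ) (h1 : 1 ≤ φ) (K : ℕ) (hK : 2 ≤ K) (hb : 2 * φ ≤ m.g K) :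
    ∑ k ∈ Finset.range (b + 2), (wf m φ h).m1 K k ≤
      ENNReal.ofReal (CC m b * Real.exp (-(c0 m / 2 * φ))) := by
  have hG := m.Gm_pos
  have hc := c0_pos m
  have hZ := Z_lb m φ h K hK hb
  have hZpos : 0 < ∑' j, (wf m φ h).wt K j := lt_of_lt_of_le (by positivity) hZ
  have h2 : ∀ k ∈ Finset.range (b + 2), (wf m φ h).m1 K k ≤
      ENNReal.ofReal ((φ / m.Gm) ^ (b + 1) * (2 * Real.exp (-(c0 m * φ)))) := by
    intro k hk
    refine ENNReal.ofReal_le_ofReal ?_
    rw [div_le_iff₀ hZpos]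
    have h3 := wt_ub m φ h h1 K hK k (b + 1) (by have := Finset.mem_range.1 hk; omega)
    refine h3.trans ?_
    rw [mul_assoc]
    have h4 : 1 ≤ 2 * Real.exp (-(c0 m * φ)) * ∑' j, (wf m φ h).wt K j := by
      calc (1 : ℝ) = 2 * Real.exp (-(c0 m * φ)) * (Real.exp (c0 m * φ) / 2) := by
            rw [Real.exp_neg]
            field_simp
        _ ≤ _ := mul_le_mul_of_nonneg_left hZ (by positivity)
    exact le_mul_of_one_le_right (by positivity) h4
  refine (Finset.sum_le_card_nsmul _ _ _ h2).trans ?_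
  rw [Finset.card_range, nsmul_eq_mul, ← ENNReal.ofReal_natCast, ← ENNReal.ofReal_mul (by positivity)]
  refine ENNReal.ofReal_le_ofReal ?_
  -- the power of the fugacity
  have h5 : φ ^ (b + 1) ≤ (b + 1).factorial / (c0 m / 2) ^ (b + 1) * Real.exp (c0 m / 2 * φ) := by
    have h6 := Real.pow_div_factorial_le_exp (c0 m / 2 * φ) (by positivity) (b + 1)
    rw [div_le_iff₀ (by positivity), mul_pow] at h6
    rw [div_mul_eq_mul_div, le_div_iff₀ (by positivity)]
    linarith
  have h7 : Real.exp (-(c0 m * φ)) * Real.exp (c0 m / 2 * φ) = Real.exp (-(c0 m / 2 * φ)) := by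
    rw [← Real.exp_add]
    congr 1
    ring
  calc ((b + 2 : ℕ) : ℝ) * ((φ / m.Gm) ^ (b + 1) * (2 * Real.exp (-(c0 m * φ))))
      = 2 * (b + 2) * (1 / m.Gm) ^ (b + 1) * (φ ^ (b + 1) * Real.exp (-(c0 m * φ))) := by
        rw [div_eq_mul_one_div, mul_pow]
        push_cast
        ring
    _ ≤ 2 * (b + 2) * (1 / m.Gm) ^ (b + 1) *
        ((b + 1).factorial / (c0 m / 2) ^ (b + 1) * Real.exp (c0 m / 2 * φ) *
          Real.exp (-(c0 m * φ))) := by
        refine mul_le_mul_of_nonneg_left (mul_le_mul_of_nonneg_right h5 (Real.exp_pos _).le) ?_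
        positivity
    _ = CC m b * (Real.exp (-(c0 m * φ)) * Real.exp (c0 m / 2 * φ)) := by
        unfold CC
        ring
    _ = CC m b * Real.exp (-(c0 m / 2 * φ)) := by rw [h7]

end law

end ZP.LOW

namespace ZP.Rows

open ZP ZP.LOW

variable {d : ℕ}

/-- LOW: no site of a finite set has less than `b` particles at any time up to `U` -/
theorem low_prob (m : Model) (d : ℕ) (hd : 0 < d) (b : ℕ) : ∃ c : ℝ, 0 < c ∧ ∃ C : ℝ, 0 < C ∧
    ∀ (φ : ℝ) (h : 0 < φ), 1 ≤ φ → ∀ (δ : ℝ) (q : Par d (wf m φ h) δ), b + 2 ≤ q.K →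
    ∀ (Λ : Finset (Tor d q.M)) (U : ℕ),
    q.PP (U * q.N1) (fun η w => ∃ i ≤ U * q.N1, ∃ v ∈ Λ, stt η w i v ≤ b) ≤
      ENNReal.ofReal (C * Λ.card * (U + 1) * Real.exp (-(c * φ))) := by
  have hc := c0_pos m
  have hG : 0 < m.Gp := lt_of_lt_of_le one_pos m.le_Gp
  have hCC := CC_pos m b
  refine ⟨c0 m / 2, by linarith, (b + 1) * m.Gp * CC m b, by positivity, ?_⟩
  intro φ h h1 δ q hK Λ U
  have hone : ∑' k, (wf m φ h).m1 q.K k = 1 := ZI.R2aux.tsum_m1 (wf m φ h) q.K q.K_ge q.K_big
  refine (PP_mono q _ (E' := fun η w => ∃ v ∈ Λ, (η v ≤ b ∨ Hit (Dn v b) η w)) ?_).trans ?_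
  · rintro η w _ ⟨i, _, v, hv, hlow⟩
    exact ⟨v, hv, low_or v b w η i hlow⟩
  refine (PP_finset q _ Λ _).trans ?_
  have h0 : ∀ v : Tor d q.M, q.PP (U * q.N1) (fun η _ => η v ≤ b) ≤
      ∑ k ∈ Finset.range (b + 1), (wf m φ h).m1 q.K k := by
    intro v
    have e1 : q.PP (U * q.N1) (fun η _ => η v ≤ b) =
        ∑' η : Tor d q.M → ℕ, prw ((wf m φ h).m1 q.K) η * (fun k => if k ≤ b then 1 else 0) (η v) := by
      unfold Par.PP Par.EE
      refine tsum_congr fun η => ?_
      congr 1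
      by_cases h2 : η v ≤ b
      · have h6 : (fun k => if k ≤ b then (1 : ℝ≥0∞) else 0) (η v) = 1 := if_pos h2
        rw [h6]
        exact (ZI.EvE_congr q.w _ (fun l _ => if_pos h2)).trans
          (ZI.EvE_const q.w (ZP.Rows.sum_w q hd) _ _)
      · have h6 : (fun k => if k ≤ b then (1 : ℝ≥0∞) else 0) (η v) = 0 := if_neg h2
        rw [h6]
        exact (ZI.EvE_congr q.w _ (fun l _ => if_neg h2)).trans
          (ZI.EvE_const q.w (ZP.Rows.sum_w q hd) _ _)
    rw [e1, ZI.Rows.prw_marg ((wf m φ h).m1 q.K) hone v (fun k => if k ≤ b then 1 else 0)]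
    rw [tsum_eq_sum (s := Finset.range (b + 1))]
    · refine Finset.sum_le_sum fun k hk => ?_
      have := Finset.mem_range.1 hk
      rw [if_pos (by omega), mul_one]
    · intro k hk
      rw [Finset.mem_range] at hk
      rw [if_neg (by omega), mul_zero]
  have hN : (U * q.N1 : ℕ) * ENNReal.ofReal ((b + 1) * m.Gp * q.p) ≤
      ENNReal.ofReal ((b + 1) * m.Gp * U) := by
    rw [← ENNReal.ofReal_natCast, ← ENNReal.ofReal_mul (by positivity)]
    refine ENNReal.ofReal_le_ofReal ?_
    have h2 := q.p_ub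
    push_cast
    calc (U : ℝ) * q.N1 * ((b + 1) * m.Gp * q.p) = (b + 1) * m.Gp * U * (q.N1 * q.p) := by ring
      _ ≤ (b + 1) * m.Gp * U * 1 := mul_le_mul_of_nonneg_left h2 (by positivity)
      _ = (b + 1) * m.Gp * U := mul_one _
  have h3 : ∀ v : Tor d q.M, q.PP (U * q.N1) (fun η w => Hit (Dn v b) η w) ≤
      ENNReal.ofReal ((b + 1) * m.Gp * U) * (wf m φ h).m1 q.K (b + 1) := by
    intro v
    refine (PP_hit q hd (Dn v b) _).trans ?_
    have e1 : ∑' η : Tor d q.M → ℕ, prw ((wf m φ h).m1 q.K) η *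
        ∑ a, q.w a * (if Dn v b η a then 1 else 0) ≤
        (wf m φ h).m1 q.K (b + 1) * ENNReal.ofReal ((b + 1) * m.Gp * q.p) := by
      calc ∑' η : Tor d q.M → ℕ, prw ((wf m φ h).m1 q.K) η *
            ∑ a, q.w a * (if Dn v b η a then 1 else 0)
          ≤ ∑' η : Tor d q.M → ℕ, prw ((wf m φ h).m1 q.K) η *
            ((fun k => if k = b + 1 then 1 else 0) (η v) * ENNReal.ofReal ((b + 1) * m.Gp * q.p)) :=
            ENNReal.tsum_le_tsum fun η => mul_le_mul_right (sum_dn q hd v b η) _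
        _ = (∑' η : Tor d q.M → ℕ, prw ((wf m φ h).m1 q.K) η *
            (fun k => if k = b + 1 then 1 else 0) (η v)) * ENNReal.ofReal ((b + 1) * m.Gp * q.p) := by
            rw [← ENNReal.tsum_mul_right]
            exact tsum_congr fun η => (mul_assoc _ _ _).symm
        _ = (wf m φ h).m1 q.K (b + 1) * ENNReal.ofReal ((b + 1) * m.Gp * q.p) := by
            rw [ZI.Rows.prw_marg ((wf m φ h).m1 q.K) hone v (fun k => if k = b + 1 then 1 else 0),
              tsum_eq_single (b + 1) (fun k hk => by rw [if_neg hk, mul_zero]), if_pos rfl, mul_one]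
    calc ((U * q.N1 : ℕ) : ℝ≥0∞) * ∑' η : Tor d q.M → ℕ, prw ((wf m φ h).m1 q.K) η *
          ∑ a, q.w a * (if Dn v b η a then 1 else 0)
        ≤ ((U * q.N1 : ℕ) : ℝ≥0∞) * ((wf m φ h).m1 q.K (b + 1) *
          ENNReal.ofReal ((b + 1) * m.Gp * q.p)) := mul_le_mul_right e1 _
      _ = (((U * q.N1 : ℕ) : ℝ≥0∞) * ENNReal.ofReal ((b + 1) * m.Gp * q.p)) *
          (wf m φ h).m1 q.K (b + 1) := by ring
      _ ≤ _ := mul_le_mul_left hN _
  have h4 : ∀ v ∈ Λ, q.PP (U * q.N1) (fun η w => η v ≤ b ∨ Hit (Dn v b) η w) ≤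
      ENNReal.ofReal ((b + 1) * m.Gp * (U + 1)) *
        ENNReal.ofReal (CC m b * Real.exp (-(c0 m / 2 * φ))) := by
    intro v _
    refine (PP_or q _ _ _).trans ((add_le_add (h0 v) (h3 v)).trans ?_)
    have e1 : ENNReal.ofReal ((b + 1) * m.Gp * U) ≤ ENNReal.ofReal ((b + 1) * m.Gp * (U + 1)) := by
      refine ENNReal.ofReal_le_ofReal (mul_le_mul_of_nonneg_left (by linarith) (by positivity))
    have e2 : (1 : ℝ≥0∞) ≤ ENNReal.ofReal ((b + 1) * m.Gp * (U + 1)) := by
      rw [← ENNReal.ofReal_one]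
      refine ENNReal.ofReal_le_ofReal ?_
      have g1 : (1 : ℝ) ≤ b + 1 := by
        have : (0 : ℝ) ≤ b := Nat.cast_nonneg b
        linarith
      have g2 : (1 : ℝ) ≤ U + 1 := by
        have : (0 : ℝ) ≤ U := Nat.cast_nonneg U
        linarith
      have g3 := m.le_Gp
      calc (1 : ℝ) = 1 * 1 * 1 := by norm_num
        _ ≤ (b + 1) * m.Gp * (U + 1) := by gcongr
    calc ∑ k ∈ Finset.range (b + 1), (wf m φ h).m1 q.K k +
          ENNReal.ofReal ((b + 1) * m.Gp * U) * (wf m φ h).m1 q.K (b + 1)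
        ≤ ENNReal.ofReal ((b + 1) * m.Gp * (U + 1)) * ∑ k ∈ Finset.range (b + 1), (wf m φ h).m1 q.K k +
          ENNReal.ofReal ((b + 1) * m.Gp * (U + 1)) * (wf m φ h).m1 q.K (b + 1) :=
          add_le_add (le_mul_of_one_le_left zero_le e2) (mul_le_mul_left e1 _)
      _ = ENNReal.ofReal ((b + 1) * m.Gp * (U + 1)) *
          ∑ k ∈ Finset.range (b + 2), (wf m φ h).m1 q.K k := by
          rw [← mul_add, Finset.sum_range_succ _ (b + 1)]
      _ ≤ _ := mul_le_mul_right (m1_low m b φ h h1 q.K q.K_ge q.K_big) _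
  refine (Finset.sum_le_card_nsmul _ _ _ h4).trans (le_of_eq ?_)
  rw [nsmul_eq_mul, ← ENNReal.ofReal_natCast, ← ENNReal.ofReal_mul (by positivity),
    ← ENNReal.ofReal_mul (by positivity)]
  congr 1
  ring

end ZP.Rows
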