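import Pool.Agent.ZP.LO

/-! # Row LU: locality, explicit dependence on the fugacity -/

set_option autoImplicit false

open scoped ENNReal BigOperators Classical

noncomputable section

namespace ZP.Rows

open ZI ZI.LO

variable {d : ℕ}

/-- locality with explicit dependence on the fugacity -/
theorem local_ball_u (m : Model) (d : ℕ) (hd : 0 < d) : ∃ C : ℕ, ∀ (φ : ℝ) (h : 0 < φ),
    ∀ q : ZI.Par d (wf m φ h), ∀ (x : Tor d q.M) (ρ D U : ℕ), 2 * (ρ + D) + 4 ≤ q.M →
    q.PP (U * q.N1) (fun η w => ∃ i ≤ U * q.N1, ∃ v ∈ Bt x ρ,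
      (w.take i).foldl ZI.stepA η v ≠
        ((w.map (res (Bt x (ρ + D)))).take i).foldl ZI.stepA (cut (Bt x (ρ + D)) η) v) ≤
      ENNReal.ofReal (C * (1 + φ) * (ρ + D + 1 : ℝ) ^ C * Real.exp (C * U - D)) := by
  have hGp1 := m.le_Gp
  have hGp : 0 < m.Gp := by linarith
  obtain ⟨C1, hC1⟩ := exists_nat_ge (5 * m.Gp + 1)
  obtain ⟨C2, hC2⟩ := exists_nat_ge ((2 : ℝ) ^ d)
  refine ⟨C1 + C2 + d, fun φ h q x ρ D U _ => ?_⟩
  have hp := q.p_pos
  set Λ := Bt x (ρ + D) with hΛ
  set G : Tor d q.M → ℝ≥0∞ := fun v =>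
    if v ∈ Λ then ENNReal.ofReal (Real.exp ((ρ : ℝ) - rt x v)) else 0 with hG
  have hG0 : ∀ v, v ∉ Λ → G v = 0 := fun v hv => if_neg hv
  have hfin : ∀ v, G v ≠ ∞ := by
    intro v
    simp only [hG]
    split_ifs
    · exact ENNReal.ofReal_ne_top
    · exact ENNReal.zero_ne_top
  have hG1 : ∀ v ∈ Λ, ∀ e, G (v + tv (dv e)) ≤ ENNReal.ofReal (Real.exp 1) * G v := by
    intro v hv e
    simp only [hG]
    rw [if_pos hv]
    split_ifs with h1
    · rw [← ENNReal.ofReal_mul (Real.exp_pos _).le, ← Real.exp_add]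
      refine ENNReal.ofReal_le_ofReal (Real.exp_le_exp.2 ?_)
      have h2 : (rt x v : ℝ) ≤ rt x (v + tv (dv e)) + 1 := by exact_mod_cast rt_step' x v e
      linarith
    · exact bot_le
  have hGc : ∀ v, v ∉ Λ → ∀ e, G (v + tv (dv e)) ≤ ENNReal.ofReal (Real.exp (-(D : ℝ))) := by
    intro v hv e
    simp only [hG]
    split_ifs with h1
    · refine ENNReal.ofReal_le_ofReal (Real.exp_le_exp.2 ?_)
      rw [hΛ, mem_iff, not_le] at hv
      have h2 := rt_step' x v e
      have h3 : ρ + D ≤ rt x (v + tv (dv e)) := by omega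
      have h4 : (ρ : ℝ) + D ≤ rt x (v + tv (dv e)) := by exact_mod_cast h3
      linarith
    · exact bot_le
  set N := U * q.N1 with hN
  -- hitting against the final value
  have h1 : q.PP N (fun η w => ∃ i ≤ N, ∃ v ∈ Bt x ρ, (w.take i).foldl ZI.stepA η v ≠
      ((w.map (res Λ)).take i).foldl ZI.stepA (cut Λ η) v) ≤
      ENNReal.ofReal (1 + 2 * m.Gp * q.p) ^ N *
        q.EE N (fun η l => fS q G (l.foldl (st2 Λ) (η, cut Λ η))) := by
    rw [← C5.EE_mul]
    unfold ZI.Par.PP ZI.Par.EE
    refine ENNReal.tsum_le_tsum fun η => mul_le_mul_right ?_ _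
    rw [EvE_mul]
    have h2 := hits_le q.w (ZI.Rows.sum_w q hd) (st2 Λ) (Inv q Λ)
      (fun s => ∃ v ∈ Bt x ρ, s.1 v ≠ s.2 v) (fS q G) (ENNReal.ofReal (1 + 2 * m.Gp * q.p))
      (by
        rw [← ENNReal.ofReal_one]
        exact ENNReal.ofReal_le_ofReal (by nlinarith [mul_pos hGp hp]))
      (fun s a hs => inv_st2 q Λ s a hs)
      (by
        rintro s hs ⟨v, hv, hne⟩
        have hvΛ : v ∈ Λ := by
          rw [hΛ, mem_iff]
          rw [mem_iff] at hv
          omega
        have h3 := hs v hvΛ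
        have h4 : 1 ≤ s.1 v - s.2 v := by omega
        unfold fS Sd
        refine le_trans ?_ (Finset.single_le_sum (f := fun v => ((s.1 v - s.2 v : ℕ) : ℝ≥0∞) * G v)
          (fun _ _ => bot_le) (Finset.mem_univ v))
        have h5 : (1 : ℝ≥0∞) ≤ ((s.1 v - s.2 v : ℕ) : ℝ≥0∞) := by exact_mod_cast h4
        have h6 : (1 : ℝ≥0∞) ≤ G v := by
          simp only [hG]
          rw [if_pos hvΛ, ← ENNReal.ofReal_one]
          refine ENNReal.ofReal_le_ofReal (Real.one_le_exp ?_)
          rw [mem_iff] at hv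
          have : (rt x v : ℝ) ≤ ρ := by exact_mod_cast hv
          linarith
        calc (1 : ℝ≥0∞) = 1 * 1 := (one_mul 1).symm
          _ ≤ _ := mul_le_mul' h5 h6)
      (fun s hs => drift_low q hd Λ G hG0 hfin s hs) N (η, cut Λ η)
      (by
        intro v hv
        simp [ZP.cut, hv])
    refine le_trans (EvE_mono q.w N fun l hl => ?_) h2
    beta_reduce
    by_cases hE : ∃ i ≤ N, ∃ v ∈ Bt x ρ, (l.take i).foldl ZI.stepA η v ≠
      ((l.map (res Λ)).take i).foldl ZI.stepA (cut Λ η) v
    · rw [if_pos hE, if_pos]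
      obtain ⟨i, hi, v, hv, hne⟩ := hE
      refine ⟨i, hi, v, hv, ?_⟩
      rw [foldl_st2, List.map_take]
      exact hne
    · rw [if_neg hE]
      exact bot_le
  refine h1.trans ?_
  have h2 := EE_fS q hd Λ G _ hG0 hG1 hGc N
  refine (mul_le_mul_right h2 _).trans ?_
  have hcard : ((Finset.univ.filter (fun v => v ∈ Λ)).card : ℝ≥0∞) ≤
      ENNReal.ofReal ((2 * (ρ + D : ℝ) + 1) ^ d) := by
    have h3 := card_Bt x (ρ + D)
    calc ((Finset.univ.filter (fun v => v ∈ Λ)).card : ℝ≥0∞) ≤ (((2 * (ρ + D) + 1) ^ d : ℕ) : ℝ≥0∞) := by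
          exact_mod_cast h3
      _ = _ := by
          rw [← ENNReal.ofReal_natCast]
          push_cast
          rfl
  have hx0 : 0 < m.Gp * q.p := mul_pos hGp hp
  calc ENNReal.ofReal (1 + 2 * m.Gp * q.p) ^ N * (ENNReal.ofReal (1 + 3 * m.Gp * q.p) ^ N * (N *
        (((Finset.univ.filter (fun v => v ∈ Λ)).card : ℝ≥0∞) *
          (ENNReal.ofReal (Real.exp (-(D : ℝ))) * ENNReal.ofReal (φ * q.p)))))
      ≤ ENNReal.ofReal (1 + 2 * m.Gp * q.p) ^ N * (ENNReal.ofReal (1 + 3 * m.Gp * q.p) ^ N * (N *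
        (ENNReal.ofReal ((2 * (ρ + D : ℝ) + 1) ^ d) *
          (ENNReal.ofReal (Real.exp (-(D : ℝ))) * ENNReal.ofReal (φ * q.p))))) := by
        gcongr
    _ = ENNReal.ofReal ((1 + 2 * m.Gp * q.p) ^ N * ((1 + 3 * m.Gp * q.p) ^ N * (N *
        ((2 * (ρ + D : ℝ) + 1) ^ d * (Real.exp (-(D : ℝ)) * (φ * q.p)))))) := by
        rw [← ENNReal.ofReal_natCast, ← ENNReal.ofReal_pow (by nlinarith),
          ← ENNReal.ofReal_pow (by nlinarith), ← ENNReal.ofReal_mul (Real.exp_pos _).le,
          ← ENNReal.ofReal_mul (by positivity), ← ENNReal.ofReal_mul (by positivity),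
          ← ENNReal.ofReal_mul (pow_nonneg (by nlinarith) _),
          ← ENNReal.ofReal_mul (pow_nonneg (by nlinarith) _)]
    _ ≤ _ := by
        refine ENNReal.ofReal_le_ofReal ?_
        have hpN : (N : ℝ) * q.p ≤ U := by
          have h3 := q.p_ub
          rw [hN]
          push_cast
          calc (U : ℝ) * q.N1 * q.p = U * (q.N1 * q.p) := by ring
            _ ≤ U * 1 := by gcongr
            _ = U := mul_one _
        have e1 : (1 + 2 * m.Gp * q.p) ^ N ≤ Real.exp (2 * m.Gp * U) := by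
          calc (1 + 2 * m.Gp * q.p) ^ N ≤ (Real.exp (2 * m.Gp * q.p)) ^ N := by
                refine pow_le_pow_left₀ (by nlinarith) ?_ _
                rw [add_comm]
                exact Real.add_one_le_exp _
            _ = Real.exp (2 * m.Gp * (N * q.p)) := by
                rw [← Real.exp_nat_mul]
                congr 1
                ring
            _ ≤ _ := by
                apply Real.exp_le_exp.2
                gcongr
        have e2 : (1 + 3 * m.Gp * q.p) ^ N ≤ Real.exp (3 * m.Gp * U) := by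
          calc (1 + 3 * m.Gp * q.p) ^ N ≤ (Real.exp (3 * m.Gp * q.p)) ^ N := by
                refine pow_le_pow_left₀ (by nlinarith) ?_ _
                rw [add_comm]
                exact Real.add_one_le_exp _
            _ = Real.exp (3 * m.Gp * (N * q.p)) := by
                rw [← Real.exp_nat_mul]
                congr 1
                ring
            _ ≤ _ := by
                apply Real.exp_le_exp.2
                gcongr
        have e3 : (2 * (ρ + D : ℝ) + 1) ^ d ≤ 2 ^ d * (ρ + D + 1 : ℝ) ^ d := by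
          rw [← mul_pow]
          refine pow_le_pow_left₀ (by positivity) ?_ _
          have : (0 : ℝ) ≤ ρ + D := by positivity
          linarith
        have e4 : (U : ℝ) ≤ Real.exp U := by
          have := Real.add_one_le_exp (U : ℝ)
          linarith
        have e5 : (ρ + D + 1 : ℝ) ^ d ≤ (ρ + D + 1 : ℝ) ^ (C1 + C2 + d) := by
          refine pow_le_pow_right₀ ?_ (by omega)
          have : (0 : ℝ) ≤ ρ + D := by positivity
          linarith
        have hφhi : 0 < 1 + φ := by linarith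
        have hφ : φ ≤ 1 + φ := by linarith
        have hexp : Real.exp (2 * m.Gp * U) * Real.exp (3 * m.Gp * U) * Real.exp U *
            Real.exp (-(D : ℝ)) = Real.exp ((5 * m.Gp + 1) * U - D) := by
          rw [← Real.exp_add, ← Real.exp_add, ← Real.exp_add]
          congr 1
          ring
        have hexp2 : Real.exp ((5 * m.Gp + 1) * U - D) ≤
            Real.exp (((C1 + C2 + d : ℕ) : ℝ) * U - D) := by
          apply Real.exp_le_exp.2
          have : 5 * m.Gp + 1 ≤ ((C1 + C2 + d : ℕ) : ℝ) := by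
            push_cast
            have : (0 : ℝ) ≤ C2 := by positivity
            have : (0 : ℝ) ≤ d := by positivity
            linarith
          gcongr
        calc (1 + 2 * m.Gp * q.p) ^ N * ((1 + 3 * m.Gp * q.p) ^ N * (N *
            ((2 * (ρ + D : ℝ) + 1) ^ d * (Real.exp (-(D : ℝ)) * (φ * q.p))))) =
            (1 + 2 * m.Gp * q.p) ^ N * (1 + 3 * m.Gp * q.p) ^ N * (N * q.p) *
              ((2 * (ρ + D : ℝ) + 1) ^ d) * φ * Real.exp (-(D : ℝ)) := by ring
          _ ≤ Real.exp (2 * m.Gp * U) * Real.exp (3 * m.Gp * U) * Real.exp U *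
              (2 ^ d * (ρ + D + 1 : ℝ) ^ d) * (1 + φ) * Real.exp (-(D : ℝ)) := by
              have e6 : (N : ℝ) * q.p ≤ Real.exp U := hpN.trans e4
              gcongr
          _ = ((1 + φ) * 2 ^ d) * (ρ + D + 1 : ℝ) ^ d * (Real.exp (2 * m.Gp * U) *
              Real.exp (3 * m.Gp * U) * Real.exp U * Real.exp (-(D : ℝ))) := by ring
          _ = ((1 + φ) * 2 ^ d) * (ρ + D + 1 : ℝ) ^ d * Real.exp ((5 * m.Gp + 1) * U - D) := by
              rw [hexp]
          _ ≤ ((C1 + C2 + d : ℕ) : ℝ) * (1 + φ) * (ρ + D + 1 : ℝ) ^ (C1 + C2 + d) *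
              Real.exp (((C1 + C2 + d : ℕ) : ℝ) * U - D) := by
              have e7 : (1 + φ) * 2 ^ d ≤ ((C1 + C2 + d : ℕ) : ℝ) * (1 + φ) := by
                rw [mul_comm]
                refine mul_le_mul_of_nonneg_right ?_ hφhi.le
                push_cast
                have : (0 : ℝ) ≤ C1 := by positivity
                have : (0 : ℝ) ≤ d := by positivity
                linarith
              gcongr

end ZP.Rows
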