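import Pool.Agent.ZP.Core
import Pool.Agent.ZP.R2
import Pool.Agent.ZI.R1
import Pool.Agent.ZI.R2

/-! # RNG: all labels of the level `0` of a finite set of sites ring in every window -/

set_option autoImplicit false

open scoped ENNReal BigOperators Classical

noncomputable section

namespace ZP.Rows

open ZP

variable {d : ℕ}

namespace RNG

theorem PrE_succ {α : Type} [Fintype α] (w : α → ℝ≥0∞) (N : ℕ) (E : List α → Prop) :
    PrE w (N + 1) E = ∑ b, w b * PrE w N (fun l => E (b :: l)) := by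
  unfold PrE
  rw [ZI.EvE_succ]

theorem PrE_false {α : Type} [Fintype α] (w : α → ℝ≥0∞) (N : ℕ) (E : List α → Prop)
    (h : ∀ l, ¬ E l) : PrE w N E = 0 := by
  refine le_antisymm ?_ zero_le
  have h1 := ZI.EvE_mul w N 0 (fun _ => 1)
  simp only [zero_mul] at h1
  refine le_trans (ZI.EvE_mono w N (G := fun _ => 0) fun l _ => ?_) (by rw [h1])
  simp [h l]

/-- a letter does not occur between the positions `u` and `v` -/
theorem PrE_avoid {α : Type} [Fintype α] (w : α → ℝ≥0∞) (hw : ∑ a, w a = 1) (d0 a : α) :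
    ∀ (N u v : ℕ), v ≤ N →
      PrE w N (fun l => ∀ i, u ≤ i → i < v → l.getD i d0 ≠ a) ≤ (1 - w a) ^ (v - u) := by
  intro N
  induction N with
  | zero =>
    intro u v hv
    have hv0 : v = 0 := by omega
    subst hv0
    simpa using ZI.PrE_le_one w hw 0 _
  | succ N ih =>
    intro u v hv
    rcases v with _ | v
    · simpa using ZI.PrE_le_one w hw (N + 1) _
    · have hv' : v ≤ N := by omega
      rw [PrE_succ]
      rcases u with _ | u
      · have h1 : ∀ b : α, w b * PrE w N (fun l => ∀ i, 0 ≤ i → i < v + 1 →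
            (b :: l).getD i d0 ≠ a) ≤
            (if b = a then 0 else w b) * (1 - w a) ^ (v - 0) := by
          intro b
          by_cases hb : b = a
          · rw [if_pos hb, zero_mul]
            rw [PrE_false, mul_zero]
            intro l h
            exact h 0 le_rfl (by omega) (by simpa using hb)
          · rw [if_neg hb]
            gcongr
            refine le_trans (ZI.PrE_mono w N fun l _ h => ?_) (ih 0 v hv')
            intro i _ hi
            have := h (i + 1) (by omega) (by omega)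
            simpa using this
        refine (Finset.sum_le_sum fun b _ => h1 b).trans ?_
        rw [← Finset.sum_mul]
        have h2 : ∑ b, (if b = a then 0 else w b) = 1 - w a := by
          have h3 : ∑ b, w b = w a + ∑ b, (if b = a then 0 else w b) := by
            have h4 : ∀ b, w b = (if b = a then w b else 0) + (if b = a then 0 else w b) := by
              intro b
              split_ifs <;> simp
            rw [Finset.sum_congr rfl fun b _ => h4 b, Finset.sum_add_distrib]
            simp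
          have ha : w a ≠ ⊤ := by
            have : w a ≤ ∑ b, w b := Finset.single_le_sum (fun _ _ => zero_le) (Finset.mem_univ a)
            rw [hw] at this
            exact ne_top_of_le_ne_top ENNReal.one_ne_top this
          rw [← hw, h3, ENNReal.add_sub_cancel_left ha]
        rw [h2, Nat.sub_zero, Nat.sub_zero, pow_succ, mul_comm]
      · have h1 : ∀ b : α, w b * PrE w N (fun l => ∀ i, u + 1 ≤ i → i < v + 1 →
            (b :: l).getD i d0 ≠ a) ≤ w b * (1 - w a) ^ (v - u) := by
          intro b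
          gcongr
          refine le_trans (ZI.PrE_mono w N fun l _ h => ?_) (ih u v hv')
          intro i hi1 hi2
          have := h (i + 1) (by omega) (by omega)
          simpa using this
        refine (Finset.sum_le_sum fun b _ => h1 b).trans ?_
        rw [← Finset.sum_mul, hw, one_mul, Nat.add_sub_add_right]

theorem PrE_finset {α ι : Type} [Fintype α] (w : α → ℝ≥0∞) (N : ℕ) (I : Finset ι)
    (E : ι → List α → Prop) :
    PrE w N (fun l => ∃ i ∈ I, E i l) ≤ ∑ i ∈ I, PrE w N (E i) := by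
  induction I using Finset.induction_on with
  | empty =>
    have h1 := ZI.EvE_mul w N 0 (fun _ => 1)
    simp only [zero_mul] at h1
    refine le_trans (ZI.EvE_mono w N (G := fun _ => 0) fun l _ => ?_) (by rw [h1]; simp)
    simp
  | insert a s ha ih =>
    rw [Finset.sum_insert ha]
    refine le_trans (ZI.PrE_mono w N (E' := fun l => E a l ∨ ∃ i ∈ s, E i l) fun l _ h => ?_)
      (le_trans (ZI.PrE_or w N _ _) (add_le_add le_rfl ih))
    obtain ⟨i, hi, h⟩ := h
    rcases Finset.mem_insert.1 hi with rfl | hi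
    · exact Or.inl h
    · exact Or.inr ⟨i, hi, h⟩

theorem PP_le {m : Model} {δ : ℝ} (q : Par d m δ) (N : ℕ) (E : Ev d q.M q.K) (ε : ℝ≥0∞)
    (h : ∀ η, PrE q.w N (E η) ≤ ε) : q.PP N E ≤ ε := by
  have h1 : q.PP N E ≤ ∑' η : Tor d q.M → ℕ, prw (m.m1 q.K) η * ε := by
    refine ENNReal.tsum_le_tsum fun η => ?_
    gcongr
    exact h η
  rw [ENNReal.tsum_mul_right] at h1
  have h2 : ∑' η : Tor d q.M → ℕ, prw (m.m1 q.K) η = 1 := ZI.Rows.tsum_prw q.toZI
  rwa [h2, one_mul] at h1

end RNG

open RNG in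
/-- RNG: every label `(v, 1, e)` of a finite set of sites rings in every window `[j s, (j + 1) s]` -/
theorem ring_prob (m : Model) (d : ℕ) (hd : 0 < d) : ∃ c : ℝ, 0 < c ∧
    ∀ (φ : ℝ) (h : 0 < φ) (δ : ℝ) (q : Par d (wf m φ h) δ) (Λ : Finset (Tor d q.M)) (s n : ℕ),
    q.PP (n * s * q.N1) (fun η w => ∃ j < n, ∃ v ∈ Λ, ∃ e : Dir d,
      ¬ ∃ i, j * s * q.N1 ≤ i ∧ i < (j + 1) * s * q.N1 ∧
        w.getD i none = some (v, ⟨1, by have := q.K_ge; omega⟩, e)) ≤
      ENNReal.ofReal (2 * d * Λ.card * n * Real.exp (-(c * s))) := by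
  have hGm := m.Gm_pos
  have hdr : (0 : ℝ) < d := by exact_mod_cast hd
  refine ⟨m.Gm / (4 * d), by positivity, ?_⟩
  intro φ h δ q Λ s n
  have hw := sum_w q hd
  have hK : 1 < q.K + 1 := by have := q.K_ge; omega
  -- one label, one window
  have hone : ∀ j < n, ∀ v : Tor d q.M, ∀ e : Dir d,
      PrE q.w (n * s * q.N1) (fun w => ¬ ∃ i, j * s * q.N1 ≤ i ∧ i < (j + 1) * s * q.N1 ∧
        w.getD i none = some (v, ⟨1, hK⟩, e)) ≤
        ENNReal.ofReal (Real.exp (-(m.Gm / (4 * d) * s))) := by
    intro j hj v e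
    have h1 := PrE_avoid q.w hw none (some (v, ⟨1, hK⟩, e)) (n * s * q.N1) (j * s * q.N1)
      ((j + 1) * s * q.N1) (by
        refine Nat.mul_le_mul_right _ (Nat.mul_le_mul_right _ hj))
    have h2 : (j + 1) * s * q.N1 - j * s * q.N1 = s * q.N1 := by
      rw [show (j + 1) * s * q.N1 = j * s * q.N1 + s * q.N1 by ring, Nat.add_sub_cancel_left]
    rw [h2] at h1
    refine le_trans (ZI.PrE_mono q.w _ fun w _ hw' i hi1 hi2 hi3 => hw' ⟨i, hi1, hi2, hi3⟩)
      (le_trans h1 ?_)
    obtain ⟨x, hx⟩ : ∃ x : ℝ, x = lamR (wf m φ h) δ d 1 * q.p := ⟨_, rfl⟩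
    have hx1 : q.w (some (v, ⟨1, hK⟩, e)) = ENNReal.ofReal x := by
      rw [hx]
      rfl
    have hxl : m.Gm / (2 * d) * q.p ≤ x := by
      rw [hx]
      refine mul_le_mul_of_nonneg_right ?_ q.p_pos.le
      show m.Gm / (2 * d) ≤ (m.g (0 + 1) - m.g 0) / (2 * d)
      exact div_le_div_of_nonneg_right (m.inc_lb 0) (by positivity)
    have hx0 : 0 ≤ x := le_trans (by have := q.p_pos; positivity) hxl
    have hx2 : x ≤ 1 := by
      have h3 : ENNReal.ofReal x ≤ 1 := by
        rw [← hx1, ← hw]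
        exact Finset.single_le_sum (fun _ _ => zero_le) (Finset.mem_univ _)
      rwa [ENNReal.ofReal_le_one] at h3
    rw [hx1, ← ENNReal.ofReal_one, ← ENNReal.ofReal_sub _ hx0, ← ENNReal.ofReal_pow (by linarith)]
    refine ENNReal.ofReal_le_ofReal ?_
    have h4 : 1 - x ≤ Real.exp (-x) := by
      have := Real.add_one_le_exp (-x)
      linarith
    refine le_trans (pow_le_pow_left₀ (by linarith) h4 _) ?_
    rw [← Real.exp_nat_mul]
    refine Real.exp_le_exp.2 ?_
    have h5 := q.p_lb
    have h6 : (0 : ℝ) ≤ s := Nat.cast_nonneg s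
    have h7 : m.Gm / (4 * d) * s ≤ ((s * q.N1 : ℕ) : ℝ) * (m.Gm / (2 * d) * q.p) := by
      have h8 : ((s * q.N1 : ℕ) : ℝ) * (m.Gm / (2 * d) * q.p) = m.Gm / (2 * d) * s * (q.N1 * q.p) := by
        push_cast
        ring
      rw [h8]
      have h9 : m.Gm / (4 * d) * s = m.Gm / (2 * d) * s * (1 / 2) := by
        field_simp
        ring
      rw [h9]
      exact mul_le_mul_of_nonneg_left h5 (by positivity)
    have h10 : ((s * q.N1 : ℕ) : ℝ) * (m.Gm / (2 * d) * q.p) ≤ ((s * q.N1 : ℕ) : ℝ) * x :=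
      mul_le_mul_of_nonneg_left hxl (Nat.cast_nonneg _)
    linarith
  refine PP_le q _ _ _ fun η => ?_
  have h3 := PrE_finset q.w (n * s * q.N1) (Finset.range n ×ˢ (Λ ×ˢ (Finset.univ : Finset (Dir d))))
    (fun a w => ¬ ∃ i, a.1 * s * q.N1 ≤ i ∧ i < (a.1 + 1) * s * q.N1 ∧
        w.getD i none = some (a.2.1, ⟨1, hK⟩, a.2.2))
  refine le_trans (ZI.PrE_mono q.w _ fun w _ hw' => ?_) (le_trans h3 ?_)
  · obtain ⟨j, hj, v, hv, e, he⟩ := hw'
    exact ⟨(j, (v, e)), Finset.mem_product.2 ⟨Finset.mem_range.2 hj,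
      Finset.mem_product.2 ⟨hv, Finset.mem_univ _⟩⟩, he⟩
  · refine le_trans (Finset.sum_le_card_nsmul _ _ (ENNReal.ofReal (Real.exp (-(m.Gm / (4 * d) * s))))
      ?_) (le_of_eq ?_)
    · rintro ⟨j, v, e⟩ ha
      exact hone j (Finset.mem_range.1 (Finset.mem_product.1 ha).1) v e
    · rw [nsmul_eq_mul, Finset.card_product, Finset.card_product, Finset.card_range,
        Finset.card_univ, Fintype.card_prod, Fintype.card_fin, Fintype.card_bool,
        ← ENNReal.ofReal_natCast, ← ENNReal.ofReal_mul (Nat.cast_nonneg _)]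
      congr 1
      push_cast
      ring

end ZP.Rows
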