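import Pool.Agent.ZP.Dec
import Pool.Agent.ZI.E1

/-! # Row E1: the infection is a function of the path of configurations with marks -/

set_option autoImplicit false

open scoped ENNReal BigOperators Classical

noncomputable section

namespace ZP.E1

open ZP

variable {d : ℕ}

/-! ### one letter -/

section letters

variable {M K : ℕ}

theorem foldl_filterMap (G : Set (Pos d)) (L : List (Let d M K)) (s : (Tor d M → ℕ) × Set (Pos d)) :
    (L.filterMap toLab).foldl (stepR nbT tv G) s = L.foldl (stepI G) s := by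
  induction L generalizing s with
  | nil => rfl
  | cons a L ih =>
    rw [List.foldl_cons, ← ih]
    rw [List.filterMap_cons]
    unfold stepI
    cases h : toLab a with
    | none => rfl
    | some l => rfl

theorem foldl_filterMap_mv (L : List (Let d M K)) (η : Tor d M → ℕ) :
    (L.filterMap toLab).foldl (mv nbT) η = L.foldl stepA η := by
  induction L generalizing η with
  | nil => rfl
  | cons a L ih =>
    rw [List.foldl_cons, ← ih]
    rw [List.filterMap_cons]
    unfold stepA
    cases h : toLab a with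
    | none => rfl
    | some l => rfl

theorem stepI_fst (G : Set (Pos d)) (s : (Tor d M → ℕ) × Set (Pos d)) (a : Let d M K) :
    (stepI G s a).1 = stepA s.1 a := by
  unfold stepI stepA
  cases h : toLab a with
  | none => rfl
  | some l => rfl

theorem foldl_stepI_fst (G : Set (Pos d)) (L : List (Let d M K)) (s : (Tor d M → ℕ) × Set (Pos d)) :
    (L.foldl (stepI G) s).1 = L.foldl stepA s.1 := by
  induction L generalizing s with
  | nil => rfl
  | cons a L ih =>
    rw [List.foldl_cons, List.foldl_cons, ih, stepI_fst]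

theorem foldl_stepI_sub (G : Set (Pos d)) (L : List (Let d M K)) (s : (Tor d M → ℕ) × Set (Pos d))
    (h : s.2 ⊆ G) : (L.foldl (stepI G) s).2 ⊆ G := by
  induction L generalizing s with
  | nil => exact h
  | cons a L ih =>
    rw [List.foldl_cons]
    refine ih _ ?_
    unfold stepI
    cases h' : toLab a with
    | none => exact h
    | some l => exact Set.inter_subset_right

/-- the configuration at an integer time -/
theorem cfg_eq (N1 : ℕ) (η0 : Tor d M → ℕ) (w : List (Let d M K)) (t : ℕ) :
    cfg nbT η0 (units N1 w) t = (w.take (t * N1)).foldl stepA η0 := by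
  induction t with
  | zero => simp [cfg]
  | succ t ih =>
    rw [cfg, ih, units, foldl_filterMap_mv, ← List.foldl_append]
    congr 1
    rw [Nat.succ_mul, List.take_add]

theorem stepA_none (η : Tor d M → ℕ) (a : Let d M K) (h : toLab a = none) : stepA η a = η := by
  unfold stepA
  rw [h]

theorem stepA_some (η : Tor d M → ℕ) (a : Let d M K) (b : Lab (Tor d M) d)
    (h : toLab a = some b) : stepA η a = mv nbT η b := by
  unfold stepA
  rw [h]

theorem stepI_none (G : Set (Pos d)) (s : (Tor d M → ℕ) × Set (Pos d))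
    (a : Let d M K) (h : toLab a = none) : stepI G s a = s := by
  unfold stepI
  rw [h]

theorem stepI_some (G : Set (Pos d)) (s : (Tor d M → ℕ) × Set (Pos d))
    (a : Let d M K) (b : Lab (Tor d M) d) (h : toLab a = some b) :
    stepI G s a = stepR nbT tv G s b := by
  unfold stepI
  rw [h]

theorem mark_none (a : Let d M K) (h : toLab a = none) : mark a = none := by
  unfold mark
  rw [h]

theorem mark_zero (a : Let d M K) (x : Tor d M) (e : Dir d) (h : toLab a = some (x, 0, e)) :
    mark a = some x := by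
  unfold mark
  rw [h]
  rfl

theorem mark_succ (a : Let d M K) (x : Tor d M) (k : ℕ) (e : Dir d)
    (h : toLab a = some (x, k + 1, e)) : mark a = none := by
  unfold mark
  rw [h]
  rfl

end letters

/-! ### the canonical letter -/

section can

variable {M K : ℕ}

theorem canL_rec (hd : 0 < d) (x : Tor d M) (η η' : Tor d M → ℕ) : ∃ e : Dir d,
    toLab (canL (some x) η η' : Let d M (K + 1)) = some (x, 0, e) := by
  have h : Nonempty (Dir d) := ⟨(⟨0, hd⟩, true)⟩
  refine ⟨h.some, ?_⟩
  unfold canL
  dsimp only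
  rw [dif_pos h]
  rfl

theorem canL_stay (hM : 2 ≤ M) (η : Tor d M → ℕ) :
    (canL none η η : Let d M (K + 1)) = none := by
  unfold canL
  dsimp only
  rw [dif_neg]
  rintro ⟨b, -, h1, h2⟩
  exact ZI.E1.mv_ne hM η (b.1, 0, b.2.2) h1 h2.symm

theorem canL_jump (hM : 3 ≤ M) (hK : 0 < K) (η : Tor d M → ℕ) (x : Tor d M) (k : ℕ) (e : Dir d)
    (h : k < η x) :
    toLab (canL none η (ZI.mv nbT η (x, k, e)) : Let d M (K + 1)) = some (x, 1, e) := by
  have hM2 : 2 ≤ M := by omega
  have hx : 0 < η x := lt_of_le_of_lt (Nat.zero_le _) h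
  have hmv : ZI.mv nbT η (x, k, e) = ZI.mv nbT η (x, 0, e) := by
    rw [ZI.C5.mv_add η (x, k, e) h, ZI.C5.mv_add η (x, 0, e) hx]
  have hex : ∃ c : Tor d M × Fin (K + 1) × Dir d, (c.2.1 : ℕ) = 1 ∧ 0 < η c.1 ∧
      ZI.mv nbT η (x, k, e) = ZI.mv nbT η (c.1, 0, c.2.2) :=
    ⟨(x, ⟨1, by omega⟩, e), rfl, hx, hmv⟩
  unfold canL
  dsimp only
  rw [dif_pos hex]
  set c := hex.choose with hc
  obtain ⟨h1, h2, h3⟩ := hex.choose_spec
  rw [← hc] at h1 h2 h3
  obtain ⟨a1, a2, a3⟩ := ZI.C5.jump_vals hM2 η x e hx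
  obtain ⟨c1, c2, c3⟩ := ZI.C5.jump_vals hM2 η c.1 c.2.2 h2
  rw [ZI.C5.mv_add η (x, k, e) h, ZI.C5.mv_add η (c.1, 0, c.2.2) h2] at h3
  change ZI.R2aux.add (ZI.R2aux.rem η x) (x + tv (dv e)) =
    ZI.R2aux.add (ZI.R2aux.rem η c.1) (c.1 + tv (dv c.2.2)) at h3
  rw [← h3] at c1 c2 c3
  have hneb : x + tv (dv e) ≠ x := ZI.Rows.add_tv_ne hM2 x e
  have e1 : x = c.1 := by
    by_contra hne
    by_cases h4 : x = c.1 + tv (dv c.2.2)
    · rw [← h4] at c2
      omega
    · have := c3 x hne h4
      omega
  have e2 : x + tv (dv e) = c.1 + tv (dv c.2.2) := by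
    by_contra hne
    have h4 : x + tv (dv e) ≠ c.1 := by rw [← e1]; exact hneb
    have := c3 _ h4 hne
    omega
  have e3 : e = c.2.2 := by
    rw [e1] at e2
    exact ZI.E1.tv_dv_inj hM (add_left_cancel e2)
  change some (c.1, (c.2.1 : ℕ), c.2.2) = some (x, 1, e)
  rw [h1, ← e1, ← e3]

theorem stepI_can (hd : 0 < d) (hM : 3 ≤ M) (hK : 0 < K) (G A : Set (Pos d))
    (η : Tor d M → ℕ) (a : Let d M (K + 1)) (hA : A ⊆ G) :
    stepI G (η, A) (canL (mark a) η (stepA η a) : Let d M (K + 1)) = stepI G (η, A) a := by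
  have hM2 : 2 ≤ M := by omega
  cases h : toLab a with
  | none =>
    rw [stepA_none _ _ h, mark_none a h, canL_stay hM2, stepI_none _ _ a h]
    exact stepI_none _ _ _ rfl
  | some b =>
    obtain ⟨x, j, e⟩ := b
    cases j with
    | zero =>
      obtain ⟨e', he'⟩ := canL_rec (K := K) hd x η (stepA η a)
      rw [mark_zero a x e h, stepI_some _ _ _ _ he', stepI_some _ _ a _ h]
      rfl
    | succ k =>
      rw [mark_succ a x k e h]
      have hs : stepA η a = ZI.mv nbT η (x, k, e) := stepA_some η a _ h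
      by_cases hk : k < η x
      · rw [hs, stepI_some _ _ a _ h, stepI_some _ _ _ _ (canL_jump hM hK η x k e hk)]
        have hx : 0 < η x := lt_of_le_of_lt (Nat.zero_le _) hk
        unfold stepR
        refine Prod.ext ?_ ?_
        · change ZI.mv nbT η (x, 0, e) = ZI.mv nbT η (x, k, e)
          rw [ZI.C5.mv_add η (x, k, e) hk, ZI.C5.mv_add η (x, 0, e) hx]
        · change ZI.infMv nbT tv η A (x, 0, e) ∩ G = ZI.infMv nbT tv η A (x, k, e) ∩ G
          have h1 : ZI.infMv nbT tv η A (x, 0, e) = ZI.infMv nbT tv η A (x, k, e) := by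
            unfold ZI.infMv
            rw [if_pos hk, if_pos hx]
          rw [h1]
      · rw [hs, ZI.C5.mv_stay _ _ hk, canL_stay hM2, stepI_some _ _ a _ h,
          stepI_none _ _ _ rfl]
        unfold stepR
        refine Prod.ext ?_ ?_
        · exact (ZI.C5.mv_stay η (x, k, e) hk).symm
        · change A = ZI.infMv nbT tv η A (x, k, e) ∩ G
          unfold ZI.infMv
          rw [if_neg hk, Set.inter_eq_left.2 hA]

theorem mark_can (hd : 0 < d) (hM : 3 ≤ M) (hK : 0 < K) (η : Tor d M → ℕ)
    (a : Let d M (K + 1)) :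
    mark (canL (mark a) η (stepA η a) : Let d M (K + 1)) = mark a := by
  have hM2 : 2 ≤ M := by omega
  cases h : toLab a with
  | none =>
    rw [stepA_none _ _ h, mark_none a h, canL_stay hM2]
    rfl
  | some b =>
    obtain ⟨x, j, e⟩ := b
    cases j with
    | zero =>
      obtain ⟨e', he'⟩ := canL_rec (K := K) hd x η (stepA η a)
      rw [mark_zero a x e h, mark_zero _ x e' he']
    | succ k =>
      rw [mark_succ a x k e h]
      have hs : stepA η a = ZI.mv nbT η (x, k, e) := stepA_some η a _ h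
      by_cases hk : k < η x
      · rw [hs]
        exact mark_succ _ x 0 e (canL_jump hM hK η x k e hk)
      · rw [hs, ZI.C5.mv_stay _ _ hk, canL_stay hM2]
        rfl

/-! ### the canonical word -/

/-- the canonical word of the path of a word -/
def cw : (Tor d M → ℕ) → List (Let d M (K + 1)) → List (Let d M (K + 1))
  | _, [] => []
  | η, a :: w => canL (mark a) η (stepA η a) :: cw (stepA η a) w

theorem path_head (η : Tor d M → ℕ) (l : List (Let d M K)) :
    ∃ L, path η l = η :: L := by
  cases l with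
  | nil => exact ⟨[], rfl⟩
  | cons a l => exact ⟨path (stepA η a) l, rfl⟩

theorem path_length (η : Tor d M → ℕ) (l : List (Let d M K)) :
    (path η l).length = l.length + 1 := by
  induction l generalizing η with
  | nil => rfl
  | cons a l ih =>
    rw [path, List.length_cons, ih, List.length_cons]

theorem path_snoc (η : Tor d M → ℕ) (l : List (Let d M K)) (a : Let d M K) :
    path η (l ++ [a]) = path η l ++ [stepA (l.foldl stepA η) a] := by
  induction l generalizing η with
  | nil => rfl
  | cons b l ih =>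
    rw [List.cons_append, path, path, ih]
    rfl

theorem path_rev_head (η : Tor d M → ℕ) (l : List (Let d M K)) :
    ∃ L, (path η l).reverse = l.foldl stepA η :: L := by
  induction l using List.reverseRecOn with
  | nil => exact ⟨[], rfl⟩
  | append_singleton l a ih =>
    refine ⟨(path η l).reverse, ?_⟩
    rw [path_snoc, List.reverse_append, List.foldl_append]
    rfl

theorem canP_path (w : List (Let d M (K + 1))) : ∀ η : Tor d M → ℕ,
    (canP (path η w) (w.map mark) : List (Let d M (K + 1))) = cw η w := by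
  induction w with
  | nil => exact fun η => rfl
  | cons a w ih =>
    intro η
    obtain ⟨L, hL⟩ := path_head (stepA η a) w
    have h1 := ih (stepA η a)
    rw [path, hL, List.map_cons]
    rw [hL] at h1
    change canL (mark a) η (stepA η a) :: canP (stepA η a :: L) (w.map mark) = _
    rw [h1]
    rfl

theorem cw_length (w : List (Let d M (K + 1))) : ∀ η : Tor d M → ℕ,
    (cw η w).length = w.length := by
  induction w with
  | nil => exact fun η => rfl
  | cons a w ih =>
    intro η
    rw [cw, List.length_cons, List.length_cons, ih]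

theorem cw_take (w : List (Let d M (K + 1))) : ∀ (k : ℕ) (η : Tor d M → ℕ),
    (cw η w).take k = cw η (w.take k) := by
  induction w with
  | nil =>
    intro k η
    rw [List.take_nil]
    exact List.take_nil
  | cons a w ih =>
    intro k η
    cases k with
    | zero => rfl
    | succ k =>
      rw [cw, List.take_succ_cons, List.take_succ_cons, ih]
      rfl

theorem cw_drop (w : List (Let d M (K + 1))) : ∀ (k : ℕ) (η : Tor d M → ℕ),
    (cw η w).drop k = cw ((w.take k).foldl stepA η) (w.drop k) := by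
  induction w with
  | nil =>
    intro k η
    rw [List.take_nil, List.drop_nil]
    exact List.drop_nil
  | cons a w ih =>
    intro k η
    cases k with
    | zero => rfl
    | succ k =>
      rw [cw, List.drop_succ_cons, List.take_succ_cons, List.drop_succ_cons, ih]
      rfl

theorem cw_fold (hd : 0 < d) (hM : 3 ≤ M) (hK : 0 < K) (G : Set (Pos d))
    (w : List (Let d M (K + 1))) :
    ∀ (η : Tor d M → ℕ) (A : Set (Pos d)), A ⊆ G →
      (cw η w).foldl (stepI G) (η, A) = w.foldl (stepI G) (η, A) := by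
  induction w with
  | nil => exact fun η A _ => rfl
  | cons a w ih =>
    intro η A hA
    rw [cw, List.foldl_cons, List.foldl_cons, stepI_can hd hM hK G A η a hA]
    have h1 : stepI G (η, A) a = (stepA η a, (stepI G (η, A) a).2) :=
      Prod.ext (stepI_fst G (η, A) a) rfl
    have h2 : (stepI G (η, A) a).2 ⊆ G := foldl_stepI_sub G [a] (η, A) hA
    rw [h1]
    exact ih _ _ h2

theorem cw_foldA (hd : 0 < d) (hM : 3 ≤ M) (hK : 0 < K) (w : List (Let d M (K + 1)))
    (η : Tor d M → ℕ) : (cw η w).foldl stepA η = w.foldl stepA η := by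
  have h := congrArg Prod.fst (cw_fold hd hM hK Set.univ w η ∅ (Set.empty_subset _))
  rw [foldl_stepI_fst, foldl_stepI_fst] at h
  exact h

theorem cw_mark (hd : 0 < d) (hM : 3 ≤ M) (hK : 0 < K) (w : List (Let d M (K + 1))) :
    ∀ η : Tor d M → ℕ, (cw η w).map mark = w.map mark := by
  induction w with
  | nil => exact fun η => rfl
  | cons a w ih =>
    intro η
    rw [cw, List.map_cons, List.map_cons, ih, mark_can hd hM hK]

/-! ### visits along letters -/

theorem vis_letters (G : Set (Pos d)) (L : List (Let d M K))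
    (s : (Tor d M → ℕ) × Set (Pos d)) (z : Pos d) :
    (∃ i ≤ (L.filterMap toLab).length,
      z ∈ (((L.filterMap toLab).take i).foldl (stepR nbT tv G) s).2) ↔
    ∃ i ≤ L.length, z ∈ ((L.take i).foldl (stepI G) s).2 := by
  constructor
  · rintro ⟨i, hi, hz⟩
    obtain ⟨i', hi', htake⟩ := ZI.C5.take_filterMap toLab L i hi
    rw [htake, foldl_filterMap] at hz
    exact ⟨i', hi', hz⟩
  · rintro ⟨i, hi, hz⟩
    refine ⟨((L.take i).filterMap toLab).length, ?_, ?_⟩
    · conv_rhs => rw [← List.take_append_drop i L, List.filterMap_append, List.length_append]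
      exact Nat.le_add_right _ _
    · have h1 : (L.filterMap toLab).take ((L.take i).filterMap toLab).length =
          (L.take i).filterMap toLab := by
        conv_lhs => rw [← List.take_append_drop i L, List.filterMap_append]
        rw [List.take_append_drop i L]
        exact List.take_left
      rw [h1, foldl_filterMap]
      exact hz

end can

/-! ### words with the same letters up to ineffective rings -/

section env

variable {m : Model} {δ : ℝ} (q : Par d m δ)

theorem envT_cw (hd : 0 < d) (η : Tor d q.M → ℕ) (w : List (Let d q.M (q.K + 1))) :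
    EqEnv (envT q η w) (envT q η (cw η w)) := by
  have hM : 3 ≤ q.M := by have := q.M_ge; omega
  have hK : 0 < q.K := by have := q.K_ge; omega
  have hcfg : ∀ t, cfg nbT η (units q.N1 (cw η w)) t = cfg nbT η (units q.N1 w) t := by
    intro t
    rw [cfg_eq, cfg_eq, cw_take, cw_foldA hd hM hK]
  have hblk : ∀ t, ((cw η w).drop (t * q.N1)).take q.N1 =
      cw (cfg nbT η (units q.N1 w) t) ((w.drop (t * q.N1)).take q.N1) := by
    intro t
    rw [cw_drop, cw_take, cfg_eq]
  have hinf : ∀ (G : ℕ → Set (Pos d)) (s : ℕ) (A : Set (Pos d)) (j : ℕ),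
      inf nbT tv η (units q.N1 w) G s A j = inf nbT tv η (units q.N1 (cw η w)) G s A j := by
    intro G s A j
    induction j with
    | zero =>
      change {z | z ∈ A ∧ z ∈ G s ∧ 0 < cfg nbT η (units q.N1 w) s (tv z)} =
        {z | z ∈ A ∧ z ∈ G s ∧ 0 < cfg nbT η (units q.N1 (cw η w)) s (tv z)}
      rw [hcfg]
    | succ j ih =>
      change ((units q.N1 w (s + j)).foldl (stepR nbT tv (G (s + j)))
        (cfg nbT η (units q.N1 w) (s + j), inf nbT tv η (units q.N1 w) G s A j ∩ G (s + j))).2 =
        ((units q.N1 (cw η w) (s + j)).foldl (stepR nbT tv (G (s + j)))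
        (cfg nbT η (units q.N1 (cw η w)) (s + j),
          inf nbT tv η (units q.N1 (cw η w)) G s A j ∩ G (s + j))).2
      rw [← ih, hcfg]
      have h1 : units q.N1 (cw η w) (s + j) =
        (cw (cfg nbT η (units q.N1 w) (s + j))
          ((w.drop ((s + j) * q.N1)).take q.N1)).filterMap toLab := by
        rw [← hblk]
        rfl
      have h2 : units q.N1 w (s + j) = ((w.drop ((s + j) * q.N1)).take q.N1).filterMap toLab :=
        rfl
      rw [h1, h2, foldl_filterMap, foldl_filterMap,
        cw_fold hd hM hK _ _ _ _ Set.inter_subset_right]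
  refine ⟨fun t x => ?_, hinf, fun G s A j => ?_⟩
  · change 0 < cfg nbT η (units q.N1 w) t (tv x) ↔
      0 < cfg nbT η (units q.N1 (cw η w)) t (tv x)
    rw [hcfg]
  · change {z | ∃ i ≤ (units q.N1 w (s + j)).length, z ∈ (((units q.N1 w (s + j)).take i).foldl
        (stepR nbT tv (G (s + j))) (cfg nbT η (units q.N1 w) (s + j),
          inf nbT tv η (units q.N1 w) G s A j ∩ G (s + j))).2} =
      {z | ∃ i ≤ (units q.N1 (cw η w) (s + j)).length,
        z ∈ (((units q.N1 (cw η w) (s + j)).take i).foldl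
        (stepR nbT tv (G (s + j))) (cfg nbT η (units q.N1 (cw η w)) (s + j),
          inf nbT tv η (units q.N1 (cw η w)) G s A j ∩ G (s + j))).2}
    rw [← hinf, hcfg]
    have h1 : units q.N1 (cw η w) (s + j) =
      (cw (cfg nbT η (units q.N1 w) (s + j))
        ((w.drop ((s + j) * q.N1)).take q.N1)).filterMap toLab := by
      rw [← hblk]
      rfl
    have h2 : units q.N1 w (s + j) = ((w.drop ((s + j) * q.N1)).take q.N1).filterMap toLab :=
      rfl
    rw [h1, h2]
    ext z
    change (∃ i ≤ _, z ∈ _) ↔ (∃ i ≤ _, z ∈ _)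
    rw [vis_letters, vis_letters, cw_length]
    constructor
    · rintro ⟨i, hi, hz⟩
      refine ⟨i, hi, ?_⟩
      rw [cw_take, cw_fold hd hM hK _ _ _ _ Set.inter_subset_right]
      exact hz
    · rintro ⟨i, hi, hz⟩
      refine ⟨i, hi, ?_⟩
      rw [cw_take, cw_fold hd hM hK _ _ _ _ Set.inter_subset_right] at hz
      exact hz

end env

/-! ### nearest points of sets -/

/-- `near` as a function of the set -/
def nearF (S : Set (Pos d)) (z : Pos d) : Pos d :=
  if h : S.Nonempty then z + Function.argminOn rk S h else z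

/-- the displacement as a function of the set -/
def bxF (S : Set (Pos d)) : Pos d :=
  if h : S.Nonempty then Function.argminOn rk S h else 0

theorem near_eq (E : Env d) (κ s : ℕ) (z : Pos d) :
    E.near κ s z = nearF {v | E.ok κ s (z + v)} z := rfl

theorem bx_eq (E : Env d) (P : BP) (u : Fin d → ℝ) (m : ℕ) (z : Pos d) (s : ℕ) :
    E.bx P u m z s = bxF {v : Pos d | z + v ∈ E.W P u z s (s + E.bh P u m z s) ∧
      (m : ℝ) ≤ lev u v} := rfl

end ZP.E1

namespace ZP.Rows

open ZP

variable {d : ℕ} {m : Model} {δ : ℝ}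

section E1

variable (q : Par d m δ)

theorem pe_path (hd : 0 < d) (η : Tor d q.M → ℕ) (w : List (Let d q.M (q.K + 1))) :
    EqEnv (envT q η w) (pe q (path η w) (w.map mark)) := by
  have h1 : pe q (path η w) (w.map mark) = envT q η (E1.cw η w) := by
    unfold pe
    rw [E1.canP_path]
    obtain ⟨L, hL⟩ := E1.path_head η w
    rw [hL]
    rfl
  rw [h1]
  exact E1.envT_cw q hd η w

theorem isPath_reverse (hd : 0 < d) (p : List (Tor d q.M → ℕ)) (o : List (Option (Tor d q.M)))
    (hp : IsPath q p o) : IsPath q p.reverse o.reverse := by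
  have hM : 2 ≤ q.M := by have := q.M_ge; omega
  have hK : 0 < q.K := by have := q.K_ge; omega
  obtain ⟨η, w, rfl, rfl⟩ := hp
  induction w generalizing η with
  | nil => exact ⟨η, [], rfl, rfl⟩
  | cons a w ih =>
    obtain ⟨η', w', h', ho'⟩ := ih (stepA η a)
    obtain ⟨L, hL⟩ := E1.path_head (stepA η a) w
    obtain ⟨L', hL'⟩ := E1.path_rev_head η' w'
    have hlast : w'.foldl stepA η' = stepA η a := by
      have h1 : (path η' w').reverse = path (stepA η a) w := by
        rw [← h', List.reverse_reverse]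
      rw [hL', hL] at h1
      exact (List.cons.inj h1).1
    obtain ⟨a', ha', hm'⟩ : ∃ a' : Let d q.M (q.K + 1), stepA (stepA η a) a' = η ∧
        mark a' = mark a := by
      cases h : toLab a with
      | none =>
        refine ⟨none, ?_, ?_⟩
        · rw [E1.stepA_none _ a h]
          rfl
        · rw [E1.mark_none a h]
          rfl
      | some b =>
        obtain ⟨x, j, e⟩ := b
        cases j with
        | zero =>
          refine ⟨a, ?_, rfl⟩
          have h1 : ∀ ζ : Tor d q.M → ℕ, stepA ζ a = ζ := fun ζ => E1.stepA_some ζ a _ h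
          rw [h1, h1]
        | succ k =>
          have hs : ∀ ζ : Tor d q.M → ℕ, stepA ζ a = ZI.mv nbT ζ (x, k, e) :=
            fun ζ => E1.stepA_some ζ a _ h
          by_cases hk : k < η x
          · refine ⟨some (x + tv (dv e), ⟨1, by omega⟩, ZI.R2aux.ng e), ?_, ?_⟩
            · rw [hs η, ZI.C5.mv_add η (x, k, e) hk]
              have hx : 0 < η x := lt_of_le_of_lt (Nat.zero_le _) hk
              have hj := ZI.R2aux.jump_imp q.toZI η _ x e ⟨hx, rfl⟩
              have h3 := ZI.C5.mv_add (d := d) (M := q.M)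
                (ZI.R2aux.add (ZI.R2aux.rem η x) (x + (tv (dv e) : Tor d q.M)))
                ((x + (tv (dv e) : Tor d q.M), 0, ZI.R2aux.ng e) : Lab (Tor d q.M) d) hj.1
              exact h3.trans hj.2
            · rw [E1.mark_succ a x k e h]
              rfl
          · refine ⟨none, ?_, ?_⟩
            · rw [hs η, ZI.C5.mv_stay _ _ hk]
              rfl
            · rw [E1.mark_succ a x k e h]
              rfl
    refine ⟨η', w' ++ [a'], ?_, ?_⟩
    · rw [E1.path_snoc, hlast, ha', ← h', path, List.reverse_cons]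
    · rw [List.map_append, ← ho', List.map_cons, List.reverse_cons, List.map_cons, List.map_nil,
        hm']

theorem EqEnv.symm {E E' : Env d} (h : EqEnv E E') : EqEnv E' E :=
  ⟨fun t x => (h.occ t x).symm, fun G s A j => (h.inf G s A j).symm,
    fun G s A j => (h.vis G s A j).symm⟩

theorem EqEnv.R {E E' : Env d} (h : EqEnv E E') (G : ℕ → Set (Pos d)) (s : ℕ) (x : Pos d) (t : ℕ)
    (y : Pos d) : E.R G s x t y ↔ E'.R G s x t y := by
  unfold Env.R
  simp only [h.inf]

theorem EqEnv.visE {E E' : Env d} (h : EqEnv E E') (G : ℕ → Set (Pos d)) (s : ℕ) (x : Pos d)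
    (t : ℕ) (y : Pos d) : E.vis G s x t y ↔ E'.vis G s x t y := by
  unfold Env.vis
  simp only [h.vis]

theorem EqEnv.fg {E E' : Env d} (h : EqEnv E E') (l t : ℕ) (x : Pos d) :
    E.fg l t x ↔ E'.fg l t x := by
  unfold Env.fg
  simp only [EqEnv.R h]

theorem EqEnv.bg {E E' : Env d} (h : EqEnv E E') (l t : ℕ) (x : Pos d) :
    E.bg l t x ↔ E'.bg l t x := by
  unfold Env.bg
  simp only [EqEnv.R h]

theorem EqEnv.ok {E E' : Env d} (h : EqEnv E E') (l t : ℕ) (x : Pos d) :
    E.ok l t x ↔ E'.ok l t x := by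
  unfold Env.ok
  rw [EqEnv.fg h, EqEnv.bg h]

theorem EqEnv.good {E E' : Env d} (h : EqEnv E E') {r κ Cv S Dm : ℕ} (hE : E.Good r κ Cv S Dm) :
    E'.Good r κ Cv S Dm := by
  constructor
  · intro t h1 h2 x
    obtain ⟨v, hv, hv', hv''⟩ := hE.g1 t h1 h2 x
    exact ⟨v, hv, hv', (EqEnv.ok h _ _ _).1 hv''⟩
  · intro s t x y h1 h2 h3 h4 h5 h6 h7
    exact (EqEnv.R h _ _ _ _ _).1
      (hE.g3 s t x y h1 h2 h3 ((EqEnv.fg h _ _ _).2 h4) ((EqEnv.bg h _ _ _).2 h5) h6 h7)
  · intro s t x b h1 h2 h3 h4 h5 h6
    exact (EqEnv.visE h _ _ _ _ _).1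
      (hE.g3' s t x b h1 h2 h3 ((EqEnv.fg h _ _ _).2 h4) h5 h6)
  · intro s t x y h1 h2 h3
    exact hE.g4 s t x y h1 h2 ((EqEnv.R h _ _ _ _ _).2 h3)
  · intro s t x y h1 h2 h3
    exact hE.g4' s t x y h1 h2 ((EqEnv.visE h _ _ _ _ _).2 h3)

theorem EqEnv.near {E E' : Env d} (h : EqEnv E E') (κ s : ℕ) (z : Pos d) :
    E.near κ s z = E'.near κ s z := by
  rw [E1.near_eq, E1.near_eq]
  congr 1
  ext v
  exact EqEnv.ok h κ s (z + v)

theorem EqEnv.W {E E' : Env d} (h : EqEnv E E') (P : BP) (u : Fin d → ℝ) (z : Pos d)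
    (s t : ℕ) : E.W P u z s t = E'.W P u z s t := by
  unfold Env.W
  ext y
  change E.R _ _ _ _ _ ↔ E'.R _ _ _ _ _
  rw [EqEnv.R h, EqEnv.near h]

theorem EqEnv.bh {E E' : Env d} (h : EqEnv E E') (P : BP) (u : Fin d → ℝ) (m : ℕ) (z : Pos d)
    (s : ℕ) : E.bh P u m z s = E'.bh P u m z s := by
  unfold Env.bh
  simp only [EqEnv.W h]

theorem EqEnv.bx {E E' : Env d} (h : EqEnv E E') (P : BP) (u : Fin d → ℝ) (m : ℕ) (z : Pos d)
    (s : ℕ) : E.bx P u m z s = E'.bx P u m z s := by
  rw [E1.bx_eq, E1.bx_eq, EqEnv.bh h, EqEnv.W h]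

theorem EqEnv.blk' {E E' : Env d} (h : EqEnv E E') (P : BP) (u : Fin d → ℝ) (m : ℕ) (z : Pos d)
    (s : ℕ) : E.blk P u m z s = E'.blk P u m z s := by
  unfold Env.blk
  rw [EqEnv.bh h, EqEnv.bx h]

theorem EqEnv.chain {E E' : Env d} (h : EqEnv E E') (P : BP) (u : Fin d → ℝ) (ms : List ℕ) (z : Pos d)
    (s : ℕ) : E.chain P u ms z s = E'.chain P u ms z s := by
  induction ms generalizing z s with
  | nil => rfl
  | cons m ms ih =>
    unfold Env.chain
    rw [EqEnv.blk' h, ih]

theorem EqEnv.pastEv_imp {E E' : Env d} (h : EqEnv E E') (P : BP) (u : Fin d → ℝ)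
    (r Cv m : ℕ) (y : ℕ × Pos d) (hp : PastEv E P u r Cv m y) : PastEv E' P u r Cv m y := by
  refine ⟨?_, ?_, hp.lev_ge, hp.h_lb, ?_, ?_, ?_⟩
  · rw [← EqEnv.blk' h]
    exact hp.blk
  · rw [← EqEnv.W h]
    exact hp.att
  · rw [← EqEnv.near h]
    exact (EqEnv.ok h _ _ _).1 hp.near_ok
  · rw [← EqEnv.near h]
    exact hp.near_supn
  · intro t ht b hb
    rw [← EqEnv.near h, ← h.vis] at hb
    exact hp.conf t ht b hb

theorem EqEnv.pastEv {E E' : Env d} (h : EqEnv E E') (P : BP) (u : Fin d → ℝ) (r Cv m : ℕ)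
    (y : ℕ × Pos d) : PastEv E P u r Cv m y ↔ PastEv E' P u r Cv m y :=
  ⟨EqEnv.pastEv_imp h P u r Cv m y, EqEnv.pastEv_imp (EqEnv.symm h) P u r Cv m y⟩

end E1

end ZP.Rows
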