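import Pool.Agent.ZP.Dec
import Pool.Agent.ZP.E1
import Pool.Agent.ZP.E3
import Pool.Agent.ZP.R2
import Pool.Agent.ZI.E4

/-! # Row E4: shift of the starting point, truncation of the word, invariance of the start (with recovery) -/

set_option autoImplicit false

open scoped ENNReal BigOperators Classical

noncomputable section

namespace ZP.E4

open ZP

export ZI.E4 (units_take shB toLab_shL tv_add units_shift)

variable {d : ℕ}

/-! ### environments with the same units -/

theorem cfg_congr {V : Type} (nb : V → Dir d → Option V) (η0 : V → ℕ) {U U' : ℕ → List (Lab V d)}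
    {T : ℕ} (h : ∀ t < T, U t = U' t) : ∀ t ≤ T, cfg nb η0 U t = cfg nb η0 U' t := by
  intro t
  induction t with
  | zero => intro _; rfl
  | succ t ih =>
    intro ht
    rw [cfg, cfg, ih (by omega), h t (by omega)]

theorem inf_congr {V : Type} (nb : V → Dir d → Option V) (pr : Pos d → V) (η0 : V → ℕ)
    {U U' : ℕ → List (Lab V d)} {T : ℕ} (h : ∀ t < T, U t = U' t) (G : ℕ → Set (Pos d)) (s : ℕ)
    (A : Set (Pos d)) : ∀ j, s + j ≤ T → inf nb pr η0 U G s A j = inf nb pr η0 U' G s A j := by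
  intro j
  induction j with
  | zero =>
    intro hj
    rw [inf, inf, cfg_congr nb η0 h s (by omega)]
  | succ j ih =>
    intro hj
    rw [inf, inf, ih (by omega), cfg_congr nb η0 h (s + j) (by omega), h (s + j) (by omega)]

/-! ### translations -/

theorem mv_shift {M : ℕ} (w : Tor d M) (η : Tor d M → ℕ) (b : Lab (Tor d M) d) :
    mv nbT (fun x => η (x + w)) (shB (-w) b) = fun x => mv nbT η b (x + w) := by
  obtain ⟨x, k, e⟩ := b
  cases k with
  | zero => rfl
  | succ k => exact ZI.E4.mv_shift w η (x, k, e)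

theorem infMv_shift {M : ℕ} (z : Pos d) (η : Tor d M → ℕ) (A : Set (Pos d))
    (b : Lab (Tor d M) d) :
    infMv nbT tv (fun x => η (x + tv z)) {y | y + z ∈ A} (shB (-(tv z)) b) =
      {y | y + z ∈ infMv nbT tv η A b} := by
  obtain ⟨x, k, e⟩ := b
  cases k with
  | zero =>
    have h0 : x + -(tv z) + tv z = x := by abel
    have h1 : ∀ y : Pos d, (tv y : Tor d M) = x + -(tv z) ↔ tv (y + z) = x := by
      intro y
      rw [tv_add]
      constructor
      · intro h; rw [h]; abel
      · intro h; rw [← h]; abel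
    ext y
    show (y + z ∈ A ∧ ((tv y : Tor d M) = x + -(tv z) → 2 ≤ η (x + -(tv z) + tv z))) ↔
      (y + z ∈ A ∧ ((tv (y + z) : Tor d M) = x → 2 ≤ η x))
    rw [h0, h1]
  | succ k => exact ZI.E4.infMv_shift z η A (x, k, e)

theorem foldl_shift {M : ℕ} (z : Pos d) (G : Set (Pos d)) (L : List (Lab (Tor d M) d))
    (η : Tor d M → ℕ) (A : Set (Pos d)) :
    (L.map (shB (-(tv z)))).foldl (stepR nbT tv {y | y + z ∈ G})
      ((fun x => η (x + tv z)), {y | y + z ∈ A}) =
    ((fun x => (L.foldl (stepR nbT tv G) (η, A)).1 (x + tv z)),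
      {y | y + z ∈ (L.foldl (stepR nbT tv G) (η, A)).2}) := by
  induction L generalizing η A with
  | nil => rfl
  | cons b L ih =>
    rw [List.map_cons, List.foldl_cons, List.foldl_cons]
    have h1 : stepR nbT tv {y | y + z ∈ G} ((fun x => η (x + tv z)), {y | y + z ∈ A})
        (shB (-(tv z)) b) =
        ((fun x => mv nbT η b (x + tv z)), {y | y + z ∈ infMv nbT tv η A b ∩ G}) := by
      unfold stepR
      refine Prod.ext (mv_shift (tv z) η b) ?_
      show infMv nbT tv (fun x => η (x + tv z)) {y | y + z ∈ A} (shB (-(tv z)) b) ∩ {y | y + z ∈ G} = _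
      rw [infMv_shift]
      rfl
    rw [h1]
    exact ih _ _

theorem foldl_mv_shift {M : ℕ} (w : Tor d M) (L : List (Lab (Tor d M) d)) (η : Tor d M → ℕ) :
    (L.map (shB (-w))).foldl (mv nbT) (fun x => η (x + w)) = fun x => L.foldl (mv nbT) η (x + w) := by
  induction L generalizing η with
  | nil => rfl
  | cons b L ih =>
    rw [List.map_cons, List.foldl_cons, List.foldl_cons, mv_shift]
    exact ih _

section shift

variable {m : Model} {δ : ℝ} (q : Par d m δ) (η : Tor d q.M → ℕ) (l : List (Let d q.M (q.K + 1))) (z : Pos d) (s : ℕ)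

/-- the shifted configuration -/
def η' : Tor d q.M → ℕ := fun x => (l.take (s * q.N1)).foldl stepA η (x + tv z)

/-- the shifted word -/
def l' : List (Let d q.M (q.K + 1)) := (l.drop (s * q.N1)).map (shL (-(tv z)))

theorem cfg_shift (t : ℕ) : cfg nbT (η' q η l z s) (units q.N1 (l' q l z s)) t =
    fun x => cfg nbT η (units q.N1 l) (s + t) (x + tv z) := by
  induction t with
  | zero =>
    show η' q η l z s = fun x => cfg nbT η (units q.N1 l) s (x + tv z)
    rw [E1.cfg_eq]
    rfl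
  | succ t ih =>
    show (units q.N1 (l' q l z s) t).foldl (mv nbT) _ =
      fun x => (units q.N1 l (s + t)).foldl (mv nbT) (cfg nbT η (units q.N1 l) (s + t)) (x + tv z)
    rw [ih, l', units_shift, foldl_mv_shift]

theorem occ_shift (t : ℕ) (x : Pos d) :
    (envT q (η' q η l z s) (l' q l z s)).occ t x ↔ (envT q η l).occ (s + t) (x + z) := by
  show 0 < cfg nbT (η' q η l z s) (units q.N1 (l' q l z s)) t (tv x) ↔
    0 < cfg nbT η (units q.N1 l) (s + t) (tv (x + z))
  rw [cfg_shift, tv_add]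

theorem inf_shift (G : ℕ → Set (Pos d)) (s' : ℕ) (A : Set (Pos d)) (j : ℕ) :
    inf nbT tv (η' q η l z s) (units q.N1 (l' q l z s)) (fun t => {y | y + z ∈ G (s + t)}) s'
      {y | y + z ∈ A} j = {y | y + z ∈ inf nbT tv η (units q.N1 l) G (s + s') A j} := by
  induction j with
  | zero =>
    ext y
    show (y + z ∈ A ∧ y + z ∈ G (s + s') ∧ 0 < cfg nbT (η' q η l z s) (units q.N1 (l' q l z s)) s' (tv y)) ↔
      (y + z ∈ A ∧ y + z ∈ G (s + s') ∧ 0 < cfg nbT η (units q.N1 l) (s + s') (tv (y + z)))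
    rw [cfg_shift, tv_add]
  | succ j ih =>
    show ((units q.N1 (l' q l z s) (s' + j)).foldl (stepR nbT tv {y | y + z ∈ G (s + (s' + j))})
      (cfg nbT (η' q η l z s) (units q.N1 (l' q l z s)) (s' + j),
        inf nbT tv (η' q η l z s) (units q.N1 (l' q l z s)) (fun t => {y | y + z ∈ G (s + t)}) s'
          {y | y + z ∈ A} j ∩ {y | y + z ∈ G (s + (s' + j))})).2 =
      {y | y + z ∈ ((units q.N1 l (s + s' + j)).foldl (stepR nbT tv (G (s + s' + j)))
        (cfg nbT η (units q.N1 l) (s + s' + j),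
          inf nbT tv η (units q.N1 l) G (s + s') A j ∩ G (s + s' + j))).2}
    rw [ih, cfg_shift, l', units_shift, ← Nat.add_assoc s s' j]
    have h1 := foldl_shift z (G (s + s' + j)) (units q.N1 l (s + s' + j))
      (cfg nbT η (units q.N1 l) (s + s' + j))
      (inf nbT tv η (units q.N1 l) G (s + s') A j ∩ G (s + s' + j))
    exact congrArg Prod.snd h1

theorem R_shift (G : ℕ → Set (Pos d)) (s' : ℕ) (x : Pos d) (t' : ℕ) (y : Pos d) :
    (envT q (η' q η l z s) (l' q l z s)).R (fun t => {y | y + z ∈ G (s + t)}) s' x t' y ↔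
      (envT q η l).R G (s + s') (x + z) (s + t') (y + z) := by
  have hx : ({x} : Set (Pos d)) = {y | y + z ∈ ({x + z} : Set (Pos d))} := by
    ext w
    simp
  constructor
  · rintro ⟨j, hj, hy⟩
    refine ⟨j, by omega, ?_⟩
    have h1 := inf_shift q η l z s G s' {x + z} j
    rw [← hx] at h1
    change y ∈ inf nbT tv (η' q η l z s) (units q.N1 (l' q l z s))
      (fun t => {y | y + z ∈ G (s + t)}) s' {x} j at hy
    rw [h1] at hy
    exact hy
  · rintro ⟨j, hj, hy⟩
    refine ⟨j, by omega, ?_⟩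
    have h1 := inf_shift q η l z s G s' {x + z} j
    rw [← hx] at h1
    show y ∈ inf nbT tv (η' q η l z s) (units q.N1 (l' q l z s))
      (fun t => {y | y + z ∈ G (s + t)}) s' {x} j
    rw [h1]
    exact hy

theorem Ball_shift (x : Pos d) (ρ : ℝ) : Ball x ρ = {y | y + z ∈ Ball (x + z) ρ} := by
  ext y
  show nrm (y - x) ≤ ρ ↔ nrm (y + z - (x + z)) ≤ ρ
  rw [add_sub_add_right_eq_sub]

theorem ok_shift (κ s' : ℕ) (hs' : κ ≤ s') (x : Pos d) :
    (envT q (η' q η l z s) (l' q l z s)).ok κ s' x ↔ (envT q η l).ok κ (s + s') (x + z) := by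
  have h1 : (envT q (η' q η l z s) (l' q l z s)).fg κ s' x ↔
      (envT q η l).fg κ (s + s') (x + z) := by
    unfold Env.fg
    rw [Ball_shift z x]
    constructor
    · rintro ⟨y, hy⟩
      refine ⟨y + z, ?_⟩
      rw [Nat.add_assoc]
      exact (R_shift q η l z s (fun _ => Ball (x + z) ((κ : ℝ) ^ 2)) s' x (s' + κ) y).1 hy
    · rintro ⟨y, hy⟩
      refine ⟨y - z, ?_⟩
      refine (R_shift q η l z s (fun _ => Ball (x + z) ((κ : ℝ) ^ 2)) s' x (s' + κ) (y - z)).2 ?_
      rw [sub_add_cancel, ← Nat.add_assoc]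
      exact hy
  have h2 : (envT q (η' q η l z s) (l' q l z s)).bg κ s' x ↔
      (envT q η l).bg κ (s + s') (x + z) := by
    unfold Env.bg
    rw [Ball_shift z x]
    constructor
    · rintro ⟨t, y, rfl, hy⟩
      refine ⟨s + t, y + z, by omega, ?_⟩
      exact (R_shift q η l z s (fun _ => Ball (x + z) ((κ : ℝ) ^ 2)) t y (t + κ) x).1 hy
    · rintro ⟨t, y, ht, hy⟩
      obtain ⟨t', rfl⟩ : ∃ t', t = s + t' := ⟨t - s, by omega⟩
      obtain rfl : s' = t' + κ := by omega
      refine ⟨t', y - z, rfl, ?_⟩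
      refine (R_shift q η l z s (fun _ => Ball (x + z) ((κ : ℝ) ^ 2)) t' (y - z) (t' + κ) x).2 ?_
      rw [sub_add_cancel]
      exact hy
  unfold Env.ok
  rw [h1, h2]

theorem near_shift (κ s' : ℕ) (hs' : κ ≤ s') (z' : Pos d) :
    (envT q (η' q η l z s) (l' q l z s)).near κ s' z' + z =
      (envT q η l).near κ (s + s') (z' + z) := by
  have h1 : {v : Pos d | (envT q (η' q η l z s) (l' q l z s)).ok κ s' (z' + v)} =
      {v : Pos d | (envT q η l).ok κ (s + s') (z' + z + v)} := by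
    ext v
    show (envT q (η' q η l z s) (l' q l z s)).ok κ s' (z' + v) ↔
      (envT q η l).ok κ (s + s') (z' + z + v)
    rw [ok_shift q η l z s κ s' hs']
    have : z' + v + z = z' + z + v := by abel
    rw [this]
  unfold Env.near
  by_cases h : {v : Pos d | (envT q η l).ok κ (s + s') (z' + z + v)}.Nonempty
  · have h' : {v : Pos d | (envT q (η' q η l z s) (l' q l z s)).ok κ s' (z' + v)}.Nonempty := by
      rw [h1]; exact h
    rw [dif_pos h, dif_pos h']
    have h2 : Function.argminOn rk {v | (envT q (η' q η l z s) (l' q l z s)).ok κ s' (z' + v)} h' =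
        Function.argminOn rk {v | (envT q η l).ok κ (s + s') (z' + z + v)} h := by
      congr 1
    rw [h2]
    abel
  · have h' : ¬ {v : Pos d | (envT q (η' q η l z s) (l' q l z s)).ok κ s' (z' + v)}.Nonempty := by
      rw [h1]; exact h
    rw [dif_neg h, dif_neg h']

theorem W_shift (P : BP) (u : Fin d → ℝ) (z' : Pos d) (s' t' : ℕ) (hs' : P.κ ≤ s') (y : Pos d) :
    y ∈ (envT q (η' q η l z s) (l' q l z s)).W P u z' s' t' ↔
      y + z ∈ (envT q η l).W P u (z' + z) (s + s') (s + t') := by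
  have hw : wall P u z' s' = fun t => {y | y + z ∈ wall P u (z' + z) (s + s') (s + t)} := by
    funext t
    ext w
    unfold wall
    show (-(P.mg : ℝ) + ((t : ℝ) - s') / (16 * P.κ) ≤ lev u (w - z') ∧ supn (w - z') ≤ P.Dw) ↔
      (-(P.mg : ℝ) + (((s + t : ℕ) : ℝ) - ((s + s' : ℕ) : ℝ)) / (16 * P.κ) ≤
        lev u (w + z - (z' + z)) ∧ supn (w + z - (z' + z)) ≤ P.Dw)
    have h1 : w + z - (z' + z) = w - z' := by abel
    have h2 : ((s + t : ℕ) : ℝ) - ((s + s' : ℕ) : ℝ) = (t : ℝ) - s' := by push_cast; ring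
    rw [h1, h2]
  show (envT q (η' q η l z s) (l' q l z s)).R (wall P u z' s') s'
      ((envT q (η' q η l z s) (l' q l z s)).near P.κ s' z') t' y ↔
    (envT q η l).R (wall P u (z' + z) (s + s')) (s + s') ((envT q η l).near P.κ (s + s') (z' + z))
      (s + t') (y + z)
  rw [hw, R_shift, near_shift q η l z s P.κ s' hs']

theorem bh_shift (P : BP) (u : Fin d → ℝ) (k : ℕ) (z' : Pos d) (s' : ℕ) (hs' : P.κ ≤ s') :
    (envT q (η' q η l z s) (l' q l z s)).bh P u k z' s' =
      (envT q η l).bh P u k (z' + z) (s + s') := by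
  unfold Env.bh
  congr 1
  ext h
  constructor
  · rintro ⟨y, hy, hk⟩
    refine ⟨y + z, ?_, ?_⟩
    · rw [Nat.add_assoc]; exact (W_shift q η l z s P u z' s' (s' + h) hs' y).mp hy
    · have : y + z - (z' + z) = y - z' := by abel
      rw [this]; exact hk
  · rintro ⟨y, hy, hk⟩
    refine ⟨y - z, ?_, ?_⟩
    · rw [W_shift q η l z s P u z' s' _ hs']
      have : y - z + z = y := by abel
      rw [this, ← Nat.add_assoc]
      exact hy
    · have : y - z - z' = y - (z' + z) := by abel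
      rw [this]; exact hk

theorem bx_shift (P : BP) (u : Fin d → ℝ) (k : ℕ) (z' : Pos d) (s' : ℕ) (hs' : P.κ ≤ s') :
    (envT q (η' q η l z s) (l' q l z s)).bx P u k z' s' =
      (envT q η l).bx P u k (z' + z) (s + s') := by
  have h1 : {v : Pos d | z' + v ∈ (envT q (η' q η l z s) (l' q l z s)).W P u z' s'
        (s' + (envT q (η' q η l z s) (l' q l z s)).bh P u k z' s') ∧ (k : ℝ) ≤ lev u v} =
      {v : Pos d | z' + z + v ∈ (envT q η l).W P u (z' + z) (s + s')
        (s + s' + (envT q η l).bh P u k (z' + z) (s + s')) ∧ (k : ℝ) ≤ lev u v} := by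
    ext v
    have h2 : z' + v + z = z' + z + v := by abel
    constructor
    · rintro ⟨h3, h4⟩
      refine ⟨?_, h4⟩
      rw [W_shift q η l z s P u z' s' _ hs', bh_shift q η l z s P u k z' s' hs', h2,
        ← Nat.add_assoc] at h3
      exact h3
    · rintro ⟨h3, h4⟩
      refine ⟨?_, h4⟩
      rw [W_shift q η l z s P u z' s' _ hs', bh_shift q η l z s P u k z' s' hs', h2,
        ← Nat.add_assoc]
      exact h3
  unfold Env.bx
  by_cases h : {v : Pos d | z' + z + v ∈ (envT q η l).W P u (z' + z) (s + s')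
        (s + s' + (envT q η l).bh P u k (z' + z) (s + s')) ∧ (k : ℝ) ≤ lev u v}.Nonempty
  · have h' : {v : Pos d | z' + v ∈ (envT q (η' q η l z s) (l' q l z s)).W P u z' s'
        (s' + (envT q (η' q η l z s) (l' q l z s)).bh P u k z' s') ∧ (k : ℝ) ≤ lev u v}.Nonempty := by
      rw [h1]; exact h
    rw [dif_pos h, dif_pos h']
    congr 1
  · have h' : ¬ {v : Pos d | z' + v ∈ (envT q (η' q η l z s) (l' q l z s)).W P u z' s'
        (s' + (envT q (η' q η l z s) (l' q l z s)).bh P u k z' s') ∧ (k : ℝ) ≤ lev u v}.Nonempty := by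
      rw [h1]; exact h
    rw [dif_neg h, dif_neg h']

theorem blk_shift (P : BP) (u : Fin d → ℝ) (k : ℕ) (z' : Pos d) (s' : ℕ) (hs' : P.κ ≤ s') :
    (envT q (η' q η l z s) (l' q l z s)).blk P u k z' s' =
      (envT q η l).blk P u k (z' + z) (s + s') := by
  unfold Env.blk
  rw [bh_shift q η l z s P u k z' s' hs', bx_shift q η l z s P u k z' s' hs']

theorem chain_shift' (P : BP) (u : Fin d → ℝ) (ms : List ℕ) (z' : Pos d) (s' : ℕ)
    (hs' : P.κ ≤ s') :
    (envT q (η' q η l z s) (l' q l z s)).chain P u ms z' s' =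
      (envT q η l).chain P u ms (z' + z) (s + s') := by
  induction ms generalizing z' s' with
  | nil => rfl
  | cons k ms ih =>
    show (envT q (η' q η l z s) (l' q l z s)).blk P u k z' s' ::
        (envT q (η' q η l z s) (l' q l z s)).chain P u ms
          (z' + ((envT q (η' q η l z s) (l' q l z s)).blk P u k z' s').2 + v0 P u)
          (s' + ((envT q (η' q η l z s) (l' q l z s)).blk P u k z' s').1 + P.Δ) =
      (envT q η l).blk P u k (z' + z) (s + s') ::
        (envT q η l).chain P u ms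
          (z' + z + ((envT q η l).blk P u k (z' + z) (s + s')).2 + v0 P u)
          (s + s' + ((envT q η l).blk P u k (z' + z) (s + s')).1 + P.Δ)
    rw [ih _ _ (by omega), blk_shift q η l z s P u k z' s' hs']
    congr 2
    · abel
    · omega

end shift

end ZP.E4

namespace ZP.Rows

open ZP

variable {d : ℕ} {m : Model} {δ : ℝ}

theorem chain_shift (q : Par d m δ) (η : Tor d q.M → ℕ) (l : List (Let d q.M (q.K + 1))) (P : BP)
    (u : Fin d → ℝ) (ms : List ℕ) (z : Pos d) (s : ℕ) :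
    (envT q η l).chain P u ms z (s + P.κ) =
      (envT q (fun x => (l.take (s * q.N1)).foldl stepA η (x + tv z))
        ((l.drop (s * q.N1)).map (shL (-(tv z))))).chain P u ms 0 P.κ := by
  have h := E4.chain_shift' q η l z s P u ms 0 P.κ le_rfl
  rw [zero_add] at h
  exact h.symm

/-- words that agree up to the time `T` -/
theorem agree_take (q : Par d m δ) (η : Tor d q.M → ℕ) (l : List (Let d q.M (q.K + 1))) (T : ℕ)
    (Γ : ℕ → Set (Pos d)) : AgreeW (envT q η l) (envT q η (l.take (T * q.N1))) Γ T where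
  occ t ht x _ := by
    show 0 < cfg nbT η (units q.N1 l) t (tv x) ↔
      0 < cfg nbT η (units q.N1 (l.take (T * q.N1))) t (tv x)
    rw [E4.cfg_congr nbT η (fun t ht => E4.units_take q.N1 l T t ht) t ht]
  R G _ s t x y ht := by
    constructor
    · rintro ⟨j, rfl, hy⟩
      refine ⟨j, rfl, ?_⟩
      show y ∈ inf nbT tv η (units q.N1 (l.take (T * q.N1))) G s {x} j
      rw [← E4.inf_congr nbT tv η (fun t ht => E4.units_take q.N1 l T t ht) G s {x} j ht]
      exact hy
    · rintro ⟨j, rfl, hy⟩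
      refine ⟨j, rfl, ?_⟩
      show y ∈ inf nbT tv η (units q.N1 l) G s {x} j
      rw [E4.inf_congr nbT tv η (fun t ht => E4.units_take q.N1 l T t ht) G s {x} j ht]
      exact hy

namespace E4

theorem EE_mono (q : Par d m δ) (N : ℕ) {F G : (Tor d q.M → ℕ) → List (Let d q.M (q.K + 1)) → ℝ≥0∞}
    (h : ∀ η l, F η l ≤ G η l) : q.EE N F ≤ q.EE N G := by
  unfold Par.EE
  exact ENNReal.tsum_le_tsum fun η => mul_le_mul_right (ZI.EvE_mono q.w N fun l _ => h η l) _

theorem EE_add (q : Par d m δ) (N : ℕ)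
    (F G : (Tor d q.M → ℕ) → List (Let d q.M (q.K + 1)) → ℝ≥0∞) :
    q.EE N (fun η l => F η l + G η l) = q.EE N F + q.EE N G := by
  unfold Par.EE
  rw [← ENNReal.tsum_add]
  refine tsum_congr fun η => ?_
  rw [ZI.EvE_add, mul_add]

/-- the letters after `N` do not matter -/
theorem EE_take (q : Par d m δ) (hd : 0 < d) (N M : ℕ)
    (F : (Tor d q.M → ℕ) → List (Let d q.M (q.K + 1)) → ℝ≥0∞) :
    q.EE (N + M) (fun η l => F η (l.take N)) = q.EE N F := by
  unfold Par.EE
  refine tsum_congr fun η => ?_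
  congr 1
  rw [ZI.R2aux.EvE_take_drop q.w M N (fun l _ => F η l)]
  exact ZI.EvE_congr q.w N (fun l _ => ZI.R2aux.EvE_const q.w (sum_w q hd) _ M)

end E4

theorem start_inv {Cv a A r0 : ℕ} {c : ℝ} (hB : Base m δ d Cv a A r0 c) : ∃ r1 ≥ r0, ∀ r ≥ r1, ∀ n : ℕ,
    r ^ A ≤ n → n ≤ (2 * r) ^ A → ∀ q : Par d m δ, q.M = n ^ 4 → q.Tiny n →
    ∀ (u : Fin d → ℝ), ∑ j, u j ^ 2 = 1 → ∀ ms : List ℕ, (∀ m' ∈ ms, r ^ (7 * a) ≤ m') →
    ms.sum ≤ r * n → ∀ (z : Pos d) (s : ℕ), r ^ a ≤ s → 2 * s ≤ n ^ 2 →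
    ∀ G : List (ℕ × Pos d) → Prop,
    q.PP (n ^ 2 * q.N1) (fun η l => G ((envT q η l).chain (bp d a r n) u ms z s)) ≤
      q.PP (n ^ 2 * q.N1) (fun η l => G ((envT q η l).chain (bp d a r n) u ms 0 (r ^ a))) +
        ENNReal.ofReal (Real.exp (- c * r)) := by
  obtain ⟨r1, hr1, hchain⟩ := chain_eq hB
  refine ⟨r1, hr1, ?_⟩
  intro r hr n hn hn2 q hM hTy u hu ms hms hsum z s hks hs G
  have hr0 : r0 ≤ r := le_trans hr1 hr
  have hr10 : 10 ≤ r := le_trans hB.r0_big hr0
  set P := bp d a r n with hP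
  have hPκ : P.κ = r ^ a := rfl
  obtain ⟨s0, rfl⟩ : ∃ s0, s = s0 + r ^ a := ⟨s - r ^ a, by omega⟩
  set F : (Tor d q.M → ℕ) → List (Let d q.M (q.K + 1)) → ℝ≥0∞ :=
    fun η l => if G ((envT q η l).chain P u ms 0 (r ^ a)) then 1 else 0 with hF
  obtain ⟨T, hT⟩ : ∃ T, n ^ 2 = s0 + T := ⟨n ^ 2 - s0, by omega⟩
  have e1 : q.PP (n ^ 2 * q.N1) (fun η l => G ((envT q η l).chain P u ms z (s0 + r ^ a))) =
      q.EE (T * q.N1) F := by
    unfold Par.PP
    have h1 : (fun (η : Tor d q.M → ℕ) (l : List (Let d q.M (q.K + 1))) =>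
        (if G ((envT q η l).chain P u ms z (s0 + r ^ a)) then (1 : ℝ≥0∞) else 0)) =
        fun η l => (fun (η : Tor d q.M → ℕ) (l : List (Let d q.M (q.K + 1))) =>
          F (fun x => η (x - -(tv z))) (l.map (shL (-(tv z)))))
          ((l.take (s0 * q.N1)).foldl stepA η) (l.drop (s0 * q.N1)) := by
      funext η l
      simp only [hF, sub_neg_eq_add]
      have h2 := chain_shift q η l P u ms z s0
      rw [hPκ] at h2
      rw [h2]
    rw [h1, hT, Nat.add_mul]
    exact (stationary q hB.d_pos (s0 * q.N1) (T * q.N1)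
      (fun (η : Tor d q.M → ℕ) (l : List (Let d q.M (q.K + 1))) =>
          F (fun x => η (x - -(tv z))) (l.map (shL (-(tv z)))))).trans
      (translation q (-(tv z)) (T * q.N1) F)
  have e2 : q.EE (T * q.N1) F = q.EE (n ^ 2 * q.N1) (fun η l => F η (l.take (T * q.N1))) := by
    rw [hT, Nat.add_comm s0 T, Nat.add_mul, E4.EE_take q hB.d_pos]
  have hT2 : r ^ a + r ^ (2 * a) * ms.sum ≤ T ∧ 2 * r ^ a ≤ n ^ 2 := by
    have h2 : r ^ (2 * a + 2) ≤ n := by
      refine le_trans (Nat.pow_le_pow_right (by omega) ?_) hn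
      have := hB.A_big
      have := hB.a_big
      omega
    have h1 : 4 * r ^ a ≤ n ^ 2 := by
      calc 4 * r ^ a ≤ r * r ^ a := Nat.mul_le_mul_right _ (by omega)
        _ = r ^ (a + 1) := by ring
        _ ≤ r ^ (2 * a + 2) := Nat.pow_le_pow_right (by omega) (by omega)
        _ ≤ n := h2
        _ ≤ n ^ 2 := by
          rw [sq]
          exact Nat.le_mul_of_pos_left _ (lt_of_lt_of_le (pow_pos (by omega) _) h2)
    have h3 : 4 * (r ^ (2 * a) * ms.sum) ≤ n ^ 2 := by
      calc 4 * (r ^ (2 * a) * ms.sum) ≤ r * (r ^ (2 * a) * (r * n)) :=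
            Nat.mul_le_mul (by omega) (Nat.mul_le_mul_left _ hsum)
        _ = r ^ (2 * a + 2) * n := by ring
        _ ≤ n * n := Nat.mul_le_mul_right _ h2
        _ = n ^ 2 := by ring
    omega
  rw [e1, e2]
  have hle : q.EE (n ^ 2 * q.N1) (fun η l => F η (l.take (T * q.N1))) ≤
      q.EE (n ^ 2 * q.N1) (fun η l => F η l +
        (if ¬ (envT q η l).Good r (r ^ a) Cv (n ^ 2) (n ^ 2) then 1 else 0)) := by
    refine E4.EE_mono q _ fun η l => ?_
    by_cases hg : (envT q η l).Good r (r ^ a) Cv (n ^ 2) (n ^ 2)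
    · refine le_trans (le_of_eq ?_) le_self_add
      simp only [hF]
      rw [hchain r hr n hn (envT q η l) (envT q η (l.take (T * q.N1))) hg u hu ms hms hsum 0
        (r ^ a) T (-(2 * P.mg : ℝ) - ((r ^ a : ℕ) : ℝ) / (16 * P.κ)) le_rfl hT2.2 (by simp [supn])
        (by
          rw [← hP]
          have h0 : lev u (0 : Pos d) = 0 := by simp [lev]
          rw [h0]
          linarith)
        hT2.1 (by omega) (agree_take q η l T _)]
    · rw [if_pos hg]
      refine le_trans ?_ le_add_self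
      simp only [hF]
      split_ifs
      · exact le_rfl
      · exact zero_le
  refine le_trans hle ?_
  rw [E4.EE_add]
  refine add_le_add le_rfl ?_
  refine le_trans ?_ (hB.good r hr0 n hn hn2 q hM hTy)
  unfold Par.PP
  refine E4.EE_mono q _ fun η l => ?_
  by_cases hg : (envT q η l).Good r (r ^ a) Cv (n ^ 2) (n ^ 2)
  · rw [if_neg (not_not_intro hg)]
    exact zero_le
  · rw [if_pos hg, if_pos hg]

end ZP.Rows
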