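import Pool.Agent.ZP.M0
import Pool.Agent.ZP.E4

/-! # Row SF1: shifts of events, locality (deterministic) -/

set_option autoImplicit false

open scoped ENNReal BigOperators Classical

noncomputable section

namespace ZP.SF1

open ZP

variable {d : ℕ} {M K : ℕ}

theorem shL_none (c : Tor d M) : shL c (none : Let d M K) = none := rfl

theorem shL_shL (b c : Tor d M) (a : Let d M K) : shL b (shL c a) = shL (c + b) a := by
  cases a with
  | none => rfl
  | some l =>
    show some (l.1 + c + b, l.2) = some (l.1 + (c + b), l.2)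
    rw [add_assoc]

theorem shL_zero (a : Let d M K) : shL 0 a = a := by
  cases a with
  | none => rfl
  | some l =>
    show some (l.1 + 0, l.2) = some l
    rw [add_zero]

theorem stepA_shift (c : Tor d M) (η : Tor d M → ℕ) (a : Let d M K) :
    stepA (fun v => η (v + c)) (shL (-c) a) = fun v => stepA η a (v + c) := by
  unfold stepA
  rw [E4.toLab_shL]
  cases toLab a with
  | none => rfl
  | some l => exact E4.mv_shift c η l

theorem foldl_shift (c : Tor d M) (w : List (Let d M K)) (η : Tor d M → ℕ) :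
    (w.map (shL (-c))).foldl stepA (fun v => η (v + c)) = fun v => w.foldl stepA η (v + c) := by
  induction w generalizing η with
  | nil => rfl
  | cons a w ih =>
    rw [List.map_cons, List.foldl_cons, List.foldl_cons, stepA_shift]
    exact ih _

theorem stt_shift (c : Tor d M) (w : List (Let d M K)) (η : Tor d M → ℕ) (i : ℕ) :
    stt (fun v => η (v + c)) (w.map (shL (-c))) i = fun v => stt η w i (v + c) := by
  unfold stt
  rw [← List.map_take]
  exact foldl_shift c _ η

theorem stt_drop (η : Tor d M → ℕ) (w : List (Let d M K)) (s i : ℕ) :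
    stt (stt η w s) (w.drop s) i = stt η w (s + i) := by
  unfold stt
  rw [← List.foldl_append, List.take_add]

/-- the configuration of a shifted system -/
theorem stt_sft (η : Tor d M → ℕ) (w : List (Let d M K)) (c : Tor d M) (s i : ℕ) :
    stt (fun v => stt η w s (v + c)) ((w.drop s).map (shL (-c))) i =
      fun v => stt η w (s + i) (v + c) := by
  rw [stt_shift, stt_drop]

theorem stt_zero (η : Tor d M → ℕ) (w : List (Let d M K)) : stt η w 0 = η := rfl

theorem tv_zero : (tv (0 : Pos d) : Tor d M) = 0 := by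
  funext j
  simp [tv]

theorem getD_sft (w : List (Let d M K)) (c : Tor d M) (s i : ℕ) :
    ((w.drop s).map (shL (-c))).getD i none = shL (-c) (w.getD (s + i) none) := by
  rw [List.getD_eq_getElem?_getD, List.getD_eq_getElem?_getD, List.getElem?_map,
    List.getElem?_drop]
  cases w[s + i]? <;> rfl

theorem res_shL (Λ : Set (Tor d M)) (c : Tor d M) (a : Let d M K) :
    res Λ (shL (-c) a) = shL (-c) (res {v | v - c ∈ Λ} a) := by
  cases a with
  | none => rfl
  | some l =>
    show (if l.1 + -c ∈ Λ then some (l.1 + -c, l.2) else none) =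
      shL (-c) (if l.1 - c ∈ Λ then some l else none)
    rw [← sub_eq_add_neg]
    split_ifs
    · show some (l.1 - c, l.2) = some (l.1 + -c, l.2)
      rw [sub_eq_add_neg]
    · rfl

theorem res_res {Λ Λ' : Set (Tor d M)} (h : Λ ⊆ Λ') (a : Let d M K) : res Λ (res Λ' a) = res Λ a := by
  cases a with
  | none => rfl
  | some l =>
    show res Λ (if l.1 ∈ Λ' then some l else none) = if l.1 ∈ Λ then some l else none
    by_cases h1 : l.1 ∈ Λ'
    · rw [if_pos h1]
      rfl
    · rw [if_neg h1, if_neg fun h2 => h1 (h h2)]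
      rfl

theorem Rel.sft {N1 : ℕ} {Λ : Set (Tor d M)} {u1 u2 : ℕ} {η η' : Tor d M → ℕ}
    {w w' : List (Let d M (K + 1))} (x : Pos d) (t : ℕ)
    (h : Rel N1 {v | v - tv x ∈ Λ} (u1 + t) (u2 + t) η w η' w') :
    Rel N1 Λ u1 u2 (fun v => stt η w (t * N1) (v + tv x)) ((w.drop (t * N1)).map (shL (-(tv x))))
      (fun v => stt η' w' (t * N1) (v + tv x)) ((w'.drop (t * N1)).map (shL (-(tv x)))) where
  len := by
    have h1 := h.len
    rw [Nat.add_mul] at h1
    rw [List.length_map, List.length_drop]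
    omega
  len' := by
    have h1 := h.len'
    rw [Nat.add_mul] at h1
    rw [List.length_map, List.length_drop]
    omega
  cfg := by
    intro i h1 h2 v hv
    rw [stt_sft, stt_sft]
    refine h.cfg (t * N1 + i) (by rw [Nat.add_mul]; omega) (by rw [Nat.add_mul]; omega) (v + tv x) ?_
    show v + tv x - tv x ∈ Λ
    rwa [add_sub_cancel_right]
  lets := by
    intro i h1 h2
    rw [getD_sft, getD_sft, res_shL, res_shL]
    rw [h.lets (t * N1 + i) (by rw [Nat.add_mul]; omega) (by rw [Nat.add_mul]; omega)]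

theorem Rel.mono {N1 : ℕ} {Λ Λ' : Set (Tor d M)} {u1 u2 v1 v2 : ℕ} {η η' : Tor d M → ℕ}
    {w w' : List (Let d M (K + 1))} (h : Rel N1 Λ' v1 v2 η w η' w')
    (hΛ : Λ ⊆ Λ') (h1 : v1 ≤ u1) (h2 : u2 ≤ v2) : Rel N1 Λ u1 u2 η w η' w' where
  len := (Nat.mul_le_mul_right _ h2).trans h.len
  len' := (Nat.mul_le_mul_right _ h2).trans h.len'
  cfg := fun i h3 h4 v hv => h.cfg i ((Nat.mul_le_mul_right _ h1).trans h3)
    (h4.trans (Nat.mul_le_mul_right _ h2)) v (hΛ hv)
  lets := by
    intro i h3 h4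
    have h5 := h.lets i ((Nat.mul_le_mul_right _ h1).trans h3)
      (h4.trans_le (Nat.mul_le_mul_right _ h2))
    rw [← res_res hΛ, h5, res_res hΛ]

/-! ### paths -/

theorem path_shift (c : Tor d M) (w : List (Let d M K)) (η : Tor d M → ℕ) :
    path (fun v => η (v + c)) (w.map (shL (-c))) = (path η w).map (fun ζ v => ζ (v + c)) := by
  induction w generalizing η with
  | nil => rfl
  | cons a w ih =>
    show (fun v => η (v + c)) :: path (stepA (fun v => η (v + c)) (shL (-c) a)) (w.map (shL (-c))) =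
      (fun v => η (v + c)) :: (path (stepA η a) w).map (fun ζ v => ζ (v + c))
    rw [stepA_shift, ih]

theorem path_length (η : Tor d M → ℕ) (w : List (Let d M K)) : (path η w).length = w.length + 1 := by
  induction w generalizing η with
  | nil => rfl
  | cons a w ih =>
    show (path (stepA η a) w).length + 1 = w.length + 1 + 1
    rw [ih]

theorem path_getElem? (η : Tor d M → ℕ) (w : List (Let d M K)) (i : ℕ) (hi : i ≤ w.length) :
    (path η w)[i]? = some (stt η w i) := by
  induction w generalizing η i with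
  | nil =>
    have : i = 0 := by simpa using hi
    subst this
    rfl
  | cons a w ih =>
    cases i with
    | zero => rfl
    | succ i =>
      show (path (stepA η a) w)[i]? = some (stt (stepA η a) w i)
      exact ih _ _ (by simpa using hi)

theorem path_drop (η : Tor d M → ℕ) (w : List (Let d M K)) (i : ℕ) (hi : i ≤ w.length) :
    path (stt η w i) (w.drop i) = (path η w).drop i := by
  induction w generalizing η i with
  | nil =>
    have : i = 0 := by simpa using hi
    subst this
    rfl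
  | cons a w ih =>
    cases i with
    | zero => rfl
    | succ i =>
      show path (stt (stepA η a) w i) (w.drop i) = (path (stepA η a) w).drop i
      exact ih _ _ (by simpa using hi)

theorem mark_shL (c : Tor d M) (a : Let d M K) : mark (shL c a) = (mark a).map (fun v => v + c) := by
  unfold mark
  rw [E4.toLab_shL]
  cases toLab a with
  | none => rfl
  | some l =>
    show (if l.2.1 = 0 then some (l.1 + c) else none) =
      (if l.2.1 = 0 then some l.1 else none).map (fun v => v + c)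
    split_ifs <;> rfl

/-- equal paths have equal configurations at every time -/
theorem stt_of_path {η : Tor d M → ℕ} {w w' : List (Let d M K)} (h : path η w = path η w') (i : ℕ) :
    stt η w i = stt η w' i := by
  have hl : w.length = w'.length := by
    have := congrArg List.length h
    rw [path_length, path_length] at this
    omega
  have key : ∀ i, i ≤ w.length → stt η w i = stt η w' i := by
    intro i hi
    have h1 := path_getElem? η w i hi
    have h2 := path_getElem? η w' i (by omega)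
    rw [h, h2] at h1
    exact (Option.some.inj h1).symm
  by_cases hi : i ≤ w.length
  · exact key i hi
  · have h1 : stt η w i = stt η w w.length := by
      unfold stt
      rw [List.take_of_length_le (by omega), List.take_of_length_le le_rfl]
    have h2 : stt η w' i = stt η w' w.length := by
      unfold stt
      rw [List.take_of_length_le (by omega), List.take_of_length_le (by omega)]
    rw [h1, h2]
    exact key _ le_rfl

end ZP.SF1

namespace ZP.Rows

open ZP

variable {d : ℕ}

section SF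

variable {M K : ℕ} (N1 : ℕ)

theorem sft_sft (x y : Pos d) (s t : ℕ) (E : Ev d M K) :
    sft N1 x s (sft N1 y t E) = sft N1 (x + y) (s + t) E := by
  funext η w
  have h1 : (fun v => stt (fun v => stt η w (s * N1) (v + tv x))
      ((w.drop (s * N1)).map (shL (-(tv x)))) (t * N1) (v + tv y)) =
      fun v => stt η w ((s + t) * N1) (v + tv (x + y)) := by
    funext v
    rw [SF1.stt_sft, ← Nat.add_mul, E4.tv_add]
    show stt η w ((s + t) * N1) (v + tv y + tv x) = _
    rw [add_assoc, add_comm (tv y) (tv x)]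
  have h2 : (((w.drop (s * N1)).map (shL (-(tv x)))).drop (t * N1)).map (shL (-(tv y))) =
      (w.drop ((s + t) * N1)).map (shL (-(tv (x + y)))) := by
    rw [← List.map_drop, List.drop_drop, List.map_map, ← Nat.add_mul]
    congr 1
    funext a
    show shL (-(tv y)) (shL (-(tv x)) a) = shL (-(tv (x + y))) a
    rw [SF1.shL_shL, E4.tv_add, neg_add]
  show E _ _ = E _ _
  rw [h1, h2]

theorem sft_zero (E : Ev d M K) : sft N1 0 0 E = E := by
  funext η w
  show E (fun v => stt η w (0 * N1) (v + tv 0)) ((w.drop (0 * N1)).map (shL (-(tv 0)))) = E η w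
  rw [Nat.zero_mul, SF1.tv_zero, neg_zero, List.drop_zero]
  have h1 : (fun v => stt η w 0 (v + 0)) = η := by
    funext v
    rw [add_zero, SF1.stt_zero]
  have h2 : w.map (shL 0) = w := by
    have : (shL 0 : Let d M (K + 1) → Let d M (K + 1)) = id := funext SF1.shL_zero
    rw [this, List.map_id]
  rw [h1, h2]

theorem IncE.sft {Λ : Set (Tor d M)} {u1 u2 : ℕ} {E : Ev d M K} (h : IncE N1 Λ u1 u2 E) (x : Pos d)
    (t : ℕ) : IncE N1 {v | v - tv x ∈ Λ} (u1 + t) (u2 + t) (sft N1 x t E) :=
  fun _ _ _ _ hR hE => h _ _ _ _ (SF1.Rel.sft x t hR) hE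

theorem DecE.sft {Λ : Set (Tor d M)} {u1 u2 : ℕ} {E : Ev d M K} (h : DecE N1 Λ u1 u2 E) (x : Pos d)
    (t : ℕ) : DecE N1 {v | v - tv x ∈ Λ} (u1 + t) (u2 + t) (sft N1 x t E) :=
  fun _ _ _ _ hR hE => h _ _ _ _ (SF1.Rel.sft x t hR) hE

theorem LocE.sft {Λ : Set (Tor d M)} {u1 u2 : ℕ} {E : Ev d M K} (h : LocE N1 Λ u1 u2 E) (x : Pos d)
    (t : ℕ) : LocE N1 {v | v - tv x ∈ Λ} (u1 + t) (u2 + t) (sft N1 x t E) :=
  fun _ _ _ _ hR hR' hE => h _ _ _ _ (SF1.Rel.sft x t hR) (SF1.Rel.sft x t hR') hE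

theorem PthE.sft {E : Ev d M K} (h : PthE E) (x : Pos d) (t : ℕ) : PthE (sft N1 x t E) := by
  intro η w w' hp hm hE
  have hl : w.length = w'.length := by
    have := congrArg List.length hp
    rw [SF1.path_length, SF1.path_length] at this
    omega
  have hs : stt η w (t * N1) = stt η w' (t * N1) := SF1.stt_of_path hp _
  show E (fun v => stt η w' (t * N1) (v + tv x)) ((w'.drop (t * N1)).map (shL (-(tv x))))
  rw [← hs]
  refine h _ _ _ ?_ ?_ hE
  · rw [SF1.path_shift, SF1.path_shift]
    congr 1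
    by_cases hi : t * N1 ≤ w.length
    · rw [SF1.path_drop η w _ hi, hs, SF1.path_drop η w' _ (by omega), hp]
    · rw [List.drop_of_length_le (by omega), List.drop_of_length_le (by omega)]
  · rw [List.map_map, List.map_map]
    have h1 : (mark ∘ shL (-(tv x)) : Let d M (K + 1) → Option (Tor d M)) =
        (fun o => o.map (fun v => v + -(tv x))) ∘ mark := funext fun a => SF1.mark_shL _ a
    rw [h1, ← List.map_map, ← List.map_map]
    simp only [List.map_drop]
    rw [hm]

theorem IncE.mono {Λ Λ' : Set (Tor d M)} {u1 u2 v1 v2 : ℕ} {E : Ev d M K} (h : IncE N1 Λ u1 u2 E)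
    (hΛ : Λ ⊆ Λ') (h1 : v1 ≤ u1) (h2 : u2 ≤ v2) : IncE N1 Λ' v1 v2 E :=
  fun _ _ _ _ hR hE => h _ _ _ _ (SF1.Rel.mono hR hΛ h1 h2) hE

theorem DecE.mono {Λ Λ' : Set (Tor d M)} {u1 u2 v1 v2 : ℕ} {E : Ev d M K} (h : DecE N1 Λ u1 u2 E)
    (hΛ : Λ ⊆ Λ') (h1 : v1 ≤ u1) (h2 : u2 ≤ v2) : DecE N1 Λ' v1 v2 E :=
  fun _ _ _ _ hR hE => h _ _ _ _ (SF1.Rel.mono hR hΛ h1 h2) hE

theorem LocE.mono {Λ Λ' : Set (Tor d M)} {u1 u2 v1 v2 : ℕ} {E : Ev d M K} (h : LocE N1 Λ u1 u2 E)
    (hΛ : Λ ⊆ Λ') (h1 : v1 ≤ u1) (h2 : u2 ≤ v2) : LocE N1 Λ' v1 v2 E :=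
  fun _ _ _ _ hR hR' hE => h _ _ _ _ (SF1.Rel.mono hR hΛ h1 h2) (SF1.Rel.mono hR' hΛ h1 h2) hE

theorem IncE.loc {Λ : Set (Tor d M)} {u1 u2 : ℕ} {E : Ev d M K} (h : IncE N1 Λ u1 u2 E) :
    LocE N1 Λ u1 u2 E :=
  fun _ _ _ _ hR _ hE => h _ _ _ _ hR hE

theorem DecE.loc {Λ : Set (Tor d M)} {u1 u2 : ℕ} {E : Ev d M K} (h : DecE N1 Λ u1 u2 E) :
    LocE N1 Λ u1 u2 E :=
  fun _ _ _ _ _ hR' hE => h _ _ _ _ hR' hE

theorem LocE.not {Λ : Set (Tor d M)} {u1 u2 : ℕ} {E : Ev d M K} (h : LocE N1 Λ u1 u2 E) :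
    LocE N1 Λ u1 u2 (fun η w => ¬ E η w) :=
  fun _ _ _ _ hR hR' hE hE' => hE (h _ _ _ _ hR' hR hE')

theorem LocE.and {Λ : Set (Tor d M)} {u1 u2 : ℕ} {E E' : Ev d M K} (h : LocE N1 Λ u1 u2 E)
    (h' : LocE N1 Λ u1 u2 E') : LocE N1 Λ u1 u2 (fun η w => E η w ∧ E' η w) :=
  fun _ _ _ _ hR hR' hE => ⟨h _ _ _ _ hR hR' hE.1, h' _ _ _ _ hR hR' hE.2⟩

theorem IncE.not {Λ : Set (Tor d M)} {u1 u2 : ℕ} {E : Ev d M K} (h : IncE N1 Λ u1 u2 E) :
    DecE N1 Λ u1 u2 (fun η w => ¬ E η w) :=
  fun _ _ _ _ hR hE hE' => hE (h _ _ _ _ hR hE')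

end SF

end ZP.Rows
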