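import Pool.Agent.ZP.Blocks

/-! # Hubs (part M5 of the paper): definitions

Blocks of every level are pairs (cell, time index).  Level data: `n k` = number of the cells of level `k` per cell
of level `k + 1` (in each direction), `q * n k` = number of the time steps of level `k` per time step of level `k + 1`,
`J k` = allowed number of separated bad blocks, `a k` = separation, `D k` = distance of the hubs to the bad blocks. -/

set_option autoImplicit false

open scoped BigOperators Classical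

noncomputable section

namespace ZP

variable {d : ℕ}

/-- blocks: cell and time index -/
abbrev Blk (d : ℕ) := Pos d × ℕ

/-- sum norm -/
def n1 (v : Pos d) : ℕ := ∑ j, (v j).natAbs

/-- sup distance in space and time -/
def bd (v w : Blk d) : ℕ := max (supn (v.1 - w.1)) (((v.2 : ℤ) - (w.2 : ℤ)).natAbs)

/-- the blocks of level `k` around the block `v` of level `k + 1` -/
def Rg (n q : ℕ) (v : Blk d) : Set (Blk d) :=
  {w | (∀ j, n * v.1 j - 4 * n ≤ w.1 j ∧ w.1 j ≤ n * v.1 j + 4 * n) ∧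
    q * n * v.2 ≤ w.2 + q * n ∧ w.2 < q * n * (v.2 + 3)}

/-- the blocks of level `k` at the beginning of the block `v` of level `k + 1` -/
def Bg (n q : ℕ) (v : Blk d) : Set (Blk d) :=
  {w | (∀ j, n * v.1 j ≤ w.1 j ∧ w.1 j < n * v.1 j + n) ∧ q * n * v.2 ≤ w.2 ∧ w.2 < q * n * v.2 + n}

/-- there are `J + 1` bad blocks in `S` with mutual distances larger than `a` -/
def Many (J a : ℕ) (S : Set (Blk d)) (bad : Blk d → Prop) : Prop :=
  ∃ F : Finset (Blk d), F.card = J + 1 ∧ (∀ w ∈ F, w ∈ S ∧ bad w) ∧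
    ∀ w ∈ F, ∀ w' ∈ F, w ≠ w' → a < bd w w'

/-- level data -/
structure Lvl where
  n : ℕ → ℕ
  J : ℕ → ℕ
  a : ℕ → ℕ
  D : ℕ → ℕ
  q : ℕ

/-- conditions on the level data -/
structure Lvl.Fit (Λ : Lvl) (d : ℕ) : Prop where
  q_big : d + 4 ≤ Λ.q
  n_pos : ∀ k, 1 ≤ Λ.n k
  a_pos : ∀ k, 1 ≤ Λ.a k
  aD : ∀ k, 10 * Λ.a k * Λ.J k ≤ Λ.D k
  an : ∀ k, 20 * Λ.a k * Λ.J k ≤ Λ.n k
  cnt : ∀ k, 2 * Λ.J k * (2 * (Λ.D k + Λ.a k) + 1) ^ d < Λ.n k ^ d

/-- the hub of a block: set of level `0` blocks -/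
def Hub (Λ : Lvl) (bad : ℕ → Blk d → Prop) : ℕ → Blk d → Set (Blk d)
  | 0, v => {v}
  | k + 1, v => {P | ∃ w ∈ Bg (Λ.n k) Λ.q v,
      (∀ w' ∈ Rg (Λ.n k) Λ.q v, bd w' w ≤ Λ.D k → ¬ bad k w') ∧ P ∈ Hub Λ bad k w}

/-- one step of an open path of level `0` blocks -/
def OStep (bad : ℕ → Blk d → Prop) (P P' : Blk d) : Prop :=
  ¬ bad 0 P ∧ P'.2 = P.2 + 1 ∧ n1 (P'.1 - P.1) ≤ 1

/-- open path -/
def OPath (bad : ℕ → Blk d → Prop) (P P' : Blk d) : Prop := Relation.ReflTransGen (OStep bad) P P'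

/-- number of the level `0` time steps in a level `k` time step -/
def Lvl.t (Λ : Lvl) : ℕ → ℕ
  | 0 => 1
  | k + 1 => Λ.q * Λ.n k * Λ.t k

/-- a block of level `k + 1` that is not bad has few separated bad blocks of either kind -/
structure Hier (Λ : Lvl) (bm bp : ℕ → Blk d → Prop) : Prop where
  m : ∀ k v, ¬ bm (k + 1) v → ¬ Many (Λ.J k) (Λ.a k) (Rg (Λ.n k) Λ.q v) (bm k)
  p : ∀ k v, ¬ bp (k + 1) v → ¬ Many (Λ.J k) (Λ.a k) (Rg (Λ.n k) Λ.q v) (bp k)

/-- bad = bad for one of the two reasons -/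
def Bad (bm bp : ℕ → Blk d → Prop) (k : ℕ) (v : Blk d) : Prop := bm k v ∨ bp k v

end ZP
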