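import Pool.Agent.ZI.Defs

/-! # The model with another fugacity -/

set_option autoImplicit false

noncomputable section

namespace ZP

/-- the model with the fugacity `φ` -/
def wf (m : ZI.Model) (φ : ℝ) (h : 0 < φ) : ZI.Model := { m with φ := φ, φ_pos := h }

end ZP
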