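import Pool.Agent.ZP.Proj
import Pool.Agent.ZP.HubDefs
import Pool.Agent.ZP.Wf

/-! # Multi-scale events: definitions

Text: store `MP_646828_P_helper94.md`, parts M1 - M7.
-/

set_option autoImplicit false

open scoped ENNReal BigOperators Classical

noncomputable section

namespace ZP

variable {d : ℕ}

/-- the same chain at another fugacity -/
def Par.wf {m : Model} {δ : ℝ} (q : Par d m δ) (φ : ℝ) (h : 0 < φ) (hK : 2 * φ ≤ m.g q.K) :
    Par d (ZP.wf m φ h) δ where
  M := q.M
  K := q.K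
  N1 := q.N1
  p := q.p
  δ_nn := q.δ_nn
  M_ge := q.M_ge
  K_ge := q.K_ge
  K_big := hK
  N1_pos := q.N1_pos
  p_pos := q.p_pos
  p_lb := q.p_lb
  p_ub := q.p_ub
  p_small := q.p_small
  p_tot := q.p_tot

/-- events: predicates of the initial configuration and the word -/
abbrev Ev (d M K : ℕ) := (Tor d M → ℕ) → List (Let d M (K + 1)) → Prop

/-- the configuration after `i` letters -/
def stt {M K : ℕ} (η : Tor d M → ℕ) (w : List (Let d M K)) (i : ℕ) : Tor d M → ℕ :=
  (w.take i).foldl stepA η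

/-- sup ball in the torus -/
def Bt {M : ℕ} (x : Tor d M) (ρ : ℕ) : Set (Tor d M) := {v | ∃ y : Pos d, supn y ≤ ρ ∧ v = x + tv y}

/-- a letter restricted to a set of sites -/
def res {M K : ℕ} (Λ : Set (Tor d M)) (a : Let d M K) : Let d M K :=
  match a with
  | none => none
  | some l => if l.1 ∈ Λ then some l else none

/-- a configuration restricted to a set of sites -/
def cut {M : ℕ} (Λ : Set (Tor d M)) (η : Tor d M → ℕ) : Tor d M → ℕ := fun v => if v ∈ Λ then η v else 0

/-- the event `E` at the place `x` and the time `t` -/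
def sft {M K : ℕ} (N1 : ℕ) (x : Pos d) (t : ℕ) (E : Ev d M K) : Ev d M K := fun η w =>
  E (fun v => stt η w (t * N1) (v + tv x)) ((w.drop (t * N1)).map (shL (-(tv x))))

/-- during `[u1, u2]` the first system is below the second one on `Λ`, and the letters in `Λ` are the same -/
structure Rel {M K : ℕ} (N1 : ℕ) (Λ : Set (Tor d M)) (u1 u2 : ℕ) (η : Tor d M → ℕ)
    (w : List (Let d M (K + 1))) (η' : Tor d M → ℕ) (w' : List (Let d M (K + 1))) : Prop where
  len : u2 * N1 ≤ w.length
  len' : u2 * N1 ≤ w'.length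
  cfg : ∀ i, u1 * N1 ≤ i → i ≤ u2 * N1 → ∀ v ∈ Λ, stt η w i v ≤ stt η' w' i v
  lets : ∀ i, u1 * N1 ≤ i → i < u2 * N1 → res Λ (w.getD i none) = res Λ (w'.getD i none)

/-- increasing event that depends on the path and the letters in `Λ` during `[u1, u2]` only -/
def IncE {M K : ℕ} (N1 : ℕ) (Λ : Set (Tor d M)) (u1 u2 : ℕ) (E : Ev d M K) : Prop :=
  ∀ η w η' w', Rel N1 Λ u1 u2 η w η' w' → E η w → E η' w'

/-- decreasing event that depends on the path and the letters in `Λ` during `[u1, u2]` only -/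
def DecE {M K : ℕ} (N1 : ℕ) (Λ : Set (Tor d M)) (u1 u2 : ℕ) (E : Ev d M K) : Prop :=
  ∀ η w η' w', Rel N1 Λ u1 u2 η w η' w' → E η' w' → E η w

/-- event that depends on the path and the letters in `Λ` during `[u1, u2]` only -/
def LocE {M K : ℕ} (N1 : ℕ) (Λ : Set (Tor d M)) (u1 u2 : ℕ) (E : Ev d M K) : Prop :=
  ∀ η w η' w', Rel N1 Λ u1 u2 η w η' w' → Rel N1 Λ u1 u2 η' w' η w → E η w → E η' w'

/-- event that depends on the path with its marks only -/
def PthE {M K : ℕ} (E : Ev d M K) : Prop :=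
  ∀ η w w', path η w = path η w' → w.map mark = w'.map mark → E η w → E η w'

/-- the word of the reversed path -/
def rword {M K : ℕ} (η : Tor d M → ℕ) (w : List (Let d M (K + 1))) : List (Let d M (K + 1)) :=
  canP (path η w).reverse (w.map mark).reverse

/-- the event `E` for the reversed path -/
def revE {M K : ℕ} (E : Ev d M K) : Ev d M K := fun η w => E (stt η w w.length) (rword η w)

/-! ### cells and the level `0` event -/

/-- the cell `z` of the side `L` -/
def cell (L : ℕ) (z : Pos d) : Set (Pos d) := {x | ∀ j, (L : ℤ) * z j ≤ x j ∧ x j < (L : ℤ) * z j + L}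

/-- the `ℓ¹` norm -/
def l1 (z : Pos d) : ℕ := ∑ j, (z j).natAbs

/-- multiplication by a natural number -/
def sm (s : ℕ) (z : Pos d) : Pos d := fun j => (s : ℤ) * z j

/-- at least one particle at `x` -/
def occ1 {M : ℕ} (η : Tor d M → ℕ) (x : Tor d M) : Tor d M → ℕ := Function.update η x (max 1 (η x))

/-- the infection from `{x}` of the process with the labels in `Λ`, started from the particles in `Λ` and one at `x` -/
def lin {M K : ℕ} (Λ : Set (Tor d M)) (η : Tor d M → ℕ) (x : Pos d) (w : List (Let d M (K + 1))) :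
    Set (Pos d) :=
  ((w.map (res Λ)).foldl (stepI Set.univ) (occ1 (cut Λ η) (tv x), {x})).2

/-- the level `0` event (letters version), increasing -/
def Opn {M K : ℕ} (N1 L τ : ℕ) : Ev d M K := fun η w =>
  (∃ x ∈ cell (d := d) L 0, 0 < η (tv x)) ∧
  (∀ x ∈ cell (d := d) L 0, ∀ z' : Pos d, l1 z' ≤ 1 → ∃ y ∈ cell L z',
    y ∈ lin (Bt 0 (L ^ 2)) η x (w.take (τ * N1))) ∧
  (∀ x ∈ cell (d := d) L 0, ∀ b ∈ cell (d := d) L 0, ∃ i ≤ τ * N1,
    b ∈ lin (Bt 0 (L ^ 2)) η x (w.take i))

/-- the infection from `{x}` restricted to the box `|z| ≤ ρ` -/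
def rin {M K : ℕ} (ρ : ℕ) (η : Tor d M → ℕ) (x : Pos d) (w : List (Let d M (K + 1))) : Set (Pos d) :=
  (w.foldl (stepI {z | supn z ≤ ρ}) (η, {x})).2

/-- the level `0` event (path version) -/
def POpn {M K : ℕ} (N1 L τ : ℕ) : Ev d M K := fun η w =>
  (∃ x ∈ cell (d := d) L 0, 0 < η (tv x)) ∧
  (∀ x ∈ cell (d := d) L 0, 0 < η (tv x) → ∀ z' : Pos d, l1 z' ≤ 1 → ∃ y ∈ cell L z',
    y ∈ rin (L ^ 2) η x (w.take (τ * N1))) ∧
  (∀ x ∈ cell (d := d) L 0, 0 < η (tv x) → ∀ b ∈ cell (d := d) L 0, ∃ i ≤ τ * N1,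
    b ∈ rin (L ^ 2) η x (w.take i))

/-- the meeting cell: every occupied position of the cell is connected to every position of the cell that is
occupied at the time `τ` -/
def FOpn {M K : ℕ} (N1 L τ : ℕ) : Ev d M K := fun η w =>
  ∀ x ∈ cell (d := d) L 0, 0 < η (tv x) → ∀ b ∈ cell (d := d) L 0, 0 < stt η w (τ * N1) (tv b) →
    b ∈ rin (L ^ 2) η x (w.take (τ * N1))

/-- one letter for the pair (configuration, set infected without recovery) -/
def stepI0 {M K : ℕ} (G : Set (Pos d)) (s : (Tor d M → ℕ) × Set (Pos d)) (a : Let d M (K + 1)) :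
    (Tor d M → ℕ) × Set (Pos d) :=
  match toLab (prj a) with
  | none => s
  | some l => ZI.stepR nbT tv G s l

/-- some infection without recovery from a position of the box `|x| ≤ 2 S` moves by more than `S / 2` within the
time `U` -/
def Fast {M K : ℕ} (N1 S U : ℕ) : Ev d M K := fun η w =>
  ∃ x : Pos d, supn x ≤ 2 * S ∧ 0 < η (tv x) ∧ ∃ i ≤ U * N1, ∃ y : Pos d, S < 2 * supn (y - x) ∧
    y ∈ ((w.take i).foldl (stepI0 {z | supn (z - x) ≤ S}) (η, {x})).2

/-! ### the scales -/

/-- parameters: side `L`, time `τ`, exponents `γ`, `α` -/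
structure Prm where
  L : ℕ
  τ : ℕ
  γ : ℕ
  α : ℕ

namespace Prm

variable (A : Prm) (d)

/-- the sides -/
def S (k : ℕ) : ℕ := A.L ^ A.γ ^ k

/-- number of cells of the level `k` per side of a cell of the level `k + 1` -/
def n (k : ℕ) : ℕ := A.S k ^ (A.γ - 1)

/-- number of time steps of the level `k` per time step of the level `k + 1` -/
def nt (k : ℕ) : ℕ := (8 * d + 8) * A.n k

/-- side of a cell of the level `k` in units of `L` -/
def nx : ℕ → ℕ
  | 0 => 1
  | k + 1 => A.n k * nx k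

/-- duration of the level `k` in units of `τ` -/
def ix : ℕ → ℕ
  | 0 => 1
  | k + 1 => A.nt d k * ix k

/-- duration of the level `k` -/
def T (k : ℕ) : ℕ := A.ix d k * A.τ

/-- separation of bad blocks of the level `k` -/
def a (k : ℕ) : ℕ := A.S k ^ A.α

/-- distance of the good blocks of the level `k` from the bad ones -/
def D (k : ℕ) : ℕ := 100 * A.S k ^ (A.α + 1)

/-- the level data for the hubs -/
def lvl : Lvl := ⟨A.n, A.S, A.a, A.D, 8 * d + 8⟩

/-- duration of the entrance to a hub of the level `k` -/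
def U : ℕ → ℕ
  | 0 => 0
  | k + 1 => A.S k ^ (A.α + 4) * A.T d k

end Prm

/-- `S k + 1` separated blocks with the event `X` of the level `k` in the neighbourhood of the block of the level
`k + 1` at the origin, window `[0, 6 T (k + 1)]` -/
def RecE {M K : ℕ} (N1 : ℕ) (A : Prm) (k : ℕ) (X : Ev d M K) : Ev d M K := fun η w =>
  ∃ f : Fin (A.S k + 1) → Blk d,
    (∀ i, supn (f i).1 ≤ 4 * A.n k ∧ (f i).2 < 4 * A.nt d k) ∧
    (∀ i j, i ≠ j → A.a k < bd (f i) (f j)) ∧
    ∀ i, sft N1 (sm (A.S k) (f i).1) ((A.nt d k - 2 + (f i).2) * A.T d k) X η w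

/-- bad blocks, decreasing part, letters version -/
def BadM {M K : ℕ} (N1 : ℕ) (A : Prm) : ℕ → Ev d M K
  | 0 => sft N1 0 (2 * A.τ) (fun η w => ¬ Opn N1 A.L A.τ η w)
  | k + 1 => RecE N1 A k (BadM N1 A k)

/-- bad blocks, increasing part -/
def BadP {M K : ℕ} (N1 : ℕ) (A : Prm) : ℕ → Ev d M K
  | 0 => fun _ _ => False
  | k + 1 => fun η w => sft N1 0 (2 * A.T d (k + 1)) (Fast N1 (A.S (k + 1)) (A.U d (k + 1))) η w ∨
      RecE N1 A k (BadP N1 A k) η w

/-- bad blocks, decreasing part, path version -/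
def PBadM {M K : ℕ} (N1 : ℕ) (A : Prm) : ℕ → Ev d M K
  | 0 => sft N1 0 (2 * A.τ) (fun η w => ¬ POpn N1 A.L A.τ η w)
  | k + 1 => RecE N1 A k (PBadM N1 A k)

/-- bad blocks of the two signs, path version -/
def PBad {M K : ℕ} (N1 : ℕ) (A : Prm) (b : Bool) (k : ℕ) : Ev d M K :=
  if b then BadP N1 A k else PBadM N1 A k

end ZP
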