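import Pool.Agent.ZP.Proj

/-! # PJ: the projection to the system without recovery -/

set_option autoImplicit false

open scoped ENNReal BigOperators Classical Pointwise
open MeasureTheory

noncomputable section

namespace ZP.Rows

open ZP

variable {d : ℕ} {V : Type}

/-! ### lists of labels -/

theorem pjL_zero {l : Lab V d} (h : l.2.1 = 0) : pjL l = none := by
  obtain ⟨x, k, e⟩ := l
  simp only at h
  subst h
  rfl

theorem mv_pjL (nb : V → Dir d → Option V) (η : V → ℕ) (l : Lab V d) :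
    mv nb η l = match pjL l with
      | none => η
      | some l' => ZI.mv nb η l' := by
  obtain ⟨x, k, e⟩ := l
  cases k <;> rfl

theorem foldl_mv_toZI (nb : V → Dir d → Option V) (L : List (Lab V d)) : ∀ η : V → ℕ,
    L.foldl (mv nb) η = (L.filterMap pjL).foldl (ZI.mv nb) η := by
  induction L with
  | nil => intro η; rfl
  | cons l L ih =>
    intro η
    obtain ⟨x, k, e⟩ := l
    cases k with
    | zero => exact ih η
    | succ k =>
      change L.foldl (mv nb) (ZI.mv nb η (x, k, e)) = _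
      rw [ih]
      rfl

theorem infMv_mono {nb : V → Dir d → Option V} {pr : Pos d → V} {η : V → ℕ} {A A' : Set (Pos d)}
    (h : A ⊆ A') (l : Lab V d) : ZI.infMv nb pr η A l ⊆ ZI.infMv nb pr η A' l := by
  unfold ZI.infMv
  split
  · rintro z (⟨h1, h2⟩ | ⟨h1, h2⟩)
    · exact Or.inl ⟨h h1, h2⟩
    · exact Or.inr ⟨h h1, h2⟩
  · exact h

theorem foldl_stepR_toZI (nb : V → Dir d → Option V) (pr : Pos d → V) (G : Set (Pos d))
    (L : List (Lab V d)) : ∀ (η : V → ℕ) (A A' : Set (Pos d)), A ⊆ A' →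
    (L.foldl (stepR nb pr G) (η, A)).1 = ((L.filterMap pjL).foldl (ZI.stepR nb pr G) (η, A')).1 ∧
    (L.foldl (stepR nb pr G) (η, A)).2 ⊆ ((L.filterMap pjL).foldl (ZI.stepR nb pr G) (η, A')).2 := by
  induction L with
  | nil => intro η A A' h; exact ⟨rfl, h⟩
  | cons l L ih =>
    intro η A A' h
    obtain ⟨x, k, e⟩ := l
    cases k with
    | zero =>
      refine ih η (infMv nb pr η A (x, 0, e) ∩ G) A' ?_
      rintro z ⟨hz, -⟩
      exact h hz.1
    | succ k =>
      refine ih (ZI.mv nb η (x, k, e)) (ZI.infMv nb pr η A (x, k, e) ∩ G)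
        (ZI.infMv nb pr η A' (x, k, e) ∩ G) ?_
      exact Set.inter_subset_inter_left _ (infMv_mono h _)

theorem foldl_stepR_noRec (nb : V → Dir d → Option V) (pr : Pos d → V) (G : Set (Pos d))
    (L : List (Lab V d)) (hL : ∀ l ∈ L, l.2.1 = 0 → ∀ z ∈ G, pr z ≠ l.1) :
    ∀ (η : V → ℕ) (A : Set (Pos d)), A ⊆ G →
    L.foldl (stepR nb pr G) (η, A) = (L.filterMap pjL).foldl (ZI.stepR nb pr G) (η, A) := by
  induction L with
  | nil => intro η A h; rfl
  | cons l L ih =>
    intro η A h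
    have hL' : ∀ l ∈ L, l.2.1 = 0 → ∀ z ∈ G, pr z ≠ l.1 := fun l' hl' => hL l' (List.mem_cons_of_mem _ hl')
    have hl := hL l List.mem_cons_self
    obtain ⟨x, k, e⟩ := l
    cases k with
    | zero =>
      have h1 : infMv nb pr η A (x, 0, e) ∩ G = A := by
        apply Set.Subset.antisymm
        · rintro z ⟨hz, -⟩
          exact hz.1
        · intro z hz
          exact ⟨⟨hz, fun h2 => absurd h2 (hl rfl z (h hz))⟩, h hz⟩
      change L.foldl (stepR nb pr G) (η, infMv nb pr η A (x, 0, e) ∩ G) = _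
      rw [h1, ih hL' η A h]
      rfl
    | succ k =>
      exact ih hL' (ZI.mv nb η (x, k, e)) (ZI.infMv nb pr η A (x, k, e) ∩ G) Set.inter_subset_right

theorem filterMap_take_prefix {α β : Type} (f : α → Option β) (L : List α) (i : ℕ) :
    ∃ i' ≤ (L.filterMap f).length, (L.take i).filterMap f = (L.filterMap f).take i' := by
  have h1 : (L.take i).filterMap f <+: L.filterMap f := (List.take_prefix i L).filterMap f
  exact ⟨_, h1.length_le, List.prefix_iff_eq_take.mp h1⟩

theorem exists_take_filterMap {α β : Type} (f : α → Option β) (L : List α) :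
    ∀ i' ≤ (L.filterMap f).length, ∃ i ≤ L.length, (L.take i).filterMap f = (L.filterMap f).take i' := by
  induction L with
  | nil =>
    intro i' hi'
    exact ⟨0, le_rfl, by simp⟩
  | cons a L ih =>
    intro i' hi'
    cases hf : f a with
    | none =>
      rw [List.filterMap_cons_none hf] at hi' ⊢
      obtain ⟨i, hi, h⟩ := ih i' hi'
      refine ⟨i + 1, by simpa using hi, ?_⟩
      rw [List.take_succ_cons, List.filterMap_cons_none hf, h]
    | some b =>
      rw [List.filterMap_cons_some hf] at hi' ⊢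
      cases i' with
      | zero => exact ⟨0, Nat.zero_le _, by simp⟩
      | succ i' =>
        obtain ⟨i, hi, h⟩ := ih i' (by simpa using hi')
        refine ⟨i + 1, by simpa using hi, ?_⟩
        rw [List.take_succ_cons, List.filterMap_cons_some hf, h, List.take_succ_cons]

section PJ

variable (E : Env d)

theorem cfg_toZI (t : ℕ) : cfg E.nb E.η0 E.U t = ZI.cfg E.toZI.nb E.toZI.η0 E.toZI.U t := by
  induction t with
  | zero => rfl
  | succ t ih =>
    change (E.U t).foldl (mv E.nb) (cfg E.nb E.η0 E.U t) =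
      ((E.U t).filterMap pjL).foldl (ZI.mv E.nb) (ZI.cfg E.toZI.nb E.toZI.η0 E.toZI.U t)
    rw [ih]
    exact foldl_mv_toZI E.nb (E.U t) _

theorem occ_toZI (t : ℕ) (x : Pos d) : E.occ t x ↔ E.toZI.occ t x := by
  unfold Env.occ ZI.Env.occ
  rw [cfg_toZI]
  rfl

/-- the infected set is smaller than without recovery -/
theorem inf_toZI (G : ℕ → Set (Pos d)) (s : ℕ) (A : Set (Pos d)) (j : ℕ) :
    inf E.nb E.pr E.η0 E.U G s A j ⊆ ZI.inf E.toZI.nb E.toZI.pr E.toZI.η0 E.toZI.U G s A j := by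
  induction j with
  | zero =>
    rintro z ⟨h1, h2, h3⟩
    refine ⟨h1, h2, ?_⟩
    rw [cfg_toZI] at h3
    exact h3
  | succ j ih =>
    have h := (foldl_stepR_toZI E.nb E.pr (G (s + j)) (E.U (s + j)) (cfg E.nb E.η0 E.U (s + j))
      (inf E.nb E.pr E.η0 E.U G s A j ∩ G (s + j))
      (ZI.inf E.toZI.nb E.toZI.pr E.toZI.η0 E.toZI.U G s A j ∩ G (s + j))
      (Set.inter_subset_inter_left _ ih)).2
    rw [cfg_toZI] at h
    change ((E.U (s + j)).foldl (stepR E.nb E.pr (G (s + j)))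
      (cfg E.nb E.η0 E.U (s + j), inf E.nb E.pr E.η0 E.U G s A j ∩ G (s + j))).2 ⊆ _
    rw [cfg_toZI]
    exact h

theorem visU_toZI (G : ℕ → Set (Pos d)) (s : ℕ) (A : Set (Pos d)) (j : ℕ) :
    visU E.nb E.pr E.η0 E.U G s A j ⊆ ZI.visU E.toZI.nb E.toZI.pr E.toZI.η0 E.toZI.U G s A j := by
  rintro z ⟨i, hi, hz⟩
  obtain ⟨i', hi', h'⟩ := filterMap_take_prefix pjL (E.U (s + j)) i
  refine ⟨i', hi', ?_⟩
  have h := (foldl_stepR_toZI E.nb E.pr (G (s + j)) ((E.U (s + j)).take i) (cfg E.nb E.η0 E.U (s + j))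
      (inf E.nb E.pr E.η0 E.U G s A j ∩ G (s + j))
      (ZI.inf E.toZI.nb E.toZI.pr E.toZI.η0 E.toZI.U G s A j ∩ G (s + j))
      (Set.inter_subset_inter_left _ (inf_toZI E G s A j))).2 hz
  rw [cfg_toZI, h'] at h
  exact h

/-- recovery makes the infection smaller -/
theorem R_toZI {G : ℕ → Set (Pos d)} {s t : ℕ} {x y : Pos d} (h : E.R G s x t y) :
    E.toZI.R G s x t y := by
  obtain ⟨j, hj, h⟩ := h
  exact ⟨j, hj, inf_toZI E G s {x} j h⟩

theorem vis_toZI {G : ℕ → Set (Pos d)} {s t : ℕ} {x y : Pos d} (h : E.vis G s x t y) :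
    E.toZI.vis G s x t y := by
  obtain ⟨j, hj, h⟩ := h
  exact ⟨j, hj, visU_toZI E G s {x} j h⟩

theorem inf_noRec {G : Set (Pos d)} {s t : ℕ} (hE : E.NoRec G s t) (A : Set (Pos d)) (j : ℕ)
    (hj : s + j ≤ t) : inf E.nb E.pr E.η0 E.U (fun _ => G) s A j =
      ZI.inf E.toZI.nb E.toZI.pr E.toZI.η0 E.toZI.U (fun _ => G) s A j := by
  induction j with
  | zero =>
    ext z
    change (z ∈ A ∧ z ∈ G ∧ 0 < cfg E.nb E.η0 E.U s (E.pr z)) ↔
      (z ∈ A ∧ z ∈ G ∧ 0 < ZI.cfg E.toZI.nb E.toZI.η0 E.toZI.U s (E.toZI.pr z))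
    rw [cfg_toZI]
    exact Iff.rfl
  | succ j ih =>
    have hj' : s + j ≤ t := by omega
    have h := foldl_stepR_noRec E.nb E.pr G (E.U (s + j)) (hE (s + j) (by omega) (by omega))
      (cfg E.nb E.η0 E.U (s + j)) (inf E.nb E.pr E.η0 E.U (fun _ => G) s A j ∩ G)
      Set.inter_subset_right
    change ((E.U (s + j)).foldl (stepR E.nb E.pr G)
      (cfg E.nb E.η0 E.U (s + j), inf E.nb E.pr E.η0 E.U (fun _ => G) s A j ∩ G)).2 = _
    rw [h, ih hj', cfg_toZI]
    rfl

theorem visU_noRec {G : Set (Pos d)} {s t : ℕ} (hE : E.NoRec G s t) (A : Set (Pos d)) (j : ℕ)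
    (hj : s + j < t) : ZI.visU E.toZI.nb E.toZI.pr E.toZI.η0 E.toZI.U (fun _ => G) s A j ⊆
      visU E.nb E.pr E.η0 E.U (fun _ => G) s A j := by
  rintro z ⟨i', hi', hz⟩
  obtain ⟨i, hi, h'⟩ := exists_take_filterMap pjL (E.U (s + j)) i' hi'
  refine ⟨i, hi, ?_⟩
  have hL : ∀ l ∈ (E.U (s + j)).take i, l.2.1 = 0 → ∀ z ∈ G, E.pr z ≠ l.1 := fun l hl =>
    hE (s + j) (by omega) hj l (List.mem_of_mem_take hl)
  have h := foldl_stepR_noRec E.nb E.pr G ((E.U (s + j)).take i) hL
      (cfg E.nb E.η0 E.U (s + j)) (inf E.nb E.pr E.η0 E.U (fun _ => G) s A j ∩ G)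
      Set.inter_subset_right
  change z ∈ (((E.U (s + j)).take i).foldl (stepR E.nb E.pr G)
      (cfg E.nb E.η0 E.U (s + j), inf E.nb E.pr E.η0 E.U (fun _ => G) s A j ∩ G)).2
  rw [h, inf_noRec E hE A j hj.le, cfg_toZI, h']
  exact hz

/-- without recovery labels in the region there is no difference -/
theorem R_of_noRec {G : Set (Pos d)} {s t : ℕ} {x y : Pos d} (hE : E.NoRec G s t)
    (h : E.toZI.R (fun _ => G) s x t y) : E.R (fun _ => G) s x t y := by
  obtain ⟨j, hj, h⟩ := h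
  refine ⟨j, hj, ?_⟩
  rw [inf_noRec E hE {x} j hj.ge]
  exact h

theorem vis_of_noRec {G : Set (Pos d)} {s t : ℕ} {x y : Pos d} (hE : E.NoRec G s t)
    (h : E.toZI.vis (fun _ => G) s x t y) : E.vis (fun _ => G) s x t y := by
  obtain ⟨j, hj, h⟩ := h
  exact ⟨j, hj, visU_noRec E hE {x} j hj h⟩

variable {m : Model} {δ : ℝ} (q : Par d m δ)

theorem stepA_prj {M K : ℕ} (η : Tor d M → ℕ) (a : Let d M (K + 1)) :
    stepA η a = ZI.stepA η (prj a) := by
  rcases a with _ | ⟨x, ⟨k, hk⟩, e⟩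
  · rfl
  · cases k <;> rfl

theorem toLab_prj {M K : ℕ} (a : Let d M (K + 1)) : (toLab a).bind pjL = toLab (prj a) := by
  rcases a with _ | ⟨x, ⟨k, hk⟩, e⟩
  · rfl
  · cases k <;> rfl

theorem units_prj {M K : ℕ} (N1 : ℕ) (l : List (Let d M (K + 1))) (t : ℕ) :
    (units N1 l t).filterMap pjL = units N1 (l.map prj) t := by
  unfold ZI.units
  rw [List.filterMap_filterMap, ← List.map_drop, ← List.map_take, List.filterMap_map]
  congr 1
  funext a
  exact toLab_prj a

theorem envT_toZI (η : Tor d q.M → ℕ) (l : List (Let d q.M (q.K + 1))) :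
    (envT q η l).toZI = ZI.envT q.toZI η (l.map prj) := by
  have h : (fun t => (units q.N1 l t).filterMap pjL) = units q.N1 (l.map prj) := by
    funext t
    exact units_prj q.N1 l t
  exact congrArg (fun U => (ZI.Env.mk (Tor d q.M) nbT tv η U : ZI.Env d)) h

/-! ### the law of the letters -/

theorem card_Tor : Fintype.card (Tor d q.M) = q.M ^ d := by
  rw [Fintype.card_fun, ZMod.card, Fintype.card_fin]

theorem card_Dir : Fintype.card (Dir d) = d * 2 := by
  rw [Fintype.card_prod, Fintype.card_fin, Fintype.card_bool]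

theorem prj_some_zero {M K : ℕ} (x : Tor d M) (e : Dir d) :
    (prj (some (x, (0 : Fin (K + 1)), e)) : Let d M K) = none := rfl

theorem prj_some_succ {M K : ℕ} (x : Tor d M) (k : Fin K) (e : Dir d) :
    (prj (some (x, k.succ, e)) : Let d M K) = some (x, k, e) := rfl

/-- summation over the letters -/
theorem sum_letters {M K : ℕ} [NeZero M] (f : Let d M (K + 1) → ℝ≥0∞) :
    ∑ b, f b = f none + (∑ x : Tor d M, ∑ e : Dir d, f (some (x, 0, e)) +
      ∑ x : Tor d M, ∑ k : Fin K, ∑ e : Dir d, f (some (x, k.succ, e))) := by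
  rw [Fintype.sum_option]
  congr 1
  rw [Fintype.sum_prod_type, ← Finset.sum_add_distrib]
  refine Finset.sum_congr rfl fun x _ => ?_
  rw [Fintype.sum_prod_type, Fin.sum_univ_succ]

theorem w_some_zero (x : Tor d q.M) (e : Dir d) :
    q.w (some (x, 0, e)) = ENNReal.ofReal (δ / (2 * d) * q.p) := rfl

theorem w_some_succ (x : Tor d q.M) (k : Fin q.K) (e : Dir d) :
    q.w (some (x, k.succ, e)) = q.toZI.w (some (x, k, e)) := rfl

theorem w_none_add (hd : 0 < d) :
    q.w none + ∑ _x : Tor d q.M, ∑ _e : Dir d, ENNReal.ofReal (δ / (2 * d) * q.p) =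
      q.toZI.w none := by
  have hd' : (0 : ℝ) < d := by exact_mod_cast hd
  have hM : (0 : ℝ) ≤ (q.M : ℝ) ^ d := by positivity
  have hp := q.p_pos.le
  have hδ := q.δ_nn
  have h0 : (0 : ℝ) ≤ δ / (2 * d) * q.p := by positivity
  rw [Finset.sum_const, Finset.sum_const, Finset.card_univ, Finset.card_univ, card_Tor, card_Dir,
    nsmul_eq_mul, nsmul_eq_mul]
  have h1 : ((q.M ^ d : ℕ) : ℝ≥0∞) * (((d * 2 : ℕ) : ℝ≥0∞) * ENNReal.ofReal (δ / (2 * d) * q.p)) =
      ENNReal.ofReal ((q.M : ℝ) ^ d * δ * q.p) := by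
    rw [← ENNReal.ofReal_natCast, ← ENNReal.ofReal_natCast, ← ENNReal.ofReal_mul (by positivity),
      ← ENNReal.ofReal_mul (by positivity)]
    congr 1
    push_cast
    field_simp
  rw [h1]
  change 1 - ENNReal.ofReal ((q.M : ℝ) ^ d * (m.g q.K + δ) * q.p) + _ =
    1 - ENNReal.ofReal ((q.M : ℝ) ^ d * m.g q.K * q.p)
  have hg : 0 ≤ m.g q.K := by
    have h2 := q.K_big
    have h3 := m.φ_pos
    linarith
  have h4 : (q.M : ℝ) ^ d * (m.g q.K + δ) * q.p =
      (q.M : ℝ) ^ d * m.g q.K * q.p + (q.M : ℝ) ^ d * δ * q.p := by ring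
  have h5 := q.p_tot
  rw [h4] at h5
  rw [h4, ← ENNReal.ofReal_one, ← ENNReal.ofReal_sub _ (by positivity),
    ← ENNReal.ofReal_sub _ (by positivity), ← ENNReal.ofReal_add (by linarith) (by positivity)]
  congr 1
  ring

/-- the law of the letters projects to the law of the letters without recovery -/
theorem sum_w_prj (hd : 0 < d) (F : Let d q.M q.K → ℝ≥0∞) :
    ∑ b, q.w b * F (prj b) =
      ∑ a : Let d q.M q.K, (q.toZI.w : Let d q.M q.K → ℝ≥0∞) a * F a := by
  rw [sum_letters (fun b => q.w b * F (prj b))]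
  have h1 : ∑ x : Tor d q.M, ∑ e : Dir d, q.w (some (x, 0, e)) * F (prj (some (x, 0, e))) =
      (∑ _x : Tor d q.M, ∑ _e : Dir d, ENNReal.ofReal (δ / (2 * d) * q.p)) * F none := by
    rw [Finset.sum_mul]
    refine Finset.sum_congr rfl fun x _ => ?_
    rw [Finset.sum_mul]
    refine Finset.sum_congr rfl fun e _ => ?_
    rw [w_some_zero, prj_some_zero]
  rw [h1, ← add_assoc]
  change q.w none * F none + _ + _ = _
  rw [← add_mul, w_none_add q hd]
  rw [Fintype.sum_option (fun a : Let d q.M q.K => (q.toZI.w : Let d q.M q.K → ℝ≥0∞) a * F a)]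
  congr 1
  rw [Fintype.sum_prod_type]
  refine Finset.sum_congr rfl fun x _ => ?_
  rw [Fintype.sum_prod_type]
  refine Finset.sum_congr rfl fun k _ => ?_
  refine Finset.sum_congr rfl fun e _ => ?_
  rw [w_some_succ, prj_some_succ]
  rfl

theorem w_prj (hd : 0 < d) (a : Let d q.M q.K) :
    ∑ b, (if prj b = a then q.w b else 0) = q.toZI.w a := by
  have h := sum_w_prj q hd (fun a' => if a' = a then 1 else 0)
  have h1 : ∑ a' : Let d q.M q.K, (q.toZI.w : Let d q.M q.K → ℝ≥0∞) a' * (if a' = a then 1 else 0) =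
      q.toZI.w a := by
    rw [Finset.sum_eq_single a]
    · rw [if_pos rfl, mul_one]
    · intro b _ hb
      rw [if_neg hb, mul_zero]
    · intro h2
      exact absurd (Finset.mem_univ a) h2
  rw [← h1, ← h]
  refine Finset.sum_congr rfl fun b _ => ?_
  split
  · rw [mul_one]
  · rw [mul_zero]

theorem EvE_prj (hd : 0 < d) (N : ℕ) : ∀ F : List (Let d q.M q.K) → ℝ≥0∞,
    EvE q.w N (fun l => F (l.map prj)) = EvE q.toZI.w N F := by
  induction N with
  | zero => intro F; rfl
  | succ N ih =>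
    intro F
    have h := sum_w_prj q hd (fun a => EvE q.toZI.w N (fun l => F (a :: l)))
    refine Eq.trans ?_ h
    change ∑ b, q.w b * EvE q.w N (fun l => F (prj b :: l.map prj)) = _
    refine Finset.sum_congr rfl fun b _ => ?_
    congr 1
    exact ih (fun l => F (prj b :: l))

/-- the chain with recovery projects to the chain without recovery -/
theorem EE_prj (hd : 0 < d) (N : ℕ) (F : (Tor d q.M → ℕ) → List (Let d q.M q.K) → ℝ≥0∞) :
    q.EE N (fun η l => F η (l.map prj)) = q.toZI.EE N F := by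
  unfold Par.EE ZI.Par.EE
  refine tsum_congr fun η => ?_
  congr 1
  exact EvE_prj q hd N (F η)

theorem PP_prj (hd : 0 < d) (N : ℕ) (F : (Tor d q.M → ℕ) → List (Let d q.M q.K) → Prop) :
    q.PP N (fun η l => F η (l.map prj)) = q.toZI.PP N F :=
  EE_prj q hd N (fun η l => if F η l then 1 else 0)

end PJ

end ZP.Rows
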