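import Pool.Agent.ZI.C5
import Pool.Agent.ZP.PJ
import Pool.Agent.ZP.M0

/-! # Rows FA, FU: the fast event -/

set_option autoImplicit false

open scoped ENNReal BigOperators Classical

noncomputable section

namespace ZP.FAx

open ZP

variable {d : ℕ}

/-- the infection without recovery in a region is contained in the infection on the cover -/
theorem stepI0_sub {M K : ℕ} (G : Set (Pos d)) (w : List (Let d M (K + 1))) :
    ∀ (η : Tor d M → ℕ) (A A' : Set (Pos d)), A ⊆ A' →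
      (w.foldl (stepI0 G) (η, A)).2 ⊆ ((w.map prj).foldl ZI.C5.stepC (η, A')).2 := by
  induction w with
  | nil => exact fun η A A' h => h
  | cons a w ih =>
    intro η A A' h
    rw [List.foldl_cons, List.map_cons, List.foldl_cons]
    cases hb : toLab (prj a) with
    | none =>
      have h1 : stepI0 G (η, A) a = (η, A) := by
        unfold stepI0
        rw [hb]
      rw [h1, ZI.C5.stepC_none _ _ hb]
      exact ih η A A' h
    | some b =>
      have h1 : stepI0 G (η, A) a = ZI.stepR nbT tv G (η, A) b := by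
        unfold stepI0
        rw [hb]
      rw [h1, ZI.C5.stepC_some _ _ b hb]
      refine ih (ZI.mv nbT η b) (ZI.infMv nbT tv η A b ∩ G) (ZI.infMv nbT tv η A' b ∩ Set.univ) ?_
      rw [Set.inter_univ]
      exact Set.inter_subset_left.trans (ZP.Rows.infMv_mono h b)

/-- the box as a finite set -/
def box (d n : ℕ) : Finset (Pos d) := Fintype.piFinset (fun _ => Finset.Icc (-(n : ℤ)) n)

theorem mem_box {n : ℕ} {x : Pos d} (h : ZI.supn x ≤ n) : x ∈ box d n := by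
  unfold box
  rw [Fintype.mem_piFinset]
  intro j
  have h1 : (x j).natAbs ≤ ZI.supn x := Finset.le_sup (f := fun j => (x j).natAbs) (Finset.mem_univ j)
  rw [Finset.mem_Icc]
  omega

theorem card_box (n : ℕ) : (box d n).card = (2 * n + 1) ^ d := by
  unfold box
  rw [Fintype.card_piFinset, Finset.prod_const, Finset.card_univ, Fintype.card_fin, Int.card_Icc]
  congr 1
  omega

theorem half_lt_nrm {v : Pos d} {S : ℕ} (h : S < 2 * ZI.supn v) : (S : ℝ) / 2 < ZI.nrm v := by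
  by_contra hc
  have hc' := not_lt.1 hc
  have h1 : ZI.supn v ≤ S / 2 := by
    unfold ZI.supn
    refine Finset.sup_le fun j _ => ?_
    have h2 := ZI.C5.abs_le_nrm v j
    have h3 : ((v j).natAbs : ℝ) = |(v j : ℝ)| := by
      rw [Nat.cast_natAbs, Int.cast_abs]
    have h4 : (2 * (v j).natAbs : ℝ) ≤ S := by
      rw [h3]
      linarith
    have h5 : 2 * (v j).natAbs ≤ S := by exact_mod_cast h4
    omega
  omega

theorem fast_far {m : Model} {δ : ℝ} (q : Par d m δ) (S U : ℕ) (hM : 20 * S + 10 ≤ q.M)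
    (η : Tor d q.M → ℕ) (w : List (Let d q.M (q.K + 1))) (h : Fast q.N1 S U η w) : ∃ x ∈ box d (2 * S),
      ZI.C5.Far q.toZI (ENNReal.ofReal (Real.exp ((S : ℝ) / 2))) (tv x) η (w.map prj) := by
  obtain ⟨x, hx, hη, i, hi, y, hy, hyw⟩ := h
  have h1 : y ∈ (ZI.C5.stC x η ((w.map prj).take i)).2 := by
    have h2 := stepI0_sub {z : Pos d | ZI.supn (z - x) ≤ S} (w.take i) η {x}
      {z | z ∈ ({x} : Set (Pos d)) ∧ z ∈ (Set.univ : Set (Pos d)) ∧ 0 < η (tv z)} (by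
        intro z hz
        rw [Set.mem_singleton_iff] at hz
        subst hz
        exact ⟨rfl, Set.mem_univ _, hη⟩) hyw
    rw [List.map_take] at h2
    exact h2
  obtain ⟨i', hi', y', hy', h2, h3⟩ := ZI.C5.first_exit x η ((S : ℝ) / 2) (by positivity)
    ((w.map prj).take i) y h1 (half_lt_nrm hy)
  rw [List.length_take, List.length_map] at hi'
  rw [List.take_take] at hy'
  refine ⟨x, mem_box hx, min i' i, ?_, tv y', ZI.C5.cov_tor x η _ y' hy', ?_⟩
  · rw [List.length_map]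
    exact (min_le_left _ _).trans (hi'.trans (min_le_right _ _))
  · have hM' : (20 * S + 10 : ℝ) ≤ q.M := by exact_mod_cast hM
    have hS : (0 : ℝ) ≤ S := Nat.cast_nonneg _
    change ENNReal.ofReal (Real.exp ((S : ℝ) / 2)) <
      ENNReal.ofReal (Real.exp (ZI.C5.nT (tv x : Tor d q.M) (tv y')))
    have h4 : ZI.C5.nT (tv x : Tor d q.M) (tv y') = ZI.nrm (y' - x) := by
      have h5 := ZI.C5.nT_lift (M := q.M) x (y' - x) (by linarith)
      rwa [add_sub_cancel] at h5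
    rw [h4]
    exact (ENNReal.ofReal_lt_ofReal_iff (Real.exp_pos _)).2 (Real.exp_lt_exp.2 h2)

theorem far_prob {m : Model} (hd : 0 < d) (q : ZI.Par d m) (x0 : Tor d q.M) (U : ℕ) (ρ : ℝ)
    (hρ : 0 ≤ ρ) : q.PP (U * q.N1) (ZI.C5.Far q (ENNReal.ofReal (Real.exp ρ)) x0) ≤
      ENNReal.ofReal (Real.exp (ZI.C5.C1 m * U - ρ)) := by
  have hGp := m.le_Gp
  have hφ := m.φ_pos
  have hGm := m.Gm_pos
  have hGp0 : 0 < m.Gp := by linarith
  have hC1 : 0 < ZI.C5.C1 m := by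
    unfold ZI.C5.C1
    positivity
  have hCe : Real.exp 1 * m.φ ≤ ZI.C5.C1 m := by
    unfold ZI.C5.C1
    have h1 : 0 ≤ m.Gp * m.φ / m.Gm := by positivity
    have h2 : 0 ≤ m.Gp * Real.exp 1 := by positivity
    linarith
  set L : ℝ≥0∞ := ENNReal.ofReal (Real.exp ρ) with hL
  have hL1 : 1 ≤ L := by
    rw [hL, ← ENNReal.ofReal_one]
    exact ENNReal.ofReal_le_ofReal (Real.one_le_exp hρ)
  set P := q.PP (U * q.N1) (ZI.C5.Far q L x0) with hP
  have h2 := ZI.C5.far_bound q hd L hL1 x0 (U * q.N1)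
  have hp := q.p_pos
  have h3 : (1 + ENNReal.ofReal (ZI.C5.C1 m * q.p)) ^ (U * q.N1) ≤
      ENNReal.ofReal (Real.exp (ZI.C5.C1 m * U)) := by
    rw [← ENNReal.ofReal_one, ← ENNReal.ofReal_add zero_le_one (by positivity),
      ← ENNReal.ofReal_pow (by positivity)]
    apply ENNReal.ofReal_le_ofReal
    calc (1 + ZI.C5.C1 m * q.p) ^ (U * q.N1) ≤ (Real.exp (ZI.C5.C1 m * q.p)) ^ (U * q.N1) := by
          gcongr
          rw [add_comm]
          exact Real.add_one_le_exp _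
      _ = Real.exp (ZI.C5.C1 m * (U * (q.N1 * q.p))) := by
          rw [← Real.exp_nat_mul]
          congr 1
          push_cast
          ring
      _ ≤ Real.exp (ZI.C5.C1 m * U) := by
          apply Real.exp_le_exp.2
          have h4 := q.p_ub
          have h5 : (U : ℝ) * (q.N1 * q.p) ≤ U * 1 := by gcongr
          rw [mul_one] at h5
          gcongr
  have h4 : ENNReal.ofReal (ZI.C5.C1 m) * (L * P) ≤
      ENNReal.ofReal (Real.exp (ZI.C5.C1 m * U) * (Real.exp 1 * m.φ)) := by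
    rw [ENNReal.ofReal_mul (p := Real.exp (ZI.C5.C1 m * U)) (Real.exp_pos _).le]
    exact (le_self_add.trans h2).trans (mul_le_mul_left h3 _)
  have h5 : P ≤ ENNReal.ofReal ((Real.exp (ZI.C5.C1 m * U) * (Real.exp 1 * m.φ)) /
      (ZI.C5.C1 m * Real.exp ρ)) := by
    rw [ENNReal.ofReal_div_of_pos (by positivity), ENNReal.le_div_iff_mul_le
      (Or.inl (by
        rw [Ne, ENNReal.ofReal_eq_zero, not_le]
        positivity)) (Or.inl ENNReal.ofReal_ne_top), ENNReal.ofReal_mul hC1.le]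
    calc P * (ENNReal.ofReal (ZI.C5.C1 m) * ENNReal.ofReal (Real.exp ρ)) =
          ENNReal.ofReal (ZI.C5.C1 m) * (L * P) := by rw [hL]; ring
      _ ≤ _ := h4
  refine h5.trans (ENNReal.ofReal_le_ofReal ?_)
  rw [div_le_iff₀ (by positivity), Real.exp_sub]
  have h6 : Real.exp (ZI.C5.C1 m * U) / Real.exp ρ * (ZI.C5.C1 m * Real.exp ρ) =
      Real.exp (ZI.C5.C1 m * U) * ZI.C5.C1 m := by
    have h7 := Real.exp_pos ρ
    field_simp
  rw [h6]
  gcongr

/-- union bound -/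
theorem fast_le {m : Model} {δ : ℝ} (hd : 0 < d) (q : Par d m δ) (S U : ℕ)
    (hM : 20 * S + 10 ≤ q.M) : q.PP (U * q.N1) (Fast q.N1 S U) ≤
      ENNReal.ofReal ((4 * S + 1 : ℝ) ^ d * Real.exp (ZI.C5.C1 m * U - S / 2)) := by
  have h1 : q.PP (U * q.N1) (Fast q.N1 S U) ≤ q.PP (U * q.N1) (fun η w =>
      (fun η' w' => ∃ x ∈ box d (2 * S), ZI.C5.Far q.toZI (ENNReal.ofReal (Real.exp ((S : ℝ) / 2)))
        (tv x) η' w') η (w.map prj)) := by
    unfold Par.PP Par.EE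
    refine ENNReal.tsum_le_tsum fun η => mul_le_mul_right ?_ _
    refine ZI.EvE_mono q.w _ fun w _ => ?_
    beta_reduce
    by_cases hE : Fast q.N1 S U η w
    · rw [if_pos hE, if_pos (fast_far q S U hM η w hE)]
    · rw [if_neg hE]
      exact bot_le
  refine h1.trans ((le_of_eq (ZP.Rows.PP_prj q hd (U * q.N1) (fun η' w' => ∃ x ∈ box d (2 * S),
    ZI.C5.Far q.toZI (ENNReal.ofReal (Real.exp ((S : ℝ) / 2))) (tv x) η' w'))).trans ?_)
  have h2 : q.toZI.PP (U * q.N1) (fun η' w' => ∃ x ∈ box d (2 * S),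
      ZI.C5.Far q.toZI (ENNReal.ofReal (Real.exp ((S : ℝ) / 2))) (tv x) η' w') ≤
      ∑ x ∈ box d (2 * S), q.toZI.PP (U * q.N1)
        (ZI.C5.Far q.toZI (ENNReal.ofReal (Real.exp ((S : ℝ) / 2))) (tv x)) := by
    unfold ZI.Par.PP
    rw [← ZI.C5.EE_sum q.toZI (box d (2 * S)) (U * q.N1) (fun x η w =>
      if ZI.C5.Far q.toZI (ENNReal.ofReal (Real.exp ((S : ℝ) / 2))) (tv x) η w then 1 else 0)]
    refine ZI.C5.EE_mono q.toZI _ fun η w => ?_
    by_cases hE : ∃ x ∈ box d (2 * S),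
        ZI.C5.Far q.toZI (ENNReal.ofReal (Real.exp ((S : ℝ) / 2))) (tv x) η w
    · rw [if_pos hE]
      obtain ⟨x, hx, hE'⟩ := hE
      refine le_trans ?_ (Finset.single_le_sum (fun _ _ => bot_le) hx)
      rw [if_pos hE']
    · rw [if_neg hE]
      exact bot_le
  refine h2.trans ?_
  have h3 : ∀ x ∈ box d (2 * S), q.toZI.PP (U * q.N1)
      (ZI.C5.Far q.toZI (ENNReal.ofReal (Real.exp ((S : ℝ) / 2))) (tv x)) ≤
      ENNReal.ofReal (Real.exp (ZI.C5.C1 m * U - S / 2)) := fun x _ =>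
    far_prob hd q.toZI (tv x) U ((S : ℝ) / 2) (by positivity)
  refine (Finset.sum_le_sum h3).trans ?_
  rw [Finset.sum_const, card_box, nsmul_eq_mul, ENNReal.ofReal_mul (by positivity)]
  refine le_of_eq ?_
  congr 1
  rw [ENNReal.ofReal_pow (by positivity)]
  push_cast
  congr 1
  rw [ENNReal.ofReal_add (by positivity) zero_le_one, ENNReal.ofReal_mul (by norm_num),
    ENNReal.ofReal_natCast, ENNReal.ofReal_one]
  norm_num
  ring

theorem poly_le (d : ℕ) : ∃ C : ℕ, 1 ≤ C ∧ ∀ S : ℕ, C ≤ S → (4 * S + 1 : ℝ) ^ d ≤ Real.exp (S / 8) := by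
  have h0 : 1 ≤ 40 ^ d * (d + 1).factorial :=
    Nat.one_le_iff_ne_zero.2 (Nat.mul_ne_zero (pow_ne_zero _ (by norm_num)) (Nat.factorial_ne_zero _))
  refine ⟨8 * (40 ^ d * (d + 1).factorial), by omega, fun S hS => ?_⟩
  have hS1 : 1 ≤ S := by omega
  have hS1' : (1 : ℝ) ≤ S := by exact_mod_cast hS1
  have hS' : 8 * ((40 : ℝ) ^ d * ((d + 1).factorial : ℝ)) ≤ S := by exact_mod_cast hS
  have hf : (0 : ℝ) < ((d + 1).factorial : ℝ) := by exact_mod_cast Nat.factorial_pos _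
  refine le_trans ?_ (Real.pow_div_factorial_le_exp ((S : ℝ) / 8) (by positivity) (d + 1))
  rw [le_div_iff₀ hf]
  calc (4 * S + 1 : ℝ) ^ d * ((d + 1).factorial : ℝ)
      ≤ (40 * (S / 8)) ^ d * ((d + 1).factorial : ℝ) := by
        gcongr
        linarith
    _ = (40 ^ d * ((d + 1).factorial : ℝ)) * (S / 8) ^ d := by
        rw [mul_pow]
        ring
    _ ≤ (S / 8) * (S / 8) ^ d := by
        gcongr
        linarith
    _ = (S / 8) ^ (d + 1) := by ring

end ZP.FAx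

namespace ZP.Rows

open ZP

variable {d : ℕ}

/-- FU: the fast event, explicit dependence on the fugacity -/
theorem fast_prob_u (m : Model) (d : ℕ) (hd : 0 < d) : ∃ C : ℕ, 1 ≤ C ∧ ∀ (φ : ℝ) (h : 0 < φ),
    ∀ (δ : ℝ) (q : Par d (wf m φ h) δ) (S U : ℕ), C * (1 + φ) * U ≤ S → C * (1 + φ) ≤ S →
    20 * S + 10 ≤ q.M →
    q.PP (U * q.N1) (Fast q.N1 S U) ≤ ENNReal.ofReal (Real.exp (-(S : ℝ) / C)) := by
  have hGp := m.le_Gp
  have hGm := m.Gm_pos
  have hGp0 : 0 < m.Gp := by linarith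
  set c1 : ℝ := m.Gp * Real.exp 1 + Real.exp 1 + m.Gp / m.Gm with hc1
  have hc1p : 0 < c1 := by positivity
  obtain ⟨C0, hC0, hpoly⟩ := FAx.poly_le d
  obtain ⟨C2, hC2⟩ := exists_nat_ge (8 * c1)
  refine ⟨C0 + C2 + 4, by omega, fun φ h δ q S U hU hS hM => ?_⟩
  refine (FAx.fast_le hd q S U hM).trans (ENNReal.ofReal_le_ofReal ?_)
  have hCpos : (0 : ℝ) < ((C0 + C2 + 4 : ℕ) : ℝ) := by positivity
  have hSC : ((C0 + C2 + 4 : ℕ) : ℝ) ≤ S := by
    refine le_trans ?_ hS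
    have h1 : ((C0 + C2 + 4 : ℕ) : ℝ) * 1 ≤ ((C0 + C2 + 4 : ℕ) : ℝ) * (1 + φ) := by
      gcongr
      linarith
    linarith
  have hS0 : C0 ≤ S := by
    have h1 : C0 + C2 + 4 ≤ S := by exact_mod_cast hSC
    omega
  have hC1 : ZI.C5.C1 (wf m φ h) ≤ c1 * (1 + φ) := by
    have h1 : ZI.C5.C1 (wf m φ h) = (m.Gp + φ) * Real.exp 1 + m.Gp * φ / m.Gm := rfl
    rw [h1, hc1]
    have h2 : (m.Gp * Real.exp 1 + Real.exp 1 + m.Gp / m.Gm) * (1 + φ) -
        ((m.Gp + φ) * Real.exp 1 + m.Gp * φ / m.Gm) =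
        m.Gp * Real.exp 1 * φ + Real.exp 1 + m.Gp / m.Gm := by ring
    have h3 : 0 ≤ m.Gp * Real.exp 1 * φ + Real.exp 1 + m.Gp / m.Gm := by positivity
    linarith
  have hU8 : ZI.C5.C1 (wf m φ h) * U ≤ (S : ℝ) / 8 := by
    have h1 : ZI.C5.C1 (wf m φ h) * U ≤ c1 * (1 + φ) * U := by gcongr
    have h2 : 8 * c1 * ((1 + φ) * U) ≤ ((C0 + C2 + 4 : ℕ) : ℝ) * ((1 + φ) * U) := by
      gcongr
      push_cast
      have h3 : (0 : ℝ) ≤ C0 := Nat.cast_nonneg _
      linarith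
    have h3 : ((C0 + C2 + 4 : ℕ) : ℝ) * ((1 + φ) * U) ≤ S := by
      rw [← mul_assoc]
      exact hU
    have h4 : c1 * (1 + φ) * U = c1 * ((1 + φ) * U) := by ring
    rw [h4] at h1
    linarith
  calc (4 * S + 1 : ℝ) ^ d * Real.exp (ZI.C5.C1 (wf m φ h) * U - S / 2)
      ≤ Real.exp (S / 8) * Real.exp (S / 8 - S / 2) := by
        gcongr
        exact hpoly S hS0
    _ = Real.exp (-(S : ℝ) / 4) := by
        rw [← Real.exp_add]
        congr 1
        ring
    _ ≤ Real.exp (-(S : ℝ) / ((C0 + C2 + 4 : ℕ) : ℝ)) := by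
        apply Real.exp_le_exp.2
        rw [neg_div, neg_div, neg_le_neg_iff]
        gcongr
        push_cast
        have h3 : (0 : ℝ) ≤ C0 := Nat.cast_nonneg _
        have h4 : (0 : ℝ) ≤ C2 := Nat.cast_nonneg _
        linarith

/-- FA: the fast event -/
theorem fast_prob (m : Model) (d : ℕ) (hd : 0 < d) (φhi : ℝ) : ∃ C : ℕ, 1 ≤ C ∧ ∀ (φ : ℝ) (h : 0 < φ),
    φ ≤ φhi → ∀ (δ : ℝ) (q : Par d (wf m φ h) δ) (S U : ℕ), C * U ≤ S → C ≤ S → 20 * S + 10 ≤ q.M →
    q.PP (U * q.N1) (Fast q.N1 S U) ≤ ENNReal.ofReal (Real.exp (-(S : ℝ) / C)) := by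
  obtain ⟨C, hC, hu⟩ := fast_prob_u m d hd
  obtain ⟨B, hB⟩ := exists_nat_ge (1 + φhi)
  refine ⟨C * (B + 1), by nlinarith, fun φ h hφ δ q S U hU hS hM => ?_⟩
  have hCp : (0 : ℝ) < C := by exact_mod_cast hC
  have hB' : 1 + φ ≤ ((B + 1 : ℕ) : ℝ) := by
    push_cast
    linarith
  have hS' : (C : ℝ) * ((B + 1 : ℕ) : ℝ) ≤ S := by exact_mod_cast hS
  have hU' : (C : ℝ) * ((B + 1 : ℕ) : ℝ) * U ≤ S := by exact_mod_cast hU
  refine (hu φ h δ q S U ?_ ?_ hM).trans (ENNReal.ofReal_le_ofReal (Real.exp_le_exp.2 ?_))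
  · refine le_trans ?_ hU'
    gcongr
  · refine le_trans ?_ hS'
    gcongr
  · rw [neg_div, neg_div, neg_le_neg_iff]
    have h1 : (C : ℝ) ≤ ((C * (B + 1) : ℕ) : ℝ) := by
      push_cast
      have h2 : (0 : ℝ) ≤ C * B := by positivity
      linarith
    gcongr

end ZP.Rows
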