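import Pool.Agent.ZP.Gap
import Pool.Agent.ZP.Core

/-! # Row GU: the gap of two fugacities, constant polynomial in the fugacity

Improves `ZPD.theta` and `ZPD.gap` (where the constant is exponentially small): all pairs `(j + 1, j)` are kept in the
symmetric sum. -/

set_option autoImplicit false

open scoped ENNReal BigOperators Classical

noncomputable section

namespace ZPD

namespace GU

open ZI ZI.Rows ZI.R2aux ZP

variable (m : Model)

theorem g_lb (k : ℕ) : m.Gm * k ≤ m.g k := by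
  induction k with
  | zero => simp [m.g0]
  | succ k ih =>
    have := m.inc_lb k
    push_cast
    linarith

theorem g_ub (k : ℕ) : m.g k ≤ m.Gp * k := by
  induction k with
  | zero => simp [m.g0]
  | succ k ih =>
    have := m.inc_ub k
    push_cast
    linarith

/-- at least half of the mass is on `k ≤ k0` if `2 φ ≤ g k0` -/
theorem mass (K : ℕ) (hK : 2 ≤ K) (hb : 2 * m.φ ≤ m.g K) (k0 : ℕ)
    (hk0 : 2 * m.φ ≤ m.g k0) :
    ∑' j, m.wt K j ≤ 2 * ∑ j ∈ Finset.range (k0 + 1), m.wt K j := by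
  have hs := summable_wt m K hK hb
  have hp := wt_pos m K hK
  have hstep : ∀ k, k0 ≤ k → m.wt K (k + 1) ≤ m.wt K k * (1 / 2) := by
    intro k hk
    have h1 := wt_succ m K hK k
    have h2 : 2 * m.φ ≤ m.gK K (k + 1) := by
      unfold Model.gK
      rcases le_total (k + 1) K with h4 | h4
      · rw [min_eq_left h4]
        have := g_mono m (show k0 ≤ k + 1 by omega)
        linarith
      · rw [min_eq_right h4]
        linarith
    have h3 : m.wt K (k + 1) * (2 * m.φ) ≤ m.φ * m.wt K k := by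
      rw [← h1]
      exact mul_le_mul_of_nonneg_left h2 (hp _).le
    have h4 := m.φ_pos
    have h5 : m.φ * (m.wt K (k + 1) * 2) ≤ m.φ * m.wt K k := by linarith
    have h6 := le_of_mul_le_mul_left h5 h4
    linarith
  have hgeo : ∀ j, m.wt K (j + (k0 + 1)) ≤ m.wt K k0 * (1 / 2) * (1 / 2) ^ j := by
    intro j
    induction j with
    | zero =>
      rw [zero_add, pow_zero, mul_one]
      exact hstep k0 le_rfl
    | succ j ih =>
      have h1 := hstep (j + (k0 + 1)) (by omega)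
      have h2 : j + 1 + (k0 + 1) = j + (k0 + 1) + 1 := by ring
      rw [h2, pow_succ]
      linarith
  have htail : ∑' j, m.wt K (j + (k0 + 1)) ≤ m.wt K k0 := by
    have h1 : Summable (fun j : ℕ => m.wt K k0 * (1 / 2) * (1 / 2 : ℝ) ^ j) :=
      (summable_geometric_of_lt_one (by norm_num) (by norm_num)).mul_left _
    have h2 : Summable (fun j : ℕ => m.wt K (j + (k0 + 1))) := (summable_nat_add_iff (k0 + 1)).2 hs
    refine (h2.tsum_le_tsum hgeo h1).trans ?_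
    rw [tsum_mul_left, tsum_geometric_of_lt_one (by norm_num) (by norm_num)]
    linarith
  have h1 := hs.sum_add_tsum_nat_add (k0 + 1)
  have h2 : m.wt K k0 ≤ ∑ j ∈ Finset.range (k0 + 1), m.wt K j :=
    Finset.single_le_sum (f := fun j => m.wt K j) (fun j _ => (hp j).le)
      (Finset.mem_range.2 (Nat.lt_succ_self k0))
  linarith

/-- the overlap of two fugacities, real numbers -/
theorem overlap (K : ℕ) (hK : 2 ≤ K) (a b : ℝ) (f : ℝ) (hf : 0 < f)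
    (hbf : 2 * f ≤ m.g K) (k0 : ℕ) (hk0 : 2 * f ≤ m.g k0) (Z1 Z2 : ℝ)
    (hZ1 : 0 < Z1) (hZ2 : 0 < Z2) :
    2 * ((b - a) ^ 2 / (8 * m.Gp * (k0 + 1) ^ 2)) * ((∑' j, (wf m f hf).wt K j) ^ 2 / (Z1 * Z2)) ≤
      ∑ j ∈ Finset.range (k0 + 1), (b - a) ^ 2 * (f ^ j / ∏ i ∈ Finset.range j, m.gK K (i + 1)) *
        (f ^ j / ∏ i ∈ Finset.range (j + 1), m.gK K (i + 1)) / (Z1 * Z2) := by
  have hGp : 0 < m.Gp := by have := m.le_Gp; linarith
  set Z := ∑' j, (wf m f hf).wt K j with hZ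
  have hm := mass (wf m f hf) K hK hbf k0 hk0
  have hwp := wt_pos (wf m f hf) K hK
  have hZp : 0 < Z := tsum_wt_pos (wf m f hf) K hK hbf
  set N : ℕ := k0 + 1 with hN
  have hNr : (N : ℝ) = k0 + 1 := by rw [hN]; push_cast; ring
  have hNp : (0 : ℝ) < N := by rw [hNr]; positivity
  have hw : ∀ j, (wf m f hf).wt K j = f ^ j / ∏ i ∈ Finset.range j, m.gK K (i + 1) := fun j => rfl
  -- the sum of the squares
  have hcs : (∑ j ∈ Finset.range N, (wf m f hf).wt K j) ^ 2 ≤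
      N * ∑ j ∈ Finset.range N, (wf m f hf).wt K j ^ 2 := by
    have := sq_sum_le_card_mul_sum_sq (s := Finset.range N) (f := fun j => (wf m f hf).wt K j)
    rwa [Finset.card_range] at this
  have hsq : Z ^ 2 / (4 * N) ≤ ∑ j ∈ Finset.range N, (wf m f hf).wt K j ^ 2 := by
    rw [div_le_iff₀ (by positivity)]
    have h1 : Z ^ 2 ≤ (2 * ∑ j ∈ Finset.range N, (wf m f hf).wt K j) ^ 2 :=
      pow_le_pow_left₀ hZp.le hm 2
    nlinarith
  -- term by term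
  have hterm : ∀ j ∈ Finset.range N, (b - a) ^ 2 / (Z1 * Z2) * (1 / (m.Gp * N)) *
      (wf m f hf).wt K j ^ 2 ≤
      (b - a) ^ 2 * (f ^ j / ∏ i ∈ Finset.range j, m.gK K (i + 1)) *
        (f ^ j / ∏ i ∈ Finset.range (j + 1), m.gK K (i + 1)) / (Z1 * Z2) := by
    intro j hj
    have hjN : j + 1 ≤ N := Finset.mem_range.1 hj
    have hgK : m.gK K (j + 1) ≤ m.Gp * N := by
      unfold Model.gK
      have h1 := g_ub m (min (j + 1) K)
      have h2 : ((min (j + 1) K : ℕ) : ℝ) ≤ N := by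
        exact_mod_cast (min_le_left _ _).trans hjN
      have h3 := mul_le_mul_of_nonneg_left h2 hGp.le
      linarith
    have hgp : 0 < m.gK K (j + 1) := gK_pos m K hK j
    have hprod : 0 < ∏ i ∈ Finset.range j, m.gK K (i + 1) :=
      Finset.prod_pos fun i _ => gK_pos m K hK i
    have e1 : (b - a) ^ 2 * (f ^ j / ∏ i ∈ Finset.range j, m.gK K (i + 1)) *
        (f ^ j / ∏ i ∈ Finset.range (j + 1), m.gK K (i + 1)) / (Z1 * Z2) =
        (b - a) ^ 2 / (Z1 * Z2) * (1 / m.gK K (j + 1)) * (wf m f hf).wt K j ^ 2 := by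
      rw [hw, Finset.prod_range_succ]
      field_simp
    rw [e1]
    have h1 : 1 / (m.Gp * N) ≤ 1 / m.gK K (j + 1) := one_div_le_one_div_of_le hgp hgK
    have h2 : 0 ≤ (b - a) ^ 2 / (Z1 * Z2) := by positivity
    exact mul_le_mul_of_nonneg_right (mul_le_mul_of_nonneg_left h1 h2) (sq_nonneg _)
  refine le_trans ?_ (Finset.sum_le_sum hterm)
  rw [← Finset.mul_sum]
  have h2 : 0 ≤ (b - a) ^ 2 / (Z1 * Z2) * (1 / (m.Gp * N)) := by positivity
  refine le_trans (le_of_eq ?_) (mul_le_mul_of_nonneg_left hsq h2)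
  rw [← hNr]
  field_simp
  ring

/-- the tilted moments -/
theorem theta (Φ φ1 φ2 : ℝ) (h1 : 0 < φ1) (h2 : 0 < φ2) (hle : φ2 ≤ Φ) (hlt : φ1 < φ2) (K : ℕ)
    (hK : 2 ≤ K) (hb : 2 * Φ ≤ m.g K) (k0 : ℕ) (hk0 : 2 * Φ ≤ m.g k0) :
    ∃ X : ℝ, 0 ≤ X ∧ (∑' k, (wf m φ2 h2).m1 K k * ENNReal.ofReal (Real.sqrt φ1 / Real.sqrt φ2) ^ k) *
      (∑' k, (wf m φ1 h1).m1 K k * ENNReal.ofReal (Real.sqrt φ2 / Real.sqrt φ1) ^ k) =
        ENNReal.ofReal X ∧
      X * (1 + (φ2 - φ1) ^ 2 / (32 * Φ * m.Gp * (k0 + 1) ^ 2)) ≤ 1 := by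
  have hΦ : 0 < Φ := lt_of_lt_of_le h2 hle
  have hGp : 0 < m.Gp := by have := m.le_Gp; linarith
  set a := Real.sqrt φ1 with ha
  set b := Real.sqrt φ2 with hb'
  have hap : 0 < a := Real.sqrt_pos.2 h1
  have hbp : 0 < b := Real.sqrt_pos.2 h2
  have ha2 : a ^ 2 = φ1 := Real.sq_sqrt h1.le
  have hb2 : b ^ 2 = φ2 := Real.sq_sqrt h2.le
  have hab : a ≤ b := Real.sqrt_le_sqrt hlt.le
  have hle1 : φ1 ≤ Φ := by linarith
  have hf : 0 < a * b := mul_pos hap hbp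
  have hfle : a * b ≤ Φ := by nlinarith
  have hb1' : 2 * (wf m φ1 h1).φ ≤ (wf m φ1 h1).g K := by show 2 * φ1 ≤ m.g K; linarith
  have hb2' : 2 * (wf m φ2 h2).φ ≤ (wf m φ2 h2).g K := by show 2 * φ2 ≤ m.g K; linarith
  have hbf' : 2 * (wf m (a * b) hf).φ ≤ (wf m (a * b) hf).g K := by
    show 2 * (a * b) ≤ m.g K; linarith
  set Z1 := ∑' j, (wf m φ1 h1).wt K j with hZ1
  set Z2 := ∑' j, (wf m φ2 h2).wt K j with hZ2
  set Z := ∑' j, (wf m (a * b) hf).wt K j with hZ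
  have hZ1p : 0 < Z1 := tsum_wt_pos (wf m φ1 h1) K hK hb1'
  have hZ2p : 0 < Z2 := tsum_wt_pos (wf m φ2 h2) K hK hb2'
  have hZp : 0 < Z := tsum_wt_pos (wf m (a * b) hf) K hK hbf'
  have hsf : Summable ((wf m (a * b) hf).wt K) := summable_wt (wf m (a * b) hf) K hK hbf'
  set W : ℕ → ℝ := fun k => ∏ i ∈ Finset.range k, m.gK K (i + 1) with hW
  have hWp : ∀ k, 0 < W k := fun k => Finset.prod_pos fun i _ => gK_pos m K hK i
  have hw1 : ∀ k, (wf m φ1 h1).wt K k = φ1 ^ k / W k := fun k => rfl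
  have hw2 : ∀ k, (wf m φ2 h2).wt K k = φ2 ^ k / W k := fun k => rfl
  have hwf : ∀ k, (wf m (a * b) hf).wt K k = (a * b) ^ k / W k := fun k => rfl
  have hwtf := wt_pos (wf m (a * b) hf) K hK
  -- the two factors
  have t2 : ∀ k, φ2 ^ k / W k / Z2 * (a / b) ^ k = (a * b) ^ k / W k / Z2 := by
    intro k
    rw [← hb2, div_pow, mul_pow]
    have : b ^ k ≠ 0 := by positivity
    have := (hWp k).ne'
    field_simp
    ring
  have t1 : ∀ k, φ1 ^ k / W k / Z1 * (b / a) ^ k = (a * b) ^ k / W k / Z1 := by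
    intro k
    rw [← ha2, div_pow, mul_pow]
    have : a ^ k ≠ 0 := by positivity
    have := (hWp k).ne'
    field_simp
    ring
  set T1 := ∑' k, (wf m φ2 h2).m1 K k * ENNReal.ofReal (a / b) ^ k with hT1
  set T2 := ∑' k, (wf m φ1 h1).m1 K k * ENNReal.ofReal (b / a) ^ k with hT2
  have q1 : (0 : ℝ) ≤ a / b := by positivity
  have q2 : (0 : ℝ) ≤ b / a := by positivity
  have hwt1 := wt_pos (wf m φ1 h1) K hK
  have hwt2 := wt_pos (wf m φ2 h2) K hK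
  have p1 : ∀ i, 0 ≤ (wf m φ1 h1).wt K i / Z1 := fun i => div_nonneg (hwt1 i).le hZ1p.le
  have p2 : ∀ i, 0 ≤ (wf m φ2 h2).wt K i / Z2 := fun i => div_nonneg (hwt2 i).le hZ2p.le
  have e5 : ∀ i, (wf m φ2 h2).m1 K i = ENNReal.ofReal ((wf m φ2 h2).wt K i / Z2) := fun i => rfl
  have e6 : ∀ i, (wf m φ1 h1).m1 K i = ENNReal.ofReal ((wf m φ1 h1).wt K i / Z1) := fun i => rfl
  have u1 : ∀ k, (wf m φ2 h2).m1 K k * ENNReal.ofReal (a / b) ^ k =
      ENNReal.ofReal ((wf m (a * b) hf).wt K k / Z2) := by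
    intro k
    rw [e5, ← ENNReal.ofReal_pow q1, ← ENNReal.ofReal_mul (p2 k), hw2, t2, hwf]
  have u2 : ∀ k, (wf m φ1 h1).m1 K k * ENNReal.ofReal (b / a) ^ k =
      ENNReal.ofReal ((wf m (a * b) hf).wt K k / Z1) := by
    intro k
    rw [e6, ← ENNReal.ofReal_pow q2, ← ENNReal.ofReal_mul (p1 k), hw1, t1, hwf]
  have v1 : T1 = ENNReal.ofReal (Z / Z2) := by
    rw [hT1, tsum_congr u1, ← ENNReal.ofReal_tsum_of_nonneg
      (fun k => div_nonneg (hwtf k).le hZ2p.le) (hsf.div_const _), tsum_div_const]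
  have v2 : T2 = ENNReal.ofReal (Z / Z1) := by
    rw [hT2, tsum_congr u2, ← ENNReal.ofReal_tsum_of_nonneg
      (fun k => div_nonneg (hwtf k).le hZ1p.le) (hsf.div_const _), tsum_div_const]
  set X : ℝ := Z ^ 2 / (Z1 * Z2) with hX
  have hXp : 0 ≤ X := by positivity
  have hTX : T1 * T2 = ENNReal.ofReal X := by
    rw [v1, v2, ← ENNReal.ofReal_mul (by positivity)]
    congr 1
    rw [hX]
    field_simp
  refine ⟨X, hXp, hTX, ?_⟩
  -- the excess terms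
  set N : ℕ := k0 + 1 with hN
  set D : ℕ → ℝ := fun j => (b - a) ^ 2 * ((a * b) ^ j / W j) * ((a * b) ^ j / W (j + 1)) /
    (Z1 * Z2) with hD
  have hDp : ∀ j, 0 ≤ D j := by
    intro j
    have := hWp j
    have := hWp (j + 1)
    simp only [hD]
    positivity
  -- the real inequality
  have key : ∀ k j : ℕ, 2 * (((wf m (a * b) hf).wt K k / Z2) * ((wf m (a * b) hf).wt K j / Z1)) +
      (if k = j + 1 ∧ j < N then D j else 0) ≤
      ((wf m φ2 h2).wt K k / Z2) * ((wf m φ1 h1).wt K j / Z1) +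
      ((wf m φ2 h2).wt K j / Z2) * ((wf m φ1 h1).wt K k / Z1) := by
    intro k j
    rw [hw1, hw2, hw1, hw2, hwf, hwf]
    have hWk := hWp k
    have hWj := hWp j
    have e3 : (a * b) ^ k / W k / Z2 * ((a * b) ^ j / W j / Z1) =
        ((b ^ k * a ^ j) * (b ^ j * a ^ k)) / (W k * W j * Z1 * Z2) := by
      rw [mul_pow, mul_pow]
      field_simp
    have e4 : φ2 ^ k / W k / Z2 * (φ1 ^ j / W j / Z1) + φ2 ^ j / W j / Z2 * (φ1 ^ k / W k / Z1) =
        ((b ^ k * a ^ j) ^ 2 + (b ^ j * a ^ k) ^ 2) / (W k * W j * Z1 * Z2) := by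
      rw [← ha2, ← hb2]
      field_simp
      ring
    rw [e3, e4]
    by_cases hkj : k = j + 1 ∧ j < N
    · rw [if_pos hkj]
      obtain ⟨rfl, _⟩ := hkj
      have e7 : D j = (b ^ (j + 1) * a ^ j - b ^ j * a ^ (j + 1)) ^ 2 /
          (W (j + 1) * W j * Z1 * Z2) := by
        simp only [hD]
        rw [pow_succ, pow_succ, mul_pow]
        field_simp
        ring
      rw [e7, mul_div_assoc', ← add_div]
      refine div_le_div_of_nonneg_right ?_ (by positivity)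
      nlinarith
    · rw [if_neg hkj, add_zero, mul_div_assoc']
      refine div_le_div_of_nonneg_right ?_ (by positivity)
      nlinarith [sq_nonneg (b ^ k * a ^ j - b ^ j * a ^ k)]
  -- the sums
  have hs1 : ∑' k, (wf m φ1 h1).m1 K k = 1 := tsum_m1 (wf m φ1 h1) K hK hb1'
  have hs2 : ∑' k, (wf m φ2 h2).m1 K k = 1 := tsum_m1 (wf m φ2 h2) K hK hb2'
  have hsum : 2 * (T1 * T2) + ENNReal.ofReal (∑ j ∈ Finset.range N, D j) ≤ 2 := by
    have e1 : T1 * T2 = ∑' k, ∑' j, ENNReal.ofReal ((wf m (a * b) hf).wt K k / Z2) *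
        ENNReal.ofReal ((wf m (a * b) hf).wt K j / Z1) := by
      rw [hT1, tsum_congr u1, ← ENNReal.tsum_mul_right]
      refine tsum_congr fun k => ?_
      rw [hT2, tsum_congr u2, ENNReal.tsum_mul_left]
    have e2 : ENNReal.ofReal (∑ j ∈ Finset.range N, D j) =
        ∑' k : ℕ, ∑' j : ℕ, (if k = j + 1 ∧ j < N then ENNReal.ofReal (D j) else 0) := by
      rw [ENNReal.tsum_comm]
      have e9 : ∀ j : ℕ, ∑' k : ℕ, (if k = j + 1 ∧ j < N then ENNReal.ofReal (D j) else 0) =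
          if j ∈ Finset.range N then ENNReal.ofReal (D j) else 0 := by
        intro j
        rw [tsum_eq_single (j + 1)]
        · by_cases hj : j < N
          · rw [if_pos ⟨rfl, hj⟩, if_pos (Finset.mem_range.2 hj)]
          · rw [if_neg (fun h => hj h.2), if_neg (fun h => hj (Finset.mem_range.1 h))]
        · intro k hk
          rw [if_neg (fun h => hk h.1)]
      rw [tsum_congr e9, ENNReal.ofReal_sum_of_nonneg (fun j _ => hDp j)]
      rw [tsum_eq_sum (s := Finset.range N)]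
      · exact Finset.sum_congr rfl fun j hj => (if_pos hj).symm
      · intro j hj
        exact if_neg hj
    have e3 : (2 : ℝ≥0∞) = ∑' k, ∑' j, ((wf m φ2 h2).m1 K k * (wf m φ1 h1).m1 K j +
        (wf m φ2 h2).m1 K j * (wf m φ1 h1).m1 K k) := by
      have e4 : ∀ k, ∑' j, ((wf m φ2 h2).m1 K k * (wf m φ1 h1).m1 K j +
          (wf m φ2 h2).m1 K j * (wf m φ1 h1).m1 K k) =
          (wf m φ2 h2).m1 K k + (wf m φ1 h1).m1 K k := by
        intro k
        rw [ENNReal.tsum_add, ENNReal.tsum_mul_left, hs1, mul_one, ENNReal.tsum_mul_right, hs2,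
          one_mul]
      rw [tsum_congr e4, ENNReal.tsum_add, hs1, hs2]
      norm_num
    rw [e1, e2]
    conv_rhs => rw [e3]
    rw [← ENNReal.tsum_mul_left, ← ENNReal.tsum_add]
    refine ENNReal.tsum_le_tsum fun k => ?_
    rw [← ENNReal.tsum_mul_left, ← ENNReal.tsum_add]
    refine ENNReal.tsum_le_tsum fun j => ?_
    rw [e5, e5, e6, e6]
    have r1 : 0 ≤ (wf m (a * b) hf).wt K k / Z2 := div_nonneg (hwtf k).le hZ2p.le
    have r2 : 0 ≤ (wf m (a * b) hf).wt K j / Z1 := div_nonneg (hwtf j).le hZ1p.le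
    rw [← ENNReal.ofReal_mul r1, ← ENNReal.ofReal_mul (p2 k), ← ENNReal.ofReal_mul (p2 j),
      ← ENNReal.ofReal_add (mul_nonneg (p2 k) (p1 j)) (mul_nonneg (p2 j) (p1 k))]
    have e7 : (if k = j + 1 ∧ j < N then ENNReal.ofReal (D j) else 0) =
        ENNReal.ofReal (if k = j + 1 ∧ j < N then D j else 0) := by
      split_ifs <;> simp
    rw [e7]
    have e8 : (2 : ℝ≥0∞) = ENNReal.ofReal 2 := by simp
    rw [e8, ← ENNReal.ofReal_mul (by norm_num), ← ENNReal.ofReal_add]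
    · exact ENNReal.ofReal_le_ofReal (key k j)
    · positivity
    · split_ifs
      · exact hDp j
      · exact le_rfl
  have hDs : 0 ≤ ∑ j ∈ Finset.range N, D j := Finset.sum_nonneg fun j _ => hDp j
  have hreal : 2 * X + ∑ j ∈ Finset.range N, D j ≤ 2 := by
    rw [hTX] at hsum
    have e8 : (2 : ℝ≥0∞) = ENNReal.ofReal 2 := by simp
    rw [e8, ← ENNReal.ofReal_mul (by norm_num), ← ENNReal.ofReal_add (by positivity) hDs,
      ENNReal.ofReal_le_ofReal_iff (by norm_num)] at hsum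
    exact hsum
  have hov := overlap m K hK a b (a * b) hf (by linarith) k0 (by linarith) Z1 Z2 hZ1p hZ2p
  have hov' : 2 * ((b - a) ^ 2 / (8 * m.Gp * (k0 + 1) ^ 2)) * X ≤ ∑ j ∈ Finset.range N, D j := hov
  -- from `b - a` to `φ2 - φ1`
  have e2 : (φ2 - φ1) ^ 2 / (4 * Φ) ≤ (b - a) ^ 2 := by
    rw [div_le_iff₀ (by positivity)]
    have e3 : (φ2 - φ1) ^ 2 = (b - a) ^ 2 * (b + a) ^ 2 := by
      rw [← ha2, ← hb2]
      ring
    rw [e3]
    refine mul_le_mul_of_nonneg_left ?_ (sq_nonneg _)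
    nlinarith
  have e9 : (φ2 - φ1) ^ 2 / (32 * Φ * m.Gp * (k0 + 1) ^ 2) ≤
      (b - a) ^ 2 / (8 * m.Gp * (k0 + 1) ^ 2) := by
    have e10 : (φ2 - φ1) ^ 2 / (32 * Φ * m.Gp * (k0 + 1) ^ 2) =
        (φ2 - φ1) ^ 2 / (4 * Φ) / (8 * m.Gp * (k0 + 1) ^ 2) := by
      field_simp
      ring
    rw [e10]
    exact div_le_div_of_nonneg_right e2 (by positivity)
  have e11 := mul_le_mul_of_nonneg_right e9 hXp
  nlinarith

/-- the gap, from the bound for the product of the tilted moments -/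
theorem gap_of (φ1 φ2 : ℝ) (h1 : 0 < φ1) (h2 : 0 < φ2) (hlt : φ1 < φ2) (K : ℕ) (hK : 2 ≤ K)
    (hb2 : 2 * φ2 ≤ m.g K) (y : ℝ) (hy0 : 0 ≤ y) (hc1 : y ≤ 1)
    (hT : (∑' k, (wf m φ2 h2).m1 K k * ENNReal.ofReal (Real.sqrt φ1 / Real.sqrt φ2) ^ k) *
      (∑' k, (wf m φ1 h1).m1 K k * ENNReal.ofReal (Real.sqrt φ2 / Real.sqrt φ1) ^ k) ≤
        ENNReal.ofReal (1 - y)) (V : Type) [Fintype V] (S : Finset V) :
    ∃ A B : (V → ℕ) → Prop,
      (∀ η ζ : V → ℕ, ∑ x ∈ S, η x ≤ ∑ x ∈ S, ζ x → A η ∨ B ζ) ∧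
      (∑' η : V → ℕ, prw ((wf m φ2 h2).m1 K) η * (if A η then 1 else 0) ≤
        ENNReal.ofReal (Real.exp (- (y / 2 * S.card)))) ∧
      (∑' ζ : V → ℕ, prw ((wf m φ1 h1).m1 K) ζ * (if B ζ then 1 else 0) ≤
        ENNReal.ofReal (Real.exp (- (y / 2 * S.card)))) := by
  have hs1 : ∑' k, (wf m φ1 h1).m1 K k = 1 :=
    tsum_m1 (wf m φ1 h1) K hK (by show 2 * φ1 ≤ m.g K; linarith)
  have hs2 : ∑' k, (wf m φ2 h2).m1 K k = 1 :=
    tsum_m1 (wf m φ2 h2) K hK (by show 2 * φ2 ≤ m.g K; linarith)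
  have hap : 0 < Real.sqrt φ1 := Real.sqrt_pos.2 h1
  have hbp : 0 < Real.sqrt φ2 := Real.sqrt_pos.2 h2
  have hab : Real.sqrt φ1 ≤ Real.sqrt φ2 := Real.sqrt_le_sqrt hlt.le
  set t : ℝ≥0∞ := ENNReal.ofReal (Real.sqrt φ1 / Real.sqrt φ2) with ht
  set s : ℝ≥0∞ := ENNReal.ofReal (Real.sqrt φ2 / Real.sqrt φ1) with hs
  have hts : s * t = 1 := by
    rw [hs, ht, ← ENNReal.ofReal_mul (by positivity)]
    have : Real.sqrt φ2 / Real.sqrt φ1 * (Real.sqrt φ1 / Real.sqrt φ2) = 1 := by field_simp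
    rw [this, ENNReal.ofReal_one]
  have hs_one : 1 ≤ s := by
    rw [hs, ENNReal.one_le_ofReal]
    rw [le_div_iff₀ hap, one_mul]
    exact hab
  set T1 := ∑' k, (wf m φ2 h2).m1 K k * t ^ k with hT1
  set T2 := ∑' k, (wf m φ1 h1).m1 K k * s ^ k with hT2
  set θ : ℝ≥0∞ := ENNReal.ofReal (1 - y / 2) with hθ'
  have hθp : 0 < 1 - y / 2 := by linarith
  have hθ0 : θ ≠ 0 := by
    rw [hθ', ENNReal.ofReal_ne_zero_iff]
    exact hθp
  have hθt : θ ≠ ⊤ := ENNReal.ofReal_ne_top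
  have hθ2 : ENNReal.ofReal (1 - y) ≤ θ * θ := by
    rw [hθ', ← ENNReal.ofReal_mul hθp.le]
    refine ENNReal.ofReal_le_ofReal ?_
    nlinarith
  have hθe : ∀ n : ℕ, θ ^ n ≤ ENNReal.ofReal (Real.exp (- (y / 2 * n))) := by
    intro n
    rw [hθ', ← ENNReal.ofReal_pow hθp.le]
    refine ENNReal.ofReal_le_ofReal ?_
    have e1 : 1 - y / 2 ≤ Real.exp (-(y / 2)) := by
      have := Real.add_one_le_exp (-(y / 2))
      linarith
    calc (1 - y / 2) ^ n ≤ (Real.exp (-(y / 2))) ^ n := pow_le_pow_left₀ hθp.le e1 n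
      _ = Real.exp (- (y / 2 * n)) := by
          rw [← Real.exp_nat_mul]
          congr 1
          ring
  -- `T1`, `T2` are positive and finite
  have hT2one : 1 ≤ T2 := by
    rw [← hs1, hT2]
    refine ENNReal.tsum_le_tsum fun k => ?_
    exact le_mul_of_one_le_right zero_le (one_le_pow₀ hs_one)
  have hT20 : T2 ≠ 0 := (lt_of_lt_of_le zero_lt_one hT2one).ne'
  have hT10 : T1 ≠ 0 := by
    have e1 : (wf m φ2 h2).m1 K 0 * t ^ 0 ≤ T1 :=
      ENNReal.le_tsum (f := fun k => (wf m φ2 h2).m1 K k * t ^ k) 0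
    rw [pow_zero, mul_one] at e1
    have e2 : (wf m φ2 h2).m1 K 0 ≠ 0 := by
      unfold Model.m1
      rw [ENNReal.ofReal_ne_zero_iff]
      exact div_pos (wt_pos (wf m φ2 h2) K hK 0)
        (tsum_wt_pos (wf m φ2 h2) K hK (by show 2 * φ2 ≤ m.g K; linarith))
    intro h
    rw [h] at e1
    exact e2 (le_antisymm e1 zero_le)
  have hTT : T1 * T2 ≠ ⊤ := ne_top_of_le_ne_top ENNReal.ofReal_ne_top hT
  have hT2t : T2 ≠ ⊤ := by
    intro h
    rw [h, ENNReal.mul_top hT10] at hTT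
    exact hTT rfl
  set n := S.card with hn
  set u : ℝ≥0∞ := (T2 / θ) ^ n with hu
  have hu0 : u ≠ 0 := by
    rw [hu]
    refine pow_ne_zero n ?_
    exact (ENNReal.div_pos hT20 hθt).ne'
  have hut : u ≠ ⊤ := by
    rw [hu]
    exact ENNReal.pow_ne_top (ENNReal.div_ne_top hT2t hθ0)
  obtain ⟨A, hA⟩ : ∃ A : (V → ℕ) → Prop, ∀ η, A η ↔ s ^ (∑ x ∈ S, η x) ≤ u :=
    ⟨fun η => s ^ (∑ x ∈ S, η x) ≤ u, fun _ => Iff.rfl⟩
  obtain ⟨B, hB⟩ : ∃ B : (V → ℕ) → Prop, ∀ ζ, B ζ ↔ u ≤ s ^ (∑ x ∈ S, ζ x) :=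
    ⟨fun ζ => u ≤ s ^ (∑ x ∈ S, ζ x), fun _ => Iff.rfl⟩
  refine ⟨A, B, ?_, ?_, ?_⟩
  · intro η ζ hηζ
    rcases le_total (s ^ (∑ x ∈ S, η x)) u with h | h
    · exact Or.inl ((hA η).2 h)
    · exact Or.inr ((hB ζ).2 (h.trans (pow_le_pow_right₀ hs_one hηζ)))
  · have e1 : ∀ η : V → ℕ, prw ((wf m φ2 h2).m1 K) η *
        (if A η then (1 : ℝ≥0∞) else 0) ≤
        u * (prw ((wf m φ2 h2).m1 K) η * t ^ (∑ x ∈ S, η x)) := by
      intro η
      by_cases h' : A η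
      · have h := (hA η).1 h'
        rw [if_pos h', mul_one]
        have e2 : 1 ≤ u * t ^ (∑ x ∈ S, η x) := by
          calc (1 : ℝ≥0∞) = s ^ (∑ x ∈ S, η x) * t ^ (∑ x ∈ S, η x) := by
                rw [← mul_pow, hts, one_pow]
            _ ≤ u * t ^ (∑ x ∈ S, η x) := mul_le_mul_left h _
        calc prw ((wf m φ2 h2).m1 K) η = prw ((wf m φ2 h2).m1 K) η * 1 := (mul_one _).symm
          _ ≤ prw ((wf m φ2 h2).m1 K) η * (u * t ^ (∑ x ∈ S, η x)) := mul_le_mul_right e2 _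
          _ = _ := by ring
      · rw [if_neg h', mul_zero]
        exact zero_le
    refine (ENNReal.tsum_le_tsum e1).trans ?_
    rw [ENNReal.tsum_mul_left, prw_pow _ hs2 S t, ← hT1, ← hn, hu]
    refine le_trans ?_ (hθe n)
    rw [← mul_pow]
    refine pow_le_pow_left' ?_ n
    have e3 : T2 / θ * T1 = (T1 * T2) / θ := by
      rw [div_eq_mul_inv, div_eq_mul_inv]
      ring
    rw [e3, ENNReal.div_le_iff hθ0 hθt]
    exact hT.trans hθ2
  · have e1 : ∀ ζ : V → ℕ, prw ((wf m φ1 h1).m1 K) ζ *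
        (if B ζ then (1 : ℝ≥0∞) else 0) ≤
        u⁻¹ * (prw ((wf m φ1 h1).m1 K) ζ * s ^ (∑ x ∈ S, ζ x)) := by
      intro ζ
      by_cases h' : B ζ
      · have h := (hB ζ).1 h'
        rw [if_pos h', mul_one]
        have e2 : 1 ≤ u⁻¹ * s ^ (∑ x ∈ S, ζ x) := by
          calc (1 : ℝ≥0∞) = u⁻¹ * u := (ENNReal.inv_mul_cancel hu0 hut).symm
            _ ≤ u⁻¹ * s ^ (∑ x ∈ S, ζ x) := mul_le_mul_right h _
        calc prw ((wf m φ1 h1).m1 K) ζ = prw ((wf m φ1 h1).m1 K) ζ * 1 := (mul_one _).symm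
          _ ≤ prw ((wf m φ1 h1).m1 K) ζ * (u⁻¹ * s ^ (∑ x ∈ S, ζ x)) := mul_le_mul_right e2 _
          _ = _ := by ring
      · rw [if_neg h', mul_zero]
        exact zero_le
    refine (ENNReal.tsum_le_tsum e1).trans ?_
    rw [ENNReal.tsum_mul_left, prw_pow _ hs1 S s, ← hT2, ← hn, hu]
    refine le_trans (le_of_eq ?_) (hθe n)
    rw [ENNReal.inv_pow, ← mul_pow]
    congr 1
    rw [ENNReal.inv_div (Or.inl hθt) (Or.inl hθ0), ENNReal.div_mul_cancel hT20 hT2t]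

end GU

end ZPD

namespace ZP.Rows

open ZP ZPD

theorem gap_u (m : Model) : ∃ c : ℝ, 0 < c ∧ ∀ (Φ φ1 φ2 : ℝ) (h1 : 0 < φ1) (h2 : 0 < φ2), 1 ≤ φ1 →
    φ2 ≤ Φ → φ1 < φ2 → ∀ K : ℕ, 2 ≤ K → 2 * Φ ≤ m.g K →
    ∀ (V : Type) [Fintype V] (S : Finset V), ∃ A B : (V → ℕ) → Prop,
      (∀ η ζ : V → ℕ, ∑ x ∈ S, η x ≤ ∑ x ∈ S, ζ x → A η ∨ B ζ) ∧
      (∑' η : V → ℕ, prw ((wf m φ2 h2).m1 K) η * (if A η then 1 else 0) ≤
        ENNReal.ofReal (Real.exp (- (c / Φ ^ 4 * (φ2 - φ1) ^ 2 * S.card)))) ∧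
      (∑' ζ : V → ℕ, prw ((wf m φ1 h1).m1 K) ζ * (if B ζ then 1 else 0) ≤
        ENNReal.ofReal (Real.exp (- (c / Φ ^ 4 * (φ2 - φ1) ^ 2 * S.card)))) := by
  have hGp := m.le_Gp
  have hGm := m.Gm_pos
  set R : ℝ := 2 / m.Gm + 3 with hR
  have hRp : 3 ≤ R := by
    have : 0 < 2 / m.Gm := by positivity
    linarith
  refine ⟨1 / (256 * m.Gp * R ^ 2), by positivity, ?_⟩
  intro Φ φ1 φ2 h1 h2 h1' hle hlt K hK hb V _ S
  have hΦ : 1 ≤ Φ := by linarith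
  -- the level
  obtain ⟨k0, hk1, hk2⟩ : ∃ k0 : ℕ, 2 * Φ ≤ m.g k0 ∧ (k0 : ℝ) + 1 ≤ R * Φ := by
    refine ⟨⌈2 * Φ / m.Gm⌉₊, ?_, ?_⟩
    · have h3 := GU.g_lb m ⌈2 * Φ / m.Gm⌉₊
      have h4 := Nat.le_ceil (2 * Φ / m.Gm)
      rw [div_le_iff₀ hGm] at h4
      linarith
    · have h3 := Nat.ceil_lt_add_one (show 0 ≤ 2 * Φ / m.Gm by positivity)
      have h4 : R * Φ = 2 * Φ / m.Gm + 3 * Φ := by rw [hR]; ring
      rw [h4]
      linarith
  obtain ⟨X, hX0, hX, hX1⟩ := GU.theta m Φ φ1 φ2 h1 h2 hle hlt K hK hb k0 hk1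
  -- the rate
  set y' : ℝ := (φ2 - φ1) ^ 2 / (32 * Φ * m.Gp * (k0 + 1) ^ 2) with hy'
  set y : ℝ := 2 * (1 / (256 * m.Gp * R ^ 2) / Φ ^ 4 * (φ2 - φ1) ^ 2) with hy
  have hd0 : 0 ≤ (φ2 - φ1) ^ 2 := sq_nonneg _
  have hy0 : 0 ≤ y := by positivity
  have hy0' : 0 ≤ y' := by positivity
  have hyy : 2 * y ≤ y' := by
    have e1 : 2 * y = (φ2 - φ1) ^ 2 / (64 * m.Gp * R ^ 2 * Φ ^ 4) := by
      rw [hy]
      field_simp
      ring
    rw [e1, hy']
    refine div_le_div_of_nonneg_left hd0 (by positivity) ?_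
    have e2 : ((k0 : ℝ) + 1) ^ 2 ≤ (R * Φ) ^ 2 := pow_le_pow_left₀ (by positivity) hk2 2
    have e3 : Φ ^ 3 ≤ Φ ^ 4 := pow_le_pow_right₀ hΦ (by norm_num)
    calc 32 * Φ * m.Gp * ((k0 : ℝ) + 1) ^ 2 ≤ 32 * Φ * m.Gp * (R * Φ) ^ 2 :=
          mul_le_mul_of_nonneg_left e2 (by positivity)
      _ = 32 * m.Gp * R ^ 2 * Φ ^ 3 := by ring
      _ ≤ 32 * m.Gp * R ^ 2 * Φ ^ 4 := mul_le_mul_of_nonneg_left e3 (by positivity)
      _ ≤ 64 * m.Gp * R ^ 2 * Φ ^ 4 := by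
          have : 0 ≤ m.Gp * R ^ 2 * Φ ^ 4 := by positivity
          nlinarith
  have hy1 : y ≤ 1 / 2 := by
    have e1 : (φ2 - φ1) ^ 2 ≤ Φ ^ 2 := pow_le_pow_left₀ (by linarith) (by linarith) 2
    have e2 : Φ ^ 2 ≤ Φ ^ 4 := pow_le_pow_right₀ hΦ (by norm_num)
    have e3 : (φ2 - φ1) ^ 2 / Φ ^ 4 ≤ 1 := by
      rw [div_le_one (by positivity)]
      linarith
    have e4 : y = (1 / (128 * m.Gp * R ^ 2)) * ((φ2 - φ1) ^ 2 / Φ ^ 4) := by
      rw [hy]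
      field_simp
      ring
    have e5 : 1 / (128 * m.Gp * R ^ 2) ≤ 1 / 2 := by
      refine one_div_le_one_div_of_le (by norm_num) ?_
      have : 1 ≤ R ^ 2 := one_le_pow₀ (by linarith)
      nlinarith
    rw [e4]
    calc (1 / (128 * m.Gp * R ^ 2)) * ((φ2 - φ1) ^ 2 / Φ ^ 4) ≤ (1 / 2) * 1 :=
          mul_le_mul e5 e3 (by positivity) (by norm_num)
      _ = 1 / 2 := by ring
  have hXy : X ≤ 1 - y := by
    have e1 : y * (1 + y') ≤ y' := by nlinarith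
    have e2 : 1 ≤ (1 - y) * (1 + y') := by nlinarith
    have e3 : X * (1 + y') ≤ (1 - y) * (1 + y') := hX1.trans e2
    exact le_of_mul_le_mul_right e3 (by linarith)
  have hT := hX.le.trans (ENNReal.ofReal_le_ofReal hXy)
  obtain ⟨A, B, hAB, hA, hB⟩ := GU.gap_of m φ1 φ2 h1 h2 hlt K hK (by linarith) y hy0
    (by linarith) hT V S
  have hyc : y / 2 = 1 / (256 * m.Gp * R ^ 2) / Φ ^ 4 * (φ2 - φ1) ^ 2 := by
    rw [hy]
    ring
  rw [hyc] at hA hB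
  exact ⟨A, B, hAB, hA, hB⟩

end ZP.Rows
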