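import Pool.Agent.ZP.SUb
import Pool.Agent.ZP.GU

/-! # Row SU: sprinkled domination for large fugacities -/

set_option autoImplicit false

open scoped ENNReal BigOperators Classical

noncomputable section

namespace ZP.Rows

open ZP

/-- sprinkled domination, `l` at least polynomial in the fugacity -/
theorem sprinkle_u (m : Model) (d : ℕ) (hd : 0 < d) :
    ∃ Cs C0 : ℕ, ∀ (Φ : ℝ) (hΦ : 0 < Φ), 1 ≤ Φ → ∀ l : ℕ, C0 * Φ ^ C0 ≤ (l : ℝ) →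
    ∀ (φ1 φ2 : ℝ) (h1 : 0 < φ1) (h2 : 0 < φ2), 1 ≤ φ1 → φ2 ≤ Φ → φ1 < φ2 →
    1 ≤ (φ2 - φ1) ^ 8 * l → ∀ q : ZI.Par d (wf m Φ hΦ), l ^ 3 ≤ q.M → l ≤ q.K →
    ∀ (x : Tor d q.M) (u : ℕ), l ^ Cs ≤ u →
    ∑' η : Tor d q.M → ℕ, prw ((wf m φ2 h2).m1 q.K) η * ∑' ζ : Tor d q.M → ℕ,
      prw ((wf m φ1 h1).m1 q.K) ζ * PrE q.w ((u + 1) * q.N1) (fun w => ∃ i, u * q.N1 ≤ i ∧
        i ≤ (u + 1) * q.N1 ∧ (w.take i).foldl ZI.stepA η x < (w.take i).foldl ZI.stepA ζ x) ≤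
      ENNReal.ofReal (Real.exp (-Real.sqrt l)) :=
  ZPD.sprinkle_u_of m d hd (gap_u m)

end ZP.Rows
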