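import Pool.Agent.ZP.SI
import Pool.Agent.ZP.LU

/-! # Row SIU: events in distant balls, explicit dependence on the fugacity (the proof of SI over LU) -/

set_option autoImplicit false

open scoped ENNReal BigOperators Classical Pointwise

noncomputable section

namespace ZP.SI

open ZP ZP.Rows

/-- the proof of `spatial`, with the locality estimate as a hypothesis -/
theorem spatial_core {m : Model} {d : ℕ} (hd : 0 < d) {δ : ℝ} (q : Par d m δ) (n ρ D U : ℕ)
    (x : Fin n → Pos d) (E : Fin n → Ev d q.M q.K)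
    (hdis : ∀ i j, i ≠ j → Disjoint (Bt (tv (x i) : Tor d q.M) (ρ + D)) (Bt (tv (x j)) (ρ + D)))
    (hloc : ∀ i, LocE q.N1 (Bt (tv (x i)) ρ) 0 U (E i)) (ε : ℝ≥0∞)
    (hε1 : ∀ i, q.toZI.PP (U * q.N1) (fun η w => ∃ j ≤ U * q.N1,
      ∃ v ∈ Bt (tv (x i) : Tor d q.M) ρ, (w.take j).foldl ZI.stepA η v ≠
        ((w.map (res (Bt (tv (x i)) (ρ + D)))).take j).foldl ZI.stepA
          (cut (Bt (tv (x i)) (ρ + D)) η) v) ≤ ε)
    (hε2 : (U : ℝ≥0∞) * q.N1 * ENNReal.ofReal ((q.M : ℝ) ^ d * (m.g q.K + δ) * q.p) ^ 2 ≤ ε) :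
    q.PP (U * q.N1) (fun η w => ∀ i, E i η w) ≤
      ∏ i, (q.PP (U * q.N1) (E i) + ε) + (n + n ^ 2) * ε := by
  set Λ : Fin n → Set (Tor d q.M) := fun i => Bt (tv (x i)) (ρ + D) with hΛ
  set F : Fin n → (Tor d q.M → ℕ) → List (Let d q.M (q.K + 1)) → ℝ≥0∞ :=
    fun i η w => if E i (cut (Λ i) η) (w.map (res (Λ i))) then 1 else 0 with hF
  set B : Fin n → Ev d q.M q.K := fun i => bad q.N1 U ρ D (tv (x i)) with hB
  -- the bad events
  have hbad : ∀ i, q.PP (U * q.N1) (B i) ≤ ε := by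
    intro i
    rw [hB]
    refine le_trans (PP_bad q hd U ρ D (tv (x i))).le ?_
    exact hε1 i
  -- off the bad event the two events agree
  have hiff : ∀ i η w, w.length = U * q.N1 → ¬ B i η w →
      (E i η w ↔ E i (cut (Λ i) η) (w.map (res (Λ i)))) := by
    intro i η w hw hb
    obtain ⟨h1, h2⟩ := rel_of_not_bad hw.ge hb
    exact ⟨fun h => hloc i _ _ _ _ h1 h2 h, fun h => hloc i _ _ _ _ h2 h1 h⟩
  have hF1 : ∀ i η w, F i η w ≤ 1 := by
    intro i η w
    rw [hF]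
    simp only
    split_ifs
    · exact le_rfl
    · exact zero_le_one
  -- first step
  have s1 : q.PP (U * q.N1) (fun η w => ∀ i, E i η w) ≤
      q.EE (U * q.N1) (fun η w => ∏ i, F i η w) + ∑ i, q.PP (U * q.N1) (B i) := by
    have e1 : ∑ i, q.PP (U * q.N1) (B i) =
        q.EE (U * q.N1) (fun η w => ∑ i, (if B i η w then (1 : ℝ≥0∞) else 0)) :=
      (EE_sum q Finset.univ (U * q.N1) (fun i η w => if B i η w then (1 : ℝ≥0∞) else 0)).symm
    rw [e1, ← EE_add, PP_eq]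
    apply EE_mono_len
    intro η w hw
    by_cases hE : ∀ i, E i η w
    · rw [if_pos hE]
      by_cases hb : ∃ i, B i η w
      · obtain ⟨i, hi⟩ := hb
        have h1 : (1 : ℝ≥0∞) ≤ ∑ i, (if B i η w then (1 : ℝ≥0∞) else 0) := by
          calc (1 : ℝ≥0∞) = if B i η w then (1 : ℝ≥0∞) else 0 := (if_pos hi).symm
            _ ≤ _ := Finset.single_le_sum (f := fun i => if B i η w then (1 : ℝ≥0∞) else 0)
                (fun _ _ => zero_le) (Finset.mem_univ i)
        exact le_trans h1 le_add_self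
      · have hb' : ∀ i, ¬ B i η w := fun i hi => hb ⟨i, hi⟩
        have h1 : ∏ i, F i η w = 1 := by
          apply Finset.prod_eq_one
          intro i _
          exact if_pos ((hiff i η w hw (hb' i)).1 (hE i))
        rw [h1]
        exact le_self_add
    · rw [if_neg hE]
      exact zero_le
  -- second step
  have s2 : q.EE (U * q.N1) (fun η w => ∏ i, F i η w) ≤ ∏ i, q.EE (U * q.N1) (F i) +
      (n : ℝ≥0∞) ^ 2 * ε := by
    have h1 := indep_letters q hd (U * q.N1) n Λ hdis F hF1 (by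
      intro i η η' w w' h1 h2
      rw [hF]
      simp only
      rw [h1, h2])
    refine le_trans h1 (add_le_add le_rfl ?_)
    rw [mul_assoc]
    refine mul_le_mul_right ?_ _
    push_cast
    exact hε2
  have s3 : ∀ i, q.EE (U * q.N1) (F i) ≤ q.PP (U * q.N1) (E i) + ε := by
    intro i
    have h1 : q.EE (U * q.N1) (F i) ≤ q.PP (U * q.N1) (E i) + q.PP (U * q.N1) (B i) := by
      rw [PP_eq, PP_eq, ← EE_add]
      apply EE_mono_len
      intro η w hw
      by_cases hb : B i η w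
      · rw [if_pos hb]
        exact le_trans (hF1 i η w) le_add_self
      · have h2 : F i η w = if E i η w then 1 else 0 := by
          rw [hF]
          simp only
          exact if_congr (hiff i η w hw hb).symm rfl rfl
        rw [h2]
        exact le_self_add
    exact le_trans h1 (add_le_add le_rfl (hbad i))
  calc q.PP (U * q.N1) (fun η w => ∀ i, E i η w)
      ≤ q.EE (U * q.N1) (fun η w => ∏ i, F i η w) + ∑ i, q.PP (U * q.N1) (B i) := s1
    _ ≤ (∏ i, q.EE (U * q.N1) (F i) + (n : ℝ≥0∞) ^ 2 * ε) + ∑ _i : Fin n, ε := by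
        gcongr with i _
        exact hbad i
    _ ≤ (∏ i, (q.PP (U * q.N1) (E i) + ε) + (n : ℝ≥0∞) ^ 2 * ε) + ∑ _i : Fin n, ε := by
        gcongr with i _
        exact s3 i
    _ = ∏ i, (q.PP (U * q.N1) (E i) + ε) + (n + n ^ 2) * ε := by
        rw [Finset.sum_const, Finset.card_univ, Fintype.card_fin, nsmul_eq_mul]
        ring

end ZP.SI

namespace ZP.Rows

open ZP ZP.SI

theorem spatial_u (m : Model) (d : ℕ) (hd : 0 < d) : ∃ C : ℕ, ∀ (δ φ : ℝ) (h : 0 < φ),
    ∀ (q : Par d (wf m φ h) δ) (n ρ D U : ℕ) (x : Fin n → Pos d)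
    (E : Fin n → Ev d q.M q.K), 2 * (ρ + D) + 4 ≤ q.M →
    (∀ i j, i ≠ j → Disjoint (Bt (tv (x i) : Tor d q.M) (ρ + D)) (Bt (tv (x j)) (ρ + D))) →
    (∀ i, LocE q.N1 (Bt (tv (x i)) ρ) 0 U (E i)) → ∀ ε : ℝ≥0∞,
    ENNReal.ofReal (C * (1 + φ) * (ρ + D + 1 : ℝ) ^ C * Real.exp (C * U - D)) ≤ ε →
    (U : ℝ≥0∞) * q.N1 * ENNReal.ofReal ((q.M : ℝ) ^ d * (m.g q.K + δ) * q.p) ^ 2 ≤ ε →
    q.PP (U * q.N1) (fun η w => ∀ i, E i η w) ≤
      ∏ i, (q.PP (U * q.N1) (E i) + ε) + (n + n ^ 2) * ε := by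
  obtain ⟨C, hC⟩ := local_ball_u m d hd
  refine ⟨C, ?_⟩
  intro δ φ h q n ρ D U x E hM hdis hloc ε hε1 hε2
  exact spatial_core hd q n ρ D U x E hdis hloc ε
    (fun i => le_trans (hC φ h q.toZI (tv (x i)) ρ D U hM) hε1) hε2

end ZP.Rows
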