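import Pool.Agent.ZP.RC
import Pool.Agent.ZP.DU
import Pool.Agent.ZP.SIU

/-! # Row RU: the recursion step with constants polynomial in the fugacity -/

set_option autoImplicit false

open scoped ENNReal BigOperators Classical

noncomputable section

namespace ZP.RU

/-- the threshold for the scales -/
theorem thr (c C0 : ℕ) (φ0 L : ℝ) (h2 : 2 ≤ φ0) (hC : c * 2 ^ c ≤ C0)
    (h : C0 * φ0 ^ C0 ≤ L) : (c : ℝ) ≤ L ∧ (c : ℝ) * (3 / 2 * φ0) ^ c ≤ L := by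
  have h0 : (0 : ℝ) < φ0 := by linarith
  have h1 : c ≤ C0 := le_trans (Nat.le_mul_of_pos_right _ (by positivity)) hC
  have h3 : (1 : ℝ) ≤ φ0 ^ C0 := one_le_pow₀ (by linarith)
  have h4 : ((c * 2 ^ c : ℕ) : ℝ) ≤ C0 := by exact_mod_cast hC
  have h5 : (C0 : ℝ) ≤ C0 * φ0 ^ C0 := le_mul_of_one_le_right (Nat.cast_nonneg _) h3
  refine ⟨?_, ?_⟩
  · have h6 : (c : ℝ) ≤ C0 := by exact_mod_cast h1
    linarith
  · refine le_trans ?_ h
    calc (c : ℝ) * (3 / 2 * φ0) ^ c ≤ c * (2 * φ0) ^ c := by gcongr; norm_num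
      _ = ((c * 2 ^ c : ℕ) : ℝ) * φ0 ^ c := by push_cast; rw [mul_pow]; ring
      _ ≤ C0 * φ0 ^ C0 := by
          refine mul_le_mul h4 (pow_le_pow_right₀ (by linarith) h1) (by positivity) (Nat.cast_nonneg _)

/-- the error of SIU from the error of SI -/
theorem absorb (C : ℕ) (φ s : ℝ) (ρ D u : ℕ) (h1 : 0 ≤ φ) (h2 : 1 + φ ≤ s) (h3 : s ≤ (ρ : ℝ) + D + 1) :
    (C : ℝ) * (1 + φ) * ((ρ : ℝ) + D + 1) ^ C * Real.exp (C * u - D) ≤
      ((C + 1 : ℕ) : ℝ) * ((ρ : ℝ) + D + 1) ^ (C + 1) * Real.exp (((C + 1 : ℕ) : ℝ) * u - D) := by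
  have h4 : (0 : ℝ) ≤ (ρ : ℝ) + D + 1 := by positivity
  have h5 : Real.exp (C * u - D) ≤ Real.exp (((C + 1 : ℕ) : ℝ) * u - D) := by
    apply Real.exp_le_exp.mpr
    push_cast
    nlinarith [(Nat.cast_nonneg u : (0 : ℝ) ≤ u)]
  have h6 : (C : ℝ) * (1 + φ) * ((ρ : ℝ) + D + 1) ^ C ≤
      ((C + 1 : ℕ) : ℝ) * ((ρ : ℝ) + D + 1) ^ (C + 1) := by
    rw [pow_succ]
    push_cast
    calc (C : ℝ) * (1 + φ) * ((ρ : ℝ) + D + 1) ^ C
        = (C : ℝ) * (((ρ : ℝ) + D + 1) ^ C * (1 + φ)) := by ring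
      _ ≤ ((C : ℝ) + 1) * (((ρ : ℝ) + D + 1) ^ C * ((ρ : ℝ) + D + 1)) := by
          refine mul_le_mul (by linarith) (mul_le_mul_of_nonneg_left (by linarith) (by positivity))
            (by positivity) (by positivity)
  exact mul_le_mul h6 h5 (Real.exp_pos _).le (by positivity)

end ZP.RU

namespace ZP.Rows

open ZP ZP.RC

/-- numerical constants of the recursion (the same as Cst) -/
def CstU (d : ℕ) (A : Prm) : ℕ := 3 * (d + 1) * (A.γ + 1)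

theorem rec_step_u (m : Model) (d : ℕ) (hd : 0 < d) : ∃ α0 : ℕ, ∀ α ≥ α0, ∀ γ ≥ α + 20, ∃ C0 : ℕ,
    ∀ A : Prm, A.α = α → A.γ = γ → A.L ≤ A.τ → A.τ ≤ A.L ^ 2 → ∀ (φ0 : ℝ) (h0 : 0 < φ0), 2 ≤ φ0 →
    C0 * φ0 ^ C0 ≤ (A.L : ℝ) → ∀ (δ : ℝ) (q : Par d (wf m φ0 h0) δ)
    (n : ℕ), q.Tiny n → 4 * φ0 ≤ m.g q.K → ∀ k : ℕ, A.S (k + 1) ≤ n →
    100 * A.S (k + 1) + 10 * A.L ^ 2 ≤ q.M →
    ∀ (φa φb : ℝ) (ha : 0 < φa) (hb : 0 < φb) (hKa : 2 * φa ≤ m.g q.K) (hKb : 2 * φb ≤ m.g q.K),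
    φ0 / 2 ≤ φa → φa ≤ 3 / 2 * φ0 → φ0 / 2 ≤ φb → φb ≤ 3 / 2 * φ0 →
    1 ≤ |φb - φa| ^ 8 * (A.S k : ℝ) ^ 8 →
    ∀ (X : Ev d q.M q.K) (p : ℝ), 0 ≤ p → (A.S k : ℝ) ^ (CstU d A) * p ≤ 1 →
    (q.wf φa ha hKa).PP (6 * A.T d k * q.N1) X ≤ ENNReal.ofReal p →
    ((φa < φb ∧ DecE q.N1 (Bt (0 : Tor d q.M) (6 * A.S k + A.L ^ 2 + 1)) 0 (6 * A.T d k) X) ∨
      (φb < φa ∧ IncE q.N1 (Bt (0 : Tor d q.M) (6 * A.S k + A.L ^ 2 + 1)) 0 (6 * A.T d k) X)) →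
    (q.wf φb hb hKb).PP (6 * A.T d (k + 1) * q.N1) (RecE q.N1 A k X) ≤
      ENNReal.ofReal (Real.exp (-(2 * A.S k : ℝ))) := by
  obtain ⟨C', hsp⟩ := spatial_u m d hd
  set C := C' + 1 with hC
  obtain ⟨Cs, c1, hdc⟩ := decouple_u m d hd
  set α' := 8 * Cs + 1 with hα'
  refine ⟨α' + 6, fun α hα γ hγ => ?_⟩
  set c2 : ℕ := c1 + 32 * (d + 1) + ((α + 1) * C + 1) +
    (γ * (d + 1) + ((γ + 1) * d + α' + 4) + 6) + 8 with hc2
  refine ⟨c2 * 2 ^ c2, ?_⟩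
  intro A hAα hAγ hLτ hτL φ0 h0 hφ2 hLφ δ q n hTiny hK k hSn hSM φa φb ha hb hKa hKb ha1 ha2 hb1 hb2
    hdiff X p hp0 hp hPX hcase
  obtain ⟨hL0r, hL1r⟩ := ZP.RU.thr c2 (c2 * 2 ^ c2) φ0 (A.L : ℝ) hφ2 le_rfl hLφ
  have hL0 : c2 ≤ A.L := by exact_mod_cast hL0r
  have hφ : 0 < φ0 := h0
  subst hAα hAγ
  -- the scales
  have hL1 : 1 ≤ A.L := by omega
  have hSL : A.L ≤ A.S k := S_ge A (by omega) hL1 k
  have hT1 : 1 ≤ A.T d k := T_pos A d hL1 (by omega) k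
  have hT2 : A.T d k ≤ A.S k ^ 2 := T_le A d (by omega) (by omega) hτL k
  have hnn : A.n k = A.S k ^ (A.γ - 1) := rfl
  have hnt : A.nt d k = (8 * d + 8) * A.S k ^ (A.γ - 1) := rfl
  have haa : A.a k = A.S k ^ A.α := rfl
  have hS1 : A.S (k + 1) = A.S k ^ A.γ := S_succ A k
  rw [hS1] at hSn hSM
  set s := A.S k with hs
  set T := A.T d k with hT
  obtain ⟨e1, e2, e3, e4, e5, e6, e7, e8, e9⟩ := nat_nums d α' A.α A.γ s T A.L (by omega) hα hγ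
    (by omega) hT2 hSL
  have hs32 : 32 ≤ s := by omega
  have hs0 : (1 : ℝ) ≤ s := by
    have : 1 ≤ s := by omega
    exact_mod_cast this
  have hKq : A.S k ^ A.γ ≤ q.K := hSn.trans hTiny.1
  set ρ := 6 * s + A.L ^ 2 + 1 with hρ
  set D := s ^ A.α with hD
  set εr := Real.exp (-(s : ℝ) ^ 4) with hεr
  have hεr0 : 0 < εr := Real.exp_pos _
  set ε : ℝ≥0∞ := ENNReal.ofReal εr with hε
  set ec : ℝ := (2 * (5 * s ^ A.γ : ℕ) + 1 : ℝ) ^ d * (((s + 2) * s ^ α' * T + 1 : ℕ) : ℝ) * εr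
    with hec
  -- Tiny
  have hg0 : 0 < m.g q.K := by linarith
  have hδ0 := q.δ_nn
  have htiny : ∀ u : ℕ, u + 1 ≤ s ^ (α' + 4) → (u : ℝ≥0∞) * q.N1 *
      ENNReal.ofReal ((q.M : ℝ) ^ d * (m.g q.K + δ) * q.p) ^ 2 ≤ ε := by
    intro u hu
    have hp1 := q.p_pos
    have hM0 : (0 : ℝ) ≤ (q.M : ℝ) ^ d := by positivity
    have h1 : (u : ℝ≥0∞) * q.N1 * ENNReal.ofReal ((q.M : ℝ) ^ d * (m.g q.K + δ) * q.p) ^ 2 =
        ENNReal.ofReal (u * (q.N1 * ((q.M : ℝ) ^ d * (m.g q.K + δ) * q.p) ^ 2)) := by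
      rw [ENNReal.ofReal_mul (Nat.cast_nonneg _), ENNReal.ofReal_mul (Nat.cast_nonneg _),
        ENNReal.ofReal_natCast, ENNReal.ofReal_natCast, ENNReal.ofReal_pow (by positivity),
        mul_assoc]
    rw [h1, hε]
    refine ENNReal.ofReal_le_ofReal (le_trans ?_ (lt_err α' A.γ s n u (by omega) hs32 (by omega)
      hSn hu))
    refine mul_le_mul_of_nonneg_left ?_ (Nat.cast_nonneg _)
    have h2 := hTiny.2
    have h3 : (q.N1 : ℝ) * q.p ≤ 1 := q.p_ub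
    have h4 : (m.g q.K + δ) ^ 2 ≤ (m.g q.K + δ + 1) ^ 2 :=
      pow_le_pow_left₀ (by positivity) (by linarith) 2
    calc (q.N1 : ℝ) * ((q.M : ℝ) ^ d * (m.g q.K + δ) * q.p) ^ 2
        = (q.N1 * q.p) * ((q.M : ℝ) ^ (2 * d) * (m.g q.K + δ) ^ 2 * q.p) := by ring
      _ ≤ 1 * ((q.M : ℝ) ^ (2 * d) * (m.g q.K + δ + 1) ^ 2 * q.p) := by gcongr
      _ ≤ Real.exp (-(n : ℝ)) := by rw [one_mul]; exact h2
  -- the event
  have hPX' : ∀ (hloc : LocE q.N1 (Bt (0 : Tor d q.M) ρ) 0 (6 * T) X) (x : Pos d) (t N : ℕ),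
      (t + 6 * T) * q.N1 ≤ N →
      (q.wf φa ha hKa).PP N (sft q.N1 x t X) ≤ ENNReal.ofReal p := by
    intro hloc x t N hN
    have h1 : LocE q.N1 _ (0 + t) (6 * T + t) (sft q.N1 x t X) := LocE.sft q.N1 hloc x t
    have h2 := PP_loc (q.wf φa ha hKa) hd h1 N (by
      show (6 * T + t) * q.N1 ≤ N
      rw [Nat.add_comm]
      exact hN)
    have h3 : (6 * T + t) * q.N1 = t * q.N1 + 6 * T * q.N1 := by ring
    have h4 := PP_sft (q.wf φa ha hKa) hd x t (6 * T * q.N1) X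
    refine h2.le.trans ?_
    show (q.wf φa ha hKa).PP ((6 * T + t) * q.N1) (sft q.N1 x t X) ≤ ENNReal.ofReal p
    rw [h3]
    exact h4.le.trans hPX
  -- the numbers of the end
  have hBle : (((2 * (4 * A.n k) + 1) ^ d * (4 * A.nt d k) : ℕ) : ℝ) ≤
      (s : ℝ) ^ (A.γ * (d + 1)) := by
    rw [hnn, hnt]
    exact_mod_cast e9
  have hecle : ec ≤ (s : ℝ) ^ ((A.γ + 1) * d + α' + 4) * Real.exp (-(s : ℝ) ^ 4) := by
    rw [hec]
    refine mul_le_mul_of_nonneg_right ?_ hεr0.le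
    have h1 : (2 * (5 * s ^ A.γ : ℕ) + 1 : ℝ) ≤ (s : ℝ) ^ (A.γ + 1) := by
      have h2 : 2 * (5 * s ^ A.γ) + 1 ≤ s ^ (A.γ + 1) := by
        have h3 : 32 * s ^ A.γ ≤ s ^ (A.γ + 1) := by
          rw [pow_succ, Nat.mul_comm (s ^ A.γ) s]
          exact Nat.mul_le_mul_right _ hs32
        have h4 : 1 ≤ s ^ A.γ := Nat.one_le_pow _ _ (by omega)
        omega
      exact_mod_cast h2
    have h2 : (((s + 2) * s ^ α' * T + 1 : ℕ) : ℝ) ≤ (s : ℝ) ^ (α' + 4) := by exact_mod_cast e7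
    calc (2 * (5 * s ^ A.γ : ℕ) + 1 : ℝ) ^ d * (((s + 2) * s ^ α' * T + 1 : ℕ) : ℝ)
        ≤ ((s : ℝ) ^ (A.γ + 1)) ^ d * (s : ℝ) ^ (α' + 4) := by gcongr
      _ = (s : ℝ) ^ ((A.γ + 1) * d + α' + 4) := by
          rw [← pow_mul, ← pow_add]
          rfl
  have hec0 : 0 ≤ ec := by positivity
  have hfin := final_err d α' A.γ s p _ ec hs32 (by omega) hp0 hp (Nat.cast_nonneg _) hBle hec0 hecle
  have hpε : p + εr ≤ 1 := by
    have h1 : p ≤ 1 / 2 := by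
      have h2 : (2 : ℝ) * p ≤ (s : ℝ) ^ (CstU d A) * p := by
        refine mul_le_mul_of_nonneg_right ?_ hp0
        have h3 : (s : ℝ) ^ 1 ≤ (s : ℝ) ^ (CstU d A) := by
          refine pow_le_pow_right₀ hs0 ?_
          unfold CstU
          nlinarith
        have h4 : (32 : ℝ) ≤ s := by exact_mod_cast hs32
        rw [pow_one] at h3
        linarith
      linarith
    have h2 : εr ≤ 1 / 2 := by
      have h3 : (1 : ℝ) ≤ (s : ℝ) ^ 4 := one_le_pow₀ hs0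
      have h4 : εr ≤ Real.exp (-1) := Real.exp_le_exp.mpr (by linarith)
      have h5 : Real.exp (-1) ≤ 1 / 2 := by
        have h6 := Real.exp_one_gt_d9
        rw [Real.exp_neg, one_div]
        gcongr
        linarith
      linarith
    linarith
  -- the fugacity and the scale
  have hφs : 1 + φa ≤ (s : ℝ) := by
    have h1 : (c2 : ℝ) * (3 / 2 * φ0) ^ c2 ≤ (s : ℝ) := by
      have h2 : (A.L : ℝ) ≤ s := by exact_mod_cast hSL
      linarith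
    have h3 : (8 : ℝ) ≤ c2 := by
      have : 8 ≤ c2 := by omega
      exact_mod_cast this
    have h4 : 3 / 2 * φ0 ≤ (3 / 2 * φ0) ^ c2 := le_self_pow₀ (by linarith) (by omega)
    nlinarith
  have hsρ : (s : ℝ) ≤ (ρ : ℝ) + D + 1 := by
    have h1 : s ≤ ρ + D + 1 := by omega
    exact_mod_cast h1
  -- the main part
  have main : ∀ (Q : Set (Tor d q.M) → ℕ → ℕ → Ev d q.M q.K → Prop), MonC q.N1 Q →
      Q (Bt 0 ρ) 0 (6 * T) X →
      (∀ (t u2 : ℕ) (A' E : Ev d q.M q.K), (∀ η w, A' η w ↔ A' η (w.take (t * q.N1))) →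
        (s ^ α' - 6) * T ≤ u2 → Q (Bt (tv 0) (5 * s ^ A.γ)) ((s ^ α' - 6) * T) u2 E →
        (q.wf φb hb hKb).PP ((t + u2) * q.N1) (fun η w => A' η w ∧ sft q.N1 0 t E η w) ≤
          (q.wf φb hb hKb).PP (t * q.N1) A' * (q.wf φa ha hKa).PP (u2 * q.N1) E +
          (2 * ((5 * s ^ A.γ : ℕ) : ℝ≥0∞) + 1) ^ d * (u2 - (((s ^ α' - 6) * T : ℕ) : ℝ≥0∞) + 1) *
            ENNReal.ofReal (Real.exp (-Real.sqrt ((s ^ 8 : ℕ) : ℝ)))) →
      (q.wf φb hb hKb).PP (6 * A.T d (k + 1) * q.N1) (RecE q.N1 A k X) ≤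
        ENNReal.ofReal (Real.exp (-(2 * s : ℝ))) := by
    intro Q hQ hX hdec
    have hsqrt : Real.sqrt ((s ^ 8 : ℕ) : ℝ) = (s : ℝ) ^ 4 := by
      have h1 : ((s ^ 8 : ℕ) : ℝ) = ((s : ℝ) ^ 4) ^ 2 := by
        push_cast
        ring
      rw [h1, Real.sqrt_sq (by positivity)]
    have key := rec_union (q.wf φb hb hKb) A k X
      ((ENNReal.ofReal p + ε) ^ (s + 1) + ((s + 1 : ℕ) : ℝ≥0∞) *
        (ENNReal.ofReal ec + (((s + 1 : ℕ) : ℝ≥0∞) + ((s + 1 : ℕ) : ℝ≥0∞) ^ 2) * ε)) (by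
      intro f hf1 hf2 hf3
      refine groups (d := d) (M := q.M) (K := q.K) (N1 := q.N1)
        (fun N E => (q.wf φa ha hKa).PP N E) (fun N E => (q.wf φb hb hKb).PP N E) Q hQ
        (fun N E E' h => PP_mono (q.wf φb hb hKb) N h)
        (fun N E => PP_le_one (q.wf φb hb hKb) hd N E)
        (fun Λ u1 u2 E N h hN => PP_loc (q.wf φb hb hKb) hd h N hN)
        (fun N E E' h => PP_mono (q.wf φa ha hKa) N h)
        s T (A.nt d k) (s ^ α') (A.a k) ρ D (5 * s ^ A.γ) (4 * A.n k) X hX e1 ?_ ?_ ?_ ?_ ?_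
        (ENNReal.ofReal p) ε (ENNReal.ofReal ec) _ ?_ ?_ ?_ ?_ f hf1 hf2 hf3 (s + 1) Finset.univ
        (by rw [Finset.card_univ, Fintype.card_fin])
      · rw [hnt]; exact e2
      · rw [haa]; exact e3
      · rw [haa]; exact e4
      · rw [hnn]
        have h1 : 100 * s ^ A.γ ≤ q.M := by
          have : 0 ≤ 10 * A.L ^ 2 := Nat.zero_le _
          omega
        omega
      · rw [hnn]; exact e6
      · rw [hε, ← ENNReal.ofReal_add hp0 hεr0.le]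
        exact ENNReal.ofReal_le_one.mpr hpε
      · intro t u2 A' E hA' h1 h2 h3
        refine (hdec t u2 A' E hA' h1 h3).trans (add_le_add le_rfl ?_)
        rw [hsqrt]
        have h4 : ENNReal.ofReal ec = (2 * ((5 * s ^ A.γ : ℕ) : ℝ≥0∞) + 1) ^ d *
            (((s + 2) * s ^ α' * T + 1 : ℕ) : ℝ≥0∞) * ENNReal.ofReal εr := by
          rw [hec, ENNReal.ofReal_mul (by positivity), ENNReal.ofReal_mul (by positivity),
            ENNReal.ofReal_pow (by positivity), ENNReal.ofReal_natCast,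
            ENNReal.ofReal_add (by positivity) zero_le_one, ENNReal.ofReal_one,
            ENNReal.ofReal_mul (by norm_num), ENNReal.ofReal_natCast,
            show ENNReal.ofReal 2 = 2 by norm_num]
        rw [h4]
        refine mul_le_mul' (mul_le_mul' le_rfl ?_) le_rfl
        rw [Nat.cast_add, Nat.cast_one]
        refine add_le_add (tsub_le_self.trans ?_) le_rfl
        exact_mod_cast h2
      · intro N u2 x E hN hu2 hdisj hE
        have hu2' : u2 + 1 ≤ s ^ (α' + 4) := by omega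
        refine (hsp δ φa ha (q.wf φa ha hKa) N ρ D u2 x E ?_ hdisj hE ε ?_
          (htiny u2 hu2')).trans (add_le_add le_rfl ?_)
        · show 2 * (ρ + D) + 4 ≤ q.M
          omega
        · rw [hε]
          refine ENNReal.ofReal_le_ofReal (le_trans ?_
            (sp_err α' A.α C s ρ D u2 hα hs32 (by omega) e8 hD hu2'))
          exact ZP.RU.absorb C' φa s ρ D u2 ha.le hφs hsρ
        · refine mul_le_mul' ?_ le_rfl
          have h5 : (N : ℝ≥0∞) ≤ ((s + 1 : ℕ) : ℝ≥0∞) := by exact_mod_cast hN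
          exact add_le_add h5 (pow_le_pow_left' h5 2)
      · intro x t N hN
        exact hPX' (hQ.loc _ _ _ _ hX) x t N hN)
    refine key.trans ?_
    set B : ℕ := (2 * (4 * A.n k) + 1) ^ d * (4 * A.nt d k) with hB
    have h6 := conv B s p εr ec hp0 hεr0.le hec0
    refine (le_of_eq h6).trans (ENNReal.ofReal_le_ofReal ?_)
    exact hfin
  -- the two cases
  have hΦ1 : (1 : ℝ) ≤ 3 / 2 * φ0 := by linarith
  have hl0 : (c1 : ℝ) * (3 / 2 * φ0) ^ c1 ≤ ((s ^ 8 : ℕ) : ℝ) := by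
    have h1 : (c1 : ℝ) * (3 / 2 * φ0) ^ c1 ≤ (c2 : ℝ) * (3 / 2 * φ0) ^ c2 := by
      have h2 : c1 ≤ c2 := by omega
      have h3 : (c1 : ℝ) ≤ c2 := by exact_mod_cast h2
      exact mul_le_mul h3 (pow_le_pow_right₀ hΦ1 h2) (by positivity) (Nat.cast_nonneg _)
    have h2 : (A.L : ℝ) ≤ s := by exact_mod_cast hSL
    have h3 : (s : ℝ) ≤ ((s ^ 8 : ℕ) : ℝ) := by
      have h4 : s ≤ s ^ 8 := Nat.le_self_pow (by norm_num) s
      exact_mod_cast h4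
    linarith
  have hlM : (s ^ 8) ^ 3 ≤ q.M := by
    rw [← pow_mul]
    have h1 : s ^ (8 * 3) ≤ s ^ A.γ := Nat.pow_le_pow_right (by omega) (by omega)
    omega
  have hlK : s ^ 8 ≤ q.K := (Nat.pow_le_pow_right (by omega) (by omega)).trans hKq
  have hu1 : (s ^ 8) ^ Cs ≤ (s ^ α' - 6) * T := by
    have h1 : (s ^ 8) ^ Cs = s ^ (8 * Cs) := (pow_mul _ _ _).symm
    have h2 : s ^ α' = s ^ (8 * Cs) * s := by rw [hα', pow_succ]
    have h3 : 1 ≤ s ^ (8 * Cs) := Nat.one_le_pow _ _ (by omega)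
    have h4 : s ^ (8 * Cs) * 32 ≤ s ^ (8 * Cs) * s := Nat.mul_le_mul_left _ hs32
    calc (s ^ 8) ^ Cs ≤ (s ^ α' - 6) := by rw [h1, h2]; omega
      _ ≤ (s ^ α' - 6) * T := Nat.le_mul_of_pos_right _ hT1
  have hρM : 2 * (5 * s ^ A.γ) < q.M := by
    have h1 : 1 ≤ s ^ A.γ := Nat.one_le_pow _ _ (by omega)
    omega
  have hφhi : 2 * (3 / 2 * φ0) ≤ m.g q.K := by linarith
  have ha1' : 1 ≤ φa := by linarith
  have hb1' : 1 ≤ φb := by linarith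
  rcases hcase with ⟨hlt, hX⟩ | ⟨hlt, hX⟩
  · refine main (fun Λ u1 u2 E => DecE q.N1 Λ u1 u2 E) (monC_dec q.N1) hX ?_
    intro t u2 A' E hA' h1 h2
    exact (hdc (3 / 2 * φ0) hΦ1 (s ^ 8) hl0 φa φb ha hb ha1' hb2 hlt (by
      rw [abs_of_pos (by linarith)] at hdiff
      push_cast
      exact hdiff) φ0 h0 δ q hKa hKb hφhi hlM hlK t ((s ^ α' - 6) * T) u2 (5 * s ^ A.γ) 0 hu1 h1 hρM A' hA'
      E).1 h2
  · refine main (fun Λ u1 u2 E => IncE q.N1 Λ u1 u2 E) (monC_inc q.N1) hX ?_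
    intro t u2 A' E hA' h1 h2
    exact (hdc (3 / 2 * φ0) hΦ1 (s ^ 8) hl0 φb φa hb ha hb1' ha2 hlt (by
      rw [abs_of_neg (by linarith), neg_sub] at hdiff
      push_cast
      exact hdiff) φ0 h0 δ q hKb hKa hφhi hlM hlK t ((s ^ α' - 6) * T) u2 (5 * s ^ A.γ) 0 hu1 h1 hρM A' hA'
      E).2 h2

end ZP.Rows
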