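import Pool.Agent.ZP.M0
import Pool.Agent.ZI.R1
import Pool.Agent.ZI.R2

/-! # MF: monotonicity in the fugacity -/

set_option autoImplicit false

open scoped ENNReal BigOperators Classical

noncomputable section

namespace ZP.MF

open ZP

/-- the rearrangement inequality for two terms -/
theorem term_le {f g x y : ℝ≥0∞} (h : y ≤ x) (hf : f ≤ g) :
    x * f + y * g ≤ x * g + y * f := by
  obtain ⟨c, rfl⟩ := exists_add_of_le h
  obtain ⟨e, rfl⟩ := exists_add_of_le hf
  have h1 : (y + c) * (f + e) + y * f = ((y + c) * f + y * (f + e)) + c * e := by ring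
  rw [h1]
  exact le_self_add

/-- comparison of two laws with a monotone likelihood ratio, through double sums -/
theorem double_le (a b : ℕ → ℝ≥0∞) (F G : ℕ → ℕ → ℝ≥0∞)
    (h : ∀ k j, a k * b j * F k j + a j * b k * F j k ≤ a k * b j * G k j + a j * b k * G j k) :
    ∑' k, ∑' j, a k * b j * F k j ≤ ∑' k, ∑' j, a k * b j * G k j := by
  have h1 : ∑' k, ∑' j, (a k * b j * F k j + a j * b k * F j k) ≤
      ∑' k, ∑' j, (a k * b j * G k j + a j * b k * G j k) :=
    ENNReal.tsum_le_tsum fun k => ENNReal.tsum_le_tsum fun j => h k j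
  have h2 : ∀ H : ℕ → ℕ → ℝ≥0∞, ∑' k, ∑' j, (a k * b j * H k j + a j * b k * H j k) =
      2 * ∑' k, ∑' j, a k * b j * H k j := by
    intro H
    have h3 : ∑' k, ∑' j, (a k * b j * H k j + a j * b k * H j k) =
        ∑' k, ∑' j, a k * b j * H k j + ∑' k, ∑' j, a j * b k * H j k := by
      rw [← ENNReal.tsum_add]
      exact tsum_congr fun k => ENNReal.tsum_add
    rw [h3, ENNReal.tsum_comm (f := fun k j => a j * b k * H j k), two_mul]
  rw [h2, h2] at h1
  exact (ENNReal.mul_le_mul_iff_right (by norm_num) (by norm_num)).1 h1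

theorem left_eq (a b : ℕ → ℝ≥0∞) (hb : ∑' k, b k = 1) (f : ℕ → ℝ≥0∞) :
    ∑' k, ∑' j, a k * b j * f k = ∑' k, a k * f k := by
  refine tsum_congr fun k => ?_
  calc ∑' j, a k * b j * f k = ∑' j, a k * f k * b j := tsum_congr fun j => by ring
    _ = a k * f k * ∑' j, b j := ENNReal.tsum_mul_left
    _ = _ := by rw [hb, mul_one]

theorem right_eq (a b : ℕ → ℝ≥0∞) (ha : ∑' k, a k = 1) (f : ℕ → ℝ≥0∞) :
    ∑' k, ∑' j, a k * b j * f j = ∑' k, b k * f k := by
  rw [ENNReal.tsum_comm]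
  refine tsum_congr fun k => ?_
  calc ∑' j, a j * b k * f k = ∑' j, b k * f k * a j := tsum_congr fun j => by ring
    _ = b k * f k * ∑' j, a j := ENNReal.tsum_mul_left
    _ = _ := by rw [ha, mul_one]

/-- increasing functions -/
theorem single_mono {a b : ℕ → ℝ≥0∞} (ha : ∑' k, a k = 1) (hb : ∑' k, b k = 1)
    (hab : ∀ k j, k ≤ j → a j * b k ≤ a k * b j) {f : ℕ → ℝ≥0∞} (hf : Monotone f) :
    ∑' k, a k * f k ≤ ∑' k, b k * f k := by
  rw [← left_eq a b hb f, ← right_eq a b ha f]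
  refine double_le a b (fun k _ => f k) (fun _ j => f j) fun k j => ?_
  rcases le_total k j with h | h
  · exact term_le (hab k j h) (hf h)
  · have h1 := term_le (hab j k h) (hf h)
    calc a k * b j * f k + a j * b k * f j = a j * b k * f j + a k * b j * f k := add_comm _ _
      _ ≤ a j * b k * f k + a k * b j * f j := h1
      _ = _ := add_comm _ _

/-- decreasing functions -/
theorem single_anti {a b : ℕ → ℝ≥0∞} (ha : ∑' k, a k = 1) (hb : ∑' k, b k = 1)
    (hab : ∀ k j, k ≤ j → a j * b k ≤ a k * b j) {f : ℕ → ℝ≥0∞} (hf : Antitone f) :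
    ∑' k, b k * f k ≤ ∑' k, a k * f k := by
  rw [← left_eq a b hb f, ← right_eq a b ha f]
  refine double_le a b (fun _ j => f j) (fun k _ => f k) fun k j => ?_
  rcases le_total k j with h | h
  · exact term_le (hab k j h) (hf h)
  · have h1 := term_le (hab j k h) (hf h)
    calc a k * b j * f j + a j * b k * f k = a j * b k * f k + a k * b j * f j := add_comm _ _
      _ ≤ a j * b k * f j + a k * b j * f k := h1
      _ = _ := add_comm _ _

/-- change of the law at one site -/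
theorem one_site {V : Type} [Fintype V] {a b : ℕ → ℝ≥0∞} (x : V) (W : V → ℕ → ℝ≥0∞)
    (F : (V → ℕ) → ℝ≥0∞)
    (h : ∀ η : V → ℕ, ∑' k, a k * F (Function.update η x k) ≤ ∑' k, b k * F (Function.update η x k)) :
    ∑' η : V → ℕ, (∏ y, (Function.update W x a) y (η y)) * F η ≤
      ∑' η : V → ℕ, (∏ y, (Function.update W x b) y (η y)) * F η := by
  have key : ∀ c : ℕ → ℝ≥0∞, ∑' η : V → ℕ, (∏ y, (Function.update W x c) y (η y)) * F η =
      ∑' ρ : {j // j ≠ x} → ℕ, (∏ y : {j // j ≠ x}, W y (ρ y)) *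
        ∑' k : ℕ, c k * F ((Equiv.funSplitAt x ℕ).symm (k, ρ)) := by
    intro c
    rw [← (Equiv.funSplitAt x ℕ).symm.tsum_eq, ENNReal.tsum_prod', ENNReal.tsum_comm]
    refine tsum_congr fun ρ => ?_
    rw [← ENNReal.tsum_mul_left]
    refine tsum_congr fun k => ?_
    rw [Fintype.prod_eq_mul_prod_subtype_ne (fun y => (Function.update W x c) y
      (((Equiv.funSplitAt x ℕ).symm (k, ρ)) y)) x]
    have e1 : (Function.update W x c) x (((Equiv.funSplitAt x ℕ).symm (k, ρ)) x) = c k := by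
      simp [Equiv.funSplitAt, Equiv.piSplitAt]
    have e2 : ∀ y : {j // j ≠ x}, (Function.update W x c) (y : V)
        (((Equiv.funSplitAt x ℕ).symm (k, ρ)) (y : V)) = W y (ρ y) := by
      rintro ⟨y, hy⟩
      simp [Equiv.funSplitAt, Equiv.piSplitAt, hy]
    rw [e1, Finset.prod_congr rfl fun y _ => e2 y]
    ring
  rw [key, key]
  refine ENNReal.tsum_le_tsum fun ρ => mul_le_mul' le_rfl ?_
  have e3 : ∀ k, (Equiv.funSplitAt x ℕ).symm (k, ρ) =
      Function.update ((Equiv.funSplitAt x ℕ).symm (0, ρ)) x k := by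
    intro k
    funext y
    by_cases hy : y = x
    · subst hy
      simp [Equiv.funSplitAt, Equiv.piSplitAt]
    · simp [Equiv.funSplitAt, Equiv.piSplitAt, hy]
  have e4 := h ((Equiv.funSplitAt x ℕ).symm (0, ρ))
  calc ∑' k : ℕ, a k * F ((Equiv.funSplitAt x ℕ).symm (k, ρ))
      = ∑' k : ℕ, a k * F (Function.update ((Equiv.funSplitAt x ℕ).symm (0, ρ)) x k) :=
        tsum_congr fun k => congrArg (fun z => a k * F z) (e3 k)
    _ ≤ ∑' k : ℕ, b k * F (Function.update ((Equiv.funSplitAt x ℕ).symm (0, ρ)) x k) := e4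
    _ = _ := tsum_congr fun k => congrArg (fun z => b k * F z) (e3 k).symm

/-- product laws -/
theorem prod_mono {V : Type} [Fintype V] {a b : ℕ → ℝ≥0∞} (F : (V → ℕ) → ℝ≥0∞)
    (h : ∀ (x : V) (η : V → ℕ),
      ∑' k, a k * F (Function.update η x k) ≤ ∑' k, b k * F (Function.update η x k)) :
    ∑' η : V → ℕ, prw a η * F η ≤ ∑' η : V → ℕ, prw b η * F η := by
  have key : ∀ S : Finset V, ∑' η : V → ℕ, prw a η * F η ≤
      ∑' η : V → ℕ, (∏ y, (if y ∈ S then b else a) (η y)) * F η := by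
    intro S
    induction S using Finset.induction_on with
    | empty => simp [prw]
    | insert x S hx ih =>
      refine ih.trans ?_
      have h1 := one_site (a := a) (b := b) x (fun y => if y ∈ S then b else a) F (h x)
      have e1 : Function.update (fun y => if y ∈ S then b else a) x a =
          fun y => if y ∈ S then b else a := by
        funext y
        by_cases hy : y = x
        · subst hy
          simp [hx]
        · simp [hy]
      have e2 : Function.update (fun y => if y ∈ S then b else a) x b =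
          fun y => if y ∈ insert x S then b else a := by
        funext y
        by_cases hy : y = x
        · subst hy
          simp
        · simp [hy]
      rw [e1, e2] at h1
      exact h1
  have h1 := key Finset.univ
  simpa [prw] using h1

theorem update_mono' {V : Type} (η : V → ℕ) (x : V) : Monotone (fun k => Function.update η x k) := by
  intro k j h y
  show Function.update η x k y ≤ Function.update η x j y
  by_cases hy : y = x
  · subst hy
    rw [Function.update_self, Function.update_self]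
    exact h
  · rw [Function.update_of_ne hy, Function.update_of_ne hy]

/-- stochastic domination of the product laws, increasing functions -/
theorem prod_le_mono {V : Type} [Fintype V] {a b : ℕ → ℝ≥0∞} (ha : ∑' k, a k = 1)
    (hb : ∑' k, b k = 1) (hab : ∀ k j, k ≤ j → a j * b k ≤ a k * b j) {F : (V → ℕ) → ℝ≥0∞}
    (hF : Monotone F) : ∑' η : V → ℕ, prw a η * F η ≤ ∑' η : V → ℕ, prw b η * F η :=
  prod_mono F fun x η => single_mono ha hb hab fun _ _ h => hF (update_mono' η x h)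

/-- stochastic domination of the product laws, decreasing functions -/
theorem prod_le_anti {V : Type} [Fintype V] {a b : ℕ → ℝ≥0∞} (ha : ∑' k, a k = 1)
    (hb : ∑' k, b k = 1) (hab : ∀ k j, k ≤ j → a j * b k ≤ a k * b j) {F : (V → ℕ) → ℝ≥0∞}
    (hF : Antitone F) : ∑' η : V → ℕ, prw b η * F η ≤ ∑' η : V → ℕ, prw a η * F η :=
  prod_mono F fun x η => single_anti ha hb hab fun _ _ h => hF (update_mono' η x h)

/-- the single site laws have a monotone likelihood ratio -/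
theorem mlr (m : Model) (K : ℕ) (hK : 2 ≤ K) (φ1 φ2 : ℝ) (h1 : 0 < φ1) (h2 : 0 < φ2)
    (hK1 : 2 * φ1 ≤ m.g K) (hK2 : 2 * φ2 ≤ m.g K) (h12 : φ1 ≤ φ2) (k j : ℕ) (hkj : k ≤ j) :
    (wf m φ1 h1).m1 K j * (wf m φ2 h2).m1 K k ≤ (wf m φ1 h1).m1 K k * (wf m φ2 h2).m1 K j := by
  have hZ1 := ZI.R2aux.tsum_wt_pos (wf m φ1 h1) K hK hK1
  have hZ2 := ZI.R2aux.tsum_wt_pos (wf m φ2 h2) K hK hK2
  have hw1 := fun i => ZI.R2aux.wt_pos (wf m φ1 h1) K hK i
  have hw2 := fun i => ZI.R2aux.wt_pos (wf m φ2 h2) K hK i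
  unfold ZI.Model.m1
  rw [← ENNReal.ofReal_mul (div_nonneg (hw1 j).le hZ1.le),
    ← ENNReal.ofReal_mul (div_nonneg (hw1 k).le hZ1.le)]
  refine ENNReal.ofReal_le_ofReal ?_
  rw [div_mul_div_comm, div_mul_div_comm]
  refine div_le_div_of_nonneg_right ?_ (by positivity)
  unfold ZI.Model.wt
  show φ1 ^ j / (∏ i ∈ Finset.range j, m.gK K (i + 1)) * (φ2 ^ k / ∏ i ∈ Finset.range k, m.gK K (i + 1)) ≤
    φ1 ^ k / (∏ i ∈ Finset.range k, m.gK K (i + 1)) * (φ2 ^ j / ∏ i ∈ Finset.range j, m.gK K (i + 1))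
  rw [div_mul_div_comm, div_mul_div_comm, mul_comm (∏ i ∈ Finset.range k, m.gK K (i + 1))]
  refine div_le_div_of_nonneg_right ?_ ?_
  · obtain ⟨i, rfl⟩ := Nat.exists_eq_add_of_le hkj
    rw [pow_add, pow_add]
    have h3 : φ1 ^ i ≤ φ2 ^ i := pow_le_pow_left₀ h1.le h12 i
    have h4 : 0 ≤ φ1 ^ k * φ2 ^ k := by positivity
    nlinarith
  · exact mul_nonneg (Finset.prod_nonneg fun i _ => ZI.R2aux.gK_nonneg m K _)
      (Finset.prod_nonneg fun i _ => ZI.R2aux.gK_nonneg m K _)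

theorem wf_w {d : ℕ} {m : Model} {δ : ℝ} (q : Par d m δ) (φ : ℝ) (h : 0 < φ)
    (hK : 2 * φ ≤ m.g q.K) : (q.wf φ h hK).w = q.w := by
  funext a
  cases a with
  | none => rfl
  | some l => rfl

theorem wf_EE {d : ℕ} {m : Model} {δ : ℝ} (q : Par d m δ) (φ : ℝ) (h : 0 < φ)
    (hK : 2 * φ ≤ m.g q.K) (N : ℕ) (F : (Tor d q.M → ℕ) → List (Let d q.M (q.K + 1)) → ℝ≥0∞) :
    (q.wf φ h hK).EE N F =
      ∑' η : Tor d q.M → ℕ, prw ((wf m φ h).m1 q.K) η * ZI.EvE q.w N (F η) := by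
  unfold Par.EE
  refine tsum_congr fun η => ?_
  rw [wf_w]
  rfl

end ZP.MF

namespace ZP.Rows

open ZP

variable {d : ℕ}

theorem mono_fug (m : Model) (d : ℕ) (δ : ℝ) (q : Par d m δ) (φ1 φ2 : ℝ) (h1 : 0 < φ1) (h2 : 0 < φ2)
    (hK1 : 2 * φ1 ≤ m.g q.K) (hK2 : 2 * φ2 ≤ m.g q.K) (h12 : φ1 ≤ φ2) (N : ℕ)
    (F : (Tor d q.M → ℕ) → List (Let d q.M (q.K + 1)) → ℝ≥0∞) (hF : ∀ w, Monotone (fun η => F η w)) :
    (q.wf φ1 h1 hK1).EE N F ≤ (q.wf φ2 h2 hK2).EE N F := by
  have key : Monotone (fun η : Tor d q.M → ℕ => ZI.EvE q.w N (F η)) := fun η η' h =>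
    ZI.EvE_mono q.w N fun w _ => hF w h
  rw [MF.wf_EE, MF.wf_EE]
  exact MF.prod_le_mono (ZI.R2aux.tsum_m1 (wf m φ1 h1) q.K q.K_ge hK1)
    (ZI.R2aux.tsum_m1 (wf m φ2 h2) q.K q.K_ge hK2)
    (MF.mlr m q.K q.K_ge φ1 φ2 h1 h2 hK1 hK2 h12) key

theorem mono_fug_dec (m : Model) (d : ℕ) (δ : ℝ) (q : Par d m δ) (φ1 φ2 : ℝ) (h1 : 0 < φ1)
    (h2 : 0 < φ2) (hK1 : 2 * φ1 ≤ m.g q.K) (hK2 : 2 * φ2 ≤ m.g q.K) (h12 : φ1 ≤ φ2) (N : ℕ)
    (E : Ev d q.M q.K) (hE : ∀ w η η', η ≤ η' → E η' w → E η w) :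
    (q.wf φ2 h2 hK2).PP N E ≤ (q.wf φ1 h1 hK1).PP N E := by
  have key : Antitone (fun η : Tor d q.M → ℕ =>
      ZI.EvE q.w N (fun w => if E η w then (1 : ℝ≥0∞) else 0)) := fun η η' h =>
    ZI.EvE_mono q.w N fun w _ => by
      by_cases h3 : E η' w
      · rw [if_pos h3, if_pos (hE w η η' h h3)]
      · rw [if_neg h3]
        exact zero_le
  have e1 : ∀ (φ : ℝ) (h : 0 < φ) (hK : 2 * φ ≤ m.g q.K), (q.wf φ h hK).PP N E =
      ∑' η : Tor d q.M → ℕ, prw ((wf m φ h).m1 q.K) η *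
        ZI.EvE q.w N (fun w => if E η w then (1 : ℝ≥0∞) else 0) :=
    fun φ h hK => MF.wf_EE q φ h hK N _
  rw [e1, e1]
  exact MF.prod_le_anti (ZI.R2aux.tsum_m1 (wf m φ1 h1) q.K q.K_ge hK1)
    (ZI.R2aux.tsum_m1 (wf m φ2 h2) q.K q.K_ge hK2)
    (MF.mlr m q.K q.K_ge φ1 φ2 h1 h2 hK1 hK2 h12) key

end ZP.Rows
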