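import Pool.Agent.ZP.SpA

/-! # Row SP: sprinkled domination

Two independent stationary configurations with the fugacities `φ1 < φ2`, driven by the same letters, are ordered at a
given site after a polynomial time, up to the probability `exp (- sqrt l)`. -/

set_option autoImplicit false

open scoped ENNReal BigOperators Classical

noncomputable section

namespace ZPD

open ZI ZI.Rows ZI.R2aux ZP

/-! ### numbers -/

theorem num_x (A : ℝ) (a : ℕ) (c : ℝ) (hc : 0 < c) : ∃ X : ℝ, 1 ≤ X ∧ ∀ x ≥ X,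
    A * x ^ a * Real.exp (-(c * x ^ 3)) ≤ Real.exp (-(x ^ 2)) := by
  have h1 := Real.tendsto_pow_mul_exp_neg_atTop_nhds_zero a
  have h2 : Filter.Tendsto (fun x : ℝ => A * (x ^ a * Real.exp (-x))) Filter.atTop (nhds (A * 0)) :=
    h1.const_mul A
  rw [mul_zero] at h2
  have h3 : ∀ᶠ x : ℝ in Filter.atTop, A * (x ^ a * Real.exp (-x)) < 1 :=
    h2.eventually_lt_const (by norm_num)
  obtain ⟨X1, hX1⟩ := Filter.eventually_atTop.1 h3
  refine ⟨max (max X1 1) (2 / c), le_trans (le_max_right _ _) (le_max_left _ _), ?_⟩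
  intro x hx
  have hx1 : X1 ≤ x := le_trans (le_trans (le_max_left _ _) (le_max_left _ _)) hx
  have hx2 : 1 ≤ x := le_trans (le_trans (le_max_right _ _) (le_max_left _ _)) hx
  have hx3 : 2 / c ≤ x := le_trans (le_max_right _ _) hx
  have h4 := (hX1 x hx1).le
  have h5 : 2 ≤ c * x := by
    rw [div_le_iff₀ hc] at hx3
    linarith
  have h6 : x - c * x ^ 3 ≤ -(x ^ 2) := by
    have : 2 * x ^ 2 ≤ c * x * x ^ 2 := mul_le_mul_of_nonneg_right h5 (sq_nonneg x)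
    nlinarith
  calc A * x ^ a * Real.exp (-(c * x ^ 3))
      = (A * (x ^ a * Real.exp (-x))) * Real.exp (x - c * x ^ 3) := by
        have : Real.exp (-(c * x ^ 3)) = Real.exp (-x) * Real.exp (x - c * x ^ 3) := by
          rw [← Real.exp_add]
          congr 1
          ring
        rw [this]
        ring
    _ ≤ 1 * Real.exp (x - c * x ^ 3) := mul_le_mul_of_nonneg_right h4 (Real.exp_pos _).le
    _ ≤ Real.exp (-(x ^ 2)) := by
        rw [one_mul]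
        exact Real.exp_le_exp.2 h6

theorem num (A : ℝ) (a : ℕ) (c : ℝ) (hc : 0 < c) : ∃ l0 : ℕ, 1 ≤ l0 ∧ ∀ l : ℕ, l0 ≤ l →
    A * (l : ℝ) ^ a * Real.exp (-(c * Real.sqrt (Real.sqrt l) ^ 3)) ≤ Real.exp (-Real.sqrt l) := by
  obtain ⟨X, hX1, hX⟩ := num_x A (4 * a) c hc
  obtain ⟨l0, hl0⟩ := exists_nat_ge (X ^ 4)
  refine ⟨l0 + 1, by omega, ?_⟩
  intro l hl
  have h1 : X ^ 4 ≤ (l : ℝ) := by
    have : (l0 : ℝ) ≤ l := by exact_mod_cast (by omega : l0 ≤ l)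
    linarith
  have h2 : Real.sqrt (Real.sqrt l) ^ 2 = Real.sqrt l := Real.sq_sqrt (Real.sqrt_nonneg _)
  have h3 : Real.sqrt (Real.sqrt l) ^ 4 = l := by
    have : Real.sqrt (Real.sqrt l) ^ 4 = (Real.sqrt (Real.sqrt l) ^ 2) ^ 2 := by ring
    rw [this, h2, Real.sq_sqrt (Nat.cast_nonneg l)]
  have h4 : X ≤ Real.sqrt (Real.sqrt l) := by
    have h5 : X ^ 4 ≤ Real.sqrt (Real.sqrt l) ^ 4 := by rw [h3]; exact h1
    exact le_of_pow_le_pow_left₀ (by norm_num) (Real.sqrt_nonneg _) h5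
  have h5 := hX _ h4
  rw [h2] at h5
  rw [pow_mul, h3] at h5
  exact h5

/-- iteration -/
theorem iter (β : ℕ → ℝ) (κ ε : ℝ) (hκ0 : 0 ≤ κ) (hκ1 : κ ≤ 1) (hε : 0 ≤ ε) (hβ : ∀ n, 0 ≤ β n)
    (h : ∀ n, β (n + 1) + κ * β n ≤ β n + ε) (n : ℕ) :
    β n ≤ Real.exp (-(κ * n)) * β 0 + n * ε := by
  have h1 : ∀ n : ℕ, β n ≤ (1 - κ) ^ n * β 0 + n * ε := by
    intro n
    induction n with
    | zero => simp
    | succ n ih =>
      have h2 := h n
      have h3 : (0 : ℝ) ≤ 1 - κ := by linarith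
      have h4 : (1 - κ) * β n ≤ (1 - κ) * ((1 - κ) ^ n * β 0 + n * ε) :=
        mul_le_mul_of_nonneg_left ih h3
      have h5 : (1 - κ) * (n * ε) ≤ 1 * (n * ε) :=
        mul_le_mul_of_nonneg_right (by linarith) (by positivity)
      rw [pow_succ]
      push_cast
      nlinarith
  refine (h1 n).trans ?_
  have h2 : (1 - κ) ^ n ≤ Real.exp (-(κ * n)) := by
    have h3 : 1 - κ ≤ Real.exp (-κ) := by
      have := Real.add_one_le_exp (-κ)
      linarith
    calc (1 - κ) ^ n ≤ (Real.exp (-κ)) ^ n := pow_le_pow_left₀ (by linarith) h3 n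
      _ = Real.exp (-(κ * n)) := by
          rw [← Real.exp_nat_mul]
          congr 1
          ring
  have h3 := mul_le_mul_of_nonneg_right h2 (hβ 0)
  linarith

end ZPD

namespace ZP

open ZI ZI.Rows ZPD

/-- sprinkled domination -/
theorem sprinkle (m : Model) (d : ℕ) (hd : 0 < d) (φlo φhi : ℝ) (hlo : 0 < φlo) (hhi : 0 < φhi) :
    ∃ Cs l0 : ℕ, ∀ l ≥ l0, ∀ (φ1 φ2 : ℝ) (h1 : 0 < φ1) (h2 : 0 < φ2), φlo ≤ φ1 → φ2 ≤ φhi →
      φ1 < φ2 → 1 ≤ (φ2 - φ1) ^ 8 * l → ∀ q : ZI.Par d (wf m φhi hhi), l ^ 3 ≤ q.M → l ≤ q.K →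
      ∀ (x : Tor d q.M) (u : ℕ), l ^ Cs ≤ u →
      ∑' η : Tor d q.M → ℕ, prw ((wf m φ2 h2).m1 q.K) η *
        ∑' ζ : Tor d q.M → ℕ, prw ((wf m φ1 h1).m1 q.K) ζ *
          PrE q.w ((u + 1) * q.N1) (fun w => ∃ i, u * q.N1 ≤ i ∧ i ≤ (u + 1) * q.N1 ∧
            (w.take i).foldl ZI.stepA η x < (w.take i).foldl ZI.stepA ζ x) ≤
      ENNReal.ofReal (Real.exp (-Real.sqrt l)) := by
  have hGp : 0 < m.Gp := by have := m.le_Gp; linarith
  obtain ⟨C0, hC0, hwin⟩ := win_lb (wf m φhi hhi) d hd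
  obtain ⟨C1, c, hC1, hc, heps⟩ := eps_le m d hd φhi hhi
  obtain ⟨C2, hC2, hmom⟩ := exp_mom m φhi hhi
  have hC0' : (1 : ℝ) ≤ C0 := by exact_mod_cast hC0
  -- constants
  set D : ℕ := C0 * (5 * C0) ^ d with hD
  set E : ℕ := C0 + 1 + 2 * d with hE
  have hDpos : 0 < D := by positivity
  set c' : ℝ := min (min (1 / C0) c) (Real.log (6 / 5)) with hc'
  have hlog : 0 < Real.log (6 / 5) := Real.log_pos (by norm_num)
  have hc'p : 0 < c' := lt_min (lt_min (by positivity) hc) hlog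
  have hc'1 : c' ≤ 1 / C0 := (min_le_left _ _).trans (min_le_left _ _)
  have hc'2 : c' ≤ c := (min_le_left _ _).trans (min_le_right _ _)
  have hc'3 : c' ≤ Real.log (6 / 5) := min_le_right _ _
  have hc'4 : c' ≤ 1 := hc'1.trans (by rw [div_le_one (by linarith)]; exact hC0')
  set a : ℕ := E + 4 + 2 * d with ha
  set A : ℝ := (1 + m.Gp) * (C2 + D * C0 + D * (C1 * (2 * C0) * (5 * C0) ^ d) + 2 * D + D * C1) with hA
  obtain ⟨l0, hl01, hl0⟩ := num A a c' hc'p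
  refine ⟨E + 4, l0 + D * C0, ?_⟩
  intro l hl φ1 φ2 h1 h2 _ hle2 hlt hgap q hM hK x u hu
  have hle1 : φ1 ≤ φhi := by linarith
  have hl1 : 1 ≤ l := by omega
  have hl1' : (1 : ℝ) ≤ l := by exact_mod_cast hl1
  have hlM : l < q.M := by
    have h3 : l ≤ l ^ 3 := Nat.le_self_pow (by norm_num) l
    rcases Nat.lt_or_ge l 2 with h4 | h4
    · have := q.M_ge; omega
    · have h5 : l < l ^ 3 := by
        calc l = l ^ 1 := (pow_one l).symm
          _ < l ^ 3 := Nat.pow_lt_pow_right (by omega) (by norm_num)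
      omega
  -- parameters of the window
  set W : ℕ := C0 * l ^ 2 with hW
  set N : ℕ := W * q.N1 with hN
  set R : ℕ := 2 * C0 * l ^ 2 with hR
  have hWr : (W : ℝ) = C0 * (l : ℝ) ^ 2 := by rw [hW]; push_cast; ring
  have hNp : (N : ℝ) * q.p ≤ W := by
    rw [hN]
    push_cast
    rw [mul_assoc]
    have h3 := q.p_ub
    have h4 : (0 : ℝ) ≤ W := by positivity
    nlinarith
  set dsp : ℝ := C0 * Real.exp (-(l : ℝ) / C0) with hdsp
  have hdsp0 : 0 ≤ dsp := by positivity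
  set q0 : ℝ := 1 / (C0 * (l : ℝ) ^ C0) with hq0
  have hq0p : 0 < q0 := by positivity
  have hq01 : q0 ≤ 1 := by
    rw [hq0, div_le_one (by positivity)]
    have : (1 : ℝ) ≤ (l : ℝ) ^ C0 := one_le_pow₀ hl1'
    nlinarith
  set ε : ℝ := l * dsp + C1 * l * (1 + (W : ℝ)) * (2 * R + 1) ^ d * (2 / 3) ^ l +
        2 * l * Real.exp (- (c * (φ2 - φ1) ^ 2 * l)) + C1 * (5 / 6) ^ l with hεd
  have hε0 : 0 ≤ ε := by positivity
  set Q : ℕ := (2 * R + 1) ^ d with hQ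
  have hQ1 : 1 ≤ Q := Nat.one_le_pow _ _ (by omega)
  -- the recursion
  have hrec : ∀ n : ℕ, bs q ((wf m φ2 h2).m1 q.K) ((wf m φ1 h1).m1 q.K) ((n + 1) * N) x +
      ENNReal.ofReal q0 / (l * (Q : ℝ≥0∞)) *
        bs q ((wf m φ2 h2).m1 q.K) ((wf m φ1 h1).m1 q.K) (n * N) x ≤
      bs q ((wf m φ2 h2).m1 q.K) ((wf m φ1 h1).m1 q.K) (n * N) x + ENNReal.ofReal ε := by
    intro n
    have hn : (n + 1) * N = n * N + N := by ring
    rw [hn]
    refine rec_ineq q φ1 φ2 h1 h2 hd l N hl1 (ENNReal.ofReal q0) (ENNReal.ofReal dsp)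
      (by rw [← ENNReal.ofReal_one]; exact ENNReal.ofReal_le_ofReal hq01) R ?_ (n * N)
      (ENNReal.ofReal ε) ?_ x
    · intro η ζ z v hv hz hy
      exact hwin q l hl1 η ζ z v hv hz hy
    · intro z
      exact heps q φ1 φ2 h1 h2 hle2 hlt l R N (n * N) W dsp hK hlM (by positivity) hdsp0 hNp z
  -- the start
  have hone := wf_tsum m φhi φ1 h1 hle1 q.K q.K_ge q.K_big
  have hstart : bs q ((wf m φ2 h2).m1 q.K) ((wf m φ1 h1).m1 q.K) 0 x ≤ ENNReal.ofReal C2 := by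
    unfold bs
    refine (JE_mono _ _ _ 0 (G := fun _ ζ l => (fun ζ : Tor d q.M → ℕ => (ζ x : ℝ≥0∞)) (l.foldl ZI.stepA ζ))
      fun η ζ l _ => ?_).trans ?_
    · show ((l.foldl ZI.stepA ζ x - l.foldl ZI.stepA η x : ℕ) : ℝ≥0∞) ≤
        ((l.foldl ZI.stepA ζ x : ℕ) : ℝ≥0∞)
      exact_mod_cast Nat.sub_le _ _
    · rw [JE_snd q φ1 φ2 h1 h2 hle1 hd hle2 0 (fun ζ => (ζ x : ℝ≥0∞))]
      have h4 := prw_marg ((wf m φ1 h1).m1 q.K) hone x (fun k => (k : ℝ≥0∞))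
      show ∑' ζ : Tor d q.M → ℕ, prw ((wf m φ1 h1).m1 q.K) ζ * (ζ x : ℝ≥0∞) ≤ _
      rw [h4]
      exact (hmom φ1 h1 hle1 q.K q.K_ge q.K_big).2.1
  have hfin : ∀ n : ℕ, bs q ((wf m φ2 h2).m1 q.K) ((wf m φ1 h1).m1 q.K) n x ≠ ⊤ := by
    intro n
    have h3 := bs_anti q φ1 φ2 h1 h2 hd x 0 n
    rw [zero_add] at h3
    exact ne_top_of_le_ne_top ENNReal.ofReal_ne_top (h3.trans hstart)
  -- real numbers
  set κ : ℝ := q0 / (l * Q) with hκ
  have hQr : (1 : ℝ) ≤ Q := by exact_mod_cast hQ1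
  have hκp : 0 < κ := by positivity
  have hκ1 : κ ≤ 1 := by
    rw [hκ, div_le_one (by positivity)]
    nlinarith
  have hκe : ENNReal.ofReal q0 / (l * (Q : ℝ≥0∞)) = ENNReal.ofReal κ := by
    have hlQ : (l : ℝ≥0∞) * (Q : ℝ≥0∞) = ENNReal.ofReal ((l : ℝ) * Q) := by
      rw [ENNReal.ofReal_mul (by positivity), ENNReal.ofReal_natCast, ENNReal.ofReal_natCast]
    rw [hlQ, hκ]
    exact (ENNReal.ofReal_div_of_pos (by positivity : (0 : ℝ) < (l : ℝ) * Q)).symm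
  set β : ℕ → ℝ := fun n => (bs q ((wf m φ2 h2).m1 q.K) ((wf m φ1 h1).m1 q.K) (n * N) x).toReal with hβ
  have hβe : ∀ n, bs q ((wf m φ2 h2).m1 q.K) ((wf m φ1 h1).m1 q.K) (n * N) x = ENNReal.ofReal (β n) :=
    fun n => (ENNReal.ofReal_toReal (hfin _)).symm
  have hβ0 : ∀ n, 0 ≤ β n := fun n => ENNReal.toReal_nonneg
  have hβr : ∀ n, β (n + 1) + κ * β n ≤ β n + ε := by
    intro n
    have h3 := hrec n
    rw [hκe, hβe, hβe, ← ENNReal.ofReal_mul hκp.le,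
      ← ENNReal.ofReal_add (hβ0 _) (mul_nonneg hκp.le (hβ0 _)), ← ENNReal.ofReal_add (hβ0 _) hε0,
      ENNReal.ofReal_le_ofReal_iff (add_nonneg (hβ0 _) hε0)] at h3
    exact h3
  have hβ00 : β 0 ≤ C2 := by
    have h3 := hstart
    have h4 := hβe 0
    rw [zero_mul] at h4
    rw [h4, ENNReal.ofReal_le_ofReal_iff hC2.le] at h3
    exact h3
  set n : ℕ := D * l ^ (E + 1) with hn
  have hit := iter β κ ε hκp.le hκ1 hε0 hβ0 hβr n
  -- the time
  have htime : n * N ≤ u * q.N1 := by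
    rw [hN, hn, hW]
    have h3 : D * C0 ≤ l := by omega
    have h4 : D * l ^ (E + 1) * (C0 * l ^ 2) ≤ u := by
      refine le_trans ?_ hu
      calc D * l ^ (E + 1) * (C0 * l ^ 2) = (D * C0) * l ^ (E + 3) := by ring
        _ ≤ l * l ^ (E + 3) := Nat.mul_le_mul_right _ h3
        _ = l ^ (E + 4) := by ring
    calc D * l ^ (E + 1) * (C0 * l ^ 2 * q.N1) = (D * l ^ (E + 1) * (C0 * l ^ 2)) * q.N1 := by ring
      _ ≤ u * q.N1 := Nat.mul_le_mul_right _ h4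
  obtain ⟨j, hj⟩ := Nat.exists_eq_add_of_le htime
  have hB : bs q ((wf m φ2 h2).m1 q.K) ((wf m φ1 h1).m1 q.K) (u * q.N1) x ≤ ENNReal.ofReal (β n) := by
    rw [hj, ← hβe]
    exact bs_anti q φ1 φ2 h1 h2 hd x (n * N) j
  have hmain := unit_le q φ1 φ2 h1 h2 hd u x
  have hfinal : (1 + m.Gp) * β n ≤ Real.exp (-Real.sqrt l) := by
    set y := Real.sqrt (Real.sqrt l) with hy
    have hy2 : y ^ 2 = Real.sqrt l := Real.sq_sqrt (Real.sqrt_nonneg _)
    have hy4 : y ^ 4 = l := by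
      have : y ^ 4 = (y ^ 2) ^ 2 := by ring
      rw [this, hy2, Real.sq_sqrt (Nat.cast_nonneg l)]
    have hy0 : 0 ≤ y := Real.sqrt_nonneg _
    have hy1 : 1 ≤ y := by
      by_contra h
      push Not at h
      have : y ^ 4 < 1 := pow_lt_one₀ hy0 h (by norm_num)
      rw [hy4] at this
      linarith
    have hly : y ^ 3 ≤ l := by
      rw [← hy4]
      exact pow_le_pow_right₀ hy1 (by norm_num)
    set X : ℝ := Real.exp (-(c' * y ^ 3)) with hX
    have hXp : 0 < X := Real.exp_pos _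
    have hy3 : 0 ≤ y ^ 3 := by positivity
    -- the exponentials
    have x1 : Real.exp (-(l : ℝ)) ≤ X := by
      refine Real.exp_le_exp.2 (neg_le_neg ?_)
      calc c' * y ^ 3 ≤ 1 * y ^ 3 := mul_le_mul_of_nonneg_right hc'4 hy3
        _ ≤ l := by linarith
    have x2 : Real.exp (-(l : ℝ) / C0) ≤ X := by
      refine Real.exp_le_exp.2 ?_
      rw [neg_div, neg_le_neg_iff]
      calc c' * y ^ 3 ≤ (1 / C0) * y ^ 3 := mul_le_mul_of_nonneg_right hc'1 hy3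
        _ ≤ (1 / C0) * l := mul_le_mul_of_nonneg_left hly (by positivity)
        _ = l / C0 := by ring
    have x3 : ((5 : ℝ) / 6) ^ l ≤ X := by
      have h3 : ((5 : ℝ) / 6) ^ l = Real.exp (-(Real.log (6 / 5) * l)) := by
        have h4 : (5 : ℝ) / 6 = Real.exp (-Real.log (6 / 5)) := by
          rw [Real.exp_neg, Real.exp_log (by norm_num)]
          norm_num
        rw [h4, ← Real.exp_nat_mul]
        congr 1
        ring
      rw [h3]
      refine Real.exp_le_exp.2 (neg_le_neg ?_)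
      calc c' * y ^ 3 ≤ Real.log (6 / 5) * y ^ 3 := mul_le_mul_of_nonneg_right hc'3 hy3
        _ ≤ Real.log (6 / 5) * l := mul_le_mul_of_nonneg_left hly hlog.le
    have x4 : ((2 : ℝ) / 3) ^ l ≤ X :=
      (pow_le_pow_left₀ (by norm_num) (by norm_num) l).trans x3
    have x5 : Real.exp (- (c * (φ2 - φ1) ^ 2 * l)) ≤ X := by
      refine Real.exp_le_exp.2 (neg_le_neg ?_)
      -- `(φ2 - φ1) ^ 2 * l ≥ y ^ 3`
      set δ := (φ2 - φ1) ^ 2 with hδ
      have hδ0 : 0 ≤ δ := sq_nonneg _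
      have h3 : 1 ≤ (δ * y) ^ 4 := by
        have h4 : (φ2 - φ1) ^ 8 * l = (δ * y) ^ 4 := by
          rw [← hy4, hδ]
          ring
        rw [← h4]
        exact hgap
      have h5 : 1 ≤ δ * y := by
        by_contra h
        push Not at h
        have : (δ * y) ^ 4 < 1 := pow_lt_one₀ (by positivity) h (by norm_num)
        linarith
      have h6 : y ^ 3 ≤ δ * l := by
        rw [← hy4]
        calc y ^ 3 = 1 * y ^ 3 := (one_mul _).symm
          _ ≤ (δ * y) * y ^ 3 := mul_le_mul_of_nonneg_right h5 hy3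
          _ = δ * y ^ 4 := by ring
      calc c' * y ^ 3 ≤ c * y ^ 3 := mul_le_mul_of_nonneg_right hc'2 hy3
        _ ≤ c * (δ * l) := mul_le_mul_of_nonneg_left h6 hc.le
        _ = c * δ * l := by ring
    -- the first term
    have hRl : (2 * (R : ℝ) + 1) ≤ 5 * C0 * (l : ℝ) ^ 2 := by
      rw [hR]
      push_cast
      have h3 : (1 : ℝ) ≤ (l : ℝ) ^ 2 := one_le_pow₀ hl1'
      nlinarith
    have hQl : (2 * (R : ℝ) + 1) ^ d ≤ (5 * C0) ^ d * (l : ℝ) ^ (2 * d) := by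
      calc (2 * (R : ℝ) + 1) ^ d ≤ (5 * C0 * (l : ℝ) ^ 2) ^ d :=
            pow_le_pow_left₀ (by positivity) hRl d
        _ = (5 * C0) ^ d * (l : ℝ) ^ (2 * d) := by rw [mul_pow, ← pow_mul]
    have hκn : (l : ℝ) ≤ κ * n := by
      have hQc : (Q : ℝ) = (2 * (R : ℝ) + 1) ^ d := by rw [hQ]; push_cast; ring
      have h3 : κ = 1 / (C0 * (l : ℝ) ^ C0 * (l * Q)) := by
        rw [hκ, hq0, div_div]
      have h4 : (C0 : ℝ) * (l : ℝ) ^ C0 * (l * Q) ≤ D * (l : ℝ) ^ E := by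
        rw [hQc, hD, hE]
        push_cast
        calc (C0 : ℝ) * (l : ℝ) ^ C0 * (l * (2 * (R : ℝ) + 1) ^ d)
            ≤ C0 * (l : ℝ) ^ C0 * (l * ((5 * C0) ^ d * (l : ℝ) ^ (2 * d))) := by
              gcongr
          _ = C0 * (5 * C0) ^ d * (l : ℝ) ^ (C0 + 1 + 2 * d) := by ring
      have h5 : 1 / (D * (l : ℝ) ^ E) ≤ κ := by
        rw [h3]
        exact one_div_le_one_div_of_le (by positivity) h4
      have hDr : (0 : ℝ) < D := by exact_mod_cast hDpos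
      calc (l : ℝ) = (1 / (D * (l : ℝ) ^ E)) * (D * (l : ℝ) ^ (E + 1)) := by
            field_simp
            ring
        _ ≤ κ * (D * (l : ℝ) ^ (E + 1)) := mul_le_mul_of_nonneg_right h5 (by positivity)
        _ = κ * n := by rw [hn]; push_cast; ring
    have t0 : Real.exp (-(κ * n)) * β 0 ≤ C2 * X := by
      calc Real.exp (-(κ * n)) * β 0 ≤ Real.exp (-(l : ℝ)) * C2 :=
            mul_le_mul (Real.exp_le_exp.2 (neg_le_neg hκn)) hβ00 (hβ0 0) (Real.exp_pos _).le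
        _ ≤ X * C2 := mul_le_mul_of_nonneg_right x1 hC2.le
        _ = C2 * X := mul_comm _ _
    have hnr : (n : ℝ) = D * (l : ℝ) ^ (E + 1) := by rw [hn]; push_cast; ring
    have hDr : (0 : ℝ) < D := by exact_mod_cast hDpos
    have pw : ∀ i : ℕ, i ≤ a → (l : ℝ) ^ i ≤ (l : ℝ) ^ a := fun i hi => pow_le_pow_right₀ hl1' hi
    have hla : (1 : ℝ) ≤ (l : ℝ) ^ a := one_le_pow₀ hl1'
    have t1 : (n : ℝ) * (l * dsp) ≤ D * C0 * ((l : ℝ) ^ a * X) := by
      rw [hnr, hdsp]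
      calc D * (l : ℝ) ^ (E + 1) * (l * (C0 * Real.exp (-(l : ℝ) / C0)))
          = D * C0 * ((l : ℝ) ^ (E + 2) * Real.exp (-(l : ℝ) / C0)) := by ring
        _ ≤ D * C0 * ((l : ℝ) ^ a * X) := by
            refine mul_le_mul_of_nonneg_left ?_ (by positivity)
            exact mul_le_mul (pw _ (by omega)) x2 (Real.exp_pos _).le (by positivity)
    have t2 : (n : ℝ) * (C1 * l * (1 + (W : ℝ)) * (2 * R + 1) ^ d * (2 / 3) ^ l) ≤
        D * (C1 * (2 * C0) * (5 * C0) ^ d) * ((l : ℝ) ^ a * X) := by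
      have h3 : 1 + (W : ℝ) ≤ 2 * C0 * (l : ℝ) ^ 2 := by
        rw [hWr]
        have h4 : (1 : ℝ) ≤ (l : ℝ) ^ 2 := one_le_pow₀ hl1'
        nlinarith
      rw [hnr]
      calc D * (l : ℝ) ^ (E + 1) * (C1 * l * (1 + (W : ℝ)) * (2 * R + 1) ^ d * (2 / 3) ^ l)
          ≤ D * (l : ℝ) ^ (E + 1) * (C1 * l * (2 * C0 * (l : ℝ) ^ 2) *
              ((5 * C0) ^ d * (l : ℝ) ^ (2 * d)) * X) := by gcongr
        _ = D * (C1 * (2 * C0) * (5 * C0) ^ d) * ((l : ℝ) ^ a * X) := by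
            rw [ha]
            ring
    have t3 : (n : ℝ) * (2 * l * Real.exp (- (c * (φ2 - φ1) ^ 2 * l))) ≤
        2 * D * ((l : ℝ) ^ a * X) := by
      rw [hnr]
      calc D * (l : ℝ) ^ (E + 1) * (2 * l * Real.exp (- (c * (φ2 - φ1) ^ 2 * l)))
          = 2 * D * ((l : ℝ) ^ (E + 2) * Real.exp (- (c * (φ2 - φ1) ^ 2 * l))) := by ring
        _ ≤ 2 * D * ((l : ℝ) ^ a * X) := by
            refine mul_le_mul_of_nonneg_left ?_ (by positivity)
            exact mul_le_mul (pw _ (by omega)) x5 (Real.exp_pos _).le (by positivity)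
    have t4 : (n : ℝ) * (C1 * (5 / 6) ^ l) ≤ D * C1 * ((l : ℝ) ^ a * X) := by
      rw [hnr]
      calc D * (l : ℝ) ^ (E + 1) * (C1 * (5 / 6) ^ l) = D * C1 * ((l : ℝ) ^ (E + 1) * (5 / 6) ^ l) := by
            ring
        _ ≤ D * C1 * ((l : ℝ) ^ a * X) := by
            refine mul_le_mul_of_nonneg_left ?_ (by positivity)
            exact mul_le_mul (pw _ (by omega)) x3 (by positivity) (by positivity)
    have t0' : C2 * X ≤ C2 * ((l : ℝ) ^ a * X) := by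
      refine mul_le_mul_of_nonneg_left ?_ hC2.le
      nlinarith
    have hnum := hl0 l (by omega)
    refine le_trans ?_ hnum
    rw [← hy, ← hX]
    have h6 : β n ≤ (C2 + D * C0 + D * (C1 * (2 * C0) * (5 * C0) ^ d) + 2 * D + D * C1) *
        ((l : ℝ) ^ a * X) := by
      refine hit.trans ?_
      have h7 : (n : ℝ) * ε = (n : ℝ) * (l * dsp) +
          (n : ℝ) * (C1 * l * (1 + (W : ℝ)) * (2 * R + 1) ^ d * (2 / 3) ^ l) +
          (n : ℝ) * (2 * l * Real.exp (- (c * (φ2 - φ1) ^ 2 * l))) +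
          (n : ℝ) * (C1 * (5 / 6) ^ l) := by
        rw [hεd]
        ring
      rw [h7]
      calc _ ≤ C2 * ((l : ℝ) ^ a * X) + (D * C0 * ((l : ℝ) ^ a * X) +
            D * (C1 * (2 * C0) * (5 * C0) ^ d) * ((l : ℝ) ^ a * X) + 2 * D * ((l : ℝ) ^ a * X) +
            D * C1 * ((l : ℝ) ^ a * X)) :=
            add_le_add (t0.trans t0') (add_le_add (add_le_add (add_le_add t1 t2) t3) t4)
        _ = _ := by ring
    calc (1 + m.Gp) * β n ≤ (1 + m.Gp) * ((C2 + D * C0 + D * (C1 * (2 * C0) * (5 * C0) ^ d) +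
          2 * D + D * C1) * ((l : ℝ) ^ a * X)) := mul_le_mul_of_nonneg_left h6 (by linarith)
      _ = A * (l : ℝ) ^ a * X := by rw [hA]; ring
  calc _ ≤ ENNReal.ofReal (1 + m.Gp) *
        bs q ((wf m φ2 h2).m1 q.K) ((wf m φ1 h1).m1 q.K) (u * q.N1) x := hmain
    _ ≤ ENNReal.ofReal (1 + m.Gp) * ENNReal.ofReal (β n) := mul_le_mul_right hB _
    _ = ENNReal.ofReal ((1 + m.Gp) * β n) := by rw [ENNReal.ofReal_mul (by linarith)]
    _ ≤ _ := ENNReal.ofReal_le_ofReal hfinal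

end ZP
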