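import Pool.Agent.ZP.DCa
import Pool.Agent.ZP.SP

/-! # Row DC: decoupling in time by sprinkling -/

set_option autoImplicit false

open scoped ENNReal BigOperators Classical

noncomputable section

namespace ZP.Rows

open ZP ZP.DC

theorem decouple (m : Model) (d : ℕ) (hd : 0 < d) (φlo φhi : ℝ) (hlo : 0 < φlo) (hhi : 0 < φhi) :
    ∃ Cs l0 : ℕ, ∀ l ≥ l0, ∀ (φ1 φ2 : ℝ) (h1 : 0 < φ1) (h2 : 0 < φ2), φlo ≤ φ1 → φ2 ≤ φhi → φ1 < φ2 →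
    1 ≤ (φ2 - φ1) ^ 8 * l → ∀ (δ : ℝ) (q : Par d m δ) (hK1 : 2 * φ1 ≤ m.g q.K)
    (hK2 : 2 * φ2 ≤ m.g q.K), 2 * φhi ≤ m.g q.K → l ^ 3 ≤ q.M → l ≤ q.K →
    ∀ (t u1 u2 ρ : ℕ) (x : Pos d), l ^ Cs ≤ u1 → u1 ≤ u2 → 2 * ρ < q.M →
    ∀ A : Ev d q.M q.K, (∀ η w, A η w ↔ A η (w.take (t * q.N1))) → ∀ E : Ev d q.M q.K,
    (DecE q.N1 (Bt (tv x) ρ) u1 u2 E →
      (q.wf φ2 h2 hK2).PP ((t + u2) * q.N1) (fun η w => A η w ∧ sft q.N1 0 t E η w) ≤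
        (q.wf φ2 h2 hK2).PP (t * q.N1) A * (q.wf φ1 h1 hK1).PP (u2 * q.N1) E +
        (2 * ρ + 1) ^ d * (u2 - u1 + 1) * ENNReal.ofReal (Real.exp (-Real.sqrt l))) ∧
    (IncE q.N1 (Bt (tv x) ρ) u1 u2 E →
      (q.wf φ1 h1 hK1).PP ((t + u2) * q.N1) (fun η w => A η w ∧ sft q.N1 0 t E η w) ≤
        (q.wf φ1 h1 hK1).PP (t * q.N1) A * (q.wf φ2 h2 hK2).PP (u2 * q.N1) E +
        (2 * ρ + 1) ^ d * (u2 - u1 + 1) * ENNReal.ofReal (Real.exp (-Real.sqrt l))) := by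
  obtain ⟨Cs, l0, hs⟩ := sprinkle m d hd φlo φhi hlo hhi
  refine ⟨Cs, l0, fun l hl φ1 φ2 h1 h2 hlo1 hhi2 h12 hgap δ q hK1 hK2 hKhi hM hK t u1 u2 ρ x hu1
    hu12 _ A hA E => ?_⟩
  have hsp : ∀ (v : Tor d q.M) (u : ℕ), u1 ≤ u → ∑' η, prw ((wf m φ2 h2).m1 q.K) η *
      ∑' ζ, prw ((wf m φ1 h1).m1 q.K) ζ * PrE q.toZI.w ((u + 1) * q.N1) (fun w => ∃ i,
        u * q.N1 ≤ i ∧ i ≤ (u + 1) * q.N1 ∧
          (w.take i).foldl ZI.stepA η v < (w.take i).foldl ZI.stepA ζ v) ≤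
            ENNReal.ofReal (Real.exp (-Real.sqrt l)) := by
    intro v u hu
    have h := hs l hl φ1 φ2 h1 h2 hlo1 hhi2 h12 hgap (q.wf φhi hhi hKhi).toZI hM hK v u
      (hu1.trans hu)
    rw [w_wf_toZI] at h
    exact h
  exact ⟨dec_case q hd φ1 φ2 h1 h2 hK1 hK2 _ t u1 u2 ρ hu12 x hsp A hA E,
    inc_case q hd φ1 φ2 h1 h2 hK1 hK2 _ t u1 u2 ρ hu12 x hsp A hA E⟩

end ZP.Rows
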