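import Pool.Agent.ZP.SF2
import Pool.Agent.ZI.R12

/-! # Row IN: independence of the letters in disjoint sets, up to the probability that two letters share a step -/

set_option autoImplicit false

open scoped ENNReal BigOperators Classical Pointwise

noncomputable section

namespace ZP.IN

open ZP ZP.SF2

/-! ### one step -/

theorem one_step {α : Type} [Fintype α] (w : α → ℝ≥0∞) (hw : ∑ a, w a = 1) (A B : α → Prop)
    (hAB : ∀ a, A a → ¬ B a) (X Y : α → ℝ≥0∞) (x0 y0 : ℝ≥0∞) (hX : ∀ a, ¬ A a → X a = x0)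
    (hY : ∀ a, ¬ B a → Y a = y0) (hX1 : ∀ a, X a ≤ 1) (hY1 : ∀ a, Y a ≤ 1) (hx0 : x0 ≤ 1)
    (hy0 : y0 ≤ 1) :
    ∑ a, w a * (X a * Y a) ≤ (∑ a, w a * X a) * (∑ a, w a * Y a) +
      (∑ a, if A a ∨ B a then w a else 0) ^ 2 := by
  set α' : ℝ≥0∞ := ∑ a, if A a then w a else 0 with hα
  set β : ℝ≥0∞ := ∑ a, if B a then w a else 0 with hβ
  set γ : ℝ≥0∞ := ∑ a, if ¬ A a ∧ ¬ B a then w a else 0 with hγ
  set u : ℝ≥0∞ := ∑ a, if A a then w a * X a else 0 with hu
  set v : ℝ≥0∞ := ∑ a, if B a then w a * Y a else 0 with hv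
  have htot : α' + β + γ = 1 := by
    rw [← hw, hα, hβ, hγ, ← Finset.sum_add_distrib, ← Finset.sum_add_distrib]
    refine Finset.sum_congr rfl fun a _ => ?_
    by_cases h1 : A a
    · simp [h1, hAB a h1]
    · by_cases h2 : B a
      · simp [h1, h2]
      · simp [h1, h2]
  have hXs : ∑ a, w a * X a = u + (β + γ) * x0 := by
    rw [hu, hβ, hγ, ← Finset.sum_add_distrib, Finset.sum_mul, ← Finset.sum_add_distrib]
    refine Finset.sum_congr rfl fun a _ => ?_
    by_cases h1 : A a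
    · simp [h1, hAB a h1]
    · by_cases h2 : B a
      · simp [h1, h2, hX a h1]
      · simp [h1, h2, hX a h1]
  have hYs : ∑ a, w a * Y a = v + (α' + γ) * y0 := by
    rw [hv, hα, hγ, ← Finset.sum_add_distrib, Finset.sum_mul, ← Finset.sum_add_distrib]
    refine Finset.sum_congr rfl fun a _ => ?_
    by_cases h1 : A a
    · simp [h1, hAB a h1, hY a (hAB a h1)]
    · by_cases h2 : B a
      · simp [h1, h2]
      · simp [h1, h2, hY a h2]
  have hXY : ∑ a, w a * (X a * Y a) = u * y0 + v * x0 + γ * (x0 * y0) := by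
    rw [hu, hv, hγ, Finset.sum_mul, Finset.sum_mul, Finset.sum_mul, ← Finset.sum_add_distrib,
      ← Finset.sum_add_distrib]
    refine Finset.sum_congr rfl fun a _ => ?_
    by_cases h1 : A a
    · simp [h1, hAB a h1, hY a (hAB a h1), mul_assoc]
    · by_cases h2 : B a
      · simp only [h1, h2, hX a h1, if_false, if_true, not_true_eq_false, and_false, zero_mul]
        ring
      · simp [h1, h2, hX a h1, hY a h2]
  have hAorB : (∑ a, if A a ∨ B a then w a else 0) = α' + β := by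
    rw [hα, hβ, ← Finset.sum_add_distrib]
    refine Finset.sum_congr rfl fun a _ => ?_
    by_cases h1 : A a
    · simp [h1, hAB a h1]
    · by_cases h2 : B a
      · simp [h1, h2]
      · simp [h1, h2]
  have hu1 : u ≤ α' := by
    rw [hu, hα]
    refine Finset.sum_le_sum fun a _ => ?_
    by_cases h1 : A a
    · simp only [h1, if_true]
      exact (mul_le_mul_right (hX1 a) _).trans (by rw [mul_one])
    · simp [h1]
  have hv1 : v ≤ β := by
    rw [hv, hβ]
    refine Finset.sum_le_sum fun a _ => ?_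
    by_cases h1 : B a
    · simp only [h1, if_true]
      exact (mul_le_mul_right (hY1 a) _).trans (by rw [mul_one])
    · simp [h1]
  rw [hXY, hXs, hYs, hAorB]
  have e1 : u * y0 + v * x0 + γ * (x0 * y0) =
      u * y0 * (α' + β + γ) + v * x0 * (α' + β + γ) + γ * (x0 * y0) * (α' + β + γ) := by
    rw [htot, mul_one, mul_one, mul_one]
  rw [e1]
  have e2 : u * y0 * (α' + β + γ) + v * x0 * (α' + β + γ) + γ * (x0 * y0) * (α' + β + γ) =
      (u * y0 * (α' + γ) + v * x0 * (β + γ) + (γ * α' + γ * β + γ * γ) * (x0 * y0)) +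
        (u * y0 * β + v * x0 * α') := by ring
  rw [e2]
  have e3 : (u + (β + γ) * x0) * (v + (α' + γ) * y0) =
      (u * y0 * (α' + γ) + v * x0 * (β + γ) + (γ * α' + γ * β + γ * γ) * (x0 * y0)) +
        (u * v + β * α' * (x0 * y0)) := by ring
  rw [e3]
  have e4 : u * y0 * β + v * x0 * α' ≤ (α' + β) ^ 2 := by
    have h1 : u * y0 * β ≤ α' * β := by
      calc u * y0 * β ≤ α' * 1 * β := by gcongr
        _ = α' * β := by rw [mul_one]
    have h2 : v * x0 * α' ≤ β * α' := by
      calc v * x0 * α' ≤ β * 1 * α' := by gcongr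
        _ = β * α' := by rw [mul_one]
    calc u * y0 * β + v * x0 * α' ≤ α' * β + β * α' := add_le_add h1 h2
      _ ≤ (α' * β + β * α') + (α' ^ 2 + β ^ 2) := le_self_add
      _ = (α' + β) ^ 2 := by ring
  exact add_le_add le_self_add e4

/-! ### words -/

theorem res_idem_none {d M K : ℕ} (Λ : Set (Tor d M)) (a : Let d M K)
    (h : ∀ l, a = some l → l.1 ∉ Λ) : res Λ a = none := by
  cases a with
  | none => rfl
  | some l => exact if_neg (h l rfl)

/-- a letter whose site is in the set -/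
def inS {d M K : ℕ} (Λ : Set (Tor d M)) (a : Let d M K) : Prop := ∃ l, a = some l ∧ l.1 ∈ Λ

theorem res_of_not {d M K : ℕ} (Λ : Set (Tor d M)) (a : Let d M K) (h : ¬ inS Λ a) :
    res Λ a = res Λ none := by
  refine res_idem_none Λ a fun l hl h1 => h ⟨l, hl, h1⟩

section chain

variable {d : ℕ} {m : Model} {δ : ℝ} (q : Par d m δ)

theorem tot_w (hd : 0 < d) : ∑ l, q.w (some l) = ENNReal.ofReal ((q.M : ℝ) ^ d * (m.g q.K + δ) * q.p) := by
  have h1 := ZP.Rows.sum_w q hd
  rw [Fintype.sum_option] at h1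
  have h2 : ENNReal.ofReal ((q.M : ℝ) ^ d * (m.g q.K + δ) * q.p) ≤ 1 := by
    rw [← ENNReal.ofReal_one]
    exact ENNReal.ofReal_le_ofReal q.p_tot
  have h3 : q.w none = 1 - ENNReal.ofReal ((q.M : ℝ) ^ d * (m.g q.K + δ) * q.p) := rfl
  have h4 : q.w none + ENNReal.ofReal ((q.M : ℝ) ^ d * (m.g q.K + δ) * q.p) = 1 := by
    rw [h3]
    exact tsub_add_cancel_of_le h2
  have h5 : q.w none ≠ ⊤ := by
    rw [h3]
    exact ne_top_of_le_ne_top ENNReal.one_ne_top tsub_le_self
  rw [← h4] at h1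
  exact (ENNReal.add_right_inj h5).1 h1

theorem EvE_le_one (hd : 0 < d) (N : ℕ) (F : List (Let d q.M (q.K + 1)) → ℝ≥0∞) (h : ∀ w, F w ≤ 1) :
    EvE q.w N F ≤ 1 := by
  refine (ZI.EvE_mono q.w N (G := fun _ => 1) fun l _ => h l).trans ?_
  rw [ZI.R2aux.EvE_const q.w (ZP.Rows.sum_w q hd)]

theorem word_two (hd : 0 < d) (Λ Λ' : Set (Tor d q.M)) (hΛ : Disjoint Λ Λ') : ∀ (N : ℕ)
    (X Y : List (Let d q.M (q.K + 1)) → ℝ≥0∞) (_ : ∀ w, X w ≤ 1) (_ : ∀ w, Y w ≤ 1)
    (_ : ∀ w w', w.map (res Λ) = w'.map (res Λ) → X w = X w')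
    (_ : ∀ w w', w.map (res Λ') = w'.map (res Λ') → Y w = Y w'),
    EvE q.w N (fun w => X w * Y w) ≤ EvE q.w N X * EvE q.w N Y +
      N * ENNReal.ofReal ((q.M : ℝ) ^ d * (m.g q.K + δ) * q.p) ^ 2
  | 0, X, Y, _, _, _, _ => by
      show X [] * Y [] ≤ X [] * Y [] + _
      exact le_self_add
  | N + 1, X, Y, hX1, hY1, hX, hY => by
      have ih : ∀ a, EvE q.w N (fun w => X (a :: w) * Y (a :: w)) ≤
          EvE q.w N (fun w => X (a :: w)) * EvE q.w N (fun w => Y (a :: w)) +
          N * ENNReal.ofReal ((q.M : ℝ) ^ d * (m.g q.K + δ) * q.p) ^ 2 := by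
        intro a
        refine word_two hd Λ Λ' hΛ N (fun w => X (a :: w)) (fun w => Y (a :: w)) (fun w => hX1 _)
          (fun w => hY1 _) (fun w w' h => hX _ _ ?_) (fun w w' h => hY _ _ ?_)
        · rw [List.map_cons, List.map_cons, h]
        · rw [List.map_cons, List.map_cons, h]
      have h1 := one_step q.w (ZP.Rows.sum_w q hd) (inS Λ) (inS Λ') (by
          rintro a ⟨l, hl, h⟩ ⟨l', hl', h'⟩
          rw [hl] at hl'
          cases hl'
          exact Set.disjoint_left.1 hΛ h h')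
        (fun a => EvE q.w N (fun w => X (a :: w))) (fun a => EvE q.w N (fun w => Y (a :: w)))
        (EvE q.w N (fun w => X (none :: w))) (EvE q.w N (fun w => Y (none :: w)))
        (fun a ha => ZI.EvE_congr q.w N fun l _ => hX _ _ (by
          rw [List.map_cons, List.map_cons, res_of_not Λ a ha]))
        (fun a ha => ZI.EvE_congr q.w N fun l _ => hY _ _ (by
          rw [List.map_cons, List.map_cons, res_of_not Λ' a ha]))
        (fun a => EvE_le_one q hd N _ fun w => hX1 _) (fun a => EvE_le_one q hd N _ fun w => hY1 _)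
        (EvE_le_one q hd N _ fun w => hX1 _) (EvE_le_one q hd N _ fun w => hY1 _)
      have h2 : (∑ a, if inS Λ a ∨ inS Λ' a then q.w a else 0) ≤
          ENNReal.ofReal ((q.M : ℝ) ^ d * (m.g q.K + δ) * q.p) := by
        rw [← tot_w q hd, Fintype.sum_option]
        have h3 : ¬ (inS Λ (none : Let d q.M (q.K + 1)) ∨ inS Λ' (none : Let d q.M (q.K + 1))) := by
          rintro (⟨l, hl, _⟩ | ⟨l, hl, _⟩) <;> cases hl
        rw [if_neg h3, zero_add]
        refine Finset.sum_le_sum fun l _ => ?_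
        split_ifs
        · exact le_rfl
        · exact bot_le
      calc EvE q.w (N + 1) (fun w => X w * Y w)
          = ∑ a, q.w a * EvE q.w N (fun w => X (a :: w) * Y (a :: w)) := rfl
        _ ≤ ∑ a, q.w a * (EvE q.w N (fun w => X (a :: w)) * EvE q.w N (fun w => Y (a :: w)) +
            N * ENNReal.ofReal ((q.M : ℝ) ^ d * (m.g q.K + δ) * q.p) ^ 2) := by
            refine Finset.sum_le_sum fun a _ => ?_
            exact mul_le_mul_right (ih a) _
        _ = ∑ a, q.w a * (EvE q.w N (fun w => X (a :: w)) * EvE q.w N (fun w => Y (a :: w))) +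
            N * ENNReal.ofReal ((q.M : ℝ) ^ d * (m.g q.K + δ) * q.p) ^ 2 := by
            simp_rw [mul_add]
            rw [Finset.sum_add_distrib, ← Finset.sum_mul, ZP.Rows.sum_w q hd, one_mul]
        _ ≤ (EvE q.w (N + 1) X * EvE q.w (N + 1) Y +
              ENNReal.ofReal ((q.M : ℝ) ^ d * (m.g q.K + δ) * q.p) ^ 2) +
            N * ENNReal.ofReal ((q.M : ℝ) ^ d * (m.g q.K + δ) * q.p) ^ 2 := by
            refine add_le_add (h1.trans (add_le_add le_rfl ?_)) le_rfl
            gcongr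
        _ = _ := by
            push_cast
            ring

theorem two (hd : 0 < d) (N : ℕ) (Λ Λ' : Set (Tor d q.M)) (hΛ : Disjoint Λ Λ')
    (X Y : (Tor d q.M → ℕ) → List (Let d q.M (q.K + 1)) → ℝ≥0∞) (hX1 : ∀ η w, X η w ≤ 1)
    (hY1 : ∀ η w, Y η w ≤ 1)
    (hX : ∀ η η' w w', cut Λ η = cut Λ η' → w.map (res Λ) = w'.map (res Λ) → X η w = X η' w')
    (hY : ∀ η η' w w', cut Λ' η = cut Λ' η' → w.map (res Λ') = w'.map (res Λ') → Y η w = Y η' w') :
    q.EE N (fun η w => X η w * Y η w) ≤ q.EE N X * q.EE N Y +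
      N * ENNReal.ofReal ((q.M : ℝ) ^ d * (m.g q.K + δ) * q.p) ^ 2 := by
  have h0 : ∑' η : Tor d q.M → ℕ, prw (m.m1 q.K) η = 1 := ZI.Rows.tsum_prw q.toZI
  have h1 : q.EE N (fun η w => X η w * Y η w) ≤
      ∑' η : Tor d q.M → ℕ, prw (m.m1 q.K) η * (EvE q.w N (X η) * EvE q.w N (Y η)) +
      N * ENNReal.ofReal ((q.M : ℝ) ^ d * (m.g q.K + δ) * q.p) ^ 2 := by
    calc q.EE N (fun η w => X η w * Y η w)
        ≤ ∑' η : Tor d q.M → ℕ, prw (m.m1 q.K) η * (EvE q.w N (X η) * EvE q.w N (Y η) +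
          N * ENNReal.ofReal ((q.M : ℝ) ^ d * (m.g q.K + δ) * q.p) ^ 2) := by
          refine ENNReal.tsum_le_tsum fun η => mul_le_mul_right ?_ _
          exact word_two q hd Λ Λ' hΛ N (X η) (Y η) (hX1 η) (hY1 η)
            (fun w w' h => hX η η w w' rfl h) (fun w w' h => hY η η w w' rfl h)
      _ = _ := by
          simp_rw [mul_add]
          rw [ENNReal.tsum_add, ENNReal.tsum_mul_right, h0, one_mul]
  refine h1.trans (add_le_add (le_of_eq ?_) le_rfl)
  have h2 := ZI.Rows.mix_swap (m.m1 q.K) Λ (fun η _ : Tor d q.M → ℕ => EvE q.w N (X η) * EvE q.w N (Y η))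
  have hcX : ∀ η η' : Tor d q.M → ℕ, EvE q.w N (X (ZI.mix Λ η η')) = EvE q.w N (X η) := by
    intro η η'
    refine ZI.EvE_congr q.w N fun l _ => hX _ _ _ _ ?_ rfl
    funext v
    unfold cut ZI.mix
    by_cases hv : v ∈ Λ
    · simp [hv]
    · simp [hv]
  have hcY : ∀ η η' : Tor d q.M → ℕ, EvE q.w N (Y (ZI.mix Λ η η')) = EvE q.w N (Y η') := by
    intro η η'
    refine ZI.EvE_congr q.w N fun l _ => hY _ _ _ _ ?_ rfl
    funext v
    unfold cut ZI.mix
    by_cases hv : v ∈ Λ'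
    · have hv' : v ∉ Λ := fun h => Set.disjoint_left.1 hΛ h hv
      simp [hv, hv']
    · simp [hv]
  simp only [hcX, hcY] at h2
  have h3 : ∑' η : Tor d q.M → ℕ, ∑' η' : Tor d q.M → ℕ, prw (m.m1 q.K) η *
      (prw (m.m1 q.K) η' * (EvE q.w N (X η) * EvE q.w N (Y η'))) = q.EE N X * q.EE N Y := by
    unfold Par.EE
    rw [← ENNReal.tsum_mul_right]
    refine tsum_congr fun η => ?_
    have h5 : ∀ η' : Tor d q.M → ℕ, prw (m.m1 q.K) η * (prw (m.m1 q.K) η' *
        (EvE q.w N (X η) * EvE q.w N (Y η'))) =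
        prw (m.m1 q.K) η * EvE q.w N (X η) * (prw (m.m1 q.K) η' * EvE q.w N (Y η')) := by
      intro η'
      ring
    rw [tsum_congr h5, ENNReal.tsum_mul_left]
  have h4 : ∑' η : Tor d q.M → ℕ, ∑' η' : Tor d q.M → ℕ, prw (m.m1 q.K) η *
      (prw (m.m1 q.K) η' * (EvE q.w N (X η) * EvE q.w N (Y η))) =
      ∑' η : Tor d q.M → ℕ, prw (m.m1 q.K) η * (EvE q.w N (X η) * EvE q.w N (Y η)) := by
    refine tsum_congr fun η => ?_
    rw [ENNReal.tsum_mul_left, ENNReal.tsum_mul_right, h0, one_mul]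
  rw [← h3, ← h4]
  exact h2.symm

theorem EE_le_one (hd : 0 < d) (N : ℕ) (F : (Tor d q.M → ℕ) → List (Let d q.M (q.K + 1)) → ℝ≥0∞)
    (h : ∀ η w, F η w ≤ 1) : q.EE N F ≤ 1 := by
  refine (EE_mono q N (G := fun _ _ => 1) fun η l _ => h η l).trans ?_
  rw [EE_one q hd]

theorem many (hd : 0 < d) (N : ℕ) : ∀ (n : ℕ)
    (Λ : Fin n → Set (Tor d q.M)) (_ : ∀ i j, i ≠ j → Disjoint (Λ i) (Λ j))
    (F : Fin n → (Tor d q.M → ℕ) → List (Let d q.M (q.K + 1)) → ℝ≥0∞) (_ : ∀ i η w, F i η w ≤ 1)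
    (_ : ∀ i η η' w w', cut (Λ i) η = cut (Λ i) η' → w.map (res (Λ i)) = w'.map (res (Λ i)) →
      F i η w = F i η' w'),
    q.EE N (fun η w => ∏ i, F i η w) ≤ ∏ i, q.EE N (F i) +
      (n : ℝ≥0∞) * (N * ENNReal.ofReal ((q.M : ℝ) ^ d * (m.g q.K + δ) * q.p) ^ 2)
  | 0, Λ, hΛ, F, h1, hF => by
      simp only [Finset.univ_eq_empty, Finset.prod_empty]
      rw [EE_one q hd]
      exact le_self_add
  | n + 1, Λ, hΛ, F, h1, hF => by
      have hΛU : Disjoint (Λ 0) (⋃ i : Fin n, Λ i.succ) := by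
        rw [Set.disjoint_iUnion_right]
        intro i
        exact hΛ _ _ (Fin.succ_ne_zero i).symm
      have h2 := two q hd N (Λ 0) (⋃ i : Fin n, Λ i.succ) hΛU (F 0)
        (fun η w => ∏ i : Fin n, F i.succ η w) (h1 0)
        (fun η w => Finset.prod_le_one' fun i _ => h1 _ η w) (hF 0) (by
          intro η η' w w' hc hr
          refine Finset.prod_congr rfl fun i _ => hF _ _ _ _ _ ?_ ?_
          · funext v
            unfold cut
            by_cases hv : v ∈ Λ i.succ
            · have hv' : v ∈ ⋃ i : Fin n, Λ i.succ := Set.mem_iUnion.2 ⟨i, hv⟩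
              have h3 := congrFun hc v
              unfold cut at h3
              rw [if_pos hv', if_pos hv'] at h3
              rw [if_pos hv, if_pos hv, h3]
            · rw [if_neg hv, if_neg hv]
          · have h4 : ∀ a : Let d q.M (q.K + 1),
                res (Λ i.succ) a = res (Λ i.succ) (res (⋃ i : Fin n, Λ i.succ) a) := by
              intro a
              cases a with
              | none => rfl
              | some l =>
                show (if l.1 ∈ Λ i.succ then some l else none) =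
                  res (Λ i.succ) (if l.1 ∈ ⋃ i : Fin n, Λ i.succ then some l else none)
                by_cases hv : l.1 ∈ Λ i.succ
                · have hv' : l.1 ∈ ⋃ i : Fin n, Λ i.succ := Set.mem_iUnion.2 ⟨i, hv⟩
                  rw [if_pos hv']
                  show _ = (if l.1 ∈ Λ i.succ then some l else none)
                  rfl
                · rw [if_neg hv]
                  split_ifs
                  · show _ = (if l.1 ∈ Λ i.succ then some l else none)
                    rw [if_neg hv]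
                  · rfl
            have h5 : ∀ u : List (Let d q.M (q.K + 1)), u.map (res (Λ i.succ)) =
                (u.map (res (⋃ i : Fin n, Λ i.succ))).map (res (Λ i.succ)) := by
              intro u
              rw [List.map_map]
              exact List.map_congr_left fun a _ => h4 a
            rw [h5 w, h5 w', hr])
      have ih := many hd N n (fun i => Λ i.succ)
        (fun i j hij => hΛ _ _ fun h => hij (Fin.succ_injective n h)) (fun i => F i.succ)
        (fun i => h1 _) (fun i => hF _)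
      have h3 : q.EE N (fun η w => ∏ i, F i η w) =
          q.EE N (fun η w => F 0 η w * ∏ i : Fin n, F i.succ η w) := by
        refine EE_congr q N fun η w _ => ?_
        rw [Fin.prod_univ_succ]
      rw [h3, Fin.prod_univ_succ]
      refine h2.trans ?_
      calc q.EE N (F 0) * q.EE N (fun η w => ∏ i : Fin n, F i.succ η w) +
            N * ENNReal.ofReal ((q.M : ℝ) ^ d * (m.g q.K + δ) * q.p) ^ 2
          ≤ q.EE N (F 0) * (∏ i : Fin n, q.EE N (F i.succ) + (n : ℝ≥0∞) *
              (N * ENNReal.ofReal ((q.M : ℝ) ^ d * (m.g q.K + δ) * q.p) ^ 2)) +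
            N * ENNReal.ofReal ((q.M : ℝ) ^ d * (m.g q.K + δ) * q.p) ^ 2 :=
            add_le_add (mul_le_mul_right ih _) le_rfl
        _ = q.EE N (F 0) * ∏ i : Fin n, q.EE N (F i.succ) +
            (q.EE N (F 0) * ((n : ℝ≥0∞) *
              (N * ENNReal.ofReal ((q.M : ℝ) ^ d * (m.g q.K + δ) * q.p) ^ 2)) +
            N * ENNReal.ofReal ((q.M : ℝ) ^ d * (m.g q.K + δ) * q.p) ^ 2) := by
            rw [mul_add, add_assoc]
        _ ≤ q.EE N (F 0) * ∏ i : Fin n, q.EE N (F i.succ) +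
            (1 * ((n : ℝ≥0∞) *
              (N * ENNReal.ofReal ((q.M : ℝ) ^ d * (m.g q.K + δ) * q.p) ^ 2)) +
            N * ENNReal.ofReal ((q.M : ℝ) ^ d * (m.g q.K + δ) * q.p) ^ 2) :=
            add_le_add le_rfl (add_le_add (mul_le_mul_left (EE_le_one q hd N _ (h1 0)) _) le_rfl)
        _ = _ := by
            push_cast
            ring

end chain

end ZP.IN

namespace ZP.Rows

open ZP

variable {d : ℕ}

theorem indep_letters {m : Model} {δ : ℝ} (q : Par d m δ) (hd : 0 < d) (N n : ℕ)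
    (Λ : Fin n → Set (Tor d q.M)) (hΛ : ∀ i j, i ≠ j → Disjoint (Λ i) (Λ j))
    (F : Fin n → (Tor d q.M → ℕ) → List (Let d q.M (q.K + 1)) → ℝ≥0∞) (h1 : ∀ i η w, F i η w ≤ 1)
    (hF : ∀ i η η' w w', cut (Λ i) η = cut (Λ i) η' → w.map (res (Λ i)) = w'.map (res (Λ i)) →
      F i η w = F i η' w') :
    q.EE N (fun η w => ∏ i, F i η w) ≤ ∏ i, q.EE N (F i) +
      (n : ℝ≥0∞) ^ 2 * N * ENNReal.ofReal ((q.M : ℝ) ^ d * (m.g q.K + δ) * q.p) ^ 2 := by
  refine (ZP.IN.many q hd N n Λ hΛ F h1 hF).trans (add_le_add le_rfl ?_)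
  rw [mul_assoc ((n : ℝ≥0∞) ^ 2)]
  have h2 : n ≤ n ^ 2 := Nat.le_self_pow two_ne_zero n
  have h3 : (n : ℝ≥0∞) ≤ (n : ℝ≥0∞) ^ 2 := by
    calc (n : ℝ≥0∞) ≤ ((n ^ 2 : ℕ) : ℝ≥0∞) := by exact_mod_cast h2
      _ = (n : ℝ≥0∞) ^ 2 := by push_cast; rfl
  exact mul_le_mul_left h3 _

end ZP.Rows
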