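import Pool.Agent.ZP.SF1
import Pool.Agent.ZP.PJ
import Pool.Agent.ZP.E6
import Pool.Agent.ZP.IN
import Pool.Agent.ZP.LO

/-! # Row SI: events in distant balls (text part M2, SPI) -/

set_option autoImplicit false

open scoped ENNReal BigOperators Classical Pointwise

noncomputable section

namespace ZP.SI

open ZP

section Words

variable {d : ℕ} {M K : ℕ}

theorem prj_res (Λ : Set (Tor d M)) (a : Let d M (K + 1)) : prj (res Λ a) = res Λ (prj a) := by
  rcases a with _ | ⟨x, ⟨k, hk⟩, e⟩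
  · rfl
  · by_cases hx : x ∈ Λ
    · have h1 : res Λ (some (x, ⟨k, hk⟩, e) : Let d M (K + 1)) = some (x, ⟨k, hk⟩, e) := if_pos hx
      rw [h1]
      cases k with
      | zero => rfl
      | succ k => exact (if_pos hx).symm
    · have h1 : res Λ (some (x, ⟨k, hk⟩, e) : Let d M (K + 1)) = none := if_neg hx
      rw [h1]
      cases k with
      | zero => rfl
      | succ k => exact (if_neg hx).symm

theorem stt_prj (η : Tor d M → ℕ) (w : List (Let d M (K + 1))) (i : ℕ) :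
    stt η w i = ((w.map prj).take i).foldl ZI.stepA η := by
  unfold stt
  rw [← List.map_take, List.foldl_map]
  congr 1
  funext ξ a
  exact Rows.stepA_prj ξ a

theorem getD_map_res (Λ : Set (Tor d M)) (w : List (Let d M K)) (i : ℕ) :
    (w.map (res Λ)).getD i none = res Λ (w.getD i none) := by
  rw [List.getD_eq_getElem?_getD, List.getD_eq_getElem?_getD, List.getElem?_map]
  cases w[i]? <;> rfl

theorem Bt_mono {x : Tor d M} {ρ ρ' : ℕ} (h : ρ ≤ ρ') : (Bt x ρ : Set (Tor d M)) ⊆ Bt x ρ' := by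
  rintro v ⟨y, hy, rfl⟩
  exact ⟨y, hy.trans h, rfl⟩

/-- the system with the letters in the bigger ball only is different in the ball -/
def bad (N1 U ρ D : ℕ) (x : Tor d M) : Ev d M K := fun η w =>
  ∃ i ≤ U * N1, ∃ v ∈ Bt x ρ,
    stt η w i v ≠ stt (cut (Bt x (ρ + D)) η) (w.map (res (Bt x (ρ + D)))) i v

theorem rel_of_not_bad {N1 U ρ D : ℕ} {x : Tor d M} {η : Tor d M → ℕ}
    {w : List (Let d M (K + 1))} (hw : U * N1 ≤ w.length) (h : ¬ bad N1 U ρ D x η w) :
    Rel N1 (Bt x ρ) 0 U η w (cut (Bt x (ρ + D)) η) (w.map (res (Bt x (ρ + D)))) ∧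
      Rel N1 (Bt x ρ) 0 U (cut (Bt x (ρ + D)) η) (w.map (res (Bt x (ρ + D)))) η w := by
  have h1 : ∀ i ≤ U * N1, ∀ v ∈ Bt x ρ,
      stt η w i v = stt (cut (Bt x (ρ + D)) η) (w.map (res (Bt x (ρ + D)))) i v := by
    intro i hi v hv
    by_contra hne
    exact h ⟨i, hi, v, hv, hne⟩
  have h2 : ∀ i, res (Bt x ρ) (w.getD i none) =
      res (Bt x ρ) ((w.map (res (Bt x (ρ + D)))).getD i none) := by
    intro i
    rw [getD_map_res, SF1.res_res (Bt_mono (Nat.le_add_right ρ D))]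
  have hl : U * N1 ≤ (w.map (res (Bt x (ρ + D)))).length := by
    rw [List.length_map]
    exact hw
  exact ⟨⟨hw, hl, fun i _ hi v hv => (h1 i hi v hv).le, fun i _ _ => h2 i⟩,
    ⟨hl, hw, fun i _ hi v hv => (h1 i hi v hv).ge, fun i _ _ => (h2 i).symm⟩⟩

end Words

section PP

variable {d : ℕ} {m : Model} {δ : ℝ} (q : Par d m δ)

theorem EE_mono_len (N : ℕ) {F G : (Tor d q.M → ℕ) → List (Let d q.M (q.K + 1)) → ℝ≥0∞}
    (h : ∀ η w, w.length = N → F η w ≤ G η w) : q.EE N F ≤ q.EE N G := by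
  unfold Par.EE
  exact ENNReal.tsum_le_tsum fun η => mul_le_mul_right (ZI.EvE_mono q.w N fun w hw => h η w hw) _

theorem EE_add (N : ℕ) (F G : (Tor d q.M → ℕ) → List (Let d q.M (q.K + 1)) → ℝ≥0∞) :
    q.EE N (fun η l => F η l + G η l) = q.EE N F + q.EE N G := by
  unfold Par.EE
  rw [← ENNReal.tsum_add]
  refine tsum_congr fun η => ?_
  rw [ZI.EvE_add, mul_add]

theorem PP_eq (N : ℕ) (E : Ev d q.M q.K) :
    q.PP N E = q.EE N (fun η w => if E η w then 1 else 0) := rfl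

theorem EE_zero (N : ℕ) : q.EE N (fun _ _ => 0) = 0 := by
  have h1 := E6.PP_false q N
  rw [PP_eq] at h1
  simpa using h1

theorem EE_sum {ι : Type} (s : Finset ι) (N : ℕ)
    (F : ι → (Tor d q.M → ℕ) → List (Let d q.M (q.K + 1)) → ℝ≥0∞) :
    q.EE N (fun η l => ∑ i ∈ s, F i η l) = ∑ i ∈ s, q.EE N (F i) := by
  induction s using Finset.induction_on with
  | empty =>
    simp only [Finset.sum_empty]
    exact EE_zero q N
  | insert a s ha ih =>
    simp only [Finset.sum_insert ha]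
    rw [EE_add, ih]

/-- probability of the bad event from the system without recovery -/
theorem PP_bad (hd : 0 < d) (U ρ D : ℕ) (x : Tor d q.M) :
    q.PP (U * q.N1) (bad q.N1 U ρ D x) =
      q.toZI.PP (U * q.N1) (fun η w => ∃ i ≤ U * q.N1, ∃ v ∈ Bt x ρ,
        (w.take i).foldl ZI.stepA η v ≠
          ((w.map (res (Bt x (ρ + D)))).take i).foldl ZI.stepA (cut (Bt x (ρ + D)) η) v) := by
  rw [← Rows.PP_prj q hd]
  apply congrArg (q.PP (U * q.N1))
  funext η w
  unfold bad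
  have h1 : ∀ i, stt (cut (Bt x (ρ + D)) η) (w.map (res (Bt x (ρ + D)))) i =
      (((w.map prj).map (res (Bt x (ρ + D)))).take i).foldl ZI.stepA (cut (Bt x (ρ + D)) η) := by
    intro i
    rw [stt_prj, List.map_map, List.map_map]
    congr 3
    funext a
    exact prj_res _ a
  simp only [h1, stt_prj]
  rfl

end PP

end ZP.SI

namespace ZP.Rows

open ZP ZP.SI

theorem spatial (m : Model) (d : ℕ) (hd : 0 < d) (φhi : ℝ) : ∃ C : ℕ, ∀ (δ φ : ℝ) (h : 0 < φ),
    φ ≤ φhi → ∀ (q : Par d (wf m φ h) δ) (n ρ D U : ℕ) (x : Fin n → Pos d)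
    (E : Fin n → Ev d q.M q.K), 2 * (ρ + D) + 4 ≤ q.M →
    (∀ i j, i ≠ j → Disjoint (Bt (tv (x i) : Tor d q.M) (ρ + D)) (Bt (tv (x j)) (ρ + D))) →
    (∀ i, LocE q.N1 (Bt (tv (x i)) ρ) 0 U (E i)) → ∀ ε : ℝ≥0∞,
    ENNReal.ofReal (C * (ρ + D + 1 : ℝ) ^ C * Real.exp (C * U - D)) ≤ ε →
    (U : ℝ≥0∞) * q.N1 * ENNReal.ofReal ((q.M : ℝ) ^ d * (m.g q.K + δ) * q.p) ^ 2 ≤ ε →
    q.PP (U * q.N1) (fun η w => ∀ i, E i η w) ≤
      ∏ i, (q.PP (U * q.N1) (E i) + ε) + (n + n ^ 2) * ε := by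
  obtain ⟨C, hC⟩ := local_ball m d hd φhi
  refine ⟨C, ?_⟩
  intro δ φ h hφ q n ρ D U x E hM hdis hloc ε hε1 hε2
  set Λ : Fin n → Set (Tor d q.M) := fun i => Bt (tv (x i)) (ρ + D) with hΛ
  set F : Fin n → (Tor d q.M → ℕ) → List (Let d q.M (q.K + 1)) → ℝ≥0∞ :=
    fun i η w => if E i (cut (Λ i) η) (w.map (res (Λ i))) then 1 else 0 with hF
  set B : Fin n → Ev d q.M q.K := fun i => bad q.N1 U ρ D (tv (x i)) with hB
  -- the bad events
  have hbad : ∀ i, q.PP (U * q.N1) (B i) ≤ ε := by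
    intro i
    rw [hB]
    refine le_trans (PP_bad q hd U ρ D (tv (x i))).le ?_
    exact le_trans (hC φ h hφ q.toZI (tv (x i)) ρ D U hM) hε1
  -- off the bad event the two events agree
  have hiff : ∀ i η w, w.length = U * q.N1 → ¬ B i η w →
      (E i η w ↔ E i (cut (Λ i) η) (w.map (res (Λ i)))) := by
    intro i η w hw hb
    obtain ⟨h1, h2⟩ := rel_of_not_bad hw.ge hb
    exact ⟨fun h => hloc i _ _ _ _ h1 h2 h, fun h => hloc i _ _ _ _ h2 h1 h⟩
  have hF1 : ∀ i η w, F i η w ≤ 1 := by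
    intro i η w
    rw [hF]
    simp only
    split_ifs
    · exact le_rfl
    · exact zero_le_one
  -- first step
  have s1 : q.PP (U * q.N1) (fun η w => ∀ i, E i η w) ≤
      q.EE (U * q.N1) (fun η w => ∏ i, F i η w) + ∑ i, q.PP (U * q.N1) (B i) := by
    have e1 : ∑ i, q.PP (U * q.N1) (B i) =
        q.EE (U * q.N1) (fun η w => ∑ i, (if B i η w then (1 : ℝ≥0∞) else 0)) :=
      (EE_sum q Finset.univ (U * q.N1) (fun i η w => if B i η w then (1 : ℝ≥0∞) else 0)).symm
    rw [e1, ← EE_add, PP_eq]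
    apply EE_mono_len
    intro η w hw
    by_cases hE : ∀ i, E i η w
    · rw [if_pos hE]
      by_cases hb : ∃ i, B i η w
      · obtain ⟨i, hi⟩ := hb
        have h1 : (1 : ℝ≥0∞) ≤ ∑ i, (if B i η w then (1 : ℝ≥0∞) else 0) := by
          calc (1 : ℝ≥0∞) = if B i η w then (1 : ℝ≥0∞) else 0 := (if_pos hi).symm
            _ ≤ _ := Finset.single_le_sum (f := fun i => if B i η w then (1 : ℝ≥0∞) else 0)
                (fun _ _ => zero_le) (Finset.mem_univ i)
        exact le_trans h1 le_add_self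
      · have hb' : ∀ i, ¬ B i η w := fun i hi => hb ⟨i, hi⟩
        have h1 : ∏ i, F i η w = 1 := by
          apply Finset.prod_eq_one
          intro i _
          exact if_pos ((hiff i η w hw (hb' i)).1 (hE i))
        rw [h1]
        exact le_self_add
    · rw [if_neg hE]
      exact zero_le
  -- second step
  have s2 : q.EE (U * q.N1) (fun η w => ∏ i, F i η w) ≤ ∏ i, q.EE (U * q.N1) (F i) +
      (n : ℝ≥0∞) ^ 2 * ε := by
    have h1 := indep_letters q hd (U * q.N1) n Λ hdis F hF1 (by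
      intro i η η' w w' h1 h2
      rw [hF]
      simp only
      rw [h1, h2])
    refine le_trans h1 (add_le_add le_rfl ?_)
    rw [mul_assoc]
    refine mul_le_mul_right ?_ _
    push_cast
    exact hε2
  have s3 : ∀ i, q.EE (U * q.N1) (F i) ≤ q.PP (U * q.N1) (E i) + ε := by
    intro i
    have h1 : q.EE (U * q.N1) (F i) ≤ q.PP (U * q.N1) (E i) + q.PP (U * q.N1) (B i) := by
      rw [PP_eq, PP_eq, ← EE_add]
      apply EE_mono_len
      intro η w hw
      by_cases hb : B i η w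
      · rw [if_pos hb]
        exact le_trans (hF1 i η w) le_add_self
      · have h2 : F i η w = if E i η w then 1 else 0 := by
          rw [hF]
          simp only
          exact if_congr (hiff i η w hw hb).symm rfl rfl
        rw [h2]
        exact le_self_add
    exact le_trans h1 (add_le_add le_rfl (hbad i))
  calc q.PP (U * q.N1) (fun η w => ∀ i, E i η w)
      ≤ q.EE (U * q.N1) (fun η w => ∏ i, F i η w) + ∑ i, q.PP (U * q.N1) (B i) := s1
    _ ≤ (∏ i, q.EE (U * q.N1) (F i) + (n : ℝ≥0∞) ^ 2 * ε) + ∑ _i : Fin n, ε := by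
        gcongr with i _
        exact hbad i
    _ ≤ (∏ i, (q.PP (U * q.N1) (E i) + ε) + (n : ℝ≥0∞) ^ 2 * ε) + ∑ _i : Fin n, ε := by
        gcongr with i _
        exact s3 i
    _ = ∏ i, (q.PP (U * q.N1) (E i) + ε) + (n + n ^ 2) * ε := by
        rw [Finset.sum_const, Finset.card_univ, Fintype.card_fin, nsmul_eq_mul]
        ring

end ZP.Rows
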