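import Pool.Agent.ZP.M0

/-! # Elementary facts on the scales (`Prm`), sup balls and the recursion event -/

set_option autoImplicit false

open scoped ENNReal BigOperators Classical Pointwise

noncomputable section

namespace ZP.Rows

open ZP

variable {d : ℕ}

namespace BKaux

theorem supn_le_iff (v : Pos d) (r : ℕ) : supn v ≤ r ↔ ∀ j, (v j).natAbs ≤ r := by
  unfold ZI.supn
  simp [Finset.sup_le_iff]

theorem supn_add_le (u v : Pos d) {r s : ℕ} (hu : supn u ≤ r) (hv : supn v ≤ s) :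
    supn (u + v) ≤ r + s := by
  rw [supn_le_iff] at *
  intro j
  have h1 := hu j
  have h2 := hv j
  have h3 : (u + v) j = u j + v j := rfl
  rw [h3]
  exact (Int.natAbs_add_le _ _).trans (Nat.add_le_add h1 h2)

theorem supn_sm_le (s : ℕ) (v : Pos d) {r : ℕ} (hv : supn v ≤ r) : supn (sm s v) ≤ s * r := by
  rw [supn_le_iff] at *
  intro j
  have h1 := hv j
  unfold sm
  rw [Int.natAbs_mul, Int.natAbs_natCast]
  exact Nat.mul_le_mul_left _ h1

theorem tv_add {M : ℕ} (x y : Pos d) : (tv (x + y) : Tor d M) = tv x + tv y := by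
  funext j
  simp [ZI.tv]

theorem Bt_shift {M : ℕ} (x : Pos d) {a ρ ρ' : ℕ} (hx : supn x ≤ a) (h : a + ρ ≤ ρ') :
    {v : Tor d M | v - tv x ∈ Bt (0 : Tor d M) ρ} ⊆ Bt (0 : Tor d M) ρ' := by
  rintro v ⟨y, hy, hv⟩
  refine ⟨x + y, (supn_add_le x y hx hy).trans h, ?_⟩
  rw [tv_add, zero_add, ← sub_eq_iff_eq_add', hv, zero_add]

theorem Bt_mono {M : ℕ} {ρ ρ' : ℕ} (h : ρ ≤ ρ') : Bt (0 : Tor d M) ρ ⊆ Bt (0 : Tor d M) ρ' := by
  rintro v ⟨y, hy, hv⟩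
  exact ⟨y, hy.trans h, hv⟩

variable (A : Prm)

theorem S_succ (k : ℕ) : A.S (k + 1) = A.S k ^ A.γ := by
  unfold Prm.S
  rw [pow_succ, pow_mul]

theorem n_mul_S (hγ : 1 ≤ A.γ) (k : ℕ) : A.S k * A.n k = A.S (k + 1) := by
  rw [S_succ]
  unfold Prm.n
  rw [← pow_succ']
  congr 1
  omega

theorem T_succ (d k : ℕ) : A.T d (k + 1) = A.nt d k * A.T d k := by
  unfold Prm.T
  rw [Prm.ix, mul_assoc]

theorem L_le_S (hL : 1 ≤ A.L) (hγ : 1 ≤ A.γ) (k : ℕ) : A.L ≤ A.S k := by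
  unfold Prm.S
  calc A.L = A.L ^ 1 := (pow_one _).symm
    _ ≤ A.L ^ A.γ ^ k := Nat.pow_le_pow_right hL (Nat.one_le_pow _ _ hγ)

theorem S_pos (hL : 1 ≤ A.L) (hγ : 1 ≤ A.γ) (k : ℕ) : 1 ≤ A.S k := hL.trans (L_le_S A hL hγ k)

theorem S_le_n (hL : 1 ≤ A.L) (hγ : 2 ≤ A.γ) (k : ℕ) : A.S k ≤ A.n k := by
  unfold Prm.n
  calc A.S k = A.S k ^ 1 := (pow_one _).symm
    _ ≤ A.S k ^ (A.γ - 1) := Nat.pow_le_pow_right (S_pos A hL (by omega) k) (by omega)

/-- the geometric bound for the window in space -/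
theorem space_fit (hL : 1000 * (d + 1) ≤ A.L) (hγ : A.α + 12 ≤ A.γ) (k : ℕ) :
    A.S k * (4 * A.n k) + (6 * A.S k + A.L ^ 2 + 1) ≤ 6 * A.S (k + 1) + A.L ^ 2 + 1 := by
  have h1 := n_mul_S A (by omega) k
  have h2 := S_le_n A (by omega) (by omega) k
  have h3 := L_le_S A (by omega) (by omega) k
  have h4 : A.S k * 1000 ≤ A.S (k + 1) := by
    rw [← h1]
    exact Nat.mul_le_mul_left _ (by nlinarith)
  nlinarith

theorem nt_ge (hL : 1000 * (d + 1) ≤ A.L) (hγ : A.α + 12 ≤ A.γ) (k : ℕ) : 8 ≤ A.nt d k := by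
  have h2 := S_le_n A (by omega) (by omega) k
  have h3 := L_le_S A (by omega) (by omega) k
  have h4 : 1 ≤ A.n k := by omega
  unfold Prm.nt
  nlinarith

theorem time_lb (k j : ℕ) : 0 ≤ 0 + (A.nt d k - 2 + j) * A.T d k := Nat.zero_le _

theorem time_ub (hL : 1000 * (d + 1) ≤ A.L) (hγ : A.α + 12 ≤ A.γ) (k j : ℕ)
    (hj : j < 4 * A.nt d k) :
    6 * A.T d k + (A.nt d k - 2 + j) * A.T d k ≤ 6 * A.T d (k + 1) := by
  have h1 := nt_ge (d := d) A hL hγ k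
  rw [T_succ, ← add_mul, ← mul_assoc]
  exact Nat.mul_le_mul_right _ (by omega)

theorem S_le_succ (hL : 1000 * (d + 1) ≤ A.L) (hγ : A.α + 12 ≤ A.γ) (k : ℕ) :
    A.S k ≤ A.S (k + 1) := by
  rw [← n_mul_S A (by omega) k]
  have h2 := S_le_n A (by omega) (by omega) k
  have h3 := L_le_S A (by omega) (by omega) k
  have h4 : 1 ≤ A.n k := by omega
  exact Nat.le_mul_of_pos_right _ h4

theorem U_le_T (hL : 1000 * (d + 1) ≤ A.L) (hγ : A.α + 12 ≤ A.γ) (k : ℕ) :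
    A.U d (k + 1) ≤ A.T d (k + 1) := by
  rw [T_succ, Prm.U]
  refine Nat.mul_le_mul_right _ ?_
  have h3 := S_pos A (by omega) (by omega) k
  have h4 : A.S k ^ (A.α + 4) ≤ A.n k := by
    unfold Prm.n
    exact Nat.pow_le_pow_right h3 (by omega)
  unfold Prm.nt
  nlinarith

/-- monotonicity of the recursion event in the event of the lower level -/
theorem RecE_mono {M K : ℕ} {N1 : ℕ} {k : ℕ} {X Y : Ev d M K} (h : ∀ η w, X η w → Y η w)
    {η : Tor d M → ℕ} {w : List (Let d M (K + 1))} (hX : RecE N1 A k X η w) :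
    RecE N1 A k Y η w := by
  obtain ⟨f, h1, h2, h3⟩ := hX
  exact ⟨f, h1, h2, fun i => h _ _ (h3 i)⟩

end BKaux


end ZP.Rows
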