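import Pool.Agent.ZP.T1a

/-! # Row T1, part b: more numerics -/

set_option autoImplicit false

open scoped ENNReal BigOperators Classical

noncomputable section

namespace ZP.T1

open ZP

theorem num_kappa (C0 Cs γ T r a Θ : ℕ) (hr : 100 ≤ r) (hC0 : 10 * C0 ≤ r) (hT : T ≤ r ^ (6 * γ ^ 2))
    (hΘ : Θ = T * (r ^ Cs + 8)) (hT1 : 1 ≤ T) (ha : 36 * γ ^ 2 + Cs + 10 ≤ a) :
    C0 * (T ^ 6 + (T ^ 4 + (4 * r + 2) * Θ)) ≤ r ^ a := by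
  have hrpos : 1 ≤ r := by omega
  have hT6 : T ^ 6 ≤ r ^ (36 * γ ^ 2) := by
    calc T ^ 6 ≤ (r ^ (6 * γ ^ 2)) ^ 6 := Nat.pow_le_pow_left hT 6
      _ = r ^ (36 * γ ^ 2) := by rw [← pow_mul]; ring_nf
  have hT46 : T ^ 4 ≤ T ^ 6 := Nat.pow_le_pow_right hT1 (by norm_num)
  have e1 : T ^ 6 ≤ r ^ (36 * γ ^ 2 + Cs + 2) := hT6.trans (Nat.pow_le_pow_right hrpos (by omega))
  have e2 : (4 * r + 2) * Θ ≤ r ^ (36 * γ ^ 2 + Cs + 2) := by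
    have h1 : 4 * r + 2 ≤ 5 * r := by omega
    have h2 : r ^ Cs + 8 ≤ 9 * r ^ Cs := by have := Nat.one_le_pow Cs r hrpos; omega
    have h3 : 45 ≤ r := by omega
    calc (4 * r + 2) * Θ = (4 * r + 2) * (T * (r ^ Cs + 8)) := by rw [hΘ]
      _ ≤ (5 * r) * (r ^ (6 * γ ^ 2) * (9 * r ^ Cs)) := by gcongr
      _ = 45 * r ^ (6 * γ ^ 2 + Cs + 1) := by ring
      _ ≤ r * r ^ (6 * γ ^ 2 + Cs + 1) := by gcongr
      _ = r ^ (6 * γ ^ 2 + Cs + 2) := by ring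
      _ ≤ r ^ (36 * γ ^ 2 + Cs + 2) := Nat.pow_le_pow_right hrpos (by omega)
  have e3 : T ^ 6 + (T ^ 4 + (4 * r + 2) * Θ) ≤ 3 * r ^ (36 * γ ^ 2 + Cs + 2) := by omega
  have e4 : 3 * C0 ≤ r := by omega
  calc C0 * (T ^ 6 + (T ^ 4 + (4 * r + 2) * Θ))
      ≤ C0 * (3 * r ^ (36 * γ ^ 2 + Cs + 2)) := Nat.mul_le_mul_left _ e3
    _ = (3 * C0) * r ^ (36 * γ ^ 2 + Cs + 2) := by ring
    _ ≤ r * r ^ (36 * γ ^ 2 + Cs + 2) := Nat.mul_le_mul_right _ e4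
    _ = r ^ (36 * γ ^ 2 + Cs + 3) := by ring
    _ ≤ r ^ a := Nat.pow_le_pow_right hrpos (by omega)

theorem num_n (γ T r a A' n : ℕ) (hr : 1000 ≤ r) (hT : T ≤ r ^ (6 * γ ^ 2))
    (hT1 : 1 ≤ T) (ha : 36 * γ ^ 2 + 10 ≤ a) (hA : 4 * a ≤ A') (hn : r ^ A' ≤ n) :
    T ^ 6 ≤ n ∧ T ^ 4 ≤ n ∧ T ≤ n ∧ r ≤ n ∧ 16 * T ^ 4 ≤ n ^ 4 ∧ T ^ 6 ≤ n ^ 4 ∧
      n ^ 2 + 200 * T + 1 ≤ n ^ 3 ∧ 1000 * n ≤ n ^ 4 := by
  have hrpos : 1 ≤ r := by omega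
  have hT6 : T ^ 6 ≤ r ^ (36 * γ ^ 2) := by
    calc T ^ 6 ≤ (r ^ (6 * γ ^ 2)) ^ 6 := Nat.pow_le_pow_left hT 6
      _ = r ^ (36 * γ ^ 2) := by rw [← pow_mul]; ring_nf
  have hT46 : T ^ 4 ≤ T ^ 6 := Nat.pow_le_pow_right hT1 (by norm_num)
  have hrn : r ≤ n := by
    calc r = r ^ 1 := (pow_one r).symm
      _ ≤ r ^ A' := Nat.pow_le_pow_right hrpos (by omega)
      _ ≤ n := hn
  have hn1000 : 1000 ≤ n := hr.trans hrn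
  have hT6n : T ^ 6 ≤ n := hT6.trans ((Nat.pow_le_pow_right hrpos (by omega)).trans hn)
  have hT16 : T ≤ T ^ 6 := by
    calc T = T ^ 1 := (pow_one T).symm
      _ ≤ T ^ 6 := Nat.pow_le_pow_right hT1 (by norm_num)
  have hTn : T ≤ n := hT16.trans hT6n
  have hn24 : n ^ 2 ≤ n ^ 4 := Nat.pow_le_pow_right (by omega) (by norm_num)
  have hnn4 : 1000 * n ≤ n ^ 4 := by
    calc 1000 * n ≤ n * n := Nat.mul_le_mul_right n hn1000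
      _ = n ^ 2 := by ring
      _ ≤ n ^ 4 := hn24
  have h1 : 200 * T + 1 ≤ n ^ 2 := by nlinarith
  have h2 : 2 * n ^ 2 ≤ n * n ^ 2 := Nat.mul_le_mul_right _ (by omega)
  refine ⟨hT6n, hT46.trans hT6n, hTn, hrn, by omega, by omega, ?_, hnn4⟩
  calc n ^ 2 + 200 * T + 1 = n ^ 2 + (200 * T + 1) := by ring
    _ ≤ 2 * n ^ 2 := by omega
    _ ≤ n * n ^ 2 := h2
    _ = n ^ 3 := by ring

theorem num_vel (Cv H r n M : ℕ) (hM : M = n ^ 4) (h1 : 100 * (Cv + 10) ≤ r) (hrn : r ≤ n)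
    (hH : H + 1 ≤ n ^ 3) : 4 * (Cv * H + r + 2) < M := by
  rw [hM]
  have h2 : n ≤ n ^ 3 := by
    calc n = n ^ 1 := (pow_one n).symm
      _ ≤ n ^ 3 := Nat.pow_le_pow_right (by omega) (by norm_num)
  have h3 : Cv * H ≤ Cv * n ^ 3 := Nat.mul_le_mul_left _ (by omega)
  have h4 : 1 ≤ n ^ 3 := Nat.one_le_pow _ _ (by omega)
  calc 4 * (Cv * H + r + 2) ≤ 4 * (Cv * n ^ 3 + n ^ 3 + 2) := by omega
    _ < (100 * (Cv + 10)) * n ^ 3 := by nlinarith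
    _ ≤ n * n ^ 3 := Nat.mul_le_mul_right _ (h1.trans hrn)
    _ = n ^ 4 := by ring

/-- the final union bound -/
theorem num_sum (Cv d n r A' : ℕ) (H M : ℕ) (hM : M = n ^ 4) (hH : H + 1 ≤ n ^ 3) (hn : 1 ≤ n)
    (hr : 1 ≤ r) (hn2 : n ≤ (2 * r) ^ A') (s : ℝ) (hs : 8 * r ≤ s)
    (hr3 : (64 * (Cv + 1 : ℝ)) * (2 * (r : ℝ)) ^ (A' * (8 * d + 10)) * Real.exp (-(r : ℝ)) ≤
      Real.exp (-(1 / 2) * (r : ℝ))) :
    4 * ((H : ℝ≥0∞) + 1) * (M : ℝ≥0∞) ^ d * ENNReal.ofReal (Real.exp (-s)) +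
      (((H : ℝ≥0∞) + 1) * (M : ℝ≥0∞) ^ (2 * d) * ENNReal.ofReal (Real.exp (-(6 * r : ℝ))) +
      (((H : ℝ≥0∞) + 1) * (M : ℝ≥0∞) ^ (2 * d) * ENNReal.ofReal (Real.exp (-(5 * r : ℝ))) +
      ((H : ℝ≥0∞) + 1) ^ 2 * (M : ℝ≥0∞) ^ d * ENNReal.ofReal (Cv * Real.exp (-(r : ℝ))))) ≤
    ENNReal.ofReal (Real.exp (-(1 / 2) * (r : ℝ))) := by
  have hr0 : (0 : ℝ) ≤ r := by positivity
  obtain ⟨X, hX⟩ : ∃ X, X = Real.exp (-(r : ℝ)) := ⟨_, rfl⟩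
  have hX0 : 0 ≤ X := by rw [hX]; exact (Real.exp_pos _).le
  obtain ⟨B, hB⟩ : ∃ B : ℕ, B = n ^ (8 * d + 6) := ⟨_, rfl⟩
  have hHn : ((H : ℝ≥0∞) + 1) ≤ ((n ^ 3 : ℕ) : ℝ≥0∞) := by exact_mod_cast hH
  have hMd : (M : ℝ≥0∞) ^ d = ((n ^ (4 * d) : ℕ) : ℝ≥0∞) := by
    rw [hM, pow_mul]; push_cast; rfl
  have hM2d : (M : ℝ≥0∞) ^ (2 * d) = ((n ^ (8 * d) : ℕ) : ℝ≥0∞) := by
    have : 8 * d = 4 * (2 * d) := by ring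
    rw [hM, this]
    push_cast
    ring
  have hB1 : ((n ^ 3 : ℕ) : ℝ≥0∞) * ((n ^ (4 * d) : ℕ) : ℝ≥0∞) ≤ (B : ℝ≥0∞) := by
    rw [hB]
    norm_cast
    rw [← pow_add]
    exact Nat.pow_le_pow_right hn (by omega)
  have hB2 : ((n ^ 3 : ℕ) : ℝ≥0∞) * ((n ^ (8 * d) : ℕ) : ℝ≥0∞) ≤ (B : ℝ≥0∞) := by
    rw [hB]
    norm_cast
    rw [← pow_add]
    exact Nat.pow_le_pow_right hn (by omega)
  have hB3 : ((n ^ 3 : ℕ) : ℝ≥0∞) ^ 2 * ((n ^ (4 * d) : ℕ) : ℝ≥0∞) ≤ (B : ℝ≥0∞) := by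
    rw [hB]
    norm_cast
    rw [← pow_mul, ← pow_add]
    exact Nat.pow_le_pow_right hn (by omega)
  have hs' : Real.exp (-s) ≤ X := by rw [hX]; exact Real.exp_le_exp.2 (by linarith)
  have h6 : Real.exp (-(6 * r : ℝ)) ≤ X := by rw [hX]; exact Real.exp_le_exp.2 (by linarith)
  have h5 : Real.exp (-(5 * r : ℝ)) ≤ X := by rw [hX]; exact Real.exp_le_exp.2 (by linarith)
  have t1 : 4 * ((H : ℝ≥0∞) + 1) * (M : ℝ≥0∞) ^ d * ENNReal.ofReal (Real.exp (-s)) ≤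
      4 * (B : ℝ≥0∞) * ENNReal.ofReal X := by
    rw [hMd]
    calc 4 * ((H : ℝ≥0∞) + 1) * ((n ^ (4 * d) : ℕ) : ℝ≥0∞) * ENNReal.ofReal (Real.exp (-s))
        ≤ 4 * ((n ^ 3 : ℕ) : ℝ≥0∞) * ((n ^ (4 * d) : ℕ) : ℝ≥0∞) * ENNReal.ofReal X := by gcongr
      _ = 4 * (((n ^ 3 : ℕ) : ℝ≥0∞) * ((n ^ (4 * d) : ℕ) : ℝ≥0∞)) * ENNReal.ofReal X := by ring
      _ ≤ 4 * (B : ℝ≥0∞) * ENNReal.ofReal X := by gcongr
  have t2 : ((H : ℝ≥0∞) + 1) * (M : ℝ≥0∞) ^ (2 * d) * ENNReal.ofReal (Real.exp (-(6 * r : ℝ))) ≤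
      (B : ℝ≥0∞) * ENNReal.ofReal X := by
    rw [hM2d]
    calc ((H : ℝ≥0∞) + 1) * ((n ^ (8 * d) : ℕ) : ℝ≥0∞) * ENNReal.ofReal (Real.exp (-(6 * r : ℝ)))
        ≤ ((n ^ 3 : ℕ) : ℝ≥0∞) * ((n ^ (8 * d) : ℕ) : ℝ≥0∞) * ENNReal.ofReal X := by gcongr
      _ ≤ (B : ℝ≥0∞) * ENNReal.ofReal X := by gcongr
  have t3 : ((H : ℝ≥0∞) + 1) * (M : ℝ≥0∞) ^ (2 * d) * ENNReal.ofReal (Real.exp (-(5 * r : ℝ))) ≤
      (B : ℝ≥0∞) * ENNReal.ofReal X := by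
    rw [hM2d]
    calc ((H : ℝ≥0∞) + 1) * ((n ^ (8 * d) : ℕ) : ℝ≥0∞) * ENNReal.ofReal (Real.exp (-(5 * r : ℝ)))
        ≤ ((n ^ 3 : ℕ) : ℝ≥0∞) * ((n ^ (8 * d) : ℕ) : ℝ≥0∞) * ENNReal.ofReal X := by gcongr
      _ ≤ (B : ℝ≥0∞) * ENNReal.ofReal X := by gcongr
  have t4 : ((H : ℝ≥0∞) + 1) ^ 2 * (M : ℝ≥0∞) ^ d * ENNReal.ofReal (Cv * Real.exp (-(r : ℝ))) ≤
      (B : ℝ≥0∞) * ENNReal.ofReal (Cv * X) := by
    rw [hMd, ← hX]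
    calc ((H : ℝ≥0∞) + 1) ^ 2 * ((n ^ (4 * d) : ℕ) : ℝ≥0∞) * ENNReal.ofReal (Cv * X)
        ≤ ((n ^ 3 : ℕ) : ℝ≥0∞) ^ 2 * ((n ^ (4 * d) : ℕ) : ℝ≥0∞) * ENNReal.ofReal (Cv * X) := by
          gcongr
      _ ≤ (B : ℝ≥0∞) * ENNReal.ofReal (Cv * X) := by gcongr
  have hBr : (B : ℝ) ≤ (2 * (r : ℝ)) ^ (A' * (8 * d + 10)) := by
    have h1 : B ≤ (2 * r) ^ (A' * (8 * d + 10)) := by
      calc B = n ^ (8 * d + 6) := hB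
        _ ≤ ((2 * r) ^ A') ^ (8 * d + 6) := Nat.pow_le_pow_left hn2 _
        _ = (2 * r) ^ (A' * (8 * d + 6)) := (pow_mul _ _ _).symm
        _ ≤ (2 * r) ^ (A' * (8 * d + 10)) :=
          Nat.pow_le_pow_right (by omega) (Nat.mul_le_mul_left _ (by omega))
    have h2 : (B : ℝ) ≤ (((2 * r) ^ (A' * (8 * d + 10)) : ℕ) : ℝ) := by exact_mod_cast h1
    refine h2.trans (le_of_eq ?_)
    push_cast
    rfl
  have hB0 : (0 : ℝ) ≤ B := Nat.cast_nonneg _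
  calc _ ≤ 4 * (B : ℝ≥0∞) * ENNReal.ofReal X + ((B : ℝ≥0∞) * ENNReal.ofReal X +
        ((B : ℝ≥0∞) * ENNReal.ofReal X + (B : ℝ≥0∞) * ENNReal.ofReal (Cv * X))) :=
        add_le_add t1 (add_le_add t2 (add_le_add t3 t4))
    _ = ENNReal.ofReal ((6 + Cv) * B * X) := by
        have e1 : (B : ℝ≥0∞) * ENNReal.ofReal X = ENNReal.ofReal (B * X) := by
          rw [ENNReal.ofReal_mul hB0, ENNReal.ofReal_natCast]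
        have e2 : (B : ℝ≥0∞) * ENNReal.ofReal (Cv * X) = ENNReal.ofReal (B * (Cv * X)) := by
          rw [ENNReal.ofReal_mul hB0, ENNReal.ofReal_natCast]
        have e3 : 4 * (B : ℝ≥0∞) * ENNReal.ofReal X = ENNReal.ofReal (4 * (B * X)) := by
          rw [mul_assoc, e1, ENNReal.ofReal_mul (p := 4) (by norm_num)]
          norm_num
        rw [e1, e2, e3, ← ENNReal.ofReal_add (by positivity) (by positivity),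
          ← ENNReal.ofReal_add (by positivity) (by positivity),
          ← ENNReal.ofReal_add (by positivity) (by positivity)]
        congr 1
        ring
    _ ≤ _ := by
        refine ENNReal.ofReal_le_ofReal (le_trans ?_ hr3)
        rw [hX]
        refine mul_le_mul_of_nonneg_right ?_ (Real.exp_pos _).le
        have hC : (0 : ℝ) ≤ Cv := Nat.cast_nonneg _
        exact mul_le_mul (by linarith) hBr hB0 (by positivity)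

end ZP.T1
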