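import Pool.Agent.ZP.Hub

/-! # Hubs: the corridor -/

set_option autoImplicit false

open scoped BigOperators Classical

noncomputable section

namespace ZP

variable {d : ℕ} {Λ : Lvl} {bm bp : ℕ → Blk d → Prop}

/-- sum distance of two points in neighbouring boxes -/
theorem box_dist {n : ℕ} {z z' y y' : Pos d} (hz : n1 (z' - z) ≤ 1)
    (h1 : ∀ j, n * z j ≤ y j ∧ y j < n * z j + n) (h2 : ∀ j, n * z' j ≤ y' j ∧ y' j < n * z' j + n) :
    n1 (y' - y) ≤ n + d * n := by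
  have h3 : n1 (y' - y) ≤ ∑ j : Fin d, (n * ((z' - z) j).natAbs + n) := by
    unfold n1
    refine Finset.sum_le_sum fun j _ => ?_
    have h3 := h1 j
    have h4 := h2 j
    simp only [Pi.sub_apply]
    have h5 : y' j - y j ≤ n * (z' j - z j) + n := by nlinarith [h3.1, h3.2, h4.1, h4.2]
    have h6 : n * (z' j - z j) - n ≤ y' j - y j := by nlinarith [h3.1, h3.2, h4.1, h4.2]
    have h7 : ((n * (z' j - z j).natAbs : ℕ) : ℤ) = |(n : ℤ) * (z' j - z j)| := by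
      rw [abs_mul, Nat.abs_cast]
      push_cast
      rfl
    have h8 := le_abs_self ((n : ℤ) * (z' j - z j))
    have h9 := neg_abs_le ((n : ℤ) * (z' j - z j))
    clear h1 h2
    omega
  rw [Finset.sum_add_distrib, ← Finset.mul_sum] at h3
  have h4 : n * n1 (z' - z) ≤ n := by
    calc n * n1 (z' - z) ≤ n * 1 := Nat.mul_le_mul_left _ hz
      _ = n := mul_one n
  have h5 : ∑ _j : Fin d, n = d * n := by simp
  rw [h5] at h3
  unfold n1 at h4
  exact le_trans h3 (Nat.add_le_add_right h4 _)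

/-- two different paths do not meet the same small ball in the middle phase -/
theorem corr_sep (hd : 0 < d) {X : ℕ → Pos d} (hX : ∀ t, n1 (X (t + 1) - X t) ≤ 1) {B N a p p' i : ℕ}
    (ha : 1 ≤ a) (hp : 5 * a * p ≤ B) (hp' : 5 * a * p' ≤ B) (hlt : p < p') {t t' : ℕ}
    (h1 : B < t) (h2 : t < N - B) (h1' : B < t') (h2' : t' < N - B) (c : Blk d)
    (hc : bd (corr hd X B N (5 * a) p t, i + t) c ≤ a)
    (hc' : bd (corr hd X B N (5 * a) p' t', i + t') c ≤ a) : False := by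
  rw [bd_le_iff] at hc hc'
  have h3 := hc.1 ⟨0, hd⟩
  have h4 := hc'.1 ⟨0, hd⟩
  have h5 := hc.2
  have h6 := hc'.2
  have hc1 : corr hd X B N (5 * a) p t ⟨0, hd⟩ = X (t - B) ⟨0, hd⟩ + ((5 * a * p : ℕ) : ℤ) := by
    unfold corr
    rw [Pi.add_apply, Pi.single_eq_same, show min (t - B) (N - 2 * B) = t - B by omega,
      show min (min t (N - t)) (5 * a * p) = 5 * a * p by omega]
  have hc2 : corr hd X B N (5 * a) p' t' ⟨0, hd⟩ = X (t' - B) ⟨0, hd⟩ + ((5 * a * p' : ℕ) : ℤ) := by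
    unfold corr
    rw [Pi.add_apply, Pi.single_eq_same, show min (t' - B) (N - 2 * B) = t' - B by omega,
      show min (min t' (N - t')) (5 * a * p') = 5 * a * p' by omega]
  simp only at h3 h4 h5 h6
  rw [hc1] at h3
  rw [hc2] at h4
  have hlip := path_lip' hX ⟨0, hd⟩ (t := t - B) (u := t' - B) (r := 2 * a) (by omega) (by omega)
  rw [abs_le] at hlip
  have h7 : 5 * a * (p + 1) ≤ 5 * a * p' := Nat.mul_le_mul_left _ hlt
  have h8 : 5 * a * (p + 1) = 5 * a * p + 5 * a := by ring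
  have h9 : ((5 * a * p : ℕ) : ℤ) + 5 * (a : ℤ) ≤ ((5 * a * p' : ℕ) : ℤ) := by
    have : 5 * a * p + 5 * a ≤ 5 * a * p' := by omega
    exact_mod_cast this
  have ha' : (1 : ℤ) ≤ a := by exact_mod_cast ha
  obtain ⟨l1, l2⟩ := hlip
  push_cast at l1 l2
  linarith [h3.1, h3.2, h4.1, h4.2]

theorem single_bound (hd : 0 < d) {c B : ℕ} (hc : c ≤ B) (j : Fin d) :
    (0 : ℤ) ≤ (Pi.single (⟨0, hd⟩ : Fin d) (c : ℤ) : Pos d) j ∧
      (Pi.single (⟨0, hd⟩ : Fin d) (c : ℤ) : Pos d) j ≤ B := by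
  by_cases hj : j = ⟨0, hd⟩
  · subst hj
    rw [Pi.single_eq_same]
    exact ⟨by positivity, by exact_mod_cast hc⟩
  · rw [Pi.single_eq_of_ne hj]
    exact ⟨le_rfl, by positivity⟩

/-- the coordinates of the paths -/
theorem corr_coord (hd : 0 < d) {X : ℕ → Pos d} {B N b n p t : ℕ} {z z' y y' : Pos d}
    (hz : n1 (z' - z) ≤ 1) (h1 : ∀ j, n * z j ≤ y j ∧ y j < n * z j + n)
    (h2 : ∀ j, n * z' j ≤ y' j ∧ y' j < n * z' j + n)
    (hX : ∀ t j, min (y j) (y' j) ≤ X t j ∧ X t j ≤ max (y j) (y' j)) (hp : b * p ≤ n) (j : Fin d) :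
    (n * z j - n ≤ corr hd X B N b p t j ∧ corr hd X B N b p t j ≤ n * z j + 3 * n) ∧
    (n * z' j - 4 * n ≤ corr hd X B N b p t j ∧ corr hd X B N b p t j ≤ n * z' j + 4 * n) := by
  have h3 := hX (min (t - B) (N - 2 * B)) j
  have h4 := h1 j
  have h5 := h2 j
  have h6 : (z' j - z j).natAbs ≤ 1 := le_trans (natAbs_le_n1 (z' - z) j) hz
  have h7 : (n : ℤ) * z j - n ≤ n * z' j ∧ (n : ℤ) * z' j ≤ n * z j + n := by
    have h8 : z j - 1 ≤ z' j ∧ z' j ≤ z j + 1 := by omega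
    constructor <;> nlinarith [h8.1, h8.2]
  have h9 := single_bound hd (c := min (min t (N - t)) (b * p)) (B := n)
    (le_trans (min_le_right _ _) hp) j
  obtain ⟨h9a, h9b⟩ := h9
  have h10 : (n : ℤ) * z j - n ≤ min (y j) (y' j) := by
    rw [le_min_iff]
    constructor <;> linarith [h4.1, h5.1, h7.1]
  have h11 : max (y j) (y' j) ≤ n * z j + 2 * n := by
    rw [max_le_iff]
    constructor <;> linarith [h4.2, h5.2, h7.2]
  unfold corr
  rw [Pi.add_apply]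
  refine ⟨⟨?_, ?_⟩, ?_, ?_⟩
  · linarith [h3.1]
  · linarith [h3.2]
  · linarith [h3.1, h7.2]
  · linarith [h3.2, h7.1]

/-- the first phase and the last phase stay near the ends -/
theorem corr_start (hd : 0 < d) {X : ℕ → Pos d} {B N b p t i D : ℕ} {y : Pos d} (hX0 : X 0 = y)
    (hp : b * p ≤ B) (hBD : B ≤ D) (ht : t ≤ B) : bd (corr hd X B N b p t, i + t) (y, i) ≤ D := by
  rw [bd_le_iff]
  refine ⟨fun j => ?_, ?_, ?_⟩
  · simp only
    unfold corr
    rw [Nat.sub_eq_zero_of_le ht, Nat.zero_min, hX0, Pi.add_apply]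
    have := single_bound hd (c := min (min t (N - t)) (b * p)) (B := D)
      (le_trans (min_le_right _ _) (le_trans hp hBD)) j
    constructor <;> linarith [this.1, this.2]
  · simp only; omega
  · simp only; omega

theorem corr_end (hd : 0 < d) {X : ℕ → Pos d} {B N b p t i i' D : ℕ} {y' : Pos d}
    (hXN : X (N - 2 * B) = y') (hi : i' = i + N)
    (hp : b * p ≤ B) (hBD : B ≤ D) (ht : N - B ≤ t) (htN : t ≤ N) :
    bd (corr hd X B N b p t, i + t) (y', i') ≤ D := by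
  rw [bd_le_iff]
  refine ⟨fun j => ?_, ?_, ?_⟩
  · simp only
    unfold corr
    rw [show min (t - B) (N - 2 * B) = N - 2 * B by omega, hXN, Pi.add_apply]
    have := single_bound hd (c := min (min t (N - t)) (b * p)) (B := D)
      (le_trans (min_le_right _ _) (le_trans hp hBD)) j
    constructor <;> linarith [this.1, this.2]
  · simp only; omega
  · simp only; omega

/-- one of the paths is free -/
theorem corr_free (hd : 0 < d) {X : ℕ → Pos d} (hX : ∀ t, n1 (X (t + 1) - X t) ≤ 1) {B N a m i : ℕ}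
    (ha : 1 ≤ a) (hm : 5 * a * m ≤ B) (F : Finset (Blk d)) (hF : F.card ≤ m) (bad : Blk d → Prop)
    (hc : ∀ p ≤ m, ∀ t ≤ N, bad (corr hd X B N (5 * a) p t, i + t) →
      ∃ c ∈ F, bd (corr hd X B N (5 * a) p t, i + t) c ≤ a)
    (h1 : ∀ p ≤ m, ∀ t ≤ N, t ≤ B → ¬ bad (corr hd X B N (5 * a) p t, i + t))
    (h2 : ∀ p ≤ m, ∀ t ≤ N, N - B ≤ t → ¬ bad (corr hd X B N (5 * a) p t, i + t)) :
    ∃ p ≤ m, ∀ t ≤ N, ¬ bad (corr hd X B N (5 * a) p t, i + t) := by
  by_contra hcon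
  push Not at hcon
  have hmid : ∀ p ≤ m, ∃ t, B < t ∧ t < N - B ∧ ∃ c ∈ F,
      bd (corr hd X B N (5 * a) p t, i + t) c ≤ a := by
    intro p hp
    obtain ⟨t, ht, hb⟩ := hcon p hp
    by_cases h3 : t ≤ B
    · exact absurd hb (h1 p hp t ht h3)
    · by_cases h4 : N - B ≤ t
      · exact absurd hb (h2 p hp t ht h4)
      · obtain ⟨c, hcF, hcd⟩ := hc p hp t ht hb
        exact ⟨t, by omega, by omega, c, hcF, hcd⟩
  choose! τ hτ1 hτ2 γ hγF hγ using hmid
  obtain ⟨p, hp, p', hp', hne, heq⟩ := Finset.exists_ne_map_eq_of_card_lt_of_maps_to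
    (s := Finset.range (m + 1)) (t := F) (f := γ) (by rw [Finset.card_range]; omega)
    (fun p hp => hγF p (by have := Finset.mem_range.mp hp; omega))
  have hp1 : p ≤ m := by have := Finset.mem_range.mp hp; omega
  have hp1' : p' ≤ m := by have := Finset.mem_range.mp hp'; omega
  have b1 : 5 * a * p ≤ B := le_trans (Nat.mul_le_mul_left _ hp1) hm
  have b2 : 5 * a * p' ≤ B := le_trans (Nat.mul_le_mul_left _ hp1') hm
  rcases lt_or_gt_of_ne hne with h | h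
  · exact corr_sep hd hX ha b1 b2 h (hτ1 p hp1) (hτ2 p hp1) (hτ1 p' hp1') (hτ2 p' hp1') (γ p)
      (hγ p hp1) (by rw [heq]; exact hγ p' hp1')
  · exact corr_sep hd hX ha b2 b1 h (hτ1 p' hp1') (hτ2 p' hp1') (hτ1 p hp1) (hτ2 p hp1) (γ p)
      (by rw [heq]; exact hγ p' hp1') (hγ p hp1)

/-- the corridor: good blocks of level `k` from `w` to `w'` -/
theorem corridor (hd : 0 < d) (hΛ : Λ.Fit d) (hH : Hier Λ bm bp) {k : ℕ} {v v' w w' : Blk d}
    (hv : ¬ Bad bm bp (k + 1) v) (hvv : v'.2 = v.2 + 1) (hvn : n1 (v'.1 - v.1) ≤ 1)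
    (hw : w ∈ Bg (Λ.n k) Λ.q v) (hw' : w' ∈ Bg (Λ.n k) Λ.q v')
    (hwf : ∀ u ∈ Rg (Λ.n k) Λ.q v, bd u w ≤ Λ.D k → ¬ Bad bm bp k u)
    (hwf' : ∀ u ∈ Rg (Λ.n k) Λ.q v', bd u w' ≤ Λ.D k → ¬ Bad bm bp k u) :
    ∃ (N : ℕ) (Y : ℕ → Pos d), 1 ≤ N ∧ w'.2 = w.2 + N ∧ Y 0 = w.1 ∧ Y N = w'.1 ∧
      (∀ t < N, n1 (Y (t + 1) - Y t) ≤ 1) ∧ ∀ t ≤ N, ¬ Bad bm bp k (Y t, w.2 + t) := by
  obtain ⟨F, hF, hc⟩ := cover_of_good hH hv
  have hq := hΛ.q_big
  have hn := hΛ.n_pos k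
  have ha := hΛ.a_pos k
  have haD := hΛ.aD k
  have han := hΛ.an k
  obtain ⟨hw1, hw2, hw3⟩ := hw
  obtain ⟨hw1', hw2', hw3'⟩ := hw'
  generalize hn_def : Λ.n k = n at *
  generalize hq_def : Λ.q = q at *
  generalize hJ_def : Λ.J k = J at *
  generalize ha_def : Λ.a k = a at *
  generalize hD_def : Λ.D k = D at *
  obtain ⟨B, hB_def⟩ : ∃ B, B = 10 * a * J := ⟨_, rfl⟩
  have hBm : 5 * a * (2 * J) ≤ B := by rw [hB_def]; exact le_of_eq (by ring)
  have hBD : B ≤ D := by rw [hB_def]; exact haD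
  have h2B : 2 * B ≤ n := by
    refine le_trans (le_of_eq ?_) han
    rw [hB_def]; ring
  rw [hvv] at hw2' hw3'
  have e1 : q * n * (v.2 + 1) = q * n * v.2 + q * n := by ring
  rw [e1] at hw2' hw3'
  have hqn : d * n + 4 * n ≤ q * n := by
    have := Nat.mul_le_mul_right n hq
    rw [add_mul] at this
    exact this
  obtain ⟨N, hNe⟩ : ∃ N, w'.2 = w.2 + N := ⟨w'.2 - w.2, by
    have : (0 : ℕ) ≤ d * n := Nat.zero_le _
    omega⟩
  have hNlb : d * n + 3 * n ≤ N := by omega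
  have hdist := box_dist hvn hw1 hw1'
  have hdn : (0 : ℕ) ≤ d * n := Nat.zero_le _
  obtain ⟨X, hX0, hXN, hX1, hX2⟩ := mono_path (N - 2 * B) w.1 w'.1 (by omega)
  have h2BN : 2 * B ≤ N := by omega
  have hcoord : ∀ p ≤ 2 * J, ∀ t j, _ := fun p hp t j =>
    corr_coord hd (B := B) (N := N) (b := 5 * a) (p := p) (t := t) hvn hw1 hw1' hX2
      (le_trans (Nat.mul_le_mul_left _ hp) (by omega)) j
  have hR : ∀ p ≤ 2 * J, ∀ t ≤ N, ((corr hd X B N (5 * a) p t, w.2 + t) : Blk d) ∈ Rg n q v := by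
    intro p hp t ht
    refine ⟨fun j => ?_, ?_, ?_⟩
    · have := (hcoord p hp t j).1
      have hn0 : (0 : ℤ) ≤ n := by positivity
      simp only
      constructor <;> linarith [this.1, this.2]
    · simp only
      omega
    · simp only
      have e2 : q * n * (v.2 + 3) = q * n * v.2 + 3 * (q * n) := by ring
      omega
  have hR' : ∀ p ≤ 2 * J, ∀ t ≤ N, ((corr hd X B N (5 * a) p t, w.2 + t) : Blk d) ∈ Rg n q v' := by
    intro p hp t ht
    refine ⟨fun j => (hcoord p hp t j).2, ?_, ?_⟩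
    · simp only
      rw [hvv]
      omega
    · simp only
      rw [hvv]
      have e2 : q * n * (v.2 + 1 + 3) = q * n * v.2 + 4 * (q * n) := by ring
      omega
  obtain ⟨p, hp, hfree⟩ := corr_free hd hX1 (B := B) (N := N) (a := a) (m := 2 * J) (i := w.2) ha hBm F hF
    (Bad bm bp k) (fun p hp t ht hb => hc _ (hR p hp t ht) hb)
    (fun p hp t ht htB => hwf _ (hR p hp t ht)
      (corr_start hd hX0 (le_trans (Nat.mul_le_mul_left _ hp) hBm) hBD htB))
    (fun p hp t ht htB => hwf' _ (hR' p hp t ht)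
      (corr_end hd hXN hNe (le_trans (Nat.mul_le_mul_left _ hp) hBm) hBD htB ht))
  refine ⟨N, corr hd X B N (5 * a) p, by omega, hNe, ?_, ?_, ?_, hfree⟩
  · unfold corr
    simp [hX0]
  · unfold corr
    rw [show min (N - B) (N - 2 * B) = N - 2 * B by omega, hXN]
    simp
  · intro t ht
    exact corr_step hd hX1 h2BN (le_trans (Nat.mul_le_mul_left _ hp) hBm) ht

/-- H2 -/
theorem Hub_path (hd : 0 < d) (hΛ : Λ.Fit d) (hH : Hier Λ bm bp) : ∀ (k : ℕ) (v v' : Blk d),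
    ¬ Bad bm bp k v → ¬ Bad bm bp k v' → v'.2 = v.2 + 1 → n1 (v'.1 - v.1) ≤ 1 →
    ∀ P ∈ Hub Λ (Bad bm bp) k v, ∀ P' ∈ Hub Λ (Bad bm bp) k v', OPath (Bad bm bp) P P' := by
  intro k
  induction k with
  | zero =>
    intro v v' hv _ hvv hvn P hP P' hP'
    have e1 : P = v := hP
    have e2 : P' = v' := hP'
    subst e1
    subst e2
    exact Relation.ReflTransGen.single ⟨hv, hvv, hvn⟩
  | succ k ih =>
    rintro v v' hv hv' hvv hvn P ⟨w, hw, hwf, hP⟩ P' ⟨w', hw', hwf', hP'⟩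
    obtain ⟨N, Y, hN, hNe, hY0, hYN, hY1, hY2⟩ := corridor hd hΛ hH hv hvv hvn hw hw' hwf hwf'
    have key : ∀ t, 1 ≤ t → t ≤ N → ∀ Q ∈ Hub Λ (Bad bm bp) k (Y t, w.2 + t), OPath (Bad bm bp) P Q := by
      intro t ht
      induction t, ht using Nat.le_induction with
      | base =>
        intro _ Q hQ
        have h0 := hY2 0 (Nat.zero_le _)
        have hs := hY1 0 (by omega)
        rw [hY0] at h0 hs
        exact ih w (Y 1, w.2 + 1) h0 (hY2 1 hN) rfl hs P hP Q hQ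
      | succ t ht iht =>
        intro htN Q hQ
        obtain ⟨Q', hQ', _⟩ := Hub_nonempty hΛ hH k (Y t, w.2 + t) (hY2 t (by omega))
        have h1 := iht (by omega) Q' hQ'
        have h2 := ih (Y t, w.2 + t) (Y (t + 1), w.2 + (t + 1)) (hY2 t (by omega)) (hY2 (t + 1) htN)
          rfl (hY1 t (by omega)) Q' hQ' Q hQ
        exact Relation.ReflTransGen.trans h1 h2
    have e : w' = (Y N, w.2 + N) := Prod.ext hYN.symm hNe
    rw [e] at hP'
    exact key N hN le_rfl P' hP'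

/-- H2' : all blocks of level `k` in the box between `v` and `v'` are good -/
theorem Hub_path_far (hd : 0 < d) (hΛ : Λ.Fit d) (hH : Hier Λ bm bp) (k : ℕ) (v v' : Blk d)
    (hlt : v.2 < v'.2) (hvn : v.2 + n1 (v'.1 - v.1) ≤ v'.2)
    (hgood : ∀ w : Blk d, v.2 ≤ w.2 → w.2 ≤ v'.2 →
      (∀ j, min (v.1 j) (v'.1 j) ≤ w.1 j ∧ w.1 j ≤ max (v.1 j) (v'.1 j)) → ¬ Bad bm bp k w)
    (P : Blk d) (hP : P ∈ Hub Λ (Bad bm bp) k v) (P' : Blk d) (hP' : P' ∈ Hub Λ (Bad bm bp) k v') :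
    OPath (Bad bm bp) P P' := by
  obtain ⟨N, hN⟩ : ∃ N, v'.2 = v.2 + N := ⟨v'.2 - v.2, by omega⟩
  obtain ⟨X, hX0, hXN, hX1, hX2⟩ := mono_path N v.1 v'.1 (by omega)
  have hg : ∀ t ≤ N, ¬ Bad bm bp k (X t, v.2 + t) := fun t ht =>
    hgood _ (by simp) (by simp only; omega) (hX2 t)
  have key : ∀ t, 1 ≤ t → t ≤ N → ∀ Q ∈ Hub Λ (Bad bm bp) k (X t, v.2 + t), OPath (Bad bm bp) P Q := by
    intro t ht
    induction t, ht using Nat.le_induction with
    | base =>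
      intro htN Q hQ
      have h0 := hg 0 (Nat.zero_le _)
      have hs := hX1 0
      rw [hX0] at h0 hs
      exact Hub_path hd hΛ hH k v (X 1, v.2 + 1) h0 (hg 1 htN) rfl hs P hP Q hQ
    | succ t ht iht =>
      intro htN Q hQ
      obtain ⟨Q', hQ', _⟩ := Hub_nonempty hΛ hH k (X t, v.2 + t) (hg t (by omega))
      exact Relation.ReflTransGen.trans (iht (by omega) Q' hQ')
        (Hub_path hd hΛ hH k (X t, v.2 + t) (X (t + 1), v.2 + (t + 1)) (hg t (by omega)) (hg (t + 1) htN)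
          rfl (hX1 t) Q' hQ' Q hQ)
  have e : v' = (X N, v.2 + N) := Prod.ext hXN.symm hN
  rw [e] at hP'
  exact key N (by omega) le_rfl P' hP'

end ZP
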