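import Pool.Agent.ZP.Core
import Pool.Agent.ZP.Hub2

/-! # HB: hubs (text M5, M6) -/

set_option autoImplicit false

open scoped ENNReal BigOperators Classical Pointwise

noncomputable section

namespace ZP.Rows

open ZP

variable {d : ℕ}

section HB

variable {Λ : Lvl} {bm bp : ℕ → Blk d → Prop}

/-- number of the cells of level `0` per side of a cell of level `k` -/
def nxL (Λ : Lvl) : ℕ → ℕ
  | 0 => 1
  | k + 1 => Λ.n k * nxL Λ k

theorem hub_cell (hΛ : Λ.Fit d) (bad : ℕ → Blk d → Prop) (k : ℕ) (v P : Blk d)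
    (hP : P ∈ Hub Λ bad k v) :
    (∀ j, (nxL Λ k : ℤ) * v.1 j ≤ P.1 j ∧ P.1 j < (nxL Λ k : ℤ) * v.1 j + nxL Λ k) ∧
      Λ.t k * v.2 ≤ P.2 ∧ P.2 < Λ.t k * (v.2 + 1) := by
  induction k generalizing v with
  | zero =>
    have e : P = v := hP
    subst e
    refine ⟨fun j => ⟨?_, ?_⟩, ?_, ?_⟩
    · simp [nxL]
    · simp [nxL]
    · simp [Lvl.t]
    · simp [Lvl.t]
  | succ k ih =>
    obtain ⟨w, ⟨hw1, hw2, hw3⟩, -, hPw⟩ := hP
    obtain ⟨h1, h2, h3⟩ := ih w hPw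
    have hn0 : (0 : ℤ) ≤ nxL Λ k := by positivity
    refine ⟨fun j => ?_, ?_, ?_⟩
    · have h4 := h1 j
      have h5 := hw1 j
      have e : ((nxL Λ (k + 1) : ℕ) : ℤ) = Λ.n k * nxL Λ k := by
        simp only [nxL]
        push_cast
        ring
      rw [e]
      have h6 : (nxL Λ k : ℤ) * (Λ.n k * v.1 j) ≤ nxL Λ k * w.1 j :=
        mul_le_mul_of_nonneg_left h5.1 hn0
      have h7 : (nxL Λ k : ℤ) * (w.1 j + 1) ≤ nxL Λ k * (Λ.n k * v.1 j + Λ.n k) :=
        mul_le_mul_of_nonneg_left (by omega) hn0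
      constructor
      · linarith [h4.1]
      · linarith [h4.2]
    · have h6 : Λ.t k * (Λ.q * Λ.n k * v.2) ≤ Λ.t k * w.2 := Nat.mul_le_mul_left _ hw2
      have e : Λ.t (k + 1) * v.2 = Λ.t k * (Λ.q * Λ.n k * v.2) := by
        simp only [Lvl.t]
        ring
      rw [e]
      exact le_trans h6 h2
    · have hq : 1 ≤ Λ.q := by have := hΛ.q_big; omega
      have h5 : Λ.n k ≤ Λ.q * Λ.n k := Nat.le_mul_of_pos_left _ hq
      have h7 : w.2 + 1 ≤ Λ.q * Λ.n k * (v.2 + 1) := by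
        rw [mul_add, mul_one]
        omega
      have h6 := Nat.mul_le_mul_left (Λ.t k) h7
      have e : Λ.t (k + 1) * (v.2 + 1) = Λ.t k * (Λ.q * Λ.n k * (v.2 + 1)) := by
        simp only [Lvl.t]
        ring
      rw [e]
      exact lt_of_lt_of_le h3 h6

theorem hub_good (hΛ : Λ.Fit d) (bad : ℕ → Blk d → Prop) (k : ℕ) (v P : Blk d) (hv : ¬ bad k v)
    (hP : P ∈ Hub Λ bad k v) : ¬ bad 0 P := by
  induction k generalizing v with
  | zero =>
    have e : P = v := hP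
    subst e
    exact hv
  | succ k ih =>
    obtain ⟨w, hw, hwf, hPw⟩ := hP
    have hq : 1 ≤ Λ.q := by have := hΛ.q_big; omega
    exact ih w (hwf w (Bg_sub_Rg hq hw) (by rw [bd_self]; exact Nat.zero_le _)) hPw

/-- dimension zero -/
theorem corridor_zero (hΛ : Λ.Fit 0) {bm bp : ℕ → Blk 0 → Prop} (hH : Hier Λ bm bp) {k : ℕ}
    {v v' w w' : Blk 0}
    (hv : ¬ Bad bm bp (k + 1) v) (hvv : v'.2 = v.2 + 1)
    (hw : w ∈ Bg (Λ.n k) Λ.q v) (hw' : w' ∈ Bg (Λ.n k) Λ.q v') :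
    ∃ (N : ℕ) (Y : ℕ → Pos 0), 1 ≤ N ∧ w'.2 = w.2 + N ∧ Y 0 = w.1 ∧ Y N = w'.1 ∧
      (∀ t < N, n1 (Y (t + 1) - Y t) ≤ 1) ∧ ∀ t ≤ N, ¬ Bad bm bp k (Y t, w.2 + t) := by
  obtain ⟨F, hF, hc⟩ := cover_of_good hH hv
  have hcnt := hΛ.cnt k
  have hJ : Λ.J k = 0 := by
    simp only [pow_zero, mul_one] at hcnt
    omega
  have hF0 : F = ∅ := by
    rw [hJ] at hF
    exact Finset.card_eq_zero.mp (by omega)
  have hall : ∀ u ∈ Rg (Λ.n k) Λ.q v, ¬ Bad bm bp k u := by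
    intro u hu hb
    obtain ⟨c, hc1, _⟩ := hc u hu hb
    rw [hF0] at hc1
    exact absurd hc1 (Finset.notMem_empty c)
  have hq := hΛ.q_big
  have hn := hΛ.n_pos k
  obtain ⟨_, hw2, hw3⟩ := hw
  obtain ⟨_, hw2', hw3'⟩ := hw'
  generalize Λ.n k = n at *
  generalize Λ.q = q at *
  rw [hvv] at hw2' hw3'
  have e1 : q * n * (v.2 + 1) = q * n * v.2 + q * n := by ring
  rw [e1] at hw2' hw3'
  have hqn : 4 * n ≤ q * n := Nat.mul_le_mul_right n (by omega)
  obtain ⟨N, hNe⟩ : ∃ N, w'.2 = w.2 + N := ⟨w'.2 - w.2, by omega⟩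
  refine ⟨N, fun _ => w.1, by omega, hNe, rfl, Subsingleton.elim _ _, fun t _ => ?_, fun t ht => ?_⟩
  · rw [sub_self, n1_zero]
    exact Nat.zero_le _
  · apply hall
    refine ⟨fun j => j.elim0, ?_, ?_⟩
    · simp only
      omega
    · simp only
      have e2 : q * n * (v.2 + 3) = q * n * v.2 + 3 * (q * n) := by ring
      omega

theorem hub_link (hΛ : Λ.Fit d) (hH : Hier Λ bm bp) (k : ℕ) (v v' : Blk d) (hv : ¬ Bad bm bp k v)
    (hv' : ¬ Bad bm bp k v') (h1 : v'.2 = v.2 + 1) (h2 : n1 (v'.1 - v.1) ≤ 1) (P P' : Blk d)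
    (hP : P ∈ Hub Λ (Bad bm bp) k v) (hP' : P' ∈ Hub Λ (Bad bm bp) k v') :
    OPath (Bad bm bp) P P' := by
  rcases Nat.eq_zero_or_pos d with hd | hd
  · subst hd
    induction k generalizing v v' P P' with
    | zero =>
      have e1 : P = v := hP
      have e2 : P' = v' := hP'
      subst e1
      subst e2
      exact Relation.ReflTransGen.single ⟨hv, h1, h2⟩
    | succ k ih =>
      obtain ⟨w, hw, hwf, hPw⟩ := hP
      obtain ⟨w', hw', hwf', hPw'⟩ := hP'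
      obtain ⟨N, Y, hN, hNe, hY0, hYN, hY1, hY2⟩ := corridor_zero hΛ hH hv h1 hw hw'
      have key : ∀ t, 1 ≤ t → t ≤ N → ∀ Q ∈ Hub Λ (Bad bm bp) k (Y t, w.2 + t),
          OPath (Bad bm bp) P Q := by
        intro t ht
        induction t, ht using Nat.le_induction with
        | base =>
          intro _ Q hQ
          have h0 := hY2 0 (Nat.zero_le _)
          have hs := hY1 0 (by omega)
          rw [hY0] at h0 hs
          exact ih w (Y 1, w.2 + 1) h0 (hY2 1 hN) rfl hs P Q hPw hQ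
        | succ t ht iht =>
          intro htN Q hQ
          obtain ⟨Q', hQ', _⟩ := Hub_nonempty hΛ hH k (Y t, w.2 + t) (hY2 t (by omega))
          have h3 := iht (by omega) Q' hQ'
          have h4 := ih (Y t, w.2 + t) (Y (t + 1), w.2 + (t + 1)) (hY2 t (by omega)) (hY2 (t + 1) htN)
            rfl (hY1 t (by omega)) Q' Q hQ' hQ
          exact Relation.ReflTransGen.trans h3 h4
      have e : w' = (Y N, w.2 + N) := Prod.ext hYN.symm hNe
      rw [e] at hPw'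
      exact key N hN le_rfl P' hPw'
  · exact Hub_path hd hΛ hH k v v' hv hv' h1 h2 P hP P' hP'

theorem hub_chain (hΛ : Λ.Fit d) (hH : Hier Λ bm bp) (k : ℕ) (v v' : Blk d) (h1 : v.2 < v'.2)
    (h2 : n1 (v'.1 - v.1) ≤ v'.2 - v.2)
    (hG : ∀ z i, v.2 ≤ i → i ≤ v'.2 → ¬ Bad bm bp k (z, i)) (P P' : Blk d)
    (hP : P ∈ Hub Λ (Bad bm bp) k v) (hP' : P' ∈ Hub Λ (Bad bm bp) k v') :
    OPath (Bad bm bp) P P' := by
  obtain ⟨N, hN⟩ : ∃ N, v'.2 = v.2 + N := ⟨v'.2 - v.2, by omega⟩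
  obtain ⟨X, hX0, hXN, hX1, hX2⟩ := mono_path N v.1 v'.1 (by omega)
  have hg : ∀ t ≤ N, ¬ Bad bm bp k (X t, v.2 + t) := fun t ht => hG _ _ (by omega) (by omega)
  have key : ∀ t, 1 ≤ t → t ≤ N → ∀ Q ∈ Hub Λ (Bad bm bp) k (X t, v.2 + t), OPath (Bad bm bp) P Q := by
    intro t ht
    induction t, ht using Nat.le_induction with
    | base =>
      intro htN Q hQ
      have h0 := hg 0 (Nat.zero_le _)
      have hs := hX1 0
      rw [hX0] at h0 hs
      exact hub_link hΛ hH k v (X 1, v.2 + 1) h0 (hg 1 htN) rfl hs P Q hP hQ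
    | succ t ht iht =>
      intro htN Q hQ
      obtain ⟨Q', hQ', _⟩ := Hub_nonempty hΛ hH k (X t, v.2 + t) (hg t (by omega))
      exact Relation.ReflTransGen.trans (iht (by omega) Q' hQ')
        (hub_link hΛ hH k (X t, v.2 + t) (X (t + 1), v.2 + (t + 1)) (hg t (by omega)) (hg (t + 1) htN)
          rfl (hX1 t) Q' Q hQ' hQ)
  have e : v' = (X N, v.2 + N) := Prod.ext hXN.symm hN
  rw [e] at hP'
  exact key N (by omega) le_rfl P' hP'

/-! ### entrance to a hub -/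

/-- few obstacles leave a free time -/
theorem exists_time {nn i0 ρ m : ℕ} (F : Finset (Blk d)) (hF : F.card ≤ m)
    (h : m * (2 * ρ + 1) < nn) : ∃ i, i0 ≤ i ∧ i < i0 + nn ∧
      ∀ c ∈ F, c.2 + ρ < i ∨ i + ρ < c.2 := by
  set U : Finset ℕ := F.biUnion (fun c => Finset.Icc (c.2 - ρ) (c.2 + ρ)) with hU
  have hUc : U.card ≤ m * (2 * ρ + 1) := by
    refine le_trans Finset.card_biUnion_le ?_
    refine le_trans (Finset.sum_le_card_nsmul _ _ (2 * ρ + 1) fun c _ => ?_) ?_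
    · rw [Nat.card_Icc]
      omega
    · rw [smul_eq_mul]
      exact Nat.mul_le_mul_right _ hF
  obtain ⟨i, hi, hiU⟩ := Finset.exists_mem_notMem_of_card_lt_card (s := U)
    (t := Finset.Ico i0 (i0 + nn)) (by rw [Nat.card_Ico]; omega)
  rw [Finset.mem_Ico] at hi
  refine ⟨i, hi.1, hi.2, fun c hc => ?_⟩
  by_contra hcon
  push Not at hcon
  apply hiU
  exact Finset.mem_biUnion.mpr ⟨c, hc, Finset.mem_Icc.mpr (by omega)⟩

/-- the neighbours of a cell -/
theorem card_box (z : Pos d) : (Fintype.piFinset (fun j => Finset.Icc (z j - 1) (z j + 1))).card = 3 ^ d := by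
  rw [Fintype.card_piFinset]
  have h : ∀ j : Fin d, (Finset.Icc (z j - 1) (z j + 1)).card = 3 := by
    intro j
    rw [Int.card_Icc]
    omega
  rw [Finset.prod_congr rfl (fun j _ => h j)]
  simp

/-- the cell of the coarse level that contains a fine cell near the start -/
theorem coarse_cell {n s S y y2 p x z : ℤ} (hn : 8 ≤ n) (hs : 1 ≤ s) (hS : S = n * s)
    (h1 : S * z ≤ x) (h2 : x < S * z + S) (h3 : 2 * (p - x) ≤ S) (h4 : -S ≤ 2 * (p - x))
    (h5 : s * y ≤ p) (h6 : p < s * y + s) (h7 : y - 1 ≤ y2) (h8 : y2 ≤ y + 1) :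
    z - 1 ≤ y2 / n ∧ y2 / n ≤ z + 1 := by
  subst hS
  have hn0 : 0 < n := by omega
  have hns : 8 * s ≤ n * s := mul_le_mul_of_nonneg_right hn (by omega)
  constructor
  · rw [Int.le_ediv_iff_mul_le hn0]
    -- s * (y2 + 1) > ...
    have h9 : s * ((z - 1) * n) < s * (y2 + 1) := by
      have h10 : s * (y - 1) ≤ s * y2 := mul_le_mul_of_nonneg_left h7 (by omega)
      nlinarith
    have h10 : (z - 1) * n < y2 + 1 := lt_of_mul_lt_mul_left h9 (by omega)
    omega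
  · have h9 : s * y2 < s * (n * (z + 2)) := by
      have h10 : s * y2 ≤ s * (y + 1) := mul_le_mul_of_nonneg_left h8 (by omega)
      nlinarith
    have h10 : y2 < n * (z + 2) := lt_of_mul_lt_mul_left h9 (by omega)
    have h11 : y2 / n < z + 2 := by
      rw [Int.ediv_lt_iff_lt_mul hn0]
      linarith [mul_comm n (z + 2)]
    omega

theorem mem_cell_div {s : ℕ} (hs : 1 ≤ s) (p : Pos d) : p ∈ cell s (fun j => p j / (s : ℤ)) := by
  intro j
  have h0 : (0 : ℤ) < s := by exact_mod_cast hs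
  have h1 := Int.mul_ediv_add_emod (p j) (s : ℤ)
  have h2 := Int.emod_nonneg (p j) h0.ne'
  have h3 := Int.emod_lt_of_pos (p j) h0
  simp only
  constructor <;> linarith

/-- entrance to a hub (text M6); `pos` = positions of a route at the integer times, cells of side `s k`, durations
`T k = t k * T 0`, `U k` = duration of the entrance -/
theorem hub_entry (hd : 0 < d) (hΛ : Λ.Fit d) (hH : Hier Λ bm bp) (s T U : ℕ → ℕ)
    (hs0 : 1 ≤ s 0) (hT0 : 1 ≤ T 0)
    (hs : ∀ k, s (k + 1) = Λ.n k * s k) (hT : ∀ k, T (k + 1) = Λ.q * Λ.n k * T k)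
    (hU0 : U 0 = 0) (nn : ℕ → ℕ) (hU : ∀ k, U (k + 1) = nn k * T k) (hnn : ∀ k, nn k ≤ Λ.n k)
    (hUT : ∀ k, U k ≤ T k) (hn8 : ∀ k, 8 ≤ Λ.n k)
    (hcnt : ∀ k, 3 ^ d * (2 * Λ.J k) * (2 * Λ.D k + 2 * Λ.a k + 3) + 2 ≤ nn k)
    (pos : ℕ → Pos d) (k : ℕ) (v : Blk d)
    (hG : ∀ z : Pos d, supn (z - v.1) ≤ 1 → ¬ Bad bm bp k (z, v.2))
    (hslow : ∀ k' v', ¬ Bad bm bp (k' + 1) v' → v.2 * T k ≤ v'.2 * T (k' + 1) →
      v'.2 * T (k' + 1) + U (k' + 1) ≤ v.2 * T k + U k →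
      pos (v'.2 * T (k' + 1)) ∈ cell (s (k' + 1)) v'.1 → ∀ t ≤ U (k' + 1),
      2 * supn (pos (v'.2 * T (k' + 1) + t) - pos (v'.2 * T (k' + 1))) ≤ s (k' + 1))
    (hpos : pos (v.2 * T k) ∈ cell (s k) v.1) :
    ∃ z : Pos d, supn (z - v.1) ≤ 1 ∧ ∃ P ∈ Hub Λ (Bad bm bp) k (z, v.2), v.2 * T k ≤ P.2 * T 0 ∧
      P.2 * T 0 ≤ v.2 * T k + U k ∧ pos (P.2 * T 0) ∈ cell (s 0) P.1 := by
  have hspos : ∀ k, 1 ≤ s k := by
    intro k
    induction k with
    | zero => exact hs0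
    | succ k ih =>
      rw [hs]
      exact Nat.mul_pos (by have := hn8 k; omega) ih
  induction k generalizing v with
  | zero =>
    refine ⟨v.1, ?_, v, rfl, le_rfl, by omega, hpos⟩
    rw [supn_le_iff]
    intro j
    simp
  | succ k ih =>
    have hv0 : ¬ Bad bm bp (k + 1) v := hG v.1 (by
      rw [supn_le_iff]
      intro j
      simp)
    -- the obstacles
    have hcov : ∀ z : Pos d, ∃ F : Finset (Blk d), supn (z - v.1) ≤ 1 → (F.card ≤ 2 * Λ.J k ∧
        ∀ w ∈ Rg (Λ.n k) Λ.q (z, v.2), Bad bm bp k w → ∃ c ∈ F, bd w c ≤ Λ.a k) := by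
      intro z
      by_cases hz : supn (z - v.1) ≤ 1
      · obtain ⟨F, hF1, hF2⟩ := cover_of_good hH (hG z hz)
        exact ⟨F, fun _ => ⟨hF1, hF2⟩⟩
      · exact ⟨∅, fun h => absurd h hz⟩
    choose F hF using hcov
    set 𝒵 : Finset (Pos d) := Fintype.piFinset (fun j => Finset.Icc (v.1 j - 1) (v.1 j + 1)) with h𝒵
    have hmem : ∀ z : Pos d, z ∈ 𝒵 ↔ supn (z - v.1) ≤ 1 := by
      intro z
      rw [h𝒵, Fintype.mem_piFinset, supn_le_iff]
      constructor
      · intro h j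
        have := Finset.mem_Icc.mp (h j)
        simp only [Pi.sub_apply]
        omega
      · intro h j
        have := h j
        simp only [Pi.sub_apply] at this
        exact Finset.mem_Icc.mpr (by omega)
    have hFc : (𝒵.biUnion F).card ≤ 3 ^ d * (2 * Λ.J k) := by
      refine le_trans Finset.card_biUnion_le ?_
      refine le_trans (Finset.sum_le_card_nsmul _ _ (2 * Λ.J k) fun z hz =>
        (hF z ((hmem z).mp hz)).1) ?_
      rw [h𝒵, card_box, smul_eq_mul]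
    obtain ⟨i, hi1, hi2, hic⟩ := exists_time (nn := nn k) (i0 := Λ.q * Λ.n k * v.2)
      (ρ := Λ.D k + Λ.a k) (𝒵.biUnion F) hFc (by
        have h1 := hcnt k
        have h2 : 3 ^ d * (2 * Λ.J k) * (2 * (Λ.D k + Λ.a k) + 1) ≤
            3 ^ d * (2 * Λ.J k) * (2 * Λ.D k + 2 * Λ.a k + 3) := Nat.mul_le_mul_left _ (by omega)
        omega)
    -- times
    have hTi : v.2 * T (k + 1) ≤ i * T k := by
      rw [hT]
      calc v.2 * (Λ.q * Λ.n k * T k) = Λ.q * Λ.n k * v.2 * T k := by ring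
        _ ≤ i * T k := Nat.mul_le_mul_right _ hi1
    have hTi2 : i * T k + T k ≤ v.2 * T (k + 1) + U (k + 1) := by
      rw [hT, hU]
      calc i * T k + T k = (i + 1) * T k := by ring
        _ ≤ (Λ.q * Λ.n k * v.2 + nn k) * T k := Nat.mul_le_mul_right _ (by omega)
        _ = v.2 * (Λ.q * Λ.n k * T k) + nn k * T k := by ring
    have hUk := hUT k
    obtain ⟨u, hu⟩ := Nat.exists_eq_add_of_le hTi
    have hslow1 := hslow k v hv0 le_rfl le_rfl hpos u (by omega)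
    rw [← hu] at hslow1
    -- the fine cell
    set p := pos (i * T k) with hp
    set y : Pos d := fun j => p j / (s k : ℤ) with hy
    have hpy : p ∈ cell (s k) y := mem_cell_div (hspos k) p
    have hcoarse : ∀ y2 : Pos d, supn (y2 - y) ≤ 1 →
        ∀ j, v.1 j - 1 ≤ y2 j / (Λ.n k : ℤ) ∧ y2 j / (Λ.n k : ℤ) ≤ v.1 j + 1 := by
      intro y2 hy2 j
      have h1 := hpos j
      have h2 := hpy j
      have h3 := (supn_le_iff _ _).mp hy2 j
      have h4 : (2 * (p j - pos (v.2 * T (k + 1)) j)).natAbs ≤ s (k + 1) := by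
        have h5 := natAbs_le_supn (p - pos (v.2 * T (k + 1))) j
        simp only [Pi.sub_apply] at h5
        omega
      simp only [Pi.sub_apply] at h3
      exact coarse_cell (n := (Λ.n k : ℤ)) (s := (s k : ℤ)) (S := ((s (k + 1) : ℕ) : ℤ)) (y := y j)
        (p := p j) (x := pos (v.2 * T (k + 1)) j)
        (by exact_mod_cast hn8 k) (by exact_mod_cast hspos k) (by rw [hs]; push_cast; ring)
        h1.1 h1.2 (by omega) (by omega) h2.1 h2.2 (by omega) (by omega)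
    -- the coarse blocks
    have hcell : ∀ y2 : Pos d, supn (y2 - y) ≤ 1 →
        supn ((fun j => y2 j / (Λ.n k : ℤ)) - v.1) ≤ 1 ∧
        ((y2, i) : Blk d) ∈ Bg (Λ.n k) Λ.q ((fun j => y2 j / (Λ.n k : ℤ)), v.2) := by
      intro y2 hy2
      have h1 := hcoarse y2 hy2
      constructor
      · rw [supn_le_iff]
        intro j
        have := h1 j
        simp only [Pi.sub_apply]
        omega
      · refine ⟨fun j => ?_, hi1, ?_⟩
        · exact mem_cell_div (by have := hn8 k; omega) y2 j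
        · have := hnn k
          simp only
          omega
    have hfar : ∀ z : Pos d, supn (z - v.1) ≤ 1 → ∀ y2 : Pos d, ∀ w' ∈ Rg (Λ.n k) Λ.q (z, v.2),
        bd w' (y2, i) ≤ Λ.D k → ¬ Bad bm bp k w' := by
      intro z hz y2 w' hw' hbd hb
      obtain ⟨c, hc, hcd⟩ := (hF z hz).2 w' hw' hb
      have h1 := hic c (Finset.mem_biUnion.mpr ⟨z, (hmem z).mpr hz, hc⟩)
      have h2 := ((bd_le_iff _ _ _).mp hbd).2
      have h3 := ((bd_le_iff _ _ _).mp hcd).2
      simp only at h2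
      omega
    have hq : 1 ≤ Λ.q := by have := hΛ.q_big; omega
    have hG' : ∀ y2 : Pos d, supn (y2 - y) ≤ 1 → ¬ Bad bm bp k (y2, i) := by
      intro y2 hy2
      obtain ⟨h1, h2⟩ := hcell y2 hy2
      exact hfar _ h1 y2 _ (Bg_sub_Rg hq h2) (by rw [bd_self]; exact Nat.zero_le _)
    have hTi3 : i * T k + U k ≤ v.2 * T (k + 1) + U (k + 1) := by omega
    obtain ⟨y2, hy2, P, hP, hP1, hP2, hP3⟩ := ih (y, i) hG' (fun k' v' h1 h2 h3 h4 =>
      hslow k' v' h1 (le_trans hTi h2) (le_trans h3 hTi3) h4) hpy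
    obtain ⟨h1, h2⟩ := hcell y2 hy2
    exact ⟨_, h1, P, ⟨(y2, i), h2, hfar _ h1 y2, hP⟩, le_trans hTi hP1, le_trans hP2 hTi3, hP3⟩

end HB

end ZP.Rows
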