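import Pool.Agent.ZP.HubDefs

/-! # Hubs (part M5 of the paper): H1, H2, H2' -/

set_option autoImplicit false

open scoped BigOperators Classical

noncomputable section

namespace ZP

variable {d : ℕ}

/-! ### norms -/

theorem natAbs_le_supn (v : Pos d) (j : Fin d) : (v j).natAbs ≤ supn v :=
  Finset.le_sup (f := fun j => (v j).natAbs) (Finset.mem_univ j)

theorem supn_le_iff (v : Pos d) (r : ℕ) : supn v ≤ r ↔ ∀ j, (v j).natAbs ≤ r := by
  unfold ZI.supn
  rw [Finset.sup_le_iff]
  exact ⟨fun h j => h j (Finset.mem_univ j), fun h j _ => h j⟩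

theorem natAbs_le_n1 (v : Pos d) (j : Fin d) : (v j).natAbs ≤ n1 v :=
  Finset.single_le_sum (f := fun j => (v j).natAbs) (fun _ _ => Nat.zero_le _) (Finset.mem_univ j)

theorem n1_zero : n1 (0 : Pos d) = 0 := by simp [n1]

theorem n1_eq_zero {v : Pos d} (h : n1 v = 0) : v = 0 := by
  funext j
  have h1 := natAbs_le_n1 v j
  rw [h] at h1
  have h2 : (v j).natAbs = 0 := by omega
  exact Int.natAbs_eq_zero.mp h2

theorem bd_comm (v w : Blk d) : bd v w = bd w v := by
  unfold bd
  congr 1
  · unfold ZI.supn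
    congr 1
    funext j
    simp only [Pi.sub_apply]
    omega
  · omega

theorem bd_self (v : Blk d) : bd v v = 0 := by
  unfold bd
  have h1 : supn (v.1 - v.1) ≤ 0 := by
    rw [supn_le_iff]
    intro j
    simp
  omega

theorem bd_le_iff (v w : Blk d) (r : ℕ) : bd v w ≤ r ↔
    (∀ j, w.1 j - r ≤ v.1 j ∧ v.1 j ≤ w.1 j + r) ∧ (w.2 ≤ v.2 + r ∧ v.2 ≤ w.2 + r) := by
  unfold bd
  rw [max_le_iff, supn_le_iff]
  constructor
  · rintro ⟨h1, h2⟩
    refine ⟨fun j => ?_, by omega, by omega⟩
    have := h1 j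
    simp only [Pi.sub_apply] at this
    omega
  · rintro ⟨h1, h2, h3⟩
    refine ⟨fun j => ?_, by omega⟩
    have := h1 j
    simp only [Pi.sub_apply]
    omega

/-! ### maximal separated families -/

theorem cover_of_not_many {J a : ℕ} {S : Set (Blk d)} {bad : Blk d → Prop} (h : ¬ Many J a S bad) :
    ∃ F : Finset (Blk d), F.card ≤ J ∧ ∀ w ∈ S, bad w → ∃ c ∈ F, bd w c ≤ a := by
  by_contra hcon
  push Not at hcon
  apply h
  have key : ∀ m ≤ J + 1, ∃ F : Finset (Blk d), F.card = m ∧ (∀ w ∈ F, w ∈ S ∧ bad w) ∧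
      ∀ w ∈ F, ∀ w' ∈ F, w ≠ w' → a < bd w w' := by
    intro m
    induction m with
    | zero => intro _; exact ⟨∅, rfl, by simp, by simp⟩
    | succ m ih =>
      intro hm
      obtain ⟨F, hF, h1, h2⟩ := ih (by omega)
      obtain ⟨w, hw, hb, hc⟩ := hcon F (by omega)
      have hwF : w ∉ F := by
        intro hwF
        have := hc w hwF
        rw [bd_self] at this
        omega
      refine ⟨insert w F, by rw [Finset.card_insert_of_notMem hwF, hF], ?_, ?_⟩
      · intro x hx
        rcases Finset.mem_insert.mp hx with rfl | hx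
        · exact ⟨hw, hb⟩
        · exact h1 x hx
      · intro x hx x' hx' hne
        rcases Finset.mem_insert.mp hx with hx1 | hx1
        · rcases Finset.mem_insert.mp hx' with hx2 | hx2
          · exact absurd (hx1.trans hx2.symm) hne
          · rw [hx1]
            exact hc x' hx2
        · rcases Finset.mem_insert.mp hx' with hx2 | hx2
          · rw [bd_comm, hx2]
            exact hc x hx1
          · exact h2 x hx1 x' hx2 hne
  exact key (J + 1) le_rfl

variable {Λ : Lvl} {bm bp : ℕ → Blk d → Prop}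

/-- the bad blocks around a good block are in few balls -/
theorem cover_of_good (hH : Hier Λ bm bp) {k : ℕ} {v : Blk d} (hv : ¬ Bad bm bp (k + 1) v) :
    ∃ F : Finset (Blk d), F.card ≤ 2 * Λ.J k ∧
      ∀ w ∈ Rg (Λ.n k) Λ.q v, Bad bm bp k w → ∃ c ∈ F, bd w c ≤ Λ.a k := by
  have h1 : ¬ bm (k + 1) v := fun h => hv (Or.inl h)
  have h2 : ¬ bp (k + 1) v := fun h => hv (Or.inr h)
  obtain ⟨F1, hF1, hc1⟩ := cover_of_not_many (hH.m k v h1)
  obtain ⟨F2, hF2, hc2⟩ := cover_of_not_many (hH.p k v h2)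
  refine ⟨F1 ∪ F2, ?_, ?_⟩
  · have := Finset.card_union_le F1 F2
    omega
  · intro w hw hb
    rcases hb with hb | hb
    · obtain ⟨c, hc, h⟩ := hc1 w hw hb
      exact ⟨c, Finset.mem_union_left _ hc, h⟩
    · obtain ⟨c, hc, h⟩ := hc2 w hw hb
      exact ⟨c, Finset.mem_union_right _ hc, h⟩

/-! ### H1 -/

theorem Bg_sub_Rg {n q : ℕ} (hq : 1 ≤ q) {v w : Blk d} (hw : w ∈ Bg n q v) : w ∈ Rg n q v := by
  obtain ⟨h1, h2, h3⟩ := hw
  refine ⟨fun j => ?_, by omega, ?_⟩
  · have := h1 j
    constructor <;> nlinarith [this.1, this.2]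
  · calc w.2 < q * n * v.2 + n := h3
      _ ≤ q * n * v.2 + q * n * 3 := by nlinarith [Nat.zero_le n]
      _ = q * n * (v.2 + 3) := by ring

/-- a point of a box outside few balls -/
theorem exists_free {n r m : ℕ} (F : Finset (Blk d)) (hF : F.card ≤ m) (h : m * (2 * r + 1) ^ d < n ^ d)
    (b : Pos d) : ∃ y : Pos d, (∀ j, b j ≤ y j ∧ y j < b j + n) ∧
      ∀ c ∈ F, ∃ j, (r : ℤ) < |y j - c.1 j| := by
  set B : Finset (Pos d) := Fintype.piFinset (fun j => Finset.Ico (b j) (b j + n)) with hB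
  set U : Finset (Pos d) := F.biUnion (fun c => Fintype.piFinset
    (fun j => Finset.Icc (c.1 j - r) (c.1 j + r))) with hU
  have hBc : B.card = n ^ d := by
    rw [hB, Fintype.card_piFinset]
    simp
  have hUc : U.card ≤ m * (2 * r + 1) ^ d := by
    refine le_trans Finset.card_biUnion_le ?_
    have h1 : ∀ c ∈ F, (Fintype.piFinset (fun j => Finset.Icc (c.1 j - (r : ℤ)) (c.1 j + r))).card ≤
        (2 * r + 1) ^ d := by
      intro c _
      rw [Fintype.card_piFinset]
      apply le_of_eq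
      have h2 : ∀ j : Fin d, (Finset.Icc (c.1 j - (r : ℤ)) (c.1 j + r)).card = 2 * r + 1 := by
        intro j
        rw [Int.card_Icc]
        omega
      rw [Finset.prod_congr rfl (fun j _ => h2 j)]
      simp
    refine le_trans (Finset.sum_le_card_nsmul _ _ _ h1) ?_
    rw [smul_eq_mul]
    exact Nat.mul_le_mul_right _ hF
  obtain ⟨y, hy, hyU⟩ := Finset.exists_mem_notMem_of_card_lt_card (s := U) (t := B) (by omega)
  refine ⟨y, fun j => ?_, fun c hc => ?_⟩
  · have := (Fintype.mem_piFinset.mp hy) j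
    exact Finset.mem_Ico.mp this
  · by_contra hcon
    push Not at hcon
    apply hyU
    refine Finset.mem_biUnion.mpr ⟨c, hc, Fintype.mem_piFinset.mpr fun j => Finset.mem_Icc.mpr ?_⟩
    have := abs_le.mp (hcon j)
    constructor <;> linarith [this.1, this.2]

theorem Hub_nonempty (hΛ : Λ.Fit d) (hH : Hier Λ bm bp) : ∀ (k : ℕ) (v : Blk d), ¬ Bad bm bp k v →
    ∃ P ∈ Hub Λ (Bad bm bp) k v, P.2 = Λ.t k * v.2 := by
  intro k
  induction k with
  | zero =>
    intro v _
    exact ⟨v, rfl, by simp [Lvl.t]⟩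
  | succ k ih =>
    intro v hv
    obtain ⟨F, hF, hc⟩ := cover_of_good hH hv
    obtain ⟨y, hy, hyF⟩ := exists_free (n := Λ.n k) (r := Λ.D k + Λ.a k) F hF (hΛ.cnt k)
      (fun j => (Λ.n k : ℤ) * v.1 j)
    have hq : 1 ≤ Λ.q := by have := hΛ.q_big; omega
    have hn : 0 < Λ.n k := hΛ.n_pos k
    have hw : ((y, Λ.q * Λ.n k * v.2) : Blk d) ∈ Bg (Λ.n k) Λ.q v := ⟨hy, le_rfl, by omega⟩
    have hfree : ∀ w' ∈ Rg (Λ.n k) Λ.q v, bd w' (y, Λ.q * Λ.n k * v.2) ≤ Λ.D k →
        ¬ Bad bm bp k w' := by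
      intro w' hw' hbd hbad
      obtain ⟨c, hcF, hcd⟩ := hc w' hw' hbad
      obtain ⟨j, hj⟩ := hyF c hcF
      have h1 := ((bd_le_iff _ _ _).mp hbd).1 j
      have h2 := ((bd_le_iff _ _ _).mp hcd).1 j
      have h3 : |y j - c.1 j| ≤ ((Λ.D k + Λ.a k : ℕ) : ℤ) := by
        rw [abs_le]
        push_cast
        simp only at h1
        constructor <;> linarith [h1.1, h1.2, h2.1, h2.2]
      exact absurd h3 (not_le.mpr hj)
    have hgood : ¬ Bad bm bp k (y, Λ.q * Λ.n k * v.2) :=
      hfree _ (Bg_sub_Rg hq hw) (by rw [bd_self]; exact Nat.zero_le _)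
    obtain ⟨P, hP, hPt⟩ := ih _ hgood
    refine ⟨P, ⟨_, hw, hfree, hP⟩, ?_⟩
    rw [hPt]
    simp only [Lvl.t]
    ring

/-! ### monotone paths -/

theorem n1_single (j : Fin d) (s : ℤ) : n1 (Pi.single j s : Pos d) = s.natAbs := by
  unfold n1
  rw [Finset.sum_eq_single j]
  · simp
  · intro b _ hb
    simp [Pi.single_eq_of_ne hb]
  · intro h
    exact absurd (Finset.mem_univ j) h

theorem n1_add_le (v w : Pos d) : n1 (v + w) ≤ n1 v + n1 w := by
  unfold n1
  rw [← Finset.sum_add_distrib]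
  exact Finset.sum_le_sum fun j _ => by
    simp only [Pi.add_apply]
    omega

theorem mono_path : ∀ (N : ℕ) (y y' : Pos d), n1 (y' - y) ≤ N → ∃ X : ℕ → Pos d, X 0 = y ∧ X N = y' ∧
    (∀ t, n1 (X (t + 1) - X t) ≤ 1) ∧
    ∀ t j, min (y j) (y' j) ≤ X t j ∧ X t j ≤ max (y j) (y' j) := by
  intro N
  induction N with
  | zero =>
    intro y y' h
    have h1 : y' - y = 0 := n1_eq_zero (by omega)
    have h2 : y' = y := sub_eq_zero.mp h1
    subst h2
    exact ⟨fun _ => y', rfl, rfl, fun t => by simp [n1_zero], fun t j => ⟨by simp, by simp⟩⟩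
  | succ N ih =>
    intro y y' h
    by_cases hyy : y' = y
    · subst hyy
      exact ⟨fun _ => y', rfl, rfl, fun t => by simp [n1_zero], fun t j => ⟨by simp, by simp⟩⟩
    · obtain ⟨j, hj⟩ : ∃ j, y' j ≠ y j := by
        by_contra hcon
        push Not at hcon
        exact hyy (funext hcon)
      obtain ⟨s, hs1, hs2, hs3, hs4⟩ : ∃ s : ℤ, s.natAbs = 1 ∧
          (y' j - (y j + s)).natAbs < (y' j - y j).natAbs ∧ min (y j) (y' j) ≤ y j + s ∧
          y j + s ≤ max (y j) (y' j) := by
        rcases lt_or_gt_of_ne hj with h1 | h1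
        · exact ⟨-1, rfl, by omega, by omega, by omega⟩
        · exact ⟨1, rfl, by omega, by omega, by omega⟩
      have hlt : n1 (y' - (y + Pi.single j s)) < n1 (y' - y) := by
        unfold n1
        refine Finset.sum_lt_sum (fun i _ => ?_) ⟨j, Finset.mem_univ j, ?_⟩
        · by_cases hij : i = j
          · subst hij
            simp only [Pi.sub_apply, Pi.add_apply, Pi.single_eq_same]
            exact hs2.le
          · simp [Pi.single_eq_of_ne hij]
        · simp only [Pi.sub_apply, Pi.add_apply, Pi.single_eq_same]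
          exact hs2
      obtain ⟨X, hX0, hXN, hX1, hX2⟩ := ih (y + Pi.single j s) y' (by omega)
      refine ⟨fun t => match t with
        | 0 => y
        | t + 1 => X t, rfl, hXN, ?_, ?_⟩
      · intro t
        cases t with
        | zero =>
          change n1 (X 0 - y) ≤ 1
          rw [hX0, add_sub_cancel_left, n1_single, hs1]
        | succ t => exact hX1 t
      · intro t i
        cases t with
        | zero => exact ⟨min_le_left _ _, le_max_left _ _⟩
        | succ t =>
          have h1 := hX2 t i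
          change min (y i) (y' i) ≤ X t i ∧ X t i ≤ max (y i) (y' i)
          by_cases hij : i = j
          · subst hij
            simp only [Pi.add_apply, Pi.single_eq_same] at h1
            constructor <;> omega
          · simp only [Pi.add_apply, Pi.single_eq_of_ne hij, add_zero] at h1
            exact h1

/-- the coordinates of a path with steps at most one -/
theorem path_lip {X : ℕ → Pos d} (hX : ∀ t, n1 (X (t + 1) - X t) ≤ 1) (j : Fin d) (t : ℕ) :
    ∀ u, |X (t + u) j - X t j| ≤ u := by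
  intro u
  induction u with
  | zero => simp
  | succ u ih =>
    have h1 := natAbs_le_n1 (X (t + u + 1) - X (t + u)) j
    have h2 := hX (t + u)
    simp only [Pi.sub_apply] at h1
    have h3 : |X (t + u + 1) j - X (t + u) j| ≤ 1 := by
      rw [Int.abs_eq_natAbs]
      omega
    calc |X (t + (u + 1)) j - X t j| =
        |(X (t + u + 1) j - X (t + u) j) + (X (t + u) j - X t j)| := by
          rw [show t + (u + 1) = t + u + 1 from rfl]; ring_nf
      _ ≤ |X (t + u + 1) j - X (t + u) j| + |X (t + u) j - X t j| := abs_add_le _ _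
      _ ≤ 1 + u := add_le_add h3 ih
      _ = ((u + 1 : ℕ) : ℤ) := by push_cast; ring

theorem path_lip' {X : ℕ → Pos d} (hX : ∀ t, n1 (X (t + 1) - X t) ≤ 1) (j : Fin d) {t u r : ℕ}
    (h1 : t ≤ u + r) (h2 : u ≤ t + r) : |X u j - X t j| ≤ r := by
  rcases le_total t u with h | h
  · obtain ⟨v, rfl⟩ := Nat.exists_eq_add_of_le h
    exact le_trans (path_lip hX j t v) (by exact_mod_cast (by omega : v ≤ r))
  · obtain ⟨v, rfl⟩ := Nat.exists_eq_add_of_le h
    rw [abs_sub_comm]
    exact le_trans (path_lip hX j u v) (by exact_mod_cast (by omega : v ≤ r))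

/-! ### the corridor: a path of good blocks of level `k` -/

/-- the `p`-th path -/
def corr (hd : 0 < d) (X : ℕ → Pos d) (B N b p t : ℕ) : Pos d :=
  X (min (t - B) (N - 2 * B)) + Pi.single ⟨0, hd⟩ ((min (min t (N - t)) (b * p) : ℕ) : ℤ)

theorem corr_step (hd : 0 < d) {X : ℕ → Pos d} (hX : ∀ t, n1 (X (t + 1) - X t) ≤ 1) {B N b p t : ℕ}
    (hB : 2 * B ≤ N) (hp : b * p ≤ B) (ht : t < N) :
    n1 (corr hd X B N b p (t + 1) - corr hd X B N b p t) ≤ 1 := by
  unfold corr
  have key : ∀ (u v : Pos d) (a c : ℤ), u + Pi.single ⟨0, hd⟩ a - (v + Pi.single ⟨0, hd⟩ c) =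
      (u - v) + Pi.single ⟨0, hd⟩ (a - c) := by
    intro u v a c
    rw [Pi.single_sub]
    abel
  rw [key]
  refine le_trans (n1_add_le _ _) ?_
  rw [n1_single]
  by_cases h1 : t < B
  · have e1 : min (t + 1 - B) (N - 2 * B) = min (t - B) (N - 2 * B) := by
      rw [Nat.sub_eq_zero_of_le (by omega : t + 1 ≤ B), Nat.sub_eq_zero_of_le (by omega : t ≤ B)]
    rw [e1, sub_self, n1_zero]
    omega
  · by_cases h2 : t < N - B
    · have e1 : min (t + 1 - B) (N - 2 * B) = min (t - B) (N - 2 * B) + 1 := by omega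
      have e2 : min (min (t + 1) (N - (t + 1))) (b * p) = min (min t (N - t)) (b * p) := by
        omega
      rw [e1, e2, sub_self, Int.natAbs_zero, add_zero]
      exact hX _
    · have e1 : min (t + 1 - B) (N - 2 * B) = min (t - B) (N - 2 * B) := by omega
      rw [e1, sub_self, n1_zero]
      omega

end ZP
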