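import Mathlib

/-! # Row P3, numerics -/

set_option autoImplicit false

noncomputable section

namespace ZP.P3

open Filter

theorem exp_five_lt : Real.exp 5 < 149 := by
  have h : Real.exp 5 = Real.exp 1 ^ 5 := by rw [← Real.exp_nat_mul]; norm_num
  rw [h]
  calc Real.exp 1 ^ 5 < 2.7182818286 ^ 5 := by
        have := Real.exp_one_lt_d9
        have h0 := Real.exp_pos 1
        gcongr
    _ < 149 := by norm_num

theorem sixteen_lt : (16 : ℝ) < Real.exp 3 := by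
  have h : Real.exp 3 = Real.exp 1 ^ 3 := by rw [← Real.exp_nat_mul]; norm_num
  rw [h]
  calc (16 : ℝ) < 2.7182818283 ^ 3 := by norm_num
    _ < Real.exp 1 ^ 3 := by
        have := Real.exp_one_gt_d9
        gcongr

theorem pow_cmp (r : ℕ) (hr : 3 ≤ r) : (4 : ℝ) * 149 ^ r ≤ 256 ^ r := by
  induction r, hr using Nat.le_induction with
  | base => norm_num
  | succ n hn ih =>
    have h5 : (0 : ℝ) < 149 ^ n := by positivity
    rw [pow_succ, pow_succ]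
    nlinarith

theorem num_a (r : ℕ) (hr : 3 ≤ r) :
    2 * 2 ^ (4 * r) * (1 / 64 : ℝ) ^ (2 * r) ≤ Real.exp (-(5 * r : ℝ)) / 2 := by
  have h0 : ((2 : ℝ) ^ 4) * ((1 / 64 : ℝ) ^ 2) = 1 / 256 := by norm_num
  have h1 : 2 * 2 ^ (4 * r) * (1 / 64 : ℝ) ^ (2 * r) = 2 / 256 ^ r := by
    rw [pow_mul, pow_mul, mul_assoc, ← mul_pow, h0, one_div, inv_pow, div_eq_mul_inv]
  have h2 : Real.exp (-(5 * r : ℝ)) = 1 / Real.exp 5 ^ r := by
    rw [Real.exp_neg, ← Real.exp_nat_mul, one_div, mul_comm]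
  rw [h1, h2, div_div, div_le_div_iff₀ (by positivity) (by positivity)]
  have h3 : Real.exp 5 ^ r ≤ 149 ^ r := by
    have := exp_five_lt
    gcongr
  have h4 := pow_cmp r hr
  nlinarith

theorem num_b (N : ℕ) : ∃ r0 : ℕ, ∀ r ≥ r0,
    2 * 2 ^ (4 * r) * ((4 * r : ℝ) * ((r : ℝ) ^ N * Real.exp (-((r : ℝ) ^ 2)))) ≤
      Real.exp (-(5 * r : ℝ)) / 2 := by
  have h := Real.tendsto_pow_mul_exp_neg_atTop_nhds_zero (N + 1)
  have h1 : ∀ᶠ x : ℝ in atTop, x ^ (N + 1) * Real.exp (-x) < 1 / 16 :=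
    h.eventually (gt_mem_nhds (by norm_num))
  obtain ⟨x0, hx0⟩ := eventually_atTop.mp h1
  refine ⟨max 9 (Nat.ceil x0), fun r hr => ?_⟩
  have hr9 : 9 ≤ r := (le_max_left _ _).trans hr
  have hrx : x0 ≤ r := (Nat.le_ceil x0).trans (by exact_mod_cast (le_max_right _ _).trans hr)
  have h2 := hx0 r hrx
  have hr9' : (9 : ℝ) ≤ r := by exact_mod_cast hr9
  have e1 : (2 : ℝ) ^ (4 * r) ≤ Real.exp (3 * r) := by
    have : (2 : ℝ) ^ (4 * r) = 16 ^ r := by rw [pow_mul]; norm_num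
    rw [this, show Real.exp (3 * r) = Real.exp 3 ^ r by rw [← Real.exp_nat_mul]; ring_nf]
    have := sixteen_lt.le
    gcongr
  have e2 : (r : ℝ) ^ (N + 1) ≤ Real.exp r / 16 := by
    have h3 : Real.exp (-(r : ℝ)) = (Real.exp r)⁻¹ := Real.exp_neg _
    have h4 := Real.exp_pos r
    rw [h3, ← div_eq_mul_inv, div_lt_iff₀ h4] at h2
    linarith
  have e3 : Real.exp (3 * r) * Real.exp r * Real.exp (-((r : ℝ) ^ 2)) ≤ Real.exp (-(5 * r : ℝ)) := by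
    rw [← Real.exp_add, ← Real.exp_add]
    refine Real.exp_le_exp.mpr ?_
    nlinarith
  have p1 := Real.exp_pos (3 * r)
  have p2 := Real.exp_pos (r : ℝ)
  have p3 := Real.exp_pos (-((r : ℝ) ^ 2))
  calc 2 * 2 ^ (4 * r) * ((4 * r : ℝ) * ((r : ℝ) ^ N * Real.exp (-((r : ℝ) ^ 2)))) =
      8 * (2 ^ (4 * r) * ((r : ℝ) ^ (N + 1) * Real.exp (-((r : ℝ) ^ 2)))) := by ring
    _ ≤ 8 * (Real.exp (3 * r) * ((Real.exp r / 16) * Real.exp (-((r : ℝ) ^ 2)))) := by gcongr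
    _ = (Real.exp (3 * r) * Real.exp r * Real.exp (-((r : ℝ) ^ 2))) / 2 := by ring
    _ ≤ _ := by linarith

/-- the numerical facts -/
theorem num (N l0 : ℕ) (φ : ℝ) (hφ : 0 < φ) : ∃ r0 : ℕ, ∀ r ≥ r0, 1 ≤ r ∧ l0 ≤ r ^ 4 ∧
    1 ≤ (φ / 8) ^ 8 * ((r ^ 4 : ℕ) : ℝ) ∧
    2 * 2 ^ (4 * r) * ((1 / 64 : ℝ) ^ (2 * r) + (4 * r : ℝ) * ((r : ℝ) ^ N *
      Real.exp (-((r : ℝ) ^ 2)))) ≤ Real.exp (-(5 * r : ℝ)) := by
  obtain ⟨r1, h1⟩ := num_b N
  have hp : 0 < (φ / 8) ^ 8 := by positivity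
  obtain ⟨r2, h2⟩ := exists_nat_gt (1 / (φ / 8) ^ 8)
  refine ⟨max (max r1 r2) (max 3 l0), fun r hr => ?_⟩
  have a1 : r1 ≤ r := (le_max_left _ _).trans ((le_max_left _ _).trans hr)
  have a2 : r2 ≤ r := (le_max_right _ _).trans ((le_max_left _ _).trans hr)
  have a3 : 3 ≤ r := (le_max_left _ _).trans ((le_max_right _ _).trans hr)
  have a4 : l0 ≤ r := (le_max_right _ _).trans ((le_max_right _ _).trans hr)
  have a5 : r ≤ r ^ 4 := Nat.le_self_pow (by norm_num) r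
  refine ⟨by omega, a4.trans a5, ?_, ?_⟩
  · have a6 : (r2 : ℝ) ≤ ((r ^ 4 : ℕ) : ℝ) := by exact_mod_cast a2.trans a5
    have a7 : 1 / (φ / 8) ^ 8 ≤ ((r ^ 4 : ℕ) : ℝ) := h2.le.trans a6
    rw [div_le_iff₀ hp] at a7
    linarith
  · rw [mul_add]
    have := num_a r a3
    have := h1 r a1
    linarith

end ZP.P3
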