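import Pool.Agent.ZP.P3a

/-! # Row P3, part b: the two signs -/

set_option autoImplicit false

open scoped ENNReal BigOperators Classical

noncomputable section

namespace ZP.P3

open ZP ZP.Rows

variable {d : ℕ} {m : Model} {δ : ℝ}

theorem len_inv (q : Par d m δ) (hd : 0 < d) (W : ℕ) (E0 : Ev d q.M q.K) {Λ : Set (Tor d q.M)}
    (hE0 : LocE q.N1 Λ 0 W E0) (t : ℕ → ℕ) (I : Finset ℕ) (n a b : ℕ) (ha : ∀ i < n, W + t i ≤ a)
    (hab : a ≤ b) :
    q.PP (b * q.N1) (fun η w => ∀ i < n, i ∈ I → sft q.N1 0 (t i) E0 η w) =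
      q.PP (a * q.N1) (fun η w => ∀ i < n, i ∈ I → sft q.N1 0 (t i) E0 η w) := by
  have hab' : a * q.N1 ≤ b * q.N1 := Nat.mul_le_mul_right _ hab
  obtain ⟨L, hL⟩ := Nat.exists_eq_add_of_le hab'
  have h1 : q.PP (b * q.N1) (fun η w => ∀ i < n, i ∈ I → sft q.N1 0 (t i) E0 η w) =
      q.PP (b * q.N1) (fun η w => (fun η w => ∀ i < n, i ∈ I → sft q.N1 0 (t i) E0 η w) η
        (w.take (a * q.N1))) := by
    refine SF2.PP_congr q _ fun η w hw => ?_
    refine forall_congr' fun i => forall_congr' fun hi => forall_congr' fun _ => ?_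
    exact (loc_take' (LocE.sft q.N1 hE0 0 (t i)) η w (a * q.N1)
      (Nat.mul_le_mul_right _ (ha i hi)) (by omega)).symm
  rw [h1, hL]
  exact PP_take q hd (a * q.N1) L (fun η w => ∀ i < n, i ∈ I → sft q.N1 0 (t i) E0 η w)

/-- no success in `4 r` windows -/
theorem two_signs (q : Par d m δ) (hd : 0 < d) (p e : ℝ≥0∞) (hp : p ≤ 1) (G W : ℕ)
    (EM : Ev d q.M q.K) (E : Bool → Ev d q.M q.K) (Λ : Set (Tor d q.M))
    (hE : ∀ b, LocE q.N1 Λ 0 W (E b))
    (hdec : ∀ (b : Bool) (s : ℕ) (A : Ev d q.M q.K), (∀ η w, A η w ↔ A η (w.take (s * q.N1))) →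
      q.PP ((s + (G + W)) * q.N1) (fun η w => A η w ∧ sft q.N1 0 s (sft q.N1 0 G (E b)) η w) ≤
        q.PP (s * q.N1) A * p + e)
    (hEM : ∀ η w, ¬ EM η w → E true η w ∨ E false η w)
    (h0 : ∀ b, q.PP (W * q.N1) (E b) ≤ p)
    (t : ℕ → ℕ) (ht : ∀ i, t i + W + G ≤ t (i + 1)) (r H : ℕ) (hH : t (4 * r) ≤ H) :
    q.PP (H * q.N1) (fun η w => ∀ i < 4 * r, ¬ sft q.N1 0 (t i) EM η w) ≤
      2 * 2 ^ (4 * r) * (p ^ (2 * r) + (4 * r : ℕ) * e) := by
  set F : Finset (Finset ℕ) := (Finset.range (4 * r)).powerset.filter fun I => 2 * r ≤ I.card with hF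
  set S : Finset (Bool × Finset ℕ) := Finset.univ ×ˢ F with hS
  have h1 : q.PP (H * q.N1) (fun η w => ∀ i < 4 * r, ¬ sft q.N1 0 (t i) EM η w) ≤
      q.PP (H * q.N1) (fun η w => ∃ x ∈ S, (fun (x : Bool × Finset ℕ) (η : Tor d q.M → ℕ)
        (w : List (Let d q.M (q.K + 1))) => ∀ i < 4 * r, i ∈ x.2 →
          sft q.N1 0 (t i) (E x.1) η w) x η w) := by
    refine PP_mono q _ fun η w _ h => ?_
    set I1 := (Finset.range (4 * r)).filter fun i => sft q.N1 0 (t i) (E true) η w with hI1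
    set I2 := (Finset.range (4 * r)).filter fun i => ¬ sft q.N1 0 (t i) (E true) η w with hI2
    have hcard : I1.card + I2.card = 4 * r := by
      rw [hI1, hI2, Finset.card_filter_add_card_filter_not, Finset.card_range]
    by_cases h2 : 2 * r ≤ I1.card
    · refine ⟨(true, I1), ?_, ?_⟩
      · rw [hS, Finset.mem_product]
        exact ⟨Finset.mem_univ _, Finset.mem_filter.mpr
          ⟨Finset.mem_powerset.mpr (Finset.filter_subset _ _), h2⟩⟩
      · intro i _ hi
        exact (Finset.mem_filter.mp hi).2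
    · refine ⟨(false, I2), ?_, ?_⟩
      · rw [hS, Finset.mem_product]
        exact ⟨Finset.mem_univ _, Finset.mem_filter.mpr
          ⟨Finset.mem_powerset.mpr (Finset.filter_subset _ _), by show 2 * r ≤ I2.card; omega⟩⟩
      · intro i hi4 hi
        have h3 := (Finset.mem_filter.mp hi).2
        rcases hEM _ _ (h i hi4) with h4 | h4
        · exact absurd h4 h3
        · exact h4
  refine h1.trans ((PP_finset q _ S _).trans ?_)
  have h2 : ∀ x ∈ S, q.PP (H * q.N1) (fun η w => ∀ i < 4 * r, i ∈ x.2 →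
      sft q.N1 0 (t i) (E x.1) η w) ≤ p ^ (2 * r) + (4 * r : ℕ) * e := by
    intro x hx
    rw [hS, Finset.mem_product] at hx
    obtain ⟨hx1, hx2⟩ := Finset.mem_filter.mp hx.2
    have hmono : ∀ i j, i ≤ j → t i ≤ t j := by
      intro i j hij
      induction j, hij using Nat.le_induction with
      | base => exact le_rfl
      | succ j _ ih => have := ht j; omega
    rw [len_inv q hd W (E x.1) (hE x.1) t x.2 (4 * r) (t (4 * r)) H (fun i hi => by
      have h3 := ht i
      have h4 := hmono (i + 1) (4 * r) hi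
      omega) hH]
    refine (chain_dec q hd p e hp G W (E x.1) (hE x.1) (hdec x.1) (h0 x.1) t ht x.2 (4 * r)).trans ?_
    refine add_le_add ?_ le_rfl
    have h5 : (Finset.range (4 * r)).filter (· ∈ x.2) = x.2 := by
      ext i
      rw [Finset.mem_filter]
      exact ⟨fun h => h.2, fun h => ⟨Finset.mem_powerset.mp hx1 h, h⟩⟩
    rw [h5]
    exact pow_le_pow_right_of_le_one' hp hx2
  refine (Finset.sum_le_sum h2).trans ?_
  rw [Finset.sum_const, nsmul_eq_mul]
  gcongr
  have h6 : S.card ≤ 2 * 2 ^ (4 * r) := by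
    rw [hS, Finset.card_product]
    refine Nat.mul_le_mul (by simp) ?_
    refine (Finset.card_filter_le _ _).trans ?_
    rw [Finset.card_powerset, Finset.card_range]
  calc (S.card : ℝ≥0∞) ≤ ((2 * 2 ^ (4 * r) : ℕ) : ℝ≥0∞) := by exact_mod_cast h6
    _ = _ := by push_cast; rfl

end ZP.P3
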