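import Pool.Agent.ZP.Blocks
import Pool.Agent.ZI.InfLem

/-! # General facts on restricted infections with recovery (deterministic); port of ZI/InfLem -/

set_option autoImplicit false

open scoped ENNReal BigOperators Classical

noncomputable section

namespace ZP

variable {d : ℕ} {V : Type} {nb : V → Dir d → Option V} {pr : Pos d → V}

theorem foldl_stepR_fst (G : Set (Pos d)) (l : List (Lab V d)) :
    ∀ (η : V → ℕ) (A : Set (Pos d)), (l.foldl (stepR nb pr G) (η, A)).1 = l.foldl (mv nb) η := by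
  induction l with
  | nil => intro η A; rfl
  | cons a l ih => intro η A; exact ih _ _

theorem infMv_mono (η : V → ℕ) (l : Lab V d) {A A' : Set (Pos d)} (h : A ⊆ A') :
    infMv nb pr η A l ⊆ infMv nb pr η A' l := by
  obtain ⟨x, j, e⟩ := l
  cases j with
  | zero => exact fun z hz => ⟨h hz.1, hz.2⟩
  | succ k => exact ZI.infMv_mono η (x, k, e) h

theorem mem_infMv {η : V → ℕ} {l : Lab V d} {A : Set (Pos d)} {z : Pos d}
    (h : z ∈ infMv nb pr η A l) : ∃ y ∈ A, z ∈ infMv nb pr η {y} l := by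
  obtain ⟨x, j, e⟩ := l
  cases j with
  | zero => exact ⟨z, h.1, rfl, h.2⟩
  | succ k => exact ZI.mem_infMv (l := (x, k, e)) h

/-- infected positions are occupied after a ring -/
theorem infMv_occ {η : V → ℕ} {l : Lab V d} {A : Set (Pos d)} (hA : ∀ z ∈ A, 0 < η (pr z))
    {z : Pos d} (h : z ∈ infMv nb pr η A l) : 0 < mv nb η l (pr z) := by
  obtain ⟨x, j, e⟩ := l
  cases j with
  | zero => exact hA z h.1
  | succ k => exact ZI.infMv_occ (l := (x, k, e)) hA h

theorem foldl_stepR_mono {G G' : Set (Pos d)} (hG : G ⊆ G') (l : List (Lab V d)) :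
    ∀ (η : V → ℕ) {A A' : Set (Pos d)}, A ⊆ A' →
      (l.foldl (stepR nb pr G) (η, A)).2 ⊆ (l.foldl (stepR nb pr G') (η, A')).2 := by
  induction l with
  | nil => intro η A A' h; exact h
  | cons a l ih =>
    intro η A A' h
    exact ih _ fun z hz => ⟨infMv_mono η a h hz.1, hG hz.2⟩

theorem mem_foldl_stepR {G : Set (Pos d)} (l : List (Lab V d)) :
    ∀ (η : V → ℕ) (A : Set (Pos d)) (z : Pos d), z ∈ (l.foldl (stepR nb pr G) (η, A)).2 →
      ∃ y ∈ A, z ∈ (l.foldl (stepR nb pr G) (η, {y})).2 := by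
  induction l with
  | nil => intro η A z h; exact ⟨z, h, rfl⟩
  | cons a l ih =>
    intro η A z h
    obtain ⟨b, hb, hz⟩ := ih _ _ z h
    obtain ⟨y, hy, hb'⟩ := mem_infMv hb.1
    refine ⟨y, hy, ?_⟩
    refine foldl_stepR_mono subset_rfl l _ ?_ hz
    rintro _ rfl
    exact ⟨hb', hb.2⟩

theorem foldl_stepR_occ {G : Set (Pos d)} (l : List (Lab V d)) :
    ∀ (η : V → ℕ) (A : Set (Pos d)), (∀ z ∈ A, 0 < η (pr z)) →
      ∀ z ∈ (l.foldl (stepR nb pr G) (η, A)).2, 0 < (l.foldl (mv nb) η) (pr z) := by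
  induction l with
  | nil => intro η A h; exact h
  | cons a l ih =>
    intro η A h
    exact ih _ _ fun z hz => infMv_occ h hz.1

theorem foldl_stepR_region {G : Set (Pos d)} (l : List (Lab V d)) :
    ∀ (η : V → ℕ) (A : Set (Pos d)), A ⊆ G → (l.foldl (stepR nb pr G) (η, A)).2 ⊆ G := by
  induction l with
  | nil => intro η A h; exact h
  | cons a l ih => intro η A _; exact ih _ _ Set.inter_subset_right

/-- restricting the region to a set which contains all intermediate sets changes nothing -/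
theorem foldl_stepR_inter {G H : Set (Pos d)} (l : List (Lab V d)) :
    ∀ (η : V → ℕ) (A : Set (Pos d)),
      (∀ i ≤ l.length, ((l.take i).foldl (stepR nb pr G) (η, A)).2 ⊆ H) →
      l.foldl (stepR nb pr (G ∩ H)) (η, A) = l.foldl (stepR nb pr G) (η, A) := by
  induction l with
  | nil => intro η A _; rfl
  | cons a l ih =>
    intro η A h
    have h1 : stepR nb pr (G ∩ H) (η, A) a = stepR nb pr G (η, A) a := by
      have h2 := h 1 (by simp)
      simp only [List.take_succ_cons, List.take_zero, List.foldl_cons, List.foldl_nil] at h2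
      unfold stepR
      refine Prod.ext rfl ?_
      show infMv nb pr η A a ∩ (G ∩ H) = infMv nb pr η A a ∩ G
      ext z
      constructor
      · exact fun hz => ⟨hz.1, hz.2.1⟩
      · exact fun hz => ⟨hz.1, hz.2, h2 hz⟩
    rw [List.foldl_cons, List.foldl_cons, h1]
    refine ih _ _ fun i hi => ?_
    have := h (i + 1) (by simpa using hi)
    rw [List.take_succ_cons, List.foldl_cons] at this
    exact this

section inf

variable {η0 : V → ℕ} {U : ℕ → List (Lab V d)}

theorem inf_occ {G : ℕ → Set (Pos d)} {s : ℕ} {A : Set (Pos d)} (j : ℕ) :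
    ∀ y ∈ inf nb pr η0 U G s A j, 0 < cfg nb η0 U (s + j) (pr y) := by
  induction j with
  | zero => exact fun y hy => hy.2.2
  | succ j ih =>
    intro y hy
    exact foldl_stepR_occ (U (s + j)) _ _ (fun z hz => ih z hz.1) y hy

theorem inf_mono_univ {G : ℕ → Set (Pos d)} {s : ℕ} {A : Set (Pos d)} (j : ℕ) :
    inf nb pr η0 U G s A j ⊆ inf nb pr η0 U (fun _ => Set.univ) s A j := by
  induction j with
  | zero => exact fun y hy => ⟨hy.1, trivial, hy.2.2⟩
  | succ j ih =>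
    exact foldl_stepR_mono (Set.subset_univ _) _ _ fun z hz => ⟨ih hz.1, trivial⟩

theorem visU_mono_univ {G : ℕ → Set (Pos d)} {s : ℕ} {A : Set (Pos d)} (j : ℕ) :
    visU nb pr η0 U G s A j ⊆ visU nb pr η0 U (fun _ => Set.univ) s A j := by
  rintro z ⟨i, hi, hz⟩
  refine ⟨i, hi, foldl_stepR_mono (Set.subset_univ (G (s + j))) _ _ ?_ hz⟩
  exact fun z hz => ⟨inf_mono_univ j hz.1, trivial⟩

/-- composition -/
theorem inf_comp {G G' : ℕ → Set (Pos d)} {s j : ℕ} {A : Set (Pos d)} {y : Pos d}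
    (hy : y ∈ inf nb pr η0 U G s A j) (k : ℕ)
    (hG : ∀ t, s + j ≤ t → t < s + j + k → G' t ⊆ G t) :
    inf nb pr η0 U G' (s + j) {y} k ⊆ inf nb pr η0 U G s A (j + k) := by
  induction k with
  | zero =>
    rintro z ⟨rfl, -, -⟩
    exact hy
  | succ k ih =>
    have ih' := ih fun t h1 h2 => hG t h1 (by omega)
    have h0 : G' (s + j + k) ⊆ G (s + j + k) := hG _ (by omega) (by omega)
    show ((U (s + j + k)).foldl (stepR nb pr (G' (s + j + k)))
      (cfg nb η0 U (s + j + k), inf nb pr η0 U G' (s + j) {y} k ∩ G' (s + j + k))).2 ⊆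
      ((U (s + (j + k))).foldl (stepR nb pr (G (s + (j + k))))
      (cfg nb η0 U (s + (j + k)), inf nb pr η0 U G s A (j + k) ∩ G (s + (j + k)))).2
    rw [← Nat.add_assoc s j k]
    exact foldl_stepR_mono h0 _ _ fun z hz => ⟨ih' hz.1, h0 hz.2⟩

/-- an infected position has an infected predecessor one unit of time before -/
theorem inf_pred {G : ℕ → Set (Pos d)} {s j : ℕ} {A : Set (Pos d)} {y : Pos d}
    (hy : y ∈ inf nb pr η0 U G s A (j + 1)) :
    ∃ x ∈ inf nb pr η0 U G s A j, y ∈ inf nb pr η0 U G (s + j) {x} 1 := by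
  obtain ⟨x, hx, hyx⟩ := mem_foldl_stepR (U (s + j)) _ _ y hy
  refine ⟨x, hx.1, ?_⟩
  refine foldl_stepR_mono subset_rfl _ _ ?_ hyx
  rintro _ rfl
  exact ⟨⟨rfl, hx.2, inf_occ j _ hx.1⟩, hx.2⟩

/-- localisation of the region -/
theorem inf_inter {G H : ℕ → Set (Pos d)} {s : ℕ} {A : Set (Pos d)} (h0 : A ⊆ H s) (j : ℕ)
    (h : ∀ i < j, visU nb pr η0 U G s A i ⊆ H (s + i)) :
    inf nb pr η0 U (fun t => G t ∩ H t) s A j = inf nb pr η0 U G s A j := by
  induction j with
  | zero =>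
    ext z
    constructor
    · exact fun hz => ⟨hz.1, hz.2.1.1, hz.2.2⟩
    · exact fun hz => ⟨hz.1, ⟨hz.2.1, h0 hz.1⟩, hz.2.2⟩
  | succ j ih =>
    have ih' := ih fun i hi => h i (by omega)
    have hj := h j (by omega)
    show ((U (s + j)).foldl (stepR nb pr (G (s + j) ∩ H (s + j)))
      (cfg nb η0 U (s + j), inf nb pr η0 U (fun t => G t ∩ H t) s A j ∩ (G (s + j) ∩ H (s + j)))).2 =
      ((U (s + j)).foldl (stepR nb pr (G (s + j)))
      (cfg nb η0 U (s + j), inf nb pr η0 U G s A j ∩ G (s + j))).2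
    have h1 : inf nb pr η0 U G s A j ∩ (G (s + j) ∩ H (s + j)) =
        inf nb pr η0 U G s A j ∩ G (s + j) := by
      ext z
      constructor
      · exact fun hz => ⟨hz.1, hz.2.1⟩
      · exact fun hz => ⟨hz.1, hz.2, hj ⟨0, Nat.zero_le _, hz⟩⟩
    rw [ih', h1, foldl_stepR_inter]
    exact fun i hi z hz => hj ⟨i, hi, hz⟩

end inf

namespace Env

variable {E : Env d}

theorem R.occ {G : ℕ → Set (Pos d)} {s t : ℕ} {x y : Pos d} (h : E.R G s x t y) : E.occ t y := by
  obtain ⟨j, rfl, hy⟩ := h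
  exact inf_occ j y hy

theorem R.le {G : ℕ → Set (Pos d)} {s t : ℕ} {x y : Pos d} (h : E.R G s x t y) : s ≤ t := by
  obtain ⟨j, rfl, -⟩ := h
  omega

theorem R_self {G : ℕ → Set (Pos d)} {s : ℕ} {x : Pos d} (h : E.occ s x) (hG : x ∈ G s) :
    E.R G s x s x := ⟨0, rfl, rfl, hG, h⟩

theorem R.univ {G : ℕ → Set (Pos d)} {s t : ℕ} {x y : Pos d} (h : E.R G s x t y) :
    E.R (fun _ => Set.univ) s x t y := by
  obtain ⟨j, rfl, hy⟩ := h
  exact ⟨j, rfl, inf_mono_univ j hy⟩

theorem vis.univ {G : ℕ → Set (Pos d)} {s t : ℕ} {x y : Pos d} (h : E.vis G s x t y) :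
    E.vis (fun _ => Set.univ) s x t y := by
  obtain ⟨j, h1, hy⟩ := h
  exact ⟨j, h1, visU_mono_univ j hy⟩

/-- composition of restricted infections -/
theorem R.comp {G G' : ℕ → Set (Pos d)} {s t t' : ℕ} {x y z : Pos d} (h : E.R G s x t y)
    (h' : E.R G' t y t' z) (hG : ∀ i, t ≤ i → i < t' → G' i ⊆ G i) : E.R G s x t' z := by
  obtain ⟨j, rfl, hy⟩ := h
  obtain ⟨k, rfl, hz⟩ := h'
  exact ⟨j + k, by omega, inf_comp hy k hG hz⟩

theorem R.pred {G : ℕ → Set (Pos d)} {s t : ℕ} {x y : Pos d} (h : E.R G s x (t + 1) y)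
    (hst : s ≤ t) : ∃ y', E.R G s x t y' ∧ E.R G t y' (t + 1) y := by
  obtain ⟨j, hj, hy⟩ := h
  obtain ⟨i, rfl⟩ : ∃ i, j = i + 1 := ⟨j - 1, by omega⟩
  obtain rfl : t = s + i := by omega
  obtain ⟨y', h1, h2⟩ := inf_pred hy
  exact ⟨y', ⟨i, rfl, h1⟩, ⟨1, rfl, h2⟩⟩

/-- localisation of the region of `R` -/
theorem R.inter {G H : ℕ → Set (Pos d)} {s t : ℕ} {x y : Pos d} (h : E.R G s x t y)
    (hx : x ∈ H s)
    (hH : ∀ i, s ≤ i → i < t → ∀ z, E.vis G s x (i + 1) z → z ∈ H i) :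
    E.R (fun i => G i ∩ H i) s x t y := by
  obtain ⟨j, rfl, hy⟩ := h
  refine ⟨j, rfl, ?_⟩
  rw [inf_inter]
  · exact hy
  · rintro _ rfl
    exact hx
  · intro i hi z hz
    exact hH (s + i) (by omega) (by omega) z ⟨i, by omega, hz⟩

end Env

end ZP
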