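import Pool.Agent.ZP.D0
import Pool.Agent.ZP.D2

/-! # Row D0b: `fg`, `bg`, persistence, consequences of `Good` (deterministic) -/

set_option autoImplicit false

open scoped ENNReal BigOperators Classical

noncomputable section

namespace ZP.Rows

open ZP ZI.Geo

variable {d : ℕ}

section D0b

variable {E : Env d} {r κ Cv S Dm : ℕ}

theorem nrm_zero' : nrm (0 : Pos d) = 0 := by simp [ZI.nrm]

/-- under `Good` the unrestricted infection stays in the ball of `fg` -/
theorem fg_of_R (hE : E.Good r κ Cv S Dm) (hκ : Cv * κ + r ≤ κ ^ 2) {t t' : ℕ} {x y : Pos d}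
    (ht : t + κ ≤ t') (htS : t' ≤ S) (h : E.R (fun _ => Set.univ) t x t' y) : E.fg κ t x := by
  have h1 : ∃ w, E.R (fun _ => Set.univ) t x (t + κ) w := by
    rcases Nat.eq_or_lt_of_le ht with h0 | h0
    · exact ⟨y, by rw [h0]; exact h⟩
    · obtain ⟨w, -, hw, -⟩ := R_split E h (t + κ) (by omega) h0
      exact ⟨w, hw⟩
  obtain ⟨w, hw⟩ := h1
  have hκ' : (Cv : ℝ) * κ + r ≤ (κ : ℝ) ^ 2 := by exact_mod_cast hκ
  refine ⟨w, ?_⟩
  have h2 := R_restrict E (G' := fun _ => Ball x ((κ : ℝ) ^ 2)) hw (by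
    show nrm (x - x) ≤ _
    rw [sub_self, nrm_zero']
    positivity) (by
    intro j hj b hb
    have h3 := hE.g4' t (t + j + 1) x b (by omega) (by omega) ⟨j, by omega, hb⟩
    have h4 : (Cv : ℝ) * (((t + j + 1 : ℕ) : ℝ) - t) ≤ Cv * κ := by
      apply mul_le_mul_of_nonneg_left _ (Nat.cast_nonneg _)
      have : ((t + j + 1 : ℕ) : ℝ) ≤ ((t + κ : ℕ) : ℝ) := by exact_mod_cast hj
      push_cast at this ⊢
      linarith
    show nrm (b - x) ≤ _
    linarith)
  simpa only [Set.univ_inter] using h2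

theorem bg_of_R (hE : E.Good r κ Cv S Dm) (hκ : 2 * (Cv * κ + r) ≤ κ ^ 2) {t t' : ℕ} {x y : Pos d}
    (ht : t + κ ≤ t') (htS : t' ≤ S) (h : E.R (fun _ => Set.univ) t x t' y) : E.bg κ t' y := by
  rcases Nat.eq_zero_or_pos κ with h0 | h0
  · subst h0
    refine ⟨t', y, rfl, R_self E (R_occ E h) ?_⟩
    show nrm (y - y) ≤ _
    rw [sub_self, nrm_zero']
    positivity
  · obtain ⟨w, -, -, hw⟩ := R_split E h (t' - κ) (by omega) (by omega)
    have hκ' : 2 * ((Cv : ℝ) * κ + r) ≤ (κ : ℝ) ^ 2 := by exact_mod_cast hκ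
    have hcast : ((t' - κ : ℕ) : ℝ) = t' - κ := Nat.cast_sub (by omega)
    have h5 := hE.g4 (t' - κ) t' w y (by omega) htS hw
    rw [hcast] at h5
    have h6 : (Cv : ℝ) * ((t' : ℝ) - (t' - κ)) = Cv * κ := by ring
    refine ⟨t' - κ, w, by omega, ?_⟩
    have h2 := R_restrict E (G' := fun _ => Ball y ((κ : ℝ) ^ 2)) hw (by
      show nrm (w - y) ≤ _
      rw [nrm_sub_comm]
      have := nrm_nonneg (y - w)
      linarith) (by
      intro j hj b hb
      have h3 := hE.g4' (t' - κ) (t' - κ + j + 1) w b (by omega) (by omega) ⟨j, by omega, hb⟩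
      have h4 : (Cv : ℝ) * (((t' - κ + j + 1 : ℕ) : ℝ) - ((t' - κ : ℕ) : ℝ)) ≤ Cv * κ := by
        apply mul_le_mul_of_nonneg_left _ (Nat.cast_nonneg _)
        have h7 : j + 1 ≤ κ := by omega
        have h8 : ((j : ℝ) + 1) ≤ κ := by exact_mod_cast h7
        push_cast
        linarith
      have h7 := nrm_sub_le b w y
      rw [nrm_sub_comm w y] at h7
      show nrm (b - y) ≤ _
      linarith)
    simpa only [Set.univ_inter] using h2

theorem ok_occ {l t : ℕ} {x : Pos d} (h : E.ok l t x) : E.occ t x := by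
  obtain ⟨_, s, y, rfl, h⟩ := h
  exact R_occ E h

theorem fg_R {l t : ℕ} {x : Pos d} (h : E.fg l t x) : ∃ y, E.R (fun _ => Set.univ) t x (t + l) y := by
  obtain ⟨y, hy⟩ := h
  exact ⟨y, R_mono E (fun _ => Set.subset_univ _) hy⟩

/-- the nearest `ok` position exists (needs only the density) -/
theorem near_ok (hE : E.Good r κ Cv S Dm) {t : ℕ} (z : Pos d) (ht : κ ≤ t) (htS : t + κ ≤ S) :
    E.ok κ t (E.near κ t z) ∧ supn (E.near κ t z - z) ≤ κ := by
  obtain ⟨v, -, h2, h3⟩ := hE.g1 t ht htS z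
  exact ZP.D2.near_spec E κ t z ⟨v, h2, h3⟩

/-- steps of the persistence -/
theorem persist_steps (hE : E.Good r κ Cv S Dm) (hκ' : 4 * d * κ ≤ Dm) {t : ℕ}
    {x : Pos d} (ht : κ ≤ t) (hx : E.fg κ t x) (k : ℕ)
    (hk : t + k * ((d * κ + 1) * κ) + κ ≤ S) (hk1 : 1 ≤ k) :
    ∃ y, E.R (fun _ => Set.univ) t x (t + k * ((d * κ + 1) * κ)) y ∧
      E.fg κ (t + k * ((d * κ + 1) * κ)) y := by
  have hstep : ∀ (T : ℕ) (w : Pos d), κ ≤ T → E.fg κ T w → T + (d * κ + 1) * κ + κ ≤ S →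
      ∃ y, E.R (fun _ => Set.univ) T w (T + (d * κ + 1) * κ) y ∧
        E.fg κ (T + (d * κ + 1) * κ) y := by
    intro T w hT hw hS
    obtain ⟨v, -, h2, h3⟩ := hE.g1 (T + (d * κ + 1) * κ) (by omega) hS w
    have h4 : nrm (w - (w + v)) ≤ (d : ℝ) * κ := by
      rw [nrm_sub_comm, add_sub_cancel_left]
      exact (nrm_le_supn _).trans
        (mul_le_mul_of_nonneg_left (by exact_mod_cast h2) (Nat.cast_nonneg _))
    have h5 : (d : ℝ) * κ ≤ Dm := by
      have h6 : (4 : ℝ) * d * κ ≤ Dm := by exact_mod_cast hκ'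
      have h7 : (0 : ℝ) ≤ (d : ℝ) * κ := by positivity
      linarith
    have h6 := hE.g3 T (T + (d * κ + 1) * κ) w (w + v) hT (Nat.le_add_right _ _) hS hw h3.2
      (h4.trans h5) (by
        push_cast
        have h7 : (nrm (w - (w + v)) + 1) * κ ≤ ((d : ℝ) * κ + 1) * κ :=
          mul_le_mul_of_nonneg_right (by linarith) (Nat.cast_nonneg _)
        linarith)
    exact ⟨w + v, R_mono E (fun _ => Set.subset_univ _) h6, h3.1⟩
  induction k with
  | zero => omega
  | succ k ih =>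
    have e : t + (k + 1) * ((d * κ + 1) * κ) = t + k * ((d * κ + 1) * κ) + (d * κ + 1) * κ := by ring
    rw [e] at hk ⊢
    rcases Nat.eq_zero_or_pos k with h0 | h0
    · subst h0
      simp only [Nat.zero_mul, Nat.add_zero] at hk ⊢
      exact hstep t x ht hx hk
    · obtain ⟨y, hy, hyf⟩ := ih (by omega) h0
      obtain ⟨w, hw, hwf⟩ := hstep _ y (by omega) hyf hk
      exact ⟨w, R_trans E hy hw, hwf⟩

/-- persistence: an infection that lives for the time `κ` lives up to the horizon -/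
theorem persist (hd : 0 < d) (hE : E.Good r κ Cv S Dm) (hκ : Cv * κ + r ≤ κ ^ 2) (hκ' : 4 * d * κ ≤ Dm) {t : ℕ}
    {x : Pos d} (ht : κ ≤ t) (hx : E.fg κ t x) {t' : ℕ} (htt : t ≤ t') (htS : t' + 4 * d * κ ^ 2 ≤ S) :
    ∃ y, E.R (fun _ => Set.univ) t x t' y ∧ E.fg κ t' y := by
  rcases Nat.eq_zero_or_pos κ with h0 | h0
  · exfalso
    subst h0
    obtain ⟨v, hv, h2, -⟩ := hE.g1 0 le_rfl (Nat.zero_le _) 0
    apply hv
    funext j
    have h3 : (v j).natAbs ≤ supn v := Finset.le_sup (f := fun j => (v j).natAbs) (Finset.mem_univ j)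
    have h4 : (v j).natAbs = 0 := by omega
    exact Int.natAbs_eq_zero.mp h4
  · set τ := (d * κ + 1) * κ with hτ
    have hτ0 : 0 < τ := by positivity
    set k := (t' + κ - t) / τ + 1 with hk
    have h1 : t' + κ - t < k * τ := by
      rw [hk, Nat.add_mul, Nat.one_mul]
      exact Nat.lt_div_mul_add hτ0
    have h2 : k * τ ≤ t' + κ - t + τ := by
      rw [hk, Nat.add_mul, Nat.one_mul]
      exact Nat.add_le_add_right (Nat.div_mul_le_self _ _) _
    have h3 : τ + 2 * κ ≤ 4 * d * κ ^ 2 := by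
      have h5 : κ ≤ d * κ ^ 2 := by
        calc κ = 1 * κ ^ 1 := by ring
          _ ≤ d * κ ^ 2 := Nat.mul_le_mul hd (Nat.pow_le_pow_right h0 (by norm_num))
      have h6 : τ = d * κ ^ 2 + κ := by rw [hτ]; ring
      have h7 : 4 * d * κ ^ 2 = 4 * (d * κ ^ 2) := by ring
      rw [h6, h7]
      omega
    obtain ⟨y, hy, -⟩ := persist_steps hE hκ' ht hx k (by
      show t + k * τ + κ ≤ S
      omega) (Nat.le_add_left 1 _)
    have hy' : E.R (fun _ => Set.univ) t x (t + k * τ) y := hy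
    obtain ⟨z, -, h5, h6⟩ := R_split E hy' t' htt (by omega)
    exact ⟨z, h5, fg_of_R hE hκ (t' := t + k * τ) (by omega) (by omega) h6⟩

end D0b

end ZP.Rows
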