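import Pool.Agent.ZP.ProcE
import Pool.Agent.ZP.E1
import Pool.Agent.ZP.PJ
import Pool.Agent.ZP.P2b
import Pool.Agent.ZI.F1a

/-! # Row F1a (with recovery): fields of the abstract system that concern one torus; port of ZI/F1a -/

set_option autoImplicit false

open scoped ENNReal BigOperators Classical Pointwise
open MeasureTheory

noncomputable section

namespace ZP.F1a

open ZP ZP.Rows
open ZI (EvE_const EvE_mul EvE_tsum EvE_append EvE_congr PrE_compl)
open ZI.F1a (growth_fact exp_lin scale_facts rr_large g_large)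
open ZI.Rows (tv1_le)

variable {d : ℕ} {m : Model} {δ : ℝ}

theorem tsum_prw' (q : Par d m δ) : ∑' η : Tor d q.M → ℕ, prw (m.m1 q.K) η = 1 :=
  ZI.Rows.tsum_prw q.toZI

/-! ### probabilities of the torus chain -/

section PPx

variable (q : Par d m δ)

theorem PP_tsum {Y : Type} (N : ℕ) (f : (Tor d q.M → ℕ) → List (Let d q.M (q.K + 1)) → Y) (B : Y → Prop) :
    q.PP N (fun η l => B (f η l)) = ∑' y, if B y then q.PP N (fun η l => f η l = y) else 0 := by
  have h1 : ∀ y, (if B y then q.PP N (fun η l => f η l = y) else 0) =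
      ∑' η : Tor d q.M → ℕ, prw (m.m1 q.K) η *
        EvE q.w N (fun l => if B y ∧ f η l = y then 1 else 0) := by
    intro y
    by_cases hy : B y
    · rw [if_pos hy]
      unfold Par.PP Par.EE
      refine tsum_congr fun η => ?_
      congr 1
      refine congrArg (EvE q.w N) (funext fun l => ?_)
      simp [hy]
    · rw [if_neg hy]
      symm
      rw [ENNReal.tsum_eq_zero]
      intro η
      have h2 : (fun l => if B y ∧ f η l = y then (1 : ℝ≥0∞) else 0) = fun l => 0 * 1 := by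
        funext l
        simp [hy]
      rw [h2, EvE_mul q.w N 0 (fun _ => 1)]
      simp
  simp_rw [h1]
  rw [ENNReal.tsum_comm]
  unfold Par.PP Par.EE
  refine tsum_congr fun η => ?_
  rw [ENNReal.tsum_mul_left, ← EvE_tsum]
  congr 1
  refine congrArg (EvE q.w N) (funext fun l => ?_)
  rw [tsum_eq_single (f η l)]
  · simp
  · intro y hy
    rw [if_neg]
    rintro ⟨-, h⟩
    exact hy h.symm

theorem PP_true (hd : 0 < d) (N : ℕ) : q.PP N (fun _ _ => True) = 1 := by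
  unfold Par.PP Par.EE
  simp only [if_true]
  simp_rw [EvE_const q.w (P2b.sum_w' q hd), mul_one]
  exact tsum_prw' q

theorem PP_compl (hd : 0 < d) (N : ℕ) (E : (Tor d q.M → ℕ) → List (Let d q.M (q.K + 1)) → Prop) :
    q.PP N E + q.PP N (fun η l => ¬ E η l) = 1 := by
  have h : q.PP N E + q.PP N (fun η l => ¬ E η l) = ∑' η : Tor d q.M → ℕ,
      (prw (m.m1 q.K) η * PrE q.w N (E η) +
        prw (m.m1 q.K) η * PrE q.w N (fun l => ¬ E η l)) := by
    rw [ENNReal.tsum_add]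
    rfl
  rw [h]
  refine (tsum_congr fun η => ?_).trans (tsum_prw' q)
  rw [← mul_add, PrE_compl q.w (P2b.sum_w' q hd), mul_one]

theorem foldl_prj {M K : ℕ} (l : List (Let d M (K + 1))) (η : Tor d M → ℕ) :
    l.foldl stepA η = (l.map prj).foldl ZI.stepA η := by
  induction l generalizing η with
  | nil => rfl
  | cons a l ih => rw [List.foldl_cons, List.map_cons, List.foldl_cons, ih, ZP.Rows.stepA_prj]

/-- stationarity -/
theorem stationary' (hd : 0 < d) (N M : ℕ)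
    (F : (Tor d q.M → ℕ) → List (Let d q.M (q.K + 1)) → ℝ≥0∞) :
    q.EE (N + M) (fun η l => F ((l.take N).foldl stepA η) (l.drop N)) = q.EE M F := by
  have h1 : q.EE (N + M) (fun η l => F ((l.take N).foldl stepA η) (l.drop N)) =
      q.EE N (fun η l => EvE q.w M (F (l.foldl stepA η))) := by
    unfold Par.EE
    refine tsum_congr fun η => ?_
    rw [EvE_append]
    refine congrArg (fun x => prw (m.m1 q.K) η * x) (EvE_congr q.w N fun l hl => ?_)
    congr 1
    funext l'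
    beta_reduce
    rw [← hl, List.take_left, List.drop_left]
  have h2 : q.EE N (fun η l => EvE q.w M (F (l.foldl stepA η))) =
      q.toZI.EE N (fun η l => EvE q.w M (F (l.foldl ZI.stepA η))) := by
    refine Eq.trans ?_ (ZP.Rows.EE_prj q hd N (fun η l => EvE q.w M (F (l.foldl ZI.stepA η))))
    simp only [foldl_prj]
  have h3 := ZI.Rows.stationary q.toZI hd N 0 (fun η _ => EvE q.w M (F η))
  have h4 : q.toZI.EE N (fun η l => EvE q.w M (F (l.foldl ZI.stepA η))) =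
      q.toZI.EE (N + 0) (fun η l => EvE q.w M (F ((l.take N).foldl ZI.stepA η))) := by
    unfold ZI.Par.EE
    refine tsum_congr fun η => ?_
    refine congrArg (fun x => prw (m.m1 q.toZI.K) η * x) (EvE_congr q.toZI.w N fun l hl => ?_)
    have h5 : l.take N = l := by rw [← hl, List.take_length]
    change EvE q.w M (F (l.foldl ZI.stepA η)) = EvE q.w M (F ((l.take N).foldl ZI.stepA η))
    rw [h5]
  exact (h1.trans h2).trans (h4.trans h3)

/-- stationarity, for an event on a window -/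
theorem PP_shift (hd : 0 < d) (S s T : ℕ) (h : s + T ≤ S)
    (B : (Tor d q.M → ℕ) → List (Let d q.M (q.K + 1)) → Prop) :
    q.PP (S * q.N1) (fun η l => B ((l.take (s * q.N1)).foldl stepA η)
      ((l.drop (s * q.N1)).take (T * q.N1))) = q.PP (T * q.N1) B := by
  obtain ⟨R, rfl⟩ : ∃ R, S = s + (T + R) := ⟨S - s - T, by omega⟩
  have h1 := stationary' q hd (s * q.N1) ((T + R) * q.N1)
    (fun η l => if B η (l.take (T * q.N1)) then 1 else 0)
  unfold Par.PP
  rw [add_mul, h1]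
  unfold Par.EE
  refine tsum_congr fun η => ?_
  congr 1
  rw [add_mul, EvE_append]
  refine EvE_congr q.w _ fun l hl => ?_
  have h2 : ∀ l' : List (Let d q.M (q.K + 1)), (l ++ l').take (T * q.N1) = l := fun l' => by
    rw [← hl]; exact List.take_left
  simp only [h2]
  exact EvE_const q.w (P2b.sum_w' q hd) _ _

end PPx

/-! ### the core -/

section PL

variable {Ω : Type} [MeasurableSpace Ω] {P : Measure Ω}

theorem core [IsProbabilityMeasure P] (hd : 0 < d) (hδ : 0 ≤ δ) (C : Clocks m δ d P) (A : ℕ) (hA : 1 ≤ A) :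
    ∃ k0 : ℕ, ∀ k ≥ k0, ∃ q : Par d m δ, q.M = (2 ^ k) ^ 4 ∧ q.Tiny (2 ^ k) ∧ ∃ ε : ℝ≥0∞,
      (((2 ^ k) ^ 2 + 1 : ℕ) : ℝ≥0∞) * ε ≤ ENNReal.ofReal (Real.exp (- Real.sqrt (rr A k)) / 2) ∧
      (∀ F : Env d → Prop, P {ω | F (EK C k ω)} ≤
        q.PP ((2 ^ k) ^ 2 * q.N1) (fun η l => F (envT q η l)) + ε) ∧
      (∀ F : Env d → Prop, q.PP ((2 ^ k) ^ 2 * q.N1) (fun η l => F (envT q η l)) ≤
        P {ω | F (EK C k ω)} + ε) := by
  obtain ⟨Ct, hCt⟩ := tv1_le m
  obtain ⟨n1, hn1⟩ := g_large m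
  obtain ⟨n2, hn2⟩ := growth_fact (Ct : ℝ) (4 * d + 3)
  obtain ⟨k0, hk0⟩ := rr_large A (n1 + n2 + 2) hA
  refine ⟨k0, fun k hk => ?_⟩
  obtain ⟨-, -, hn⟩ := hk0 k hk
  obtain ⟨-, -, hrn, -⟩ := scale_facts A k hA
  have hEK : ∀ ω, EK C k ω = envC C ((2 ^ k) ^ 4) (2 ^ k) ((2 ^ k) ^ 2) ω := fun ω => rfl
  generalize 2 ^ k = n at hn hrn hEK ⊢
  have hnpos : (2 : ℝ) ≤ n := by exact_mod_cast (by omega : 2 ≤ n)
  set x : ℝ := Real.exp (- Real.sqrt n) with hx
  have hxpos : 0 < x := Real.exp_pos _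
  have hxr : x ≤ Real.exp (- Real.sqrt (rr A k)) := by
    refine Real.exp_le_exp.2 (neg_le_neg (Real.sqrt_le_sqrt ?_))
    exact_mod_cast hrn
  set η0 : ℝ := x / (4 * ((n : ℝ) ^ 2 + 1)) with hη0
  have hη0pos : 0 < η0 := by positivity
  have hg0 : 0 ≤ m.g n := by
    have h1 := hn1 n (by omega)
    have h2 := m.φ_pos
    linarith
  set p0 : ℝ := Real.exp (-(n : ℝ)) / (((n : ℝ) ^ 4) ^ (2 * d) * (m.g n + δ + 1) ^ 2) with hp0
  have hden : 0 < ((n : ℝ) ^ 4) ^ (2 * d) * (m.g n + δ + 1) ^ 2 := by positivity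
  have hp0pos : 0 < p0 := by positivity
  obtain ⟨q, hqM, hqK, hqp, hq⟩ := transfer hd hδ C (n ^ 4) n (n ^ 2)
    (by calc 5 ≤ 2 ^ 4 := by norm_num
          _ ≤ n ^ 4 := Nat.pow_le_pow_left (by omega) 4) (by omega) (hn1 n (by omega)) η0 p0 hη0pos hp0pos
  have hTiny : q.Tiny n := by
    refine ⟨by rw [hqK], ?_⟩
    rw [hqM, hqK]
    push_cast
    calc ((n : ℝ) ^ 4) ^ (2 * d) * (m.g n + δ + 1) ^ 2 * q.p
        ≤ ((n : ℝ) ^ 4) ^ (2 * d) * (m.g n + δ + 1) ^ 2 * p0 :=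
          mul_le_mul_of_nonneg_left hqp hden.le
      _ = Real.exp (-(n : ℝ)) := by rw [hp0, mul_div_cancel₀ _ hden.ne']
  refine ⟨q, hqM, hTiny, ENNReal.ofReal η0 + ((n ^ 4 : ℕ) : ℝ≥0∞) ^ d * tv1 m n, ?_, ?_, ?_⟩
  · have h1 : ((n ^ 4 : ℕ) : ℝ≥0∞) ^ d * tv1 m n ≤
        ENNReal.ofReal ((n : ℝ) ^ (4 * d) * ((Ct : ℝ) ^ (n + 1) / n.factorial)) := by
      rw [ENNReal.ofReal_mul (by positivity)]
      refine mul_le_mul' (le_of_eq ?_) (hCt n (by omega) (hn1 n (by omega)))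
      rw [ENNReal.ofReal_pow (by positivity), ENNReal.ofReal_natCast, pow_mul]
      push_cast
      rfl
    calc ((n ^ 2 + 1 : ℕ) : ℝ≥0∞) * (ENNReal.ofReal η0 + ((n ^ 4 : ℕ) : ℝ≥0∞) ^ d * tv1 m n)
        ≤ ENNReal.ofReal ((n : ℝ) ^ 2 + 1) * (ENNReal.ofReal η0 +
          ENNReal.ofReal ((n : ℝ) ^ (4 * d) * ((Ct : ℝ) ^ (n + 1) / n.factorial))) := by
            refine mul_le_mul' (le_of_eq ?_) (add_le_add le_rfl h1)
            rw [← ENNReal.ofReal_natCast]
            push_cast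
            rfl
      _ = ENNReal.ofReal (((n : ℝ) ^ 2 + 1) * (η0 +
          (n : ℝ) ^ (4 * d) * ((Ct : ℝ) ^ (n + 1) / n.factorial))) := by
            rw [← ENNReal.ofReal_add hη0pos.le (by positivity), ← ENNReal.ofReal_mul (by positivity)]
      _ ≤ _ := by
            refine ENNReal.ofReal_le_ofReal ?_
            have h2 := hn2 n (by omega)
            have h3 : (n : ℝ) ^ 2 + 1 ≤ (n : ℝ) ^ 3 := by nlinarith
            have h4 : ((n : ℝ) ^ 2 + 1) * ((n : ℝ) ^ (4 * d) * ((Ct : ℝ) ^ (n + 1) / n.factorial)) ≤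
                (n : ℝ) ^ (4 * d + 3) * ((Ct : ℝ) ^ (n + 1) / n.factorial) := by
              rw [pow_add (n : ℝ) (4 * d) 3]
              calc ((n : ℝ) ^ 2 + 1) * ((n : ℝ) ^ (4 * d) * ((Ct : ℝ) ^ (n + 1) / n.factorial))
                  ≤ (n : ℝ) ^ 3 * ((n : ℝ) ^ (4 * d) * ((Ct : ℝ) ^ (n + 1) / n.factorial)) :=
                    mul_le_mul_of_nonneg_right h3 (by positivity)
                _ = _ := by ring
            have h5 : ((n : ℝ) ^ 2 + 1) * η0 = x / 4 := by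
              rw [hη0]
              field_simp
            calc ((n : ℝ) ^ 2 + 1) * (η0 + (n : ℝ) ^ (4 * d) * ((Ct : ℝ) ^ (n + 1) / n.factorial))
                ≤ x / 4 + x / 8 := by rw [mul_add, h5]; linarith
              _ ≤ Real.exp (- Real.sqrt (rr A k)) / 2 := by linarith
  · intro F
    have h1 := hq F
    simp only [hEK]
    rw [← add_assoc]
    exact h1
  · intro F
    have h1 := hq (fun E => ¬ F E)
    have hnm := nullMeas (P := P) hd hδ C (n ^ 4) n (n ^ 2) (Nat.one_le_pow _ _ (by omega)) F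
    have h2 : P {ω | F (EK C k ω)} + P {ω | ¬ F (EK C k ω)} = 1 := by
      simp only [hEK]
      have h3 := measure_add_measure_compl₀ (μ := P) hnm
      rw [measure_univ] at h3
      exact h3
    have h3 := PP_compl q hd (n ^ 2 * q.N1) (fun η l => F (envT q η l))
    have h4 : P {ω | ¬ F (EK C k ω)} ≤ q.PP (n ^ 2 * q.N1) (fun η l => ¬ F (envT q η l)) +
        (ENNReal.ofReal η0 + ((n ^ 4 : ℕ) : ℝ≥0∞) ^ d * tv1 m n) := by
      simp only [hEK]
      rw [← add_assoc]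
      exact h1
    have h5 : q.PP (n ^ 2 * q.N1) (fun η l => ¬ F (envT q η l)) ≠ ⊤ :=
      ne_top_of_le_ne_top ENNReal.one_ne_top (h3 ▸ le_add_self)
    have h6 : q.PP (n ^ 2 * q.N1) (fun η l => F (envT q η l)) +
        q.PP (n ^ 2 * q.N1) (fun η l => ¬ F (envT q η l)) ≤
        (P {ω | F (EK C k ω)} + (ENNReal.ofReal η0 + ((n ^ 4 : ℕ) : ℝ≥0∞) ^ d * tv1 m n)) +
        q.PP (n ^ 2 * q.N1) (fun η l => ¬ F (envT q η l)) := by
      rw [h3, ← h2]
      calc P {ω | F (EK C k ω)} + P {ω | ¬ F (EK C k ω)} ≤ P {ω | F (EK C k ω)} +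
            (q.PP (n ^ 2 * q.N1) (fun η l => ¬ F (envT q η l)) +
            (ENNReal.ofReal η0 + ((n ^ 4 : ℕ) : ℝ≥0∞) ^ d * tv1 m n)) := add_le_add le_rfl h4
        _ = _ := by ring
    exact (ENNReal.add_le_add_iff_right h5).1 h6

theorem law_tsum [IsProbabilityMeasure P] (hd : 0 < d) (hδ : 0 ≤ δ) (C : Clocks m δ d P) (k : ℕ) {Y : Type}
    [Countable Y] (f : Env d → Y) (B : Y → Prop) :
    P {ω | B (f (EK C k ω))} = ∑' y, if B y then P {ω | f (EK C k ω) = y} else 0 := by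
  have h1 : {ω | B (f (EK C k ω))} = ⋃ y, {ω | B y ∧ f (EK C k ω) = y} := by
    ext ω
    simp
  rw [h1, measure_iUnion₀]
  · refine tsum_congr fun y => ?_
    by_cases hy : B y
    · rw [if_pos hy]
      simp only [hy, true_and]
    · rw [if_neg hy]
      simp only [hy, false_and, Set.ofPred_false, measure_empty]
  · intro y y' hyy
    refine Disjoint.aedisjoint ?_
    rw [Set.disjoint_left]
    rintro ω ⟨-, h2⟩ ⟨-, h3⟩
    exact hyy (h2.symm.trans h3)
  · intro y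
    exact nullMeas (P := P) hd hδ C ((2 ^ k) ^ 4) (2 ^ k) ((2 ^ k) ^ 2) (Nat.one_le_pow _ _ (by positivity))
      (fun E => B y ∧ f E = y)

end PL

/-- the infection (constant restriction) at an integer time -/
theorem inf_eq {M K : ℕ} (N1 : ℕ) (η0 : Tor d M → ℕ) (w : List (Let d M K)) (G : Set (Pos d)) (s : ℕ)
    (A : Set (Pos d)) (j : ℕ) :
    (((w.drop (s * N1)).take (j * N1)).foldl (stepI G)
      ((w.take (s * N1)).foldl stepA η0, {z | z ∈ A ∧ z ∈ G ∧ 0 < (w.take (s * N1)).foldl stepA η0 (tv z)}))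
    = ((w.take ((s + j) * N1)).foldl stepA η0, inf nbT tv η0 (units N1 w) (fun _ => G) s A j) := by
  induction j with
  | zero =>
    simp [inf, E1.cfg_eq]
  | succ j ih =>
    rw [Nat.succ_mul, List.take_add, List.foldl_append, ih, inf, E1.cfg_eq, ZI.units, E1.foldl_filterMap]
    rw [List.drop_drop]
    have h1 : s * N1 + j * N1 = (s + j) * N1 := by ring
    rw [h1]
    have hsub : inf nbT tv η0 (units N1 w) (fun _ => G) s A j ⊆ G := by
      have h2 := E1.foldl_stepI_sub G ((w.drop (s * N1)).take (j * N1))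
        ((w.take (s * N1)).foldl stepA η0,
          {z | z ∈ A ∧ z ∈ G ∧ 0 < (w.take (s * N1)).foldl stepA η0 (tv z)}) (fun z hz => hz.2.1)
      rw [ih] at h2
      exact h2
    rw [Set.inter_eq_left.2 hsub]
    refine Prod.ext ?_ rfl
    rw [E1.foldl_stepI_fst]
    show _ = (w.take ((s + (j + 1)) * N1)).foldl stepA η0
    rw [← List.foldl_append]
    congr 1
    rw [← List.take_add]
    congr 1
    ring

/-- shift of the time, deterministic -/
theorem R_shift (q : Par d m δ) (η : Tor d q.M → ℕ) (l : List (Let d q.M (q.K + 1))) (s T t : ℕ) (ht : t ≤ T)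
    (x : Pos d) : (envT q η l).R (fun _ => Set.univ) s 0 (s + t) x ↔
      (envT q ((l.take (s * q.N1)).foldl stepA η) ((l.drop (s * q.N1)).take (T * q.N1))).R
        (fun _ => Set.univ) 0 0 t x := by
  have h1 := inf_eq q.N1 η l Set.univ s {(0 : Pos d)} t
  have h2 := inf_eq q.N1 ((l.take (s * q.N1)).foldl stepA η)
    ((l.drop (s * q.N1)).take (T * q.N1)) Set.univ 0 {(0 : Pos d)} t
  have h3 : ((l.drop (s * q.N1)).take (T * q.N1)).take (t * q.N1) =
      (l.drop (s * q.N1)).take (t * q.N1) := by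
    rw [List.take_take, min_eq_left (Nat.mul_le_mul_right _ ht)]
  rw [Nat.zero_mul, List.drop_zero, List.take_zero, List.foldl_nil, h3] at h2
  have h4 := (Prod.ext_iff.1 (h1.symm.trans h2)).2
  dsimp only at h4
  have e1 : (envT q η l).R (fun _ => Set.univ) s 0 (s + t) x ↔
      x ∈ inf nbT tv η (units q.N1 l) (fun _ => Set.univ) s {0} t := by
    constructor
    · rintro ⟨j, hj, hx⟩
      obtain rfl : t = j := by omega
      exact hx
    · intro hx
      exact ⟨t, rfl, hx⟩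
  have e2 : (envT q ((l.take (s * q.N1)).foldl stepA η) ((l.drop (s * q.N1)).take (T * q.N1))).R
        (fun _ => Set.univ) 0 0 t x ↔
      x ∈ inf nbT tv ((l.take (s * q.N1)).foldl stepA η)
        (units q.N1 ((l.drop (s * q.N1)).take (T * q.N1))) (fun _ => Set.univ) 0 {0} t := by
    constructor
    · rintro ⟨j, hj, hx⟩
      obtain rfl : t = j := by omega
      exact hx
    · intro hx
      exact ⟨t, by omega, hx⟩
  rw [e1, e2, h4]


end ZP.F1a

namespace ZP.Rows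

open ZP ZP.F1a
open ZI.F1a (growth_fact exp_lin scale_facts rr_large g_large)
open ZI.Rows (prodQ_tv)

variable {d : ℕ} {m : Model} {δ : ℝ} {Ω : Type} [MeasurableSpace Ω] {P : Measure Ω}

theorem sys_good [IsProbabilityMeasure P] (hδ : 0 ≤ δ) (C : Clocks m δ d P) {Cv a A r0 : ℕ} {c : ℝ}
    (hB : Base m δ d Cv a A r0 c) : ∃ k0 : ℕ, ∀ k ≥ k0,
    P {ω | ¬ GoodK a A Cv k (EK C k ω)} ≤ err (rr A k) := by
  have hA : 1 ≤ A := by have := hB.A_big; have := hB.a_big; omega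
  obtain ⟨k1, hk1⟩ := core hB.d_pos hδ C A hA
  obtain ⟨r1, hr1⟩ := exp_lin c hB.c_pos
  obtain ⟨k2, hk2⟩ := rr_large A (r0 + r1) hA
  refine ⟨max k1 k2, fun k hk => ?_⟩
  obtain ⟨q, hqM, hqT, ε, hε, hq, -⟩ := hk1 k (le_of_max_le_left hk)
  obtain ⟨hr, -, -⟩ := hk2 k (le_of_max_le_right hk)
  obtain ⟨hs1, hs2, hs3, hs4⟩ := scale_facts A k hA
  have h1 := hq (fun E => ¬ GoodK a A Cv k E)
  have h2 := hB.good (rr A k) (by omega) (2 ^ k) hs1 hs2 q hqM hqT
  have h3 := hr1 (rr A k) (by omega)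
  refine le_trans h1 ?_
  have h4 : ε ≤ ENNReal.ofReal (Real.exp (- Real.sqrt (rr A k)) / 2) := by
    refine le_trans ?_ hε
    calc ε = 1 * ε := (one_mul _).symm
      _ ≤ _ := by
        gcongr
        exact_mod_cast (by omega : 1 ≤ (2 ^ k) ^ 2 + 1)
  calc q.PP ((2 ^ k) ^ 2 * q.N1) (fun η l => ¬ GoodK a A Cv k (envT q η l)) + ε
      ≤ ENNReal.ofReal (Real.exp (- Real.sqrt (rr A k)) / 2) +
        ENNReal.ofReal (Real.exp (- Real.sqrt (rr A k)) / 2) :=
        add_le_add (le_trans h2 (ENNReal.ofReal_le_ofReal h3)) h4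
    _ = err (rr A k) := by
      rw [← ENNReal.ofReal_add (by positivity) (by positivity), add_halves]
      rfl

theorem sys_tsumQ [IsProbabilityMeasure P] (hd : 0 < d) (hδ : 0 ≤ δ) (C : Clocks m δ d P) (a A k : ℕ)
    (u : Fin d → ℝ) (m' : ℕ) : ∑' y, QK P (EK C) a A k u m' y = 1 := by
  have h1 := law_tsum (P := P) hd hδ C k (fun E => E.blk (PK d a A k) u m' 0 (kp a A k)) (fun _ => True)
  simp only [if_true, Set.ofPred_true, measure_univ] at h1
  exact h1.symm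

/-- `sys_chain`, from the statement of row E6 -/
theorem sys_chain_of [IsProbabilityMeasure P] (hδ : 0 ≤ δ) (C : Clocks m δ d P) {Cv a A r0 : ℕ} {c : ℝ}
    (hB : Base m δ d Cv a A r0 c)
    (hchain : ∃ r1 ≥ r0, ∀ r ≥ r1,
      ∀ n : ℕ, r ^ A ≤ n → n ≤ (2 * r) ^ A → ∀ q : Par d m δ, q.M = n ^ 4 → q.Tiny n →
      ∀ (u : Fin d → ℝ), ∑ j, u j ^ 2 = 1 → ∀ ms : List ℕ, (∀ m' ∈ ms, r ^ (7 * a) ≤ m') →
      ms.sum ≤ r * n → ∀ (z : Pos d) (s : ℕ), r ^ a ≤ s → 2 * s ≤ n ^ 2 → ∀ G : List (ℕ × Pos d) → Prop,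
      2 * q.PP (n ^ 2 * q.N1) (fun η l => G ((envT q η l).chain (bp d a r n) u ms z s)) ≤
        2 * prodQ (QT q (bp d a r n) u n) ms G + err r) : ∃ k0 : ℕ, ∀ k ≥ k0,
    ∀ u : Fin d → ℝ, ∑ j, u j ^ 2 = 1 → ∀ ms : List ℕ,
    (∀ m' ∈ ms, rr A k ^ (7 * a) ≤ m') → ms.sum ≤ rr A k * 2 ^ k → ∀ (z : Pos d) (s : ℕ),
    kp a A k ≤ s → 2 * s ≤ (2 ^ k) ^ 2 → ∀ G : List (ℕ × Pos d) → Prop,
    P {ω | G ((EK C k ω).chain (PK d a A k) u ms z s)} ≤
      prodQ (QK P (EK C) a A k u) ms G + err (rr A k) := by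
  have hA : 1 ≤ A := by have := hB.A_big; have := hB.a_big; omega
  obtain ⟨k1, hk1⟩ := core hB.d_pos hδ C A hA
  obtain ⟨r1, -, hr1⟩ := hchain
  obtain ⟨k2, hk2⟩ := rr_large A r1 hA
  refine ⟨max k1 k2, fun k hk u hu ms hms hsum z s hs0 hs G => ?_⟩
  obtain ⟨q, hqM, hqT, ε, hε, hq, hq'⟩ := hk1 k (le_of_max_le_left hk)
  obtain ⟨hr, -, -⟩ := hk2 k (le_of_max_le_right hk)
  obtain ⟨hs1, hs2, hs3, hs4⟩ := scale_facts A k hA
  have h1 := hq (fun E => G (E.chain (PK d a A k) u ms z s))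
  have h2 := hr1 (rr A k) hr (2 ^ k) hs1 hs2 q hqM hqT u hu ms hms hsum z s hs0 hs G
  have h3 := prodQ_tv (QT q (bp d a (rr A k) (2 ^ k)) u (2 ^ k)) (QK P (EK C) a A k u)
    (fun m' => by
      have h4 := PP_tsum q ((2 ^ k) ^ 2 * q.N1)
        (fun η l => (envT q η l).blk (bp d a (rr A k) (2 ^ k)) u m' 0 (kp a A k)) (fun _ => True)
      rw [PP_true q hB.d_pos] at h4
      simp only [if_true] at h4
      exact h4.symm)
    (fun m' => sys_tsumQ hB.d_pos hδ C a A k u m') ε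
    (fun m' B => by
      have h4 := PP_tsum q ((2 ^ k) ^ 2 * q.N1)
        (fun η l => (envT q η l).blk (bp d a (rr A k) (2 ^ k)) u m' 0 (kp a A k)) B
      have h5 := law_tsum (P := P) hB.d_pos hδ C k (fun E => E.blk (PK d a A k) u m' 0 (kp a A k)) B
      have h6 := hq' (fun E => B (E.blk (PK d a A k) u m' 0 (kp a A k)))
      exact (h4.symm.trans_le h6).trans (add_le_add (le_of_eq h5) le_rfl)) ms G
  have hlen : ms.length ≤ (2 ^ k) ^ 2 := by
    have h4 : ∀ l : List ℕ, (∀ m' ∈ l, 1 ≤ m') → l.length ≤ l.sum := by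
      intro l
      induction l with
      | nil => intro _; simp
      | cons b l ih =>
        intro h
        have h5 := ih (fun x hx => h x (List.mem_cons_of_mem _ hx))
        have h6 := h b List.mem_cons_self
        simp only [List.length_cons, List.sum_cons]
        omega
    have h5 := h4 ms (fun m' hm' => le_trans (Nat.one_le_pow _ _ (by omega)) (hms m' hm'))
    calc ms.length ≤ ms.sum := h5
      _ ≤ rr A k * 2 ^ k := hsum
      _ ≤ 2 ^ k * 2 ^ k := Nat.mul_le_mul_right _ hs3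
      _ = (2 ^ k) ^ 2 := by ring
  have h7 : (ms.length : ℝ≥0∞) * ε + ε ≤ ENNReal.ofReal (Real.exp (- Real.sqrt (rr A k)) / 2) := by
    refine le_trans ?_ hε
    calc (ms.length : ℝ≥0∞) * ε + ε = ((ms.length + 1 : ℕ) : ℝ≥0∞) * ε := by push_cast; ring
      _ ≤ _ := by
        gcongr
  have h8 : 2 * ENNReal.ofReal (Real.exp (- Real.sqrt (rr A k)) / 2) = err (rr A k) := by
    rw [two_mul, ← ENNReal.ofReal_add (by positivity) (by positivity), add_halves]
    rfl
  have h9 : 2 * P {ω | G ((EK C k ω).chain (PK d a A k) u ms z s)} ≤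
      2 * (prodQ (QK P (EK C) a A k u) ms G + err (rr A k)) := by
    calc 2 * P {ω | G ((EK C k ω).chain (PK d a A k) u ms z s)}
        ≤ 2 * (q.PP ((2 ^ k) ^ 2 * q.N1)
          (fun η l => G ((envT q η l).chain (PK d a A k) u ms z s)) + ε) := by gcongr
      _ = 2 * q.PP ((2 ^ k) ^ 2 * q.N1)
          (fun η l => G ((envT q η l).chain (PK d a A k) u ms z s)) + 2 * ε := by ring
      _ ≤ (2 * prodQ (QT q (bp d a (rr A k) (2 ^ k)) u (2 ^ k)) ms G + err (rr A k)) + 2 * ε := by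
          gcongr
          exact h2
      _ ≤ (2 * (prodQ (QK P (EK C) a A k u) ms G + ms.length * ε) + err (rr A k)) + 2 * ε := by
          gcongr
      _ = 2 * prodQ (QK P (EK C) a A k u) ms G + err (rr A k) +
          2 * ((ms.length : ℝ≥0∞) * ε + ε) := by ring
      _ ≤ 2 * prodQ (QK P (EK C) a A k u) ms G + err (rr A k) +
          2 * ENNReal.ofReal (Real.exp (- Real.sqrt (rr A k)) / 2) := by gcongr
      _ = 2 * (prodQ (QK P (EK C) a A k u) ms G + err (rr A k)) := by rw [h8]; ring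
  exact (ENNReal.mul_le_mul_iff_right (by norm_num) (by norm_num)).1 h9

theorem sys_shift [IsProbabilityMeasure P] (hd : 0 < d) (hδ : 0 ≤ δ) (C : Clocks m δ d P) (A : ℕ) (hA : 1 ≤ A) :
    ∃ k0 : ℕ, ∀ k ≥ k0, ∀ s0 T : ℕ, s0 + T ≤ (2 ^ k) ^ 2 → ∀ H : (ℕ → Set (Pos d)) → Prop,
    P {ω | H (fun t => {x | t ≤ T ∧ (EK C k ω).R (fun _ => Set.univ) 0 0 t x})} ≤
      P {ω | H (fun t => {x | t ≤ T ∧ (EK C k ω).R (fun _ => Set.univ) s0 0 (s0 + t) x})} +
        err (rr A k) := by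
  obtain ⟨k1, hk1⟩ := core hd hδ C A hA
  refine ⟨k1, fun k hk s0 T hT H => ?_⟩
  obtain ⟨q, hqM, hqT, ε, hε, hq, hq'⟩ := hk1 k hk
  have h1 := hq (fun E => H (fun t => {x | t ≤ T ∧ E.R (fun _ => Set.univ) 0 0 t x}))
  have h2 := hq' (fun E => H (fun t => {x | t ≤ T ∧ E.R (fun _ => Set.univ) s0 0 (s0 + t) x}))
  have key : ∀ s : ℕ, s + T ≤ (2 ^ k) ^ 2 → q.PP ((2 ^ k) ^ 2 * q.N1)
      (fun η l => H (fun t => {x | t ≤ T ∧ (envT q η l).R (fun _ => Set.univ) s 0 (s + t) x})) =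
      q.PP (T * q.N1)
        (fun η l => H (fun t => {x | t ≤ T ∧ (envT q η l).R (fun _ => Set.univ) 0 0 t x})) := by
    intro s hs
    rw [← PP_shift q hd ((2 ^ k) ^ 2) s T hs]
    congr 1
    funext η l
    congr 1
    funext t
    ext x
    simp only [Set.mem_ofPred_eq]
    constructor
    · rintro ⟨ht, hx⟩
      exact ⟨ht, (R_shift q η l s T t ht x).1 hx⟩
    · rintro ⟨ht, hx⟩
      exact ⟨ht, (R_shift q η l s T t ht x).2 hx⟩
  have h3 := key 0 (by omega)
  have h4 := key s0 hT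
  simp only [Nat.zero_add] at h3
  rw [← h4] at h3
  have h5 : ε + ε ≤ err (rr A k) := by
    have h6 : (ε + ε : ℝ≥0∞) ≤ (((2 ^ k) ^ 2 + 1 : ℕ) : ℝ≥0∞) * ε := by
      rw [← two_mul]
      gcongr
      have : 1 ≤ (2 ^ k) ^ 2 := Nat.one_le_pow _ _ (by positivity)
      exact_mod_cast (by omega : 2 ≤ (2 ^ k) ^ 2 + 1)
    refine le_trans h6 (le_trans hε ?_)
    unfold err
    refine ENNReal.ofReal_le_ofReal ?_
    have := Real.exp_pos (- Real.sqrt (rr A k))
    linarith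
  calc P {ω | H (fun t => {x | t ≤ T ∧ (EK C k ω).R (fun _ => Set.univ) 0 0 t x})}
      ≤ q.PP ((2 ^ k) ^ 2 * q.N1) (fun η l => H (fun t =>
          {x | t ≤ T ∧ (envT q η l).R (fun _ => Set.univ) 0 0 t x})) + ε := h1
    _ = q.PP ((2 ^ k) ^ 2 * q.N1) (fun η l => H (fun t =>
          {x | t ≤ T ∧ (envT q η l).R (fun _ => Set.univ) s0 0 (s0 + t) x})) + ε := by rw [h3]
    _ ≤ (P {ω | H (fun t => {x | t ≤ T ∧
          (EK C k ω).R (fun _ => Set.univ) s0 0 (s0 + t) x})} + ε) + ε := by gcongr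
    _ ≤ _ := by
      rw [add_assoc]
      gcongr

end ZP.Rows
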