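import Pool.Agent.ZP.ProcE
import Pool.Agent.ZP.PJ
import Pool.Agent.ZP.E1
import Pool.Agent.ZI.CK

/-! # Row CK: the level cap (with recovery); port of ZI/CK -/

set_option autoImplicit false

open scoped ENNReal BigOperators Classical

noncomputable section

namespace ZP.CK

open ZP

variable {d : ℕ}

/-! ### labels that are dropped and never effective -/

section general

variable {V : Type}

/-- a jump label that is not effective -/
def NE (η : V → ℕ) (b : Lab V d) : Prop := ∃ k, b.2.1 = k + 1 ∧ ¬ k < η b.1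

/-- along the list of labels started from `η`, the labels that violate `Q` are not effective -/
def OKL (nb : V → Dir d → Option V) (Q : Lab V d → Bool) : (V → ℕ) → List (Lab V d) → Prop
  | _, [] => True
  | η, b :: L => (¬ Q b = true → NE η b) ∧ OKL nb Q (mv nb η b) L

theorem mv_neff (nb : V → Dir d → Option V) (η : V → ℕ) (b : Lab V d) (h : NE η b) :
    mv nb η b = η := by
  obtain ⟨x, j, e⟩ := b
  obtain ⟨k, hk, h⟩ := h
  change j = k + 1 at hk
  subst hk
  exact ZI.CK.mv_neff nb η (x, k, e) h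

theorem stepR_neff (nb : V → Dir d → Option V) (pr : Pos d → V) (G : Set (Pos d))
    (s : (V → ℕ) × Set (Pos d)) (hs : s.2 ⊆ G) (b : Lab V d) (h : NE s.1 b) :
    stepR nb pr G s b = s := by
  obtain ⟨x, j, e⟩ := b
  obtain ⟨k, hk, h⟩ := h
  change j = k + 1 at hk
  subst hk
  exact ZI.CK.stepR_neff nb pr G s hs (x, k, e) h

theorem filter_mv (nb : V → Dir d → Option V) (Q : Lab V d → Bool) (L : List (Lab V d)) :
    ∀ η : V → ℕ, OKL nb Q η L →
      (L.filter Q).foldl (mv nb) η = L.foldl (mv nb) η := by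
  induction L with
  | nil => exact fun _ _ => rfl
  | cons b L ih =>
    intro η h
    by_cases hb : Q b = true
    · rw [List.filter_cons_of_pos hb, List.foldl_cons, List.foldl_cons]
      exact ih _ h.2
    · rw [List.filter_cons_of_neg hb, List.foldl_cons]
      rw [mv_neff nb η b (h.1 hb)]
      refine ih _ ?_
      have h2 := h.2
      rwa [mv_neff nb η b (h.1 hb)] at h2

theorem filter_stepR (nb : V → Dir d → Option V) (pr : Pos d → V) (Q : Lab V d → Bool)
    (G : Set (Pos d)) (L : List (Lab V d)) :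
    ∀ s : (V → ℕ) × Set (Pos d), s.2 ⊆ G → OKL nb Q s.1 L →
      (L.filter Q).foldl (stepR nb pr G) s = L.foldl (stepR nb pr G) s := by
  induction L with
  | nil => exact fun _ _ _ => rfl
  | cons b L ih =>
    intro s hs h
    by_cases hb : Q b = true
    · rw [List.filter_cons_of_pos hb, List.foldl_cons, List.foldl_cons]
      exact ih _ Set.inter_subset_right h.2
    · rw [List.filter_cons_of_neg hb, List.foldl_cons]
      rw [stepR_neff nb pr G s hs b (h.1 hb)]
      refine ih _ hs ?_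
      have h2 := h.2
      rwa [mv_neff nb s.1 b (h.1 hb)] at h2

/-- the sites visited along a list -/
def visL (nb : V → Dir d → Option V) (pr : Pos d → V) (G : Set (Pos d))
    (s : (V → ℕ) × Set (Pos d)) (L : List (Lab V d)) : Set (Pos d) :=
  {z | ∃ i ≤ L.length, z ∈ ((L.take i).foldl (stepR nb pr G) s).2}

theorem visL_cons (nb : V → Dir d → Option V) (pr : Pos d → V) (G : Set (Pos d))
    (s : (V → ℕ) × Set (Pos d)) (b : Lab V d) (L : List (Lab V d)) :
    visL nb pr G s (b :: L) = s.2 ∪ visL nb pr G (stepR nb pr G s b) L := by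
  unfold visL
  ext z
  simp only [Set.mem_setOf_eq, Set.mem_union]
  constructor
  · rintro ⟨i, hi, hz⟩
    cases i with
    | zero =>
      left
      simpa using hz
    | succ i =>
      right
      refine ⟨i, by simpa using hi, ?_⟩
      simpa using hz
  · rintro (hz | ⟨i, hi, hz⟩)
    · exact ⟨0, Nat.zero_le _, by simpa using hz⟩
    · exact ⟨i + 1, by simpa using hi, by simpa using hz⟩

theorem sub_visL (nb : V → Dir d → Option V) (pr : Pos d → V) (G : Set (Pos d))
    (s : (V → ℕ) × Set (Pos d)) (L : List (Lab V d)) : s.2 ⊆ visL nb pr G s L := by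
  intro z hz
  exact ⟨0, Nat.zero_le _, by simpa using hz⟩

theorem filter_visL (nb : V → Dir d → Option V) (pr : Pos d → V) (Q : Lab V d → Bool)
    (G : Set (Pos d)) (L : List (Lab V d)) :
    ∀ s : (V → ℕ) × Set (Pos d), s.2 ⊆ G → OKL nb Q s.1 L →
      visL nb pr G s (L.filter Q) = visL nb pr G s L := by
  induction L with
  | nil => exact fun _ _ _ => rfl
  | cons b L ih =>
    intro s hs h
    by_cases hb : Q b = true
    · rw [List.filter_cons_of_pos hb, visL_cons, visL_cons]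
      rw [ih _ Set.inter_subset_right h.2]
    · rw [List.filter_cons_of_neg hb, visL_cons]
      rw [stepR_neff nb pr G s hs b (h.1 hb)]
      have h2 := h.2
      rw [mv_neff nb s.1 b (h.1 hb)] at h2
      rw [ih s hs h2, Set.union_eq_self_of_subset_left (sub_visL nb pr G s L)]

end general

/-- dropping labels that are never effective changes nothing -/
theorem eqEnv_cap (E : Env d) (K : ℕ)
    (h : ∀ t, OKL E.nb (fun b => decide (b.2.1 < K + 1)) (cfg E.nb E.η0 E.U t) (E.U t)) :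
    EqEnv E (capE K E) := by
  have hc : ∀ t, cfg E.nb E.η0 (capE K E).U t = cfg E.nb E.η0 E.U t := by
    intro t
    induction t with
    | zero => rfl
    | succ t ih =>
      show ((E.U t).filter (fun b => decide (b.2.1 < K + 1))).foldl (mv E.nb)
        (cfg E.nb E.η0 (capE K E).U t) = (E.U t).foldl (mv E.nb) (cfg E.nb E.η0 E.U t)
      rw [ih]
      exact filter_mv E.nb (fun b => decide (b.2.1 < K + 1)) (E.U t) _ (h t)
  have hi : ∀ (G : ℕ → Set (Pos d)) (s : ℕ) (A : Set (Pos d)) (j : ℕ),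
      inf E.nb E.pr E.η0 (capE K E).U G s A j = inf E.nb E.pr E.η0 E.U G s A j := by
    intro G s A j
    induction j with
    | zero =>
      show {z | z ∈ A ∧ z ∈ G s ∧ 0 < cfg E.nb E.η0 (capE K E).U s (E.pr z)} = _
      rw [hc s]
      rfl
    | succ j ih =>
      show (((E.U (s + j)).filter (fun b => decide (b.2.1 < K + 1))).foldl
        (stepR E.nb E.pr (G (s + j)))
        (cfg E.nb E.η0 (capE K E).U (s + j), inf E.nb E.pr E.η0 (capE K E).U G s A j ∩ G (s + j))).2 =
        _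
      rw [ih, hc]
      exact congrArg Prod.snd (filter_stepR E.nb E.pr (fun b => decide (b.2.1 < K + 1)) (G (s + j))
        (E.U (s + j))
        (cfg E.nb E.η0 E.U (s + j), inf E.nb E.pr E.η0 E.U G s A j ∩ G (s + j))
        Set.inter_subset_right (h (s + j)))
  refine ⟨fun t x => ?_, fun G s A j => (hi G s A j).symm, fun G s A j => ?_⟩
  · show 0 < cfg E.nb E.η0 E.U t (E.pr x) ↔ 0 < cfg E.nb E.η0 (capE K E).U t (E.pr x)
    rw [hc]
  · show visL E.nb E.pr (G (s + j)) (cfg E.nb E.η0 E.U (s + j),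
        inf E.nb E.pr E.η0 E.U G s A j ∩ G (s + j)) (E.U (s + j)) =
      visL E.nb E.pr (G (s + j)) (cfg E.nb E.η0 (capE K E).U (s + j),
        inf E.nb E.pr E.η0 (capE K E).U G s A j ∩ G (s + j))
        ((E.U (s + j)).filter (fun b => decide (b.2.1 < K + 1)))
    rw [hi, hc]
    exact (filter_visL E.nb E.pr (fun b => decide (b.2.1 < K + 1)) (G (s + j)) (E.U (s + j))
        (cfg E.nb E.η0 E.U (s + j), inf E.nb E.pr E.η0 E.U G s A j ∩ G (s + j))
        Set.inter_subset_right (h (s + j))).symm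

/-! ### the killed box is below the torus -/

open ZI.CK (Inv)

theorem inv_step_some {M : ℕ} {R : ℕ} (hM : 2 * R < M) (ξ : Pos d → ℕ) (η : Tor d M → ℕ)
    (h : Inv R ξ η) (x' : Pos d) (b : Lab (Tor d M) d) (hx' : supn x' ≤ R) (hb : tv x' = b.1) :
    Inv R (mv (nbB R) ξ (x', b.2)) (mv nbT η b) := by
  obtain ⟨x, j, e⟩ := b
  cases j with
  | zero => exact h
  | succ k => exact ZI.CK.inv_step_some hM ξ η h x' (x, k, e) hx' hb

theorem inv_step_none {M : ℕ} {R : ℕ} (hM : 2 ≤ M) (ξ : Pos d → ℕ) (η : Tor d M → ℕ)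
    (h : Inv R ξ η) (b : Lab (Tor d M) d) (hb : ¬ ∃ x : Pos d, supn x ≤ R ∧ tv x = b.1) :
    Inv R ξ (mv nbT η b) := by
  obtain ⟨x, j, e⟩ := b
  cases j with
  | zero => exact h
  | succ k => exact ZI.CK.inv_step_none hM ξ η h (x, k, e) hb

theorem kp_fold {M : ℕ} {R : ℕ} (hM2 : 2 ≤ M) (hM : 2 * R < M) (K : ℕ)
    (L : List (Lab (Tor d M) d)) :
    ∀ (ξ : Pos d → ℕ) (η : Tor d M → ℕ), Inv R ξ η →
      OKL nbT (fun b => decide (b.2.1 < K + 1)) η L →
      OKL (nbB R) (fun b => decide (b.2.1 < K + 1)) ξ (L.filterMap (ZI.CK.kp R)) ∧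
        Inv R ((L.filterMap (ZI.CK.kp R)).foldl (mv (nbB R)) ξ) (L.foldl (mv nbT) η) := by
  induction L with
  | nil => exact fun ξ η h _ => ⟨trivial, h⟩
  | cons b L ih =>
    intro ξ η h hO
    by_cases hb : ∃ x : Pos d, supn x ≤ R ∧ tv x = b.1
    · obtain ⟨h1, h2⟩ := hb.choose_spec
      have h3 : ZI.CK.kp R b = some (hb.choose, b.2) := by
        unfold ZI.CK.kp
        rw [dif_pos hb]
      rw [List.filterMap_cons_some h3, List.foldl_cons, List.foldl_cons]
      obtain ⟨h4, h5⟩ := ih (mv (nbB R) ξ (hb.choose, b.2)) (mv nbT η b)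
        (inv_step_some hM ξ η h hb.choose b h1 h2) hO.2
      refine ⟨⟨fun hQ => ?_, h4⟩, h5⟩
      obtain ⟨k, hk, hlt⟩ := hO.1 hQ
      refine ⟨k, hk, fun h7 => hlt (lt_of_lt_of_le h7 ?_)⟩
      have h6 := h.1 _ h1
      rwa [h2] at h6
    · have h3 : ZI.CK.kp R b = none := by
        unfold ZI.CK.kp
        rw [dif_neg hb]
      rw [List.filterMap_cons_none h3, List.foldl_cons]
      exact ih ξ (mv nbT η b) (inv_step_none hM2 ξ η h b hb) hO.2

/-- the killed system at the integer times, and the labels that are not effective -/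
theorem kill_cfg {M : ℕ} {R : ℕ} (hM2 : 2 ≤ M) (hM : 2 * R < M) (K : ℕ) (η0 : Tor d M → ℕ)
    (U : ℕ → List (Lab (Tor d M) d))
    (h : ∀ t, OKL nbT (fun b => decide (b.2.1 < K + 1)) (cfg nbT η0 U t) (U t)) (t : ℕ) :
    Inv R (cfg (nbB R) (fun x => if supn x ≤ R then η0 (tv x) else 0)
      (fun t => (U t).filterMap (ZI.CK.kp R)) t) (cfg nbT η0 U t) := by
  induction t with
  | zero =>
    refine ⟨fun x hx => ?_, fun x hx => ?_⟩
    · show (if supn x ≤ R then η0 (tv x) else 0) ≤ η0 (tv x)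
      rw [if_pos hx]
    · show (if supn x ≤ R then η0 (tv x) else 0) = 0
      rw [if_neg (by omega)]
  | succ t ih => exact (kp_fold hM2 hM K (U t) _ _ ih (h t)).2

theorem kill_OKL {M : ℕ} {R : ℕ} (hM2 : 2 ≤ M) (hM : 2 * R < M) (K : ℕ) (η0 : Tor d M → ℕ)
    (U : ℕ → List (Lab (Tor d M) d))
    (h : ∀ t, OKL nbT (fun b => decide (b.2.1 < K + 1)) (cfg nbT η0 U t) (U t)) (t : ℕ) :
    OKL (nbB R) (fun b => decide (b.2.1 < K + 1))
      (cfg (nbB R) (fun x => if supn x ≤ R then η0 (tv x) else 0)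
      (fun t => (U t).filterMap (ZI.CK.kp R)) t) ((U t).filterMap (ZI.CK.kp R)) :=
  (kp_fold hM2 hM K (U t) _ _ (kill_cfg hM2 hM K η0 U h t) (h t)).1

/-! ### the bad event -/

theorem okl_of_not_bad {M K : ℕ} (K' : ℕ) (l : List (Let d M (K + 1))) :
    ∀ η : Tor d M → ℕ, ¬ ZI.CK.Bad K' η (l.map prj) →
      OKL nbT (fun b => decide (b.2.1 < K' + 1)) η (l.filterMap toLab) := by
  induction l with
  | nil => exact fun _ _ => trivial
  | cons a l ih =>
    intro η h
    rw [List.map_cons] at h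
    simp only [ZI.CK.Bad] at h
    push Not at h
    have h0 : ZI.stepA η (prj a) = stepA η a := (Rows.stepA_prj η a).symm
    cases a with
    | none =>
      have h1 := ih _ h.2
      rw [h0] at h1
      exact h1
    | some b =>
      obtain ⟨x, ⟨j, hj⟩, e⟩ := b
      have ha : toLab (some (x, ⟨j, hj⟩, e) : Let d M (K + 1)) = some (x, j, e) := rfl
      rw [List.filterMap_cons_some ha]
      refine ⟨fun hQ => ?_, ?_⟩
      · have h2 : K' + 1 ≤ j := by simpa using hQ
        obtain ⟨k, rfl⟩ : ∃ k, j = k + 1 := ⟨j - 1, by omega⟩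
        refine ⟨k, rfl, ?_⟩
        have h3 := h.1 (x, k, e) rfl (by show K' ≤ k; omega)
        show ¬ k < η x
        exact not_lt.2 h3
      · have h1 := ih _ h.2
        rw [h0] at h1
        exact h1

variable {m : Model} {δ : ℝ} (q : Par d m δ)

theorem okl_units (K' : ℕ) (η : Tor d q.M → ℕ) (l : List (Let d q.M (q.K + 1)))
    (h : ¬ ZI.CK.Bad K' η (l.map prj)) (t : ℕ) :
    OKL nbT (fun b => decide (b.2.1 < K' + 1)) (cfg nbT η (units q.N1 l) t) (units q.N1 l t) := by
  rw [E1.cfg_eq]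
  refine okl_of_not_bad K' _ _ fun h1 => h ?_
  have h2 : ∀ (L : List (Let d q.M (q.K + 1))) (η : Tor d q.M → ℕ),
      L.foldl stepA η = (L.map prj).foldl ZI.stepA η := by
    intro L
    induction L with
    | nil => exact fun _ => rfl
    | cons a L ih =>
      intro η
      rw [List.foldl_cons, List.map_cons, List.foldl_cons, ih, Rows.stepA_prj]
  rw [← List.take_append_drop (t * q.N1) l, List.map_append, ZI.CK.bad_append]
  right
  rw [← h2, ← List.take_append_drop q.N1 (l.drop (t * q.N1)), List.map_append, ZI.CK.bad_append]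
  exact Or.inl h1

/-- without the bad event nothing changes -/
theorem det (K' : ℕ) (η : Tor d q.M → ℕ) (l : List (Let d q.M (q.K + 1)))
    (h : ¬ ZI.CK.Bad K' η (l.map prj)) :
    EqEnv (envT q η l) (capE K' (envT q η l)) ∧
      ∀ R : ℕ, 2 * R + 2 ≤ q.M →
        EqEnv (kill R (envT q η l)) (kill R (capE K' (envT q η l))) := by
  have hO := okl_units q K' η l h
  refine ⟨eqEnv_cap _ _ hO, fun R hR => ?_⟩
  have h1 : kill R (capE K' (envT q η l)) = capE K' (kill R (envT q η l)) := by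
    unfold kill capE
    congr 1
    funext t
    exact ZI.CK.filterMap_filter_comm R (K' + 1) (units q.N1 l t)
  rw [h1]
  refine eqEnv_cap _ _ fun t => ?_
  have hM := q.M_ge
  exact kill_OKL (by omega) (by omega) K' η (units q.N1 l) hO t

end ZP.CK

namespace ZP.Rows

open ZP

theorem cap_agree (m : Model) (δ : ℝ) (d : ℕ) (hd : 0 < d) : ∃ C : ℕ, ∀ q : Par d m δ, ∀ K' T : ℕ,
    2 * m.φ ≤ m.g K' →
    q.PP (T * q.N1) (fun η l => ¬ (EqEnv (envT q η l) (capE K' (envT q η l)) ∧
      ∀ R : ℕ, 2 * R + 2 ≤ q.M → EqEnv (kill R (envT q η l)) (kill R (capE K' (envT q η l))))) ≤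
      ENNReal.ofReal (T * (q.M : ℝ) ^ d * (C : ℝ) ^ (K' + 1) / K'.factorial) := by
  obtain ⟨C, hC⟩ := exists_nat_ge (max (2 * m.φ) (m.φ / m.Gm))
  refine ⟨C, fun q K' T hK' => ?_⟩
  have hφ := m.φ_pos
  have hG := m.Gm_pos
  have hp := q.p_pos
  have h1 : q.PP (T * q.N1) (fun η l => ¬ (EqEnv (envT q η l) (capE K' (envT q η l)) ∧
      ∀ R : ℕ, 2 * R + 2 ≤ q.M → EqEnv (kill R (envT q η l)) (kill R (capE K' (envT q η l))))) ≤
      q.PP (T * q.N1) (fun η l => ZI.CK.Bad K' η (l.map prj)) := by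
    have key : ∀ (N : ℕ) (F G : (Tor d q.M → ℕ) → List (Let d q.M (q.K + 1)) → Prop),
        (∀ η l, F η l → G η l) → q.PP N F ≤ q.PP N G := by
      intro N F G h
      refine ENNReal.tsum_le_tsum fun η => mul_le_mul_right (ZI.EvE_mono q.w _ fun l _ => ?_) _
      show (if F η l then (1 : ℝ≥0∞) else 0) ≤ (if G η l then 1 else 0)
      by_cases hF : F η l
      · rw [if_pos hF, if_pos (h η l hF)]
      · rw [if_neg hF]
        exact zero_le
    refine key _ _ _ fun η l h => ?_
    by_contra h3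
    exact h (CK.det q K' η l h3)
  refine h1.trans ?_
  rw [PP_prj q hd]
  refine (ZI.CK.PP_bad q.toZI hd K' (T * q.N1)).trans ?_
  refine (mul_le_mul_right (ZI.CK.mean_D q.toZI hd K' hK') _).trans ?_
  show ((T * q.N1 : ℕ) : ℝ≥0∞) * ((q.M : ℝ≥0∞) ^ d * (ENNReal.ofReal q.p *
      ENNReal.ofReal m.φ * (2 * ENNReal.ofReal ((m.φ / m.Gm) ^ K' / K'.factorial)))) ≤ _
  have h2 : ((T * q.N1 : ℕ) : ℝ≥0∞) * ((q.M : ℝ≥0∞) ^ d * (ENNReal.ofReal q.p *
      ENNReal.ofReal m.φ * (2 * ENNReal.ofReal ((m.φ / m.Gm) ^ K' / K'.factorial)))) =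
      ENNReal.ofReal (((T * q.N1 : ℕ) : ℝ) * ((q.M : ℝ) ^ d * (q.p * m.φ *
        (2 * ((m.φ / m.Gm) ^ K' / K'.factorial))))) := by
    rw [ENNReal.ofReal_mul (by positivity), ENNReal.ofReal_natCast,
      ENNReal.ofReal_mul (by positivity), ENNReal.ofReal_pow (by positivity),
      ENNReal.ofReal_natCast, ENNReal.ofReal_mul (by positivity),
      ENNReal.ofReal_mul (by positivity), ENNReal.ofReal_mul (by positivity),
      ENNReal.ofReal_ofNat]
  rw [h2]
  refine ENNReal.ofReal_le_ofReal ?_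
  have h3 : 2 * m.φ ≤ C := (le_max_left _ _).trans hC
  have h4 : m.φ / m.Gm ≤ C := (le_max_right _ _).trans hC
  have h5 := q.p_ub
  have h6 : (m.φ / m.Gm) ^ K' ≤ (C : ℝ) ^ K' := pow_le_pow_left₀ (by positivity) h4 K'
  have hf : (0 : ℝ) < K'.factorial := by positivity
  push_cast
  calc (T : ℝ) * q.N1 * ((q.M : ℝ) ^ d * (q.p * m.φ * (2 * ((m.φ / m.Gm) ^ K' / K'.factorial))))
      = (q.N1 * q.p) * (T * (q.M : ℝ) ^ d * ((2 * m.φ) * (m.φ / m.Gm) ^ K') / K'.factorial) := by
        ring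
    _ ≤ 1 * (T * (q.M : ℝ) ^ d * ((2 * m.φ) * (m.φ / m.Gm) ^ K') / K'.factorial) := by
        exact mul_le_mul_of_nonneg_right h5 (by positivity)
    _ ≤ T * (q.M : ℝ) ^ d * (C : ℝ) ^ (K' + 1) / K'.factorial := by
        rw [one_mul, pow_succ, mul_comm ((C : ℝ) ^ K') C]
        gcongr

end ZP.Rows
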