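import Pool.Agent.ZP.Ev0
import Pool.Agent.ZI.Dec

/-! # Definitions for the decoupling of blocks (with recovery) -/

set_option autoImplicit false

open scoped ENNReal BigOperators Classical

noncomputable section

namespace ZP

export ZI (Up)

variable {d : ℕ} {m : Model} {δ : ℝ}

/-- canonical letter of a step: a recovery letter if there is a mark, else a jump label of level `0` at the site
that loses a particle -/
def canL {M K : ℕ} (o : Option (Tor d M)) (η η' : Tor d M → ℕ) : Let d M (K + 1) :=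
  match o with
  | some x => if h : Nonempty (Dir d) then some (x, 0, h.some) else none
  | none =>
    if h : ∃ b : Tor d M × Fin (K + 1) × Dir d,
        (b.2.1 : ℕ) = 1 ∧ 0 < η b.1 ∧ η' = ZI.mv nbT η (b.1, 0, b.2.2) then some h.choose else none

/-- canonical word of a path with marks -/
def canP {M K : ℕ} : List (Tor d M → ℕ) → List (Option (Tor d M)) → List (Let d M (K + 1))
  | η :: η' :: p, o :: os => canL o η η' :: canP (η' :: p) os
  | _, _ => []

/-- the environment of a path of configurations with marks -/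
def pe (q : Par d m δ) (p : List (Tor d q.M → ℕ)) (o : List (Option (Tor d q.M))) : Env d :=
  envT q (p.headD (fun _ => 0)) (canP p o)

/-- a list of configurations with marks that comes from some word -/
def IsPath (q : Par d m δ) (p : List (Tor d q.M → ℕ)) (o : List (Option (Tor d q.M))) : Prop :=
  ∃ (η : Tor d q.M → ℕ) (w : List (Let d q.M (q.K + 1))), p = path η w ∧ o = w.map mark

/-- two environments with the same occupation and the same infections -/
structure EqEnv (E E' : Env d) : Prop where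
  occ : ∀ t x, E.occ t x ↔ E'.occ t x
  inf : ∀ (G : ℕ → Set (Pos d)) (s : ℕ) (A : Set (Pos d)) (j : ℕ),
    inf E.nb E.pr E.η0 E.U G s A j = inf E'.nb E'.pr E'.η0 E'.U G s A j
  vis : ∀ (G : ℕ → Set (Pos d)) (s : ℕ) (A : Set (Pos d)) (j : ℕ),
    visU E.nb E.pr E.η0 E.U G s A j = visU E'.nb E'.pr E'.η0 E'.U G s A j

/-- two environments agree in the region `Γ` up to the time `T` -/
structure AgreeW (E E' : Env d) (Γ : ℕ → Set (Pos d)) (T : ℕ) : Prop where
  occ : ∀ t ≤ T, ∀ x ∈ Γ t, (E.occ t x ↔ E'.occ t x)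
  R : ∀ G : ℕ → Set (Pos d), (∀ t ≤ T, G t ⊆ Γ t) → ∀ s t x y, t ≤ T →
    (E.R G s x t y ↔ E'.R G s x t y)

/-- the half space region for the future: level at least `b + t / (16 κ)` -/
def HS (P : BP) (u : Fin d → ℝ) (b : ℝ) (n t : ℕ) : Set (Pos d) :=
  {y | b + (t : ℝ) / (16 * P.κ) ≤ lev u y ∧ supn y ≤ 4 * n ^ 2}

/-- the event of the first block, started at `(0, κ)`, in the form that is a function of the past -/
structure PastEv (E : Env d) (P : BP) (u : Fin d → ℝ) (r Cv m : ℕ) (y : ℕ × Pos d) : Prop where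
  blk : E.blk P u m 0 P.κ = y
  att : y.2 ∈ E.W P u 0 P.κ (P.κ + y.1)
  lev_ge : (m : ℝ) ≤ lev u y.2
  h_lb : P.κ ≤ y.1
  near_ok : E.ok P.κ P.κ (E.near P.κ P.κ 0)
  near_supn : supn (E.near P.κ P.κ 0) ≤ P.κ
  conf : ∀ t < y.1, ∀ b ∈ visU E.nb E.pr E.η0 E.U (wall P u 0 P.κ) P.κ {E.near P.κ P.κ 0} t,
    lev u b ≤ m + 2 * P.mg + Cv + r - ((y.1 : ℝ) - t) / (8 * P.κ)

/-- admissible values of the first block variable -/
def Adm (P : BP) (u : Fin d → ℝ) (r Cv m n : ℕ) (y : ℕ × Pos d) : Prop :=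
  P.κ ≤ y.1 ∧ (y.1 : ℝ) ≤ 4 * P.κ * (m + 2 * P.mg) ∧ (m : ℝ) ≤ lev u y.2 ∧
    lev u y.2 ≤ m + Cv + r ∧ supn y.2 ≤ n ^ 2

/-- leak in the past: with the reversed word `w`, the particles in `Up u (m + 4 mg)` at the end of the block
influence the configuration below the line `m + 3 mg - t / (8 κ)` -/
def LeakP (q : Par d m δ) (P : BP) (u : Fin d → ℝ) (m' : ℕ) (η : Tor d q.M → ℕ)
    (w : List (Let d q.M (q.K + 1))) : Prop :=
  ∃ i ≤ w.length, ∃ v : Tor d q.M,
    (w.take i).foldl stepA η v ≠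
      (w.take i).foldl stepA (mix (Up u (m' + 4 * P.mg)) (fun _ => 0) η) v ∧
    Lev u 0 v ≤ m' + 3 * P.mg - ((i : ℝ) / q.N1) / (8 * P.κ)

/-- leak in the future: the particles off `Up u (m + 4 mg)` influence the configuration above the line
`m + 6 mg + t / (16 κ)` -/
def LeakF (q : Par d m δ) (P : BP) (u : Fin d → ℝ) (m' : ℕ) (η : Tor d q.M → ℕ)
    (w : List (Let d q.M (q.K + 1))) : Prop :=
  ∃ i ≤ w.length, ∃ v : Tor d q.M,
    (w.take i).foldl stepA η v ≠
      (w.take i).foldl stepA (mix (Up u (m' + 4 * P.mg)) η (fun _ => 0)) v ∧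
    m' + 6 * P.mg + ((i : ℝ) / q.N1) / (16 * P.κ) ≤ Lev u 0 v

/-- law of the block variable for the torus chain -/
def QT (q : Par d m δ) (P : BP) (u : Fin d → ℝ) (n m' : ℕ) (y : ℕ × Pos d) : ℝ≥0∞ :=
  q.PP (n ^ 2 * q.N1) (fun η l => (envT q η l).blk P u m' 0 P.κ = y)

/-- what is used about good events and blocks -/
structure Base (m : Model) (δ : ℝ) (d Cv a A r0 : ℕ) (c : ℝ) : Prop where
  d_pos : 0 < d
  c_pos : 0 < c
  Cv_pos : 0 < Cv
  a_big : 10 ≤ a
  A_big : 1000 * a ≤ A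
  r0_big : 10 ≤ r0
  good : ∀ r ≥ r0, ∀ n : ℕ, r ^ A ≤ n → n ≤ (2 * r) ^ A → ∀ q : Par d m δ, q.M = n ^ 4 → q.Tiny n →
    q.PP (n ^ 2 * q.N1) (fun η l => ¬ (envT q η l).Good r (r ^ a) Cv (n ^ 2) (n ^ 2)) ≤
      ENNReal.ofReal (Real.exp (- c * r))
  facts : ∀ r ≥ r0, ∀ n : ℕ, r ^ A ≤ n → ∀ E : Env d, E.Good r (r ^ a) Cv (n ^ 2) (n ^ 2) →
    ∀ (u : Fin d → ℝ), ∑ j, u j ^ 2 = 1 → ∀ m : ℕ, r ^ (7 * a) ≤ m → m ≤ r * n →
    ∀ (z : Pos d) (s : ℕ), r ^ a ≤ s → s + r ^ (2 * a) * m ≤ n ^ 2 →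
    BlockFacts E (bp d a r n) u r Cv m n z s

end ZP
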