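import Pool.Agent.ZP.Ev0
import Pool.Agent.ZI.Sys

/-! # The abstract system for the second half of the proof (with recovery) -/

set_option autoImplicit false

open scoped ENNReal BigOperators Classical
open MeasureTheory

noncomputable section

namespace ZP

export ZI (rr PK)

variable {d : ℕ}

/-- the duration `κ` of the scale `k` -/
def kp (a A k : ℕ) : ℕ := rr A k ^ a

/-- the good event of the scale `k` -/
def GoodK (a A Cv k : ℕ) (E : Env d) : Prop :=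
  E.Good (rr A k) (rr A k ^ a) Cv ((2 ^ k) ^ 2) ((2 ^ k) ^ 2)

/-- the two environments agree up to the time `N` within the distance `4 N` of the origin -/
structure Agree (N : ℕ) (E E' : Env d) : Prop where
  occ : ∀ t ≤ N, ∀ x, supn x ≤ 4 * N → (E.occ t x ↔ E'.occ t x)
  R : ∀ G : ℕ → Set (Pos d), (∀ t, G t ⊆ {x | supn x ≤ 4 * N}) → ∀ s t x y, t ≤ N →
    (E.R G s x t y ↔ E'.R G s x t y)
  vis : ∀ G : ℕ → Set (Pos d), (∀ t, G t ⊆ {x | supn x ≤ 4 * N}) → ∀ s t x y, t ≤ N →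
    (E.vis G s x t y ↔ E'.vis G s x t y)

/-- law of the block variable of size `m` at the scale `k`, block started at `(0, κ)` -/
def QK {Ω : Type} [MeasurableSpace Ω] (P : Measure Ω) (E : ℕ → Ω → Env d) (a A k : ℕ) (u : Fin d → ℝ)
    (m : ℕ) (y : ℕ × Pos d) : ℝ≥0∞ :=
  P {ω | (E k ω).blk (PK d a A k) u m 0 (kp a A k) = y}

/-- the abstract system -/
structure Sys (d : ℕ) {Ω : Type} [MeasurableSpace Ω] (P : Measure Ω) where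
  d_pos : 0 < d
  Cv : ℕ
  a : ℕ
  A : ℕ
  k0 : ℕ
  Cv_pos : 0 < Cv
  a_big : 10 ≤ a
  A_big : 1000 * a ≤ A
  E : ℕ → Ω → Env d
  facts : ∀ k ≥ k0, ∀ E : Env d, GoodK a A Cv k E → ∀ u : Fin d → ℝ, ∑ j, u j ^ 2 = 1 → ∀ m : ℕ,
    rr A k ^ (7 * a) ≤ m → m ≤ rr A k * 2 ^ k → ∀ (z : Pos d) (s : ℕ), kp a A k ≤ s →
    s + rr A k ^ (2 * a) * m ≤ (2 ^ k) ^ 2 → BlockFacts E (PK d a A k) u (rr A k) Cv m (2 ^ k) z s
  good : ∀ k ≥ k0, P {ω | ¬ GoodK a A Cv k (E k ω)} ≤ err (rr A k)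
  chain : ∀ k ≥ k0, ∀ u : Fin d → ℝ, ∑ j, u j ^ 2 = 1 → ∀ ms : List ℕ,
    (∀ m ∈ ms, rr A k ^ (7 * a) ≤ m) → ms.sum ≤ rr A k * 2 ^ k → ∀ (z : Pos d) (s : ℕ), kp a A k ≤ s →
    2 * s ≤ (2 ^ k) ^ 2 → ∀ G : List (ℕ × Pos d) → Prop,
    P {ω | G ((E k ω).chain (PK d a A k) u ms z s)} ≤ prodQ (QK P E a A k u) ms G + err (rr A k)
  tsumQ : ∀ k ≥ k0, ∀ (u : Fin d → ℝ) (m : ℕ), ∑' y, QK P E a A k u m y = 1
  agree : ∀ k ≥ k0, ∀ k' ≥ k, P {ω | ¬ Agree ((2 ^ k) ^ 2) (E k ω) (E k' ω)} ≤ err (rr A k)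
  shift : ∀ k ≥ k0, ∀ s0 T : ℕ, s0 + T ≤ (2 ^ k) ^ 2 → ∀ H : (ℕ → Set (Pos d)) → Prop,
    P {ω | H (fun t => {x | t ≤ T ∧ (E k ω).R (fun _ => Set.univ) 0 0 t x})} ≤
      P {ω | H (fun t => {x | t ≤ T ∧ (E k ω).R (fun _ => Set.univ) s0 0 (s0 + t) x})} + err (rr A k)
  I : Ω → ℝ → Set (Pos d)
  /-- survival -/
  S0 : Set Ω
  I_mono : ∀ ω, Monotone (I ω)
  link : ∀ k ≥ k0, P {ω | ¬ ∀ t : ℕ, 1 ≤ t → t ≤ (2 ^ k) ^ 2 → ∀ b,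
    (b ∈ I ω t ↔ (E k ω).vis (fun _ => Set.univ) 0 0 t b)} ≤ err (rr A k)
  /-- on survival the infection from the origin is alive at every time, up to an error -/
  surv : ∀ k ≥ k0, ∀ t : ℕ, t ≤ (2 ^ k) ^ 2 →
    P {ω | ω ∈ S0 ∧ ¬ ∃ y, (E k ω).R (fun _ => Set.univ) 0 0 t y} ≤ err (rr A k)

end ZP
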