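import Pool.Agent.ZP.PJ
import Pool.Agent.ZP.ProcE
import Pool.Agent.ZI.LK

/-! # Row LK: the killed box inside the torus chain (with recovery)

The configurations do not see the recovery labels, so the probability estimate is the one of `ZI`.
-/

set_option autoImplicit false

open scoped ENNReal BigOperators Classical

noncomputable section

namespace ZP.LK

open ZP ZP.Rows
open ZI.LK (supn_le supN_eq supn_add_dv supn_sub_dv tv_add' tv_sub' tv_lft tv_inj lft_tv kf kf_eq OkN
  nbB_eq nbB_some nbT_some Inv ini0)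

variable {d : ℕ}

theorem foldl_stepR_fst_zp {V : Type} {nb : V → Dir d → Option V} {pr : Pos d → V} (G : Set (Pos d))
    (l : List (Lab V d)) : ∀ (η : V → ℕ) (A : Set (Pos d)),
    (l.foldl (stepR nb pr G) (η, A)).1 = l.foldl (mv nb) η := by
  induction l with
  | nil => intro η A; rfl
  | cons b l ih => intro η A; exact ih _ _

section gen

variable {α V W : Type} (f : α → Option (Lab V d)) (nb : V → Dir d → Option V) (pr : Pos d → V)

/-- a letter for the configuration -/
def stF (η : V → ℕ) (a : α) : V → ℕ :=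
  match f a with
  | none => η
  | some b => mv nb η b

/-- a letter for the pair (configuration, infected set) -/
def stR (G : Set (Pos d)) (s : (V → ℕ) × Set (Pos d)) (a : α) : (V → ℕ) × Set (Pos d) :=
  match f a with
  | none => s
  | some b => stepR nb pr G s b

/-- the unit lists of a word -/
def un (N1 : ℕ) (w : List α) (t : ℕ) : List (Lab V d) := ((w.drop (t * N1)).take N1).filterMap f

theorem fold_stF (L : List α) : ∀ η : V → ℕ,
    (L.filterMap f).foldl (mv nb) η = L.foldl (stF f nb) η := by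
  induction L with
  | nil => exact fun η => rfl
  | cons a L ih =>
    intro η
    rw [List.foldl_cons, ← ih, List.filterMap_cons]
    unfold stF
    cases h : f a with
    | none => rfl
    | some l => rfl

theorem fold_stR (G : Set (Pos d)) (L : List α) : ∀ s : (V → ℕ) × Set (Pos d),
    (L.filterMap f).foldl (stepR nb pr G) s = L.foldl (stR f nb pr G) s := by
  induction L with
  | nil => exact fun s => rfl
  | cons a L ih =>
    intro s
    rw [List.foldl_cons, ← ih, List.filterMap_cons]
    unfold stR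
    cases h : f a with
    | none => rfl
    | some l => rfl

theorem fold_stR_fst (G : Set (Pos d)) (L : List α) : ∀ s : (V → ℕ) × Set (Pos d),
    (L.foldl (stR f nb pr G) s).1 = L.foldl (stF f nb) s.1 := by
  intro s
  rw [← fold_stR, ← fold_stF]
  exact foldl_stepR_fst_zp G _ s.1 s.2

theorem cfg_un (N1 : ℕ) (η0 : V → ℕ) (w : List α) (t : ℕ) :
    cfg nb η0 (un f N1 w) t = (w.take (t * N1)).foldl (stF f nb) η0 := by
  induction t with
  | zero => simp [cfg]
  | succ t ih =>
    rw [cfg, ih, un, fold_stF, ← List.foldl_append]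
    congr 1
    rw [Nat.succ_mul, List.take_add]

theorem vis_letters (G : Set (Pos d)) (L : List α) (s : (V → ℕ) × Set (Pos d)) (z : Pos d) :
    (∃ i ≤ (L.filterMap f).length,
      z ∈ (((L.filterMap f).take i).foldl (stepR nb pr G) s).2) ↔
    ∃ i ≤ L.length, z ∈ ((L.take i).foldl (stR f nb pr G) s).2 := by
  constructor
  · rintro ⟨i, hi, hz⟩
    obtain ⟨i', hi', htake⟩ := ZI.C5.take_filterMap f L i hi
    rw [htake, fold_stR] at hz
    exact ⟨i', hi', hz⟩
  · rintro ⟨i, hi, hz⟩
    refine ⟨((L.take i).filterMap f).length, ?_, ?_⟩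
    · conv_rhs => rw [← List.take_append_drop i L, List.filterMap_append, List.length_append]
      exact Nat.le_add_right _ _
    · have h1 : (L.filterMap f).take ((L.take i).filterMap f).length =
          (L.take i).filterMap f := by
        conv_lhs => rw [← List.take_append_drop i L, List.filterMap_append]
        rw [List.take_append_drop i L]
        exact List.take_left
      rw [h1, fold_stR]
      exact hz

end gen

section compare

variable {α V W : Type} {f : α → Option (Lab V d)} {nb : V → Dir d → Option V} {pr : Pos d → V}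
  {f' : α → Option (Lab W d)} {nb' : W → Dir d → Option W} {pr' : Pos d → W}
  {Γ : Set (Pos d)} {Ok : (V → ℕ) → (W → ℕ) → Prop}

/-- one letter gives the same infected set inside `Γ` if the configurations are related -/
def Same (f : α → Option (Lab V d)) (nb : V → Dir d → Option V) (pr : Pos d → V)
    (f' : α → Option (Lab W d)) (nb' : W → Dir d → Option W) (pr' : Pos d → W)
    (Γ : Set (Pos d)) (Ok : (V → ℕ) → (W → ℕ) → Prop) : Prop :=
  ∀ η ζ a G A, Ok η ζ → G ⊆ Γ → A ⊆ G →
    (stR f nb pr G (η, A) a).2 = (stR f' nb' pr' G (ζ, A) a).2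

theorem stR_sub (G : Set (Pos d)) (s : (V → ℕ) × Set (Pos d)) (a : α) (h : s.2 ⊆ G) :
    (stR f nb pr G s a).2 ⊆ G := by
  unfold stR
  cases f a with
  | none => exact h
  | some b => exact Set.inter_subset_right

theorem stR_fst (G : Set (Pos d)) (s : (V → ℕ) × Set (Pos d)) (a : α) :
    (stR f nb pr G s a).1 = stF f nb s.1 a := by
  unfold stR stF
  cases f a with
  | none => rfl
  | some b => rfl

theorem fold_same (hS : Same f nb pr f' nb' pr' Γ Ok) {G : Set (Pos d)} (hG : G ⊆ Γ)
    (L : List α) : ∀ (η : V → ℕ) (ζ : W → ℕ) (A : Set (Pos d)), A ⊆ G →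
      (∀ i, Ok ((L.take i).foldl (stF f nb) η) ((L.take i).foldl (stF f' nb') ζ)) →
      (L.foldl (stR f nb pr G) (η, A)).2 = (L.foldl (stR f' nb' pr' G) (ζ, A)).2 := by
  induction L with
  | nil => intro η ζ A _ _; rfl
  | cons a L ih =>
    intro η ζ A hA h
    rw [List.foldl_cons, List.foldl_cons]
    have h1 := hS η ζ a G A (h 0) hG hA
    have h2 : stR f nb pr G (η, A) a = (stF f nb η a, (stR f' nb' pr' G (ζ, A) a).2) :=
      Prod.ext (stR_fst G (η, A) a) h1
    have h3 : stR f' nb' pr' G (ζ, A) a = (stF f' nb' ζ a, (stR f' nb' pr' G (ζ, A) a).2) :=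
      Prod.ext (stR_fst G (ζ, A) a) rfl
    rw [h2, h3]
    refine ih _ _ _ (stR_sub G (ζ, A) a hA) fun i => ?_
    exact h (i + 1)

variable {N1 : ℕ} {w : List α} {η0 : V → ℕ} {ζ0 : W → ℕ}

theorem take_ok (h : ∀ i, Ok ((w.take i).foldl (stF f nb) η0) ((w.take i).foldl (stF f' nb') ζ0))
    (t i : ℕ) :
    Ok ((((w.drop (t * N1)).take N1).take i).foldl (stF f nb) ((w.take (t * N1)).foldl (stF f nb) η0))
      ((((w.drop (t * N1)).take N1).take i).foldl (stF f' nb') ((w.take (t * N1)).foldl (stF f' nb') ζ0)) := by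
  rw [← List.foldl_append, ← List.foldl_append, List.take_take, ← List.take_add]
  exact h _

theorem inf_same (hS : Same f nb pr f' nb' pr' Γ Ok)
    (hocc : ∀ η ζ, Ok η ζ → ∀ x ∈ Γ, (0 < η (pr x) ↔ 0 < ζ (pr' x)))
    (h : ∀ i, Ok ((w.take i).foldl (stF f nb) η0) ((w.take i).foldl (stF f' nb') ζ0))
    {G : ℕ → Set (Pos d)} (hG : ∀ t, G t ⊆ Γ) (s : ℕ) (A : Set (Pos d)) (j : ℕ) :
    inf nb pr η0 (un f N1 w) G s A j = inf nb' pr' ζ0 (un f' N1 w) G s A j := by
  induction j with
  | zero =>
    ext z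
    simp only [inf, Set.mem_ofPred_eq, cfg_un]
    constructor
    · rintro ⟨h1, h2, h3⟩
      exact ⟨h1, h2, (hocc _ _ (h _) z (hG s h2)).1 h3⟩
    · rintro ⟨h1, h2, h3⟩
      exact ⟨h1, h2, (hocc _ _ (h _) z (hG s h2)).2 h3⟩
  | succ j ih =>
    rw [inf, inf, ← ih, cfg_un, cfg_un, un, un, fold_stR, fold_stR]
    exact fold_same hS (hG _) _ _ _ _ Set.inter_subset_right (take_ok h (s + j))

theorem vis_same (hS : Same f nb pr f' nb' pr' Γ Ok)
    (hocc : ∀ η ζ, Ok η ζ → ∀ x ∈ Γ, (0 < η (pr x) ↔ 0 < ζ (pr' x)))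
    (h : ∀ i, Ok ((w.take i).foldl (stF f nb) η0) ((w.take i).foldl (stF f' nb') ζ0))
    {G : ℕ → Set (Pos d)} (hG : ∀ t, G t ⊆ Γ) (s : ℕ) (A : Set (Pos d)) (j : ℕ) :
    visU nb pr η0 (un f N1 w) G s A j = visU nb' pr' ζ0 (un f' N1 w) G s A j := by
  ext z
  unfold visU
  rw [Set.mem_ofPred_eq, Set.mem_ofPred_eq, ← inf_same hS hocc h hG, cfg_un, cfg_un]
  unfold un
  rw [vis_letters, vis_letters]
  refine exists_congr fun i => and_congr_right fun _ => ?_
  rw [fold_same hS (hG _) _ _ _ _ Set.inter_subset_right]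
  intro k
  rw [List.take_take]
  exact take_ok h (s + j) _

end compare

/-! ### the torus and the killed box -/

section box

variable {M K R N : ℕ}

/-- the letters of the killed box -/
def gf (R : ℕ) (a : Let d M K) : Option (Lab (Pos d) d) := (toLab a).bind (kf R)

theorem infMv_no {V : Type} {nb : V → Dir d → Option V} {pr : Pos d → V} {η : V → ℕ}
    {A : Set (Pos d)} {l : Lab V d} (h : ∀ z ∈ A, pr z ≠ l.1) : infMv nb pr η A l = A := by
  obtain ⟨v, k, e⟩ := l
  cases k with
  | zero =>
    ext z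
    constructor
    · exact fun hz => hz.1
    · exact fun hz => ⟨hz, fun h2 => absurd h2 (h z hz)⟩
  | succ k => exact ZI.LK.infMv_no (l := (v, k, e)) h

theorem same_box [NeZero M] (hR : 2 * R + 2 ≤ M) (hN : N + 1 ≤ R) :
    Same (toLab : Let d M K → _) nbT tv (gf R) (nbB R) id {x | supn x ≤ N} (OkN M N) := by
  intro η ζ a G A hok hG hA
  have hAG : A ∩ G = A := Set.inter_eq_left.2 hA
  have hAN : ∀ z ∈ A, supn z ≤ N := fun z hz => hG (hA hz)
  unfold stR gf
  cases h : toLab a with
  | none => rfl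
  | some b =>
    obtain ⟨v, k, e⟩ := b
    rw [Option.bind_some]
    unfold kf
    by_cases hb : supn (lft v) ≤ R
    · rw [if_pos hb]
      have hl : tv (lft v) = v := tv_lft v
      have hz : ∀ z ∈ A, (tv z = v ↔ z = lft v) := by
        intro z hz
        constructor
        · intro h1
          have h2 := lft_tv (M := M) hR (x := z) ((hAN z hz).trans (by omega))
          rw [← h2, h1]
        · rintro rfl
          exact hl
      show infMv nbT tv η A (v, k, e) ∩ G = infMv (nbB R) id ζ A (lft v, k, e) ∩ G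
      congr 1
      by_cases hx : supn (lft v) ≤ N
      · have h1 := hok _ hx
        rw [hl] at h1
        cases k with
        | zero =>
          show {z | z ∈ A ∧ (tv z = v → 2 ≤ η v)} = {z | z ∈ A ∧ (z = lft v → 2 ≤ ζ (lft v))}
          rw [h1]
          ext z
          exact and_congr_right fun hzA => by rw [hz z hzA]
        | succ k =>
          show ZI.infMv nbT tv η A (v, k, e) = ZI.infMv (nbB R) id ζ A (lft v, k, e)
          unfold ZI.infMv
          simp only [h1]
          by_cases h2 : k < η v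
          · rw [if_pos h2, if_pos h2]
            ext z
            constructor
            · rintro (⟨h3, h4⟩ | ⟨h3, h4, -⟩)
              · exact Or.inl ⟨h3, fun h5 => h4 ((hz z h3).2 h5)⟩
              · refine Or.inr ⟨h3, (hz _ h3).1 h4, ?_⟩
                have h6 : z - dv e = lft v := (hz _ h3).1 h4
                rw [nbB_eq _ _ (by omega), ← h6, sub_add_cancel]
                rfl
            · rintro (⟨h3, h4⟩ | ⟨h3, h4, -⟩)
              · exact Or.inl ⟨h3, fun h5 => h4 ((hz z h3).1 h5)⟩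
              · have h5 : z - dv e = lft v := h4
                refine Or.inr ⟨h3, (hz _ h3).2 h5, ?_⟩
                have h6 : tv (z - dv e) = v := (hz _ h3).2 h5
                rw [nbT_some, ← h6, ← tv_add']
                show tv z = tv (z - dv e + dv e)
                rw [sub_add_cancel]
          · rw [if_neg h2, if_neg h2]
      · rw [infMv_no, infMv_no]
        · intro z hzA h1
          have h2 : z = lft v := h1
          exact hx (h2 ▸ hAN z hzA)
        · intro z hzA h1
          exact hx ((hz z hzA).1 h1 ▸ hAN z hzA)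
    · rw [if_neg hb]
      show infMv nbT tv η A (v, k, e) ∩ G = A
      rw [infMv_no, hAG]
      intro z hzA h1
      apply hb
      have h2 : tv z = v := h1
      rw [← h2, lft_tv hR ((hAN z hzA).trans (by omega))]
      exact (hAN z hzA).trans (by omega)

/-- one letter for the configuration of the killed box -/
def kst (R : ℕ) (ζ : Pos d → ℕ) (a : Let d M K) : Pos d → ℕ := stF (gf R) (nbB R) ζ a

theorem stF_toLab (η : Tor d M → ℕ) (a : Let d M K) : stF toLab nbT η a = stepA η a := by
  unfold stF stepA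
  cases toLab a with
  | none => rfl
  | some b => rfl

theorem kst_prj (ζ : Pos d → ℕ) (a : Let d M (K + 1)) : kst R ζ a = ZI.LK.kst R ζ (prj a) := by
  have h1 : ∀ b : Lab (Tor d M) d, (kf R b).bind pjL = (pjL b).bind (kf R) := by
    rintro ⟨x, k, e⟩
    unfold kf
    by_cases h : supn (lft x) ≤ R
    · rw [if_pos h]
      cases k with
      | zero => rfl
      | succ k => exact (if_pos h).symm
    · rw [if_neg h]
      cases k with
      | zero => rfl
      | succ k => exact (if_neg h).symm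
  have h2 : ZI.LK.gf R (prj a) = (gf R a).bind pjL := by
    unfold ZI.LK.gf gf
    rw [← toLab_prj, Option.bind_assoc, Option.bind_assoc]
    simp only [h1]
  unfold kst ZI.LK.kst stF ZI.LK.stF
  rw [h2]
  cases gf R a with
  | none => rfl
  | some b =>
    obtain ⟨x, k, e⟩ := b
    cases k <;> rfl

theorem fold_stepA_prj (L : List (Let d M (K + 1))) : ∀ η : Tor d M → ℕ,
    L.foldl stepA η = (L.map prj).foldl ZI.stepA η := by
  induction L with
  | nil => exact fun η => rfl
  | cons a L ih =>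
    intro η
    rw [List.foldl_cons, ih, stepA_prj]
    rfl

theorem fold_kst_prj (L : List (Let d M (K + 1))) : ∀ ζ : Pos d → ℕ,
    L.foldl (kst R) ζ = (L.map prj).foldl (ZI.LK.kst R) ζ := by
  induction L with
  | nil => exact fun η => rfl
  | cons a L ih =>
    intro ζ
    rw [List.foldl_cons, ih, kst_prj]
    rfl

end box

/-! ### environments -/

section env

variable {m : Model} {δ : ℝ} (q : Par d m δ)

theorem envT_U (η : Tor d q.M → ℕ) (l : List (Let d q.M (q.K + 1))) :
    (envT q η l).U = un toLab q.N1 l := rfl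

theorem kill_U (R : ℕ) (hR : 2 * R + 2 ≤ q.M) (η : Tor d q.M → ℕ) (l : List (Let d q.M (q.K + 1))) :
    (kill R (envT q η l)).U = un (gf R) q.N1 l := by
  funext t
  show (units q.N1 l t).filterMap (fun b =>
    if h : ∃ x : Pos d, supn x ≤ R ∧ tv x = b.1 then some (h.choose, b.2) else none) = _
  have h1 : (fun b : Lab (Tor d q.M) d =>
      if h : ∃ x : Pos d, supn x ≤ R ∧ tv x = b.1 then some (h.choose, b.2) else none) = kf R :=
    funext fun b => kf_eq hR b
  rw [h1]
  unfold ZI.units un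
  rw [List.filterMap_filterMap]
  rfl

theorem agree_of (R N : ℕ) (hR : 2 * R + 2 ≤ q.M) (hN : 4 * N + 1 ≤ R) (η : Tor d q.M → ℕ)
    (l : List (Let d q.M (q.K + 1)))
    (h : ∀ i, OkN q.M (4 * N) ((l.take i).foldl stepA η) ((l.take i).foldl (kst R) (ini0 R η))) :
    Agree N (envT q η l) (kill R (envT q η l)) := by
  have hS : Same (toLab : Let d q.M (q.K + 1) → _) nbT tv (gf R) (nbB R) id {x | supn x ≤ 4 * N}
      (OkN q.M (4 * N)) := same_box hR hN
  have hocc : ∀ (η : Tor d q.M → ℕ) (ζ : Pos d → ℕ), OkN q.M (4 * N) η ζ →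
      ∀ x ∈ {x | supn x ≤ 4 * N}, (0 < η (tv x) ↔ 0 < ζ (id x)) := by
    intro η ζ h1 x hx
    show 0 < η (tv x) ↔ 0 < ζ x
    rw [h1 x hx]
  have h' : ∀ i, OkN q.M (4 * N) ((l.take i).foldl (stF toLab nbT) η)
      ((l.take i).foldl (stF (gf R) (nbB R)) (ini0 R η)) := by
    intro i
    have h1 : (stF toLab nbT : (Tor d q.M → ℕ) → Let d q.M (q.K + 1) → _) = stepA := by
      funext η a
      exact stF_toLab η a
    rw [h1]
    exact h i
  have hinf : ∀ (G : ℕ → Set (Pos d)), (∀ t, G t ⊆ {x | supn x ≤ 4 * N}) → ∀ s A j,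
      inf (envT q η l).nb (envT q η l).pr (envT q η l).η0 (envT q η l).U G s A j =
      inf (kill R (envT q η l)).nb (kill R (envT q η l)).pr (kill R (envT q η l)).η0
        (kill R (envT q η l)).U G s A j := by
    intro G hG s A j
    rw [kill_U q R hR]
    exact inf_same hS hocc h' hG s A j
  have hvis : ∀ (G : ℕ → Set (Pos d)), (∀ t, G t ⊆ {x | supn x ≤ 4 * N}) → ∀ s A j,
      visU (envT q η l).nb (envT q η l).pr (envT q η l).η0 (envT q η l).U G s A j =
      visU (kill R (envT q η l)).nb (kill R (envT q η l)).pr (kill R (envT q η l)).η0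
        (kill R (envT q η l)).U G s A j := by
    intro G hG s A j
    rw [kill_U q R hR]
    exact vis_same hS hocc h' hG s A j
  refine ⟨fun t _ x hx => ?_, fun G hG s t x y _ => ?_, fun G hG s t x y _ => ?_⟩
  · show 0 < cfg nbT η (un toLab q.N1 l) t (tv x) ↔
      0 < cfg (nbB R) (ini0 R η) (kill R (envT q η l)).U t x
    rw [kill_U q R hR, cfg_un, cfg_un]
    exact hocc _ _ (h' _) x hx
  · unfold Env.R
    refine exists_congr fun j => and_congr_right fun _ => ?_
    rw [hinf G hG s {x} j]
  · unfold Env.vis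
    refine exists_congr fun j => and_congr_right fun _ => ?_
    rw [hvis G hG s {x} j]

end env

/-! ### the killed box is below the torus -/

section below

variable {M K R : ℕ}

/-- order between the pairs (configuration, infected set) -/
def Low (M R : ℕ) (s : (Tor d M → ℕ) × Set (Pos d)) (s' : (Pos d → ℕ) × Set (Pos d)) : Prop :=
  Inv M R s.1 s'.1 ∧ s'.2 ⊆ s.2 ∧ (∀ z ∈ s'.2, supn z ≤ R ∧ 0 < s'.1 z)

theorem low_step [NeZero M] (hR : 2 * R + 2 ≤ M) {s : (Tor d M → ℕ) × Set (Pos d)}
    {s' : (Pos d → ℕ) × Set (Pos d)} (h : Low M R s s') (a : Let d M (K + 1)) :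
    Low M R (stR toLab nbT tv Set.univ s a) (stR (gf R) (nbB R) id Set.univ s' a) := by
  obtain ⟨η, A⟩ := s
  obtain ⟨ζ, A'⟩ := s'
  obtain ⟨hI, hsub, hA⟩ := h
  simp only at hI hsub hA
  refine ⟨?_, ?_⟩
  · intro x hx
    rw [stR_fst, stR_fst, stF_toLab]
    have h1 := (ZI.LK.gain_le hR η ζ hI (prj a) x hx).1
    rw [← stepA_prj, ← kst_prj] at h1
    exact h1
  · unfold stR gf
    cases h : toLab a with
    | none => exact ⟨hsub, hA⟩
    | some b =>
      obtain ⟨v, k, e⟩ := b
      rw [Option.bind_some]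
      unfold kf
      have hl : tv (lft v) = v := tv_lft v
      by_cases hb : supn (lft v) ≤ R
      · rw [if_pos hb]
        have hI2 := hI _ hb
        rw [hl] at hI2
        have e1 : ∀ z ∈ A', (tv z = v ↔ z = lft v) := by
          intro z hz
          constructor
          · intro h1
            rw [← h1, lft_tv hR (hA z hz).1]
          · rintro rfl
            exact hl
        show infMv (nbB R) id ζ A' (lft v, k, e) ∩ Set.univ ⊆ infMv nbT tv η A (v, k, e) ∩ Set.univ ∧
          ∀ z ∈ infMv (nbB R) id ζ A' (lft v, k, e) ∩ Set.univ, supn z ≤ R ∧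
            0 < mv (nbB R) ζ (lft v, k, e) z
        rw [Set.inter_univ, Set.inter_univ]
        cases k with
        | zero =>
          refine ⟨?_, ?_⟩
          · rintro z ⟨h1, h2⟩
            exact ⟨hsub h1, fun h3 => le_trans (h2 ((e1 z h1).1 h3)) hI2⟩
          · rintro z ⟨h1, h2⟩
            exact hA z h1
        | succ k =>
          show ZI.infMv (nbB R) id ζ A' (lft v, k, e) ⊆ ZI.infMv nbT tv η A (v, k, e) ∧
            ∀ z ∈ ZI.infMv (nbB R) id ζ A' (lft v, k, e), supn z ≤ R ∧
              0 < ZI.mv (nbB R) ζ (lft v, k, e) z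
          refine ⟨?_, ?_⟩
          · intro z hz
            unfold ZI.infMv at hz ⊢
            by_cases h1 : k < ζ (lft v)
            · rw [if_pos (show ((lft v, k, e) : Lab (Pos d) d).2.1 < ζ (lft v) from h1)] at hz
              rw [if_pos (show ((v, k, e) : Lab (Tor d M) d).2.1 < η v from lt_of_lt_of_le h1 hI2)]
              rcases hz with ⟨h3, h4⟩ | ⟨h3, h4, -⟩
              · refine Or.inl ⟨hsub h3, fun h5 => ?_⟩
                have h6 : 2 ≤ ζ (lft v) := h4 ((e1 z h3).1 h5)
                exact h6.trans hI2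
              · have h5 : z - dv e = lft v := h4
                have h7 : tv (z - dv e) = v := (e1 _ h3).2 h5
                refine Or.inr ⟨hsub h3, h7, ?_⟩
                rw [nbT_some]
                show tv z = v + tv (dv e)
                rw [← h7, ← tv_add', sub_add_cancel]
            · rw [if_neg (show ¬ ((lft v, k, e) : Lab (Pos d) d).2.1 < ζ (lft v) from h1)] at hz
              by_cases h2 : k < η v
              · rw [if_pos (show ((v, k, e) : Lab (Tor d M) d).2.1 < η v from h2)]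
                refine Or.inl ⟨hsub hz, fun h5 => ?_⟩
                have h6 := (hA z hz).2
                rw [(e1 z hz).1 h5] at h6
                show 2 ≤ η v
                omega
              · rw [if_neg (show ¬ ((v, k, e) : Lab (Tor d M) d).2.1 < η v from h2)]
                exact hsub hz
          · intro z hz
            refine ⟨?_, ZI.infMv_occ (fun z hz => (hA z hz).2) hz⟩
            unfold ZI.infMv at hz
            split_ifs at hz
            · rcases hz with ⟨h3, -⟩ | ⟨-, -, h3⟩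
              · exact (hA z h3).1
              · exact (nbB_some.1 h3).2
            · exact (hA z hz).1
      · rw [if_neg hb]
        refine ⟨?_, hA⟩
        show A' ⊆ infMv nbT tv η A (v, k, e) ∩ Set.univ
        rw [Set.inter_univ]
        intro z hz
        have e1 : ¬ tv z = v := by
          intro h1
          apply hb
          rw [← h1, lft_tv hR (hA z hz).1]
          exact (hA z hz).1
        cases k with
        | zero => exact ⟨hsub hz, fun h5 => absurd h5 e1⟩
        | succ k =>
          show z ∈ ZI.infMv nbT tv η A (v, k, e)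
          unfold ZI.infMv
          split_ifs
          · exact Or.inl ⟨hsub hz, fun h5 => absurd h5 e1⟩
          · exact hsub hz

theorem low_fold [NeZero M] (hR : 2 * R + 2 ≤ M) (L : List (Let d M (K + 1))) :
    ∀ (s : (Tor d M → ℕ) × Set (Pos d)) (s' : (Pos d → ℕ) × Set (Pos d)), Low M R s s' →
      Low M R (L.foldl (stR toLab nbT tv Set.univ) s) (L.foldl (stR (gf R) (nbB R) id Set.univ) s') := by
  induction L with
  | nil => exact fun s s' h => h
  | cons a L ih => exact fun s s' h => ih _ _ (low_step hR h a)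

theorem low_inf [NeZero M] (hR : 2 * R + 2 ≤ M) (N1 : ℕ) (w : List (Let d M (K + 1)))
    (η : Tor d M → ℕ) (j : ℕ) :
    Low M R (cfg nbT η (un toLab N1 w) (0 + j),
        inf nbT tv η (un toLab N1 w) (fun _ => Set.univ) 0 {0} j)
      (cfg (nbB R) (ini0 R η) (un (gf R) N1 w) (0 + j),
        inf (nbB R) id (ini0 R η) (un (gf R) N1 w) (fun _ => Set.univ) 0 {0} j) := by
  have h0 : supn (0 : Pos d) ≤ R := by
    rw [supn_le]
    intro j
    simp
  induction j with
  | zero =>
    refine ⟨ZI.LK.inv_ini η, ?_, ?_⟩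
    · rintro z ⟨h1, h2, h3⟩
      refine ⟨h1, h2, ?_⟩
      have h4 : z = 0 := h1
      have h5 : 0 < ini0 R η z := h3
      subst h4
      unfold ini0 at h5
      rw [if_pos h0] at h5
      exact h5
    · rintro z ⟨h1, h2, h3⟩
      have h4 : z = 0 := h1
      exact ⟨h4 ▸ h0, h3⟩
  | succ j ih =>
    have h1 := low_fold hR ((w.drop ((0 + j) * N1)).take N1) _ _ ih
    have h2 : (cfg nbT η (un toLab N1 w) (0 + (j + 1)),
        inf nbT tv η (un toLab N1 w) (fun _ => Set.univ) 0 {0} (j + 1)) =
        ((w.drop ((0 + j) * N1)).take N1).foldl (stR toLab nbT tv Set.univ)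
          (cfg nbT η (un toLab N1 w) (0 + j),
            inf nbT tv η (un toLab N1 w) (fun _ => Set.univ) 0 {0} j) := by
      rw [inf, ← add_assoc, cfg, Set.inter_univ]
      refine Prod.ext ?_ ?_
      · rw [fold_stR_fst, un, fold_stF]
      · rw [un, fold_stR]
    have h3 : (cfg (nbB R) (ini0 R η) (un (gf R) N1 w) (0 + (j + 1)),
        inf (nbB R) id (ini0 R η) (un (gf R) N1 w) (fun _ => Set.univ) 0 {0} (j + 1)) =
        ((w.drop ((0 + j) * N1)).take N1).foldl (stR (gf R) (nbB R) id Set.univ)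
          (cfg (nbB R) (ini0 R η) (un (gf R) N1 w) (0 + j),
            inf (nbB R) id (ini0 R η) (un (gf R) N1 w) (fun _ => Set.univ) 0 {0} j) := by
      rw [inf, ← add_assoc, cfg, Set.inter_univ]
      refine Prod.ext ?_ ?_
      · rw [fold_stR_fst, un, fold_stF]
      · rw [un, fold_stR]
    rw [h2, h3]
    exact h1

end below

end ZP.LK

namespace ZP.Rows

open ZP ZP.LK
open ZI.LK (supn_le ini0)

variable {d : ℕ} {m : Model} {δ : ℝ}

/-- the killed system is below the torus system (deterministic) -/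
theorem kill_vis (q : Par d m δ) (R : ℕ) (hR : 2 * R + 2 ≤ q.M) (η : Tor d q.M → ℕ)
    (l : List (Let d q.M (q.K + 1))) (t : ℕ) (b : Pos d)
    (h : (kill R (envT q η l)).vis (fun _ => Set.univ) 0 0 t b) :
    (envT q η l).vis (fun _ => Set.univ) 0 0 t b := by
  obtain ⟨j, hj, hb⟩ := h
  refine ⟨j, hj, ?_⟩
  rw [kill_U q R hR] at hb
  have hb' : b ∈ visU (nbB R) id (ini0 R η) (un (gf R) q.N1 l) (fun _ => Set.univ) 0 {0} j := hb
  show b ∈ visU nbT tv η (un toLab q.N1 l) (fun _ => Set.univ) 0 {0} j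
  unfold visU at hb' ⊢
  rw [Set.mem_ofPred_eq] at hb' ⊢
  unfold un at hb' ⊢
  rw [vis_letters] at hb' ⊢
  obtain ⟨i, hi, hz⟩ := hb'
  refine ⟨i, hi, ?_⟩
  rw [Set.inter_univ] at hz ⊢
  exact (low_fold hR _ _ _ (low_inf hR q.N1 l η j)).2.1 hz

theorem kill_R (q : Par d m δ) (R : ℕ) (hR : 2 * R + 2 ≤ q.M) (η : Tor d q.M → ℕ)
    (l : List (Let d q.M (q.K + 1))) (t : ℕ) (b : Pos d)
    (h : (kill R (envT q η l)).R (fun _ => Set.univ) 0 0 t b) :
    (envT q η l).R (fun _ => Set.univ) 0 0 t b := by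
  obtain ⟨j, hj, hb⟩ := h
  refine ⟨j, hj, ?_⟩
  rw [kill_U q R hR] at hb
  have hb' : b ∈ inf (nbB R) id (ini0 R η) (un (gf R) q.N1 l) (fun _ => Set.univ) 0 {0} j := hb
  show b ∈ inf nbT tv η (un toLab q.N1 l) (fun _ => Set.univ) 0 {0} j
  exact (low_inf hR q.N1 l η j).2.1 hb'


/-- the bound for the difference of the configurations, for the chain without recovery -/
theorem bad_le (hd : 0 < d) (C1 C2 : ℕ) (hC1 : m.φ * 2 ^ d ≤ C1) (hC2 : Real.exp 1 * m.Gp + 5 ≤ C2)
    (q : ZI.Par d m) (R N : ℕ) (hR : 2 * R + 2 ≤ q.M) (hN : 16 * N + 4 ≤ R) :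
    q.PP (N * q.N1) (fun η l => ∃ i, ZI.LK.Bad q (4 * N) ((l.take i).foldl ZI.stepA η)
        ((l.take i).foldl (ZI.LK.kst R) (ini0 R η))) ≤
      ENNReal.ofReal (((C1 + C2 + d : ℕ) : ℝ) * (R + 1 : ℝ) ^ (C1 + C2 + d) *
        Real.exp (((C1 + C2 + d : ℕ) : ℝ) * N - R / 4)) := by
  have hp := q.p_pos
  have hGp : 0 < m.Gp := by linarith [m.le_Gp]
  have hφ := m.φ_pos
  have hB : 4 * N ≤ R := by omega
  have hC1' : (0 : ℝ) ≤ C1 := Nat.cast_nonneg _
  have hC2' : (0 : ℝ) ≤ C2 := Nat.cast_nonneg _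
  have hpN : q.p * (N * q.N1 : ℕ) ≤ N := by
    have h1 := q.p_ub
    have h2 : (0 : ℝ) ≤ N := Nat.cast_nonneg _
    push_cast
    nlinarith
  calc q.PP (N * q.N1) (fun η l => ∃ i, ZI.LK.Bad q (4 * N) ((l.take i).foldl ZI.stepA η)
        ((l.take i).foldl (ZI.LK.kst R) (ini0 R η)))
      = ∑' η : Tor d q.M → ℕ, prw (m.m1 q.K) η * PrE q.w (N * q.N1) (fun l => ∃ i,
          ZI.LK.Bad q (4 * N) ((l.take i).foldl ZI.stepA η)
            ((l.take i).foldl (ZI.LK.kst R) (ini0 R η))) := rfl
    _ ≤ ∑' η : Tor d q.M → ℕ, prw (m.m1 q.K) η *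
          (ENNReal.ofReal (Real.exp (((4 * N : ℕ) : ℝ) - R)) * ZI.LK.Src q R (N * q.N1) η) := by
        refine ENNReal.tsum_le_tsum fun η => mul_le_mul' le_rfl ?_
        refine (ZI.LK.pr_bad q R hd hR hB (N * q.N1) η (ini0 R η) (ZI.LK.inv_ini η)).trans (le_of_eq ?_)
        rw [ZI.LK.Dd_ini, mul_zero, zero_add]
    _ = ENNReal.ofReal (Real.exp (((4 * N : ℕ) : ℝ) - R)) *
          ∑' η : Tor d q.M → ℕ, prw (m.m1 q.K) η * ZI.LK.Src q R (N * q.N1) η := by
        rw [← ENNReal.tsum_mul_left]
        refine tsum_congr fun η => ?_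
        ring
    _ ≤ ENNReal.ofReal (Real.exp (((4 * N : ℕ) : ℝ) - R)) *
          (((N * q.N1 : ℕ) : ℝ≥0∞) * (1 + ZI.LK.eps q) ^ (N * q.N1) *
            (((2 * R + 1 : ℕ) : ℝ≥0∞) ^ d * ENNReal.ofReal (m.φ * q.p))) :=
        mul_le_mul' le_rfl (ZI.LK.mean_Src q R hd _)
    _ = ENNReal.ofReal (Real.exp (((4 * N : ℕ) : ℝ) - R) * (((N * q.N1 : ℕ) : ℝ) *
          (1 + Real.exp 1 * m.Gp * q.p) ^ (N * q.N1) * (((2 * R + 1 : ℕ) : ℝ) ^ d *
            (m.φ * q.p)))) := by
        have h1 : (0 : ℝ) ≤ Real.exp 1 * m.Gp * q.p := by positivity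
        unfold ZI.LK.eps
        rw [← ENNReal.ofReal_one, ← ENNReal.ofReal_add zero_le_one h1,
          ← ENNReal.ofReal_pow (by positivity), ← ENNReal.ofReal_natCast (N * q.N1),
          ← ENNReal.ofReal_natCast (2 * R + 1), ← ENNReal.ofReal_pow (by positivity),
          ← ENNReal.ofReal_mul (by positivity), ← ENNReal.ofReal_mul (by positivity),
          ← ENNReal.ofReal_mul (by positivity), ← ENNReal.ofReal_mul (by positivity)]
    _ ≤ ENNReal.ofReal (((C1 + C2 + d : ℕ) : ℝ) * (R + 1 : ℝ) ^ (C1 + C2 + d) *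
          Real.exp (((C1 + C2 + d : ℕ) : ℝ) * N - R / 4)) := by
        refine ENNReal.ofReal_le_ofReal ?_
        have h1 : (1 + Real.exp 1 * m.Gp * q.p) ^ (N * q.N1) ≤ Real.exp (Real.exp 1 * m.Gp * N) := by
          calc (1 + Real.exp 1 * m.Gp * q.p) ^ (N * q.N1)
              ≤ (Real.exp (Real.exp 1 * m.Gp * q.p)) ^ (N * q.N1) := by
                refine pow_le_pow_left₀ (by positivity) ?_ _
                have := Real.add_one_le_exp (Real.exp 1 * m.Gp * q.p)
                linarith
            _ = Real.exp (((N * q.N1 : ℕ) : ℝ) * (Real.exp 1 * m.Gp * q.p)) := by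
                rw [← Real.exp_nat_mul]
            _ ≤ _ := by
                refine Real.exp_le_exp.2 ?_
                have h2 : (0 : ℝ) ≤ Real.exp 1 * m.Gp := by positivity
                calc ((N * q.N1 : ℕ) : ℝ) * (Real.exp 1 * m.Gp * q.p) =
                      Real.exp 1 * m.Gp * (q.p * (N * q.N1 : ℕ)) := by ring
                  _ ≤ _ := mul_le_mul_of_nonneg_left hpN h2
        have h2 : (((2 * R + 1 : ℕ) : ℝ)) ^ d ≤ 2 ^ d * (R + 1 : ℝ) ^ (C1 + C2 + d) := by
          calc (((2 * R + 1 : ℕ) : ℝ)) ^ d ≤ (2 * (R + 1 : ℝ)) ^ d := by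
                refine pow_le_pow_left₀ (by positivity) ?_ _
                push_cast
                linarith
            _ = 2 ^ d * (R + 1 : ℝ) ^ d := mul_pow _ _ _
            _ ≤ _ := by
                refine mul_le_mul_of_nonneg_left ?_ (by positivity)
                exact pow_le_pow_right₀ (by linarith [(Nat.cast_nonneg R : (0 : ℝ) ≤ R)]) (by omega)
        have h3 : ((N * q.N1 : ℕ) : ℝ) * q.p ≤ Real.exp N := by
          have h4 := Real.add_one_le_exp (N : ℝ)
          linarith
        have h5 : ((C1 : ℕ) : ℝ) ≤ ((C1 + C2 + d : ℕ) : ℝ) := by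
          exact_mod_cast (by omega : C1 ≤ C1 + C2 + d)
        have h6 : Real.exp 1 * m.Gp + 5 ≤ ((C1 + C2 + d : ℕ) : ℝ) := by
          refine hC2.trans ?_
          exact_mod_cast (by omega : C2 ≤ C1 + C2 + d)
        have hR0 : (0 : ℝ) ≤ R := Nat.cast_nonneg _
        have hN0 : (0 : ℝ) ≤ N := Nat.cast_nonneg _
        calc Real.exp (((4 * N : ℕ) : ℝ) - R) * (((N * q.N1 : ℕ) : ℝ) *
              (1 + Real.exp 1 * m.Gp * q.p) ^ (N * q.N1) * (((2 * R + 1 : ℕ) : ℝ) ^ d *
                (m.φ * q.p)))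
            = Real.exp (((4 * N : ℕ) : ℝ) - R) * ((((N * q.N1 : ℕ) : ℝ) * q.p) *
              (1 + Real.exp 1 * m.Gp * q.p) ^ (N * q.N1) * (m.φ * ((2 * R + 1 : ℕ) : ℝ) ^ d)) := by
              ring
          _ ≤ Real.exp (((4 * N : ℕ) : ℝ) - R) * (Real.exp N *
              Real.exp (Real.exp 1 * m.Gp * N) * (m.φ * (2 ^ d * (R + 1 : ℝ) ^ (C1 + C2 + d)))) := by
              gcongr
          _ = (m.φ * 2 ^ d) * (R + 1 : ℝ) ^ (C1 + C2 + d) *
              Real.exp ((4 * N - R) + N + Real.exp 1 * m.Gp * N) := by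
              rw [Real.exp_add, Real.exp_add]
              push_cast
              ring
          _ ≤ _ := by
              refine mul_le_mul (mul_le_mul_of_nonneg_right (hC1.trans h5) (by positivity))
                (Real.exp_le_exp.2 ?_) (Real.exp_pos _).le (by positivity)
              nlinarith

theorem killed_agree (m : Model) (δ : ℝ) (d : ℕ) (hd : 0 < d) : ∃ C : ℕ, ∀ q : Par d m δ, ∀ R N : ℕ,
    2 * R + 2 ≤ q.M → 16 * N + 4 ≤ R →
    q.PP (N * q.N1) (fun η l => ¬ Agree N (envT q η l) (kill R (envT q η l))) ≤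
      ENNReal.ofReal (C * (R + 1 : ℝ) ^ C * Real.exp (C * N - R / 4)) := by
  obtain ⟨C1, hC1⟩ := exists_nat_ge (m.φ * 2 ^ d)
  obtain ⟨C2, hC2⟩ := exists_nat_ge (Real.exp 1 * m.Gp + 5)
  refine ⟨C1 + C2 + d, fun q R N hR hN => ?_⟩
  have h0 : q.PP (N * q.N1) (fun η l => ¬ Agree N (envT q η l) (kill R (envT q η l))) ≤
      q.toZI.PP (N * q.N1) (fun η l => ∃ i, ZI.LK.Bad q.toZI (4 * N) ((l.take i).foldl ZI.stepA η)
        ((l.take i).foldl (ZI.LK.kst R) (ini0 R η))) := by
    refine le_trans ?_ (le_of_eq (PP_prj q hd (N * q.N1) (fun η l => ∃ i,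
      ZI.LK.Bad q.toZI (4 * N) ((l.take i).foldl ZI.stepA η)
        ((l.take i).foldl (ZI.LK.kst R) (ini0 R η)))))
    unfold Par.PP Par.EE
    refine ENNReal.tsum_le_tsum fun η => mul_le_mul' le_rfl ?_
    refine ZI.PrE_mono q.w _ fun l _ h => ?_
    by_contra hc
    push Not at hc
    refine h (agree_of q R N hR (by omega) η l fun i x hx => ?_)
    by_contra hne
    refine hc i ⟨x, hx, ?_⟩
    intro hcon
    apply hne
    rw [fold_stepA_prj, fold_kst_prj, List.map_take]
    exact hcon
  exact h0.trans (bad_le hd C1 C2 hC1 hC2 q.toZI R N hR hN)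

end ZP.Rows
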