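import Pool.Agent.ZP.ProcE
import Pool.Agent.ZI.P1

/-! # Row P1: identities between the environments given by the clocks (with recovery) -/

set_option autoImplicit false

open scoped ENNReal BigOperators Classical
open MeasureTheory

noncomputable section

namespace ZP.Rows

open ZP ZI.P1

variable {d : ℕ} {m : Model} {δ : ℝ}

variable {Ω : Type} [MeasurableSpace Ω] {P : Measure Ω}

theorem capE_envC (C : Clocks m δ d P) (M K K' T : ℕ) (hK : K' ≤ K) (ω : Ω) :
    capE K' (envC C M K T ω) = envC C M K' T ω := by
  have h : ∀ t : ℕ, ((envC C M K T ω).U t).filter (fun b => decide (b.2.1 < K' + 1)) =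
      (envC C M K' T ω).U t := fun t => by
    simp only [envC]
    by_cases ht : t < T
    · rw [if_pos ht, if_pos ht, List.filter_map]
      congr 1
      rw [ringList_filter (C.ring ω) (torLab d M (K + 1)) (torLab d M (K' + 1)) t (t + 1) (C.ring_fin ω)
        (fun l => l.2.1 < K' + 1)]
      · refine List.filter_congr fun l _ => ?_
        simp
      · intro l
        rw [mem_torLab, mem_torLab]
        constructor
        · rintro ⟨h1, h2⟩
          exact ⟨⟨h1, by omega⟩, h2⟩
        · rintro ⟨⟨h1, h2⟩, h3⟩
          exact ⟨h1, h3⟩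
    · rw [if_neg ht, if_neg ht]
      rfl
  unfold capE
  rw [show (fun t => ((envC C M K T ω).U t).filter (fun b => decide (b.2.1 < K' + 1))) =
    (envC C M K' T ω).U from funext h]
  rfl

theorem kill_envC (C : Clocks m δ d P) (M R K T : ℕ) (hR : 2 * R + 2 ≤ M) (ω : Ω) :
    kill R (envC C M K T ω) = envB C R K T ω := by
  have hbox : ∀ x : Pos d, supn x ≤ R → ∀ j, -(M : ℤ) < 2 * x j ∧ 2 * x j ≤ M := fun x hx j => by
    have := (supn_le x R).mp hx j
    omega
  have h0 : (fun x : Pos d => if supn x ≤ R then (envC C M K T ω).η0 ((envC C M K T ω).pr x) else 0) =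
      fun x => if supn x ≤ R then C.η0 ω x else 0 := by
    funext x
    by_cases hx : supn x ≤ R
    · rw [if_pos hx, if_pos hx]
      show C.η0 ω (lft (tv x : Tor d M)) = _
      rw [lft_tv M (by omega) x (hbox x hx)]
    · rw [if_neg hx, if_neg hx]
  have h : ∀ t : ℕ, ((envC C M K T ω).U t).filterMap (fun b =>
      if h : ∃ x : Pos d, supn x ≤ R ∧ (envC C M K T ω).pr x = b.1 then some (h.choose, b.2)
        else none) = (envB C R K T ω).U t := fun t => by
    simp only [envC, envB]
    by_cases ht : t < T
    · rw [if_pos ht, if_pos ht, List.filterMap_map]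
      rw [ringList_filter (C.ring ω) (torLab d M (K + 1)) (boxLab d R (K + 1)) t (t + 1) (C.ring_fin ω)
        (fun l => supn l.1 ≤ R)]
      · rw [← List.filterMap_eq_filter]
        refine List.filterMap_congr fun l hl => ?_
        have hl' := (mem_torLab M (K + 1) l).mp (mem_ringList _ _ _ _ (C.ring_fin ω) l hl)
        simp only [Function.comp_apply]
        by_cases hx : supn l.1 ≤ R
        · have hex : ∃ x : Pos d, supn x ≤ R ∧ (tv x : Tor d M) = tv l.1 := ⟨l.1, hx, rfl⟩
          refine Eq.trans (dif_pos hex) ?_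
          have h1 : hex.choose = l.1 := tv_inj M _ _ (hbox _ hex.choose_spec.1) hl'.1
            hex.choose_spec.2
          simp [Option.guard, hx, h1]
        · have hex : ¬ ∃ x : Pos d, supn x ≤ R ∧ (tv x : Tor d M) = tv l.1 := by
            rintro ⟨x, hx1, hx2⟩
            have h1 := tv_inj M _ _ (hbox _ hx1) hl'.1 hx2
            exact hx (h1 ▸ hx1)
          refine Eq.trans (dif_neg hex) ?_
          simp [Option.guard, hx]
      · intro l
        rw [mem_torLab, mem_boxLab]
        constructor
        · rintro ⟨h1, h2⟩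
          exact ⟨⟨hbox _ h1, h2⟩, h1⟩
        · rintro ⟨⟨h1, h2⟩, h3⟩
          exact ⟨h3, h2⟩
    · rw [if_neg ht, if_neg ht]
      rfl
  unfold kill
  rw [h0, funext h]
  rfl

end ZP.Rows
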