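import Pool.Agent.ZP.ProcE
import Pool.Agent.ZP.InfLem
import Pool.Agent.ZI.P1b

/-! # Row P1b: the real killed systems, monotonicity and the environment `envB` (with recovery);
port of ZI/P1b -/

set_option autoImplicit false

open scoped ENNReal BigOperators Classical Pointwise
open MeasureTheory

noncomputable section

namespace ZP.P1b

open ZP
open ZI.P1b (ringList_self ringList_append ringList_take supN_eq nbB_some nbB_iff mem_box supn_zero)

variable {d : ℕ} {m : Model} {δ : ℝ}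

/-! ### the systems in boxes -/

/-- `Fin' R K η` is used from `ZI` -/
theorem step_noeff {V : Type} {nb : V → Dir d → Option V} {pr : Pos d → V}
    {s : (V → ℕ) × Set (Pos d)} {l : Lab V d} (hocc : ∀ z ∈ s.2, 0 < s.1 (pr z))
    (h : s.1 l.1 ≤ l.2.1 - 1) (h0 : l.2.1 = 0 → s.1 l.1 = 0) :
    stepR nb pr Set.univ s l = s := by
  obtain ⟨x, j, e⟩ := l
  obtain ⟨η, A⟩ := s
  cases j with
  | zero =>
    have hx : η x = 0 := h0 rfl
    refine Prod.ext rfl ?_
    show {z | z ∈ A ∧ (pr z = x → 2 ≤ η x)} ∩ Set.univ = A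
    rw [Set.inter_univ]
    ext z
    constructor
    · exact fun hz => hz.1
    · intro hz
      refine ⟨hz, fun h2 => ?_⟩
      have h1 : 0 < η (pr z) := hocc z hz
      rw [h2, hx] at h1
      exact absurd h1 (lt_irrefl _)
  | succ k =>
    exact ZI.P1b.step_noeff (nb := nb) (pr := pr) (s := (η, A)) (l := (x, k, e)) h

/-- a label outside the box of labels has no effect -/
theorem low {R K : ℕ} {η : Pos d → ℕ} (h : ZI.P1b.Fin' R K η) {l : Lab (Pos d) d}
    (hl : l ∉ boxLab d R (K + 1)) : η l.1 ≤ l.2.1 - 1 ∧ (l.2.1 = 0 → η l.1 = 0) := by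
  obtain ⟨x, j, e⟩ := l
  rw [ZI.P1.mem_boxLab, not_and_or] at hl
  rcases hl with hl | hl
  · have hx : η x = 0 := by
      have : ¬ 0 < η x := fun h1 => hl (h.supp _ h1)
      omega
    exact ⟨by rw [hx]; exact Nat.zero_le _, fun _ => hx⟩
  · have hj : K + 1 ≤ j := not_lt.mp hl
    refine ⟨?_, fun h0 => ?_⟩
    · show η x ≤ j - 1
      by_cases h1 : 0 < η x
      · have h2 := (Finset.single_le_sum (f := η) (fun x _ => Nat.zero_le _)
          ((mem_box R x).mpr (h.supp _ h1))).trans h.sum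
        omega
      · omega
    · have : j = 0 := h0
      omega

theorem finStep {R K : ℕ} {η : Pos d → ℕ} (h : ZI.P1b.Fin' R K η) (l : Lab (Pos d) d) :
    ZI.P1b.Fin' R K (mv (nbB R) η l) := by
  obtain ⟨x, j, e⟩ := l
  cases j with
  | zero => exact h
  | succ k => exact h.step (x, k, e)

theorem foldl_filter {R K : ℕ} (p : Lab (Pos d) d → Prop)
    (hp : ∀ l, ¬ p l → l ∉ boxLab d R (K + 1)) (L : List (Lab (Pos d) d)) :
    ∀ s : (Pos d → ℕ) × Set (Pos d), ZI.P1b.Fin' R K s.1 → (∀ z ∈ s.2, 0 < s.1 z) →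
      (L.filter (fun l => decide (p l))).foldl (stepR (nbB R) id Set.univ) s =
        L.foldl (stepR (nbB R) id Set.univ) s := by
  induction L with
  | nil => intro s _ _; rfl
  | cons l L ih =>
    intro s hs ho
    by_cases hl : p l
    · rw [List.filter_cons_of_pos (by simpa using hl), List.foldl_cons, List.foldl_cons]
      exact ih _ (finStep hs l) (fun z hz => infMv_occ (pr := id) ho hz.1)
    · rw [List.filter_cons_of_neg (by simpa using hl), List.foldl_cons,
        step_noeff (pr := id) ho (low hs (hp l hl)).1 (low hs (hp l hl)).2]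
      exact ih _ hs ho

theorem Inv.step {R R' K : ℕ} (hR : R ≤ R') {s s' : (Pos d → ℕ) × Set (Pos d)}
    (h : ZI.P1b.Inv R K s s') (l : Lab (Pos d) d) :
    ZI.P1b.Inv R K (stepR (nbB R) id Set.univ s l) (stepR (nbB R') id Set.univ s' l) := by
  obtain ⟨x, j, e⟩ := l
  cases j with
  | zero =>
    refine ⟨h.fin, h.le, ?_, fun z hz => h.occ z hz.1.1⟩
    rintro z ⟨⟨h1, h2⟩, h3⟩
    exact ⟨⟨h.sub h1, fun h4 => (h2 h4).trans (h.le _)⟩, h3⟩
  | succ k => exact ZI.P1b.Inv.step hR h (x, k, e)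

theorem Inv.foldl {R R' K : ℕ} (hR : R ≤ R') (L : List (Lab (Pos d) d)) :
    ∀ s s' : (Pos d → ℕ) × Set (Pos d), ZI.P1b.Inv R K s s' →
      ZI.P1b.Inv R K (L.foldl (stepR (nbB R) id Set.univ) s)
        (L.foldl (stepR (nbB R') id Set.univ) s') := by
  induction L with
  | nil => intro s s' h; exact h
  | cons l L ih =>
    intro s s' h
    exact ih _ _ (Inv.step hR h l)

section

variable {Ω : Type} [MeasurableSpace Ω] {P : Measure Ω}

theorem ini_fin (C : Clocks m δ d P) (R : ℕ) (ω : Ω) :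
    ZI.P1b.Fin' R (tot C R ω) (ini C R ω) := by
  refine ⟨fun x hx => ?_, ?_⟩
  · unfold ini at hx
    by_contra h
    have h' : ¬ supN x ≤ R := h
    rw [if_neg h'] at hx
    exact lt_irrefl _ hx
  · unfold tot
    refine Finset.sum_le_sum fun x hx => ?_
    unfold ini
    split_ifs <;> omega

theorem ini_occ (C : Clocks m δ d P) (R : ℕ) (ω : Ω) :
    ∀ z ∈ ({z | z = 0 ∧ 0 < C.η0 ω 0} : Set (Pos d)), 0 < ini C R ω z := by
  rintro z ⟨h1, h2⟩
  subst h1
  unfold ini
  rw [if_pos]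
  · exact h2
  · rw [supN_eq, supn_zero]
    exact Nat.zero_le _

theorem tot_mono (C : Clocks m δ d P) {R R' : ℕ} (hR : R ≤ R') (ω : Ω) :
    tot C R ω ≤ tot C R' ω := by
  unfold tot
  refine Finset.sum_le_sum_of_subset fun x hx => ?_
  rw [mem_box] at hx ⊢
  exact hx.trans hR

/-- the killed system with a larger set of labels -/
theorem st_eq (C : Clocks m δ d P) (R R' K : ℕ) (hR : R ≤ R') (ω : Ω) (hK : tot C R ω ≤ K)
    (t : ℝ) :
    st C R ω t = (ringList (C.ring ω) (boxLab d R' (K + 1)) 0 t).foldl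
      (stepR (nbB R) id Set.univ) (ini C R ω, {z | z = 0 ∧ 0 < C.η0 ω 0}) := by
  unfold st
  rw [ZI.P1.ringList_filter (C.ring ω) (boxLab d R' (K + 1)) (boxLab d R (tot C R ω + 1)) 0 t
    (C.ring_fin ω) (fun l => l ∈ boxLab d R (tot C R ω + 1))]
  · exact foldl_filter _ (fun l h => h) _ (ini C R ω, {z | z = 0 ∧ 0 < C.η0 ω 0})
      (ini_fin C R ω) (ini_occ C R ω)
  · intro l
    constructor
    · intro h
      refine ⟨?_, h⟩
      rw [ZI.P1.mem_boxLab] at h ⊢
      exact ⟨h.1.trans hR, lt_of_lt_of_le h.2 (by omega)⟩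
    · exact fun h => h.2

/-- the state of the environment `envB` at integer times -/
theorem env_state (C : Clocks m δ d P) (R K T : ℕ) (ω : Ω) (hK : tot C R ω ≤ K) (j : ℕ)
    (hj : j ≤ T) :
    (cfg (envB C R K T ω).nb (envB C R K T ω).η0 (envB C R K T ω).U j,
      inf (envB C R K T ω).nb (envB C R K T ω).pr (envB C R K T ω).η0 (envB C R K T ω).U
        (fun _ => Set.univ) 0 {0} j) = st C R ω j := by
  induction j with
  | zero =>
    rw [st_eq C R R K le_rfl ω hK, Nat.cast_zero, ringList_self]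
    refine Prod.ext rfl ?_
    show {z : Pos d | z ∈ ({0} : Set (Pos d)) ∧ z ∈ Set.univ ∧
      0 < (if supn z ≤ R then C.η0 ω z else 0)} = {z | z = 0 ∧ 0 < C.η0 ω 0}
    ext z
    simp only [Set.mem_ofPred_eq, Set.mem_singleton_iff, Set.mem_univ, true_and]
    constructor
    · rintro ⟨h1, h2⟩
      subst h1
      rw [if_pos (by rw [supn_zero]; exact Nat.zero_le _)] at h2
      exact ⟨rfl, h2⟩
    · rintro ⟨h1, h2⟩
      subst h1
      rw [if_pos (by rw [supn_zero]; exact Nat.zero_le _)]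
      exact ⟨rfl, h2⟩
  | succ j ih =>
    have ih' := ih (by omega)
    have hU : (envB C R K T ω).U j =
        ringList (C.ring ω) (boxLab d R (K + 1)) j (j + 1) := by
      show (if j < T then ringList (C.ring ω) (boxLab d R (K + 1)) j (j + 1) else []) = _
      rw [if_pos (by omega)]
    rw [st_eq C R R K le_rfl ω hK, Nat.cast_succ,
      ringList_append (C.ring ω) (boxLab d R (K + 1))
      (b := (j : ℝ)) (Nat.cast_nonneg j) (by linarith) (C.ring_fin ω), List.foldl_append,
      ← st_eq C R R K le_rfl ω hK, ← ih', ← hU]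
    refine Prod.ext ?_ ?_
    · show _ = (((envB C R K T ω).U j).foldl
        (stepR (envB C R K T ω).nb (envB C R K T ω).pr Set.univ) _).1
      rw [foldl_stepR_fst]
      rfl
    · show (((envB C R K T ω).U (0 + j)).foldl
        (stepR (envB C R K T ω).nb (envB C R K T ω).pr Set.univ)
        (cfg _ _ _ (0 + j), inf _ _ _ _ _ 0 {0} j ∩ Set.univ)).2 = _
      rw [zero_add, Set.inter_univ]
      rfl

/-- the killed system from the time `a` to the time `s` -/
theorem st_split (C : Clocks m δ d P) (R K : ℕ) (ω : Ω) (hK : tot C R ω ≤ K) (a s : ℝ)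
    (ha : 0 ≤ a) (hs : a ≤ s) :
    st C R ω s = (ringList (C.ring ω) (boxLab d R (K + 1)) a s).foldl
      (stepR (nbB R) id Set.univ) (st C R ω a) := by
  rw [st_eq C R R K le_rfl ω hK s, ringList_append (C.ring ω) (boxLab d R (K + 1))
    (b := a) ha hs (C.ring_fin ω), List.foldl_append,
    ← st_eq C R R K le_rfl ω hK]

theorem foldl_empty {R : ℕ} (L : List (Lab (Pos d) d)) (η : Pos d → ℕ) :
    (L.foldl (stepR (nbB R) id Set.univ) (η, ∅)).2 = ∅ := by
  rw [Set.eq_empty_iff_forall_notMem]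
  intro z hz
  obtain ⟨y, hy, -⟩ := mem_foldl_stepR L η ∅ z hz
  exact hy

end

end ZP.P1b

namespace ZP.Rows

open ZP
open ZI.P1b (ringList_self ringList_append ringList_take supN_eq mem_box supn_zero)

variable {d : ℕ} {m : Model} {δ : ℝ} {Ω : Type} [MeasurableSpace Ω] {P : Measure Ω}

set_option linter.unusedVariables false in
theorem st_mono (C : Clocks m δ d P) (R R' : ℕ) (hR : R ≤ R') (ω : Ω) (hω : NoTies C ω) (t : ℝ) :
    (st C R ω t).1 ≤ (st C R' ω t).1 ∧ (st C R ω t).2 ⊆ (st C R' ω t).2 := by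
  rw [P1b.st_eq C R R' (tot C R' ω) hR ω (P1b.tot_mono C hR ω)]
  have h := P1b.Inv.foldl hR (K := tot C R ω)
    (ringList (C.ring ω) (boxLab d R' (tot C R' ω + 1)) 0 t)
    (ini C R ω, {z | z = 0 ∧ 0 < C.η0 ω 0}) (ini C R' ω, {z | z = 0 ∧ 0 < C.η0 ω 0})
    ⟨P1b.ini_fin C R ω, fun x => ?_, subset_rfl, P1b.ini_occ C R ω⟩
  · exact ⟨h.le, h.sub⟩
  · show ini C R ω x ≤ ini C R' ω x
    unfold ini
    by_cases h1 : supN x ≤ R
    · rw [if_pos h1, if_pos (h1.trans hR)]
    · rw [if_neg h1]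
      exact Nat.zero_le _

/-- the real killed system and the environment `envB` -/
theorem st_vis (C : Clocks m δ d P) (R K T : ℕ) (ω : Ω) (hω : NoTies C ω) (hK : tot C R ω ≤ K) (t : ℕ)
    (ht : 1 ≤ t) (htT : t ≤ T) (b : Pos d) :
    (∃ s : ℝ, 0 ≤ s ∧ s ≤ t ∧ b ∈ (st C R ω s).2) ↔
      (envB C R K T ω).vis (fun _ => Set.univ) 0 0 t b := by
  have key : ∀ j : ℕ, j < T → ∀ s : ℝ, (j : ℝ) ≤ s →
      st C R ω s = (ringList (C.ring ω) (boxLab d R (K + 1)) j s).foldl
        (stepR (nbB R) id Set.univ) (st C R ω j) := fun j _ s hs =>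
    P1b.st_split C R K ω hK j s (Nat.cast_nonneg j) hs
  have hU : ∀ j : ℕ, j < T → (envB C R K T ω).U j =
      ringList (C.ring ω) (boxLab d R (K + 1)) j (j + 1) := by
    intro j hj
    show (if j < T then ringList (C.ring ω) (boxLab d R (K + 1)) j (j + 1) else []) = _
    rw [if_pos hj]
  have hvis : ∀ j : ℕ, j < T → ∀ b : Pos d,
      (b ∈ visU (envB C R K T ω).nb (envB C R K T ω).pr (envB C R K T ω).η0 (envB C R K T ω).U
        (fun _ => Set.univ) 0 {0} j ↔
      ∃ i ≤ (ringList (C.ring ω) (boxLab d R (K + 1)) j (j + 1)).length,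
        b ∈ (((ringList (C.ring ω) (boxLab d R (K + 1)) j (j + 1)).take i).foldl
          (stepR (nbB R) id Set.univ) (st C R ω j)).2) := by
    intro j hj b
    rw [← hU j hj, ← P1b.env_state C R K T ω hK j hj.le]
    unfold visU
    rw [zero_add, Set.inter_univ]
    rfl
  unfold Env.vis
  constructor
  · rintro ⟨s, hs0, hst, hb⟩
    obtain ⟨j, hjt, hj1, hj2⟩ : ∃ j : ℕ, j < t ∧ (j : ℝ) ≤ s ∧ s ≤ j + 1 := by
      rcases eq_or_lt_of_le hst with h1 | h1
      · refine ⟨t - 1, by omega, ?_, ?_⟩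
        · rw [h1, Nat.cast_sub ht]
          simp
        · rw [h1, Nat.cast_sub ht]
          simp
      · refine ⟨⌊s⌋₊, ?_, Nat.floor_le hs0, (Nat.lt_floor_add_one s).le⟩
        exact (Nat.floor_lt hs0).mpr h1
    refine ⟨j, by omega, ?_⟩
    rw [hvis j (by omega)]
    have hsplit := ringList_append (C.ring ω) (boxLab d R (K + 1)) hj1 hj2 (C.ring_fin ω)
    refine ⟨(ringList (C.ring ω) (boxLab d R (K + 1)) j s).length, ?_, ?_⟩
    · rw [hsplit, List.length_append]
      exact Nat.le_add_right _ _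
    · rw [hsplit, List.take_left', ← key j (by omega) s hj1]
      · exact hb
      · rfl
  · rintro ⟨j, hj, hb⟩
    have hjT : j < T := by omega
    rw [hvis j hjT] at hb
    obtain ⟨i, hi, hb⟩ := hb
    obtain ⟨s, hs1, hs2, hs3⟩ := ringList_take (C.ring ω) (boxLab d R (K + 1))
      (Nat.cast_nonneg j) (show (j : ℝ) ≤ j + 1 by linarith) (C.ring_fin ω) hω i hi
    rw [hs3, ← key j hjT s hs1] at hb
    refine ⟨s, (Nat.cast_nonneg j).trans hs1, hs2.trans ?_, hb⟩
    have : j + 1 ≤ t := by omega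
    exact_mod_cast this

set_option linter.unusedVariables false in
theorem st_R (C : Clocks m δ d P) (R K T : ℕ) (ω : Ω) (hω : NoTies C ω) (hK : tot C R ω ≤ K) (t : ℕ)
    (htT : t ≤ T) (b : Pos d) :
    b ∈ (st C R ω t).2 ↔ (envB C R K T ω).R (fun _ => Set.univ) 0 0 t b := by
  have h := congrArg Prod.snd (P1b.env_state C R K T ω hK t htT)
  rw [← h]
  unfold Env.R
  simp

set_option linter.unusedVariables false in
/-- if the infected set is nonempty at all integer times, it is nonempty at all times -/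
theorem surv_int (C : Clocks m δ d P) (ω : Ω) (hω : NoTies C ω)
    (h : ∀ t : ℕ, (infd C ω t).Nonempty) : ω ∈ Surv C := by
  intro t ht
  obtain ⟨x, R, hx⟩ := h ⌈t⌉₊
  rw [P1b.st_split C R (tot C R ω) ω le_rfl t ⌈t⌉₊ ht (Nat.le_ceil t)] at hx
  by_contra hne
  rw [Set.not_nonempty_iff_eq_empty] at hne
  have h1 : (st C R ω t).2 = ∅ := by
    rw [Set.eq_empty_iff_forall_notMem]
    intro z hz
    have : z ∈ infd C ω t := ⟨R, hz⟩
    rw [hne] at this
    exact this
  have h2 := P1b.foldl_empty (R := R) (ringList (C.ring ω) (boxLab d R (tot C R ω + 1)) t ⌈t⌉₊)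
    (st C R ω t).1
  rw [show ((st C R ω t).1, (∅ : Set (Pos d))) = st C R ω t from Prod.ext rfl h1.symm] at h2
  rw [h2] at hx
  exact hx

end ZP.Rows
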