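import Pool.Agent.ZP.PJ
import Pool.Agent.ZP.D0
import Pool.Agent.ZP.LK
import Pool.Agent.ZP.CK
import Pool.Agent.ZP.P1b
import Pool.Agent.ZP.P1
import Pool.Agent.ZP.P2a
import Pool.Agent.ZP.P2b
import Pool.Agent.ZI.F1c

/-! # Row F1c: the real process and the scales (with recovery) -/

set_option autoImplicit false

open scoped ENNReal BigOperators Classical Pointwise
open MeasureTheory

noncomputable section

namespace ZP.F1c

open ZP ZP.Rows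

variable {d : ℕ} {m : Model} {δ : ℝ}

section det

variable {V : Type} (nb : V → Dir d → Option V) (pr : Pos d → V) (η0 : V → ℕ)

theorem cfg_congr {U U' : ℕ → List (Lab V d)} {T : ℕ} (h : ∀ t < T, U t = U' t) :
    ∀ t ≤ T, cfg nb η0 U t = cfg nb η0 U' t := by
  intro t
  induction t with
  | zero => intro _; rfl
  | succ t ih =>
    intro ht
    show (U t).foldl (mv nb) (cfg nb η0 U t) = (U' t).foldl (mv nb) (cfg nb η0 U' t)
    rw [ih (by omega), h t (by omega)]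

theorem inf_congr {U U' : ℕ → List (Lab V d)} {T : ℕ} (h : ∀ t < T, U t = U' t)
    (G : ℕ → Set (Pos d)) (s : ℕ) (A : Set (Pos d)) :
    ∀ j, s + j ≤ T → inf nb pr η0 U G s A j = inf nb pr η0 U' G s A j := by
  intro j
  induction j with
  | zero =>
    intro hj
    show {z | z ∈ A ∧ z ∈ G s ∧ 0 < cfg nb η0 U s (pr z)} =
      {z | z ∈ A ∧ z ∈ G s ∧ 0 < cfg nb η0 U' s (pr z)}
    rw [cfg_congr nb η0 h s (by omega)]
  | succ j ih =>
    intro hj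
    show ((U (s + j)).foldl (stepR nb pr (G (s + j)))
      (cfg nb η0 U (s + j), inf nb pr η0 U G s A j ∩ G (s + j))).2 =
      ((U' (s + j)).foldl (stepR nb pr (G (s + j)))
      (cfg nb η0 U' (s + j), inf nb pr η0 U' G s A j ∩ G (s + j))).2
    rw [ih (by omega), cfg_congr nb η0 h (s + j) (by omega), h (s + j) (by omega)]

theorem visU_congr {U U' : ℕ → List (Lab V d)} {T : ℕ} (h : ∀ t < T, U t = U' t)
    (G : ℕ → Set (Pos d)) (s : ℕ) (A : Set (Pos d)) (j : ℕ) (hj : s + j < T) :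
    visU nb pr η0 U G s A j = visU nb pr η0 U' G s A j := by
  unfold visU
  rw [inf_congr nb pr η0 h G s A j (by omega), cfg_congr nb η0 h (s + j) (by omega), h (s + j) hj]

end det

theorem EqEnv_vis {E E' : Env d} (h : EqEnv E E') {G : ℕ → Set (Pos d)} {s t : ℕ} {x b : Pos d} :
    E.vis G s x t b ↔ E'.vis G s x t b := by
  unfold Env.vis
  constructor
  · rintro ⟨j, hj, hb⟩
    exact ⟨j, hj, by rw [← h.vis]; exact hb⟩
  · rintro ⟨j, hj, hb⟩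
    exact ⟨j, hj, by rw [h.vis]; exact hb⟩

theorem EqEnv_R {E E' : Env d} (h : EqEnv E E') {G : ℕ → Set (Pos d)} {s t : ℕ} {x b : Pos d} :
    E.R G s x t b ↔ E'.R G s x t b := by
  unfold Env.R
  constructor
  · rintro ⟨j, hj, hb⟩
    exact ⟨j, hj, by rw [← h.inf]; exact hb⟩
  · rintro ⟨j, hj, hb⟩
    exact ⟨j, hj, by rw [h.inf]; exact hb⟩

section clocks

variable {Ω : Type} [MeasurableSpace Ω] {P : Measure Ω} (C : Clocks m δ d P)

theorem envC_U (M K T T' : ℕ) (h : T ≤ T') (ω : Ω) :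
    ∀ t < T, (envC C M K T ω).U t = (envC C M K T' ω).U t := by
  intro t ht
  have h1 : (envC C M K T ω).U t =
      (ringList (C.ring ω) (torLab d M (K + 1)) t (t + 1)).map (fun l => (tv l.1, l.2)) := if_pos ht
  have h2 : (envC C M K T' ω).U t =
      (ringList (C.ring ω) (torLab d M (K + 1)) t (t + 1)).map (fun l => (tv l.1, l.2)) :=
    if_pos (lt_of_lt_of_le ht h)
  exact h1.trans h2.symm

theorem envC_vis_T (M K T T' : ℕ) (h : T ≤ T') (ω : Ω) {G : ℕ → Set (Pos d)} {s t : ℕ} {x b : Pos d}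
    (ht : t ≤ T) : (envC C M K T ω).vis G s x t b ↔ (envC C M K T' ω).vis G s x t b := by
  have hU := envC_U C M K T T' h ω
  constructor
  · rintro ⟨j, hj, hb⟩
    refine ⟨j, hj, ?_⟩
    have := visU_congr (nbT (d := d) (M := M)) tv (fun v => C.η0 ω (lft v)) hU G s {x} j (by omega)
    exact this ▸ hb
  · rintro ⟨j, hj, hb⟩
    refine ⟨j, hj, ?_⟩
    have := visU_congr (nbT (d := d) (M := M)) tv (fun v => C.η0 ω (lft v)) hU G s {x} j (by omega)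
    exact this ▸ hb

theorem envC_R_T (M K T T' : ℕ) (h : T ≤ T') (ω : Ω) {G : ℕ → Set (Pos d)} {s t : ℕ} {x b : Pos d}
    (ht : t ≤ T) : (envC C M K T ω).R G s x t b ↔ (envC C M K T' ω).R G s x t b := by
  have hU := envC_U C M K T T' h ω
  constructor
  · rintro ⟨j, hj, hb⟩
    refine ⟨j, hj, ?_⟩
    have := inf_congr (nbT (d := d) (M := M)) tv (fun v => C.η0 ω (lft v)) hU G s {x} j (by omega)
    exact this ▸ hb
  · rintro ⟨j, hj, hb⟩
    refine ⟨j, hj, ?_⟩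
    have := inf_congr (nbT (d := d) (M := M)) tv (fun v => C.η0 ω (lft v)) hU G s {x} j (by omega)
    exact this ▸ hb

end clocks

/-- the infection from the origin is fast -/
def Fast (Cv r : ℕ) (T : ℕ) (E : Env d) : Prop :=
  ∃ y, E.vis (fun _ => Set.univ) 0 0 T y ∧ (Cv : ℝ) * T + r < nrm (y - 0)

/-- the ball of radius `4 N` -/
def bl (d N : ℕ) : Set (Pos d) := {x | supn x ≤ 4 * N}

theorem region_of_slow {E : Env d} {Cv r T N : ℕ} (h : ¬ Fast Cv r T E) (hN : Cv * T + r ≤ 4 * N)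
    (y : Pos d) (hy : E.vis (fun _ => Set.univ) 0 0 T y) : y ∈ bl d N := by
  have h1 : nrm y ≤ (4 * N : ℕ) := by
    by_contra h2
    push Not at h2
    refine h ⟨y, hy, ?_⟩
    rw [sub_zero]
    refine lt_of_le_of_lt ?_ h2
    exact_mod_cast hN
  exact ZI.F1c.supn_le_of_nrm h1

theorem zero_mem_bl (d N : ℕ) : (0 : Pos d) ∈ bl d N := by
  show supn (0 : Pos d) ≤ 4 * N
  refine Finset.sup_le fun j _ => ?_
  simp

section clocks

variable {Ω : Type} [MeasurableSpace Ω] {P : Measure Ω} (C : Clocks m δ d P)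

theorem visU_bl {M K T N Cv r : ℕ} {ω : Ω} (hTN : T ≤ N) (h : ¬ Fast Cv r T (envC C M K T ω))
    (hN : Cv * T + r ≤ 4 * N) {t : ℕ} (ht : t ≤ T) :
    ∀ j, 0 + j < t → ∀ b ∈ visU (envC C M K N ω).nb (envC C M K N ω).pr (envC C M K N ω).η0
      (envC C M K N ω).U (fun _ => Set.univ) 0 {0} j, b ∈ bl d N := by
  intro j hj b hb
  refine region_of_slow h hN b ?_
  refine (envC_vis_T C M K T N hTN ω le_rfl).2 ?_
  exact ⟨j, by omega, hb⟩

/-- the infection in the torus is confined to the ball -/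
theorem vis_bl {M K T N Cv r : ℕ} {ω : Ω} (hTN : T ≤ N) (h : ¬ Fast Cv r T (envC C M K T ω))
    (hN : Cv * T + r ≤ 4 * N) {t : ℕ} (ht : t ≤ T) {b : Pos d}
    (hb : (envC C M K N ω).vis (fun _ => Set.univ) 0 0 t b) :
    (envC C M K N ω).vis (fun _ => bl d N) 0 0 t b := by
  have h1 := vis_restrict (envC C M K N ω) (G' := fun _ => bl d N) hb (visU_bl C hTN h hN ht)
  simpa only [Set.univ_inter] using h1

theorem R_bl {M K T N Cv r : ℕ} {ω : Ω} (hTN : T ≤ N) (h : ¬ Fast Cv r T (envC C M K T ω))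
    (hN : Cv * T + r ≤ 4 * N) {t : ℕ} (ht : t ≤ T) {b : Pos d}
    (hb : (envC C M K N ω).R (fun _ => Set.univ) 0 0 t b) :
    (envC C M K N ω).R (fun _ => bl d N) 0 0 t b := by
  have h1 := R_restrict (envC C M K N ω) (G' := fun _ => bl d N) hb (zero_mem_bl d N)
    (visU_bl C hTN h hN ht)
  simpa only [Set.univ_inter] using h1

end clocks

section clocks

variable {Ω : Type} [MeasurableSpace Ω] {P : Measure Ω}

theorem tot_small [IsProbabilityMeasure P] (C : Clocks m δ d P) (R : ℕ) (e : ℝ≥0∞) (he : 0 < e) :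
    ∃ K0 : ℕ, ∀ K ≥ K0, P {ω | K < tot C R ω} ≤ e := by
  have hm : Measurable (fun ω => tot C R ω) := by
    unfold tot
    exact Finset.measurable_fun_sum _ (fun x _ => C.η0_meas x)
  have h1 : Antitone (fun K : ℕ => {ω | K < tot C R ω}) :=
    fun K K' h ω (hω : K' < tot C R ω) => lt_of_le_of_lt h hω
  have h2 := tendsto_measure_iInter_atTop (μ := P) (s := fun K : ℕ => {ω | K < tot C R ω})
    (fun K => (hm measurableSet_Ioi).nullMeasurableSet) h1 ⟨0, measure_ne_top _ _⟩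
  have h3 : (⋂ K : ℕ, {ω | K < tot C R ω}) = ∅ := by
    ext ω
    simp only [Set.mem_iInter, Set.mem_ofPred_eq, Set.mem_empty_iff_false, iff_false, not_forall]
    exact ⟨tot C R ω, lt_irrefl _⟩
  rw [h3, measure_empty] at h2
  obtain ⟨K0, h4⟩ := Filter.eventually_atTop.1 (h2.eventually (gt_mem_nhds he))
  exact ⟨K0, fun K hK => (h4 K hK).le⟩

end clocks

/-! ### the chain -/

theorem PP_mono (q : Par d m δ) (N : ℕ) {E E' : (Tor d q.M → ℕ) → List (Let d q.M (q.K + 1)) → Prop}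
    (h : ∀ η l, E η l → E' η l) : q.PP N E ≤ q.PP N E' := by
  refine ENNReal.tsum_le_tsum fun η => ?_
  gcongr
  exact ZI.PrE_mono q.w N (fun l _ => h η l)

theorem PP_zero (q : Par d m δ) (N : ℕ) {E : (Tor d q.M → ℕ) → List (Let d q.M (q.K + 1)) → Prop}
    (h : ∀ η l, ¬ E η l) : q.PP N E = 0 := by
  unfold Par.PP Par.EE
  refine ENNReal.tsum_eq_zero.2 fun η => ?_
  rw [mul_eq_zero]
  right
  exact ZI.Rows.T1.PrE_zero_of q.w _ _ fun l => h η l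

/-- finite speed, by the projection to the chain without recovery -/
theorem finite_speed (m : Model) (δ : ℝ) (d : ℕ) (hd : 0 < d) : ∃ Cv : ℕ, ∀ (q : Par d m δ)
    (x : Pos d) (t r : ℕ), 2 * (Cv * t + r + 2) < q.M →
    q.PP (t * q.N1) (fun η l => ∃ y, (envT q η l).vis (fun _ => Set.univ) 0 x t y ∧
      (Cv : ℝ) * t + r < nrm (y - x)) ≤ ENNReal.ofReal (Cv * Real.exp (- (r : ℝ))) := by
  obtain ⟨Cv, hCv⟩ := ZI.Rows.finite_speed m d
  refine ⟨Cv, fun q x t r h => ?_⟩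
  refine le_trans ?_ (hCv q.toZI x t r h)
  refine le_trans ?_ (le_of_eq (PP_prj q hd (t * q.N1) (fun η l => ∃ y,
    (ZI.envT q.toZI η l).vis (fun _ => Set.univ) 0 x t y ∧ (Cv : ℝ) * t + r < nrm (y - x))))
  refine PP_mono q _ fun η l => ?_
  rintro ⟨y, h1, h2⟩
  refine ⟨y, ?_, h2⟩
  have h3 := vis_toZI (envT q η l) h1
  rw [envT_toZI] at h3
  exact h3

section chain

variable {Ω : Type} [MeasurableSpace Ω] {P : Measure Ω} (C : Clocks m δ d P)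

theorem chainA {R Rk M' Mk K K' N T Cv r : ℕ} {ω : Ω} (hR : 2 * R + 2 ≤ M') (hRk : 2 * Rk + 2 ≤ M')
    (hMk : 2 * Rk + 2 ≤ Mk) (hK : K ≤ K') (hTN : T ≤ N) (hN : Cv * T + r ≤ 4 * N)
    (hω : NoTies C ω) (htot : tot C R ω ≤ K')
    (h1 : ∀ t b, (kill R (envC C M' K' N ω)).vis (fun _ => Set.univ) 0 0 t b →
      (envC C M' K' N ω).vis (fun _ => Set.univ) 0 0 t b)
    (h2 : ¬ Fast Cv r T (envC C M' K' T ω))
    (h3 : Agree N (envC C M' K' N ω) (kill Rk (envC C M' K' N ω)))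
    (h4 : EqEnv (kill Rk (envC C Mk K' N ω)) (kill Rk (capE K (envC C Mk K' N ω))))
    (h5 : Agree N (envC C Mk K N ω) (kill Rk (envC C Mk K N ω)))
    {t : ℕ} (ht : 1 ≤ t) (htT : t ≤ T) {b : Pos d}
    (hb : ∃ s : ℝ, 0 ≤ s ∧ s ≤ t ∧ b ∈ (st C R ω s).2) :
    (envC C Mk K T ω).vis (fun _ => Set.univ) 0 0 t b := by
  have e1 := (st_vis C R K' N ω hω htot t ht (htT.trans hTN) b).1 hb
  rw [← kill_envC C M' R K' N hR ω] at e1
  have e2 := vis_bl C hTN h2 hN htT (h1 t b e1)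
  have e3 := (h3.vis (fun _ => bl d N) (fun _ => le_rfl) 0 t 0 b (htT.trans hTN)).1 e2
  rw [kill_envC C M' Rk K' N hRk ω, ← kill_envC C Mk Rk K' N hMk ω] at e3
  have e4 := (EqEnv_vis h4).1 e3
  rw [capE_envC C Mk K' K N hK ω] at e4
  have e5 := (h5.vis (fun _ => bl d N) (fun _ => le_rfl) 0 t 0 b (htT.trans hTN)).2 e4
  exact (envC_vis_T C Mk K T N hTN ω htT).2
    (vis_mono (envC C Mk K N ω) (fun _ => Set.subset_univ _) e5)

theorem chainAR {R Rk M' Mk K K' N T Cv r : ℕ} {ω : Ω} (hR : 2 * R + 2 ≤ M') (hRk : 2 * Rk + 2 ≤ M')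
    (hMk : 2 * Rk + 2 ≤ Mk) (hK : K ≤ K') (hTN : T ≤ N) (hN : Cv * T + r ≤ 4 * N)
    (hω : NoTies C ω) (htot : tot C R ω ≤ K')
    (h1 : ∀ t b, (kill R (envC C M' K' N ω)).R (fun _ => Set.univ) 0 0 t b →
      (envC C M' K' N ω).R (fun _ => Set.univ) 0 0 t b)
    (h2 : ¬ Fast Cv r T (envC C M' K' T ω))
    (h3 : Agree N (envC C M' K' N ω) (kill Rk (envC C M' K' N ω)))
    (h4 : EqEnv (kill Rk (envC C Mk K' N ω)) (kill Rk (capE K (envC C Mk K' N ω))))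
    (h5 : Agree N (envC C Mk K N ω) (kill Rk (envC C Mk K N ω)))
    {t : ℕ} (htT : t ≤ T) {b : Pos d} (hb : b ∈ (st C R ω t).2) :
    (envC C Mk K T ω).R (fun _ => Set.univ) 0 0 t b := by
  have e1 := (st_R C R K' N ω hω htot t (htT.trans hTN) b).1 hb
  rw [← kill_envC C M' R K' N hR ω] at e1
  have e2 := R_bl C hTN h2 hN htT (h1 t b e1)
  have e3 := (h3.R (fun _ => bl d N) (fun _ => le_rfl) 0 t 0 b (htT.trans hTN)).1 e2
  rw [kill_envC C M' Rk K' N hRk ω, ← kill_envC C Mk Rk K' N hMk ω] at e3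
  have e4 := (EqEnv_R h4).1 e3
  rw [capE_envC C Mk K' K N hK ω] at e4
  have e5 := (h5.R (fun _ => bl d N) (fun _ => le_rfl) 0 t 0 b (htT.trans hTN)).2 e4
  exact (envC_R_T C Mk K T N hTN ω htT).2
    (R_mono (envC C Mk K N ω) (fun _ => Set.subset_univ _) e5)

theorem chainB {Rk Mk K K' N T Cv r : ℕ} {ω : Ω}
    (hMk : 2 * Rk + 2 ≤ Mk) (hK : K ≤ K') (hTN : T ≤ N) (hN : Cv * T + r ≤ 4 * N)
    (hω : NoTies C ω) (htot : tot C Rk ω ≤ K')
    (h2 : ¬ Fast Cv r T (envC C Mk K T ω))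
    (h4 : EqEnv (kill Rk (envC C Mk K' N ω)) (kill Rk (capE K (envC C Mk K' N ω))))
    (h5 : Agree N (envC C Mk K N ω) (kill Rk (envC C Mk K N ω)))
    {t : ℕ} (ht : 1 ≤ t) (htT : t ≤ T) {b : Pos d}
    (hb : (envC C Mk K T ω).vis (fun _ => Set.univ) 0 0 t b) :
    ∃ s : ℝ, 0 ≤ s ∧ s ≤ t ∧ b ∈ (st C Rk ω s).2 := by
  refine (st_vis C Rk K' N ω hω htot t ht (htT.trans hTN) b).2 ?_
  have e1 := vis_bl C hTN h2 hN htT ((envC_vis_T C Mk K T N hTN ω htT).1 hb)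
  have e2 := (h5.vis (fun _ => bl d N) (fun _ => le_rfl) 0 t 0 b (htT.trans hTN)).1 e1
  rw [← capE_envC C Mk K' K N hK ω] at e2
  have e3 := vis_mono _ (G' := fun _ => Set.univ) (fun _ => Set.subset_univ _) ((EqEnv_vis h4).2 e2)
  rw [kill_envC C Mk Rk K' N hMk ω] at e3
  exact e3

theorem chainBR {Rk Mk K K' N T Cv r : ℕ} {ω : Ω}
    (hMk : 2 * Rk + 2 ≤ Mk) (hK : K ≤ K') (hTN : T ≤ N) (hN : Cv * T + r ≤ 4 * N)
    (hω : NoTies C ω) (htot : tot C Rk ω ≤ K')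
    (h2 : ¬ Fast Cv r T (envC C Mk K T ω))
    (h4 : EqEnv (kill Rk (envC C Mk K' N ω)) (kill Rk (capE K (envC C Mk K' N ω))))
    (h5 : Agree N (envC C Mk K N ω) (kill Rk (envC C Mk K N ω)))
    {t : ℕ} (htT : t ≤ T) {b : Pos d}
    (hb : (envC C Mk K T ω).R (fun _ => Set.univ) 0 0 t b) : b ∈ (st C Rk ω t).2 := by
  refine (st_R C Rk K' N ω hω htot t (htT.trans hTN) b).2 ?_
  have e1 := R_bl C hTN h2 hN htT ((envC_R_T C Mk K T N hTN ω htT).1 hb)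
  have e2 := (h5.R (fun _ => bl d N) (fun _ => le_rfl) 0 t 0 b (htT.trans hTN)).1 e1
  rw [← capE_envC C Mk K' K N hK ω] at e2
  have e3 := R_mono _ (G' := fun _ => Set.univ) (fun _ => Set.subset_univ _) ((EqEnv_R h4).2 e2)
  rw [kill_envC C Mk Rk K' N hMk ω] at e3
  exact e3

end chain

section clocks

variable {Ω : Type} [MeasurableSpace Ω] {P : Measure Ω}

/-- transfer of an estimate from the chains to the clocks -/
theorem tr [IsProbabilityMeasure P] (hd : 0 < d) (hδ : 0 ≤ δ) (C : Clocks m δ d P) (M K T : ℕ)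
    (hM : 5 ≤ M) (hK : 2 ≤ K) (hK' : 2 * m.φ ≤ m.g K) (e : ℝ) (he : 0 < e) (F : Env d → Prop)
    (b : ℝ≥0∞)
    (hb : ∀ q : Par d m δ, q.M = M → q.K = K → q.PP (T * q.N1) (fun η l => F (envT q η l)) ≤ b)
    (htv : (M : ℝ≥0∞) ^ d * tv1 m K ≤ ENNReal.ofReal e) :
    P {ω | F (envC C M K T ω)} ≤ b + ENNReal.ofReal e + ENNReal.ofReal e := by
  obtain ⟨q, h1, h2, -, h3⟩ := transfer hd hδ C M K T hM hK hK' e 1 he one_pos
  refine (h3 F).trans ?_
  gcongr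
  exact hb q h1 h2

/-- the union bound for the boxes `R` -/
theorem link_bound [IsProbabilityMeasure P] (hd : 0 < d) (hδ : 0 ≤ δ) (C : Clocks m δ d P)
    (Cv C1 C2 : ℕ)
    (hCv : ∀ (q : Par d m δ) (x : Pos d) (t r : ℕ), 2 * (Cv * t + r + 2) < q.M →
      q.PP (t * q.N1) (fun η l => ∃ y, (envT q η l).vis (fun _ => Set.univ) 0 x t y ∧
      (Cv : ℝ) * t + r < nrm (y - x)) ≤ ENNReal.ofReal (Cv * Real.exp (- (r : ℝ))))
    (hC1 : ∀ q : Par d m δ, ∀ R N : ℕ, 2 * R + 2 ≤ q.M → 16 * N + 4 ≤ R →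
      q.PP (N * q.N1) (fun η l => ¬ Agree N (envT q η l) (kill R (envT q η l))) ≤
      ENNReal.ofReal (C1 * (R + 1 : ℝ) ^ C1 * Real.exp (C1 * N - R / 4)))
    (hC2 : ∀ q : Par d m δ, ∀ K' T : ℕ, 2 * m.φ ≤ m.g K' →
      q.PP (T * q.N1) (fun η l => ¬ (EqEnv (envT q η l) (capE K' (envT q η l)) ∧
      ∀ R : ℕ, 2 * R + 2 ≤ q.M → EqEnv (kill R (envT q η l)) (kill R (capE K' (envT q η l))))) ≤
      ENNReal.ofReal (T * (q.M : ℝ) ^ d * (C2 : ℝ) ^ (K' + 1) / K'.factorial))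
    (n N T Rk Mk : ℕ) (hn : 2 ≤ n) (hMk5 : 5 ≤ Mk) (hMk : 2 * Rk + 2 ≤ Mk) (hRk : 16 * N + 4 ≤ Rk)
    (hTN : T ≤ N) (hN : Cv * T + n ≤ 4 * N) (hsp : 2 * (Cv * T + n + 2) < 2 * Rk + 2)
    (hφ : ∀ K ≥ n, 2 * m.φ ≤ m.g K)
    (e1 : (C1 : ℝ) * ((Rk : ℝ) + 1) ^ C1 * Real.exp (C1 * N - (Rk : ℝ) / 4) ≤ Real.exp (-n))
    (e2 : (N : ℝ) * (Mk : ℝ) ^ d * (C2 : ℝ) ^ (n + 1) / n.factorial ≤ Real.exp (-n))
    (e3 : (Mk : ℝ≥0∞) ^ d * tv1 m n ≤ ENNReal.ofReal (Real.exp (-n))) :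
    P {ω | ¬ ∀ t : ℕ, t ≤ T → ∀ b,
      (1 ≤ t → (b ∈ Iset C ω t ↔ (envC C Mk n T ω).vis (fun _ => Set.univ) 0 0 t b)) ∧
      (b ∈ infd C ω t ↔ (envC C Mk n T ω).R (fun _ => Set.univ) 0 0 t b)} ≤
      ((2 * Cv + 23 : ℕ) : ℝ≥0∞) * ENNReal.ofReal (Real.exp (-n)) := by
  set e : ℝ≥0∞ := ENNReal.ofReal (Real.exp (-(n : ℝ))) with he
  have he0 : 0 < e := ENNReal.ofReal_pos.2 (Real.exp_pos _)
  have hexp : (0 : ℝ) < Real.exp (-(n : ℝ)) := Real.exp_pos _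
  -- the single estimates
  have kSpeed : ∀ M K : ℕ, 2 * Rk + 2 ≤ M → n ≤ K → (M : ℝ≥0∞) ^ d * tv1 m K ≤ e →
      P {ω | Fast Cv n T (envC C M K T ω)} ≤ (Cv : ℝ≥0∞) * e + e + e := by
    intro M K hM hK htv
    refine tr hd hδ C M K T (by omega) (by omega) (hφ K hK) _ hexp (Fast Cv n T) _ ?_ htv
    intro q h1 h2
    refine (hCv q 0 T n (by omega)).trans (le_of_eq ?_)
    rw [ENNReal.ofReal_mul (Nat.cast_nonneg Cv), ENNReal.ofReal_natCast]
  have kAgree : ∀ M K : ℕ, 2 * Rk + 2 ≤ M → n ≤ K → (M : ℝ≥0∞) ^ d * tv1 m K ≤ e →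
      P {ω | ¬ Agree N (envC C M K N ω) (kill Rk (envC C M K N ω))} ≤ e + e + e := by
    intro M K hM hK htv
    refine tr hd hδ C M K N (by omega) (by omega) (hφ K hK) _ hexp
      (fun E => ¬ Agree N E (kill Rk E)) _ ?_ htv
    intro q h1 h2
    refine (hC1 q Rk N (by omega) hRk).trans ?_
    exact ENNReal.ofReal_le_ofReal e1
  have kCap : ∀ K : ℕ, n ≤ K → (Mk : ℝ≥0∞) ^ d * tv1 m K ≤ e →
      P {ω | ¬ EqEnv (kill Rk (envC C Mk K N ω)) (kill Rk (capE n (envC C Mk K N ω)))} ≤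
        e + e + e := by
    intro K hK htv
    refine tr hd hδ C Mk K N (by omega) (by omega) (hφ K hK) _ hexp
      (fun E => ¬ EqEnv (kill Rk E) (kill Rk (capE n E))) _ ?_ htv
    intro q h1 h2
    refine le_trans (PP_mono q _ ?_) ((hC2 q n N (hφ n le_rfl)).trans ?_)
    · intro η l h h'
      exact h (h'.2 Rk (by omega))
    · rw [h1]
      exact ENNReal.ofReal_le_ofReal e2
  have kKill : ∀ R M K : ℕ, 2 * R + 2 ≤ M → 2 * Rk + 2 ≤ M → n ≤ K →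
      (M : ℝ≥0∞) ^ d * tv1 m K ≤ e →
      P {ω | ¬ ∀ t b, ((kill R (envC C M K N ω)).vis (fun _ => Set.univ) 0 0 t b →
        (envC C M K N ω).vis (fun _ => Set.univ) 0 0 t b) ∧
        ((kill R (envC C M K N ω)).R (fun _ => Set.univ) 0 0 t b →
        (envC C M K N ω).R (fun _ => Set.univ) 0 0 t b)} ≤ 0 + e + e := by
    intro R M K hR hM hK htv
    refine tr hd hδ C M K N (by omega) (by omega) (hφ K hK) _ hexp
      (fun E => ¬ ∀ t b, ((kill R E).vis (fun _ => Set.univ) 0 0 t b →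
        E.vis (fun _ => Set.univ) 0 0 t b) ∧ ((kill R E).R (fun _ => Set.univ) 0 0 t b →
        E.R (fun _ => Set.univ) 0 0 t b)) _ ?_ htv
    intro q h1 h2
    refine le_of_eq (PP_zero q _ fun η l hl => hl fun t b => ⟨fun h => ?_, fun h => ?_⟩)
    · exact kill_vis q R (by omega) η l t b h
    · exact kill_R q R (by omega) η l t b h
  -- boxes
  let vb : ℕ → Ω → ℕ → Pos d → Prop := fun R ω t b => ∃ s : ℝ, 0 ≤ s ∧ s ≤ t ∧ b ∈ (st C R ω s).2
  let AR : ℕ → Set Ω := fun R => {ω | NoTies C ω ∧ ∃ t : ℕ, t ≤ T ∧ ∃ b,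
    (1 ≤ t ∧ vb R ω t b ∧ ¬ (envC C Mk n T ω).vis (fun _ => Set.univ) 0 0 t b) ∨
    (b ∈ (st C R ω t).2 ∧ ¬ (envC C Mk n T ω).R (fun _ => Set.univ) 0 0 t b)}
  let B : Set Ω := {ω | NoTies C ω ∧ ∃ t : ℕ, t ≤ T ∧ ∃ b,
    (1 ≤ t ∧ ¬ vb Rk ω t b ∧ (envC C Mk n T ω).vis (fun _ => Set.univ) 0 0 t b) ∨
    (b ∉ (st C Rk ω t).2 ∧ (envC C Mk n T ω).R (fun _ => Set.univ) 0 0 t b)}
  have hmono : Monotone AR := by
    intro R R' hRR ω hω
    obtain ⟨h1, t, h3, b, h⟩ := hω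
    refine ⟨h1, t, h3, b, ?_⟩
    rcases h with ⟨h2, ⟨s, h4, h5, h6⟩, h7⟩ | ⟨h6, h7⟩
    · exact Or.inl ⟨h2, ⟨s, h4, h5, (st_mono C R R' hRR ω h1 s).2 h6⟩, h7⟩
    · exact Or.inr ⟨(st_mono C R R' hRR ω h1 t).2 h6, h7⟩
  have hAR : ∀ R, Rk ≤ R → P (AR R) ≤ ((Cv + 14 : ℕ) : ℝ≥0∞) * e := by
    intro R hR
    obtain ⟨K0, hK0⟩ := tot_small C R e he0
    obtain ⟨K1, hK1⟩ := ZI.F1c.tv_small m ((2 * R + 2 + Mk) ^ d) e he0
    set K : ℕ := max n (max K0 K1) with hKdef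
    have b1 : n ≤ K := le_max_left _ _
    have b2 := hK0 K (le_trans (le_max_left _ _) (le_max_right _ _))
    have b3 := hK1 K (le_trans (le_max_right _ _) (le_max_right _ _))
    rw [Nat.cast_pow] at b3
    have b4 : ((2 * R + 2 : ℕ) : ℝ≥0∞) ^ d * tv1 m K ≤ e :=
      le_trans (mul_le_mul_left (pow_le_pow_left' (Nat.cast_le.2 (by omega)) d) _) b3
    have b5 : ((Mk : ℕ) : ℝ≥0∞) ^ d * tv1 m K ≤ e :=
      le_trans (mul_le_mul_left (pow_le_pow_left' (Nat.cast_le.2 (by omega)) d) _) b3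
    have hsub : AR R ⊆ {ω | K < tot C R ω} ∪
        ({ω | ¬ ∀ t b, ((kill R (envC C (2 * R + 2) K N ω)).vis (fun _ => Set.univ) 0 0 t b →
          (envC C (2 * R + 2) K N ω).vis (fun _ => Set.univ) 0 0 t b) ∧
          ((kill R (envC C (2 * R + 2) K N ω)).R (fun _ => Set.univ) 0 0 t b →
          (envC C (2 * R + 2) K N ω).R (fun _ => Set.univ) 0 0 t b)} ∪
        ({ω | Fast Cv n T (envC C (2 * R + 2) K T ω)} ∪
        ({ω | ¬ Agree N (envC C (2 * R + 2) K N ω) (kill Rk (envC C (2 * R + 2) K N ω))} ∪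
        ({ω | ¬ EqEnv (kill Rk (envC C Mk K N ω)) (kill Rk (capE n (envC C Mk K N ω)))} ∪
        {ω | ¬ Agree N (envC C Mk n N ω) (kill Rk (envC C Mk n N ω))})))) := by
      rintro ω ⟨h1, t, h3, b, h⟩
      by_contra hc
      simp only [Set.mem_union, Set.mem_ofPred_eq, not_or, not_not, not_lt] at hc
      obtain ⟨c1, c2, c3, c4, c5, c6⟩ := hc
      rcases h with ⟨h2, h4, h5⟩ | ⟨h4, h5⟩
      · exact h5 (chainA C (le_refl (2 * R + 2)) (by omega) hMk b1 hTN hN h1 c1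
          (fun t b => (c2 t b).1) c3 c4 c5 c6 h2 h3 h4)
      · exact h5 (chainAR C (le_refl (2 * R + 2)) (by omega) hMk b1 hTN hN h1 c1
          (fun t b => (c2 t b).2) c3 c4 c5 c6 h3 h4)
    refine (measure_mono hsub).trans ?_
    refine le_trans (measure_union_le _ _) ?_
    refine le_trans (add_le_add b2 (le_trans (measure_union_le _ _)
      (add_le_add (kKill R (2 * R + 2) K le_rfl (by omega) b1 b4) (le_trans (measure_union_le _ _)
      (add_le_add (kSpeed (2 * R + 2) K (by omega) b1 b4) (le_trans (measure_union_le _ _)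
      (add_le_add (kAgree (2 * R + 2) K (by omega) b1 b4) (le_trans (measure_union_le _ _)
      (add_le_add (kCap K b1 b5) (kAgree Mk n hMk le_rfl e3)))))))))) (le_of_eq ?_)
    push_cast
    ring
  have hB : P B ≤ ((Cv + 9 : ℕ) : ℝ≥0∞) * e := by
    obtain ⟨K0, hK0⟩ := tot_small C Rk e he0
    obtain ⟨K1, hK1⟩ := ZI.F1c.tv_small m (Mk ^ d) e he0
    set K : ℕ := max n (max K0 K1) with hKdef
    have b1 : n ≤ K := le_max_left _ _
    have b2 := hK0 K (le_trans (le_max_left _ _) (le_max_right _ _))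
    have b3 := hK1 K (le_trans (le_max_right _ _) (le_max_right _ _))
    rw [Nat.cast_pow] at b3
    have hsub : B ⊆ {ω | K < tot C Rk ω} ∪
        ({ω | Fast Cv n T (envC C Mk n T ω)} ∪
        ({ω | ¬ EqEnv (kill Rk (envC C Mk K N ω)) (kill Rk (capE n (envC C Mk K N ω)))} ∪
        {ω | ¬ Agree N (envC C Mk n N ω) (kill Rk (envC C Mk n N ω))})) := by
      rintro ω ⟨h1, t, h3, b, h⟩
      by_contra hc
      simp only [Set.mem_union, Set.mem_ofPred_eq, not_or, not_not, not_lt] at hc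
      obtain ⟨c1, c2, c3, c4⟩ := hc
      rcases h with ⟨h2, h4, h5⟩ | ⟨h4, h5⟩
      · exact h4 (chainB C hMk b1 hTN hN h1 c1 c2 c3 c4 h2 h3 h5)
      · exact h4 (chainBR C hMk b1 hTN hN h1 c1 c2 c3 c4 h3 h5)
    refine (measure_mono hsub).trans ?_
    refine le_trans (measure_union_le _ _) ?_
    refine le_trans (add_le_add b2 (le_trans (measure_union_le _ _)
      (add_le_add (kSpeed Mk n hMk le_rfl e3) (le_trans (measure_union_le _ _)
      (add_le_add (kCap K b1 b3) (kAgree Mk n hMk le_rfl e3)))))) (le_of_eq ?_)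
    push_cast
    ring
  have hU : P (⋃ R, AR R) ≤ ((Cv + 14 : ℕ) : ℝ≥0∞) * e := by
    rw [hmono.measure_iUnion]
    refine iSup_le fun R => ?_
    exact (measure_mono (hmono (le_max_left R Rk))).trans (hAR _ (le_max_right R Rk))
  have hNT : P {ω | ¬ NoTies C ω} = 0 := no_ties hδ C
  have hsub : {ω | ¬ ∀ t : ℕ, t ≤ T → ∀ b,
      (1 ≤ t → (b ∈ Iset C ω t ↔ (envC C Mk n T ω).vis (fun _ => Set.univ) 0 0 t b)) ∧
      (b ∈ infd C ω t ↔ (envC C Mk n T ω).R (fun _ => Set.univ) 0 0 t b)} ⊆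
      {ω | ¬ NoTies C ω} ∪ ((⋃ R, AR R) ∪ B) := by
    intro ω hω
    by_contra hc
    simp only [Set.mem_union, not_or] at hc
    obtain ⟨c1, c2, c3⟩ := hc
    have c1' : NoTies C ω := by
      by_contra h
      exact c1 h
    refine hω fun t htT b => ⟨fun ht => ⟨fun hb => ?_, fun hb => ?_⟩, fun hb => ?_, fun hb => ?_⟩
    · by_contra h
      obtain ⟨s, h1, h2, R, h3⟩ := hb
      exact c2 (Set.mem_iUnion.2 ⟨R, c1', t, htT, b, Or.inl ⟨ht, ⟨s, h1, h2, h3⟩, h⟩⟩)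
    · by_contra h
      refine c3 ⟨c1', t, htT, b, Or.inl ⟨ht, fun hv => h ?_, hb⟩⟩
      obtain ⟨s, h1, h2, h3⟩ := hv
      exact ⟨s, h1, h2, Rk, h3⟩
    · by_contra h
      obtain ⟨R, h3⟩ := hb
      exact c2 (Set.mem_iUnion.2 ⟨R, c1', t, htT, b, Or.inr ⟨h3, h⟩⟩)
    · by_contra h
      exact c3 ⟨c1', t, htT, b, Or.inr ⟨fun hv => h ⟨Rk, hv⟩, hb⟩⟩
  refine (measure_mono hsub).trans ?_
  refine le_trans (measure_union_le _ _) ?_
  rw [hNT, zero_add]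
  refine le_trans (measure_union_le _ _) (le_trans (add_le_add hU hB) (le_of_eq ?_))
  push_cast
  ring

/-- both links together -/
theorem link_both [IsProbabilityMeasure P] (hd : 0 < d) (hδ : 0 ≤ δ) (C : Clocks m δ d P) (A : ℕ) :
    ∃ k0 : ℕ, ∀ k ≥ k0,
    P {ω | ¬ ∀ t : ℕ, t ≤ (2 ^ k) ^ 2 → ∀ b,
      (1 ≤ t → (b ∈ Iset C ω t ↔ (EK C k ω).vis (fun _ => Set.univ) 0 0 t b)) ∧
      (b ∈ infd C ω t ↔ (EK C k ω).R (fun _ => Set.univ) 0 0 t b)} ≤ err (rr A k) := by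
  obtain ⟨Cv, hCv⟩ := finite_speed m δ d hd
  obtain ⟨C1, hC1⟩ := killed_agree m δ d hd
  obtain ⟨C2, hC2⟩ := cap_agree m δ d hd
  obtain ⟨C3, hC3⟩ := ZI.Rows.tv1_le m
  obtain ⟨n1, hn1⟩ := ZI.F1c.g_big m
  obtain ⟨n2, hn2⟩ := ZI.F1c.kill_small C1 (Cv + 2)
  obtain ⟨n3, hn3⟩ := ZI.F1c.small (Cv + 2) (4 * d + 2) C2
  obtain ⟨n4, hn4⟩ := ZI.F1c.small 1 (4 * d) C3
  obtain ⟨n5, hn5⟩ := ZI.F1c.err_big A (2 * Cv + 23)
  refine ⟨n1 + n2 + n3 + n4 + n5 + 64 * (Cv + 2) + 8, fun k hk => ?_⟩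
  have hkn : k < 2 ^ k := Nat.lt_two_pow_self
  set n : ℕ := 2 ^ k with hn
  have hbig : n1 + n2 + n3 + n4 + n5 + 64 * (Cv + 2) + 8 ≤ n := by omega
  have hn64 : 64 * (Cv + 2) + 8 ≤ n := by omega
  have q1 : n * n = n ^ 2 := by ring
  have q2 : n ^ 2 * n ^ 2 = n ^ 4 := by ring
  have q3 : n ≤ n ^ 2 := by nlinarith
  have q4 : (64 * (Cv + 2) + 8) * n ^ 2 ≤ n ^ 4 := by
    rw [← q2]
    exact Nat.mul_le_mul_right _ (le_trans hn64 q3)
  have q5 : 64 ≤ n ^ 2 := by nlinarith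
  have hRk : 16 * ((Cv + 2) * n ^ 2) + 4 ≤ n ^ 4 / 4 := by
    rw [Nat.le_div_iff_mul_le (by norm_num)]
    nlinarith
  refine le_trans ?_ (hn5 k (by omega))
  refine link_bound hd hδ C Cv C1 C2 hCv hC1 hC2 n ((Cv + 2) * n ^ 2) (n ^ 2) (n ^ 4 / 4) (n ^ 4)
    (by omega) (by omega) (by omega) hRk (by nlinarith) (by nlinarith) ?_ ?_ ?_ ?_ ?_
  · nlinarith
  · intro K hK
    exact hn1 K (by omega)
  · exact hn2 n (by omega)
  · refine le_trans (le_of_eq ?_) (hn3 n (by omega))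
    push_cast
    ring
  · refine le_trans (mul_le_mul_right (hC3 n (by omega) (hn1 n (by omega))) _) ?_
    rw [show ((n ^ 4 : ℕ) : ℝ≥0∞) ^ d = ENNReal.ofReal (((n : ℝ) ^ 4) ^ d) by
      rw [ENNReal.ofReal_pow (by positivity), ENNReal.ofReal_pow (by positivity),
        ENNReal.ofReal_natCast]
      push_cast
      rfl, ← ENNReal.ofReal_mul (by positivity)]
    refine ENNReal.ofReal_le_ofReal (le_trans (le_of_eq ?_) (hn4 n (by omega)))
    rw [← pow_mul]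
    push_cast
    ring

end clocks

end ZP.F1c

namespace ZP.Rows

open ZP ZP.F1c

variable {d : ℕ} {m : Model} {δ : ℝ} {Ω : Type} [MeasurableSpace Ω] {P : Measure Ω}

theorem sys_link [IsProbabilityMeasure P] (hd : 0 < d) (hδ : 0 ≤ δ) (C : Clocks m δ d P) (A : ℕ)
    (hA : 1 ≤ A) :
    ∃ k0 : ℕ, ∀ k ≥ k0,
    P {ω | ¬ ∀ t : ℕ, 1 ≤ t → t ≤ (2 ^ k) ^ 2 → ∀ b,
      (b ∈ Iset C ω t ↔ (EK C k ω).vis (fun _ => Set.univ) 0 0 t b)} ≤ err (rr A k) := by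
  obtain ⟨k0, h⟩ := link_both hd hδ C A
  refine ⟨k0, fun k hk => (measure_mono ?_).trans (h k hk)⟩
  intro ω hω hall
  exact hω fun t h1 h2 b => (hall t h2 b).1 h1

/-- the same for the infected set at the integer times -/
theorem sys_linkR [IsProbabilityMeasure P] (hd : 0 < d) (hδ : 0 ≤ δ) (C : Clocks m δ d P) (A : ℕ)
    (hA : 1 ≤ A) :
    ∃ k0 : ℕ, ∀ k ≥ k0,
    P {ω | ¬ ∀ t : ℕ, t ≤ (2 ^ k) ^ 2 → ∀ b,
      (b ∈ infd C ω t ↔ (EK C k ω).R (fun _ => Set.univ) 0 0 t b)} ≤ err (rr A k) := by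
  obtain ⟨k0, h⟩ := link_both hd hδ C A
  refine ⟨k0, fun k hk => (measure_mono ?_).trans (h k hk)⟩
  intro ω hω hall
  exact hω fun t h2 b => (hall t h2 b).2

end ZP.Rows
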