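import Pool.Agent.ZP.Sys2
import Pool.Agent.ZP.ProcE
import Pool.Agent.ZP.D0
import Pool.Agent.ZP.D0b
import Pool.Agent.ZP.F1a
import Pool.Agent.ZP.R2
import Pool.Agent.ZP.P1b
import Pool.Agent.ZP.P2a
import Pool.Agent.ZP.E4
import Pool.Agent.ZP.F1c

/-! # POS: survival has positive probability -/

set_option autoImplicit false

open scoped ENNReal BigOperators Classical Pointwise
open MeasureTheory

noncomputable section

namespace ZP.POS

open ZP

theorem err_le (A M : ℕ) (hA : 0 < A) : ∃ K : ℝ, 0 < K ∧ ∀ k : ℕ,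
    err (rr A k) ≤ ENNReal.ofReal (K * (1 / 2 : ℝ) ^ (M * k)) := by
  refine ⟨(4 * A * M).factorial * 2 ^ (2 * A * M), by positivity, fun k => ?_⟩
  unfold ZI.err
  refine ENNReal.ofReal_le_ofReal ?_
  set j := k / A with hj
  have h1 : k < A * (j + 1) := by
    have := Nat.lt_mul_div_succ k hA
    simpa [hj] using this
  have hrr : ((rr A k : ℕ) : ℝ) = 2 ^ j := by
    unfold ZI.rr
    push_cast
    rfl
  rw [hrr]
  set y : ℝ := Real.sqrt (2 ^ j) with hy
  have hy0 : 0 < y := Real.sqrt_pos.2 (by positivity)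
  have h2 := Real.pow_div_factorial_le_exp y hy0.le (4 * A * M)
  have h3 : y ^ (4 * A * M) = 2 ^ (2 * A * M * j) := by
    have h4 : y ^ 2 = 2 ^ j := Real.sq_sqrt (by positivity)
    calc y ^ (4 * A * M) = (y ^ 2) ^ (2 * A * M) := by rw [← pow_mul]; congr 1; ring
      _ = _ := by rw [h4, ← pow_mul]; congr 1; ring
  rw [h3] at h2
  have hf : (0 : ℝ) < (4 * A * M).factorial := by positivity
  rw [div_le_iff₀ hf] at h2
  have h5 : (2 : ℝ) ^ (M * k) ≤ 2 ^ (2 * A * M * j) * 2 ^ (2 * A * M) := by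
    rw [← pow_add]
    refine pow_le_pow_right₀ one_le_two ?_
    have h6 : M * k ≤ M * (A * (j + 1)) := Nat.mul_le_mul_left _ h1.le
    calc M * k ≤ M * (A * (j + 1)) := h6
      _ = A * M * j + A * M := by ring
      _ ≤ 2 * A * M * j + 2 * A * M := by nlinarith [Nat.zero_le (A * M * j), Nat.zero_le (A * M)]
  have h6 : (2 : ℝ) ^ (M * k) ≤ Real.exp y * (4 * A * M).factorial * 2 ^ (2 * A * M) := by
    refine h5.trans ?_
    gcongr
  rw [Real.exp_neg, one_div, inv_pow]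
  rw [inv_le_iff_one_le_mul₀ (Real.exp_pos _), ← div_eq_mul_inv, div_mul_eq_mul_div,
    one_le_div (by positivity)]
  nlinarith

/-- the tails of the errors -/
theorem tail_le (A M : ℕ) (hA : 0 < A) (hM : 0 < M) : ∃ K : ℝ, 0 < K ∧ ∀ k : ℕ,
    ∑' i : ℕ, err (rr A (k + i)) ≤ ENNReal.ofReal (K * (1 / 2 : ℝ) ^ (M * k)) := by
  obtain ⟨K, hK, h⟩ := err_le A M hA
  refine ⟨2 * K, by positivity, fun k => ?_⟩
  have hs : HasSum (fun i : ℕ => K * (1 / 2 : ℝ) ^ (M * k) * (1 / 2 : ℝ) ^ i)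
      (K * (1 / 2 : ℝ) ^ (M * k) * 2) := hasSum_geometric_two.mul_left _
  calc ∑' i : ℕ, err (rr A (k + i))
      ≤ ∑' i : ℕ, ENNReal.ofReal (K * (1 / 2 : ℝ) ^ (M * k) * (1 / 2 : ℝ) ^ i) := by
        refine ENNReal.tsum_le_tsum fun i => (h (k + i)).trans (ENNReal.ofReal_le_ofReal ?_)
        rw [mul_assoc, ← pow_add]
        refine mul_le_mul_of_nonneg_left ?_ hK.le
        refine pow_le_pow_of_le_one (by norm_num) (by norm_num) ?_
        nlinarith
    _ = ENNReal.ofReal (∑' i : ℕ, K * (1 / 2 : ℝ) ^ (M * k) * (1 / 2 : ℝ) ^ i) :=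
        (ENNReal.ofReal_tsum_of_nonneg (fun i => by positivity) hs.summable).symm
    _ ≤ _ := by
        rw [hs.tsum_eq]
        exact ENNReal.ofReal_le_ofReal (le_of_eq (by ring))

/-- the union bound over the starting points is harmless -/
theorem small (d A a : ℕ) (hA : 0 < A) (haA : a ≤ A) : ∃ k1 : ℕ, ∀ k ≥ k1,
    err (rr A k) + (((2 * kp a A k + 1) ^ d : ℕ) : ℝ≥0∞) *
      (2 * ∑' i : ℕ, err (rr A (k + i))) < 1 := by
  obtain ⟨K, hK, h⟩ := tail_le A (d + 1) hA (Nat.succ_pos d)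
  obtain ⟨k1, hk1⟩ : ∃ k1 : ℕ, ∀ k ≥ k1, K * (1 / 2 : ℝ) ^ k * (1 + 2 * 3 ^ d) < 1 := by
    have hlim : Filter.Tendsto (fun k : ℕ => K * (1 / 2 : ℝ) ^ k * (1 + 2 * 3 ^ d)) Filter.atTop
        (nhds (K * 0 * (1 + 2 * 3 ^ d))) :=
      ((tendsto_pow_atTop_nhds_zero_of_lt_one (by norm_num) (by norm_num)).const_mul K).mul_const _
    rw [mul_zero, zero_mul] at hlim
    exact Filter.eventually_atTop.1 (hlim.eventually (gt_mem_nhds one_pos))
  refine ⟨k1, fun k hk => ?_⟩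
  have hκ : kp a A k ≤ 2 ^ k := by
    unfold kp ZI.rr
    rw [← pow_mul]
    refine Nat.pow_le_pow_right (by norm_num) ?_
    calc k / A * a ≤ k / A * A := Nat.mul_le_mul_left _ haA
      _ ≤ k := Nat.div_mul_le_self k A
  have h1 : err (rr A k) ≤ ∑' i : ℕ, err (rr A (k + i)) := by
    have := ENNReal.le_tsum (f := fun i : ℕ => err (rr A (k + i))) 0
    simpa using this
  have h2 : (((2 * kp a A k + 1) ^ d : ℕ) : ℝ≥0∞) ≤ ENNReal.ofReal (3 ^ d * (2 : ℝ) ^ (d * k)) := by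
    have h3 : (2 * kp a A k + 1) ^ d ≤ 3 ^ d * 2 ^ (d * k) := by
      calc (2 * kp a A k + 1) ^ d ≤ (3 * 2 ^ k) ^ d := by
            refine Nat.pow_le_pow_left ?_ d
            have : 1 ≤ 2 ^ k := Nat.one_le_two_pow
            omega
        _ = 3 ^ d * 2 ^ (d * k) := by rw [mul_pow, ← pow_mul, mul_comm k d]
    rw [← ENNReal.ofReal_natCast]
    refine ENNReal.ofReal_le_ofReal ?_
    exact_mod_cast h3
  set x : ℝ := K * (1 / 2 : ℝ) ^ ((d + 1) * k) with hx
  have hx0 : 0 ≤ x := by positivity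
  calc err (rr A k) + (((2 * kp a A k + 1) ^ d : ℕ) : ℝ≥0∞) * (2 * ∑' i : ℕ, err (rr A (k + i)))
      ≤ ENNReal.ofReal x + ENNReal.ofReal (3 ^ d * (2 : ℝ) ^ (d * k)) * (2 * ENNReal.ofReal x) :=
        add_le_add (h1.trans (h k)) (mul_le_mul' h2 (mul_le_mul' le_rfl (h k)))
    _ = ENNReal.ofReal (x + 3 ^ d * (2 : ℝ) ^ (d * k) * (2 * x)) := by
        have h2' : (2 : ℝ≥0∞) = ENNReal.ofReal 2 := by norm_num
        rw [h2', ← ENNReal.ofReal_mul (by norm_num), ← ENNReal.ofReal_mul (by positivity),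
          ← ENNReal.ofReal_add hx0 (by positivity)]
    _ < 1 := by
        rw [← ENNReal.ofReal_one]
        refine (ENNReal.ofReal_lt_ofReal_iff one_pos).2 (lt_of_le_of_lt ?_ (hk1 k hk))
        have e1 : (2 : ℝ) ^ (d * k) * (1 / 2 : ℝ) ^ ((d + 1) * k) = (1 / 2 : ℝ) ^ k := by
          rw [show (d + 1) * k = d * k + k by ring, pow_add, ← mul_assoc, ← mul_pow]
          norm_num
        have e2 : x ≤ K * (1 / 2 : ℝ) ^ k := by
          refine mul_le_mul_of_nonneg_left ?_ hK.le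
          refine pow_le_pow_of_le_one (by norm_num) (by norm_num) ?_
          nlinarith
        have e3 : 3 ^ d * (2 : ℝ) ^ (d * k) * (2 * x) = K * (1 / 2 : ℝ) ^ k * (2 * 3 ^ d) := by
          rw [hx, ← e1]; ring
        rw [e3]
        linarith

/-- the time up to which the scale is used -/
def TT (d a A k : ℕ) : ℕ := (2 ^ k) ^ 2 - (4 * d * kp a A k ^ 2 + kp a A k)

theorem kp_le (a A k : ℕ) (haA : 1000 * a ≤ A) : kp a A k ≤ 2 ^ (k / 1000) := by
  unfold kp ZI.rr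
  rw [← pow_mul]
  refine Nat.pow_le_pow_right (by norm_num) ?_
  rw [Nat.le_div_iff_mul_le (by norm_num)]
  calc k / A * a * 1000 = k / A * (1000 * a) := by ring
    _ ≤ k / A * A := Nat.mul_le_mul_left _ haA
    _ ≤ k := Nat.div_mul_le_self k A

theorem kp_mono (a A k : ℕ) : kp a A k ≤ kp a A (k + 1) := by
  unfold kp ZI.rr
  exact Nat.pow_le_pow_left (Nat.pow_le_pow_right (by norm_num)
    (Nat.div_le_div_right (Nat.le_succ k))) a

theorem scale (d a A Cv : ℕ) (ha : 10 ≤ a) (haA : 1000 * a ≤ A) : ∃ k2 : ℕ, ∀ k ≥ k2,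
    1 ≤ kp a A k ∧ Cv * kp a A k + rr A k ≤ kp a A k ^ 2 ∧ 4 * d * kp a A k ≤ (2 ^ k) ^ 2 ∧
    4 * d * kp a A k ^ 2 + kp a A k + 2 * kp a A (k + 1) + 1 + k ≤ (2 ^ k) ^ 2 := by
  refine ⟨A * (Cv + 2) + 4 * d + 8, fun k hk => ?_⟩
  have hA : 0 < A := by omega
  have hr : Cv + 1 ≤ rr A k := by
    have h1 : Cv + 2 ≤ k / A := (Nat.le_div_iff_mul_le hA).2 (by nlinarith)
    have h3 : Cv + 2 < 2 ^ (Cv + 2) := Nat.lt_two_pow_self
    unfold ZI.rr
    calc Cv + 1 ≤ 2 ^ (Cv + 2) := by omega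
      _ ≤ 2 ^ (k / A) := Nat.pow_le_pow_right (by norm_num) h1
  have hrκ : rr A k ≤ kp a A k := by
    unfold kp
    exact Nat.le_self_pow (by omega) _
  have hn : 4 * d + 8 ≤ 2 ^ k := by
    have : k < 2 ^ k := Nat.lt_two_pow_self
    have h0 : 0 ≤ A * (Cv + 2) := Nat.zero_le _
    omega
  have hkn : k ≤ 2 ^ k := Nat.lt_two_pow_self.le
  have hsq : ∀ j ≤ k / 2, (2 ^ j) ^ 2 ≤ 2 ^ k := by
    intro j hj
    rw [← pow_mul]
    exact Nat.pow_le_pow_right (by norm_num) (by omega)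
  have hκ2 : kp a A k ^ 2 ≤ 2 ^ k :=
    (Nat.pow_le_pow_left (kp_le a A k haA) 2).trans (hsq _ (by omega))
  have hκ1 : kp a A k ≤ 2 ^ k := by
    have h1 : kp a A k ≤ kp a A k ^ 2 := Nat.le_self_pow (by norm_num) _
    omega
  have hκ' : kp a A (k + 1) ≤ 2 ^ k := by
    have h1 := (Nat.pow_le_pow_left (kp_le a A (k + 1) haA) 2).trans (hsq ((k + 1) / 1000) (by omega))
    have h2 : kp a A (k + 1) ≤ kp a A (k + 1) ^ 2 := Nat.le_self_pow (by norm_num) _
    omega
  refine ⟨by omega, ?_, ?_, ?_⟩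
  · calc Cv * kp a A k + rr A k ≤ Cv * kp a A k + kp a A k := by omega
      _ = (Cv + 1) * kp a A k := by ring
      _ ≤ kp a A k * kp a A k := Nat.mul_le_mul_right _ (by omega)
      _ = _ := by ring
  · calc 4 * d * kp a A k ≤ 4 * d * 2 ^ k := Nat.mul_le_mul_left _ hκ1
      _ ≤ 2 ^ k * 2 ^ k := Nat.mul_le_mul_right _ (by omega)
      _ = _ := by ring
  · calc 4 * d * kp a A k ^ 2 + kp a A k + 2 * kp a A (k + 1) + 1 + k
        ≤ 4 * d * 2 ^ k + 2 ^ k + 2 * 2 ^ k + 2 ^ k + 2 ^ k := by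
          have := Nat.mul_le_mul_left (4 * d) hκ2
          have h1 : 1 ≤ 2 ^ k := Nat.one_le_two_pow
          omega
      _ = (4 * d + 5) * 2 ^ k := by ring
      _ ≤ 2 ^ k * 2 ^ k := Nat.mul_le_mul_right _ (by omega)
      _ = _ := by ring

theorem mem_box {d R : ℕ} {x : Pos d} (h : supn x ≤ R) : x ∈ box d R := by
  unfold ZI.box
  rw [Fintype.mem_piFinset]
  intro j
  have h1 : (x j).natAbs ≤ supn x := Finset.le_sup (f := fun j => (x j).natAbs) (Finset.mem_univ j)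
  rw [Finset.mem_Icc]
  omega

theorem card_box (d R : ℕ) : (box d R).card = (2 * R + 1) ^ d := by
  unfold ZI.box
  rw [Fintype.card_piFinset]
  simp only [Int.card_Icc, Finset.prod_const, Finset.card_univ, Fintype.card_fin]
  congr 1
  omega

section

variable {d : ℕ} {m : Model} {δ : ℝ} {Ω : Type} [MeasurableSpace Ω] {P : Measure Ω}

theorem surv_pos_of [IsProbabilityMeasure P] (C : Clocks m δ d P)
    {Cv a A : ℕ} (ha : 10 ≤ a) (haA : 1000 * a ≤ A)
    (hsplit : ∀ (E : Env d) (G : ℕ → Set (Pos d)) (s t : ℕ) (x y : Pos d), E.R G s x t y →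
      ∀ τ : ℕ, s ≤ τ → τ < t → ∃ z, z ∈ G τ ∧ E.R G s x τ z ∧ E.R G τ z t y)
    (htrans : ∀ (E : Env d) (G : ℕ → Set (Pos d)) (s t t' : ℕ) (x y y' : Pos d), E.R G s x t y →
      E.R G t y t' y' → E.R G s x t' y')
    (hfg : ∀ (E : Env d) (r κ S Dm : ℕ), E.Good r κ Cv S Dm → Cv * κ + r ≤ κ ^ 2 →
      ∀ (t t' : ℕ) (x y : Pos d), t + κ ≤ t' → t' ≤ S → E.R (fun _ => Set.univ) t x t' y → E.fg κ t x)
    (hpers : ∀ (E : Env d) (r κ S Dm : ℕ), E.Good r κ Cv S Dm → Cv * κ + r ≤ κ ^ 2 →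
      4 * d * κ ≤ Dm → ∀ (t : ℕ) (x : Pos d), κ ≤ t → E.fg κ t x → ∀ t' : ℕ, t ≤ t' →
      t' + 4 * d * κ ^ 2 ≤ S → ∃ y, E.R (fun _ => Set.univ) t x t' y ∧ E.fg κ t' y)
    (hgood : ∃ k0 : ℕ, ∀ k ≥ k0, P {ω | ¬ GoodK a A Cv k (EK C k ω)} ≤ err (rr A k))
    (hlink : ∃ k0 : ℕ, ∀ k ≥ k0, P {ω | ¬ ∀ t : ℕ, t ≤ (2 ^ k) ^ 2 → ∀ b,
      (b ∈ infd C ω t ↔ (EK C k ω).R (fun _ => Set.univ) 0 0 t b)} ≤ err (rr A k))
    (hshift : ∃ k0 : ℕ, ∀ k ≥ k0, ∀ s0 T : ℕ, s0 + T ≤ (2 ^ k) ^ 2 → ∀ z : Pos d,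
      P {ω | ∃ y, (EK C k ω).R (fun _ => Set.univ) s0 z (s0 + T) y} ≤
        P {ω | ∃ y, (EK C k ω).R (fun _ => Set.univ) 0 0 T y} + err (rr A k))
    (hint : ∀ ω, NoTies C ω → (∀ t : ℕ, (infd C ω t).Nonempty) → ω ∈ Surv C)
    (hties : ∀ᵐ ω ∂P, NoTies C ω) : 0 < P (Surv C) := by
  obtain ⟨k1, hk1⟩ := hgood
  obtain ⟨k2, hk2⟩ := hlink
  obtain ⟨k3, hk3⟩ := hshift
  obtain ⟨k4, hk4⟩ := scale d a A Cv ha haA
  obtain ⟨k5, hk5⟩ := small d A a (by omega) (by omega)
  set k := k1 + k2 + k3 + k4 + k5 with hk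
  -- the events
  let L : ℕ → Set Ω := fun j => {ω | ∀ t : ℕ, t ≤ (2 ^ j) ^ 2 → ∀ b,
      (b ∈ infd C ω t ↔ (EK C j ω).R (fun _ => Set.univ) 0 0 t b)}
  let X : ℕ → Set Ω := fun j => {ω | ω ∈ L j ∧
      ∃ y, (EK C j ω).R (fun _ => Set.univ) 0 0 (TT d a A j) y}
  -- facts on TT
  have hTT : ∀ j ≥ k4, TT d a A j + 4 * d * kp a A j ^ 2 + kp a A j = (2 ^ j) ^ 2 := by
    intro j hj
    have := (hk4 j hj).2.2.2
    unfold TT
    omega
  have hTT2 : ∀ j ≥ k4, 2 * kp a A (j + 1) + 1 + j ≤ TT d a A j := by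
    intro j hj
    have := (hk4 j hj).2.2.2
    unfold TT
    omega
  -- step 1
  have step1 : (1 : ℝ≥0∞) ≤ err (rr A k) + (((2 * kp a A k + 1) ^ d : ℕ) : ℝ≥0∞) *
      (P (X k) + err (rr A k) + err (rr A k)) := by
    have hB0 : P {ω | ∃ y, (EK C k ω).R (fun _ => Set.univ) 0 0 (TT d a A k) y} ≤
        P (X k) + err (rr A k) := by
      refine (measure_mono (t := X k ∪ {ω | ¬ ∀ t : ℕ, t ≤ (2 ^ k) ^ 2 → ∀ b,
        (b ∈ infd C ω t ↔ (EK C k ω).R (fun _ => Set.univ) 0 0 t b)}) ?_).trans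
        ((measure_union_le _ _).trans (add_le_add le_rfl (hk2 k (by omega))))
      intro ω hω
      by_cases h : ∀ t : ℕ, t ≤ (2 ^ k) ^ 2 → ∀ b,
        (b ∈ infd C ω t ↔ (EK C k ω).R (fun _ => Set.univ) 0 0 t b)
      · exact Or.inl ⟨h, hω⟩
      · exact Or.inr h
    have hBv : ∀ v : Pos d, P {ω | ∃ y, (EK C k ω).R (fun _ => Set.univ) (kp a A k) v
        (kp a A k + TT d a A k) y} ≤ P (X k) + err (rr A k) + err (rr A k) := by
      intro v
      have h1 := hTT k (by omega)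
      exact (hk3 k (by omega) (kp a A k) (TT d a A k) (by omega) v).trans (add_le_add hB0 le_rfl)
    have hcov : (Set.univ : Set Ω) ⊆ {ω | ¬ GoodK a A Cv k (EK C k ω)} ∪
        ⋃ v ∈ box d (kp a A k), {ω | ∃ y, (EK C k ω).R (fun _ => Set.univ) (kp a A k) v
        (kp a A k + TT d a A k) y} := by
      intro ω _
      by_cases hG : GoodK a A Cv k (EK C k ω)
      · right
        obtain ⟨hκ1, hκ2, hκ3, hκ4⟩ := hk4 k (by omega)
        have h1 := hTT k (by omega)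
        have h2 := hTT2 k (by omega)
        have hG' : (EK C k ω).Good (rr A k) (kp a A k) Cv ((2 ^ k) ^ 2) ((2 ^ k) ^ 2) := hG
        have hle : kp a A k + kp a A k ≤ (2 ^ k) ^ 2 := by
          by_cases hd0 : d = 0
          · subst hd0
            have h3 : kp a A k ≤ 2 ^ (k / 1000) := kp_le a A k haA
            have h4 : 2 ^ (k / 1000) ≤ 2 ^ k := Nat.pow_le_pow_right (by norm_num) (Nat.div_le_self _ _)
            have h5 : 2 * 2 ^ k ≤ (2 ^ k) ^ 2 ∨ k = 0 := by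
              by_cases hk0 : k = 0
              · exact Or.inr hk0
              · left
                have : 2 ≤ 2 ^ k := Nat.le_self_pow hk0 2
                nlinarith
            rcases h5 with h5 | h5
            · omega
            · have : kp a A k ≤ 1 := by simpa [h5] using h3
              have h6 : 2 * kp a A (k + 1) + 1 + k ≤ TT 0 a A k := h2
              omega
          · have h3 : kp a A k ≤ kp a A k ^ 2 := Nat.le_self_pow (by norm_num) _
            have h4 : kp a A k ^ 2 ≤ 4 * d * kp a A k ^ 2 := Nat.le_mul_of_pos_left _ (by omega)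
            omega
        obtain ⟨v, -, hv, hok⟩ := hG'.g1 (kp a A k) le_rfl hle 0
        rw [zero_add] at hok
        obtain ⟨y, hy, -⟩ := hpers (EK C k ω) _ _ _ _ hG' hκ2 hκ3 (kp a A k) v le_rfl hok.1
          (kp a A k + TT d a A k) (by omega) (by omega)
        exact Set.mem_biUnion (mem_box hv) ⟨y, hy⟩
      · exact Or.inl hG
    calc (1 : ℝ≥0∞) = P Set.univ := measure_univ.symm
      _ ≤ P {ω | ¬ GoodK a A Cv k (EK C k ω)} +
          ∑ v ∈ box d (kp a A k), P {ω | ∃ y, (EK C k ω).R (fun _ => Set.univ) (kp a A k) v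
          (kp a A k + TT d a A k) y} :=
          (measure_mono hcov).trans ((measure_union_le _ _).trans
            (add_le_add le_rfl (measure_biUnion_finset_le _ _)))
      _ ≤ err (rr A k) + ∑ _v ∈ box d (kp a A k), (P (X k) + err (rr A k) + err (rr A k)) :=
          add_le_add (hk1 k (by omega)) (Finset.sum_le_sum fun v _ => hBv v)
      _ = _ := by rw [Finset.sum_const, card_box, nsmul_eq_mul]
  -- step 2
  have step2 : P (X k) ≤ P (⋂ i : ℕ, X (k + i)) + 2 * ∑' i : ℕ, err (rr A (k + (i + 1))) := by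
    have hcov : X k ⊆ (⋂ i : ℕ, X (k + i)) ∪ ⋃ i : ℕ,
        ({ω | ¬ GoodK a A Cv (k + (i + 1)) (EK C (k + (i + 1)) ω)} ∪ (L (k + (i + 1)))ᶜ) := by
      intro ω hω
      by_cases hbad : ∃ i : ℕ, ω ∈ ({ω | ¬ GoodK a A Cv (k + (i + 1)) (EK C (k + (i + 1)) ω)} ∪
          (L (k + (i + 1)))ᶜ : Set Ω)
      · exact Or.inr (Set.mem_iUnion.2 hbad)
      · left
        push Not at hbad
        rw [Set.mem_iInter]
        intro i
        induction i with
        | zero => exact hω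
        | succ i ih =>
          have h0 := hbad i
          rw [Set.mem_union, not_or] at h0
          obtain ⟨hG, hL⟩ := h0
          have hG' : (EK C (k + (i + 1)) ω).Good (rr A (k + (i + 1))) (kp a A (k + (i + 1))) Cv
              ((2 ^ (k + (i + 1))) ^ 2) ((2 ^ (k + (i + 1))) ^ 2) := by
            by_contra hcon
            exact hG hcon
          have hL' : ω ∈ L (k + (i + 1)) := by
            by_contra hcon
            exact hL hcon
          obtain ⟨hLi, y, hy⟩ := ih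
          have e1 := hTT (k + i) (by omega)
          have e2 := hTT2 (k + i) (by omega)
          have e3 := hTT (k + (i + 1)) (by omega)
          have e4 := hTT2 (k + (i + 1)) (by omega)
          have e5 : k + i + 1 = k + (i + 1) := by omega
          have e6 := kp_mono a A (k + (i + 1))
          rw [e5] at e2
          obtain ⟨hκ1, hκ2, hκ3, -⟩ := hk4 (k + (i + 1)) (by omega)
          have hpow : (2 ^ (k + i)) ^ 2 ≤ (2 ^ (k + (i + 1))) ^ 2 :=
            Nat.pow_le_pow_left (Nat.pow_le_pow_right (by norm_num) (by omega)) 2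
          have hinf : y ∈ infd C ω ((TT d a A (k + i) : ℕ) : ℝ) :=
            (hLi (TT d a A (k + i)) (by omega) y).2 hy
          have hy' := (hL' (TT d a A (k + i)) (by omega) y).1 hinf
          obtain ⟨x, -, hx1, hx2⟩ := hsplit _ _ _ _ _ _ hy' (kp a A (k + (i + 1))) (Nat.zero_le _)
            (by omega)
          have hf := hfg _ _ _ _ _ hG' hκ2 _ _ _ _ (by omega) (by omega) hx2
          obtain ⟨y2, hy2, -⟩ := hpers _ _ _ _ _ hG' hκ2 hκ3 _ _ le_rfl hf
            (TT d a A (k + (i + 1))) (by omega) (by omega)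
          exact ⟨hL', y2, htrans _ _ _ _ _ _ _ _ hx1 hy2⟩
    calc P (X k) ≤ P (⋂ i : ℕ, X (k + i)) + ∑' i : ℕ,
          P ({ω | ¬ GoodK a A Cv (k + (i + 1)) (EK C (k + (i + 1)) ω)} ∪ (L (k + (i + 1)))ᶜ) :=
          (measure_mono hcov).trans ((measure_union_le _ _).trans
            (add_le_add le_rfl (measure_iUnion_le _)))
      _ ≤ P (⋂ i : ℕ, X (k + i)) + ∑' i : ℕ, 2 * err (rr A (k + (i + 1))) := by
          refine add_le_add le_rfl (ENNReal.tsum_le_tsum fun i => ?_)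
          rw [two_mul]
          exact (measure_union_le _ _).trans (add_le_add (hk1 _ (by omega)) (hk2 _ (by omega)))
      _ = _ := by rw [ENNReal.tsum_mul_left]
  -- step 3
  have step3 : P (⋂ i : ℕ, X (k + i)) ≤ P (Surv C) := by
    have hn : P {ω | ¬ NoTies C ω} = 0 := hties
    calc P (⋂ i : ℕ, X (k + i)) ≤ P (Surv C ∪ {ω | ¬ NoTies C ω}) := by
          refine measure_mono fun ω hω => ?_
          by_cases hnt : NoTies C ω
          · left
            refine hint ω hnt fun t => ?_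
            have h1 := Set.mem_iInter.1 hω t
            obtain ⟨hL, y, hy⟩ := h1
            have e1 := hTT (k + t) (by omega)
            have e2 := hTT2 (k + t) (by omega)
            obtain ⟨x, -, hx1, -⟩ := hsplit _ _ _ _ _ _ hy t (Nat.zero_le _) (by omega)
            exact ⟨x, (hL t (by omega) x).2 hx1⟩
          · exact Or.inr hnt
      _ ≤ P (Surv C) + P {ω | ¬ NoTies C ω} := measure_union_le _ _
      _ = P (Surv C) := by rw [hn, add_zero]
  by_contra hcon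
  have h0 : P (Surv C) = 0 := le_antisymm (not_lt.1 hcon) zero_le
  have h1 : ∑' i : ℕ, err (rr A (k + i)) = err (rr A k) + ∑' i : ℕ, err (rr A (k + (i + 1))) := by
    have := tsum_eq_zero_add' (f := fun i : ℕ => err (rr A (k + i))) ENNReal.summable
    simpa using this
  have h2 : P (X k) + err (rr A k) + err (rr A k) ≤ 2 * ∑' i : ℕ, err (rr A (k + i)) := by
    rw [h0] at step3
    have h3 : P (X k) ≤ 2 * ∑' i : ℕ, err (rr A (k + (i + 1))) := by
      refine step2.trans ?_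
      have : P (⋂ i : ℕ, X (k + i)) = 0 := le_antisymm step3 zero_le
      rw [this, zero_add]
    rw [h1, mul_add, two_mul (err (rr A k))]
    calc P (X k) + err (rr A k) + err (rr A k)
        ≤ 2 * ∑' i : ℕ, err (rr A (k + (i + 1))) + err (rr A k) + err (rr A k) := by gcongr
      _ = _ := by ring
  have h4 := hk5 k (by omega)
  have h5 : (1 : ℝ≥0∞) ≤ err (rr A k) + (((2 * kp a A k + 1) ^ d : ℕ) : ℝ≥0∞) *
      (2 * ∑' i : ℕ, err (rr A (k + i))) :=
    step1.trans (add_le_add le_rfl (mul_le_mul' le_rfl h2))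
  exact absurd h4 (not_lt.2 h5)

end

/-! ### shift in space and time -/

open ZP.Rows
open ZP.F1a (PP_shift core)

theorem R_shiftU {d : ℕ} {m : Model} {δ : ℝ} (q : Par d m δ) (η : Tor d q.M → ℕ)
    (l : List (Let d q.M (q.K + 1))) (z : Pos d) (s : ℕ) (x : Pos d) (t' : ℕ) (y : Pos d) :
    (envT q (fun v => (l.take (s * q.N1)).foldl stepA η (v + tv z))
      ((l.drop (s * q.N1)).map (shL (-(tv z))))).R (fun _ => Set.univ) 0 x t' y ↔
    (envT q η l).R (fun _ => Set.univ) s (x + z) (s + t') (y + z) :=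
  E4.R_shift q η l z s (fun _ => Set.univ) 0 x t' y

section AS

variable {d : ℕ} {m : Model} {δ : ℝ}

/-- the infection from the origin is alive at the time `T` -/
def Al (q : Par d m δ) (T : ℕ) (η : Tor d q.M → ℕ) (l : List (Let d q.M (q.K + 1))) : Prop :=
  ∃ y, (envT q η l).R (fun _ => Set.univ) 0 0 T y

theorem Al_take (q : Par d m δ) (T : ℕ) (η : Tor d q.M → ℕ) (l : List (Let d q.M (q.K + 1))) :
    Al q T η l ↔ Al q T η (l.take (T * q.N1)) := by
  have h := agree_take q η l T (fun _ => Set.univ)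
  unfold Al
  exact exists_congr fun y => h.R (fun _ => Set.univ) (fun _ _ => subset_rfl) 0 T 0 y le_rfl

theorem PP_alive (q : Par d m δ) (hd : 0 < d) (S s0 T : ℕ) (h : s0 + T ≤ S) (z : Pos d) :
    q.PP (S * q.N1) (fun η l => ∃ y, (envT q η l).R (fun _ => Set.univ) s0 z (s0 + T) y) =
      q.PP (T * q.N1) (Al q T) := by
  have h1 : ∀ (η : Tor d q.M → ℕ) (l : List (Let d q.M (q.K + 1))),
      (∃ y, (envT q η l).R (fun _ => Set.univ) s0 z (s0 + T) y) ↔
      Al q T (fun v => (l.take (s0 * q.N1)).foldl stepA η (v + tv z))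
        (((l.drop (s0 * q.N1)).take (T * q.N1)).map (shL (-(tv z)))) := by
    intro η l
    rw [List.map_take, ← Al_take]
    constructor
    · rintro ⟨y, hy⟩
      refine ⟨y - z, (R_shiftU q η l z s0 0 T (y - z)).2 ?_⟩
      rw [zero_add, sub_add_cancel]
      exact hy
    · rintro ⟨y, hy⟩
      refine ⟨y + z, ?_⟩
      have h2 := (R_shiftU q η l z s0 0 T y).1 hy
      rw [zero_add] at h2
      exact h2
  have h2 := PP_shift q hd S s0 T h
    (fun η l => Al q T (fun v => η (v + tv z)) (l.map (shL (-(tv z)))))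
  have h3 : q.PP (S * q.N1) (fun η l => ∃ y, (envT q η l).R (fun _ => Set.univ) s0 z (s0 + T) y) =
      q.PP (S * q.N1) (fun η l => Al q T (fun v => (l.take (s0 * q.N1)).foldl stepA η (v + tv z))
        (((l.drop (s0 * q.N1)).take (T * q.N1)).map (shL (-(tv z))))) := by
    congr 1
    funext η l
    exact propext (h1 η l)
  rw [h3, h2]
  have h4 := translation q (-(tv z)) (T * q.N1) (fun η l => if Al q T η l then 1 else 0)
  simp only [sub_neg_eq_add] at h4
  exact h4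

variable {Ω : Type} [MeasurableSpace Ω] {P : Measure Ω}

theorem alive_shift [IsProbabilityMeasure P] (hd : 0 < d) (hδ : 0 ≤ δ) (C : Clocks m δ d P) (A : ℕ)
    (hA : 1 ≤ A) :
    ∃ k0 : ℕ, ∀ k ≥ k0, ∀ s0 T : ℕ, s0 + T ≤ (2 ^ k) ^ 2 → ∀ z : Pos d,
      P {ω | ∃ y, (EK C k ω).R (fun _ => Set.univ) s0 z (s0 + T) y} ≤
        P {ω | ∃ y, (EK C k ω).R (fun _ => Set.univ) 0 0 T y} + err (rr A k) := by
  obtain ⟨k1, hk1⟩ := core hd hδ C A hA
  refine ⟨k1, fun k hk s0 T hT z => ?_⟩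
  obtain ⟨q, hqM, -, ε, hε, hq, hq'⟩ := hk1 k hk
  have h1 := hq (fun E => ∃ y, E.R (fun _ => Set.univ) s0 z (s0 + T) y)
  have h2 := hq' (fun E => ∃ y, E.R (fun _ => Set.univ) 0 0 T y)
  have h3 := PP_alive q hd ((2 ^ k) ^ 2) s0 T hT z
  have h4 := PP_alive q hd ((2 ^ k) ^ 2) 0 T (by omega) 0
  simp only [Nat.zero_add] at h4
  have h5 : ε + ε ≤ err (rr A k) := by
    have h6 : (ε + ε : ℝ≥0∞) ≤ (((2 ^ k) ^ 2 + 1 : ℕ) : ℝ≥0∞) * ε := by
      rw [← two_mul]
      gcongr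
      have : 1 ≤ (2 ^ k) ^ 2 := Nat.one_le_pow _ _ (by positivity)
      exact_mod_cast (by omega : 2 ≤ (2 ^ k) ^ 2 + 1)
    refine le_trans h6 (le_trans hε ?_)
    unfold ZI.err
    refine ENNReal.ofReal_le_ofReal ?_
    have := Real.exp_pos (- Real.sqrt (rr A k))
    linarith
  calc P {ω | ∃ y, (EK C k ω).R (fun _ => Set.univ) s0 z (s0 + T) y}
      ≤ q.PP ((2 ^ k) ^ 2 * q.N1) (fun η l =>
          ∃ y, (envT q η l).R (fun _ => Set.univ) s0 z (s0 + T) y) + ε := h1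
    _ = q.PP ((2 ^ k) ^ 2 * q.N1) (fun η l =>
          ∃ y, (envT q η l).R (fun _ => Set.univ) 0 0 T y) + ε := by rw [h3, h4]
    _ ≤ (P {ω | ∃ y, (EK C k ω).R (fun _ => Set.univ) 0 0 T y} + ε) + ε := by gcongr
    _ ≤ _ := by
      rw [add_assoc]
      gcongr

end AS


end ZP.POS

namespace ZP.Rows

open ZP

variable {d : ℕ} {m : Model} {δ : ℝ} {Ω : Type} [MeasurableSpace Ω] {P : Measure Ω}

/-- survival has positive probability -/
theorem surv_pos [IsProbabilityMeasure P] (hd : 0 < d) (hδ : 0 ≤ δ) (C : Clocks m δ d P)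
    {Cv a A r0 : ℕ} {c : ℝ} (hB : Base m δ d Cv a A r0 c) : 0 < P (Surv C) := by
  have hA : 1 ≤ A := by have := hB.a_big; have := hB.A_big; omega
  exact ZP.POS.surv_pos_of C hB.a_big hB.A_big
    (fun E G s t x y h τ h1 h2 => R_split E h τ h1 h2)
    (fun E G s t t' x y y' h h' => R_trans E h h')
    (fun E r κ S Dm hE hκ t t' x y h1 h2 h => fg_of_R hE hκ h1 h2 h)
    (fun E r κ S Dm hE hκ hκ' t x h1 h2 t' h3 h4 => persist hd hE hκ hκ' h1 h2 h3 h4)
    (sys_good hδ C hB) (sys_linkR hd hδ C A hA) (ZP.POS.alive_shift hd hδ C A hA)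
    (surv_int C) (no_ties hδ C)

end ZP.Rows
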