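import Pool.Agent.ZP.SF1
import Pool.Agent.ZP.PJ
import Pool.Agent.ZP.E1
import Pool.Agent.ZP.InfLem
import Pool.Agent.ZI.C8

/-! # Row BE: the basic events are local, monotone, path events (deterministic) -/

set_option autoImplicit false

open scoped ENNReal BigOperators Classical

noncomputable section

namespace ZP.BE

open ZP

variable {d : ℕ} {M K : ℕ}

/-! ### one label -/

theorem zi_mono {η η' : Tor d M → ℕ} {x : Tor d M} (hx : η x ≤ η' x) (k : ℕ) (e : Dir d)
    {A A' : Set (Pos d)} (hAA' : A ⊆ A') (hocc : ∀ z ∈ A, 0 < η (tv z)) :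
    ZI.infMv nbT tv η A (x, k, e) ⊆ ZI.infMv nbT tv η' A' (x, k, e) := by
  intro z hz
  unfold ZI.infMv at hz ⊢
  by_cases h : k < η x
  · rw [if_pos h] at hz
    rw [if_pos (lt_of_lt_of_le h hx)]
    rcases hz with ⟨h1, h2⟩ | ⟨h1, h2, h3⟩
    · exact Or.inl ⟨hAA' h1, fun h4 => (h2 h4).trans hx⟩
    · exact Or.inr ⟨hAA' h1, h2, h3⟩
  · rw [if_neg h] at hz
    by_cases h' : k < η' x
    · rw [if_pos h']
      refine Or.inl ⟨hAA' hz, fun h4 => ?_⟩
      have h5 := hocc z hz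
      have h6 : (tv z : Tor d M) = x := h4
      rw [h6] at h5
      show 2 ≤ η' x
      omega
    · rw [if_neg h']
      exact hAA' hz

theorem zi_stay {η : Tor d M → ℕ} {x : Tor d M} (k : ℕ) (e : Dir d) {A : Set (Pos d)} {z : Pos d}
    (hz : z ∈ A) (hzx : (tv z : Tor d M) ≠ x) : z ∈ ZI.infMv nbT tv η A (x, k, e) := by
  unfold ZI.infMv
  by_cases h : k < η x
  · rw [if_pos h]
    exact Or.inl ⟨hz, fun h4 => absurd h4 hzx⟩
  · rw [if_neg h]
    exact hz

theorem zi_src {η : Tor d M → ℕ} {x : Tor d M} {k : ℕ} {e : Dir d} {A : Set (Pos d)} {z : Pos d}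
    (hz : z ∈ ZI.infMv nbT tv η A (x, k, e)) (hA : ∀ y ∈ A, (tv y : Tor d M) ≠ x) : z ∈ A := by
  unfold ZI.infMv at hz
  by_cases h : k < η x
  · rw [if_pos h] at hz
    rcases hz with ⟨h1, -⟩ | ⟨h1, h2, -⟩
    · exact h1
    · exact absurd h2 (hA _ h1)
  · rwa [if_neg h] at hz

theorem zp_mono {η η' : Tor d M → ℕ} {x : Tor d M} (hx : η x ≤ η' x) (k : ℕ) (e : Dir d)
    {A A' : Set (Pos d)} (hAA' : A ⊆ A') (hocc : ∀ z ∈ A, 0 < η (tv z)) :
    infMv nbT tv η A (x, k, e) ⊆ infMv nbT tv η' A' (x, k, e) := by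
  cases k with
  | zero => exact fun z hz => ⟨hAA' hz.1, fun h => (hz.2 h).trans hx⟩
  | succ k => exact zi_mono hx k e hAA' hocc

theorem zp_stay {η : Tor d M → ℕ} {x : Tor d M} (k : ℕ) (e : Dir d) {A : Set (Pos d)} {z : Pos d}
    (hz : z ∈ A) (hzx : (tv z : Tor d M) ≠ x) : z ∈ infMv nbT tv η A (x, k, e) := by
  cases k with
  | zero => exact ⟨hz, fun h4 => absurd h4 hzx⟩
  | succ k => exact zi_stay k e hz hzx

theorem zp_src {η : Tor d M → ℕ} {x : Tor d M} {k : ℕ} {e : Dir d} {A : Set (Pos d)} {z : Pos d}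
    (hz : z ∈ infMv nbT tv η A (x, k, e)) (hA : ∀ y ∈ A, (tv y : Tor d M) ≠ x) : z ∈ A := by
  cases k with
  | zero => exact hz.1
  | succ k => exact zi_src hz hA

/-! ### one letter -/

theorem stepI_eq_none (G : Set (Pos d)) (s : (Tor d M → ℕ) × Set (Pos d)) :
    stepI G s (none : Let d M K) = s := rfl

theorem stepI_eq_some (G : Set (Pos d)) (s : (Tor d M → ℕ) × Set (Pos d)) (x : Tor d M) (k : Fin K)
    (e : Dir d) : stepI G s (some (x, k, e) : Let d M K) =
      (mv nbT s.1 (x, (k : ℕ), e), infMv nbT tv s.1 s.2 (x, (k : ℕ), e) ∩ G) := rfl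

theorem res_some (Λ : Set (Tor d M)) (x : Tor d M) (k : Fin K) (e : Dir d) :
    res Λ (some (x, k, e) : Let d M K) = if x ∈ Λ then some (x, k, e) else none := rfl

/-- one letter keeps the infected positions whose sites are not touched -/
theorem stepI_stay {G : Set (Pos d)} {Λ : Set (Tor d M)} {η : Tor d M → ℕ} {a : Let d M K}
    (ha : res Λ a = none) {A : Set (Pos d)} {z : Pos d} (hz : z ∈ A) (hzG : z ∈ G)
    (hzΛ : tv z ∈ Λ) : z ∈ (stepI G (η, A) a).2 := by
  rcases a with _ | ⟨x, k, e⟩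
  · exact hz
  · rw [stepI_eq_some]
    refine ⟨zp_stay _ _ hz ?_, hzG⟩
    rintro rfl
    rw [res_some, if_pos hzΛ] at ha
    exact Option.some_ne_none _ ha

theorem stepI_mono {G : Set (Pos d)} {Λ : Set (Tor d M)} (hG : ∀ z ∈ G, tv z ∈ Λ)
    {η η' : Tor d M → ℕ} (hη : ∀ v ∈ Λ, η v ≤ η' v) {a a' : Let d M K} (ha : res Λ a = res Λ a')
    {A A' : Set (Pos d)} (hA : A ⊆ G) (hAA' : A ⊆ A') (hocc : ∀ z ∈ A, 0 < η (tv z)) :
    (stepI G (η, A) a).2 ⊆ (stepI G (η', A') a').2 := by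
  intro z hz
  rcases a with _ | ⟨x, k, e⟩
  · have hz' : z ∈ A := hz
    exact stepI_stay (Λ := Λ) (by rw [← ha]; rfl) (hAA' hz') (hA hz') (hG z (hA hz'))
  · rw [stepI_eq_some] at hz
    by_cases hx : x ∈ Λ
    · rw [res_some, if_pos hx] at ha
      rcases a' with _ | ⟨x', k', e'⟩
      · exact absurd ha (Option.some_ne_none _)
      · rw [res_some] at ha
        split_ifs at ha
        have h1 := Option.some.inj ha
        rw [← h1, stepI_eq_some]
        exact ⟨zp_mono (hη x hx) _ _ hAA' hocc hz.1, hz.2⟩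
    · rw [res_some, if_neg hx] at ha
      have hz' : z ∈ A := zp_src hz.1 fun y hy h => hx (h ▸ hG y (hA hy))
      exact stepI_stay (Λ := Λ) ha.symm (hAA' hz') (hA hz') (hG z (hA hz'))

theorem stepI_occ {G : Set (Pos d)} {η : Tor d M → ℕ} (a : Let d M K) {A : Set (Pos d)}
    (hocc : ∀ z ∈ A, 0 < η (tv z)) : ∀ z ∈ (stepI G (η, A) a).2, 0 < stepA η a (tv z) := by
  intro z hz
  rcases a with _ | ⟨x, k, e⟩
  · exact hocc z hz
  · exact infMv_occ hocc hz.1

/-! ### words -/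

theorem fold_mono {G : Set (Pos d)} {Λ : Set (Tor d M)} (hG : ∀ z ∈ G, tv z ∈ Λ) : ∀ (n : ℕ)
    (w w' : List (Let d M K)) (η η' : Tor d M → ℕ) (A A' : Set (Pos d)), n ≤ w.length →
    n ≤ w'.length → (∀ i ≤ n, ∀ v ∈ Λ, stt η w i v ≤ stt η' w' i v) →
    (∀ i < n, res Λ (w.getD i none) = res Λ (w'.getD i none)) → A ⊆ G → A ⊆ A' →
    (∀ z ∈ A, 0 < η (tv z)) →
    ((w.take n).foldl (stepI G) (η, A)).2 ⊆ ((w'.take n).foldl (stepI G) (η', A')).2 := by
  intro n
  induction n with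
  | zero => exact fun _ _ _ _ _ _ _ _ _ _ _ h _ => h
  | succ n ih =>
    intro w w' η η' A A' hw hw' hη hl hA hAA' hocc
    rcases w with _ | ⟨a, w⟩
    · simp at hw
    rcases w' with _ | ⟨a', w'⟩
    · simp at hw'
    rw [List.take_succ_cons, List.take_succ_cons, List.foldl_cons, List.foldl_cons]
    have e1 : stepI G (η, A) a = (stepA η a, (stepI G (η, A) a).2) :=
      Prod.ext (E1.stepI_fst G (η, A) a) rfl
    have e2 : stepI G (η', A') a' = (stepA η' a', (stepI G (η', A') a').2) :=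
      Prod.ext (E1.stepI_fst G (η', A') a') rfl
    rw [e1, e2]
    refine ih w w' _ _ _ _ (by simpa using hw) (by simpa using hw') ?_ ?_ ?_ ?_ ?_
    · intro i hi v hv
      exact hη (i + 1) (by omega) v hv
    · intro i hi
      exact hl (i + 1) (by omega)
    · exact E1.foldl_stepI_sub G [a] (η, A) hA
    · exact stepI_mono hG (fun v hv => hη 0 (by omega) v hv) (hl 0 (by omega)) hA hAA' hocc
    · exact stepI_occ a hocc

/-- monotonicity in the configuration for the same word -/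
theorem fold_mono_same (G : Set (Pos d)) (w : List (Let d M (K + 1))) : ∀ (η η' : Tor d M → ℕ)
    (A A' : Set (Pos d)), η ≤ η' → A ⊆ A' → (∀ z ∈ A, 0 < η (tv z)) →
    (w.foldl (stepI G) (η, A)).2 ⊆ (w.foldl (stepI G) (η', A')).2 := by
  induction w with
  | nil => exact fun _ _ _ _ _ h _ => h
  | cons a w ih =>
    intro η η' A A' hη hAA' hocc
    rw [List.foldl_cons, List.foldl_cons]
    have e1 : stepI G (η, A) a = (stepA η a, (stepI G (η, A) a).2) :=
      Prod.ext (E1.stepI_fst G (η, A) a) rfl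
    have e2 : stepI G (η', A') a = (stepA η' a, (stepI G (η', A') a).2) :=
      Prod.ext (E1.stepI_fst G (η', A') a) rfl
    rw [e1, e2]
    refine ih _ _ _ _ ?_ ?_ (stepI_occ a hocc)
    · rw [Rows.stepA_prj, Rows.stepA_prj]
      exact ZI.Rows.stepA_mono hη (prj a)
    · rcases a with _ | ⟨x, k, e⟩
      · exact hAA'
      · exact fun z hz => ⟨zp_mono (hη x) _ _ hAA' hocc hz.1, hz.2⟩

/-! ### words, infection without recovery -/

theorem stepI0_eq (G : Set (Pos d)) (s : (Tor d M → ℕ) × Set (Pos d)) (a : Let d M (K + 1)) :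
    stepI0 G s a = ZI.Rows.D1.stepRA G s (prj a) := rfl

theorem zi_stepRA_stay {G : Set (Pos d)} {Λ : Set (Tor d M)} {η : Tor d M → ℕ} {a : Let d M K}
    (ha : res Λ a = none) {A : Set (Pos d)} {z : Pos d} (hz : z ∈ A) (hzG : z ∈ G)
    (hzΛ : tv z ∈ Λ) : z ∈ (ZI.Rows.D1.stepRA G (η, A) a).2 := by
  rcases a with _ | ⟨x, k, e⟩
  · exact hz
  · refine ⟨zi_stay (k : ℕ) e hz ?_, hzG⟩
    rintro rfl
    rw [res_some, if_pos hzΛ] at ha
    exact Option.some_ne_none _ ha

theorem stepRA_mono {G : Set (Pos d)} {Λ : Set (Tor d M)} (hG : ∀ z ∈ G, tv z ∈ Λ)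
    {η η' : Tor d M → ℕ} (hη : ∀ v ∈ Λ, η v ≤ η' v) {a a' : Let d M K} (ha : res Λ a = res Λ a')
    {A A' : Set (Pos d)} (hA : A ⊆ G) (hAA' : A ⊆ A') (hocc : ∀ z ∈ A, 0 < η (tv z)) :
    (ZI.Rows.D1.stepRA G (η, A) a).2 ⊆ (ZI.Rows.D1.stepRA G (η', A') a').2 := by
  intro z hz
  rcases a with _ | ⟨x, k, e⟩
  · have hz' : z ∈ A := hz
    exact zi_stepRA_stay (Λ := Λ) (by rw [← ha]; rfl) (hAA' hz') (hA hz') (hG z (hA hz'))
  · have hz1 : z ∈ ZI.infMv nbT tv η A (x, (k : ℕ), e) := hz.1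
    have hz2 : z ∈ G := hz.2
    by_cases hx : x ∈ Λ
    · rw [res_some, if_pos hx] at ha
      rcases a' with _ | ⟨x', k', e'⟩
      · exact absurd ha (Option.some_ne_none _)
      · rw [res_some] at ha
        split_ifs at ha
        have h1 := Option.some.inj ha
        rw [← h1]
        exact ⟨zi_mono (hη x hx) _ _ hAA' hocc hz1, hz2⟩
    · rw [res_some, if_neg hx] at ha
      have hz' : z ∈ A := zi_src hz1 fun y hy h => hx (h ▸ hG y (hA hy))
      exact zi_stepRA_stay (Λ := Λ) ha.symm (hAA' hz') (hA hz') (hG z (hA hz'))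

theorem res_prj {Λ : Set (Tor d M)} (a : Let d M (K + 1)) :
    res Λ (prj a) = prj (res Λ a) := by
  rcases a with _ | ⟨x, ⟨k, hk⟩, e⟩
  · rfl
  · rw [res_some]
    cases k with
    | zero =>
      by_cases hx : x ∈ Λ
      · rw [if_pos hx]
        rfl
      · rw [if_neg hx]
        rfl
    | succ k =>
      show (if x ∈ Λ then some (x, (⟨k, Nat.lt_of_succ_lt_succ hk⟩ : Fin K), e) else none) =
        prj (if x ∈ Λ then some (x, (⟨k + 1, hk⟩ : Fin (K + 1)), e) else none)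
      by_cases hx : x ∈ Λ
      · rw [if_pos hx, if_pos hx]
        rfl
      · rw [if_neg hx, if_neg hx]
        rfl

theorem stepI0_fst (G : Set (Pos d)) (s : (Tor d M → ℕ) × Set (Pos d)) (a : Let d M (K + 1)) :
    (stepI0 G s a).1 = stepA s.1 a := by
  rw [stepI0_eq, ZI.Rows.D1.stepRA_fst, Rows.stepA_prj]

theorem stepI0_sub (G : Set (Pos d)) (s : (Tor d M → ℕ) × Set (Pos d)) (a : Let d M (K + 1))
    (h : s.2 ⊆ G) : (stepI0 G s a).2 ⊆ G := by
  rw [stepI0_eq]
  exact ZI.Rows.D1.foldl_stepRA_sub G [prj a] s h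

theorem stepI0_occ {G : Set (Pos d)} {η : Tor d M → ℕ} (a : Let d M (K + 1)) {A : Set (Pos d)}
    (hocc : ∀ z ∈ A, 0 < η (tv z)) : ∀ z ∈ (stepI0 G (η, A) a).2, 0 < stepA η a (tv z) := by
  intro z hz
  rw [Rows.stepA_prj]
  rw [stepI0_eq] at hz
  generalize prj a = b at hz ⊢
  rcases b with _ | ⟨x, k, e⟩
  · exact hocc z hz
  · exact ZI.infMv_occ (l := (x, (k : ℕ), e)) hocc hz.1

theorem fold0_mono {G : Set (Pos d)} {Λ : Set (Tor d M)} (hG : ∀ z ∈ G, tv z ∈ Λ) : ∀ (n : ℕ)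
    (w w' : List (Let d M (K + 1))) (η η' : Tor d M → ℕ) (A A' : Set (Pos d)), n ≤ w.length →
    n ≤ w'.length → (∀ i ≤ n, ∀ v ∈ Λ, stt η w i v ≤ stt η' w' i v) →
    (∀ i < n, res Λ (w.getD i none) = res Λ (w'.getD i none)) → A ⊆ G → A ⊆ A' →
    (∀ z ∈ A, 0 < η (tv z)) →
    ((w.take n).foldl (stepI0 G) (η, A)).2 ⊆ ((w'.take n).foldl (stepI0 G) (η', A')).2 := by
  intro n
  induction n with
  | zero => exact fun _ _ _ _ _ _ _ _ _ _ _ h _ => h
  | succ n ih =>
    intro w w' η η' A A' hw hw' hη hl hA hAA' hocc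
    rcases w with _ | ⟨a, w⟩
    · simp at hw
    rcases w' with _ | ⟨a', w'⟩
    · simp at hw'
    rw [List.take_succ_cons, List.take_succ_cons, List.foldl_cons, List.foldl_cons]
    have e1 : stepI0 G (η, A) a = (stepA η a, (stepI0 G (η, A) a).2) :=
      Prod.ext (stepI0_fst G (η, A) a) rfl
    have e2 : stepI0 G (η', A') a' = (stepA η' a', (stepI0 G (η', A') a').2) :=
      Prod.ext (stepI0_fst G (η', A') a') rfl
    rw [e1, e2]
    refine ih w w' _ _ _ _ (by simpa using hw) (by simpa using hw') ?_ ?_ ?_ ?_ ?_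
    · intro i hi v hv
      exact hη (i + 1) (by omega) v hv
    · intro i hi
      exact hl (i + 1) (by omega)
    · exact stepI0_sub G (η, A) a hA
    · rw [stepI0_eq, stepI0_eq]
      refine stepRA_mono hG (fun v hv => hη 0 (by omega) v hv) ?_ hA hAA' hocc
      rw [res_prj, res_prj]
      have h := hl 0 (by omega)
      have h' : res Λ a = res Λ a' := h
      rw [h']
    · exact stepI0_occ a hocc

/-! ### the sets -/

theorem supn_dv (e : Dir d) : supn (dv e) ≤ 1 := by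
  unfold ZI.supn
  refine Finset.sup_le fun j _ => ?_
  unfold ZI.dv
  by_cases h : j = e.1
  · subst h
    rw [Pi.single_eq_same]
    split_ifs <;> simp
  · rw [Pi.single_eq_of_ne h]
    simp

theorem le_supn (v : Pos d) (j : Fin d) : (v j).natAbs ≤ supn v :=
  Finset.le_sup (f := fun j => (v j).natAbs) (Finset.mem_univ j)

theorem supn_le {v : Pos d} {n : ℕ} (h : ∀ j, (v j).natAbs ≤ n) : supn v ≤ n :=
  Finset.sup_le fun j _ => h j

theorem cell_supn {L : ℕ} {x : Pos d} (hL : 1 ≤ L) (h : x ∈ cell (d := d) L 0) :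
    supn x ≤ L ^ 2 := by
  refine supn_le fun j => ?_
  obtain ⟨h1, h2⟩ := h j
  simp only [Pi.zero_apply, mul_zero, zero_add] at h1 h2
  have h3 : L ≤ L ^ 2 := by nlinarith
  omega

theorem cell_supn0 {L : ℕ} {x : Pos d} (h : x ∈ cell (d := d) L 0) : supn x ≤ L ^ 2 := by
  refine supn_le fun j => ?_
  obtain ⟨h1, h2⟩ := h j
  simp only [Pi.zero_apply, mul_zero, zero_add] at h1 h2
  have h0 : 1 ≤ L := by omega
  have h3 : L ≤ L ^ 2 := by nlinarith
  omega

theorem cell_supn' {L : ℕ} {y z' : Pos d} (hL : 2 ≤ L) (hz : l1 z' ≤ 1) (h : y ∈ cell L z') :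
    supn y ≤ L ^ 2 := by
  refine supn_le fun j => ?_
  obtain ⟨h1, h2⟩ := h j
  have h4 : (z' j).natAbs ≤ 1 := by
    refine le_trans ?_ hz
    unfold l1
    exact Finset.single_le_sum (f := fun j => (z' j).natAbs) (fun _ _ => Nat.zero_le _)
      (Finset.mem_univ j)
  have h3 : 2 * L ≤ L ^ 2 := by nlinarith
  have h5 : -(L : ℤ) ≤ L * z' j := by nlinarith [show -1 ≤ z' j by omega]
  have h6 : (L : ℤ) * z' j ≤ L := by nlinarith [show z' j ≤ 1 by omega]
  omega

theorem tv_mem_Bt {ρ : ℕ} {z : Pos d} (h : supn z ≤ ρ) : (tv z : Tor d M) ∈ Bt 0 ρ :=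
  ⟨z, h, by rw [zero_add]⟩

/-- no wrapping around the torus -/
theorem supn_of_tv {ρ : ℕ} {z : Pos d} (hM : 2 * ρ + 2 ≤ M) (hz : supn z ≤ ρ + 1)
    (h : (tv z : Tor d M) ∈ Bt 0 ρ) : supn z ≤ ρ := by
  obtain ⟨y, hy, h1⟩ := h
  rw [zero_add] at h1
  refine supn_le fun j => ?_
  have h2 : ((z j : ℤ) : ZMod M) = ((y j : ℤ) : ZMod M) := congrFun h1 j
  rw [ZMod.intCast_eq_intCast_iff_dvd_sub] at h2
  have h3 := le_supn z j
  have h4 := le_supn y j
  have h5 : y j - z j = 0 := by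
    apply Int.eq_zero_of_abs_lt_dvd h2
    rw [abs_lt]
    constructor <;> omega
  omega

/-! ### the restricted infection is local -/

theorem Rel.stt_le {N1 : ℕ} {Λ : Set (Tor d M)} {u : ℕ} {η η' : Tor d M → ℕ}
    {w w' : List (Let d M (K + 1))} (h : Rel N1 Λ 0 u η w η' w') (i : ℕ) (hi : i ≤ u * N1) :
    ∀ v ∈ Λ, stt η w i v ≤ stt η' w' i v :=
  h.cfg i (by rw [Nat.zero_mul]; exact Nat.zero_le _) hi

theorem rin_mono {N1 : ℕ} {Λ : Set (Tor d M)} {u ρ : ℕ} {η η' : Tor d M → ℕ}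
    {w w' : List (Let d M (K + 1))} (hR : Rel N1 Λ 0 u η w η' w') (hρ : Bt 0 ρ ⊆ Λ)
    {x : Pos d} (hx : supn x ≤ ρ) (h0 : 0 < η (tv x)) {i : ℕ} (hi : i ≤ u * N1) :
    rin ρ η x (w.take i) ⊆ rin ρ η' x (w'.take i) := by
  have h1 := hR.len
  have h2 := hR.len'
  refine fold_mono (Λ := Λ) (fun z hz => hρ (tv_mem_Bt hz)) i w w' η η' {x} {x} (by omega)
    (by omega) (fun j hj => Rel.stt_le hR j (by omega)) ?_ ?_ subset_rfl ?_
  · intro j hj
    exact hR.lets j (by rw [Nat.zero_mul]; exact Nat.zero_le _) (by omega)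
  · rintro _ rfl
    exact hx
  · rintro _ rfl
    exact h0

/-- words with the same letters in `Λ` -/
theorem map_res_eq {N1 : ℕ} {Λ : Set (Tor d M)} {u : ℕ} {η η' : Tor d M → ℕ}
    {w w' : List (Let d M (K + 1))} (hR : Rel N1 Λ 0 u η w η' w') {i : ℕ} (hi : i ≤ u * N1) :
    (w.take i).map (res Λ) = (w'.take i).map (res Λ) := by
  have h1 := hR.len
  have h2 := hR.len'
  apply List.ext_getElem?
  intro j
  rw [List.getElem?_map, List.getElem?_map]
  by_cases hj : j < i
  · rw [List.getElem?_take_of_lt hj, List.getElem?_take_of_lt hj]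
    have h3 := hR.lets j (by rw [Nat.zero_mul]; exact Nat.zero_le _) (by omega)
    rw [List.getD_eq_getElem?_getD, List.getD_eq_getElem?_getD,
      List.getElem?_eq_getElem (show j < w.length by omega),
      List.getElem?_eq_getElem (show j < w'.length by omega)] at h3
    rw [List.getElem?_eq_getElem (show j < w.length by omega),
      List.getElem?_eq_getElem (show j < w'.length by omega)]
    simp only [Option.getD_some] at h3
    rw [Option.map_some, Option.map_some, h3]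
  · rw [List.getElem?_eq_none (by rw [List.length_take]; omega),
      List.getElem?_eq_none (by rw [List.length_take]; omega)]

theorem occ1_mono {η η' : Tor d M → ℕ} (h : η ≤ η') (x : Tor d M) : occ1 η x ≤ occ1 η' x := by
  intro v
  unfold occ1
  by_cases hv : v = x
  · subst hv
    rw [Function.update_self, Function.update_self]
    exact max_le_max_left 1 (h v)
  · rw [Function.update_of_ne hv, Function.update_of_ne hv]
    exact h v

theorem lin_mono {N1 : ℕ} {Λ : Set (Tor d M)} {u : ℕ} {η η' : Tor d M → ℕ}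
    {w w' : List (Let d M (K + 1))} (hR : Rel N1 Λ 0 u η w η' w') (x : Pos d) {i : ℕ}
    (hi : i ≤ u * N1) : lin Λ η x (w.take i) ⊆ lin Λ η' x (w'.take i) := by
  unfold lin
  rw [map_res_eq hR hi]
  refine fold_mono_same _ _ _ _ _ _ (occ1_mono ?_ _) subset_rfl ?_
  · intro v
    unfold cut
    by_cases hv : v ∈ Λ
    · rw [if_pos hv, if_pos hv]
      exact Rel.stt_le hR 0 (Nat.zero_le _) v hv
    · rw [if_neg hv, if_neg hv]
  · rintro _ rfl
    unfold occ1
    rw [Function.update_self]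
    exact lt_of_lt_of_le Nat.zero_lt_one (le_max_left _ _)

/-! ### the letters version implies the path version -/

theorem mv_app (η : Tor d M → ℕ) (x : Tor d M) (k : ℕ) (e : Dir d) (v : Tor d M) (h : k < η x) :
    ZI.mv nbT η (x, k, e) v = (if v = x then η x - 1 else η v) +
      (if v = x + tv (dv e) then 1 else 0) := ZI.C8.mv_apply η (x, k, e) v h

theorem mv_local {Λ : Set (Tor d M)} {ξ η : Tor d M → ℕ} (h : ∀ v ∈ Λ, ξ v ≤ η v) {x : Tor d M}
    (hx : x ∈ Λ) (k : ℕ) (e : Dir d) : ∀ v ∈ Λ, mv nbT ξ (x, k, e) v ≤ mv nbT η (x, k, e) v := by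
  intro v hv
  have h1 := h v hv
  have h2 := h x hx
  cases k with
  | zero => exact h1
  | succ k =>
    show ZI.mv nbT ξ (x, k, e) v ≤ ZI.mv nbT η (x, k, e) v
    by_cases h3 : k < ξ x
    · have h4 : k < η x := lt_of_lt_of_le h3 h2
      rw [mv_app _ _ _ _ _ h3, mv_app _ _ _ _ _ h4]
      split_ifs <;> omega
    · rw [ZI.C5.mv_stay _ (x, k, e) h3]
      by_cases h4 : k < η x
      · rw [mv_app _ _ _ _ _ h4]
        by_cases h5 : v = x
        · rw [if_pos h5, h5]
          split_ifs <;> omega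
        · rw [if_neg h5]
          split_ifs <;> omega
      · rw [ZI.C5.mv_stay _ (x, k, e) h4]
        exact h1

theorem mv_out {η : Tor d M → ℕ} {x v : Tor d M} (hv : v ≠ x) (k : ℕ) (e : Dir d) :
    η v ≤ mv nbT η (x, k, e) v := by
  cases k with
  | zero => exact le_rfl
  | succ k =>
    show η v ≤ ZI.mv nbT η (x, k, e) v
    by_cases h3 : k < η x
    · rw [mv_app _ _ _ _ _ h3, if_neg hv]
      exact Nat.le_add_right _ _
    · rw [ZI.C5.mv_stay _ (x, k, e) h3]

theorem lin_sub_rin {ρ : ℕ} (hM : 2 * ρ + 2 ≤ M) : ∀ (w : List (Let d M (K + 1)))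
    (ξ η : Tor d M → ℕ) (B A : Set (Pos d)), (∀ v ∈ Bt (0 : Tor d M) ρ, ξ v ≤ η v) →
    (∀ z ∈ B, supn z ≤ ρ + 1) → (∀ z ∈ B, supn z ≤ ρ → z ∈ A) → (∀ z ∈ B, 0 < ξ (tv z)) →
    ∀ z ∈ ((w.map (res (Bt 0 ρ))).foldl (stepI Set.univ) (ξ, B)).2, supn z ≤ ρ →
      z ∈ (w.foldl (stepI {z | supn z ≤ ρ}) (η, A)).2 := by
  intro w
  induction w with
  | nil => exact fun ξ η B A _ _ h _ => h
  | cons a w ih =>
    intro ξ η B A h1 h2 h3 h4
    rw [List.map_cons, List.foldl_cons, List.foldl_cons]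
    have e1 : stepI Set.univ (ξ, B) (res (Bt 0 ρ) a) =
        (stepA ξ (res (Bt 0 ρ) a), (stepI Set.univ (ξ, B) (res (Bt 0 ρ) a)).2) :=
      Prod.ext (E1.stepI_fst _ (ξ, B) _) rfl
    have e2 : stepI {z | supn z ≤ ρ} (η, A) a = (stepA η a, (stepI {z | supn z ≤ ρ} (η, A) a).2) :=
      Prod.ext (E1.stepI_fst _ (η, A) a) rfl
    rw [e1, e2]
    refine ih _ _ _ _ ?_ ?_ ?_ (stepI_occ _ h4)
    · intro v hv
      rcases a with _ | ⟨x, k, e⟩
      · exact h1 v hv
      · rw [res_some]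
        by_cases hx : x ∈ Bt (0 : Tor d M) ρ
        · rw [if_pos hx]
          exact mv_local h1 hx (k : ℕ) e v hv
        · rw [if_neg hx]
          refine (h1 v hv).trans (mv_out ?_ (k : ℕ) e)
          rintro rfl
          exact hx hv
    · intro z hz
      rcases a with _ | ⟨x, k, e⟩
      · exact h2 z hz
      · rw [res_some] at hz
        by_cases hx : x ∈ Bt (0 : Tor d M) ρ
        · rw [if_pos hx, stepI_eq_some] at hz
          have hz1 : z ∈ infMv nbT tv ξ B (x, (k : ℕ), e) := hz.1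
          obtain ⟨k, hk⟩ := k
          cases k with
          | zero => exact h2 z hz1.1
          | succ k =>
            change z ∈ ZI.infMv nbT tv ξ B (x, k, e) at hz1
            unfold ZI.infMv at hz1
            split_ifs at hz1 with h5
            · rcases hz1 with ⟨h6, -⟩ | ⟨h6, h7, -⟩
              · exact h2 z h6
              · have h8 := supn_of_tv hM (h2 _ h6) (by
                  have h7' : (tv (z - dv e) : Tor d M) = x := h7
                  rw [h7']; exact hx)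
                have h9 := E3.supn_add (z - dv e) (dv e)
                rw [sub_add_cancel] at h9
                have h10 := supn_dv e
                have h8' : supn (z - dv e) ≤ ρ := h8
                omega
            · exact h2 z hz1
        · rw [if_neg hx] at hz
          exact h2 z hz
    · intro z hz hzρ
      rcases a with _ | ⟨x, k, e⟩
      · exact h3 z hz hzρ
      · rw [res_some] at hz
        by_cases hx : x ∈ Bt (0 : Tor d M) ρ
        · rw [if_pos hx, stepI_eq_some] at hz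
          rw [stepI_eq_some]
          refine ⟨?_, hzρ⟩
          have hz1 : z ∈ infMv nbT tv ξ B (x, (k : ℕ), e) := hz.1
          show z ∈ infMv nbT tv η A (x, (k : ℕ), e)
          have hxξ := h1 x hx
          obtain ⟨k, hk⟩ := k
          cases k with
          | zero => exact ⟨h3 z hz1.1 hzρ, fun h => (hz1.2 h).trans hxξ⟩
          | succ k =>
            change z ∈ ZI.infMv nbT tv ξ B (x, k, e) at hz1
            show z ∈ ZI.infMv nbT tv η A (x, k, e)
            unfold ZI.infMv at hz1 ⊢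
            by_cases h5 : k < ξ x
            · rw [if_pos h5] at hz1
              rw [if_pos (lt_of_lt_of_le h5 hxξ)]
              rcases hz1 with ⟨h6, h7⟩ | ⟨h6, h7, h8⟩
              · exact Or.inl ⟨h3 z h6 hzρ, fun h => (h7 h).trans hxξ⟩
              · refine Or.inr ⟨h3 _ h6 ?_, h7, h8⟩
                refine supn_of_tv hM (h2 _ h6) ?_
                have h7' : (tv (z - dv e) : Tor d M) = x := h7
                rw [h7']; exact hx
            · rw [if_neg h5] at hz1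
              by_cases h6 : k < η x
              · rw [if_pos h6]
                refine Or.inl ⟨h3 z hz1 hzρ, fun h => ?_⟩
                have h7 : (tv z : Tor d M) = x := h
                have h8 := h4 z hz1
                rw [h7] at h8
                show 2 ≤ η x
                omega
              · rw [if_neg h6]
                exact h3 z hz1 hzρ
        · rw [if_neg hx] at hz
          refine stepI_stay (Λ := Bt 0 ρ) ?_ (h3 z hz hzρ) hzρ (tv_mem_Bt hzρ)
          rw [res_some, if_neg hx]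

theorem lin_rin {ρ : ℕ} (hM : 2 * ρ + 2 ≤ M) (η : Tor d M → ℕ) (w : List (Let d M (K + 1)))
    (x : Pos d) (hx : supn x ≤ ρ) (h0 : 0 < η (tv x)) (z : Pos d) (hz : z ∈ lin (Bt 0 ρ) η x w)
    (hzρ : supn z ≤ ρ) : z ∈ rin ρ η x w := by
  refine lin_sub_rin hM w _ η {x} {x} ?_ ?_ (fun z hz _ => hz) ?_ z hz hzρ
  · intro v hv
    unfold occ1
    by_cases h : v = tv x
    · subst h
      rw [Function.update_self]
      unfold cut
      rw [if_pos hv]
      exact max_le h0 le_rfl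
    · rw [Function.update_of_ne h]
      unfold cut
      rw [if_pos hv]
  · rintro _ rfl
    omega
  · rintro _ rfl
    unfold occ1
    rw [Function.update_self]
    exact lt_of_lt_of_le Nat.zero_lt_one (le_max_left _ _)

/-! ### path events -/

theorem step_pth (hM : 3 ≤ M) {G A : Set (Pos d)} (hA : A ⊆ G) {η : Tor d M → ℕ}
    {a a' : Let d M (K + 1)} (h1 : stepA η a = stepA η a') (h2 : mark a = mark a') :
    stepI G (η, A) a = stepI G (η, A) a' := by
  rcases Nat.eq_zero_or_pos d with hd | hd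
  · subst hd
    rcases a with _ | ⟨x, k, e⟩
    · rcases a' with _ | ⟨x', k', e'⟩
      · rfl
      · exact e'.1.elim0
    · exact e.1.elim0
  · rcases Nat.eq_zero_or_pos K with hK | hK
    · subst hK
      rcases a with _ | ⟨x, ⟨k, hk⟩, e⟩
      · rcases a' with _ | ⟨x', ⟨k', hk'⟩, e'⟩
        · rfl
        · obtain rfl : k' = 0 := by omega
          exact absurd h2 (Option.some_ne_none _).symm
      · obtain rfl : k = 0 := by omega
        rcases a' with _ | ⟨x', ⟨k', hk'⟩, e'⟩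
        · exact absurd h2 (Option.some_ne_none _)
        · obtain rfl : k' = 0 := by omega
          have h3 : x = x' := Option.some.inj h2
          subst h3
          rfl
    · rw [← E1.stepI_can hd hM hK G A η a hA, ← E1.stepI_can hd hM hK G A η a' hA, h1, h2]

theorem fold_pth (hM : 3 ≤ M) (G : Set (Pos d)) : ∀ (w w' : List (Let d M (K + 1)))
    (η : Tor d M → ℕ) (A : Set (Pos d)), A ⊆ G → path η w = path η w' →
    w.map mark = w'.map mark → w.foldl (stepI G) (η, A) = w'.foldl (stepI G) (η, A) := by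
  intro w
  induction w with
  | nil =>
    intro w' η A _ hp _
    have hl := congrArg List.length hp
    rw [SF1.path_length, SF1.path_length, List.length_nil] at hl
    have : w' = [] := List.length_eq_zero_iff.mp (by omega)
    rw [this]
  | cons a w ih =>
    intro w' η A hA hp hm
    have hl := congrArg List.length hp
    rw [SF1.path_length, SF1.path_length, List.length_cons] at hl
    rcases w' with _ | ⟨a', w'⟩
    · simp at hl
    rw [List.map_cons, List.map_cons] at hm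
    have hm1 : mark a = mark a' := (List.cons.inj hm).1
    have hm2 : w.map mark = w'.map mark := (List.cons.inj hm).2
    have hp2 : path (stepA η a) w = path (stepA η a') w' := (List.cons.inj hp).2
    have hs : stepA η a = stepA η a' := by
      obtain ⟨L, hL⟩ := E1.path_head (stepA η a) w
      obtain ⟨L', hL'⟩ := E1.path_head (stepA η a') w'
      rw [hL, hL'] at hp2
      exact (List.cons.inj hp2).1
    rw [List.foldl_cons, List.foldl_cons, step_pth hM hA hs hm1]
    have e1 : stepI G (η, A) a' = (stepA η a', (stepI G (η, A) a').2) :=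
      Prod.ext (E1.stepI_fst G (η, A) a') rfl
    rw [e1]
    refine ih w' _ _ (E1.foldl_stepI_sub G [a'] (η, A) hA) ?_ hm2
    rw [← hp2, hs]

theorem path_take (η : Tor d M → ℕ) (w : List (Let d M K)) (i : ℕ) :
    path η (w.take i) = (path η w).take (i + 1) := by
  induction w generalizing η i with
  | nil =>
    rw [List.take_nil]
    show [η] = List.take (i + 1) [η]
    simp
  | cons a w ih =>
    cases i with
    | zero => rfl
    | succ i =>
      show η :: path (stepA η a) (w.take i) = η :: (path (stepA η a) w).take (i + 1)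
      rw [ih]

theorem rin_pth (hM : 3 ≤ M) {ρ : ℕ} {η : Tor d M → ℕ} {w w' : List (Let d M (K + 1))}
    (hp : path η w = path η w') (hm : w.map mark = w'.map mark) {x : Pos d} (hx : supn x ≤ ρ)
    (i : ℕ) : rin ρ η x (w.take i) = rin ρ η x (w'.take i) := by
  unfold rin
  rw [fold_pth hM {z | supn z ≤ ρ} (w.take i) (w'.take i) η {x}]
  · rintro _ rfl
    exact hx
  · rw [path_take, path_take, hp]
  · rw [List.map_take, List.map_take, hm]

theorem step0_pth (hM : 3 ≤ M) {G A : Set (Pos d)} (hA : A ⊆ G) {η : Tor d M → ℕ}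
    {a a' : Let d M (K + 1)} (h1 : stepA η a = stepA η a') :
    stepI0 G (η, A) a = stepI0 G (η, A) a' := by
  rw [stepI0_eq, stepI0_eq]
  rw [Rows.stepA_prj, Rows.stepA_prj] at h1
  rcases Nat.eq_zero_or_pos K with hK | hK
  · subst hK
    have h : ∀ b : Let d M 0, b = none := by
      intro b
      rcases b with _ | ⟨x, k, e⟩
      · rfl
      · exact k.elim0
    rw [h (prj a), h (prj a')]
  · rw [← ZI.E1.stepRA_can hM hK G A η (prj a) hA, ← ZI.E1.stepRA_can hM hK G A η (prj a') hA, h1]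

theorem fold0_pth (hM : 3 ≤ M) (G : Set (Pos d)) : ∀ (w w' : List (Let d M (K + 1)))
    (η : Tor d M → ℕ) (A : Set (Pos d)), A ⊆ G → path η w = path η w' →
    w.foldl (stepI0 G) (η, A) = w'.foldl (stepI0 G) (η, A) := by
  intro w
  induction w with
  | nil =>
    intro w' η A _ hp
    have hl := congrArg List.length hp
    rw [SF1.path_length, SF1.path_length, List.length_nil] at hl
    have : w' = [] := List.length_eq_zero_iff.mp (by omega)
    rw [this]
  | cons a w ih =>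
    intro w' η A hA hp
    have hl := congrArg List.length hp
    rw [SF1.path_length, SF1.path_length, List.length_cons] at hl
    rcases w' with _ | ⟨a', w'⟩
    · simp at hl
    have hp2 : path (stepA η a) w = path (stepA η a') w' := (List.cons.inj hp).2
    have hs : stepA η a = stepA η a' := by
      obtain ⟨L, hL⟩ := E1.path_head (stepA η a) w
      obtain ⟨L', hL'⟩ := E1.path_head (stepA η a') w'
      rw [hL, hL'] at hp2
      exact (List.cons.inj hp2).1
    rw [List.foldl_cons, List.foldl_cons, step0_pth hM hA hs]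
    have e1 : stepI0 G (η, A) a' = (stepA η a', (stepI0 G (η, A) a').2) :=
      Prod.ext (stepI0_fst G (η, A) a') rfl
    rw [e1]
    refine ih w' _ _ (stepI0_sub G (η, A) a' hA) ?_
    rw [← hp2, hs]

end ZP.BE

namespace ZP.Rows

open ZP

variable {d : ℕ}

section BE

variable {M K : ℕ} (N1 : ℕ) (A : Prm)

theorem opn_inc (hL : 1 ≤ A.L) (hM : 2 * A.L ^ 2 + 4 ≤ M) :
    IncE N1 (Bt (0 : Tor d M) (A.L ^ 2)) 0 A.τ (Opn (K := K) N1 A.L A.τ) := by
  rintro η w η' w' hR ⟨⟨x, hx, hx0⟩, h2, h3⟩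
  refine ⟨⟨x, hx, ?_⟩, ?_, ?_⟩
  · exact lt_of_lt_of_le hx0 (BE.Rel.stt_le hR 0 (Nat.zero_le _) _
      (BE.tv_mem_Bt (BE.cell_supn hL hx)))
  · intro x hx z' hz'
    obtain ⟨y, hy, hy2⟩ := h2 x hx z' hz'
    exact ⟨y, hy, BE.lin_mono hR x le_rfl hy2⟩
  · intro x hx b hb
    obtain ⟨i, hi, hy2⟩ := h3 x hx b hb
    exact ⟨i, hi, BE.lin_mono hR x hi hy2⟩

theorem fast_inc (S U : ℕ) (hM : 6 * S + 10 ≤ M) :
    IncE N1 (Bt (0 : Tor d M) (3 * S + 1)) 0 U (Fast (K := K) N1 S U) := by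
  rintro η w η' w' hR ⟨x, hx, hx0, i, hi, y, hy, hy2⟩
  have h1 := hR.len
  have h2 := hR.len'
  refine ⟨x, hx, ?_, i, hi, y, hy, ?_⟩
  · exact lt_of_lt_of_le hx0 (BE.Rel.stt_le hR 0 (Nat.zero_le _) _
      (BE.tv_mem_Bt (by omega)))
  · refine BE.fold0_mono (Λ := Bt 0 (3 * S + 1)) ?_ i w w' η η' {x} {x} (by omega)
      (by omega) (fun j hj => BE.Rel.stt_le hR j (by omega)) ?_ ?_ subset_rfl ?_ hy2
    · intro z hz
      refine BE.tv_mem_Bt ?_
      have h5 : supn (z - x) ≤ S := hz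
      have h6 := E3.supn_add x (z - x)
      rw [add_sub_cancel] at h6
      omega
    · intro j hj
      exact hR.lets j (by rw [Nat.zero_mul]; exact Nat.zero_le _) (by omega)
    · intro y' hy'
      rw [Set.mem_singleton_iff.mp hy']
      show supn (x - x) ≤ S
      rw [sub_self]
      refine BE.supn_le fun j => ?_
      simp
    · intro y' hy'
      rw [Set.mem_singleton_iff.mp hy']
      exact hx0

theorem popn_loc (hL : 1 ≤ A.L) (hM : 2 * A.L ^ 2 + 4 ≤ M) :
    LocE N1 (Bt (0 : Tor d M) (A.L ^ 2 + 1)) 0 A.τ (POpn (K := K) N1 A.L A.τ) := by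
  rintro η w η' w' hR hR' ⟨⟨x, hx, hx0⟩, h2, h3⟩
  have hsub : Bt (0 : Tor d M) (A.L ^ 2) ⊆ Bt 0 (A.L ^ 2 + 1) := by
    rintro v ⟨y, hy, rfl⟩
    exact ⟨y, by omega, rfl⟩
  have hcfg : ∀ x ∈ cell (d := d) A.L 0, (0 < η (tv x) ↔ 0 < η' (tv x)) := by
    intro x hx
    have h4 := BE.tv_mem_Bt (M := M) (BE.cell_supn hL hx)
    exact ⟨fun h => lt_of_lt_of_le h (BE.Rel.stt_le hR 0 (Nat.zero_le _) _ (hsub h4)),
      fun h => lt_of_lt_of_le h (BE.Rel.stt_le hR' 0 (Nat.zero_le _) _ (hsub h4))⟩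
  refine ⟨⟨x, hx, (hcfg x hx).1 hx0⟩, ?_, ?_⟩
  · intro x hx hx0 z' hz'
    obtain ⟨y, hy, hy2⟩ := h2 x hx ((hcfg x hx).2 hx0) z' hz'
    exact ⟨y, hy, BE.rin_mono hR hsub (BE.cell_supn hL hx) ((hcfg x hx).2 hx0) le_rfl hy2⟩
  · intro x hx hx0 b hb
    obtain ⟨i, hi, hy2⟩ := h3 x hx ((hcfg x hx).2 hx0) b hb
    exact ⟨i, hi, BE.rin_mono hR hsub (BE.cell_supn hL hx) ((hcfg x hx).2 hx0) hi hy2⟩

theorem fopn_loc (hL : 1 ≤ A.L) (hM : 2 * A.L ^ 2 + 4 ≤ M) :
    LocE N1 (Bt (0 : Tor d M) (A.L ^ 2 + 1)) 0 A.τ (FOpn (K := K) N1 A.L A.τ) := by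
  intro η w η' w' hR hR' h x hx hx0 b hb hb0
  have hsub : Bt (0 : Tor d M) (A.L ^ 2) ⊆ Bt 0 (A.L ^ 2 + 1) := by
    rintro v ⟨y, hy, rfl⟩
    exact ⟨y, by omega, rfl⟩
  have hx0' : 0 < η (tv x) := lt_of_lt_of_le hx0
    (BE.Rel.stt_le hR' 0 (Nat.zero_le _) _ (hsub (BE.tv_mem_Bt (BE.cell_supn hL hx))))
  have hb0' : 0 < stt η w (A.τ * N1) (tv b) := lt_of_lt_of_le hb0
    (BE.Rel.stt_le hR' _ le_rfl _ (hsub (BE.tv_mem_Bt (BE.cell_supn hL hb))))
  exact BE.rin_mono hR hsub (BE.cell_supn hL hx) hx0' le_rfl (h x hx hx0' b hb hb0')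

theorem popn_of_opn (hL : 2 ≤ A.L) (hM : 2 * A.L ^ 2 + 4 ≤ M) (η : Tor d M → ℕ)
    (w : List (Let d M (K + 1))) (h : Opn N1 A.L A.τ η w) : POpn N1 A.L A.τ η w := by
  obtain ⟨h1, h2, h3⟩ := h
  have hL1 : 1 ≤ A.L := by omega
  refine ⟨h1, ?_, ?_⟩
  · intro x hx hx0 z' hz'
    obtain ⟨y, hy, hy2⟩ := h2 x hx z' hz'
    exact ⟨y, hy, BE.lin_rin (by omega) η _ x (BE.cell_supn hL1 hx) hx0 y hy2
      (BE.cell_supn' hL hz' hy)⟩
  · intro x hx hx0 b hb
    obtain ⟨i, hi, hy2⟩ := h3 x hx b hb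
    exact ⟨i, hi, BE.lin_rin (by omega) η _ x (BE.cell_supn hL1 hx) hx0 b hy2
      (BE.cell_supn hL1 hb)⟩

theorem popn_pth (hM : 5 ≤ M) : PthE (POpn (d := d) (M := M) (K := K) N1 A.L A.τ) := by
  rintro η w w' hp hm ⟨h1, h2, h3⟩
  refine ⟨h1, ?_, ?_⟩
  · intro x hx hx0 z' hz'
    obtain ⟨y, hy, hy2⟩ := h2 x hx hx0 z' hz'
    refine ⟨y, hy, ?_⟩
    rw [← BE.rin_pth (by omega) hp hm (BE.cell_supn0 hx)]
    exact hy2
  · intro x hx hx0 b hb
    obtain ⟨i, hi, hy2⟩ := h3 x hx hx0 b hb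
    refine ⟨i, hi, ?_⟩
    rw [← BE.rin_pth (by omega) hp hm (BE.cell_supn0 hx)]
    exact hy2

theorem fopn_pth (hM : 5 ≤ M) : PthE (FOpn (d := d) (M := M) (K := K) N1 A.L A.τ) := by
  intro η w w' hp hm h x hx hx0 b hb hb0
  rw [← SF1.stt_of_path hp] at hb0
  rw [← BE.rin_pth (by omega) hp hm (BE.cell_supn0 hx)]
  exact h x hx hx0 b hb hb0

theorem fast_pth (hM : 5 ≤ M) (S U : ℕ) : PthE (Fast (d := d) (M := M) (K := K) N1 S U) := by
  rintro η w w' hp hm ⟨x, hx, hx0, i, hi, y, hy, hy2⟩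
  refine ⟨x, hx, hx0, i, hi, y, hy, ?_⟩
  rw [← BE.fold0_pth (by omega) _ (w.take i) (w'.take i) η {x} ?_ ?_]
  · exact hy2
  · intro y' hy'
    rw [Set.mem_singleton_iff.mp hy']
    show supn (x - x) ≤ S
    rw [sub_self]
    refine BE.supn_le fun j => ?_
    simp
  · rw [BE.path_take, BE.path_take, hp]

end BE

end ZP.Rows
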