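import Pool.Agent.ZP.SF1
import Pool.Agent.ZP.BKaux
import Pool.Agent.ZP.BE

/-! # Row BKa: the bad events are local and monotone -/

set_option autoImplicit false

open scoped ENNReal BigOperators Classical Pointwise

noncomputable section

namespace ZP.Rows

open ZP

variable {d : ℕ}

open BKaux

section BK

variable {M K : ℕ} (N1 : ℕ) (A : Prm)

theorem badM_dec (hL : 1000 * (d + 1) ≤ A.L) (hγ : A.α + 12 ≤ A.γ) (k : ℕ)
    (hM : 12 * A.S k + 4 * A.L ^ 2 + 10 ≤ M) :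
    DecE N1 (Bt (0 : Tor d M) (6 * A.S k + A.L ^ 2 + 1)) 0 (6 * A.T d k) (BadM (K := K) N1 A k) := by
  induction k with
  | zero =>
    have h1 : IncE N1 (Bt (0 : Tor d M) (A.L ^ 2)) 0 A.τ (Opn (K := K) N1 A.L A.τ) :=
      opn_inc N1 A (by omega) (by omega)
    have h2 := DecE.sft N1 (IncE.not N1 h1) (0 : Pos d) (2 * A.τ)
    refine DecE.mono N1 h2 ?_ (Nat.zero_le _) ?_
    · refine Bt_shift (a := 0) 0 ?_ (by omega)
      rw [supn_le_iff]
      intro j
      simp
    · unfold Prm.T Prm.ix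
      omega
  | succ k ih =>
    have hS := S_le_succ A hL hγ k
    have ih' := ih (by omega)
    intro η w η' w' hR hE
    obtain ⟨f, h1, h2, h3⟩ := hE
    refine ⟨f, h1, h2, fun i => ?_⟩
    have h4 := DecE.sft N1 ih' (sm (A.S k) (f i).1) ((A.nt d k - 2 + (f i).2) * A.T d k)
    have h5 := DecE.mono N1 h4
      (Bt_shift (ρ' := 6 * A.S (k + 1) + A.L ^ 2 + 1) _ (supn_sm_le (A.S k) (f i).1 (h1 i).1)
        (space_fit A hL hγ k)) (Nat.zero_le _) (time_ub A hL hγ k _ (h1 i).2)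
    exact h5 η w η' w' hR (h3 i)

theorem badP_inc (hL : 1000 * (d + 1) ≤ A.L) (hγ : A.α + 12 ≤ A.γ) (k : ℕ)
    (hM : 12 * A.S k + 4 * A.L ^ 2 + 10 ≤ M) :
    IncE N1 (Bt (0 : Tor d M) (6 * A.S k + A.L ^ 2 + 1)) 0 (6 * A.T d k) (BadP (K := K) N1 A k) := by
  induction k with
  | zero =>
    intro η w η' w' hR hE
    exact hE
  | succ k ih =>
    have hS := S_le_succ A hL hγ k
    have ih' := ih (by omega)
    intro η w η' w' hR hE
    rcases hE with hE | hE
    · left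
      have hf := fast_inc (M := M) (K := K) (d := d) N1 (A.S (k + 1)) (A.U d (k + 1)) (by nlinarith)
      have h2 := IncE.sft N1 hf (0 : Pos d) (2 * A.T d (k + 1))
      have hU := U_le_T A hL hγ k
      have h3 := IncE.mono N1 h2 (Λ' := Bt (0 : Tor d M) (6 * A.S (k + 1) + A.L ^ 2 + 1))
        (v1 := 0) (v2 := 6 * A.T d (k + 1))
        (Bt_shift (a := 0) 0 (by rw [supn_le_iff]; intro j; simp) (by omega))
        (Nat.zero_le _) (by omega)
      exact h3 η w η' w' hR hE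
    · right
      obtain ⟨f, h1, h2, h3⟩ := hE
      refine ⟨f, h1, h2, fun i => ?_⟩
      have h4 := IncE.sft N1 ih' (sm (A.S k) (f i).1) ((A.nt d k - 2 + (f i).2) * A.T d k)
      have h5 := IncE.mono N1 h4
        (Bt_shift (ρ' := 6 * A.S (k + 1) + A.L ^ 2 + 1) _ (supn_sm_le (A.S k) (f i).1 (h1 i).1)
          (space_fit A hL hγ k)) (Nat.zero_le _) (time_ub A hL hγ k _ (h1 i).2)
      exact h5 η w η' w' hR (h3 i)

theorem pbadM_loc (hL : 1000 * (d + 1) ≤ A.L) (hγ : A.α + 12 ≤ A.γ) (k : ℕ)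
    (hM : 12 * A.S k + 4 * A.L ^ 2 + 10 ≤ M) :
    LocE N1 (Bt (0 : Tor d M) (6 * A.S k + A.L ^ 2 + 1)) 0 (6 * A.T d k)
      (PBadM (K := K) N1 A k) := by
  induction k with
  | zero =>
    have h1 : LocE N1 (Bt (0 : Tor d M) (A.L ^ 2 + 1)) 0 A.τ (POpn (K := K) N1 A.L A.τ) :=
      popn_loc N1 A (by omega) (by omega)
    have h2 := LocE.sft N1 (LocE.not N1 h1) (0 : Pos d) (2 * A.τ)
    refine LocE.mono N1 h2 ?_ (Nat.zero_le _) ?_
    · refine Bt_shift (a := 0) 0 ?_ (by omega)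
      rw [supn_le_iff]
      intro j
      simp
    · unfold Prm.T Prm.ix
      omega
  | succ k ih =>
    have hS := S_le_succ A hL hγ k
    have ih' := ih (by omega)
    intro η w η' w' hR hR' hE
    obtain ⟨f, h1, h2, h3⟩ := hE
    refine ⟨f, h1, h2, fun i => ?_⟩
    have h4 := LocE.sft N1 ih' (sm (A.S k) (f i).1) ((A.nt d k - 2 + (f i).2) * A.T d k)
    have h5 := LocE.mono N1 h4
      (Bt_shift (ρ' := 6 * A.S (k + 1) + A.L ^ 2 + 1) _ (supn_sm_le (A.S k) (f i).1 (h1 i).1)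
        (space_fit A hL hγ k)) (Nat.zero_le _) (time_ub A hL hγ k _ (h1 i).2)
    exact h5 η w η' w' hR hR' (h3 i)

theorem PthE.not {E : Ev d M K} (h : PthE E) : PthE (fun η w => ¬ E η w) := by
  intro η w w' h1 h2 h3 h4
  exact h3 (h η w' w h1.symm h2.symm h4)

theorem PthE.rec {X : Ev d M K} (h : PthE X) (k : ℕ) : PthE (RecE N1 A k X) := by
  intro η w w' e1 e2 hE
  obtain ⟨f, h1, h2, h3⟩ := hE
  refine ⟨f, h1, h2, fun i => ?_⟩
  exact PthE.sft N1 h _ _ η w w' e1 e2 (h3 i)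

theorem pbadM_pth (hM : 5 ≤ M) (k : ℕ) : PthE (PBadM (d := d) (M := M) (K := K) N1 A k) := by
  induction k with
  | zero => exact PthE.sft N1 (PthE.not (popn_pth N1 A hM)) _ _
  | succ k ih => exact PthE.rec N1 A ih k

theorem badP_pth (hM : 5 ≤ M) (k : ℕ) : PthE (BadP (d := d) (M := M) (K := K) N1 A k) := by
  induction k with
  | zero =>
    intro η w w' _ _ h
    exact h
  | succ k ih =>
    intro η w w' e1 e2 hE
    rcases hE with hE | hE
    · left
      exact PthE.sft N1 (fast_pth N1 hM _ _) _ _ η w w' e1 e2 hE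
    · right
      exact PthE.rec N1 A ih k η w w' e1 e2 hE

theorem pbad_pth (hM : 5 ≤ M) (b : Bool) (k : ℕ) :
    PthE (PBad (d := d) (M := M) (K := K) N1 A b k) := by
  unfold PBad
  cases b
  · simpa using pbadM_pth N1 A hM k
  · simpa using badP_pth N1 A hM k

theorem badM_of_pbadM (hL : 2 ≤ A.L) (hM : 2 * A.L ^ 2 + 4 ≤ M) (k : ℕ) (η : Tor d M → ℕ)
    (w : List (Let d M (K + 1))) (h : PBadM N1 A k η w) : BadM N1 A k η w := by
  induction k generalizing η w with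
  | zero =>
    intro h'
    exact h (popn_of_opn N1 A hL hM _ _ h')
  | succ k ih => exact RecE_mono A ih h

end BK

end ZP.Rows
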