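import Pool.Agent.ZP.RC
import Pool.Agent.ZP.FA
import Pool.Agent.ZP.MF
import Pool.Agent.ZP.BE
import Pool.Agent.ZP.BKa
import Pool.Agent.ZI.C8

/-! # Row BP: probabilities of the bad blocks (text M4)

Induction on the level along the fugacities `φ (7/8 - 3/8 2^{-k})` (increasing) for the decreasing bad events and
`φ (9/8 + 1/4 2^{-k})` (decreasing) for the increasing ones. -/

set_option autoImplicit false

open scoped ENNReal BigOperators Classical Pointwise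

noncomputable section

namespace ZP

namespace BP

variable {d : ℕ}

/-! ### monotonicity of the configuration chain -/

theorem stepA_mono {M K : ℕ} {η η' : Tor d M → ℕ} (h : η ≤ η') (a : Let d M (K + 1)) :
    stepA η a ≤ stepA η' a := by
  rcases a with _ | ⟨x, ⟨k, hk⟩, e⟩
  · exact h
  · cases k with
    | zero => exact h
    | succ k => exact ZI.C8.mv_mono h _

theorem foldl_mono {M K : ℕ} (w : List (Let d M (K + 1))) :
    ∀ {η η' : Tor d M → ℕ}, η ≤ η' → w.foldl stepA η ≤ w.foldl stepA η' := by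
  induction w with
  | nil => intro η η' h; exact h
  | cons a w ih => intro η η' h; exact ih (stepA_mono h a)

theorem stt_mono {M K : ℕ} (w : List (Let d M (K + 1))) {η η' : Tor d M → ℕ} (h : η ≤ η') (i : ℕ) :
    stt η w i ≤ stt η' w i := foldl_mono _ h

/-! ### numbers -/

theorem S_zero (A : Prm) : A.S 0 = A.L := by simp [Prm.S]

theorem S_succ (A : Prm) (k : ℕ) : A.S (k + 1) = A.S k ^ A.γ := by
  unfold Prm.S
  rw [← pow_mul, pow_succ]

theorem L_le_S (A : Prm) (hγ : 1 ≤ A.γ) (k : ℕ) : A.L ≤ A.S k := by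
  unfold Prm.S
  exact Nat.le_self_pow (pow_pos hγ k).ne' _

theorem S_le_succ (A : Prm) (hγ : 1 ≤ A.γ) (k : ℕ) : A.S k ≤ A.S (k + 1) := by
  rw [S_succ]
  exact Nat.le_self_pow (by omega) _

/-- `2 ^ k * L ≤ S k` -/
theorem two_pow_le (A : Prm) (hL : 2 ≤ A.L) (hγ : 2 ≤ A.γ) (k : ℕ) : 2 ^ k * A.L ≤ A.S k := by
  induction k with
  | zero => simp [Prm.S]
  | succ k ih =>
    have h1 : A.L ≤ A.S k := L_le_S A (by omega) k
    have h2 : A.S k ^ 2 ≤ A.S (k + 1) := by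
      rw [S_succ]
      exact Nat.pow_le_pow_right (by omega) hγ
    calc 2 ^ (k + 1) * A.L = 2 * (2 ^ k * A.L) := by ring
      _ ≤ A.S k * A.S k := Nat.mul_le_mul (by omega) ih
      _ = A.S k ^ 2 := by ring
      _ ≤ A.S (k + 1) := h2

theorem T_zero (A : Prm) : A.T d 0 = A.τ := by simp [Prm.T, Prm.ix]

theorem T_succ (A : Prm) (k : ℕ) : A.T d (k + 1) = A.nt d k * A.T d k := by
  simp only [Prm.T, Prm.ix]
  ring

theorem T_le (A : Prm) (hL : 8 * d + 8 ≤ A.L) (hγ : 2 ≤ A.γ) (hτ : A.τ ≤ A.L ^ 2) (k : ℕ) :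
    A.T d k ≤ A.S k ^ 3 := by
  induction k with
  | zero =>
    rw [T_zero, S_zero]
    exact hτ.trans (Nat.pow_le_pow_right (by omega) (by norm_num))
  | succ k ih =>
    have h1 : A.L ≤ A.S k := L_le_S A (by omega) k
    rw [T_succ, S_succ]
    calc A.nt d k * A.T d k = (8 * d + 8) * A.S k ^ (A.γ - 1) * A.T d k := rfl
      _ ≤ A.S k * A.S k ^ (A.γ - 1) * A.S k ^ 3 :=
          Nat.mul_le_mul (Nat.mul_le_mul_right _ (by omega)) ih
      _ = A.S k ^ (A.γ + 3) := by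
          rw [← pow_succ', ← pow_add]
          congr 1
          omega
      _ ≤ A.S k ^ (A.γ * 3) := Nat.pow_le_pow_right (by omega) (by omega)
      _ = (A.S k ^ A.γ) ^ 3 := by rw [pow_mul]

theorem U_le (A : Prm) (hL : 8 * d + 8 ≤ A.L) (hγ : A.α + 8 ≤ A.γ) (hτ : A.τ ≤ A.L ^ 2) (C k : ℕ)
    (hC : C ≤ A.L) : C * A.U d (k + 1) ≤ A.S (k + 1) := by
  have h1 : A.L ≤ A.S k := L_le_S A (by omega) k
  have h2 := T_le (d := d) A hL (by omega) hτ k
  rw [S_succ]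
  calc C * A.U d (k + 1) = C * (A.S k ^ (A.α + 4) * A.T d k) := rfl
    _ ≤ A.S k * (A.S k ^ (A.α + 4) * A.S k ^ 3) :=
        Nat.mul_le_mul (by omega) (Nat.mul_le_mul_left _ h2)
    _ = A.S k ^ (A.α + 8) := by ring
    _ ≤ A.S k ^ A.γ := Nat.pow_le_pow_right (by omega) hγ

theorem U_le_T (A : Prm) (hL : 1 ≤ A.L) (hγ : A.α + 5 ≤ A.γ) (k : ℕ) :
    A.U d (k + 1) ≤ A.T d (k + 1) := by
  have h1 : A.L ≤ A.S k := L_le_S A (by omega) k
  rw [T_succ]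
  calc A.U d (k + 1) = A.S k ^ (A.α + 4) * A.T d k := rfl
    _ ≤ A.nt d k * A.T d k := by
        refine Nat.mul_le_mul_right _ ?_
        calc A.S k ^ (A.α + 4) ≤ A.S k ^ (A.γ - 1) :=
              Nat.pow_le_pow_right (by omega) (by omega)
          _ = 1 * A.S k ^ (A.γ - 1) := (one_mul _).symm
          _ ≤ (8 * d + 8) * A.S k ^ (A.γ - 1) := Nat.mul_le_mul_right _ (by omega)

/-- the two series of fugacities -/
def fm (m : Model) (k : ℕ) : ℝ := m.φ * (7 / 8 - 3 / 8 * (1 / 2) ^ k)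

def fp (m : Model) (k : ℕ) : ℝ := m.φ * (9 / 8 + 1 / 4 * (1 / 2) ^ k)

theorem half_pow (k : ℕ) : 0 < ((1 : ℝ) / 2) ^ k ∧ ((1 : ℝ) / 2) ^ k ≤ 1 :=
  ⟨by positivity, pow_le_one₀ (by norm_num) (by norm_num)⟩

theorem fm_zero (m : Model) : fm m 0 = m.φ / 2 := by
  unfold fm
  ring

theorem fm_bd (m : Model) (k : ℕ) : m.φ / 2 ≤ fm m k ∧ fm m k < 7 / 8 * m.φ := by
  have h1 := m.φ_pos
  obtain ⟨h2, h3⟩ := half_pow k
  unfold fm
  constructor
  · nlinarith [mul_le_mul_of_nonneg_left h3 h1.le]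
  · nlinarith [mul_pos h1 h2]

theorem fp_bd (m : Model) (k : ℕ) : 9 / 8 * m.φ < fp m k ∧ fp m k ≤ 11 / 8 * m.φ := by
  have h1 := m.φ_pos
  obtain ⟨h2, h3⟩ := half_pow k
  unfold fp
  constructor
  · nlinarith [mul_pos h1 h2]
  · nlinarith [mul_le_mul_of_nonneg_left h3 h1.le]

theorem fm_gap (m : Model) (k : ℕ) : fm m (k + 1) - fm m k = m.φ * 3 / 16 * (1 / 2) ^ k := by
  unfold fm
  rw [pow_succ]
  ring

theorem fp_gap (m : Model) (k : ℕ) : fp m k - fp m (k + 1) = m.φ / 8 * (1 / 2) ^ k := by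
  unfold fp
  rw [pow_succ]
  ring

/-- the gap condition -/
theorem gap (A : Prm) (hL : 2 ≤ A.L) (hγ : 2 ≤ A.γ) (k : ℕ) (c x : ℝ) (hc : 0 < c)
    (hcL : 1 ≤ c * A.L) (hx : c * (1 / 2) ^ k ≤ x) : 1 ≤ x ^ 8 * (A.S k : ℝ) ^ 8 := by
  have h1 : ((2 : ℝ) ^ k * A.L) ≤ A.S k := by exact_mod_cast two_pow_le A hL hγ k
  have h2 : 0 < c * (1 / 2 : ℝ) ^ k := mul_pos hc (half_pow k).1
  rw [← mul_pow]
  refine one_le_pow₀ ?_
  calc (1 : ℝ) ≤ c * A.L := hcL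
    _ = c * (1 / 2) ^ k * (2 ^ k * A.L) := by
        have : ((1 : ℝ) / 2) ^ k * 2 ^ k = 1 := by rw [← mul_pow]; norm_num
        linear_combination (-(c * A.L)) * this
    _ ≤ x * A.S k := mul_le_mul hx h1 (by positivity) (h2.le.trans hx)

/-- powers against the exponential -/
theorem exists_pow_exp (N : ℕ) : ∃ x0 : ℕ, 1 ≤ x0 ∧ ∀ x : ℕ, x0 ≤ x →
    (x : ℝ) ^ N * Real.exp (-(x : ℝ)) ≤ 1 := by
  have h := (Real.tendsto_pow_mul_exp_neg_atTop_nhds_zero N).comp tendsto_natCast_atTop_atTop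
  have h1 := h.eventually (gt_mem_nhds (show (0 : ℝ) < 1 by norm_num))
  obtain ⟨x0, hx0⟩ := Filter.eventually_atTop.mp h1
  exact ⟨x0 + 1, by omega, fun x hx => (hx0 x (by omega)).le⟩

/-! ### the level `0` -/

section zero

variable {m : Model} {δ : ℝ} (q : Par d m δ) (A : Prm)

theorem EvE_null {α : Type} [Fintype α] (w : α → ℝ≥0∞) : ∀ (N : ℕ) (F : List α → ℝ≥0∞),
    (∀ l, F l = 0) → EvE w N F = 0
  | 0, F, h => h []
  | N + 1, F, h => by
    show ∑ a, w a * EvE w N (fun l => F (a :: l)) = 0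
    refine Finset.sum_eq_zero fun a _ => ?_
    rw [EvE_null w N _ (fun l => h (a :: l)), mul_zero]

theorem PP_false (N : ℕ) : q.PP N (fun _ _ => False) = 0 := by
  unfold Par.PP Par.EE
  refine ENNReal.tsum_eq_zero.mpr fun η => mul_eq_zero_of_right _ ?_
  exact EvE_null q.w N _ (fun l => if_neg not_false)

theorem opn_mono (hL : 1 ≤ A.L) (hM : 2 * A.L ^ 2 + 4 ≤ q.M) (w : List (Let d q.M (q.K + 1)))
    (hw : A.τ * q.N1 ≤ w.length) (η η' : Tor d q.M → ℕ) (h : η ≤ η')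
    (ho : Opn q.N1 A.L A.τ η w) : Opn q.N1 A.L A.τ η' w :=
  Rows.opn_inc (K := q.K) q.N1 A hL hM η w η' w
    ⟨hw, hw, fun i _ _ v _ => stt_mono w h i v, fun _ _ _ => rfl⟩ ho

theorem opn_fug (hL : 1 ≤ A.L) (hM : 2 * A.L ^ 2 + 4 ≤ q.M) (φ1 φ2 : ℝ) (h1 : 0 < φ1) (h2 : 0 < φ2)
    (hK1 : 2 * φ1 ≤ m.g q.K) (hK2 : 2 * φ2 ≤ m.g q.K) (h12 : φ1 ≤ φ2) :
    (q.wf φ2 h2 hK2).PP (A.τ * q.N1) (fun η w => ¬ Opn q.N1 A.L A.τ η w) ≤
      (q.wf φ1 h1 hK1).PP (A.τ * q.N1) (fun η w => ¬ Opn q.N1 A.L A.τ η w) := by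
  have h3 := Rows.mono_fug_dec m d δ q φ1 φ2 h1 h2 hK1 hK2 h12 (A.τ * q.N1)
    (fun η w => w.length = A.τ * q.N1 ∧ ¬ Opn q.N1 A.L A.τ η w)
    (fun w η η' hη hE => ⟨hE.1, fun ho => hE.2 (opn_mono q A hL hM w hE.1.ge η η' hη ho)⟩)
  refine (Rows.PP_mono (q.wf φ2 h2 hK2) (A.τ * q.N1) (fun η w hw hE => ?_)).trans (h3.trans ?_)
  · exact ⟨hw, hE⟩
  · exact Rows.PP_mono (q.wf φ1 h1 hK1) (A.τ * q.N1) (fun η w _ hE => hE.2)

theorem badM_zero (hd : 0 < d) (hL : 1 ≤ A.L) (hM : 2 * A.L ^ 2 + 4 ≤ q.M) :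
    q.PP (6 * A.T d 0 * q.N1) (BadM q.N1 A 0) =
      q.PP (A.τ * q.N1) (fun η w => ¬ Opn q.N1 A.L A.τ η w) := by
  have h1 : 6 * A.T d 0 * q.N1 = 2 * A.τ * q.N1 + 4 * A.τ * q.N1 := by
    rw [T_zero]
    ring
  have h2 : LocE q.N1 (Bt (0 : Tor d q.M) (A.L ^ 2)) 0 A.τ
      (fun η w => ¬ Opn q.N1 A.L A.τ η w) :=
    Rows.LocE.not q.N1 (Rows.IncE.loc q.N1 (Rows.opn_inc (K := q.K) q.N1 A hL hM))
  rw [h1]
  show q.PP (2 * A.τ * q.N1 + 4 * A.τ * q.N1)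
    (sft q.N1 0 (2 * A.τ) (fun η w => ¬ Opn q.N1 A.L A.τ η w)) = _
  rw [Rows.PP_sft q hd]
  exact Rows.PP_loc q hd h2 _ (Nat.mul_le_mul_right _ (by omega))

theorem fast_sft (hd : 0 < d) (hL : 1 ≤ A.L) (hγ : A.α + 5 ≤ A.γ) (k : ℕ)
    (hM : 6 * A.S (k + 1) + 10 ≤ q.M) :
    q.PP (6 * A.T d (k + 1) * q.N1)
      (sft q.N1 0 (2 * A.T d (k + 1)) (Fast q.N1 (A.S (k + 1)) (A.U d (k + 1)))) =
      q.PP (A.U d (k + 1) * q.N1) (Fast q.N1 (A.S (k + 1)) (A.U d (k + 1))) := by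
  have h1 : 6 * A.T d (k + 1) * q.N1 =
      2 * A.T d (k + 1) * q.N1 + 4 * A.T d (k + 1) * q.N1 := by ring
  have h2 : LocE q.N1 (Bt (0 : Tor d q.M) (3 * A.S (k + 1) + 1)) 0 (A.U d (k + 1))
      (Fast (K := q.K) q.N1 (A.S (k + 1)) (A.U d (k + 1))) :=
    Rows.IncE.loc q.N1 (Rows.fast_inc (K := q.K) q.N1 _ _ hM)
  have h3 := U_le_T (d := d) A hL hγ k
  rw [h1, Rows.PP_sft q hd]
  exact Rows.PP_loc q hd h2 _ (Nat.mul_le_mul_right _ (by omega))

end zero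

/-! ### the induction -/

/-- the bounds of the decreasing events -/
def pm (A : Prm) (p0 : ℝ) : ℕ → ℝ
  | 0 => p0
  | k + 1 => Real.exp (-(2 * A.S k : ℝ))

/-- the bounds of the increasing events -/
def pp (A : Prm) : ℕ → ℝ
  | 0 => 0
  | k + 1 => Real.exp (-(A.S k : ℝ))

/-- the sum of the two parts of the increasing event -/
theorem sum_exp (s S C : ℝ) (hs : 1 ≤ s) (hC : 0 < C) (h : C * (2 * s) ≤ S) :
    Real.exp (-S / C) + Real.exp (-(2 * s)) ≤ Real.exp (-s) := by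
  have h1 : -S / C ≤ -(2 * s) := by
    rw [div_le_iff₀ hC]
    linarith
  have h2 : Real.exp (-S / C) ≤ Real.exp (-(2 * s)) := Real.exp_le_exp.mpr h1
  have h3 : Real.exp (-(2 * s)) = Real.exp (-s) * Real.exp (-s) := by
    rw [← Real.exp_add]
    congr 1
    ring
  have h4 : Real.exp (-s) ≤ 1 / 2 := by
    have h5 := Real.add_one_le_exp s
    rw [Real.exp_neg, one_div]
    exact inv_anti₀ (by norm_num) (by linarith)
  have h6 := Real.exp_pos (-s)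
  nlinarith

/-! ### the statements with explicit constants -/

/-- the recursion step with the threshold `L1` -/
def RecProp (m : Model) (d α γ L1 : ℕ) : Prop :=
  ∀ A : Prm, A.α = α → A.γ = γ → L1 ≤ A.L → A.L ≤ A.τ → A.τ ≤ A.L ^ 2 → ∀ (δ : ℝ) (q : Par d m δ)
    (n : ℕ), q.Tiny n → 4 * m.φ ≤ m.g q.K → ∀ k : ℕ, A.S (k + 1) ≤ n →
    100 * A.S (k + 1) + 10 * A.L ^ 2 ≤ q.M →
    ∀ (φa φb : ℝ) (ha : 0 < φa) (hb : 0 < φb) (hKa : 2 * φa ≤ m.g q.K) (hKb : 2 * φb ≤ m.g q.K),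
    m.φ / 2 ≤ φa → φa ≤ 3 / 2 * m.φ → m.φ / 2 ≤ φb → φb ≤ 3 / 2 * m.φ →
    1 ≤ |φb - φa| ^ 8 * (A.S k : ℝ) ^ 8 →
    ∀ (X : Ev d q.M q.K) (p : ℝ), 0 ≤ p → (A.S k : ℝ) ^ (Rows.Cst d A) * p ≤ 1 →
    (q.wf φa ha hKa).PP (6 * A.T d k * q.N1) X ≤ ENNReal.ofReal p →
    ((φa < φb ∧ DecE q.N1 (Bt (0 : Tor d q.M) (6 * A.S k + A.L ^ 2 + 1)) 0 (6 * A.T d k) X) ∨
      (φb < φa ∧ IncE q.N1 (Bt (0 : Tor d q.M) (6 * A.S k + A.L ^ 2 + 1)) 0 (6 * A.T d k) X)) →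
    (q.wf φb hb hKb).PP (6 * A.T d (k + 1) * q.N1) (RecE q.N1 A k X) ≤
      ENNReal.ofReal (Real.exp (-(2 * A.S k : ℝ)))

/-- the bound for the fast event with the constant `C` -/
def FastProp (m : Model) (d : ℕ) (φhi : ℝ) (C : ℕ) : Prop :=
  ∀ (φ : ℝ) (h : 0 < φ), φ ≤ φhi → ∀ (δ : ℝ) (q : Par d (wf m φ h) δ) (S U : ℕ), C * U ≤ S → C ≤ S →
    20 * S + 10 ≤ q.M → q.PP (U * q.N1) (Fast q.N1 S U) ≤ ENNReal.ofReal (Real.exp (-(S : ℝ) / C))

/-- the bounds for the bad blocks with the threshold `L0` -/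
def BadProp (m : Model) (d α γ L0 : ℕ) : Prop :=
  ∀ A : Prm, A.α = α → A.γ = γ → L0 ≤ A.L → A.L ≤ A.τ → A.τ ≤ A.L ^ 2 → ∀ (δ : ℝ) (q : Par d m δ)
    (n : ℕ), q.Tiny n → 4 * m.φ ≤ m.g q.K → ∀ p0 : ℝ, 0 ≤ p0 → (A.L : ℝ) ^ (Rows.Cst d A) * p0 ≤ 1 →
    (∀ (hφ : 0 < m.φ / 2) (hK : 2 * (m.φ / 2) ≤ m.g q.K),
      (q.wf (m.φ / 2) hφ hK).PP (A.τ * q.N1) (fun η w => ¬ Opn q.N1 A.L A.τ η w) ≤
        ENNReal.ofReal p0) →
    ∀ k : ℕ, A.S k ≤ n → 100 * A.S k + 10 * A.L ^ 2 ≤ q.M →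
    ∀ (φ' : ℝ) (h' : 0 < φ') (hK' : 2 * φ' ≤ m.g q.K), 7 / 8 * m.φ ≤ φ' → φ' ≤ 9 / 8 * m.φ →
    (q.wf φ' h' hK').PP (6 * A.T d k * q.N1) (BadM q.N1 A k) ≤
      ENNReal.ofReal (if k = 0 then p0 + Real.exp (-(A.L : ℝ)) else Real.exp (-(A.S (k - 1) : ℝ))) ∧
    (q.wf φ' h' hK').PP (6 * A.T d k * q.N1) (BadP q.N1 A k) ≤
      ENNReal.ofReal (if k = 0 then 0 else Real.exp (-(A.S (k - 1) : ℝ)))

/-- the induction, with explicit constants -/
theorem bad_prob_of (m : Model) (d : ℕ) (hd : 0 < d) (α γ L1 C x0 c1 : ℕ) (hγ : γ ≥ α + 20)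
    (hC1 : 1 ≤ C) (hL1 : RecProp m d α γ L1) (hfast : FastProp m d (3 / 2 * m.φ) C)
    (hx0 : ∀ x : ℕ, x0 ≤ x → (x : ℝ) ^ (γ * (3 * (d + 1) * (γ + 1))) * Real.exp (-(x : ℝ)) ≤ 1)
    (hc1 : 16 / m.φ ≤ c1) : BadProp m d α γ (L1 + x0 + 1000 * (d + 1) + 2 * C + c1) := by
  intro A hAα hAγ hAL hLτ hτL δ q n hTiny h4 p0 hp0 hp0L hbase
  have hφ := m.φ_pos
  have hγ2 : 2 ≤ A.γ := by omega
  have hL2 : 2 ≤ A.L := by omega
  have hLc : 16 / m.φ ≤ (A.L : ℝ) := hc1.trans (by exact_mod_cast (by omega : c1 ≤ A.L))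
  have hLc' : 16 ≤ m.φ * A.L := by
    rw [div_le_iff₀ hφ] at hLc
    linarith
  have hfit1 : 1000 * (d + 1) ≤ A.L := by omega
  have hfit2 : A.α + 12 ≤ A.γ := by omega
  -- the numerical condition of the recursion step
  have hnum : ∀ k, (A.S (k + 1) : ℝ) ^ (Rows.Cst d A) * Real.exp (-(A.S k : ℝ)) ≤ 1 := by
    intro k
    have h1 : x0 ≤ A.S k := le_trans (by omega) (L_le_S A (by omega) k)
    have h2 := hx0 _ h1
    have h3 : (A.S (k + 1) : ℝ) ^ (Rows.Cst d A) = (A.S k : ℝ) ^ (γ * (3 * (d + 1) * (γ + 1))) := by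
      rw [S_succ, Nat.cast_pow, ← pow_mul, Rows.Cst, hAγ]
    rw [h3]
    exact h2
  have hSM : ∀ k, 100 * A.S (k + 1) + 10 * A.L ^ 2 ≤ q.M → 100 * A.S k + 10 * A.L ^ 2 ≤ q.M :=
    fun k h => by
      have := S_le_succ A (by omega) k
      omega
  have hM1 : ∀ k, 100 * A.S k + 10 * A.L ^ 2 ≤ q.M → 12 * A.S k + 4 * A.L ^ 2 + 10 ≤ q.M :=
    fun k h => by
      have := L_le_S A (by omega) k
      omega
  have hM2 : ∀ k, 100 * A.S k + 10 * A.L ^ 2 ≤ q.M → 2 * A.L ^ 2 + 4 ≤ q.M :=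
    fun k h => by
      have := L_le_S A (by omega) k
      omega
  -- the decreasing events
  have hminus : ∀ k, A.S k ≤ n → 100 * A.S k + 10 * A.L ^ 2 ≤ q.M → ∀ (φ' : ℝ) (h' : 0 < φ')
      (hK' : 2 * φ' ≤ m.g q.K), fm m k ≤ φ' → φ' ≤ 3 / 2 * m.φ →
      (q.wf φ' h' hK').PP (6 * A.T d k * q.N1) (BadM q.N1 A k) ≤ ENNReal.ofReal (pm A p0 k) := by
    intro k
    induction k with
    | zero =>
      intro hn hM φ' h' hK' h1 h2
      rw [fm_zero] at h1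
      refine (badM_zero (q.wf φ' h' hK') A hd (by omega) (hM2 0 hM)).le.trans ?_
      exact (opn_fug q A (by omega) (hM2 0 hM) (m.φ / 2) φ' (by linarith) h' (by linarith) hK'
        h1).trans (hbase (by linarith) (by linarith))
    | succ k ih =>
      intro hn hM φ' h' hK' h1 h2
      have hb := fm_bd m k
      have hb' := fm_bd m (k + 1)
      have hg := fm_gap m k
      have hp := (half_pow k).1
      have hlt : fm m k < φ' := by nlinarith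
      have hMk := hSM k hM
      have hnk : A.S k ≤ n := (S_le_succ A (by omega) k).trans hn
      have ha : 0 < fm m k := by linarith
      have hKa : 2 * fm m k ≤ m.g q.K := by linarith
      have hstep := hL1 A hAα hAγ (by omega) hLτ hτL δ q n hTiny h4 k hn hM (fm m k) φ' ha h' hKa hK'
        hb.1 (by linarith) (by linarith) h2 ?_ (BadM q.N1 A k) (pm A p0 k) ?_ ?_
        (ih hnk hMk (fm m k) ha hKa le_rfl (by linarith))
        (Or.inl ⟨hlt, Rows.badM_dec (K := q.K) q.N1 A hfit1 hfit2 k (hM1 k hMk)⟩)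
      · exact hstep
      · rw [abs_of_pos (by linarith)]
        refine gap A hL2 hγ2 k (m.φ * 3 / 16) _ (by positivity) (by linarith) (by linarith)
      · cases k with
        | zero => exact hp0
        | succ k => exact (Real.exp_pos _).le
      · cases k with
        | zero => rw [S_zero]; exact hp0L
        | succ k =>
          have h3 := hnum k
          have h4 : Real.exp (-(2 * A.S k : ℝ)) ≤ Real.exp (-(A.S k : ℝ)) := by
            refine Real.exp_le_exp.mpr ?_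
            have : (0 : ℝ) ≤ A.S k := Nat.cast_nonneg _
            linarith
          exact (mul_le_mul_of_nonneg_left h4 (by positivity)).trans h3
  -- the increasing events
  have hplus : ∀ k, A.S k ≤ n → 100 * A.S k + 10 * A.L ^ 2 ≤ q.M → ∀ (φ' : ℝ) (h' : 0 < φ')
      (hK' : 2 * φ' ≤ m.g q.K), φ' ≤ fp m k → m.φ / 2 ≤ φ' →
      (q.wf φ' h' hK').PP (6 * A.T d k * q.N1) (BadP q.N1 A k) ≤ ENNReal.ofReal (pp A k) := by
    intro k
    induction k with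
    | zero =>
      intro hn hM φ' h' hK' h1 h2
      have h3 : (q.wf φ' h' hK').PP (6 * A.T d 0 * q.N1) (BadP q.N1 A 0) = 0 :=
        PP_false (q.wf φ' h' hK') _
      rw [h3]
      exact zero_le
    | succ k ih =>
      intro hn hM φ' h' hK' h1 h2
      have hb := fp_bd m k
      have hb' := fp_bd m (k + 1)
      have hg := fp_gap m k
      have hp := (half_pow k).1
      have hlt : φ' < fp m k := by nlinarith
      have hMk := hSM k hM
      have hnk : A.S k ≤ n := (S_le_succ A (by omega) k).trans hn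
      have ha : 0 < fp m k := by linarith
      have hKa : 2 * fp m k ≤ m.g q.K := by linarith
      have hSk : A.L ≤ A.S k := L_le_S A (by omega) k
      have hSk1 : A.S k ≤ A.S (k + 1) := S_le_succ A (by omega) k
      have hstep : (q.wf φ' h' hK').PP (6 * A.T d (k + 1) * q.N1) (RecE q.N1 A k (BadP q.N1 A k)) ≤
          ENNReal.ofReal (Real.exp (-(2 * A.S k : ℝ))) := by
        refine hL1 A hAα hAγ (by omega) hLτ hτL δ q n hTiny h4 k hn hM (fp m k) φ' ha h' hKa hK'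
          (by linarith) (by linarith) h2 (by linarith) ?_ (BadP q.N1 A k) (pp A k) ?_ ?_
          (ih hnk hMk (fp m k) ha hKa le_rfl (by linarith))
          (Or.inr ⟨hlt, Rows.badP_inc (K := q.K) q.N1 A hfit1 hfit2 k (hM1 k hMk)⟩)
        · rw [abs_sub_comm, abs_of_pos (by linarith)]
          refine gap A hL2 hγ2 k (m.φ / 8) _ (by positivity) (by linarith) (by linarith)
        · cases k with
          | zero => exact le_rfl
          | succ k => exact (Real.exp_pos _).le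
        · cases k with
          | zero =>
            show (A.S 0 : ℝ) ^ (Rows.Cst d A) * 0 ≤ 1
            rw [mul_zero]
            exact zero_le_one
          | succ k => exact hnum k
      have hF : (q.wf φ' h' hK').PP (6 * A.T d (k + 1) * q.N1)
          (sft q.N1 0 (2 * A.T d (k + 1)) (Fast q.N1 (A.S (k + 1)) (A.U d (k + 1)))) ≤
          ENNReal.ofReal (Real.exp (-(A.S (k + 1) : ℝ) / C)) := by
        refine (fast_sft (q.wf φ' h' hK') A hd (by omega) (by omega) k ?_).le.trans ?_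
        · show 6 * A.S (k + 1) + 10 ≤ q.M
          omega
        · refine hfast φ' h' (by linarith) δ (q.wf φ' h' hK') (A.S (k + 1)) (A.U d (k + 1)) ?_ ?_ ?_
          · exact U_le A (by omega) (by omega) hτL C k (by omega)
          · omega
          · show 20 * A.S (k + 1) + 10 ≤ q.M
            omega
      refine (Rows.PP_or (q.wf φ' h' hK') (6 * A.T d (k + 1) * q.N1)
        (sft q.N1 0 (2 * A.T d (k + 1)) (Fast q.N1 (A.S (k + 1)) (A.U d (k + 1))))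
        (RecE q.N1 A k (BadP q.N1 A k))).trans ?_
      refine (add_le_add hF hstep).trans ?_
      rw [← ENNReal.ofReal_add (Real.exp_pos _).le (Real.exp_pos _).le]
      refine ENNReal.ofReal_le_ofReal ?_
      have hs1 : (1 : ℝ) ≤ A.S k := by exact_mod_cast (by omega : 1 ≤ A.S k)
      have hC0 : (0 : ℝ) < C := by exact_mod_cast hC1
      refine sum_exp (A.S k) (A.S (k + 1)) C hs1 hC0 ?_
      have h5 : C * (2 * A.S k) ≤ A.S (k + 1) := by
        rw [S_succ]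
        calc C * (2 * A.S k) = 2 * C * A.S k := by ring
          _ ≤ A.S k * A.S k := Nat.mul_le_mul_right _ (by omega)
          _ = A.S k ^ 2 := by ring
          _ ≤ A.S k ^ A.γ := Nat.pow_le_pow_right (by omega) hγ2
      exact_mod_cast h5
  intro k hn hM φ' h' hK' h1 h2
  have hbm := fm_bd m k
  have hbp := fp_bd m k
  have r1 := hminus k hn hM φ' h' hK' (by linarith) (by linarith)
  have r2 := hplus k hn hM φ' h' hK' (by linarith) (by linarith)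
  refine ⟨r1.trans (ENNReal.ofReal_le_ofReal ?_), r2.trans (ENNReal.ofReal_le_ofReal ?_)⟩
  · cases k with
    | zero =>
      rw [if_pos rfl]
      have := Real.exp_pos (-(A.L : ℝ))
      show p0 ≤ _
      linarith
    | succ k =>
      rw [if_neg (Nat.succ_ne_zero k), Nat.add_sub_cancel]
      refine Real.exp_le_exp.mpr ?_
      have : (0 : ℝ) ≤ A.S k := Nat.cast_nonneg _
      linarith
  · cases k with
    | zero => rw [if_pos rfl]; exact le_rfl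
    | succ k => rw [if_neg (Nat.succ_ne_zero k), Nat.add_sub_cancel]; exact le_rfl

end BP

namespace Rows

open BP

theorem bad_prob (m : Model) (d : ℕ) (hd : 0 < d) : ∃ α0 : ℕ, ∀ α ≥ α0, ∀ γ ≥ α + 20, ∃ L0 : ℕ,
    ∀ A : Prm, A.α = α → A.γ = γ → L0 ≤ A.L → A.L ≤ A.τ → A.τ ≤ A.L ^ 2 → ∀ (δ : ℝ) (q : Par d m δ)
    (n : ℕ), q.Tiny n → 4 * m.φ ≤ m.g q.K → ∀ p0 : ℝ, 0 ≤ p0 → (A.L : ℝ) ^ (Cst d A) * p0 ≤ 1 →
    (∀ (hφ : 0 < m.φ / 2) (hK : 2 * (m.φ / 2) ≤ m.g q.K),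
      (q.wf (m.φ / 2) hφ hK).PP (A.τ * q.N1) (fun η w => ¬ Opn q.N1 A.L A.τ η w) ≤
        ENNReal.ofReal p0) →
    ∀ k : ℕ, A.S k ≤ n → 100 * A.S k + 10 * A.L ^ 2 ≤ q.M →
    ∀ (φ' : ℝ) (h' : 0 < φ') (hK' : 2 * φ' ≤ m.g q.K), 7 / 8 * m.φ ≤ φ' → φ' ≤ 9 / 8 * m.φ →
    (q.wf φ' h' hK').PP (6 * A.T d k * q.N1) (BadM q.N1 A k) ≤
      ENNReal.ofReal (if k = 0 then p0 + Real.exp (-(A.L : ℝ)) else Real.exp (-(A.S (k - 1) : ℝ))) ∧
    (q.wf φ' h' hK').PP (6 * A.T d k * q.N1) (BadP q.N1 A k) ≤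
      ENNReal.ofReal (if k = 0 then 0 else Real.exp (-(A.S (k - 1) : ℝ))) := by
  obtain ⟨α0, hrec⟩ := rec_step m d hd
  obtain ⟨C, hC1, hfast⟩ := fast_prob m d hd (3 / 2 * m.φ)
  refine ⟨α0, fun α hα γ hγ => ?_⟩
  obtain ⟨L1, hL1⟩ := hrec α hα γ hγ
  obtain ⟨x0, _, hx0⟩ := exists_pow_exp (γ * (3 * (d + 1) * (γ + 1)))
  obtain ⟨c1, hc1⟩ := exists_nat_ge (16 / m.φ)
  exact ⟨_, bad_prob_of m d hd α γ L1 C x0 c1 hγ hC1 hL1 hfast hx0 hc1⟩

end Rows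

end ZP
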