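import Pool.Agent.ZP.BS5

/-! # Row BS: the level `0` event has high probability (text M8) -/

set_option autoImplicit false

open scoped ENNReal BigOperators Classical

noncomputable section

namespace ZP.BS

open ZP ZP.Rows

/-- the bad events of the level `0`, at the low fugacity -/
theorem opn_fin {m : Model} {d : ℕ} {δ : ℝ} (hd : 0 < d) (q : Par d m δ) {L r κ Cv τ C Cp Q : ℕ} (c : ℝ)
    (hM : L ^ 4 ≤ q.M)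
    (hL : 2 * r + 2 ≤ L) (hκ : 1 ≤ κ) (hr : 1 ≤ r) (hτ : (2 * d * L + 1) * κ ≤ τ)
    (hτr : 16 * r ^ 2 ≤ τ) (hτ2 : 16 * τ + 4 ≤ L ^ 2) (hD : 2 * d * L ≤ L ^ 2)
    (hR : 2 * L ^ 2 + 2 ≤ L ^ 4)
    (hg : ∀ q : ZI.Par d m, q.M = L ^ 4 → q.PP (L ^ 2 * q.N1) (fun η l =>
      ¬ (ZI.envT q η l).Good r κ κ Cv (L ^ 2) (L ^ 2)) ≤ ENNReal.ofReal (Real.exp (-c * r)))
    (hk : ∀ q : ZI.Par d m, ∀ R N : ℕ, 2 * R + 2 ≤ q.M → 16 * N + 4 ≤ R →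
      q.PP (N * q.N1) (fun η l => ¬ ZI.Agree N (ZI.envT q η l) (ZI.kill R (ZI.envT q η l))) ≤
      ENNReal.ofReal (C * (R + 1 : ℝ) ^ C * Real.exp (C * N - R / 4)))
    (hnum : (C : ℝ) * (((L ^ 2 : ℕ) : ℝ) + 1) ^ C *
      Real.exp (C * τ - ((L ^ 2 : ℕ) : ℝ) / 4) ≤ Real.exp (-c * r))
    (hQ : 1 + m.g 1 / m.φ ≤ Q)
    (h8 : 8 * ((Q : ℝ) + 1) * (L : ℝ) ^ (d + Cp) * Real.exp (-c * r) ≤ 1)
    (hrec : (τ : ℝ) * (2 * (L : ℝ) ^ 2 + 1) ^ d * δ ≤ 1 / (64 * (L : ℝ) ^ Cp)) :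
    q.PP (τ * q.N1) (fun η w => ¬ Opn q.N1 L τ η w) ≤ ENNReal.ofReal (1 / (L : ℝ) ^ Cp) := by
  have hL0 : 0 < L := by omega
  have hLr : (0 : ℝ) < L := by exact_mod_cast hL0
  have hL1r : (1 : ℝ) ≤ L := by exact_mod_cast hL0
  have hδ := q.δ_nn
  have hx0 : 0 < Real.exp (-c * r) := Real.exp_pos _
  have hrec0 : (0 : ℝ) ≤ (τ : ℝ) * (2 * (L : ℝ) ^ 2 + 1) ^ d * δ := by positivity
  obtain ⟨b1, -⟩ := ge_bound (C := C) hd q.toZI c hM hL hκ hr hτ hτr hτ2 hD hg hk hnum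
  have b2 := opn_bound q hd (L := L) (τ := τ) (hR.trans hM) {z | supn z ≤ 4 * τ}
    (ENNReal.ofReal (2 * Real.exp (-c * r))) (by
      rw [ZP.Rows.PP_prj q hd _ (fun η l => ¬ ZI.BX.GE (L ^ 2) L (τ * q.N1)
        {z | supn z ≤ 4 * τ} (ZI.LK.ini0 (L ^ 2) η) (l.map (ZI.LK.gf (L ^ 2))))]
      exact b1)
  refine le_trans b2 ?_
  have h1 : ((L : ℝ≥0∞)) ^ d = ENNReal.ofReal ((L : ℝ) ^ d) := by
    rw [ENNReal.ofReal_pow hLr.le, ENNReal.ofReal_natCast]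
  have hg0 : (0 : ℝ) ≤ 1 + m.g 1 / m.φ := by
    have h2 : 0 < m.g 1 := ZI.R2aux.g_pos m 0
    have h3 := m.φ_pos
    positivity
  rw [h1, ← ENNReal.ofReal_mul hg0, ← ENNReal.ofReal_mul (by positivity),
    ← ENNReal.ofReal_add (by positivity) (by positivity),
    ← ENNReal.ofReal_add hrec0 (by positivity)]
  refine ENNReal.ofReal_le_ofReal ?_
  refine le_trans (add_le_add hrec le_rfl) ?_
  exact num3 d Cp Q hL1r rfl hx0 hg0 hQ h8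

/-- the bad events of the meeting cell -/
theorem fopn_fin {m : Model} {d : ℕ} {δ : ℝ} (hd : 0 < d) (q : Par d m δ) {L r κ Cv τ C Cp : ℕ} (c : ℝ)
    (hM : L ^ 4 ≤ q.M)
    (hL : 2 * r + 2 ≤ L) (hκ : 1 ≤ κ) (hr : 1 ≤ r) (hτ : (2 * d * L + 1) * κ ≤ τ) (hLτ : L ≤ τ)
    (hτr : 16 * r ^ 2 ≤ τ) (hτ2 : 16 * τ + 4 ≤ L ^ 2) (hD : 2 * d * L ≤ L ^ 2)
    (hR : 2 * L ^ 2 + 2 ≤ L ^ 4)
    (hg : ∀ q : ZI.Par d m, q.M = L ^ 4 → q.PP (L ^ 2 * q.N1) (fun η l =>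
      ¬ (ZI.envT q η l).Good r κ κ Cv (L ^ 2) (L ^ 2)) ≤ ENNReal.ofReal (Real.exp (-c * r)))
    (hk : ∀ q : ZI.Par d m, ∀ R N : ℕ, 2 * R + 2 ≤ q.M → 16 * N + 4 ≤ R →
      q.PP (N * q.N1) (fun η l => ¬ ZI.Agree N (ZI.envT q η l) (ZI.kill R (ZI.envT q η l))) ≤
      ENNReal.ofReal (C * (R + 1 : ℝ) ^ C * Real.exp (C * N - R / 4)))
    (hnum : (C : ℝ) * (((L ^ 2 : ℕ) : ℝ) + 1) ^ C *
      Real.exp (C * τ - ((L ^ 2 : ℕ) : ℝ) / 4) ≤ Real.exp (-c * r))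
    (h192 : 192 * Real.exp (-c * r) ≤ 1)
    (hrec : (τ : ℝ) * (2 * (L : ℝ) ^ 2 + 1) ^ d * δ ≤ 1 / (64 * (L : ℝ) ^ Cp)) :
    q.PP (τ * q.N1) (fun η w => ¬ FOpn q.N1 L τ η w) ≤ ENNReal.ofReal (1 / 32) := by
  have hL0 : 0 < L := by omega
  have hL1r : (1 : ℝ) ≤ L := by exact_mod_cast hL0
  have hδ := q.δ_nn
  have hx0 : 0 < Real.exp (-c * r) := Real.exp_pos _
  have hrec0 : (0 : ℝ) ≤ (τ : ℝ) * (2 * (L : ℝ) ^ 2 + 1) ^ d * δ := by positivity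
  obtain ⟨b1, b3⟩ := ge_bound (C := C) hd q.toZI c hM hL hκ hr hτ hτr hτ2 hD hg hk hnum
  have b2 := fopn_bound q hd (L := L) (τ := τ) (hR.trans hM) (by omega) (by omega)
    (ENNReal.ofReal (2 * Real.exp (-c * r))) (ENNReal.ofReal (Real.exp (-c * r))) (by
      rw [ZP.Rows.PP_prj q hd _ (fun η l => ¬ ZI.BX.GE (L ^ 2) L (τ * q.N1)
        {z | supn z ≤ 4 * τ} (ZI.LK.ini0 (L ^ 2) η) (l.map (ZI.LK.gf (L ^ 2))))]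
      exact b1) b3
  refine le_trans b2 ?_
  rw [← ENNReal.ofReal_add (by positivity) hx0.le, ← ENNReal.ofReal_add hrec0 (by positivity)]
  refine ENNReal.ofReal_le_ofReal ?_
  have hC1 : 1 ≤ (L : ℝ) ^ Cp := one_le_pow₀ hL1r
  have h3 : 1 / (64 * (L : ℝ) ^ Cp) ≤ 1 / 64 := by
    apply one_div_le_one_div_of_le (by norm_num)
    linarith
  linarith

end ZP.BS

namespace ZP.Rows

open ZP ZP.BS

theorem base_opn (m : Model) (d : ℕ) (hd : 0 < d) (Cp L0 : ℕ) : ∃ L ≥ L0, ∃ τ : ℕ, L ≤ τ ∧ τ ≤ L ^ 2 ∧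
    ∃ δ1 : ℝ, 0 < δ1 ∧ ∀ δ : ℝ, 0 ≤ δ → δ ≤ δ1 → ∀ (q : Par d m δ) (n : ℕ), q.Tiny n → L ^ 5 ≤ n →
    4 * m.φ ≤ m.g q.K → 4 * L ^ 5 ≤ q.M →
    (∀ (hφ : 0 < m.φ / 2) (hK : 2 * (m.φ / 2) ≤ m.g q.K),
      (q.wf (m.φ / 2) hφ hK).PP (τ * q.N1) (fun η w => ¬ Opn q.N1 L τ η w) ≤
        ENNReal.ofReal (1 / (L : ℝ) ^ Cp)) ∧
    q.PP (τ * q.N1) (fun η w => ¬ FOpn q.N1 L τ η w) ≤ ENNReal.ofReal (1 / 32) := by
  obtain ⟨Cv1, a1, c1, hc1, hg1⟩ := ZI.Rows.good_whp m d hd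
  obtain ⟨Cv2, a2, c2, hc2, hg2⟩ := ZI.Rows.good_whp (ZP.wf m (m.φ / 2) (half_pos m.φ_pos)) d hd
  obtain ⟨C1, hk1⟩ := ZI.Rows.killed_agree m d
  obtain ⟨C2, hk2⟩ := ZI.Rows.killed_agree (ZP.wf m (m.φ / 2) (half_pos m.φ_pos)) d
  obtain ⟨Q, hQ⟩ := exists_nat_ge (1 + (ZP.wf m (m.φ / 2) (half_pos m.φ_pos)).g 1 /
    (ZP.wf m (m.φ / 2) (half_pos m.φ_pos)).φ)
  obtain ⟨a, ha1, ha2⟩ : ∃ a : ℕ, a1 ≤ a ∧ a2 ≤ a := ⟨max a1 a2, le_max_left _ _, le_max_right _ _⟩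
  obtain ⟨r1, hr1⟩ := hg1 a ha1 (4 * a + 2) (Nat.le_add_right _ _)
  obtain ⟨r2, hr2⟩ := hg2 a ha2 (4 * a + 2) (Nat.le_add_right _ _)
  obtain ⟨c, hc, hcc1, hcc2⟩ : ∃ c : ℝ, 0 < c ∧ c ≤ c1 ∧ c ≤ c2 :=
    ⟨min c1 c2, lt_min hc1 hc2, min_le_left _ _, min_le_right _ _⟩
  obtain ⟨r3, hr3⟩ := ZI.Rows.T1.growth (8 * (Q + 1)) ((4 * a + 2) * (d + Cp)) c hc
  obtain ⟨r4, hr4⟩ := ZI.Rows.T1.growth 192 0 c hc
  obtain ⟨r5, hr5⟩ := num2 C1 c hc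
  obtain ⟨r6, hr6⟩ := num2 C2 c hc
  obtain ⟨r, e1, e2, e3, e4, e5, e6, e7, e8⟩ : ∃ r : ℕ, r1 ≤ r ∧ r2 ≤ r ∧ r3 ≤ r ∧ r4 ≤ r ∧ r5 ≤ r ∧
      r6 ≤ r ∧ L0 ≤ r ∧ 1000 * (d + 1) * (C1 + C2 + 1) + 10 ≤ r := by
    generalize 1000 * (d + 1) * (C1 + C2 + 1) = X
    exact ⟨r1 + r2 + r3 + r4 + r5 + r6 + L0 + (X + 10), by omega, by omega, by omega, by omega,
      by omega, by omega, by omega, by omega⟩
  have h10 : 10 ≤ r := le_trans (Nat.le_add_left _ _) e8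
  have hrpos : 1 ≤ r := le_trans (by norm_num) h10
  obtain ⟨L, κ, τ, hL, hκ, f1, f2, f3, f4, f5, f6, f7, f8, f9, f10, f11⟩ := prm d C1 C2 a r e8
  have hG1 := hr1 r e1 L hL.ge (by
    rw [hL]
    exact Nat.pow_le_pow_left (by omega) _)
  have hG2 := hr2 r e2 L hL.ge (by
    rw [hL]
    exact Nat.pow_le_pow_left (by omega) _)
  rw [← hκ] at hG1 hG2
  have hL2r : 2 * r + 2 ≤ L := by omega
  have hrL : r ≤ L := by omega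
  have hL0 : 0 < L := by omega
  have hLr : (0 : ℝ) < L := by exact_mod_cast hL0
  have hL1r : (1 : ℝ) ≤ L := by exact_mod_cast hL0
  have hτr : (0 : ℝ) < τ := by exact_mod_cast (lt_of_lt_of_le hL0 f3)
  have N1 := hr5 r e5 L τ hrL f7
  have N2 := hr6 r e6 L τ hrL f8
  have N3 := hr3 r e3
  have N4 := hr4 r e4
  have hx0 : 0 < Real.exp (-c * r) := Real.exp_pos _
  have hxe : Real.exp (c * r) * Real.exp (-c * r) = 1 := by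
    rw [← Real.exp_add]
    simp
  have hrr : (0 : ℝ) ≤ r := Nat.cast_nonneg r
  have hx1 : Real.exp (-c1 * r) ≤ Real.exp (-c * r) := Real.exp_le_exp.2 (by nlinarith)
  have hx2 : Real.exp (-c2 * r) ≤ Real.exp (-c * r) := Real.exp_le_exp.2 (by nlinarith)
  have h192 : 192 * Real.exp (-c * r) ≤ 1 := by
    refine le_trans (mul_le_mul_of_nonneg_right ?_ hx0.le) hxe.le
    refine le_trans (le_of_eq ?_) N4
    push_cast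
    ring
  have h8 : 8 * ((Q : ℝ) + 1) * (L : ℝ) ^ (d + Cp) * Real.exp (-c * r) ≤ 1 := by
    refine le_trans (mul_le_mul_of_nonneg_right ?_ hx0.le) hxe.le
    refine le_trans ?_ N3
    have h9 : (L : ℝ) ^ (d + Cp) ≤ (2 * (r : ℝ)) ^ ((4 * a + 2) * (d + Cp)) := by
      rw [hL, Nat.cast_pow, ← pow_mul]
      exact pow_le_pow_left₀ hrr (by linarith) _
    push_cast
    exact mul_le_mul_of_nonneg_left h9 (by positivity)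
  refine ⟨L, le_trans e7 hrL, τ, f3, by omega,
    1 / (64 * (L : ℝ) ^ Cp * (τ * (2 * (L : ℝ) ^ 2 + 1) ^ d)), by positivity, ?_⟩
  intro δ hδ hδ1 q n _ _ _ hM
  have hM4 : L ^ 4 ≤ q.M := f10.trans hM
  have hrec : (τ : ℝ) * (2 * (L : ℝ) ^ 2 + 1) ^ d * δ ≤ 1 / (64 * (L : ℝ) ^ Cp) := by
    have h1 : (0 : ℝ) < τ * (2 * (L : ℝ) ^ 2 + 1) ^ d := by positivity
    calc (τ : ℝ) * (2 * (L : ℝ) ^ 2 + 1) ^ d * δ ≤ τ * (2 * (L : ℝ) ^ 2 + 1) ^ d *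
          (1 / (64 * (L : ℝ) ^ Cp * (τ * (2 * (L : ℝ) ^ 2 + 1) ^ d))) := mul_le_mul_of_nonneg_left hδ1 h1.le
      _ = 1 / (64 * (L : ℝ) ^ Cp) := by
          field_simp
  refine ⟨?_, ?_⟩
  · intro hφ hK
    exact opn_fin hd (q.wf (m.φ / 2) hφ hK) (r := r) (κ := κ) (Cv := Cv2) (C := C2) c hM4 hL2r f1 hrpos f4 f5 f6 f9 f11
      (fun q0 h0 => le_trans (hG2 q0 h0) (ENNReal.ofReal_le_ofReal hx2)) hk2 N2 hQ h8 hrec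
  · exact fopn_fin hd q (r := r) (κ := κ) (Cv := Cv1) (C := C1) c hM4 hL2r f1 hrpos f4 f3 f5 f6 f9 f11
      (fun q0 h0 => le_trans (hG1 q0 h0) (ENNReal.ofReal_le_ofReal hx1)) hk1 N1 h192 hrec

end ZP.Rows
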