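import Pool.Agent.ZP.NMOf
import Pool.Agent.ZP.BP
import Pool.Agent.ZP.BKa

/-! # Row NM: not being in a hub -/

set_option autoImplicit false

open scoped ENNReal BigOperators Classical Pointwise

noncomputable section

namespace ZP.Rows

open ZP

/-- not being in a hub, letters version, at nearby fugacities -/
theorem nmemb_prob (m : Model) (d : ℕ) (hd : 0 < d) : ∃ α0 : ℕ, ∀ α ≥ α0, ∀ γ ≥ α + 20, ∃ L0 : ℕ,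
    ∀ A : Prm, A.α = α → A.γ = γ → L0 ≤ A.L → A.L ≤ A.τ → A.τ ≤ A.L ^ 2 → ∀ (δ : ℝ) (q : Par d m δ)
    (n : ℕ), q.Tiny n → 4 * m.φ ≤ m.g q.K → ∀ p0 : ℝ, 0 ≤ p0 → (A.L : ℝ) ^ (Cst d A) * p0 ≤ 1 →
    (∀ (hφ : 0 < m.φ / 2) (hK : 2 * (m.φ / 2) ≤ m.g q.K),
      (q.wf (m.φ / 2) hφ hK).PP (A.τ * q.N1) (fun η w => ¬ Opn q.N1 A.L A.τ η w) ≤
        ENNReal.ofReal p0) →
    ∀ k : ℕ, A.S k ≤ n → 100 * A.S k + 10 * A.L ^ 2 ≤ q.M →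
    ∀ (φ' : ℝ) (h' : 0 < φ') (hK' : 2 * φ' ≤ m.g q.K), 7 / 8 * m.φ ≤ φ' → φ' ≤ 9 / 8 * m.φ →
    ∀ (b : Bool) (c : Pos d),
    (q.wf φ' h' hK').PP (8 * A.T d k * q.N1) (NMemb q.N1 A b k c) ≤ ENNReal.ofReal (1 / 64) :=
  ZP.NM.nmemb_prob_of m d hd (bad_prob m d hd)
    (fun M K N1 A h1 h2 k h3 => badM_dec (M := M) (K := K) N1 A h1 h2 k h3)
    (fun M K N1 A h1 h2 k h3 => badP_inc (M := M) (K := K) N1 A h1 h2 k h3)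

end ZP.Rows
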