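import Pool.Agent.ZP.T1c
import Pool.Agent.ZP.BP
import Pool.Agent.ZP.NM
import Pool.Agent.ZP.BS
import Pool.Agent.ZP.D2

/-! # Row T1: the good event has high probability; the constants -/

set_option autoImplicit false

open scoped ENNReal BigOperators Classical

noncomputable section

namespace ZP.Rows

open ZP ZP.T1

theorem good_whp (m : Model) (d : ℕ) (hd : 0 < d) : ∃ Cv a0 : ℕ, ∃ c : ℝ, 0 < c ∧ ∃ δ1 : ℝ, 0 < δ1 ∧
    ∀ δ : ℝ, 0 ≤ δ → δ ≤ δ1 → ∀ a ≥ a0, ∀ A : ℕ, 4 * a ≤ A → ∃ r0 : ℕ, ∀ r ≥ r0, ∀ n : ℕ,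
    r ^ A ≤ n → n ≤ (2 * r) ^ A → ∀ q : Par d m δ, q.M = n ^ 4 → q.Tiny n →
    q.PP (n ^ 2 * q.N1) (fun η l => ¬ (envT q η l).Good r (r ^ a) Cv (n ^ 2) (n ^ 2)) ≤
      ENNReal.ofReal (Real.exp (- c * r)) := by
  obtain ⟨α1, hbad⟩ := bad_prob m d hd
  obtain ⟨α2, hnm⟩ := nmemb_prob m d hd
  obtain ⟨L1, hbad⟩ := hbad (max α1 α2) (le_max_left _ _) (max α1 α2 + 20) le_rfl
  obtain ⟨L2, hnm⟩ := hnm (max α1 α2) (le_max_right _ _) (max α1 α2 + 20) le_rfl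
  obtain ⟨L, hL, τ, hτ1, hτ2, δ1, hδ1, hbase⟩ := base_opn m d hd (3 * (d + 1) * (max α1 α2 + 20 + 1))
    (max (max L1 L2) (1000 * (d + 1) * 3 ^ d))
  have hL1 : L1 ≤ L := ((le_max_left _ _).trans (le_max_left _ _)).trans hL
  have hL2 : L2 ≤ L := ((le_max_right _ _).trans (le_max_left _ _)).trans hL
  have hL3 : 1000 * (d + 1) * 3 ^ d ≤ L := (le_max_right _ _).trans hL
  set A : Prm := ⟨L, τ, max α1 α2 + 20, max α1 α2⟩ with hA
  have hcore := good_core m d hd A {δ | 0 ≤ δ ∧ δ ≤ δ1} hL3 rfl hτ1 hτ2 (by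
    intro δ hδ q n hT hn hφK hM
    have hbs := hbase δ hδ.1 hδ.2 q n hT hn hφK hM
    have hp0 : (A.L : ℝ) ^ (Cst d A) * (1 / (L : ℝ) ^ (3 * (d + 1) * (max α1 α2 + 20 + 1))) ≤ 1 := by
      have h1 : Cst d A = 3 * (d + 1) * (max α1 α2 + 20 + 1) := rfl
      have h2 : (0 : ℝ) < (L : ℝ) ^ (3 * (d + 1) * (max α1 α2 + 20 + 1)) := by
        have h3 : 0 < 1000 * (d + 1) * 3 ^ d := by positivity
        have : (0 : ℝ) < L := by exact_mod_cast (show 0 < L by omega)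
        positivity
      rw [h1, mul_one_div, div_self h2.ne']
    have hp00 : (0 : ℝ) ≤ 1 / (L : ℝ) ^ (3 * (d + 1) * (max α1 α2 + 20 + 1)) := by positivity
    have hbadk := hbad A rfl rfl hL1 hτ1 hτ2 δ q n hT hφK _ hp00 hp0 hbs.1
    have hnmk := hnm A rfl rfl hL2 hτ1 hτ2 δ q n hT hφK _ hp00 hp0 hbs.1
    refine ⟨fun k hk hSn hMk => ⟨?_, hnmk k hSn hMk⟩, hbs.2⟩
    have hk0 : k ≠ 0 := by omega
    have h := hbadk k hSn hMk m.φ m.φ_pos q.K_big (by linarith [m.φ_pos]) (by linarith [m.φ_pos])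
    rw [if_neg hk0, if_neg hk0] at h
    exact h)
  obtain ⟨Cv, a0, hcore⟩ := hcore
  refine ⟨Cv, a0, 1 / 2, by norm_num, δ1, hδ1, ?_⟩
  intro δ hδ hδ' a ha A' hA'
  exact hcore δ ⟨hδ, hδ'⟩ a ha A' hA'

theorem good_Cv {d : ℕ} {E : Env d} {r κ Cv Cv' S Dm : ℕ} (h : Cv ≤ Cv')
    (hE : E.Good r κ Cv S Dm) : E.Good r κ Cv' S Dm := by
  obtain ⟨g1, g3, g3', g4, g4'⟩ := hE
  have h' : (Cv : ℝ) ≤ Cv' := by exact_mod_cast h
  refine ⟨g1, g3, g3', ?_, ?_⟩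
  · intro s t x y hst ht hR
    have h1 : (0 : ℝ) ≤ (t : ℝ) - s := sub_nonneg.2 (by exact_mod_cast hst)
    have h2 := g4 s t x y hst ht hR
    nlinarith
  · intro s t x y hst ht hR
    have h1 : (0 : ℝ) ≤ (t : ℝ) - s := sub_nonneg.2 (by exact_mod_cast hst)
    have h2 := g4' s t x y hst ht hR
    nlinarith

theorem base_exists (m : Model) (d : ℕ) (hd : 0 < d) : ∃ δ1 : ℝ, 0 < δ1 ∧
    ∀ δ : ℝ, 0 ≤ δ → δ ≤ δ1 → ∃ (Cv a A r0 : ℕ) (c : ℝ), Base m δ d Cv a A r0 c := by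
  obtain ⟨Cv0, a0, c, hc, δ1, hδ1, hgood⟩ := good_whp m d hd
  obtain ⟨a, ha, A0, hfacts⟩ := block_facts d hd (Cv0 + 1) (max a0 10)
  have ha0 : a0 ≤ a := (le_max_left _ _).trans ha
  have ha10 : 10 ≤ a := (le_max_right _ _).trans ha
  refine ⟨δ1, hδ1, fun δ hδ hδ' => ?_⟩
  obtain ⟨r1, h1⟩ := hgood δ hδ hδ' a ha0 (max A0 (1000 * a))
    (by have := le_max_right A0 (1000 * a); omega)
  obtain ⟨r2, h2⟩ := hfacts (max A0 (1000 * a)) (le_max_left _ _)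
  refine ⟨Cv0 + 1, a, max A0 (1000 * a), max (max r1 r2) 10, c, ?_⟩
  refine
    { d_pos := hd
      c_pos := hc
      Cv_pos := Nat.succ_pos _
      a_big := ha10
      A_big := le_max_right _ _
      r0_big := le_max_right _ _
      good := ?_
      facts := ?_ }
  · intro r hr n hn1 hn2 q hM hT
    refine le_trans (PP_mono q _ fun η l _ hG hG' => hG (good_Cv (Nat.le_succ Cv0) hG'))
      (h1 r ((le_max_left _ _).trans ((le_max_left _ _).trans hr)) n hn1 hn2 q hM hT)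
  · intro r hr n hn E hE u hu m' hm1 hm2 z s hs hs'
    exact h2 r ((le_max_right _ _).trans ((le_max_left _ _).trans hr)) n hn E hE u hu m' hm1 hm2 z s
      hs hs'

end ZP.Rows
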