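import Pool.Agent.ZP.Sys2
import Pool.Agent.ZI.Aux79

/-! # Auxiliary facts for S5: reverse comparison with independent blocks (with recovery) -/

set_option autoImplicit false

open scoped ENNReal BigOperators Classical
open MeasureTheory

noncomputable section

namespace ZP.Rows

open ZP ZI.Rows

variable {d : ℕ} {Ω : Type} [MeasurableSpace Ω] {P : Measure Ω}

namespace S5

theorem kp_le_half (a A k : ℕ) (hA : 1000 * a ≤ A) : kp a A k ≤ 2 ^ (k / 2) :=
  ZI.Rows.S5.rr_pow_le a A k a hA (by omega)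

theorem two_kp_le (a A k : ℕ) (_ha : 10 ≤ a) (hA : 1000 * a ≤ A) (hk : 1 ≤ k) :
    2 * kp a A k ≤ (2 ^ k) ^ 2 := by
  have h1 := kp_le_half a A k hA
  have h2 : 2 * 2 ^ (k / 2) ≤ (2 ^ k) ^ 2 := by
    rw [← pow_succ', ← pow_mul]
    apply Nat.pow_le_pow_right (by norm_num)
    omega
  omega

variable [IsProbabilityMeasure P]

/-- the reverse of the comparison with independent blocks -/
theorem chain_rev (S : Sys d P) (k : ℕ) (hk : S.k0 ≤ k) (u : Fin d → ℝ) (hu : ∑ j, u j ^ 2 = 1)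
    (ms : List ℕ) (hms : ∀ m ∈ ms, rr S.A k ^ (7 * S.a) ≤ m) (hsum : ms.sum ≤ rr S.A k * 2 ^ k)
    (z : Pos d) (s : ℕ) (hks : kp S.a S.A k ≤ s) (hs : 2 * s ≤ (2 ^ k) ^ 2)
    (G : List (ℕ × Pos d) → Prop) :
    prodQ (QK P S.E S.a S.A k u) ms G ≤
      P {ω | G ((S.E k ω).chain (PK d S.a S.A k) u ms z s)} + err (rr S.A k) := by
  have h1 := S.chain k hk u hu ms hms hsum z s hks hs (fun l => ¬ G l)
  have h2 := prodQ_le_one (QK P S.E S.a S.A k u) (fun m => S.tsumQ k hk u m) ms G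
  have h3 : (1 : ℝ≥0∞) ≤ P {ω | G ((S.E k ω).chain (PK d S.a S.A k) u ms z s)} +
      P {ω | ¬ G ((S.E k ω).chain (PK d S.a S.A k) u ms z s)} := by
    refine le_trans (le_of_eq ?_) (measure_union_le _ _)
    rw [← measure_univ (μ := P)]
    congr 1
    ext ω
    simp [em]
  have h4 : prodQ (QK P S.E S.a S.A k u) ms (fun l => ¬ G l) ≠ ⊤ := by
    refine ne_top_of_le_ne_top ENNReal.one_ne_top ?_
    rw [← h2]
    exact le_add_self
  rw [← ENNReal.add_le_add_iff_right h4]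
  calc prodQ (QK P S.E S.a S.A k u) ms G + prodQ (QK P S.E S.a S.A k u) ms (fun l => ¬ G l)
      = 1 := h2
    _ ≤ P {ω | G ((S.E k ω).chain (PK d S.a S.A k) u ms z s)} +
      P {ω | ¬ G ((S.E k ω).chain (PK d S.a S.A k) u ms z s)} := h3
    _ ≤ P {ω | G ((S.E k ω).chain (PK d S.a S.A k) u ms z s)} +
      (prodQ (QK P S.E S.a S.A k u) ms (fun l => ¬ G l) + err (rr S.A k)) := by
        gcongr
    _ = _ := by ring

end S5

end ZP.Rows
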