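import Pool.Agent.ZP.BBa

/-! # Row BB: the base for large fugacities and all recovery rates -/

set_option autoImplicit false

open scoped ENNReal BigOperators Classical Pointwise

noncomputable section

namespace ZP.BB

open ZP ZP.Rows ZP.BE

variable {d : ℕ}

theorem poly_exp (A : ℝ) (N : ℕ) (c : ℝ) (hc : 0 < c) : ∃ x0 : ℝ, ∀ x ≥ x0,
    A * x ^ N * Real.exp (-(c * x)) ≤ 1 := by
  have h1 := Real.tendsto_pow_mul_exp_neg_atTop_nhds_zero N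
  have h2 : Filter.Tendsto (fun x : ℝ => c * x) Filter.atTop Filter.atTop :=
    Filter.tendsto_id.const_mul_atTop hc
  have h3 := (h1.comp h2).const_mul (A / c ^ N)
  rw [mul_zero] at h3
  have h4 := h3.eventually (gt_mem_nhds (zero_lt_one : (0 : ℝ) < 1))
  obtain ⟨x0, hx0⟩ := Filter.eventually_atTop.mp h4
  refine ⟨x0, fun x hx => ?_⟩
  have h5 := hx0 x hx
  have h6 : A / c ^ N * ((c * x) ^ N * Real.exp (-(c * x))) = A * x ^ N * Real.exp (-(c * x)) := by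
    rw [mul_pow]
    have : c ^ N ≠ 0 := (pow_pos hc N).ne'
    field_simp
  have h7 : A / c ^ N * ((c * x) ^ N * Real.exp (-(c * x))) < 1 := h5
  rw [h6] at h7
  exact h7.le

theorem le_of_mul {P X : ℝ} (hX : 0 < X) (h : P * (96 * X) ≤ 1) : P ≤ 1 / (96 * X) := by
  rw [le_div_iff₀ (by positivity)]
  exact h

end ZP.BB

namespace ZP.Rows

open ZP ZP.BB

theorem base_big (m : Model) (d : ℕ) (hd : 0 < d) (Cp C0 : ℕ) : ∃ φ1 : ℝ, 2 ≤ φ1 ∧
    ∀ (φ0 : ℝ) (h0 : 0 < φ0), φ1 ≤ φ0 → ∃ L τ : ℕ, C0 * φ0 ^ C0 ≤ (L : ℝ) ∧ C0 ≤ L ∧ L ≤ τ ∧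
    τ ≤ L ^ 2 ∧ ∀ (δ : ℝ) (q : Par d (wf m φ0 h0) δ) (n : ℕ), q.Tiny n → L ^ 5 ≤ n →
    4 * φ0 ≤ m.g q.K → 4 * L ^ 5 ≤ q.M →
    (∀ (hφ : 0 < φ0 / 2) (hK : 2 * (φ0 / 2) ≤ m.g q.K),
      (q.wf (φ0 / 2) hφ hK).PP (τ * q.N1) (fun η w => ¬ Opn q.N1 L τ η w) ≤
        ENNReal.ofReal (1 / (L : ℝ) ^ Cp)) ∧
    q.PP (τ * q.N1) (fun η w => ¬ FOpn q.N1 L τ η w) ≤ ENNReal.ofReal (1 / 32) := by
  obtain ⟨CL, hCL⟩ := local_ball_u m d hd
  obtain ⟨c1, hc1, C1, hC1, hlow⟩ := low_prob m d hd 1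
  obtain ⟨c2, hc2, hring⟩ := ring_prob m d hd
  obtain ⟨a, ha⟩ : ∃ a, a = C0 + 8 * CL * d + 8 * d + 8 := ⟨_, rfl⟩
  obtain ⟨b, hb⟩ : ∃ b, b = C0 + 1 := ⟨_, rfl⟩
  obtain ⟨B, hB⟩ : ∃ B : ℝ, B = a * 2 ^ b := ⟨_, rfl⟩
  obtain ⟨x1, hx1⟩ := poly_exp (96 * C1 * 3 ^ d * 8 * d * B ^ (Cp + d + 1))
    (b * (Cp + d + 1) + 1) (c1 / 2) (by positivity)
  obtain ⟨x2, hx2⟩ := poly_exp (96 * 4 * d ^ 2 * 3 ^ d * B ^ (Cp + d + 1))
    (b * (Cp + d + 1)) c2 hc2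
  obtain ⟨x3, hx3⟩ := poly_exp (96 * CL * 2 * 2 ^ CL * B ^ (Cp + 2 * CL))
    (b * (Cp + 2 * CL) + 1) 1 one_pos
  refine ⟨max 2 (max x1 (max x2 x3)), le_max_left _ _, ?_⟩
  intro φ0 h0 hφ1
  have hx2' : 2 ≤ φ0 := (le_max_left _ _).trans hφ1
  have hX1 : x1 ≤ φ0 := ((le_max_left _ _).trans (le_max_right _ _)).trans hφ1
  have hX2 : x2 ≤ φ0 :=
    (((le_max_left _ _).trans (le_max_right _ _)).trans (le_max_right _ _)).trans hφ1
  have hX3 : x3 ≤ φ0 :=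
    (((le_max_right _ _).trans (le_max_right _ _)).trans (le_max_right _ _)).trans hφ1
  obtain ⟨f, hf⟩ : ∃ f, f = ⌈φ0⌉₊ := ⟨_, rfl⟩
  have hf1 : φ0 ≤ f := by rw [hf]; exact Nat.le_ceil φ0
  have hf2 : (f : ℝ) ≤ 2 * φ0 := by
    have := Nat.ceil_lt_add_one h0.le
    rw [← hf] at this
    linarith
  have hf3 : 2 ≤ f := by exact_mod_cast hx2'.trans hf1
  obtain ⟨L, hL⟩ : ∃ L, L = a * f ^ b := ⟨_, rfl⟩
  obtain ⟨n, hn⟩ : ∃ n, n = 2 * d * L := ⟨_, rfl⟩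
  have ha8 : 8 ≤ a := by omega
  have hfb : f ≤ f ^ b := Nat.le_self_pow (by omega) f
  have hfb1 : 1 ≤ f ^ b := Nat.one_le_pow _ _ (by omega)
  have hLf : a * f ≤ L := by rw [hL]; exact Nat.mul_le_mul_left _ hfb
  have hLa : a ≤ L := by rw [hL]; exact Nat.le_mul_of_pos_right _ hfb1
  have hL8 : 8 ≤ L := by omega
  have hLr : (8 : ℝ) ≤ L := by exact_mod_cast hL8
  have hLB : (L : ℝ) ≤ B * φ0 ^ b := by
    rw [hL, hB]
    push_cast
    rw [mul_assoc, ← mul_pow]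
    exact mul_le_mul_of_nonneg_left (pow_le_pow_left₀ (Nat.cast_nonneg _) hf2 _)
      (Nat.cast_nonneg _)
  have hφL : φ0 ≤ L := by
    have h1 : (f : ℝ) ≤ L := by
      have : f ≤ L := (Nat.le_mul_of_pos_left _ (by omega)).trans hLf
      exact_mod_cast this
    exact hf1.trans h1
  have hns : n * f ≤ L ^ 2 := by
    rw [hn, sq]
    calc 2 * d * L * f = (2 * d * f) * L := by ring
      _ ≤ L * L := by
        refine Nat.mul_le_mul_right _ (le_trans ?_ hLf)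
        exact Nat.mul_le_mul_right _ (by omega)
  have hLns : L ≤ n * f := by
    rw [hn]
    calc L = 1 * L := (one_mul L).symm
      _ ≤ (2 * d * f) * L := Nat.mul_le_mul_right _ (by
          have : 1 * 1 ≤ (2 * d) * f := Nat.mul_le_mul (by omega) (by omega)
          omega)
      _ = 2 * d * L * f := by ring
  refine ⟨L, n * f, ?_, ?_, hLns, hns, ?_⟩
  · have h1 : φ0 ^ C0 ≤ (f : ℝ) ^ b := by
      calc φ0 ^ C0 ≤ (f : ℝ) ^ C0 := pow_le_pow_left₀ h0.le hf1 _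
        _ ≤ (f : ℝ) ^ b := pow_le_pow_right₀ (by linarith) (by omega)
    rw [hL]
    push_cast
    exact mul_le_mul (by exact_mod_cast (by omega : C0 ≤ a)) h1 (pow_nonneg h0.le _)
      (Nat.cast_nonneg _)
  · omega
  intro δ q n' hT hn' hgK hM
  have hL2 : L ^ 2 ≤ L ^ 5 := Nat.pow_le_pow_right (by omega) (by norm_num)
  have hLL : L ≤ L ^ 2 := Nat.le_self_pow (by norm_num) L
  have hL8' : 8 * L ≤ L ^ 2 := by rw [sq]; exact Nat.mul_le_mul_right _ hL8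
  have hK3 : 1 + 2 ≤ q.K := by have := hT.1; omega
  have hM1 : 2 * L + 2 < q.M := by omega
  have hLpos : (0 : ℝ) < L := by linarith
  have hXpos : (0 : ℝ) < (L : ℝ) ^ Cp := pow_pos hLpos _
  have hX1' : (1 : ℝ) ≤ (L : ℝ) ^ Cp := one_le_pow₀ (by linarith)
  have hBpos : 0 < B := by
    rw [hB]
    have : (0 : ℝ) < a := by exact_mod_cast (by omega : 0 < a)
    positivity
  have hpw : ∀ j : ℕ, (L : ℝ) ^ j ≤ B ^ j * φ0 ^ (b * j) := by
    intro j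
    rw [pow_mul, ← mul_pow]
    exact pow_le_pow_left₀ hLpos.le hLB j
  have hcard : ((bl (d := d) q.M L).card : ℝ) ≤ 3 ^ d * (L : ℝ) ^ d := by
    have h1 : (bl (d := d) q.M L).card ≤ (2 * L + 1) ^ d := ZI.LO.card_Bt 0 L
    have h2 : ((bl (d := d) q.M L).card : ℝ) ≤ ((2 * L + 1 : ℕ) : ℝ) ^ d := by exact_mod_cast h1
    refine h2.trans ?_
    rw [← mul_pow]
    refine pow_le_pow_left₀ (Nat.cast_nonneg _) ?_ _
    push_cast
    linarith
  have hnr : (n : ℝ) = 2 * d * L := by rw [hn]; push_cast; ring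
  have hdr : (1 : ℝ) ≤ d := by exact_mod_cast hd
  -- low
  have hP1 : ∀ (φ : ℝ), φ0 / 2 ≤ φ → C1 * (bl (d := d) q.M L).card * ((n * f : ℕ) + 1) *
      Real.exp (-(c1 * φ)) ≤ 1 / (96 * (L : ℝ) ^ Cp) := by
    intro φ hφ
    refine le_of_mul hXpos (le_trans ?_ (hx1 φ0 hX1))
    have h1 : Real.exp (-(c1 * φ)) ≤ Real.exp (-(c1 / 2 * φ0)) := by
      apply Real.exp_le_exp.mpr
      nlinarith
    have h2 : (((n * f : ℕ) : ℝ) + 1) ≤ 8 * d * L * φ0 := by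
      push_cast
      rw [hnr]
      have h3 : (1 : ℝ) ≤ 4 * d * L * φ0 := by
        have h4 : (1 : ℝ) ≤ d * L := by nlinarith
        nlinarith
      have h5 : 2 * (d : ℝ) * L * f ≤ 2 * d * L * (2 * φ0) :=
        mul_le_mul_of_nonneg_left hf2 (by positivity)
      linarith
    calc C1 * (bl (d := d) q.M L).card * ((n * f : ℕ) + 1) * Real.exp (-(c1 * φ)) *
          (96 * (L : ℝ) ^ Cp)
        ≤ C1 * (3 ^ d * (L : ℝ) ^ d) * (8 * d * L * φ0) * Real.exp (-(c1 / 2 * φ0)) *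
          (96 * (L : ℝ) ^ Cp) := by
          gcongr
      _ = 96 * C1 * 3 ^ d * 8 * d * ((L : ℝ) ^ (Cp + d + 1)) * φ0 *
          Real.exp (-(c1 / 2 * φ0)) := by
          rw [pow_add, pow_add]; ring
      _ ≤ 96 * C1 * 3 ^ d * 8 * d * (B ^ (Cp + d + 1) * φ0 ^ (b * (Cp + d + 1))) * φ0 *
          Real.exp (-(c1 / 2 * φ0)) := by
          have := hpw (Cp + d + 1)
          gcongr
      _ = 96 * C1 * 3 ^ d * 8 * d * B ^ (Cp + d + 1) * φ0 ^ (b * (Cp + d + 1) + 1) *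
          Real.exp (-(c1 / 2 * φ0)) := by
          rw [pow_succ φ0]; ring
  -- ring
  have hP2 : 2 * d * (bl (d := d) q.M L).card * n * Real.exp (-(c2 * f)) ≤
      1 / (96 * (L : ℝ) ^ Cp) := by
    refine le_of_mul hXpos (le_trans ?_ (hx2 φ0 hX2))
    have h1 : Real.exp (-(c2 * f)) ≤ Real.exp (-(c2 * φ0)) := by
      apply Real.exp_le_exp.mpr
      nlinarith
    rw [hnr]
    calc 2 * d * (bl (d := d) q.M L).card * (2 * d * L) * Real.exp (-(c2 * f)) *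
          (96 * (L : ℝ) ^ Cp)
        ≤ 2 * d * (3 ^ d * (L : ℝ) ^ d) * (2 * d * L) * Real.exp (-(c2 * φ0)) *
          (96 * (L : ℝ) ^ Cp) := by
          gcongr
      _ = 96 * 4 * d ^ 2 * 3 ^ d * ((L : ℝ) ^ (Cp + d + 1)) * Real.exp (-(c2 * φ0)) := by
          rw [pow_add, pow_add]; ring
      _ ≤ 96 * 4 * d ^ 2 * 3 ^ d * (B ^ (Cp + d + 1) * φ0 ^ (b * (Cp + d + 1))) *
          Real.exp (-(c2 * φ0)) := by
          have := hpw (Cp + d + 1)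
          gcongr
      _ = 96 * 4 * d ^ 2 * 3 ^ d * B ^ (Cp + d + 1) * φ0 ^ (b * (Cp + d + 1)) *
          Real.exp (-(c2 * φ0)) := by ring
  -- local
  have hP3 : CL * (1 + φ0 / 2) * ((L : ℝ) + (L ^ 2 - L : ℕ) + 1) ^ CL *
      Real.exp (CL * (n * f : ℕ) - (L ^ 2 - L : ℕ)) ≤ 1 / (96 * (L : ℝ) ^ Cp) := by
    refine le_of_mul hXpos (le_trans ?_ (hx3 φ0 hX3))
    have h1 : (L : ℝ) + (L ^ 2 - L : ℕ) = (L : ℝ) ^ 2 := by
      rw [Nat.cast_sub hLL]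
      push_cast
      ring
    rw [h1]
    have h2 : (L : ℝ) ^ 2 + 1 ≤ 2 * (L : ℝ) ^ 2 := by nlinarith
    have h3 : CL * ((n * f : ℕ) : ℝ) ≤ (L : ℝ) ^ 2 / 4 := by
      have h4 : 4 * (CL * (n * f)) ≤ L ^ 2 := by
        rw [hn, sq]
        calc 4 * (CL * (2 * d * L * f)) = (8 * CL * d * f) * L := by ring
          _ ≤ L * L := by
            refine Nat.mul_le_mul_right _ (le_trans ?_ hLf)
            exact Nat.mul_le_mul_right _ (by omega)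
      have h5 : (4 : ℝ) * (CL * ((n * f : ℕ) : ℝ)) ≤ (L : ℝ) ^ 2 := by exact_mod_cast h4
      linarith
    have h4 : Real.exp (CL * (n * f : ℕ) - (L ^ 2 - L : ℕ)) ≤ Real.exp (-(1 * φ0)) := by
      apply Real.exp_le_exp.mpr
      have h5 : ((L ^ 2 - L : ℕ) : ℝ) = (L : ℝ) ^ 2 - L := by
        rw [Nat.cast_sub hLL]
        push_cast
        ring
      rw [h5]
      nlinarith
    have h6 : 1 + φ0 / 2 ≤ 2 * φ0 := by linarith
    calc CL * (1 + φ0 / 2) * ((L : ℝ) ^ 2 + 1) ^ CL *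
          Real.exp (CL * (n * f : ℕ) - (L ^ 2 - L : ℕ)) * (96 * (L : ℝ) ^ Cp)
        ≤ CL * (2 * φ0) * (2 * (L : ℝ) ^ 2) ^ CL * Real.exp (-(1 * φ0)) *
          (96 * (L : ℝ) ^ Cp) := by
          gcongr
      _ = 96 * CL * 2 * 2 ^ CL * ((L : ℝ) ^ (Cp + 2 * CL)) * φ0 * Real.exp (-(1 * φ0)) := by
          rw [mul_pow, ← pow_mul, pow_add]; ring
      _ ≤ 96 * CL * 2 * 2 ^ CL * (B ^ (Cp + 2 * CL) * φ0 ^ (b * (Cp + 2 * CL))) * φ0 *
          Real.exp (-(1 * φ0)) := by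
          have := hpw (Cp + 2 * CL)
          gcongr
      _ = 96 * CL * 2 * 2 ^ CL * B ^ (Cp + 2 * CL) * φ0 ^ (b * (Cp + 2 * CL) + 1) *
          Real.exp (-(1 * φ0)) := by
          rw [pow_succ φ0]; ring
  constructor
  · intro hφ hK
    refine (opn_un (q.wf (φ0 / 2) hφ hK) hd L f n (by omega) (by omega) hM1).trans ?_
    have h1 := hlow (φ0 / 2) hφ (by linarith) δ (q.wf (φ0 / 2) hφ hK) hK3 (bl q.M L) (n * f)
    have h2 := hring (φ0 / 2) hφ δ (q.wf (φ0 / 2) hφ hK) (bl q.M L) f n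
    have h3 := hCL (φ0 / 2) hφ (q.wf (φ0 / 2) hφ hK).toZI 0 L (L ^ 2 - L) (n * f)
      (by show 2 * (L + (L ^ 2 - L)) + 4 ≤ q.M; omega)
    have h4 : L + (L ^ 2 - L) = L ^ 2 := by omega
    rw [h4] at h3
    have h5 : ENNReal.ofReal (1 / (96 * (L : ℝ) ^ Cp)) + ENNReal.ofReal (1 / (96 * (L : ℝ) ^ Cp)) +
        ENNReal.ofReal (1 / (96 * (L : ℝ) ^ Cp)) ≤ ENNReal.ofReal (1 / (L : ℝ) ^ Cp) := by
      rw [← ENNReal.ofReal_add (by positivity) (by positivity),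
        ← ENNReal.ofReal_add (by positivity) (by positivity)]
      refine ENNReal.ofReal_le_ofReal ?_
      have h6 : 1 / (96 * (L : ℝ) ^ Cp) = 1 / 96 * (1 / (L : ℝ) ^ Cp) := by
        field_simp
      rw [h6]
      have h7 : 0 ≤ 1 / (L : ℝ) ^ Cp := by positivity
      linarith
    refine le_trans (add_le_add (add_le_add (h1.trans ?_) (h2.trans ?_)) (h3.trans ?_)) h5
    · exact ENNReal.ofReal_le_ofReal (hP1 _ le_rfl)
    · exact ENNReal.ofReal_le_ofReal hP2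
    · exact ENNReal.ofReal_le_ofReal hP3
  · refine (fopn_un q L f n (by omega) (by omega) hM1).trans ?_
    have h1 := hlow φ0 h0 (by linarith) δ q hK3 (bl q.M L) (n * f)
    have h2 := hring φ0 h0 δ q (bl q.M L) f n
    have h5 : ENNReal.ofReal (1 / (96 * (L : ℝ) ^ Cp)) + ENNReal.ofReal (1 / (96 * (L : ℝ) ^ Cp)) ≤
        ENNReal.ofReal (1 / 32) := by
      rw [← ENNReal.ofReal_add (by positivity) (by positivity)]
      refine ENNReal.ofReal_le_ofReal ?_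
      have h6 : 1 / (96 * (L : ℝ) ^ Cp) ≤ 1 / 96 := by
        apply one_div_le_one_div_of_le (by norm_num)
        linarith
      linarith
    refine le_trans (add_le_add (h1.trans ?_) (h2.trans ?_)) h5
    · exact ENNReal.ofReal_le_ofReal (hP1 _ (by linarith))
    · exact ENNReal.ofReal_le_ofReal hP2

end ZP.Rows
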