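import Pool.Agent.ZP.Core

/-! # Row SPR: spreading inside a box in which every site has at least two particles (deterministic) -/

set_option autoImplicit false

open scoped ENNReal BigOperators Classical Pointwise

noncomputable section

namespace ZP.Rows

open ZP

variable {d : ℕ}

namespace SPR

theorem tv_add' {M : ℕ} (a b : Pos d) : (tv (a + b) : Tor d M) = tv a + tv b := by
  funext j
  simp [ZI.tv]

theorem take_succ_foldl {M K : ℕ} {β : Type} (f : β → Let d M K → β) (b : β)
    (w : List (Let d M K)) (i : ℕ) (hi : i < w.length) :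
    (w.take (i + 1)).foldl f b = f ((w.take i).foldl f b) (w.getD i none) := by
  rw [List.take_succ_eq_append_getElem hi, List.foldl_append]
  simp [List.getD_eq_getElem?_getD, hi]

/-- the state after `i` letters -/
def sta {M K : ℕ} (G : Set (Pos d)) (η : Tor d M → ℕ) (x : Pos d) (w : List (Let d M (K + 1)))
    (i : ℕ) : (Tor d M → ℕ) × Set (Pos d) := (w.take i).foldl (stepI G) (η, {x})

theorem stepI_fst {M K : ℕ} (G : Set (Pos d)) (s : (Tor d M → ℕ) × Set (Pos d)) (a : Let d M K) :
    (stepI G s a).1 = stepA s.1 a := by
  unfold stepI stepA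
  rcases h : toLab a with _ | l
  · rfl
  · rfl

theorem sta_fst {M K : ℕ} (G : Set (Pos d)) (η : Tor d M → ℕ) (x : Pos d)
    (w : List (Let d M (K + 1))) (i : ℕ) : (sta G η x w i).1 = stt η w i := by
  unfold sta stt
  generalize w.take i = v
  have : ∀ (v : List (Let d M (K + 1))) (s : (Tor d M → ℕ) × Set (Pos d)),
      (v.foldl (stepI G) s).1 = v.foldl stepA s.1 := by
    intro v
    induction v with
    | nil => intro s; rfl
    | cons a v ih =>
      intro s
      rw [List.foldl_cons, List.foldl_cons, ih, stepI_fst]
  exact this v (η, {x})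

/-- an infected position with at least two particles stays infected -/
theorem stay {M K : ℕ} (G : Set (Pos d)) (s : (Tor d M → ℕ) × Set (Pos d)) (a : Let d M (K + 1))
    (z : Pos d) (hz : z ∈ s.2) (hzG : z ∈ G) (h2 : 2 ≤ s.1 (tv z)) : z ∈ (stepI G s a).2 := by
  unfold stepI
  rcases h : toLab a with _ | l
  · exact hz
  · obtain ⟨v, k, e⟩ := l
    refine ⟨?_, hzG⟩
    unfold infMv
    rcases k with _ | k
    · refine ⟨hz, ?_⟩
      intro hv
      have hv' : tv z = v := hv
      show 2 ≤ s.1 v
      rw [← hv']
      exact h2
    · show z ∈ ZI.infMv nbT tv s.1 s.2 (v, k, e)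
      unfold ZI.infMv
      split_ifs with hk
      · left
        refine ⟨hz, ?_⟩
        intro hv
        have hv' : tv z = v := hv
        show 2 ≤ s.1 v
        rw [← hv']
        exact h2
      · exact hz

/-- an infected position infects its neighbour when the label of level `0` rings -/
theorem jump {M K : ℕ} (hK : 2 ≤ K) (G : Set (Pos d)) (s : (Tor d M → ℕ) × Set (Pos d))
    (z : Pos d) (e : Dir d) (hz : z ∈ s.2) (hzG : z + dv e ∈ G) (h2 : 2 ≤ s.1 (tv z)) :
    z + dv e ∈ (stepI G s (some (tv z, (⟨1, by omega⟩ : Fin (K + 1)), e))).2 := by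
  have hl : toLab (some (tv z, (⟨1, by omega⟩ : Fin (K + 1)), e) : Let d M (K + 1)) =
      some (tv z, 1, e) := rfl
  unfold stepI
  rw [hl]
  refine ⟨?_, hzG⟩
  show z + dv e ∈ ZI.infMv nbT tv s.1 s.2 (tv z, 0, e)
  unfold ZI.infMv
  have h0 : (0 : ℕ) < s.1 (tv z) := by omega
  rw [if_pos h0]
  right
  refine ⟨?_, ?_, ?_⟩
  · simpa using hz
  · simp
  · show nbT (tv z) e = some (tv (z + dv e))
    rw [tv_add']
    rfl

theorem supn_le {z : Pos d} {ρ : ℕ} : supn z ≤ ρ ↔ ∀ j, (z j).natAbs ≤ ρ := by
  unfold ZI.supn
  simp [Finset.sup_le_iff]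

end SPR

/-- SPR: the spreading (deterministic). -/
theorem spread {M K : ℕ} (N1 : ℕ) (hK : 2 ≤ K) (ρ s n : ℕ) (hM : 2 * ρ + 2 < M) (η : Tor d M → ℕ)
    (w : List (Let d M (K + 1))) (G : Set (Pos d)) (hG : ∀ z : Pos d, supn z ≤ ρ → z ∈ G)
    (h2 : ∀ i ≤ w.length, ∀ z : Pos d, supn z ≤ ρ → 2 ≤ stt η w i (tv z))
    (hr : ∀ j < n, ∀ z : Pos d, supn z ≤ ρ → ∀ e : Dir d, ∃ i, j * s * N1 ≤ i ∧ i < (j + 1) * s * N1 ∧
      w.getD i none = some (tv z, ⟨1, by omega⟩, e))
    (hw : n * s * N1 ≤ w.length) (x y : Pos d) (hx : supn x ≤ ρ) (hy : supn y ≤ ρ)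
    (hxy : l1 (y - x) ≤ n) :
    y ∈ (w.foldl (stepI G) (η, {x})).2 := by
  have hmono : ∀ z : Pos d, supn z ≤ ρ → ∀ i k : ℕ, i + k ≤ w.length →
      z ∈ (SPR.sta G η x w i).2 → z ∈ (SPR.sta G η x w (i + k)).2 := by
    intro z hz i k
    induction k with
    | zero => intro _ h; exact h
    | succ k ih =>
      intro hk h
      have h1 := ih (by omega) h
      have e : SPR.sta G η x w (i + (k + 1)) =
          stepI G (SPR.sta G η x w (i + k)) (w.getD (i + k) none) :=
        SPR.take_succ_foldl (stepI G) (η, {x}) w (i + k) (by omega)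
      rw [e]
      refine SPR.stay G _ _ z h1 (hG z hz) ?_
      rw [SPR.sta_fst]
      exact h2 _ (by omega) z hz
  have key : ∀ j ≤ n, ∀ z : Pos d, supn z ≤ ρ → l1 (z - x) ≤ j → ∀ i, j * s * N1 ≤ i →
      i ≤ w.length → z ∈ (SPR.sta G η x w i).2 := by
    intro j
    induction j with
    | zero =>
      intro _ z hz hl i _ hi
      have hzx : z = x := by
        funext t
        have h3 : ((z - x) t).natAbs ≤ l1 (z - x) :=
          Finset.single_le_sum (f := fun t => ((z - x) t).natAbs) (fun _ _ => Nat.zero_le _)
            (Finset.mem_univ t)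
        have h4 : ((z - x) t).natAbs = 0 := by omega
        have h5 : z t - x t = 0 := by simpa using h4
        omega
      have h0 : z ∈ (SPR.sta G η x w 0).2 := by
        rw [hzx]
        exact Set.mem_singleton x
      simpa using hmono z hz 0 i (by omega) h0
    | succ j ih =>
      intro hj z hz hl i hi hiw
      have hjs : j * s * N1 ≤ (j + 1) * s * N1 :=
        Nat.mul_le_mul_right _ (Nat.mul_le_mul_right _ (Nat.le_succ j))
      by_cases hlj : l1 (z - x) ≤ j
      · exact ih (by omega) z hz hlj i (by omega) hiw
      · -- a coordinate in which `z` and `x` differ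
        have hne : ∃ t, z t ≠ x t := by
          by_contra hcon
          push Not at hcon
          apply hlj
          have : z - x = 0 := by
            funext t
            simp [hcon t]
          rw [this]
          simp [ZP.l1]
        obtain ⟨t, ht⟩ := hne
        -- the direction
        set b : Bool := decide (x t < z t) with hb
        set e : Dir d := (t, b) with he
        have hdv : dv e t = if b then 1 else -1 := by
          simp [ZI.dv, he]
        have hdv' : ∀ u, u ≠ t → dv e u = 0 := by
          intro u hu
          simp [ZI.dv, he, Pi.single_eq_of_ne hu]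
        set z' : Pos d := z - dv e with hz'
        have hz't : z' t = z t - (if b then 1 else -1) := by
          rw [hz', Pi.sub_apply, hdv]
        have hz'u : ∀ u, u ≠ t → z' u = z u := by
          intro u hu
          rw [hz', Pi.sub_apply, hdv' u hu, sub_zero]
        have hxt := (SPR.supn_le.1 hx) t
        have hzt := (SPR.supn_le.1 hz) t
        have hbt : (b = true ∧ x t < z t) ∨ (b = false ∧ z t < x t) := by
          rcases lt_or_gt_of_ne ht with h | h
          · right
            exact ⟨by simp [hb]; omega, h⟩
          · left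
            exact ⟨by simp [hb]; omega, h⟩
        have hsup : supn z' ≤ ρ := by
          rw [SPR.supn_le]
          intro u
          by_cases hu : u = t
          · subst hu
            rw [hz't]
            rcases hbt with ⟨hb1, hb2⟩ | ⟨hb1, hb2⟩
            · rw [hb1]
              simp only [if_true]
              omega
            · rw [hb1]
              simp only [Bool.false_eq_true, if_false]
              omega
          · rw [hz'u u hu]
            exact (SPR.supn_le.1 hz) u
        have hl1 : l1 (z' - x) + 1 = l1 (z - x) := by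
          unfold ZP.l1
          rw [← Finset.add_sum_erase _ _ (Finset.mem_univ t),
            ← Finset.add_sum_erase _ (fun j => ((z - x) j).natAbs) (Finset.mem_univ t)]
          have e1 : ∑ j ∈ Finset.univ.erase t, ((z' - x) j).natAbs =
              ∑ j ∈ Finset.univ.erase t, ((z - x) j).natAbs := by
            refine Finset.sum_congr rfl ?_
            intro u hu
            have hu' : u ≠ t := Finset.ne_of_mem_erase hu
            simp only [Pi.sub_apply]
            rw [hz'u u hu']
          rw [e1]
          simp only [Pi.sub_apply]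
          rw [hz't]
          rcases hbt with ⟨hb1, hb2⟩ | ⟨hb1, hb2⟩
          · rw [hb1]
            simp only [if_true]
            omega
          · rw [hb1]
            simp only [Bool.false_eq_true, if_false]
            omega
        obtain ⟨i0, hi1, hi2, hi3⟩ := hr j (by omega) z' hsup e
        have hn1 : (j + 1) * s * N1 ≤ n * s * N1 :=
          Nat.mul_le_mul_right _ (Nat.mul_le_mul_right _ hj)
        have hz'm := ih (by omega) z' hsup (by omega) i0 hi1 (by omega)
        have hstep : z ∈ (SPR.sta G η x w (i0 + 1)).2 := by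
          have e2 : SPR.sta G η x w (i0 + 1) =
              stepI G (SPR.sta G η x w i0) (w.getD i0 none) :=
            SPR.take_succ_foldl (stepI G) (η, {x}) w i0 (by omega)
          rw [e2, hi3]
          have hzz : z = z' + dv e := by rw [hz']; abel
          have h3 := SPR.jump hK G (SPR.sta G η x w i0) z' e hz'm (by rw [← hzz]; exact hG z hz)
            (by rw [SPR.sta_fst]; exact h2 _ (by omega) z' hsup)
          rw [← hzz] at h3
          exact h3
        obtain ⟨k, rfl⟩ := Nat.exists_eq_add_of_le (show i0 + 1 ≤ i by omega)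
        exact hmono z hz (i0 + 1) k hiw hstep
  have hfin := key n le_rfl y hy hxy w.length hw le_rfl
  unfold SPR.sta at hfin
  rwa [List.take_length] at hfin

end ZP.Rows
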