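import Pool.Agent.ZP.Core
import Pool.Agent.ZP.SF2
import Pool.Agent.ZP.PJ
import Pool.Agent.ZP.BE
import Pool.Agent.ZP.LO
import Pool.Agent.ZP.LU
import Pool.Agent.ZP.LOW
import Pool.Agent.ZP.RNG
import Pool.Agent.ZP.SPR

/-! # Row BB: the base for large fugacities, deterministic part and union bound -/

set_option autoImplicit false

open scoped ENNReal BigOperators Classical Pointwise

noncomputable section

namespace ZP.BB

open ZP ZP.Rows ZP.BE

variable {d : ℕ}

theorem cell0_supn {L : ℕ} {x : Pos d} (h : x ∈ cell (d := d) L 0) : supn x ≤ L := by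
  refine supn_le fun j => ?_
  obtain ⟨h1, h2⟩ := h j
  simp only [Pi.zero_apply, mul_zero, zero_add] at h1 h2
  omega

theorem corner {L : ℕ} (hL : 1 ≤ L) (z' : Pos d) (hz : l1 z' ≤ 1) :
    sm L z' ∈ cell L z' ∧ supn (sm L z') ≤ L := by
  refine ⟨fun j => ⟨le_rfl, ?_⟩, supn_le fun j => ?_⟩
  · show (L : ℤ) * z' j < L * z' j + L
    omega
  · have h4 : (z' j).natAbs ≤ 1 := by
      refine le_trans ?_ hz
      unfold l1
      exact Finset.single_le_sum (f := fun j => (z' j).natAbs) (fun _ _ => Nat.zero_le _)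
        (Finset.mem_univ j)
    show ((L : ℤ) * z' j).natAbs ≤ L
    rw [Int.natAbs_mul, Int.natAbs_natCast]
    nlinarith

theorem l1_sub_le {L : ℕ} {x y : Pos d} (hx : supn x ≤ L) (hy : supn y ≤ L) :
    l1 (y - x) ≤ 2 * d * L := by
  unfold l1
  calc ∑ j, ((y - x) j).natAbs ≤ ∑ _j : Fin d, 2 * L := by
        refine Finset.sum_le_sum fun j _ => ?_
        have h1 := (le_supn x j).trans hx
        have h2 := (le_supn y j).trans hy
        show (y j - x j).natAbs ≤ 2 * L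
        omega
    _ = 2 * d * L := by
        rw [Finset.sum_const, Finset.card_univ, Fintype.card_fin, smul_eq_mul]
        ring

/-- all labels `(v, 1, e)` of the ball ring in every window -/
def Ring {M K : ℕ} (N1 L s n : ℕ) (hK : 2 ≤ K) (w : List (Let d M (K + 1))) : Prop :=
  ∀ j < n, ∀ v ∈ Bt (0 : Tor d M) L, ∀ e : Dir d, ∃ i, j * s * N1 ≤ i ∧ i < (j + 1) * s * N1 ∧
    w.getD i none = some (v, ⟨1, by omega⟩, e)

section det

variable {M K : ℕ} (N1 L s n : ℕ) (hK : 2 ≤ K) (η : Tor d M → ℕ) (w : List (Let d M (K + 1)))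

/-- the meeting cell -/
theorem fopn_det (hL : 1 ≤ L) (hn : 2 * d * L ≤ n) (hM : 2 * L + 2 < M)
    (hw : w.length = n * s * N1) (h2 : ∀ i ≤ n * s * N1, ∀ v ∈ Bt (0 : Tor d M) L, 2 ≤ stt η w i v)
    (hr : Ring N1 L s n hK w) : FOpn N1 L (n * s) η w := by
  intro x hx _ b hb _
  have hwt : w.take (n * s * N1) = w := by rw [← hw, List.take_length]
  unfold rin
  rw [hwt]
  refine spread N1 hK L s n hM η w {z | supn z ≤ L ^ 2} ?_ ?_ ?_ hw.ge x b (cell0_supn hx)
    (cell0_supn hb) ((l1_sub_le (cell0_supn hx) (cell0_supn hb)).trans hn)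
  · intro z hz
    exact hz.trans (Nat.le_self_pow (by norm_num) L)
  · intro i hi z hz
    exact h2 i (by omega) _ (tv_mem_Bt hz)
  · intro j hj z hz e
    exact hr j hj _ (tv_mem_Bt hz) e

theorem res_getD (Λ : Set (Tor d M)) (i : ℕ) (v : Tor d M) (hv : v ∈ Λ) (k : Fin (K + 1)) (e : Dir d)
    (h : w.getD i none = some (v, k, e)) : (w.map (res Λ)).getD i none = some (v, k, e) := by
  have h1 : (w.map (res Λ)).getD i none = res Λ (w.getD i none) := by
    rw [List.getD_eq_getElem?_getD, List.getD_eq_getElem?_getD, List.getElem?_map]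
    cases w[i]? with
    | none => rfl
    | some a => rfl
  rw [h1, h, res_some, if_pos hv]

/-- the level `0` event -/
theorem opn_det (hL : 1 ≤ L) (hn : 2 * d * L ≤ n) (hM : 2 * L + 2 < M)
    (hw : w.length = n * s * N1) (h2 : ∀ i ≤ n * s * N1, ∀ v ∈ Bt (0 : Tor d M) L,
      2 ≤ ((w.map (res (Bt 0 (L ^ 2)))).take i).foldl stepA (cut (Bt 0 (L ^ 2)) η) v)
    (hr : Ring N1 L s n hK w) : Opn N1 L (n * s) η w := by
  have hLL : L ≤ L ^ 2 := Nat.le_self_pow (by norm_num) L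
  have hwt : w.take (n * s * N1) = w := by rw [← hw, List.take_length]
  have hmem : ∀ z : Pos d, supn z ≤ L → (tv z : Tor d M) ∈ Bt 0 (L ^ 2) :=
    fun z hz => tv_mem_Bt (hz.trans hLL)
  have hcut : ∀ z : Pos d, supn z ≤ L → 2 ≤ cut (Bt 0 (L ^ 2)) η (tv z) := by
    intro z hz
    have := h2 0 (Nat.zero_le _) _ (tv_mem_Bt hz)
    rwa [List.take_zero, List.foldl_nil] at this
  have hη : ∀ z : Pos d, supn z ≤ L → 2 ≤ η (tv z) := by
    intro z hz
    have := hcut z hz
    unfold cut at this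
    rwa [if_pos (hmem z hz)] at this
  have hkey : ∀ x y : Pos d, supn x ≤ L → supn y ≤ L →
      y ∈ lin (Bt 0 (L ^ 2)) η x (w.take (n * s * N1)) := by
    intro x y hx hy
    have hocc : occ1 (cut (Bt 0 (L ^ 2)) η) (tv x) = cut (Bt 0 (L ^ 2)) η := by
      unfold occ1
      have h3 := hcut x hx
      rw [max_eq_right (by omega), Function.update_eq_self]
    unfold lin
    rw [hwt, hocc]
    refine spread N1 hK L s n hM _ (w.map (res (Bt 0 (L ^ 2)))) Set.univ (fun _ _ => Set.mem_univ _)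
      ?_ ?_ (by rw [List.length_map]; exact hw.ge) x y hx hy ((l1_sub_le hx hy).trans hn)
    · intro i hi z hz
      rw [List.length_map, hw] at hi
      exact h2 i hi _ (tv_mem_Bt hz)
    · intro j hj z hz e
      obtain ⟨i, hi1, hi2, hi3⟩ := hr j hj _ (tv_mem_Bt hz) e
      exact ⟨i, hi1, hi2, res_getD w _ i _ (hmem z hz) _ e hi3⟩
  refine ⟨⟨0, ?_, ?_⟩, ?_, ?_⟩
  · intro j
    simp only [Pi.zero_apply, mul_zero, zero_add]
    omega
  · have := hη 0 (supn_le fun j => by simp)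
    omega
  · intro x hx z' hz'
    obtain ⟨h3, h4⟩ := corner hL z' hz'
    exact ⟨sm L z', h3, hkey x _ (cell0_supn hx) h4⟩
  · intro x hx b hb
    exact ⟨n * s * N1, le_rfl, hkey x b (cell0_supn hx) (cell0_supn hb)⟩

end det

/-! ### union bounds -/

section prob

variable {m : Model} {δ : ℝ} (q : Par d m δ)

/-- the ball as a finite set -/
def bl (M L : ℕ) [NeZero M] : Finset (Tor d M) := Finset.univ.filter (fun v => v ∈ Bt (0 : Tor d M) L)

theorem stt_prj {M K : ℕ} (η : Tor d M → ℕ) (w : List (Let d M (K + 1))) :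
    w.foldl stepA η = (w.map prj).foldl ZI.stepA η := by
  induction w generalizing η with
  | nil => rfl
  | cons a w ih => rw [List.map_cons, List.foldl_cons, List.foldl_cons, ih, stepA_prj]

theorem fopn_un (L s n : ℕ) (hL : 1 ≤ L) (hn : 2 * d * L ≤ n)
    (hM : 2 * L + 2 < q.M) :
    q.PP (n * s * q.N1) (fun η w => ¬ FOpn q.N1 L (n * s) η w) ≤
      q.PP (n * s * q.N1) (fun η w => ∃ i ≤ n * s * q.N1, ∃ v ∈ bl q.M L, stt η w i v ≤ 1) +
      q.PP (n * s * q.N1) (fun η w => ∃ j < n, ∃ v ∈ bl q.M L, ∃ e : Dir d,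
      ¬ ∃ i, j * s * q.N1 ≤ i ∧ i < (j + 1) * s * q.N1 ∧
        w.getD i none = some (v, ⟨1, by have := q.K_ge; omega⟩, e)) := by
  refine le_trans (PP_mono q _ ?_) (PP_or q _ _ _)
  intro η w hw h
  by_contra hcon
  rw [not_or] at hcon
  obtain ⟨h1, h2⟩ := hcon
  push Not at h1 h2
  refine h (fopn_det q.N1 L s n q.K_ge η w hL hn hM hw ?_ ?_)
  · intro i hi v hv
    have := h1 i hi v (Finset.mem_filter.2 ⟨Finset.mem_univ _, hv⟩)
    omega
  · intro j hj v hv e
    exact h2 j hj v (Finset.mem_filter.2 ⟨Finset.mem_univ _, hv⟩) e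

/-- the restricted system without recovery disagrees with the full one in the ball -/
def Dis {M K : ℕ} (L N : ℕ) (η : Tor d M → ℕ) (w : List (Let d M K)) : Prop :=
  ∃ i ≤ N, ∃ v ∈ Bt (0 : Tor d M) L, (w.take i).foldl ZI.stepA η v ≠
    ((w.map (res (Bt 0 (L ^ 2)))).take i).foldl ZI.stepA (cut (Bt 0 (L ^ 2)) η) v

theorem opn_un (hd : 0 < d) (L s n : ℕ) (hL : 1 ≤ L) (hn : 2 * d * L ≤ n)
    (hM : 2 * L + 2 < q.M) :
    q.PP (n * s * q.N1) (fun η w => ¬ Opn q.N1 L (n * s) η w) ≤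
      q.PP (n * s * q.N1) (fun η w => ∃ i ≤ n * s * q.N1, ∃ v ∈ bl q.M L, stt η w i v ≤ 1) +
      q.PP (n * s * q.N1) (fun η w => ∃ j < n, ∃ v ∈ bl q.M L, ∃ e : Dir d,
      ¬ ∃ i, j * s * q.N1 ≤ i ∧ i < (j + 1) * s * q.N1 ∧
        w.getD i none = some (v, ⟨1, by have := q.K_ge; omega⟩, e)) +
      q.toZI.PP (n * s * q.N1) (Dis L (n * s * q.N1)) := by
  have h0 := PP_prj q hd (n * s * q.N1) (Dis L (n * s * q.N1))
  refine le_trans ?_ (add_le_add le_rfl (le_of_eq h0))
  refine le_trans (PP_mono q _ ?_) (le_trans (PP_or q _ _ _) (add_le_add (PP_or q _ _ _) le_rfl))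
  intro η w hw h
  by_contra hcon
  rw [not_or, not_or] at hcon
  obtain ⟨⟨h1, h2⟩, h3⟩ := hcon
  unfold Dis at h3
  push Not at h1 h2 h3
  refine h (opn_det q.N1 L s n q.K_ge η w hL hn hM hw ?_ ?_)
  · intro i hi v hv
    have h4 := h1 i hi v (Finset.mem_filter.2 ⟨Finset.mem_univ _, hv⟩)
    have h5 := h3 i hi v hv
    unfold stt at h4
    rw [stt_prj] at h4 ⊢
    rw [List.map_take] at h4 ⊢
    have h6 : (w.map (res (Bt 0 (L ^ 2)))).map prj = (w.map prj).map (res (Bt 0 (L ^ 2))) := by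
      rw [List.map_map, List.map_map]
      refine List.map_congr_left fun a _ => ?_
      exact (res_prj a).symm
    rw [h6, ← h5]
    omega
  · intro j hj v hv e
    exact h2 j hj v (Finset.mem_filter.2 ⟨Finset.mem_univ _, hv⟩) e

end prob

end ZP.BB
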