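import Pool.Agent.ZP.SF1
import Pool.Agent.ZP.Core

/-! # Row BKb, first part: scales, level data, bad blocks and hubs of shifted words (deterministic) -/

set_option autoImplicit false

open scoped ENNReal BigOperators Classical

noncomputable section

namespace ZP.BK

open ZP

variable {d : ℕ}

/-! ### scales -/

theorem L_le_S (A : Prm) (hL : 1 ≤ A.L) (hγ : 1 ≤ A.γ) (k : ℕ) : A.L ≤ A.S k := by
  unfold Prm.S
  calc A.L = A.L ^ 1 := (pow_one _).symm
    _ ≤ A.L ^ A.γ ^ k := Nat.pow_le_pow_right hL (Nat.one_le_pow _ _ hγ)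

theorem S_pos (A : Prm) (hL : 1 ≤ A.L) (k : ℕ) : 1 ≤ A.S k := Nat.one_le_pow _ _ hL

theorem S_succ (A : Prm) (hγ : 1 ≤ A.γ) (k : ℕ) : A.S (k + 1) = A.n k * A.S k := by
  have h : A.γ = (A.γ - 1) + 1 := by omega
  calc A.S (k + 1) = A.S k ^ A.γ := by
        unfold Prm.S
        rw [pow_succ, ← pow_mul]
    _ = A.S k ^ (A.γ - 1 + 1) := by rw [← h]
    _ = A.n k * A.S k := by rw [pow_succ]; rfl

theorem S_eq (A : Prm) (hγ : 1 ≤ A.γ) (k : ℕ) : A.S k = A.L * A.nx k := by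
  induction k with
  | zero => simp [Prm.S, Prm.nx]
  | succ k ih => rw [S_succ A hγ, ih, Prm.nx]; ring

theorem n_pos (A : Prm) (hL : 1 ≤ A.L) (k : ℕ) : 1 ≤ A.n k := Nat.one_le_pow _ _ (S_pos A hL k)

theorem nx_pos (A : Prm) (hL : 1 ≤ A.L) (k : ℕ) : 1 ≤ A.nx k := by
  induction k with
  | zero => simp [Prm.nx]
  | succ k ih => rw [Prm.nx]; exact Nat.mul_pos (n_pos A hL k) ih

theorem nt_ge (A : Prm) (hL : 1 ≤ A.L) (k : ℕ) : 8 ≤ A.nt d k := by
  unfold Prm.nt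
  have := n_pos A hL k
  nlinarith

theorem ix_pos (A : Prm) (hL : 1 ≤ A.L) (k : ℕ) : 1 ≤ A.ix d k := by
  induction k with
  | zero => simp [Prm.ix]
  | succ k ih =>
    rw [Prm.ix]
    have := nt_ge (d := d) A hL k
    exact Nat.mul_pos (by omega) ih

theorem ix_dvd (A : Prm) (l k : ℕ) (h : l ≤ k) : A.ix d l ∣ A.ix d k := by
  induction h with
  | refl => exact dvd_refl _
  | step _ ih => rw [Prm.ix]; exact Dvd.dvd.mul_left ih _

theorem ix_div_succ (A : Prm) (hL : 1 ≤ A.L) (l k : ℕ) (h : l < k) :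
    A.ix d k / A.ix d l = A.nt d l * (A.ix d k / A.ix d (l + 1)) := by
  have h1 := ix_pos (d := d) A hL l
  have h3 := nt_ge (d := d) A hL l
  obtain ⟨c, hc⟩ := ix_dvd (d := d) A (l + 1) k h
  have h2 : A.ix d (l + 1) = A.nt d l * A.ix d l := rfl
  rw [hc, Nat.mul_div_cancel_left _ (ix_pos (d := d) A hL (l + 1)), h2,
    show A.nt d l * A.ix d l * c = A.ix d l * (A.nt d l * c) by ring,
    Nat.mul_div_cancel_left _ h1]

theorem ix_div_pos (A : Prm) (hL : 1 ≤ A.L) (l k : ℕ) (h : l ≤ k) : 1 ≤ A.ix d k / A.ix d l :=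
  (Nat.one_le_div_iff (ix_pos A hL l)).2 (Nat.le_of_dvd (ix_pos A hL k) (ix_dvd A l k h))

theorem ix_div_T (A : Prm) (l k : ℕ) (h : l ≤ k) :
    A.ix d k / A.ix d l * A.T d l = A.T d k := by
  unfold Prm.T
  rw [← mul_assoc, Nat.div_mul_cancel (ix_dvd A l k h)]

theorem T_succ (A : Prm) (k : ℕ) : A.T d (k + 1) = A.nt d k * A.T d k := by
  unfold Prm.T
  rw [Prm.ix]; ring

theorem T_mono (A : Prm) (hL : 1 ≤ A.L) (l k : ℕ) (h : l ≤ k) : A.T d l ≤ A.T d k := by
  rw [← ix_div_T A l k h]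
  exact Nat.le_mul_of_pos_left _ (ix_div_pos A hL l k h)

theorem S_mono (A : Prm) (hL : 1 ≤ A.L) (hγ : 1 ≤ A.γ) (l k : ℕ) (h : l ≤ k) : A.S l ≤ A.S k :=
  Nat.pow_le_pow_right hL (Nat.pow_le_pow_right hγ h)

/-! ### shifts of recursive events -/

theorem sft_RecE {M K : ℕ} (N1 : ℕ) (A : Prm) (k : ℕ) (X : Ev d M K) (x : Pos d) (t : ℕ)
    (η : Tor d M → ℕ) (w : List (Let d M (K + 1))) :
    sft N1 x t (RecE N1 A k X) η w ↔ ∃ f : Fin (A.S k + 1) → Blk d,
      (∀ i, supn (f i).1 ≤ 4 * A.n k ∧ (f i).2 < 4 * A.nt d k) ∧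
      (∀ i j, i ≠ j → A.a k < bd (f i) (f j)) ∧
      ∀ i, sft N1 (x + sm (A.S k) (f i).1) (t + (A.nt d k - 2 + (f i).2) * A.T d k) X η w := by
  constructor
  · rintro ⟨f, h1, h2, h3⟩
    refine ⟨f, h1, h2, fun i => ?_⟩
    rw [← Rows.sft_sft]
    exact h3 i
  · rintro ⟨f, h1, h2, h3⟩
    refine ⟨f, h1, h2, fun i => ?_⟩
    have := h3 i
    rw [← Rows.sft_sft] at this
    exact this

theorem supn_le_iff (v : Pos d) (n : ℕ) : supn v ≤ n ↔ ∀ j, (v j).natAbs ≤ n := by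
  simp [supn, ZI.supn]

theorem tv_add {M : ℕ} (x y : Pos d) : (tv (x + y) : Tor d M) = tv x + tv y := by
  funext j
  simp [ZI.tv]

theorem tv_zero {M : ℕ} : (tv (0 : Pos d) : Tor d M) = 0 := by
  funext j
  simp [ZI.tv]

theorem bd_comm_shift (v w v' w' : Blk d) (h1 : v.1 - w.1 = v'.1 - w'.1)
    (h2 : (v.2 : ℤ) - w.2 = (v'.2 : ℤ) - w'.2) : bd v w = bd v' w' := by
  unfold bd
  rw [h1, h2]

/-- the recursive event contains the event of the hub theory -/
theorem rec_of_many {M K : ℕ} (N1 : ℕ) (A : Prm) (hL : 1 ≤ A.L) (hγ : 1 ≤ A.γ) (k : ℕ)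
    (X : Ev d M K) (η : Tor d M → ℕ) (w : List (Let d M (K + 1))) (a : ℕ)
    (B : Blk d → Prop) (hB : ∀ v, B v ↔ v.2 < 2 ∨ sft N1 (sm (A.S k) v.1) (a + (v.2 - 2) * A.T d k) X η w)
    (v : Blk d) (hv : 2 ≤ v.2)
    (h : Many (A.S k) (A.a k) (Rg (A.n k) (8 * d + 8) v) B) :
    sft N1 (sm (A.S (k + 1)) v.1) (a + (v.2 - 2) * A.T d (k + 1)) (RecE N1 A k X) η w := by
  obtain ⟨F, hF, h1, h2⟩ := h
  rw [sft_RecE]
  have e : Fin (A.S k + 1) ≃ F := (Fin.castOrderIso hF.symm).toEquiv.trans F.equivFin.symm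
  have hn8 := nt_ge (d := d) A hL k
  have hnt : A.nt d k = (8 * d + 8) * A.n k := rfl
  have key : ∀ u ∈ F, (∀ j, ((u.1 j - A.n k * v.1 j : ℤ)).natAbs ≤ 4 * A.n k) ∧
      A.nt d k * (v.2 - 1) ≤ u.2 ∧ u.2 < A.nt d k * (v.2 - 1) + 4 * A.nt d k ∧
      sft N1 (sm (A.S k) u.1) (a + (u.2 - 2) * A.T d k) X η w := by
    intro u hu
    obtain ⟨⟨r1, r2, r3⟩, hb⟩ := h1 u hu
    obtain ⟨y, hy⟩ : ∃ y, v.2 = y + 2 := ⟨v.2 - 2, by omega⟩
    rw [← hnt, hy] at r2 r3
    have c1 : A.nt d k * (v.2 - 1) ≤ u.2 := by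
      rw [hy, show y + 2 - 1 = y + 1 by omega]
      have : A.nt d k * (y + 2) = A.nt d k * (y + 1) + A.nt d k := by ring
      omega
    have c2 : u.2 < A.nt d k * (v.2 - 1) + 4 * A.nt d k := by
      rw [hy, show y + 2 - 1 = y + 1 by omega]
      have : A.nt d k * (y + 2 + 3) = A.nt d k * (y + 1) + 4 * A.nt d k := by ring
      omega
    refine ⟨fun j => ?_, c1, c2, ?_⟩
    · have := r1 j
      omega
    · rcases (hB u).1 hb with h | h
      · exfalso
        have : A.nt d k * 1 ≤ A.nt d k * (v.2 - 1) := Nat.mul_le_mul_left _ (by omega)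
        omega
      · exact h
  refine ⟨fun i => ((e i : Blk d).1 - sm (A.n k) v.1, (e i : Blk d).2 - A.nt d k * (v.2 - 1)),
    fun i => ?_, fun i j hij => ?_, fun i => ?_⟩
  · obtain ⟨k1, k2, k3, -⟩ := key (e i) (e i).2
    refine ⟨?_, ?_⟩
    · rw [supn_le_iff]
      intro j
      exact k1 j
    · show (e i : Blk d).2 - A.nt d k * (v.2 - 1) < 4 * A.nt d k
      omega
  · have hne : (e i : Blk d) ≠ (e j : Blk d) := fun h => hij (e.injective (Subtype.ext h))
    have h3 := h2 _ (e i).2 _ (e j).2 hne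
    obtain ⟨-, k2, -, -⟩ := key (e i) (e i).2
    obtain ⟨-, k2', -, -⟩ := key (e j) (e j).2
    rw [bd_comm_shift (d := d) _ _ (e i : Blk d) (e j : Blk d)]
    · exact h3
    · show ((e i : Blk d).1 - sm (A.n k) v.1) - ((e j : Blk d).1 - sm (A.n k) v.1) = _
      abel
    · show (((e i : Blk d).2 - A.nt d k * (v.2 - 1) : ℕ) : ℤ) -
        (((e j : Blk d).2 - A.nt d k * (v.2 - 1) : ℕ) : ℤ) = _
      rw [Nat.cast_sub k2, Nat.cast_sub k2']
      ring
  · obtain ⟨-, k2, -, k4⟩ := key (e i) (e i).2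
    have e1 : sm (A.S (k + 1)) v.1 + sm (A.S k) ((e i : Blk d).1 - sm (A.n k) v.1) =
        sm (A.S k) (e i : Blk d).1 := by
      funext j
      simp only [sm, Pi.add_apply, Pi.sub_apply]
      rw [S_succ A hγ]
      push_cast
      ring
    have e2 : a + (v.2 - 2) * A.T d (k + 1) + (A.nt d k - 2 +
        ((e i : Blk d).2 - A.nt d k * (v.2 - 1))) * A.T d k = a + ((e i : Blk d).2 - 2) * A.T d k := by
      rw [T_succ, add_assoc]
      congr 1
      rw [show (v.2 - 2) * (A.nt d k * A.T d k) = (A.nt d k * (v.2 - 2)) * A.T d k by ring,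
        ← add_mul]
      congr 1
      obtain ⟨y, hy⟩ : ∃ y, v.2 = y + 2 := ⟨v.2 - 2, by omega⟩
      rw [hy, show y + 2 - 1 = y + 1 by omega] at k2
      rw [hy, show y + 2 - 1 = y + 1 by omega, show y + 2 - 2 = y by omega]
      have : A.nt d k * (y + 1) = A.nt d k * y + A.nt d k := by ring
      omega
    show sft N1 (sm (A.S (k + 1)) v.1 + sm (A.S k) ((e i : Blk d).1 - sm (A.n k) v.1))
      (a + (v.2 - 2) * A.T d (k + 1) + (A.nt d k - 2 +
        ((e i : Blk d).2 - A.nt d k * (v.2 - 1))) * A.T d k) X η w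
    rw [e1, e2]
    exact k4

theorem sft_time {M K : ℕ} (N1 : ℕ) (u : ℕ) (E : Ev d M K) (η : Tor d M → ℕ)
    (w : List (Let d M (K + 1))) :
    sft N1 0 u E η w ↔ E (stt η w (u * N1)) (w.drop (u * N1)) := by
  unfold sft
  rw [tv_zero]
  have h1 : (fun v : Tor d M => stt η w (u * N1) (v + 0)) = stt η w (u * N1) := by
    funext v; rw [add_zero]
  have h2 : (w.drop (u * N1)).map (shL (-(0 : Tor d M))) = w.drop (u * N1) := by
    have : (shL (-(0 : Tor d M)) : Let d M (K + 1) → Let d M (K + 1)) = id := by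
      funext a
      cases a with
      | none => rfl
      | some l => simp [shL, ZI.shL]
    rw [this, List.map_id]
  rw [h1, h2]

/-- the place of a level `l` block near the block `c` -/
theorem rg_time (A : Prm) (hL : 1 ≤ A.L) (l k : ℕ) (h : l < k) (x : Pos d) (j : ℕ) (hj : 3 ≤ j)
    (Q : Blk d) (hQ : Q ∈ Rg (A.n l) (8 * d + 8) (x, j * (A.ix d k / A.ix d (l + 1)))) :
    (j - 1) * (A.ix d k / A.ix d l) ≤ Q.2 ∧
      Q.2 < j * (A.ix d k / A.ix d l) + 3 * A.nt d l ∧ 2 ≤ (j - 1) * (A.ix d k / A.ix d l) := by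
  obtain ⟨-, r2, r3⟩ := hQ
  have hn8 := nt_ge (d := d) A hL l
  have h1 := ix_div_succ (d := d) A hL l k h
  have h2 := ix_div_pos (d := d) A hL (l + 1) k h
  have hnt : A.nt d l = (8 * d + 8) * A.n l := rfl
  simp only at r2 r3
  rw [← hnt] at r2 r3
  obtain ⟨y, rfl⟩ : ∃ y, j = y + 1 := ⟨j - 1, by omega⟩
  rw [h1]
  generalize A.ix d k / A.ix d (l + 1) = z at *
  generalize A.nt d l = N at *
  have h5 : N ≤ N * z := Nat.le_mul_of_pos_right _ h2
  have h6 : N * ((y + 1) * z) = y * (N * z) + N * z := by ring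
  have h7 : (y + 1) * (N * z) = y * (N * z) + N * z := by ring
  have h8 : N * ((y + 1) * z + 3) = y * (N * z) + N * z + 3 * N := by ring
  have h9 : 1 * (N * z) ≤ y * (N * z) := Nat.mul_le_mul_right _ (by omega)
  rw [show y + 1 - 1 = y by omega]
  refine ⟨by omega, by omega, by omega⟩

theorem bt_sub {M : ℕ} (x y : Pos d) (r r' : ℕ) (h : supn (x - y) + r ≤ r') :
    {v : Tor d M | v - tv x ∈ Bt (0 : Tor d M) r} ⊆ Bt (tv y) r' := by
  rintro v ⟨z, hz, hv⟩
  refine ⟨x - y + z, ?_, ?_⟩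
  · rw [supn_le_iff]
    intro j
    have h1 := (supn_le_iff (x - y) _).1 le_rfl j
    have h2 := (supn_le_iff z _).1 hz j
    have h3 : ((x - y + z) j).natAbs ≤ ((x - y) j).natAbs + (z j).natAbs := Int.natAbs_add_le _ _
    omega
  · have e : v = tv x + tv z := by
      rw [zero_add] at hv
      rw [← hv]; abel
    rw [e, ← tv_add, ← tv_add]
    congr 1
    abel

/-- the place of a level `l` block near the block `c` -/
theorem rg_place (A : Prm) (hL : 6 ≤ A.L) (hγ : 2 ≤ A.γ) (l k : ℕ) (h : l < k) (c : Pos d) (j : ℕ)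
    (Q : Blk d) (hQ : Q ∈ Rg (A.n l) (8 * d + 8) (anc A (l + 1) c, j)) :
    supn (sm (A.S l) Q.1 - sm A.L c) + (6 * A.S l + A.L ^ 2 + 1) ≤ 6 * A.S k + A.L ^ 2 + 1 := by
  have e1 := S_succ A (by omega) l
  have hS6 : 6 * A.S l ≤ A.S (l + 1) := by
    rw [e1]
    apply Nat.mul_le_mul_right
    calc 6 ≤ A.L := hL
      _ ≤ A.S l := L_le_S A (by omega) (by omega) l
      _ = A.S l ^ 1 := (pow_one _).symm
      _ ≤ A.S l ^ (A.γ - 1) := Nat.pow_le_pow_right (S_pos A (by omega) l) (by omega)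
  have hSk := S_mono A (by omega) (by omega) (l + 1) k (by omega)
  have h5 : supn (sm (A.S l) Q.1 - sm A.L c) ≤ 5 * A.S (l + 1) := by
    rw [supn_le_iff]
    intro t
    obtain ⟨r1, -, -⟩ := hQ
    have r := r1 t
    have hS : (A.S (l + 1) : ℤ) = A.L * A.nx (l + 1) := by exact_mod_cast S_eq A (by omega) (l + 1)
    have hp : (0 : ℤ) < A.nx (l + 1) := by exact_mod_cast nx_pos A (by omega) (l + 1)
    have h1 := Int.mul_ediv_self_le (x := c t) (k := (A.nx (l + 1) : ℤ)) hp.ne'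
    have h2 := Int.lt_mul_ediv_self_add (x := c t) (k := (A.nx (l + 1) : ℤ)) hp
    have hLp : (0 : ℤ) < A.L := by exact_mod_cast (by omega : 0 < A.L)
    have hSl : (0 : ℤ) < A.S l := by exact_mod_cast S_pos A (by omega) l
    show (((A.S l : ℤ) * Q.1 t - A.L * c t)).natAbs ≤ 5 * A.S (l + 1)
    simp only at r
    have e2 : (A.S (l + 1) : ℤ) = A.n l * A.S l := by exact_mod_cast e1
    have a1 : anc A (l + 1) c t = c t / (A.nx (l + 1) : ℤ) := rfl
    rw [a1] at r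
    generalize c t / (A.nx (l + 1) : ℤ) = y at *
    obtain ⟨r1, r2⟩ := r
    have b1 : (A.S l : ℤ) * Q.1 t ≤ A.S (l + 1) * y + 4 * A.S (l + 1) := by
      calc (A.S l : ℤ) * Q.1 t ≤ A.S l * (A.n l * y + 4 * A.n l) :=
            mul_le_mul_of_nonneg_left r2 hSl.le
        _ = _ := by rw [e2]; ring
    have b2 : (A.S (l + 1) : ℤ) * y - 4 * A.S (l + 1) ≤ A.S l * Q.1 t := by
      calc (A.S (l + 1) : ℤ) * y - 4 * A.S (l + 1) = A.S l * (A.n l * y - 4 * A.n l) := by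
            rw [e2]; ring
        _ ≤ _ := mul_le_mul_of_nonneg_left r1 hSl.le
    have b3 : (A.S (l + 1) : ℤ) * y ≤ A.L * c t := by
      calc (A.S (l + 1) : ℤ) * y = A.L * (A.nx (l + 1) * y) := by rw [hS]; ring
        _ ≤ _ := mul_le_mul_of_nonneg_left h1 hLp.le
    have b4 : (A.L : ℤ) * c t ≤ A.S (l + 1) * y + A.S (l + 1) := by
      calc (A.L : ℤ) * c t ≤ A.L * (A.nx (l + 1) * y + A.nx (l + 1)) :=
            mul_le_mul_of_nonneg_left h2.le hLp.le
        _ = _ := by rw [hS]; ring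
    have b5 : (0 : ℤ) ≤ A.S (l + 1) := by positivity
    generalize (A.S (l + 1) : ℤ) * y = w at *
    generalize (A.S l : ℤ) * Q.1 t = w1 at *
    generalize (A.L : ℤ) * c t = w2 at *
    have : ((w1 - w2).natAbs : ℤ) ≤ 5 * A.S (l + 1) := by
      rw [Int.natCast_natAbs, abs_le]
      constructor <;> linarith
    exact_mod_cast this
  omega

/-- the window of a level `l` block near the block `c` -/
theorem rg_window (A : Prm) (hL : 1 ≤ A.L) (l k : ℕ) (h : l < k) (x : Pos d)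
    (Q : Blk d) (hQ : Q ∈ Rg (A.n l) (8 * d + 8) (x, 3 * (A.ix d k / A.ix d (l + 1)))) :
    6 * A.T d l + (Q.2 - 2) * A.T d l ≤ 8 * A.T d k := by
  obtain ⟨g1, g2, g3⟩ := rg_time A hL l k h x 3 le_rfl Q hQ
  have h8 := nt_ge (d := d) A hL l
  have e1 := ix_div_T (d := d) A l k h.le
  have e2 := T_succ (d := d) A l
  have e3 := T_mono (d := d) A hL (l + 1) k h
  have e4 : 8 * A.T d l ≤ A.T d (l + 1) := by rw [e2]; exact Nat.mul_le_mul_right _ h8
  have e5 : (Q.2 - 2) * A.T d l ≤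
      (3 * (A.ix d k / A.ix d l) + 3 * A.nt d l) * A.T d l := Nat.mul_le_mul_right _ (by omega)
  have e6 : (3 * (A.ix d k / A.ix d l) + 3 * A.nt d l) * A.T d l = 3 * A.T d k + 3 * A.T d (l + 1) := by
    rw [add_mul, mul_assoc, e1, mul_assoc, ← e2]
  omega

end ZP.BK

namespace ZP.Rows

open ZP ZP.BK

variable {d : ℕ}

section BK

variable {M K : ℕ} (N1 : ℕ) (A : Prm)

/-- the level data fit -/
theorem fit_lvl (hd : 0 < d) (hL : 1000 * (d + 1) * 3 ^ d ≤ A.L) (hγ : A.α + 12 ≤ A.γ) :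
    A.lvl d |>.Fit d := by
  have h3 : 1 ≤ 3 ^ d := Nat.one_le_pow _ _ (by norm_num)
  have hL1 : 1000 ≤ A.L := by
    calc 1000 ≤ 1000 * (d + 1) * 1 := by nlinarith
      _ ≤ 1000 * (d + 1) * 3 ^ d := Nat.mul_le_mul_left _ h3
      _ ≤ A.L := hL
  have hS : ∀ k, 1000 ≤ A.S k := fun k => hL1.trans (L_le_S A (by omega) (by omega) k)
  have hn : ∀ k, A.S k ^ (A.α + 11) ≤ A.n k := fun k =>
    Nat.pow_le_pow_right (by have := hS k; omega) (by omega)
  refine ⟨by show d + 4 ≤ 8 * d + 8; omega, fun k => n_pos A (by omega) k,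
    fun k => Nat.one_le_pow _ _ (by have := hS k; omega), fun k => ?_, fun k => ?_, fun k => ?_⟩
  · show 10 * A.S k ^ A.α * A.S k ≤ 100 * A.S k ^ (A.α + 1)
    rw [pow_succ]
    nlinarith [Nat.zero_le (A.S k ^ A.α * A.S k)]
  · show 20 * A.S k ^ A.α * A.S k ≤ A.n k
    refine le_trans ?_ (hn k)
    calc 20 * A.S k ^ A.α * A.S k = A.S k ^ A.α * (20 * A.S k) := by ring
      _ ≤ A.S k ^ A.α * (A.S k * A.S k) := by
          apply Nat.mul_le_mul_left
          apply Nat.mul_le_mul_right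
          have := hS k; omega
      _ = A.S k ^ (A.α + 2) := by ring
      _ ≤ A.S k ^ (A.α + 11) := Nat.pow_le_pow_right (by have := hS k; omega) (by omega)
  · show 2 * A.S k * (2 * (100 * A.S k ^ (A.α + 1) + A.S k ^ A.α) + 1) ^ d < A.n k ^ d
    have hs := hS k
    have hs1 : 1 ≤ A.S k := by omega
    have e1 : 1 ≤ A.S k ^ A.α := Nat.one_le_pow _ _ hs1
    have e2 : 2 * (100 * A.S k ^ (A.α + 1) + A.S k ^ A.α) + 1 ≤ A.S k ^ (A.α + 2) := by
      have : A.S k ^ A.α ≤ A.S k ^ (A.α + 1) := Nat.pow_le_pow_right hs1 (by omega)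
      calc 2 * (100 * A.S k ^ (A.α + 1) + A.S k ^ A.α) + 1 ≤ 1000 * A.S k ^ (A.α + 1) := by omega
        _ ≤ A.S k * A.S k ^ (A.α + 1) := Nat.mul_le_mul_right _ hs
        _ = A.S k ^ (A.α + 2) := by ring
    have e3 : 2 * A.S k < (A.S k ^ 2) ^ d := by
      calc 2 * A.S k < A.S k * A.S k := Nat.mul_lt_mul_of_pos_right (by omega) (by omega)
        _ = (A.S k ^ 2) ^ 1 := by ring
        _ ≤ (A.S k ^ 2) ^ d := Nat.pow_le_pow_right (Nat.one_le_pow _ _ hs1) hd
    calc 2 * A.S k * (2 * (100 * A.S k ^ (A.α + 1) + A.S k ^ A.α) + 1) ^ d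
        ≤ 2 * A.S k * (A.S k ^ (A.α + 2)) ^ d :=
          Nat.mul_le_mul_left _ (Nat.pow_le_pow_left e2 d)
      _ < (A.S k ^ 2) ^ d * (A.S k ^ (A.α + 2)) ^ d :=
          Nat.mul_lt_mul_of_pos_right e3 (pow_pos (pow_pos (by omega) _) _)
      _ = (A.S k ^ (A.α + 4)) ^ d := by rw [← mul_pow]; ring_nf
      _ ≤ A.n k ^ d := by
          apply Nat.pow_le_pow_left
          exact le_trans (Nat.pow_le_pow_right hs1 (by omega)) (hn k)

/-- the bad blocks of a word with an anchor satisfy the hypothesis of the hub theory -/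
theorem hier_badW (hL : 1000 * (d + 1) * 3 ^ d ≤ A.L) (hγ : A.α + 12 ≤ A.γ)
    (η : Tor d M → ℕ) (w : List (Let d M (K + 1))) (a : ℕ) :
    Hier (A.lvl d) (badW N1 A η w a false) (badW N1 A η w a true) := by
  have h3 : 1 ≤ 3 ^ d := Nat.one_le_pow _ _ (by norm_num)
  have hL1 : 1 ≤ A.L := by
    calc 1 ≤ 1000 * (d + 1) * 1 := by omega
      _ ≤ 1000 * (d + 1) * 3 ^ d := Nat.mul_le_mul_left _ h3
      _ ≤ A.L := hL
  refine ⟨fun k v hv hM => hv ?_, fun k v hv hM => hv ?_⟩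
  · by_cases h2 : v.2 < 2
    · exact Or.inl h2
    · right
      exact rec_of_many N1 A hL1 (by omega) k (PBadM N1 A k) η w a _ (fun u => Iff.rfl) v
        (by omega) hM
  · by_cases h2 : v.2 < 2
    · exact Or.inl h2
    · right
      have := rec_of_many N1 A hL1 (by omega) k (BadP N1 A k) η w a _ (fun u => Iff.rfl) v
        (by omega) hM
      exact Or.inr this

/-- shifted words -/
theorem badW_sft (η : Tor d M → ℕ) (w : List (Let d M (K + 1))) (hL : 2 ≤ A.L) (hγ : 1 ≤ A.γ)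
    (hτ : 1 ≤ A.τ) (u l k : ℕ) (hl : l ≤ k) (b : Bool) (v : Blk d) (hi : 2 ≤ v.2) :
    badW N1 A (stt η w (u * N1)) (w.drop (u * N1)) 0 b l v ↔
      badW N1 A η w (u % A.T d k) b l (v.1, v.2 + (u / A.T d k) * (A.ix d k / A.ix d l)) := by
  unfold badW
  have h1 : ¬ v.2 < 2 := by omega
  have h2 : ¬ v.2 + (u / A.T d k) * (A.ix d k / A.ix d l) < 2 := by omega
  simp only [h1, h2, false_or]
  have h4 := sft_time N1 u (sft N1 (sm (A.S l) v.1) (0 + (v.2 - 2) * A.T d l) (PBad N1 A b l)) η w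
  rw [← h4, Rows.sft_sft, zero_add]
  have e : u + (0 + (v.2 - 2) * A.T d l) = u % A.T d k +
      (v.2 + (u / A.T d k) * (A.ix d k / A.ix d l) - 2) * A.T d l := by
    have e1 : v.2 + (u / A.T d k) * (A.ix d k / A.ix d l) - 2 =
        (v.2 - 2) + (u / A.T d k) * (A.ix d k / A.ix d l) := by omega
    rw [e1, add_mul, mul_assoc, ix_div_T A l k hl]
    have e2 := Nat.mod_add_div u (A.T d k)
    rw [mul_comm (A.T d k)] at e2
    omega
  rw [e]

theorem memb_hub (hL : 1 ≤ A.L) (bad : ℕ → Blk d → Prop) (k : ℕ) (c : Pos d) (j : ℕ)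
    (h : Memb A bad k c j) : (c, j * A.ix d k) ∈ Hub (A.lvl d) bad k (anc A k c, j) := by
  have key : ∀ l ≤ k, (c, j * A.ix d k) ∈
      Hub (A.lvl d) bad l (anc A l c, j * (A.ix d k / A.ix d l)) := by
    intro l
    induction l with
    | zero =>
      intro _
      show (c, j * A.ix d k) = (anc A 0 c, j * (A.ix d k / A.ix d 0))
      have : anc A 0 c = c := by
        funext t
        simp [anc, Prm.nx]
      rw [this]
      simp [Prm.ix]
    | succ l ih =>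
      intro hl
      refine ⟨(anc A l c, j * (A.ix d k / A.ix d l)), ⟨fun t => ?_, ?_⟩, ?_, ih (by omega)⟩
      · have hn := n_pos A hL l
        have e : anc A (l + 1) c t = anc A l c t / (A.n l : ℤ) := by
          show c t / ((A.n l * A.nx l : ℕ) : ℤ) = c t / (A.nx l : ℤ) / (A.n l : ℤ)
          rw [Int.ediv_ediv_of_nonneg (by positivity)]
          push_cast
          rw [mul_comm]
        show (A.n l : ℤ) * anc A (l + 1) c t ≤ anc A l c t ∧
          anc A l c t < (A.n l : ℤ) * anc A (l + 1) c t + A.n l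
        rw [e]
        have hp : (0 : ℤ) < A.n l := by exact_mod_cast hn
        have h1 := Int.mul_ediv_self_le (x := anc A l c t) (k := (A.n l : ℤ)) hp.ne'
        have h2 := Int.lt_mul_ediv_self_add (x := anc A l c t) (k := (A.n l : ℤ)) hp
        exact ⟨h1, by linarith⟩
      · have hn := n_pos A hL l
        show (8 * d + 8) * A.n l * (j * (A.ix d k / A.ix d (l + 1))) ≤ j * (A.ix d k / A.ix d l) ∧
          j * (A.ix d k / A.ix d l) < (8 * d + 8) * A.n l * (j * (A.ix d k / A.ix d (l + 1))) + A.n l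
        rw [ix_div_succ A hL l k (by omega)]
        have : j * (A.nt d l * (A.ix d k / A.ix d (l + 1))) =
            (8 * d + 8) * A.n l * (j * (A.ix d k / A.ix d (l + 1))) := by
          unfold Prm.nt
          ring
        omega
      · intro w' hw' hb
        exact h l (by omega) w' hw' hb
  have := key k le_rfl
  rwa [Nat.div_self (ix_pos A hL k), mul_one] at this

/-- membership in a hub, shifted words: `(c, u + 3 T k)` is in the hub of its ancestor -/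
theorem memb_sft (hd : 0 < d) (hL : 1000 * (d + 1) * 3 ^ d ≤ A.L) (hγ : A.α + 12 ≤ A.γ) (hτ : 1 ≤ A.τ)
    (η : Tor d M → ℕ) (w : List (Let d M (K + 1))) (u k : ℕ) (c : Pos d)
    (h : sft N1 0 u (MembE N1 A k c) η w) :
    (c, (3 + u / A.T d k) * A.ix d k) ∈ Hub (A.lvl d) (badA N1 A η w (u % A.T d k)) k
      (anc A k c, 3 + u / A.T d k) := by
  have h3 : 1 ≤ 3 ^ d := Nat.one_le_pow _ _ (by norm_num)
  have hL1 : 2 ≤ A.L := by
    calc 2 ≤ 1000 * (d + 1) * 1 := by omega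
      _ ≤ 1000 * (d + 1) * 3 ^ d := Nat.mul_le_mul_left _ h3
      _ ≤ A.L := hL
  rw [sft_time] at h
  obtain ⟨v, hv⟩ : ∃ v, v = u / A.T d k := ⟨_, rfl⟩
  rw [← hv]
  refine memb_hub A (by omega) _ k c _ fun l hl Q hQ hb hbad => ?_
  obtain ⟨g1, g2, g3⟩ := rg_time A (by omega) l k hl _ _ (by omega) Q hQ
  set z := A.ix d k / A.ix d l with hz
  have hz1 : 1 ≤ z := ix_div_pos A (by omega) l k hl.le
  have hsucc := ix_div_succ (d := d) A (by omega) l k hl
  rw [← hz] at hsucc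
  have h8 := nt_ge (d := d) A (by omega) l
  have hzz : 8 ≤ z := by
    rw [hsucc]
    exact le_trans h8 (Nat.le_mul_of_pos_right _ (ix_div_pos A (by omega) (l + 1) k hl))
  have hq : v * z + 2 ≤ Q.2 := by
    have : (3 + v - 1) * z = v * z + 2 * z := by
      rw [show 3 + v - 1 = v + 2 by omega]; ring
    omega
  obtain ⟨Q1, hQ1⟩ : ∃ Q1 : Blk d, Q1 = (Q.1, Q.2 - v * z) := ⟨_, rfl⟩
  have hQ2 : Q = (Q1.1, Q1.2 + v * z) := by
    rw [hQ1]
    ext1
    · rfl
    · show Q.2 = Q.2 - v * z + v * z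
      omega
  have hi : 2 ≤ Q1.2 := by rw [hQ1]; show 2 ≤ Q.2 - v * z; omega
  have hbW : ∀ b, badW N1 A η w (u % A.T d k) b l Q →
      badW N1 A (stt η w (u * N1)) (w.drop (u * N1)) 0 b l Q1 := by
    intro b hb
    rw [badW_sft N1 A η w hL1 (by omega) hτ u l k hl.le b Q1 hi, ← hv, ← hz]
    rwa [hQ2] at hb
  refine h l hl Q1 ?_ ?_ (hbad.imp (hbW false) (hbW true))
  · obtain ⟨r1, r2, r3⟩ := hQ
    rw [hQ1]
    refine ⟨r1, ?_, ?_⟩
    · show (8 * d + 8) * A.n l * (3 * (A.ix d k / A.ix d (l + 1))) ≤ Q.2 - v * z + (8 * d + 8) * A.n l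
      have r2' : (8 * d + 8) * A.n l * ((3 + v) * (A.ix d k / A.ix d (l + 1))) ≤
        Q.2 + (8 * d + 8) * A.n l := r2
      have e : (8 * d + 8) * A.n l * ((3 + v) * (A.ix d k / A.ix d (l + 1))) =
          (8 * d + 8) * A.n l * (3 * (A.ix d k / A.ix d (l + 1))) + v * z := by
        rw [hsucc]; unfold Prm.nt; ring
      omega
    · show Q.2 - v * z < (8 * d + 8) * A.n l * (3 * (A.ix d k / A.ix d (l + 1)) + 3)
      have r3' : Q.2 < (8 * d + 8) * A.n l * ((3 + v) * (A.ix d k / A.ix d (l + 1)) + 3) := r3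
      have e : (8 * d + 8) * A.n l * ((3 + v) * (A.ix d k / A.ix d (l + 1)) + 3) =
          (8 * d + 8) * A.n l * (3 * (A.ix d k / A.ix d (l + 1)) + 3) + v * z := by
        rw [hsucc]; unfold Prm.nt; ring
      omega
  · rw [bd_comm_shift (d := d) Q1 (anc A l c, 3 * (A.ix d k / A.ix d l)) Q
      (anc A l c, (3 + v) * z)]
    · exact hb
    · rw [hQ1]
    · rw [hQ1]
      show ((Q.2 - v * z : ℕ) : ℤ) - ((3 * z : ℕ) : ℤ) = (Q.2 : ℤ) - (((3 + v) * z : ℕ) : ℤ)
      rw [Nat.cast_sub (by omega)]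
      push_cast
      ring

end BK

end ZP.Rows
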