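import Pool.Agent.ZP.BKa
import Pool.Agent.ZP.BKb1

/-! # Row BKb: the events of the level `k` (deterministic) -/

set_option autoImplicit false

open scoped ENNReal BigOperators Classical

noncomputable section

namespace ZP.Rows

open ZP ZP.BK

variable {d : ℕ}

section BK

variable {M K : ℕ} (N1 : ℕ) (A : Prm)

theorem not_membE (η : Tor d M → ℕ) (w : List (Let d M (K + 1))) (hL : 1000 * (d + 1) ≤ A.L)
    (hγ : A.α + 12 ≤ A.γ) (hM : 2 * A.L ^ 2 + 4 ≤ M) (k : ℕ) (c : Pos d)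
    (h : ¬ MembE N1 A k c η w) : NMemb N1 A true k c η w ∨ NMemb N1 A false k c η w := by
  unfold MembE Memb at h
  push Not at h
  obtain ⟨l, hl, Q, hQ, hb, hbad⟩ := h
  obtain ⟨g1, g2, g3⟩ := rg_time A (by omega) l k hl _ 3 le_rfl Q hQ
  have h2 : ¬ Q.2 < 2 := by omega
  rcases hbad with hbad | hbad
  · right
    rcases hbad with hbad | hbad
    · exact absurd hbad h2
    · refine ⟨l, hl, Q, hQ, hb, by omega, ?_⟩
      rw [zero_add] at hbad
      exact badM_of_pbadM N1 A (by omega) hM l _ _ hbad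
  · left
    rcases hbad with hbad | hbad
    · exact absurd hbad h2
    · refine ⟨l, hl, Q, hQ, hb, by omega, ?_⟩
      rw [zero_add] at hbad
      exact hbad

theorem membE_loc (hL : 1000 * (d + 1) ≤ A.L) (hγ : A.α + 12 ≤ A.γ) (k : ℕ) (c : Pos d)
    (hM : 12 * A.S k + 4 * A.L ^ 2 + 10 ≤ M) :
    LocE N1 (Bt (tv (sm A.L c) : Tor d M) (6 * A.S k + A.L ^ 2 + 1)) 0 (8 * A.T d k)
      (MembE (K := K) N1 A k c) := by
  intro η w η' w' h1 h2 hE l hl Q hQ hb hbad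
  refine hE l hl Q hQ hb ?_
  have hSk := S_mono A (by omega) (by omega) l k hl.le
  have hX : ∀ X : Ev d M K, LocE N1 (Bt (0 : Tor d M) (6 * A.S l + A.L ^ 2 + 1)) 0 (6 * A.T d l) X →
      sft N1 (sm (A.S l) Q.1) (0 + (Q.2 - 2) * A.T d l) X η' w' →
      sft N1 (sm (A.S l) Q.1) (0 + (Q.2 - 2) * A.T d l) X η w := by
    intro X hX hs
    refine LocE.mono N1 (LocE.sft N1 hX _ _) (bt_sub _ _ _ _ (rg_place A (by omega) (by omega)
      l k hl c _ Q hQ)) (Nat.zero_le _) ?_ η' w' η w h2 h1 hs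
    rw [zero_add]
    exact rg_window A (by omega) l k hl _ Q hQ
  refine hbad.imp (fun h => h.imp id (hX _ ?_)) (fun h => h.imp id (hX _ ?_))
  · exact pbadM_loc N1 A hL hγ l (by omega)
  · exact IncE.loc N1 (badP_inc N1 A hL hγ l (by omega))

theorem membE_pth (hM : 5 ≤ M) (k : ℕ) (c : Pos d) :
    PthE (MembE (M := M) (K := K) N1 A k c) := by
  intro η w w' hp hm hE l hl Q hQ hb hbad
  refine hE l hl Q hQ hb ?_
  have hX : ∀ b, badW N1 A η w' 0 b l Q → badW N1 A η w 0 b l Q := fun b h =>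
    h.imp id (fun h => PthE.sft N1 (pbad_pth N1 A hM b l) _ _ η w' w hp.symm hm.symm h)
  exact hbad.imp (hX _) (hX _)

theorem nmemb_dec (hL : 1000 * (d + 1) ≤ A.L) (hγ : A.α + 12 ≤ A.γ) (k : ℕ) (c : Pos d)
    (hM : 12 * A.S k + 4 * A.L ^ 2 + 10 ≤ M) :
    DecE N1 (Bt (tv (sm A.L c) : Tor d M) (6 * A.S k + A.L ^ 2 + 1)) 0 (8 * A.T d k)
      (NMemb (K := K) N1 A false k c) := by
  rintro η w η' w' h1 ⟨l, hl, Q, hQ, hb, h2, hE⟩
  refine ⟨l, hl, Q, hQ, hb, h2, ?_⟩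
  have hSk := S_mono A (by omega) (by omega) l k hl.le
  refine DecE.mono N1 (DecE.sft N1 (badM_dec N1 A hL hγ l (by omega)) _ _)
    (bt_sub _ _ _ _ (rg_place A (by omega) (by omega) l k hl c _ Q hQ)) (Nat.zero_le _)
    (rg_window A (by omega) l k hl _ Q hQ) η w η' w' h1 hE

theorem nmemb_inc (hL : 1000 * (d + 1) ≤ A.L) (hγ : A.α + 12 ≤ A.γ) (k : ℕ) (c : Pos d)
    (hM : 12 * A.S k + 4 * A.L ^ 2 + 10 ≤ M) :
    IncE N1 (Bt (tv (sm A.L c) : Tor d M) (6 * A.S k + A.L ^ 2 + 1)) 0 (8 * A.T d k)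
      (NMemb (K := K) N1 A true k c) := by
  rintro η w η' w' h1 ⟨l, hl, Q, hQ, hb, h2, hE⟩
  refine ⟨l, hl, Q, hQ, hb, h2, ?_⟩
  have hSk := S_mono A (by omega) (by omega) l k hl.le
  refine IncE.mono N1 (IncE.sft N1 (badP_inc N1 A hL hγ l (by omega)) _ _)
    (bt_sub _ _ _ _ (rg_place A (by omega) (by omega) l k hl c _ Q hQ)) (Nat.zero_le _)
    (rg_window A (by omega) l k hl _ Q hQ) η w η' w' h1 hE

end BK

end ZP.Rows
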