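import Pool.Agent.ZI.LK
import Pool.Agent.ZI.R2
import Pool.Agent.ZI.PPc

/-! # Row BS, part 1: the killed box has the same law in all tori -/

set_option autoImplicit false

open scoped ENNReal BigOperators Classical

noncomputable section

namespace ZI.BX

open ZI ZI.LK ZI.R2aux ZI.Rows ZI.Rows.T1

variable {d : ℕ} {m : Model}

/-- the same chain on a smaller torus -/
def mkM (q : Par d m) (M' : ℕ) (h5 : 5 ≤ M') (hle : M' ≤ q.M) : Par d m where
  M := M'
  K := q.K
  N1 := q.N1
  p := q.p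
  M_ge := h5
  K_ge := q.K_ge
  K_big := q.K_big
  N1_pos := q.N1_pos
  p_pos := q.p_pos
  p_lb := q.p_lb
  p_ub := q.p_ub
  p_small := q.p_small
  p_tot := by
    refine le_trans ?_ q.p_tot
    have hg : 0 ≤ m.g q.K := by
      have h2 := q.K_big
      have h3 := m.φ_pos
      linarith
    have hp := q.p_pos.le
    gcongr

/-- the part of the law of the letters that is given by the labels of the box -/
def SF (m : Model) (d R K : ℕ) (p : ℝ) (F : Option (Lab (Pos d) d) → ℝ≥0∞) : ℝ≥0∞ :=
  ∑ x ∈ box d R, ∑ k : Fin K, ∑ e : Dir d, ENNReal.ofReal (m.lam d k * p) * F (some (x, (k : ℕ), e))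

theorem letters_split (q : Par d m) {R : ℕ} (hR : 2 * R + 2 ≤ q.M)
    (F : Option (Lab (Pos d) d) → ℝ≥0∞) :
    ∑ a, q.w a * F (gf R a) =
      (∑ a, if (gf R a : Option (Lab (Pos d) d)) = none then q.w a else 0) * F none +
        SF m d R q.K q.p F := by
  have h0 : ∀ a : Let d q.M q.K, q.w a * F (gf R a) =
      (if (gf R a : Option (Lab (Pos d) d)) = none then q.w a else 0) * F none +
        (if (gf R a : Option (Lab (Pos d) d)) = none then 0 else q.w a * F (gf R a)) := by
    intro a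
    by_cases h : (gf R a : Option (Lab (Pos d) d)) = none
    · rw [if_pos h, if_pos h, h, add_zero]
    · rw [if_neg h, if_neg h, zero_mul, zero_add]
  rw [Finset.sum_congr rfl fun a _ => h0 a, Finset.sum_add_distrib, ← Finset.sum_mul]
  congr 1
  rw [Fintype.sum_option]
  have h1 : (if (gf R (none : Let d q.M q.K) : Option (Lab (Pos d) d)) = none then 0 else
      q.w none * F (gf R (none : Let d q.M q.K))) = 0 := if_pos rfl
  rw [h1, zero_add, Fintype.sum_prod_type]
  have h2 : ∀ v : Tor d q.M, ∑ y : Fin q.K × Dir d,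
      (if (gf R (some (v, y) : Let d q.M q.K) : Option (Lab (Pos d) d)) = none then 0 else
        q.w (some (v, y)) * F (gf R (some (v, y) : Let d q.M q.K))) =
      if supn (lft v) ≤ R then ∑ k : Fin q.K, ∑ e : Dir d,
        ENNReal.ofReal (m.lam d k * q.p) * F (some (lft v, (k : ℕ), e)) else 0 := by
    intro v
    by_cases hv : supn (lft v) ≤ R
    · rw [if_pos hv, Fintype.sum_prod_type]
      refine Finset.sum_congr rfl fun k _ => Finset.sum_congr rfl fun e _ => ?_
      have h3 : (gf R (some (v, k, e) : Let d q.M q.K) : Option (Lab (Pos d) d)) =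
          some (lft v, (k : ℕ), e) := by
        show kf R (v, (k : ℕ), e) = _
        unfold kf
        rw [if_pos hv]
      rw [h3, if_neg (by simp)]
      rfl
    · rw [if_neg hv]
      refine Finset.sum_eq_zero fun y _ => ?_
      have h3 : (gf R (some (v, y) : Let d q.M q.K) : Option (Lab (Pos d) d)) = none := by
        show kf R (v, (y.1 : ℕ), y.2) = _
        unfold kf
        rw [if_neg hv]
      rw [if_pos h3]
  rw [Finset.sum_congr rfl fun v _ => h2 v, ← Finset.sum_filter]
  unfold SF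
  refine Finset.sum_bij (fun v _ => lft v) ?_ ?_ ?_ ?_
  · intro v hv
    rw [mem_box]
    exact (Finset.mem_filter.1 hv).2
  · intro v _ v' _ h
    rw [← tv_lft v, ← tv_lft v', h]
  · intro x hx
    rw [mem_box] at hx
    have h4 := lft_tv (M := q.M) hR hx
    exact ⟨tv x, Finset.mem_filter.2 ⟨Finset.mem_univ _, by rw [h4]; exact hx⟩, h4⟩
  · intro v _
    rfl

theorem none_weight (hd : 0 < d) (q : Par d m) {R : ℕ} (hR : 2 * R + 2 ≤ q.M) :
    (∑ a, if (gf R a : Option (Lab (Pos d) d)) = none then q.w a else 0) =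
      1 - SF m d R q.K q.p (fun _ => 1) := by
  have h := letters_split q hR (fun _ => 1)
  simp only [mul_one] at h
  rw [sum_w q hd] at h
  refine ENNReal.eq_sub_of_add_eq ?_ h.symm
  intro htop
  rw [htop] at h
  simp at h

/-- the law of the letters of the box does not depend on the torus -/
theorem law_letters (hd : 0 < d) (q : Par d m) {M' : ℕ} (h5 : 5 ≤ M') (hle : M' ≤ q.M) {R : ℕ}
    (hR : 2 * R + 2 ≤ M') (F : Option (Lab (Pos d) d) → ℝ≥0∞) :
    ∑ a, q.w a * F (gf R a) = ∑ a, (mkM q M' h5 hle).w a * F (gf R a) := by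
  rw [letters_split q (hR.trans hle), letters_split (mkM q M' h5 hle) hR,
    none_weight hd q (hR.trans hle), none_weight hd (mkM q M' h5 hle) hR]
  rfl

theorem law_words (hd : 0 < d) (q : Par d m) {M' : ℕ} (h5 : 5 ≤ M') (hle : M' ≤ q.M) {R : ℕ}
    (hR : 2 * R + 2 ≤ M') (N : ℕ) : ∀ F : List (Option (Lab (Pos d) d)) → ℝ≥0∞,
    EvE q.w N (fun l => F (l.map (gf R))) = EvE (mkM q M' h5 hle).w N (fun l => F (l.map (gf R))) := by
  induction N with
  | zero => intro F; rfl
  | succ N ih =>
    intro F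
    have h1 := law_letters hd q h5 hle hR
      (fun b => EvE (mkM q M' h5 hle).w N (fun l => F (b :: l.map (gf R))))
    refine Eq.trans ?_ h1
    show ∑ a, q.w a * EvE q.w N (fun l => F (gf R a :: l.map (gf R))) = _
    refine Finset.sum_congr rfl fun a _ => ?_
    rw [ih (fun l => F (gf R a :: l))]

/-! ### the configuration in the box -/

/-- extension by zero -/
def ext0 (R : ℕ) (ζ : {x : Pos d // x ∈ box d R} → ℕ) (x : Pos d) : ℕ :=
  if h : x ∈ box d R then ζ ⟨x, h⟩ else 0

theorem law_cfg (m1 : ℕ → ℝ≥0∞) (h1 : ∑' k, m1 k = 1) {M : ℕ} [NeZero M] {R : ℕ}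
    (hR : 2 * R + 2 ≤ M) (F : (Pos d → ℕ) → ℝ≥0∞) :
    ∑' η : Tor d M → ℕ, prw m1 η * F (ini0 R η) =
      ∑' ζ : {x : Pos d // x ∈ box d R} → ℕ, (∏ x, m1 (ζ x)) * F (ext0 R ζ) := by
  set S : Tor d M → Prop := fun v => lft v ∈ box d R with hS
  set e := Equiv.piEquivPiSubtypeProd S (fun _ => ℕ) with he
  rw [← Equiv.tsum_eq e.symm, ENNReal.tsum_prod']
  -- the box
  have hb : ∀ x : Pos d, x ∈ box d R → (tv x : Tor d M) ∈ {v | S v} ∧ lft (tv x : Tor d M) = x := by
    intro x hx
    have h2 := lft_tv (M := M) hR (mem_box.1 hx)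
    refine ⟨?_, h2⟩
    show lft (tv x : Tor d M) ∈ box d R
    rw [h2]
    exact hx
  set f : {v : Tor d M // S v} ≃ {x : Pos d // x ∈ box d R} :=
    { toFun := fun v => ⟨lft v.1, v.2⟩
      invFun := fun x => ⟨tv x.1, (hb x.1 x.2).1⟩
      left_inv := fun v => Subtype.ext (tv_lft v.1)
      right_inv := fun x => Subtype.ext (hb x.1 x.2).2 } with hf
  rw [← Equiv.tsum_eq (Equiv.arrowCongr f.symm (Equiv.refl ℕ))]
  refine tsum_congr fun ζ => ?_
  have h3 : ∀ b : {v : Tor d M // ¬ S v} → ℕ,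
      prw m1 (e.symm ((Equiv.arrowCongr f.symm (Equiv.refl ℕ)) ζ, b)) =
        (∏ x, m1 (ζ x)) * ∏ v, m1 (b v) := by
    intro b
    unfold prw
    rw [← Fintype.prod_subtype_mul_prod_subtype S]
    congr 1
    · rw [← Equiv.prod_comp f.symm]
      refine Finset.prod_congr rfl fun x _ => ?_
      congr 1
      have h4 : S (f.symm x).1 := (f.symm x).2
      rw [he, Equiv.piEquivPiSubtypeProd_symm_apply, dif_pos h4]
      simp [Equiv.arrowCongr]
    · refine Finset.prod_congr rfl fun v _ => ?_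
      congr 1
      rw [he, Equiv.piEquivPiSubtypeProd_symm_apply, dif_neg v.2]
  have h4 : ∀ b : {v : Tor d M // ¬ S v} → ℕ,
      ini0 R (e.symm ((Equiv.arrowCongr f.symm (Equiv.refl ℕ)) ζ, b)) = ext0 R ζ := by
    intro b
    funext x
    unfold ini0 ext0
    by_cases hx : x ∈ box d R
    · rw [if_pos (mem_box.1 hx), dif_pos hx]
      have h5 : S (tv x : Tor d M) := (hb x hx).1
      rw [he, Equiv.piEquivPiSubtypeProd_symm_apply, dif_pos h5]
      show ζ (f ⟨tv x, h5⟩) = _
      congr 1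
      exact Subtype.ext (hb x hx).2
    · rw [if_neg (fun h => hx (mem_box.2 h)), dif_neg hx]
  have h5 : ∀ b : {v : Tor d M // ¬ S v} → ℕ,
      prw m1 (e.symm ((Equiv.arrowCongr f.symm (Equiv.refl ℕ)) ζ, b)) *
        F (ini0 R (e.symm ((Equiv.arrowCongr f.symm (Equiv.refl ℕ)) ζ, b))) =
      ((∏ x, m1 (ζ x)) * F (ext0 R ζ)) * ∏ v, m1 (b v) := by
    intro b
    rw [h3, h4]
    ring
  have h6 : ∑' b : {v : Tor d M // ¬ S v} → ℕ, ∏ v, m1 (b v) = 1 := by
    rw [tsum_prod_aux _ (fun _ => m1), h1, Finset.prod_const_one]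
  rw [tsum_congr h5, ENNReal.tsum_mul_left, h6, mul_one]

/-- the law of the killed box does not depend on the torus -/
theorem law_EE (hd : 0 < d) (q : Par d m) {M' : ℕ} (h5 : 5 ≤ M') (hle : M' ≤ q.M) {R : ℕ}
    (hR : 2 * R + 2 ≤ M') (N : ℕ) (F : (Pos d → ℕ) → List (Option (Lab (Pos d) d)) → ℝ≥0∞) :
    q.EE N (fun η l => F (ini0 R η) (l.map (gf R))) =
      (mkM q M' h5 hle).EE N (fun η l => F (ini0 R η) (l.map (gf R))) := by
  have hm1 := tsum_m1 m q.K q.K_ge q.K_big
  unfold Par.EE
  have h1 := law_cfg (d := d) (m.m1 q.K) hm1 (M := q.M) (R := R) (hR.trans hle)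
    (fun ζ => EvE q.w N (fun l => F ζ (l.map (gf R))))
  have h2 := law_cfg (d := d) (m.m1 q.K) hm1 (M := (mkM q M' h5 hle).M) (R := R) hR
    (fun ζ => EvE (mkM q M' h5 hle).w N (fun l => F ζ (l.map (gf R))))
  refine h1.trans (Eq.trans ?_ h2.symm)
  refine tsum_congr fun ζ => ?_
  rw [law_words hd q h5 hle hR N (F (ext0 R ζ))]

theorem law_PP (hd : 0 < d) (q : Par d m) {M' : ℕ} (h5 : 5 ≤ M') (hle : M' ≤ q.M) {R : ℕ}
    (hR : 2 * R + 2 ≤ M') (N : ℕ) (F : (Pos d → ℕ) → List (Option (Lab (Pos d) d)) → Prop) :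
    q.PP N (fun η l => F (ini0 R η) (l.map (gf R))) =
      (mkM q M' h5 hle).PP N (fun η l => F (ini0 R η) (l.map (gf R))) :=
  law_EE hd q h5 hle hR N (fun ζ u => if F ζ u then 1 else 0)

/-! ### prefixes -/

theorem PP_take (hd : 0 < d) (q : Par d m) (N N' : ℕ) (h : N ≤ N')
    (E : (Tor d q.M → ℕ) → List (Let d q.M q.K) → Prop) :
    q.PP N' (fun η l => E η (l.take N)) = q.PP N E := by
  obtain ⟨R, rfl⟩ := Nat.exists_eq_add_of_le h
  unfold Par.PP Par.EE
  refine tsum_congr fun η => ?_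
  congr 1
  rw [EvE_take_drop q.w R N (fun l _ => if E η l then 1 else 0)]
  congr 1
  funext l
  exact EvE_const q.w (sum_w q hd) _ _

/-! ### one particle more -/

/-- at least one particle at `v` -/
def oc {V : Type} (η : V → ℕ) (v : V) : V → ℕ := fun w => if w = v then max 1 (η v) else η w

theorem oc_eq {V : Type} [DecidableEq V] (η : V → ℕ) (v : V) :
    oc η v = Function.update η v (max 1 (η v)) := by
  funext w
  unfold oc
  by_cases h : w = v
  · subst h
    rw [if_pos rfl, Function.update_self]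
  · rw [if_neg h, Function.update_of_ne h]

theorem EE_oc (q : Par d m) (v : Tor d q.M) (N : ℕ)
    (F : (Tor d q.M → ℕ) → List (Let d q.M q.K) → ℝ≥0∞) :
    q.EE N (fun η l => F (oc η v) l) ≤ ENNReal.ofReal (1 + m.g 1 / m.φ) *
      q.EE N (fun η l => if 0 < η v then F η l else 0) := by
  unfold Par.EE
  have hφ := m.φ_pos
  have hφ0 : ENNReal.ofReal m.φ ≠ 0 := by
    rw [Ne, ENNReal.ofReal_eq_zero, not_le]
    exact hφ
  have hg1 : 0 < m.g 1 := g_pos m 0
  set G : (Tor d q.M → ℕ) → ℝ≥0∞ := fun η => EvE q.w N (F η) with hG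
  have hEv : ∀ η : Tor d q.M → ℕ, EvE q.w N (fun l => if 0 < η v then F η l else 0) =
      if 0 < η v then G η else 0 := by
    intro η
    by_cases h : 0 < η v
    · simp only [if_pos h]
      rfl
    · simp only [if_neg h]
      have h1 := EvE_mul q.w N 0 (fun _ => (0 : ℝ≥0∞))
      simpa using h1
  simp only [hEv]
  -- split
  have hsplit : ∀ η : Tor d q.M → ℕ, prw (m.m1 q.K) η * EvE q.w N (fun l => F (oc η v) l) =
      prw (m.m1 q.K) η * (if 0 < η v then G η else 0) +
        prw (m.m1 q.K) η * (if η v = 0 then G (Function.update η v (η v + 1)) else 0) := by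
    intro η
    by_cases h : 0 < η v
    · rw [if_pos h, if_neg (by omega), mul_zero, add_zero]
      have h1 : oc η v = η := by
        rw [oc_eq, max_eq_right (by omega)]
        exact Function.update_eq_self v η
      rw [h1]
    · have h0 : η v = 0 := by omega
      rw [if_neg h, if_pos h0, mul_zero, zero_add]
      have h1 : oc η v = Function.update η v (η v + 1) := by
        rw [oc_eq, h0]
        rfl
      rw [h1]
  rw [tsum_congr hsplit, ENNReal.tsum_add]
  have hs := shift_prw q v (fun η => if η v = 1 then G η else 0)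
  have h2 : ∑' η : Tor d q.M → ℕ, prw (m.m1 q.K) η *
      (ENNReal.ofReal (m.gK q.K (η v)) * (if η v = 1 then G η else 0)) ≤
      ENNReal.ofReal (m.g 1) * ∑' η : Tor d q.M → ℕ, prw (m.m1 q.K) η * (if 0 < η v then G η else 0) := by
    rw [← ENNReal.tsum_mul_left]
    refine ENNReal.tsum_le_tsum fun η => ?_
    by_cases h : η v = 1
    · rw [if_pos h, if_pos (by omega), h]
      have h3 : m.gK q.K 1 = m.g 1 := by
        unfold Model.gK
        rw [min_eq_left (by have := q.K_ge; omega)]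
      rw [h3]
      exact le_of_eq (by ring)
    · rw [if_neg h, mul_zero, mul_zero]
      exact zero_le
  have h3 : ∑' η : Tor d q.M → ℕ, prw (m.m1 q.K) η *
      (if η v = 0 then G (Function.update η v (η v + 1)) else 0) =
      ∑' η : Tor d q.M → ℕ, prw (m.m1 q.K) η *
        (fun η => if η v = 1 then G η else 0) (Function.update η v (η v + 1)) := by
    refine tsum_congr fun η => ?_
    congr 1
    simp only [Function.update_self]
    by_cases h : η v = 0
    · rw [if_pos h, if_pos (by omega)]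
    · rw [if_neg h, if_neg (by omega)]
  rw [h3]
  rw [hs] at h2
  have h4 : ∑' η : Tor d q.M → ℕ, prw (m.m1 q.K) η *
        (fun η => if η v = 1 then G η else 0) (Function.update η v (η v + 1)) ≤
      ENNReal.ofReal (m.g 1 / m.φ) *
        ∑' η : Tor d q.M → ℕ, prw (m.m1 q.K) η * (if 0 < η v then G η else 0) := by
    rw [ENNReal.ofReal_div_of_pos hφ, ENNReal.div_eq_inv_mul, mul_assoc]
    rw [← ENNReal.inv_mul_le_iff (by
      rw [Ne, ENNReal.inv_eq_zero]
      exact ENNReal.ofReal_ne_top) (by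
      rw [Ne, ENNReal.inv_eq_top]
      exact hφ0), inv_inv]
    exact h2
  rw [ENNReal.ofReal_add zero_le_one (div_nonneg hg1.le hφ.le), ENNReal.ofReal_one, add_mul, one_mul]
  exact add_le_add le_rfl h4

end ZI.BX
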