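import Pool.Agent.ZP.BS1
import Pool.Agent.ZP.M0
import Pool.Agent.ZI.F1cA
import Pool.Agent.ZI.D0
import Pool.Agent.ZI.C2

/-! # Row BS, part 2: the good event of the small torus and the infection in the killed box (deterministic) -/

set_option autoImplicit false

open scoped ENNReal BigOperators Classical

noncomputable section

namespace ZI.BX

open ZI ZI.LK

variable {d : ℕ} {m : Model}

/-- the infection of the killed box from `{x}`, restricted to `G`, after the letters `u` of the box -/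
def kin (R : ℕ) (G : Set (Pos d)) (x : Pos d) (ζ : Pos d → ℕ) (u : List (Option (Lab (Pos d) d))) :
    Set (Pos d) :=
  (u.foldl (stR id (nbB R) id G) (ζ, {x})).2

/-- the configuration of the killed box -/
def kco (R : ℕ) (ζ : Pos d → ℕ) (u : List (Option (Lab (Pos d) d))) : Pos d → ℕ :=
  u.foldl (stF id (nbB R)) ζ

theorem fold_map_stR {M K R : ℕ} (G : Set (Pos d)) (w : List (Let d M K)) : ∀ s : (Pos d → ℕ) × Set (Pos d),
    (w.map (gf R)).foldl (stR id (nbB R) id G) s = w.foldl (stR (gf R) (nbB R) id G) s := by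
  intro s
  rw [List.foldl_map]
  rfl

theorem fold_map_stF {M K R : ℕ} (w : List (Let d M K)) : ∀ s : Pos d → ℕ,
    (w.map (gf R)).foldl (stF id (nbB R)) s = w.foldl (stF (gf R) (nbB R)) s := by
  intro s
  rw [List.foldl_map]
  rfl

/-! ### monotonicity -/

theorem infMv_mono' {V : Type} {nb : V → Dir d → Option V} {pr : Pos d → V} {η : V → ℕ}
    {A A' : Set (Pos d)} (h : A ⊆ A') (l : Lab V d) : infMv nb pr η A l ⊆ infMv nb pr η A' l := by
  unfold infMv
  split
  · rintro z (⟨h1, h2⟩ | ⟨h1, h2⟩)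
    · exact Or.inl ⟨h h1, h2⟩
    · exact Or.inr ⟨h h1, h2⟩
  · exact h

theorem fold_mono {α V : Type} {f : α → Option (Lab V d)} {nb : V → Dir d → Option V}
    {pr : Pos d → V} {G G' : Set (Pos d)} (hG : G ⊆ G') (L : List α) :
    ∀ (η : V → ℕ) (A A' : Set (Pos d)), A ⊆ A' →
      (L.foldl (stR f nb pr G) (η, A)).2 ⊆ (L.foldl (stR f nb pr G') (η, A')).2 := by
  induction L with
  | nil => exact fun η A A' h => h
  | cons a L ih =>
    intro η A A' h
    rw [List.foldl_cons, List.foldl_cons]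
    unfold stR
    cases hf : f a with
    | none => exact ih η A A' h
    | some b => exact ih _ _ _ (Set.inter_subset_inter (infMv_mono' h b) hG)

theorem kin_mono {R : ℕ} {G G' : Set (Pos d)} (hG : G ⊆ G') (x : Pos d) (ζ : Pos d → ℕ)
    (u : List (Option (Lab (Pos d) d))) : kin R G x ζ u ⊆ kin R G' x ζ u :=
  fold_mono hG u ζ _ _ le_rfl

/-! ### from environments to letters -/

section env

variable (q : Par d m) (R : ℕ) (hR : 2 * R + 2 ≤ q.M) (η : Tor d q.M → ℕ) (l : List (Let d q.M q.K))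

theorem inf_sub (G : Set (Pos d)) (x : Pos d) (j : ℕ) :
    inf (nbB R) id (ini0 R η) (un (gf R) q.N1 l) (fun _ => G) 0 {x} j ⊆
      ((l.take (j * q.N1)).foldl (stR (gf R) (nbB R) id G) (ini0 R η, {x})).2 := by
  induction j with
  | zero =>
    rintro z ⟨h1, -, -⟩
    rw [Nat.zero_mul, List.take_zero]
    exact h1
  | succ j ih =>
    rw [inf, zero_add, Nat.succ_mul, List.take_add, List.foldl_append]
    have h1 : cfg (nbB R) (ini0 R η) (un (gf R) q.N1 l) j =
        ((l.take (j * q.N1)).foldl (stR (gf R) (nbB R) id G) (ini0 R η, {x})).1 := by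
      rw [fold_stR_fst, cfg_un]
    have h2 : (l.take (j * q.N1)).foldl (stR (gf R) (nbB R) id G) (ini0 R η, {x}) =
        (cfg (nbB R) (ini0 R η) (un (gf R) q.N1 l) j,
          ((l.take (j * q.N1)).foldl (stR (gf R) (nbB R) id G) (ini0 R η, {x})).2) :=
      Prod.ext h1.symm rfl
    rw [h2]
    show ((un (gf R) q.N1 l j).foldl (stepR (nbB R) id G) _).2 ⊆ _
    unfold un
    rw [fold_stR]
    refine fold_mono le_rfl _ _ _ _ ?_
    intro z hz
    exact ih hz.1

include hR in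
theorem kill_R_kin {G : Set (Pos d)} {x y : Pos d} {t : ℕ}
    (h : (kill R (envT q η l)).R (fun _ => G) 0 x t y) :
    y ∈ kin R G x (ini0 R η) ((l.map (gf R)).take (t * q.N1)) := by
  obtain ⟨j, hj, hy⟩ := h
  rw [zero_add] at hj
  subst hj
  rw [kill_U q R hR] at hy
  have h1 := inf_sub q R η l G x t hy
  unfold kin
  rw [← List.map_take, fold_map_stR]
  exact h1

include hR in
theorem kill_vis_kin {G : Set (Pos d)} {x b : Pos d} {t : ℕ}
    (h : (kill R (envT q η l)).vis (fun _ => G) 0 x t b) :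
    ∃ i ≤ t * q.N1, b ∈ kin R G x (ini0 R η) ((l.map (gf R)).take i) := by
  obtain ⟨j, hj, hb⟩ := h
  rw [zero_add] at hj
  rw [kill_U q R hR] at hb
  have hb' : b ∈ visU (nbB R) id (ini0 R η) (un (gf R) q.N1 l) (fun _ => G) 0 {x} j := hb
  unfold visU at hb'
  rw [Set.mem_ofPred_eq, zero_add] at hb'
  unfold un at hb'
  rw [vis_letters] at hb'
  obtain ⟨i, hi, hz⟩ := hb'
  have hi' : i ≤ q.N1 := le_trans hi (List.length_take_le _ _)
  refine ⟨j * q.N1 + i, ?_, ?_⟩
  · have h1 : (j + 1) * q.N1 ≤ t * q.N1 := Nat.mul_le_mul_right _ hj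
    rw [Nat.succ_mul] at h1
    omega
  · unfold kin
    rw [← List.map_take, fold_map_stR, List.take_add, List.foldl_append]
    have h1 : cfg (nbB R) (ini0 R η) (un (gf R) q.N1 l) j =
        ((l.take (j * q.N1)).foldl (stR (gf R) (nbB R) id G) (ini0 R η, {x})).1 := by
      rw [fold_stR_fst, cfg_un]
    have h2 : (l.take (j * q.N1)).foldl (stR (gf R) (nbB R) id G) (ini0 R η, {x}) =
        (cfg (nbB R) (ini0 R η) (un (gf R) q.N1 l) j,
          ((l.take (j * q.N1)).foldl (stR (gf R) (nbB R) id G) (ini0 R η, {x})).2) :=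
      Prod.ext h1.symm rfl
    rw [h2]
    have h3 : ((l.drop (j * q.N1)).take q.N1).take i = (l.drop (j * q.N1)).take i := by
      rw [List.take_take, min_eq_left hi']
    rw [h3] at hz
    refine fold_mono le_rfl _ _ _ _ ?_ hz
    intro z hz
    exact inf_sub q R η l G x j hz.1

include hR in
theorem kill_occ_kco (t : ℕ) (b : Pos d) :
    (kill R (envT q η l)).occ t b ↔ 0 < kco R (ini0 R η) ((l.map (gf R)).take (t * q.N1)) b := by
  show 0 < cfg (nbB R) (ini0 R η) (kill R (envT q η l)).U t b ↔ _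
  rw [kill_U q R hR, cfg_un]
  unfold kco
  rw [← List.map_take, fold_map_stF]

end env

/-! ### the event -/

/-- what the infection from `x` does in the killed box within `N` letters -/
def KE (R L N : ℕ) (G : Set (Pos d)) (ζ : Pos d → ℕ) (u : List (Option (Lab (Pos d) d))) (x : Pos d) :
    Prop :=
  (∀ z' : Pos d, ZP.l1 z' ≤ 1 → ∃ y ∈ ZP.cell L z', y ∈ kin R G x ζ (u.take N)) ∧
  (∀ b ∈ ZP.cell (d := d) L 0, ∃ i ≤ N, b ∈ kin R G x ζ (u.take i)) ∧
  (∀ b ∈ ZP.cell (d := d) L 0, 0 < kco R ζ (u.take N) b → b ∈ kin R G x ζ (u.take N))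

theorem nrm_le_of (hd : 0 < d) {v : Pos d} {B : ℕ} (h : ∀ j, (v j).natAbs ≤ B) :
    nrm v ≤ d * B := by
  have h1 : supn (-v) ≤ B := by
    rw [supn_le]
    intro j
    simp only [Pi.neg_apply, Int.natAbs_neg]
    exact h j
  have h2 := C2.nrm_le_supn hd (-v) B h1
  rw [neg_neg] at h2
  push_cast at h2
  exact h2

theorem ke_of_good (hd : 0 < d) (q : Par d m) {R L r κ Cv S Dm τ : ℕ} (hR : 2 * R + 2 ≤ q.M)
    (hL : 2 * r + 2 ≤ L) (hκ : 1 ≤ κ) (hr : 1 ≤ r) (hτ : (2 * d * L + 1) * κ ≤ τ) (hτr : 16 * r ^ 2 ≤ τ)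
    (hτS : τ ≤ S) (hD : 2 * d * L ≤ Dm) (hLR : L ≤ R) (hτR : 4 * τ ≤ R)
    (η : Tor d q.M → ℕ) (l : List (Let d q.M q.K))
    (hG : (envT q η l).Good r κ κ Cv S Dm) (hA : Agree τ (envT q η l) (kill R (envT q η l))) :
    (∃ x ∈ ZP.cell (d := d) L 0, 0 < ini0 R η x) ∧
    ∀ x ∈ ZP.cell (d := d) L 0, 0 < ini0 R η x →
      KE R L (τ * q.N1) {z | supn z ≤ 4 * τ} (ini0 R η) (l.map (gf R)) x := by
  have hcell0 : ∀ x ∈ ZP.cell (d := d) L 0, ∀ j, 0 ≤ x j ∧ x j < L := by
    intro x hx j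
    have := hx j
    simpa using this
  -- occupied points of a cell
  have hocc : ∀ t ≤ S, ∀ z' : Pos d, ∃ y ∈ ZP.cell (d := d) L z', (envT q η l).occ t y := by
    intro t ht z'
    obtain ⟨v, -, hv, ho⟩ := hG.g1 t ht (fun j => (L : ℤ) * z' j + (r + 1 : ℕ))
    refine ⟨_, ?_, ho⟩
    intro j
    have h1 := supn_le.1 hv j
    simp only [Pi.add_apply]
    omega
  have hLpos : 1 ≤ L := by omega
  have h2dL : 2 * d * L ≤ τ := by
    calc 2 * d * L ≤ 2 * d * L + 1 := Nat.le_succ _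
      _ ≤ (2 * d * L + 1) * κ := Nat.le_mul_of_pos_right _ hκ
      _ ≤ τ := hτ
  have hLd : 2 * L ≤ τ := by
    calc 2 * L ≤ 2 * d * L := by nlinarith
      _ ≤ τ := h2dL
  refine ⟨?_, ?_⟩
  · obtain ⟨y, hy, ho⟩ := hocc 0 (Nat.zero_le _) 0
    refine ⟨y, hy, ?_⟩
    unfold ini0
    rw [if_pos]
    · exact ho
    · rw [supn_le]
      intro j
      have := hcell0 y hy j
      omega
  · intro x hx hx0
    have hxo : (envT q η l).occ 0 x := by
      unfold ini0 at hx0
      split at hx0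
      · exact hx0
      · exact absurd hx0 (lt_irrefl 0)
    have hcellz : ∀ z' : Pos d, ZP.l1 z' ≤ 1 → ∀ y ∈ ZP.cell (d := d) L z', ∀ j,
        (x j - y j).natAbs ≤ 2 * L ∧ (y j).natAbs ≤ 2 * L := by
      intro z' hz' y hy j
      have h1 := hcell0 x hx j
      have h2 := hy j
      have h3 : (z' j).natAbs ≤ 1 :=
        le_trans (Finset.single_le_sum (f := fun j => (z' j).natAbs) (fun _ _ => Nat.zero_le _)
          (Finset.mem_univ j)) hz'
      have h4 : -(L : ℤ) ≤ L * z' j ∧ (L : ℤ) * z' j ≤ L := by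
        have h5 : -1 ≤ z' j ∧ z' j ≤ 1 := by omega
        constructor <;> nlinarith [h5.1, h5.2]
      omega
    -- distances
    have hdist : ∀ y : Pos d, (∀ j, (x j - y j).natAbs ≤ 2 * L ∧ (y j).natAbs ≤ 2 * L) →
        nrm (x - y) ≤ 2 * d * L := by
      intro y hy
      have h1 := nrm_le_of hd (v := x - y) (B := 2 * L) (fun j => by
        simp only [Pi.sub_apply]
        exact (hy j).1)
      push_cast at h1
      linarith
    have hfac : ∀ y : Pos d, (∀ j, (x j - y j).natAbs ≤ 2 * L ∧ (y j).natAbs ≤ 2 * L) →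
        nrm (x - y) ≤ Dm ∧ (nrm (x - y) + 1) * κ ≤ ((τ : ℕ) : ℝ) - ((0 : ℕ) : ℝ) := by
      intro y hy
      have h1 := hdist y hy
      have h2 : ((2 * d * L : ℕ) : ℝ) ≤ Dm := by exact_mod_cast hD
      have h3 : (((2 * d * L + 1) * κ : ℕ) : ℝ) ≤ τ := by exact_mod_cast hτ
      push_cast at h2 h3
      refine ⟨le_trans h1 h2, ?_⟩
      have hκ0 : (0 : ℝ) ≤ κ := by positivity
      calc (nrm (x - y) + 1) * κ ≤ (2 * d * L + 1) * κ := by
            apply mul_le_mul_of_nonneg_right _ hκ0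
            linarith
        _ ≤ τ := h3
        _ = ((τ : ℕ) : ℝ) - ((0 : ℕ) : ℝ) := by simp
    -- the balls are in the box of radius `4 τ`
    have hr1 : (1 : ℝ) ≤ r := by exact_mod_cast hr
    have hκ1 : (1 : ℝ) ≤ κ := by exact_mod_cast hκ
    have hτr' : 16 * (r : ℝ) ^ 2 ≤ τ := by exact_mod_cast hτr
    have hτ0 : (0 : ℝ) ≤ τ := by positivity
    have hsq : 4 * (r : ℝ) ≤ Real.sqrt τ := by
      apply Real.le_sqrt_of_sq_le
      linarith
    have hrs : 2 * (r : ℝ) * Real.sqrt τ ≤ τ / 2 := by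
      have h1 := Real.mul_self_sqrt hτ0
      nlinarith [Real.sqrt_nonneg (τ : ℝ)]
    have h2r : 2 * (r : ℝ) ≤ τ / 8 := by nlinarith
    have hτκ : (2 * d * L : ℝ) + κ ≤ τ := by
      have h3 : (((2 * d * L + 1) * κ : ℕ) : ℝ) ≤ τ := by exact_mod_cast hτ
      push_cast at h3
      have h4 : (0 : ℝ) ≤ 2 * d * L := by positivity
      nlinarith
    have hLd' : (2 * L : ℝ) ≤ τ := by exact_mod_cast hLd
    have hball : ∀ y : Pos d, (∀ j, (x j - y j).natAbs ≤ 2 * L ∧ (y j).natAbs ≤ 2 * L) →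
        ∀ ρ : ℝ, ρ ≤ 2 * d * L + κ + τ / 2 + τ / 8 → Ball y ρ ⊆ {z | supn z ≤ 4 * τ} := by
      intro y hy ρ hρ z hz
      have hz' : nrm (z - y) ≤ ρ := hz
      show supn z ≤ 4 * τ
      rw [supn_le]
      intro j
      have h1 : |((z - y) j : ℝ)| ≤ nrm (z - y) := by
        unfold nrm
        apply Real.abs_le_sqrt
        exact Finset.single_le_sum (f := fun j => (((z - y) j : ℤ) : ℝ) ^ 2) (fun _ _ => sq_nonneg _)
          (Finset.mem_univ j)
      have h2 := (hy j).2
      have h3 : |((z j : ℤ) : ℝ)| ≤ 4 * τ := by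
        have h4 : ((z j : ℤ) : ℝ) = ((z - y) j : ℝ) + (y j : ℝ) := by
          simp only [Pi.sub_apply]
          push_cast
          ring
        have h5 : |((y j : ℤ) : ℝ)| ≤ 2 * L := by
          have h6 : (((y j).natAbs : ℕ) : ℝ) ≤ ((2 * L : ℕ) : ℝ) := by exact_mod_cast h2
          rw [Nat.cast_natAbs] at h6
          push_cast at h6
          exact h6
        rw [h4]
        refine le_trans (abs_add_le _ _) ?_
        linarith
      have h7 : (((z j).natAbs : ℕ) : ℝ) ≤ ((4 * τ : ℕ) : ℝ) := by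
        rw [Nat.cast_natAbs]
        push_cast
        exact h3
      exact_mod_cast h7
    have hAR := hA.R (fun _ => {z | supn z ≤ 4 * τ}) (fun _ => le_rfl)
    have hAV := hA.vis (fun _ => {z | supn z ≤ 4 * τ}) (fun _ => le_rfl)
    have hconn : ∀ y : Pos d, (∀ j, (x j - y j).natAbs ≤ 2 * L ∧ (y j).natAbs ≤ 2 * L) →
        (envT q η l).occ τ y →
        y ∈ kin R {z | supn z ≤ 4 * τ} x (ini0 R η) ((l.map (gf R)).take (τ * q.N1)) := by
      intro y hy ho
      obtain ⟨f1, f2⟩ := hfac y hy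
      have h1 := hG.g3 0 τ x y (Nat.zero_le _) hτS hxo ho f1 f2
      have h2 : (envT q η l).R (fun _ => {z | supn z ≤ 4 * τ}) 0 x τ y := by
        refine Rows.R_mono (envT q η l) (fun _ => hball y hy _ ?_) h1
        have h3 := hdist y hy
        have h4 : ((τ : ℕ) : ℝ) - ((0 : ℕ) : ℝ) = τ := by simp
        rw [h4]
        nlinarith [hrs, h2r, h3]
      exact kill_R_kin q R hR η l ((hAR 0 τ x y le_rfl).1 h2)
    refine ⟨?_, ?_, ?_⟩
    · intro z' hz'
      obtain ⟨y, hy, ho⟩ := hocc τ hτS z'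
      exact ⟨y, hy, hconn y (hcellz z' hz' y hy) ho⟩
    · intro b hb
      have hb' : ∀ j, (x j - b j).natAbs ≤ 2 * L ∧ (b j).natAbs ≤ 2 * L := by
        intro j
        have h1 := hcell0 x hx j
        have h2 := hcell0 b hb j
        omega
      obtain ⟨f1, f2⟩ := hfac b hb'
      have h1 := hG.g3' 0 τ x b (Nat.zero_le _) hτS hxo f1 f2
      have h2 : (envT q η l).vis (fun _ => {z | supn z ≤ 4 * τ}) 0 x τ b := by
        refine Rows.vis_mono (envT q η l) (fun _ => hball b hb' _ ?_) h1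
        have h3 := hdist b hb'
        linarith
      exact kill_vis_kin q R hR η l ((hAV 0 τ x b le_rfl).1 h2)
    · intro b hb hb0
      have hb' : ∀ j, (x j - b j).natAbs ≤ 2 * L ∧ (b j).natAbs ≤ 2 * L := by
        intro j
        have h1 := hcell0 x hx j
        have h2 := hcell0 b hb j
        omega
      refine hconn b hb' ?_
      rw [hA.occ τ le_rfl b (by
        rw [supn_le]
        intro j
        have := (hb' j).2
        omega)]
      exact (kill_occ_kco q R hR η l τ b).2 hb0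

end ZI.BX
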