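import Pool.Agent.ZP.BS2
import Pool.Agent.ZP.PJ
import Pool.Agent.ZP.LK

/-! # Row BS, part 3: from the killed box to the events of the level `0` (deterministic) -/

set_option autoImplicit false

open scoped ENNReal BigOperators Classical

noncomputable section

namespace ZP.BS

open ZP

variable {d : ℕ} {m : Model} {δ : ℝ}

/-- recovery letter at a site of `Λ` -/
def RecA {M K : ℕ} (Λ : Set (Tor d M)) (a : Let d M (K + 1)) : Prop :=
  ∃ v ∈ Λ, ∃ e : Dir d, a = some (v, 0, e)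

theorem low_step {M K R : ℕ} [NeZero M] (hR : 2 * R + 2 ≤ M) {s : (Tor d M → ℕ) × Set (Pos d)}
    {s' : (Pos d → ℕ) × Set (Pos d)} (h : ZI.LK.Low M R s s') (a : Let d M (K + 1))
    (ha : ¬ RecA (Bt 0 R) a) :
    ZI.LK.Low M R (stepI Set.univ s (res (Bt 0 R) a))
      (ZI.LK.stR (ZI.LK.gf R) (nbB R) id Set.univ s' (prj a)) := by
  rcases a with _ | ⟨v, ⟨k, hk⟩, e⟩
  · exact h
  · cases k with
    | zero =>
      have hv : v ∉ (Bt 0 R : Set (Tor d M)) := fun hv => ha ⟨v, hv, e, rfl⟩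
      have h1 : res (Bt 0 R) (some (v, ⟨0, hk⟩, e) : Let d M (K + 1)) = none := if_neg hv
      rw [h1]
      exact h
    | succ k =>
      by_cases hv : v ∈ (Bt 0 R : Set (Tor d M))
      · have h1 : res (Bt 0 R) (some (v, ⟨k + 1, hk⟩, e) : Let d M (K + 1)) =
            some (v, ⟨k + 1, hk⟩, e) := if_pos hv
        rw [h1]
        exact ZI.LK.low_step hR h (some (v, ⟨k, Nat.lt_of_succ_lt_succ hk⟩, e) : Let d M K)
      · have h1 : res (Bt 0 R) (some (v, ⟨k + 1, hk⟩, e) : Let d M (K + 1)) = none := if_neg hv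
        rw [h1]
        have h2 : (ZI.LK.gf R (some (v, ⟨k, Nat.lt_of_succ_lt_succ hk⟩, e) : Let d M K) :
            Option (Lab (Pos d) d)) = none := by
          show ZI.LK.kf R (v, (k : ℕ), e) = none
          unfold ZI.LK.kf
          rw [if_neg]
          intro h3
          exact hv ⟨lft v, h3, by rw [zero_add, ZI.LK.tv_lft]⟩
        have h3 : ZI.LK.stR (ZI.LK.gf R) (nbB R) id Set.univ s'
            (prj (some (v, ⟨k + 1, hk⟩, e) : Let d M (K + 1))) = s' := by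
          show ZI.LK.stR (ZI.LK.gf R) (nbB R) id Set.univ s'
            (some (v, ⟨k, Nat.lt_of_succ_lt_succ hk⟩, e) : Let d M K) = s'
          unfold ZI.LK.stR
          rw [h2]
        rw [h3]
        exact h

theorem low_fold {M K R : ℕ} [NeZero M] (hR : 2 * R + 2 ≤ M) (w : List (Let d M (K + 1)))
    (hw : ∀ a ∈ w, ¬ RecA (Bt 0 R) a) :
    ∀ (s : (Tor d M → ℕ) × Set (Pos d)) (s' : (Pos d → ℕ) × Set (Pos d)), ZI.LK.Low M R s s' →
    ZI.LK.Low M R ((w.map (res (Bt 0 R))).foldl (stepI Set.univ) s)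
      ((w.map prj).foldl (ZI.LK.stR (ZI.LK.gf R) (nbB R) id Set.univ) s') := by
  induction w with
  | nil => exact fun s s' h => h
  | cons a w ih =>
    intro s s' h
    exact ih (fun b hb => hw b (List.mem_cons_of_mem _ hb)) _ _
      (low_step hR h a (hw a List.mem_cons_self))

theorem kin_sub_lin {M K R : ℕ} [NeZero M] (hR : 2 * R + 2 ≤ M) (η : Tor d M → ℕ) (x : Pos d)
    (hx : supn x ≤ R) (w : List (Let d M (K + 1))) (hw : ∀ a ∈ w, ¬ RecA (Bt 0 R) a)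
    (G : Set (Pos d)) :
    ZI.BX.kin R G x (ZI.LK.ini0 R (ZI.BX.oc η (tv x))) ((w.map prj).map (ZI.LK.gf R)) ⊆
      lin (Bt 0 R) η x w := by
  intro z hz
  have h1 := ZI.BX.kin_mono (Set.subset_univ G) x _ _ hz
  unfold ZI.BX.kin at h1
  rw [ZI.BX.fold_map_stR] at h1
  unfold lin
  refine (low_fold hR w hw (occ1 (cut (Bt 0 R) η) (tv x), {x})
    (ZI.LK.ini0 R (ZI.BX.oc η (tv x)), {x}) ⟨?_, le_rfl, ?_⟩).2.1 h1
  · intro y hy
    have hyB : (tv y : Tor d M) ∈ (Bt 0 R : Set (Tor d M)) := ⟨y, hy, by rw [zero_add]⟩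
    show ZI.LK.ini0 R (ZI.BX.oc η (tv x)) y ≤ occ1 (cut (Bt 0 R) η) (tv x) (tv y)
    unfold ZI.LK.ini0
    rw [if_pos hy, ZI.BX.oc_eq]
    unfold occ1
    by_cases h2 : (tv y : Tor d M) = tv x
    · rw [h2, Function.update_self, Function.update_self]
      rw [h2] at hyB
      unfold cut
      rw [if_pos hyB]
    · rw [Function.update_of_ne h2, Function.update_of_ne h2]
      unfold cut
      rw [if_pos hyB]
  · intro z hz
    have h2 : z = x := hz
    subst h2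
    refine ⟨hx, ?_⟩
    show 0 < ZI.LK.ini0 R (ZI.BX.oc η (tv z)) z
    unfold ZI.LK.ini0
    rw [if_pos hx, ZI.BX.oc_eq, Function.update_self]
    omega

theorem cell_supn {L : ℕ} {x : Pos d} (h : x ∈ cell (d := d) L 0) : supn x ≤ L := by
  rw [ZI.LK.supn_le]
  intro j
  have h1 := h j
  simp only [Pi.zero_apply, mul_zero, zero_add] at h1
  omega

theorem opn_of {M K N1 L τ : ℕ} [NeZero M] (hR : 2 * L ^ 2 + 2 ≤ M) (G : Set (Pos d))
    (η : Tor d M → ℕ) (w : List (Let d M (K + 1)))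
    (hw : ∀ a ∈ w.take (τ * N1), ¬ RecA (Bt 0 (L ^ 2)) a)
    (h1 : ∃ x ∈ cell (d := d) L 0, 0 < ZI.LK.ini0 (L ^ 2) η x)
    (h2 : ∀ x ∈ cell (d := d) L 0, ZI.BX.KE (L ^ 2) L (τ * N1) G
      (ZI.LK.ini0 (L ^ 2) (ZI.BX.oc η (tv x))) ((w.map prj).map (ZI.LK.gf (L ^ 2))) x) :
    Opn N1 L τ η w := by
  have hLL : L ≤ L ^ 2 := by nlinarith [Nat.zero_le L, Nat.eq_zero_or_pos L]
  have hsub : ∀ x ∈ cell (d := d) L 0, ∀ i ≤ τ * N1,
      ZI.BX.kin (L ^ 2) G x (ZI.LK.ini0 (L ^ 2) (ZI.BX.oc η (tv x)))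
        (((w.map prj).map (ZI.LK.gf (L ^ 2))).take i) ⊆ lin (Bt 0 (L ^ 2)) η x (w.take i) := by
    intro x hx i hi
    rw [← List.map_take, ← List.map_take]
    refine kin_sub_lin hR η x ((cell_supn hx).trans hLL) (w.take i) ?_ G
    intro a ha
    refine hw a ?_
    have h3 : (w.take (τ * N1)).take i = w.take i := by rw [List.take_take, min_eq_left hi]
    rw [← h3] at ha
    exact List.mem_of_mem_take ha
  refine ⟨?_, ?_, ?_⟩
  · obtain ⟨x, hx, h3⟩ := h1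
    refine ⟨x, hx, ?_⟩
    unfold ZI.LK.ini0 at h3
    rw [if_pos ((cell_supn hx).trans hLL)] at h3
    exact h3
  · intro x hx z' hz'
    obtain ⟨y, hy, h3⟩ := (h2 x hx).1 z' hz'
    exact ⟨y, hy, hsub x hx _ le_rfl h3⟩
  · intro x hx b hb
    obtain ⟨i, hi, h3⟩ := (h2 x hx).2.1 b hb
    exact ⟨i, hi, hsub x hx i hi h3⟩

/-! ### the converse for the killed box -/

theorem fold_sub {α V : Type} {f : α → Option (Lab V d)} {nb : V → Dir d → Option V} {pr : Pos d → V}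
    {G : Set (Pos d)} (L : List α) : ∀ s : (V → ℕ) × Set (Pos d), s.2 ⊆ G →
      (L.foldl (ZI.LK.stR f nb pr G) s).2 ⊆ G := by
  induction L with
  | nil => exact fun s h => h
  | cons a L ih => exact fun s h => ih _ (ZI.LK.stR_sub G s a h)

theorem sub_inf (q : ZI.Par d m) (R : ℕ) (η : Tor d q.M → ℕ) (l : List (Let d q.M q.K))
    (G : Set (Pos d)) (x : Pos d) (hx : x ∈ G) (h0 : 0 < ZI.LK.ini0 R η x) (j : ℕ) :
    ((l.take (j * q.N1)).foldl (ZI.LK.stR (ZI.LK.gf R) (nbB R) id G) (ZI.LK.ini0 R η, {x})).2 ⊆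
      ZI.inf (nbB R) id (ZI.LK.ini0 R η) (ZI.LK.un (ZI.LK.gf R) q.N1 l) (fun _ => G) 0 {x} j := by
  induction j with
  | zero =>
    rw [Nat.zero_mul, List.take_zero]
    intro z hz
    have h1 : z = x := hz
    subst h1
    exact ⟨rfl, hx, h0⟩
  | succ j ih =>
    rw [ZI.inf, zero_add, Nat.succ_mul, List.take_add, List.foldl_append]
    have h1 : ZI.cfg (nbB R) (ZI.LK.ini0 R η) (ZI.LK.un (ZI.LK.gf R) q.N1 l) j =
        ((l.take (j * q.N1)).foldl (ZI.LK.stR (ZI.LK.gf R) (nbB R) id G) (ZI.LK.ini0 R η, {x})).1 := by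
      rw [ZI.LK.fold_stR_fst, ZI.LK.cfg_un]
    have h2 : (l.take (j * q.N1)).foldl (ZI.LK.stR (ZI.LK.gf R) (nbB R) id G) (ZI.LK.ini0 R η, {x}) =
        (ZI.cfg (nbB R) (ZI.LK.ini0 R η) (ZI.LK.un (ZI.LK.gf R) q.N1 l) j,
          ((l.take (j * q.N1)).foldl (ZI.LK.stR (ZI.LK.gf R) (nbB R) id G) (ZI.LK.ini0 R η, {x})).2) :=
      Prod.ext h1.symm rfl
    rw [h2]
    show _ ⊆ ((ZI.LK.un (ZI.LK.gf R) q.N1 l j).foldl (ZI.stepR (nbB R) id G) _).2
    unfold ZI.LK.un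
    rw [ZI.LK.fold_stR]
    refine ZI.BX.fold_mono le_rfl _ _ _ _ ?_
    intro z hz
    refine ⟨ih hz, fold_sub _ _ ?_ hz⟩
    intro y hy
    have h3 : y = x := hy
    exact h3 ▸ hx

/-! ### from environments to letters, with recovery -/

theorem stepI_eq {M K : ℕ} (G : Set (Pos d)) :
    (stepI G : (Tor d M → ℕ) × Set (Pos d) → Let d M K → _) = ZP.LK.stR toLab nbT tv G := by
  funext s a
  unfold stepI ZP.LK.stR
  cases toLab a <;> rfl

theorem infMv_mono' {V : Type} {nb : V → Dir d → Option V} {pr : Pos d → V} {η : V → ℕ}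
    {A A' : Set (Pos d)} (h : A ⊆ A') (l : Lab V d) : infMv nb pr η A l ⊆ infMv nb pr η A' l := by
  obtain ⟨v, k, e⟩ := l
  cases k with
  | zero => exact fun z hz => ⟨h hz.1, hz.2⟩
  | succ k => exact ZI.BX.infMv_mono' h _

theorem stepI_mono {M K : ℕ} {G G' : Set (Pos d)} (hG : G ⊆ G') (w : List (Let d M K)) :
    ∀ (η : Tor d M → ℕ) (A A' : Set (Pos d)), A ⊆ A' →
      (w.foldl (stepI G) (η, A)).2 ⊆ (w.foldl (stepI G') (η, A')).2 := by
  induction w with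
  | nil => exact fun η A A' h => h
  | cons a w ih =>
    intro η A A' h
    rw [List.foldl_cons, List.foldl_cons]
    unfold stepI
    cases hf : toLab a with
    | none => exact ih η A A' h
    | some b => exact ih _ _ _ (Set.inter_subset_inter (infMv_mono' h b) hG)

theorem inf_sub (q : Par d m δ) (η : Tor d q.M → ℕ) (w : List (Let d q.M (q.K + 1))) (G : Set (Pos d))
    (x : Pos d) (j : ℕ) :
    inf nbT tv η (ZP.LK.un toLab q.N1 w) (fun _ => G) 0 {x} j ⊆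
      ((w.take (j * q.N1)).foldl (stepI G) (η, {x})).2 := by
  rw [stepI_eq]
  induction j with
  | zero =>
    rintro z ⟨h1, -, -⟩
    rw [Nat.zero_mul, List.take_zero]
    exact h1
  | succ j ih =>
    rw [inf, zero_add, Nat.succ_mul, List.take_add, List.foldl_append]
    have h1 : cfg nbT η (ZP.LK.un toLab q.N1 w) j =
        ((w.take (j * q.N1)).foldl (ZP.LK.stR toLab nbT tv G) (η, {x})).1 := by
      rw [ZP.LK.fold_stR_fst, ZP.LK.cfg_un]
    have h2 : (w.take (j * q.N1)).foldl (ZP.LK.stR toLab nbT tv G) (η, {x}) =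
        (cfg nbT η (ZP.LK.un toLab q.N1 w) j,
          ((w.take (j * q.N1)).foldl (ZP.LK.stR toLab nbT tv G) (η, {x})).2) :=
      Prod.ext h1.symm rfl
    rw [h2]
    show ((ZP.LK.un toLab q.N1 w j).foldl (stepR nbT tv G) _).2 ⊆ _
    unfold ZP.LK.un
    rw [ZP.LK.fold_stR, ← stepI_eq]
    refine stepI_mono le_rfl _ _ _ _ ?_
    intro z hz
    have h3 := ih hz.1
    rw [← stepI_eq] at h3
    exact h3

theorem noRec_of (q : Par d m δ) {L τ : ℕ} (h4 : 4 * τ ≤ L ^ 2) (η : Tor d q.M → ℕ)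
    (w : List (Let d q.M (q.K + 1)))
    (hw : ∀ a ∈ w.take (τ * q.N1), ¬ RecA (Bt 0 (L ^ 2)) a) :
    (envT q η w).NoRec {z | supn z ≤ 4 * τ} 0 τ := by
  intro t' _ ht' l hl h0 z hz hzl
  have hl' : l ∈ ((w.drop (t' * q.N1)).take q.N1).filterMap toLab := hl
  obtain ⟨a, ha, hal⟩ := List.mem_filterMap.1 hl'
  have ha' : a ∈ w.take (τ * q.N1) := by
    have h1 : (t' + 1) * q.N1 ≤ τ * q.N1 := Nat.mul_le_mul_right _ ht'
    have h2 : w.take ((t' + 1) * q.N1) = w.take (t' * q.N1) ++ (w.drop (t' * q.N1)).take q.N1 := by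
      rw [Nat.succ_mul, List.take_add]
    have h3 : a ∈ w.take ((t' + 1) * q.N1) := by
      rw [h2]
      exact List.mem_append_right _ ha
    have h4 : (w.take (τ * q.N1)).take ((t' + 1) * q.N1) = w.take ((t' + 1) * q.N1) := by
      rw [List.take_take, min_eq_left h1]
    rw [← h4] at h3
    exact List.mem_of_mem_take h3
  refine hw a ha' ?_
  rcases a with _ | ⟨v, k, e⟩
  · exact absurd hal (by simp [toLab])
  · have h5 : (v, (k : ℕ), e) = l := Option.some.inj hal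
    subst h5
    have h6 : (k : ℕ) = 0 := h0
    refine ⟨v, ⟨z, le_trans hz h4, ?_⟩, e, ?_⟩
    · rw [zero_add]
      exact hzl.symm
    · have h7 : k = 0 := Fin.ext h6
      rw [h7]

theorem fopn_of (q : Par d m δ) {L τ : ℕ} (hR : 2 * L ^ 2 + 2 ≤ q.M) (h4 : 4 * τ ≤ L ^ 2)
    (hLτ : L ≤ 4 * τ) (η : Tor d q.M → ℕ) (w : List (Let d q.M (q.K + 1)))
    (hw : ∀ a ∈ w.take (τ * q.N1), ¬ RecA (Bt 0 (L ^ 2)) a)
    (h2 : ∀ x ∈ cell (d := d) L 0, 0 < ZI.LK.ini0 (L ^ 2) η x →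
      ZI.BX.KE (L ^ 2) L (τ * q.N1) {z | supn z ≤ 4 * τ}
        (ZI.LK.ini0 (L ^ 2) η) ((w.map prj).map (ZI.LK.gf (L ^ 2))) x)
    (hA : ZI.Agree τ (ZI.envT q.toZI η (w.map prj)) (ZI.kill (L ^ 2) (ZI.envT q.toZI η (w.map prj)))) :
    FOpn q.N1 L τ η w := by
  intro x hx hx0 b hb hb0
  have hLL : L ≤ L ^ 2 := hLτ.trans h4
  have hx0' : 0 < ZI.LK.ini0 (L ^ 2) η x := by
    unfold ZI.LK.ini0
    rw [if_pos ((cell_supn hx).trans hLL)]
    exact hx0
  have hxG : x ∈ {z : Pos d | supn z ≤ 4 * τ} := (cell_supn hx).trans hLτ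
  -- occupation
  have h5 : (envT q η w).occ τ b := by
    show 0 < cfg nbT η (ZP.LK.un toLab q.N1 w) τ (tv b)
    rw [ZP.LK.cfg_un]
    have h6 : (ZP.LK.stF toLab nbT : (Tor d q.M → ℕ) → Let d q.M (q.K + 1) → _) = stepA := by
      funext η a
      exact ZP.LK.stF_toLab η a
    rw [h6]
    exact hb0
  rw [ZP.Rows.occ_toZI, ZP.Rows.envT_toZI, hA.occ τ le_rfl b ((cell_supn hb).trans hLτ),
    ZI.BX.kill_occ_kco q.toZI (L ^ 2) hR] at h5
  have h6 := (h2 x hx hx0').2.2 b hb h5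
  -- back
  have h7 : (ZI.kill (L ^ 2) (ZI.envT q.toZI η (w.map prj))).R
      (fun _ => {z | supn z ≤ 4 * τ}) 0 x τ b := by
    refine ⟨τ, (zero_add τ).symm, ?_⟩
    rw [ZI.LK.kill_U q.toZI (L ^ 2) hR]
    refine sub_inf q.toZI (L ^ 2) η (w.map prj) _ x hxG hx0' τ ?_
    unfold ZI.BX.kin at h6
    rw [← List.map_take, ZI.BX.fold_map_stR] at h6
    exact h6
  rw [← hA.R (fun _ => {z | supn z ≤ 4 * τ}) (fun _ => le_rfl) 0 τ x b le_rfl,
    ← ZP.Rows.envT_toZI] at h7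
  have h8 := ZP.Rows.R_of_noRec (envT q η w) (noRec_of q h4 η w hw) h7
  obtain ⟨j, hj, h9⟩ := h8
  rw [zero_add] at hj
  subst hj
  have h10 := inf_sub q η w _ x _ h9
  unfold rin
  refine stepI_mono ?_ _ _ _ _ le_rfl h10
  intro z hz
  exact le_trans hz h4

end ZP.BS
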