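import Pool.Agent.ZP.BS3
import Pool.Agent.ZP.SF2
import Pool.Agent.ZI.F1cA

/-! # Row BS, part 4: probabilities -/

set_option autoImplicit false

open scoped ENNReal BigOperators Classical

noncomputable section

namespace ZI.BX

open ZI ZI.LK ZI.Rows

variable {d : ℕ} {m : Model}

/-! ### cutting the words -/

theorem un_take {α V : Type} (f : α → Option (Lab V d)) (N1 T t : ℕ) (ht : t < T) (w : List α) :
    un f N1 (w.take (T * N1)) t = un f N1 w t := by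
  unfold un
  have h1 : (t + 1) * N1 ≤ T * N1 := Nat.mul_le_mul_right _ ht
  rw [Nat.succ_mul] at h1
  rw [List.drop_take, List.take_take, min_eq_left (by omega)]

theorem env_congr {V : Type} (nb : V → Dir d → Option V) (pr : Pos d → V) (η0 : V → ℕ)
    {U U' : ℕ → List (Lab V d)} {N : ℕ} (h : ∀ t < N, U t = U' t) :
    (∀ t ≤ N, ∀ x, (⟨V, nb, pr, η0, U⟩ : Env d).occ t x ↔ (⟨V, nb, pr, η0, U'⟩ : Env d).occ t x) ∧
    (∀ G s t x y, t ≤ N → ((⟨V, nb, pr, η0, U⟩ : Env d).R G s x t y ↔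
      (⟨V, nb, pr, η0, U'⟩ : Env d).R G s x t y)) ∧
    (∀ G s t x y, t ≤ N → ((⟨V, nb, pr, η0, U⟩ : Env d).vis G s x t y ↔
      (⟨V, nb, pr, η0, U'⟩ : Env d).vis G s x t y)) := by
  refine ⟨fun t ht x => ?_, fun G s t x y ht => ?_, fun G s t x y ht => ?_⟩
  · show 0 < cfg nb η0 U t (pr x) ↔ 0 < cfg nb η0 U' t (pr x)
    rw [F1c.cfg_congr nb η0 h t ht]
  · show (∃ j, t = s + j ∧ y ∈ inf nb pr η0 U G s {x} j) ↔ ∃ j, t = s + j ∧ y ∈ inf nb pr η0 U' G s {x} j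
    refine exists_congr fun j => and_congr_right fun hj => ?_
    rw [F1c.inf_congr nb pr η0 h G s {x} j (by omega)]
  · show (∃ j, s + j < t ∧ y ∈ visU nb pr η0 U G s {x} j) ↔
      ∃ j, s + j < t ∧ y ∈ visU nb pr η0 U' G s {x} j
    refine exists_congr fun j => and_congr_right fun hj => ?_
    rw [F1c.visU_congr nb pr η0 h G s {x} j (by omega)]

theorem agree_take (q : Par d m) (R N : ℕ) (hR : 2 * R + 2 ≤ q.M) (η : Tor d q.M → ℕ)
    (l : List (Let d q.M q.K))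
    (h : Agree N (envT q η (l.take (N * q.N1))) (kill R (envT q η (l.take (N * q.N1))))) :
    Agree N (envT q η l) (kill R (envT q η l)) := by
  obtain ⟨a1, a2, a3⟩ := env_congr (N := N) nbT tv η (U := (envT q η l).U)
    (U' := (envT q η (l.take (N * q.N1))).U) (fun t ht => (un_take toLab q.N1 N t ht l).symm)
  obtain ⟨b1, b2, b3⟩ := env_congr (N := N) (nbB R) id (ini0 R η) (U := (kill R (envT q η l)).U)
    (U' := (kill R (envT q η (l.take (N * q.N1)))).U) (fun t ht => by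
      rw [kill_U q R hR, kill_U q R hR]
      exact (un_take (gf R) q.N1 N t ht l).symm)
  refine ⟨fun t ht x hx => ?_, fun G hG s t x y ht => ?_, fun G hG s t x y ht => ?_⟩
  · exact (a1 t ht x).trans ((h.occ t ht x hx).trans (b1 t ht x).symm)
  · exact (a2 G s t x y ht).trans ((h.R G hG s t x y ht).trans (b2 G s t x y ht).symm)
  · exact (a3 G s t x y ht).trans ((h.vis G hG s t x y ht).trans (b3 G s t x y ht).symm)

/-! ### the good event of the box -/

/-- the event of the box -/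
def GE (R L N : ℕ) (G : Set (Pos d)) (ζ : Pos d → ℕ) (u : List (Option (Lab (Pos d) d))) : Prop :=
  (∃ x ∈ ZP.cell (d := d) L 0, 0 < ζ x) ∧
    ∀ x ∈ ZP.cell (d := d) L 0, 0 < ζ x → KE R L N G ζ u x

theorem KE_take {R L N : ℕ} {G : Set (Pos d)} {ζ : Pos d → ℕ} {u : List (Option (Lab (Pos d) d))}
    {x : Pos d} : KE R L N G ζ (u.take N) x ↔ KE R L N G ζ u x := by
  unfold KE
  have h0 : (u.take N).take N = u.take N := by rw [List.take_take, min_self]
  rw [h0]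
  refine and_congr_right fun _ => and_congr_left fun _ => forall_congr' fun b => forall_congr' fun _ =>
    exists_congr fun i => and_congr_right fun hi => ?_
  rw [List.take_take, min_eq_left hi]

theorem GE_take {R L N : ℕ} {G : Set (Pos d)} {ζ : Pos d → ℕ} {u : List (Option (Lab (Pos d) d))} :
    GE R L N G ζ (u.take N) ↔ GE R L N G ζ u := by
  unfold GE
  refine and_congr_right fun _ => forall_congr' fun x => forall_congr' fun _ =>
    forall_congr' fun _ => KE_take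

theorem small_bound (hd : 0 < d) (q : Par d m) {R L r κ Cv τ : ℕ} (hR : 2 * R + 2 ≤ q.M)
    (hL : 2 * r + 2 ≤ L) (hκ : 1 ≤ κ) (hr : 1 ≤ r) (hτ : (2 * d * L + 1) * κ ≤ τ)
    (hτr : 16 * r ^ 2 ≤ τ) (hτS : τ ≤ L ^ 2) (hD : 2 * d * L ≤ L ^ 2) (hLR : L ≤ R)
    (hτR : 4 * τ ≤ R) (e1 e2 : ℝ≥0∞)
    (h1 : q.PP (L ^ 2 * q.N1) (fun η l => ¬ (envT q η l).Good r κ κ Cv (L ^ 2) (L ^ 2)) ≤ e1)
    (h2 : q.PP (τ * q.N1) (fun η l => ¬ Agree τ (envT q η l) (kill R (envT q η l))) ≤ e2) :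
    q.PP (τ * q.N1) (fun η l => ¬ GE R L (τ * q.N1) {z | supn z ≤ 4 * τ} (ini0 R η)
      (l.map (gf R))) ≤ e1 + e2 := by
  have hle : τ * q.N1 ≤ L ^ 2 * q.N1 := Nat.mul_le_mul_right _ hτS
  rw [← PP_take hd q (τ * q.N1) (L ^ 2 * q.N1) hle (fun η l => ¬ GE R L (τ * q.N1)
    {z | supn z ≤ 4 * τ} (ini0 R η) (l.map (gf R)))]
  rw [← PP_take hd q (τ * q.N1) (L ^ 2 * q.N1) hle
    (fun η l => ¬ Agree τ (envT q η l) (kill R (envT q η l)))] at h2
  refine le_trans (T1.PP_mono q _ (E' := fun η l => ¬ (envT q η l).Good r κ κ Cv (L ^ 2) (L ^ 2) ∨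
    ¬ Agree τ (envT q η (l.take (τ * q.N1))) (kill R (envT q η (l.take (τ * q.N1))))) ?_)
    (le_trans (T1.PP_or q _ _ _) (add_le_add h1 h2))
  intro η l _ h3
  by_contra h4
  push Not at h4
  obtain ⟨h5, h6⟩ := h4
  apply h3
  have h7 := agree_take q R τ hR η l h6
  have h8 := ke_of_good hd q hR hL hκ hr hτ hτr hτS hD hLR hτR η l h5 h7
  rw [List.map_take]
  exact GE_take.2 h8

theorem PP_oc (q : Par d m) (v : Tor d q.M) (N : ℕ)
    (E : (Tor d q.M → ℕ) → List (Let d q.M q.K) → Prop) :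
    q.PP N (fun η l => E (oc η v) l) ≤ ENNReal.ofReal (1 + m.g 1 / m.φ) *
      q.PP N (fun η l => 0 < η v ∧ E η l) := by
  refine le_trans (EE_oc q v N (fun η l => if E η l then 1 else 0)) (mul_le_mul_right ?_ _)
  unfold Par.PP
  refine C5.EE_mono q N fun η l => ?_
  by_cases h1 : 0 < η v
  · rw [if_pos h1]
    by_cases h2 : E η l
    · rw [if_pos h2, if_pos ⟨h1, h2⟩]
    · rw [if_neg h2]
      exact bot_le
  · rw [if_neg h1]
    exact bot_le

end ZI.BX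

namespace ZP.BS

open ZP ZP.Rows

variable {d : ℕ} {m : Model} {δ : ℝ}

/-! ### recovery letters -/

theorem EvE_ex {α : Type} [Fintype α] (w : α → ℝ≥0∞) (hw : ∑ a, w a = 1) (P : α → Prop) (N : ℕ) :
    EvE w N (fun l => if ∃ a ∈ l, P a then 1 else 0) ≤ N * ∑ a, (if P a then w a else 0) := by
  induction N with
  | zero =>
    show (if ∃ a ∈ ([] : List α), P a then (1 : ℝ≥0∞) else 0) ≤ _
    rw [if_neg (by simp)]
    exact bot_le
  | succ N ih =>
    show ∑ a, w a * EvE w N (fun l => if ∃ b ∈ a :: l, P b then 1 else 0) ≤ _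
    have h1 : ∀ a, EvE w N (fun l => if ∃ b ∈ a :: l, P b then (1 : ℝ≥0∞) else 0) ≤
        (if P a then 1 else 0) + EvE w N (fun l => if ∃ b ∈ l, P b then 1 else 0) := by
      intro a
      have h2 : EvE w N (fun _ => (if P a then (1 : ℝ≥0∞) else 0)) = if P a then 1 else 0 :=
        ZI.R2aux.EvE_const w hw _ N
      rw [← h2, ← ZI.EvE_add]
      refine ZI.EvE_mono w N fun l _ => ?_
      by_cases h3 : P a
      · rw [if_pos ⟨a, List.mem_cons_self, h3⟩, if_pos h3]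
        exact le_self_add
      · by_cases h4 : ∃ b ∈ l, P b
        · rw [if_pos h4, if_neg h3, zero_add]
          split_ifs <;> simp
        · rw [if_neg]
          · exact bot_le
          · rintro ⟨b, hb, hPb⟩
            rcases List.mem_cons.1 hb with rfl | hb
            · exact h3 hPb
            · exact h4 ⟨b, hb, hPb⟩
    refine le_trans (Finset.sum_le_sum fun a _ => mul_le_mul_right (h1 a) (w a)) ?_
    have h5 : ∀ a, w a * ((if P a then (1 : ℝ≥0∞) else 0) +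
        EvE w N (fun l => if ∃ b ∈ l, P b then 1 else 0)) =
        (if P a then w a else 0) + w a * EvE w N (fun l => if ∃ b ∈ l, P b then 1 else 0) := by
      intro a
      rw [mul_add]
      congr 1
      split_ifs <;> simp
    rw [Finset.sum_congr rfl fun a _ => h5 a, Finset.sum_add_distrib, ← Finset.sum_mul, hw, one_mul]
    push_cast
    rw [add_mul, one_mul, add_comm]
    exact add_le_add ih le_rfl

theorem PrE_ex {α : Type} [Fintype α] (w : α → ℝ≥0∞) (hw : ∑ a, w a = 1) (P : α → Prop) (N : ℕ)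
    (E : List α → Prop) (hE : ∀ l, E l → ∃ a ∈ l, P a) :
    EvE w N (fun l => if E l then 1 else 0) ≤ N * ∑ a, (if P a then w a else 0) := by
  refine le_trans (ZI.EvE_mono w N fun l _ => ?_) (EvE_ex w hw P N)
  by_cases h : E l
  · rw [if_pos h, if_pos (hE l h)]
  · rw [if_neg h]
    exact bot_le

theorem PP_ex (q : Par d m δ) (hd : 0 < d) (P : Let d q.M (q.K + 1) → Prop) (N : ℕ)
    (E : Ev d q.M q.K) (hE : ∀ η l, E η l → ∃ a ∈ l, P a) :
    q.PP N E ≤ N * ∑ a, (if P a then q.w a else 0) := by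
  unfold Par.PP Par.EE
  refine le_trans (ENNReal.tsum_le_tsum fun η => mul_le_mul_right
    (PrE_ex q.w (ZP.Rows.sum_w q hd) P N (E η) (hE η)) _) ?_
  have h : ∑' η : Tor d q.M → ℕ, prw (m.m1 q.K) η = 1 := ZI.Rows.tsum_prw q.toZI
  rw [ENNReal.tsum_mul_right, h, one_mul]

/-- the box in the torus -/
theorem Bt_card {M : ℕ} [NeZero M] (R : ℕ) :
    (Finset.univ.filter (fun v : Tor d M => v ∈ (Bt 0 R : Set (Tor d M)))).card ≤ (2 * R + 1) ^ d := by
  rw [← ZI.LK.card_box (d := d) (R := R)]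
  refine le_trans (Finset.card_le_card (t := (ZI.box d R).image (fun x => (tv x : Tor d M))) ?_)
    Finset.card_image_le
  intro v hv
  obtain ⟨y, hy, h1⟩ := (Finset.mem_filter.1 hv).2
  rw [zero_add] at h1
  rw [Finset.mem_image]
  exact ⟨y, ZI.LK.mem_box.2 hy, h1.symm⟩

theorem sum_rec (q : Par d m δ) (hd : 0 < d) (R : ℕ) :
    ∑ a : Let d q.M (q.K + 1), (if RecA (Bt 0 R) a then q.w a else 0) ≤
      ENNReal.ofReal ((2 * R + 1) ^ d * (δ * q.p)) := by
  have hd' : (0 : ℝ) < d := by exact_mod_cast hd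
  have hp := q.p_pos.le
  have hδ := q.δ_nn
  rw [ZP.Rows.sum_letters (fun a => if RecA (Bt 0 R) a then q.w a else 0)]
  have h0 : (if RecA (Bt 0 R) (none : Let d q.M (q.K + 1)) then q.w none else 0) = 0 := by
    rw [if_neg]
    rintro ⟨v, -, e, h⟩
    exact absurd h (by simp)
  have h2 : ∀ (x : Tor d q.M) (k : Fin q.K) (e : Dir d),
      (if RecA (Bt 0 R) (some (x, k.succ, e) : Let d q.M (q.K + 1)) then
        q.w (some (x, k.succ, e)) else 0) = 0 := by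
    intro x k e
    rw [if_neg]
    rintro ⟨v, -, e', h⟩
    have h3 := congrArg (fun o : Option (Tor d q.M × Fin (q.K + 1) × Dir d) => o.map (fun l => l.2.1)) h
    simp only [Option.map_some, Option.some.injEq] at h3
    exact Fin.succ_ne_zero k h3
  have h1 : ∀ (x : Tor d q.M) (e : Dir d),
      (if RecA (Bt 0 R) (some (x, 0, e) : Let d q.M (q.K + 1)) then
        q.w (some (x, 0, e)) else 0) =
      if x ∈ (Bt 0 R : Set (Tor d q.M)) then ENNReal.ofReal (δ / (2 * d) * q.p) else 0 := by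
    intro x e
    by_cases hx : x ∈ (Bt 0 R : Set (Tor d q.M))
    · rw [if_pos ⟨x, hx, e, rfl⟩, if_pos hx]
      rfl
    · rw [if_neg hx, if_neg]
      rintro ⟨v, hv, e', h⟩
      have h3 := congrArg (fun o : Option (Tor d q.M × Fin (q.K + 1) × Dir d) => o.map (fun l => l.1)) h
      simp only [Option.map_some, Option.some.injEq] at h3
      exact hx (h3 ▸ hv)
  rw [h0, Finset.sum_congr rfl fun x _ => Finset.sum_congr rfl fun e _ => h1 x e]
  have h4 : ∑ x : Tor d q.M, ∑ k : Fin q.K, ∑ e : Dir d,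
      (if RecA (Bt 0 R) (some (x, k.succ, e) : Let d q.M (q.K + 1)) then
        q.w (some (x, k.succ, e)) else 0) = 0 :=
    Finset.sum_eq_zero fun x _ => Finset.sum_eq_zero fun k _ => Finset.sum_eq_zero fun e _ => h2 x k e
  rw [h4, add_zero, zero_add]
  have h5 : ∀ x : Tor d q.M, ∑ _e : Dir d, (if x ∈ (Bt 0 R : Set (Tor d q.M)) then
      ENNReal.ofReal (δ / (2 * d) * q.p) else 0) =
      if x ∈ (Bt 0 R : Set (Tor d q.M)) then ENNReal.ofReal (δ * q.p) else 0 := by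
    intro x
    rw [Finset.sum_const, Finset.card_univ, ZP.Rows.card_Dir, nsmul_eq_mul]
    split_ifs
    · rw [← ENNReal.ofReal_natCast, ← ENNReal.ofReal_mul (by positivity)]
      congr 1
      push_cast
      field_simp
    · rw [mul_zero]
  rw [Finset.sum_congr rfl fun x _ => h5 x, ← Finset.sum_filter, Finset.sum_const, nsmul_eq_mul,
    ← ENNReal.ofReal_natCast, ← ENNReal.ofReal_mul (by positivity)]
  refine ENNReal.ofReal_le_ofReal ?_
  refine mul_le_mul_of_nonneg_right ?_ (by positivity)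
  have h6 := Bt_card (d := d) (M := q.M) R
  have h7 : (((Finset.univ.filter (fun v : Tor d q.M => v ∈ (Bt 0 R : Set (Tor d q.M)))).card : ℕ) : ℝ) ≤
      (((2 * R + 1) ^ d : ℕ) : ℝ) := by exact_mod_cast h6
  push_cast at h7
  exact h7

theorem rec_bound (q : Par d m δ) (hd : 0 < d) (R N : ℕ) :
    q.PP (N * q.N1) (fun η w => ¬ ∀ a ∈ w.take (N * q.N1), ¬ RecA (Bt 0 R) a) ≤
      ENNReal.ofReal (N * (2 * R + 1) ^ d * δ) := by
  have hδ := q.δ_nn
  refine le_trans (PP_ex q hd (RecA (Bt 0 R)) _ _ ?_) ?_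
  · intro η w h
    push Not at h
    obtain ⟨a, ha, h2⟩ := h
    exact ⟨a, List.mem_of_mem_take ha, h2⟩
  · refine le_trans (mul_le_mul_right (sum_rec q hd R) _) ?_
    rw [← ENNReal.ofReal_natCast, ← ENNReal.ofReal_mul (by positivity)]
    refine ENNReal.ofReal_le_ofReal ?_
    push_cast
    have h3 := q.p_ub
    have h4 : (0 : ℝ) ≤ N * (2 * R + 1) ^ d * δ := by positivity
    calc (N : ℝ) * q.N1 * ((2 * R + 1) ^ d * (δ * q.p)) = N * (2 * R + 1) ^ d * δ * (q.N1 * q.p) := by ring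
      _ ≤ N * (2 * R + 1) ^ d * δ * 1 := mul_le_mul_of_nonneg_left h3 h4
      _ = N * (2 * R + 1) ^ d * δ := mul_one _

/-! ### a particle more at `x` -/

theorem ke_oc (q : Par d m δ) (hd : 0 < d) {R L N : ℕ} (hLR : L ≤ R) (G : Set (Pos d)) (x : Pos d)
    (hx : x ∈ cell (d := d) L 0) :
    q.PP N (fun η w => ¬ ZI.BX.KE R L N G (ZI.LK.ini0 R (ZI.BX.oc η (tv x)))
      ((w.map prj).map (ZI.LK.gf R)) x) ≤
      ENNReal.ofReal (1 + m.g 1 / m.φ) * q.PP N (fun η w => ¬ ZI.BX.GE R L N G (ZI.LK.ini0 R η)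
        ((w.map prj).map (ZI.LK.gf R))) := by
  rw [ZP.Rows.PP_prj q hd N (fun η l => ¬ ZI.BX.KE R L N G (ZI.LK.ini0 R (ZI.BX.oc η (tv x)))
      (l.map (ZI.LK.gf R)) x),
    ZP.Rows.PP_prj q hd N (fun η l => ¬ ZI.BX.GE R L N G (ZI.LK.ini0 R η) (l.map (ZI.LK.gf R)))]
  refine le_trans (ZI.BX.PP_oc q.toZI (tv x) N (fun η l => ¬ ZI.BX.KE R L N G (ZI.LK.ini0 R η)
      (l.map (ZI.LK.gf R)) x)) ?_
  refine mul_le_mul_right ?_ _
  refine ZI.Rows.T1.PP_mono q.toZI N fun η l _ h => ?_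
  intro h3
  refine h.2 (h3.2 x hx ?_)
  unfold ZI.LK.ini0
  rw [if_pos ((cell_supn hx).trans hLR)]
  exact h.1

/-- the finite set of the positions of the cell -/
def cF (d L : ℕ) : Finset (Pos d) := Fintype.piFinset fun _ => Finset.Ico (0 : ℤ) L

theorem mem_cF {L : ℕ} {x : Pos d} : x ∈ cF d L ↔ x ∈ cell (d := d) L 0 := by
  unfold cF cell
  rw [Fintype.mem_piFinset]
  refine forall_congr' fun j => ?_
  rw [Finset.mem_Ico]
  simp

theorem card_cF {L : ℕ} : (cF d L).card = L ^ d := by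
  unfold cF
  rw [Fintype.card_piFinset]
  simp

theorem opn_bound (q : Par d m δ) (hd : 0 < d) {L τ : ℕ} (hR : 2 * L ^ 2 + 2 ≤ q.M) (G : Set (Pos d))
    (e : ℝ≥0∞) (he : q.PP (τ * q.N1) (fun η w => ¬ ZI.BX.GE (L ^ 2) L (τ * q.N1) G
      (ZI.LK.ini0 (L ^ 2) η) ((w.map prj).map (ZI.LK.gf (L ^ 2)))) ≤ e) :
    q.PP (τ * q.N1) (fun η w => ¬ Opn q.N1 L τ η w) ≤
      ENNReal.ofReal (τ * (2 * (L : ℝ) ^ 2 + 1) ^ d * δ) +
        (e + (L : ℝ≥0∞) ^ d * (ENNReal.ofReal (1 + m.g 1 / m.φ) * e)) := by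
  have hLL : L ≤ L ^ 2 := by nlinarith [Nat.zero_le L, Nat.eq_zero_or_pos L]
  have h1 := rec_bound q hd (L ^ 2) τ
  push_cast at h1
  have h2 : q.PP (τ * q.N1) (fun η w => ∃ x ∈ cF d L, ¬ ZI.BX.KE (L ^ 2) L (τ * q.N1) G
      (ZI.LK.ini0 (L ^ 2) (ZI.BX.oc η (tv x))) ((w.map prj).map (ZI.LK.gf (L ^ 2))) x) ≤
      (L : ℝ≥0∞) ^ d * (ENNReal.ofReal (1 + m.g 1 / m.φ) * e) := by
    refine le_trans (PP_finset q _ _ _) ?_
    refine le_trans (Finset.sum_le_sum (g := fun _ => ENNReal.ofReal (1 + m.g 1 / m.φ) * e)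
      fun x hx => ?_) ?_
    · exact le_trans (ke_oc q hd hLL G x (mem_cF.1 hx)) (mul_le_mul_right he _)
    · rw [Finset.sum_const, card_cF, nsmul_eq_mul]
      push_cast
      exact le_rfl
  refine le_trans (PP_mono q _ (E' := fun η w =>
    (¬ ∀ a ∈ w.take (τ * q.N1), ¬ RecA (Bt 0 (L ^ 2)) a) ∨
    ((¬ ZI.BX.GE (L ^ 2) L (τ * q.N1) G (ZI.LK.ini0 (L ^ 2) η)
      ((w.map prj).map (ZI.LK.gf (L ^ 2)))) ∨
    (∃ x ∈ cF d L, ¬ ZI.BX.KE (L ^ 2) L (τ * q.N1) G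
      (ZI.LK.ini0 (L ^ 2) (ZI.BX.oc η (tv x))) ((w.map prj).map (ZI.LK.gf (L ^ 2))) x))) ?_)
    (le_trans (PP_or q _ _ _) (add_le_add h1 (le_trans (PP_or q _ _ _) (add_le_add he h2))))
  intro η w _ h3
  by_contra h4
  push Not at h4
  obtain ⟨h5, h6, h7⟩ := h4
  refine h3 (opn_of hR G η w h5 h6.1 fun x hx => h7 x (mem_cF.2 hx))

theorem fopn_bound (q : Par d m δ) (hd : 0 < d) {L τ : ℕ} (hR : 2 * L ^ 2 + 2 ≤ q.M)
    (h4 : 4 * τ ≤ L ^ 2) (hLτ : L ≤ 4 * τ)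
    (e e' : ℝ≥0∞) (he : q.PP (τ * q.N1) (fun η w => ¬ ZI.BX.GE (L ^ 2) L (τ * q.N1)
      {z | supn z ≤ 4 * τ} (ZI.LK.ini0 (L ^ 2) η) ((w.map prj).map (ZI.LK.gf (L ^ 2)))) ≤ e)
    (he' : q.toZI.PP (τ * q.N1) (fun η l => ¬ ZI.Agree τ (ZI.envT q.toZI η l)
      (ZI.kill (L ^ 2) (ZI.envT q.toZI η l))) ≤ e') :
    q.PP (τ * q.N1) (fun η w => ¬ FOpn q.N1 L τ η w) ≤
      ENNReal.ofReal (τ * (2 * (L : ℝ) ^ 2 + 1) ^ d * δ) + (e + e') := by
  have h1 := rec_bound q hd (L ^ 2) τ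
  push_cast at h1
  rw [← ZP.Rows.PP_prj q hd] at he'
  refine le_trans (PP_mono q _ (E' := fun η w =>
    (¬ ∀ a ∈ w.take (τ * q.N1), ¬ RecA (Bt 0 (L ^ 2)) a) ∨
    ((¬ ZI.BX.GE (L ^ 2) L (τ * q.N1) {z | supn z ≤ 4 * τ} (ZI.LK.ini0 (L ^ 2) η)
      ((w.map prj).map (ZI.LK.gf (L ^ 2)))) ∨
    (¬ ZI.Agree τ (ZI.envT q.toZI η (w.map prj))
      (ZI.kill (L ^ 2) (ZI.envT q.toZI η (w.map prj)))))) ?_)
    (le_trans (PP_or q _ _ _) (add_le_add h1 (le_trans (PP_or q _ _ _) (add_le_add he he'))))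
  intro η w _ h3
  by_contra h5
  push Not at h5
  obtain ⟨h6, h7, h8⟩ := h5
  exact h3 (fopn_of q hR h4 hLτ η w h6 h7.2 h8)

end ZP.BS
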