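import Pool.Agent.ZP.BS4
import Pool.Agent.ZI.T1

/-! # Row BS, part 5: numbers, the two bounds for the system without recovery -/

set_option autoImplicit false

open scoped ENNReal BigOperators Classical

noncomputable section

namespace ZP.BS

open ZP ZP.Rows

variable {d : ℕ}

/-! ### numbers -/

theorem num1 (d X a r : ℕ) (hX : 1 ≤ X) (hr : 1000 * (d + 1) * X ≤ r) :
    16 * X * ((2 * d * r ^ (4 * a + 2) + 1) * r ^ a + r ^ (4 * a + 2) + 16 * r ^ 2) + 4 ≤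
      (r ^ (4 * a + 2)) ^ 2 := by
  have hr1 : 1 ≤ r := by
    refine le_trans ?_ hr
    have : 1 * 1 * 1 ≤ 1000 * (d + 1) * X := by
      refine Nat.mul_le_mul (Nat.mul_le_mul (by norm_num) (by omega)) hX
    omega
  have hκ : 1 ≤ r ^ a := Nat.one_le_pow _ _ hr1
  have hrκ : r * r ^ a ≤ r ^ (4 * a + 2) := by
    rw [← pow_succ']
    exact Nat.pow_le_pow_right hr1 (by omega)
  have hr2 : r ^ 2 ≤ r ^ (4 * a + 2) := Nat.pow_le_pow_right hr1 (by omega)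
  have hL : 1 ≤ r ^ (4 * a + 2) := Nat.one_le_pow _ _ hr1
  generalize r ^ a = κ at *
  generalize r ^ (4 * a + 2) = L at *
  have hLκ : 1 ≤ L * κ := Nat.one_le_iff_ne_zero.2 (by positivity)
  have h1 : (2 * d * L + 1) * κ ≤ (2 * d + 1) * (L * κ) := by nlinarith
  have h2 : L ≤ L * κ := Nat.le_mul_of_pos_right _ hκ
  have h3 : 16 * r ^ 2 ≤ 16 * (L * κ) := by nlinarith
  have h4 : (2 * d * L + 1) * κ + L + 16 * r ^ 2 ≤ (2 * d + 18) * (L * κ) := by nlinarith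
  have h5 : 4 ≤ 4 * X * (L * κ) := by
    have : 1 ≤ X * (L * κ) := Nat.one_le_iff_ne_zero.2 (by positivity)
    nlinarith
  calc 16 * X * ((2 * d * L + 1) * κ + L + 16 * r ^ 2) + 4
      ≤ 16 * X * ((2 * d + 18) * (L * κ)) + 4 * X * (L * κ) :=
        Nat.add_le_add (Nat.mul_le_mul_left _ h4) h5
    _ = (32 * d + 292) * X * (L * κ) := by ring
    _ ≤ 1000 * (d + 1) * X * (L * κ) := by
        refine Nat.mul_le_mul_right _ (Nat.mul_le_mul_right _ ?_)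
        omega
    _ ≤ r * (L * κ) := Nat.mul_le_mul_right _ hr
    _ = L * (r * κ) := by ring
    _ ≤ L * L := Nat.mul_le_mul_left _ hrκ
    _ = L ^ 2 := by ring

theorem num2 (C : ℕ) (c : ℝ) (hc : 0 < c) : ∃ r0 : ℕ, ∀ r ≥ r0, ∀ L τ : ℕ, r ≤ L →
    16 * C * τ ≤ L ^ 2 → (C : ℝ) * (((L ^ 2 : ℕ) : ℝ) + 1) ^ C *
      Real.exp (C * τ - ((L ^ 2 : ℕ) : ℝ) / 4) ≤ Real.exp (-c * r) := by
  obtain ⟨r1, h1⟩ := ZI.Rows.T1.growth C C (1 / 16) (by norm_num)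
  obtain ⟨r2, h2⟩ := exists_nat_ge (16 * c)
  refine ⟨r1 + r2 + 1, fun r hr L τ hL hτ => ?_⟩
  have hL1 : 1 ≤ L := by omega
  have hLL : L ≤ L ^ 2 := by nlinarith
  have h3 := h1 (L ^ 2) (by omega)
  set R : ℝ := ((L ^ 2 : ℕ) : ℝ) with hR
  have hR1 : 1 ≤ R := by
    rw [hR]
    exact_mod_cast (le_trans hL1 hLL)
  have h4 : (C : ℝ) * (R + 1) ^ C ≤ Real.exp (1 / 16 * R) := by
    refine le_trans ?_ h3
    gcongr
    linarith
  have h5 : (C : ℝ) * τ ≤ R / 16 := by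
    have h6 : ((16 * C * τ : ℕ) : ℝ) ≤ R := by
      rw [hR]
      exact_mod_cast hτ
    push_cast at h6
    linarith
  have h7 : c * r ≤ R / 8 := by
    have h8 : (r : ℝ) * r ≤ R := by
      rw [hR]
      push_cast
      have : (r : ℝ) ≤ L := by exact_mod_cast hL
      have hr0 : (0 : ℝ) ≤ r := Nat.cast_nonneg r
      nlinarith
    have h9 : 16 * c ≤ r := by
      refine le_trans h2 ?_
      exact_mod_cast (by omega : r2 ≤ r)
    have hr0 : (0 : ℝ) ≤ r := Nat.cast_nonneg r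
    nlinarith
  calc (C : ℝ) * (R + 1) ^ C * Real.exp (C * τ - R / 4)
      ≤ Real.exp (1 / 16 * R) * Real.exp (R / 16 - R / 4) := by
        refine mul_le_mul h4 (Real.exp_le_exp.2 (by linarith)) (Real.exp_pos _).le (Real.exp_pos _).le
    _ = Real.exp (1 / 16 * R + (R / 16 - R / 4)) := (Real.exp_add _ _).symm
    _ ≤ Real.exp (-c * r) := Real.exp_le_exp.2 (by linarith)

/-! ### the two bounds for the system without recovery -/

theorem ge_bound {m : Model} (hd : 0 < d) (q : ZI.Par d m) {L r κ Cv τ C : ℕ} (c : ℝ) (hM : L ^ 4 ≤ q.M)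
    (hL : 2 * r + 2 ≤ L) (hκ : 1 ≤ κ) (hr : 1 ≤ r) (hτ : (2 * d * L + 1) * κ ≤ τ)
    (hτr : 16 * r ^ 2 ≤ τ) (hτ2 : 16 * τ + 4 ≤ L ^ 2) (hD : 2 * d * L ≤ L ^ 2)
    (hg : ∀ q : ZI.Par d m, q.M = L ^ 4 → q.PP (L ^ 2 * q.N1) (fun η l =>
      ¬ (ZI.envT q η l).Good r κ κ Cv (L ^ 2) (L ^ 2)) ≤ ENNReal.ofReal (Real.exp (-c * r)))
    (hk : ∀ q : ZI.Par d m, ∀ R N : ℕ, 2 * R + 2 ≤ q.M → 16 * N + 4 ≤ R →
      q.PP (N * q.N1) (fun η l => ¬ ZI.Agree N (ZI.envT q η l) (ZI.kill R (ZI.envT q η l))) ≤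
      ENNReal.ofReal (C * (R + 1 : ℝ) ^ C * Real.exp (C * N - R / 4)))
    (hnum : (C : ℝ) * (((L ^ 2 : ℕ) : ℝ) + 1) ^ C *
      Real.exp (C * τ - ((L ^ 2 : ℕ) : ℝ) / 4) ≤ Real.exp (-c * r)) :
    q.PP (τ * q.N1) (fun η l => ¬ ZI.BX.GE (L ^ 2) L (τ * q.N1) {z | supn z ≤ 4 * τ}
      (ZI.LK.ini0 (L ^ 2) η) (l.map (ZI.LK.gf (L ^ 2)))) ≤ ENNReal.ofReal (2 * Real.exp (-c * r)) ∧
    q.PP (τ * q.N1) (fun η l => ¬ ZI.Agree τ (ZI.envT q η l) (ZI.kill (L ^ 2) (ZI.envT q η l))) ≤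
      ENNReal.ofReal (Real.exp (-c * r)) := by
  have hL4 : 4 ≤ L := by omega
  have hL2 : 16 ≤ L ^ 2 := by nlinarith
  have hL44 : L ^ 4 = L ^ 2 * L ^ 2 := by ring
  have hLL : L ≤ L ^ 2 := by nlinarith
  have h5 : 5 ≤ L ^ 4 := by nlinarith
  have hR : 2 * L ^ 2 + 2 ≤ L ^ 4 := by nlinarith
  refine ⟨?_, ?_⟩
  · set q0 := ZI.BX.mkM q (L ^ 4) h5 hM with hq0
    have h1 := ZI.BX.law_PP hd q h5 hM hR (τ * q.N1) (fun ζ u => ¬ ZI.BX.GE (L ^ 2) L (τ * q.N1)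
      {z | supn z ≤ 4 * τ} ζ u)
    rw [h1]
    have h2 := ZI.BX.small_bound (R := L ^ 2) (L := L) (r := r) (κ := κ) (Cv := Cv) (τ := τ) hd q0 hR hL hκ hr hτ
      hτr (by omega) hD hLL (by omega) _ _ (hg q0 rfl) (le_trans (hk q0 (L ^ 2) τ hR hτ2)
        (ENNReal.ofReal_le_ofReal hnum))
    refine le_trans h2 ?_
    rw [← ENNReal.ofReal_add (Real.exp_pos _).le (Real.exp_pos _).le]
    exact ENNReal.ofReal_le_ofReal (by linarith)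
  · exact le_trans (hk q (L ^ 2) τ (hR.trans hM) hτ2) (ENNReal.ofReal_le_ofReal hnum)

/-- the parameters of the level `0` -/
theorem prm (d C1 C2 a r : ℕ) (hr : 1000 * (d + 1) * (C1 + C2 + 1) + 10 ≤ r) : ∃ L κ τ : ℕ,
    L = r ^ (4 * a + 2) ∧ κ = r ^ a ∧ 1 ≤ κ ∧ 10 * r ≤ L ∧ L ≤ τ ∧ (2 * d * L + 1) * κ ≤ τ ∧
    16 * r ^ 2 ≤ τ ∧ 16 * τ + 4 ≤ L ^ 2 ∧ 16 * C1 * τ ≤ L ^ 2 ∧ 16 * C2 * τ ≤ L ^ 2 ∧
    2 * d * L ≤ L ^ 2 ∧ L ^ 4 ≤ 4 * L ^ 5 ∧ 2 * L ^ 2 + 2 ≤ L ^ 4 := by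
  have h10 : 10 ≤ r := le_trans (Nat.le_add_left _ _) hr
  have hr0 : 1000 * (d + 1) * (C1 + C2 + 1) ≤ r := le_trans (Nat.le_add_right _ _) hr
  clear hr
  have hr1 : 1 ≤ r := le_trans (by norm_num) h10
  have n1 := num1 d (C1 + C2 + 1) a r (Nat.le_add_left _ _) hr0
  have hr2 : r ^ 2 ≤ r ^ (4 * a + 2) := Nat.pow_le_pow_right hr1 (by omega)
  have hκ : 1 ≤ r ^ a := Nat.one_le_pow _ _ hr1
  have h2d : 2 * d ≤ r := by
    refine le_trans ?_ hr0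
    calc 2 * d = 2 * d * 1 := (mul_one _).symm
      _ ≤ 1000 * (d + 1) * (C1 + C2 + 1) := Nat.mul_le_mul (Nat.mul_le_mul (by norm_num) (Nat.le_succ _))
          (Nat.le_add_left _ _)
  clear hr0
  generalize r ^ a = κ at *
  generalize r ^ (4 * a + 2) = L at *
  generalize hτ : (2 * d * L + 1) * κ + L + 16 * r ^ 2 = τ at *
  generalize hX : C1 + C2 + 1 = X at *
  have hrL : 10 * r ≤ L := by nlinarith
  have h16 : 16 ≤ L ^ 2 := by nlinarith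
  have e1 : 16 * τ ≤ 16 * X * τ := by
    have : 1 ≤ X := by omega
    nlinarith
  have e2 : 16 * C1 * τ ≤ 16 * X * τ := Nat.mul_le_mul_right _ (by omega)
  have e3 : 16 * C2 * τ ≤ 16 * X * τ := Nat.mul_le_mul_right _ (by omega)
  refine ⟨L, κ, τ, rfl, rfl, hκ, hrL, ?_, ?_, ?_, ?_, ?_, ?_, ?_, ?_, ?_⟩
  · rw [← hτ, add_assoc, add_comm]
    exact le_trans (Nat.le_add_right _ _) (Nat.le_add_right _ _)
  · rw [← hτ, add_assoc]
    exact Nat.le_add_right _ _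
  · rw [← hτ]
    exact Nat.le_add_left _ _
  · exact le_trans (Nat.add_le_add_right e1 _) n1
  · exact le_trans e2 (le_trans (Nat.le_add_right _ _) n1)
  · exact le_trans e3 (le_trans (Nat.le_add_right _ _) n1)
  · rw [pow_two]
    exact Nat.mul_le_mul_right _ (by omega)
  · rw [pow_succ L 4]
    nlinarith [Nat.zero_le (L ^ 4)]
  · have h3 : L ^ 4 = L ^ 2 * L ^ 2 := by ring
    nlinarith

/-- the final estimate -/
theorem num3 (d Cp Q : ℕ) {L y x b : ℝ} (hL : 1 ≤ L) (hy : y = L ^ (d + Cp)) (hx : 0 < x)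
    (hb : 0 ≤ b) (hbQ : b ≤ Q) (h : 8 * ((Q : ℝ) + 1) * y * x ≤ 1) :
    1 / (64 * L ^ Cp) + (2 * x + L ^ d * (b * (2 * x))) ≤ 1 / L ^ Cp := by
  have hd0 : 1 ≤ L ^ d := one_le_pow₀ hL
  have hC0 : 1 ≤ L ^ Cp := one_le_pow₀ hL
  rw [hy, pow_add] at h
  have h1 : 2 * x + L ^ d * (b * (2 * x)) ≤ 2 * (Q + 1) * L ^ d * x := by
    have e1 : L ^ d * (b * (2 * x)) ≤ L ^ d * (Q * (2 * x)) := by gcongr
    nlinarith
  have h2 : 2 * ((Q : ℝ) + 1) * L ^ d * x ≤ 1 / (4 * L ^ Cp) := by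
    rw [le_div_iff₀ (by positivity)]
    nlinarith
  have h3 : 1 / (64 * L ^ Cp) + 1 / (4 * L ^ Cp) ≤ 1 / L ^ Cp := by
    rw [div_add_div _ _ (by positivity) (by positivity), div_le_div_iff₀ (by positivity) (by positivity)]
    nlinarith [mul_pos (lt_of_lt_of_le one_pos hC0) (lt_of_lt_of_le one_pos hC0)]
  linarith

end ZP.BS
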