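import Pool.Agent.ZP.BP
import Pool.Agent.ZP.RU
import Pool.Agent.ZP.FA

/-! # Row BU: probabilities of the bad blocks, constants polynomial in the fugacity -/

set_option autoImplicit false

open scoped ENNReal BigOperators Classical Pointwise

noncomputable section

namespace ZP.Rows

open ZP

theorem bad_prob_u (m : Model) (d : ℕ) (hd : 0 < d) : ∃ α0 : ℕ, ∀ α ≥ α0, ∀ γ ≥ α + 20, ∃ C0 : ℕ,
    ∀ A : Prm, A.α = α → A.γ = γ → A.L ≤ A.τ → A.τ ≤ A.L ^ 2 → ∀ (φ0 : ℝ) (h0 : 0 < φ0), 2 ≤ φ0 →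
    C0 * φ0 ^ C0 ≤ (A.L : ℝ) → ∀ (δ : ℝ) (q : Par d (wf m φ0 h0) δ)
    (n : ℕ), q.Tiny n → 4 * φ0 ≤ m.g q.K → ∀ p0 : ℝ, 0 ≤ p0 → (A.L : ℝ) ^ (CstU d A) * p0 ≤ 1 →
    (∀ (hφ : 0 < φ0 / 2) (hK : 2 * (φ0 / 2) ≤ m.g q.K),
      (q.wf (φ0 / 2) hφ hK).PP (A.τ * q.N1) (fun η w => ¬ Opn q.N1 A.L A.τ η w) ≤
        ENNReal.ofReal p0) →
    ∀ k : ℕ, A.S k ≤ n → 100 * A.S k + 10 * A.L ^ 2 ≤ q.M →
    ∀ (φ' : ℝ) (h' : 0 < φ') (hK' : 2 * φ' ≤ m.g q.K), 7 / 8 * φ0 ≤ φ' → φ' ≤ 9 / 8 * φ0 →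
    (q.wf φ' h' hK').PP (6 * A.T d k * q.N1) (BadM q.N1 A k) ≤
      ENNReal.ofReal (if k = 0 then p0 + Real.exp (-(A.L : ℝ)) else Real.exp (-(A.S (k - 1) : ℝ))) ∧
    (q.wf φ' h' hK').PP (6 * A.T d k * q.N1) (BadP q.N1 A k) ≤
      ENNReal.ofReal (if k = 0 then 0 else Real.exp (-(A.S (k - 1) : ℝ))) := by
  obtain ⟨α0, hrec⟩ := rec_step_u m d hd
  obtain ⟨C, hC1, hfast⟩ := fast_prob_u m d hd
  refine ⟨α0, fun α hα γ hγ => ?_⟩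
  obtain ⟨C0, hC0⟩ := hrec α hα γ hγ
  obtain ⟨x0, _, hx0⟩ := BP.exists_pow_exp (γ * (3 * (d + 1) * (γ + 1)))
  refine ⟨C0 + x0 + 1000 * (d + 1) + 4 * C + 11, ?_⟩
  intro A hAα hAγ hLτ hτL φ0 h0 hφ2 hAL
  set N : ℕ := C0 + x0 + 1000 * (d + 1) + 4 * C + 11 with hN
  have hφ1 : (1 : ℝ) ≤ φ0 := by linarith
  have hC1' : (1 : ℝ) ≤ C := by exact_mod_cast hC1
  -- the constants for the fugacity
  obtain ⟨L1, hL1a, hL1b⟩ : ∃ L1 : ℕ, C0 * φ0 ^ C0 ≤ (L1 : ℝ) ∧ (L1 : ℝ) ≤ C0 * φ0 ^ C0 + 1 :=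
    ⟨⌈C0 * φ0 ^ C0⌉₊, Nat.le_ceil _, (Nat.ceil_lt_add_one (by positivity)).le⟩
  obtain ⟨C', hC'a, hC'b⟩ : ∃ C' : ℕ, C * (2 * φ0) ≤ (C' : ℝ) ∧ (C' : ℝ) ≤ C * (2 * φ0) + 1 :=
    ⟨⌈C * (2 * φ0)⌉₊, Nat.le_ceil _, (Nat.ceil_lt_add_one (by positivity)).le⟩
  have hCC : (C : ℝ) ≤ C' := by nlinarith
  have hC'1 : 1 ≤ C' := by
    have : (1 : ℝ) ≤ C' := hC1'.trans hCC
    exact_mod_cast this
  have hRec : BP.RecProp (wf m φ0 h0) d α γ L1 := by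
    intro B hBα hBγ hBL hBτ hBτ2 δ q n hT h4
    refine hC0 B hBα hBγ hBτ hBτ2 φ0 h0 hφ2 ?_ δ q n hT h4
    exact hL1a.trans (by exact_mod_cast hBL)
  have hFast : BP.FastProp (wf m φ0 h0) d (3 / 2 * (wf m φ0 h0).φ) C' := by
    intro φ h hφ δ q S U h1 h2 h3
    have hφ' : φ ≤ 3 / 2 * φ0 := hφ
    have h4 : (C : ℝ) * (1 + φ) ≤ C' := by
      refine le_trans ?_ hC'a
      refine mul_le_mul_of_nonneg_left ?_ (by linarith)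
      linarith
    have h5 := hfast φ h δ q S U ?_ ?_ h3
    · refine h5.trans (ENNReal.ofReal_le_ofReal (Real.exp_le_exp.mpr ?_))
      rw [neg_div, neg_div, neg_le_neg_iff]
      exact div_le_div_of_nonneg_left (Nat.cast_nonneg _) (by linarith) hCC
    · calc (C : ℝ) * (1 + φ) * U ≤ C' * U := by gcongr
        _ ≤ S := by exact_mod_cast h1
    · exact h4.trans (by exact_mod_cast h2)
  have hc1 : 16 / (wf m φ0 h0).φ ≤ ((8 : ℕ) : ℝ) := by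
    show 16 / φ0 ≤ _
    rw [div_le_iff₀ h0]
    push_cast
    linarith
  have hthr : L1 + x0 + 1000 * (d + 1) + 2 * C' + 8 ≤ A.L := by
    have h1 : ((L1 + x0 + 1000 * (d + 1) + 2 * C' + 8 : ℕ) : ℝ) ≤ N * φ0 ^ N := by
      have hp1 : (1 : ℝ) ≤ φ0 ^ N := one_le_pow₀ hφ1
      have hp2 : φ0 ^ C0 ≤ φ0 ^ N := pow_le_pow_right₀ hφ1 (by omega)
      have hp3 : φ0 ≤ φ0 ^ N := le_self_pow₀ hφ1 (by omega)
      have h2 : (C0 : ℝ) * φ0 ^ C0 ≤ C0 * φ0 ^ N := mul_le_mul_of_nonneg_left hp2 (Nat.cast_nonneg _)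
      have h3 : (C : ℝ) * φ0 ≤ C * φ0 ^ N := mul_le_mul_of_nonneg_left hp3 (Nat.cast_nonneg _)
      have h4 : ((x0 : ℝ) + 1000 * (d + 1) + 11) * 1 ≤ (x0 + 1000 * (d + 1) + 11) * φ0 ^ N :=
        mul_le_mul_of_nonneg_left hp1 (by positivity)
      rw [hN]
      push_cast
      rw [hN] at hp1 hp2 hp3 h2 h3 h4
      linarith
    exact_mod_cast h1.trans hAL
  exact BP.bad_prob_of (wf m φ0 h0) d hd α γ L1 C' x0 8 hγ hC'1 hRec hFast hx0 hc1 A hAα hAγ hthr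
    hLτ hτL

end ZP.Rows
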