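import Pool.Agent.ZP.Defs
import Pool.Agent.ZI.Blocks

/-! # Environments, restricted infections, blocks and chains of blocks (with recovery) -/

set_option autoImplicit false

open scoped ENNReal BigOperators Classical

noncomputable section

namespace ZP

export ZI (nrm supn lev rk Ball BP v0 wall prodQ bp)

/-- an environment: sites, neighbours, projection of positions, initial configuration, unit lists -/
structure Env (d : ℕ) where
  V : Type
  nb : V → Dir d → Option V
  pr : Pos d → V
  η0 : V → ℕ
  U : ℕ → List (Lab V d)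

variable {d : ℕ}

namespace Env

variable (E : Env d)

/-- `x` is occupied at the integer time `t` -/
def occ (t : ℕ) (x : Pos d) : Prop := 0 < cfg E.nb E.η0 E.U t (E.pr x)

/-- the infection started from `{x}` at time `s`, restricted to `G`, contains `y` at time `t` -/
def R (G : ℕ → Set (Pos d)) (s : ℕ) (x : Pos d) (t : ℕ) (y : Pos d) : Prop :=
  ∃ j, t = s + j ∧ y ∈ inf E.nb E.pr E.η0 E.U G s {x} j

/-- the infection started from `{x}` at time `s`, restricted to `G`, visits `b` during `[s, t]` -/
def vis (G : ℕ → Set (Pos d)) (s : ℕ) (x : Pos d) (t : ℕ) (b : Pos d) : Prop :=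
  ∃ j, s + j < t ∧ b ∈ visU E.nb E.pr E.η0 E.U G s {x} j

/-- the infection started from `{x}` at the time `t`, restricted to the ball of radius `l ^ 2` around `x`, is alive
at the time `t + l` -/
def fg (l t : ℕ) (x : Pos d) : Prop := ∃ y, E.R (fun _ => Ball x (l ^ 2)) t x (t + l) y

/-- `x` is infected at the time `t` by an infection that was started `l` units of time earlier and that is
restricted to the ball of radius `l ^ 2` around `x` -/
def bg (l t : ℕ) (x : Pos d) : Prop := ∃ s y, t = s + l ∧ E.R (fun _ => Ball x (l ^ 2)) s y t x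

/-- both -/
def ok (l t : ℕ) (x : Pos d) : Prop := E.fg l t x ∧ E.bg l t x

/-- the good event: density, reaching, visiting, finite speed.
`r` = radius of the deviations, `κ` = duration of `fg` and `bg`, radius of the density, time factor and
confinement, `S` = horizon, `Dm` = distance bound.  The statements are made for the times between `κ` and `S - κ`. -/
structure Good (r κ Cv S Dm : ℕ) : Prop where
  g1 : ∀ t, κ ≤ t → t + κ ≤ S → ∀ x : Pos d, ∃ v : Pos d, v ≠ 0 ∧ supn v ≤ κ ∧ E.ok κ t (x + v)
  g3 : ∀ s t x y, κ ≤ s → s ≤ t → t + κ ≤ S → E.fg κ s x → E.bg κ t y → nrm (x - y) ≤ Dm →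
    (nrm (x - y) + 1) * κ ≤ (t : ℝ) - s →
    E.R (fun _ => Ball y (nrm (x - y) + κ)) s x t y
  g3' : ∀ s t x b, κ ≤ s → s ≤ t → t + κ ≤ S → E.fg κ s x → nrm (x - b) ≤ Dm →
    (nrm (x - b) + 1) * κ ≤ (t : ℝ) - s →
    E.vis (fun _ => Ball b (nrm (x - b) + κ)) s x t b
  g4 : ∀ s t x y, s ≤ t → t ≤ S → E.R (fun _ => Set.univ) s x t y →
    nrm (y - x) ≤ Cv * ((t : ℝ) - s) + r
  g4' : ∀ s t x y, s ≤ t → t ≤ S → E.vis (fun _ => Set.univ) s x t y →
    nrm (y - x) ≤ Cv * ((t : ℝ) - s) + r

/-- the position with the property `ok κ s` nearest to `z` (`z` itself if there is none) -/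
def near (κ s : ℕ) (z : Pos d) : Pos d :=
  if h : {v : Pos d | E.ok κ s (z + v)}.Nonempty then
    z + Function.argminOn rk {v | E.ok κ s (z + v)} h
  else z

end Env

namespace Env

variable (E : Env d)

/-- the infection of the block `(z, s)` at the time `t` -/
def W (P : BP) (u : Fin d → ℝ) (z : Pos d) (s t : ℕ) : Set (Pos d) :=
  {y | E.R (wall P u z s) s (E.near P.κ s z) t y}

/-- duration of the block of size `m`: first integer time at which the level `m` is reached -/
def bh (P : BP) (u : Fin d → ℝ) (m : ℕ) (z : Pos d) (s : ℕ) : ℕ :=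
  sInf {h | ∃ y ∈ E.W P u z s (s + h), (m : ℝ) ≤ lev u (y - z)}

/-- displacement of the block of size `m` -/
def bx (P : BP) (u : Fin d → ℝ) (m : ℕ) (z : Pos d) (s : ℕ) : Pos d :=
  if h : {v : Pos d | z + v ∈ E.W P u z s (s + E.bh P u m z s) ∧ (m : ℝ) ≤ lev u v}.Nonempty then
    Function.argminOn rk {v : Pos d | z + v ∈ E.W P u z s (s + E.bh P u m z s) ∧ (m : ℝ) ≤ lev u v} h
  else 0

/-- the variable of the block: duration and displacement -/
def blk (P : BP) (u : Fin d → ℝ) (m : ℕ) (z : Pos d) (s : ℕ) : ℕ × Pos d :=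
  (E.bh P u m z s, E.bx P u m z s)

/-- chain of blocks with the sizes `ms`, started at `(z, s)`: list of the block variables -/
def chain (P : BP) (u : Fin d → ℝ) : List ℕ → Pos d → ℕ → List (ℕ × Pos d)
  | [], _, _ => []
  | m :: ms, z, s =>
      E.blk P u m z s :: chain P u ms (z + (E.blk P u m z s).2 + v0 P u) (s + (E.blk P u m z s).1 + P.Δ)

end Env

/-- the environment of the torus chain given by an initial configuration and a word -/
def envT {m : Model} {δ : ℝ} (q : Par d m δ) (η : Tor d q.M → ℕ) (l : List (Let d q.M (q.K + 1))) :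
    Env d where
  V := Tor d q.M
  nb := nbT
  pr := tv
  η0 := η
  U := units q.N1 l

end ZP
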