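import Pool.Agent.ZP.Core
import Pool.Agent.ZP.E1
import Pool.Agent.ZP.R2
import Pool.Agent.ZP.InfLem

/-! # Row SF3: reversed words, reversed events, reversed routes -/

set_option autoImplicit false

open scoped ENNReal BigOperators Classical Pointwise

noncomputable section

namespace ZP.SF3

open ZP

variable {d : ℕ}

section words

variable {M K : ℕ}

/-- route along a word, restricted to `G` -/
def Rch (G : Set (Pos d)) (η : Tor d M → ℕ) (w : List (Let d M K)) (x y : Pos d) : Prop :=
  x ∈ G ∧ 0 < η (tv x) ∧ y ∈ (w.foldl (stepI G) (η, {x})).2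

theorem foldI_eq (G : Set (Pos d)) (w : List (Let d M K)) (η : Tor d M → ℕ) (A : Set (Pos d)) :
    w.foldl (stepI G) (η, A) = (w.foldl stepA η, (w.foldl (stepI G) (η, A)).2) :=
  Prod.ext (E1.foldl_stepI_fst G w (η, A)) rfl

theorem foldI_mono (G : Set (Pos d)) (w : List (Let d M K)) (η : Tor d M → ℕ) {A A' : Set (Pos d)}
    (h : A ⊆ A') : (w.foldl (stepI G) (η, A)).2 ⊆ (w.foldl (stepI G) (η, A')).2 := by
  rw [← E1.foldl_filterMap, ← E1.foldl_filterMap]
  exact foldl_stepR_mono subset_rfl _ _ h

theorem mem_foldI (G : Set (Pos d)) (w : List (Let d M K)) (η : Tor d M → ℕ) (A : Set (Pos d))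
    {z : Pos d} (h : z ∈ (w.foldl (stepI G) (η, A)).2) :
    ∃ y ∈ A, z ∈ (w.foldl (stepI G) (η, {y})).2 := by
  rw [← E1.foldl_filterMap] at h
  obtain ⟨y, hy, hz⟩ := mem_foldl_stepR _ _ _ z h
  rw [E1.foldl_filterMap] at hz
  exact ⟨y, hy, hz⟩

theorem foldI_occ (G : Set (Pos d)) (w : List (Let d M K)) (η : Tor d M → ℕ) (A : Set (Pos d))
    (hA : ∀ z ∈ A, 0 < η (tv z)) {z : Pos d} (h : z ∈ (w.foldl (stepI G) (η, A)).2) :
    0 < w.foldl stepA η (tv z) := by
  rw [← E1.foldl_filterMap] at h
  have := foldl_stepR_occ _ _ _ hA z h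
  rwa [E1.foldl_filterMap_mv] at this

theorem Rch_append (G : Set (Pos d)) (η : Tor d M → ℕ) (w w' : List (Let d M K)) (x y : Pos d) :
    Rch G η (w ++ w') x y ↔ ∃ z, Rch G η w x z ∧ Rch G (w.foldl stepA η) w' z y := by
  unfold Rch
  rw [List.foldl_append, foldI_eq G w η {x}]
  constructor
  · rintro ⟨h1, h2, h3⟩
    obtain ⟨z, hz, hy⟩ := mem_foldI G w' _ _ h3
    have hocc : ∀ a ∈ ({x} : Set (Pos d)), 0 < η (tv a) := by
      rintro a rfl
      exact h2
    exact ⟨z, ⟨h1, h2, hz⟩, E1.foldl_stepI_sub G w (η, {x}) (Set.singleton_subset_iff.2 h1) hz,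
      foldI_occ G w η {x} hocc hz, hy⟩
  · rintro ⟨z, ⟨h1, h2, hz⟩, -, -, hy⟩
    exact ⟨h1, h2, foldI_mono G w' _ (Set.singleton_subset_iff.2 hz) hy⟩

theorem Rch_nil (G : Set (Pos d)) (η : Tor d M → ℕ) (x y : Pos d) :
    Rch G η ([] : List (Let d M K)) x y ↔ x ∈ G ∧ 0 < η (tv x) ∧ y = x := Iff.rfl

theorem tv_sub_dv (x : Pos d) (e : Dir d) : (tv (x - dv e) : Tor d M) = tv x - tv (dv e) := by
  funext j
  simp [ZI.tv]

theorem dv_ng' (e : Dir d) : dv (ZI.R2aux.ng e) = -dv e := ZI.R2aux.dv_ng e

theorem Rch_one (hd : 0 < d) (hM : 3 ≤ M) (hK : 0 < K) (G : Set (Pos d)) (η : Tor d M → ℕ)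
    (a : Let d M (K + 1)) (x y : Pos d) :
    Rch G η [a] x y ↔ Rch G (stepA η a) [(canL (mark a) (stepA η a) η : Let d M (K + 1))] y x := by
  have hM2 : 2 ≤ M := by omega
  cases h : toLab a with
  | none =>
    rw [E1.stepA_none _ _ h, E1.mark_none a h, E1.canL_stay hM2]
    unfold Rch
    rw [List.foldl_cons, List.foldl_cons, List.foldl_nil, List.foldl_nil, E1.stepI_none _ _ a h,
      E1.stepI_none _ _ _ rfl]
    constructor
    · rintro ⟨h1, h2, h3⟩
      obtain rfl : y = x := h3
      exact ⟨h1, h2, rfl⟩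
    · rintro ⟨h1, h2, h3⟩
      obtain rfl : x = y := h3
      exact ⟨h1, h2, rfl⟩
  | some b =>
    obtain ⟨v, j, e⟩ := b
    cases j with
    | zero =>
      have hs : stepA η a = η := E1.stepA_some η a _ h
      rw [hs, E1.mark_zero a v e h]
      obtain ⟨e', he'⟩ := E1.canL_rec (K := K) hd v η η
      unfold Rch
      rw [List.foldl_cons, List.foldl_cons, List.foldl_nil, List.foldl_nil, E1.stepI_some _ _ a _ h,
        E1.stepI_some _ _ _ _ he']
      constructor
      · rintro ⟨h1, h2, ⟨h3, h4⟩, h5⟩
        obtain rfl : y = x := h3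
        exact ⟨h1, h2, ⟨rfl, h4⟩, h5⟩
      · rintro ⟨h1, h2, ⟨h3, h4⟩, h5⟩
        obtain rfl : x = y := h3
        exact ⟨h1, h2, ⟨rfl, h4⟩, h5⟩
    | succ k =>
      have hs : stepA η a = ZI.mv nbT η (v, k, e) := E1.stepA_some η a _ h
      rw [E1.mark_succ a v k e h]
      by_cases hk : k < η v
      · have hv : 0 < η v := lt_of_le_of_lt (Nat.zero_le _) hk
        have hmv : ZI.mv nbT η (v, k, e) = ZI.R2aux.add (ZI.R2aux.rem η v) (v + tv (dv e)) :=
          ZI.C5.mv_add η (v, k, e) hk
        obtain ⟨a1, a2, a3⟩ := ZI.C5.jump_vals hM2 η v e hv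
        have hneb : v + tv (dv e) ≠ v := ZI.Rows.add_tv_ne hM2 v e
        -- the reversed jump
        have hback : ZI.mv nbT (ZI.mv nbT η (v, k, e)) (v + tv (dv e), 0, ZI.R2aux.ng e) = η := by
          have h1 : 0 < ZI.mv nbT η (v, k, e) (v + tv (dv e)) := by
            rw [hmv, a2]
            omega
          rw [ZI.C5.mv_add _ (v + tv (dv e), 0, ZI.R2aux.ng e) h1]
          show ZI.R2aux.add (ZI.R2aux.rem (ZI.mv nbT η (v, k, e)) (v + tv (dv e)))
            (v + tv (dv e) + tv (dv (ZI.R2aux.ng e))) = η
          rw [hmv, ZI.R2aux.rem_add, ZI.R2aux.tv_ng, add_neg_cancel_right, ZI.R2aux.add_rem η v hv]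
        have hcan : toLab (canL none (ZI.mv nbT η (v, k, e)) η : Let d M (K + 1)) =
            some (v + tv (dv e), 1, ZI.R2aux.ng e) := by
          have h1 : 0 < ZI.mv nbT η (v, k, e) (v + tv (dv e)) := by
            rw [hmv, a2]
            omega
          have h2 := E1.canL_jump hM hK (ZI.mv nbT η (v, k, e)) (v + tv (dv e)) 0 (ZI.R2aux.ng e) h1
          rw [hback] at h2
          exact h2
        rw [hs]
        unfold Rch
        rw [List.foldl_cons, List.foldl_cons, List.foldl_nil, List.foldl_nil,
          E1.stepI_some _ _ a _ h, E1.stepI_some _ _ _ _ hcan]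
        change (x ∈ G ∧ 0 < η (tv x) ∧ y ∈ ZI.infMv nbT tv η {x} (v, k, e) ∩ G) ↔
          (y ∈ G ∧ 0 < ZI.mv nbT η (v, k, e) (tv y) ∧
            x ∈ ZI.infMv nbT tv (ZI.mv nbT η (v, k, e)) {y} (v + tv (dv e), 0, ZI.R2aux.ng e) ∩ G)
        have h1 : 0 < ZI.mv nbT η (v, k, e) (v + tv (dv e)) := by
          rw [hmv, a2]
          omega
        unfold ZI.infMv
        rw [if_pos hk, if_pos h1]
        have key : ∀ x : Pos d, (0 < η (tv x) ∧ (tv x = v → 2 ≤ η v)) ↔
            (0 < ZI.mv nbT η (v, k, e) (tv x) ∧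
              (tv x = v + tv (dv e) → 2 ≤ ZI.mv nbT η (v, k, e) (v + tv (dv e)))) := by
          intro x
          rw [hmv]
          by_cases c1 : tv x = v
          · have c2 : (tv x : Tor d M) ≠ v + tv (dv e) := by
              rw [c1]
              exact hneb.symm
            rw [c1]
            rw [c1] at c2
            constructor
            · rintro ⟨-, h2⟩
              have := h2 rfl
              exact ⟨by omega, fun h => absurd h c2⟩
            · rintro ⟨h2, -⟩
              exact ⟨hv, fun _ => by omega⟩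
          · by_cases c2 : tv x = v + tv (dv e)
            · rw [c2, a2]
              constructor
              · rintro ⟨h2, -⟩
                exact ⟨by omega, fun _ => by omega⟩
              · rintro ⟨-, h2⟩
                have := h2 rfl
                exact ⟨by omega, fun h => absurd h hneb⟩
            · rw [a3 _ c1 c2]
              exact ⟨fun h => ⟨h.1, fun h' => absurd h' c2⟩, fun h => ⟨h.1, fun h' => absurd h' c1⟩⟩
        constructor
        · rintro ⟨g1, g2, g3 | g3, g4⟩
          · obtain ⟨g5, g6⟩ := g3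
            obtain rfl : y = x := g5
            obtain ⟨k1, k2⟩ := (key y).1 ⟨g2, g6⟩
            exact ⟨g4, k1, Or.inl ⟨rfl, k2⟩, g1⟩
          · obtain ⟨g5, g6, g7⟩ := g3
            have g5' : y - dv e = x := g5
            have g6' : (tv x : Tor d M) = v := by rw [← g5']; exact g6
            have g8 : (tv y : Tor d M) = v + tv (dv e) := by
              have := tv_sub_dv (M := M) y e
              rw [g5', g6'] at this
              rw [this]
              abel
            refine ⟨g4, ?_, Or.inr ⟨?_, ?_, ?_⟩, g1⟩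
            · rw [g8]
              exact h1
            · show x - dv (ZI.R2aux.ng e) = y
              rw [dv_ng', ← g5']
              abel
            · show (tv (x - dv (ZI.R2aux.ng e)) : Tor d M) = v + tv (dv e)
              rw [← g8]
              congr 1
              rw [dv_ng', ← g5']
              abel
            · show some (v + tv (dv e) + tv (dv (ZI.R2aux.ng e))) = some (tv x)
              rw [ZI.R2aux.tv_ng, add_neg_cancel_right, g6']
        · rintro ⟨g1, g2, g3 | g3, g4⟩
          · obtain ⟨g5, g6⟩ := g3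
            obtain rfl : x = y := g5
            obtain ⟨k1, k2⟩ := (key x).2 ⟨g2, g6⟩
            exact ⟨g4, k1, Or.inl ⟨rfl, k2⟩, g1⟩
          · obtain ⟨g5, g6, g7⟩ := g3
            have g5' : x - dv (ZI.R2aux.ng e) = y := g5
            have g7' : v + tv (dv e) + tv (dv (ZI.R2aux.ng e)) = (tv x : Tor d M) :=
              Option.some.inj g7
            rw [ZI.R2aux.tv_ng, add_neg_cancel_right] at g7'
            have g8 : y - dv e = x := by
              rw [← g5', dv_ng']
              abel
            refine ⟨g4, ?_, Or.inr ⟨g8, ?_, ?_⟩, g1⟩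
            · rw [← g7']
              exact hv
            · show (tv (y - dv e) : Tor d M) = v
              rw [g8, g7']
            · show some (v + tv (dv e)) = some (tv y)
              rw [g7', ← g8, tv_sub_dv]
              congr 1
              abel
      · rw [hs, ZI.C5.mv_stay _ _ hk, E1.canL_stay hM2]
        unfold Rch
        rw [List.foldl_cons, List.foldl_cons, List.foldl_nil, List.foldl_nil,
          E1.stepI_some _ _ a _ h, E1.stepI_none _ _ _ rfl]
        change (x ∈ G ∧ 0 < η (tv x) ∧ y ∈ ZI.infMv nbT tv η {x} (v, k, e) ∩ G) ↔ _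
        unfold ZI.infMv
        rw [if_neg hk]
        constructor
        · rintro ⟨h1, h2, h3, h4⟩
          obtain rfl : y = x := h3
          exact ⟨h1, h2, rfl⟩
        · rintro ⟨h1, h2, h3⟩
          obtain rfl : x = y := h3
          exact ⟨h1, h2, rfl, h1⟩

theorem canP_snoc (ξ ζ : Tor d M → ℕ) (mk : Option (Tor d M)) :
    ∀ (p : List (Tor d M → ℕ)) (o : List (Option (Tor d M))), p.length = o.length →
      (canP (p ++ [ξ, ζ]) (o ++ [mk]) : List (Let d M (K + 1))) =
        canP (p ++ [ξ]) o ++ [canL mk ξ ζ] := by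
  intro p
  induction p with
  | nil =>
    intro o ho
    have : o = [] := by
      cases o with
      | nil => rfl
      | cons _ _ => simp at ho
    subst this
    rfl
  | cons η p ih =>
    intro o ho
    cases o with
    | nil => simp at ho
    | cons o1 os =>
      have ho' : p.length = os.length := by simpa using ho
      have := ih os ho'
      cases p with
      | nil =>
        have hos : os = [] := by
          cases os with
          | nil => rfl
          | cons _ _ => simp at ho'
        subst hos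
        rfl
      | cons η' p =>
        show canL o1 η η' :: canP (η' :: p ++ [ξ, ζ]) (os ++ [mk]) =
          canL o1 η η' :: canP (η' :: p ++ [ξ]) os ++ [canL mk ξ ζ]
        rw [this]
        rfl

theorem rword_cons (η : Tor d M → ℕ) (a : Let d M (K + 1)) (w : List (Let d M (K + 1))) :
    rword η (a :: w) = rword (stepA η a) w ++ [canL (mark a) (stepA η a) η] := by
  unfold rword
  obtain ⟨L, hL⟩ := E1.path_head (stepA η a) w
  have hlen := E1.path_length (stepA η a) w
  rw [hL] at hlen
  rw [path, hL, List.map_cons, List.reverse_cons, List.reverse_cons, List.reverse_cons,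
    List.append_assoc]
  exact canP_snoc (stepA η a) η (mark a) L.reverse (w.map mark).reverse (by
    simpa using hlen)

theorem rword_append (w w' : List (Let d M (K + 1))) : ∀ η : Tor d M → ℕ,
    rword η (w ++ w') = rword (w.foldl stepA η) w' ++ rword η w := by
  induction w with
  | nil =>
    intro η
    show rword η w' = rword η w' ++ []
    rw [List.append_nil]
  | cons a w ih =>
    intro η
    rw [List.cons_append, rword_cons, ih, rword_cons, List.append_assoc]
    rfl

theorem path_cw (hd : 0 < d) (hM : 3 ≤ M) (hK : 0 < K) (w : List (Let d M (K + 1))) :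
    ∀ η : Tor d M → ℕ, path η (E1.cw η w) = path η w := by
  induction w with
  | nil => exact fun η => rfl
  | cons a w ih =>
    intro η
    have h1 : stepA η (canL (mark a) η (stepA η a) : Let d M (K + 1)) = stepA η a := by
      have h2 := congrArg Prod.fst
        (E1.stepI_can hd hM hK Set.univ ∅ η a (Set.empty_subset _))
      rw [E1.stepI_fst, E1.stepI_fst] at h2
      exact h2
    rw [E1.cw, path, path, h1, ih]

end words

section par

variable {m : Model} {δ : ℝ} (q : Par d m δ)

/-- the reversed word is the canonical word of a path -/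
theorem rword_eq (hd : 0 < d) (η : Tor d q.M → ℕ) (w : List (Let d q.M (q.K + 1))) :
    ∃ w' : List (Let d q.M (q.K + 1)), rword η w = E1.cw (w.foldl stepA η) w' ∧
      (path η w).reverse = path (w.foldl stepA η) w' ∧ (w.map mark).reverse = w'.map mark := by
  obtain ⟨η', w', h1, h2⟩ := ZP.Rows.isPath_reverse q hd (path η w) (w.map mark) ⟨η, w, rfl, rfl⟩
  obtain ⟨L, hL⟩ := E1.path_rev_head η w
  obtain ⟨L', hL'⟩ := E1.path_head η' w'
  have h3 : η' = w.foldl stepA η := by
    rw [hL, hL'] at h1
    exact (List.cons.inj h1).1.symm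
  subst h3
  refine ⟨w', ?_, h1, h2⟩
  unfold rword
  rw [h1, h2, E1.canP_path]

theorem foldl_rword (hd : 0 < d) (η : Tor d q.M → ℕ) (w : List (Let d q.M (q.K + 1))) :
    (rword η w).foldl stepA (w.foldl stepA η) = η := by
  have hM : 3 ≤ q.M := by have := q.M_ge; omega
  have hK : 0 < q.K := by have := q.K_ge; omega
  obtain ⟨w', h1, h2, h3⟩ := rword_eq q hd η w
  rw [h1, E1.cw_foldA hd hM hK]
  obtain ⟨L, hL⟩ := E1.path_rev_head (w.foldl stepA η) w'
  obtain ⟨L', hL'⟩ := E1.path_head η w
  rw [← h2, List.reverse_reverse, hL'] at hL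
  exact (List.cons.inj hL).1.symm

theorem rword_length (hd : 0 < d) (η : Tor d q.M → ℕ) (w : List (Let d q.M (q.K + 1))) :
    (rword η w).length = w.length := by
  obtain ⟨w', h1, h2, h3⟩ := rword_eq q hd η w
  rw [h1, E1.cw_length]
  have := congrArg List.length h3
  simpa using this.symm

theorem Rch_rev (hd : 0 < d) (G : Set (Pos d)) (w : List (Let d q.M (q.K + 1))) :
    ∀ (η : Tor d q.M → ℕ) (x y : Pos d),
      Rch G η w x y ↔ Rch G (w.foldl stepA η) (rword η w) y x := by
  have hM : 3 ≤ q.M := by have := q.M_ge; omega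
  have hK : 0 < q.K := by have := q.K_ge; omega
  induction w with
  | nil =>
    intro η x y
    show Rch G η [] x y ↔ Rch G η [] y x
    rw [Rch_nil, Rch_nil]
    constructor
    · rintro ⟨h1, h2, rfl⟩
      exact ⟨h1, h2, rfl⟩
    · rintro ⟨h1, h2, rfl⟩
      exact ⟨h1, h2, rfl⟩
  | cons a w ih =>
    intro η x y
    have h1 : a :: w = [a] ++ w := rfl
    rw [h1, Rch_append, ← h1, rword_cons, Rch_append]
    have h2 : (rword (stepA η a) w).foldl stepA ((a :: w).foldl stepA η) = stepA η a :=
      foldl_rword q hd (stepA η a) w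
    rw [h2]
    refine exists_congr fun z => ?_
    rw [Rch_one hd hM hK G η a x z]
    have h3 : Rch G ([a].foldl stepA η) w z y ↔
        Rch G ((a :: w).foldl stepA η) (rword (stepA η a) w) y z := ih (stepA η a) z y
    rw [h3]
    exact and_comm

/-- routes of the environment as routes along the word -/
theorem inf_iff (η : Tor d q.M → ℕ) (w : List (Let d q.M (q.K + 1))) (G : Set (Pos d)) (s : ℕ)
    (x : Pos d) (j : ℕ) : ∀ y : Pos d,
    y ∈ inf nbT tv η (units q.N1 w) (fun _ => G) s {x} j ↔
      Rch G (stt η w (s * q.N1)) ((w.drop (s * q.N1)).take (j * q.N1)) x y := by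
  induction j with
  | zero =>
    intro y
    rw [Nat.zero_mul, List.take_zero, Rch_nil]
    change (y ∈ ({x} : Set (Pos d)) ∧ y ∈ G ∧ 0 < cfg nbT η (units q.N1 w) s (tv y)) ↔ _
    rw [E1.cfg_eq]
    constructor
    · rintro ⟨h1, h2, h3⟩
      obtain rfl : y = x := h1
      exact ⟨h2, h3, rfl⟩
    · rintro ⟨h1, h2, rfl⟩
      exact ⟨rfl, h1, h2⟩
  | succ j ih =>
    intro y
    have hw : (w.drop (s * q.N1)).take ((j + 1) * q.N1) =
        (w.drop (s * q.N1)).take (j * q.N1) ++ (w.drop ((s + j) * q.N1)).take q.N1 := by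
      rw [Nat.succ_mul, List.take_add, List.drop_drop, ← Nat.add_mul]
    have hst : ((w.drop (s * q.N1)).take (j * q.N1)).foldl stepA (stt η w (s * q.N1)) =
        cfg nbT η (units q.N1 w) (s + j) := by
      unfold stt
      rw [E1.cfg_eq, ← List.foldl_append, Nat.add_mul, List.take_add]
    rw [hw, Rch_append, hst]
    change y ∈ ((units q.N1 w (s + j)).foldl (stepR nbT tv G)
      (cfg nbT η (units q.N1 w) (s + j), inf nbT tv η (units q.N1 w) (fun _ => G) s {x} j ∩ G)).2 ↔ _
    have hu : units q.N1 w (s + j) = ((w.drop ((s + j) * q.N1)).take q.N1).filterMap toLab := rfl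
    rw [hu, E1.foldl_filterMap]
    constructor
    · intro h
      obtain ⟨z, hz, hy⟩ := mem_foldI _ _ _ _ h
      exact ⟨z, (ih z).1 hz.1, hz.2, inf_occ j z hz.1, hy⟩
    · rintro ⟨z, h1, h2, h3, h4⟩
      have h5 : z ∈ inf nbT tv η (units q.N1 w) (fun _ => G) s {x} j ∩ G := ⟨(ih z).2 h1, h2⟩
      exact foldI_mono G _ _ (Set.singleton_subset_iff.2 h5) h4

end par

end ZP.SF3

namespace ZP.Rows

open ZP ZP.SF3

variable {d : ℕ} {m : Model} {δ : ℝ} (q : Par d m δ)

/-- path and marks of the reversed word -/
theorem rword_path (hd : 0 < d) (hM : 5 ≤ q.M) (η : Tor d q.M → ℕ) (w : List (Let d q.M (q.K + 1))) :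
    path (stt η w w.length) (rword η w) = (path η w).reverse ∧
      (rword η w).map mark = (w.map mark).reverse ∧ (rword η w).length = w.length := by
  have hM' : 3 ≤ q.M := by omega
  have hK : 0 < q.K := by have := q.K_ge; omega
  obtain ⟨w', h1, h2, h3⟩ := rword_eq q hd η w
  refine ⟨?_, ?_, rword_length q hd η w⟩
  · unfold stt
    rw [List.take_length, h1, path_cw hd hM' hK, h2]
  · rw [h1, E1.cw_mark hd hM' hK, h3]

/-- the reversed event has the same probability -/
theorem PP_rev (hd : 0 < d) (N : ℕ) (E : Ev d q.M q.K) (h : PthE E) : q.PP N (revE E) = q.PP N E := by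
  have hM' : 3 ≤ q.M := by have := q.M_ge; omega
  have hK : 0 < q.K := by have := q.K_ge; omega
  have h1 := reversal q hd N
    (fun p o => if E (p.headD (fun _ => 0)) (canP p o) then 1 else 0)
  have h2 : q.PP N E = q.EE N (fun η l => if E ((path η l).headD (fun _ => 0))
      (canP (path η l) (l.map mark)) then 1 else 0) := by
    unfold Par.PP
    congr 1
    funext η l
    obtain ⟨L, hL⟩ := E1.path_head η l
    have h3 : (path η l).headD (fun _ => 0) = η := by
      rw [hL]
      rfl
    have h4 : E η l ↔ E ((path η l).headD (fun _ => 0)) (canP (path η l) (l.map mark)) := by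
      rw [h3, E1.canP_path]
      constructor
      · exact h η l (E1.cw η l) (path_cw hd hM' hK l η).symm (E1.cw_mark hd hM' hK l η).symm
      · exact h η (E1.cw η l) l (path_cw hd hM' hK l η) (E1.cw_mark hd hM' hK l η)
    by_cases h5 : E η l
    · rw [if_pos h5, if_pos (h4.1 h5)]
    · rw [if_neg h5, if_neg (fun h6 => h5 (h4.2 h6))]
  rw [h2, h1]
  unfold Par.PP
  congr 1
  funext η l
  obtain ⟨L, hL⟩ := E1.path_rev_head η l
  have h3 : (path η l).reverse.headD (fun _ => 0) = stt η l l.length := by
    rw [hL]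
    unfold stt
    rw [List.take_length]
    rfl
  rw [h3]
  rfl

/-- routes and reversed routes -/
theorem R_rev (hd : 0 < d) (η : Tor d q.M → ℕ) (w : List (Let d q.M (q.K + 1))) (H : ℕ)
    (hw : w.length = H * q.N1) (G : Set (Pos d)) (s t : ℕ) (hst : s ≤ t) (ht : t ≤ H) (x y : Pos d) :
    (envT q η w).R (fun _ => G) s x t y ↔
      (envT q (stt η w w.length) (rword η w)).R (fun _ => G) (H - t) y (H - s) x := by
  obtain ⟨j, rfl⟩ := Nat.exists_eq_add_of_le hst
  obtain ⟨i, rfl⟩ := Nat.exists_eq_add_of_le ht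
  have e1 : s + j + i - (s + j) = i := by omega
  have e2 : s + j + i - s = i + j := by omega
  rw [e1, e2]
  -- the three pieces of the word
  have hw1 : w = w.take (s * q.N1) ++ ((w.drop (s * q.N1)).take (j * q.N1) ++
      w.drop ((s + j) * q.N1)) := by
    conv_lhs => rw [← List.take_append_drop (s * q.N1) w,
      ← List.take_append_drop (j * q.N1) (w.drop (s * q.N1))]
    rw [List.drop_drop, ← Nat.add_mul]
  set w1 := w.take (s * q.N1) with hd1
  set w2 := (w.drop (s * q.N1)).take (j * q.N1) with hd2
  set w3 := w.drop ((s + j) * q.N1) with hd3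
  have hr : rword η w = (rword (w2.foldl stepA (w1.foldl stepA η)) w3 ++
      rword (w1.foldl stepA η) w2) ++ rword η w1 := by
    conv_lhs => rw [hw1]
    rw [rword_append, rword_append]
  have hl3 : (rword (w2.foldl stepA (w1.foldl stepA η)) w3).length = i * q.N1 := by
    rw [rword_length q hd, hd3, List.length_drop, hw, ← Nat.sub_mul, e1]
  have hl2 : (rword (w1.foldl stepA η) w2).length = j * q.N1 := by
    rw [rword_length q hd, hd2, List.length_take, List.length_drop, hw, ← Nat.sub_mul]
    apply min_eq_left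
    exact Nat.mul_le_mul_right _ (by omega)
  have hfold : stt η w w.length = w3.foldl stepA (w2.foldl stepA (w1.foldl stepA η)) := by
    unfold stt
    rw [List.take_length, ← List.foldl_append, ← List.foldl_append, ← List.append_assoc] 
    conv_lhs => rw [hw1]
    rw [List.append_assoc]
  have hL : (envT q η w).R (fun _ => G) s x (s + j) y ↔ Rch G (w1.foldl stepA η) w2 x y := by
    constructor
    · rintro ⟨j', hj', h⟩
      obtain rfl : j' = j := by omega
      exact (inf_iff q η w G s x j' y).1 h
    · intro h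
      exact ⟨j, rfl, (inf_iff q η w G s x j y).2 h⟩
  have hR : (envT q (stt η w w.length) (rword η w)).R (fun _ => G) i y (i + j) x ↔
      Rch G (w2.foldl stepA (w1.foldl stepA η)) (rword (w1.foldl stepA η) w2) y x := by
    have h1 : stt (stt η w w.length) (rword η w) (i * q.N1) =
        w2.foldl stepA (w1.foldl stepA η) := by
      rw [hfold]
      unfold stt
      rw [hr, List.append_assoc, List.take_left' hl3]
      exact foldl_rword q hd _ w3
    have h2 : ((rword η w).drop (i * q.N1)).take (j * q.N1) = rword (w1.foldl stepA η) w2 := by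
      rw [hr, List.append_assoc, List.drop_left' hl3, List.take_left' hl2]
    constructor
    · rintro ⟨j', hj', h⟩
      obtain rfl : j' = j := by omega
      have h3 := (inf_iff q (stt η w w.length) (rword η w) G i y j' x).1 h
      rw [h1, h2] at h3
      exact h3
    · intro h
      refine ⟨j, rfl, (inf_iff q (stt η w w.length) (rword η w) G i y j x).2 ?_⟩
      rw [h1, h2]
      exact h
  rw [hL, hR]
  exact Rch_rev q hd G w2 (w1.foldl stepA η) x y

end ZP.Rows
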