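import Pool.Agent.ZP.SF1
import Pool.Agent.ZP.SF2
import Pool.Agent.ZP.SF3
import Pool.Agent.ZP.BKa

/-! # ZP, row CF: bad blocks of the level `k` anywhere, forwards and backwards -/

set_option autoImplicit false

open scoped ENNReal BigOperators Classical Pointwise

noncomputable section

namespace ZP.Rows

open ZP

variable {d : ℕ}

theorem core_fwd (m : Model) (d : ℕ) (hd : 0 < d) {δ : ℝ} (q : Par d m δ) (A : Prm) (k r H : ℕ) (p : ℝ≥0∞)
    (hL : 1000 * (d + 1) ≤ A.L) (hγ : A.α + 12 ≤ A.γ)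
    (hM : 12 * A.S k + 4 * A.L ^ 2 + 10 ≤ q.M)
    (h1 : q.PP (6 * A.T d k * q.N1) (BadM q.N1 A k) ≤ p)
    (h2 : q.PP (6 * A.T d k * q.N1) (BadP q.N1 A k) ≤ p) :
    q.PP (H * q.N1) (fun η w => ¬ ((∀ (x : Pos d) (t : ℕ), t + 6 * A.T d k ≤ H → ∀ b,
        ¬ sft q.N1 x t (PBad q.N1 A b k) η w) ∧
      ∀ (x : Pos d) (t : ℕ), t + 6 * A.T d k ≤ H → ∀ b,
        ¬ sft q.N1 x t (PBad q.N1 A b k) (stt η w w.length) (rword η w))) ≤
      4 * (H + 1) * (q.M : ℝ≥0∞) ^ d * p := by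
  have hL2 : 2 ≤ A.L := by omega
  have hM2 : 2 * A.L ^ 2 + 4 ≤ q.M := by omega
  set U := 6 * A.T d k with hU
  -- the two signs
  have hb : ∀ b : Bool, q.PP (H * q.N1) (fun η w => ∃ (x : Pos d) (t : ℕ), t + U ≤ H ∧
      sft q.N1 x t (PBad q.N1 A b k) η w) ≤ (H + 1) * (q.M : ℝ≥0∞) ^ d * p := by
    intro b
    cases b with
    | false =>
        have e : PBad (d := d) (M := q.M) (K := q.K) q.N1 A false k = PBadM q.N1 A k :=
          if_neg Bool.false_ne_true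
        rw [e]
        refine (PP_union q hd H U (PBadM q.N1 A k) (pbadM_loc q.N1 A hL hγ k hM)).trans ?_
        refine mul_le_mul_right ?_ _
        exact (PP_mono q _ fun η w _ h => badM_of_pbadM q.N1 A hL2 hM2 k η w h).trans h1
    | true =>
        have e : PBad (d := d) (M := q.M) (K := q.K) q.N1 A true k = BadP q.N1 A k := if_pos rfl
        rw [e]
        refine (PP_union q hd H U (BadP q.N1 A k) (ZP.Rows.IncE.loc q.N1 (badP_inc q.N1 A hL hγ k hM))).trans ?_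
        exact mul_le_mul_right h2 _
  -- the event of one direction
  set E : Ev d q.M q.K := fun η w => ∃ (x : Pos d) (t : ℕ), t + U ≤ H ∧ ∃ b,
    sft q.N1 x t (PBad q.N1 A b k) η w with hE
  have hE1 : q.PP (H * q.N1) E ≤ 2 * ((H + 1) * (q.M : ℝ≥0∞) ^ d * p) := by
    rw [two_mul]
    refine (PP_mono q _ (E' := fun η w => (∃ (x : Pos d) (t : ℕ), t + U ≤ H ∧
      sft q.N1 x t (PBad q.N1 A false k) η w) ∨ (∃ (x : Pos d) (t : ℕ), t + U ≤ H ∧
      sft q.N1 x t (PBad q.N1 A true k) η w)) ?_).trans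
      ((PP_or q _ _ _).trans (add_le_add (hb false) (hb true)))
    rintro η w - ⟨x, t, ht, b, h⟩
    cases b with
    | false => exact Or.inl ⟨x, t, ht, h⟩
    | true => exact Or.inr ⟨x, t, ht, h⟩
  have hEp : PthE E := by
    rintro η w w' hp hm ⟨x, t, ht, b, h⟩
    exact ⟨x, t, ht, b, (ZP.Rows.PthE.sft q.N1 (pbad_pth q.N1 A q.M_ge b k) x t) η w w' hp hm h⟩
  have hE2 : q.PP (H * q.N1) (revE E) ≤ 2 * ((H + 1) * (q.M : ℝ≥0∞) ^ d * p) :=
    (PP_rev q hd _ E hEp).le.trans hE1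
  refine (PP_mono q _ (E' := fun η w => E η w ∨ revE E η w) ?_).trans
    ((PP_or q _ _ _).trans ((add_le_add hE1 hE2).trans (le_of_eq ?_)))
  · intro η w _ h
    by_contra hn
    rw [not_or] at hn
    exact h ⟨fun x t ht b hs => hn.1 ⟨x, t, ht, b, hs⟩, fun x t ht b hs => hn.2 ⟨x, t, ht, b, hs⟩⟩
  · ring

end ZP.Rows
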