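import Pool.Agent.ZP.CO1b

/-! # Row CO1: from the core event to the properties of routes (deterministic, text M7) -/

set_option autoImplicit false

open scoped ENNReal BigOperators Classical Pointwise

noncomputable section

namespace ZP.CO1

open ZP ZP.Rows

variable {d : ℕ}

/-! ### indices of cells -/

theorem ci_dist {S X : ℕ} (hS : 1 ≤ S) {u v : Pos d} (h : supn (u - v) ≤ X * S) :
    supn (ci S u - ci S v) ≤ X := by
  rw [supn_le_iff] at h ⊢
  intro j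
  have h1 := h j
  have hS' : (0 : ℤ) < S := by exact_mod_cast hS
  have h2 : |u j - v j| ≤ ((X * S : ℕ) : ℤ) := by
    rw [Int.abs_eq_natAbs]
    exact_mod_cast h1
  rw [abs_le] at h2
  push_cast at h2
  have h3 : u j / (S : ℤ) ≤ v j / S + X := by
    rw [← Int.add_mul_ediv_right _ _ hS'.ne']
    exact Int.ediv_le_ediv hS' (by linarith [h2.2])
  have h4 : v j / (S : ℤ) ≤ u j / S + X := by
    rw [← Int.add_mul_ediv_right _ _ hS'.ne']
    exact Int.ediv_le_ediv hS' (by linarith [h2.1])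
  show (u j / (S : ℤ) - v j / S).natAbs ≤ X
  omega

theorem n1_le {v : Pos d} {X : ℕ} (h : supn v ≤ X) : n1 v ≤ d * X := by
  unfold n1
  calc ∑ j, (v j).natAbs ≤ ∑ _j : Fin d, X :=
        Finset.sum_le_sum fun j _ => (supn_le_iff v X).mp h j
    _ = d * X := by simp

theorem supn_tri {u v w : Pos d} {a b : ℕ} (h1 : supn (u - v) ≤ a) (h2 : supn (v - w) ≤ b) :
    supn (u - w) ≤ a + b := by
  rw [supn_le_iff] at h1 h2 ⊢
  intro j
  have h3 := h1 j
  have h4 := h2 j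
  simp only [Pi.sub_apply] at h3 h4 ⊢
  omega

theorem supn_symm {u v : Pos d} {a : ℕ} (h1 : supn (u - v) ≤ a) : supn (v - u) ≤ a := by
  rw [supn_le_iff] at h1 ⊢
  intro j
  have h3 := h1 j
  simp only [Pi.sub_apply] at h3 ⊢
  omega

theorem supn_of_nrm {v : Pos d} {N : ℕ} (h : nrm v ≤ N) : supn v ≤ N := ZI.Geo.supn_le_of_nrm h

theorem nrm_sub_comm (x y : Pos d) : nrm (x - y) = nrm (y - x) := by
  unfold ZI.nrm
  congr 1
  refine Finset.sum_congr rfl fun j _ => ?_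
  simp only [Pi.sub_apply]
  push_cast
  ring

theorem anc_eq (A : Prm) (hL : 1 ≤ A.L) (hγ : 1 ≤ A.γ) (k : ℕ) (c : Pos d) :
    anc A k c = ci (A.S k) (sm A.L c) := by
  funext j
  show c j / (A.nx k : ℤ) = ((A.L : ℤ) * c j) / (A.S k : ℤ)
  rw [S_nx A hγ k]
  push_cast
  rw [mul_comm (A.nx k : ℤ), Int.mul_ediv_mul_of_pos _ _ (by exact_mod_cast hL)]

theorem sm_ci {L : ℕ} (hL : 1 ≤ L) (x : Pos d) : supn (sm L (ci L x) - x) ≤ L := by
  rw [supn_le_iff]
  intro j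
  have h := mem_ci hL x j
  show ((L : ℤ) * ci L x j - x j).natAbs ≤ L
  omega

section rt

variable {m : Model} {δ : ℝ} {q : Par d m δ} {A : Prm}
variable {η : Tor d q.M → ℕ} {w : List (Let d q.M (q.K + 1))}

/-- alive at all times -/
theorem alive (hd : 0 < d) (hL : 1000 * (d + 1) * 3 ^ d ≤ A.L) (hγ : A.α + 12 ≤ A.γ)
    (hτ : 1 ≤ A.τ) {k H : ℕ} (hf : Fwd q A η w k H) {s : ℕ} {x : Pos d} (hs : 3 * A.T d k ≤ s)
    (h : FG (envT q η w) (16 * A.T d k) s x) (t : ℕ) (hst : s ≤ t) (htH : t + 6 * A.T d k ≤ H) :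
    ∃ y, (envT q η w).R (fun _ => Set.univ) s x t y := by
  have hL1 : 1 ≤ A.L := by
    have : 1 ≤ 3 ^ d := Nat.one_le_pow _ _ (by norm_num)
    nlinarith [Nat.zero_le d]
  have hT : 1 ≤ A.T d k := T_pos A hL1 (by omega) hτ k
  obtain ⟨y16, h16⟩ := h
  rcases Nat.lt_or_ge t (s + 16 * A.T d k) with h1 | h1
  · obtain ⟨z, -, hz, -⟩ := R_split _ h16 t hst h1
    exact ⟨z, hz⟩
  · have hsT : s % A.T d k + s / A.T d k * A.T d k = s := by
      rw [Nat.mul_comm]; exact Nat.mod_add_div s _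
    obtain ⟨a, ha⟩ : ∃ a, a = s % A.T d k := ⟨_, rfl⟩
    obtain ⟨j, hj⟩ : ∃ j, j = s / A.T d k := ⟨_, rfl⟩
    rw [← ha, ← hj] at hsT
    have hj3 : 3 ≤ j := by
      rw [hj]
      exact (Nat.le_div_iff_mul_le (by omega)).mpr hs
    have hU := U_le_T (d := d) A hL1 hγ k
    have hjH : a + (j + 4) * A.T d k ≤ H := by
      have : a + (j + 4) * A.T d k = s + 4 * A.T d k := by rw [← hsT]; ring
      omega
    have h16' : (envT q η w).R (fun _ => Set.univ) (a + j * A.T d k) x (s + 16 * A.T d k) y16 := by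
      rw [hsT]; exact h16
    obtain ⟨z, -, P, hP, hPt, p, hp, hRp⟩ := entry hd hL hγ hτ hf (by omega : 2 ≤ j) hjH
      (by omega) h16'
    obtain ⟨J, hJ⟩ : ∃ J, J = (t - a) / A.T d k + 1 := ⟨_, rfl⟩
    have hta : a ≤ t := by omega
    have hJ1 : t < a + J * A.T d k := by
      have h2 := Nat.lt_div_mul_add (a := t - a) (b := A.T d k) (by omega)
      have h3 : J * A.T d k = (t - a) / A.T d k * A.T d k + A.T d k := by rw [hJ]; ring
      omega
    have hJ2 : a + J * A.T d k ≤ t + A.T d k := by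
      have h2 := Nat.div_mul_le_self (t - a) (A.T d k)
      have h3 : J * A.T d k = (t - a) / A.T d k * A.T d k + A.T d k := by rw [hJ]; ring
      omega
    have hjJ : j < J := by
      by_contra hcon
      have : J * A.T d k ≤ j * A.T d k := Nat.mul_le_mul_right _ (by omega)
      omega
    have hgood : ∀ z i, j ≤ i → i ≤ J → ¬ badA q.N1 A η w a k (z, i) := by
      intro z i hi1 hi2
      refine hf.good z (by omega) ?_
      have : (i + 4) * A.T d k ≤ (J + 4) * A.T d k := Nat.mul_le_mul_right _ (by omega)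
      have h3 : (J + 4) * A.T d k = J * A.T d k + 4 * A.T d k := by ring
      omega
    obtain ⟨P', hP', hP't⟩ := Hub_nonempty (fit_lvl A hd hL hγ) (hier_badW q.N1 A hL hγ η w a) k
      (z, J) (hgood z J (by omega) le_rfl)
    have hO := hub_chain (fit_lvl A hd hL hγ) (hier_badW q.N1 A hL hγ η w a) k (z, j) (z, J) hjJ
      (by simp [n1_zero]) hgood P P' hP hP'
    obtain ⟨y, -, hy⟩ := opath_route hτ hO p hp (R_occ _ hRp)
    rw [hsT] at hRp
    have hR := R_trans _ hRp hy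
    have h4 : P'.2 * A.τ = J * A.T d k := by
      rw [hP't, t_eq, Prm.T]
      ring
    rw [h4] at hR
    obtain ⟨y', -, hy', -⟩ := R_split _ hR t hst hJ1
    exact ⟨y', hy'⟩

/-- a route from a forward good point to the cell of a block in a hub -/
theorem reach (hd : 0 < d) (hL : 1000 * (d + 1) * 3 ^ d ≤ A.L) (hγ : A.α + 12 ≤ A.γ)
    (hτ : 1 ≤ A.τ) {k H Cv r : ℕ} (hf : Fwd q A η w k H)
    (hsp : ∀ s t x y, s ≤ t → t ≤ H → (envT q η w).R (fun _ => Set.univ) s x t y →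
      nrm (y - x) ≤ Cv * ((t : ℝ) - s) + r)
    {s : ℕ} {x : Pos d} (hs : 3 * A.T d k ≤ s) (hsH : s + 16 * A.T d k ≤ H)
    (h : FG (envT q η w) (16 * A.T d k) s x) (a j' : ℕ) (ha : a < A.T d k) (c : Pos d)
    (hc : (c, j' * A.ix d k) ∈ Hub (A.lvl d) (badA q.N1 A η w a) k (anc A k c, j'))
    (hj' : a + (j' + 4) * A.T d k ≤ H) (D0 X : ℕ) (hD0 : supn (sm A.L c - x) ≤ D0)
    (hX : D0 + (Cv * A.T d k + r) ≤ X * A.S k)
    (hnum : s + (d * (X + 1) + 2) * A.T d k ≤ a + j' * A.T d k) :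
    ∃ y ∈ cell A.L c, (envT q η w).R (fun _ => Set.univ) s x (a + j' * A.T d k) y := by
  have hL1 : 1 ≤ A.L := by
    have : 1 ≤ 3 ^ d := Nat.one_le_pow _ _ (by norm_num)
    nlinarith [Nat.zero_le d]
  have hT : 1 ≤ A.T d k := T_pos A hL1 (by omega) hτ k
  have hSk : 1 ≤ A.S k := hL1.trans (L_le_S A hL1 (by omega) k)
  have hU := U_le_T (d := d) A hL1 hγ k
  obtain ⟨y16, h16⟩ := h
  obtain ⟨j1, hj1⟩ : ∃ J, J = (s - a) / A.T d k + 1 := ⟨_, rfl⟩
  have h3 : j1 * A.T d k = (s - a) / A.T d k * A.T d k + A.T d k := by rw [hj1]; ring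
  have h4 : s < a + j1 * A.T d k := by
    have h2 := Nat.lt_div_mul_add (a := s - a) (b := A.T d k) (by omega)
    omega
  have h5 : a + j1 * A.T d k ≤ s + A.T d k := by
    have h2 := Nat.div_mul_le_self (s - a) (A.T d k)
    omega
  have h6 : 2 ≤ j1 := by
    by_contra hcon
    have : j1 * A.T d k ≤ 1 * A.T d k := Nat.mul_le_mul_right _ (by omega)
    omega
  obtain ⟨x1, -, hx1, hx1'⟩ := R_split _ h16 (a + j1 * A.T d k) h4.le (by omega)
  have h7 : supn (x1 - x) ≤ Cv * A.T d k + r := by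
    refine supn_of_nrm ((hsp _ _ _ _ h4.le (by omega) hx1).trans ?_)
    push_cast
    have h8 : ((a + j1 * A.T d k : ℕ) : ℝ) ≤ ((s + A.T d k : ℕ) : ℝ) := by exact_mod_cast h5
    push_cast at h8
    have h9 : (0 : ℝ) ≤ Cv := Nat.cast_nonneg _
    nlinarith [mul_le_mul_of_nonneg_left (show (a : ℝ) + j1 * A.T d k - s ≤ A.T d k by linarith) h9]
  have h8 : (j' + 4) * A.T d k = j' * A.T d k + 4 * A.T d k := by ring
  have h8' : (j1 + 4) * A.T d k = j1 * A.T d k + 4 * A.T d k := by ring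
  have h9 : (d * (X + 1) + 2) * A.T d k = d * (X + 1) * A.T d k + 2 * A.T d k := by ring
  have h10 : j1 + d * (X + 1) < j' := by
    by_contra hcon
    have h11 : j' * A.T d k ≤ (j1 + d * (X + 1)) * A.T d k := Nat.mul_le_mul_right _ (by omega)
    have h12 : (j1 + d * (X + 1)) * A.T d k = j1 * A.T d k + d * (X + 1) * A.T d k := by ring
    omega
  obtain ⟨z, hz, P, hP, hPt, p, hp, hRp⟩ := entry hd hL hγ hτ hf h6 (by omega) (by omega) hx1'
  have h11 : supn (anc A k c - z) ≤ X + 1 := by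
    rw [anc_eq A hL1 (by omega)]
    have h12 : supn (sm A.L c - x1) ≤ X * A.S k :=
      (supn_tri hD0 (supn_symm h7)).trans hX
    exact supn_tri (ci_dist hSk h12) (supn_symm hz)
  have hgood : ∀ z i, j1 ≤ i → i ≤ j' → ¬ badA q.N1 A η w a k (z, i) := by
    intro z i hi1 hi2
    refine hf.good z (by omega) ?_
    have : (i + 4) * A.T d k ≤ (j' + 4) * A.T d k := Nat.mul_le_mul_right _ (by omega)
    omega
  have hO := hub_chain (fit_lvl A hd hL hγ) (hier_badW q.N1 A hL hγ η w a) k (z, j1)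
    (anc A k c, j') (by show j1 < j'; omega)
    (by
      show n1 (anc A k c - z) ≤ j' - j1
      have := n1_le h11
      omega) hgood P _ hP hc
  obtain ⟨y, hy, hRy⟩ := opath_route hτ hO p hp (R_occ _ hRp)
  refine ⟨y, hy, ?_⟩
  have hR := R_trans _ (R_trans _ hx1 hRp) hRy
  have h13 : j' * A.ix d k * A.τ = j' * A.T d k := by
    rw [Prm.T]; ring
  simp only [h13] at hR
  exact hR

/-! ### the numbers of `reach` -/

theorem num_reach {T L S r Cv D0 d : ℕ} (hS : 8 * r ≤ S) (hLS : L ≤ S) (hT : 1 ≤ T)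
    (hLT : 8 * (d + 1) * L ≤ T) (hT0 : 16 * (d + 1) * (Cv + 6) ≤ T)
    (hD0 : D0 ≤ L + 3 * r * T ^ 2 * L + T ^ 2) (hS1 : 1 ≤ S) :
    D0 + (Cv * T + r) ≤ (T ^ 2 * L + T ^ 2 + Cv * T + 2) * S ∧
      (d * (T ^ 2 * L + T ^ 2 + Cv * T + 2 + 1) + 2) * T ≤ T ^ 4 := by
  have h1 : 3 * r ≤ S := by omega
  have h2 : 3 * r * T ^ 2 * L ≤ S * T ^ 2 * L :=
    Nat.mul_le_mul_right _ (Nat.mul_le_mul_right _ h1)
  have h3 : T ^ 2 ≤ T ^ 2 * S := Nat.le_mul_of_pos_right _ hS1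
  have h4 : Cv * T ≤ Cv * T * S := Nat.le_mul_of_pos_right _ hS1
  constructor
  · have h5 : (T ^ 2 * L + T ^ 2 + Cv * T + 2) * S =
      S * T ^ 2 * L + T ^ 2 * S + Cv * T * S + 2 * S := by ring
    omega
  · have h5 : T ≤ T ^ 2 := Nat.le_self_pow (by norm_num) T
    have h6 : 1 ≤ T ^ 2 := hT.trans h5
    have h7 : Cv * T ≤ Cv * T ^ 2 := Nat.mul_le_mul_left _ h5
    have h8 : d * (T ^ 2 * L + T ^ 2 + Cv * T + 2 + 1) + 2 ≤
        (d + 1) * L * T ^ 2 + (d + 1) * (Cv + 6) * T ^ 2 := by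
      have h9 : d * (T ^ 2 * L + T ^ 2 + Cv * T + 2 + 1) ≤
          d * (T ^ 2 * L + T ^ 2 + Cv * T ^ 2 + 3 * T ^ 2) :=
        Nat.mul_le_mul_left _ (by omega)
      have h10 : (d + 1) * L * T ^ 2 + (d + 1) * (Cv + 6) * T ^ 2 =
          d * (T ^ 2 * L + T ^ 2 + Cv * T ^ 2 + 3 * T ^ 2) + (2 * (d * T ^ 2) + L * T ^ 2 +
            Cv * T ^ 2 + 6 * T ^ 2) := by ring
      omega
    have h11 : 8 * ((d + 1) * L * T ^ 2) ≤ T * T ^ 2 := by
      calc 8 * ((d + 1) * L * T ^ 2) = 8 * (d + 1) * L * T ^ 2 := by ring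
        _ ≤ T * T ^ 2 := Nat.mul_le_mul_right _ hLT
    have h12 : 16 * ((d + 1) * (Cv + 6) * T ^ 2) ≤ T * T ^ 2 := by
      calc 16 * ((d + 1) * (Cv + 6) * T ^ 2) = 16 * (d + 1) * (Cv + 6) * T ^ 2 := by ring
        _ ≤ T * T ^ 2 := Nat.mul_le_mul_right _ hT0
    calc (d * (T ^ 2 * L + T ^ 2 + Cv * T + 2 + 1) + 2) * T ≤ (T * T ^ 2) * T :=
          Nat.mul_le_mul_right _ (by omega)
      _ = T ^ 4 := by ring

end rt

end ZP.CO1

namespace ZP.Rows

open ZP ZP.CO1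

variable {d : ℕ}

theorem core_route (d : ℕ) (hd : 0 < d) (Cv : ℕ) : ∃ T0 : ℕ, ∀ (A : Prm),
    1000 * (d + 1) * 3 ^ d ≤ A.L → A.α + 12 ≤ A.γ → A.L ≤ A.τ → A.τ ≤ A.L ^ 2 →
    ∀ (m : Model) (δ : ℝ) (q : Par d m δ) (η : Tor d q.M → ℕ) (w : List (Let d q.M (q.K + 1)))
      (k r H Θ : ℕ), 1 ≤ k → T0 ≤ A.T d k → 8 * r ≤ A.S k → A.T d k ∣ Θ → 8 * A.T d k ≤ Θ →
      16 * A.T d k ^ 4 ≤ q.M → CoreE q.N1 A k r H Θ η w → Speed (envT q η w) Cv r H →
      Route (envT q η w) (A.T d k) (A.T d k ^ 4 + (4 * r + 2) * Θ) H := by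
  refine ⟨16 * (d + 1) * (Cv + 6), ?_⟩
  intro A hL hγ hτL _ m δ q η w k r H Θ hk hT0 hr _ hΘ _ hC hsp
  have hL1 : 1000 ≤ A.L := by
    have : 1 ≤ 3 ^ d := Nat.one_le_pow _ _ (by norm_num)
    nlinarith [Nat.zero_le d]
  have hτ : 1 ≤ A.τ := by omega
  have hT : 1 ≤ A.T d k := T_pos A (by omega) (by omega) hτ k
  have hSk : A.L ≤ A.S k := L_le_S A (by omega) (by omega) k
  have hST : A.S k ≤ A.T d k := S_le_T A (by omega) hτL k
  have hLT : 8 * (d + 1) * A.L ≤ A.T d k := L_le_T A (by omega) (by omega) hτL k hk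
  have hτT : A.τ ≤ A.T d k := by
    unfold Prm.T
    exact Nat.le_mul_of_pos_left _ (ix_pos A (by omega) (by omega) k)
  have hf : Fwd q A η w k H := hC.fwd
  obtain ⟨η', hη'⟩ : ∃ η', η' = stt η w w.length := ⟨_, rfl⟩
  obtain ⟨w', hw'⟩ : ∃ w', w' = rword η w := ⟨_, rfl⟩
  have hb : Fwd q A η' w' k H := by rw [hη', hw']; exact hC.bwd
  have hrev : ∀ s t x y, s ≤ t → t ≤ H → ((envT q η w).R (fun _ => Set.univ) s x t y ↔
      (envT q η' w').R (fun _ => Set.univ) (H - t) y (H - s) x) := by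
    intro s t x y hst ht
    rw [hη', hw']
    exact R_rev q hd η w H hC.len Set.univ s t hst ht x y
  have hsp1 : ∀ s t x y, s ≤ t → t ≤ H → (envT q η w).R (fun _ => Set.univ) s x t y →
      nrm (y - x) ≤ Cv * ((t : ℝ) - s) + r := hsp.1
  have hsp2 : ∀ s t x y, s ≤ t → t ≤ H → (envT q η' w').R (fun _ => Set.univ) s x t y →
      nrm (y - x) ≤ Cv * ((t : ℝ) - s) + r := by
    intro s t x y hst ht hR
    have h1 := (hrev (H - t) (H - s) y x (by omega) (by omega)).mpr (by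
      rw [Nat.sub_sub_self (by omega : s ≤ H), Nat.sub_sub_self ht]
      exact hR)
    have h2 := hsp1 _ _ _ _ (by omega) (by omega) h1
    rw [nrm_sub_comm, Nat.cast_sub (by omega : s ≤ H), Nat.cast_sub ht] at h2
    have h3 : ((H : ℝ) - s) - ((H : ℝ) - t) = (t : ℝ) - s := by ring
    rwa [h3] at h2
  have hFB : ∀ t y, t ≤ H → BG (envT q η w) (16 * A.T d k) t y →
      FG (envT q η' w') (16 * A.T d k) (H - t) y ∧ H - t + 16 * A.T d k ≤ H := by
    rintro t y htH ⟨s, x, hts, hR⟩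
    have h1 := (hrev s t x y (by omega) htH).mp hR
    have h2 : H - s = H - t + 16 * A.T d k := by omega
    rw [h2] at h1
    exact ⟨⟨x, h1⟩, by omega⟩
  have hmod : ∀ u, u % A.T d k + (3 + u / A.T d k) * A.T d k = u + 3 * A.T d k := by
    intro u
    have := Nat.mod_add_div u (A.T d k)
    have h2 : (3 + u / A.T d k) * A.T d k = 3 * A.T d k + A.T d k * (u / A.T d k) := by ring
    omega
  have hmodH : ∀ u, u + 7 * A.T d k ≤ H →
      u % A.T d k + (3 + u / A.T d k + 4) * A.T d k ≤ H := by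
    intro u hu
    have h1 := hmod u
    have h2 : (3 + u / A.T d k + 4) * A.T d k = (3 + u / A.T d k) * A.T d k + 4 * A.T d k := by ring
    omega
  have hT4 : A.T d k ^ 4 = A.T d k * A.T d k ^ 3 := by ring
  have hT3 : 1000 ≤ A.T d k ^ 3 :=
    (by omega : 1000 ≤ A.T d k).trans (Nat.le_self_pow (by norm_num) _)
  have hT4' : 1000 * A.T d k ≤ A.T d k ^ 4 := by
    rw [hT4, Nat.mul_comm]
    exact Nat.mul_le_mul_left _ hT3
  refine ⟨?_, ?_, ?_, ?_, ?_⟩
  · -- p1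
    intro s x hs h t hst htH
    exact alive hd hL hγ hτ hf hs h t hst htH
  · -- p1'
    intro t y ht hB s hst hs
    obtain ⟨hF, -⟩ := hFB t y (by omega) hB
    obtain ⟨x, hx⟩ := alive hd hL hγ hτ hb (by omega) hF (H - s) (by omega) (by omega)
    exact ⟨x, (hrev s t x y hst (by omega)).mpr hx⟩
  · -- p2
    intro s hs hsH x
    have hsT : s % A.T d k + s / A.T d k * A.T d k = s := by
      rw [Nat.mul_comm]; exact Nat.mod_add_div s _
    obtain ⟨a, ha⟩ : ∃ a, a = s % A.T d k := ⟨_, rfl⟩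
    obtain ⟨j, hj⟩ : ∃ j, j = s / A.T d k := ⟨_, rfl⟩
    rw [← ha, ← hj] at hsT
    have hj3 : 3 ≤ j := by
      rw [hj]
      exact (Nat.le_div_iff_mul_le (by omega)).mpr hs
    have hgood : ∀ z i, j ≤ i → i ≤ j + 32 → ¬ badA q.N1 A η w a k (z, i) := by
      intro z i hi1 hi2
      refine hf.good z (by omega) ?_
      have : (i + 4) * A.T d k ≤ (j + 36) * A.T d k := Nat.mul_le_mul_right _ (by omega)
      have h3 : (j + 36) * A.T d k = j * A.T d k + 36 * A.T d k := by ring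
      omega
    obtain ⟨P, hP, hPt⟩ := Hub_nonempty (fit_lvl A hd hL hγ) (hier_badW q.N1 A hL hγ η w a) k
      (ci (A.S k) x, j) (hgood _ j le_rfl (by omega))
    obtain ⟨P', hP', hP't⟩ := Hub_nonempty (fit_lvl A hd hL hγ) (hier_badW q.N1 A hL hγ η w a) k
      (ci (A.S k) x, j + 32) (hgood _ _ (by omega) le_rfl)
    have h0 := hub_good (fit_lvl A hd hL hγ) (badA q.N1 A η w a) k _ P
      (hgood (ci (A.S k) x) j le_rfl (by omega)) hP
    obtain ⟨h1, -, -⟩ := popn_facts q η w P.1 (a + P.2 * A.τ) A.L A.τ hτ (good_zero h0)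
    obtain ⟨y, hy, hy0⟩ := h1
    have hO := hub_chain (fit_lvl A hd hL hγ) (hier_badW q.N1 A hL hγ η w a) k
      (ci (A.S k) x, j) (ci (A.S k) x, j + 32) (by simp) (by simp [n1_zero]) hgood P P' hP hP'
    obtain ⟨z, -, hz⟩ := opath_route hτ hO y hy hy0
    have h4 : P.2 * A.τ = j * A.T d k := by
      rw [hPt, t_eq, Prm.T]
      ring
    have h5 : P'.2 * A.τ = j * A.T d k + 32 * A.T d k := by
      rw [hP't, t_eq, Prm.T]
      ring
    refine ⟨y, ?_, z, ?_⟩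
    · rw [supn_le_iff]
      intro i
      have h6 := ((hub_cell (fit_lvl A hd hL hγ) _ k _ P hP).1 i)
      rw [nxL_eq] at h6
      have h7 := hy i
      have h8 := mem_ci (S := A.S k) (by omega) x i
      have h9 : (A.S k : ℤ) = A.nx k * A.L := by exact_mod_cast S_nx A (by omega) k
      have h10 : (A.L : ℤ) * P.1 i + A.L ≤ A.S k * ci (A.S k) x i + A.S k := by
        have h11 : P.1 i + 1 ≤ (A.nx k : ℤ) * ci (A.S k) x i + A.nx k := by
          have := h6.2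
          simp only at this
          omega
        have h12 : (A.L : ℤ) * (P.1 i + 1) ≤ A.L * ((A.nx k : ℤ) * ci (A.S k) x i + A.nx k) :=
          mul_le_mul_of_nonneg_left h11 (Nat.cast_nonneg _)
        rw [h9]
        linarith
      have h13 : (A.S k : ℤ) * ci (A.S k) x i ≤ (A.L : ℤ) * P.1 i := by
        have h12 : (A.L : ℤ) * ((A.nx k : ℤ) * ci (A.S k) x i) ≤ A.L * P.1 i :=
          mul_le_mul_of_nonneg_left h6.1 (Nat.cast_nonneg _)
        rw [h9]
        linarith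
      have h14 : (A.S k : ℤ) ≤ A.T d k := by exact_mod_cast hST
      show (y i - x i).natAbs ≤ 2 * A.T d k
      omega
    · have h6 : a + P.2 * A.τ = s := by omega
      have h7 : a + P'.2 * A.τ = s + 32 * A.T d k := by omega
      rw [h6, h7] at hz
      exact hz
  · -- p3
    intro s t x y hs htH hF hB hxy hst1 hst2
    obtain ⟨s', hs'⟩ : ∃ s', s' = s + A.T d k ^ 4 + 5 * A.T d k := ⟨_, rfl⟩
    obtain ⟨i, hi, hm1, hm2, hm3⟩ := hC.meet s' (ci A.L x) (by omega) (by omega)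
    obtain ⟨c, hc⟩ : ∃ c, c = dg (ci A.L x) (i * A.T d k ^ 2) := ⟨_, rfl⟩
    rw [← hc] at hm1 hm2 hm3
    rw [← hη', ← hw'] at hm3
    have hc1 : supn (sm A.L c - x) ≤ A.L + 3 * r * A.T d k ^ 2 * A.L := by
      have h1 : supn (sm A.L c - sm A.L (ci A.L x)) ≤ 3 * r * A.T d k ^ 2 * A.L := by
        rw [supn_le_iff]
        intro l
        have h2 : (sm A.L c - sm A.L (ci A.L x)) l = ((i * A.T d k ^ 2 * A.L : ℕ) : ℤ) := by
          rw [hc]
          show (A.L : ℤ) * (ci A.L x l + ((i * A.T d k ^ 2 : ℕ) : ℤ)) - A.L * ci A.L x l = _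
          push_cast
          ring
        rw [h2, Int.natAbs_natCast]
        exact Nat.mul_le_mul_right _ (Nat.mul_le_mul_right _ (by omega))
      have h2 := supn_tri h1 (sm_ci (by omega : 1 ≤ A.L) x)
      omega
    have hc2 : supn (sm A.L c - y) ≤ A.L + 3 * r * A.T d k ^ 2 * A.L + A.T d k ^ 2 :=
      supn_tri hc1 (supn_of_nrm (by push_cast; exact hxy))
    obtain ⟨hX1, hX2⟩ := num_reach (Cv := Cv) hr hSk hT hLT hT0 (le_refl _) (by omega)
    have hX3 : (A.L + 3 * r * A.T d k ^ 2 * A.L) + (Cv * A.T d k + r) ≤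
      (A.T d k ^ 2 * A.L + A.T d k ^ 2 + Cv * A.T d k + 2) * A.S k := by omega
    have hm1' := memb_sft q.N1 A hd hL hγ hτ η w _ k c hm1
    have hu1 := hmod (s' - 3 * A.T d k)
    have hu1' : s' - 3 * A.T d k + 3 * A.T d k = s' := by omega
    rw [hu1'] at hu1
    obtain ⟨y1, hy1, hR1⟩ := reach hd hL hγ hτ hf hsp1 (by omega) (by omega) hF _ _
      (Nat.mod_lt _ (by omega)) c hm1' (hmodH _ (by omega)) _ _ hc1 hX3 (by rw [hu1]; omega)
    rw [hu1] at hR1
    obtain ⟨hF', hF'H⟩ := hFB t y (by omega) hB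
    have hm3' := memb_sft q.N1 A hd hL hγ hτ η' w' _ k c hm3
    have hu2 := hmod (H - (s' + A.τ) - 3 * A.T d k)
    have hu2' : H - (s' + A.τ) - 3 * A.T d k + 3 * A.T d k = H - (s' + A.τ) := by omega
    rw [hu2'] at hu2
    obtain ⟨b, hb1, hR2⟩ := reach hd hL hγ hτ hb hsp2 (by omega) (by omega) hF' _ _
      (Nat.mod_lt _ (by omega)) c hm3' (hmodH _ (by omega)) _ _ hc2 hX1 (by rw [hu2]; omega)
    rw [hu2] at hR2
    have hR3 := (hrev (s' + A.τ) t b y (by omega) (by omega)).mpr hR2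
    have hR4 := fopn_facts q η w c s' A.L A.τ hm2 y1 hy1 (R_occ _ hR1) b hb1 (R_start _ hR3).1
    exact R_trans _ (R_trans _ hR1 hR4) hR3
  · -- p4
    intro s x b hs hsH hF hxb
    obtain ⟨i, hi, hm⟩ := hC.visit s (ci A.L b) hs (by
      have : (4 * r + 1) * Θ ≤ (4 * r + 2) * Θ := Nat.mul_le_mul_right _ (by omega)
      omega)
    have hiΘ : i * Θ + Θ ≤ (4 * r) * Θ := by
      have : (i + 1) * Θ ≤ 4 * r * Θ := Nat.mul_le_mul_right _ (by omega)
      have h2 : (i + 1) * Θ = i * Θ + Θ := by ring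
      omega
    have hΘ2 : (4 * r + 2) * Θ = 4 * r * Θ + 2 * Θ := by ring
    obtain ⟨s', hs'⟩ : ∃ s', s' = s + A.T d k ^ 4 + i * Θ := ⟨_, rfl⟩
    rw [← hs'] at hm
    have hc1 : supn (sm A.L (ci A.L b) - x) ≤ A.L + A.T d k ^ 2 := by
      refine supn_tri (sm_ci (by omega : 1 ≤ A.L) b) (supn_symm (supn_of_nrm ?_))
      push_cast
      exact hxb
    obtain ⟨hX1, hX2⟩ := num_reach (Cv := Cv) (D0 := A.L + A.T d k ^ 2) hr hSk hT hLT hT0
      (by omega) (by omega)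
    have hm' := memb_sft q.N1 A hd hL hγ hτ η w _ k _ hm
    have hu1 := hmod (s' - 3 * A.T d k)
    have hu1' : s' - 3 * A.T d k + 3 * A.T d k = s' := by omega
    rw [hu1'] at hu1
    have hmH := hmodH (s' - 3 * A.T d k) (by omega)
    obtain ⟨y1, hy1, hR1⟩ := reach hd hL hγ hτ hf hsp1 (by omega) (by omega) hF _ _
      (Nat.mod_lt _ (by omega)) _ hm' hmH _ _ hc1 hX1 (by rw [hu1]; omega)
    have h0 := hub_good (fit_lvl A hd hL hγ) (badA q.N1 A η w ((s' - 3 * A.T d k) % A.T d k)) k _ _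
      (hf.good _ (le_trans (by norm_num) (Nat.le_add_right 3 _)) hmH) hm'
    obtain ⟨-, -, h1⟩ := popn_facts q η w (ci A.L b) _ A.L A.τ hτ (good_zero h0)
    have h2 : (3 + (s' - 3 * A.T d k) / A.T d k) * A.ix d k * A.τ =
        (3 + (s' - 3 * A.T d k) / A.T d k) * A.T d k := by
      rw [Prm.T]; ring
    simp only [h2] at h1
    rw [hu1] at h1 hR1
    have h3 := h1 y1 hy1 (R_occ _ hR1) b (mem_ci (by omega) b)
    exact vis_mono_time _ (by omega) (R_vis _ hR1 h3)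

end ZP.Rows
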