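import Pool.Agent.ZP.Core
import Pool.Agent.ZP.Hub
import Pool.Agent.ZP.SF1
import Pool.Agent.ZP.E4
import Pool.Agent.ZP.D0
import Pool.Agent.ZP.PJ

/-! # The basic events and the routes of the environment (deterministic; for row CO1) -/

set_option autoImplicit false

open scoped ENNReal BigOperators Classical Pointwise

noncomputable section

namespace ZP.CO1

open ZP

variable {d : ℕ} {m : Model} {δ : ℝ} (q : Par d m δ)

/-- the infection along the letters is the infection of the environment -/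
theorem fold_inf (η : Tor d q.M → ℕ) (w : List (Let d q.M (q.K + 1))) (G : Set (Pos d)) (x : Pos d)
    (hx : x ∈ G) (h0 : 0 < η (tv x)) (t : ℕ) :
    (w.take (t * q.N1)).foldl (stepI G) (η, {x}) =
      (cfg nbT η (units q.N1 w) t, inf nbT tv η (units q.N1 w) (fun _ => G) 0 {x} t) := by
  induction t with
  | zero =>
    rw [Nat.zero_mul, List.take_zero]
    refine Prod.ext rfl ?_
    show ({x} : Set (Pos d)) = {z | z ∈ ({x} : Set (Pos d)) ∧ z ∈ G ∧ 0 < η (tv z)}
    ext z
    constructor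
    · rintro rfl
      exact ⟨rfl, hx, h0⟩
    · exact fun h => h.1
  | succ t ih =>
    have hsub : inf nbT tv η (units q.N1 w) (fun _ => G) 0 {x} t ⊆ G := by
      have h1 := E1.foldl_stepI_sub G (w.take (t * q.N1)) (η, {x}) (by rintro _ rfl; exact hx)
      rw [ih] at h1
      exact h1
    rw [Nat.succ_mul, List.take_add, List.foldl_append, ih]
    have h2 : (List.take q.N1 (List.drop (t * q.N1) w)).foldl (stepI G)
        (cfg nbT η (units q.N1 w) t, inf nbT tv η (units q.N1 w) (fun _ => G) 0 {x} t) =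
        (units q.N1 w t).foldl (stepR nbT tv G)
        (cfg nbT η (units q.N1 w) t, inf nbT tv η (units q.N1 w) (fun _ => G) 0 {x} t) :=
      (E1.foldl_filterMap G _ _).symm
    rw [h2]
    refine Prod.ext (foldl_stepR_fst _ _ _ _) ?_
    show _ = ((units q.N1 w (0 + t)).foldl (stepR nbT tv G) (cfg nbT η (units q.N1 w) (0 + t),
      inf nbT tv η (units q.N1 w) (fun _ => G) 0 {x} t ∩ G)).2
    rw [Nat.zero_add, Set.inter_eq_left.mpr hsub]

theorem R_fold (η : Tor d q.M → ℕ) (w : List (Let d q.M (q.K + 1))) (G : Set (Pos d)) (x : Pos d)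
    (hx : x ∈ G) (h0 : 0 < η (tv x)) (t : ℕ) (y : Pos d) :
    y ∈ ((w.take (t * q.N1)).foldl (stepI G) (η, {x})).2 ↔
      (envT q η w).R (fun _ => G) 0 x t y := by
  rw [fold_inf q η w G x hx h0 t]
  constructor
  · intro h
    exact ⟨t, by omega, h⟩
  · rintro ⟨j, hj, h⟩
    obtain rfl : t = j := by omega
    exact h

theorem vis_fold (η : Tor d q.M → ℕ) (w : List (Let d q.M (q.K + 1))) (G : Set (Pos d)) (x : Pos d)
    (hx : x ∈ G) (h0 : 0 < η (tv x)) (t i : ℕ) (ht : 1 ≤ t) (hi : i ≤ t * q.N1) (b : Pos d)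
    (hb : b ∈ ((w.take i).foldl (stepI G) (η, {x})).2) :
    (envT q η w).vis (fun _ => G) 0 x t b := by
  obtain ⟨j, i', hj, hi', hij⟩ : ∃ j i', j < t ∧ i' ≤ q.N1 ∧ i = j * q.N1 + i' := by
    have hN := q.N1_pos
    rcases Nat.lt_or_ge i (t * q.N1) with h | h
    · refine ⟨i / q.N1, i % q.N1, (Nat.div_lt_iff_lt_mul hN).mpr h, (Nat.mod_lt _ hN).le, ?_⟩
      rw [Nat.mul_comm]
      exact (Nat.div_add_mod i q.N1).symm
    · refine ⟨t - 1, q.N1, by omega, le_rfl, ?_⟩
      have h1 : i = t * q.N1 := le_antisymm hi h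
      rw [h1]
      obtain ⟨t', rfl⟩ : ∃ t', t = t' + 1 := ⟨t - 1, by omega⟩
      rw [Nat.add_sub_cancel, Nat.succ_mul]
  have hsub : inf nbT tv η (units q.N1 w) (fun _ => G) 0 {x} j ⊆ G := by
    have h1 := E1.foldl_stepI_sub G (w.take (j * q.N1)) (η, {x}) (by rintro _ rfl; exact hx)
    rw [fold_inf q η w G x hx h0 j] at h1
    exact h1
  rw [hij, List.take_add, List.foldl_append, fold_inf q η w G x hx h0 j] at hb
  refine ⟨j, by omega, ?_⟩
  show ∃ i ≤ (units q.N1 w (0 + j)).length, b ∈ (((units q.N1 w (0 + j)).take i).foldl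
    (stepR nbT tv G) (cfg nbT η (units q.N1 w) (0 + j),
      inf nbT tv η (units q.N1 w) (fun _ => G) 0 {x} j ∩ G)).2
  rw [Nat.zero_add, Set.inter_eq_left.mpr hsub]
  refine (E1.vis_letters G ((w.drop (j * q.N1)).take q.N1) _ b).mpr ?_
  refine ⟨min i' ((w.drop (j * q.N1)).take q.N1).length, min_le_right _ _, ?_⟩
  have h3 : ((w.drop (j * q.N1)).take q.N1).take (min i' ((w.drop (j * q.N1)).take q.N1).length) =
      (w.drop (j * q.N1)).take i' := by
    rw [List.take_take, List.length_take]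
    have h4 : min (min i' (min q.N1 (w.drop (j * q.N1)).length)) q.N1 =
        min i' (w.drop (j * q.N1)).length := by omega
    rw [h4]
    rcases Nat.le_total i' (w.drop (j * q.N1)).length with h5 | h5
    · rw [Nat.min_eq_left h5]
    · rw [Nat.min_eq_right h5, List.take_length, List.take_of_length_le h5]
  rw [h3]
  exact hb

/-! ### shifts -/

section shift

variable (η : Tor d q.M → ℕ) (w : List (Let d q.M (q.K + 1))) (z : Pos d) (u : ℕ)

/-- the shifted environment -/
def envS : Env d := envT q (fun v => stt η w (u * q.N1) (v + tv z))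
  ((w.drop (u * q.N1)).map (shL (-(tv z))))

theorem R_envS (s : ℕ) (x : Pos d) (t : ℕ) (y : Pos d) :
    (envS q η w z u).R (fun _ => Set.univ) s x t y ↔
      (envT q η w).R (fun _ => Set.univ) (u + s) (x + z) (u + t) (y + z) :=
  E4.R_shift q η w z u (fun _ => Set.univ) s x t y

theorem occ_envS (t : ℕ) (x : Pos d) :
    (envS q η w z u).occ t x ↔ (envT q η w).occ (u + t) (x + z) :=
  E4.occ_shift q η w z u t x

theorem visU_envS (s : ℕ) (x : Pos d) (j : ℕ) (b : Pos d)
    (h : b ∈ visU (envS q η w z u).nb (envS q η w z u).pr (envS q η w z u).η0 (envS q η w z u).U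
      (fun _ => Set.univ) s {x} j) :
    b + z ∈ visU (envT q η w).nb (envT q η w).pr (envT q η w).η0 (envT q η w).U
      (fun _ => Set.univ) (u + s) {x + z} j := by
  obtain ⟨i, hi, hb⟩ := h
  have hx : ({x} : Set (Pos d)) = {y | y + z ∈ ({x + z} : Set (Pos d))} := by
    ext w
    simp
  have h1 : inf nbT tv (E4.η' q η w z u) (units q.N1 (E4.l' q w z u)) (fun _ => Set.univ) s {x} j =
      {y | y + z ∈ inf nbT tv η (units q.N1 w) (fun _ => Set.univ) (u + s) {x + z} j} := by
    have h2 := E4.inf_shift q η w z u (fun _ => Set.univ) s {x + z} j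
    rw [← hx] at h2
    exact h2
  have h3 : units q.N1 (E4.l' q w z u) (s + j) =
      (units q.N1 w (u + (s + j))).map (E4.shB (-(tv z))) := E4.units_shift _ _ _ _ _
  change i ≤ (units q.N1 (E4.l' q w z u) (s + j)).length at hi
  change b ∈ (((units q.N1 (E4.l' q w z u) (s + j)).take i).foldl (stepR nbT tv Set.univ)
    (cfg nbT (E4.η' q η w z u) (units q.N1 (E4.l' q w z u)) (s + j),
      inf nbT tv (E4.η' q η w z u) (units q.N1 (E4.l' q w z u)) (fun _ => Set.univ) s {x} j ∩
        Set.univ)).2 at hb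
  rw [h1, E4.cfg_shift, h3, ← List.map_take] at hb
  rw [h3, List.length_map] at hi
  have h4 := E4.foldl_shift z Set.univ ((units q.N1 w (u + (s + j))).take i)
    (cfg nbT η (units q.N1 w) (u + (s + j)))
    (inf nbT tv η (units q.N1 w) (fun _ => Set.univ) (u + s) {x + z} j ∩ Set.univ)
  have h5 := congrArg Prod.snd h4
  refine ⟨i, ?_, ?_⟩
  · show i ≤ (units q.N1 w (u + s + j)).length
    rw [Nat.add_assoc]
    exact hi
  · show b + z ∈ (((units q.N1 w (u + s + j)).take i).foldl (stepR nbT tv Set.univ)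
      (cfg nbT η (units q.N1 w) (u + s + j),
        inf nbT tv η (units q.N1 w) (fun _ => Set.univ) (u + s) {x + z} j ∩ Set.univ)).2
    rw [Nat.add_assoc]
    have h6 : b ∈ {y : Pos d | y + z ∈ (((units q.N1 w (u + (s + j))).take i).foldl
        (stepR nbT tv Set.univ) (cfg nbT η (units q.N1 w) (u + (s + j)),
        inf nbT tv η (units q.N1 w) (fun _ => Set.univ) (u + s) {x + z} j ∩ Set.univ)).2} :=
      (Set.ext_iff.mp h5 b).mp hb
    exact h6

theorem vis_envS (s : ℕ) (x : Pos d) (t : ℕ) (b : Pos d)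
    (h : (envS q η w z u).vis (fun _ => Set.univ) s x t b) :
    (envT q η w).vis (fun _ => Set.univ) (u + s) (x + z) (u + t) (b + z) := by
  obtain ⟨j, hj, hb⟩ := h
  exact ⟨j, by omega, visU_envS q η w z u s x j b hb⟩

theorem mem_cell_sm (L : ℕ) (x : Pos d) : x ∈ cell L z ↔ x - sm L z ∈ cell (d := d) L 0 := by
  unfold cell sm
  constructor
  · intro h j
    have := h j
    simp only [Pi.sub_apply, Pi.zero_apply, mul_zero, zero_add]
    constructor <;> linarith [this.1, this.2]
  · intro h j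
    have := h j
    simp only [Pi.sub_apply, Pi.zero_apply, mul_zero, zero_add] at this
    constructor <;> linarith [this.1, this.2]

theorem cell_add (L : ℕ) (z' x : Pos d) (h : x ∈ cell L z') : x + sm L z ∈ cell L (z' + z) := by
  intro j
  have := h j
  unfold sm
  simp only [Pi.add_apply]
  constructor <;> nlinarith [this.1, this.2]

end shift

/-! ### the level `0` events -/

section lvl0

variable (η : Tor d q.M → ℕ) (w : List (Let d q.M (q.K + 1))) (z : Pos d) (u L τ : ℕ)

theorem R_univ {E : Env d} {G : ℕ → Set (Pos d)} {s t : ℕ} {x y : Pos d} (h : E.R G s x t y) :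
    E.R (fun _ => Set.univ) s x t y := Rows.R_mono E (fun _ => Set.subset_univ _) h

theorem vis_univ {E : Env d} {G : ℕ → Set (Pos d)} {s t : ℕ} {x y : Pos d} (h : E.vis G s x t y) :
    E.vis (fun _ => Set.univ) s x t y := Rows.vis_mono E (fun _ => Set.subset_univ _) h

theorem cell_supn {x : Pos d} (h : x ∈ cell (d := d) L 0) : supn x ≤ L := by
  rw [supn_le_iff]
  intro j
  have := h j
  simp only [Pi.zero_apply, mul_zero, zero_add] at this
  omega

theorem popn_facts (hτ : 1 ≤ τ) (h : sft q.N1 (sm L z) u (POpn q.N1 L τ) η w) :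
    (∃ x ∈ cell L z, (envT q η w).occ u x) ∧
    (∀ x ∈ cell L z, (envT q η w).occ u x → ∀ z' : Pos d, n1 (z' - z) ≤ 1 →
      ∃ y ∈ cell L z', (envT q η w).R (fun _ => Set.univ) u x (u + τ) y) ∧
    (∀ x ∈ cell L z, (envT q η w).occ u x → ∀ b ∈ cell L z,
      (envT q η w).vis (fun _ => Set.univ) u x (u + τ) b) := by
  obtain ⟨h1, h2, h3⟩ := h
  have hocc : ∀ x, 0 < (fun v => stt η w (u * q.N1) (v + tv (sm L z))) (tv x) ↔
      (envT q η w).occ u (x + sm L z) := fun x => by
    have := occ_envS q η w (sm L z) u 0 x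
    exact this
  have hLL : L ≤ L ^ 2 := Nat.le_self_pow (by norm_num) L
  refine ⟨?_, ?_, ?_⟩
  · obtain ⟨x, hx, hx0⟩ := h1
    refine ⟨x + sm L z, ?_, (hocc x).mp hx0⟩
    rw [mem_cell_sm, add_sub_cancel_right]
    exact hx
  · intro x hx hx0 z' hz'
    rw [mem_cell_sm] at hx
    have hx1 : 0 < (fun v => stt η w (u * q.N1) (v + tv (sm L z))) (tv (x - sm L z)) := by
      rw [hocc, sub_add_cancel]
      exact hx0
    obtain ⟨y, hy, hy1⟩ := h2 (x - sm L z) hx hx1 (z' - z) hz'
    refine ⟨y + sm L z, ?_, ?_⟩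
    · have := cell_add z L (z' - z) y hy
      rwa [sub_add_cancel] at this
    · have h4 := (R_fold q _ _ _ (x - sm L z) ((cell_supn L hx).trans hLL) hx1 τ y).mp hy1
      have h5 := (R_envS q η w (sm L z) u 0 (x - sm L z) τ y).mp (R_univ h4)
      rwa [sub_add_cancel] at h5
  · intro x hx hx0 b hb
    rw [mem_cell_sm] at hx hb
    have hx1 : 0 < (fun v => stt η w (u * q.N1) (v + tv (sm L z))) (tv (x - sm L z)) := by
      rw [hocc, sub_add_cancel]
      exact hx0
    obtain ⟨i, hi, hbi⟩ := h3 (x - sm L z) hx hx1 (b - sm L z) hb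
    have h4 := vis_fold q _ _ _ (x - sm L z) ((cell_supn L hx).trans hLL) hx1 τ i hτ hi _ hbi
    have h5 := vis_envS q η w (sm L z) u 0 (x - sm L z) τ (b - sm L z) (vis_univ h4)
    rwa [sub_add_cancel, sub_add_cancel] at h5

theorem fopn_facts (h : sft q.N1 (sm L z) u (FOpn q.N1 L τ) η w) :
    ∀ x ∈ cell L z, (envT q η w).occ u x → ∀ b ∈ cell L z, (envT q η w).occ (u + τ) b →
      (envT q η w).R (fun _ => Set.univ) u x (u + τ) b := by
  have hLL : L ≤ L ^ 2 := Nat.le_self_pow (by norm_num) L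
  intro x hx hx0 b hb hb0
  rw [mem_cell_sm] at hx hb
  have hx1 : 0 < (fun v => stt η w (u * q.N1) (v + tv (sm L z))) (tv (x - sm L z)) := by
    have := (occ_envS q η w (sm L z) u 0 (x - sm L z)).mpr (by rwa [sub_add_cancel])
    exact this
  have hb1 : 0 < stt (fun v => stt η w (u * q.N1) (v + tv (sm L z)))
      ((w.drop (u * q.N1)).map (shL (-(tv (sm L z))))) (τ * q.N1) (tv (b - sm L z)) := by
    have h1 := (occ_envS q η w (sm L z) u τ (b - sm L z)).mpr (by rwa [sub_add_cancel])
    have h2 := E1.cfg_eq q.N1 (fun v => stt η w (u * q.N1) (v + tv (sm L z)))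
      ((w.drop (u * q.N1)).map (shL (-(tv (sm L z))))) τ
    have h3 : 0 < (cfg nbT (fun v => stt η w (u * q.N1) (v + tv (sm L z)))
      (units q.N1 ((w.drop (u * q.N1)).map (shL (-(tv (sm L z)))))) τ) (tv (b - sm L z)) := h1
    rw [h2] at h3
    exact h3
  have h2 := h (x - sm L z) hx hx1 (b - sm L z) hb hb1
  have h4 := (R_fold q _ _ _ (x - sm L z) ((cell_supn L hx).trans hLL) hx1 τ _).mp h2
  have h5 := (R_envS q η w (sm L z) u 0 (x - sm L z) τ _).mp (R_univ h4)
  rwa [sub_add_cancel, sub_add_cancel] at h5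

end lvl0

/-! ### slow blocks -/

section slow

theorem stepI_step {M K : ℕ} (G : Set (Pos d)) (s s' : (Tor d M → ℕ) × Set (Pos d))
    (h1 : s.1 = s'.1) (h2 : s.2 ⊆ s'.2) (hG : ∀ y ∈ s'.2, y ∈ G ∧ ∀ e : Dir d, y + dv e ∈ G)
    (a : Let d M (K + 1)) :
    (stepI Set.univ s a).1 = (stepI0 G s' a).1 ∧ (stepI Set.univ s a).2 ⊆ (stepI0 G s' a).2 := by
  obtain ⟨η, A⟩ := s
  obtain ⟨η', B⟩ := s'
  obtain rfl : η = η' := h1
  change A ⊆ B at h2
  unfold stepI stepI0
  rw [← Rows.toLab_prj]
  cases hb : toLab a with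
  | none => exact ⟨rfl, h2⟩
  | some l =>
    obtain ⟨x, j, e⟩ := l
    cases j with
    | zero =>
      refine ⟨rfl, ?_⟩
      rintro z ⟨hz, -⟩
      exact h2 hz.1
    | succ k =>
      refine ⟨rfl, ?_⟩
      rintro z ⟨hz, -⟩
      have hz' : z ∈ ZI.infMv nbT tv η B (x, k, e) := ZI.infMv_mono η (x, k, e) h2 hz
      refine ⟨hz', ?_⟩
      unfold ZI.infMv at hz'
      split_ifs at hz' with hk
      · rcases hz' with h | h
        · exact (hG z h.1).1
        · have := (hG _ h.1).2 e
          change z - dv e + dv e ∈ G at this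
          rwa [sub_add_cancel] at this
      · exact (hG z hz').1

theorem supn_dv_le (e : Dir d) : supn (dv e) ≤ 1 := by
  rw [supn_le_iff]
  intro j
  unfold dv
  by_cases h : j = e.1
  · subst h
    rcases e with ⟨i, b⟩
    cases b <;> simp
  · simp [Pi.single_eq_of_ne h]

theorem slow_fold {M K : ℕ} (S : ℕ) (hS : 2 ≤ S) (η : Tor d M → ℕ) (x : Pos d)
    (w : List (Let d M (K + 1))) (N : ℕ)
    (h : ∀ i ≤ N, ∀ y ∈ ((w.take i).foldl (stepI0 {z | supn (z - x) ≤ S}) (η, {x})).2,
      2 * supn (y - x) ≤ S) : ∀ i ≤ N,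
    ((w.take i).foldl (stepI Set.univ) (η, {x})).1 =
        ((w.take i).foldl (stepI0 {z | supn (z - x) ≤ S}) (η, {x})).1 ∧
      ((w.take i).foldl (stepI Set.univ) (η, {x})).2 ⊆
        ((w.take i).foldl (stepI0 {z | supn (z - x) ≤ S}) (η, {x})).2 := by
  intro i
  induction i with
  | zero => intro _; exact ⟨rfl, subset_rfl⟩
  | succ i ih =>
    intro hi
    obtain ⟨h1, h2⟩ := ih (by omega)
    rcases Nat.lt_or_ge i w.length with h3 | h3
    · rw [← List.take_concat_get' w i h3, List.foldl_append, List.foldl_append]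
      refine stepI_step _ _ _ h1 h2 ?_ _
      intro y hy
      have h4 := h i (by omega) y hy
      refine ⟨?_, fun e => ?_⟩
      · show supn (y - x) ≤ S
        omega
      · show supn (y + dv e - x) ≤ S
        have h5 : y + dv e - x = (y - x) + dv e := by abel
        rw [h5, supn_le_iff]
        intro j
        have h6 := (supn_le_iff (y - x) (S / 2)).mp (by omega) j
        have h7 := (supn_le_iff (dv e) 1).mp (supn_dv_le e) j
        have h8 : ((y - x) + dv e) j = (y - x) j + dv e j := rfl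
        rw [h8]
        omega
    · have h4 : w.take (i + 1) = w.take i := by
        rw [List.take_of_length_le h3, List.take_of_length_le (by omega)]
      rw [h4]
      exact ⟨h1, h2⟩

theorem slow_facts (η : Tor d q.M → ℕ) (w : List (Let d q.M (q.K + 1))) (z : Pos d) (u S U : ℕ)
    (hS : 2 ≤ S) (h : ¬ sft q.N1 (sm S z) u (Fast q.N1 S U) η w) (x : Pos d) (hx : x ∈ cell S z)
    (t : ℕ) (ht : t ≤ U) (y : Pos d) (hR : (envT q η w).R (fun _ => Set.univ) u x (u + t) y) :
    2 * supn (y - x) ≤ S := by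
  rw [mem_cell_sm] at hx
  have hocc : (envT q η w).occ u x := (Rows.R_start _ hR).1
  have hx1 : 0 < (fun v => stt η w (u * q.N1) (v + tv (sm S z))) (tv (x - sm S z)) := by
    have := (occ_envS q η w (sm S z) u 0 (x - sm S z)).mpr (by rwa [sub_add_cancel])
    exact this
  have h1 : (envS q η w (sm S z) u).R (fun _ => Set.univ) 0 (x - sm S z) t (y - sm S z) := by
    rw [R_envS, sub_add_cancel, sub_add_cancel]
    exact hR
  have h2 := (R_fold q _ _ Set.univ (x - sm S z) (Set.mem_univ _) hx1 t (y - sm S z)).mpr h1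
  have h3 : ∀ i ≤ U * q.N1, ∀ y' ∈ ((((w.drop (u * q.N1)).map (shL (-(tv (sm S z))))).take i).foldl
      (stepI0 {z' | supn (z' - (x - sm S z)) ≤ S})
      ((fun v => stt η w (u * q.N1) (v + tv (sm S z))), {x - sm S z})).2,
      2 * supn (y' - (x - sm S z)) ≤ S := by
    intro i hi y' hy'
    by_contra hcon
    refine h ⟨x - sm S z, ?_, hx1, i, hi, y', by omega, hy'⟩
    have := cell_supn S hx
    omega
  have h4 := slow_fold S hS _ (x - sm S z) _ (U * q.N1) h3 (t * q.N1)
    (Nat.mul_le_mul_right _ ht)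
  have h5 := h3 (t * q.N1) (Nat.mul_le_mul_right _ ht) _ (h4.2 h2)
  have h6 : y - sm S z - (x - sm S z) = y - x := by abel
  rwa [h6] at h5

end slow

end ZP.CO1
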