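import Pool.Agent.ZP.CO1a
import Pool.Agent.ZP.BKb1
import Pool.Agent.ZP.HB
import Pool.Agent.ZP.SF3

/-! # Routes through the hubs (deterministic; for row CO1) -/

set_option autoImplicit false

open scoped ENNReal BigOperators Classical Pointwise

noncomputable section

namespace ZP.CO1

open ZP ZP.Rows

variable {d : ℕ}

/-! ### numbers -/

section num

variable (A : Prm)

theorem S_zero : A.S 0 = A.L := by simp [Prm.S]

theorem T_zero : A.T d 0 = A.τ := by simp [Prm.T, Prm.ix]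

theorem S_succ (hγ : 1 ≤ A.γ) (k : ℕ) : A.S (k + 1) = A.n k * A.S k := by
  unfold Prm.n
  obtain ⟨g, hg⟩ : ∃ g, A.γ = g + 1 := ⟨A.γ - 1, by omega⟩
  have h1 : A.S (k + 1) = A.S k ^ A.γ := by
    unfold Prm.S
    rw [pow_succ, pow_mul]
  rw [h1, hg, Nat.add_sub_cancel, pow_succ]

theorem T_succ (k : ℕ) : A.T d (k + 1) = (8 * d + 8) * A.n k * A.T d k := by
  unfold Prm.T
  rw [Prm.ix, Prm.nt]
  ring

theorem t_eq (k : ℕ) : (A.lvl d).t k = A.ix d k := by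
  induction k with
  | zero => rfl
  | succ k ih =>
    rw [Lvl.t, ih, Prm.ix, Prm.nt]
    rfl

theorem nxL_eq (k : ℕ) : nxL (A.lvl d) k = A.nx k := by
  induction k with
  | zero => rfl
  | succ k ih =>
    rw [nxL, ih, Prm.nx]
    rfl

theorem S_nx (hγ : 1 ≤ A.γ) (k : ℕ) : A.S k = A.nx k * A.L := by
  induction k with
  | zero => rw [S_zero, Prm.nx, one_mul]
  | succ k ih => rw [S_succ A hγ, ih, Prm.nx, mul_assoc]

theorem L_le_S (hL : 1 ≤ A.L) (hγ : 1 ≤ A.γ) (k : ℕ) : A.L ≤ A.S k := by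
  unfold Prm.S
  exact Nat.le_self_pow (by positivity) _

theorem n_ge (hL : 1 ≤ A.L) (hγ : 2 ≤ A.γ) (k : ℕ) : A.L ≤ A.n k := by
  unfold Prm.n
  refine (L_le_S A hL (by omega) k).trans (Nat.le_self_pow (by omega) _)

theorem ix_pos (hL : 1 ≤ A.L) (hγ : 2 ≤ A.γ) (k : ℕ) : 1 ≤ A.ix d k := by
  induction k with
  | zero => exact le_rfl
  | succ k ih =>
    rw [Prm.ix, Prm.nt]
    have h1 := n_ge A hL hγ k
    have h2 : 1 ≤ (8 * d + 8) * A.n k := Nat.one_le_iff_ne_zero.mpr (by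
      have : 0 < A.n k := by omega
      positivity)
    calc 1 = 1 * 1 := rfl
      _ ≤ _ := Nat.mul_le_mul h2 ih

theorem T_pos (hL : 1 ≤ A.L) (hγ : 2 ≤ A.γ) (hτ : 1 ≤ A.τ) (k : ℕ) : 1 ≤ A.T d k := by
  unfold Prm.T
  calc 1 = 1 * 1 := rfl
    _ ≤ _ := Nat.mul_le_mul (ix_pos A hL hγ k) hτ

theorem nx_le_ix (k : ℕ) : A.nx k ≤ A.ix d k := by
  induction k with
  | zero => exact le_rfl
  | succ k ih =>
    rw [Prm.nx, Prm.ix, Prm.nt]
    refine Nat.mul_le_mul ?_ ih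
    nlinarith [Nat.zero_le (A.n k), Nat.zero_le d]

theorem S_le_T (hγ : 1 ≤ A.γ) (hτ : A.L ≤ A.τ) (k : ℕ) : A.S k ≤ A.T d k := by
  rw [S_nx A hγ, Prm.T]
  exact Nat.mul_le_mul (nx_le_ix A k) hτ

theorem L_le_T (hL : 1 ≤ A.L) (hγ : 2 ≤ A.γ) (hτ : A.L ≤ A.τ) (k : ℕ) (hk : 1 ≤ k) :
    8 * (d + 1) * A.L ≤ A.T d k := by
  obtain ⟨k, rfl⟩ : ∃ k', k = k' + 1 := ⟨k - 1, by omega⟩
  rw [T_succ]
  have h1 := n_ge A hL hγ k
  have h2 := T_pos (d := d) A hL hγ (by omega) k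
  calc 8 * (d + 1) * A.L = (8 * d + 8) * A.L * 1 := by ring
    _ ≤ (8 * d + 8) * A.n k * A.T d k :=
      Nat.mul_le_mul (Nat.mul_le_mul_left _ h1) h2

theorem nn_le (hL : 1 ≤ A.L) (hγ : A.α + 12 ≤ A.γ) (k : ℕ) : A.S k ^ (A.α + 4) ≤ A.n k := by
  unfold Prm.n
  exact Nat.pow_le_pow_right (by have := L_le_S A hL (by omega) k; omega) (by omega)

theorem U_le_T (hL : 1 ≤ A.L) (hγ : A.α + 12 ≤ A.γ) (k : ℕ) : A.U d k ≤ A.T d k := by
  cases k with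
  | zero => exact Nat.zero_le _
  | succ k =>
    rw [Prm.U, T_succ]
    refine Nat.mul_le_mul_right _ ((nn_le A hL hγ k).trans ?_)
    nlinarith [Nat.zero_le (A.n k), Nat.zero_le d]

theorem cnt_le (hL : 1000 * (d + 1) * 3 ^ d ≤ A.L) (hγ : 1 ≤ A.γ) (k : ℕ) :
    3 ^ d * (2 * A.S k) * (2 * A.D k + 2 * A.a k + 3) + 2 ≤ A.S k ^ (A.α + 4) := by
  have h3 : 1 ≤ 3 ^ d := Nat.one_le_pow _ _ (by norm_num)
  have hL1 : 1000 * 3 ^ d ≤ A.L := by
    refine le_trans ?_ hL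
    nlinarith [h3, Nat.zero_le d]
  have hs : 1000 * 3 ^ d ≤ A.S k := hL1.trans (L_le_S A (by omega) hγ k)
  have hs1 : 1 ≤ A.S k := by omega
  unfold Prm.D Prm.a
  have h4 : 1 ≤ A.S k ^ A.α := Nat.one_le_pow _ _ hs1
  have h5 : A.S k ^ (A.α + 1) = A.S k ^ A.α * A.S k := pow_succ _ _
  have h6 : A.S k ^ (A.α + 4) = A.S k ^ A.α * A.S k * A.S k * A.S k * A.S k := by
    rw [pow_add]; ring
  have h7 : A.S k ^ A.α ≤ A.S k ^ (A.α + 1) := Nat.pow_le_pow_right hs1 (by omega)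
  have h8 : 1 ≤ A.S k ^ (A.α + 1) := Nat.one_le_pow _ _ hs1
  have h9 : 2 * (100 * A.S k ^ (A.α + 1)) + 2 * A.S k ^ A.α + 3 ≤ 205 * A.S k ^ (A.α + 1) := by
    omega
  have h10 : 1 ≤ A.S k ^ (A.α + 1) * A.S k * 3 ^ d := Nat.one_le_iff_ne_zero.mpr (by positivity)
  calc 3 ^ d * (2 * A.S k) * (2 * (100 * A.S k ^ (A.α + 1)) + 2 * A.S k ^ A.α + 3) + 2
      ≤ 3 ^ d * (2 * A.S k) * (205 * A.S k ^ (A.α + 1)) + 2 :=
        Nat.add_le_add_right (Nat.mul_le_mul_left _ h9) _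
    _ = 410 * (A.S k ^ (A.α + 1) * A.S k * 3 ^ d) + 2 := by ring
    _ ≤ 1000 * (A.S k ^ (A.α + 1) * A.S k * 3 ^ d) := by omega
    _ = A.S k ^ (A.α + 1) * A.S k * (1000 * 3 ^ d) := by ring
    _ ≤ A.S k ^ (A.α + 1) * A.S k * A.S k := Nat.mul_le_mul_left _ hs
    _ ≤ A.S k ^ (A.α + 1) * A.S k * A.S k * A.S k := Nat.le_mul_of_pos_right _ (by omega)
    _ = A.S k ^ (A.α + 4) := by rw [h5, h6]

end num

section rt

variable {m : Model} {δ : ℝ} (q : Par d m δ) (A : Prm)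
variable (η : Tor d q.M → ℕ) (w : List (Let d q.M (q.K + 1)))

/-- the blocks of the level `k` are not bad -/
def Fwd (k H : ℕ) : Prop := ∀ (x : Pos d) (t : ℕ), t + 6 * A.T d k ≤ H → ∀ b,
  ¬ sft q.N1 x t (PBad q.N1 A b k) η w

variable {q A η w}

theorem Fwd.good {k H : ℕ} (h : Fwd q A η w k H) {a i : ℕ} (z : Pos d) (hi : 2 ≤ i)
    (hH : a + (i + 4) * A.T d k ≤ H) : ¬ badA q.N1 A η w a k (z, i) := by
  have h1 : a + (i - 2) * A.T d k + 6 * A.T d k ≤ H := by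
    obtain ⟨i, rfl⟩ : ∃ i', i = i' + 2 := ⟨i - 2, by omega⟩
    rw [Nat.add_sub_cancel]
    nlinarith [hH]
  rintro (h2 | h2)
  · rcases h2 with h2 | h2
    · simp only at h2; omega
    · exact h _ _ h1 _ h2
  · rcases h2 with h2 | h2
    · simp only at h2; omega
    · exact h _ _ h1 _ h2

theorem good_zero {a : ℕ} {P : Blk d} (h : ¬ badA q.N1 A η w a 0 P) :
    sft q.N1 (sm A.L P.1) (a + P.2 * A.τ) (POpn q.N1 A.L A.τ) η w := by
  unfold badA Bad at h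
  push Not at h
  have h1 := h.1
  unfold badW at h1
  push Not at h1
  obtain ⟨h2, h3⟩ := h1
  rw [S_zero, T_zero] at h3
  have h4 : PBad (d := d) (M := q.M) (K := q.K) q.N1 A false 0 =
      sft q.N1 0 (2 * A.τ) (fun η w => ¬ POpn q.N1 A.L A.τ η w) := rfl
  rw [h4, sft_sft, add_zero] at h3
  have h5 : a + (P.2 - 2) * A.τ + 2 * A.τ = a + P.2 * A.τ := by
    obtain ⟨i, hi⟩ : ∃ i', P.2 = i' + 2 := ⟨P.2 - 2, by omega⟩
    rw [hi, Nat.add_sub_cancel]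
    ring
  rw [h5] at h3
  exact not_not.mp h3

theorem not_fast {a k : ℕ} {v : Blk d} (h : ¬ badA q.N1 A η w a (k + 1) v) :
    ¬ sft q.N1 (sm (A.S (k + 1)) v.1) (a + v.2 * A.T d (k + 1))
      (Fast q.N1 (A.S (k + 1)) (A.U d (k + 1))) η w := by
  unfold badA Bad at h
  push Not at h
  have h1 := h.2
  unfold badW at h1
  push Not at h1
  obtain ⟨h2, h3⟩ := h1
  intro h4
  apply h3
  have h5 : a + v.2 * A.T d (k + 1) = a + (v.2 - 2) * A.T d (k + 1) + 2 * A.T d (k + 1) := by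
    obtain ⟨i, hi⟩ : ∃ i', v.2 = i' + 2 := ⟨v.2 - 2, by omega⟩
    rw [hi, Nat.add_sub_cancel]
    ring
  rw [h5, ← add_zero (sm (A.S (k + 1)) v.1), ← sft_sft] at h4
  exact Or.inl h4

/-- open paths are followed by routes -/
theorem opath_route (hτ : 1 ≤ A.τ) {a : ℕ} {P P' : Blk d} (h : OPath (badA q.N1 A η w a) P P') :
    ∀ x ∈ cell A.L P.1, (envT q η w).occ (a + P.2 * A.τ) x → ∃ y ∈ cell A.L P'.1,
      (envT q η w).R (fun _ => Set.univ) (a + P.2 * A.τ) x (a + P'.2 * A.τ) y := by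
  intro x hx h0
  induction h with
  | refl => exact ⟨x, hx, R_self _ h0 (Set.mem_univ _)⟩
  | tail h1 h2 ih =>
    rename_i Q Q'
    obtain ⟨y, hy, hR⟩ := ih
    obtain ⟨h3, h4, h5⟩ := h2
    obtain ⟨-, h6, -⟩ := popn_facts q η w Q.1 (a + Q.2 * A.τ) A.L A.τ hτ (good_zero h3)
    obtain ⟨y', hy', hR'⟩ := h6 y hy (R_occ _ hR) Q'.1 h5
    refine ⟨y', hy', R_trans _ hR ?_⟩
    have h7 : a + Q'.2 * A.τ = a + Q.2 * A.τ + A.τ := by rw [h4]; ring
    rw [h7]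
    exact hR'

theorem route_pts {E : Env d} {s t : ℕ} {x y : Pos d} (h : E.R (fun _ => Set.univ) s x t y) :
    ∃ Z : ℕ → Pos d, Z s = x ∧ Z t = y ∧ ∀ t1 t2, s ≤ t1 → t1 ≤ t2 → t2 ≤ t →
      E.R (fun _ => Set.univ) t1 (Z t1) t2 (Z t2) := by
  obtain ⟨Z, h1, h2, h3⟩ := R_route E h
  refine ⟨Z, h1, h2, ?_⟩
  have hocc : ∀ t1, s ≤ t1 → t1 ≤ t → E.occ t1 (Z t1) := by
    intro t1 h4 h5
    rcases Nat.lt_or_ge t1 t with h6 | h6
    · exact R_occ _ (h3 t1 h4 h6).2.1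
    · obtain rfl : t1 = t := le_antisymm h5 h6
      rw [h2]
      exact R_occ _ h
  intro t1 t2 h4 h5
  induction t2, h5 using Nat.le_induction with
  | base => intro h6; exact R_self _ (hocc t1 h4 h6) (Set.mem_univ _)
  | succ t2 h5 ih =>
    intro h6
    exact R_trans _ (ih (by omega)) (h3 t2 (by omega) (by omega)).2.2.1

/-- the index of the cell of a position -/
def ci (S : ℕ) (x : Pos d) : Pos d := fun j => x j / (S : ℤ)

theorem mem_ci {S : ℕ} (hS : 1 ≤ S) (x : Pos d) : x ∈ cell S (ci S x) := by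
  intro j
  have h1 : (0 : ℤ) < S := by exact_mod_cast hS
  have h2 := Int.emod_add_mul_ediv (x j) S
  have h3 := Int.emod_nonneg (x j) h1.ne'
  have h4 := Int.emod_lt_of_pos (x j) h1
  unfold ci
  constructor <;> linarith

/-- entrance of a route -/
theorem entry (hd : 0 < d) (hL : 1000 * (d + 1) * 3 ^ d ≤ A.L) (hγ : A.α + 12 ≤ A.γ)
    (hτ : 1 ≤ A.τ) {k H : ℕ} (hf : Fwd q A η w k H) {a j t : ℕ} {x y : Pos d}
    (hj : 2 ≤ j) (hjH : a + (j + 4) * A.T d k ≤ H) (ht : a + j * A.T d k + A.U d k ≤ t)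
    (hR : (envT q η w).R (fun _ => Set.univ) (a + j * A.T d k) x t y) :
    ∃ z : Pos d, supn (z - ci (A.S k) x) ≤ 1 ∧ ∃ P ∈ Hub (A.lvl d) (badA q.N1 A η w a) k (z, j),
      a + P.2 * A.τ ≤ t ∧ ∃ p ∈ cell A.L P.1,
        (envT q η w).R (fun _ => Set.univ) (a + j * A.T d k) x (a + P.2 * A.τ) p := by
  have hL1 : 1 ≤ A.L := by
    have : 1 ≤ 3 ^ d := Nat.one_le_pow _ _ (by norm_num)
    nlinarith [Nat.zero_le d]
  have hL8 : 8 ≤ A.L := by
    have : 1 ≤ 3 ^ d := Nat.one_le_pow _ _ (by norm_num)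
    nlinarith [Nat.zero_le d]
  obtain ⟨Z, hZ1, hZ2, hZ⟩ := route_pts hR
  have hSk : 1 ≤ A.S k := hL1.trans (L_le_S A hL1 (by omega) k)
  obtain ⟨z, hz, P, hP, hP1, hP2, hP3⟩ := hub_entry hd (fit_lvl A hd hL hγ)
    (hier_badW q.N1 A hL hγ η w a) A.S (A.T d) (A.U d) (by rw [S_zero]; exact hL1)
    (by rw [T_zero]; exact hτ) (fun k => S_succ A (by omega) k) (fun k => T_succ A k) rfl
    (fun k => A.S k ^ (A.α + 4)) (fun k => rfl) (nn_le A hL1 hγ) (U_le_T A hL1 hγ)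
    (fun k => hL8.trans (n_ge A hL1 (by omega) k)) (fun k => cnt_le A hL (by omega) k)
    (fun i => Z (a + i)) k (ci (A.S k) x, j) (fun z _ => hf.good z hj hjH)
    (by
      intro k' v' hv' h1 h2 h3 t' ht'
      simp only at h1 h2
      have h4 := hZ (a + v'.2 * A.T d (k' + 1)) (a + v'.2 * A.T d (k' + 1) + t') (by omega)
        (by omega) (by omega)
      have h5 := slow_facts q η w v'.1 (a + v'.2 * A.T d (k' + 1)) (A.S (k' + 1))
        (A.U d (k' + 1)) (by have := L_le_S A hL1 (by omega) (k' + 1); omega) (not_fast hv')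
        _ h3 t' ht' _ h4
      rw [Nat.add_assoc a] at h5
      exact h5)
    (by
      show Z (a + j * A.T d k) ∈ cell (A.S k) (ci (A.S k) x)
      rw [hZ1]
      exact mem_ci hSk x)
  rw [T_zero] at hP1 hP2 hP3
  simp only at hP1 hP2
  rw [S_zero] at hP3
  refine ⟨z, hz, P, hP, by omega, Z (a + P.2 * A.τ), hP3, ?_⟩
  have := hZ (a + j * A.T d k) (a + P.2 * A.τ) (by omega) (by omega) (by omega)
  rwa [hZ1] at this

end rt

end ZP.CO1
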