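import Pool.Agent.ZP.SHa
import Pool.Agent.ZI.Geo

/-! # CO2: from the properties of routes to the good event -/

set_option autoImplicit false

open scoped ENNReal BigOperators Classical

noncomputable section

namespace ZP.Rows

open ZP

variable {d : ℕ}

namespace CO2

open ZI.Geo

theorem nrm_zero' : nrm (0 : Pos d) = 0 := by simp [ZI.nrm]

/-- a lattice point near the segment from `x` to `y` at the distance `L` from `x` -/
theorem exists_between (x y : Pos d) (L : ℝ) (h0 : 0 ≤ L) (hL : L ≤ nrm (x - y)) :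
    ∃ w : Pos d, nrm (w - x) ≤ L + d ∧ nrm (w - y) ≤ nrm (x - y) - L + d := by
  have hd0 : (0 : ℝ) ≤ d := Nat.cast_nonneg d
  rcases (nrm_nonneg (x - y)).lt_or_eq with hD | hD
  swap
  · refine ⟨x, ?_, ?_⟩
    · rw [sub_self, nrm_zero']
      linarith
    · rw [← hD] at hL ⊢
      linarith
  · set D := nrm (x - y) with hDdef
    obtain ⟨a, ha⟩ : ∃ a : ℝ, a = L / D := ⟨_, rfl⟩
    have ha0 : 0 ≤ a := by rw [ha]; positivity
    have ha1 : a ≤ 1 := by rw [ha]; exact (div_le_one hD).2 hL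
    have haD : a * D = L := by rw [ha]; field_simp
    set err : EuclideanSpace ℝ (Fin d) := WithLp.toLp 2 (fun j => (round (a * ((y - x) j : ℝ)) : ℝ) -
      a * ((y - x) j : ℝ)) with herr
    have he : ‖err‖ ≤ d := by
      rw [EuclideanSpace.norm_eq]
      rw [Real.sqrt_le_left (Nat.cast_nonneg d)]
      have h4 : ∀ j ∈ Finset.univ, ‖err j‖ ^ 2 ≤ 1 := by
        intro j _
        rw [Real.norm_eq_abs, sq_abs, sq_le_one_iff_abs_le_one]
        show |(round (a * ((y - x) j : ℝ)) : ℝ) - a * ((y - x) j : ℝ)| ≤ 1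
        rw [abs_sub_comm]
        have := abs_sub_round (a * ((y - x) j : ℝ))
        linarith
      have h5 := Finset.sum_le_card_nsmul Finset.univ _ _ h4
      simp only [Finset.card_univ, Fintype.card_fin, nsmul_eq_mul, mul_one] at h5
      refine h5.trans ?_
      rcases Nat.eq_zero_or_pos d with h6 | h6
      · rw [h6]; norm_num
      · have : (1 : ℝ) ≤ d := by exact_mod_cast h6
        nlinarith
    have hDe : ‖ev (y - x)‖ = D := by
      rw [← nrm_eq, nrm_sub_comm]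
    refine ⟨fun j => x j + round (a * ((y - x) j : ℝ)), ?_, ?_⟩
    · have h1 : nrm ((fun j => x j + round (a * ((y - x) j : ℝ))) - x) = ‖a • ev (y - x) + err‖ := by
        rw [nrm_eq]
        congr 1
        ext j
        simp [ev, herr]
      rw [h1]
      refine (norm_add_le _ _).trans ?_
      rw [norm_smul, hDe, Real.norm_eq_abs, abs_of_nonneg ha0, haD]
      linarith
    · have h1 : nrm ((fun j => x j + round (a * ((y - x) j : ℝ))) - y) =
          ‖(-(1 - a)) • ev (y - x) + err‖ := by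
        rw [nrm_eq]
        congr 1
        ext j
        simp [ev, herr]
        ring
      rw [h1]
      refine (norm_add_le _ _).trans ?_
      rw [norm_smul, hDe, Real.norm_eq_abs, abs_neg, abs_of_nonneg (by linarith)]
      have : (1 - a) * D = D - L := by rw [← haD]; ring
      linarith

variable {E : Env d} {Cv r T Θ' H : ℕ}

/-- a route stays near its start -/
theorem conf (hS : Speed E Cv r H) {s t : ℕ} {x y : Pos d} (h : E.R (fun _ => Set.univ) s x t y)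
    (ht : t ≤ H) {c : Pos d} {ρ : ℝ} (hρ : nrm (x - c) + (Cv * ((t : ℝ) - s) + r) ≤ ρ) :
    E.R (fun _ => Ball c ρ) s x t y := by
  have hst : s ≤ t := (R_start E h).2.2
  have hst' : (s : ℝ) ≤ t := by exact_mod_cast hst
  have h0 : 0 ≤ (Cv : ℝ) * ((t : ℝ) - s) := by
    have : (0 : ℝ) ≤ Cv := Nat.cast_nonneg _
    nlinarith
  have hr0 : (0 : ℝ) ≤ r := Nat.cast_nonneg _
  have h1 := R_restrict E h (G' := fun _ => Ball c ρ) (by
    show nrm (x - c) ≤ ρ
    linarith) (by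
    intro j hj b hb
    have h2 := hS.2 s (s + j + 1) x b (by omega) (by omega) ⟨j, by omega, hb⟩
    have h3 := nrm_sub_le b x c
    have h4 : ((s + j + 1 : ℕ) : ℝ) - s ≤ (t : ℝ) - s := by
      have : ((s + j + 1 : ℕ) : ℝ) ≤ t := by exact_mod_cast hj
      linarith
    have h5 : (Cv : ℝ) * (((s + j + 1 : ℕ) : ℝ) - s) ≤ Cv * ((t : ℝ) - s) :=
      mul_le_mul_of_nonneg_left h4 (Nat.cast_nonneg _)
    show nrm (b - c) ≤ ρ
    linarith)
  simpa only [Set.univ_inter] using h1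

theorem conf_vis (hS : Speed E Cv r H) {s t : ℕ} {x b : Pos d}
    (h : E.vis (fun _ => Set.univ) s x t b)
    (ht : t ≤ H) {c : Pos d} {ρ : ℝ} (hρ : nrm (x - c) + (Cv * ((t : ℝ) - s) + r) ≤ ρ) :
    E.vis (fun _ => Ball c ρ) s x t b := by
  have h1 := vis_restrict E h (G' := fun _ => Ball c ρ) (by
    intro j hj b hb
    have h2 := hS.2 s (s + j + 1) x b (by omega) (by omega) ⟨j, by omega, hb⟩
    have h3 := nrm_sub_le b x c
    have h4 : ((s + j + 1 : ℕ) : ℝ) - s ≤ (t : ℝ) - s := by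
      have : ((s + j + 1 : ℕ) : ℝ) ≤ t := by exact_mod_cast hj
      linarith
    have h5 : (Cv : ℝ) * (((s + j + 1 : ℕ) : ℝ) - s) ≤ Cv * ((t : ℝ) - s) :=
      mul_le_mul_of_nonneg_left h4 (Nat.cast_nonneg _)
    show nrm (b - c) ≤ ρ
    linarith)
  simpa only [Set.univ_inter] using h1

/-- positions that are alive and have been reached, near any position -/
theorem okp (hR : Route E T Θ' H) (hS : Speed E Cv r H) (hr : r ≤ T) (hT : 1 ≤ T) {t : ℕ}
    (h1 : 19 * T ≤ t) (h2 : t + 24 * T ≤ H) (w : Pos d) :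
    ∃ p, nrm (p - w) ≤ (2 * d + 16 * Cv + 1 : ℕ) * (T : ℝ) ∧ FG E (16 * T) t p ∧
      BG E (16 * T) t p := by
  obtain ⟨y, hy, z, hz⟩ := hR.p2 (t - 16 * T) (by omega) (by omega) w
  obtain ⟨p, -, hp1, hp2⟩ := R_split E hz t (by omega) (by omega)
  refine ⟨p, ?_, ⟨z, ?_⟩, ⟨t - 16 * T, y, by omega, hp1⟩⟩
  · have h3 := hS.1 _ _ _ _ (by omega) (by omega) hp1
    have h4 : (t : ℝ) - ((t - 16 * T : ℕ) : ℝ) = 16 * T := by
      rw [Nat.cast_sub (by omega)]
      push_cast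
      ring
    rw [h4] at h3
    have h5 := nrm_sub_le p y w
    have h6 : nrm (y - w) ≤ d * (2 * T) := by
      refine (nrm_le_supn _).trans ?_
      have : (supn (y - w) : ℝ) ≤ 2 * T := by exact_mod_cast hy
      exact mul_le_mul_of_nonneg_left this (Nat.cast_nonneg _)
    have h7 : (r : ℝ) ≤ T := by exact_mod_cast hr
    push_cast
    nlinarith
  · have : t - 16 * T + 32 * T = t + 16 * T := by omega
    rw [← this]
    exact hp2

/-- numerical conditions -/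
structure Nm (d Cv r T : ℕ) : Prop where
  hr : r ≤ T
  h1 : 8 * (2 * d + 16 * Cv + d + 3) ≤ T

theorem Nm.T1 (h : Nm d Cv r T) : 10 ≤ T := by have := h.h1; omega

/-- `C T ≤ T ^ 2 / 8`, real form -/
theorem Nm.CT (h : Nm d Cv r T) :
    ((2 * d + 16 * Cv + 1 : ℕ) : ℝ) * (T : ℝ) + d + 1 ≤ (T : ℝ) ^ 2 / 8 := by
  have h1 : (8 * (2 * d + 16 * Cv + d + 3) : ℝ) ≤ T := by exact_mod_cast h.h1
  have h2 : (0 : ℝ) ≤ d := Nat.cast_nonneg _
  have h3 : (0 : ℝ) ≤ Cv := Nat.cast_nonneg _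
  have h4 : (10 : ℝ) ≤ T := by exact_mod_cast h.T1
  push_cast
  have h5 : (8 * (2 * d + 16 * Cv + d + 3)) * (T : ℝ) ≤ T * T :=
    mul_le_mul_of_nonneg_right h1 (by linarith)
  nlinarith [mul_nonneg h2 (by linarith : (0 : ℝ) ≤ (T : ℝ) - 1)]

/-- one hop -/
theorem hop (hR : Route E T Θ' H) (hS : Speed E Cv r H) {s t : ℕ} {x y c : Pos d}
    (hx : FG E (16 * T) s x) (hy : BG E (16 * T) t y) (h1 : 10 * T ≤ s) (h2 : t + 10 * T ≤ H)
    (h3 : nrm (x - y) ≤ (T : ℝ) ^ 2) (h4 : s + 2 * T ^ 4 + 10 * T ≤ t)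
    (h5 : t ≤ s + 4 * T ^ 4 + 10 * T) {ρ : ℝ}
    (hρ : nrm (x - c) + (Cv * (4 * (T : ℝ) ^ 4 + 10 * T) + r) ≤ ρ) :
    E.R (fun _ => Ball c ρ) s x t y := by
  refine conf hS (hR.p3 s t x y h1 h2 hx hy h3 h4 h5) (by omega) ?_
  have h6 : (t : ℝ) - s ≤ 4 * (T : ℝ) ^ 4 + 10 * T := by
    have : (t : ℝ) ≤ (s + 4 * T ^ 4 + 10 * T : ℕ) := by exact_mod_cast h5
    push_cast at this
    linarith
  have h7 : (Cv : ℝ) * ((t : ℝ) - s) ≤ Cv * (4 * (T : ℝ) ^ 4 + 10 * T) :=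
    mul_le_mul_of_nonneg_left h6 (Nat.cast_nonneg _)
  linarith

theorem reach (hR : Route E T Θ' H) (hS : Speed E Cv r H) (hN : Nm d Cv r T) {t : ℕ} {y : Pos d}
    (hy : BG E (16 * T) t y) (ht : t + 24 * T ≤ H) : ∀ n s : ℕ, ∀ x : Pos d, t = s + n →
    19 * T ≤ s → FG E (16 * T) s x →
    ((nrm (x - y) ≤ (T : ℝ) ^ 2 / 2 ∧ 4 * T ^ 4 + 20 * T ≤ n) ∨
      (nrm (x - y) + 1) * (6 * (T : ℝ) ^ 4 + 30 * T) ≤ n) → ∀ ρ : ℝ,
    nrm (x - y) + (Cv * (4 * (T : ℝ) ^ 4 + 10 * T) + r) ≤ ρ →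
    (T : ℝ) ^ 2 / 2 + (Cv * (4 * (T : ℝ) ^ 4 + 10 * T) + r) ≤ ρ →
    E.R (fun _ => Ball y ρ) s x t y := by
  intro n
  induction n using Nat.strong_induction_on with
  | _ n ih =>
  intro s x hts hs hx hc ρ hρ1 hρ2
  have hT1 := hN.T1
  have hTr : (10 : ℝ) ≤ T := by exact_mod_cast hT1
  have hCT := hN.CT
  have hd0 : (0 : ℝ) ≤ d := Nat.cast_nonneg _
  have hT4 : 1000 * T ≤ T ^ 4 := by
    have h1 : T ^ 4 = T ^ 3 * T := by ring
    have h2 : 10 ^ 3 ≤ T ^ 3 := Nat.pow_le_pow_left hT1 3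
    rw [h1]
    exact Nat.mul_le_mul_right T (by omega)
  have hT4r : (1000 : ℝ) * T ≤ (T : ℝ) ^ 4 := by exact_mod_cast hT4
  have hC0 : 0 ≤ ((2 * d + 16 * Cv + 1 : ℕ) : ℝ) * (T : ℝ) := by positivity
  by_cases hnear : nrm (x - y) ≤ (T : ℝ) ^ 2 / 2
  · have hn : 4 * T ^ 4 + 20 * T ≤ n := by
      rcases hc with hc | hc
      · exact hc.2
      · have h1 : (0 : ℝ) ≤ nrm (x - y) := nrm_nonneg _
        have h2 : (6 * (T : ℝ) ^ 4 + 30 * T) ≤ n := by nlinarith
        have h3 : 6 * T ^ 4 + 30 * T ≤ n := by exact_mod_cast h2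
        omega
    by_cases hn2 : n ≤ 8 * T ^ 4 + 20 * T
    · obtain ⟨p, hp1, hp2, hp3⟩ := okp hR hS hN.hr (by omega) (t := s + n / 2) (by omega) (by omega) y
      have h1 : E.R (fun _ => Ball y ρ) s x (s + n / 2) p := by
        refine hop hR hS hx hp3 (by omega) (by omega) ?_ (by omega) (by omega) hρ1
        have h2 := nrm_sub_le x y p
        rw [nrm_sub_comm y p] at h2
        nlinarith
      have h2 : E.R (fun _ => Ball y ρ) (s + n / 2) p t y := by
        refine hop hR hS hp2 hy (by omega) (by omega) ?_ (by omega) (by omega) ?_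
        · nlinarith
        · linarith
      exact R_trans E h1 h2
    · obtain ⟨p, hp1, hp2, hp3⟩ := okp hR hS hN.hr (by omega) (t := s + (2 * T ^ 4 + 10 * T))
        (by omega) (by omega) y
      have h1 : E.R (fun _ => Ball y ρ) s x (s + (2 * T ^ 4 + 10 * T)) p := by
        refine hop hR hS hx hp3 (by omega) (by omega) ?_ (by omega) (by omega) hρ1
        have h2 := nrm_sub_le x y p
        rw [nrm_sub_comm y p] at h2
        nlinarith
      refine R_trans E h1 (ih (n - (2 * T ^ 4 + 10 * T)) (by omega) _ p (by omega) (by omega) hp2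
        (Or.inl ⟨by linarith, by omega⟩) ρ (by linarith) hρ2)
  · rw [not_le] at hnear
    have hc' : (nrm (x - y) + 1) * (6 * (T : ℝ) ^ 4 + 30 * T) ≤ n := by
      rcases hc with hc | hc
      · exact absurd hc.1 (not_le.2 hnear)
      · exact hc
    have hn : 6 * T ^ 4 + 30 * T ≤ n := by
      have h1 : (0 : ℝ) ≤ nrm (x - y) := nrm_nonneg _
      have h2 : (6 * (T : ℝ) ^ 4 + 30 * T) ≤ n := by nlinarith
      exact_mod_cast h2
    obtain ⟨w, hw1, hw2⟩ := exists_between x y ((T : ℝ) ^ 2 / 2) (by positivity) hnear.le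
    obtain ⟨p, hp1, hp2, hp3⟩ := okp hR hS hN.hr (by omega) (t := s + (2 * T ^ 4 + 10 * T))
        (by omega) (by omega) w
    have h1 : E.R (fun _ => Ball y ρ) s x (s + (2 * T ^ 4 + 10 * T)) p := by
      refine hop hR hS hx hp3 (by omega) (by omega) ?_ (by omega) (by omega) hρ1
      have h2 := nrm_sub_le x w p
      rw [nrm_sub_comm w p, nrm_sub_comm x w] at h2
      nlinarith
    have h3 := nrm_sub_le p w y
    have h4 : nrm (p - y) ≤ nrm (x - y) - 1 := by nlinarith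
    refine R_trans E h1 (ih (n - (2 * T ^ 4 + 10 * T)) (by omega) _ p (by omega) (by omega) hp2
      (Or.inr ?_) ρ (by linarith) hρ2)
    rw [Nat.cast_sub (by omega)]
    push_cast
    have h5 : (0 : ℝ) ≤ nrm (p - y) := nrm_nonneg _
    have h6 : (nrm (p - y) + 1) * (6 * (T : ℝ) ^ 4 + 30 * T) ≤
        nrm (x - y) * (6 * (T : ℝ) ^ 4 + 30 * T) :=
      mul_le_mul_of_nonneg_right (by linarith) (by positivity)
    nlinarith

theorem FG_of_R {s t : ℕ} {x y : Pos d} (h : E.R (fun _ => Set.univ) s x t y)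
    (hst : s + 16 * T < t) : FG E (16 * T) s x := by
  obtain ⟨z, -, h1, -⟩ := R_split E h (s + 16 * T) (by omega) hst
  exact ⟨z, h1⟩

theorem BG_of_R {s t : ℕ} {x y : Pos d} (h : E.R (fun _ => Set.univ) s x t y)
    (hst : s + 16 * T ≤ t) (hT : 1 ≤ T) : BG E (16 * T) t y := by
  obtain ⟨z, -, -, h1⟩ := R_split E h (t - 16 * T) (by omega) (by omega)
  exact ⟨t - 16 * T, z, by omega, h1⟩

end CO2

open CO2 ZI.Geo in
theorem good_of_route (d : ℕ) (hd : 0 < d) (Cv : ℕ) : ∃ C0 : ℕ, ∀ (E : Env d)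
    (T Θ' H r κ Dm u S : ℕ), Route E T Θ' H → Speed E Cv r H → C0 ≤ T → r ≤ T →
    C0 * (T ^ 6 + Θ') ≤ κ → 100 * T ≤ u → u + S + 100 * T ≤ H →
    (E.shift u).Good r κ Cv S Dm := by
  refine ⟨1000 * (Cv + d + 1), ?_⟩
  intro E T Θ' H r κ Dm u S hR hS hC0 hrT hκ hu hH
  have hN : Nm d Cv r T := ⟨hrT, by omega⟩
  have hT1 : 1000 ≤ T := by nlinarith
  have hTr : (1000 : ℝ) ≤ T := by exact_mod_cast hT1
  have hCT := hN.CT
  have hd0 : (0 : ℝ) ≤ d := Nat.cast_nonneg _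
  have hCv0 : (0 : ℝ) ≤ Cv := Nat.cast_nonneg _
  have hd1 : (1 : ℝ) ≤ d := by exact_mod_cast hd
  have hr : (r : ℝ) ≤ T := by exact_mod_cast hrT
  have hr0 : (0 : ℝ) ≤ r := Nat.cast_nonneg _
  have hΘ0 : (0 : ℝ) ≤ Θ' := Nat.cast_nonneg _
  have hκr : 1000 * ((Cv : ℝ) + d + 1) * ((T : ℝ) ^ 6 + Θ') ≤ κ := by exact_mod_cast hκ
  -- numerical facts
  have hT4 : (T : ℝ) ^ 4 ≤ (T : ℝ) ^ 6 := pow_le_pow_right₀ (by linarith) (by norm_num)
  have hT2 : (T : ℝ) ^ 2 ≤ (T : ℝ) ^ 4 := pow_le_pow_right₀ (by linarith) (by norm_num)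
  have hT1' : (1000 : ℝ) * T ≤ (T : ℝ) ^ 2 := by nlinarith
  have hT1p : (T : ℝ) ≤ (T : ℝ) ^ 2 := by nlinarith
  have hT6p : (0 : ℝ) ≤ (T : ℝ) ^ 6 := by positivity
  obtain ⟨K1, hK1⟩ : ∃ K1 : ℝ, K1 = Cv * (4 * (T : ℝ) ^ 4 + 10 * T) + r := ⟨_, rfl⟩
  obtain ⟨CT, hCTd⟩ : ∃ CT : ℝ, CT = ((2 * d + 16 * Cv + 1 : ℕ) : ℝ) * (T : ℝ) := ⟨_, rfl⟩
  have hCT0 : 0 ≤ CT := by rw [hCTd]; positivity
  have hCT8 : CT + d + 1 ≤ (T : ℝ) ^ 2 / 8 := by rw [hCTd]; exact hCT
  have hK1b : K1 ≤ 5 * (Cv + 1) * (T : ℝ) ^ 6 := by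
    rw [hK1]
    have h1 : (Cv : ℝ) * (4 * (T : ℝ) ^ 4 + 10 * T) ≤ Cv * (5 * (T : ℝ) ^ 6) :=
      mul_le_mul_of_nonneg_left (by linarith) hCv0
    nlinarith
  have hK10 : 0 ≤ K1 := by rw [hK1]; positivity
  have hκ1 : 1000 * (Cv + 1) * (T : ℝ) ^ 6 + 1000 * (Cv + 1) * Θ' ≤ κ := by
    refine le_trans ?_ hκr
    nlinarith [mul_nonneg hd0 hT6p, mul_nonneg hd0 hΘ0]
  have hCvT6 : 0 ≤ (Cv : ℝ) * (T : ℝ) ^ 6 := by positivity
  have hCvΘ : 0 ≤ (Cv : ℝ) * Θ' := by positivity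
  have hκT : 1000 * (T : ℝ) ^ 6 ≤ κ := by nlinarith
  have hκT1 : 1000 * (T : ℝ) ≤ κ := by nlinarith
  have hκTn : 1000 * T ≤ κ := by exact_mod_cast hκT1
  have hκCv : 1000 * ((Cv : ℝ) + 1) ≤ κ := by
    have h1 : (1 : ℝ) ≤ (T : ℝ) ^ 6 := one_le_pow₀ (by linarith)
    nlinarith
  have hκ0 : (0 : ℝ) ≤ κ := Nat.cast_nonneg _
  have hκsq : 2 * (Cv * (κ : ℝ) + r) ≤ (κ : ℝ) ^ 2 := by nlinarith
  have hκΘ : 1000 * (Θ' : ℝ) ≤ κ := by nlinarith
  have hκΘn : 1000 * Θ' ≤ κ := by exact_mod_cast hκΘ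
  have hCvΘκ : 1000 * ((Cv : ℝ) * Θ') + 1000 * (T : ℝ) ^ 6 ≤ κ := by nlinarith
  -- the positions that are alive
  have hFG : ∀ s x, κ ≤ s → s + κ ≤ S → (E.shift u).fg κ s x → FG E (16 * T) (u + s) x := by
    rintro s x - hs ⟨y, hy⟩
    rw [shift_R] at hy
    exact FG_of_R (R_mono E (fun _ => Set.subset_univ _) hy) (by omega)
  have hBG : ∀ t y, κ ≤ t → t ≤ S → (E.shift u).bg κ t y → BG E (16 * T) (u + t) y := by
    rintro t y - ht ⟨s, z, hts, hz⟩
    rw [shift_R] at hz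
    exact BG_of_R (R_mono E (fun _ => Set.subset_univ _) hz) (by omega) (by omega)
  refine ⟨?_, ?_, ?_, ?_, ?_⟩
  · -- density
    intro t h1 h2 x
    obtain ⟨k, hk⟩ : ∃ k : ℕ, k = (2 * d + 16 * Cv + 1) * T + 1 := ⟨_, rfl⟩
    have hkr : (k : ℝ) = CT + 1 := by rw [hk, hCTd]; push_cast; ring
    set j0 : Fin d := ⟨0, hd⟩ with hj0
    set w : Pos d := x + Pi.single j0 (k : ℤ) with hw
    obtain ⟨p, hp1, hp2, hp3⟩ := okp hR hS hN.hr (by omega) (t := u + t) (by omega) (by omega) w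
    rw [← hCTd] at hp1
    have hwx : nrm (w - x) ≤ k := by
      refine (nrm_le_sum _).trans ?_
      rw [Finset.sum_eq_single j0]
      · rw [hw]
        simp
      · intro j _ hj
        rw [hw]
        simp [hj]
      · intro h
        exact absurd (Finset.mem_univ _) h
    have hwx' : (k : ℝ) ≤ nrm (w - x) := by
      have h3 := abs_coord_le (w - x) j0
      rw [hw] at h3
      simp only [add_sub_cancel_left, Pi.single_eq_same, Int.cast_natCast, Nat.abs_cast] at h3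
      rw [hw, add_sub_cancel_left]
      exact h3
    have hpx : x + (p - x) = p := by abel
    refine ⟨p - x, ?_, ?_, ?_, ?_⟩
    · intro h0
      have h3 : p = x := sub_eq_zero.1 h0
      rw [h3, nrm_sub_comm] at hp1
      linarith
    · apply supn_le_of_nrm
      have h3 := nrm_sub_le p w x
      nlinarith
    · rw [hpx]
      obtain ⟨y, hy⟩ := hR.p1 (u + t) p (by omega) hp2 (u + (t + κ)) (by omega) (by omega)
      refine ⟨y, ?_⟩
      rw [shift_R]
      refine conf hS hy (by omega) ?_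
      rw [sub_self, CO2.nrm_zero']
      have h3 : (((u + (t + κ) : ℕ) : ℝ) - ((u + t : ℕ) : ℝ)) = κ := by push_cast; ring
      rw [h3]
      nlinarith
    · rw [hpx]
      obtain ⟨y, hy⟩ := hR.p1' (u + t) p (by omega) hp3 (u + (t - κ)) (by omega) (by omega)
      refine ⟨t - κ, y, by omega, ?_⟩
      rw [shift_R]
      refine conf hS hy (by omega) ?_
      have h3 : (((u + t : ℕ) : ℝ) - ((u + (t - κ) : ℕ) : ℝ)) = κ := by
        push_cast
        rw [Nat.cast_sub h1]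
        ring
      have h4 := hS.1 _ _ _ _ (by omega) (by omega) hy
      rw [nrm_sub_comm] at h4
      rw [h3] at h4 ⊢
      linarith
  · -- reaching
    intro s t x y h1 h2 h3 hx hy hxy hT
    rw [shift_R]
    have hn : nrm (x - y) + (Cv * (4 * (T : ℝ) ^ 4 + 10 * T) + r) ≤ nrm (x - y) + κ := by
      rw [← hK1]
      nlinarith
    have h0 : 0 ≤ nrm (x - y) := nrm_nonneg _
    refine reach hR hS hN (hBG t y (by omega) (by omega) hy) (by omega) (t - s) (u + s) x (by omega)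
      (by omega) (hFG s x h1 (by omega) hx) (Or.inr ?_) _ hn ?_
    · rw [Nat.cast_sub h2]
      refine le_trans ?_ hT
      refine mul_le_mul_of_nonneg_left ?_ (by linarith)
      nlinarith
    · rw [← hK1]
      nlinarith
  · -- visiting
    intro s t x b h1 h2 h3 hx hxb hT
    rw [shift_vis]
    have h0 : 0 ≤ nrm (x - b) := nrm_nonneg _
    have hts : (κ : ℝ) ≤ (t : ℝ) - s := le_trans (by nlinarith) hT
    have htsn : s + κ ≤ t := by
      have : ((s + κ : ℕ) : ℝ) ≤ t := by push_cast; linarith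
      exact_mod_cast this
    obtain ⟨p, hp1, hp2, hp3⟩ := okp hR hS hN.hr (by omega) (t := u + (t - Θ')) (by omega)
      (by omega) b
    rw [← hCTd] at hp1
    have hxp : nrm (x - p) ≤ nrm (x - b) + CT := by
      have h4 := nrm_sub_le x b p
      rw [nrm_sub_comm b p] at h4
      linarith
    have hxp0 : 0 ≤ nrm (x - p) := nrm_nonneg _
    have hpb : nrm (p - b) ≤ (T : ℝ) ^ 2 := by nlinarith
    have hvis := hR.p4 (u + (t - Θ')) p b (by omega) (by omega) hp2 hpb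
    rw [show u + (t - Θ') + Θ' = u + t by omega] at hvis
    have hvis2 : E.vis (fun _ => Ball b (nrm (x - b) + κ)) (u + (t - Θ')) p (u + t) b := by
      refine conf_vis hS hvis (by omega) ?_
      have h5 : (((u + t : ℕ) : ℝ) - ((u + (t - Θ') : ℕ) : ℝ)) = Θ' := by
        push_cast
        rw [Nat.cast_sub (by omega)]
        ring
      rw [h5]
      nlinarith
    refine R_vis E ?_ hvis2
    have hreach := reach hR hS hN hp3 (by omega) (t - Θ' - s) (u + s) x (by omega)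
      (by omega) (hFG s x h1 (by omega) hx) (Or.inr ?_) (nrm (x - p) + K1 + (T : ℝ) ^ 2 / 2) ?_ ?_
    · refine R_mono E ?_ hreach
      intro _ z hz
      have h5 : nrm (z - p) ≤ nrm (x - p) + K1 + (T : ℝ) ^ 2 / 2 := hz
      have h6 := nrm_sub_le z p b
      show nrm (z - b) ≤ nrm (x - b) + κ
      nlinarith
    · rw [Nat.cast_sub (by omega), Nat.cast_sub (by omega)]
      have h5 : (nrm (x - p) + 1) * (6 * (T : ℝ) ^ 4 + 30 * T) ≤
          (nrm (x - b) + 1 + CT) * (7 * (T : ℝ) ^ 4) := by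
        refine mul_le_mul (by linarith) (by linarith) (by positivity) (by linarith)
      have h6 : (nrm (x - b) + 1 + CT) * (7 * (T : ℝ) ^ 4) ≤
          (nrm (x - b) + 1) * (14 * (T : ℝ) ^ 6) := by
        have h7 : nrm (x - b) + 1 + CT ≤ (nrm (x - b) + 1) * (2 * (T : ℝ) ^ 2) := by nlinarith
        calc (nrm (x - b) + 1 + CT) * (7 * (T : ℝ) ^ 4) ≤
            ((nrm (x - b) + 1) * (2 * (T : ℝ) ^ 2)) * (7 * (T : ℝ) ^ 4) :=
              mul_le_mul_of_nonneg_right h7 (by positivity)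
          _ = _ := by ring
      have h8 : (nrm (x - b) + 1) * (14 * (T : ℝ) ^ 6 + Θ') ≤ (nrm (x - b) + 1) * κ :=
        mul_le_mul_of_nonneg_left (by linarith) (by linarith)
      nlinarith
    · rw [← hK1]
      nlinarith
    · rw [← hK1]
      nlinarith
  · intro s t x y h1 h2 h
    rw [shift_R] at h
    have h3 := hS.1 _ _ _ _ (by omega) (by omega) h
    push_cast at h3
    rwa [add_sub_add_left_eq_sub] at h3
  · intro s t x y h1 h2 h
    rw [shift_vis] at h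
    have h3 := hS.2 _ _ _ _ (by omega) (by omega) h
    push_cast at h3
    rwa [add_sub_add_left_eq_sub] at h3

end ZP.Rows
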