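import Pool.Agent.ZP.SF1
import Pool.Agent.ZP.R2
import Pool.Agent.ZP.PJ
import Pool.Agent.ZP.Hub

/-! # Row DC: decoupling in time by sprinkling, part a (from the sprinkling estimate as a hypothesis) -/

set_option autoImplicit false

open scoped ENNReal BigOperators Classical

noncomputable section

namespace ZP.DC

open ZP ZP.Rows

variable {d : ℕ} {m : Model} {δ : ℝ}

theorem stt_prj {M K : ℕ} (η : Tor d M → ℕ) (w : List (Let d M (K + 1))) (i : ℕ) :
    stt η w i = ((w.map prj).take i).foldl ZI.stepA η := by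
  unfold stt
  rw [← List.map_take]
  generalize w.take i = l
  induction l generalizing η with
  | nil => rfl
  | cons a l ih =>
    rw [List.map_cons, List.foldl_cons, List.foldl_cons, ← stepA_prj]
    exact ih _

theorem EvE_take {α : Type} [Fintype α] (w : α → ℝ≥0∞) (hw : ∑ a, w a = 1) (a b : ℕ) (h : a ≤ b)
    (F : List α → ℝ≥0∞) : EvE w b (fun l => F (l.take a)) = EvE w a F := by
  obtain ⟨c, rfl⟩ := Nat.exists_eq_add_of_le h
  rw [ZI.EvE_append]
  refine ZI.EvE_congr w a fun l hl => ?_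
  have h1 : ∀ l' : List α, (l ++ l').take a = l := by
    intro l'
    rw [← hl, List.take_left']
    rfl
  simp_rw [h1]
  exact ZI.EvE_const w hw c _

theorem lamR_wf (m : Model) (φ : ℝ) (h : 0 < φ) (δ : ℝ) (d j : ℕ) :
    lamR (ZP.wf m φ h) δ d j = lamR m δ d j := by
  cases j <;> rfl

/-- the law of the letters does not depend on the fugacity -/
theorem w_wf (q : Par d m δ) (φ : ℝ) (h : 0 < φ) (hK : 2 * φ ≤ m.g q.K) :
    (q.wf φ h hK).w = q.w := by
  funext a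
  cases a with
  | none => rfl
  | some l =>
    change ENNReal.ofReal (lamR (ZP.wf m φ h) δ d l.2.1 * q.p) =
      ENNReal.ofReal (lamR m δ d l.2.1 * q.p)
    rw [lamR_wf]

theorem w_wf_toZI (q : Par d m δ) (φ : ℝ) (h : 0 < φ) (hK : 2 * φ ≤ m.g q.K) :
    (q.wf φ h hK).toZI.w = q.toZI.w := by
  funext a
  cases a with
  | none => rfl
  | some l => rfl

theorem EvE_PrE_prj (q : Par d m δ) (hd : 0 < d) (N : ℕ) (E : List (Let d q.M q.K) → Prop) :
    EvE q.w N (fun l => if E (l.map prj) then 1 else 0) = PrE q.toZI.w N E :=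
  EvE_prj q hd N (fun w => if E w then 1 else 0)

/-- the general decoupling inequality -/
theorem dc_gen (q : Par d m δ) (hd : 0 < d) (t N : ℕ) (A : Ev d q.M q.K)
    (hA : ∀ η w, A η w ↔ A η (w.take (t * q.N1))) (E B : Ev d q.M q.K)
    (hB : ∀ η w, B η w ↔ (A η w ∧ sft q.N1 0 t E η w)) (P : (Tor d q.M → ℕ) → ℝ≥0∞) (hP : ∑' ζ, P ζ = 1)
    (bad : (Tor d q.M → ℕ) → (Tor d q.M → ℕ) → List (Let d q.M (q.K + 1)) → Prop)
    (h : ∀ η ζ l, l.length = N → ¬ bad η ζ l → E η l → E ζ l) :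
    q.PP (t * q.N1 + N) B ≤
      q.PP (t * q.N1) A * (∑' ζ, P ζ * EvE q.w N (fun l => if E ζ l then 1 else 0)) +
      ∑' η : Tor d q.M → ℕ, prw (m.m1 q.K) η *
        ∑' ζ, P ζ * EvE q.w N (fun l => if bad η ζ l then 1 else 0) := by
  set G : (Tor d q.M → ℕ) → ℝ≥0∞ := fun η =>
    ∑' ζ, P ζ * EvE q.w N (fun l => if bad η ζ l then 1 else 0) with hG
  set X : ℝ≥0∞ := ∑' ζ, P ζ * EvE q.w N (fun l => if E ζ l then 1 else 0) with hX
  have h1 : ∀ η', EvE q.w N (fun l => if E η' l then 1 else 0) ≤ X + G η' := by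
    intro η'
    have h2 : ∀ ζ, EvE q.w N (fun l => if E η' l then 1 else 0) ≤
        EvE q.w N (fun l => if E ζ l then 1 else 0) +
          EvE q.w N (fun l => if bad η' ζ l then 1 else 0) := by
      intro ζ
      rw [← ZI.EvE_add]
      refine ZI.EvE_mono q.w N fun l hl => ?_
      by_cases hb : bad η' ζ l
      · rw [if_pos hb]
        split_ifs <;> simp
      · by_cases hE : E η' l
        · rw [if_pos hE, if_pos (h η' ζ l hl hb hE)]
          simp
        · rw [if_neg hE]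
          exact zero_le
    calc EvE q.w N (fun l => if E η' l then 1 else 0) =
        ∑' ζ, P ζ * EvE q.w N (fun l => if E η' l then 1 else 0) := by
          rw [ENNReal.tsum_mul_right, hP, one_mul]
      _ ≤ ∑' ζ, (P ζ * EvE q.w N (fun l => if E ζ l then 1 else 0) +
          P ζ * EvE q.w N (fun l => if bad η' ζ l then 1 else 0)) := by
          refine ENNReal.tsum_le_tsum fun ζ => ?_
          rw [← mul_add]
          gcongr
          exact h2 ζ
      _ = X + G η' := ENNReal.tsum_add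
  have h3 : ∀ η, EvE q.w (t * q.N1 + N)
        (fun l => if B η l then 1 else 0) ≤
      EvE q.w (t * q.N1) (fun l => if A η l then 1 else 0) * X +
        EvE q.w (t * q.N1) (fun l => G (l.foldl stepA η)) := by
    intro η
    rw [ZI.EvE_append]
    have h4 : EvE q.w (t * q.N1) (fun l => if A η l then 1 else 0) * X =
        EvE q.w (t * q.N1) (fun l => X * (if A η l then 1 else 0)) := by
      rw [ZI.EvE_mul, mul_comm]
    rw [h4, ← ZI.EvE_add]
    refine ZI.EvE_mono q.w _ fun l hl => ?_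
    have h5 : ∀ l', B η (l ++ l') ↔ (A η l ∧ E (l.foldl stepA η) l') := by
      intro l'
      rw [hB]
      have e1 : (l ++ l').take (t * q.N1) = l := by rw [← hl, List.take_left']; rfl
      have e2 : (l ++ l').drop (t * q.N1) = l' := by rw [← hl, List.drop_left']; rfl
      rw [hA η (l ++ l'), e1]
      have e3 : sft q.N1 0 t E η (l ++ l') ↔ E (l.foldl stepA η) l' := by
        unfold sft stt
        rw [e1, e2, SF1.tv_zero, neg_zero]
        have e4 : l'.map (shL (0 : Tor d q.M)) = l' := by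
          conv_rhs => rw [← List.map_id l']
          exact List.map_congr_left fun a _ => SF1.shL_zero a
        rw [e4]
        simp only [add_zero]
      rw [e3]
    simp_rw [h5]
    by_cases hAl : A η l
    · simp only [hAl, true_and, if_true, mul_one]
      exact h1 _
    · simp only [hAl, false_and, if_false, mul_zero, zero_add]
      rw [ZI.EvE_const q.w (sum_w q hd)]
      exact zero_le
  have h6 := stationary q hd (t * q.N1) 0 (fun η _ => G η)
  have h7 : q.EE (t * q.N1 + 0) (fun η l => G ((l.take (t * q.N1)).foldl stepA η)) =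
      ∑' η : Tor d q.M → ℕ, prw (m.m1 q.K) η *
        EvE q.w (t * q.N1) (fun l => G (l.foldl stepA η)) := by
    unfold Par.EE
    refine tsum_congr fun η => ?_
    congr 1
    rw [add_zero]
    refine ZI.EvE_congr q.w _ fun l hl => ?_
    simp only
    rw [← hl, List.take_length]
  have h8 : q.EE 0 (fun η _ => G η) = ∑' η : Tor d q.M → ℕ, prw (m.m1 q.K) η * G η := rfl
  unfold Par.PP
  calc q.EE (t * q.N1 + N)
        (fun η l => if B η l then 1 else 0) ≤
      ∑' η : Tor d q.M → ℕ, (prw (m.m1 q.K) η *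
        EvE q.w (t * q.N1) (fun l => if A η l then 1 else 0) * X +
        prw (m.m1 q.K) η * EvE q.w (t * q.N1) (fun l => G (l.foldl stepA η))) := by
        unfold Par.EE
        refine ENNReal.tsum_le_tsum fun η => ?_
        rw [mul_assoc, ← mul_add]
        gcongr
        exact h3 η
    _ = _ := by
        rw [ENNReal.tsum_add, ENNReal.tsum_mul_right, ← h7, h6, h8]
        rfl

/-- the box that covers a ball of the torus -/
def bx (d ρ : ℕ) : Finset (Pos d) := Fintype.piFinset fun _ => Finset.Icc (-(ρ : ℤ)) ρ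

theorem card_bx (d ρ : ℕ) : (bx d ρ).card = (2 * ρ + 1) ^ d := by
  unfold bx
  rw [Fintype.card_piFinset]
  simp only [Finset.prod_const, Finset.card_univ, Fintype.card_fin, Int.card_Icc]
  congr 1
  omega

theorem mem_bx {d ρ : ℕ} (y : Pos d) : y ∈ bx d ρ ↔ supn y ≤ ρ := by
  unfold bx
  rw [Fintype.mem_piFinset, supn_le_iff]
  refine forall_congr' fun j => ?_
  rw [Finset.mem_Icc]
  omega

/-- union bound over the sites and the time units -/
theorem bad_bound (q : Par d m δ) (hd : 0 < d) (Pa Pb : (Tor d q.M → ℕ) → ℝ≥0∞) (ε : ℝ≥0∞)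
    (u1 u2 ρ : ℕ) (h12 : u1 ≤ u2) (x : Tor d q.M)
    (hsp : ∀ (v : Tor d q.M) (u : ℕ), u1 ≤ u → ∑' η, Pa η * ∑' ζ, Pb ζ *
      PrE q.toZI.w ((u + 1) * q.N1) (fun w => ∃ i, u * q.N1 ≤ i ∧
        i ≤ (u + 1) * q.N1 ∧ (w.take i).foldl ZI.stepA η v < (w.take i).foldl ZI.stepA ζ v) ≤ ε)
    (bad : (Tor d q.M → ℕ) → (Tor d q.M → ℕ) → List (Let d q.M (q.K + 1)) → Prop)
    (hbad : ∀ η ζ l, bad η ζ l → ∃ v ∈ Bt x ρ, ∃ i, u1 * q.N1 ≤ i ∧
        i ≤ u2 * q.N1 ∧ stt η l i v < stt ζ l i v) :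
    ∑' η, Pa η * ∑' ζ, Pb ζ * EvE q.w (u2 * q.N1) (fun l => if bad η ζ l then 1 else 0) ≤
      (2 * ρ + 1) ^ d * (u2 - u1 + 1) * ε := by
  set ev : (Tor d q.M → ℕ) → (Tor d q.M → ℕ) → Pos d → ℕ → List (Let d q.M (q.K + 1)) → Prop :=
    fun η ζ y u l => ∃ i, u * q.N1 ≤ i ∧ i ≤ (u + 1) * q.N1 ∧
      stt η l i (x + tv y) < stt ζ l i (x + tv y) with hev
  have hN := q.N1_pos
  -- one term
  have h1 : ∀ (y : Pos d) (u : ℕ), u1 ≤ u → ∑' η, Pa η * ∑' ζ, Pb ζ *
      EvE q.w ((u + 1) * q.N1) (fun l => if ev η ζ y u l then 1 else 0) ≤ ε := by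
    intro y u hu
    refine le_trans (le_of_eq ?_) (hsp (x + tv y) u hu)
    refine tsum_congr fun η => ?_
    congr 1
    refine tsum_congr fun ζ => ?_
    congr 1
    refine Eq.trans ?_ (EvE_PrE_prj q hd ((u + 1) * q.N1) (fun w => ∃ i, u * q.N1 ≤ i ∧
        i ≤ (u + 1) * q.N1 ∧ (w.take i).foldl ZI.stepA η (x + tv y) <
          (w.take i).foldl ZI.stepA ζ (x + tv y)))
    refine ZI.EvE_congr q.w _ fun l _ => ?_
    refine if_congr ?_ rfl rfl
    simp only [hev, stt_prj]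
  -- extension of the words
  have h3 : ∀ η ζ, EvE q.w (u2 * q.N1) (fun l => if bad η ζ l then 1 else 0) ≤
      ∑ y ∈ bx d ρ, ∑ u ∈ Finset.Icc u1 u2,
        EvE q.w ((u + 1) * q.N1) (fun l => if ev η ζ y u l then 1 else 0) := by
    intro η ζ
    have hle : u2 * q.N1 ≤ (u2 + 1) * q.N1 := by nlinarith
    rw [← EvE_take q.w (sum_w q hd) _ _ hle]
    have h4 : ∀ y, ∀ u ∈ Finset.Icc u1 u2,
        EvE q.w ((u + 1) * q.N1) (fun l => if ev η ζ y u l then 1 else 0) =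
        EvE q.w ((u2 + 1) * q.N1) (fun l => if ev η ζ y u l then 1 else 0) := by
      intro y u hu
      have hu' := (Finset.mem_Icc.mp hu).2
      have hle2 : (u + 1) * q.N1 ≤ (u2 + 1) * q.N1 := by nlinarith
      rw [← EvE_take q.w (sum_w q hd) _ _ hle2]
      refine ZI.EvE_congr q.w _ fun l _ => ?_
      have : ev η ζ y u (l.take ((u + 1) * q.N1)) ↔ ev η ζ y u l := by
        simp only [hev]
        refine exists_congr fun i => and_congr_right fun _ => and_congr_right fun hi => ?_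
        unfold stt
        rw [List.take_take, min_eq_left hi]
      simp only [this]
    have h5 : ∑ y ∈ bx d ρ, ∑ u ∈ Finset.Icc u1 u2,
        EvE q.w ((u + 1) * q.N1) (fun l => if ev η ζ y u l then 1 else 0) =
        EvE q.w ((u2 + 1) * q.N1) (fun l => ∑ y ∈ bx d ρ, ∑ u ∈ Finset.Icc u1 u2,
          if ev η ζ y u l then 1 else 0) := by
      have hs : ∀ {ι : Type} (s : Finset ι) (N : ℕ) (F : ι → List (Let d q.M (q.K + 1)) → ℝ≥0∞),
          ∑ i ∈ s, EvE q.w N (F i) = EvE q.w N (fun l => ∑ i ∈ s, F i l) := by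
        intro ι s N F
        induction s using Finset.induction_on with
        | empty =>
          simp only [Finset.sum_empty]
          have := ZI.EvE_mul q.w N 0 (fun _ => 0)
          simpa using this.symm
        | insert a s ha ih =>
          simp only [Finset.sum_insert ha]
          rw [ih, ZI.EvE_add]
      rw [← hs]
      refine Finset.sum_congr rfl fun y _ => ?_
      rw [← hs]
      exact Finset.sum_congr rfl fun u hu => h4 y u hu
    rw [h5]
    refine ZI.EvE_mono q.w _ fun l _ => ?_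
    split_ifs with hb
    · obtain ⟨v, ⟨y, hy, rfl⟩, i, hi1, hi2, hlt⟩ := hbad _ _ _ hb
      -- the time unit
      obtain ⟨u, hu1, hu2, hu3, hu4⟩ : ∃ u, u1 ≤ u ∧ u ≤ u2 ∧ u * q.N1 ≤ i ∧ i ≤ (u + 1) * q.N1 := by
        refine ⟨i / q.N1, ?_, ?_, Nat.div_mul_le_self _ _, ?_⟩
        · exact (Nat.le_div_iff_mul_le hN).mpr hi1
        · exact Nat.div_le_of_le_mul (by rw [mul_comm]; exact hi2)
        · have := Nat.lt_succ_of_le (Nat.le_refl (i / q.N1))
          have h6 := Nat.div_add_mod i q.N1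
          have h7 := Nat.mod_lt i hN
          nlinarith
      have hev' : ev η ζ y u l := by
        refine ⟨i, hu3, hu4, ?_⟩
        have e : ∀ θ : Tor d q.M → ℕ, stt θ (l.take (u2 * q.N1)) i = stt θ l i := by
          intro θ
          unfold stt
          rw [List.take_take, min_eq_left hi2]
        rw [← e η, ← e ζ]
        exact hlt
      calc (1 : ℝ≥0∞) = if ev η ζ y u l then 1 else 0 := by rw [if_pos hev']
        _ ≤ ∑ u ∈ Finset.Icc u1 u2, if ev η ζ y u l then 1 else 0 :=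
          Finset.single_le_sum (f := fun u => if ev η ζ y u l then (1 : ℝ≥0∞) else 0)
            (fun _ _ => zero_le) (Finset.mem_Icc.mpr ⟨hu1, hu2⟩)
        _ ≤ _ := Finset.single_le_sum
            (f := fun y => ∑ u ∈ Finset.Icc u1 u2, if ev η ζ y u l then (1 : ℝ≥0∞) else 0)
            (fun _ _ => zero_le) ((mem_bx y).mpr hy)
    · exact zero_le
  calc _ ≤ ∑' η, Pa η * ∑' ζ, Pb ζ * ∑ y ∈ bx d ρ, ∑ u ∈ Finset.Icc u1 u2,
        EvE q.w ((u + 1) * q.N1) (fun l => if ev η ζ y u l then 1 else 0) := by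
        refine ENNReal.tsum_le_tsum fun η => ?_
        gcongr with ζ
        exact h3 η ζ
    _ = ∑ y ∈ bx d ρ, ∑ u ∈ Finset.Icc u1 u2, ∑' η, Pa η * ∑' ζ, Pb ζ *
        EvE q.w ((u + 1) * q.N1) (fun l => if ev η ζ y u l then 1 else 0) := by
        simp_rw [Finset.mul_sum]
        have hs : ∀ {ι β : Type} (s : Finset ι) (F : β → ι → ℝ≥0∞),
            ∑' b, ∑ i ∈ s, F b i = ∑ i ∈ s, ∑' b, F b i := fun s F =>
          Summable.tsum_finsetSum fun _ _ => ENNReal.summable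
        simp_rw [hs, Finset.mul_sum, hs]
    _ ≤ ∑ y ∈ bx d ρ, ∑ u ∈ Finset.Icc u1 u2, ε := by
        refine Finset.sum_le_sum fun y _ => Finset.sum_le_sum fun u hu => ?_
        exact h1 y u (Finset.mem_Icc.mp hu).1
    _ = _ := by
        rw [Finset.sum_const, Finset.sum_const, card_bx, Nat.card_Icc, nsmul_eq_mul, nsmul_eq_mul]
        have e : ((u2 + 1 - u1 : ℕ) : ℝ≥0∞) = (u2 : ℝ≥0∞) - u1 + 1 := by
          rw [← ENNReal.natCast_sub, show u2 + 1 - u1 = (u2 - u1) + 1 by omega]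
          push_cast
          rfl
        rw [e]
        push_cast
        ring

/-- decoupling from the sprinkling estimate -/
theorem both_case (q : Par d m δ) (hd : 0 < d) (φa φb : ℝ) (ha : 0 < φa) (hb : 0 < φb)
    (hKa : 2 * φa ≤ m.g q.K) (hKb : 2 * φb ≤ m.g q.K) (C : ℝ≥0∞) (t N : ℕ)
    (bad : (Tor d q.M → ℕ) → (Tor d q.M → ℕ) → List (Let d q.M (q.K + 1)) → Prop)
    (hC : ∑' η : Tor d q.M → ℕ, prw ((wf m φa ha).m1 q.K) η *
      ∑' ζ : Tor d q.M → ℕ, prw ((wf m φb hb).m1 q.K) ζ * EvE q.w N (fun l =>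
        if bad η ζ l then 1 else 0) ≤ C)
    (A : Ev d q.M q.K) (hA : ∀ η w, A η w ↔ A η (w.take (t * q.N1))) (E : Ev d q.M q.K)
    (h : ∀ η ζ l, l.length = N → ¬ bad η ζ l → E η l → E ζ l) :
    (q.wf φa ha hKa).PP (t * q.N1 + N) (fun η w => A η w ∧ sft q.N1 0 t E η w) ≤
      (q.wf φa ha hKa).PP (t * q.N1) A * (q.wf φb hb hKb).PP N E + C := by
  have h3 := dc_gen (q.wf φa ha hKa) hd t N A hA E
    (fun η w => A η w ∧ sft q.N1 0 t E η w) (fun _ _ => Iff.rfl)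
    (prw ((wf m φb hb).m1 q.K)) (ZI.Rows.tsum_prw (q.wf φb hb hKb).toZI) bad h
  rw [w_wf] at h3
  refine h3.trans (add_le_add (le_of_eq ?_) hC)
  have h4 : (q.wf φb hb hKb).PP N E = ∑' ζ : Tor d q.M → ℕ, prw ((wf m φb hb).m1 q.K) ζ *
      EvE q.w N (fun l => if E ζ l then 1 else 0) := by
    unfold Par.PP Par.EE
    rw [w_wf]
    rfl
  rw [h4]
  rfl

/-- decoupling from the sprinkling estimate, decreasing events -/
theorem dec_case (q : Par d m δ) (hd : 0 < d) (φ1 φ2 : ℝ) (h1 : 0 < φ1) (h2 : 0 < φ2)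
    (hK1 : 2 * φ1 ≤ m.g q.K) (hK2 : 2 * φ2 ≤ m.g q.K) (ε : ℝ≥0∞) (t u1 u2 ρ : ℕ) (h12 : u1 ≤ u2)
    (x : Pos d)
    (hsp : ∀ (v : Tor d q.M) (u : ℕ), u1 ≤ u → ∑' η, prw ((wf m φ2 h2).m1 q.K) η *
      ∑' ζ, prw ((wf m φ1 h1).m1 q.K) ζ * PrE q.toZI.w ((u + 1) * q.N1) (fun w => ∃ i,
        u * q.N1 ≤ i ∧ i ≤ (u + 1) * q.N1 ∧
          (w.take i).foldl ZI.stepA η v < (w.take i).foldl ZI.stepA ζ v) ≤ ε)
    (A : Ev d q.M q.K) (hA : ∀ η w, A η w ↔ A η (w.take (t * q.N1))) (E : Ev d q.M q.K)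
    (hE : DecE q.N1 (Bt (tv x) ρ) u1 u2 E) :
    (q.wf φ2 h2 hK2).PP ((t + u2) * q.N1) (fun η w => A η w ∧ sft q.N1 0 t E η w) ≤
      (q.wf φ2 h2 hK2).PP (t * q.N1) A * (q.wf φ1 h1 hK1).PP (u2 * q.N1) E +
      (2 * ρ + 1) ^ d * (u2 - u1 + 1) * ε := by
  rw [add_mul]
  refine both_case q hd φ2 φ1 h2 h1 hK2 hK1 _ t (u2 * q.N1)
    (fun η ζ l => ∃ v ∈ Bt (tv x) ρ, ∃ i, u1 * q.N1 ≤ i ∧ i ≤ u2 * q.N1 ∧ stt η l i v < stt ζ l i v)
    (bad_bound q hd _ _ ε u1 u2 ρ h12 (tv x) hsp _ fun _ _ _ h => h) A hA E ?_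
  intro η ζ l hl hb hEη
  refine hE ζ l η l ⟨hl.ge, hl.ge, ?_, fun i _ _ => rfl⟩ hEη
  intro i hi1 hi2 v hv
  by_contra hlt
  exact hb ⟨v, hv, i, hi1, hi2, not_le.mp hlt⟩

/-- decoupling from the sprinkling estimate, increasing events -/
theorem inc_case (q : Par d m δ) (hd : 0 < d) (φ1 φ2 : ℝ) (h1 : 0 < φ1) (h2 : 0 < φ2)
    (hK1 : 2 * φ1 ≤ m.g q.K) (hK2 : 2 * φ2 ≤ m.g q.K) (ε : ℝ≥0∞) (t u1 u2 ρ : ℕ) (h12 : u1 ≤ u2)
    (x : Pos d)
    (hsp : ∀ (v : Tor d q.M) (u : ℕ), u1 ≤ u → ∑' η, prw ((wf m φ2 h2).m1 q.K) η *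
      ∑' ζ, prw ((wf m φ1 h1).m1 q.K) ζ * PrE q.toZI.w ((u + 1) * q.N1) (fun w => ∃ i,
        u * q.N1 ≤ i ∧ i ≤ (u + 1) * q.N1 ∧
          (w.take i).foldl ZI.stepA η v < (w.take i).foldl ZI.stepA ζ v) ≤ ε)
    (A : Ev d q.M q.K) (hA : ∀ η w, A η w ↔ A η (w.take (t * q.N1))) (E : Ev d q.M q.K)
    (hE : IncE q.N1 (Bt (tv x) ρ) u1 u2 E) :
    (q.wf φ1 h1 hK1).PP ((t + u2) * q.N1) (fun η w => A η w ∧ sft q.N1 0 t E η w) ≤
      (q.wf φ1 h1 hK1).PP (t * q.N1) A * (q.wf φ2 h2 hK2).PP (u2 * q.N1) E +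
      (2 * ρ + 1) ^ d * (u2 - u1 + 1) * ε := by
  rw [add_mul]
  refine both_case q hd φ1 φ2 h1 h2 hK1 hK2 _ t (u2 * q.N1)
    (fun η ζ l => ∃ v ∈ Bt (tv x) ρ, ∃ i, u1 * q.N1 ≤ i ∧ i ≤ u2 * q.N1 ∧ stt ζ l i v < stt η l i v)
    ?_ A hA E ?_
  · refine le_trans (le_of_eq ?_) (bad_bound q hd _ _ ε u1 u2 ρ h12 (tv x) hsp
      (fun η ζ l => ∃ v ∈ Bt (tv x) ρ, ∃ i, u1 * q.N1 ≤ i ∧ i ≤ u2 * q.N1 ∧ stt η l i v < stt ζ l i v)
      fun _ _ _ h => h)
    simp_rw [← ENNReal.tsum_mul_left]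
    rw [ENNReal.tsum_comm]
    refine tsum_congr fun η => tsum_congr fun ζ => ?_
    exact mul_left_comm _ _ _
  intro η ζ l hl hb hEη
  refine hE η l ζ l ⟨hl.ge, hl.ge, ?_, fun i _ _ => rfl⟩ hEη
  intro i hi1 hi2 v hv
  by_contra hlt
  exact hb ⟨v, hv, i, hi1, hi2, not_le.mp hlt⟩

end ZP.DC
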