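import Pool.Agent.ZI.Defs

/-!
# Zero-range process with infection and recovery: basic definitions

Everything that does not depend on the dynamics is taken over from `ZI`.

Labels are triples `(x, j, e)`: site, mark, direction.
* mark `j = k + 1`: a jump label of level `k`, effective iff `k < η x`, then one particle jumps from `x` to `nb x e`.
* mark `j = 0`: a recovery label of the site `x` (the direction plays no role): if exactly one particle is at `x`
  and it is infected, it recovers.  The configuration does not change.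
-/

set_option autoImplicit false

open scoped ENNReal BigOperators Classical

noncomputable section

namespace ZP

export ZI (Pos Dir dv Lab EvE PrE Tor tv nbT Let toLab units Model prw)

variable {d : ℕ} {V : Type}

/-- the configuration after a ring -/
def mv (nb : V → Dir d → Option V) (η : V → ℕ) (l : Lab V d) : V → ℕ :=
  match l.2.1 with
  | 0 => η
  | k + 1 => ZI.mv nb η (l.1, k, l.2.2)

/-- the set of infected positions after a ring; `pr` is the projection of the positions to the sites -/
def infMv (nb : V → Dir d → Option V) (pr : Pos d → V) (η : V → ℕ) (A : Set (Pos d))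
    (l : Lab V d) : Set (Pos d) :=
  match l.2.1 with
  | 0 => {z | z ∈ A ∧ (pr z = l.1 → 2 ≤ η l.1)}
  | k + 1 => ZI.infMv nb pr η A (l.1, k, l.2.2)

/-- one ring for the pair (configuration, infected set), infection restricted to the region `G` -/
def stepR (nb : V → Dir d → Option V) (pr : Pos d → V) (G : Set (Pos d))
    (s : (V → ℕ) × Set (Pos d)) (l : Lab V d) : (V → ℕ) × Set (Pos d) :=
  (mv nb s.1 l, infMv nb pr s.1 s.2 l ∩ G)

/-- the configuration at the integer time `t` -/
def cfg (nb : V → Dir d → Option V) (η0 : V → ℕ) (U : ℕ → List (Lab V d)) : ℕ → (V → ℕ)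
  | 0 => η0
  | t + 1 => (U t).foldl (mv nb) (cfg nb η0 U t)

/-- the infected set at the time `s + j`, for the infection started from `A` at the time `s` and
restricted to the region `G t` during `(t, t + 1]` -/
def inf (nb : V → Dir d → Option V) (pr : Pos d → V) (η0 : V → ℕ) (U : ℕ → List (Lab V d))
    (G : ℕ → Set (Pos d)) (s : ℕ) (A : Set (Pos d)) : ℕ → Set (Pos d)
  | 0 => {z | z ∈ A ∧ z ∈ G s ∧ 0 < cfg nb η0 U s (pr z)}
  | j + 1 => ((U (s + j)).foldl (stepR nb pr (G (s + j)))
      (cfg nb η0 U (s + j), inf nb pr η0 U G s A j ∩ G (s + j))).2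

/-- the sites visited by the infection during the interval `(s + j, s + j + 1]` (and at its start) -/
def visU (nb : V → Dir d → Option V) (pr : Pos d → V) (η0 : V → ℕ) (U : ℕ → List (Lab V d))
    (G : ℕ → Set (Pos d)) (s : ℕ) (A : Set (Pos d)) (j : ℕ) : Set (Pos d) :=
  {z | ∃ i ≤ (U (s + j)).length, z ∈ (((U (s + j)).take i).foldl (stepR nb pr (G (s + j)))
      (cfg nb η0 U (s + j), inf nb pr η0 U G s A j ∩ G (s + j))).2}

/-- rate of the labels `(x, j, e)` with recovery rate `δ`: the `2 d` recovery labels of a site have the total rate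
`δ`, the jump label of level `k` has the rate `(g (k + 1) - g k) / (2 d)` -/
def lamR (m : Model) (δ : ℝ) (d : ℕ) (j : ℕ) : ℝ :=
  match j with
  | 0 => δ / (2 * d)
  | k + 1 => m.lam d k

/-- the parameters of the torus chain with recovery: side `M`, level cap `K`, `N1` letters per unit of time, a label
with the mark `j` has probability `lamR j * p` in each step -/
structure Par (d : ℕ) (m : Model) (δ : ℝ) where
  M : ℕ
  K : ℕ
  N1 : ℕ
  p : ℝ
  δ_nn : 0 ≤ δ
  M_ge : 5 ≤ M
  K_ge : 2 ≤ K
  K_big : 2 * m.φ ≤ m.g K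
  N1_pos : 0 < N1
  p_pos : 0 < p
  p_lb : 1 / 2 ≤ N1 * p
  p_ub : N1 * p ≤ 1
  p_small : 8 * m.Gp * p ≤ 1
  p_tot : (M : ℝ) ^ d * (m.g K + δ) * p ≤ 1

namespace Par

variable {m : Model} {δ : ℝ} (q : Par d m δ)

/-- weights of the letters; the marks are `0` (recovery) and `k + 1` with `k < K` -/
def w (a : Let d q.M (q.K + 1)) : ℝ≥0∞ :=
  match a with
  | none => 1 - ENNReal.ofReal ((q.M : ℝ) ^ d * (m.g q.K + δ) * q.p)
  | some l => ENNReal.ofReal (lamR m δ d l.2.1 * q.p)

instance : NeZero q.M := ⟨by have := q.M_ge; omega⟩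

/-- expectation for the stationary torus chain over `N` letters -/
def EE (N : ℕ) (F : (Tor d q.M → ℕ) → List (Let d q.M (q.K + 1)) → ℝ≥0∞) : ℝ≥0∞ :=
  ∑' η : Tor d q.M → ℕ, prw (m.m1 q.K) η * EvE q.w N (F η)

/-- probability for the stationary torus chain -/
def PP (N : ℕ) (E : (Tor d q.M → ℕ) → List (Let d q.M (q.K + 1)) → Prop) : ℝ≥0∞ :=
  q.EE N (fun η l => if E η l then 1 else 0)

/-- the chain without recovery -/
def toZI : ZI.Par d m where
  M := q.M
  K := q.K
  N1 := q.N1
  p := q.p
  M_ge := q.M_ge
  K_ge := q.K_ge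
  K_big := q.K_big
  N1_pos := q.N1_pos
  p_pos := q.p_pos
  p_lb := q.p_lb
  p_ub := q.p_ub
  p_small := q.p_small
  p_tot := by
    refine le_trans ?_ q.p_tot
    have h1 : (0 : ℝ) ≤ (q.M : ℝ) ^ d := by positivity
    have h2 := q.p_pos.le
    have h3 := q.δ_nn
    exact mul_le_mul_of_nonneg_right (mul_le_mul_of_nonneg_left (by linarith) h1) h2

end Par

/-- a letter as a letter of the chain without recovery -/
def prj {d M K : ℕ} (a : Let d M (K + 1)) : Let d M K :=
  match a with
  | none => none
  | some (_, ⟨0, _⟩, _) => none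
  | some (x, ⟨k + 1, h⟩, e) => some (x, ⟨k, Nat.lt_of_succ_lt_succ h⟩, e)

end ZP
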