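import Pool.Agent.ZP.E1
import Pool.Agent.ZI.E2

/-! # Row E2: paths with marks that agree in a region give infections that agree; port of ZI/E2 -/

set_option autoImplicit false

open scoped ENNReal BigOperators Classical

noncomputable section

namespace ZP.E2

open ZP

variable {d : ℕ}

/-- the mark of a label -/
def mkL {M : ℕ} (b : Lab (Tor d M) d) : Option (Tor d M) := if b.2.1 = 0 then some b.1 else none

theorem mark_eq {M K : ℕ} (a : Let d M K) (b : Lab (Tor d M) d) (h : toLab a = some b) :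
    mark a = mkL b := by
  unfold mark mkL
  rw [h]

/-- the infected set after one step, as a function of the mark and of the two consecutive configurations -/
def nu {M : ℕ} (o : Option (Tor d M)) (η η1 : Tor d M → ℕ) (A : Set (Pos d)) : Set (Pos d) :=
  {z | z ∈ ZI.E2.nu η η1 A ∧ (o = some (tv z) → 2 ≤ η (tv z))}

theorem nu_self {M : ℕ} (η : Tor d M → ℕ) (A : Set (Pos d)) : nu none η η A = A := by
  ext z
  unfold nu
  rw [ZI.E2.nu_self]
  constructor
  · exact fun h => h.1
  · exact fun h => ⟨h, fun h1 => by cases h1⟩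

/-- the infection moves as a function of the configurations and the mark -/
theorem infMv_eq_nu {M : ℕ} (hM : 3 ≤ M) (η : Tor d M → ℕ) (A : Set (Pos d))
    (b : Lab (Tor d M) d) : infMv nbT tv η A b = nu (mkL b) η (mv nbT η b) A := by
  obtain ⟨x, j, e⟩ := b
  cases j with
  | zero =>
    ext z
    show (z ∈ A ∧ (tv z = x → 2 ≤ η x)) ↔ (z ∈ ZI.E2.nu η η A ∧ ((some x : Option (Tor d M)) = some (tv z) → 2 ≤ η (tv z)))
    rw [ZI.E2.nu_self]
    refine and_congr_right fun _ => ?_
    constructor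
    · intro h h1
      have h2 : x = tv z := Option.some.inj h1
      rw [← h2]
      exact h h2.symm
    · intro h h1
      rw [← h1]
      exact h (by rw [h1])
  | succ k =>
    ext z
    show z ∈ ZI.infMv nbT tv η A (x, k, e) ↔ (z ∈ ZI.E2.nu η (ZI.mv nbT η (x, k, e)) A ∧
      ((none : Option (Tor d M)) = some (tv z) → 2 ≤ η (tv z)))
    rw [ZI.E2.infMv_eq_nu hM]
    constructor
    · exact fun h => ⟨h, fun h1 => by cases h1⟩
    · exact fun h => h.1

/-- the positions near `y` -/
def Nb (y z : Pos d) : Prop := z = y ∨ ∃ e : Dir d, z = y + dv e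

theorem nu_sub {M : ℕ} {o o' : Option (Tor d M)} {η η1 η' η1' : Tor d M → ℕ} {A Γ : Set (Pos d)}
    (hA : A ⊆ Γ)
    (h0 : ∀ y ∈ Γ, ∀ z : Pos d, (z = y ∨ ∃ e : Dir d, z = y + dv e) → η (tv z) = η' (tv z))
    (h1 : ∀ y ∈ Γ, ∀ z : Pos d, (z = y ∨ ∃ e : Dir d, z = y + dv e) → η1 (tv z) = η1' (tv z))
    (h2 : ∀ y ∈ Γ, ∀ z : Pos d, (z = y ∨ ∃ e : Dir d, z = y + dv e) →
      (o' = some (tv z) → o = some (tv z))) :
    nu o η η1 A ⊆ nu o' η' η1' A := by
  rintro z ⟨hz, ho⟩
  refine ⟨ZI.E2.nu_sub hA h0 h1 hz, ?_⟩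
  have hy : ∃ y ∈ Γ, z = y ∨ ∃ e : Dir d, z = y + dv e := by
    rcases hz with ⟨hz, -⟩ | ⟨e, hz, -, -⟩
    · exact ⟨z, hA hz, Or.inl rfl⟩
    · exact ⟨_, hA hz, Or.inr ⟨e, (sub_add_cancel z _).symm⟩⟩
  obtain ⟨y, hy, hyz⟩ := hy
  intro h
  rw [← h0 y hy z hyz]
  exact ho (h2 y hy z hyz h)

theorem nu_congr {M : ℕ} {o o' : Option (Tor d M)} {η η1 η' η1' : Tor d M → ℕ} {A Γ : Set (Pos d)}
    (hA : A ⊆ Γ)
    (h0 : ∀ y ∈ Γ, ∀ z : Pos d, (z = y ∨ ∃ e : Dir d, z = y + dv e) → η (tv z) = η' (tv z))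
    (h1 : ∀ y ∈ Γ, ∀ z : Pos d, (z = y ∨ ∃ e : Dir d, z = y + dv e) → η1 (tv z) = η1' (tv z))
    (h2 : ∀ y ∈ Γ, ∀ z : Pos d, (z = y ∨ ∃ e : Dir d, z = y + dv e) →
      (o = some (tv z) ↔ o' = some (tv z))) :
    nu o η η1 A = nu o' η' η1' A :=
  Set.Subset.antisymm (nu_sub hA h0 h1 fun y hy z hz => (h2 y hy z hz).2)
    (nu_sub hA (fun y hy z hz => (h0 y hy z hz).symm) (fun y hy z hz => (h1 y hy z hz).symm)
      fun y hy z hz => (h2 y hy z hz).1)

/-- one letter for the restricted infection -/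
def stG {M K : ℕ} (G : Set (Pos d)) (s : (Tor d M → ℕ) × Set (Pos d)) (a : Let d M K) :
    (Tor d M → ℕ) × Set (Pos d) :=
  (stepA s.1 a, nu (mark a) s.1 (stepA s.1 a) s.2 ∩ G)

theorem stG_foldl_fst {M K : ℕ} (G : Set (Pos d)) (L : List (Let d M K)) :
    ∀ s : (Tor d M → ℕ) × Set (Pos d), (L.foldl (stG G) s).1 = L.foldl stepA s.1 := by
  induction L with
  | nil => exact fun _ => rfl
  | cons a L ih => exact fun s => ih _

theorem stG_foldl_sub {M K : ℕ} (G : Set (Pos d)) (L : List (Let d M K)) :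
    ∀ s : (Tor d M → ℕ) × Set (Pos d), s.2 ⊆ G → (L.foldl (stG G) s).2 ⊆ G := by
  induction L with
  | nil => exact fun _ h => h
  | cons a L ih => exact fun s _ => ih _ Set.inter_subset_right

theorem fold_filterMap {M K : ℕ} (hM : 3 ≤ M) (G : Set (Pos d)) (L : List (Let d M K)) :
    ∀ s : (Tor d M → ℕ) × Set (Pos d), s.2 ⊆ G →
      (L.filterMap toLab).foldl (stepR nbT tv G) s = L.foldl (stG G) s := by
  induction L with
  | nil => exact fun s _ => rfl
  | cons a L ih =>
    intro s hs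
    cases h : toLab a with
    | none =>
      have h1 : stG G s a = s := by
        have h2 : stepA s.1 a = s.1 := by
          unfold stepA
          rw [h]
        have h3 : mark a = none := by
          unfold mark
          rw [h]
        refine Prod.ext h2 ?_
        change nu (mark a) s.1 (stepA s.1 a) s.2 ∩ G = s.2
        rw [h2, h3, nu_self]
        exact Set.inter_eq_left.2 hs
      rw [List.filterMap_cons_none h, List.foldl_cons, h1]
      exact ih s hs
    | some b =>
      have h1 : stG G s a = stepR nbT tv G s b := by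
        have h2 : stepA s.1 a = mv nbT s.1 b := by
          unfold stepA
          rw [h]
        refine Prod.ext h2 ?_
        change nu (mark a) s.1 (stepA s.1 a) s.2 ∩ G = infMv nbT tv s.1 s.2 b ∩ G
        rw [h2, infMv_eq_nu hM, mark_eq a b h]
      rw [List.filterMap_cons_some h, List.foldl_cons, List.foldl_cons, h1]
      exact ih _ Set.inter_subset_right

/-- two words whose configurations and marks agree near the region give the same infected sets in it -/
theorem fold_agree {M K : ℕ} (G Γ : Set (Pos d)) (η η' : Tor d M → ℕ) (A : Set (Pos d))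
    (L L' : List (Let d M K)) (hlen : L.length = L'.length)
    (hag : ∀ i ≤ L.length, ∀ y ∈ Γ, ∀ z : Pos d, (z = y ∨ ∃ e : Dir d, z = y + dv e) →
      (L.take i).foldl stepA η (tv z) = (L'.take i).foldl stepA η' (tv z))
    (hmk : ∀ i < L.length, ∀ y ∈ Γ, ∀ z : Pos d, (z = y ∨ ∃ e : Dir d, z = y + dv e) →
      ((L.map mark).getD i none = some (tv z) ↔ (L'.map mark).getD i none = some (tv z)))
    (hsub : ∀ i ≤ L.length, ((L.take i).foldl (stG G) (η, A)).2 ⊆ Γ) :
    ∀ i ≤ L.length, ((L.take i).foldl (stG G) (η, A)).2 = ((L'.take i).foldl (stG G) (η', A)).2 := by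
  intro i
  induction i with
  | zero =>
    intro _
    rw [List.take_zero, List.take_zero]
    rfl
  | succ i ih =>
    intro hi
    have hi1 : i < L.length := by omega
    have hi2 : i < L'.length := by omega
    have e1 : L.take (i + 1) = L.take i ++ [L[i]] := (List.take_append_getElem hi1).symm
    have e2 : L'.take (i + 1) = L'.take i ++ [L'[i]] := (List.take_append_getElem hi2).symm
    have ih' := ih (by omega)
    have f1 : (L.take (i + 1)).foldl stepA η = stepA ((L.take i).foldl stepA η) L[i] := by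
      rw [e1, List.foldl_append]
      rfl
    have f2 : (L'.take (i + 1)).foldl stepA η' = stepA ((L'.take i).foldl stepA η') L'[i] := by
      rw [e2, List.foldl_append]
      rfl
    have m1 : (L.map mark).getD i none = mark L[i] := by
      rw [List.getD_eq_getElem _ _ (by rw [List.length_map]; exact hi1), List.getElem_map]
    have m2 : (L'.map mark).getD i none = mark L'[i] := by
      rw [List.getD_eq_getElem _ _ (by rw [List.length_map]; exact hi2), List.getElem_map]
    have hmk' := hmk i hi1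
    rw [m1, m2] at hmk'
    rw [e1, e2, List.foldl_append, List.foldl_append]
    change nu (mark L[i]) ((L.take i).foldl (stG G) (η, A)).1
        (stepA ((L.take i).foldl (stG G) (η, A)).1 L[i]) ((L.take i).foldl (stG G) (η, A)).2 ∩ G =
      nu (mark L'[i]) ((L'.take i).foldl (stG G) (η', A)).1
        (stepA ((L'.take i).foldl (stG G) (η', A)).1 L'[i])
        ((L'.take i).foldl (stG G) (η', A)).2 ∩ G
    rw [stG_foldl_fst, stG_foldl_fst, ← ih', ← f1, ← f2,
      nu_congr (hsub i (by omega)) (hag i (by omega)) (hag (i + 1) hi) hmk']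

/-! ### paths -/

theorem path_length {M K : ℕ} (l : List (Let d M K)) :
    ∀ η : Tor d M → ℕ, (path η l).length = l.length + 1 := by
  induction l with
  | nil => exact fun _ => rfl
  | cons a l ih =>
    intro η
    change (path (stepA η a) l).length + 1 = _
    rw [ih]
    rfl

theorem path_getD {M K : ℕ} (l : List (Let d M K)) :
    ∀ (η : Tor d M → ℕ) (i : ℕ), i ≤ l.length → ∀ c,
      (path η l).getD i c = (l.take i).foldl stepA η := by
  induction l with
  | nil =>
    intro η i hi c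
    have h0 : i = 0 := by simpa using hi
    subst h0
    rfl
  | cons a l ih =>
    intro η i hi c
    cases i with
    | zero => rfl
    | succ i =>
      change (path (stepA η a) l).getD i c = _
      rw [ih _ i (by simpa using hi)]
      rfl

variable {m : Model} {δ : ℝ} (q : Par d m δ)

/-- segment of a word for the unit `t` -/
def seg (w : List (Let d q.M (q.K + 1))) (t : ℕ) : List (Let d q.M (q.K + 1)) := (w.drop (t * q.N1)).take q.N1

theorem units_eq (w : List (Let d q.M (q.K + 1))) (t : ℕ) :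
    units q.N1 w t = (seg q w t).filterMap toLab := rfl

theorem take_succ_seg (w : List (Let d q.M (q.K + 1))) (t : ℕ) :
    w.take ((t + 1) * q.N1) = w.take (t * q.N1) ++ seg q w t := by
  unfold seg
  rw [Nat.succ_mul, List.take_add]

theorem take_seg (w : List (Let d q.M (q.K + 1))) (t i : ℕ) (hi : i ≤ q.N1) :
    w.take (t * q.N1 + i) = w.take (t * q.N1) ++ (seg q w t).take i := by
  unfold seg
  rw [List.take_add, List.take_take, min_eq_left hi]

theorem cfg_eq (w : List (Let d q.M (q.K + 1))) (η : Tor d q.M → ℕ) (t : ℕ) :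
    cfg nbT η (units q.N1 w) t = (w.take (t * q.N1)).foldl stepA η := by
  induction t with
  | zero =>
    rw [Nat.zero_mul, List.take_zero]
    rfl
  | succ t ih =>
    change (units q.N1 w t).foldl (mv nbT) (cfg nbT η (units q.N1 w) t) = _
    rw [ih, units_eq, ZP.E1.foldl_filterMap_mv, take_succ_seg, List.foldl_append]

theorem seg_length (w : List (Let d q.M (q.K + 1))) (t : ℕ) (h : (t + 1) * q.N1 ≤ w.length) :
    (seg q w t).length = q.N1 := by
  unfold seg
  rw [List.length_take, List.length_drop]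
  have : (t + 1) * q.N1 = t * q.N1 + q.N1 := Nat.succ_mul _ _
  omega

theorem seg_getD (w : List (Let d q.M (q.K + 1))) (t i : ℕ) (hi : i < q.N1) :
    ((seg q w t).map mark).getD i none = (w.map mark).getD (t * q.N1 + i) none := by
  unfold seg
  rw [List.map_take, List.map_drop, List.getD_eq_getElem?_getD, List.getD_eq_getElem?_getD,
    List.getElem?_take_of_lt hi, List.getElem?_drop]

theorem inf_succ (w : List (Let d q.M (q.K + 1))) (η : Tor d q.M → ℕ) (G : ℕ → Set (Pos d)) (s : ℕ)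
    (A : Set (Pos d)) (j : ℕ) :
    inf nbT tv η (units q.N1 w) G s A (j + 1) =
      ((seg q w (s + j)).foldl (stG (G (s + j))) ((w.take ((s + j) * q.N1)).foldl stepA η,
        inf nbT tv η (units q.N1 w) G s A j ∩ G (s + j))).2 := by
  have hM := q.M_ge
  change ((units q.N1 w (s + j)).foldl (stepR nbT tv (G (s + j)))
    (cfg nbT η (units q.N1 w) (s + j), inf nbT tv η (units q.N1 w) G s A j ∩ G (s + j))).2 = _
  rw [units_eq, cfg_eq, fold_filterMap (by omega) _ _ _ Set.inter_subset_right]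

theorem visU_eq (w : List (Let d q.M (q.K + 1))) (η : Tor d q.M → ℕ) (G : ℕ → Set (Pos d)) (s : ℕ)
    (A : Set (Pos d)) (j : ℕ) :
    visU nbT tv η (units q.N1 w) G s A j =
      {z | ∃ i ≤ (seg q w (s + j)).length, z ∈ (((seg q w (s + j)).take i).foldl (stG (G (s + j)))
        ((w.take ((s + j) * q.N1)).foldl stepA η,
        inf nbT tv η (units q.N1 w) G s A j ∩ G (s + j))).2} := by
  have hM := q.M_ge
  unfold visU
  rw [cfg_eq]
  ext z
  simp only [Set.mem_ofPred_eq]
  constructor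
  · rintro ⟨i, hi, hz⟩
    rw [units_eq] at hi hz
    obtain ⟨i', h1, h2⟩ := ZI.E2.take_filterMap toLab _ i hi
    refine ⟨i', h1, ?_⟩
    rw [h2, fold_filterMap (by omega) _ _ _ Set.inter_subset_right] at hz
    exact hz
  · rintro ⟨i, hi, hz⟩
    obtain ⟨k, h1, h2⟩ := ZI.E2.filterMap_take toLab (seg q w (s + j)) i
    refine ⟨k, h1, ?_⟩
    rw [units_eq, h2, fold_filterMap (by omega) _ _ _ Set.inter_subset_right]
    exact hz

/-- the general comparison for two words -/
theorem core (w w' : List (Let d q.M (q.K + 1))) (η η' : Tor d q.M → ℕ) (T : ℕ)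
    (hw : T * q.N1 ≤ w.length) (hw' : T * q.N1 ≤ w'.length) (Γ : ℕ → Set (Pos d))
    (hag : ∀ t ≤ T, ∀ i, t * q.N1 ≤ i → i ≤ (t + 1) * q.N1 → i ≤ T * q.N1 → ∀ y ∈ Γ t,
      ∀ z : Pos d, (z = y ∨ ∃ e : Dir d, z = y + dv e) →
      (w.take i).foldl stepA η (tv z) = (w'.take i).foldl stepA η' (tv z))
    (hmk : ∀ t ≤ T, ∀ i, t * q.N1 ≤ i → i ≤ (t + 1) * q.N1 → i ≤ T * q.N1 → ∀ y ∈ Γ t,
      ∀ z : Pos d, (z = y ∨ ∃ e : Dir d, z = y + dv e) →
      ((w.map mark).getD i none = some (tv z) ↔ (w'.map mark).getD i none = some (tv z)))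
    (G : ℕ → Set (Pos d)) (s : ℕ) (x : Pos d) (h0 : s ≤ T → x ∈ G s → x ∈ Γ s)
    (hsub : ∀ j, s + j < T → visU nbT tv η (units q.N1 w) G s {x} j ⊆ Γ (s + j)) :
    ∀ j, s + j ≤ T →
      inf nbT tv η (units q.N1 w) G s {x} j = inf nbT tv η' (units q.N1 w') G s {x} j ∧
      (s + j < T → visU nbT tv η (units q.N1 w) G s {x} j =
        visU nbT tv η' (units q.N1 w') G s {x} j) := by
  have hN : 0 < q.N1 := q.N1_pos
  have key : ∀ j, s + j < T →
      inf nbT tv η (units q.N1 w) G s {x} j = inf nbT tv η' (units q.N1 w') G s {x} j →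
      ∀ i ≤ q.N1, (((seg q w (s + j)).take i).foldl (stG (G (s + j)))
        ((w.take ((s + j) * q.N1)).foldl stepA η,
        inf nbT tv η (units q.N1 w) G s {x} j ∩ G (s + j))).2 =
        (((seg q w' (s + j)).take i).foldl (stG (G (s + j)))
        ((w'.take ((s + j) * q.N1)).foldl stepA η',
        inf nbT tv η' (units q.N1 w') G s {x} j ∩ G (s + j))).2 := by
    intro j hj hinf
    have hmul : (s + j + 1) * q.N1 ≤ T * q.N1 := Nat.mul_le_mul_right _ hj
    have hexp : (s + j + 1) * q.N1 = (s + j) * q.N1 + q.N1 := Nat.succ_mul _ _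
    have l1 : (seg q w (s + j)).length = q.N1 := seg_length q w _ (hmul.trans hw)
    have l2 : (seg q w' (s + j)).length = q.N1 := seg_length q w' _ (hmul.trans hw')
    intro i0 hi0
    rw [← hinf]
    refine fold_agree (G (s + j)) (Γ (s + j)) _ _ _ _ _ (by rw [l1, l2]) ?_ ?_ ?_ i0
      (by rw [l1]; exact hi0)
    · intro i hi y hy z hz
      rw [l1] at hi
      rw [← List.foldl_append, ← List.foldl_append, ← take_seg q w _ i hi,
        ← take_seg q w' _ i hi]
      exact hag (s + j) hj.le _ (by omega) (by omega) (by omega) y hy z hz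
    · intro i hi y hy z hz
      rw [l1] at hi
      rw [seg_getD q w _ _ hi, seg_getD q w' _ _ hi]
      exact hmk (s + j) hj.le _ (by omega) (by omega) (by omega) y hy z hz
    · intro i hi z hz
      apply hsub j hj
      rw [visU_eq]
      exact ⟨i, hi, hz⟩
  have hinf : ∀ j, s + j ≤ T →
      inf nbT tv η (units q.N1 w) G s {x} j = inf nbT tv η' (units q.N1 w') G s {x} j := by
    intro j
    induction j with
    | zero =>
      intro hs
      rw [Nat.add_zero] at hs
      ext z
      change (z ∈ ({x} : Set (Pos d)) ∧ z ∈ G s ∧ 0 < cfg nbT η (units q.N1 w) s (tv z)) ↔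
        (z ∈ ({x} : Set (Pos d)) ∧ z ∈ G s ∧ 0 < cfg nbT η' (units q.N1 w') s (tv z))
      refine and_congr_right fun hz => and_congr_right fun hG => ?_
      rw [Set.mem_singleton_iff] at hz
      subst hz
      have h1 : s * q.N1 ≤ T * q.N1 := Nat.mul_le_mul_right _ hs
      have h2 : (s + 1) * q.N1 = s * q.N1 + q.N1 := Nat.succ_mul _ _
      rw [cfg_eq, cfg_eq, hag s hs (s * q.N1) le_rfl (by omega) h1 z (h0 hs hG) z (Or.inl rfl)]
    | succ j ih =>
      intro hj
      have hj' : s + j < T := by omega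
      have hmul : (s + j + 1) * q.N1 ≤ T * q.N1 := Nat.mul_le_mul_right _ hj'
      have l1 : (seg q w (s + j)).length = q.N1 := seg_length q w _ (hmul.trans hw)
      have l2 : (seg q w' (s + j)).length = q.N1 := seg_length q w' _ (hmul.trans hw')
      have hk := key j hj' (ih hj'.le) q.N1 le_rfl
      have t1 : (seg q w (s + j)).take q.N1 = seg q w (s + j) := List.take_of_length_le l1.le
      have t2 : (seg q w' (s + j)).take q.N1 = seg q w' (s + j) := List.take_of_length_le l2.le
      rw [t1, t2] at hk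
      rw [inf_succ, inf_succ]
      exact hk
  intro j hj
  refine ⟨hinf j hj, fun hj' => ?_⟩
  have hmul : (s + j + 1) * q.N1 ≤ T * q.N1 := Nat.mul_le_mul_right _ hj'
  have l1 : (seg q w (s + j)).length = q.N1 := seg_length q w _ (hmul.trans hw)
  have l2 : (seg q w' (s + j)).length = q.N1 := seg_length q w' _ (hmul.trans hw')
  have hk := key j hj' (hinf j hj)
  rw [visU_eq, visU_eq]
  ext z
  simp only [Set.mem_ofPred_eq, l1, l2]
  constructor
  · rintro ⟨i, hi, hz⟩
    exact ⟨i, hi, by rwa [← hk i hi]⟩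
  · rintro ⟨i, hi, hz⟩
    exact ⟨i, hi, by rwa [hk i hi]⟩

theorem visU_sub (w : List (Let d q.M (q.K + 1))) (η : Tor d q.M → ℕ) (G : ℕ → Set (Pos d)) (s : ℕ)
    (A : Set (Pos d)) (j : ℕ) : visU nbT tv η (units q.N1 w) G s A j ⊆ G (s + j) := by
  rw [visU_eq]
  rintro z ⟨i, -, hz⟩
  exact stG_foldl_sub _ _ _ Set.inter_subset_right hz

end ZP.E2

namespace ZP.Rows

open ZP ZP.E2

variable {d : ℕ} {m : Model} {δ : ℝ}

/-! ## E2: paths that agree in a region give infections that agree -/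

/-- the statement for words -/
theorem agree_words (q : Par d m δ) (w w' : List (Let d q.M (q.K + 1))) (η η' : Tor d q.M → ℕ) (T : ℕ)
    (hw : T * q.N1 ≤ w.length) (hw' : T * q.N1 ≤ w'.length) (Γ : ℕ → Set (Pos d))
    (hag : ∀ t ≤ T, ∀ i, t * q.N1 ≤ i → i ≤ (t + 1) * q.N1 → i ≤ T * q.N1 → ∀ y ∈ Γ t,
      ∀ z : Pos d, (z = y ∨ ∃ e : Dir d, z = y + dv e) →
      (w.take i).foldl stepA η (tv z) = (w'.take i).foldl stepA η' (tv z))
    (hmk : ∀ t ≤ T, ∀ i, t * q.N1 ≤ i → i ≤ (t + 1) * q.N1 → i ≤ T * q.N1 → ∀ y ∈ Γ t,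
      ∀ z : Pos d, (z = y ∨ ∃ e : Dir d, z = y + dv e) →
      ((w.map mark).getD i none = some (tv z) ↔ (w'.map mark).getD i none = some (tv z))) :
    AgreeW (envT q η w) (envT q η' w') Γ T := by
  have hN : 0 < q.N1 := q.N1_pos
  have hc := fun G s x h0 hsub => core q w w' η η' T hw hw' Γ hag hmk G s x h0 hsub
  refine ⟨?_, ?_⟩
  · intro t ht x hx
    change 0 < cfg nbT η (units q.N1 w) t (tv x) ↔ 0 < cfg nbT η' (units q.N1 w') t (tv x)
    have h1 : t * q.N1 ≤ T * q.N1 := Nat.mul_le_mul_right _ ht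
    have h2 : (t + 1) * q.N1 = t * q.N1 + q.N1 := Nat.succ_mul _ _
    rw [cfg_eq, cfg_eq, hag t ht (t * q.N1) le_rfl (by omega) h1 x hx x (Or.inl rfl)]
  · intro G hG s t x y ht
    have h0 : s ≤ T → x ∈ G s → x ∈ Γ s := fun hs hx => hG s hs hx
    have hsub : ∀ j, s + j < T → visU nbT tv η (units q.N1 w) G s {x} j ⊆ Γ (s + j) := fun j hj =>
      (visU_sub q _ _ G s {x} j).trans (hG (s + j) hj.le)
    constructor
    · rintro ⟨j, hj, hy⟩
      refine ⟨j, hj, ?_⟩
      have h1 := (hc G s x h0 hsub j (by omega)).1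
      change y ∈ inf nbT tv η (units q.N1 w) G s {x} j at hy
      change y ∈ inf nbT tv η' (units q.N1 w') G s {x} j
      rwa [← h1]
    · rintro ⟨j, hj, hy⟩
      refine ⟨j, hj, ?_⟩
      have h1 := (hc G s x h0 hsub j (by omega)).1
      change y ∈ inf nbT tv η' (units q.N1 w') G s {x} j at hy
      change y ∈ inf nbT tv η (units q.N1 w) G s {x} j
      rwa [h1]

theorem agree_paths (hd : 0 < d) (q : Par d m δ) (p p' : List (Tor d q.M → ℕ))
    (o o' : List (Option (Tor d q.M))) (hp : IsPath q p o) (hp' : IsPath q p' o')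
    (hlen : p.length = p'.length) (T : ℕ) (hT : T * q.N1 < p.length) (Γ : ℕ → Set (Pos d))
    (hΓ : ∀ t ≤ T, ∀ i, t * q.N1 ≤ i → i ≤ (t + 1) * q.N1 → i ≤ T * q.N1 → ∀ y ∈ Γ t, ∀ z : Pos d,
      (z = y ∨ ∃ e : Dir d, z = y + dv e) →
      (p.getD i (fun _ => 0)) (tv z) = (p'.getD i (fun _ => 0)) (tv z) ∧
      (o.getD i none = some (tv z) ↔ o'.getD i none = some (tv z))) :
    AgreeW (pe q p o) (pe q p' o') Γ T ∧
    ∀ (G : ℕ → Set (Pos d)) (s : ℕ) (x : Pos d), s < T → x ∈ Γ s →
      (∀ j, s + j < T →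
        visU (pe q p o).nb (pe q p o).pr (pe q p o).η0 (pe q p o).U G s {x} j ⊆ Γ (s + j)) →
      ∀ j, s + j ≤ T →
        inf (pe q p o).nb (pe q p o).pr (pe q p o).η0 (pe q p o).U G s {x} j =
          inf (pe q p' o').nb (pe q p' o').pr (pe q p' o').η0 (pe q p' o').U G s {x} j ∧
        (s + j < T → visU (pe q p o).nb (pe q p o).pr (pe q p o).η0 (pe q p o).U G s {x} j =
          visU (pe q p' o').nb (pe q p' o').pr (pe q p' o').η0 (pe q p' o').U G s {x} j) := by
  obtain ⟨η, w, rfl, rfl⟩ := hp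
  obtain ⟨η', w', rfl, rfl⟩ := hp'
  have hE := pe_path q hd η w
  have hE' := pe_path q hd η' w'
  rw [path_length, path_length] at hlen
  rw [path_length] at hT
  have hag : ∀ t ≤ T, ∀ i, t * q.N1 ≤ i → i ≤ (t + 1) * q.N1 → i ≤ T * q.N1 → ∀ y ∈ Γ t,
      ∀ z : Pos d, (z = y ∨ ∃ e : Dir d, z = y + dv e) →
      (w.take i).foldl stepA η (tv z) = (w'.take i).foldl stepA η' (tv z) := by
    intro t ht i h1 h2 h3 y hy z hz
    rw [← path_getD w η i (by omega) (fun _ => 0), ← path_getD w' η' i (by omega) (fun _ => 0)]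
    exact (hΓ t ht i h1 h2 h3 y hy z hz).1
  have hmk : ∀ t ≤ T, ∀ i, t * q.N1 ≤ i → i ≤ (t + 1) * q.N1 → i ≤ T * q.N1 → ∀ y ∈ Γ t,
      ∀ z : Pos d, (z = y ∨ ∃ e : Dir d, z = y + dv e) →
      ((w.map mark).getD i none = some (tv z) ↔ (w'.map mark).getD i none = some (tv z)) :=
    fun t ht i h1 h2 h3 y hy z hz => (hΓ t ht i h1 h2 h3 y hy z hz).2
  have hA := agree_words q w w' η η' T (by omega) (by omega) Γ hag hmk
  refine ⟨⟨?_, ?_⟩, ?_⟩
  · intro t ht x hx
    rw [← hE.occ, ← hE'.occ]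
    exact hA.occ t ht x hx
  · intro G hG s t x y ht
    have h1 : ∀ {E E' : Env d}, EqEnv E E' → (E.R G s x t y ↔ E'.R G s x t y) := by
      intro E E' h
      unfold Env.R
      simp only [h.inf]
    rw [← h1 hE, ← h1 hE']
    exact hA.R G hG s t x y ht
  · intro G s x _ hx hsub j hj
    rw [← hE.inf, ← hE'.inf, ← hE.vis, ← hE'.vis]
    refine core q w w' η η' T (by omega) (by omega) Γ hag hmk G s x (fun _ _ => hx) ?_ j hj
    intro j hj
    have h1 := hsub j hj
    rw [← hE.vis] at h1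
    exact h1

end ZP.Rows
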