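import Pool.Agent.ZP.Dec
import Pool.Agent.ZP.InfLem
import Pool.Agent.ZP.S1
import Pool.Agent.ZP.E1
import Pool.Agent.ZP.E3
import Pool.Agent.ZP.E2
import Pool.Agent.ZI.E5a

/-! # E5a: transfer of the past event (deterministic; with recovery) -/

set_option autoImplicit false

open scoped ENNReal BigOperators Classical Pointwise

noncomputable section

namespace ZP.E5a

open ZP ZP.S1 ZP.E3 ZI.Geo

export ZI.E5a (lev_le_nrm lev_le_supn lev_dv_le supn_add_le supn_dv_le)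

variable {d : ℕ}

/-! ## generalities on restricted infections -/
section gen

variable {V : Type} {nb : V → Dir d → Option V} {pr : Pos d → V} {η0 : V → ℕ} {U : ℕ → List (Lab V d)}
  {G : ℕ → Set (Pos d)} {s j : ℕ} {A : Set (Pos d)} {b x : Pos d}

theorem visU_split (hb : b ∈ visU nb pr η0 U G s A j) :
    ∃ z ∈ inf nb pr η0 U G s A j, z ∈ G (s + j) ∧ b ∈ visU nb pr η0 U G (s + j) {z} 0 := by
  obtain ⟨i, hi, h⟩ := hb
  obtain ⟨z, hz, hbz⟩ := mem_foldl_stepR _ _ _ _ h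
  refine ⟨z, hz.1, hz.2, i, hi, ?_⟩
  refine foldl_stepR_mono subset_rfl _ _ ?_ hbz
  rintro _ rfl
  exact ⟨⟨rfl, hz.2, inf_occ j _ hz.1⟩, hz.2⟩

theorem visU_region : visU nb pr η0 U G s A j ⊆ G (s + j) := by
  rintro b ⟨i, -, h⟩
  exact foldl_stepR_region _ _ _ Set.inter_subset_right h

theorem inf_succ_region : inf nb pr η0 U G s A (j + 1) ⊆ G (s + j) := fun _ h =>
  foldl_stepR_region _ _ _ Set.inter_subset_right h

end gen

/-! ## congruence in the unit lists -/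
section congr

variable {V : Type} {nb : V → Dir d → Option V} {pr : Pos d → V} {η0 : V → ℕ}
  {U U' : ℕ → List (Lab V d)} {T : ℕ}

theorem cfg_congr (h : ∀ t < T, U t = U' t) (t : ℕ) (ht : t ≤ T) : cfg nb η0 U t = cfg nb η0 U' t := by
  induction t with
  | zero => rfl
  | succ t ih =>
    show (U t).foldl (mv nb) (cfg nb η0 U t) = (U' t).foldl (mv nb) (cfg nb η0 U' t)
    rw [h t (by omega), ih (by omega)]

theorem infU_congr (h : ∀ t < T, U t = U' t) (G : ℕ → Set (Pos d)) (s : ℕ) (A : Set (Pos d)) (j : ℕ)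
    (hj : s + j ≤ T) : inf nb pr η0 U G s A j = inf nb pr η0 U' G s A j := by
  induction j with
  | zero =>
    show {z | z ∈ A ∧ z ∈ G s ∧ 0 < cfg nb η0 U s (pr z)} = {z | z ∈ A ∧ z ∈ G s ∧ 0 < cfg nb η0 U' s (pr z)}
    rw [cfg_congr h s (by omega)]
  | succ j ih =>
    show ((U (s + j)).foldl (stepR nb pr (G (s + j)))
      (cfg nb η0 U (s + j), inf nb pr η0 U G s A j ∩ G (s + j))).2 =
      ((U' (s + j)).foldl (stepR nb pr (G (s + j)))
      (cfg nb η0 U' (s + j), inf nb pr η0 U' G s A j ∩ G (s + j))).2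
    rw [h (s + j) (by omega), cfg_congr h (s + j) (by omega), ih (by omega)]

theorem visU_congr (h : ∀ t < T, U t = U' t) (G : ℕ → Set (Pos d)) (s : ℕ) (A : Set (Pos d)) (j : ℕ)
    (hj : s + j < T) : visU nb pr η0 U G s A j = visU nb pr η0 U' G s A j := by
  unfold visU
  rw [h (s + j) hj, cfg_congr h (s + j) (by omega), infU_congr h G s A j (by omega)]

end congr

/-- two environments whose block infections agree up to the duration `T` -/
structure SameW (E E' : Env d) (Q : BP) (u : Fin d → ℝ) (T : ℕ) : Prop where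
  near : E.near Q.κ Q.κ 0 = E'.near Q.κ Q.κ 0
  W : ∀ t ≤ T, E.W Q u 0 Q.κ (Q.κ + t) = E'.W Q u 0 Q.κ (Q.κ + t)

theorem SameW.blk {E E' : Env d} {Q : BP} {u : Fin d → ℝ} {T : ℕ} (h : SameW E E' Q u T) {m : ℕ}
    (h1 : E.bh Q u m 0 Q.κ = T) (h2 : ∃ y ∈ E.W Q u 0 Q.κ (Q.κ + T), (m : ℝ) ≤ lev u y) :
    E'.blk Q u m 0 Q.κ = E.blk Q u m 0 Q.κ := by
  have hT : E'.bh Q u m 0 Q.κ = T := by
    refine le_antisymm (Nat.sInf_le ?_) ?_
    · obtain ⟨y, hy, hl⟩ := h2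
      refine ⟨y, ?_, by rwa [sub_zero]⟩
      rw [← h.W T le_rfl]
      exact hy
    · by_contra hlt
      push Not at hlt
      have hne : {h | ∃ y ∈ E'.W Q u 0 Q.κ (Q.κ + h), (m : ℝ) ≤ lev u (y - 0)}.Nonempty := by
        obtain ⟨y, hy, hl⟩ := h2
        refine ⟨T, y, ?_, by rwa [sub_zero]⟩
        rw [← h.W T le_rfl]
        exact hy
      obtain ⟨y, hy, hl⟩ := Nat.sInf_mem hne
      have h3 : E.bh Q u m 0 Q.κ ≤ E'.bh Q u m 0 Q.κ := by
        refine Nat.sInf_le ⟨y, ?_, hl⟩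
        change y ∈ E'.W Q u 0 Q.κ (Q.κ + E'.bh Q u m 0 Q.κ) at hy
        rw [h.W _ hlt.le]
        exact hy
      omega
  have hset : {v : Pos d | 0 + v ∈ E'.W Q u 0 Q.κ (Q.κ + E'.bh Q u m 0 Q.κ) ∧ (m : ℝ) ≤ lev u v} =
      {v : Pos d | 0 + v ∈ E.W Q u 0 Q.κ (Q.κ + E.bh Q u m 0 Q.κ) ∧ (m : ℝ) ≤ lev u v} := by
    rw [hT, h1, h.W T le_rfl]
  have hx : E'.bx Q u m 0 Q.κ = E.bx Q u m 0 Q.κ := by
    rw [ZP.E1.bx_eq, ZP.E1.bx_eq, hset]
  unfold Env.blk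
  rw [hT, h1, hx]

/-! ## truncated words -/

theorem take_inf {M K : ℕ} (N1 T : ℕ) (η : Tor d M → ℕ) (l : List (Let d M K)) (G : ℕ → Set (Pos d))
    (s : ℕ) (A : Set (Pos d)) (j : ℕ) (hj : s + j ≤ T) :
    inf nbT tv η (units N1 (l.take (T * N1))) G s A j = inf nbT tv η (units N1 l) G s A j :=
  infU_congr (fun _ ht => ZI.E5a.units_take _ _ ht) G s A j hj

theorem take_visU {M K : ℕ} (N1 T : ℕ) (η : Tor d M → ℕ) (l : List (Let d M K)) (G : ℕ → Set (Pos d))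
    (s : ℕ) (A : Set (Pos d)) (j : ℕ) (hj : s + j < T) :
    visU nbT tv η (units N1 (l.take (T * N1))) G s A j = visU nbT tv η (units N1 l) G s A j :=
  visU_congr (fun _ ht => ZI.E5a.units_take _ _ ht) G s A j hj

section take

variable {m : Model} {δ : ℝ} (q : Par d m δ) (η : Tor d q.M → ℕ) (l : List (Let d q.M (q.K + 1)))

theorem take_R (T : ℕ) {G : ℕ → Set (Pos d)} {s t : ℕ} {x y : Pos d} (ht : t ≤ T) :
    (envT q η (l.take (T * q.N1))).R G s x t y ↔ (envT q η l).R G s x t y := by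
  constructor
  · rintro ⟨j, hj, hx⟩
    refine ⟨j, hj, ?_⟩
    have h1 : y ∈ inf nbT tv η (units q.N1 (l.take (T * q.N1))) G s {x} j := hx
    rw [take_inf q.N1 T η l G s {x} j (by omega)] at h1
    exact h1
  · rintro ⟨j, hj, hx⟩
    refine ⟨j, hj, ?_⟩
    have h1 : y ∈ inf nbT tv η (units q.N1 l) G s {x} j := hx
    rw [← take_inf q.N1 T η l G s {x} j (by omega)] at h1
    exact h1

theorem take_ok (T k s : ℕ) (x : Pos d) (ht : s + k ≤ T) :
    (envT q η (l.take (T * q.N1))).ok k s x ↔ (envT q η l).ok k s x := by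
  have h1 : (envT q η (l.take (T * q.N1))).fg k s x ↔ (envT q η l).fg k s x := by
    unfold Env.fg
    exact exists_congr fun y => take_R q η l T ht
  have h2 : (envT q η (l.take (T * q.N1))).bg k s x ↔ (envT q η l).bg k s x := by
    unfold Env.bg
    exact exists_congr fun t => exists_congr fun y => and_congr_right fun _ => take_R q η l T (by omega)
  unfold Env.ok
  rw [h1, h2]

theorem take_near (T k s : ℕ) (z : Pos d) (ht : s + k ≤ T) :
    (envT q η (l.take (T * q.N1))).near k s z = (envT q η l).near k s z := by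
  rw [ZP.E1.near_eq, ZP.E1.near_eq]
  congr 1
  ext v
  exact take_ok q η l T k s (z + v) ht

theorem take_W (P : BP) (u : Fin d → ℝ) (T : ℕ) (hT : P.κ ≤ T) (t : ℕ) (ht : t ≤ T) :
    (envT q η (l.take ((P.κ + T) * q.N1))).W P u 0 P.κ (P.κ + t) =
      (envT q η l).W P u 0 P.κ (P.κ + t) := by
  ext x
  unfold Env.W
  rw [take_near q η l (P.κ + T) P.κ P.κ 0 (by omega)]
  exact take_R q η l (P.κ + T) (by omega)

end take

/-- enough room for a block of size at most `r n` -/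
theorem room2 {a A r n m' : ℕ} (ha : 10 ≤ a) (hA : 1000 * a ≤ A) (hr : 2 ≤ r) (hn : r ^ A ≤ n)
    (hm : m' ≤ r * n) : r ^ a + r ^ (2 * a) * m' ≤ n ^ 2 := by
  have h1 : r ^ (2 * a + 2) ≤ n := le_trans (Nat.pow_le_pow_right (by omega) (by omega)) hn
  have h2 : r ^ a ≤ r ^ (2 * a) := Nat.pow_le_pow_right (by omega) (by omega)
  have h3 : 1 ≤ n := le_trans (Nat.one_le_pow _ _ (by omega)) hn
  have h4 : 1 + m' ≤ r ^ 2 * n := by
    have h5 : n + r * n ≤ r ^ 2 * n := by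
      have : 1 + r ≤ r ^ 2 := by nlinarith
      calc n + r * n = (1 + r) * n := by ring
        _ ≤ r ^ 2 * n := Nat.mul_le_mul_right _ this
    omega
  calc r ^ a + r ^ (2 * a) * m' ≤ r ^ (2 * a) * (1 + m') := by
        rw [mul_add, mul_one]
        omega
    _ ≤ r ^ (2 * a) * (r ^ 2 * n) := Nat.mul_le_mul_left _ h4
    _ = r ^ (2 * a + 2) * n := by ring
    _ ≤ n * n := Nat.mul_le_mul_right _ h1
    _ = n ^ 2 := by ring

end ZP.E5a

namespace ZP.Rows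

open ZP ZP.S1 ZP.E5a ZP.E3 ZI.Geo

variable {d : ℕ} {m : Model} {δ : ℝ}

/-- the past event determines the block variable of every longer word -/
theorem blk_of_pastEv (q : Par d m δ) (P : BP) (u : Fin d → ℝ) (r Cv m' : ℕ) (y : ℕ × Pos d)
    (η : Tor d q.M → ℕ) (l : List (Let d q.M (q.K + 1)))
    (h : PastEv (envT q η (l.take ((P.κ + y.1) * q.N1))) P u r Cv m' y) :
    (envT q η l).blk P u m' 0 P.κ = y := by
  have hs : SameW (envT q η (l.take ((P.κ + y.1) * q.N1))) (envT q η l) P u y.1 :=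
    ⟨take_near q η l (P.κ + y.1) P.κ P.κ 0 (by have := h.h_lb; omega),
      fun t ht => take_W q η l P u y.1 h.h_lb t ht⟩
  have h1 : (envT q η (l.take ((P.κ + y.1) * q.N1))).bh P u m' 0 P.κ = y.1 := by
    have := h.blk
    exact congrArg Prod.fst this
  rw [hs.blk h1 ⟨y.2, h.att, h.lev_ge⟩, h.blk]

/-- the good event implies the past event (deterministic) -/
theorem pastEv_of_good {Cv a A r0 : ℕ} {c : ℝ} (hB : Base m δ d Cv a A r0 c) : ∃ r1 ≥ r0, ∀ r ≥ r1,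
    ∀ n : ℕ, r ^ A ≤ n → ∀ q : Par d m δ, q.M = n ^ 4 → ∀ (u : Fin d → ℝ), ∑ j, u j ^ 2 = 1 →
    ∀ m' : ℕ, r ^ (7 * a) ≤ m' → m' ≤ r * n → ∀ (η : Tor d q.M → ℕ)
    (l : List (Let d q.M (q.K + 1))),
    (envT q η l).Good r (r ^ a) Cv (n ^ 2) (n ^ 2) →
    Adm (bp d a r n) u r Cv m' n ((envT q η l).blk (bp d a r n) u m' 0 (r ^ a)) ∧
    PastEv (envT q η (l.take ((r ^ a + ((envT q η l).blk (bp d a r n) u m' 0 (r ^ a)).1) * q.N1)))
      (bp d a r n) u r Cv m' ((envT q η l).blk (bp d a r n) u m' 0 (r ^ a)) := by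
  have ha := hB.a_big
  have hA := hB.A_big
  have hr0 := hB.r0_big
  refine ⟨r0 + d, by omega, fun r hr n hn q hM u hu m' hm hmn η l hE => ?_⟩
  set E := envT q η l with hEd
  set Q := bp d a r n with hQ
  have hκ' : Q.κ = r ^ a := rfl
  rw [← hκ']
  have hr2 : 2 ≤ r := by omega
  have hroom : r ^ a + r ^ (2 * a) * m' ≤ n ^ 2 := room2 ha hA hr2 hn hmn
  have F : BlockFacts E Q u r Cv m' n 0 Q.κ :=
    hB.facts r (by omega) n hn E hE u hu m' hm hmn 0 (r ^ a) le_rfl hroom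
  have hb1 : E.bh Q u m' 0 Q.κ ≤ 8 * r ^ a * m' := (block_time hr2 ha hm F).1
  have hκ : 1024 ≤ r ^ a := (block_time hr2 ha hm F).2.2
  have hb : Q.κ + E.bh Q u m' 0 Q.κ ≤ n ^ 2 := by
    refine le_trans (Nat.add_le_add_left (le_trans hb1 ?_) _) hroom
    refine Nat.mul_le_mul_right _ ?_
    calc 8 * r ^ a ≤ r ^ a * r ^ a := Nat.mul_le_mul_right _ (by omega)
      _ = r ^ (2 * a) := by rw [← pow_add]; congr 1; ring
  have hmem : 0 + E.bx Q u m' 0 Q.κ ∈ E.W Q u 0 Q.κ (Q.κ + E.bh Q u m' 0 Q.κ) := F.x_mem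
  have hlb : Q.κ ≤ E.bh Q u m' 0 Q.κ := F.h_lb
  have hpos : 1 ≤ E.bh Q u m' 0 Q.κ := by
    have : 1024 ≤ Q.κ := hκ
    omega
  have hblk1 : (E.blk Q u m' 0 Q.κ).1 = E.bh Q u m' 0 Q.κ := rfl
  have hblk2 : (E.blk Q u m' 0 Q.κ).2 = E.bx Q u m' 0 Q.κ := rfl
  have hsup : supn (E.bx Q u m' 0 Q.κ) ≤ n ^ 2 := by
    obtain ⟨j, hj, hy⟩ := hmem
    obtain ⟨i, rfl⟩ : ∃ i, j = i + 1 := ⟨j - 1, by omega⟩
    have := (inf_succ_region hy).2
    rwa [sub_zero, zero_add] at this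
  refine ⟨⟨by rwa [hblk1], ?_, ?_, ?_, hsup⟩, ?_⟩
  · rw [hblk1]
    exact F.h_ub
  · rw [hblk2]
    exact F.x_lev
  · rw [hblk2]
    have := F.W_ub _ hmem
    rwa [sub_zero, zero_add] at this
  · have key : ∀ T, T = E.bh Q u m' 0 Q.κ →
        PastEv (envT q η (l.take ((Q.κ + T) * q.N1))) Q u r Cv m' (T, E.bx Q u m' 0 Q.κ) := by
      intro T hT
      have hTκ : Q.κ ≤ T := by omega
      have hnear : (envT q η (l.take ((Q.κ + T) * q.N1))).near Q.κ Q.κ 0 = E.near Q.κ Q.κ 0 :=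
        take_near q η l (Q.κ + T) Q.κ Q.κ 0 (by omega)
      have hs : SameW E (envT q η (l.take ((Q.κ + T) * q.N1))) Q u T :=
        ⟨hnear.symm, fun t ht => (take_W q η l Q u T hTκ t ht).symm⟩
      have hmem' : E.bx Q u m' 0 Q.κ ∈ E.W Q u 0 Q.κ (Q.κ + T) := by
        rw [zero_add, ← hT] at hmem
        exact hmem
      refine ⟨?_, ?_, F.x_lev, hTκ, ?_, ?_, ?_⟩
      · rw [hs.blk hT.symm ⟨E.bx Q u m' 0 Q.κ, hmem', F.x_lev⟩, hT]
        rfl
      · show E.bx Q u m' 0 Q.κ ∈ (envT q η (l.take ((Q.κ + T) * q.N1))).W Q u 0 Q.κ (Q.κ + T)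
        rw [take_W q η l Q u T hTκ T le_rfl]
        exact hmem'
      · rw [hnear]
        exact (take_ok q η l (Q.κ + T) Q.κ Q.κ _ (by omega)).2 F.near_ok
      · rw [hnear]
        have := F.near_supn
        rwa [sub_zero] at this
      · intro t ht b hb'
        have ht' : t < T := ht
        rw [hnear] at hb'
        have hb'' : b ∈ visU nbT tv η (units q.N1 (l.take ((Q.κ + T) * q.N1))) (wall Q u 0 Q.κ) Q.κ
            {E.near Q.κ Q.κ 0} t := hb'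
        rw [take_visU q.N1 (Q.κ + T) η l (wall Q u 0 Q.κ) Q.κ _ t (by omega)] at hb''
        obtain ⟨z, hz, hzG, hbz⟩ := visU_split hb''
        have hzW : z ∈ E.W Q u 0 Q.κ (Q.κ + t) := ⟨t, rfl, hz⟩
        have h1 := F.conf (Q.κ + t) (by omega) (by omega) z hzW
        have h2 : E.vis (fun _ => Set.univ) (Q.κ + t) z (Q.κ + t + 1) b := by
          refine ⟨0, by omega, ?_⟩
          exact visU_mono_univ 0 hbz
        have h3 := hE.g4' (Q.κ + t) (Q.κ + t + 1) z b (by omega) (by omega) h2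
        have h4 : lev u b = lev u z + lev u (b - z) := by
          rw [← ZI.Geo.lev_add]
          congr 1
          abel
        have h5 := lev_le_nrm hu (b - z)
        rw [sub_zero] at h1
        push_cast at h1 h3
        show lev u b ≤ m' + 2 * Q.mg + Cv + r - ((T : ℝ) - t) / (8 * Q.κ)
        rw [h4, hT]
        have e1 : (Cv : ℝ) * ((Q.κ : ℝ) + t + 1 - (Q.κ + t)) = Cv := by ring
        rw [e1] at h3
        have e2 : ((Q.κ : ℝ) + E.bh Q u m' 0 Q.κ - (Q.κ + t)) = (E.bh Q u m' 0 Q.κ : ℝ) - t := by ring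
        rw [e2] at h1
        linarith
    exact key _ rfl

/-- transfer of the past event between paths that agree below the line -/
theorem past_transfer {Cv a A r0 : ℕ} {c : ℝ} (hB : Base m δ d Cv a A r0 c) : ∃ r1 ≥ r0, ∀ r ≥ r1,
    ∀ n : ℕ, r ^ A ≤ n → ∀ q : Par d m δ, q.M = n ^ 4 → ∀ (u : Fin d → ℝ), ∑ j, u j ^ 2 = 1 →
    ∀ m' : ℕ, r ^ (7 * a) ≤ m' → m' ≤ r * n → ∀ y : ℕ × Pos d, Adm (bp d a r n) u r Cv m' n y →
    ∀ (p p' : List (Tor d q.M → ℕ)) (o o' : List (Option (Tor d q.M))), IsPath q p o → IsPath q p' o' →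
    p.length = (r ^ a + y.1) * q.N1 + 1 → p'.length = (r ^ a + y.1) * q.N1 + 1 →
    (∀ i ≤ (r ^ a + y.1) * q.N1, ∀ v : Tor d q.M,
      Lev u 0 v ≤ m' + 3 * (bp d a r n).mg -
        (((r ^ a + y.1 : ℕ) : ℝ) - (i : ℝ) / q.N1) / (8 * (bp d a r n).κ) →
      p.getD i (fun _ => 0) v = p'.getD i (fun _ => 0) v ∧
      (o.getD i none = some v ↔ o'.getD i none = some v)) →
    PastEv (pe q p o) (bp d a r n) u r Cv m' y → PastEv (pe q p' o') (bp d a r n) u r Cv m' y := by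
  have ha := hB.a_big
  have hA := hB.A_big
  have hr0 := hB.r0_big
  obtain ⟨n0, hn0⟩ := ZI.Rows.Lev_approx d
  refine ⟨r0 + d + Cv + n0, by omega,
    fun r hr n hn q hM u hu m' hm hmn y hy p p' o o' hp hp' hl hl' hag h => ?_⟩
  set Q := bp d a r n with hQ
  have hκr : r ^ a = Q.κ := rfl
  rw [hκr] at hl hl' hag
  obtain ⟨T, z0⟩ := y
  obtain ⟨hy1, hy2, hy3, hy4, hy5⟩ := hy
  change Q.κ ≤ T at hy1
  change (T : ℝ) ≤ 4 * Q.κ * (m' + 2 * Q.mg) at hy2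
  have hr10 : 10 ≤ r := by omega
  have hrn : r ^ (2 * a + 2) ≤ n := le_trans (Nat.pow_le_pow_right (by omega) (by omega)) hn
  have hκ1 : 1 ≤ Q.κ := Nat.one_le_pow _ _ (by omega)
  have hκ0 : (0 : ℝ) < Q.κ := by exact_mod_cast hκ1
  have hκκ : Q.κ + Q.κ ^ 2 ≤ n := by
    have e1 : Q.κ ^ 2 = r ^ (2 * a) := by rw [← hκr, ← pow_mul]; congr 1; ring
    have e2 : r ^ (2 * a + 2) = r ^ (2 * a) * r ^ 2 := by rw [pow_add]
    have e3 : Q.κ ≤ Q.κ ^ 2 := by nlinarith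
    have e4 : r ^ (2 * a) * 2 ≤ r ^ (2 * a) * r ^ 2 := Nat.mul_le_mul_left _ (by nlinarith)
    omega
  have hn1 : 1 ≤ n := le_trans (Nat.one_le_pow _ _ (by omega)) hrn
  have hnn2 : n ≤ n ^ 2 := by nlinarith
  have hκm : 4 * d * (Q.κ + Q.κ ^ 2) + 4 ≤ m' := by
    refine le_trans ?_ hm
    have e1 : r ^ (7 * a) = Q.κ ^ 2 * r ^ (5 * a) := by
      rw [← hκr, ← pow_mul, ← pow_add]; congr 1; ring
    have e2 : r ^ 3 ≤ r ^ (5 * a) := Nat.pow_le_pow_right (by omega) (by omega)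
    have e3 : 8 * d + 4 ≤ r ^ 3 := by nlinarith [sq_nonneg r]
    have e4 : Q.κ ≤ Q.κ ^ 2 := by nlinarith
    have e5 : 1 ≤ Q.κ ^ 2 := Nat.one_le_pow _ _ hκ1
    calc 4 * d * (Q.κ + Q.κ ^ 2) + 4 ≤ Q.κ ^ 2 * (8 * d + 4) := by nlinarith
      _ ≤ Q.κ ^ 2 * r ^ 3 := Nat.mul_le_mul_left _ e3
      _ ≤ Q.κ ^ 2 * r ^ (5 * a) := Nat.mul_le_mul_left _ e2
      _ = r ^ (7 * a) := e1.symm
  have hmg : Cv + r + 2 ≤ Q.mg := by
    show Cv + r + 2 ≤ r ^ (3 * a)
    have h1 : r ^ 2 ≤ r ^ (3 * a) := Nat.pow_le_pow_right (by omega) (by omega)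
    nlinarith
  have hmgR : (Cv : ℝ) + r + 2 ≤ Q.mg := by exact_mod_cast hmg
  have hN1 : (0 : ℝ) < q.N1 := by exact_mod_cast q.N1_pos
  have hLev : ∀ z : Pos d, supn z ≤ 4 * n ^ 2 → Lev u (0 : Tor d q.M) (tv z) ≤ lev u z + 1 / 4 := by
    have h1 : ∀ M, M = n ^ 4 → ∀ z : Pos d, supn z ≤ 4 * n ^ 2 →
        Lev u (0 : Tor d M) (tv z) ≤ lev u z + 1 / 4 := by
      rintro _ rfl z hz
      have h2 := hn0 n (by
        have : r ≤ r ^ (2 * a + 2) := by
          calc r = r ^ 1 := (pow_one _).symm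
            _ ≤ r ^ (2 * a + 2) := Nat.pow_le_pow_right (by omega) (by omega)
        omega) u hu 0 z hz
      rw [zero_add] at h2
      linarith [(abs_le.1 h2).2]
    exact h1 _ hM
  -- the region
  let Γ : ℕ → Set (Pos d) := fun t =>
    {z | lev u z ≤ m' + 2 * Q.mg + Cv + r - (((Q.κ + T : ℕ) : ℝ) - t) / (8 * Q.κ) ∧ supn z ≤ n ^ 2}
  have hΓ0 : ∀ v : Pos d, supn v ≤ Q.κ + Q.κ ^ 2 → ∀ t, v ∈ Γ t := by
    intro v hv t
    refine ⟨?_, by omega⟩
    have h1 := lev_le_supn hu v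
    have h2 : (d : ℝ) * (supn v : ℝ) ≤ d * ((Q.κ + Q.κ ^ 2 : ℕ) : ℝ) := by
      refine mul_le_mul_of_nonneg_left ?_ (Nat.cast_nonneg _)
      exact_mod_cast hv
    have h3 : (((Q.κ + T : ℕ) : ℝ) - t) / (8 * Q.κ) ≤ 1 / 8 + (m' + 2 * Q.mg) / 2 := by
      rw [div_le_iff₀ (by positivity)]
      push_cast
      have : (0 : ℝ) ≤ t := Nat.cast_nonneg _
      linarith
    have h4R : 4 * (d : ℝ) * ((Q.κ + Q.κ ^ 2 : ℕ) : ℝ) + 4 ≤ m' := by exact_mod_cast hκm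
    have h5 : (0 : ℝ) ≤ Q.mg := Nat.cast_nonneg _
    have h6 : (0 : ℝ) ≤ Cv := Nat.cast_nonneg _
    have h7 : (0 : ℝ) ≤ r := Nat.cast_nonneg _
    have h8 : (0 : ℝ) ≤ (d : ℝ) * ((Q.κ + Q.κ ^ 2 : ℕ) : ℝ) := by positivity
    linarith
  obtain ⟨hAg, hI⟩ := agree_paths hB.d_pos q p p' o o' hp hp' (hl.trans hl'.symm) (Q.κ + T)
    (by rw [hl]; exact Nat.lt_succ_self _) Γ (by
    rintro t ht i hi1 - hi3 y0 ⟨hy0, hy0'⟩ z hz
    refine hag i hi3 (tv z) ?_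
    have h1 : lev u z ≤ lev u y0 + 1 ∧ supn z ≤ 4 * n ^ 2 := by
      rcases hz with rfl | ⟨e, rfl⟩
      · exact ⟨by linarith, by omega⟩
      · refine ⟨by rw [ZI.Geo.lev_add]; linarith [lev_dv_le hu e], ?_⟩
        have := supn_add_le y0 (dv e)
        have := supn_dv_le e
        omega
    have h2 := hLev z h1.2
    have h3 : (t : ℝ) ≤ (i : ℝ) / q.N1 := by
      rw [le_div_iff₀ hN1]
      exact_mod_cast hi1
    have h4 : (((Q.κ + T : ℕ) : ℝ) - (i : ℝ) / q.N1) / (8 * Q.κ) ≤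
        (((Q.κ + T : ℕ) : ℝ) - t) / (8 * Q.κ) :=
      div_le_div_of_nonneg_right (by linarith) (by positivity)
    show Lev u 0 (tv z) ≤ m' + 3 * Q.mg - (((Q.κ + T : ℕ) : ℝ) - (i : ℝ) / q.N1) / (8 * Q.κ)
    linarith [h1.1])
  have hball : ∀ v : Pos d, supn v ≤ Q.κ → ∀ i, Ball v ((Q.κ : ℝ) ^ 2) ⊆ Γ i := by
    intro v hv i z hz
    refine hΓ0 z ?_ i
    have h1 : supn (z - v) ≤ Q.κ ^ 2 := supn_le_of_nrm (by
      have h2 : nrm (z - v) ≤ (Q.κ : ℝ) ^ 2 := hz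
      exact_mod_cast h2)
    have h3 := supn_add_le v (z - v)
    rw [add_sub_cancel] at h3
    omega
  have hok : ∀ v : Pos d, supn v ≤ Q.κ → ((pe q p o).ok Q.κ Q.κ v ↔ (pe q p' o').ok Q.κ Q.κ v) :=
    fun v hv => ok_agree hAg (by omega) (fun i _ _ => hball v hv i)
  have hnear : (pe q p' o').near Q.κ Q.κ 0 = (pe q p o).near Q.κ Q.κ 0 := by
    refine near_eq (r := Q.κ) ⟨(pe q p o).near Q.κ Q.κ 0, h.near_supn, ?_⟩ (fun v hv => ?_)
    · rw [zero_add]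
      exact h.near_ok
    · rw [zero_add]
      exact hok v hv
  have hIn := hI (wall Q u 0 Q.κ) Q.κ ((pe q p o).near Q.κ Q.κ 0) (by omega)
    (hΓ0 _ (le_trans h.near_supn (by omega)) _) (by
    intro j hj b hb
    refine ⟨?_, ?_⟩
    · have := h.conf j (by change j < T; omega) b hb
      change lev u b ≤ m' + 2 * Q.mg + Cv + r - ((T : ℝ) - j) / (8 * Q.κ) at this
      have e1 : ((Q.κ + T : ℕ) : ℝ) - ((Q.κ + j : ℕ) : ℝ) = (T : ℝ) - j := by push_cast; ring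
      rwa [e1]
    · have := (visU_region hb).2
      rwa [sub_zero] at this)
  have hW : ∀ t ≤ T, (pe q p o).W Q u 0 Q.κ (Q.κ + t) = (pe q p' o').W Q u 0 Q.κ (Q.κ + t) := by
    intro t ht
    ext x
    constructor
    · rintro ⟨j, hj, hx⟩
      obtain rfl : j = t := by omega
      refine ⟨j, rfl, ?_⟩
      rw [hnear, ← (hIn j (by omega)).1]
      exact hx
    · rintro ⟨j, hj, hx⟩
      obtain rfl : j = t := by omega
      refine ⟨j, rfl, ?_⟩
      rw [hnear, ← (hIn j (by omega)).1] at hx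
      exact hx
  have hs : SameW (pe q p o) (pe q p' o') Q u T := ⟨hnear.symm, hW⟩
  refine ⟨?_, ?_, h.lev_ge, hy1, ?_, ?_, ?_⟩
  · rw [hs.blk (congrArg Prod.fst h.blk) ⟨z0, h.att, h.lev_ge⟩, h.blk]
  · show z0 ∈ (pe q p' o').W Q u 0 Q.κ (Q.κ + T)
    rw [← hW T le_rfl]
    exact h.att
  · rw [hnear]
    exact (hok _ h.near_supn).1 h.near_ok
  · rw [hnear]
    exact h.near_supn
  · intro t ht b hb
    rw [hnear, ← (hIn t (by change t < T at ht; omega)).2 (by change t < T at ht; omega)] at hb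
    exact h.conf t ht b hb

end ZP.Rows
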