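import Pool.Agent.ZP.E1
import Pool.Agent.ZP.E2
import Pool.Agent.ZP.E3
import Pool.Agent.ZI.E5b

/-! # Row E5b: transfer of the future (with recovery) -/

set_option autoImplicit false

open scoped ENNReal BigOperators Classical

noncomputable section

namespace ZP.E5b

open ZP ZP.Rows

variable {d : ℕ} {m : Model} {δ : ℝ}

theorem path_length {M K : ℕ} (w : List (Let d M (K + 1))) :
    ∀ η : Tor d M → ℕ, (path η w).length = w.length + 1 := by
  induction w with
  | nil => intro η; rfl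
  | cons a w ih =>
    intro η
    show (path (stepA η a) w).length + 1 = _
    rw [ih]
    rfl

theorem path_getD {M K : ℕ} (f : Tor d M → ℕ) (w : List (Let d M (K + 1))) :
    ∀ (η : Tor d M → ℕ) (i : ℕ), i ≤ w.length → (path η w).getD i f = (w.take i).foldl stepA η := by
  induction w with
  | nil =>
    intro η i hi
    have h0 : i = 0 := by simpa using hi
    subst h0
    rfl
  | cons a w ih =>
    intro η i hi
    rcases i with _ | i
    · rfl
    · rw [List.take_succ_cons, List.foldl_cons]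
      show (path (stepA η a) w).getD i f = _
      refine ih _ i ?_
      simpa using hi

theorem agreeW_of_eqEnv {E E' F F' : Env d} (h : EqEnv E F) (h' : EqEnv E' F') {Γ : ℕ → Set (Pos d)}
    {T : ℕ} (hF : AgreeW F F' Γ T) : AgreeW E E' Γ T where
  occ := fun t ht x hx => (h.occ t x).trans ((hF.occ t ht x hx).trans (h'.occ t x).symm)
  R := fun G hG s t x y ht => (EqEnv.R h G s x t y).trans ((hF.R G hG s t x y ht).trans
    (EqEnv.R h' G s x t y).symm)

end ZP.E5b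

namespace ZP.Rows

open ZP ZP.E5b

open ZI.E5b (mix_mix abs_u_le lev_add lev_v0 supn_v0 supn_add big lev_torus)

open ZI.Rows (Lev_approx)

variable {d : ℕ} {m : Model} {δ : ℝ}

theorem future_transfer {Cv a A r0 : ℕ} {c : ℝ} (hB : Base m δ d Cv a A r0 c) : ∃ r1 ≥ r0, ∀ r ≥ r1,
    ∀ n : ℕ, r ^ A ≤ n → ∀ q : Par d m δ, q.M = n ^ 4 → ∀ (u : Fin d → ℝ), ∑ j, u j ^ 2 = 1 →
    ∀ m' : ℕ, r ^ (7 * a) ≤ m' → m' ≤ r * n → ∀ y : ℕ × Pos d, Adm (bp d a r n) u r Cv m' n y →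
    ∀ ms : List ℕ, (∀ m'' ∈ ms, r ^ (7 * a) ≤ m'') → ms.sum ≤ r * n →
    ∀ (η η' : Tor d q.M → ℕ) (w : List (Let d q.M (q.K + 1))), w.length = n ^ 2 * q.N1 →
    (envT q η w).Good r (r ^ a) Cv (n ^ 2) (n ^ 2) →
    ¬ LeakF q (bp d a r n) u m' η w →
    ¬ LeakF q (bp d a r n) u m' (mix (Up u (m' + 4 * (bp d a r n).mg)) η η') w →
    (envT q (mix (Up u (m' + 4 * (bp d a r n).mg)) η η') w).chain (bp d a r n) u ms
        (y.2 + v0 (bp d a r n) u) (bp d a r n).Δ =
      (envT q η w).chain (bp d a r n) u ms (y.2 + v0 (bp d a r n) u) (bp d a r n).Δ := by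
  obtain ⟨r1, hr1, H⟩ := chain_eq hB
  obtain ⟨n0, hn0⟩ := Lev_approx d
  refine ⟨max r1 (max n0 (d + 10)), le_trans hr1 (le_max_left _ _), ?_⟩
  intro r hr n hn q hq u hu m' hm' hm2 y hy ms hms hsum η η' w hw hG hL hL'
  have hrr1 : r1 ≤ r := (le_max_left _ _).trans hr
  have hrn0 : n0 ≤ r := ((le_max_left _ _).trans (le_max_right _ _)).trans hr
  have hrd : d + 10 ≤ r := ((le_max_right _ _).trans (le_max_right _ _)).trans hr
  have hr10 : 10 ≤ r := by omega
  have ha := hB.a_big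
  have hA := hB.A_big
  have hbig := big hr10 ha hA hn
  have hrpos : 0 < r := by omega
  have hp1 : r ^ (3 * a) ≤ r ^ (4 * a) := Nat.pow_le_pow_right hrpos (by omega)
  have hp2 : r ^ (2 * a) * r ≤ r ^ (4 * a) := by
    rw [← pow_succ]
    exact Nat.pow_le_pow_right hrpos (by omega)
  have hp3 : r ≤ r ^ (3 * a) := by
    calc r = r ^ 1 := (pow_one r).symm
      _ ≤ _ := Nat.pow_le_pow_right hrpos (by omega)
  have hn1 : 1 ≤ n := by
    have : 0 < r ^ (4 * a) := pow_pos hrpos _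
    omega
  have hn2 : n ≤ n ^ 2 := by
    rw [pow_two]
    exact Nat.le_mul_of_pos_left _ (by omega)
  have hnn0 : n0 ≤ n := by
    have : r ≤ r ^ (4 * a) := hp3.trans hp1
    omega
  set P := bp d a r n with hP
  have hmg : P.mg = r ^ (3 * a) := rfl
  have hκ : P.κ = r ^ a := rfl
  have hl0 : P.l0 = 32 * r ^ (3 * a) := rfl
  have hΔ : P.Δ = (64 * r ^ (3 * a) + 2) * r ^ a := rfl
  have hκpos : (0 : ℝ) < P.κ := by
    rw [hκ]
    exact_mod_cast pow_pos hrpos a
  have hκ1 : (1 : ℝ) ≤ P.κ := by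
    rw [hκ]
    exact_mod_cast Nat.one_le_pow _ _ hrpos
  have hΔle : P.Δ ≤ 66 * r ^ (4 * a) := by
    rw [hΔ]
    have h1 : r ^ (3 * a) * r ^ a = r ^ (4 * a) := by
      rw [← pow_add]
      congr 1
      ring
    have h2 : r ^ a ≤ r ^ (4 * a) := Nat.pow_le_pow_right hrpos (by omega)
    calc (64 * r ^ (3 * a) + 2) * r ^ a = 64 * (r ^ (3 * a) * r ^ a) + 2 * r ^ a := by ring
      _ ≤ 64 * r ^ (4 * a) + 2 * r ^ (4 * a) := by rw [h1]; omega
      _ = 66 * r ^ (4 * a) := by ring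
  set U : Set (Tor d q.M) := Up u (m' + 4 * P.mg) with hU
  set ζ := mix U η η' with hζ
  -- the two evolutions agree above the line
  have hag : ∀ i ≤ w.length, ∀ v : Tor d q.M,
      (m' : ℝ) + 6 * P.mg + ((i : ℝ) / q.N1) / (16 * P.κ) ≤ Lev u 0 v →
      (w.take i).foldl stepA η v = (w.take i).foldl stepA ζ v := by
    intro i hi v hv
    have h1 : (w.take i).foldl stepA η v = (w.take i).foldl stepA (mix U η (fun _ => 0)) v := by
      by_contra h
      exact hL ⟨i, hi, v, h, hv⟩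
    have h2 : (w.take i).foldl stepA ζ v = (w.take i).foldl stepA (mix U ζ (fun _ => 0)) v := by
      by_contra h
      exact hL' ⟨i, hi, v, h, hv⟩
    rw [hζ, mix_mix] at h2
    rw [h1, ← h2]
  have hN1 : (0 : ℝ) < q.N1 := by exact_mod_cast q.N1_pos
  have hmgbig : (d : ℝ) + 10 ≤ P.mg := by
    rw [hmg]
    exact_mod_cast hrd.trans hp3
  have hd0 : (0 : ℝ) ≤ d := Nat.cast_nonneg _
  -- agreement of the paths in the region
  have hA1 := agree_paths hB.d_pos q (path η w) (path ζ w) (w.map mark) (w.map mark) ⟨η, w, rfl, rfl⟩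
    ⟨ζ, w, rfl, rfl⟩ (by rw [path_length, path_length]) (n ^ 2) (by rw [path_length, hw]; omega)
    (HS P u (m' + 7 * P.mg) n) (by
      intro t ht i hi1 hi2 hi3 y' hy' z hz
      have hiw : i ≤ w.length := by rw [hw]; exact hi3
      rw [path_getD _ w η i hiw, path_getD _ w ζ i hiw]
      refine ⟨hag i hiw _ ?_, Iff.rfl⟩
      have h1 := lev_torus hnn0 hn0 hu q.M hq inferInstance y' z hy'.2 hz
      refine le_trans ?_ h1
      have h2 : (i : ℝ) / q.N1 ≤ t + 1 := by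
        rw [div_le_iff₀ hN1]
        exact_mod_cast hi2
      have h3 : ((i : ℝ) / q.N1) / (16 * P.κ) ≤ (t : ℝ) / (16 * P.κ) + 1 / 16 := by
        calc ((i : ℝ) / q.N1) / (16 * P.κ) ≤ ((t : ℝ) + 1) / (16 * P.κ) := by gcongr
          _ = (t : ℝ) / (16 * P.κ) + 1 / (16 * P.κ) := add_div _ _ _
          _ ≤ _ := by
              gcongr
              linarith
      have h4 : (m' : ℝ) + 7 * P.mg + (t : ℝ) / (16 * P.κ) ≤ lev u y' := hy'.1
      linarith)
  have hA2 : AgreeW (envT q η w) (envT q ζ w) (HS P u (m' + 7 * P.mg) n) (n ^ 2) :=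
    agreeW_of_eqEnv (pe_path q hB.d_pos η w) (pe_path q hB.d_pos ζ w) hA1.1
  refine H r hrr1 n hn (envT q η w) (envT q ζ w) hG u hu ms hms hsum (y.2 + v0 P u) P.Δ (n ^ 2)
    (m' + 7 * P.mg) ?_ ?_ ?_ ?_ ?_ le_rfl hA2
  · rw [hΔ]
    exact Nat.le_mul_of_pos_left _ (by omega)
  · have h2 : 1000 * r ^ (4 * a) * n ≤ n ^ 2 := by
      rw [pow_two]
      exact Nat.mul_le_mul_right _ hbig
    have h3 : r ^ (4 * a) ≤ r ^ (4 * a) * n := Nat.le_mul_of_pos_right _ (by omega)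
    nlinarith
  · refine (supn_add _ _).trans ?_
    have h1 := supn_v0 P hu
    have h2 := hy.2.2.2.2
    rw [hl0] at h1
    omega
  · rw [lev_add]
    have h1 := lev_v0 P hu
    have h2 := hy.2.2.1
    have h3 : ((P.Δ : ℕ) : ℝ) / (16 * P.κ) = 4 * P.mg + 1 / 8 := by
      rw [hΔ, hmg, ← hκ]
      push_cast
      field_simp
      ring
    have h4 : ((P.l0 : ℕ) : ℝ) = 32 * P.mg := by
      rw [hl0, hmg]
      push_cast
      ring
    show (m' : ℝ) + 7 * P.mg + ((P.Δ : ℕ) : ℝ) / (16 * P.κ) + 2 * P.mg ≤ _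
    rw [h3]
    rw [h4] at h1
    linarith
  · have h1 : r ^ (2 * a) * ms.sum ≤ r ^ (4 * a) * n := by
      calc r ^ (2 * a) * ms.sum ≤ r ^ (2 * a) * (r * n) := Nat.mul_le_mul_left _ hsum
        _ = (r ^ (2 * a) * r) * n := by ring
        _ ≤ _ := Nat.mul_le_mul_right _ hp2
    have h2 : 1000 * r ^ (4 * a) * n ≤ n ^ 2 := by
      rw [pow_two]
      exact Nat.mul_le_mul_right _ hbig
    have h3 : r ^ (4 * a) ≤ r ^ (4 * a) * n := Nat.le_mul_of_pos_right _ (by omega)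
    calc P.Δ + r ^ (2 * a) * ms.sum ≤ 66 * r ^ (4 * a) + r ^ (4 * a) * n := add_le_add hΔle h1
      _ ≤ 1000 * r ^ (4 * a) * n := by nlinarith
      _ ≤ n ^ 2 := h2

end ZP.Rows
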