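import Pool.Agent.ZP.PJ
import Pool.Agent.ZP.Dec
import Pool.Agent.ZI.E5c

/-! # Row E5c: leak probabilities (with recovery), by projection -/

set_option autoImplicit false

open scoped ENNReal BigOperators Classical

noncomputable section

namespace ZI.E5cP

open ZI ZI.E5c ZI.Rows


theorem leakP_core (m : Model) (d : ℕ) {a A r0 : ℕ} (ha : 10 ≤ a) (hA : 1000 * a ≤ A) (hr00 : 10 ≤ r0) :
    ∃ r1 ≥ r0, ∀ r ≥ r1,
    ∀ n : ℕ, r ^ A ≤ n → n ≤ (2 * r) ^ A → ∀ q : Par d m, q.M = n ^ 4 →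
    ∀ (u : Fin d → ℝ), ∑ j, u j ^ 2 = 1 → ∀ m' N : ℕ,
    q.PP N (fun η w => LeakP q (bp d a r n) u m' η w) ≤ ENNReal.ofReal (Real.exp (- (r : ℝ))) := by
  obtain ⟨C, hC⟩ := mean_bound m
  obtain ⟨R1, hR1⟩ := final d a A C m.Gp m.le_Gp ha
  obtain ⟨R2, hR2⟩ := le_side a A m.Gp m.le_Gp ha hA
  refine ⟨max r0 (max R1 R2), le_max_left _ _, fun r hr n hn hn' q hq u hu m' N => ?_⟩
  have hr0 : r0 ≤ r := le_trans (le_max_left _ _) hr
  have hr1 := le_trans (le_trans (le_max_left _ _) (le_max_right _ _)) hr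
  have hr2 := le_trans (le_trans (le_max_right _ _) (le_max_right _ _)) hr
  have hr10 : 10 ≤ r := le_trans hr00 hr0
  have hrp : (1 : ℝ) ≤ r := by
    have : 1 ≤ r := by omega
    exact_mod_cast this
  have hGp := m.le_Gp
  have hpw : (1 : ℝ) ≤ (r : ℝ) ^ a := one_le_pow₀ hrp
  refine (PP_le q N _ C (hC d q) (ENNReal.ofReal (Real.exp (-((r : ℝ) ^ (2 * a) / (16 * m.Gp)))))
    fun η => ?_).trans (hR1 r hr1 n hn' q.M hq)
  set α : ℝ := -(1 / (16 * (r : ℝ) ^ a * m.Gp)) with hα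
  have hαneg : α < 0 := by
    rw [hα, neg_lt_zero]
    positivity
  have habs : |α| = 1 / (16 * (r : ℝ) ^ a * m.Gp) := by
    rw [hα, abs_neg, abs_of_pos (by positivity)]
  set B : ℕ → ℝ := fun i => m' + 3 * (bp d a r n).mg - ((i : ℝ) / q.N1) / (8 * (bp d a r n).κ)
    with hB'
  have hN1 : (0 : ℝ) < q.N1 := by exact_mod_cast q.N1_pos
  have hp := q.p_pos
  have hκ : ((bp d a r n).κ : ℝ) = (r : ℝ) ^ a := by simp [bp]
  have hmg : ((bp d a r n).mg : ℝ) = (r : ℝ) ^ (3 * a) := by simp [bp]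
  have hη := mix_zero_le (Up u (m' + 4 * (bp d a r n).mg)) η
  have key := confine m q u hu 0 α
    (by
      rw [habs, div_le_one (by positivity)]
      nlinarith)
    (by
      rw [habs]
      refine (hR2 r hr2 n hn q.M hq).trans ?_
      gcongr
      norm_num)
    (fun i => α * B i)
    (by
      intro i
      have h1 : B (i + 1) = B i - 1 / (8 * (r : ℝ) ^ a * q.N1) := by
        simp only [hB', hκ]
        push_cast
        field_simp
        ring
      have h2 : α * B (i + 1) = α * B i + (-α) / (8 * (r : ℝ) ^ a * q.N1) := by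
        rw [h1]
        ring
      rw [h2]
      have h3 : 2 * m.Gp * α ^ 2 * q.p ≤ (-α) / (8 * (r : ℝ) ^ a * q.N1) := by
        rw [le_div_iff₀ (by positivity)]
        have h4 : (q.N1 : ℝ) * q.p ≤ 1 := q.p_ub
        have h5 : 16 * (r : ℝ) ^ a * m.Gp * (-α) = 1 := by
          rw [hα]
          field_simp
        calc 2 * m.Gp * α ^ 2 * q.p * (8 * (r : ℝ) ^ a * q.N1)
            = (16 * (r : ℝ) ^ a * m.Gp * (-α)) * (-α) * (q.N1 * q.p) := by ring
          _ = (-α) * (q.N1 * q.p) := by rw [h5, one_mul]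
          _ ≤ (-α) * 1 := by
              gcongr
              linarith
          _ = -α := mul_one _
      linarith)
    _ η hη N
  refine le_trans ?_ (key.trans ?_)
  · refine PrE_mono q.w N fun l _ h => ?_
    obtain ⟨i, hi, v, hv, hl⟩ := h
    exact ⟨i, hi, v, hv.symm, mul_le_mul_of_nonpos_left hl hαneg.le⟩
  · refine Finset.sum_le_sum fun x _ => ?_
    by_cases hx : x ∈ Up u (m' + 4 * (bp d a r n).mg)
    · have h1 : (mix (Up u (m' + 4 * (bp d a r n).mg)) (fun _ => 0) η) x = 0 := by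
        simp [mix, hx]
      rw [h1, Nat.sub_zero]
      refine mul_le_mul_right (ENNReal.ofReal_le_ofReal (Real.exp_le_exp.mpr ?_)) _
      have h2 : (m' : ℝ) + 4 * (bp d a r n).mg ≤ Lev u 0 x := hx
      have h3 : α * Lev u 0 x ≤ α * (m' + 4 * (bp d a r n).mg) :=
        mul_le_mul_of_nonpos_left h2 hαneg.le
      have h4 : B 0 = m' + 3 * (bp d a r n).mg := by
        simp [hB']
      rw [h4]
      have h5 : α * ((bp d a r n).mg : ℝ) = -((r : ℝ) ^ (2 * a) / (16 * m.Gp)) := by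
        rw [hmg, hα, show 3 * a = a + 2 * a by ring, pow_add]
        field_simp
      nlinarith
    · have h1 : (mix (Up u (m' + 4 * (bp d a r n).mg)) (fun _ => 0) η) x = η x := by
        simp [mix, hx]
      rw [h1, Nat.sub_self]
      simp

theorem leakF_core (m : Model) (d : ℕ) {a A r0 : ℕ} (ha : 10 ≤ a) (hA : 1000 * a ≤ A) (hr00 : 10 ≤ r0) :
    ∃ r1 ≥ r0, ∀ r ≥ r1,
    ∀ n : ℕ, r ^ A ≤ n → n ≤ (2 * r) ^ A → ∀ q : Par d m, q.M = n ^ 4 →
    ∀ (u : Fin d → ℝ), ∑ j, u j ^ 2 = 1 → ∀ m' N : ℕ,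
    q.PP N (fun η w => LeakF q (bp d a r n) u m' η w) ≤ ENNReal.ofReal (Real.exp (- (r : ℝ))) := by
  obtain ⟨C, hC⟩ := mean_bound m
  obtain ⟨R1, hR1⟩ := final d a A C m.Gp m.le_Gp ha
  obtain ⟨R2, hR2⟩ := le_side a A m.Gp m.le_Gp ha hA
  refine ⟨max r0 (max R1 R2), le_max_left _ _, fun r hr n hn hn' q hq u hu m' N => ?_⟩
  have hr0 : r0 ≤ r := le_trans (le_max_left _ _) hr
  have hr1 := le_trans (le_trans (le_max_left _ _) (le_max_right _ _)) hr
  have hr2 := le_trans (le_trans (le_max_right _ _) (le_max_right _ _)) hr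
  have hr10 : 10 ≤ r := le_trans hr00 hr0
  have hrp : (1 : ℝ) ≤ r := by
    have : 1 ≤ r := by omega
    exact_mod_cast this
  have hGp := m.le_Gp
  have hpw : (1 : ℝ) ≤ (r : ℝ) ^ a := one_le_pow₀ hrp
  refine (PP_le q N _ C (hC d q) (ENNReal.ofReal (Real.exp (-((r : ℝ) ^ (2 * a) / (16 * m.Gp)))))
    fun η => ?_).trans (hR1 r hr1 n hn' q.M hq)
  set α : ℝ := 1 / (32 * (r : ℝ) ^ a * m.Gp) with hα
  have hαpos : 0 < α := by
    rw [hα]
    positivity
  have habs : |α| = 1 / (32 * (r : ℝ) ^ a * m.Gp) := abs_of_pos hαpos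
  set B : ℕ → ℝ := fun i => m' + 6 * (bp d a r n).mg + ((i : ℝ) / q.N1) / (16 * (bp d a r n).κ)
    with hB'
  have hN1 : (0 : ℝ) < q.N1 := by exact_mod_cast q.N1_pos
  have hp := q.p_pos
  have hκ : ((bp d a r n).κ : ℝ) = (r : ℝ) ^ a := by simp [bp]
  have hmg : ((bp d a r n).mg : ℝ) = (r : ℝ) ^ (3 * a) := by simp [bp]
  have hη := mix_zero_le' (Up u (m' + 4 * (bp d a r n).mg)) η
  have key := confine m q u hu 0 α
    (by
      rw [habs, div_le_one (by positivity)]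
      nlinarith)
    (by
      rw [habs]
      exact hR2 r hr2 n hn q.M hq)
    (fun i => α * B i)
    (by
      intro i
      have h1 : B (i + 1) = B i + 1 / (16 * (r : ℝ) ^ a * q.N1) := by
        simp only [hB', hκ]
        push_cast
        field_simp
        ring
      have h2 : α * B (i + 1) = α * B i + α / (16 * (r : ℝ) ^ a * q.N1) := by
        rw [h1]
        ring
      rw [h2]
      have h3 : 2 * m.Gp * α ^ 2 * q.p ≤ α / (16 * (r : ℝ) ^ a * q.N1) := by
        rw [le_div_iff₀ (by positivity)]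
        have h4 : (q.N1 : ℝ) * q.p ≤ 1 := q.p_ub
        have h5 : 32 * (r : ℝ) ^ a * m.Gp * α = 1 := by
          rw [hα]
          field_simp
        calc 2 * m.Gp * α ^ 2 * q.p * (16 * (r : ℝ) ^ a * q.N1)
            = (32 * (r : ℝ) ^ a * m.Gp * α) * α * (q.N1 * q.p) := by ring
          _ = α * (q.N1 * q.p) := by rw [h5, one_mul]
          _ ≤ α * 1 := by gcongr
          _ = α := mul_one _
      linarith)
    _ η hη N
  refine le_trans ?_ (key.trans ?_)
  · refine PrE_mono q.w N fun l _ h => ?_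
    obtain ⟨i, hi, v, hv, hl⟩ := h
    exact ⟨i, hi, v, hv.symm, mul_le_mul_of_nonneg_left hl hαpos.le⟩
  · refine Finset.sum_le_sum fun x _ => ?_
    by_cases hx : x ∈ Up u (m' + 4 * (bp d a r n).mg)
    · have h1 : (mix (Up u (m' + 4 * (bp d a r n).mg)) η (fun _ => 0)) x = η x := by
        simp [mix, hx]
      rw [h1, Nat.sub_self]
      simp
    · have h1 : (mix (Up u (m' + 4 * (bp d a r n).mg)) η (fun _ => 0)) x = 0 := by
        simp [mix, hx]
      rw [h1, Nat.sub_zero]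
      refine mul_le_mul_right (ENNReal.ofReal_le_ofReal (Real.exp_le_exp.mpr ?_)) _
      have h2 : Lev u 0 x ≤ (m' : ℝ) + 4 * (bp d a r n).mg := (not_le.mp hx).le
      have h3 : α * Lev u 0 x ≤ α * (m' + 4 * (bp d a r n).mg) :=
        mul_le_mul_of_nonneg_left h2 hαpos.le
      have h4 : B 0 = m' + 6 * (bp d a r n).mg := by
        simp [hB']
      rw [h4]
      have h5 : 2 * (α * ((bp d a r n).mg : ℝ)) = (r : ℝ) ^ (2 * a) / (16 * m.Gp) := by
        rw [hmg, hα, show 3 * a = a + 2 * a by ring, pow_add]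
        field_simp
        norm_num
      nlinarith

end ZI.E5cP

namespace ZP.Rows

open ZP

variable {d : ℕ} {m : Model} {δ : ℝ}

theorem foldl_stepA_prj {M K : ℕ} (l : List (Let d M (K + 1))) : ∀ η : Tor d M → ℕ,
    l.foldl stepA η = (l.map prj).foldl ZI.stepA η := by
  induction l with
  | nil => intro η; rfl
  | cons a l ih =>
    intro η
    rw [List.foldl_cons, List.map_cons, List.foldl_cons, stepA_prj, ih]

theorem leakP_prj (q : Par d m δ) (P : BP) (u : Fin d → ℝ) (m' : ℕ) (η : Tor d q.M → ℕ)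
    (w : List (Let d q.M (q.K + 1))) :
    LeakP q P u m' η w ↔ ZI.LeakP q.toZI P u m' η (w.map prj) := by
  have hlen : (w.map prj).length = w.length := List.length_map _
  constructor
  · rintro ⟨i, hi, v, hv, hl⟩
    refine ⟨i, hi.trans hlen.ge, v, fun h => hv ?_, hl⟩
    rw [foldl_stepA_prj, foldl_stepA_prj, List.map_take]
    exact h
  · rintro ⟨i, hi, v, hv, hl⟩
    refine ⟨i, hi.trans hlen.le, v, fun h => hv ?_, hl⟩
    rw [foldl_stepA_prj, foldl_stepA_prj, List.map_take] at h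
    exact h

theorem leakF_prj (q : Par d m δ) (P : BP) (u : Fin d → ℝ) (m' : ℕ) (η : Tor d q.M → ℕ)
    (w : List (Let d q.M (q.K + 1))) :
    LeakF q P u m' η w ↔ ZI.LeakF q.toZI P u m' η (w.map prj) := by
  have hlen : (w.map prj).length = w.length := List.length_map _
  constructor
  · rintro ⟨i, hi, v, hv, hl⟩
    refine ⟨i, hi.trans hlen.ge, v, fun h => hv ?_, hl⟩
    rw [foldl_stepA_prj, foldl_stepA_prj, List.map_take]
    exact h
  · rintro ⟨i, hi, v, hv, hl⟩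
    refine ⟨i, hi.trans hlen.le, v, fun h => hv ?_, hl⟩
    rw [foldl_stepA_prj, foldl_stepA_prj, List.map_take] at h
    exact h

theorem leakP_le {Cv a A r0 : ℕ} {c : ℝ} (hB : Base m δ d Cv a A r0 c) : ∃ r1 ≥ r0, ∀ r ≥ r1,
    ∀ n : ℕ, r ^ A ≤ n → n ≤ (2 * r) ^ A → ∀ q : Par d m δ, q.M = n ^ 4 →
    ∀ (u : Fin d → ℝ), ∑ j, u j ^ 2 = 1 → ∀ m' N : ℕ,
    q.PP N (fun η w => LeakP q (bp d a r n) u m' η w) ≤ ENNReal.ofReal (Real.exp (- (r : ℝ))) := by
  obtain ⟨r1, hr1, h⟩ := ZI.E5cP.leakP_core m d hB.a_big hB.A_big hB.r0_big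
  refine ⟨r1, hr1, fun r hr n hn hn' q hq u hu m' N => ?_⟩
  have h1 := h r hr n hn hn' q.toZI hq u hu m' N
  refine le_trans (le_of_eq ?_) h1
  refine Eq.trans ?_ (PP_prj q hB.d_pos N (fun η w => ZI.LeakP q.toZI (bp d a r n) u m' η w))
  congr 1
  funext η w
  exact propext (leakP_prj q (bp d a r n) u m' η w)

theorem leakF_le {Cv a A r0 : ℕ} {c : ℝ} (hB : Base m δ d Cv a A r0 c) : ∃ r1 ≥ r0, ∀ r ≥ r1,
    ∀ n : ℕ, r ^ A ≤ n → n ≤ (2 * r) ^ A → ∀ q : Par d m δ, q.M = n ^ 4 →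
    ∀ (u : Fin d → ℝ), ∑ j, u j ^ 2 = 1 → ∀ m' N : ℕ,
    q.PP N (fun η w => LeakF q (bp d a r n) u m' η w) ≤ ENNReal.ofReal (Real.exp (- (r : ℝ))) := by
  obtain ⟨r1, hr1, h⟩ := ZI.E5cP.leakF_core m d hB.a_big hB.A_big hB.r0_big
  refine ⟨r1, hr1, fun r hr n hn hn' q hq u hu m' N => ?_⟩
  have h1 := h r hr n hn hn' q.toZI hq u hu m' N
  refine le_trans (le_of_eq ?_) h1
  refine Eq.trans ?_ (PP_prj q hB.d_pos N (fun η w => ZI.LeakF q.toZI (bp d a r n) u m' η w))
  congr 1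
  funext η w
  exact propext (leakF_prj q (bp d a r n) u m' η w)

end ZP.Rows
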