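import Pool.Agent.ZP.E4
import Pool.Agent.ZP.E5a
import Pool.Agent.ZP.E5b
import Pool.Agent.ZP.R2
import Pool.Agent.ZP.E1
import Pool.Agent.ZP.E3
import Pool.Agent.ZP.E5c
import Pool.Agent.ZI.E5d

/-! # Row E5d: one-step decoupling of blocks (with recovery) -/

set_option autoImplicit false

open scoped ENNReal BigOperators Classical Pointwise

noncomputable section

namespace ZP.E5d

open ZP ZP.Rows
open ZI (EvE_mono EvE_const EvE_mul PrE_le_one PrE_mono PrE_or)

export ZI.E5d (supn_le_iff supn_add_le supn_v0_le mix_mix exp_bound)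

variable {d : ℕ} {m : Model} {δ : ℝ}

/-! ### expectations -/

theorem EE_mono (q : Par d m δ) (N : ℕ) {F G : (Tor d q.M → ℕ) → List (Let d q.M (q.K + 1)) → ℝ≥0∞}
    (h : ∀ η l, l.length = N → F η l ≤ G η l) : q.EE N F ≤ q.EE N G := by
  unfold Par.EE
  exact ENNReal.tsum_le_tsum fun η => mul_le_mul_right (EvE_mono q.w N fun l hl => h η l hl) _

theorem PP_mono (q : Par d m δ) (N : ℕ) {F G : (Tor d q.M → ℕ) → List (Let d q.M (q.K + 1)) → Prop}
    (h : ∀ η l, l.length = N → F η l → G η l) : q.PP N F ≤ q.PP N G := by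
  refine EE_mono q N fun η l hl => ?_
  by_cases h1 : F η l
  · rw [if_pos h1, if_pos (h η l hl h1)]
  · rw [if_neg h1]
    exact zero_le

theorem PP_le_one (q : Par d m δ) (hd : 0 < d) (N : ℕ)
    (F : (Tor d q.M → ℕ) → List (Let d q.M (q.K + 1)) → Prop) : q.PP N F ≤ 1 := by
  unfold Par.PP Par.EE
  calc ∑' η, prw (m.m1 q.K) η * EvE q.w N (fun l => if F η l then 1 else 0)
      ≤ ∑' η, prw (m.m1 q.K) η * 1 :=
        ENNReal.tsum_le_tsum fun η => mul_le_mul_right (PrE_le_one q.w (sum_w q hd) N (F η)) _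
    _ = 1 := by simp_rw [mul_one]; exact ZI.Rows.tsum_prw q.toZI

/-- letters after the first `N` ones do not matter -/
theorem EE_take (q : Par d m δ) (hd : 0 < d) (N M : ℕ)
    (F : (Tor d q.M → ℕ) → List (Let d q.M (q.K + 1)) → ℝ≥0∞) :
    q.EE (N + M) (fun η l => F η (l.take N)) = q.EE N F := by
  unfold Par.EE
  refine tsum_congr fun η => ?_
  congr 1
  have h := ZI.R2aux.EvE_take_drop q.w M N (fun l _ => F η l)
  rw [h]
  congr 1
  funext l
  exact EvE_const q.w (sum_w q hd) M (F η l)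

theorem PP_take (q : Par d m δ) (hd : 0 < d) (N M : ℕ)
    (F : (Tor d q.M → ℕ) → List (Let d q.M (q.K + 1)) → Prop) :
    q.PP (N + M) (fun η l => F η (l.take N)) = q.PP N F :=
  EE_take q hd N M (fun η l => if F η l then 1 else 0)

/-- the last configuration of a path -/
theorem headD_reverse_path {M K : ℕ} (w : List (Let d M K)) : ∀ (η : Tor d M → ℕ)
    (η0 : Tor d M → ℕ), (path η w).reverse.headD η0 = w.foldl stepA η := by
  induction w with
  | nil => intro η η0; rfl
  | cons a w ih =>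
    intro η η0
    have h := ih (stepA η a) η
    rw [path, List.reverse_cons, List.foldl_cons, ← h]
    cases h2 : (path (stepA η a) w).reverse with
    | nil =>
      exfalso
      have h3 : path (stepA η a) w = [] := by simpa using h2
      cases w <;> simp [path] at h3
    | cons b t => rfl

theorem length_path {M K : ℕ} (w : List (Let d M K)) : ∀ (η : Tor d M → ℕ),
    (path η w).length = w.length + 1 := by
  induction w with
  | nil => intro η; rfl
  | cons a w ih =>
    intro η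
    rw [path, List.length_cons, ih, List.length_cons]

theorem getD_path {M K : ℕ} (w : List (Let d M K)) : ∀ (η η0 : Tor d M → ℕ) (i : ℕ),
    i ≤ w.length → (path η w).getD i η0 = (w.take i).foldl stepA η := by
  induction w with
  | nil =>
    intro η η0 i hi
    have : i = 0 := by simpa using hi
    subst this
    rfl
  | cons a w ih =>
    intro η η0 i hi
    cases i with
    | zero => rfl
    | succ i =>
      rw [path, List.getD_cons_succ, ih (stepA η a) η0 i (by simpa using hi)]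
      rfl

theorem getD_reverse_path {M K : ℕ} (w : List (Let d M K)) (η η0 : Tor d M → ℕ) (i : ℕ)
    (hi : i ≤ w.length) :
    (path η w).reverse.getD i η0 = (w.take (w.length - i)).foldl stepA η := by
  rw [← getD_path w η η0 (w.length - i) (by omega)]
  have h1 : i < (path η w).length := by rw [length_path]; omega
  have h2 : w.length - i < (path η w).length := by rw [length_path]; omega
  rw [List.getD_eq_getElem?_getD, List.getD_eq_getElem?_getD, List.getElem?_reverse h1, length_path]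
  congr 2

/-! ### the abstract decoupling -/

theorem decouple (q : Par d m δ) (hd : 0 < d) (N M : ℕ) (U : Set (Tor d q.M))
    (a b lp lf bad : (Tor d q.M → ℕ) → List (Let d q.M (q.K + 1)) → Prop)
    (ha : ∀ η η' w, w.length = N → a η w → a (mix U η' η) w ∨ lp η w ∨ lp (mix U η' η) w)
    (hb : ∀ η η' w, w.length = M → b η w →
      b (mix U η η') w ∨ lf η w ∨ lf (mix U η η') w ∨ bad η w) :
    ∑' η : Tor d q.M → ℕ, prw (m.m1 q.K) η * (PrE q.w N (a η) * PrE q.w M (b η)) ≤
      q.PP N a * q.PP M b + 2 * q.PP N lp + 2 * q.PP M lf + q.PP M bad := by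
  have hw := sum_w q hd
  have hA1 : ∀ η, PrE q.w N (a η) ≤ 1 := fun η => PrE_le_one q.w hw N _
  have hB1 : ∀ η, PrE q.w M (b η) ≤ 1 := fun η => PrE_le_one q.w hw M _
  have hA : ∀ η η', PrE q.w N (a η) ≤
      PrE q.w N (a (mix U η' η)) + PrE q.w N (lp η) + PrE q.w N (lp (mix U η' η)) := by
    intro η η'
    calc PrE q.w N (a η) ≤ PrE q.w N (fun w => a (mix U η' η) w ∨ lp η w ∨ lp (mix U η' η) w) :=
          PrE_mono q.w N fun w hl h => ha η η' w hl h
      _ ≤ PrE q.w N (a (mix U η' η)) + PrE q.w N (fun w => lp η w ∨ lp (mix U η' η) w) :=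
          PrE_or q.w N _ _
      _ ≤ PrE q.w N (a (mix U η' η)) + (PrE q.w N (lp η) + PrE q.w N (lp (mix U η' η))) :=
          add_le_add le_rfl (PrE_or q.w N _ _)
      _ = _ := by rw [add_assoc]
  have hB : ∀ η η', PrE q.w M (b η) ≤
      PrE q.w M (b (mix U η η')) + PrE q.w M (lf η) + PrE q.w M (lf (mix U η η')) +
        PrE q.w M (bad η) := by
    intro η η'
    calc PrE q.w M (b η)
        ≤ PrE q.w M (fun w => b (mix U η η') w ∨ lf η w ∨ lf (mix U η η') w ∨ bad η w) :=
          PrE_mono q.w M fun w hl h => hb η η' w hl h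
      _ ≤ PrE q.w M (b (mix U η η')) +
          PrE q.w M (fun w => lf η w ∨ lf (mix U η η') w ∨ bad η w) := PrE_or q.w M _ _
      _ ≤ PrE q.w M (b (mix U η η')) + (PrE q.w M (lf η) +
          PrE q.w M (fun w => lf (mix U η η') w ∨ bad η w)) :=
          add_le_add le_rfl (PrE_or q.w M _ _)
      _ ≤ PrE q.w M (b (mix U η η')) + (PrE q.w M (lf η) +
          (PrE q.w M (lf (mix U η η')) + PrE q.w M (bad η))) :=
          add_le_add le_rfl (add_le_add le_rfl (PrE_or q.w M _ _))
      _ = _ := by ring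
  have hAB : ∀ η η', PrE q.w N (a η) * PrE q.w M (b η) ≤
      (PrE q.w N (a (mix U η' η)) * PrE q.w M (b (mix U η η')) + PrE q.w N (lp (mix U η' η)) +
        PrE q.w M (lf (mix U η η'))) +
      (PrE q.w N (lp η) + PrE q.w M (lf η) + PrE q.w M (bad η)) := by
    intro η η'
    calc PrE q.w N (a η) * PrE q.w M (b η)
        ≤ (PrE q.w N (a (mix U η' η)) + PrE q.w N (lp η) + PrE q.w N (lp (mix U η' η))) *
          PrE q.w M (b η) := mul_le_mul_left (hA η η') _
      _ = PrE q.w N (a (mix U η' η)) * PrE q.w M (b η) + PrE q.w N (lp η) * PrE q.w M (b η) +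
          PrE q.w N (lp (mix U η' η)) * PrE q.w M (b η) := by ring
      _ ≤ PrE q.w N (a (mix U η' η)) * (PrE q.w M (b (mix U η η')) + PrE q.w M (lf η) +
          PrE q.w M (lf (mix U η η')) + PrE q.w M (bad η)) + PrE q.w N (lp η) * 1 +
          PrE q.w N (lp (mix U η' η)) * 1 :=
          add_le_add (add_le_add (mul_le_mul_right (hB η η') _) (mul_le_mul_right (hB1 η) _))
            (mul_le_mul_right (hB1 η) _)
      _ = PrE q.w N (a (mix U η' η)) * PrE q.w M (b (mix U η η')) +
          PrE q.w N (a (mix U η' η)) * (PrE q.w M (lf η) +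
          PrE q.w M (lf (mix U η η')) + PrE q.w M (bad η)) + PrE q.w N (lp η) * 1 +
          PrE q.w N (lp (mix U η' η)) * 1 := by ring
      _ ≤ PrE q.w N (a (mix U η' η)) * PrE q.w M (b (mix U η η')) +
          1 * (PrE q.w M (lf η) +
          PrE q.w M (lf (mix U η η')) + PrE q.w M (bad η)) + PrE q.w N (lp η) * 1 +
          PrE q.w N (lp (mix U η' η)) * 1 :=
          add_le_add (add_le_add (add_le_add le_rfl (mul_le_mul_left (hA1 _) _)) le_rfl) le_rfl
      _ = _ := by ring
  have hswap := ZI.Rows.mix_swap (m.m1 q.K) U (fun η η' => PrE q.w N (a η') * PrE q.w M (b η) +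
    PrE q.w N (lp η') + PrE q.w M (lf η))
  have h1 : ∑' η : Tor d q.M → ℕ, prw (m.m1 q.K) η = 1 := ZI.Rows.tsum_prw q.toZI
  have hP : ∀ F : (Tor d q.M → ℕ) → List (Let d q.M (q.K + 1)) → Prop, ∀ K : ℕ,
      ∑' η : Tor d q.M → ℕ, prw (m.m1 q.K) η * PrE q.w K (F η) = q.PP K F := fun F K => rfl
  calc ∑' η : Tor d q.M → ℕ, prw (m.m1 q.K) η * (PrE q.w N (a η) * PrE q.w M (b η))
      = ∑' η : Tor d q.M → ℕ, ∑' η' : Tor d q.M → ℕ, prw (m.m1 q.K) η * (prw (m.m1 q.K) η' *
          (PrE q.w N (a η) * PrE q.w M (b η))) := by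
        refine tsum_congr fun η => ?_
        rw [ENNReal.tsum_mul_left, ENNReal.tsum_mul_right, h1, one_mul]
    _ ≤ ∑' η : Tor d q.M → ℕ, ∑' η' : Tor d q.M → ℕ, (prw (m.m1 q.K) η * (prw (m.m1 q.K) η' *
          (PrE q.w N (a (mix U η' η)) * PrE q.w M (b (mix U η η')) + PrE q.w N (lp (mix U η' η)) +
            PrE q.w M (lf (mix U η η')))) + prw (m.m1 q.K) η * (prw (m.m1 q.K) η' *
          (PrE q.w N (lp η) + PrE q.w M (lf η) + PrE q.w M (bad η)))) := by
        refine ENNReal.tsum_le_tsum fun η => ENNReal.tsum_le_tsum fun η' => ?_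
        rw [← mul_add, ← mul_add]
        exact mul_le_mul_right (mul_le_mul_right (hAB η η') _) _
    _ = (∑' η : Tor d q.M → ℕ, ∑' η' : Tor d q.M → ℕ, prw (m.m1 q.K) η * (prw (m.m1 q.K) η' *
          (PrE q.w N (a (mix U η' η)) * PrE q.w M (b (mix U η η')) + PrE q.w N (lp (mix U η' η)) +
            PrE q.w M (lf (mix U η η'))))) +
        ∑' η : Tor d q.M → ℕ, ∑' η' : Tor d q.M → ℕ, prw (m.m1 q.K) η * (prw (m.m1 q.K) η' *
          (PrE q.w N (lp η) + PrE q.w M (lf η) + PrE q.w M (bad η))) := by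
        rw [← ENNReal.tsum_add]
        exact tsum_congr fun η => ENNReal.tsum_add
    _ = (∑' η : Tor d q.M → ℕ, ∑' η' : Tor d q.M → ℕ, prw (m.m1 q.K) η * (prw (m.m1 q.K) η' *
          (PrE q.w N (a η') * PrE q.w M (b η) + PrE q.w N (lp η') + PrE q.w M (lf η)))) +
        (q.PP N lp + q.PP M lf + q.PP M bad) := by
        rw [hswap]
        congr 1
        have h2 : ∀ η : Tor d q.M → ℕ, ∑' η' : Tor d q.M → ℕ, prw (m.m1 q.K) η *
            (prw (m.m1 q.K) η' * (PrE q.w N (lp η) + PrE q.w M (lf η) + PrE q.w M (bad η))) =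
            prw (m.m1 q.K) η * PrE q.w N (lp η) + prw (m.m1 q.K) η * PrE q.w M (lf η) +
              prw (m.m1 q.K) η * PrE q.w M (bad η) := fun η => by
          rw [ENNReal.tsum_mul_left, ENNReal.tsum_mul_right, h1, one_mul]
          ring
        simp_rw [h2]
        rw [ENNReal.tsum_add, ENNReal.tsum_add, hP, hP, hP]
    _ = (q.PP N a * q.PP M b + q.PP N lp + q.PP M lf) + (q.PP N lp + q.PP M lf + q.PP M bad) := by
        congr 1
        have h2 : ∀ η : Tor d q.M → ℕ, ∑' η' : Tor d q.M → ℕ, prw (m.m1 q.K) η *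
            (prw (m.m1 q.K) η' * (PrE q.w N (a η') * PrE q.w M (b η) + PrE q.w N (lp η') +
              PrE q.w M (lf η))) =
            prw (m.m1 q.K) η * PrE q.w M (b η) * q.PP N a + prw (m.m1 q.K) η * q.PP N lp +
              prw (m.m1 q.K) η * PrE q.w M (lf η) := fun η => by
          rw [ENNReal.tsum_mul_left]
          have h3 : ∑' η' : Tor d q.M → ℕ, prw (m.m1 q.K) η' * (PrE q.w N (a η') *
              PrE q.w M (b η) + PrE q.w N (lp η') + PrE q.w M (lf η)) =
              q.PP N a * PrE q.w M (b η) + q.PP N lp + PrE q.w M (lf η) := by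
            have h4 : ∀ η' : Tor d q.M → ℕ, prw (m.m1 q.K) η' * (PrE q.w N (a η') *
              PrE q.w M (b η) + PrE q.w N (lp η') + PrE q.w M (lf η)) =
              prw (m.m1 q.K) η' * PrE q.w N (a η') * PrE q.w M (b η) +
              prw (m.m1 q.K) η' * PrE q.w N (lp η') + prw (m.m1 q.K) η' * PrE q.w M (lf η) :=
              fun η' => by ring
            simp_rw [h4]
            rw [ENNReal.tsum_add, ENNReal.tsum_add, ENNReal.tsum_mul_right, hP, hP,
              ENNReal.tsum_mul_right, h1, one_mul]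
          rw [h3]
          ring
        simp_rw [h2]
        rw [ENNReal.tsum_add, ENNReal.tsum_add, ENNReal.tsum_mul_right, hP, hP,
          ENNReal.tsum_mul_right, h1, one_mul]
        ring
    _ = _ := by ring

/-! ### small facts -/

theorem agreeW_symm {E E' : Env d} {Γ : ℕ → Set (Pos d)} {T : ℕ} (h : AgreeW E E' Γ T) :
    AgreeW E' E Γ T :=
  ⟨fun t ht x hx => (h.occ t ht x hx).symm, fun G hG s t x y ht => (h.R G hG s t x y ht).symm⟩

/-- the numbers -/
theorem numbers (k n r m' y1 S : ℕ) (hk : 10 ≤ k) (hr : r ≤ k) (hn : k ^ 10 ≤ n)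
    (hm : m' + S ≤ r * n) (hy : (y1 : ℝ) ≤ 4 * k * (m' + 2 * (k : ℝ) ^ 3)) :
    k + y1 ≤ n ^ 2 ∧ 2 * (k + y1 + (64 * k ^ 3 + 2) * k) ≤ n ^ 2 ∧
      k + y1 + (64 * k ^ 3 + 2) * k + k ^ 2 * S ≤ n ^ 2 ∧ 2 * ((64 * k ^ 3 + 2) * k) ≤ n ^ 2 ∧
      32 * k ^ 3 + 1 ≤ n ^ 2 ∧ k ≤ (64 * k ^ 3 + 2) * k := by
  have hy' : y1 ≤ 4 * k * (m' + 2 * k ^ 3) := by exact_mod_cast hy
  have hmk : m' + S ≤ k * n := hm.trans (Nat.mul_le_mul_right _ hr)
  have h1 : 4 * k * (m' + 2 * k ^ 3) ≤ 4 * k ^ 2 * n + 8 * k ^ 4 := by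
    have : m' ≤ k * n := by omega
    calc 4 * k * (m' + 2 * k ^ 3) ≤ 4 * k * (k * n + 2 * k ^ 3) := by gcongr
      _ = _ := by ring
  have h2 : k ^ 2 * S ≤ k ^ 3 * n := by
    have : S ≤ k * n := by omega
    calc k ^ 2 * S ≤ k ^ 2 * (k * n) := by gcongr
      _ = _ := by ring
  have h3 : k ^ 10 * n ≤ n ^ 2 := by
    rw [sq]
    exact Nat.mul_le_mul_right _ hn
  have h4 : 1000 * k ^ 4 ≤ k ^ 10 := by
    calc 1000 * k ^ 4 ≤ k ^ 6 * k ^ 4 := by
          gcongr
          calc 1000 ≤ 10 ^ 6 := by norm_num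
            _ ≤ k ^ 6 := Nat.pow_le_pow_left hk 6
      _ = k ^ 10 := by ring
  have h5 : 1000 * k ^ 4 * n ≤ n ^ 2 := (Nat.mul_le_mul_right _ h4).trans h3
  have hk4 : k ^ 3 ≤ k ^ 4 := Nat.pow_le_pow_right (by omega) (by norm_num)
  have hk2 : k ^ 2 ≤ k ^ 4 := Nat.pow_le_pow_right (by omega) (by norm_num)
  have hk1 : k ≤ k ^ 4 := by
    calc k = k ^ 1 := (pow_one k).symm
      _ ≤ k ^ 4 := Nat.pow_le_pow_right (by omega) (by norm_num)
  have hn1 : 1 ≤ n := by
    have : 1 ≤ k ^ 10 := Nat.one_le_pow _ _ (by omega)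
    omega
  have h6 : k ^ 4 ≤ k ^ 4 * n := Nat.le_mul_of_pos_right _ hn1
  have h7 : k ^ 2 * n ≤ k ^ 4 * n := Nat.mul_le_mul_right _ hk2
  have h8 : k ^ 3 * n ≤ k ^ 4 * n := Nat.mul_le_mul_right _ hk4
  have hΔ : (64 * k ^ 3 + 2) * k = 64 * k ^ 4 + 2 * k := by ring
  rw [hΔ]
  have h9 : 1000 * (k ^ 4 * n) ≤ n ^ 2 := by
    calc 1000 * (k ^ 4 * n) = 1000 * k ^ 4 * n := by ring
      _ ≤ n ^ 2 := h5
  have h10 : 4 * k ^ 2 * n = 4 * (k ^ 2 * n) := by ring
  rw [h10] at h1
  have hk4' : 1 ≤ k ^ 4 := Nat.one_le_pow _ _ (by omega)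
  refine ⟨?_, ?_, ?_, ?_, ?_, ?_⟩ <;> omega

end ZP.E5d

namespace ZP.E5d

open ZP ZP.Rows

variable {d : ℕ} {m : Model} {δ : ℝ}

/-- the second block onwards is a function of the configuration at the time `s0` and the future letters -/
theorem chain_drop (q : Par d m δ) (η : Tor d q.M → ℕ) (l : List (Let d q.M (q.K + 1))) (P : BP)
    (u : Fin d → ℝ) (ms : List ℕ) (z : Pos d) (s0 t : ℕ) (ht : P.κ ≤ t) :
    (envT q η l).chain P u ms z (s0 + t) =
      (envT q ((l.take (s0 * q.N1)).foldl stepA η) (l.drop (s0 * q.N1))).chain P u ms z t := by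
  obtain ⟨t', rfl⟩ : ∃ t', t = t' + P.κ := ⟨t - P.κ, by omega⟩
  rw [← Nat.add_assoc, chain_shift q η l P u ms z (s0 + t'),
    chain_shift q ((l.take (s0 * q.N1)).foldl stepA η) (l.drop (s0 * q.N1)) P u ms z t']
  have h1 : (s0 + t') * q.N1 = s0 * q.N1 + t' * q.N1 := by ring
  rw [h1, List.take_add, List.foldl_append, List.drop_drop]

end ZP.E5d

namespace ZP.Rows

open ZP E5d

variable {d : ℕ} {m : Model} {δ : ℝ}

/-- one-step decoupling -/
theorem one_step {Cv a A r0 : ℕ} {c : ℝ} (hB : Base m δ d Cv a A r0 c) : ∃ c' : ℝ, 0 < c' ∧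
    ∃ r1 ≥ r0, ∀ r ≥ r1, ∀ n : ℕ, r ^ A ≤ n → n ≤ (2 * r) ^ A → ∀ q : Par d m δ, q.M = n ^ 4 →
    q.Tiny n →
    ∀ (u : Fin d → ℝ), ∑ j, u j ^ 2 = 1 → ∀ m' : ℕ, r ^ (7 * a) ≤ m' → m' ≤ r * n →
    ∀ y : ℕ × Pos d, Adm (bp d a r n) u r Cv m' n y →
    ∀ ms : List ℕ, (∀ m'' ∈ ms, r ^ (7 * a) ≤ m'') → m' + ms.sum ≤ r * n →
    ∀ G : List (ℕ × Pos d) → Prop,
    q.PP (n ^ 2 * q.N1) (fun η l => (envT q η l).Good r (r ^ a) Cv (n ^ 2) (n ^ 2) ∧
      (envT q η l).blk (bp d a r n) u m' 0 (r ^ a) = y ∧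
      G ((envT q η l).chain (bp d a r n) u ms (y.2 + v0 (bp d a r n) u)
        (r ^ a + y.1 + (bp d a r n).Δ))) ≤
    QT q (bp d a r n) u n m' y *
      q.PP (n ^ 2 * q.N1) (fun η l => G ((envT q η l).chain (bp d a r n) u ms 0 (r ^ a))) +
      ENNReal.ofReal (Real.exp (- c' * r)) := by
  obtain ⟨ra, hra, H3⟩ := chain_eq hB
  obtain ⟨rb, hrb, H4⟩ := start_inv hB
  obtain ⟨rc, hrc, H5⟩ := past_transfer hB
  obtain ⟨rd, hrd, H6⟩ := pastEv_of_good hB
  obtain ⟨re, hre, H7⟩ := future_transfer hB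
  obtain ⟨rf, hrf, H8⟩ := leakP_le hB
  obtain ⟨rg, hrg, H9⟩ := leakF_le hB
  have hc := hB.c_pos
  refine ⟨min 1 c / 2, by have := lt_min one_pos hc; linarith,
    ra + rb + rc + rd + re + rf + rg + 10 + ⌈10 / c⌉₊, by omega, ?_⟩
  intro r hr n hn hn2 q hq hT u hu m' hm' hm'n y hy ms hms hsum G
  have hd := hB.d_pos
  -- numbers
  have ha10 := hB.a_big
  have hA := hB.A_big
  have hr10 : 10 ≤ r := by omega
  have hrc10 : 10 / c ≤ (r : ℝ) := by
    have h1 : ⌈10 / c⌉₊ ≤ r := by omega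
    exact (Nat.le_ceil _).trans (by exact_mod_cast h1)
  set P := bp d a r n with hP
  have hk10 : 10 ≤ r ^ a := by
    calc 10 ≤ r := hr10
      _ = r ^ 1 := (pow_one r).symm
      _ ≤ r ^ a := Nat.pow_le_pow_right (by omega) (by omega)
  have hrk : r ≤ r ^ a := by
    calc r = r ^ 1 := (pow_one r).symm
      _ ≤ r ^ a := Nat.pow_le_pow_right (by omega) (by omega)
  have hkn : (r ^ a) ^ 10 ≤ n := by
    rw [← pow_mul]
    exact (Nat.pow_le_pow_right (by omega) (by omega)).trans hn
  have hmg : P.mg = (r ^ a) ^ 3 := by rw [← pow_mul, mul_comm]; rfl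
  have hκ : P.κ = r ^ a := rfl
  have hΔ : P.Δ = (64 * (r ^ a) ^ 3 + 2) * r ^ a := by
    rw [← pow_mul, mul_comm a 3]; rfl
  have hl0 : P.l0 = 32 * (r ^ a) ^ 3 := by rw [← pow_mul, mul_comm a 3]; rfl
  have h2a : r ^ (2 * a) = (r ^ a) ^ 2 := by rw [← pow_mul, mul_comm]
  obtain ⟨hy1, hy2, hy3, hy4, hy5⟩ := hy
  have hnum := numbers (r ^ a) n r m' y.1 ms.sum hk10 hrk hkn hsum (by
    have := hy2
    rw [hmg, hκ] at this
    push_cast at this ⊢
    exact this)
  obtain ⟨hn1, hn2', hn3, hn4, hn5, hn6⟩ := hnum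
  rw [← hΔ] at hn2' hn3 hn4 hn6
  rw [← h2a] at hn3
  set N := (r ^ a + y.1) * q.N1 with hN
  set M := n ^ 2 * q.N1 with hM
  have hNM : N ≤ M := Nat.mul_le_mul_right _ hn1
  set z1 := y.2 + v0 P u with hz1
  have hsums : ms.sum ≤ r * n := by omega
  have hAdm : Adm P u r Cv m' n y := ⟨hy1, hy2, hy3, hy4, hy5⟩
  -- the two factors
  set aa : (Tor d q.M → ℕ) → List (Let d q.M (q.K + 1)) → Prop :=
    fun η w => PastEv (pe q (path η w).reverse (w.map mark).reverse) P u r Cv m' y with haa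
  set bb : (Tor d q.M → ℕ) → List (Let d q.M (q.K + 1)) → Prop :=
    fun η w => G ((envT q η w).chain P u ms z1 P.Δ) with hbb
  -- step 1: longer words
  have hstep1 : q.PP M (fun η l => (envT q η l).Good r (r ^ a) Cv (n ^ 2) (n ^ 2) ∧
      (envT q η l).blk P u m' 0 (r ^ a) = y ∧
      G ((envT q η l).chain P u ms z1 (r ^ a + y.1 + P.Δ))) ≤
      q.PP (N + M) (fun η l =>
        PastEv (pe q (path η (l.take N)) ((l.take N).map mark)) P u r Cv m' y ∧
        bb ((l.take N).foldl stepA η) (l.drop N)) := by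
    rw [← PP_take q hd M N, Nat.add_comm M N]
    refine PP_mono q (N + M) fun η l hl => ?_
    rintro ⟨hg, hb, hG⟩
    constructor
    · have h1 := (H6 r (by omega) n hn q hq u hu m' hm' hm'n η (l.take M) hg).2
      rw [hb, ← hP, List.take_take, min_eq_left hNM] at h1
      exact (EqEnv.pastEv (pe_path q hd η (l.take N)) P u r Cv m' y).mp h1
    · have h1 := agreeW_symm (agree_take q η l (n ^ 2) (HS P u (lev u z1 -
        ((r ^ a + y.1 + P.Δ : ℕ) : ℝ) / (16 * P.κ) - 2 * P.mg) n))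
      have h2 := H3 r (by omega) n hn (envT q η (l.take M)) (envT q η l) hg u hu ms hms hsums z1
        (r ^ a + y.1 + P.Δ) (n ^ 2)
        (lev u z1 - ((r ^ a + y.1 + P.Δ : ℕ) : ℝ) / (16 * P.κ) - 2 * P.mg) (by omega) hn2'
        (by
          have h3 := supn_add_le y.2 (v0 P u)
          have h4 := supn_v0_le P u hu
          rw [hl0] at h4
          rw [hz1]
          omega) (by rw [← hP]; linarith) hn3 le_rfl h1
      rw [← hP] at h2
      rw [hbb]
      show G ((envT q ((l.take N).foldl stepA η) (l.drop N)).chain P u ms z1 P.Δ)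
      rw [hN, ← chain_drop q η l P u ms z1 (r ^ a + y.1) P.Δ hn6, h2]
      exact hG
  -- step 2: reversal of the past
  have hstep2 : q.PP (N + M) (fun η l =>
        PastEv (pe q (path η (l.take N)) ((l.take N).map mark)) P u r Cv m' y ∧
        bb ((l.take N).foldl stepA η) (l.drop N)) =
      ∑' η : Tor d q.M → ℕ, prw (m.m1 q.K) η * (PrE q.w N (aa η) * PrE q.w M (bb η)) := by
    set F : List (Tor d q.M → ℕ) → List (Option (Tor d q.M)) → List (Let d q.M (q.K + 1)) → ℝ≥0∞ :=
      fun L o w =>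
      if (PastEv (pe q L.reverse o.reverse) P u r Cv m' y ∧ bb (L.headD (fun _ => 0)) w) then 1
      else 0 with hF
    have h1 : q.PP (N + M) (fun η l =>
        PastEv (pe q (path η (l.take N)) ((l.take N).map mark)) P u r Cv m' y ∧
        bb ((l.take N).foldl stepA η) (l.drop N)) =
        q.EE (N + M) (fun η l => F (path η (l.take N)).reverse ((l.take N).map mark).reverse
          (l.drop N)) := by
      unfold Par.PP
      congr 1
      funext η l
      rw [hF]
      simp only [List.reverse_reverse, headD_reverse_path]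
      split_ifs <;> rfl
    rw [h1, past_future q hd N M F]
    unfold Par.EE
    refine tsum_congr fun η => ?_
    congr 1
    have h2 := ZI.R2aux.EvE_take_drop q.w M N (fun l l' => F (path η l) (l.map mark) l')
    rw [h2]
    have h3 : (fun l => EvE q.w M (fun l' => F (path η l) (l.map mark) l')) =
        fun l => PrE q.w M (bb η) * (if aa η l then 1 else 0) := by
      funext l
      rw [hF, haa]
      simp only [R2aux.head_path]
      by_cases h4 : PastEv (pe q (path η l).reverse (l.map mark).reverse) P u r Cv m' y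
      · simp only [h4, true_and, if_true, mul_one]
        rfl
      · simp only [h4, false_and, if_false, mul_zero]
        exact ZI.EvE_const q.w (sum_w q hd) M 0
    rw [h3, ZI.EvE_mul, mul_comm]
    rfl
  -- step 3: decoupling
  have hstep3 := decouple q hd N M (Up u (m' + 4 * P.mg)) aa bb (LeakP q P u m') (LeakF q P u m')
    (fun η w => ¬ (envT q η w).Good r (r ^ a) Cv (n ^ 2) (n ^ 2)) (by
      intro η η' w hw h
      by_contra hcon
      push Not at hcon
      obtain ⟨hc1, hc2, hc3⟩ := hcon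
      apply hc1
      refine H5 r (by omega) n hn q hq u hu m' hm' hm'n y hAdm (path η w).reverse
        (path (mix (Up u (m' + 4 * P.mg)) η' η) w).reverse (w.map mark).reverse
        (w.map mark).reverse (isPath_reverse q hd _ _ ⟨η, w, rfl, rfl⟩)
        (isPath_reverse q hd _ _ ⟨_, w, rfl, rfl⟩) ?_ ?_ ?_ h
      · rw [List.length_reverse, length_path, hw]
      · rw [List.length_reverse, length_path, hw]
      · intro i hi v hv
        refine ⟨?_, Iff.rfl⟩
        rw [getD_reverse_path w η _ i (by omega), getD_reverse_path w _ _ i (by omega)]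
        have h1 : Lev u 0 v ≤ m' + 3 * P.mg - (((w.length - i : ℕ) : ℝ) / q.N1) / (8 * P.κ) := by
          refine hv.trans_eq ?_
          have h2 : ((w.length - i : ℕ) : ℝ) / q.N1 =
              ((r ^ a + y.1 : ℕ) : ℝ) - (i : ℝ) / q.N1 := by
            rw [hw, hN, Nat.cast_sub hi]
            have h3 : (q.N1 : ℝ) ≠ 0 := by
              have := q.N1_pos
              positivity
            push_cast
            field_simp
          rw [h2]
        have h2 : (w.take (w.length - i)).foldl stepA η v =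
            (w.take (w.length - i)).foldl stepA (mix (Up u (m' + 4 * P.mg)) (fun _ => 0) η) v := by
          by_contra h3
          exact hc2 ⟨w.length - i, Nat.sub_le _ _, v, h3, h1⟩
        have h4 : (w.take (w.length - i)).foldl stepA (mix (Up u (m' + 4 * P.mg)) η' η) v =
            (w.take (w.length - i)).foldl stepA (mix (Up u (m' + 4 * P.mg)) (fun _ => 0) η) v := by
          by_contra h3
          refine hc3 ⟨w.length - i, Nat.sub_le _ _, v, ?_, h1⟩
          rw [mix_mix]
          exact h3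
        rw [h2, h4]) (by
      intro η η' w hw h
      by_contra hcon
      push Not at hcon
      obtain ⟨hc1, hc2, hc3, hc4⟩ := hcon
      apply hc1
      have h1 := H7 r (by omega) n hn q hq u hu m' hm' hm'n y hAdm ms hms hsums η η' w hw hc4 hc2 hc3
      rw [hbb]
      show G ((envT q (mix (Up u (m' + 4 * P.mg)) η η') w).chain P u ms z1 P.Δ)
      rw [← hP] at h1
      rw [hz1, h1]
      exact h)
  -- the first factor
  have hfac1 : q.PP N aa ≤ QT q P u n m' y := by
    have h1 : q.PP N aa = q.EE N (fun η l => (fun L o => if PastEv (pe q L o) P u r Cv m' y then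
        (1 : ℝ≥0∞) else 0) (path η l).reverse (l.map mark).reverse) := rfl
    rw [h1, ← reversal q hd N
      (fun L o => if PastEv (pe q L o) P u r Cv m' y then (1 : ℝ≥0∞) else 0)]
    have h2 : q.EE N (fun η l => (fun L o => if PastEv (pe q L o) P u r Cv m' y then
        (1 : ℝ≥0∞) else 0) (path η l) (l.map mark)) =
        q.PP N (fun η l => PastEv (pe q (path η l) (l.map mark)) P u r Cv m' y) := rfl
    rw [h2, ← PP_take q hd N (M - N), Nat.add_sub_cancel' hNM]
    refine PP_mono q M fun η l _ h3 => ?_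
    exact blk_of_pastEv q P u r Cv m' y η l
      ((EqEnv.pastEv (pe_path q hd η (l.take N)) P u r Cv m' y).mpr h3)
  -- the second factor
  have hfac2 : q.PP M bb ≤ q.PP M (fun η l => G ((envT q η l).chain P u ms 0 (r ^ a))) +
      ENNReal.ofReal (Real.exp (- c * r)) :=
    H4 r (by omega) n hn hn2 q hq hT u hu ms hms hsums z1 P.Δ hn6 hn4 G
  have hQ1 : QT q P u n m' y ≤ 1 := PP_le_one q hd _ _
  have hgood := hB.good r (by omega) n hn hn2 q hq hT
  have hlp := H8 r (by omega) n hn hn2 q hq u hu m' N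
  have hlf := H9 r (by omega) n hn hn2 q hq u hu m' M
  rw [← hP] at hlp hlf
  calc q.PP M (fun η l => (envT q η l).Good r (r ^ a) Cv (n ^ 2) (n ^ 2) ∧
      (envT q η l).blk P u m' 0 (r ^ a) = y ∧
      G ((envT q η l).chain P u ms z1 (r ^ a + y.1 + P.Δ)))
      ≤ ∑' η : Tor d q.M → ℕ, prw (m.m1 q.K) η * (PrE q.w N (aa η) * PrE q.w M (bb η)) :=
        hstep1.trans_eq hstep2
    _ ≤ q.PP N aa * q.PP M bb + 2 * q.PP N (LeakP q P u m') + 2 * q.PP M (LeakF q P u m') +
        q.PP M (fun η w => ¬ (envT q η w).Good r (r ^ a) Cv (n ^ 2) (n ^ 2)) := hstep3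
    _ ≤ QT q P u n m' y * (q.PP M (fun η l => G ((envT q η l).chain P u ms 0 (r ^ a))) +
        ENNReal.ofReal (Real.exp (- c * r))) + 2 * ENNReal.ofReal (Real.exp (- (r : ℝ))) +
        2 * ENNReal.ofReal (Real.exp (- (r : ℝ))) + ENNReal.ofReal (Real.exp (- c * r)) :=
        add_le_add (add_le_add (add_le_add (mul_le_mul' hfac1 hfac2) (mul_le_mul_right hlp _))
          (mul_le_mul_right hlf _)) hgood
    _ = QT q P u n m' y * q.PP M (fun η l => G ((envT q η l).chain P u ms 0 (r ^ a))) +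
        (QT q P u n m' y * ENNReal.ofReal (Real.exp (- c * r)) +
          4 * ENNReal.ofReal (Real.exp (- (r : ℝ))) + ENNReal.ofReal (Real.exp (- c * r))) := by
        ring
    _ ≤ QT q P u n m' y * q.PP M (fun η l => G ((envT q η l).chain P u ms 0 (r ^ a))) +
        (1 * ENNReal.ofReal (Real.exp (- c * r)) +
          4 * ENNReal.ofReal (Real.exp (- (r : ℝ))) + ENNReal.ofReal (Real.exp (- c * r))) :=
        add_le_add le_rfl (add_le_add (add_le_add (mul_le_mul_left hQ1 _) le_rfl) le_rfl)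
    _ ≤ QT q P u n m' y * q.PP M (fun η l => G ((envT q η l).chain P u ms 0 (r ^ a))) +
        ENNReal.ofReal (Real.exp (- (min 1 c / 2) * r)) := by
        refine add_le_add le_rfl ?_
        have h1 := exp_bound c r hc (by exact_mod_cast hr10) hrc10
        calc 1 * ENNReal.ofReal (Real.exp (- c * r)) +
            4 * ENNReal.ofReal (Real.exp (- (r : ℝ))) + ENNReal.ofReal (Real.exp (- c * r))
            = ENNReal.ofReal (4 * Real.exp (- (r : ℝ)) + 2 * Real.exp (- c * r)) := by
              rw [ENNReal.ofReal_add (by positivity) (by positivity),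
                ENNReal.ofReal_mul (by norm_num), ENNReal.ofReal_mul (by norm_num)]
              rw [show ENNReal.ofReal 4 = 4 by norm_num, show ENNReal.ofReal 2 = 2 by norm_num]
              ring
          _ ≤ _ := ENNReal.ofReal_le_ofReal h1

end ZP.Rows
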