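import Pool.Agent.ZP.Eps

/-! # The error terms of the recursion, explicit constants -/

set_option autoImplicit false

open scoped ENNReal BigOperators Classical

noncomputable section

namespace ZPD

open ZI ZI.Rows ZI.R2aux ZP

variable {d : ℕ}

/-- the cap at one fugacity -/
theorem cap_le_of (m : Model) (d : ℕ) (hd : 0 < d) (φh : ℝ) (hφ : 0 < φh) (C : ℝ) (hC : 0 < C)
    (hmom : ∀ (φ : ℝ) (h : 0 < φ), φ ≤ φh → ∀ K : ℕ, 2 ≤ K → 2 * φh ≤ m.g K →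
      ∑' k, (wf m φ h).m1 K k * ENNReal.ofReal (3 / 2) ^ k ≤ ENNReal.ofReal C) :
    ∀ (q : Par d (wf m φh hφ)) (φ : ℝ) (h : 0 < φ), φ ≤ φh → ∀ (r R N : ℕ) (W : ℝ), r ≤ q.K →
    0 ≤ W → N * q.p ≤ W → ∀ z : Tor d q.M,
    ∑' η, pr1 q φ h η * PrE q.w N (Hits stepA (capd q.K (near z R)) η) ≤
      ENNReal.ofReal (C * (1 + φh) * (1 + W) * (2 * R + 1) ^ d * (2 / 3) ^ r) := by
  intro q φ h hle r R N W hr hW hNW z
  have hKb : 2 * φh ≤ m.g q.K := q.K_big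
  have hm1 := hmom φ h hle q.K q.K_ge hKb
  set S : Finset (Tor d q.M) := Finset.univ.filter (fun x => x ∈ near z R) with hS
  have hSset : (S : Set (Tor d q.M)) = near z R := by
    ext x
    simp [hS]
  have hScard : S.card ≤ (2 * R + 1) ^ d := by
    refine le_trans (Finset.card_le_card ?_) (card_near z R)
    intro x hx
    rw [hS, Finset.mem_filter] at hx
    rw [Finset.mem_filter]
    exact ⟨Finset.mem_univ _, near_comm _ _ _ hx.2⟩
  set b : ℝ≥0∞ := ENNReal.ofReal (3 / 2) with hb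
  have hb1 : 1 ≤ b := by
    rw [hb, ENNReal.one_le_ofReal]
    norm_num
  have h1 := cap_sum (toF q φ h hle) hd b hb1 ENNReal.ofReal_ne_top S N
  rw [toF_w] at h1
  have h2 : ∑' η, pr1 q φ h η * PrE q.w N (Hits stepA (capd q.K (near z R)) η) ≤
      (1 + N * (ENNReal.ofReal q.p * (ENNReal.ofReal φ * (b - 1)))) * ((b ^ q.K)⁻¹ *
        ∑ x ∈ S, ∑' η : Tor d q.M → ℕ, pr1 q φ h η * b ^ (η x)) := by
    rw [← hSset]
    exact h1
  refine h2.trans ?_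
  have hone := wf_tsum m φh φ h hle q.K q.K_ge hKb
  have h3 : ∀ x ∈ S, ∑' η : Tor d q.M → ℕ, pr1 q φ h η * b ^ (η x) ≤ ENNReal.ofReal C := by
    intro x _
    have h4 := prw_marg ((wf m φ h).m1 q.K) hone x (fun k => b ^ k)
    show ∑' η : Tor d q.M → ℕ, prw ((wf m φ h).m1 q.K) η * b ^ (η x) ≤ _
    rw [h4]
    exact hm1
  have h4 : ∑ x ∈ S, ∑' η : Tor d q.M → ℕ, pr1 q φ h η * b ^ (η x) ≤
      ENNReal.ofReal ((2 * R + 1) ^ d * C) := by
    refine (Finset.sum_le_sum h3).trans ?_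
    rw [Finset.sum_const, nsmul_eq_mul, ENNReal.ofReal_mul (by positivity)]
    refine mul_le_mul_left ?_ _
    rw [← ENNReal.ofReal_natCast]
    refine ENNReal.ofReal_le_ofReal ?_
    exact_mod_cast hScard
  have h5 : (1 + N * (ENNReal.ofReal q.p * (ENNReal.ofReal φ * (b - 1)))) ≤
      ENNReal.ofReal (1 + W * φh) := by
    have hbb : b - 1 ≤ 1 := by
      rw [tsub_le_iff_right, hb]
      have h6 : (1 : ℝ≥0∞) + 1 = ENNReal.ofReal 2 := by
        rw [ENNReal.ofReal_ofNat]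
        norm_num
      rw [h6]
      exact ENNReal.ofReal_le_ofReal (by norm_num)
    have hp := q.p_pos
    calc (1 + N * (ENNReal.ofReal q.p * (ENNReal.ofReal φ * (b - 1))))
        ≤ 1 + N * (ENNReal.ofReal q.p * (ENNReal.ofReal φ * 1)) := by gcongr
      _ = ENNReal.ofReal (1 + (N * q.p) * φ) := by
          rw [mul_one, ENNReal.ofReal_add (by norm_num) (by positivity), ENNReal.ofReal_one,
            ENNReal.ofReal_mul (by positivity), ENNReal.ofReal_mul (by positivity),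
            ENNReal.ofReal_natCast]
          ring
      _ ≤ ENNReal.ofReal (1 + W * φh) := by
          refine ENNReal.ofReal_le_ofReal ?_
          have : (N * q.p) * φ ≤ W * φh := mul_le_mul hNW hle h.le hW
          linarith
  calc (1 + N * (ENNReal.ofReal q.p * (ENNReal.ofReal φ * (b - 1)))) * ((b ^ q.K)⁻¹ *
        ∑ x ∈ S, ∑' η : Tor d q.M → ℕ, pr1 q φ h η * b ^ (η x))
      ≤ ENNReal.ofReal (1 + W * φh) * (ENNReal.ofReal ((2 / 3) ^ r) *
        ENNReal.ofReal ((2 * R + 1) ^ d * C)) :=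
        mul_le_mul' h5 (mul_le_mul' (pow_inv q.K r hr) h4)
    _ = ENNReal.ofReal ((1 + W * φh) * ((2 / 3) ^ r * ((2 * R + 1) ^ d * C))) := by
        rw [← ENNReal.ofReal_mul (by positivity), ← ENNReal.ofReal_mul (by positivity)]
    _ ≤ _ := by
        refine ENNReal.ofReal_le_ofReal ?_
        have h6 : 1 + W * φh ≤ (1 + φh) * (1 + W) := by nlinarith
        have h7 : (0 : ℝ) ≤ (2 / 3) ^ r * ((2 * R + 1) ^ d * C) := by positivity
        calc (1 + W * φh) * ((2 / 3) ^ r * ((2 * R + 1) ^ d * C))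
            ≤ ((1 + φh) * (1 + W)) * ((2 / 3) ^ r * ((2 * R + 1) ^ d * C)) :=
              mul_le_mul_of_nonneg_right h6 h7
          _ = _ := by ring

/-- the error of one site -/
theorem eps_le_of (m : Model) (d : ℕ) (hd : 0 < d) (φh : ℝ) (hφ : 0 < φh) (φlo C1 C2 c : ℝ)
    (hC1 : 0 < C1) (hC2 : 0 < C2)
    (hcap : ∀ (q : Par d (wf m φh hφ)) (φ : ℝ) (h : 0 < φ), φ ≤ φh → ∀ (r R N : ℕ) (W : ℝ), r ≤ q.K →
      0 ≤ W → N * q.p ≤ W → ∀ z : Tor d q.M,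
      ∑' η, pr1 q φ h η * PrE q.w N (Hits stepA (capd q.K (near z R)) η) ≤
        ENNReal.ofReal (C1 * (1 + W) * (2 * R + 1) ^ d * (2 / 3) ^ r))
    (hmom : ∀ (φ : ℝ) (h : 0 < φ), φ ≤ φh → ∀ K : ℕ, 2 ≤ K → 2 * φh ≤ m.g K → ∀ l : ℕ,
      ∑' k, (wf m φ h).m1 K k * ((if l < k then (k : ℝ≥0∞) else 0)) ≤
        ENNReal.ofReal (C2 * (5 / 6) ^ l))
    (hgap : ∀ (φ1 φ2 : ℝ) (h1 : 0 < φ1) (h2 : 0 < φ2), φlo ≤ φ1 → φ2 ≤ φh → φ1 < φ2 → ∀ K : ℕ, 2 ≤ K →
      2 * φh ≤ m.g K → ∀ (V : Type) [Fintype V] (S : Finset V), ∃ A B : (V → ℕ) → Prop,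
      (∀ η ζ : V → ℕ, ∑ x ∈ S, η x ≤ ∑ x ∈ S, ζ x → A η ∨ B ζ) ∧
      (∑' η : V → ℕ, prw ((wf m φ2 h2).m1 K) η * (if A η then 1 else 0) ≤
        ENNReal.ofReal (Real.exp (- (c * min 1 ((φ2 - φ1) ^ 2) * S.card)))) ∧
      (∑' ζ : V → ℕ, prw ((wf m φ1 h1).m1 K) ζ * (if B ζ then 1 else 0) ≤
        ENNReal.ofReal (Real.exp (- (c * min 1 ((φ2 - φ1) ^ 2) * S.card))))) :
    ∀ (q : Par d (wf m φh hφ)) (φ1 φ2 : ℝ) (h1 : 0 < φ1) (h2 : 0 < φ2), φlo ≤ φ1 → φ2 ≤ φh → φ1 < φ2 →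
    ∀ (r R N N0 : ℕ) (W dsp : ℝ), r ≤ q.K → r < q.M → 0 ≤ W → 0 ≤ dsp → N * q.p ≤ W → ∀ z : Tor d q.M,
    JE (pr1 q φ2 h2) (pr1 q φ1 h1) q.w N0 (fun η ζ l =>
      (fun η ζ : Tor d q.M → ℕ => (r * (ENNReal.ofReal dsp + (PrE q.w N (Hits stepA (capd q.K (near z R)) η) +
         PrE q.w N (Hits stepA (capd q.K (near z R)) ζ))) +
         r * (if ∑ x ∈ lineS hd r z, η x ≤ ∑ x ∈ lineS hd r z, ζ x then 1 else 0) +
         (if r < ζ z then (ζ z : ℝ≥0∞) else 0))) (l.foldl stepA η) (l.foldl stepA ζ)) ≤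
      ENNReal.ofReal (r * dsp + (2 * C1 + C2) * r * (1 + W) * (2 * R + 1) ^ d * (2 / 3) ^ r +
        2 * r * Real.exp (- (c * min 1 ((φ2 - φ1) ^ 2) * r)) + (2 * C1 + C2) * (5 / 6) ^ r) := by
  intro q φ1 φ2 h1 h2 hlo hle2 hlt r R N N0 W dsp hrK hrM hW hdsp hNW z
  have hle1 : φ1 ≤ φh := by linarith
  have hKb : 2 * φh ≤ m.g q.K := q.K_big
  obtain ⟨A, B, hAB, hA, hB⟩ := hgap φ1 φ2 h1 h2 hlo hle2 hlt q.K q.K_ge hKb (Tor d q.M) (lineS hd r z)
  rw [card_lineS hd r z hrM] at hA hB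
  set E := ENNReal.ofReal (Real.exp (- (c * min 1 ((φ2 - φ1) ^ 2) * r))) with hE
  have hone := wf_tsum m φh φ1 h1 hle1 q.K q.K_ge hKb
  -- pointwise
  have hpt : ∀ (η ζ : Tor d q.M → ℕ) (l : List (Let d q.M q.K)), l.length = N0 →
      (fun η ζ : Tor d q.M → ℕ => (r * (ENNReal.ofReal dsp + (PrE q.w N (Hits stepA (capd q.K (near z R)) η) +
         PrE q.w N (Hits stepA (capd q.K (near z R)) ζ))) +
         r * (if ∑ x ∈ lineS hd r z, η x ≤ ∑ x ∈ lineS hd r z, ζ x then 1 else 0) +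
         (if r < ζ z then (ζ z : ℝ≥0∞) else 0))) (l.foldl stepA η) (l.foldl stepA ζ) ≤
      (r * (ENNReal.ofReal dsp + (PrE q.w N (Hits stepA (capd q.K (near z R)) (l.foldl stepA η)) +
         PrE q.w N (Hits stepA (capd q.K (near z R)) (l.foldl stepA ζ)))) +
         r * ((if A (l.foldl stepA η) then 1 else 0) + (if B (l.foldl stepA ζ) then 1 else 0)) +
         (if r < l.foldl stepA ζ z then (l.foldl stepA ζ z : ℝ≥0∞) else 0)) := by
    intro η ζ l _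
    refine add_le_add (add_le_add le_rfl (mul_le_mul_right ?_ _)) le_rfl
    by_cases hg : ∑ x ∈ lineS hd r z, l.foldl stepA η x ≤ ∑ x ∈ lineS hd r z, l.foldl stepA ζ x
    · rw [if_pos hg]
      rcases hAB _ _ hg with h | h
      · rw [if_pos h]
        exact le_self_add
      · rw [if_pos h]
        exact le_add_self
    · rw [if_neg hg]
      exact zero_le
  refine (JE_mono _ _ _ N0 hpt).trans ?_
  rw [JE_add, JE_add, JE_mul, JE_add, JE_add, JE_mul, JE_add]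
  rw [JE_const _ _ _ (pr_tsum q φ1 h1 hle1) (pr_tsum q φ2 h2 hle2) (sum_w q hd)]
  rw [JE_fst q φ1 φ2 h1 h2 hle1 hd hle2 N0 (fun η => PrE q.w N (Hits stepA (capd q.K (near z R)) η)),
    JE_snd q φ1 φ2 h1 h2 hle1 hd hle2 N0 (fun ζ => PrE q.w N (Hits stepA (capd q.K (near z R)) ζ)),
    JE_fst q φ1 φ2 h1 h2 hle1 hd hle2 N0 (fun η => if A η then 1 else 0),
    JE_snd q φ1 φ2 h1 h2 hle1 hd hle2 N0 (fun ζ => if B ζ then 1 else 0),
    JE_snd q φ1 φ2 h1 h2 hle1 hd hle2 N0 (fun ζ => if r < ζ z then (ζ z : ℝ≥0∞) else 0)]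
  have e1 := hcap q φ2 h2 hle2 r R N W hrK hW hNW z
  have e2 := hcap q φ1 h1 hle1 r R N W hrK hW hNW z
  have e3 : ∑' ζ, pr1 q φ1 h1 ζ * (if r < ζ z then (ζ z : ℝ≥0∞) else 0) ≤
      ENNReal.ofReal (C2 * (5 / 6) ^ r) := by
    have h4 := prw_marg ((wf m φ1 h1).m1 q.K) hone z (fun k => if r < k then (k : ℝ≥0∞) else 0)
    show ∑' ζ : Tor d q.M → ℕ, prw ((wf m φ1 h1).m1 q.K) ζ * (if r < ζ z then (ζ z : ℝ≥0∞) else 0) ≤ _
    rw [h4]
    exact hmom φ1 h1 hle1 q.K q.K_ge hKb r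
  set X : ℝ := C1 * (1 + W) * (2 * R + 1) ^ d * (2 / 3) ^ r with hX
  have hX0 : 0 ≤ X := by positivity
  calc _ ≤ (r * (ENNReal.ofReal dsp + (ENNReal.ofReal X + ENNReal.ofReal X)) + r * (E + E)) +
      ENNReal.ofReal (C2 * (5 / 6) ^ r) :=
        add_le_add (add_le_add (mul_le_mul_right (add_le_add le_rfl (add_le_add e1 e2)) _)
          (mul_le_mul_right (add_le_add hA hB) _)) e3
    _ = ENNReal.ofReal ((r * (dsp + (X + X)) + r * (Real.exp (- (c * min 1 ((φ2 - φ1) ^ 2) * r)) +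
          Real.exp (- (c * min 1 ((φ2 - φ1) ^ 2) * r)))) + C2 * (5 / 6) ^ r) := by
        have hr0 : (0 : ℝ) ≤ r := Nat.cast_nonneg r
        have he := (Real.exp_pos (- (c * min 1 ((φ2 - φ1) ^ 2) * r))).le
        rw [ENNReal.ofReal_add (by positivity) (by positivity),
          ENNReal.ofReal_add (by positivity) (by positivity), ENNReal.ofReal_mul hr0,
          ENNReal.ofReal_mul hr0, ENNReal.ofReal_add hdsp (by positivity),
          ENNReal.ofReal_add hX0 hX0, ENNReal.ofReal_add he he, ENNReal.ofReal_natCast]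
    _ ≤ _ := by
        refine ENNReal.ofReal_le_ofReal ?_
        have h5 : (0 : ℝ) ≤ C2 * r * (1 + W) * (2 * R + 1) ^ d * (2 / 3) ^ r := by positivity
        have h6 : (0 : ℝ) ≤ 2 * C1 * (5 / 6) ^ r := by positivity
        rw [hX]
        nlinarith [h5, h6]


end ZPD
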