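import Pool.Agent.ZP.LK
import Pool.Agent.ZP.CK
import Pool.Agent.ZP.P2b
import Pool.Agent.ZP.P1
import Pool.Agent.ZI.F1b

/-! # Row F1b: agreement of the scales (with recovery) -/

set_option autoImplicit false

open scoped ENNReal BigOperators Classical
open MeasureTheory

noncomputable section

namespace ZP.F1b

open ZP

variable {d : ℕ} {m : Model} {δ : ℝ}

/-! ### agreement is an equivalence relation; truncation -/

theorem Agree.refl (N : ℕ) (E : Env d) : Agree N E E :=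
  ⟨fun _ _ _ _ => Iff.rfl, fun _ _ _ _ _ _ _ => Iff.rfl, fun _ _ _ _ _ _ _ => Iff.rfl⟩

theorem Agree.symm {N : ℕ} {E E' : Env d} (h : Agree N E E') : Agree N E' E :=
  ⟨fun t ht x hx => (h.occ t ht x hx).symm, fun G hG s t x y ht => (h.R G hG s t x y ht).symm,
    fun G hG s t x y ht => (h.vis G hG s t x y ht).symm⟩

theorem Agree.trans {N : ℕ} {E E' E'' : Env d} (h : Agree N E E') (h' : Agree N E' E'') :
    Agree N E E'' :=
  ⟨fun t ht x hx => (h.occ t ht x hx).trans (h'.occ t ht x hx),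
    fun G hG s t x y ht => (h.R G hG s t x y ht).trans (h'.R G hG s t x y ht),
    fun G hG s t x y ht => (h.vis G hG s t x y ht).trans (h'.vis G hG s t x y ht)⟩

theorem Agree.mono {N N' : ℕ} (hN : N ≤ N') {E E' : Env d} (h : Agree N' E E') : Agree N E E' :=
  ⟨fun t ht x hx => h.occ t (ht.trans hN) x (hx.trans (by omega)),
    fun G hG s t x y ht => h.R G (fun t => (hG t).trans fun x (hx : supn x ≤ 4 * N) =>
      show supn x ≤ 4 * N' from hx.trans (by omega)) s t x y (ht.trans hN),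
    fun G hG s t x y ht => h.vis G (fun t => (hG t).trans fun x (hx : supn x ≤ 4 * N) =>
      show supn x ≤ 4 * N' from hx.trans (by omega)) s t x y (ht.trans hN)⟩

theorem Agree.of_eqEnv {E E' : Env d} (h : EqEnv E E') (N : ℕ) : Agree N E E' := by
  refine ⟨fun t _ x _ => h.occ t x, fun G _ s t x y _ => ?_, fun G _ s t x y _ => ?_⟩
  · unfold Env.R
    constructor
    · rintro ⟨j, hj, hy⟩
      exact ⟨j, hj, by rw [← h.inf]; exact hy⟩
    · rintro ⟨j, hj, hy⟩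
      exact ⟨j, hj, by rw [h.inf]; exact hy⟩
  · unfold Env.vis
    constructor
    · rintro ⟨j, hj, hy⟩
      exact ⟨j, hj, by rw [← h.vis]; exact hy⟩
    · rintro ⟨j, hj, hy⟩
      exact ⟨j, hj, by rw [h.vis]; exact hy⟩

section trunc

variable {V : Type} (nb : V → Dir d → Option V) (pr : Pos d → V) (η0 : V → ℕ)
  (U U' : ℕ → List (Lab V d)) (N : ℕ) (h : ∀ t < N, U' t = U t)

include h

theorem cfg_trunc : ∀ t ≤ N, cfg nb η0 U' t = cfg nb η0 U t
  | 0, _ => rfl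
  | t + 1, ht => by
      show (U' t).foldl (mv nb) (cfg nb η0 U' t) = (U t).foldl (mv nb) (cfg nb η0 U t)
      rw [h t (by omega), cfg_trunc t (by omega)]

theorem inf_trunc (G : ℕ → Set (Pos d)) (s : ℕ) (A : Set (Pos d)) : ∀ j, s + j ≤ N →
    inf nb pr η0 U' G s A j = inf nb pr η0 U G s A j
  | 0, hj => by
      unfold inf
      rw [cfg_trunc nb η0 U U' N h s (by omega)]
  | j + 1, hj => by
      unfold inf
      rw [h (s + j) (by omega), cfg_trunc nb η0 U U' N h (s + j) (by omega),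
        inf_trunc G s A j (by omega)]

theorem visU_trunc (G : ℕ → Set (Pos d)) (s : ℕ) (A : Set (Pos d)) (j : ℕ) (hj : s + j < N) :
    visU nb pr η0 U' G s A j = visU nb pr η0 U G s A j := by
  unfold visU
  rw [h (s + j) hj, cfg_trunc nb η0 U U' N h (s + j) hj.le,
    inf_trunc nb pr η0 U U' N h G s A j hj.le]

end trunc

theorem Agree.trunc (E : Env d) (U' : ℕ → List (Lab E.V d)) (N : ℕ) (h : ∀ t < N, U' t = E.U t) :
    Agree N { E with U := U' } E := by
  refine ⟨fun t ht x _ => ?_, fun G _ s t x y ht => ?_, fun G _ s t x y ht => ?_⟩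
  · unfold Env.occ
    rw [cfg_trunc E.nb E.η0 E.U U' N h t ht]
  · unfold Env.R
    constructor
    · rintro ⟨j, hj, hy⟩
      refine ⟨j, hj, ?_⟩
      rw [← inf_trunc E.nb E.pr E.η0 E.U U' N h G s {x} j (by omega)]
      exact hy
    · rintro ⟨j, hj, hy⟩
      refine ⟨j, hj, ?_⟩
      show y ∈ inf E.nb E.pr E.η0 U' G s {x} j
      rw [inf_trunc E.nb E.pr E.η0 E.U U' N h G s {x} j (by omega)]
      exact hy
  · unfold Env.vis
    constructor
    · rintro ⟨j, hj, hy⟩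
      refine ⟨j, hj, ?_⟩
      rw [← visU_trunc E.nb E.pr E.η0 E.U U' N h G s {x} j (by omega)]
      exact hy
    · rintro ⟨j, hj, hy⟩
      refine ⟨j, hj, ?_⟩
      show y ∈ visU E.nb E.pr E.η0 U' G s {x} j
      rw [visU_trunc E.nb E.pr E.η0 E.U U' N h G s {x} j (by omega)]
      exact hy

variable {Ω : Type} [MeasurableSpace Ω] {P : Measure Ω}

theorem agree_envC (C : Clocks m δ d P) (M K T N : ℕ) (hN : N ≤ T) (ω : Ω) :
    Agree N (envC C M K N ω) (envC C M K T ω) := by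
  refine Agree.trunc (envC C M K T ω) _ N fun t ht => ?_
  show (if t < N then (ringList (C.ring ω) (torLab d M (K + 1)) t (t + 1)).map
    (fun l => ((tv l.1 : Tor d M), l.2)) else []) = if t < T then _ else []
  rw [if_pos ht, if_pos (by omega)]

/-! ### one step: scales `n` and `2 n` -/

open ZI.F1b (stepErr)

theorem step_agree [IsProbabilityMeasure P] (hd : 0 < d) (hδ : 0 ≤ δ) (C : Clocks m δ d P) {C1 C2 : ℕ}
    (h1 : ∀ q : Par d m δ, ∀ R N : ℕ, 2 * R + 2 ≤ q.M → 16 * N + 4 ≤ R →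
      q.PP (N * q.N1) (fun η l => ¬ Agree N (envT q η l) (kill R (envT q η l))) ≤
        ENNReal.ofReal (C1 * (R + 1 : ℝ) ^ C1 * Real.exp (C1 * N - R / 4)))
    (h2 : ∀ q : Par d m δ, ∀ K' T : ℕ, 2 * m.φ ≤ m.g K' →
      q.PP (T * q.N1) (fun η l => ¬ (EqEnv (envT q η l) (capE K' (envT q η l)) ∧
        ∀ R : ℕ, 2 * R + 2 ≤ q.M → EqEnv (kill R (envT q η l)) (kill R (capE K' (envT q η l))))) ≤
        ENNReal.ofReal (T * (q.M : ℝ) ^ d * (C2 : ℝ) ^ (K' + 1) / K'.factorial))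
    (n : ℕ) (hn : 16 ≤ n) (hg : 2 * m.φ ≤ m.g n) (ε : ℝ) (hε : 0 < ε) :
    P {ω | ¬ Agree (n ^ 2) (envC C (n ^ 4) n (n ^ 2) ω)
      (envC C ((2 * n) ^ 4) (2 * n) ((2 * n) ^ 2) ω)} ≤ stepErr m d C1 C2 n ε := by
  have hg2 : 2 * m.φ ≤ m.g (2 * n) := hg.trans
    (monotone_nat_of_le_succ (fun k => by
      have := m.inc_lb k
      have := m.Gm_pos
      linarith) (by omega))
  have hn4 : 16 ^ 2 * n ^ 2 ≤ n ^ 4 := by
    calc 16 ^ 2 * n ^ 2 ≤ n ^ 2 * n ^ 2 := by gcongr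
      _ = n ^ 4 := by ring
  have hn2 : 256 ≤ n ^ 2 := by nlinarith
  set R : ℕ := n ^ 4 / 4 with hR
  have hR1 : 2 * R + 2 ≤ n ^ 4 := by omega
  have hR2 : 16 * n ^ 2 + 4 ≤ R := by omega
  have h2n : n ^ 4 ≤ (2 * n) ^ 4 := Nat.pow_le_pow_left (by omega) 4
  obtain ⟨qa, qa1, qa2, -, qa3⟩ := Rows.transfer hd hδ C (n ^ 4) n (n ^ 2) (by omega) (by omega) hg ε 1 hε
    one_pos
  obtain ⟨qb, qb1, qb2, -, qb3⟩ := Rows.transfer hd hδ C ((2 * n) ^ 4) (2 * n) (n ^ 2) (by omega)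
    (by omega) hg2 ε 1 hε one_pos
  have ha := (qa3 (fun E => ¬ Agree (n ^ 2) E (kill R E))).trans (add_le_add (add_le_add
    (h1 qa R (n ^ 2) (by rw [qa1]; exact hR1) hR2) le_rfl) le_rfl)
  have hb := (qb3 (fun E => ¬ Agree (n ^ 2) E (kill R E))).trans (add_le_add (add_le_add
    (h1 qb R (n ^ 2) (by rw [qb1]; omega) hR2) le_rfl) le_rfl)
  have hc := (qb3 (fun E => ¬ (EqEnv E (capE n E) ∧
    ∀ R : ℕ, 2 * R + 2 ≤ qb.M → EqEnv (kill R E) (kill R (capE n E))))).trans (add_le_add (add_le_add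
    (h2 qb n (n ^ 2) hg) le_rfl) le_rfl)
  rw [qb1] at hc
  refine (measure_mono ?_).trans ((measure_union_le _ _).trans (add_le_add
    ((measure_union_le _ _).trans (add_le_add ha hb)) hc))
  intro ω hω
  by_contra hcon
  simp only [Set.mem_union, Set.mem_ofPred_eq, not_or, not_not] at hcon
  obtain ⟨⟨e1, e2⟩, e3⟩ := hcon
  refine hω ?_
  have e4 := e3.2 R (by omega)
  have e5 : kill R (capE n (envC C ((2 * n) ^ 4) (2 * n) (n ^ 2) ω)) =
      kill R (envC C (n ^ 4) n (n ^ 2) ω) := by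
    rw [Rows.capE_envC C _ _ _ _ (by omega), Rows.kill_envC C _ _ _ _ (by omega),
      Rows.kill_envC C _ _ _ _ hR1]
  rw [e5] at e4
  exact Agree.trans (Agree.trans (Agree.trans e1 (Agree.symm (Agree.of_eqEnv e4 _)))
    (Agree.symm e2)) (agree_envC C _ _ _ _ (Nat.pow_le_pow_left (by omega) 2) ω)

end ZP.F1b

namespace ZP.Rows

open ZP ZP.F1b

open ZI.F1b (stepErr ev_step ev_g sum_err err_ge)

variable {d : ℕ} {m : Model} {δ : ℝ} {Ω : Type} [MeasurableSpace Ω] {P : Measure Ω}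

theorem sys_agree [IsProbabilityMeasure P] (hd : 0 < d) (hδ : 0 ≤ δ) (C : Clocks m δ d P) (A : ℕ) (hA : 1 ≤ A) :
    ∃ k0 : ℕ, ∀ k ≥ k0, ∀ k' ≥ k,
    P {ω | ¬ Agree ((2 ^ k) ^ 2) (EK C k ω) (EK C k' ω)} ≤ err (rr A k) := by
  obtain ⟨C1, h1⟩ := killed_agree m δ d hd
  obtain ⟨C2, h2⟩ := cap_agree m δ d hd
  obtain ⟨n0, hn0⟩ := Filter.eventually_atTop.mp
    (((ev_step m d C1 C2 (ZI.Rows.tv1_le m)).and (ev_g m)).and (Filter.eventually_ge_atTop 16))
  refine ⟨max n0 3, fun k hk k' hk' => ?_⟩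
  have hk0 : n0 ≤ k := (le_max_left _ _).trans hk
  have hk3 : 3 ≤ k := (le_max_right _ _).trans hk
  have hstep : ∀ j ≥ k, P {ω | ¬ Agree ((2 ^ j) ^ 2) (EK C j ω) (EK C (j + 1) ω)} ≤
      ENNReal.ofReal (9 * Real.exp (-((2 : ℝ) ^ j))) := by
    intro j hj
    have hj2 : n0 ≤ 2 ^ j := (hk0.trans hj).trans Nat.lt_two_pow_self.le
    obtain ⟨⟨h3, h4⟩, h5⟩ := hn0 (2 ^ j) hj2
    have h6 := step_agree hd hδ C h1 h2 (2 ^ j) h5 h4 (Real.exp (-((2 ^ j : ℕ) : ℝ))) (Real.exp_pos _)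
    have h7 : (2 * 2 ^ j) = 2 ^ (j + 1) := by ring
    rw [h7] at h6
    refine (h6.trans h3).trans (le_of_eq ?_)
    push_cast
    rfl
  have hall : ∀ i : ℕ, P {ω | ¬ Agree ((2 ^ k) ^ 2) (EK C k ω) (EK C (k + i) ω)} ≤
      ENNReal.ofReal (∑ j ∈ Finset.range i, (9 : ℝ) * Real.exp (-((2 : ℝ) ^ (k + j)))) := by
    intro i
    induction i with
    | zero =>
      have : {ω | ¬ Agree ((2 ^ k) ^ 2) (EK C k ω) (EK C (k + 0) ω)} = ∅ := by
        ext ω
        simp [Agree.refl]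
      rw [this]
      simp
    | succ i ih =>
      rw [Finset.sum_range_succ, ENNReal.ofReal_add
        (Finset.sum_nonneg fun j _ => by positivity) (by positivity)]
      refine (measure_mono ?_).trans ((measure_union_le _ _).trans
        (add_le_add ih (hstep (k + i) (by omega))))
      intro ω hω
      by_contra hcon
      simp only [Set.mem_union, Set.mem_ofPred_eq, not_or, not_not] at hcon
      refine hω (Agree.trans hcon.1 (Agree.mono ?_ hcon.2))
      gcongr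
      · norm_num
      · omega
  obtain ⟨i, rfl⟩ : ∃ i, k' = k + i := ⟨k' - k, by omega⟩
  refine (hall i).trans (le_trans (ENNReal.ofReal_le_ofReal ?_) (err_ge A k hk3))
  refine (sum_err k i).trans ?_
  have h8 : (0 : ℝ) ≤ (1 / 2 : ℝ) ^ i := by positivity
  have h9 := Real.exp_pos (-((2 : ℝ) ^ k))
  nlinarith

end ZP.Rows
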