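import Pool.Agent.ZI.F1
import Pool.Agent.ZP.E6b
import Pool.Agent.ZP.F1a
import Pool.Agent.ZP.F1b
import Pool.Agent.ZP.F1c

/-! # Row F1: the abstract system of the clocks (with recovery) -/

set_option autoImplicit false

open scoped ENNReal BigOperators Classical Pointwise
open MeasureTheory

noncomputable section

namespace ZP.Rows

open ZP

variable {d : ℕ} {m : Model} {δ : ℝ}

theorem sys_of_clocks {Ω : Type} [MeasurableSpace Ω] {P : Measure Ω} [IsProbabilityMeasure P]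
    (hd : 0 < d) (hδ : 0 ≤ δ) (C : Clocks m δ d P)
    {Cv a A r0 : ℕ} {c : ℝ} (hB : Base m δ d Cv a A r0 c) :
    ∃ S : Sys d P, (∀ ω t, S.I ω t = Iset C ω t) ∧ S.S0 = Surv C := by
  have hA1 : 1 ≤ A := by
    have h1 := hB.A_big
    have h2 := hB.a_big
    omega
  obtain ⟨k1, h1⟩ := sys_good hδ C hB
  obtain ⟨k2, h2⟩ := sys_chain_of hδ C hB (block_chain hB)
  obtain ⟨k3, h3⟩ := sys_shift hd hδ C A hA1
  obtain ⟨k4, h4⟩ := sys_agree hd hδ C A hA1
  obtain ⟨k5, h5⟩ := sys_link hd hδ C A hA1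
  obtain ⟨k6, h6⟩ := sys_linkR hd hδ C A hA1
  let k0 : ℕ := k1 + k2 + k3 + k4 + k5 + k6 + A * r0
  refine ⟨{ d_pos := hd, Cv := Cv, a := a, A := A, k0 := k0, Cv_pos := hB.Cv_pos, a_big := hB.a_big,
            A_big := hB.A_big, E := EK C, facts := ?_, good := ?_, chain := ?_, tsumQ := ?_, agree := ?_,
            shift := ?_, I := Iset C, S0 := Surv C, I_mono := ?_, link := ?_,
            surv := ?_ }, ?_, ?_⟩
  · intro k hk E hE u hu m' hm1 hm2 z s hs
    have hr : r0 ≤ rr A k := ZI.Rows.rr_ge A k r0 (by omega) hA1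
    exact hB.facts (rr A k) hr (2 ^ k) (ZI.Rows.rr_pow_le' A k) E hE u hu m' hm1 hm2 z s hs
  · intro k hk
    exact h1 k (by omega)
  · intro k hk u hu ms hms hsum z s hs G
    exact h2 k (by omega) u hu ms hms hsum z s hs G
  · intro k _ u m'
    exact sys_tsumQ hd hδ C a A k u m'
  · intro k hk k' hk'
    exact h4 k (by omega) k' hk'
  · intro k hk s0 T hT H
    exact h3 k (by omega) s0 T hT H
  · intro ω t t' htt x hx
    obtain ⟨s, hs0, hst, hx⟩ := hx
    exact ⟨s, hs0, hst.trans htt, hx⟩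
  · intro k hk
    exact h5 k (by omega)
  · intro k hk t ht
    refine le_trans (measure_mono ?_) (h6 k (by omega))
    rintro ω ⟨hω, hn⟩ hlink
    obtain ⟨x, hx⟩ := hω t (Nat.cast_nonneg t)
    exact hn ⟨x, (hlink t ht x).1 hx⟩
  · intro ω t
    rfl
  · rfl

end ZP.Rows
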