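import Pool.Agent.ZP.Sys2
import Pool.Agent.ZP.D0b
import Pool.Agent.ZI.S6

/-! # S6: following a moving target (with recovery); port of ZI/S6.  The start has the property `fg`: a short move
leads to an `ok` position, from there blocks are used; the end is the centre of a block, an `ok` position. -/

set_option autoImplicit false

open scoped ENNReal BigOperators Classical
open MeasureTheory

noncomputable section

namespace ZP.Rows

open ZP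

variable {d : ℕ}

namespace S6m

open ZI.Rows.S6

/-- an `ok` position is its own nearest `ok` position -/
theorem near_self (E : Env d) {κ s : ℕ} {x : Pos d} (h : E.ok κ s x) : E.near κ s x = x := by
  have hne : {v : Pos d | E.ok κ s (x + v)}.Nonempty := ⟨0, by simpa using h⟩
  rw [Env.near, dif_pos hne]
  have h0 : (0 : Pos d) ∈ {v : Pos d | E.ok κ s (x + v)} := by simpa using h
  have h1 := Function.argminOn_le rk _ h0
  have h2 : supn (Function.argminOn rk {v : Pos d | E.ok κ s (x + v)} hne) ≤ supn (0 : Pos d) := by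
    have := Prod.Lex.le_iff.1 h1
    rcases this with h | h
    · exact le_of_lt h
    · exact le_of_eq h.1
  have h3 : supn (0 : Pos d) = 0 := by simp [ZI.supn]
  rw [h3] at h2
  have h4 : Function.argminOn rk {v : Pos d | E.ok κ s (x + v)} hne = 0 := by
    funext j
    have : ((Function.argminOn rk {v : Pos d | E.ok κ s (x + v)} hne) j).natAbs ≤ 0 :=
      (Finset.le_sup (f := fun j => ((Function.argminOn rk {v : Pos d | E.ok κ s (x + v)} hne) j).natAbs)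
        (Finset.mem_univ j)).trans h2
    simpa using this
  rw [h4, add_zero]

/-- restriction to the tube of the infection during one block -/
theorem R_tube (E : Env d) {r κ Cv S Dm : ℕ} (hg : E.Good r κ Cv S Dm) {G : ℕ → Set (Pos d)}
    {x0 : Pos d} {b0 : Fin d → ℝ} {s0 s t : ℕ} {B ρ : ℝ} {x y : Pos d} (hB : nr b0 ≤ B)
    (hR : E.R G s x t y) (hst : s ≤ t) (ht : t ≤ S)
    (hρ : nr (dD x0 b0 s0 x s) + (Cv + B) * ((t : ℝ) - s) + r ≤ ρ) :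
    E.R (tube (fun j => (x0 j : ℝ)) b0 s0 ρ) s x t y := by
  have hB0 : 0 ≤ B := (nr_nonneg _).trans hB
  have hst' : (s : ℝ) ≤ t := by exact_mod_cast hst
  have h0 : 0 ≤ ((Cv : ℝ) + B) * ((t : ℝ) - s) := mul_nonneg (by positivity) (by linarith)
  have hr0 : (0 : ℝ) ≤ r := by positivity
  refine R_mono E (fun _ => Set.inter_subset_right) (R_restrict E hR (G' := tube (fun j => (x0 j : ℝ)) b0 s0 ρ)
    ?_ ?_)
  · rw [mem_tube]
    linarith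
  · intro j hj b hb
    have hv : E.vis (fun _ => Set.univ) s x (s + j + 1) b :=
      vis_mono E (fun _ => Set.subset_univ _) ⟨j, by omega, hb⟩
    have h1 := hg.g4' s (s + j + 1) x b (by omega) (by omega) hv
    rw [mem_tube]
    have h2 : b = x + (b - x) := by abel
    rw [h2, dD_add]
    have h3 : ((s + j + 1 : ℕ) : ℝ) ≤ t := by exact_mod_cast (show s + j + 1 ≤ t by omega)
    push_cast at h1 h3
    have h4 : nr (rv (b - x) - (j : ℝ) • b0) ≤ Cv * ((s : ℝ) + j + 1 - s) + r + j * B := by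
      refine (nr_sub_le _ _).trans ?_
      rw [nr_smul, abs_of_nonneg (by positivity), ← nrm_eq_nr]
      have : (j : ℝ) * nr b0 ≤ j * B := mul_le_mul_of_nonneg_left hB (by positivity)
      linarith
    refine (nr_add_le _ _).trans ?_
    have h5 : (Cv : ℝ) * ((s : ℝ) + j + 1 - s) ≤ Cv * ((t : ℝ) - s) :=
      mul_le_mul_of_nonneg_left (by linarith) (by positivity)
    have h6 : (j : ℝ) * B ≤ ((t : ℝ) - s) * B := mul_le_mul_of_nonneg_right (by linarith) hB0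
    nlinarith

/-- facts on one block -/
structure Step (E : Env d) (κ : ℕ) (u : Fin d → ℝ) (Γu Γm : ℝ) (Cv m : ℕ) (q : ℝ) (z : Pos d) (s : ℕ)
    (h Δ : ℕ) (X v : Pos d) (G : ℕ → Set (Pos d)) : Prop where
  ok : E.ok κ s (E.near κ s z)
  near : nrm (E.near κ s z - z) ≤ d * q
  R2 : E.R G s (E.near κ s z) (s + h + Δ) (E.near κ (s + h + Δ) (z + X + v))
  h_ub : (h : ℝ) ≤ Γu * m
  h_lb : (m : ℝ) ≤ 2 * Cv * h
  X_nrm : nrm X ≤ Cv * h + 2 * d * q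
  X_lev : (m : ℝ) ≤ lev u X
  v_nrm : nrm v ≤ (32 + d) * q
  v_lev : -(d : ℝ) * q ≤ lev u v
  Δ_ub : (Δ : ℝ) ≤ 66 * q

variable {Ω : Type} [MeasurableSpace Ω] {P : Measure Ω}

/-- one block, restricted to the tube -/
theorem step (S : Sys d P) {k : ℕ} (hk : S.k0 ≤ k) {E : Env d} (hE : GoodK S.a S.A S.Cv k E)
    {u : Fin d → ℝ} (hu : ∑ j, u j ^ 2 = 1) {Γu Γm : ℝ} {m : ℕ} {q : ℝ}
    (hq : q = (rr S.A k : ℝ) ^ (7 * S.a)) (b1 : 4 * d * q ≤ m) (b2 : 2 * q ≤ m)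
    (b3 : 2 * (Γm + 66) ≤ 2 ^ k) (hm : m ≤ 2 ^ k) {z : Pos d} {s : ℕ} (hκs : kp S.a S.A k ≤ s)
    (hs : 2 * s ≤ (2 ^ k) ^ 2)
    (hb : (E.bh (PK d S.a S.A k) u m z s : ℝ) ≤ Γu * m) (hΓ : Γu ≤ Γm) {x0 : Pos d} {b0 : Fin d → ℝ}
    {s0 : ℕ} {B ρ : ℝ} (hB : nr b0 ≤ B)
    (hρ : nr (dD x0 b0 s0 z s) + d * q + (S.Cv + B) * (Γm * m + 66 * q) + q ≤ ρ) :
    ∃ (h Δ : ℕ) (X v : Pos d),
      Step E (kp S.a S.A k) u Γu Γm S.Cv m q z s h Δ X v (tube (fun j => (x0 j : ℝ)) b0 s0 ρ) := by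
  set r := rr S.A k with hr
  have hr1 : 1 ≤ r := rr_pos _ _
  have hr1' : (1 : ℝ) ≤ r := by exact_mod_cast hr1
  have hq1 : 1 ≤ q := by rw [hq]; exact one_le_pow₀ hr1'
  have ha := S.a_big
  have hrq : (r : ℝ) ≤ q := by
    rw [hq]
    calc (r : ℝ) = (r : ℝ) ^ 1 := (pow_one _).symm
      _ ≤ (r : ℝ) ^ (7 * S.a) := pow_le_pow_right₀ hr1' (by omega)
  have hqn : q = ((r ^ (7 * S.a) : ℕ) : ℝ) := by rw [hq]; push_cast; rfl
  have hm0 : (0 : ℝ) < m := by linarith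
  have hmn : (m : ℝ) ≤ 2 ^ k := by exact_mod_cast hm
  have hB0 : 0 ≤ B := (nr_nonneg _).trans hB
  have f1 : r ^ (7 * S.a) ≤ m := by
    have : ((r ^ (7 * S.a) : ℕ) : ℝ) ≤ m := by rw [← hqn]; linarith
    exact_mod_cast this
  have f2 : m ≤ r * 2 ^ k := hm.trans (Nat.le_mul_of_pos_left _ hr1)
  have f3 : s + r ^ (2 * S.a) * m ≤ (2 ^ k) ^ 2 := by
    have h1 : r ^ (2 * S.a) ≤ r ^ (7 * S.a) := Nat.pow_le_pow_right hr1 (by omega)
    have h2 : 2 * r ^ (7 * S.a) ≤ m := by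
      have : ((2 * r ^ (7 * S.a) : ℕ) : ℝ) ≤ m := by push_cast; push_cast at hqn; rw [← hqn]; linarith
      exact_mod_cast this
    have h3 : 2 * (r ^ (2 * S.a) * m) ≤ (2 ^ k) ^ 2 := by
      calc 2 * (r ^ (2 * S.a) * m) = (2 * r ^ (2 * S.a)) * m := by ring
        _ ≤ (2 ^ k) * 2 ^ k := Nat.mul_le_mul (by omega) hm
        _ = (2 ^ k) ^ 2 := by ring
    omega
  have hf := S.facts k hk E hE u hu m f1 f2 z s hκs f3
  have hkq : ((kp S.a S.A k : ℕ) : ℝ) ≤ q := by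
    rw [hq, kp]
    push_cast
    exact pow_le_pow_right₀ hr1' (by omega)
  set h := E.bh (PK d S.a S.A k) u m z s with hh
  set X := E.bx (PK d S.a S.A k) u m z s with hX
  have hΔ : ((PK d S.a S.A k).Δ : ℝ) ≤ 66 * q := by
    have e1 : (PK d S.a S.A k).Δ = (64 * r ^ (3 * S.a) + 2) * r ^ S.a := rfl
    have e2 : (64 * r ^ (3 * S.a) + 2) * r ^ S.a ≤ 66 * r ^ (7 * S.a) := by
      have e3 : r ^ (7 * S.a) = r ^ (3 * S.a) * r ^ (3 * S.a) * r ^ S.a := by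
        rw [← pow_add, ← pow_add]; congr 1; ring
      have e4 : 1 ≤ r ^ (3 * S.a) := Nat.one_le_pow _ _ hr1
      rw [e3]
      have e5 : 64 * r ^ (3 * S.a) + 2 ≤ 66 * (r ^ (3 * S.a) * r ^ (3 * S.a)) := by nlinarith
      calc (64 * r ^ (3 * S.a) + 2) * r ^ S.a ≤ 66 * (r ^ (3 * S.a) * r ^ (3 * S.a)) * r ^ S.a :=
            Nat.mul_le_mul_right _ e5
        _ = _ := by ring
    rw [e1, hqn]
    exact_mod_cast e2
  have hl0 : ((PK d S.a S.A k).l0 : ℝ) ≤ 32 * q := by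
    have e1 : (PK d S.a S.A k).l0 = 32 * r ^ (3 * S.a) := rfl
    rw [e1, hqn]
    have e2 : r ^ (3 * S.a) ≤ r ^ (7 * S.a) := Nat.pow_le_pow_right hr1 (by omega)
    exact_mod_cast Nat.mul_le_mul_left 32 e2
  have hd0 : (0 : ℝ) ≤ d := by positivity
  have hxl : (m : ℝ) ≤ lev u X := hf.x_lev
  have hxn : nrm X ≤ S.Cv * h + 2 * d * q := by
    refine hf.x_nrm.trans ?_
    have : 2 * (d : ℝ) * ((PK d S.a S.A k).κ : ℝ) ≤ 2 * d * q :=
      mul_le_mul_of_nonneg_left hkq (by positivity)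
    linarith
  have hlb : (m : ℝ) ≤ 2 * S.Cv * h := by
    have h1 := lev_le_nrm hu X
    nlinarith
  have hnear : nrm (E.near (kp S.a S.A k) s z - z) ≤ d * q := by
    refine (nrm_le_supn _).trans ?_
    refine mul_le_mul_of_nonneg_left ?_ hd0
    have : ((supn (E.near (kp S.a S.A k) s z - z) : ℕ) : ℝ) ≤ (kp S.a S.A k : ℕ) := by
      exact_mod_cast hf.near_supn
    linarith
  have hD : nr (dD x0 b0 s0 (E.near (kp S.a S.A k) s z) s) ≤ nr (dD x0 b0 s0 z s) + d * q := by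
    have e1 : dD x0 b0 s0 (E.near (kp S.a S.A k) s z) s = dD x0 b0 s0 z s + rv (E.near (kp S.a S.A k) s z - z) := by
      funext j
      simp only [dD, rv, Pi.add_apply, Pi.sub_apply]
      push_cast
      ring
    rw [e1]
    refine (nr_add_le _ _).trans ?_
    rw [← nrm_eq_nr]
    linarith
  have hhm : (h : ℝ) ≤ Γm * m := hb.trans (mul_le_mul_of_nonneg_right hΓ hm0.le)
  have hC0 : 0 ≤ (S.Cv : ℝ) + B := by positivity
  have htot : s + h + (PK d S.a S.A k).Δ ≤ (2 ^ k) ^ 2 := by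
    have e1 : (s : ℝ) ≤ (2 ^ k) ^ 2 / 2 := by
      have : ((2 * s : ℕ) : ℝ) ≤ (((2 ^ k) ^ 2 : ℕ) : ℝ) := by exact_mod_cast hs
      push_cast at this
      linarith
    have e2 : Γm * m + 66 * q ≤ (Γm + 66) * m := by nlinarith
    have hG0 : 0 ≤ Γm := by
      by_contra hc
      push Not at hc
      have : (h : ℝ) < 0 := lt_of_le_of_lt hhm (mul_neg_of_neg_of_pos hc hm0)
      have : (0 : ℝ) ≤ h := by positivity
      linarith
    have e3 : 2 * ((Γm + 66) * m) ≤ (2 : ℝ) ^ k * 2 ^ k := by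
      calc 2 * ((Γm + 66) * m) = (2 * (Γm + 66)) * m := by ring
        _ ≤ (2 : ℝ) ^ k * 2 ^ k := mul_le_mul b3 hmn hm0.le (by positivity)
    have e4 : ((s + h + (PK d S.a S.A k).Δ : ℕ) : ℝ) ≤ (((2 ^ k) ^ 2 : ℕ) : ℝ) := by
      push_cast
      have : (2 : ℝ) ^ k * 2 ^ k = (2 ^ k) ^ 2 := by ring
      linarith
    exact_mod_cast e4
  have hGood : E.Good r (r ^ S.a) S.Cv ((2 ^ k) ^ 2) ((2 ^ k) ^ 2) := hE
  refine ⟨h, (PK d S.a S.A k).Δ, X, v0 (PK d S.a S.A k) u, ⟨hf.near_ok, hnear, ?_, hb, hlb, hxn, hxl, ?_, ?_, hΔ⟩⟩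
  · refine R_tube E hGood hB hf.next_mem (by omega) (by omega) ?_
    push_cast
    have e1 : ((S.Cv : ℝ) + B) * ((s : ℝ) + h + (PK d S.a S.A k).Δ - s) ≤ (S.Cv + B) * (Γm * m + 66 * q) :=
      mul_le_mul_of_nonneg_left (by linarith) hC0
    linarith
  · refine (nrm_v0 _ hu).trans ?_
    nlinarith
  · have := lev_v0 (PK d S.a S.A k) hu
    nlinarith

/-- the recursion over the blocks -/
theorem follow (S : Sys d P) {k : ℕ} (hk : S.k0 ≤ k) {E : Env d} (hE : GoodK S.a S.A S.Cv k E)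
    {𝒰 : Finset (Fin d → ℝ)} {δ : ℝ} (hN : IsNet δ 𝒰) {Γ : (Fin d → ℝ) → ℝ} {Γm ε B C2 C4 q ρ : ℝ}
    (hΓ : ∀ u ∈ 𝒰, 0 < Γ u ∧ Γ u ≤ Γm) (hst : StepP S.a S.A k E 𝒰 Γ) {b0 : Fin d → ℝ} (hB : nr b0 ≤ B)
    (hub : ∀ u ∈ 𝒰, Γ u * ∑ j, u j * b0 j ≤ 1 - ε) {m : ℕ} (hm1 : 2 ^ k ≤ m ^ 2) (hm : m ≤ 2 ^ k)
    {x0 : Pos d} {s0 s1 : ℕ} (hx0 : supn x0 ≤ rr S.A k * 2 ^ k) (hs1 : s1 ≤ s0 + rr S.A k * 2 ^ k)
    (h2s : 2 * s1 ≤ (2 ^ k) ^ 2) (hΓm : 0 < Γm) (hε : ε < 1) (hδ0 : 0 ≤ δ) (hδ : δ * C2 = ε / 2)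
    (hC2 : C2 = (S.Cv + B) * Γm + 1) (hC4 : 0 ≤ C4) (hC42 : C4 ^ 2 = 2 * S.Cv * C2 ^ 2)
    (hq : q = (rr S.A k : ℝ) ^ (7 * S.a)) (b1 : 4 * d * q ≤ m) (b2 : 2 * q ≤ m)
    (b3 : 2 * (Γm + 66) ≤ 2 ^ k) (_b4 : 66 * q ≤ Γm * m) (b5 : (3 * d + 32 + 66 * B) * q ≤ m)
    (b6 : 2 * (66 * B + d) * q ≤ ε * m) (b7 : (d + 1 + 66 * (S.Cv + B)) * q ≤ m)
    (b8 : (1 + B + C4) * q ≤ 2 ^ k) (b9 : 66 * q ≤ m) (hκ0 : kp S.a S.A k ≤ s0)
    (hρ : Real.sqrt (2 * S.Cv * C2 ^ 2 * m * ((s1 : ℝ) - s0)) + C2 * m ≤ ρ) :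
    ∀ (n : ℕ) (z : Pos d) (s : ℕ), s0 ≤ s → s ≤ s1 → s1 ≤ s + n →
      E.R (tube (fun j => (x0 j : ℝ)) b0 s0 ρ) s0 x0 s (E.near (kp S.a S.A k) s z) →
      nr (dD x0 b0 s0 z s) ^ 2 ≤ 2 * S.Cv * C2 ^ 2 * m * ((s : ℝ) - s0) →
      ∃ (s : ℕ) (x : Pos d), s0 ≤ s ∧ s ≤ s1 ∧ (s1 : ℝ) ≤ s + Γm * m + m ∧
        E.R (tube (fun j => (x0 j : ℝ)) b0 s0 ρ) s0 x0 s x ∧ x ∈ tube (fun j => (x0 j : ℝ)) b0 s0 ρ s ∧
        E.ok (kp S.a S.A k) s x := by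
  have hr1 : 1 ≤ rr S.A k := rr_pos _ _
  have hr1' : (1 : ℝ) ≤ rr S.A k := by exact_mod_cast hr1
  have ha := S.a_big
  have hrq : (rr S.A k : ℝ) ≤ q := by
    rw [hq]
    calc (rr S.A k : ℝ) = (rr S.A k : ℝ) ^ 1 := (pow_one _).symm
      _ ≤ (rr S.A k : ℝ) ^ (7 * S.a) := pow_le_pow_right₀ hr1' (by omega)
  have hq1 : 1 ≤ q := hr1'.trans hrq
  have hm0 : (0 : ℝ) < m := by linarith
  have hmn : (m : ℝ) ≤ 2 ^ k := by exact_mod_cast hm
  have hB0 : 0 ≤ B := (nr_nonneg _).trans hB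
  have hd0 : (0 : ℝ) ≤ d := by positivity
  have hCv0 : (0 : ℝ) ≤ S.Cv := by positivity
  have hC20 : 0 < C2 := by rw [hC2]; positivity
  have hs1' : (s1 : ℝ) ≤ s0 + rr S.A k * 2 ^ k := by exact_mod_cast hs1
  -- one step
  have key : ∀ (z : Pos d) (s : ℕ), s0 ≤ s → s ≤ s1 →
      E.R (tube (fun j => (x0 j : ℝ)) b0 s0 ρ) s0 x0 s (E.near (kp S.a S.A k) s z) →
      nr (dD x0 b0 s0 z s) ^ 2 ≤ 2 * S.Cv * C2 ^ 2 * m * ((s : ℝ) - s0) →
      (∃ (s : ℕ) (x : Pos d), s0 ≤ s ∧ s ≤ s1 ∧ (s1 : ℝ) ≤ s + Γm * m + m ∧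
        E.R (tube (fun j => (x0 j : ℝ)) b0 s0 ρ) s0 x0 s x ∧ x ∈ tube (fun j => (x0 j : ℝ)) b0 s0 ρ s ∧
        E.ok (kp S.a S.A k) s x) ∨
      (∃ (z' : Pos d) (s' : ℕ), s < s' ∧ s' ≤ s1 ∧
        E.R (tube (fun j => (x0 j : ℝ)) b0 s0 ρ) s0 x0 s' (E.near (kp S.a S.A k) s' z') ∧
        nr (dD x0 b0 s0 z' s') ^ 2 ≤ 2 * S.Cv * C2 ^ 2 * m * ((s' : ℝ) - s0)) := by
    intro z s h1 h2 hR hD
    have h1' : (s0 : ℝ) ≤ s := by exact_mod_cast h1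
    have h2' : (s : ℝ) ≤ s1 := by exact_mod_cast h2
    have hnD : nr (dD x0 b0 s0 z s) ≤ Real.sqrt (2 * S.Cv * C2 ^ 2 * m * ((s1 : ℝ) - s0)) := by
      rw [← Real.sqrt_sq (nr_nonneg (dD x0 b0 s0 z s))]
      exact Real.sqrt_le_sqrt (hD.trans (mul_le_mul_of_nonneg_left (by linarith) (by positivity)))
    have hnD2 : nr (dD x0 b0 s0 z s) ≤ C4 * (rr S.A k * 2 ^ k) := by
      have e1 : (2 * S.Cv * C2 ^ 2 * m * ((s : ℝ) - s0)) ≤ (C4 * (rr S.A k * 2 ^ k)) ^ 2 := by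
        rw [mul_pow, hC42]
        have e2 : (m : ℝ) * ((s : ℝ) - s0) ≤ (rr S.A k * 2 ^ k) ^ 2 := by
          have e3 : (m : ℝ) ≤ rr S.A k * 2 ^ k := by
            have : (2 : ℝ) ^ k ≤ rr S.A k * 2 ^ k := le_mul_of_one_le_left (by positivity) hr1'
            linarith
          rw [sq]
          exact mul_le_mul e3 (by linarith) (by linarith) (by positivity)
        calc (2 * S.Cv * C2 ^ 2 * m * ((s : ℝ) - s0)) = 2 * S.Cv * C2 ^ 2 * (m * ((s : ℝ) - s0)) := by ring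
          _ ≤ 2 * S.Cv * C2 ^ 2 * (rr S.A k * 2 ^ k) ^ 2 := mul_le_mul_of_nonneg_left e2 (by positivity)
      exact abs_le_of_sq_le_sq' (hD.trans e1) (by positivity) |>.2
    have hzs : supn z ≤ (2 ^ k) ^ 2 := by
      have hzj : ∀ j, |(z j : ℝ)| ≤ (2 ^ k) ^ 2 := by
        intro j
        have e1 : (z j : ℝ) = (x0 j : ℝ) + (b0 j * ((s : ℝ) - s0) + dD x0 b0 s0 z s j) := by
          simp only [dD]; ring
        have e2 : |(x0 j : ℝ)| ≤ rr S.A k * 2 ^ k := by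
          have e3 : (x0 j).natAbs ≤ supn x0 :=
            Finset.le_sup (f := fun j => (x0 j).natAbs) (Finset.mem_univ j)
          have e4 : |(x0 j : ℝ)| = ((x0 j).natAbs : ℝ) := by
            rw [Nat.cast_natAbs]; push_cast; rfl
          rw [e4]
          exact_mod_cast e3.trans hx0
        have e5 : |b0 j * ((s : ℝ) - s0)| ≤ B * (rr S.A k * 2 ^ k) := by
          rw [abs_mul, abs_of_nonneg (by linarith : (0 : ℝ) ≤ (s : ℝ) - s0)]
          exact mul_le_mul ((abs_le_nr b0 j).trans hB) (by linarith) (by linarith) hB0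
        have e6 : |dD x0 b0 s0 z s j| ≤ C4 * (rr S.A k * 2 ^ k) := (abs_le_nr _ j).trans hnD2
        have e7 : |(z j : ℝ)| ≤ (1 + B + C4) * rr S.A k * 2 ^ k := by
          rw [e1]
          refine (abs_add_le _ _).trans ?_
          have := abs_add_le (b0 j * ((s : ℝ) - s0)) (dD x0 b0 s0 z s j)
          nlinarith
        have e8 : (1 + B + C4) * rr S.A k ≤ 2 ^ k :=
          (mul_le_mul_of_nonneg_left hrq (by positivity)).trans b8
        calc |(z j : ℝ)| ≤ (1 + B + C4) * rr S.A k * 2 ^ k := e7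
          _ ≤ 2 ^ k * 2 ^ k := mul_le_mul_of_nonneg_right e8 (by positivity)
          _ = (2 ^ k) ^ 2 := by ring
      refine Finset.sup_le fun j _ => ?_
      have e4 : |(z j : ℝ)| = ((z j).natAbs : ℝ) := by
        rw [Nat.cast_natAbs]; push_cast; rfl
      have := hzj j
      rw [e4] at this
      exact_mod_cast this
    obtain ⟨e, he1, he2⟩ := exists_dir S.d_pos (dD x0 b0 s0 z s)
    obtain ⟨u, huU, hue⟩ := hN.2 e he1
    have hu := hN.1 u huU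
    have hnet : nr (e - u) ≤ δ := by
      rw [← Real.sqrt_sq hδ0]
      exact Real.sqrt_le_sqrt hue
    have hb := hst u huU m hm1 hm z s hzs (by omega) (by omega)
    have hρ1 : nr (dD x0 b0 s0 z s) + C2 * m ≤ ρ := by linarith
    obtain ⟨h, Δ, X, v, H⟩ := step S hk hE hu hq b1 b2 b3 hm (by omega) (by omega) hb (hΓ u huU).2 (x0 := x0)
      (s0 := s0) (ρ := ρ) hB (by
        refine le_trans ?_ hρ1
        rw [hC2]
        nlinarith)
    have hh0 : (0 : ℝ) ≤ h := by positivity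
    have hΔ0 : (0 : ℝ) ≤ Δ := by positivity
    have hhm : (h : ℝ) ≤ Γm * m := H.h_ub.trans (mul_le_mul_of_nonneg_right (hΓ u huU).2 hm0.le)
    by_cases hA : (s1 : ℝ) ≤ s + Γm * m + m
    · left
      refine ⟨s, E.near (kp S.a S.A k) s z, h1, h2, hA, hR, ?_, H.ok⟩
      rw [mem_tube]
      have e1 : dD x0 b0 s0 (E.near (kp S.a S.A k) s z) s = dD x0 b0 s0 z s + rv (E.near (kp S.a S.A k) s z - z) := by
        funext j
        simp only [dD, rv, Pi.add_apply, Pi.sub_apply]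
        push_cast
        ring
      rw [e1]
      refine (nr_add_le _ _).trans ?_
      have e2 := H.near
      rw [nrm_eq_nr] at e2
      have e3 : 0 ≤ (S.Cv + B) * Γm := by positivity
      have e4 : (1 : ℝ) * m ≤ C2 * m := mul_le_mul_of_nonneg_right (by rw [hC2]; linarith) hm0.le
      have e5 : (d : ℝ) * q ≤ 4 * d * q := by nlinarith [mul_nonneg hd0 (by linarith : (0 : ℝ) ≤ q)]
      linarith
    · push Not at hA
      have hC : s + h + Δ ≤ s1 := by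
        have : ((s + h + Δ : ℕ) : ℝ) ≤ s1 := by
          push_cast
          linarith [H.Δ_ub]
        exact_mod_cast this
      have hh1 : 0 < h := by
        rcases Nat.eq_zero_or_pos h with h0 | h0
        · exfalso
          have := H.h_lb
          rw [h0] at this
          push_cast at this
          linarith
        · exact h0
      right
      refine ⟨z + X + v, s + h + Δ, by omega, hC, R_trans E hR H.R2, ?_⟩
      have e1 : dD x0 b0 s0 (z + X + v) (s + h + Δ) =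
          dD x0 b0 s0 z s + (rv (X + v) - ((h : ℝ) + Δ) • b0) := by
        rw [add_assoc z X v, add_assoc s h Δ, dD_add]
        push_cast
        rfl
      have hwn : nr (rv (X + v) - ((h : ℝ) + Δ) • b0) ≤ C2 * m := by
        refine (nr_sub_le _ _).trans ?_
        rw [nr_smul, abs_of_nonneg (by positivity), rv_add]
        have e2 := nr_add_le (rv X) (rv v)
        have e3 := H.X_nrm
        have e4 := H.v_nrm
        rw [nrm_eq_nr] at e3 e4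
        have e5 : ((h : ℝ) + Δ) * nr b0 ≤ (Γm * m + 66 * q) * B :=
          mul_le_mul (by linarith [H.Δ_ub]) hB (nr_nonneg _) (by positivity)
        have e6 : (S.Cv : ℝ) * h ≤ S.Cv * (Γm * m) := mul_le_mul_of_nonneg_left hhm hCv0
        rw [hC2]
        nlinarith
      have hlev : (m : ℝ) - d * q ≤ ∑ j, u j * rv (X + v) j := by
        have e2 : ∑ j, u j * rv (X + v) j = lev u X + lev u v := by
          rw [rv_add, lev_eq, lev_eq, ← Finset.sum_add_distrib]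
          refine Finset.sum_congr rfl fun j _ => ?_
          simp only [Pi.add_apply]
          ring
        rw [e2]
        have := H.X_lev
        have := H.v_lev
        linarith
      have hdr := drift (D := dD x0 b0 s0 z s) rfl he2 (nr_nonneg _) hlev (hub u huU) hε H.h_ub hh0
        hm0.le hΔ0 H.Δ_ub hB hu hwn hnet hδ0 hδ b6
      rw [e1]
      refine hdr.trans ?_
      push_cast
      have e2 : (C2 * m) ^ 2 ≤ 2 * S.Cv * C2 ^ 2 * m * h := by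
        calc (C2 * m) ^ 2 = (C2 ^ 2 * m) * m := by ring
          _ ≤ (C2 ^ 2 * m) * (2 * S.Cv * h) := mul_le_mul_of_nonneg_left H.h_lb (by positivity)
          _ = _ := by ring
      have e3 : 0 ≤ 2 * S.Cv * C2 ^ 2 * m * Δ := by positivity
      nlinarith
  intro n
  induction n with
  | zero =>
    intro z s h1 h2 h3 hR hD
    rcases key z s h1 h2 hR hD with h | ⟨z', s', h4, h5, _⟩
    · exact h
    · omega
  | succ n ih =>
    intro z s h1 h2 h3 hR hD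
    rcases key z s h1 h2 hR hD with h | ⟨z', s', h4, h5, h6, h7⟩
    · exact h
    · exact ih z' s' (by omega) h5 (by omega) h6 h7

/-- the numbers of the first move -/
theorem first_num {d κ : ℕ} {q : ℝ} (hκ1 : 1 ≤ κ) (hκq : ((κ : ℕ) : ℝ) ^ 2 ≤ q) :
    (κ : ℝ) ≤ q ∧ (d : ℝ) * κ ≤ (((d * κ + 1) * κ : ℕ) : ℝ) ∧
      ((((d * κ + 1) * κ : ℕ) : ℝ)) ≤ (d + 1) * q := by
  have hκr : (1 : ℝ) ≤ κ := by exact_mod_cast hκ1
  have hd0 : (0 : ℝ) ≤ d := by positivity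
  have h1 : (κ : ℝ) ≤ κ ^ 2 := by nlinarith
  have h2 : (κ : ℝ) ≤ q := h1.trans hκq
  refine ⟨h2, ?_, ?_⟩
  · push_cast
    have h3 : 0 ≤ (d : ℝ) * κ := by positivity
    nlinarith
  · push_cast
    have h3 : ((d : ℝ) * κ + 1) * κ = d * κ ^ 2 + κ := by ring
    have h4 : (d : ℝ) * κ ^ 2 ≤ d * q := mul_le_mul_of_nonneg_left hκq hd0
    have h5 : ((d : ℝ) + 1) * q = d * q + q := by ring
    rw [h3, h5]
    linarith

/-- the first move: from a position with the property `fg` to an `ok` position -/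
theorem first_move {E : Env d} {r κ Cv n : ℕ} (hg : E.Good r κ Cv (n ^ 2) (n ^ 2)) {x0 : Pos d} {s0 : ℕ}
    (hκ0 : κ ≤ s0) (hfg : E.fg κ s0 x0) (hend : s0 + (d * κ + 1) * κ + κ ≤ n ^ 2)
    (hdn : (d : ℝ) * κ ≤ ((n ^ 2 : ℕ) : ℝ)) (hdW : (d : ℝ) * κ ≤ (((d * κ + 1) * κ : ℕ) : ℝ))
    {b0 : Fin d → ℝ} {B ρ : ℝ} (hB : nr b0 ≤ B)
    (hρ : (Cv + B) * (((d * κ + 1) * κ : ℕ) : ℝ) + r ≤ ρ) :
    ∃ v : Pos d, E.ok κ (s0 + (d * κ + 1) * κ) (x0 + v) ∧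
      E.R (tube (fun j => (x0 j : ℝ)) b0 s0 ρ) s0 x0 (s0 + (d * κ + 1) * κ) (x0 + v) ∧
      nr (dD x0 b0 s0 (x0 + v) (s0 + (d * κ + 1) * κ)) ≤ (1 + B) * (((d * κ + 1) * κ : ℕ) : ℝ) := by
  obtain ⟨W, hW⟩ : ∃ W : ℕ, W = (d * κ + 1) * κ := ⟨_, rfl⟩
  rw [← hW] at hend hdW hρ ⊢
  have hd0 : (0 : ℝ) ≤ d := by positivity
  have hz0 : nr (dD x0 b0 s0 x0 s0) = 0 := by
    have : dD x0 b0 s0 x0 s0 = 0 := by
      funext j
      simp [dD]
    rw [this]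
    simp [nr]
  obtain ⟨v, -, hv, hok⟩ := hg.g1 (s0 + W) (by omega) (by omega) x0
  have hvn : nrm v ≤ d * κ := by
    refine (nrm_le_supn _).trans (mul_le_mul_of_nonneg_left ?_ hd0)
    exact_mod_cast hv
  have hxv : nrm (x0 - (x0 + v)) = nrm v := by
    rw [ZI.Geo.nrm_sub_comm, add_sub_cancel_left]
  have hR0 := hg.g3 s0 (s0 + W) x0 (x0 + v) (by omega) (Nat.le_add_right _ _) (by omega)
    hfg hok.2 (by rw [hxv]; exact hvn.trans hdn) (by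
      rw [hxv, hW]
      push_cast
      have h1 : (nrm v + 1) * κ ≤ ((d : ℝ) * κ + 1) * κ :=
        mul_le_mul_of_nonneg_right (by linarith) (by positivity)
      linarith)
  refine ⟨v, hok, ?_, ?_⟩
  · refine R_tube E hg hB hR0 (Nat.le_add_right _ _) (by omega) ?_
    rw [hz0]
    push_cast
    have h1 : ((Cv : ℝ) + B) * ((s0 : ℝ) + W - s0) = (Cv + B) * W := by ring
    linarith
  · rw [dD_add]
    refine (nr_add_le _ _).trans ?_
    rw [hz0, zero_add]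
    refine (nr_sub_le _ _).trans ?_
    rw [nr_smul, abs_of_nonneg (by positivity), ← nrm_eq_nr]
    have : (W : ℝ) * nr b0 ≤ W * B := mul_le_mul_of_nonneg_left hB (by positivity)
    linarith

/-- the invariant after the first move -/
theorem first_inv {W x B C2 Cv m : ℝ} (hx0 : 0 ≤ x) (hx : x ≤ (1 + B) * W) (hW : 0 ≤ W)
    (h3 : (1 + B) ^ 2 * W ≤ m) (hm : 0 ≤ m) (hC : 1 ≤ Cv) (hC2 : 1 ≤ C2) :
    x ^ 2 ≤ 2 * Cv * C2 ^ 2 * m * W := by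
  have h2 : x ^ 2 ≤ ((1 + B) * W) ^ 2 := pow_le_pow_left₀ hx0 hx 2
  have h6 : (1 : ℝ) ≤ C2 ^ 2 := one_le_pow₀ hC2
  have h7 : (1 : ℝ) ≤ 2 * Cv * C2 ^ 2 := by nlinarith
  have h4 : m ≤ 2 * Cv * C2 ^ 2 * m := le_mul_of_one_le_left hm h7
  calc x ^ 2 ≤ ((1 + B) * W) ^ 2 := h2
    _ = ((1 + B) ^ 2 * W) * W := by ring
    _ ≤ (2 * Cv * C2 ^ 2 * m) * W := mul_le_mul_of_nonneg_right (h3.trans h4) hW

/-- the bounds used for the first move -/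
theorem first_bds {d κ m n s0 s1 : ℕ} {q B C ρ C2 W : ℝ} (hW : W ≤ (d + 1) * q) (hκq : (κ : ℝ) ≤ q)
    (hB : 0 ≤ B) (hC : 0 ≤ C) (hq1 : 1 ≤ q) (b1 : 4 * d * q ≤ m) (b2 : 2 * q ≤ m) (hmn : (m : ℝ) ≤ n)
    (b10 : (1 + B) ^ 2 * (d + 1) * q ≤ m) (b11 : ((C + B) * (d + 1) + 1) * q ≤ m)
    (hC2 : 1 ≤ C2) {Z : ℝ} (hZ : 0 ≤ Z) (hρ : Z + C2 * m ≤ ρ) (hs : s0 + m ≤ s1)
    (h2s : 2 * s1 ≤ n ^ 2) (hn : 1 ≤ n) :
    W ≤ m ∧ (1 + B) ^ 2 * W ≤ m ∧ (C + B) * W + q ≤ ρ ∧ s0 + m + κ ≤ n ^ 2 ∧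
      (d : ℝ) * κ ≤ ((n ^ 2 : ℕ) : ℝ) := by
  have hd0 : (0 : ℝ) ≤ d := by positivity
  have hm0 : (0 : ℝ) ≤ m := by positivity
  have hn' : (1 : ℝ) ≤ n := by exact_mod_cast hn
  have e1 : (1 + B) ^ 2 * W ≤ m := by
    have : (1 + B) ^ 2 * W ≤ (1 + B) ^ 2 * ((d + 1) * q) := mul_le_mul_of_nonneg_left hW (by positivity)
    linarith
  have e2 : W ≤ m := by
    have h1 : (1 : ℝ) ≤ (1 + B) ^ 2 := by nlinarith
    have h2 : (d + 1) * q ≤ (1 + B) ^ 2 * ((d + 1) * q) := le_mul_of_one_le_left (by positivity) h1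
    linarith
  have e3 : (C + B) * W + q ≤ ρ := by
    have h1 : (C + B) * W ≤ (C + B) * ((d + 1) * q) := mul_le_mul_of_nonneg_left hW (by positivity)
    have h2 : ((C + B) * (d + 1) + 1) * q = (C + B) * ((d + 1) * q) + q := by ring
    have h3 : (m : ℝ) ≤ C2 * m := le_mul_of_one_le_left hm0 hC2
    linarith
  have e4 : (n : ℝ) ≤ (n : ℝ) ^ 2 := by nlinarith
  have e5 : 2 * κ ≤ n ^ 2 := by
    have : ((2 * κ : ℕ) : ℝ) ≤ ((n ^ 2 : ℕ) : ℝ) := by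
      push_cast
      linarith
    exact_mod_cast this
  refine ⟨e2, e1, e3, by omega, ?_⟩
  push_cast
  have h1 : (d : ℝ) * κ ≤ d * q := mul_le_mul_of_nonneg_left hκq hd0
  have h2 : 0 ≤ (d : ℝ) * q := by positivity
  linarith

end S6m

open S6m in
open ZI.Rows.S6 hiding near_self step follow R_tube Step in
/-- following a moving target -/
theorem moving_target {Ω : Type} [MeasurableSpace Ω] {P : Measure Ω} (S : Sys d P) (Γm ε B : ℝ)
    (hΓ : 0 < Γm) (hε : 0 < ε) (hε1 : ε < 1) (hB : 0 < B) :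
    ∃ δ : ℝ, 0 < δ ∧ ∃ C : ℝ, 0 < C ∧ ∃ k1 : ℕ, ∀ k ≥ k1, ∀ E : Env d, GoodK S.a S.A S.Cv k E →
    ∀ 𝒰 : Finset (Fin d → ℝ), IsNet δ 𝒰 → ∀ Γ : (Fin d → ℝ) → ℝ, (∀ u ∈ 𝒰, 0 < Γ u ∧ Γ u ≤ Γm) →
    StepP S.a S.A k E 𝒰 Γ → ∀ b0 : Fin d → ℝ, ∑ j, b0 j ^ 2 ≤ B ^ 2 →
    (∀ u ∈ 𝒰, Γ u * ∑ j, u j * b0 j ≤ 1 - ε) → ∀ m : ℕ, 2 ^ k ≤ m ^ 2 → m ≤ 2 ^ k →
    ∀ (x0 : Pos d) (s0 s1 : ℕ), kp S.a S.A k ≤ s0 → E.fg (kp S.a S.A k) s0 x0 →
    supn x0 ≤ rr S.A k * 2 ^ k → s0 + m ≤ s1 →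
    s1 ≤ s0 + rr S.A k * 2 ^ k → 2 * s1 ≤ (2 ^ k) ^ 2 → ∀ ρ : ℝ,
    C * m * Real.sqrt (1 + ((s1 : ℝ) - s0) / m) ≤ ρ →
    ∃ (s : ℕ) (x : Pos d), s0 ≤ s ∧ s ≤ s1 ∧ (s1 : ℝ) ≤ s + Γm * m + m ∧
      E.R (tube (fun j => (x0 j : ℝ)) b0 s0 ρ) s0 x0 s x ∧ x ∈ tube (fun j => (x0 j : ℝ)) b0 s0 ρ s ∧
      E.ok (kp S.a S.A k) s x := by
  obtain ⟨C2, hC2⟩ : ∃ C2 : ℝ, C2 = (S.Cv + B) * Γm + 1 := ⟨_, rfl⟩
  have hC20 : 0 < C2 := by rw [hC2]; positivity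
  obtain ⟨C4, hC4⟩ : ∃ C4 : ℝ, C4 = Real.sqrt (2 * S.Cv) * C2 := ⟨_, rfl⟩
  have hC40 : 0 ≤ C4 := by rw [hC4]; positivity
  have hC42 : C4 ^ 2 = 2 * S.Cv * C2 ^ 2 := by
    rw [hC4, mul_pow, Real.sq_sqrt (by positivity)]
  obtain ⟨K, hK⟩ : ∃ K : ℝ, K = 4 * d + 2 + 2 * (Γm + 66) + 66 / Γm + (3 * d + 32 + 66 * B) +
      2 * (66 * B + d) / ε + (d + 1 + 66 * (S.Cv + B)) + (1 + B + C4) + 66 +
      (1 + B) ^ 2 * (d + 1) + ((S.Cv + B) * (d + 1) + 1) := ⟨_, rfl⟩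
  obtain ⟨k2, hk2⟩ := scale_large S.A_big K
  refine ⟨ε / (2 * C2), by positivity, C4 + C2, by positivity, max S.k0 k2, ?_⟩
  intro k hk E hE 𝒰 hN Γ hΓu hst b0 hb0 hub m hm1 hm x0 s0 s1 hκ0 hfg hx0 hs0m hs1 h2s ρ hρ
  have hs01 : s0 ≤ s1 := by omega
  have hKm := hk2 k (le_trans (le_max_right _ _) hk) m hm1
  obtain ⟨q, hq⟩ : ∃ q : ℝ, q = (rr S.A k : ℝ) ^ (7 * S.a) := ⟨_, rfl⟩
  rw [← hq] at hKm
  have hr1' : (1 : ℝ) ≤ rr S.A k := by exact_mod_cast rr_pos S.A k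
  have hq1 : 1 ≤ q := by rw [hq]; exact one_le_pow₀ hr1'
  have hd0 : (0 : ℝ) ≤ d := by positivity
  have hCv0 : (0 : ℝ) ≤ S.Cv := by positivity
  have p1 : 0 ≤ 66 / Γm := by positivity
  have p2 : 0 ≤ 2 * (66 * B + d) / ε := by positivity
  have p3 : (0 : ℝ) ≤ d + 1 + 66 * (S.Cv + B) := by positivity
  have p4 : (0 : ℝ) ≤ 3 * d + 32 + 66 * B := by positivity
  have p5 : (0 : ℝ) ≤ (1 + B) ^ 2 * (d + 1) := by positivity
  have p6 : (0 : ℝ) ≤ (S.Cv + B) * (d + 1) + 1 := by positivity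
  have hKc : ∀ c : ℝ, c ≤ K → c * q ≤ m := fun c hc =>
    (mul_le_mul_of_nonneg_right hc (by linarith)).trans hKm
  have hmn : (m : ℝ) ≤ 2 ^ k := by exact_mod_cast hm
  have b1 : 4 * d * q ≤ m := hKc _ (by rw [hK]; linarith)
  have b2 : 2 * q ≤ m := hKc _ (by rw [hK]; linarith)
  have hm0 : (0 : ℝ) < m := by linarith
  have b3 : 2 * (Γm + 66) ≤ (2 : ℝ) ^ k := by
    have h1 : 2 * (Γm + 66) * q ≤ m := hKc _ (by rw [hK]; linarith)
    nlinarith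
  have b4 : 66 * q ≤ Γm * m := by
    have h1 : 66 / Γm * q ≤ m := hKc _ (by rw [hK]; linarith)
    have h2 : Γm * (66 / Γm * q) = 66 * q := by field_simp
    rw [← h2]
    exact mul_le_mul_of_nonneg_left h1 hΓ.le
  have b5 : (3 * d + 32 + 66 * B) * q ≤ m := hKc _ (by rw [hK]; linarith)
  have b6 : 2 * (66 * B + d) * q ≤ ε * m := by
    have h1 : 2 * (66 * B + d) / ε * q ≤ m := hKc _ (by rw [hK]; linarith)
    have h2 : ε * (2 * (66 * B + d) / ε * q) = 2 * (66 * B + d) * q := by field_simp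
    rw [← h2]
    exact mul_le_mul_of_nonneg_left h1 hε.le
  have b7 : (d + 1 + 66 * (S.Cv + B)) * q ≤ m := hKc _ (by rw [hK]; linarith)
  have b8 : (1 + B + C4) * q ≤ (2 : ℝ) ^ k := (hKc _ (by rw [hK]; linarith)).trans hmn
  have b9 : 66 * q ≤ m := hKc _ (by rw [hK]; linarith)
  have b10 : (1 + B) ^ 2 * (d + 1) * q ≤ m := hKc _ (by rw [hK]; linarith)
  have b11 : ((S.Cv + B) * (d + 1) + 1) * q ≤ m := hKc _ (by rw [hK]; linarith)
  have hB' : nr b0 ≤ B := by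
    rw [nr, ← Real.sqrt_sq hB.le]
    exact Real.sqrt_le_sqrt hb0
  have hL : (0 : ℝ) ≤ (s1 : ℝ) - s0 := by
    have : (s0 : ℝ) ≤ s1 := by exact_mod_cast hs01
    linarith
  have hρ' : Real.sqrt (2 * S.Cv * C2 ^ 2 * m * ((s1 : ℝ) - s0)) + C2 * m ≤ ρ := by
    refine le_trans ?_ hρ
    have e1 : Real.sqrt (2 * S.Cv * C2 ^ 2 * m * ((s1 : ℝ) - s0)) = C4 * Real.sqrt (m * ((s1 : ℝ) - s0)) := by
      rw [← hC42, mul_assoc (C4 ^ 2), Real.sqrt_mul (by positivity), Real.sqrt_sq hC40]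
    have e2 : Real.sqrt (m * ((s1 : ℝ) - s0)) ≤ m * Real.sqrt (1 + ((s1 : ℝ) - s0) / m) := by
      have e3 : (m : ℝ) * Real.sqrt (1 + ((s1 : ℝ) - s0) / m) =
          Real.sqrt (m ^ 2 * (1 + ((s1 : ℝ) - s0) / m)) := by
        rw [Real.sqrt_mul (by positivity), Real.sqrt_sq hm0.le]
      rw [e3]
      refine Real.sqrt_le_sqrt ?_
      have e4 : (m : ℝ) ^ 2 * (1 + ((s1 : ℝ) - s0) / m) = m ^ 2 + m * ((s1 : ℝ) - s0) := by
        field_simp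
      rw [e4]
      nlinarith
    have e5 : (1 : ℝ) ≤ Real.sqrt (1 + ((s1 : ℝ) - s0) / m) := by
      rw [show (1 : ℝ) = Real.sqrt 1 by rw [Real.sqrt_one]]
      refine Real.sqrt_le_sqrt ?_
      rw [Real.sqrt_one]
      have := div_nonneg hL hm0.le
      linarith
    rw [e1]
    have e6 : C4 * Real.sqrt (m * ((s1 : ℝ) - s0)) ≤ C4 * (m * Real.sqrt (1 + ((s1 : ℝ) - s0) / m)) :=
      mul_le_mul_of_nonneg_left e2 hC40
    have e7 : C2 * m * 1 ≤ C2 * m * Real.sqrt (1 + ((s1 : ℝ) - s0) / m) :=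
      mul_le_mul_of_nonneg_left e5 (by positivity)
    calc C4 * Real.sqrt (m * ((s1 : ℝ) - s0)) + C2 * m
        ≤ C4 * (m * Real.sqrt (1 + ((s1 : ℝ) - s0) / m)) + C2 * m * Real.sqrt (1 + ((s1 : ℝ) - s0) / m) := by
          linarith
      _ = (C4 + C2) * m * Real.sqrt (1 + ((s1 : ℝ) - s0) / m) := by ring
  have hρ0 : 0 ≤ ρ := le_trans (by positivity) hρ'
  have hz0 : nr (dD x0 b0 s0 x0 s0) = 0 := by
    have : dD x0 b0 s0 x0 s0 = 0 := by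
      funext j
      simp [dD]
    rw [this]
    simp [nr]
  -- the first move, to an `ok` position
  obtain ⟨κ, hκ⟩ : ∃ κ : ℕ, κ = kp S.a S.A k := ⟨_, rfl⟩
  have hκ1 : 1 ≤ κ := by rw [hκ, kp]; exact Nat.one_le_pow _ _ (rr_pos S.A k)
  have ha := S.a_big
  have hκq : ((κ : ℕ) : ℝ) ^ 2 ≤ q := by
    rw [hκ, hq, kp]
    push_cast
    rw [← pow_mul]
    exact pow_le_pow_right₀ hr1' (by omega)
  have hrq : ((rr S.A k : ℕ) : ℝ) ≤ q := by
    rw [hq]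
    calc (rr S.A k : ℝ) = (rr S.A k : ℝ) ^ 1 := (pow_one _).symm
      _ ≤ (rr S.A k : ℝ) ^ (7 * S.a) := pow_le_pow_right₀ hr1' (by omega)
  have hGood : E.Good (rr S.A k) κ S.Cv ((2 ^ k) ^ 2) ((2 ^ k) ^ 2) := by rw [hκ]; exact hE
  have hC21 : (1 : ℝ) ≤ C2 := by
    rw [hC2]
    have : 0 ≤ (S.Cv + B) * Γm := by positivity
    linarith
  obtain ⟨f1, f2, f3⟩ := first_num (d := d) hκ1 hκq
  obtain ⟨g1, g2, g3, g4, g5⟩ := first_bds (d := d) (κ := κ) (m := m) (n := 2 ^ k) (s0 := s0) (s1 := s1) f3 f1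
    hB.le hCv0 hq1 b1 b2 (by push_cast; exact hmn) b10 b11 hC21
    (Real.sqrt_nonneg (2 * S.Cv * C2 ^ 2 * m * ((s1 : ℝ) - s0))) hρ' hs0m h2s Nat.one_le_two_pow
  have hWm : (d * κ + 1) * κ ≤ m := by exact_mod_cast g1
  obtain ⟨v, hok, hR1, hnv⟩ := first_move (E := E) (ρ := ρ) hGood (x0 := x0) (s0 := s0) (by omega)
    (by rw [hκ]; exact hfg) (by omega) g5 f2 hB' (by linarith)
  have hinv : nr (dD x0 b0 s0 (x0 + v) (s0 + (d * κ + 1) * κ)) ^ 2 ≤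
      2 * S.Cv * C2 ^ 2 * m * (((s0 + (d * κ + 1) * κ : ℕ) : ℝ) - s0) := by
    have h1 := first_inv (nr_nonneg _) hnv (by positivity) g2 hm0.le
      (by exact_mod_cast S.Cv_pos : (1 : ℝ) ≤ S.Cv) hC21
    have h2 : ((s0 + (d * κ + 1) * κ : ℕ) : ℝ) - s0 = (((d * κ + 1) * κ : ℕ) : ℝ) := by
      rw [Nat.cast_add]
      ring
    rw [h2]
    exact h1
  have hok' : E.ok (kp S.a S.A k) (s0 + (d * κ + 1) * κ) (x0 + v) := by rw [← hκ]; exact hok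
  refine follow S (le_trans (le_max_left _ _) hk) hE hN hΓu hst hB' hub hm1 hm hx0 hs1 h2s hΓ hε1
    (by positivity) ?_ hC2 hC40 hC42 hq b1 b2 b3 b4 b5 b6 b7 b8 b9 hκ0 hρ' s1 (x0 + v)
    (s0 + (d * κ + 1) * κ) (Nat.le_add_right _ _) (by omega) (by omega) ?_ hinv
  · field_simp
  · rw [near_self E hok']
    exact hR1

end ZP.Rows
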