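import Pool.Agent.ZP.S6a
import Pool.Agent.ZP.D0b
import Pool.Agent.ZI.S7

/-! # S7: reaching a target in linear time (deterministic, with recovery) -/

set_option autoImplicit false

open scoped ENNReal BigOperators Classical
open MeasureTheory

noncomputable section

namespace ZP.Rows

open ZP

variable {d : ℕ} {Ω : Type} [MeasurableSpace Ω] {P : Measure Ω}

namespace S7

open S6

export ZI.Rows.S7 (scale_pow contract nrm_comm dD_zero tube_eq)

/-- the recursion over the blocks: the potential `s + 16 Γm |z - y|` of the centres does not increase -/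
theorem walk (S : Sys d P) {k : ℕ} (hk : S.k0 ≤ k) {E : Env d} (hE : GoodK S.a S.A S.Cv k E)
    {𝒰 : Finset (Fin d → ℝ)} {C2 : ℝ} (hN : IsNet (1 / (2 * C2)) 𝒰) {Γ : (Fin d → ℝ) → ℝ} {Γm q p : ℝ}
    (hΓ : ∀ u ∈ 𝒰, 0 < Γ u ∧ Γ u ≤ Γm) (hst : StepP S.a S.A k E 𝒰 Γ)
    {x y : Pos d} {s t : ℕ} {x0 : Pos d} {s0 : ℕ} (hxs : supn x ≤ rr S.A k * 2 ^ k)
    (hks : kp S.a S.A k ≤ s)
    (hD0 : nrm (x - y) ≤ 2 ^ k) (ht : (s : ℝ) + 16 * Γm * nrm (x - y) ≤ t)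
    (h2t : 2 * t ≤ (2 ^ k) ^ 2) (hΓm : 0 < Γm) (hC2 : C2 = S.Cv * Γm + 1)
    (hq : q = (rr S.A k : ℝ) ^ (7 * S.a))
    (hb1 : ∀ m : ℕ, 2 ^ k ≤ m ^ 2 → 4 * d * q ≤ m) (hb2 : ∀ m : ℕ, 2 ^ k ≤ m ^ 2 → 2 * q ≤ m)
    (hb3 : ∀ m : ℕ, 2 ^ k ≤ m ^ 2 → (66 / Γm + 16 * (32 + d)) * q ≤ m)
    (b3 : 2 * (Γm + 66) ≤ 2 ^ k) (b5 : (d + 66 * S.Cv + 1) * q ≤ p) (b6 : rr S.A k + 2 ≤ 2 ^ k) :
    ∀ (n : ℕ) (x' : Pos d) (s' : ℕ), t ≤ s' + n → s ≤ s' →
      E.R (fun _ => Ball y (2 * nrm (x - y) + p)) s0 x0 s' (E.near (kp S.a S.A k) s' x') →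
      (s' : ℝ) + 16 * Γm * nrm (x' - y) ≤ s + 16 * Γm * nrm (x - y) → nrm (x' - y) ≤ nrm (x - y) →
      ∃ (s'' : ℕ) (x'' : Pos d), s ≤ s'' ∧
        E.R (fun _ => Ball y (2 * nrm (x - y) + p)) s0 x0 s'' (E.near (kp S.a S.A k) s'' x'') ∧
        (s'' : ℝ) + 16 * Γm * nrm (x'' - y) ≤ s + 16 * Γm * nrm (x - y) ∧
        nrm (x'' - y) ≤ nrm (x - y) ∧
        nrm (x'' - y) ≤ 4 * C2 ^ 2 * (Real.sqrt (2 ^ k) + 1) := by
  have hr1' : (1 : ℝ) ≤ rr S.A k := by exact_mod_cast rr_pos S.A k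
  have hq1 : 1 ≤ q := by rw [hq]; exact one_le_pow₀ hr1'
  have hd0 : (0 : ℝ) ≤ d := by positivity
  have hCv0 : (0 : ℝ) ≤ S.Cv := by positivity
  have hCG : 0 ≤ S.Cv * Γm := by positivity
  have hC21 : 1 ≤ C2 := by rw [hC2]; linarith
  have hC20 : 0 < C2 := by linarith
  have hC22 : C2 ≤ C2 ^ 2 := by nlinarith
  have hp0 : 0 ≤ p := le_trans (by positivity) b5
  have hD00 : 0 ≤ nrm (x - y) := Real.sqrt_nonneg _
  intro n
  induction n with
  | zero =>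
    intro x' s' h1 hss hR h2 h3
    by_cases hsm : nrm (x' - y) ≤ 4 * C2 ^ 2 * (Real.sqrt (2 ^ k) + 1)
    · exact ⟨s', x', hss, hR, h2, h3, hsm⟩
    · exfalso
      push Not at hsm
      have e1 : (0 : ℝ) < 4 * C2 ^ 2 * (Real.sqrt (2 ^ k) + 1) := by positivity
      have e2 : (t : ℝ) ≤ s' := by exact_mod_cast (by omega : t ≤ s')
      have e3 : 0 < 16 * Γm * nrm (x' - y) := mul_pos (by linarith) (by linarith)
      linarith
  | succ n ih =>
    intro x' s' h1 hss hR h2 h3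
    by_cases hsm : nrm (x' - y) ≤ 4 * C2 ^ 2 * (Real.sqrt (2 ^ k) + 1)
    · exact ⟨s', x', hss, hR, h2, h3, hsm⟩
    push Not at hsm
    obtain ⟨D, hD⟩ : ∃ D : ℝ, D = nrm (x' - y) := ⟨_, rfl⟩
    rw [← hD] at h2 h3 hsm
    have hsq : (1 : ℝ) ≤ Real.sqrt (2 ^ k) := Real.one_le_sqrt.2 (one_le_pow₀ (by norm_num))
    have hDpos : 0 < D := lt_trans (by positivity) hsm
    obtain ⟨m, hm⟩ : ∃ m : ℕ, m = ⌊D / (2 * C2 ^ 2)⌋₊ := ⟨_, rfl⟩
    have hm2 : (m : ℝ) ≤ D / (2 * C2 ^ 2) := by rw [hm]; exact Nat.floor_le (by positivity)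
    have hm3 : D / (2 * C2 ^ 2) < m + 1 := by rw [hm]; exact Nat.lt_floor_add_one _
    have hbig : 2 * (Real.sqrt (2 ^ k) + 1) < D / (2 * C2 ^ 2) := by
      rw [lt_div_iff₀ (by positivity)]
      linarith
    have hm4 : Real.sqrt (2 ^ k) ≤ m := by linarith
    have hm5 : 2 ^ k ≤ m ^ 2 := by
      have e1 : Real.sqrt (2 ^ k) ^ 2 ≤ (m : ℝ) ^ 2 := pow_le_pow_left₀ (Real.sqrt_nonneg _) hm4 2
      rw [Real.sq_sqrt (by positivity)] at e1
      exact_mod_cast e1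
    have hm6 : D ≤ 4 * C2 ^ 2 * m := by
      have e1 : D / (2 * C2 ^ 2) ≤ 2 * m := by linarith
      rw [div_le_iff₀ (by positivity)] at e1
      linarith
    have hm7 : 2 * C2 ^ 2 * m ≤ D := by
      rw [le_div_iff₀ (by positivity)] at hm2
      linarith
    have hm8 : m ≤ 2 ^ k := by
      have e1 : (m : ℝ) ≤ 2 ^ k := by
        have e2 : (m : ℝ) * 1 ≤ m * (2 * C2 ^ 2) :=
          mul_le_mul_of_nonneg_left (by nlinarith) (by positivity)
        linarith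
      exact_mod_cast e1
    have hm0 : (0 : ℝ) < m := by linarith
    have b1 := hb1 m hm5
    have b2 := hb2 m hm5
    have b4 := hb3 m hm5
    have hs't : s' ≤ t := by
      have : (s' : ℝ) ≤ t := by
        have : 0 ≤ 16 * Γm * D := by positivity
        linarith
      exact_mod_cast this
    -- the size of `x'`
    have hzs : supn x' ≤ (2 ^ k) ^ 2 := by
      refine Finset.sup_le fun j _ => ?_
      have e3 : (x j).natAbs ≤ supn x := Finset.le_sup (f := fun j => (x j).natAbs) (Finset.mem_univ j)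
      have e4 : |(x j : ℝ)| ≤ rr S.A k * 2 ^ k := by
        have e5 : |(x j : ℝ)| = ((x j).natAbs : ℝ) := by
          rw [Nat.cast_natAbs]; push_cast; rfl
        rw [e5]
        exact_mod_cast e3.trans hxs
      have e6 : |rv (x - y) j| ≤ 2 ^ k := (abs_le_nr _ j).trans (by rw [← nrm_eq_nr]; exact hD0)
      have e7 : |rv (x' - y) j| ≤ 2 ^ k :=
        (abs_le_nr _ j).trans (by rw [← nrm_eq_nr, ← hD]; linarith)
      have e8 : (x' j : ℝ) = x j - rv (x - y) j + rv (x' - y) j := by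
        simp [rv]
      have e9 : |(x' j : ℝ)| ≤ (rr S.A k + 2) * 2 ^ k := by
        rw [e8]
        rw [abs_le] at e4 e6 e7 ⊢
        constructor <;> nlinarith [e4.1, e4.2, e6.1, e6.2, e7.1, e7.2]
      have e10 : ((rr S.A k : ℝ) + 2) * 2 ^ k ≤ 2 ^ k * 2 ^ k :=
        mul_le_mul_of_nonneg_right (by exact_mod_cast b6) (by positivity)
      have e11 : |(x' j : ℝ)| = ((x' j).natAbs : ℝ) := by
        rw [Nat.cast_natAbs]; push_cast; rfl
      rw [e11] at e9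
      have e12 : ((x' j).natAbs : ℝ) ≤ (2 ^ k) ^ 2 := by
        rw [sq]
        exact e9.trans e10
      exact_mod_cast e12
    obtain ⟨e, he1, he2⟩ := exists_dir S.d_pos (rv (x' - y))
    obtain ⟨u, huU, hue⟩ := hN.2 e he1
    have hu := hN.1 u huU
    have hnet : nr (e - u) ≤ 1 / (2 * C2) := by
      rw [← Real.sqrt_sq (by positivity : (0 : ℝ) ≤ 1 / (2 * C2))]
      exact Real.sqrt_le_sqrt hue
    have hbl := hst u huU m hm5 hm8 x' s' hzs (hks.trans hss) (by omega)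
    have hz : nr (0 : Fin d → ℝ) ≤ 0 := by simp [nr]
    obtain ⟨h, Δ, X, v, H⟩ := step S hk hE hu hq b1 b2 b3 hm8 (z := x') (s := s') (hks.trans hss) (by omega) hbl
      (hΓ u huU).2 (x0 := y) (b0 := 0) (s0 := 0) (B := 0) (ρ := 2 * nrm (x - y) + p) hz (by
        rw [dD_zero, ← nrm_eq_nr, ← hD]
        have e1 : (S.Cv : ℝ) * (Γm * m) ≤ D := by
          have e2 : (S.Cv : ℝ) * (Γm * m) = (S.Cv * Γm) * m := by ring
          rw [e2]
          have e3 : (S.Cv * Γm) * m ≤ C2 ^ 2 * m :=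
            mul_le_mul_of_nonneg_right (by linarith) hm0.le
          have e4 : C2 ^ 2 * m ≤ 2 * C2 ^ 2 * m := by nlinarith [mul_pos (pow_pos hC20 2) hm0]
          linarith
        have e2 : D + d * q + (S.Cv + 0) * (Γm * m + 66 * q) + q =
          D + S.Cv * (Γm * m) + (d + 66 * S.Cv + 1) * q := by ring
        rw [e2]
        linarith)
    have hR1 := H.R2
    rw [tube_eq] at hR1
    have hh1 : 0 < h := by
      rcases Nat.eq_zero_or_pos h with h0 | h0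
      · exfalso
        have := H.h_lb
        rw [h0] at this
        push_cast at this
        linarith
      · exact h0
    have hXn : nr (rv X) ≤ C2 * m := by
      have e1 := H.X_nrm
      rw [nrm_eq_nr] at e1
      have e2 : (S.Cv : ℝ) * h ≤ S.Cv * (Γm * m) := by
        refine mul_le_mul_of_nonneg_left ?_ hCv0
        exact H.h_ub.trans (mul_le_mul_of_nonneg_right (hΓ u huU).2 hm0.le)
      have e3 : 2 * (d : ℝ) * q ≤ m := by nlinarith [mul_nonneg hd0 (by linarith : (0 : ℝ) ≤ q)]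
      rw [hC2]
      linarith
    have hnD : nr (rv (x' - y)) = D := by rw [hD, nrm_eq_nr]
    have hcon := contract (D := rv (x' - y)) (X := rv X) (u := u) (e := e) (m := m) hC21 he2 hnet hXn
      H.X_lev hm0.le (by rw [hnD]; exact hm6) (by rw [hnD]; exact hm7)
    rw [hnD, ← rv_add, ← nrm_eq_nr] at hcon
    have hxy : x' - y + X = x' + X - y := by abel
    rw [hxy] at hcon
    have hlam : (1 - 1 / (16 * C2 ^ 2)) * D = D - D / (16 * C2 ^ 2) := by ring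
    rw [hlam] at hcon
    have hlam0 : 0 ≤ D / (16 * C2 ^ 2) := by positivity
    have hDm : (m : ℝ) / 8 ≤ D / (16 * C2 ^ 2) := by
      rw [div_le_div_iff₀ (by norm_num) (by positivity)]
      linarith
    have hq0 : 0 ≤ q := by linarith
    have hv : nrm v ≤ (32 + d) * q := H.v_nrm
    have hg0 : 0 ≤ 66 / Γm := by positivity
    have hvm : (32 + (d : ℝ)) * q ≤ m / 16 := by
      have e1 : (16 * (32 + (d : ℝ))) * q ≤ (66 / Γm + 16 * (32 + d)) * q :=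
        mul_le_mul_of_nonneg_right (by linarith) hq0
      linarith
    have hcon2 : nrm (x' + X + v - y) ≤ D - D / (16 * C2 ^ 2) + (32 + d) * q := by
      have e1 : x' + X + v - y = (x' + X - y) + v := by abel
      have e2 : nrm (x' + X + v - y) ≤ nrm (x' + X - y) + nrm v := by
        rw [e1, nrm_eq_nr, nrm_eq_nr, nrm_eq_nr, rv_add]
        exact nr_add_le _ _
      linarith
    have htime : (h : ℝ) + Δ + 16 * Γm * (D - D / (16 * C2 ^ 2) + (32 + d) * q) ≤ 16 * Γm * D := by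
      have e1 : (h : ℝ) ≤ Γm * m := H.h_ub.trans (mul_le_mul_of_nonneg_right (hΓ u huU).2 hm0.le)
      have e2 : 16 * Γm * (m / 8) ≤ 16 * Γm * (D / (16 * C2 ^ 2)) :=
        mul_le_mul_of_nonneg_left hDm (by positivity)
      have e3 : Γm * ((66 / Γm + 16 * (32 + d)) * q) ≤ Γm * m := mul_le_mul_of_nonneg_left b4 hΓm.le
      have e4 : Γm * ((66 / Γm + 16 * (32 + d)) * q) = 66 * q + 16 * Γm * ((32 + d) * q) := by
        field_simp
      have e5 := H.Δ_ub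
      have e6 : 16 * Γm * (D - D / (16 * C2 ^ 2) + (32 + d) * q) =
          16 * Γm * D - 16 * Γm * (D / (16 * C2 ^ 2)) + 16 * Γm * ((32 + d) * q) := by ring
      linarith
    refine ih (x' + X + v) (s' + h + Δ) (by omega) (by omega) (R_trans E hR hR1) ?_ (by linarith)
    push_cast
    have e1 : 16 * Γm * nrm (x' + X + v - y) ≤ 16 * Γm * (D - D / (16 * C2 ^ 2) + (32 + d) * q) :=
      mul_le_mul_of_nonneg_left hcon2 (by positivity)
    linarith

end S7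

open S6 S7 in
/-- reaching a target in linear time -/
theorem reach (S : Sys d P) (Γm : ℝ) (hΓ : 0 < Γm) :
    ∃ δ : ℝ, 0 < δ ∧ ∃ C : ℝ, 0 < C ∧ ∃ k1 : ℕ, ∀ k ≥ k1, ∀ E : Env d, GoodK S.a S.A S.Cv k E →
    ∀ 𝒰 : Finset (Fin d → ℝ), IsNet δ 𝒰 → ∀ Γ : (Fin d → ℝ) → ℝ, (∀ u ∈ 𝒰, 0 < Γ u ∧ Γ u ≤ Γm) →
    StepP S.a S.A k E 𝒰 Γ → ∀ (x y : Pos d) (s t : ℕ), kp S.a S.A k ≤ s → E.fg (kp S.a S.A k) s x →
    supn x ≤ rr S.A k * 2 ^ k →
    nrm (y - x) ≤ 2 ^ k → (s : ℝ) + C * nrm (y - x) + ((2 : ℝ) ^ k) ^ (3 / 4 : ℝ) ≤ t →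
    t ≤ s + rr S.A k * 2 ^ k → 2 * t ≤ (2 ^ k) ^ 2 →
    (E.bg (kp S.a S.A k) t y →
      E.R (fun _ => Ball y (2 * nrm (y - x) + ((2 : ℝ) ^ k) ^ (3 / 4 : ℝ))) s x t y) ∧
    E.vis (fun _ => Ball y (2 * nrm (y - x) + ((2 : ℝ) ^ k) ^ (3 / 4 : ℝ))) s x t y := by
  obtain ⟨C2, hC2⟩ : ∃ C2 : ℝ, C2 = S.Cv * Γm + 1 := ⟨_, rfl⟩
  have hCG : 0 ≤ S.Cv * Γm := by positivity
  have hC21 : 1 ≤ C2 := by rw [hC2]; linarith
  have hC20 : 0 < C2 := by linarith
  obtain ⟨K, hK⟩ : ∃ K : ℝ, K = 4 * d + 2 + 2 * (Γm + 66) + (66 / Γm + 16 * (32 + d)) := ⟨_, rfl⟩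
  have hg0 : 0 ≤ 66 / Γm := by positivity
  obtain ⟨k2, hk2⟩ := scale_large S.A_big K
  obtain ⟨K', hK'⟩ : ∃ K' : ℝ, K' = 16 * C2 ^ 2 + 16 + 4 * d + 66 * S.Cv := ⟨_, rfl⟩
  obtain ⟨k3, hk3⟩ := scale_pow S.A_big K'
  refine ⟨1 / (2 * C2), by positivity, 16 * Γm, by positivity, max (max S.k0 k2) (max k3 4), ?_⟩
  intro k hk E hE 𝒰 hN Γ hΓu hst x y s t hks hfg hxs hD0 ht htr h2t
  have hk0 : S.k0 ≤ k := by omega
  have hk4 : 4 ≤ k := by omega
  obtain ⟨κ, hκ⟩ : ∃ κ : ℕ, κ = kp S.a S.A k := ⟨_, rfl⟩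
  obtain ⟨q, hq⟩ : ∃ q : ℝ, q = (rr S.A k : ℝ) ^ (7 * S.a) := ⟨_, rfl⟩
  obtain ⟨p, hp⟩ : ∃ p : ℝ, p = ((2 : ℝ) ^ k) ^ (3 / 4 : ℝ) := ⟨_, rfl⟩
  obtain ⟨w, hw⟩ : ∃ w : ℝ, w = Real.sqrt (2 ^ k) := ⟨_, rfl⟩
  have hr1 : 1 ≤ rr S.A k := rr_pos _ _
  have hr1' : (1 : ℝ) ≤ rr S.A k := by exact_mod_cast hr1
  have hq1 : 1 ≤ q := by rw [hq]; exact one_le_pow₀ hr1'
  have ha := S.a_big
  have hκr : (κ : ℝ) = (rr S.A k : ℝ) ^ S.a := by
    rw [hκ, kp]
    push_cast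
    rfl
  have hκ1 : (1 : ℝ) ≤ κ := by rw [hκr]; exact one_le_pow₀ hr1'
  have hκq : (κ : ℝ) ≤ q := by
    rw [hq, hκr]
    exact pow_le_pow_right₀ hr1' (by omega)
  have hκ2q : (κ : ℝ) * κ ≤ q := by
    rw [hq, hκr, ← pow_add]
    exact pow_le_pow_right₀ hr1' (by omega)
  have hd0 : (0 : ℝ) ≤ d := by positivity
  have hCv0 : (0 : ℝ) ≤ S.Cv := by positivity
  have hw1 : 1 ≤ w := by
    rw [hw]
    exact Real.one_le_sqrt.2 (one_le_pow₀ (by norm_num))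
  have hww : w ^ 2 = 2 ^ k := by rw [hw]; exact Real.sq_sqrt (by positivity)
  have hmain : K' * q ^ 2 * w ≤ p := by
    rw [hq, hw, hp]
    exact hk3 k (by omega)
  have hpK : ∀ c : ℝ, 0 ≤ c → c ≤ K' → c * q ^ 2 * w ≤ p := fun c _ hc => by
    refine le_trans ?_ hmain
    exact mul_le_mul_of_nonneg_right (mul_le_mul_of_nonneg_right hc (by positivity)) (by linarith)
  have hqq : q ≤ q ^ 2 * w := by
    have e1 : q * 1 ≤ q * (q * w) :=
      mul_le_mul_of_nonneg_left (by nlinarith) (by linarith)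
    nlinarith
  have hqqp : 0 ≤ q ^ 2 * w := by positivity
  have b5 : (d + 66 * S.Cv + 1) * q ≤ p := by
    have e1 : (d + 66 * S.Cv + 1) * q ≤ (d + 66 * S.Cv + 1) * (q ^ 2 * w) :=
      mul_le_mul_of_nonneg_left hqq (by positivity)
    have e2 := hpK (d + 66 * S.Cv + 1) (by positivity) (by rw [hK']; nlinarith [sq_nonneg C2])
    nlinarith
  have b5' : (4 * d + 4) * q ≤ p := by
    have e1 : (4 * (d : ℝ) + 4) * q ≤ (4 * d + 4) * (q ^ 2 * w) :=
      mul_le_mul_of_nonneg_left hqq (by positivity)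
    have e2 := hpK (4 * d + 4) (by positivity) (by rw [hK']; nlinarith [sq_nonneg C2])
    nlinarith
  have hb1 : ∀ m : ℕ, 2 ^ k ≤ m ^ 2 → 4 * d * q ≤ m := fun m hm => by
    refine le_trans ?_ (hk2 k (by omega) m hm)
    rw [← hq]
    exact mul_le_mul_of_nonneg_right (by rw [hK]; linarith) (by linarith)
  have hb2 : ∀ m : ℕ, 2 ^ k ≤ m ^ 2 → 2 * q ≤ m := fun m hm => by
    refine le_trans ?_ (hk2 k (by omega) m hm)
    rw [← hq]
    exact mul_le_mul_of_nonneg_right (by rw [hK]; linarith) (by linarith)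
  have hb3 : ∀ m : ℕ, 2 ^ k ≤ m ^ 2 → (66 / Γm + 16 * (32 + d)) * q ≤ m := fun m hm => by
    refine le_trans ?_ (hk2 k (by omega) m hm)
    rw [← hq]
    exact mul_le_mul_of_nonneg_right (by rw [hK]; linarith) (by linarith)
  have hb2k : K * q ≤ 2 ^ k := by
    have := hk2 k (by omega) (2 ^ k) (by
      rw [sq]
      exact Nat.le_mul_of_pos_left _ (by positivity))
    rw [← hq] at this
    exact_mod_cast this
  have b3 : 2 * (Γm + 66) ≤ (2 : ℝ) ^ k := by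
    refine le_trans ?_ hb2k
    have e1 : 2 * (Γm + 66) ≤ K := by rw [hK]; linarith
    have e2 : K * 1 ≤ K * q := mul_le_mul_of_nonneg_left hq1 (by rw [hK]; positivity)
    linarith
  have b6 : rr S.A k + 2 ≤ 2 ^ k := by
    have e1 : ((rr S.A k + 2 : ℕ) : ℝ) ≤ ((2 ^ k : ℕ) : ℝ) := by
      push_cast
      refine le_trans ?_ hb2k
      have e2 : (3 : ℝ) ≤ K := by rw [hK]; linarith
      have e3 : 3 * q ≤ K * q := mul_le_mul_of_nonneg_right e2 (by linarith)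
      have hrq : (rr S.A k : ℝ) ≤ q := by
        rw [hq]
        calc (rr S.A k : ℝ) = (rr S.A k : ℝ) ^ 1 := (pow_one _).symm
          _ ≤ (rr S.A k : ℝ) ^ (7 * S.a) := pow_le_pow_right₀ hr1' (by omega)
      linarith
    exact_mod_cast e1
  have hp0 : 0 ≤ p := le_trans (by positivity) b5
  have hGood : E.Good (rr S.A k) κ S.Cv ((2 ^ k) ^ 2) ((2 ^ k) ^ 2) := by
    rw [hκ]
    exact hE
  rw [← hp] at ht ⊢
  rw [← hκ] at hks hfg ⊢
  rw [nrm_comm y x] at hD0 ht ⊢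
  have hD00 : 0 ≤ nrm (x - y) := Real.sqrt_nonneg _
  have hΓD : 0 ≤ 16 * Γm * nrm (x - y) := by positivity
  have hDm : ∀ c : ℝ, c ≤ 2 ^ k → c ≤ (((2 ^ k) ^ 2 : ℕ) : ℝ) := fun c hc => by
    push_cast
    have : (2 : ℝ) ^ k ≤ (2 ^ k) ^ 2 := by
      rw [sq]
      exact le_mul_of_one_le_left (by positivity) (one_le_pow₀ (by norm_num))
    linarith
  -- the start
  obtain ⟨s1, hs1⟩ : ∃ s1 : ℕ, s1 = s + (d * κ + 1) * κ := ⟨_, rfl⟩
  have hs1' : (s1 : ℝ) = s + (d * κ + 1) * κ := by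
    rw [hs1]
    push_cast
    ring
  have hstart : ((d : ℝ) * κ + 1) * κ ≤ (d + 1) * q := by
    have e1 : ((d : ℝ) * κ + 1) * κ = d * (κ * κ) + κ := by ring
    have e2 : (d : ℝ) * (κ * κ) ≤ d * q := mul_le_mul_of_nonneg_left hκ2q hd0
    linarith
  have hs1t : s1 ≤ t := by
    have : (s1 : ℝ) ≤ t := by
      rw [hs1']
      have : (d + 1 : ℝ) * q ≤ (4 * d + 4) * q := mul_le_mul_of_nonneg_right (by linarith) (by linarith)
      linarith
    exact_mod_cast this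
  have hss1 : s ≤ s1 := by rw [hs1]; exact Nat.le_add_right _ _
  obtain ⟨hok1, hns1⟩ := near_ok hGood (t := s1) x (by omega) (by omega)
  have hn1 : nrm (x - E.near κ s1 x) ≤ d * κ := by
    rw [nrm_comm]
    refine (nrm_le_supn _).trans ?_
    exact mul_le_mul_of_nonneg_left (by exact_mod_cast hns1) hd0
  have hκk : (d : ℝ) * κ ≤ 2 ^ k := by
    refine le_trans ?_ hb2k
    have e1 : (d : ℝ) * κ ≤ d * q := mul_le_mul_of_nonneg_left hκq hd0
    have e2 : (d : ℝ) * q ≤ K * q := mul_le_mul_of_nonneg_right (by rw [hK]; linarith) (by linarith)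
    linarith
  have hR1 := hGood.g3 s s1 x (E.near κ s1 x) hks hss1 (by omega) hfg hok1.2
    (hDm _ (hn1.trans hκk)) (by
      rw [hs1']
      have : (nrm (x - E.near κ s1 x) + 1) * κ ≤ (d * κ + 1) * κ :=
        mul_le_mul_of_nonneg_right (by linarith) (by linarith)
      linarith)
  have hR1' : E.R (fun _ => Ball y (2 * nrm (x - y) + p)) s x s1 (E.near κ s1 x) := by
    refine R_mono E (fun _ z hz => ?_) hR1
    have hz' : nrm (z - E.near κ s1 x) ≤ nrm (x - E.near κ s1 x) + κ := hz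
    show nrm (z - y) ≤ 2 * nrm (x - y) + p
    have e1 : z - y = (z - E.near κ s1 x) + (E.near κ s1 x - x) + (x - y) := by abel
    have e2 : nrm (z - y) ≤ nrm (z - E.near κ s1 x) + nrm (E.near κ s1 x - x) + nrm (x - y) := by
      rw [e1, nrm_eq_nr, nrm_eq_nr, nrm_eq_nr, nrm_eq_nr, rv_add, rv_add]
      exact (nr_add_le _ _).trans (by linarith [nr_add_le (rv (z - E.near κ s1 x)) (rv (E.near κ s1 x - x))])
    rw [nrm_comm (E.near κ s1 x) x] at e2
    have e3 : (d : ℝ) * κ ≤ d * q := mul_le_mul_of_nonneg_left hκq hd0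
    nlinarith
  obtain ⟨s', z', hss', hR, h2, h3, h4⟩ := walk S hk0 hE hN hΓu hst (x0 := x) (s0 := s) (x := x) (y := y)
    (s := s1) (t := t) (p := p) hxs (by rw [← hκ]; omega) hD0 (by
      rw [hs1']
      have : (d + 1 : ℝ) * q ≤ (4 * d + 4) * q := mul_le_mul_of_nonneg_right (by linarith) (by linarith)
      linarith) h2t hΓ hC2 hq hb1 hb2 hb3 b3 b5 b6
    t x s1 (by omega) le_rfl (by rw [← hκ]; exact hR1') le_rfl le_rfl
  rw [← hκ] at hR
  rw [← hw] at h4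
  have hs't0 : (s' : ℝ) + p / 2 ≤ t := by
    have e1 : 0 ≤ 16 * Γm * nrm (z' - y) := mul_nonneg (by positivity) (Real.sqrt_nonneg _)
    have e2 : (d + 1 : ℝ) * q ≤ p / 2 := by linarith
    rw [hs1'] at h2
    linarith
  have hs't : s' ≤ t := by
    have : (s' : ℝ) ≤ t := by linarith
    exact_mod_cast this
  obtain ⟨hok', hns'⟩ := near_ok hGood (t := s') z' (by omega) (by omega)
  obtain ⟨x', hx'⟩ : ∃ x' : Pos d, x' = E.near κ s' z' := ⟨_, rfl⟩
  rw [← hx'] at hR hok' hns'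
  obtain ⟨D, hD⟩ : ∃ D : ℝ, D = nrm (x' - y) := ⟨_, rfl⟩
  have hDn : 0 ≤ D := by rw [hD]; exact Real.sqrt_nonneg _
  have hn' : nrm (x' - z') ≤ d * κ := by
    refine (nrm_le_supn _).trans ?_
    exact mul_le_mul_of_nonneg_left (by exact_mod_cast hns') hd0
  have hDz : D ≤ d * κ + nrm (z' - y) := by
    have e1 : x' - y = (x' - z') + (z' - y) := by abel
    rw [hD, e1, nrm_eq_nr, rv_add]
    refine (nr_add_le _ _).trans ?_
    rw [← nrm_eq_nr, ← nrm_eq_nr]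
    linarith
  have hdκ : (d : ℝ) * κ ≤ d * q := mul_le_mul_of_nonneg_left hκq hd0
  have hC22 : 0 ≤ C2 ^ 2 := sq_nonneg C2
  have hD4 : D ≤ 8 * C2 ^ 2 * w + d * q := by
    have e1 : 4 * C2 ^ 2 * (w + 1) ≤ 4 * C2 ^ 2 * (2 * w) :=
      mul_le_mul_of_nonneg_left (by linarith) (by linarith)
    linarith
  have hq0 : 0 ≤ q := by linarith
  have hw0 : 0 ≤ w := by linarith
  have hQ1 : q * w ≤ q ^ 2 * w := by
    have e1 : q * w * 1 ≤ q * w * q := mul_le_mul_of_nonneg_left hq1 (mul_nonneg hq0 hw0)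
    linarith
  have hQ2 : q * q ≤ q ^ 2 * w := by
    have e1 : q * q * 1 ≤ q * q * w := mul_le_mul_of_nonneg_left hw1 (mul_nonneg hq0 hq0)
    linarith
  have hQ3 : w ≤ q ^ 2 * w := by
    have e1 : 1 * w ≤ q * w := mul_le_mul_of_nonneg_right hq1 hw0
    linarith
  have hcond : (D + 1) * (κ : ℝ) ≤ (t : ℝ) - s' := by
    have e1 : (D + 1) * (κ : ℝ) ≤ (8 * C2 ^ 2 * w + d * q + 1) * q :=
      mul_le_mul (by linarith) hκq (by positivity) (by positivity)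
    have e2 : (8 * C2 ^ 2 * w + d * q + 1) * q ≤ (8 * C2 ^ 2 + d + 1) * (q ^ 2 * w) := by
      have e4 : 8 * C2 ^ 2 * (q * w) ≤ 8 * C2 ^ 2 * (q ^ 2 * w) :=
        mul_le_mul_of_nonneg_left hQ1 (by linarith)
      have e5 : (d : ℝ) * (q * q) ≤ d * (q ^ 2 * w) := mul_le_mul_of_nonneg_left hQ2 hd0
      have e6 : (8 * C2 ^ 2 * w + d * q + 1) * q = 8 * C2 ^ 2 * (q * w) + d * (q * q) + q := by ring
      rw [e6]
      linarith
    have e3 := hpK (2 * (8 * C2 ^ 2 + d + 1)) (by positivity) (by rw [hK']; linarith)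
    have e4 : 2 * (8 * C2 ^ 2 + d + 1) * q ^ 2 * w = 2 * ((8 * C2 ^ 2 + d + 1) * (q ^ 2 * w)) := by ring
    linarith
  have hradius' : D + (κ : ℝ) ≤ 2 * nrm (x - y) + p := by
    have e1 : 8 * C2 ^ 2 * w ≤ 8 * C2 ^ 2 * (q ^ 2 * w) :=
      mul_le_mul_of_nonneg_left hQ3 (by linarith)
    have e2 : (d + 1 : ℝ) * q ≤ (d + 1) * (q ^ 2 * w) :=
      mul_le_mul_of_nonneg_left hqq (by positivity)
    have e3 := hpK (8 * C2 ^ 2 + d + 1) (by positivity) (by rw [hK']; linarith [sq_nonneg C2])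
    have e4 : (8 * C2 ^ 2 + d + 1) * q ^ 2 * w = 8 * C2 ^ 2 * (q ^ 2 * w) + (d + 1) * (q ^ 2 * w) := by ring
    linarith
  have hDm' : D ≤ (((2 ^ k) ^ 2 : ℕ) : ℝ) := by
    have e1 : D ≤ 2 * 2 ^ k := by linarith
    push_cast
    have e2 : (2 : ℝ) * 2 ^ k ≤ (2 ^ k) ^ 2 := by
      rw [sq]
      refine mul_le_mul_of_nonneg_right ?_ (by positivity)
      calc (2 : ℝ) = 2 ^ 1 := (pow_one _).symm
        _ ≤ 2 ^ k := pow_le_pow_right₀ (by norm_num) (by omega)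
    linarith
  constructor
  · intro hoy
    refine R_trans E hR (R_mono E ?_ (hGood.g3 s' t x' y (by omega) hs't (by omega) hok'.1 hoy
      (by rw [← hD]; exact hDm') (by rw [← hD]; exact hcond)))
    intro _ z hz
    have hz' : nrm (z - y) ≤ nrm (x' - y) + κ := hz
    rw [← hD] at hz'
    exact hz'.trans hradius'
  · refine R_vis E hR (vis_mono E ?_ (hGood.g3' s' t x' y (by omega) hs't (by omega) hok'.1
      (by rw [← hD]; exact hDm') (by rw [← hD]; exact hcond)))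
    intro _ z hz
    have hz' : nrm (z - y) ≤ nrm (x' - y) + κ := hz
    rw [← hD] at hz'
    exact hz'.trans hradius'

end ZP.Rows
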