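import Pool.Agent.ZP.S4
import Pool.Agent.ZP.S6
import Pool.Agent.ZP.S7
import Pool.Agent.ZP.S2
import Pool.Agent.ZI.S10

/-! # Row S10: the lower bound (with recovery) -/

set_option autoImplicit false

open scoped ENNReal BigOperators Classical
open MeasureTheory

noncomputable section

namespace ZP

variable {d : ℕ}

namespace S10

open Rows

export ZI.S10 (tri abs_le_sqrt scale nrm_le_of_lev supn_le_of_nrm err_le tsum_err ae_ev ratio net_mono
  rr_ge w_ge)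

/-- the deterministic part of the lower bound -/
theorem det {Ω : Type} [MeasurableSpace Ω] {P : Measure Ω} (S : Sys d P) (γ : (Fin d → ℝ) → ℝ)
    (c C : ℝ) (hc : 0 < c) (hlb : ∀ u : Fin d → ℝ, ∑ j, u j ^ 2 = 1 → c ≤ γ u)
    (hub : ∀ u : Fin d → ℝ, ∑ j, u j ^ 2 = 1 → γ u ≤ C) (ε : ℝ) (hε : 0 < ε) (hε1 : ε < 1) :
    ∃ 𝒰 : Finset (Fin d → ℝ), (∀ u ∈ 𝒰, ∑ j, u j ^ 2 = 1) ∧ ∃ K0 ≥ S.k0, ∀ k ≥ K0, ∀ E : Env d,
      GoodK S.a S.A S.Cv k E → StepP S.a S.A k E 𝒰 (fun u => γ u + c * ε / 8) →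
      (∃ y, E.R (fun _ => Set.univ) 0 0 (2 * kp S.a S.A k) y) →
      ∀ t : ℝ, (2 : ℝ) ^ k ≤ t → t < 2 ^ (k + 1) → ∀ x : Pos d,
        (∀ u : Fin d → ℝ, ∑ j, u j ^ 2 = 1 → lev u x ≤ (1 - ε) * t / γ u) →
        E.vis (fun _ => Set.univ) 0 0 ⌊t⌋₊ x := by
  have hC : c ≤ C := by
    have hd := S.d_pos
    have hu : ∑ j : Fin d, (Pi.single (⟨0, hd⟩ : Fin d) (1 : ℝ) : Fin d → ℝ) j ^ 2 = 1 := by
      rw [Finset.sum_eq_single (⟨0, hd⟩ : Fin d)]
      · simp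
      · intro j _ hj
        simp [Pi.single_eq_of_ne hj]
      · intro h
        exact absurd (Finset.mem_univ _) h
    exact (hlb _ hu).trans (hub _ hu)
  set Γm : ℝ := C + c with hΓmdef
  have hΓm : 0 < Γm := by linarith
  set B : ℝ := 4 / c with hBdef
  have hB : 0 < B := by positivity
  obtain ⟨δ6, hδ6, C6, hC6, k6, h6⟩ := moving_target S Γm (ε / 4) B hΓm (by linarith) (by linarith) hB
  obtain ⟨δ7, hδ7, C7, hC7, k7, h7⟩ := reach S Γm hΓm
  have hδ : 0 < min δ6 δ7 := lt_min hδ6 hδ7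
  obtain ⟨𝒰, hnet⟩ := ZI.Rows.exists_net d (min δ6 δ7) hδ
  have hnet6 := net_mono hδ (min_le_left δ6 δ7) hnet
  have hnet7 := net_mono hδ (min_le_right δ6 δ7) hnet
  set K1 : ℝ := 3 * C6 + 2 * B * (Γm + 1) + B + 1 with hK1
  have hK1pos : 0 < K1 := by positivity
  obtain ⟨ka, hka⟩ := w_ge (max 4 (max K1 ((C7 * K1 + 2) / (ε / 2))))
  obtain ⟨kb, hkb⟩ := rr_ge S.A (by have := S.A_big; have := S.a_big; omega) (max (S.Cv + 2) (2 * B + 3 * C6 + 1))
  obtain ⟨kc, hkc⟩ := pow_unbounded_of_one_lt (8 / ε) (one_lt_two (α := ℝ))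
  refine ⟨𝒰, hnet.1, S.k0 + k6 + k7 + ka + kb + kc + 2, by omega, ?_⟩
  intro k hk E hG hS hsurv t ht1 ht2 x hx
  have hw1 := hka k (by omega)
  have hr1 := hkb k (by omega)
  have hn1 : 8 / ε ≤ (2 : ℝ) ^ k := hkc.le.trans (pow_le_pow_right₀ one_le_two (by omega))
  set w : ℝ := ((2 : ℝ) ^ k) ^ (1 / 4 : ℝ) with hwdef
  set n : ℝ := (2 : ℝ) ^ k with hn
  have hnpos : 0 < n := by positivity
  have hw4 : w ^ 4 = n := by
    rw [hwdef, ← Real.rpow_natCast, ← Real.rpow_mul hnpos.le]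
    norm_num
  have hw3 : n ^ (3 / 4 : ℝ) = w ^ 3 := by
    rw [hwdef, ← Real.rpow_natCast, ← Real.rpow_mul hnpos.le]
    norm_num
  have hw_4 : 4 ≤ w := (le_max_left _ _).trans hw1
  have hw_1 : 1 ≤ w := by linarith
  have hw_K : K1 ≤ w := ((le_max_left _ _).trans (le_max_right _ _)).trans hw1
  have hw_C : C7 * K1 + 2 ≤ ε / 2 * w := by
    have := ((le_max_right _ _).trans (le_max_right _ _)).trans hw1
    rw [div_le_iff₀ (by positivity)] at this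
    linarith
  have hrrC : S.Cv + 2 ≤ rr S.A k := by
    have := (le_max_left _ _).trans hr1
    exact_mod_cast this
  have hrr2 : 2 ≤ rr S.A k := by omega
  have hrrB : 2 * B + 3 * C6 + 1 ≤ (rr S.A k : ℝ) := (le_max_right _ _).trans hr1
  -- the start
  have hG' : E.Good (rr S.A k) (kp S.a S.A k) S.Cv ((2 ^ k) ^ 2) ((2 ^ k) ^ 2) := hG
  set κ : ℕ := kp S.a S.A k with hκdef
  have hrκ : rr S.A k ≤ κ := by
    calc rr S.A k = rr S.A k ^ 1 := (pow_one _).symm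
      _ ≤ rr S.A k ^ S.a := Nat.pow_le_pow_right (by omega) (by have := S.a_big; omega)
  have hκ8 : κ ^ 8 ≤ 2 ^ k := by
    rw [hκdef]
    unfold kp rr
    rw [← pow_mul, ← pow_mul]
    refine Nat.pow_le_pow_right (by norm_num) ?_
    have e1 : k / S.A * S.A ≤ k := Nat.div_mul_le_self k S.A
    have e2 : k / S.A * (1000 * S.a) ≤ k := le_trans (Nat.mul_le_mul_left _ S.A_big) e1
    have e3 : k / S.A * (1000 * S.a) = 1000 * (k / S.A * S.a) := by ring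
    have e4 : k / S.A * (S.a * 8) = 8 * (k / S.A * S.a) := by ring
    have e5 : k / S.A * S.a * 8 = 8 * (k / S.A * S.a) := by ring
    omega
  have hCκ : S.Cv * κ + rr S.A k ≤ κ ^ 2 := by
    calc S.Cv * κ + rr S.A k ≤ S.Cv * κ + κ := by omega
      _ = (S.Cv + 1) * κ := by ring
      _ ≤ κ * κ := Nat.mul_le_mul_right _ (by omega)
      _ = κ ^ 2 := by ring
  have hκ2w : ((κ : ℝ)) ^ 2 ≤ w := by
    have h1 : ((κ : ℝ) ^ 2) ^ 4 ≤ w ^ 4 := by
      rw [hw4, ← pow_mul, hn]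
      exact_mod_cast hκ8
    exact (pow_le_pow_iff_left₀ (by positivity) (by linarith) (by norm_num)).1 h1
  have hκ1 : (1 : ℝ) ≤ κ := by
    have : 1 ≤ κ := by omega
    exact_mod_cast this
  have hκw : (κ : ℝ) ≤ w := by nlinarith
  have hκN : 2 * κ ≤ (2 ^ k) ^ 2 := by
    have e1 : κ ≤ κ ^ 8 := by
      calc κ = κ ^ 1 := (pow_one _).symm
        _ ≤ κ ^ 8 := Nat.pow_le_pow_right (by omega) (by norm_num)
    have e2 : 2 ≤ 2 ^ k := by
      calc 2 = 2 ^ 1 := by norm_num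
        _ ≤ 2 ^ k := Nat.pow_le_pow_right (by norm_num) (by omega)
    calc 2 * κ ≤ 2 ^ k * 2 ^ k := Nat.mul_le_mul e2 (e1.trans hκ8)
      _ = _ := by ring
  obtain ⟨yy, hyy⟩ := hsurv
  obtain ⟨z, -, hz0, hz1⟩ := R_split E hyy κ (Nat.zero_le _) (by omega)
  have hfg : E.fg κ κ z := fg_of_R hG' hCκ (t' := 2 * κ) (by omega) hκN hz1
  have hzn : nrm z ≤ w := by
    have h1 := hG'.g4 0 κ 0 z (Nat.zero_le _) (by omega) hz0
    rw [sub_zero] at h1
    have h2 : ((S.Cv * κ + rr S.A k : ℕ) : ℝ) ≤ ((κ ^ 2 : ℕ) : ℝ) := by exact_mod_cast hCκ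
    push_cast at h1 h2
    linarith
  have hw2 : 1 ≤ w ^ 2 := one_le_pow₀ hw_1
  have hw3' : 1 ≤ w ^ 3 := one_le_pow₀ hw_1
  have hw23 : w ^ 2 ≤ w ^ 3 := pow_le_pow_right₀ hw_1 (by norm_num)
  have hw34 : w ^ 3 ≤ w ^ 4 := pow_le_pow_right₀ hw_1 (by norm_num)
  have hw46 : w ^ 4 ≤ w ^ 6 := pow_le_pow_right₀ hw_1 (by norm_num)
  -- the size of the blocks
  set m : ℕ := 2 ^ ((k + 1) / 2) with hm
  have hm1 : 2 ^ k ≤ m ^ 2 := by
    rw [hm, ← pow_mul]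
    exact Nat.pow_le_pow_right (by norm_num) (by omega)
  have hm2 : m ≤ 2 ^ k := Nat.pow_le_pow_right (by norm_num) (by omega)
  have hm3 : (m : ℝ) ^ 2 ≤ 2 * w ^ 4 := by
    have h1 : m ^ 2 ≤ 2 ^ (k + 1) := by
      rw [hm, ← pow_mul]
      exact Nat.pow_le_pow_right (by norm_num) (by omega)
    have h2 : (m : ℝ) ^ 2 ≤ 2 ^ (k + 1) := by exact_mod_cast h1
    rw [hw4, hn, mul_comm, ← pow_succ]
    exact h2
  have hm0 : (0 : ℝ) < m := by
    rw [hm]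
    positivity
  have hm4 : (m : ℝ) ≤ 2 * w ^ 2 := by
    have h1 : (m : ℝ) ^ 2 ≤ (2 * w ^ 2) ^ 2 := by
      have h2 : (0 : ℝ) ≤ w ^ 4 := by positivity
      have h3 : (2 * w ^ 2) ^ 2 = 4 * w ^ 4 := by ring
      rw [h3]
      linarith
    exact (pow_le_pow_iff_left₀ hm0.le (by positivity) two_ne_zero).1 h1
  -- the times
  have ht0 : 0 < t := lt_of_lt_of_le hnpos ht1
  have ht2' : t < 2 * n := by
    rw [hn, mul_comm, ← pow_succ]
    exact ht2
  have ht8 : 8 ≤ t := by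
    have h1 : 8 ≤ 8 / ε := by
      rw [le_div_iff₀ hε]
      linarith
    linarith
  have hε2 : 0 ≤ (1 - ε / 2) * t := by
    have : 0 ≤ 1 - ε / 2 := by linarith
    positivity
  set s1 : ℕ := ⌊(1 - ε / 2) * t⌋₊ with hs1def
  have hs1a : (s1 : ℝ) ≤ (1 - ε / 2) * t := Nat.floor_le hε2
  have hs1b : (1 - ε / 2) * t - 1 ≤ s1 := (Nat.sub_one_lt_floor _).le
  set T : ℕ := ⌊t⌋₊ with hTdef
  have hTa : (T : ℝ) ≤ t := Nat.floor_le ht0.le
  have hTb : t - 1 ≤ T := (Nat.sub_one_lt_floor _).le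
  have hεt : ε * t ≤ t := mul_le_of_le_one_left ht0.le hε1.le
  have hεt0 : 0 < ε * t := by positivity
  have hs1c : t / 4 ≤ s1 := by linarith
  have hs1pos : (0 : ℝ) < s1 := lt_of_lt_of_le (by positivity) hs1c
  have hs1t : (s1 : ℝ) ≤ t := by linarith
  have hTnat : T < 2 ^ (k + 1) := by
    have : (T : ℝ) < 2 ^ (k + 1) := lt_of_le_of_lt hTa ht2
    exact_mod_cast this
  have hs1nat : s1 < 2 ^ (k + 1) := by
    have : (s1 : ℝ) < 2 ^ (k + 1) := lt_of_le_of_lt hs1t ht2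
    exact_mod_cast this
  have hrk : 2 ^ (k + 1) ≤ rr S.A k * 2 ^ k := by
    rw [pow_succ, mul_comm]
    exact Nat.mul_le_mul_right _ hrr2
  have hkk : 2 * 2 ^ (k + 1) ≤ (2 ^ k) ^ 2 := by
    rw [← pow_mul, ← pow_succ']
    exact Nat.pow_le_pow_right (by norm_num) (by omega)
  -- the target
  have hxn : nrm x ≤ t / c := by
    refine nrm_le_of_lev x _ (by positivity) fun u hu => (hx u hu).trans ?_
    have h1 := hlb u hu
    have h2 : (1 - ε) * t ≤ t := by linarith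
    exact div_le_div₀ ht0.le h2 hc h1
  set b0 : Fin d → ℝ := fun j => 1 / (s1 : ℝ) * (x j : ℝ) with hb0
  have hβ : Real.sqrt (∑ j, b0 j ^ 2) ≤ B := by
    rw [hb0, scale _ (by positivity)]
    have h1 : Real.sqrt (∑ j, (x j : ℝ) ^ 2) ≤ t / c := hxn
    calc 1 / (s1 : ℝ) * Real.sqrt (∑ j, (x j : ℝ) ^ 2) ≤ 1 / (t / 4) * (t / c) := by
          gcongr
      _ = B := by
          rw [hBdef]
          field_simp
  have hβ2 : ∑ j, b0 j ^ 2 ≤ B ^ 2 := by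
    have h1 := pow_le_pow_left₀ (Real.sqrt_nonneg _) hβ 2
    rwa [Real.sq_sqrt (Finset.sum_nonneg fun _ _ => sq_nonneg _)] at h1
  have hΓ : ∀ u ∈ 𝒰, 0 < γ u + c * ε / 8 ∧ γ u + c * ε / 8 ≤ Γm := by
    intro u hu
    have h1 := hlb u (hnet.1 u hu)
    have h2 := hub u (hnet.1 u hu)
    have h3 : 0 < c * ε / 8 := by positivity
    refine ⟨by linarith, ?_⟩
    have h4 : c * ε ≤ c := mul_le_of_le_one_right hc.le hε1.le
    rw [hΓmdef]
    linarith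
  have hcond : ∀ u ∈ 𝒰, (γ u + c * ε / 8) * ∑ j, u j * b0 j ≤ 1 - ε / 4 := by
    intro u hu
    have hu1 := hnet.1 u hu
    have h1 : ∑ j, u j * b0 j = lev u x / s1 := by
      unfold lev
      rw [Finset.sum_div]
      refine Finset.sum_congr rfl fun j _ => ?_
      rw [hb0]
      ring
    rw [h1, mul_div_assoc', div_le_iff₀ hs1pos]
    have h2 := ratio ε t hε hε1 (hn1.trans ht1) s1 hs1b
    refine le_trans ?_ h2
    have h3 := hlb u hu1
    have hγ0 : 0 < γ u := by linarith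
    have h4 : γ u * lev u x ≤ (1 - ε) * t := by
      have := hx u hu1
      rw [le_div_iff₀ hγ0] at this
      linarith
    by_cases hl : lev u x ≤ 0
    · have h5 : (γ u + c * ε / 8) * lev u x ≤ 0 :=
        mul_nonpos_of_nonneg_of_nonpos (by positivity) hl
      have h6 : 0 ≤ (1 + ε / 8) * (1 - ε) * t := by
        have : 0 ≤ 1 - ε := by linarith
        positivity
      linarith
    · push Not at hl
      have h5 : c * ε / 8 * lev u x ≤ ε / 8 * (γ u * lev u x) := by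
        have h6 : c * lev u x ≤ γ u * lev u x := mul_le_mul_of_nonneg_right h3 hl.le
        calc c * ε / 8 * lev u x = ε / 8 * (c * lev u x) := by ring
          _ ≤ _ := mul_le_mul_of_nonneg_left h6 (by positivity)
      have h7 : ε / 8 * (γ u * lev u x) ≤ ε / 8 * ((1 - ε) * t) :=
        mul_le_mul_of_nonneg_left h4 (by positivity)
      calc (γ u + c * ε / 8) * lev u x = γ u * lev u x + c * ε / 8 * lev u x := by ring
        _ ≤ (1 - ε) * t + ε / 8 * ((1 - ε) * t) := by linarith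
        _ = _ := by ring
  have hzr : nrm z ≤ (rr S.A k * 2 ^ k : ℕ) := by
    push_cast
    rw [← hn, ← hw4]
    have h1 : (1 : ℝ) ≤ rr S.A k := by
      have : 1 ≤ rr S.A k := by omega
      exact_mod_cast this
    have h2 : w ^ 1 ≤ w ^ 4 := pow_le_pow_right₀ hw_1 (by norm_num)
    have h3 : (0 : ℝ) ≤ w ^ 4 := by positivity
    have h4 : 1 * w ^ 4 ≤ (rr S.A k : ℝ) * w ^ 4 := mul_le_mul_of_nonneg_right h1 h3
    rw [pow_one] at h2
    linarith
  have hs1m : κ + m ≤ s1 := by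
    have h1 : (κ : ℝ) + m ≤ s1 := by
      have h2 : w ≤ w ^ 2 := by nlinarith
      have h3 : 16 * w ^ 2 ≤ w ^ 4 := by
        have h4 : (16 : ℝ) ≤ w ^ 2 := by nlinarith
        calc 16 * w ^ 2 ≤ w ^ 2 * w ^ 2 := by gcongr
          _ = w ^ 4 := by ring
      have h5 : w ^ 4 ≤ t := by rw [hw4]; exact ht1
      linarith
    exact_mod_cast h1
  obtain ⟨s, y, hs0, hs1', hs2, hR, hy, hok⟩ := h6 k (by omega) E hG 𝒰 hnet6 (fun u => γ u + c * ε / 8) hΓ hS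
    b0 hβ2 hcond m hm1 hm2 z κ s1 le_rfl hfg (supn_le_of_nrm z _ hzr) hs1m (by omega)
    (by omega) (C6 * m * Real.sqrt (1 + ((s1 : ℝ) - κ) / m)) le_rfl
  set ρ : ℝ := C6 * m * Real.sqrt (1 + ((s1 : ℝ) - κ) / m) with hρ
  have hκ0 : (0 : ℝ) ≤ κ := by linarith
  have hρ1 : ρ ≤ 3 * C6 * w ^ 3 := by
    have h1 : (m : ℝ) * Real.sqrt (1 + ((s1 : ℝ) - κ) / m) ≤ 3 * w ^ 3 := by
      rw [← Real.sqrt_sq hm0.le, ← Real.sqrt_mul (sq_nonneg _), Real.sqrt_sq hm0.le]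
      rw [Real.sqrt_le_left (by positivity)]
      have h2 : (m : ℝ) ^ 2 * (1 + ((s1 : ℝ) - κ) / m) = m ^ 2 + m * (s1 - κ) := by
        field_simp
      rw [h2]
      have h3 : (m : ℝ) * (s1 - κ) ≤ (2 * w ^ 2) * (2 * w ^ 4) := by
        have h0 : (s1 : ℝ) ≤ 2 * w ^ 4 := by rw [hw4]; linarith
        have h1 : (0 : ℝ) ≤ s1 - κ := by
          have : κ ≤ s1 := by omega
          have : (κ : ℝ) ≤ s1 := by exact_mod_cast this
          linarith
        exact mul_le_mul hm4 (by linarith) h1 (by positivity)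
      have h4 : (2 * w ^ 2) * (2 * w ^ 4) = 4 * w ^ 6 := by ring
      have h5 : (3 * w ^ 3) ^ 2 = 9 * w ^ 6 := by ring
      have h6 : 0 ≤ w ^ 6 := by positivity
      rw [h5]
      linarith
    calc ρ = C6 * (m * Real.sqrt (1 + ((s1 : ℝ) - κ) / m)) := by rw [hρ]; ring
      _ ≤ C6 * (3 * w ^ 3) := mul_le_mul_of_nonneg_left h1 hC6.le
      _ = _ := by ring
  have hy' : Real.sqrt (∑ j, ((y j : ℝ) - (z j : ℝ) - b0 j * ((s : ℝ) - κ)) ^ 2) ≤ ρ := hy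
  have hs1s : (s : ℝ) ≤ s1 := by exact_mod_cast hs1'
  have hs0s : (κ : ℝ) ≤ s := by exact_mod_cast hs0
  have hzn' : Real.sqrt (∑ j, ((z j : ℝ)) ^ 2) ≤ w := hzn
  have hw13 : w ≤ w ^ 3 := by
    calc w = w ^ 1 := (pow_one _).symm
      _ ≤ w ^ 3 := pow_le_pow_right₀ hw_1 (by norm_num)
  have hw14 : w ≤ w ^ 4 := hw13.trans hw34
  -- the distance to the target
  have hxy : nrm (x - y) ≤ K1 * w ^ 3 := by
    have h1 : nrm (x - y) = Real.sqrt (∑ j, (((s1 : ℝ) - s + κ) * b0 j +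
        ((-(z j : ℝ)) + (- ((y j : ℝ) - (z j : ℝ) - b0 j * ((s : ℝ) - κ))))) ^ 2) := by
      unfold nrm
      congr 1
      refine Finset.sum_congr rfl fun j _ => ?_
      congr 1
      have hs1ne : (s1 : ℝ) ≠ 0 := hs1pos.ne'
      have e1 : (s1 : ℝ) * b0 j = x j := by
        rw [hb0]
        field_simp
      have e2 : (((x - y) j : ℤ) : ℝ) = x j - y j := by
        rw [Pi.sub_apply]
        push_cast
        rfl
      rw [e2, ← e1]
      ring
    rw [h1]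
    refine (tri _ _).trans ?_
    rw [scale _ (by linarith)]
    have h2 : Real.sqrt (∑ j, ((-(z j : ℝ)) + (- ((y j : ℝ) - (z j : ℝ) - b0 j * ((s : ℝ) - κ)))) ^ 2) ≤ w + ρ := by
      refine (tri _ _).trans ?_
      simp only [neg_sq]
      exact add_le_add hzn' hy'
    have h3 : ((s1 : ℝ) - s + κ) * Real.sqrt (∑ j, b0 j ^ 2) ≤ (Γm * m + m + κ) * B := by
      refine mul_le_mul ?_ hβ (Real.sqrt_nonneg _) (by positivity)
      linarith
    have h4 : (Γm * m + m + κ) * B ≤ (2 * B * (Γm + 1) + B) * w ^ 3 := by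
      have h5 : (m : ℝ) ≤ 2 * w ^ 3 := by linarith
      have h6 : (κ : ℝ) ≤ w ^ 3 := hκw.trans hw13
      calc (Γm * m + m + κ) * B = (Γm + 1) * B * m + B * κ := by ring
        _ ≤ (Γm + 1) * B * (2 * w ^ 3) + B * w ^ 3 := by gcongr
        _ = _ := by ring
    calc _ ≤ (2 * B * (Γm + 1) + B) * w ^ 3 + (w ^ 3 + 3 * C6 * w ^ 3) := by linarith
      _ = _ := by rw [hK1]; ring
  have hyn : nrm y ≤ (rr S.A k * 2 ^ k : ℕ) := by
    have h1 : nrm y = Real.sqrt (∑ j, (((s : ℝ) - κ) * b0 j +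
        ((z j : ℝ) + ((y j : ℝ) - (z j : ℝ) - b0 j * ((s : ℝ) - κ)))) ^ 2) := by
      unfold nrm
      congr 1
      refine Finset.sum_congr rfl fun j _ => ?_
      congr 1
      ring
    rw [h1]
    refine (tri _ _).trans ?_
    rw [scale _ (by linarith)]
    have h2 : Real.sqrt (∑ j, ((z j : ℝ) + ((y j : ℝ) - (z j : ℝ) - b0 j * ((s : ℝ) - κ))) ^ 2) ≤ w + ρ :=
      (tri _ _).trans (add_le_add hzn' hy')
    have h3 : ((s : ℝ) - κ) * Real.sqrt (∑ j, b0 j ^ 2) ≤ (2 * w ^ 4) * B := by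
      refine mul_le_mul ?_ hβ (Real.sqrt_nonneg _) (by positivity)
      rw [hw4]
      linarith
    have h5 : ρ ≤ 3 * C6 * w ^ 4 := hρ1.trans (by gcongr)
    push_cast
    rw [← hn, ← hw4]
    calc _ ≤ (2 * w ^ 4) * B + (w ^ 4 + 3 * C6 * w ^ 4) := by linarith
      _ = (2 * B + 3 * C6 + 1) * w ^ 4 := by ring
      _ ≤ _ := by gcongr
  have hvis := (h7 k (by omega) E hG 𝒰 hnet7 (fun u => γ u + c * ε / 8) hΓ hS y x s T hs0 hok.1
    (supn_le_of_nrm y _ hyn) (by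
      rw [← hn, ← hw4]
      calc nrm (x - y) ≤ K1 * w ^ 3 := hxy
        _ ≤ w * w ^ 3 := by gcongr
        _ = w ^ 4 := by ring) (by
      rw [← hn, hw3]
      have h1 : C7 * nrm (x - y) ≤ C7 * (K1 * w ^ 3) := by gcongr
      have h2 : (C7 * K1 + 2) * w ^ 3 ≤ (ε / 2 * w) * w ^ 3 := by gcongr
      have h3 : ε / 2 * w ^ 4 ≤ ε / 2 * t := by
        rw [hw4]
        gcongr
      have h4 : (ε / 2 * w) * w ^ 3 = ε / 2 * w ^ 4 := by ring
      have h5 : (C7 * K1 + 2) * w ^ 3 = C7 * (K1 * w ^ 3) + 2 * w ^ 3 := by ring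
      have h6 : ε / 2 * t = t - (1 - ε / 2) * t := by ring
      linarith) (by omega) (by omega)).2
  exact R_vis E hz0 (R_vis E (R_mono E (fun _ => Set.subset_univ _) hR)
    (vis_mono E (fun _ => Set.subset_univ _) hvis))

end S10

namespace Rows

open S10

theorem lower {Ω : Type} [MeasurableSpace Ω] {P : Measure Ω} [IsProbabilityMeasure P] (S : Sys d P)
    (γ : (Fin d → ℝ) → ℝ) (c C : ℝ)
    (hγ : IsGamma S γ c C) (hU : UpTail S γ) (ε : ℝ) (hε : 0 < ε) (hε1 : ε < 1) :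
    ∀ᵐ ω ∂P, ω ∈ S.S0 → ∃ T0 : ℝ, ∀ t : ℝ, T0 ≤ t → ∀ x : Pos d,
      (∀ u : Fin d → ℝ, ∑ j, u j ^ 2 = 1 → lev u x ≤ (1 - ε) * t / γ u) → x ∈ S.I ω t := by
  obtain ⟨𝒰, h𝒰, K0, hK0, hdet⟩ := det S γ c C hγ.c_pos hγ.lb hγ.ub ε hε hε1
  have hc := hγ.c_pos
  obtain ⟨k1, hk1⟩ := stepP_whp S γ hU 𝒰 h𝒰 (c * ε / 8) (by positivity)
  have hA : 0 < S.A := by
    have := S.A_big
    have := S.a_big
    omega
  have h1 := ae_ev (fun k => {ω | ¬ GoodK S.a S.A S.Cv k (S.E k ω)}) (fun k => err (rr S.A k)) S.k0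
    (fun k hk => S.good k hk) (S10.tsum_err S.A hA S.k0)
  have h2 := ae_ev (fun k => {ω | ¬ StepP S.a S.A k (S.E k ω) 𝒰 (fun u => γ u + c * ε / 8)})
    (fun k => ENNReal.ofReal ((1 / 2 : ℝ) ^ k)) k1 hk1 (by
      have h3 : Summable fun i : ℕ => (1 / 2 : ℝ) ^ (i + k1) := by
        have := (summable_geometric_of_lt_one (by norm_num : (0 : ℝ) ≤ 1 / 2) (by norm_num)).mul_left
          ((1 / 2 : ℝ) ^ k1)
        refine this.congr fun i => ?_
        rw [pow_add]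
        ring
      exact h3.tsum_ofReal_ne_top)
  have h3 := ae_ev (fun k => {ω | ¬ ∀ t : ℕ, 1 ≤ t → t ≤ (2 ^ k) ^ 2 → ∀ b,
    (b ∈ S.I ω t ↔ (S.E k ω).vis (fun _ => Set.univ) 0 0 t b)}) (fun k => err (rr S.A k)) S.k0
    (fun k hk => S.link k hk) (S10.tsum_err S.A hA S.k0)
  obtain ⟨k4, -, hk4⟩ := S2.scale_nums S
  have h4 := ae_ev (fun k => {ω | ω ∈ S.S0 ∧ ¬ ∃ y, (S.E k ω).R (fun _ => Set.univ) 0 0 (2 * kp S.a S.A k) y})
    (fun k => err (rr S.A k)) (S.k0 + k4) (fun k hk => S.surv k (by omega) _ (by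
      obtain ⟨-, -, -, H⟩ := hk4 k (by omega)
      obtain ⟨-, -, -, -, -, h5, -⟩ := H k le_rfl (by omega)
      omega)) (S10.tsum_err S.A hA (S.k0 + k4))
  filter_upwards [h1, h2, h3, h4] with ω hω1 hω2 hω3 hω4 hω0
  obtain ⟨K1, hK1⟩ := hω1
  obtain ⟨K2, hK2⟩ := hω2
  obtain ⟨K3, hK3⟩ := hω3
  obtain ⟨K4, hK4⟩ := hω4
  set K := K0 + K1 + K2 + K3 + K4 + 1 with hK
  refine ⟨2 ^ K, fun t ht x hx => ?_⟩
  have ht0 : 0 < t := lt_of_lt_of_le (by positivity) ht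
  set T := ⌊t⌋₊ with hT
  have hT1 : 2 ^ K ≤ T := by
    refine Nat.le_floor ?_
    push_cast
    exact ht
  have hT0 : T ≠ 0 := by
    have : 0 < 2 ^ K := by positivity
    omega
  set k := Nat.log 2 T with hk
  have hkK : K ≤ k := Nat.le_log_of_pow_le one_lt_two hT1
  have hkT : 2 ^ k ≤ T := Nat.pow_log_le_self 2 hT0
  have hkT' : T < 2 ^ (k + 1) := Nat.lt_pow_succ_log_self one_lt_two T
  have ht1 : (2 : ℝ) ^ k ≤ t := by
    have h4 : (T : ℝ) ≤ t := Nat.floor_le ht0.le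
    have h5 : ((2 ^ k : ℕ) : ℝ) ≤ T := by exact_mod_cast hkT
    push_cast at h5
    linarith
  have ht2 : t < 2 ^ (k + 1) := by
    have h4 : t < T + 1 := Nat.lt_floor_add_one t
    have h5 : ((T + 1 : ℕ) : ℝ) ≤ ((2 ^ (k + 1) : ℕ) : ℝ) := by exact_mod_cast hkT'
    push_cast at h5
    linarith
  have hg := hK1 k (by omega)
  have hs := hK2 k (by omega)
  have hl := hK3 k (by omega)
  have hsv := hK4 k (by omega)
  rw [not_not] at hg hs hl
  have hsv' : ∃ y, (S.E k ω).R (fun _ => Set.univ) 0 0 (2 * kp S.a S.A k) y := by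
    by_contra h
    exact hsv ⟨hω0, h⟩
  have hv := hdet k (by omega) (S.E k ω) hg hs hsv' t ht1 ht2 x hx
  have hk2 : 1 ≤ k := by omega
  have hTk : T ≤ (2 ^ k) ^ 2 := by
    refine hkT'.le.trans ?_
    rw [← pow_mul]
    exact Nat.pow_le_pow_right (by norm_num) (by omega)
  exact S.I_mono ω (Nat.floor_le ht0.le) ((hl T (by omega) hTk x).2 hv)

end Rows

end ZP
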