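import Pool.Agent.ZP.S1
import Pool.Agent.ZP.Aux79

/-! # S5: the lower tail of the durations (with recovery) -/

set_option autoImplicit false

open scoped ENNReal BigOperators Classical
open MeasureTheory

noncomputable section

namespace ZP.Rows

open ZP

variable {d : ℕ} {Ω : Type} [MeasurableSpace Ω] {P : Measure Ω}

open ZI.Rows.S5 S5

theorem low_tail [IsProbabilityMeasure P] (S : Sys d P) (γ : (Fin d → ℝ) → ℝ) (c C : ℝ)
    (hγ : IsGamma S γ c C) (hU : UpTail S γ) : LowTail S γ := by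
  intro u hu ε e1 hε he1
  set ε' : ℝ := ε * e1 / 4 with hε'
  have hε'0 : 0 < ε' := by positivity
  obtain ⟨kB, hkB0, hkB⟩ := bh_chain S
  obtain ⟨kU, hkU⟩ := hU u hu ε' hε'0
  obtain ⟨K1, hK1⟩ := half_small e1 he1
  obtain ⟨K2, hK2⟩ := half_small (ε' / 66) (by positivity)
  have hA : 0 < S.A := by
    have h1 := S.a_big
    have h2 := S.A_big
    omega
  have hsum := tsum_err S.A hA
  have herr : ∃ K3 : ℕ, ∀ k ≥ K3, 9 * err (rr S.A k) ≤ 1 / 2 := by
    have h1 := ENNReal.tendsto_atTop_zero_of_tsum_ne_top hsum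
    rw [ENNReal.tendsto_atTop_zero] at h1
    obtain ⟨N, hN⟩ := h1 (1 / 18) (by simp)
    refine ⟨N, fun k hk => ?_⟩
    calc 9 * err (rr S.A k) ≤ 9 * (1 / 18) := by
          gcongr
          exact hN k hk
      _ = 1 / 2 := by
        rw [ENNReal.div_eq_inv_mul, ENNReal.div_eq_inv_mul, mul_one, mul_one]
        rw [show (18 : ℝ≥0∞) = 9 * 2 by norm_num, ENNReal.mul_inv (by simp) (by simp), ← mul_assoc,
          ENNReal.mul_inv_cancel (by simp) (by simp), one_mul]
  obtain ⟨K3, hK3⟩ := herr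
  set pc : ℕ → ℝ≥0∞ := fun k =>
    P {ω | ε' < |((S.E k ω).bh (PK d S.a S.A k) u (2 ^ k) 0 (kp S.a S.A k) : ℝ) / 2 ^ k - γ u|} with hpc
  refine ⟨fun k => 2 * (pc k + 2 * err (rr S.A k)) + err (rr S.A k), ?_,
    max (max (max kB kU) (max K1 K2)) (max K3 4), ?_⟩
  · have h1 : ∑' k, pc k ≠ ⊤ := hγ.conc u hu ε' hε'0
    rw [ENNReal.tsum_add, ENNReal.tsum_mul_left, ENNReal.tsum_add, ENNReal.tsum_mul_left]
    exact ENNReal.add_ne_top.mpr ⟨ENNReal.mul_ne_top (by simp)
      (ENNReal.add_ne_top.mpr ⟨h1, ENNReal.mul_ne_top (by simp) hsum⟩), hsum⟩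
  intro k hk m hm1 hm2 z s hks hs
  have hkB' : kB ≤ k := by omega
  have hkU' : kU ≤ k := by omega
  have hk1 : K1 ≤ k := by omega
  have hk2 : K2 ≤ k := by omega
  have hk3 : K3 ≤ k := by omega
  have hk4 : 4 ≤ k := by omega
  have hk0 : S.k0 ≤ k := by omega
  -- sizes
  have hr7 : rr S.A k ^ (7 * S.a) ≤ 2 ^ (k / 2) := rr_pow_le S.a S.A k _ S.A_big (by omega)
  have hr7' : (rr S.A k ^ (7 * S.a) : ℝ) ≤ 2 ^ (k / 2) := by exact_mod_cast hr7
  have hmr : rr S.A k ^ (7 * S.a) ≤ m := by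
    have h1 := hK1 k hk1
    have h2 : ((rr S.A k ^ (7 * S.a) : ℕ) : ℝ) ≤ (m : ℝ) := by
      push_cast
      linarith
    exact_mod_cast h2
  obtain ⟨m', hm'⟩ : ∃ m' : ℕ, m + m' = 2 ^ k := ⟨2 ^ k - m, by omega⟩
  have hm'2 : 2 ^ k ≤ 2 * m' := by omega
  have hm'r : rr S.A k ^ (7 * S.a) ≤ m' := by
    have h1 : 2 ^ (k / 2) * 2 ≤ 2 ^ k := by
      rw [← pow_succ]
      apply Nat.pow_le_pow_right (by norm_num)
      omega
    omega
  have hrr := rr_pos S.A k
  have h2k : 2 ^ k ≤ rr S.A k * 2 ^ k := Nat.le_mul_of_pos_left _ hrr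
  have hm'sq : 2 ^ k ≤ m' ^ 2 := by
    have h1 : 2 ^ (k - 1) ≤ m' := by
      have : 2 ^ k = 2 * 2 ^ (k - 1) := by
        rw [← pow_succ']
        congr 1
        omega
      omega
    calc 2 ^ k ≤ 2 ^ ((k - 1) * 2) := Nat.pow_le_pow_right (by norm_num) (by omega)
      _ = (2 ^ (k - 1)) ^ 2 := by rw [pow_mul]
      _ ≤ m' ^ 2 := Nat.pow_le_pow_left h1 2
  -- the two properties
  set Gm : List (ℕ × Pos d) → Prop := fun l => ∀ y ∈ l.head?, (y.1 : ℝ) ≤ (γ u - ε) * m with hGm
  set Gp : List (ℕ × Pos d) → Prop := fun l => ∀ y ∈ l.head?, (y.1 : ℝ) ≤ (γ u + ε') * m' with hGp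
  set Q := QK P S.E S.a S.A k u with hQ
  have hs0 : 2 * kp S.a S.A k ≤ (2 ^ k) ^ 2 := two_kp_le S.a S.A k S.a_big S.A_big (by omega)
  -- b is at least one half
  have hb : 1 / 2 ≤ prodQ Q [m'] Gp := by
    have h1 := ZI.Rows.prodQ_le_one Q (fun m => S.tsumQ k hk0 u m) [m'] Gp
    have h2 := chain_rev S k hk0 u hu [m'] (by simpa using hm'r) (by
      simp only [List.sum_cons, List.sum_nil, add_zero]
      omega) 0 (kp S.a S.A k) le_rfl hs0 (fun l => ¬ Gp l)
    have h3 := hkU k hkU' m' hm'sq (by omega) 0 (kp S.a S.A k) le_rfl hs0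
    have h4 : P {ω | ¬ Gp ((S.E k ω).chain (PK d S.a S.A k) u [m'] 0 (kp S.a S.A k))} ≤ 8 * err (rr S.A k) := by
      refine le_trans (measure_mono ?_) h3
      intro ω hω
      simp only [Set.mem_ofPred_eq, hGp, Env.chain, Env.blk, List.head?_cons, Option.mem_def,
        Option.some.injEq, forall_eq', not_le] at hω
      exact hω
    have h5 : prodQ Q [m'] (fun l => ¬ Gp l) ≤ 1 / 2 := by
      refine le_trans h2 (le_trans (add_le_add h4 le_rfl) ?_)
      refine le_trans (le_of_eq ?_) (hK3 k hk3)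
      ring
    have h6 : (1 / 2 : ℝ≥0∞) + 1 / 2 ≤ prodQ Q [m'] Gp + 1 / 2 := by
      calc (1 / 2 : ℝ≥0∞) + 1 / 2 = 1 := ENNReal.add_halves 1
        _ = prodQ Q [m'] Gp + prodQ Q [m'] (fun l => ¬ Gp l) := h1.symm
        _ ≤ prodQ Q [m'] Gp + 1 / 2 := by gcongr
    rwa [ENNReal.add_le_add_iff_right (by simp)] at h6
  -- the product
  have hab : prodQ Q [m, m'] (fun l => Gm l ∧ Gp l.tail) = prodQ Q [m] Gm * prodQ Q [m'] Gp := by
    simp only [prodQ]
    rw [← ENNReal.tsum_mul_right]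
    refine tsum_congr ?_
    intro y
    rw [mul_assoc]
    congr 1
    by_cases hy : Gm [y]
    · simp only [hy, if_true, one_mul]
      refine tsum_congr ?_
      intro y'
      congr 1
      have : (Gm [y, y'] ∧ Gp [y, y'].tail) ↔ Gp [y'] := by
        simp only [List.tail_cons]
        constructor
        · exact fun h => h.2
        · exact fun h => ⟨hy, h⟩
      by_cases h' : Gp [y']
      · rw [if_pos (this.mpr h'), if_pos h']
      · rw [if_neg (fun h => h' (this.mp h)), if_neg h']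
    · simp only [hy, if_false, zero_mul]
      rw [ENNReal.tsum_eq_zero]
      intro y'
      have : ¬ (Gm [y, y'] ∧ Gp [y, y'].tail) := fun h => hy h.1
      rw [if_neg this, mul_zero]
  -- the block of size `2 ^ k`
  have h2ch : prodQ Q [m, m'] (fun l => Gm l ∧ Gp l.tail) ≤ pc k + 2 * err (rr S.A k) := by
    have h1 := chain_rev S k hk0 u hu [m, m'] (by
      intro x hx
      simp only [List.mem_cons, List.not_mem_nil, or_false] at hx
      rcases hx with rfl | rfl
      · exact hmr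
      · exact hm'r) (by
      simp only [List.sum_cons, List.sum_nil, add_zero]
      omega) 0 (kp S.a S.A k) le_rfl hs0 (fun l => Gm l ∧ Gp l.tail)
    refine le_trans h1 ?_
    have h2 : {ω | Gm ((S.E k ω).chain (PK d S.a S.A k) u [m, m'] 0 (kp S.a S.A k)) ∧
        Gp ((S.E k ω).chain (PK d S.a S.A k) u [m, m'] 0 (kp S.a S.A k)).tail} ⊆
        {ω | ε' < |((S.E k ω).bh (PK d S.a S.A k) u (2 ^ k) 0 (kp S.a S.A k) : ℝ) / 2 ^ k - γ u|} ∪
        {ω | ¬ GoodK S.a S.A S.Cv k (S.E k ω)} := by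
      intro ω hω
      by_cases hgood : GoodK S.a S.A S.Cv k (S.E k ω)
      swap
      · right
        exact hgood
      left
      have h3 := hkB k hkB' (S.E k ω) hgood u hu [m, m'] (by simp) (by
        intro x hx
        simp only [List.mem_cons, List.not_mem_nil, or_false] at hx
        rcases hx with rfl | rfl
        · exact hmr
        · exact hm'r) (by
        simp only [List.sum_cons, List.sum_nil, add_zero]
        omega) 0 (kp S.a S.A k) le_rfl hs0
      obtain ⟨h4, h5⟩ := hω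
      simp only [hGm, Env.chain, Env.blk, List.head?_cons, Option.mem_def,
        Option.some.injEq, forall_eq'] at h4
      simp only [hGp, Env.chain, Env.blk, List.head?_cons, Option.mem_def, List.tail_cons,
        Option.some.injEq, forall_eq'] at h5
      simp only [List.sum_cons, List.sum_nil, add_zero, Env.chain, Env.blk, List.map_cons,
        List.map_nil, List.length_cons, List.length_nil] at h3
      rw [hm'] at h3
      have h3' := (Nat.cast_le (α := ℝ)).mpr h3
      push_cast at h3'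
      have hΔ : ((PK d S.a S.A k).Δ : ℝ) ≤ ε' * 2 ^ k := by
        have h6 : (PK d S.a S.A k).Δ ≤ 66 * 2 ^ (k / 2) := by
          have h7 : (PK d S.a S.A k).Δ = (64 * rr S.A k ^ (3 * S.a) + 2) * rr S.A k ^ S.a := rfl
          rw [h7]
          have h8 : 1 ≤ rr S.A k ^ (3 * S.a) := Nat.one_le_pow _ _ hrr
          calc (64 * rr S.A k ^ (3 * S.a) + 2) * rr S.A k ^ S.a
              ≤ (66 * rr S.A k ^ (3 * S.a)) * rr S.A k ^ S.a := by
                apply Nat.mul_le_mul_right
                omega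
            _ = 66 * rr S.A k ^ (4 * S.a) := by
                rw [mul_assoc, ← pow_add]
                congr 2
                ring
            _ ≤ 66 * 2 ^ (k / 2) := by
                apply Nat.mul_le_mul_left
                exact rr_pow_le S.a S.A k _ S.A_big (by omega)
        have h9 : ((PK d S.a S.A k).Δ : ℝ) ≤ 66 * 2 ^ (k / 2) := by exact_mod_cast h6
        have h10 := hK2 k hk2
        calc ((PK d S.a S.A k).Δ : ℝ) ≤ 66 * 2 ^ (k / 2) := h9
          _ ≤ 66 * (ε' / 66 * 2 ^ k) := by linarith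
          _ = ε' * 2 ^ k := by ring
      have hmm : (m : ℝ) + m' = 2 ^ k := by exact_mod_cast hm'
      have h2k0 : (0 : ℝ) < 2 ^ k := by positivity
      have hkey : ((S.E k ω).bh (PK d S.a S.A k) u (2 ^ k) 0 (kp S.a S.A k) : ℝ) ≤ (γ u - 2 * ε') * 2 ^ k := by
        have h11 : ε * (e1 * 2 ^ k) ≤ ε * m := mul_le_mul_of_nonneg_left hm1 hε.le
        have h12 : ε' * (m' : ℝ) ≤ ε' * 2 ^ k := by
          apply mul_le_mul_of_nonneg_left _ hε'0.le
          have : (0 : ℝ) ≤ m := Nat.cast_nonneg m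
          linarith
        have h13 : ε * (e1 * 2 ^ k) = 4 * (ε' * 2 ^ k) := by
          rw [hε']
          ring
        have h14 : (γ u - ε) * m + (γ u + ε') * m' = γ u * 2 ^ k - ε * m + ε' * m' := by
          rw [← hmm]
          ring
        have h15 : (γ u - 2 * ε') * 2 ^ k = γ u * 2 ^ k - 2 * (ε' * 2 ^ k) := by ring
        rw [h15]
        linarith
      have h16 : ((S.E k ω).bh (PK d S.a S.A k) u (2 ^ k) 0 (kp S.a S.A k) : ℝ) / 2 ^ k ≤ γ u - 2 * ε' := by
        rw [div_le_iff₀ h2k0]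
        exact hkey
      have h17 : 2 * ε' ≤ |((S.E k ω).bh (PK d S.a S.A k) u (2 ^ k) 0 (kp S.a S.A k) : ℝ) / 2 ^ k - γ u| := by
        rw [abs_of_nonpos (by linarith)]
        linarith
      show ε' < _
      linarith
    calc P {ω | Gm ((S.E k ω).chain (PK d S.a S.A k) u [m, m'] 0 (kp S.a S.A k)) ∧
        Gp ((S.E k ω).chain (PK d S.a S.A k) u [m, m'] 0 (kp S.a S.A k)).tail} + err (rr S.A k)
        ≤ (pc k + err (rr S.A k)) + err (rr S.A k) := by
          gcongr
          refine le_trans (measure_mono h2) (le_trans (measure_union_le _ _) ?_)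
          gcongr
          exact S.good k hk0
      _ = pc k + 2 * err (rr S.A k) := by ring
  have ha : prodQ Q [m] Gm ≤ 2 * (pc k + 2 * err (rr S.A k)) := by
    calc prodQ Q [m] Gm = 2 * (prodQ Q [m] Gm * (1 / 2)) := by
          rw [mul_comm (prodQ Q [m] Gm), ← mul_assoc, one_div, ENNReal.mul_inv_cancel (by simp) (by simp),
            one_mul]
      _ ≤ 2 * (prodQ Q [m] Gm * prodQ Q [m'] Gp) := by gcongr
      _ ≤ 2 * (pc k + 2 * err (rr S.A k)) := by
          rw [← hab]
          gcongr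
  have h1 := S.chain k hk0 u hu [m] (by simpa using hmr) (by
      simp only [List.sum_cons, List.sum_nil, add_zero]
      omega) z s hks hs Gm
  have h2 : {ω | ((S.E k ω).bh (PK d S.a S.A k) u m z s : ℝ) ≤ (γ u - ε) * m} ⊆
      {ω | Gm ((S.E k ω).chain (PK d S.a S.A k) u [m] z s)} := by
    intro ω hω
    simp only [Set.mem_ofPred_eq, hGm, Env.chain, Env.blk, List.head?_cons, Option.mem_def,
      Option.some.injEq, forall_eq']
    exact hω
  exact le_trans (measure_mono h2) (le_trans h1 (add_le_add ha le_rfl))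

end ZP.Rows
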