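import Pool.Agent.ZP.S7
import Pool.Agent.ZP.S4
import Pool.Agent.ZI.S8

/-! # ZP row S8: Lemma 7.1, deterministic part (with recovery) -/

set_option autoImplicit false

open scoped ENNReal BigOperators Classical
open MeasureTheory

noncomputable section

namespace ZP.Rows

open ZP

variable {d : ℕ}

namespace S8

export ZI.S8 (nrm_nonneg nrm_zero nrm_add_le nrm_neg nrm_sub_comm nrm_sub_le abs_le_nrm nrm_le_sum
  nrm_le_mul natAbs_le_supn nrm_le_supn supn_le_of_nrm lev_add lev_sub lev_zero abs_lev_le sum_abs_u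
  seg seg_zero seg_last seg_err seg_step seg_nrm seg_lev tm tm_zero tm_last tm_mono tm_lb big
  exists_argmin gw sc gw_err abs_u_le gw_lev gw_nrm gw_bound)

theorem walk (E : Env d) (κ T0 T : ℕ) (h1 : ∀ t, T0 ≤ t → t ≤ T → ∀ x : Pos d, ∃ v : Pos d,
      supn v ≤ κ ∧ E.ok κ t (x + v))
    (x y : Pos d) (N : ℕ) (hN : 0 < N) (τ : ℕ → ℕ) (hτ : ∀ i ≤ N, T0 ≤ τ i ∧ τ i ≤ T)
    (hx : E.fg κ (τ 0) x) (hy : E.bg κ (τ N) y) (ℓ ρ : ℝ) (hρ : 0 ≤ ρ)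
    (hℓ : nrm (y - x) / N * d + 2 * d + 2 * (d * κ) ≤ ℓ)
    (hstep : ∀ i < N, ∀ a b : Pos d, E.fg κ (τ i) a → E.bg κ (τ (i + 1)) b → nrm (b - a) ≤ ℓ →
      nrm (a - x) ≤ d * nrm (y - x) + d + d * κ → E.R (fun _ => Ball b ρ) (τ i) a (τ (i + 1)) b) :
    E.R (fun _ => {b | ∃ i ≤ N, nrm (b - seg x y N i) ≤ ρ + d * κ}) (τ 0) x (τ N) y := by
  have hY : ∀ i : ℕ, ∃ Y : Pos d, i ≤ N → supn (Y - seg x y N i) ≤ κ ∧ (i < N → E.fg κ (τ i) Y) ∧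
      (0 < i → E.bg κ (τ i) Y) ∧ (i = 0 → Y = x) ∧ (i = N → Y = y) := by
    intro i
    by_cases h0 : i = 0
    · refine ⟨x, fun _ => ⟨?_, fun _ => ?_, fun h => ?_, fun _ => rfl, fun h => ?_⟩⟩
      · rw [h0, seg_zero, sub_self]
        simp [supn]
      · rw [h0]
        exact hx
      · omega
      · omega
    by_cases hN' : i = N
    · refine ⟨y, fun _ => ⟨?_, fun h => ?_, fun _ => ?_, fun h => absurd h h0, fun _ => rfl⟩⟩
      · rw [hN', seg_last _ _ _ hN, sub_self]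
        simp [supn]
      · omega
      · rw [hN']
        exact hy
    by_cases hle : i ≤ N
    · obtain ⟨v, hv, ho⟩ := h1 (τ i) (hτ i hle).1 (hτ i hle).2 (seg x y N i)
      refine ⟨seg x y N i + v, fun _ => ⟨?_, fun _ => ho.1, fun _ => ho.2, fun h => absurd h h0,
        fun h => absurd h hN'⟩⟩
      rw [add_sub_cancel_left]
      exact hv
    · exact ⟨x, fun h => absurd h hle⟩
  choose Y hY using hY
  have hdr : (0 : ℝ) ≤ d * κ := by positivity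
  have hocc : E.occ (τ 0) x := by
    obtain ⟨y', hy'⟩ := hx
    exact (R_start E hy').1
  have key : ∀ i, i ≤ N →
      E.R (fun _ => {b | ∃ i ≤ N, nrm (b - seg x y N i) ≤ ρ + d * κ}) (τ 0) x (τ i) (Y i) := by
    intro i
    induction i with
    | zero =>
      intro _
      rw [(hY 0 (Nat.zero_le _)).2.2.2.1 rfl]
      refine R_self E hocc ⟨0, Nat.zero_le _, ?_⟩
      rw [seg_zero, sub_self, nrm_zero]
      linarith
    | succ i ih =>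
      intro hi
      have hi' : i < N := by omega
      have h2 := ih hi'.le
      obtain ⟨ha1, ha2, -⟩ := hY i hi'.le
      obtain ⟨hb1, -, hb2, -⟩ := hY (i + 1) hi
      have ea := nrm_le_supn _ _ ha1
      have eb := nrm_le_supn _ _ hb1
      have es := seg_step x y N i hN
      have h3 : nrm (Y (i + 1) - Y i) ≤ ℓ := by
        have e1 := nrm_sub_le (Y (i + 1)) (seg x y N (i + 1)) (Y i)
        have e2 := nrm_sub_le (seg x y N (i + 1)) (seg x y N i) (Y i)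
        rw [nrm_sub_comm (seg x y N i) (Y i)] at e2
        linarith
      have h4 : nrm (Y i - x) ≤ d * nrm (y - x) + d + d * κ := by
        have e1 := nrm_sub_le (Y i) (seg x y N i) x
        have e2 := seg_nrm x y N i hN hi'.le
        linarith
      have h5 := hstep i hi' (Y i) (Y (i + 1)) (ha2 hi') (hb2 (by omega)) h3 h4
      refine R_trans E h2 (R_mono E (fun _ => ?_) h5)
      intro b hb
      refine ⟨i + 1, hi, ?_⟩
      have e1 := nrm_sub_le b (Y (i + 1)) (seg x y N (i + 1))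
      have e2 : nrm (b - Y (i + 1)) ≤ ρ := hb
      linarith
  have h6 := key N le_rfl
  rwa [(hY N le_rfl).2.2.2.2 rfl] at h6

theorem after (E : Env d) (T : ℕ) (c4 : ℝ) (hc4 : 0 ≤ c4)
    (g4' : ∀ τ, τ + 1 ≤ T → ∀ x b, E.vis (fun _ => Set.univ) τ x (τ + 1) b → nrm (b - x) ≤ c4)
    (Z : ℕ → Pos d) (σ e : ℕ) (hσe : σ ≤ e) (he : e ≤ T)
    (hZ : ∀ τ, σ ≤ τ → τ < e → E.R (fun _ => Set.univ) τ (Z τ) (τ + 1) (Z (τ + 1)))
    (hocc : E.occ σ (Z σ)) (G : ℕ → Set (Pos d)) (hGσ : Z σ ∈ G σ)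
    (hG : ∀ τ, σ ≤ τ → τ < e → ∀ b, nrm (b - Z τ) ≤ c4 → b ∈ G τ) :
    E.R G σ (Z σ) e (Z e) := by
  have key : ∀ τ, σ ≤ τ → τ ≤ e → E.R G σ (Z σ) τ (Z τ) := by
    intro τ hτ
    induction τ, hτ using Nat.le_induction with
    | base =>
      intro _
      exact R_self E hocc hGσ
    | succ τ hτ ih =>
      intro hτe
      have h1 := ih (by omega)
      have h2 := hZ τ hτ (by omega)
      have h3 := R_restrict E (G' := G) h2 (hG τ hτ (by omega) _ (by rw [sub_self, nrm_zero]; exact hc4))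
        (by
          intro j hj b hb
          have hj0 : j = 0 := by omega
          subst hj0
          refine hG τ hτ (by omega) b (g4' τ (by omega) (Z τ) b ⟨0, by omega, hb⟩))
      exact R_trans E h1 (R_mono E (fun _ => Set.inter_subset_right) h3)
  exact key e hσe le_rfl

theorem inf_congr (E : Env d) (G G' : ℕ → Set (Pos d)) (s : ℕ) (A : Set (Pos d)) : ∀ j : ℕ,
    (∀ i ≤ j, G (s + i) = G' (s + i)) →
      inf E.nb E.pr E.η0 E.U G s A j = inf E.nb E.pr E.η0 E.U G' s A j := by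
  intro j
  induction j with
  | zero =>
    intro h
    have h0 := h 0 le_rfl
    rw [add_zero] at h0
    simp only [inf, h0]
  | succ j ih =>
    intro h
    have h1 := ih fun i hi => h i (by omega)
    have h2 := h j (by omega)
    simp only [inf, h1, h2]

theorem R_upto (E : Env d) {G G' : ℕ → Set (Pos d)} {s t : ℕ} {x y : Pos d} (h : E.R G s x t y)
    (hG : ∀ τ, s ≤ τ → τ ≤ t → G τ ⊆ G' τ) : E.R G' s x t y := by
  have h1 : E.R (fun τ => if s ≤ τ ∧ τ ≤ t then G' τ else G τ) s x t y := by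
    refine R_mono E (fun τ => ?_) h
    by_cases hτ : s ≤ τ ∧ τ ≤ t
    · rw [if_pos hτ]
      exact hG τ hτ.1 hτ.2
    · rw [if_neg hτ]
  obtain ⟨j, hj, hy⟩ := h1
  refine ⟨j, hj, ?_⟩
  rw [← inf_congr E (fun τ => if s ≤ τ ∧ τ ≤ t then G' τ else G τ) G' s {x} j ?_]
  · exact hy
  · intro i hi
    rw [if_pos ⟨by omega, by omega⟩]

theorem bh_le (E : Env d) (P : BP) (u : Fin d → ℝ) (m : ℕ) (z : Pos d) (s e : ℕ) (hse : s ≤ e)
    (y : Pos d) (h : E.R (wall P u z s) s (E.near P.κ s z) e y) (hm : (m : ℝ) ≤ lev u (y - z)) :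
    E.bh P u m z s ≤ e - s := by
  refine Nat.sInf_le ⟨y, ?_, hm⟩
  have : s + (e - s) = e := by omega
  rw [this]
  exact h

theorem climb {Ω : Type} [MeasurableSpace Ω] {P : Measure Ω} (S : Sys d P) (k : ℕ) (hk : S.k0 ≤ k)
    (E : Env d) (hE : GoodK S.a S.A S.Cv k E) (u : Fin d → ℝ) (hu : ∑ j, u j ^ 2 = 1)
    (𝒰 : Finset (Fin d → ℝ)) (hu𝒰 : u ∈ 𝒰) (Γ : (Fin d → ℝ) → ℝ) (Γm : ℝ)
    (hΓ : ∀ v ∈ 𝒰, 0 < Γ v ∧ Γ v ≤ Γm) (hstep : StepP S.a S.A k E 𝒰 Γ) (q : ℕ) (z : Pos d)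
    (s : ℕ) (h0 : kp S.a S.A k ≤ s)
    (h1 : 2 ^ k ≤ q ^ 2) (h2 : q ≤ 2 ^ k) (h3 : rr S.A k ^ (7 * S.a) ≤ q) (h4 : supn z ≤ (2 ^ k) ^ 2)
    (h5 : 2 * s ≤ (2 ^ k) ^ 2) (h6 : s + rr S.A k ^ (2 * S.a) * q ≤ (2 ^ k) ^ 2)
    (hr : 128 * d ≤ rr S.A k) (hr1 : 1 ≤ rr S.A k) (hc : 128 * rr S.A k ^ (4 * S.a) ≤ q)
    (hΓ1 : 2 * (Γm + 1) ≤ 2 ^ k) :
    ∃ (h : ℕ) (x1 : Pos d), (h : ℝ) ≤ (Γm + 1) * q ∧
      E.R (wall (PK d S.a S.A k) u z s) s (E.near (kp S.a S.A k) s z) (s + h) x1 ∧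
      E.ok (kp S.a S.A k) (s + h) x1 ∧
      (q : ℝ) ≤ lev u (x1 - z) ∧ nrm (x1 - z) ≤ S.Cv * (Γm * q) + q := by
  have hS := hstep u hu𝒰 q h1 h2 z s h4 h0 h5
  have hm : q ≤ rr S.A k * 2 ^ k := h2.trans (Nat.le_mul_of_pos_left _ hr1)
  have F := S.facts k hk E hE u hu q h3 hm z s h0 h6
  have hq0 : (0 : ℝ) ≤ q := Nat.cast_nonneg _
  have hh : ((E.bh (PK d S.a S.A k) u q z s : ℕ) : ℝ) ≤ Γm * q :=
    hS.trans (mul_le_mul_of_nonneg_right (hΓ u hu𝒰).2 hq0)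
  obtain ⟨r, hrdef⟩ : ∃ r : ℕ, r = rr S.A k := ⟨_, rfl⟩
  obtain ⟨κ, hκdef⟩ : ∃ κ : ℕ, κ = kp S.a S.A k := ⟨_, rfl⟩
  have hκr : κ = r ^ S.a := by rw [hκdef, hrdef]; rfl
  have ha := S.a_big
  have hrr1 : 1 ≤ r := by rw [hrdef]; exact hr1
  have hκ1 : r ≤ κ := by rw [hκr]; exact Nat.le_self_pow (by omega) _
  have hκ3 : r * κ ≤ κ ^ 3 := by
    calc r * κ ≤ κ * κ := Nat.mul_le_mul_right _ hκ1
      _ = κ ^ 2 := by ring
      _ ≤ κ ^ 3 := Nat.pow_le_pow_right (hrr1.trans hκ1) (by norm_num)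
  have hκ4 : κ ^ 3 ≤ κ ^ 4 := Nat.pow_le_pow_right (hrr1.trans hκ1) (by norm_num)
  have hc' : 128 * κ ^ 4 ≤ q := by
    rw [hκr, ← pow_mul, mul_comm S.a 4, hrdef]
    exact hc
  have hl0 : (PK d S.a S.A k).l0 = 32 * κ ^ 3 := by
    have e : (PK d S.a S.A k).l0 = 32 * rr S.A k ^ (3 * S.a) := rfl
    rw [e, hκr, hrdef, ← pow_mul, mul_comm S.a 3]
  have hΔ : (PK d S.a S.A k).Δ ≤ 66 * κ ^ 4 := by
    have e := S4aux.delta_le S k
    rw [hκr, hrdef, ← pow_mul, mul_comm S.a 4]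
    exact e
  have hPκ : (PK d S.a S.A k).κ = κ := by rw [hκdef]; rfl
  obtain ⟨h, hhdef⟩ : ∃ h : ℕ, h = E.bh (PK d S.a S.A k) u q z s := ⟨_, rfl⟩
  obtain ⟨X, hXdef⟩ : ∃ X : Pos d, X = E.bx (PK d S.a S.A k) u q z s := ⟨_, rfl⟩
  obtain ⟨Δ, hΔdef⟩ : ∃ Δ : ℕ, Δ = (PK d S.a S.A k).Δ := ⟨_, rfl⟩
  have hnext := F.next_mem
  have hxl := F.x_lev
  have hxn := F.x_nrm
  rw [hPκ] at hxn hnext
  rw [← hhdef, ← hXdef, ← hΔdef] at hnext
  rw [← hXdef] at hxl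
  rw [← hXdef, ← hhdef] at hxn
  rw [← hΔdef] at hΔ
  rw [← hhdef] at hh
  have hΔr : (Δ : ℝ) ≤ 66 * (κ : ℝ) ^ 4 := by exact_mod_cast hΔ
  have hcr : 128 * (κ : ℝ) ^ 4 ≤ q := by exact_mod_cast hc'
  have hκ1r : (1 : ℝ) ≤ κ := by exact_mod_cast (hrr1.trans hκ1)
  have hκ44 : (0 : ℝ) ≤ (κ : ℝ) ^ 4 := by positivity
  have hΔq : (Δ : ℝ) ≤ q := by linarith
  have hdr : 128 * (d : ℝ) ≤ r := by rw [hrdef]; exact_mod_cast hr
  have hrκ3 : (r : ℝ) * κ ≤ (κ : ℝ) ^ 3 := by exact_mod_cast hκ3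
  have hκ34 : (κ : ℝ) ^ 3 ≤ (κ : ℝ) ^ 4 := by exact_mod_cast hκ4
  have hdκ : 128 * (d * (κ : ℝ)) ≤ (κ : ℝ) ^ 3 := by
    have e1 : 128 * (d : ℝ) * κ ≤ r * κ := mul_le_mul_of_nonneg_right hdr (by linarith)
    linarith
  have hd0 : (0 : ℝ) ≤ d := Nat.cast_nonneg _
  have hd1 : (d : ℝ) ≤ d * κ := by
    calc (d : ℝ) = d * 1 := (mul_one _).symm
      _ ≤ d * κ := mul_le_mul_of_nonneg_left hκ1r hd0
  have hT : 2 * (s + h + Δ) ≤ 2 * s + (2 ^ k) ^ 2 := by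
    have e1 : 2 * ((h : ℝ) + Δ) ≤ ((2 : ℝ) ^ k) ^ 2 := by
      have e2 : (h : ℝ) + Δ ≤ (Γm + 1) * q := by linarith
      have e3 : (q : ℝ) ≤ 2 ^ k := by exact_mod_cast h2
      calc 2 * ((h : ℝ) + Δ) ≤ 2 * ((Γm + 1) * q) := by linarith
        _ = (2 * (Γm + 1)) * q := by ring
        _ ≤ 2 ^ k * 2 ^ k := mul_le_mul hΓ1 e3 hq0 (by positivity)
        _ = ((2 : ℝ) ^ k) ^ 2 := by ring
    have e2 : ((2 * (h + Δ) : ℕ) : ℝ) ≤ (((2 ^ k) ^ 2 : ℕ) : ℝ) := by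
      push_cast
      exact e1
    have e3 : 2 * (h + Δ) ≤ (2 ^ k) ^ 2 := by exact_mod_cast e2
    omega
  have hκS : κ ≤ q := by
    have e1 : κ ≤ κ ^ 4 := Nat.le_self_pow (by norm_num) _
    omega
  have hGood : E.Good (rr S.A k) κ S.Cv ((2 ^ k) ^ 2) ((2 ^ k) ^ 2) := by
    rw [hκdef]
    exact hE
  rw [← hκdef] at h0
  obtain ⟨hok, hns⟩ : E.ok κ (s + h + Δ) (E.near κ (s + h + Δ) (z + X + v0 (PK d S.a S.A k) u)) ∧
      supn (E.near κ (s + h + Δ) (z + X + v0 (PK d S.a S.A k) u) - (z + X + v0 (PK d S.a S.A k) u)) ≤ κ := by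
    refine near_ok hGood _ (by omega) ?_
    -- time
    have e1 : ((h + Δ : ℕ) : ℝ) + κ ≤ (Γm + 1) * q := by
      push_cast
      have e2 : (κ : ℝ) ≤ (κ : ℝ) ^ 4 := by exact_mod_cast Nat.le_self_pow (by norm_num : 4 ≠ 0) κ
      linarith
    have e2 : (q : ℝ) ≤ 2 ^ k := by exact_mod_cast h2
    have e3 : 2 * (((h + Δ : ℕ) : ℝ) + κ) ≤ ((2 : ℝ) ^ k) ^ 2 := by
      calc 2 * (((h + Δ : ℕ) : ℝ) + κ) ≤ 2 * ((Γm + 1) * q) := by linarith
        _ = (2 * (Γm + 1)) * q := by ring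
        _ ≤ 2 ^ k * 2 ^ k := mul_le_mul hΓ1 e2 hq0 (by positivity)
        _ = ((2 : ℝ) ^ k) ^ 2 := by ring
    have e4 : 2 * (h + Δ + κ) ≤ (2 ^ k) ^ 2 := by
      have : ((2 * (h + Δ + κ) : ℕ) : ℝ) ≤ (((2 ^ k) ^ 2 : ℕ) : ℝ) := by
        push_cast at e3 ⊢
        linarith
      exact_mod_cast this
    omega
  obtain ⟨x1, hx1⟩ : ∃ x1 : Pos d, x1 = E.near κ (s + h + Δ) (z + X + v0 (PK d S.a S.A k) u) := ⟨_, rfl⟩
  rw [← hx1] at hok hns hnext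
  have hnx : nrm (x1 - (z + X + v0 (PK d S.a S.A k) u)) ≤ d * κ := nrm_le_supn _ _ hns
  have hx1z : x1 - z = (x1 - (z + X + v0 (PK d S.a S.A k) u)) + X + v0 (PK d S.a S.A k) u := by abel
  have hv1 : (32 : ℝ) * (κ : ℝ) ^ 3 - d ≤ lev u (v0 (PK d S.a S.A k) u) := by
    have e1 : lev u (v0 (PK d S.a S.A k) u) = ((PK d S.a S.A k).l0 : ℝ) * ∑ j, u j ^ 2 +
        ∑ j, u j * ((v0 (PK d S.a S.A k) u j : ℝ) - (PK d S.a S.A k).l0 * u j) := by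
      rw [Finset.mul_sum, ← Finset.sum_add_distrib, lev]
      refine Finset.sum_congr rfl fun j _ => ?_
      ring
    have e2 : |∑ j, u j * ((v0 (PK d S.a S.A k) u j : ℝ) - (PK d S.a S.A k).l0 * u j)| ≤ d := by
      refine (Finset.abs_sum_le_sum_abs _ _).trans (le_trans ?_ (sum_abs_u u hu))
      refine Finset.sum_le_sum fun j _ => ?_
      rw [abs_mul]
      have e3 : |(v0 (PK d S.a S.A k) u j : ℝ) - (PK d S.a S.A k).l0 * u j| ≤ 1 :=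
        S6.v0_err (PK d S.a S.A k) u j
      calc |u j| * _ ≤ |u j| * 1 := mul_le_mul_of_nonneg_left e3 (abs_nonneg _)
        _ = |u j| := mul_one _
    rw [hu, hl0] at e1
    push_cast at e1
    rw [hl0] at e2
    push_cast at e2
    rw [abs_le] at e2
    linarith [e2.1]
  refine ⟨h + Δ, x1, ?_, ?_, ?_, ?_, ?_⟩
  · push_cast
    linarith
  · have e1 : s + (h + Δ) = s + h + Δ := by omega
    rw [e1]
    exact hnext
  · rw [← hκdef]
    have e1 : s + (h + Δ) = s + h + Δ := by omega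
    rw [e1]
    exact hok
  · rw [hx1z, lev_add, lev_add]
    have e1 := abs_lev_le u hu (x1 - (z + X + v0 (PK d S.a S.A k) u))
    rw [abs_le] at e1
    have e2 : (0 : ℝ) ≤ (κ : ℝ) ^ 3 := by positivity
    linarith [e1.1]
  · rw [hx1z]
    have e1 := nrm_add_le ((x1 - (z + X + v0 (PK d S.a S.A k) u)) + X) (v0 (PK d S.a S.A k) u)
    have e2 := nrm_add_le (x1 - (z + X + v0 (PK d S.a S.A k) u)) X
    have e3 := S6.nrm_v0 (PK d S.a S.A k) hu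
    rw [hl0] at e3
    push_cast at e3
    have e4 : (S.Cv : ℝ) * h ≤ S.Cv * (Γm * q) := mul_le_mul_of_nonneg_left hh (Nat.cast_nonneg _)
    linarith

theorem walkWall (a A Cv k : ℕ) (E : Env d) (hE : GoodK a A Cv k E) (C b : ℝ) (hC : 0 ≤ C) (hb : 0 ≤ b)
    (hreach : ∀ (x y : Pos d) (s t : ℕ), kp a A k ≤ s → E.fg (kp a A k) s x → supn x ≤ rr A k * 2 ^ k →
      nrm (y - x) ≤ 2 ^ k → (s : ℝ) + C * nrm (y - x) + b ≤ t →
      t ≤ s + rr A k * 2 ^ k → 2 * t ≤ (2 ^ k) ^ 2 → E.bg (kp a A k) t y →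
      E.R (fun _ => Ball y (2 * nrm (y - x) + b)) s x t y)
    (P : BP) (u : Fin d → ℝ) (hu : ∑ j, u j ^ 2 = 1) (z x1 y : Pos d) (s s1 σ q N : ℕ) (hN : 0 < N)
    (D1 : ℝ) (hx1 : E.fg (kp a A k) s1 x1) (hy : E.bg (kp a A k) σ y)
    (hκ1 : kp a A k ≤ s1) (hD1 : nrm (y - x1) ≤ D1) (hs1σ : s1 ≤ σ)
    (n1 : D1 / N * d + 2 * d + 2 * (d * kp a A k) ≤ (q : ℝ) / 16)
    (n2 : d * D1 + d + d * kp a A k + nrm (x1 - z) + nrm z ≤ ((rr A k * 2 ^ k : ℕ) : ℝ))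
    (n3 : (q : ℝ) / 16 ≤ 2 ^ k)
    (n4 : C * ((q : ℝ) / 16) + b + 1 ≤ ((σ - s1 : ℕ) : ℝ) / N)
    (n5 : σ ≤ s1 + rr A k * 2 ^ k)
    (n6 : 2 * σ ≤ (2 ^ k) ^ 2)
    (hlx : (q : ℝ) ≤ lev u (x1 - z)) (hly : (q : ℝ) ≤ lev u (y - z))
    (n7 : ∀ τ : ℕ, τ ≤ σ → -(P.mg : ℝ) + ((τ : ℝ) - s) / (16 * P.κ) ≤ q - d - (2 * ((q : ℝ) / 16) + b) - d * kp a A k)
    (n8 : d * D1 + d + (2 * ((q : ℝ) / 16) + b) + d * kp a A k + nrm (x1 - z) ≤ (P.Dw : ℝ)) :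
    E.R (wall P u z s) s1 x1 σ y := by
  have hNr : (0 : ℝ) < N := by exact_mod_cast hN
  have hσT : σ ≤ (2 ^ k) ^ 2 := by omega
  have hd0 : (0 : ℝ) ≤ d := Nat.cast_nonneg _
  have hw := walk E (kp a A k) s1 σ (fun t ht1 ht2 x => by
      obtain ⟨v, -, h1, h2⟩ := hE.g1 t (hκ1.trans ht1) (by
        have e : rr A k ^ a = kp a A k := rfl
        rw [e]
        omega) x
      exact ⟨v, h1, h2⟩) x1 y N hN (tm s1 σ N) (fun i hi => by
        have := tm_mono s1 σ N i N hi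
        rw [tm_last _ _ _ hN hs1σ] at this
        have h0 := tm_mono s1 σ N 0 i (by omega)
        rw [tm_zero] at h0
        omega) (by rw [tm_zero]; exact hx1) (by rw [tm_last _ _ _ hN hs1σ]; exact hy)
      ((q : ℝ) / 16) (2 * ((q : ℝ) / 16) + b) (by positivity) (by
        refine le_trans ?_ n1
        have : nrm (y - x1) / N * d ≤ D1 / N * d :=
          mul_le_mul_of_nonneg_right (div_le_div_of_nonneg_right hD1 hNr.le) hd0
        linarith) (by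
        intro i hi p p' hp hp' hpp hpx
        have e1 : nrm (p' - p) ≤ 2 ^ k := hpp.trans n3
        have e2 : supn p ≤ rr A k * 2 ^ k := by
          refine supn_le_of_nrm _ _ ?_
          have f1 := nrm_add_le (p - x1) x1
          have f2 := nrm_add_le (x1 - z) z
          rw [sub_add_cancel] at f1 f2
          have f3 : d * nrm (y - x1) ≤ d * D1 := mul_le_mul_of_nonneg_left hD1 hd0
          linarith
        have e3 := tm_lb s1 σ N i hN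
        have e4 : C * nrm (p' - p) ≤ C * ((q : ℝ) / 16) := mul_le_mul_of_nonneg_left hpp hC
        have e5 := tm_mono s1 σ N (i + 1) N (by omega)
        rw [tm_last _ _ _ hN hs1σ] at e5
        have e6 := tm_mono s1 σ N 0 i (by omega)
        rw [tm_zero] at e6
        have h := hreach p p' (tm s1 σ N i) (tm s1 σ N (i + 1)) (hκ1.trans e6) hp e2 e1 (by linarith)
          (by omega) (by omega) hp'
        refine R_mono E (fun _ w hw => ?_) h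
        have hw' : nrm (w - p') ≤ 2 * nrm (p' - p) + b := hw
        show nrm (w - p') ≤ 2 * ((q : ℝ) / 16) + b
        linarith)
  rw [tm_zero, tm_last _ _ _ hN hs1σ] at hw
  refine R_upto E hw fun τ hτ1 hτ2 w hw => ?_
  obtain ⟨i, hi, hw⟩ := hw
  have g1 := seg_lev u hu x1 y z N i hN hi q hlx hly
  have g2 := seg_nrm x1 y N i hN hi
  have g3 : |lev u (w - seg x1 y N i)| ≤ nrm (w - seg x1 y N i) := abs_lev_le u hu _
  have g4 : lev u (w - z) = lev u (w - seg x1 y N i) + lev u (seg x1 y N i - z) := by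
    rw [← lev_add, sub_add_sub_cancel]
  rw [abs_le] at g3
  constructor
  · have := n7 τ hτ2
    rw [g4]
    linarith [g3.1]
  · refine supn_le_of_nrm _ _ ?_
    have f1 := nrm_sub_le w (seg x1 y N i) z
    have f2 := nrm_sub_le (seg x1 y N i) x1 z
    have f3 : d * nrm (y - x1) ≤ d * D1 := mul_le_mul_of_nonneg_left hD1 hd0
    linarith

theorem core {Ω : Type} [MeasurableSpace Ω] {P : Measure Ω} (S : Sys d P) (k : ℕ) (hk : S.k0 ≤ k)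
    (E : Env d) (hE : GoodK S.a S.A S.Cv k E) (u : Fin d → ℝ) (hu : ∑ j, u j ^ 2 = 1)
    (𝒰 : Finset (Fin d → ℝ)) (hu𝒰 : u ∈ 𝒰) (Γ : (Fin d → ℝ) → ℝ) (Γm : ℝ) (hΓm : 0 < Γm)
    (hΓ : ∀ v ∈ 𝒰, 0 < Γ v ∧ Γ v ≤ Γm) (hstep : StepP S.a S.A k E 𝒰 Γ) (C b : ℝ) (hC : 0 < C)
    (hb : 0 ≤ b)
    (hreach : ∀ (x y : Pos d) (s t : ℕ), kp S.a S.A k ≤ s → E.fg (kp S.a S.A k) s x →
      supn x ≤ rr S.A k * 2 ^ k →
      nrm (y - x) ≤ 2 ^ k → (s : ℝ) + C * nrm (y - x) + b ≤ t →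
      t ≤ s + rr S.A k * 2 ^ k → 2 * t ≤ (2 ^ k) ^ 2 → E.bg (kp S.a S.A k) t y →
      E.R (fun _ => Ball y (2 * nrm (y - x) + b)) s x t y)
    (g ε : ℝ) (hg : 0 < g) (hε : 0 < ε) (hε1 : ε < g) (N V L m q K : ℕ) (hN0 : 0 < N) (B1 : ℝ)
    (hB1 : B1 = 3 * (d : ℝ) ^ 2 + S.Cv * Γm + 1)
    (hN : 32 * B1 * d ≤ N)
    (hV : Γm + 1 + N * (C / 16 + 1) ≤ V) (hL : 4 * ((V : ℝ) + 1) ≤ ε * L)
    (c1 : K ≤ rr S.A k) (c2 : K * rr S.A k ^ (7 * S.a) ≤ q) (c3 : (K : ℝ) * b ≤ q) (c4 : q * L ≤ m)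
    (c6 : m ≤ 2 ^ k) (c8 : 2 ^ k ≤ K * q) (hL0 : 0 < L)
    (k1 : 128 * (d : ℝ) ≤ K)
    (k2 : (d + 1) * B1 + 6 * (d : ℝ) ^ 2 + 2 * S.Cv * g + 10 ≤ K)
    (k3 : 2 * ((V : ℝ) + g) + 10 ≤ K) (k4 : 4 * g ≤ ε * K) (k5 : 16 * (S.Cv : ℝ) ≤ K)
    (k6 : 128 ≤ K)
    (C3 : ℕ) (hC3 : 2 * (2 + (S.Cv : ℝ) * g + 3 * (d : ℝ) ^ 2) ≤ C3) (hC3m : C3 * m ≤ 2 ^ k)
    (t : ℕ) (x : Pos d) (ht : (t : ℝ) ≤ (g - ε) * m)
    (hR : E.R (fun _ => Set.univ) ((V + 1) * q) 0 ((V + 1) * q + t) x) (hx : (m : ℝ) ≤ lev u x)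
    (Kw : ℝ) (Kv : ℕ) (hmq : (m : ℝ) ≤ 2 * L * q)
    (hKw : (S.Cv * g + 1) * (2 * L) + 2 * d + 1 ≤ Kw) (hKv : (V : ℝ) + 2 * L * g + 1 ≤ Kv) :
    ∃ (w : Pos d) (v : ℕ), (∀ j, |((w j : ℤ) : ℝ)| ≤ Kw) ∧ v < Kv ∧ kp S.a S.A k ≤ q * v ∧
      2 * (q * v) ≤ (2 ^ k) ^ 2 ∧
      (m : ℝ) / 2 ≤ (⌊(m : ℝ) - lev u (sc q w)⌋₊ : ℝ) ∧
      2 * ⌊(m : ℝ) - lev u (sc q w)⌋₊ ≤ 2 ^ k ∧
      (E.bh (PK d S.a S.A k) u ⌊(m : ℝ) - lev u (sc q w)⌋₊ (sc q w) (q * v) : ℝ) ≤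
        (g - ε / 2) * (⌊(m : ℝ) - lev u (sc q w)⌋₊ : ℝ) := by
  -- basic facts
  have hd0 : 0 < d := S.d_pos
  have hdr : (1 : ℝ) ≤ d := by exact_mod_cast hd0
  have hr1 : 1 ≤ rr S.A k := Nat.one_le_two_pow
  have ha0 : 7 * S.a ≠ 0 := by have := S.a_big; omega
  have ha1 : S.a ≠ 0 := by have := S.a_big; omega
  have hr7 : rr S.A k ≤ rr S.A k ^ (7 * S.a) := Nat.le_self_pow ha0 _
  have hra : rr S.A k ≤ rr S.A k ^ S.a := Nat.le_self_pow ha1 _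
  have hCv0 : (0 : ℝ) ≤ S.Cv := Nat.cast_nonneg _
  have hV0 : (0 : ℝ) ≤ V := Nat.cast_nonneg _
  have hK10 : (10 : ℝ) ≤ K := by linarith
  have hK1 : 10 ≤ K := by exact_mod_cast hK10
  set r := rr S.A k with hr
  set n : ℝ := (2 : ℝ) ^ k with hn
  have hn0 : 0 < n := by positivity
  have ncast : ((2 ^ k : ℕ) : ℝ) = n := by push_cast; rfl
  have F1n : K * r ≤ q := (Nat.mul_le_mul_left _ hr7).trans c2
  have F1 : (K : ℝ) * r ≤ q := by exact_mod_cast F1n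
  have hr1r : (1 : ℝ) ≤ r := by exact_mod_cast hr1
  have hKr0 : (0 : ℝ) ≤ K := Nat.cast_nonneg _
  have F2 : (K : ℝ) ≤ q := le_trans (by
    calc (K : ℝ) = K * 1 := (mul_one _).symm
      _ ≤ K * r := mul_le_mul_of_nonneg_left hr1r hKr0) F1
  have F2n : K ≤ q := by exact_mod_cast F2
  have hq0 : 0 < q := by omega
  have hq0r : (0 : ℝ) < q := by exact_mod_cast hq0
  have F4 : (q : ℝ) * L ≤ m := by exact_mod_cast c4
  have hL1 : (1 : ℝ) ≤ L := by exact_mod_cast hL0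
  have F5 : (q : ℝ) ≤ m := le_trans (by
    calc (q : ℝ) = q * 1 := (mul_one _).symm
      _ ≤ q * L := mul_le_mul_of_nonneg_left hL1 hq0r.le) F4
  have F6 : (m : ℝ) ≤ n := by rw [← ncast]; exact_mod_cast c6
  have F7 : (K : ℝ) * n ≤ n * n := mul_le_mul_of_nonneg_right (by linarith) hn0.le
  have F8 : (K : ℝ) ≤ r := by exact_mod_cast c1
  obtain ⟨κ, hκdef⟩ : ∃ κ : ℕ, κ = kp S.a S.A k := ⟨_, rfl⟩
  have hκr : κ = r ^ S.a := by rw [hκdef, hr]; rfl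
  have hrκ : r ≤ κ := by rw [hκr]; exact hra
  have hrκr : (r : ℝ) ≤ κ := by exact_mod_cast hrκ
  have hκ7 : κ ≤ r ^ (7 * S.a) := by
    rw [hκr]
    exact Nat.pow_le_pow_right hr1 (by omega)
  have hκ4 : r ^ (4 * S.a) ≤ r ^ (7 * S.a) := Nat.pow_le_pow_right hr1 (by omega)
  have hκ44 : κ * κ ≤ r ^ (7 * S.a) := by
    rw [hκr, ← pow_add]
    exact Nat.pow_le_pow_right hr1 (by omega)
  have F9n : K * κ ≤ q := (Nat.mul_le_mul_left _ hκ7).trans c2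
  have F9 : (K : ℝ) * κ ≤ q := by exact_mod_cast F9n
  have F10n : K * (κ * κ) ≤ q := (Nat.mul_le_mul_left _ hκ44).trans c2
  have F10 : (K : ℝ) * (κ * κ) ≤ q := by exact_mod_cast F10n
  have hκ0 : (0 : ℝ) ≤ κ := Nat.cast_nonneg _
  have hqn : q ≤ 2 ^ k := by
    have : (q : ℝ) ≤ ((2 ^ k : ℕ) : ℝ) := by rw [ncast]; linarith
    exact_mod_cast this
  have hb1 : b ≤ (q : ℝ) / 10 := by
    have : 10 * b ≤ K * b := mul_le_mul_of_nonneg_right hK10 hb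
    linarith
  have hr2 : (r : ℝ) ≤ q / 10 := by
    have : 10 * (r : ℝ) ≤ K * r := mul_le_mul_of_nonneg_right hK10 (by linarith)
    linarith
  have hdr2 : 128 * (d : ℝ) * κ ≤ q := by
    have : 128 * (d : ℝ) * κ ≤ K * κ := mul_le_mul_of_nonneg_right k1 hκ0
    linarith
  have hκq : (κ : ℝ) ≤ q / 10 := by
    have : 10 * (κ : ℝ) ≤ K * κ := mul_le_mul_of_nonneg_right hK10 hκ0
    linarith
  have hCκ : 16 * (S.Cv : ℝ) * κ ≤ q := by
    have : 16 * (S.Cv : ℝ) * κ ≤ K * κ := mul_le_mul_of_nonneg_right k5 hκ0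
    linarith
  have hm0 : (0 : ℝ) < m := by linarith
  have hgm : 0 < g * m := by positivity
  have hgm2 : g * m ≤ g * n := mul_le_mul_of_nonneg_left F6 hg.le
  have htg : (t : ℝ) ≤ g * m := by
    have : (g - ε) * m ≤ g * m := mul_le_mul_of_nonneg_right (by linarith) hm0.le
    linarith
  have hVq : (V : ℝ) * q ≤ V * n := mul_le_mul_of_nonneg_left (F5.trans F6) hV0
  have hB0 : 1 ≤ B1 := by
    rw [hB1]
    have := mul_nonneg hCv0 hΓm.le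
    have h3 : (0 : ℝ) ≤ 3 * (d : ℝ) ^ 2 := by positivity
    linarith
  have hkk : (1 : ℝ) ≤ r := hr1r
  -- times
  have he2r : 2 * (((V : ℝ) + 1) * q + t) ≤ n * n := by
    have h1 : (2 * ((V : ℝ) + 1 + g)) * n ≤ K * n := mul_le_mul_of_nonneg_right (by linarith) hn0.le
    have h2 : (q : ℝ) ≤ n := F5.trans F6
    linarith
  have he2 : 2 * ((V + 1) * q + t) ≤ (2 ^ k) ^ 2 := by
    have : ((2 * ((V + 1) * q + t) : ℕ) : ℝ) ≤ (((2 ^ k) ^ 2 : ℕ) : ℝ) := by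
      push_cast
      rw [sq]
      exact he2r
    exact_mod_cast this
  obtain ⟨Z, hZ0, hZe, hZ⟩ := R_route E hR
  obtain ⟨s0, hs0⟩ : ∃ s0 : ℕ, s0 = (V + 1) * q := ⟨_, rfl⟩
  have hs0r : (s0 : ℝ) = (V + 1) * q := by rw [hs0]; push_cast; rfl
  rw [← hs0] at hZ0 hZe hZ hR he2
  have hpos : ∀ τ, s0 ≤ τ → τ ≤ s0 + t → E.R (fun _ => Set.univ) s0 0 τ (Z τ) := by
    intro τ h1 h2
    rcases Nat.lt_or_ge τ (s0 + t) with h | h
    · have := (hZ τ h1 h).2.1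
      exact this
    · have h3 : τ = s0 + t := by omega
      rw [h3, hZe]
      exact hR
  have hZn0 : ∀ τ, s0 ≤ τ → τ ≤ s0 + t → nrm (Z τ) ≤ S.Cv * ((τ : ℝ) - s0) + r := by
    intro τ h1 h2
    have h3 := hE.g4 s0 τ 0 (Z τ) h1 (by omega) (hpos τ h1 h2)
    rw [sub_zero] at h3
    exact h3
  have hZn : ∀ τ, s0 ≤ τ → τ ≤ s0 + t → nrm (Z τ) ≤ S.Cv * (g * m) + r := by
    intro τ h1 h2
    have h3 := hZn0 τ h1 h2
    have h4 : (τ : ℝ) ≤ (s0 : ℝ) + t := by exact_mod_cast h2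
    have h5 : (S.Cv : ℝ) * ((τ : ℝ) - (s0 : ℝ)) ≤ S.Cv * (g * m) :=
      mul_le_mul_of_nonneg_left (by linarith) hCv0
    linarith
  have htκ : κ ≤ t := by
    by_contra hlt
    push Not at hlt
    have h1 := hZn0 (s0 + t) (by omega) le_rfl
    rw [hZe] at h1
    have h2 := abs_lev_le u hu x
    rw [abs_le] at h2
    have h3 : (t : ℝ) ≤ κ := by exact_mod_cast hlt.le
    push_cast at h1
    have h4 : (S.Cv : ℝ) * ((s0 : ℝ) + t - s0) ≤ S.Cv * κ :=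
      mul_le_mul_of_nonneg_left (by linarith) hCv0
    linarith [h2.2]
  obtain ⟨σ, hσ1', hσ2, hσ3⟩ := exists_argmin (fun τ => lev u (Z τ) - 1 / (4 * g) * (τ : ℝ)) (s0 + κ)
    (s0 + t) (by omega)
  have hσ1 : s0 ≤ σ := by omega
  have hYbg : E.bg κ σ (Z σ) := by
    refine bg_of_R (r := r) (Cv := S.Cv) (S := (2 ^ k) ^ 2) (Dm := (2 ^ k) ^ 2) (by rw [hκdef]; exact hE)
      ?_ hσ1' (by omega) (hpos σ hσ1 hσ2)
    have e1 : 16 * S.Cv ≤ K := by exact_mod_cast k5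
    have e2 : K ≤ κ := c1.trans hrκ
    have e3 : 16 * (S.Cv * κ) ≤ κ * κ := by
      calc 16 * (S.Cv * κ) = (16 * S.Cv) * κ := by ring
        _ ≤ κ * κ := Nat.mul_le_mul_right _ (e1.trans e2)
    have e4 : 10 * r ≤ κ * κ := Nat.mul_le_mul (by omega) hrκ
    rw [sq]
    omega
  have hYocc : E.occ σ (Z σ) := R_occ E (hpos σ hσ1 hσ2)
  have hz1 := gw_lev u hu hd0 q hq0 (Z σ)
  have hz2 := gw_nrm u hu hd0 q hq0 (Z σ)
  have hYn := hZn σ hσ1 hσ2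
  set w := gw u q (Z σ) with hw
  set z := sc q w with hz
  have hzn : nrm z ≤ S.Cv * (g * m) + r + 3 * d ^ 2 * q := by
    have h1 := nrm_sub_le z (Z σ) 0
    rw [sub_zero, sub_zero, nrm_sub_comm] at h1
    linarith
  have hVσ : V + 1 ≤ σ / q := (Nat.le_div_iff_mul_le hq0).2 (by rw [← hs0]; exact hσ1)
  obtain ⟨v', hv'⟩ := Nat.exists_eq_add_of_le hVσ
  obtain ⟨v, hvv⟩ : ∃ v : ℕ, v = v' + 1 := ⟨_, rfl⟩
  have hv : σ / q = V + v := by omega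
  have hs1 : q * v + V * q ≤ σ := by
    have h1 := Nat.mul_div_le σ q
    rw [hv] at h1
    calc q * v + V * q = q * (V + v) := by ring
      _ ≤ σ := h1
  have hs2 : σ < q * v + (V + 1) * q := by
    have h1 := Nat.lt_mul_div_succ σ hq0
    rw [hv] at h1
    calc σ < q * (V + v + 1) := h1
      _ = q * v + (V + 1) * q := by ring
  have hκv : κ ≤ q * v := by
    have e1 : κ ≤ q := (Nat.le_mul_of_pos_left _ (by omega)).trans F9n
    have e2 : q * 1 ≤ q * v := Nat.mul_le_mul_left _ (by omega)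
    omega
  have hs1r : (q : ℝ) * v + V * q ≤ σ := by exact_mod_cast hs1
  have hs2r : (σ : ℝ) < q * v + (V + 1) * q := by exact_mod_cast hs2
  have hσ1r : ((V : ℝ) + 1) * q ≤ σ := by rw [← hs0r]; exact_mod_cast hσ1
  have hσ2r : (σ : ℝ) ≤ (V + 1) * q + t := by rw [← hs0r]; exact_mod_cast hσ2
  -- bounds in terms of n
  have hqn' : (q : ℝ) ≤ n := F5.trans F6
  have hCg0 : 0 ≤ (S.Cv : ℝ) * g := mul_nonneg hCv0 hg.le
  have P1 : (S.Cv : ℝ) * (g * m) ≤ (S.Cv * g) * n := by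
    calc (S.Cv : ℝ) * (g * m) = (S.Cv * g) * m := by ring
      _ ≤ (S.Cv * g) * n := mul_le_mul_of_nonneg_left F6 hCg0
  have P2 : 3 * (d : ℝ) ^ 2 * q ≤ 3 * d ^ 2 * n := mul_le_mul_of_nonneg_left hqn' (by positivity)
  have P3 : B1 * q ≤ B1 * n := mul_le_mul_of_nonneg_left hqn' (by linarith)
  have P4 : (d : ℝ) * (B1 * q) ≤ d * B1 * n := by
    calc (d : ℝ) * (B1 * q) = (d * B1) * q := by ring
      _ ≤ (d * B1) * n := mul_le_mul_of_nonneg_left hqn' (by positivity)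
  have P5 : ((d + 1) * B1 + 6 * (d : ℝ) ^ 2 + 2 * S.Cv * g + 10) * n ≤ K * n :=
    mul_le_mul_of_nonneg_right k2 hn0.le
  have P6 : (K : ℝ) * n ≤ r * n := mul_le_mul_of_nonneg_right F8 hn0.le
  have P7 : 0 ≤ (d : ℝ) ^ 2 * n := by positivity
  have P8 : 0 ≤ (S.Cv : ℝ) * g * n := by positivity
  have P9 : 0 ≤ B1 * n := by positivity
  have P10 : 0 ≤ (d : ℝ) * B1 * n := by positivity
  have P11 : (d : ℝ) ≤ d * κ := by
    calc (d : ℝ) = d * 1 := (mul_one _).symm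
      _ ≤ d * κ := mul_le_mul_of_nonneg_left (hr1r.trans hrκr) (by linarith)
  have P12 : 16 * (S.Cv : ℝ) ≤ q := k5.trans F2
  have hznat : supn z ≤ (2 ^ k) ^ 2 := by
    refine supn_le_of_nrm _ _ ?_
    push_cast
    rw [sq]
    change nrm z ≤ n * n
    linarith
  have hs_le : 2 * (q * v) ≤ (2 ^ k) ^ 2 := by omega
  have h6 : q * v + r ^ (2 * S.a) * q ≤ (2 ^ k) ^ 2 := by
    have e1 : r ^ (2 * S.a) ≤ r ^ (7 * S.a) := Nat.pow_le_pow_right hr1 (by omega)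
    have e2 : 2 * r ^ (2 * S.a) ≤ q := by
      calc 2 * r ^ (2 * S.a) ≤ K * r ^ (7 * S.a) := Nat.mul_le_mul (by omega) e1
        _ ≤ q := c2
    have e3 : 2 * (r ^ (2 * S.a) * q) ≤ (2 ^ k) ^ 2 := by
      calc 2 * (r ^ (2 * S.a) * q) = (2 * r ^ (2 * S.a)) * q := by ring
        _ ≤ 2 ^ k * 2 ^ k := Nat.mul_le_mul (e2.trans hqn) hqn
        _ = (2 ^ k) ^ 2 := by ring
    omega
  have h1q : 2 ^ k ≤ q ^ 2 := by
    calc 2 ^ k ≤ K * q := c8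
      _ ≤ q * q := Nat.mul_le_mul_right _ F2n
      _ = q ^ 2 := by ring
  have h3q : r ^ (7 * S.a) ≤ q := (Nat.le_mul_of_pos_left _ (by omega)).trans c2
  obtain ⟨h, x1, hh, hc1, hc2, hc3, hc4⟩ := climb S k hk E hE u hu 𝒰 hu𝒰 Γ Γm hΓ hstep q z
    (q * v) (by rw [← hκdef]; exact hκv) h1q hqn h3q hznat hs_le h6 (by
      have e1 : 128 * (d : ℝ) ≤ r := k1.trans F8
      have e2 : ((128 * d : ℕ) : ℝ) ≤ (r : ℝ) := by push_cast; exact e1
      exact_mod_cast e2) hr1 (by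
      have e1 : 128 * r ^ (4 * S.a) ≤ K * r ^ (7 * S.a) := Nat.mul_le_mul k6 hκ4
      exact e1.trans c2) (by
      have e1 : 2 * (Γm + 1) ≤ 2 * (V : ℝ) := by
        have : 0 ≤ (N : ℝ) * (C / 16 + 1) := by positivity
        linarith
      show 2 * (Γm + 1) ≤ n
      linarith)
  have hNr : (0 : ℝ) < N := by exact_mod_cast hN0
  have hNC : 0 ≤ (N : ℝ) * (C / 16 + 1) := by positivity
  have hhV : h ≤ V * q := by
    have : (h : ℝ) ≤ ((V * q : ℕ) : ℝ) := by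
      push_cast
      refine hh.trans (mul_le_mul_of_nonneg_right (by linarith) hq0r.le)
    exact_mod_cast this
  rw [← hκdef] at hc1 hc2
  have hs1σ : q * v + h ≤ σ := by omega
  have hx1z : nrm (x1 - z) ≤ B1 * q := by
    have e1 : (S.Cv : ℝ) * (Γm * q) = (B1 - 3 * d ^ 2 - 1) * q := by rw [hB1]; ring
    have e2 : 0 ≤ 3 * (d : ℝ) ^ 2 * q := by positivity
    rw [e1] at hc4
    linarith
  have hD1 : nrm (Z σ - x1) ≤ B1 * q := by
    have e1 := nrm_sub_le (Z σ) z x1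
    rw [nrm_sub_comm z x1] at e1
    have e2 : (S.Cv : ℝ) * (Γm * q) = (B1 - 3 * d ^ 2 - 1) * q := by rw [hB1]; ring
    rw [e2] at hc4
    linarith
  have hκ1 : (r : ℝ) ≤ ((PK d S.a S.A k).κ : ℝ) := by
    have : r ≤ (PK d S.a S.A k).κ := hra
    exact_mod_cast this
  have hκ2 : (V : ℝ) + 1 ≤ ((PK d S.a S.A k).κ : ℝ) := by linarith
  have hκ3 : g ≤ ((PK d S.a S.A k).κ : ℝ) := by linarith
  have hκ00 : (0 : ℝ) < ((PK d S.a S.A k).κ : ℝ) := by linarith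
  have hmg : (0 : ℝ) ≤ ((PK d S.a S.A k).mg : ℝ) := Nat.cast_nonneg _
  have hDw : ((PK d S.a S.A k).Dw : ℝ) = n * n := by
    have : (PK d S.a S.A k).Dw = (2 ^ k) ^ 2 := rfl
    rw [this]
    push_cast
    rw [sq]
  have hσs : ((σ : ℝ) - ((q * v : ℕ) : ℝ)) / (16 * ((PK d S.a S.A k).κ : ℝ)) ≤ q / 16 := by
    rw [div_le_iff₀ (by positivity)]
    have e1 : ((V : ℝ) + 1) * q ≤ ((PK d S.a S.A k).κ : ℝ) * q :=
      mul_le_mul_of_nonneg_right hκ2 hq0r.le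
    push_cast
    linarith
  have hw2 := walkWall S.a S.A S.Cv k E hE C b hC.le hb hreach (PK d S.a S.A k) u hu z x1 (Z σ)
    (q * v) (q * v + h) σ q N hN0 (B1 * q) (by rw [← hκdef]; exact hc2.1) (by rw [← hκdef]; exact hYbg)
    (by rw [← hκdef]; omega) hD1 hs1σ
    (by
      have e1 : B1 * q / N * d ≤ (q : ℝ) / 32 := by
        rw [div_mul_eq_mul_div, div_le_iff₀ hNr]
        have := mul_le_mul_of_nonneg_right hN hq0r.le
        linarith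
      rw [← hκdef]
      linarith)
    (by
      rw [← hκdef]
      push_cast
      change d * (B1 * q) + d + d * (κ : ℝ) + nrm (x1 - z) + nrm z ≤ r * n
      linarith)
    (by linarith)
    (by
      rw [le_div_iff₀ hNr, Nat.cast_sub hs1σ]
      push_cast
      have e1 : b + 1 ≤ q := by linarith
      have e2 : (C * ((q : ℝ) / 16) + b + 1) * N ≤ (C * ((q : ℝ) / 16) + q) * N :=
        mul_le_mul_of_nonneg_right (by linarith) hNr.le
      have e3 : (C * ((q : ℝ) / 16) + q) * N = N * (C / 16 + 1) * q := by ring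
      have e4 : (Γm + 1 + N * (C / 16 + 1)) * q ≤ V * q := mul_le_mul_of_nonneg_right hV hq0r.le
      linarith)
    (by
      have e1 : V + 1 ≤ r := by
        have : (V : ℝ) + 1 ≤ r := by linarith
        exact_mod_cast this
      have e2 : (V + 1) * q ≤ r * 2 ^ k := Nat.mul_le_mul e1 hqn
      change σ ≤ q * v + h + r * 2 ^ k
      calc σ ≤ q * v + (V + 1) * q := hs2.le
        _ ≤ q * v + r * 2 ^ k := Nat.add_le_add_left e2 _
        _ ≤ q * v + h + r * 2 ^ k := Nat.add_le_add_right (Nat.le_add_right _ _) _)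
    (by omega) hc3 hz1
    (by
      intro τ hτ
      have e1 : ((τ : ℝ) - ((q * v : ℕ) : ℝ)) / (16 * ((PK d S.a S.A k).κ : ℝ)) ≤
          ((σ : ℝ) - ((q * v : ℕ) : ℝ)) / (16 * ((PK d S.a S.A k).κ : ℝ)) := by
        apply div_le_div_of_nonneg_right _ (by positivity)
        have : (τ : ℝ) ≤ σ := by exact_mod_cast hτ
        linarith
      rw [← hκdef]
      linarith)
    (by
      rw [hDw, ← hκdef]
      linarith)
  have hGall : ∀ τ, σ ≤ τ → τ ≤ s0 + t → ∀ b' : Pos d, nrm (b' - Z τ) ≤ S.Cv + r →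
      b' ∈ wall (PK d S.a S.A k) u z (q * v) τ := by
    intro τ hτ1 hτ2 b' hb'
    have hτr : (σ : ℝ) ≤ τ := by exact_mod_cast hτ1
    constructor
    · have e1 := hσ3 τ (by omega) hτ2
      have e2 : |lev u (b' - Z τ)| ≤ nrm (b' - Z τ) := abs_lev_le u hu _
      rw [abs_le] at e2
      have e3 : lev u (b' - z) = lev u (b' - Z τ) + (lev u (Z τ) - lev u (Z σ)) + lev u (Z σ - z) := by
        rw [lev_sub, lev_sub, lev_sub]
        ring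
      have e4 : ((τ : ℝ) - ((q * v : ℕ) : ℝ)) / (16 * ((PK d S.a S.A k).κ : ℝ)) =
          ((τ : ℝ) - σ) / (16 * ((PK d S.a S.A k).κ : ℝ)) +
          ((σ : ℝ) - ((q * v : ℕ) : ℝ)) / (16 * ((PK d S.a S.A k).κ : ℝ)) := by ring
      have e5 : ((τ : ℝ) - σ) / (16 * ((PK d S.a S.A k).κ : ℝ)) ≤ ((τ : ℝ) - σ) / (4 * g) := by
        apply div_le_div_of_nonneg_left (by linarith) (by positivity) (by linarith)
      have e6 : 1 / (4 * g) * (τ : ℝ) - 1 / (4 * g) * (σ : ℝ) = ((τ : ℝ) - σ) / (4 * g) := by ring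
      rw [e3, e4]
      linarith [e2.1]
    · refine supn_le_of_nrm _ _ ?_
      rw [hDw]
      have e1 := nrm_sub_le b' (Z τ) z
      have e2 := nrm_sub_le (Z τ) 0 z
      rw [sub_zero, zero_sub, nrm_neg] at e2
      have e3 := hZn τ (by omega) hτ2
      linarith
  have hb0 : nrm (Z σ - Z σ) ≤ (S.Cv : ℝ) + r := by
    rw [sub_self, nrm_zero]
    positivity
  have haf := after E ((2 ^ k) ^ 2) (S.Cv + r) (by positivity)
    (fun τ hτ x b hv => by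
      have := hE.g4' τ (τ + 1) x b (by omega) hτ hv
      push_cast at this
      rw [add_sub_cancel_left, mul_one] at this
      exact this)
    Z σ (s0 + t) hσ2 (by omega) (fun τ h1 h2 => (hZ τ (by omega) h2).2.2.1) hYocc
    (wall (PK d S.a S.A k) u z (q * v)) (hGall σ le_rfl hσ2 _ hb0)
    (fun τ h1 h2 b' hb' => hGall τ h1 (by omega) b' hb')
  have hfin : E.R (wall (PK d S.a S.A k) u z (q * v)) (q * v) (E.near (PK d S.a S.A k).κ (q * v) z)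
      (s0 + t) x := by
    rw [hZe] at haf
    have hPκ : (PK d S.a S.A k).κ = κ := by rw [hκdef]; rfl
    rw [hPκ]
    exact R_trans E (R_trans E hc1 hw2) haf
  -- sizes
  have e1 := hσ3 (s0 + κ) le_rfl (by omega)
  push_cast at e1
  have e1' := hZn0 (s0 + κ) (by omega) (by omega)
  push_cast at e1'
  have e1'' := abs_lev_le u hu (Z (s0 + κ))
  rw [abs_le] at e1''
  obtain ⟨D, hD⟩ : ∃ D : ℝ, D = (σ : ℝ) - (V + 1) * q := ⟨_, rfl⟩
  have hD0 : 0 ≤ D := by linarith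
  have hDg : D ≤ g * m := by linarith
  have e2 : lev u (Z σ) ≤ D / (4 * g) + (S.Cv * κ + r) := by
    have e6 : 1 / (4 * g) * (σ : ℝ) - 1 / (4 * g) * ((s0 : ℝ) + κ) = D / (4 * g) - κ / (4 * g) := by
      rw [hD, hs0r]
      ring
    have e7 : 0 ≤ (κ : ℝ) / (4 * g) := by positivity
    have e8 : (S.Cv : ℝ) * ((s0 : ℝ) + κ - s0) = S.Cv * κ := by ring
    linarith [e1''.2]
  have e3 : lev u z ≤ D / (4 * g) := by
    have : lev u (Z σ - z) = lev u (Z σ) - lev u z := lev_sub _ _ _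
    linarith
  have e4 : D / (4 * g) ≤ m / 4 := by
    rw [div_le_iff₀ (by positivity)]
    linarith
  have e5 : -lev u z ≤ nrm z := by
    have := abs_lev_le u hu z
    rw [abs_le] at this
    linarith [this.1]
  set M : ℕ := ⌊(m : ℝ) - lev u z⌋₊ with hM
  have f1 : (M : ℝ) ≤ m - lev u z := Nat.floor_le (by linarith)
  have f2 : (m : ℝ) - lev u z < M + 1 := Nat.lt_floor_add_one _
  have f3 : (10 : ℝ) ≤ q := by linarith
  have hbh : E.bh (PK d S.a S.A k) u M z (q * v) ≤ s0 + t - q * v := by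
    refine bh_le E _ u M z (q * v) (s0 + t) (by omega) x hfin ?_
    rw [lev_sub]
    linarith
  have hbhr : (E.bh (PK d S.a S.A k) u M z (q * v) : ℝ) ≤ (V + 1) * q + t - q * v := by
    have g1 : ((E.bh (PK d S.a S.A k) u M z (q * v) : ℕ) : ℝ) ≤ ((s0 + t - q * v : ℕ) : ℝ) := by
      exact_mod_cast hbh
    rw [Nat.cast_sub (by omega)] at g1
    push_cast at g1
    rw [hs0r] at g1
    exact g1
  refine ⟨w, v, ?_, ?_, by rw [← hκdef]; exact hκv, hs_le, by linarith, ?_, ?_⟩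
  · intro j
    refine (gw_bound u hu q hq0 (Z σ) ((S.Cv * g + 1) * (2 * L)) ?_ j).trans hKw
    have g1 : (S.Cv * g + 1) * (m : ℝ) ≤ (S.Cv * g + 1) * (2 * L * q) :=
      mul_le_mul_of_nonneg_left hmq (by linarith)
    linarith
  · have g1 : (v : ℝ) * q ≤ (2 * L * g + 1) * q := by
      have : g * m ≤ g * (2 * L * q) := mul_le_mul_of_nonneg_left hmq hg.le
      linarith
    have g2 : (v : ℝ) ≤ 2 * L * g + 1 := le_of_mul_le_mul_right g1 hq0r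
    have g3 : (v : ℝ) < Kv := by linarith
    exact_mod_cast g3
  · have g1 : 2 * (2 + (S.Cv : ℝ) * g + 3 * (d : ℝ) ^ 2) * m ≤ C3 * m :=
      mul_le_mul_of_nonneg_right hC3 hm0.le
    have g2 : (C3 : ℝ) * m ≤ ((2 ^ k : ℕ) : ℝ) := by exact_mod_cast hC3m
    have g3 : 3 * (d : ℝ) ^ 2 * q ≤ 3 * (d : ℝ) ^ 2 * m := mul_le_mul_of_nonneg_left F5 (by positivity)
    have g4 : ((2 * M : ℕ) : ℝ) ≤ ((2 ^ k : ℕ) : ℝ) := by
      push_cast at g2 ⊢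
      linarith
    exact_mod_cast g4
  · refine hbhr.trans ?_
    have g1 : 4 * ((V : ℝ) + 1) * q ≤ ε * m := by
      calc 4 * ((V : ℝ) + 1) * q ≤ ε * L * q := mul_le_mul_of_nonneg_right hL hq0r.le
        _ = ε * (q * L) := by ring
        _ ≤ ε * m := mul_le_mul_of_nonneg_left F4 hε.le
    have g2 : 4 * g ≤ ε * m := k4.trans (mul_le_mul_of_nonneg_left (F2.trans F5) hε.le)
    have g3 : (g - ε / 2) * (m - D / (4 * g) - 1) ≤ (g - ε / 2) * M :=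
      mul_le_mul_of_nonneg_left (by linarith) (by linarith)
    have g4 : (g - ε / 2) * (D / (4 * g)) ≤ D / 4 := by
      have : (g - ε / 2) * (D / (4 * g)) ≤ g * (D / (4 * g)) :=
        mul_le_mul_of_nonneg_right (by linarith) (by positivity)
      have h2 : g * (D / (4 * g)) = D / 4 := by field_simp
      linarith
    have g5 : (g - ε / 2) * (m - D / (4 * g) - 1) = g * m - ε / 2 * m - (g - ε / 2) * (D / (4 * g)) -
        (g - ε / 2) := by ring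
    have g6 : (g - ε) * m = g * m - ε * m := by ring
    linarith

end S8

open S8 in
/-- a fast infection produces a fast block -/
theorem route_block {Ω : Type} [MeasurableSpace Ω] {P : Measure Ω} (S : Sys d P) (u : Fin d → ℝ) (hu : ∑ j, u j ^ 2 = 1) (g ε Γm : ℝ) (hg : 0 < g)
    (hε : 0 < ε) (hε1 : ε < g) (hΓ : g < Γm) :
    ∃ δ : ℝ, 0 < δ ∧ ∃ e1 : ℝ, 0 < e1 ∧ ∃ C3 N0 : ℕ, 0 < C3 ∧ ∃ k1 : ℕ, ∀ k ≥ k1, ∀ m : ℕ,
    (2 : ℝ) ^ k ≤ 4 * C3 * m → C3 * m ≤ 2 ^ k → ∃ (s0 : ℕ) (F : Finset (Pos d × ℕ × ℕ)),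
      (s0 : ℝ) + g * m + 1 ≤ (2 ^ k) ^ 2 ∧ F.card ≤ N0 ∧
      (∀ f ∈ F, kp S.a S.A k ≤ f.2.1 ∧ 2 * f.2.1 ≤ (2 ^ k) ^ 2 ∧ e1 * 2 ^ k ≤ f.2.2 ∧
        2 * f.2.2 ≤ 2 ^ k) ∧
      ∀ E : Env d, GoodK S.a S.A S.Cv k E → ∀ 𝒰 : Finset (Fin d → ℝ), IsNet δ 𝒰 → u ∈ 𝒰 →
      ∀ Γ : (Fin d → ℝ) → ℝ, (∀ v ∈ 𝒰, 0 < Γ v ∧ Γ v ≤ Γm) → StepP S.a S.A k E 𝒰 Γ →
      (∃ (t : ℕ) (x : Pos d), (t : ℝ) ≤ (g - ε) * m ∧ E.R (fun _ => Set.univ) s0 0 (s0 + t) x ∧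
        (m : ℝ) ≤ lev u x) →
      ∃ f ∈ F, (E.bh (PK d S.a S.A k) u f.2.2 f.1 f.2.1 : ℝ) ≤ (g - ε / 2) * f.2.2 := by
  have hΓm : 0 < Γm := hg.trans hΓ
  obtain ⟨δ, hδ, C, hC, k1, hreach⟩ := reach S Γm hΓm
  obtain ⟨N, hN⟩ := exists_nat_ge (32 * (3 * (d : ℝ) ^ 2 + S.Cv * Γm + 1) * d + 1)
  have hN0 : 0 < N := by
    have : (0 : ℝ) < N := by
      have : (0 : ℝ) ≤ 32 * (3 * (d : ℝ) ^ 2 + S.Cv * Γm + 1) * d := by positivity
      linarith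
    exact_mod_cast this
  obtain ⟨V, hV⟩ := exists_nat_ge (Γm + 1 + N * (C / 16 + 1))
  obtain ⟨L, hL⟩ := exists_nat_ge (4 * ((V : ℝ) + 1) / ε + 1)
  have hL0 : 0 < L := by
    have : (0 : ℝ) < L := by
      have : (0 : ℝ) ≤ 4 * ((V : ℝ) + 1) / ε := by positivity
      linarith
    exact_mod_cast this
  have hL' : 4 * ((V : ℝ) + 1) ≤ ε * L := by
    have h1 : 4 * ((V : ℝ) + 1) / ε ≤ L := by linarith
    rw [div_le_iff₀ hε] at h1
    linarith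
  obtain ⟨C3, hC3⟩ := exists_nat_ge (2 * (2 + (S.Cv : ℝ) * g + 3 * (d : ℝ) ^ 2))
  have hC30 : 0 < C3 := by
    have : (0 : ℝ) < C3 := by
      have : (0 : ℝ) ≤ (S.Cv : ℝ) * g + 3 * (d : ℝ) ^ 2 := by positivity
      linarith
    exact_mod_cast this
  obtain ⟨Kw, hKw⟩ := exists_nat_ge ((S.Cv * g + 1) * (2 * L) + 2 * d + 1)
  obtain ⟨Kv, hKv⟩ := exists_nat_ge (V + 2 * L * g + 1)
  obtain ⟨K1, hK1⟩ := exists_nat_ge (128 * (d : ℝ))
  obtain ⟨K2, hK2⟩ := exists_nat_ge ((d + 1) * (3 * (d : ℝ) ^ 2 + S.Cv * Γm + 1) + 6 * (d : ℝ) ^ 2 + 2 * S.Cv * g + 10)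
  obtain ⟨K3, hK3⟩ := exists_nat_ge (2 * ((V : ℝ) + g) + 10)
  obtain ⟨K4, hK4⟩ := exists_nat_ge (4 * g / ε)
  obtain ⟨K, hK⟩ : ∃ K : ℕ, K = K1 + K2 + K3 + K4 + 16 * S.Cv + 8 * C3 * L + 128 := ⟨_, rfl⟩
  obtain ⟨k2, hk2⟩ := big S.a S.A S.a_big S.A_big (8 * C3 * L * K + L + K)
  refine ⟨δ, hδ, 1 / (8 * C3), by positivity, C3, Finset.card (Fintype.piFinset (fun _ : Fin d => Finset.Icc (-(Kw : ℤ)) Kw)) * Kv, hC30,
    k1 + k2 + S.k0, fun k hk m hm1 hm2 => ?_⟩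
  obtain ⟨b1, b2, b3⟩ := hk2 k (by omega)
  set F : Finset (Pos d × ℕ × ℕ) := (((Fintype.piFinset (fun _ : Fin d => Finset.Icc (-(Kw : ℤ)) Kw)) ×ˢ Finset.range Kv).image
    (fun p => (sc (m / L) p.1, (m / L) * p.2, ⌊(m : ℝ) - lev u (sc (m / L) p.1)⌋₊))).filter
    (fun f => kp S.a S.A k ≤ f.2.1 ∧ 2 * f.2.1 ≤ (2 ^ k) ^ 2 ∧ 1 / (8 * (C3 : ℝ)) * 2 ^ k ≤ f.2.2 ∧ 2 * f.2.2 ≤ 2 ^ k) with hF
  set q := m / L with hq
  have hr1 : 1 ≤ rr S.A k := Nat.one_le_two_pow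
  have hmn : m ≤ 2 ^ k := (Nat.le_mul_of_pos_left _ hC30).trans hm2
  have hmnr : (m : ℝ) ≤ 2 ^ k := by exact_mod_cast hmn
  have hr7 : 1 ≤ rr S.A k ^ (7 * S.a) := Nat.one_le_pow _ _ hr1
  have hKm : (8 * C3 * L * K + L + K : ℕ) ≤ 2 ^ k := (Nat.le_mul_of_pos_right _ hr7).trans b2
  have hCL : 1 ≤ C3 * L := Nat.mul_pos hC30 hL0
  have hK0 : 1 ≤ K := by omega
  have hLm : L ≤ m := by
    have h1 : ((8 * C3 * L * K + L + K : ℕ) : ℝ) ≤ 2 ^ k := by exact_mod_cast hKm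
    have h2 : ((8 * C3 * L * K + L + K : ℕ) : ℝ) ≤ 4 * C3 * m := h1.trans hm1
    have h3 : 8 * C3 * L * K + L + K ≤ 4 * C3 * m := by exact_mod_cast h2
    have h4 : 4 * C3 * L ≤ 4 * C3 * m := by nlinarith
    exact Nat.le_of_mul_le_mul_left h4 (by omega)
  have hq1 : q * L ≤ m := Nat.div_mul_le_self m L
  have hq2 : m < L * (q + 1) := Nat.lt_mul_div_succ m hL0
  have hq0 : 1 ≤ q := Nat.div_pos hLm hL0
  have hmq : m ≤ 2 * L * q := by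
    have : L * (q + 1) ≤ L * (2 * q) := Nat.mul_le_mul_left _ (by omega)
    calc m ≤ L * (2 * q) := hq2.le.trans this
      _ = 2 * L * q := by ring
  have hmqr : (m : ℝ) ≤ 2 * L * q := by exact_mod_cast hmq
  have hnq : (2 : ℝ) ^ k ≤ 8 * C3 * L * q := by
    calc (2 : ℝ) ^ k ≤ 4 * C3 * m := hm1
      _ ≤ 4 * C3 * (2 * L * q) := mul_le_mul_of_nonneg_left hmqr (by positivity)
      _ = 8 * C3 * L * q := by ring
  have hnqn : 2 ^ k ≤ 8 * C3 * L * q := by exact_mod_cast hnq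
  have c2 : K * rr S.A k ^ (7 * S.a) ≤ q := by
    have h1 : (8 * C3 * L) * (K * rr S.A k ^ (7 * S.a)) ≤ (8 * C3 * L) * q := by
      calc (8 * C3 * L) * (K * rr S.A k ^ (7 * S.a)) = (8 * C3 * L * K) * rr S.A k ^ (7 * S.a) := by ring
        _ ≤ (8 * C3 * L * K + L + K) * rr S.A k ^ (7 * S.a) := Nat.mul_le_mul_right _ (by omega)
        _ ≤ 2 ^ k := b2
        _ ≤ 8 * C3 * L * q := hnqn
    exact Nat.le_of_mul_le_mul_left h1 (by positivity)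
  have hCLr : (0 : ℝ) < 8 * C3 * L := by positivity
  have hb0 : (0 : ℝ) ≤ ((2 : ℝ) ^ k) ^ (3 / 4 : ℝ) := by positivity
  have c3 : (K : ℝ) * ((2 : ℝ) ^ k) ^ (3 / 4 : ℝ) ≤ q := by
    have h1 : (8 * C3 * L) * ((K : ℝ) * ((2 : ℝ) ^ k) ^ (3 / 4 : ℝ)) ≤ (8 * C3 * L) * q := by
      have h2 : (8 * C3 * L) * ((K : ℝ) * ((2 : ℝ) ^ k) ^ (3 / 4 : ℝ)) ≤
          ((8 * C3 * L * K + L + K : ℕ) : ℝ) * ((2 : ℝ) ^ k) ^ (3 / 4 : ℝ) := by
        have h3 : (8 * C3 * L) * ((K : ℝ) * ((2 : ℝ) ^ k) ^ (3 / 4 : ℝ)) =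
          (8 * C3 * L * K) * ((2 : ℝ) ^ k) ^ (3 / 4 : ℝ) := by ring
        rw [h3]
        apply mul_le_mul_of_nonneg_right _ hb0
        push_cast
        have : (0 : ℝ) ≤ L := Nat.cast_nonneg _
        have : (0 : ℝ) ≤ K := Nat.cast_nonneg _
        linarith
      linarith
    exact le_of_mul_le_mul_left h1 hCLr
  have c8 : 2 ^ k ≤ K * q := hnqn.trans (Nat.mul_le_mul_right _ (by omega))
  have hKr : (K : ℝ) = K1 + K2 + K3 + K4 + 16 * S.Cv + 8 * C3 * L + 128 := by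
    rw [hK]
    push_cast
    ring
  have hCv0 : (0 : ℝ) ≤ S.Cv := Nat.cast_nonneg _
  have z1 : (0 : ℝ) ≤ K1 := Nat.cast_nonneg _
  have z2 : (0 : ℝ) ≤ K2 := Nat.cast_nonneg _
  have z3 : (0 : ℝ) ≤ K3 := Nat.cast_nonneg _
  have z4 : (0 : ℝ) ≤ K4 := Nat.cast_nonneg _
  have z5 : (0 : ℝ) ≤ V := Nat.cast_nonneg _
  have hK4' : 4 * g ≤ ε * K := by
    have h1 : 4 * g / ε ≤ K := by linarith
    rw [div_le_iff₀ hε] at h1
    linarith
  have hKn : (K : ℝ) ≤ 2 ^ k := by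
    have : ((8 * C3 * L * K + L + K : ℕ) : ℝ) ≤ 2 ^ k := by exact_mod_cast hKm
    push_cast at this
    have h2 : (0 : ℝ) ≤ 8 * C3 * L * K + L := by positivity
    linarith
  have hqm : (q : ℝ) ≤ m := by
    have : q ≤ m := (Nat.le_mul_of_pos_right _ hL0).trans hq1
    exact_mod_cast this
  refine ⟨(V + 1) * q, F, ?_, ?_, ?_, ?_⟩
  · push_cast
    have h1 : ((V : ℝ) + 1) * q ≤ (V + 1) * 2 ^ k :=
      mul_le_mul_of_nonneg_left (hqm.trans hmnr) (by linarith)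
    have h2 : g * m ≤ g * 2 ^ k := mul_le_mul_of_nonneg_left hmnr hg.le
    have h3 : (1 : ℝ) ≤ 2 ^ k := one_le_pow₀ (by norm_num)
    have h4 : ((V : ℝ) + 1 + g + 1) * 2 ^ k ≤ 2 ^ k * 2 ^ k :=
      mul_le_mul_of_nonneg_right (by linarith) (by positivity)
    rw [sq]
    linarith
  · rw [hF]
    refine (Finset.card_filter_le _ _).trans (Finset.card_image_le.trans ?_)
    rw [Finset.card_product, Finset.card_range]
  · intro f hf
    rw [hF, Finset.mem_filter] at hf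
    exact hf.2
  · intro E hE 𝒰 hnet hu𝒰 Γ hΓ' hstep hfast
    obtain ⟨t, x, ht, hR, hx⟩ := hfast
    obtain ⟨w, v, hw, hv, d0, d1, d2, d3, d4⟩ := core S k (by omega) E hE u hu 𝒰 hu𝒰 Γ Γm hΓm hΓ' hstep C
      (((2 : ℝ) ^ k) ^ (3 / 4 : ℝ)) hC hb0
      (fun x y s t h0 h1 h2 h3 h4 h5 h6 h7 => (hreach k (by omega) E hE 𝒰 hnet Γ hΓ' hstep x y s t h0
        h1 h2 h3 h4 h5 h6).1 h7) g ε hg hε hε1 N V L m q K hN0 _ rfl (by linarith) hV hL' (by omega) c2 c3 hq1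
      hmn c8 hL0 (by linarith) (by linarith) (by linarith) hK4' (by
        have : (0 : ℝ) ≤ 8 * C3 * L := by positivity
        linarith) (by omega) C3 hC3 hm2 t x ht hR hx Kw Kv hmqr hKw hKv
    refine ⟨(sc q w, q * v, ⌊(m : ℝ) - lev u (sc q w)⌋₊), ?_, d4⟩
    rw [hF, Finset.mem_filter]
    refine ⟨?_, d0, d1, ?_, d3⟩
    · rw [Finset.mem_image]
      refine ⟨(w, v), ?_, rfl⟩
      rw [Finset.mem_product, Fintype.mem_piFinset, Finset.mem_range]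
      refine ⟨fun j => ?_, hv⟩
      rw [Finset.mem_Icc]
      have := hw j
      rw [abs_le] at this
      constructor
      · exact_mod_cast this.1
      · exact_mod_cast this.2
    · have hC3r : (0 : ℝ) < C3 := by exact_mod_cast hC30
      calc 1 / (8 * (C3 : ℝ)) * 2 ^ k ≤ 1 / (8 * (C3 : ℝ)) * (4 * C3 * m) :=
            mul_le_mul_of_nonneg_left hm1 (by positivity)
        _ = m / 2 := by
            field_simp
            ring
        _ ≤ _ := d2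


end ZP.Rows
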