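import Pool.Agent.ZP.F1
import Pool.Agent.ZP.S11

/-! # Row F2: the shape theorem for the process given by clocks (with recovery) -/

set_option autoImplicit false

open scoped ENNReal BigOperators Classical Pointwise
open MeasureTheory

noncomputable section

namespace ZP.Rows

open ZP

variable {d : ℕ} {m : Model} {δ : ℝ}

theorem shape_theorem {Ω : Type} [MeasurableSpace Ω] {P : Measure Ω} [IsProbabilityMeasure P]
    (hd : 0 < d) (hδ : 0 ≤ δ) (C : Clocks m δ d P)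
    {Cv a A r0 : ℕ} {c : ℝ} (hB : Base m δ d Cv a A r0 c) :
    ∃ B : Set (Fin d → ℝ), IsCompact B ∧ Convex ℝ B ∧ (interior B).Nonempty ∧
      ∀ ε : ℝ, 0 < ε → ε < 1 → ∀ᵐ ω ∂P, ω ∈ Surv C →
        ∃ T0 : ℝ, ∀ t : ℝ, T0 ≤ t → ∀ x : Pos d,
          ((fun j => (x j : ℝ)) ∈ ((1 - ε) * t) • B → x ∈ Iset C ω t) ∧
          (x ∈ Iset C ω t → (fun j => (x j : ℝ)) ∈ ((1 + ε) * t) • B) := by
  obtain ⟨S, hI, hS⟩ := sys_of_clocks hd hδ C hB
  obtain ⟨B, h1, h2, h3, h4⟩ := shape S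
  refine ⟨B, h1, h2, h3, ?_⟩
  intro ε hε hε1
  filter_upwards [h4 ε hε hε1] with ω hω h0
  obtain ⟨T0, hT⟩ := hω (hS ▸ h0)
  refine ⟨T0, fun t ht x => ?_⟩
  have h5 := hT t ht x
  rw [hI ω t] at h5
  exact h5

end ZP.Rows
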