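import Pool.Agent.ZP.Site

/-! # The sums over a set of sites: two fugacities, exponential separation -/

set_option autoImplicit false

open scoped ENNReal BigOperators Classical

noncomputable section

namespace ZPD

open ZI ZI.Rows ZI.R2aux ZP

/-- exponential moment of the sum over a set of sites -/
theorem prw_pow {V : Type} [Fintype V] (m1 : ℕ → ℝ≥0∞) (h1 : ∑' k, m1 k = 1) (S : Finset V)
    (b : ℝ≥0∞) :
    ∑' η : V → ℕ, prw m1 η * b ^ (∑ x ∈ S, η x) = (∑' k, m1 k * b ^ k) ^ S.card := by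
  have h := tsum_prod_aux V (fun y k => if y ∈ S then m1 k * b ^ k else m1 k)
  have h2 : ∏ y, ∑' k, (if y ∈ S then m1 k * b ^ k else m1 k) =
      (∑' k, m1 k * b ^ k) ^ S.card := by
    have h3 : ∀ y, ∑' k, (if y ∈ S then m1 k * b ^ k else m1 k) =
        if y ∈ S then (∑' k, m1 k * b ^ k) else 1 := fun y => by
      by_cases hy : y ∈ S
      · simp [hy]
      · simp [hy, h1]
    simp_rw [h3]
    rw [Finset.prod_ite, Finset.prod_const, Finset.prod_const_one, mul_one]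
    congr 1
    simp
  rw [h2] at h
  rw [← h]
  refine tsum_congr fun η => ?_
  unfold prw
  have h4 : ∏ x, (if x ∈ S then m1 (η x) * b ^ (η x) else m1 (η x)) =
      ∏ x, (m1 (η x) * (if x ∈ S then b ^ (η x) else 1)) := by
    refine Finset.prod_congr rfl fun x _ => ?_
    split_ifs <;> simp
  rw [h4, Finset.prod_mul_distrib]
  congr 1
  rw [Finset.prod_ite, Finset.prod_const_one, mul_one, ← Finset.prod_pow_eq_pow_sum]
  congr 1
  ext x
  simp

/-- the tilted moments -/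
theorem theta (m : Model) (φh : ℝ) (hφ : 0 < φh) : ∃ c : ℝ, 0 < c ∧ ∀ (φ1 φ2 : ℝ) (h1 : 0 < φ1)
    (h2 : 0 < φ2), φ2 ≤ φh → φ1 < φ2 → ∀ K : ℕ, 2 ≤ K → 2 * φh ≤ m.g K →
    (∑' k, (wf m φ2 h2).m1 K k * ENNReal.ofReal (Real.sqrt φ1 / Real.sqrt φ2) ^ k) *
      (∑' k, (wf m φ1 h1).m1 K k * ENNReal.ofReal (Real.sqrt φ2 / Real.sqrt φ1) ^ k) ≤
        ENNReal.ofReal (1 - c * (φ2 - φ1) ^ 2) ∧ c * (φ2 - φ1) ^ 2 ≤ 1 := by
  obtain ⟨c0, hc0, hz⟩ := zero_lb m φh hφ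
  have hGp : 0 < m.Gp := by have := m.le_Gp; linarith
  refine ⟨c0 ^ 2 / (8 * φh * m.Gp), by positivity, ?_⟩
  intro φ1 φ2 h1 h2 hle hlt K hK hb
  set a := Real.sqrt φ1 with ha
  set b := Real.sqrt φ2 with hb'
  have hap : 0 < a := Real.sqrt_pos.2 h1
  have hbp : 0 < b := Real.sqrt_pos.2 h2
  have ha2 : a ^ 2 = φ1 := Real.sq_sqrt h1.le
  have hb2 : b ^ 2 = φ2 := Real.sq_sqrt h2.le
  have hle1 : φ1 ≤ φh := by linarith
  have hz1 := hz φ1 h1 hle1 K hK hb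
  have hz2 := hz φ2 h2 hle K hK hb
  have hb1' : 2 * (wf m φ1 h1).φ ≤ (wf m φ1 h1).g K := by show 2 * φ1 ≤ m.g K; linarith
  have hb2' : 2 * (wf m φ2 h2).φ ≤ (wf m φ2 h2).g K := by show 2 * φ2 ≤ m.g K; linarith
  set Z1 := ∑' j, (wf m φ1 h1).wt K j with hZ1
  set Z2 := ∑' j, (wf m φ2 h2).wt K j with hZ2
  have hZ1p : 0 < Z1 := tsum_wt_pos (wf m φ1 h1) K hK hb1'
  have hZ2p : 0 < Z2 := tsum_wt_pos (wf m φ2 h2) K hK hb2'
  set W : ℕ → ℝ := fun k => ∏ i ∈ Finset.range k, m.gK K (i + 1) with hW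
  have hWp : ∀ k, 0 < W k := fun k => Finset.prod_pos fun i _ => gK_pos m K hK i
  have hw1 : ∀ k, (wf m φ1 h1).wt K k = φ1 ^ k / W k := fun k => rfl
  have hw2 : ∀ k, (wf m φ2 h2).wt K k = φ2 ^ k / W k := fun k => rfl
  set D : ℝ := (b - a) ^ 2 / (W 1 * Z1 * Z2) with hD
  have hW1 : W 1 = m.g 1 := by
    simp only [hW, Finset.prod_range_one]
    show m.g (min (0 + 1) K) = m.g 1
    rw [min_eq_left (by omega)]
  have hg1 : m.g 1 ≤ m.Gp := by
    have := m.inc_ub 0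
    rw [m.g0] at this
    simpa using this
  have hDp : 0 ≤ D := by
    have := hWp 1
    positivity
  -- the real inequality
  have key : ∀ k j : ℕ, 2 * (((wf m φ2 h2).wt K k / Z2 * (a / b) ^ k) *
      ((wf m φ1 h1).wt K j / Z1 * (b / a) ^ j)) + (if k = 1 ∧ j = 0 then D else 0) ≤
      ((wf m φ2 h2).wt K k / Z2) * ((wf m φ1 h1).wt K j / Z1) +
      ((wf m φ2 h2).wt K j / Z2) * ((wf m φ1 h1).wt K k / Z1) := by
    intro k j
    rw [hw1, hw2, hw1, hw2]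
    have e1 : φ2 ^ k / W k / Z2 * (a / b) ^ k = (b * a) ^ k / (W k * Z2) := by
      rw [← hb2, div_pow]
      have : b ^ k ≠ 0 := by positivity
      have := (hWp k).ne'
      field_simp
      ring
    have e2 : φ1 ^ j / W j / Z1 * (b / a) ^ j = (b * a) ^ j / (W j * Z1) := by
      rw [← ha2, div_pow]
      have : a ^ j ≠ 0 := by positivity
      have := (hWp j).ne'
      field_simp
      ring
    rw [e1, e2]
    have hWk := hWp k
    have hWj := hWp j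
    have e3 : (b * a) ^ k / (W k * Z2) * ((b * a) ^ j / (W j * Z1)) =
        ((b ^ k * a ^ j) * (b ^ j * a ^ k)) / (W k * W j * Z1 * Z2) := by
      field_simp
      ring
    have e4 : φ2 ^ k / W k / Z2 * (φ1 ^ j / W j / Z1) + φ2 ^ j / W j / Z2 * (φ1 ^ k / W k / Z1) =
        ((b ^ k * a ^ j) ^ 2 + (b ^ j * a ^ k) ^ 2) / (W k * W j * Z1 * Z2) := by
      rw [← ha2, ← hb2]
      field_simp
      ring
    rw [e3, e4]
    by_cases hkj : k = 1 ∧ j = 0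
    · obtain ⟨rfl, rfl⟩ := hkj
      rw [if_pos ⟨rfl, rfl⟩]
      have hW0 : W 0 = 1 := by simp [hW]
      rw [hD, hW0]
      simp only [pow_one, pow_zero, mul_one, one_mul]
      rw [mul_div_assoc', ← add_div]
      refine div_le_div_of_nonneg_right ?_ (by positivity)
      nlinarith
    · rw [if_neg hkj, add_zero, mul_div_assoc']
      refine div_le_div_of_nonneg_right ?_ (by positivity)
      nlinarith [sq_nonneg (b ^ k * a ^ j - b ^ j * a ^ k)]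
  -- the sums
  set T1 := ∑' k, (wf m φ2 h2).m1 K k * ENNReal.ofReal (a / b) ^ k with hT1
  set T2 := ∑' k, (wf m φ1 h1).m1 K k * ENNReal.ofReal (b / a) ^ k with hT2
  have hs1 := wf_tsum m φh φ1 h1 hle1 K hK hb
  have hs2 := wf_tsum m φh φ2 h2 hle K hK hb
  have hwt1 := wt_pos (wf m φ1 h1) K hK
  have hwt2 := wt_pos (wf m φ2 h2) K hK
  have hsum : 2 * (T1 * T2) + ENNReal.ofReal D ≤ 2 := by
    have e1 : T1 * T2 = ∑' k, ∑' j, ((wf m φ2 h2).m1 K k * ENNReal.ofReal (a / b) ^ k) *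
        ((wf m φ1 h1).m1 K j * ENNReal.ofReal (b / a) ^ j) := by
      rw [hT1, ← ENNReal.tsum_mul_right]
      refine tsum_congr fun k => ?_
      rw [hT2, ENNReal.tsum_mul_left]
    have e2 : ENNReal.ofReal D = ∑' k : ℕ, ∑' j : ℕ, (if k = 1 ∧ j = 0 then ENNReal.ofReal D else 0) := by
      rw [tsum_eq_single 1, tsum_eq_single 0]
      · simp
      · intro j hj
        simp [hj]
      · intro k hk
        simp [hk]
    have e3 : (2 : ℝ≥0∞) = ∑' k, ∑' j, ((wf m φ2 h2).m1 K k * (wf m φ1 h1).m1 K j +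
        (wf m φ2 h2).m1 K j * (wf m φ1 h1).m1 K k) := by
      have e4 : ∀ k, ∑' j, ((wf m φ2 h2).m1 K k * (wf m φ1 h1).m1 K j +
          (wf m φ2 h2).m1 K j * (wf m φ1 h1).m1 K k) =
          (wf m φ2 h2).m1 K k + (wf m φ1 h1).m1 K k := by
        intro k
        rw [ENNReal.tsum_add, ENNReal.tsum_mul_left, hs1, mul_one, ENNReal.tsum_mul_right, hs2,
          one_mul]
      rw [tsum_congr e4, ENNReal.tsum_add, hs1, hs2]
      norm_num
    rw [e1, e2]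
    conv_rhs => rw [e3]
    rw [← ENNReal.tsum_mul_left, ← ENNReal.tsum_add]
    refine ENNReal.tsum_le_tsum fun k => ?_
    rw [← ENNReal.tsum_mul_left, ← ENNReal.tsum_add]
    refine ENNReal.tsum_le_tsum fun j => ?_
    have e5 : ∀ i, (wf m φ2 h2).m1 K i = ENNReal.ofReal ((wf m φ2 h2).wt K i / Z2) := fun i => rfl
    have e6 : ∀ i, (wf m φ1 h1).m1 K i = ENNReal.ofReal ((wf m φ1 h1).wt K i / Z1) := fun i => rfl
    rw [e5, e5, e6, e6]
    have p1 : ∀ i, 0 ≤ (wf m φ1 h1).wt K i / Z1 := fun i => div_nonneg (hwt1 i).le hZ1p.le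
    have p2 : ∀ i, 0 ≤ (wf m φ2 h2).wt K i / Z2 := fun i => div_nonneg (hwt2 i).le hZ2p.le
    have q1 : (0 : ℝ) ≤ a / b := by positivity
    have q2 : (0 : ℝ) ≤ b / a := by positivity
    rw [← ENNReal.ofReal_pow q1, ← ENNReal.ofReal_pow q2, ← ENNReal.ofReal_mul (p2 k),
      ← ENNReal.ofReal_mul (p1 j), ← ENNReal.ofReal_mul (mul_nonneg (p2 k) (by positivity)),
      ← ENNReal.ofReal_mul (p2 k), ← ENNReal.ofReal_mul (p2 j),
      ← ENNReal.ofReal_add (mul_nonneg (p2 k) (p1 j)) (mul_nonneg (p2 j) (p1 k))]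
    have e7 : (if k = 1 ∧ j = 0 then ENNReal.ofReal D else 0) =
        ENNReal.ofReal (if k = 1 ∧ j = 0 then D else 0) := by
      split_ifs <;> simp
    rw [e7]
    have e8 : (2 : ℝ≥0∞) = ENNReal.ofReal 2 := by simp
    rw [e8, ← ENNReal.ofReal_mul (by norm_num), ← ENNReal.ofReal_add]
    · exact ENNReal.ofReal_le_ofReal (key k j)
    · have := p2 k
      have := p1 j
      positivity
    · split_ifs
      · exact hDp
      · exact le_rfl
  -- the lower bound for D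
  have hDl : 2 * (c0 ^ 2 / (8 * φh * m.Gp) * (φ2 - φ1) ^ 2) ≤ D := by
    have e1 : D = (b - a) ^ 2 * (1 / W 1) * (1 / Z1) * (1 / Z2) := by
      rw [hD]
      field_simp
    have e2 : (φ2 - φ1) ^ 2 ≤ (b - a) ^ 2 * (4 * φh) := by
      have e3 : (φ2 - φ1) ^ 2 = (b - a) ^ 2 * (b + a) ^ 2 := by
        rw [← ha2, ← hb2]
        ring
      rw [e3]
      refine mul_le_mul_of_nonneg_left ?_ (sq_nonneg _)
      have hab : a ≤ b := Real.sqrt_le_sqrt hlt.le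
      nlinarith
    have e4 : 1 / m.Gp ≤ 1 / W 1 := by
      refine one_div_le_one_div_of_le (hWp 1) ?_
      rw [hW1]
      exact hg1
    rw [e1]
    have e5 : (φ2 - φ1) ^ 2 / (4 * φh) ≤ (b - a) ^ 2 := by
      rw [div_le_iff₀ (by positivity)]
      exact e2
    calc 2 * (c0 ^ 2 / (8 * φh * m.Gp) * (φ2 - φ1) ^ 2)
        = ((φ2 - φ1) ^ 2 / (4 * φh)) * (1 / m.Gp) * c0 * c0 := by
          field_simp
          ring
      _ ≤ (b - a) ^ 2 * (1 / W 1) * (1 / Z1) * (1 / Z2) := by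
          have p0 : 0 ≤ (φ2 - φ1) ^ 2 / (4 * φh) := by positivity
          have p1 : 0 ≤ 1 / m.Gp := by positivity
          have p2 : 0 ≤ 1 / W 1 := by
            have := hWp 1
            positivity
          have p3 : 0 ≤ 1 / Z1 := by positivity
          exact mul_le_mul (mul_le_mul (mul_le_mul e5 e4 p1 (sq_nonneg _)) hz1 hc0.le
            (mul_nonneg (sq_nonneg _) p2)) hz2 hc0.le
            (mul_nonneg (mul_nonneg (sq_nonneg _) p2) p3)
  set y := c0 ^ 2 / (8 * φh * m.Gp) * (φ2 - φ1) ^ 2 with hy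
  have hfin : T1 * T2 ≠ ⊤ := by
    intro h
    rw [h] at hsum
    simp at hsum
  have hreal : 2 * (T1 * T2).toReal + D ≤ 2 := by
    rw [← ENNReal.ofReal_toReal hfin] at hsum
    have e8 : (2 : ℝ≥0∞) = ENNReal.ofReal 2 := by simp
    rw [e8, ← ENNReal.ofReal_mul (by norm_num), ← ENNReal.ofReal_add (by positivity) hDp,
      ENNReal.ofReal_le_ofReal_iff (by norm_num)] at hsum
    exact hsum
  have hnn : 0 ≤ (T1 * T2).toReal := ENNReal.toReal_nonneg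
  constructor
  · rw [← ENNReal.ofReal_toReal hfin]
    refine ENNReal.ofReal_le_ofReal ?_
    linarith
  · linarith

/-- the gap -/
theorem gap (m : Model) (φh : ℝ) (hφ : 0 < φh) : ∃ c : ℝ, 0 < c ∧ ∀ (φ1 φ2 : ℝ) (h1 : 0 < φ1)
    (h2 : 0 < φ2), φ2 ≤ φh → φ1 < φ2 → ∀ K : ℕ, 2 ≤ K → 2 * φh ≤ m.g K →
    ∀ (V : Type) [Fintype V] (S : Finset V), ∃ A B : (V → ℕ) → Prop,
      (∀ η ζ : V → ℕ, ∑ x ∈ S, η x ≤ ∑ x ∈ S, ζ x → A η ∨ B ζ) ∧
      (∑' η : V → ℕ, prw ((wf m φ2 h2).m1 K) η * (if A η then 1 else 0) ≤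
        ENNReal.ofReal (Real.exp (- (c * (φ2 - φ1) ^ 2 * S.card)))) ∧
      (∑' ζ : V → ℕ, prw ((wf m φ1 h1).m1 K) ζ * (if B ζ then 1 else 0) ≤
        ENNReal.ofReal (Real.exp (- (c * (φ2 - φ1) ^ 2 * S.card)))) := by
  obtain ⟨c, hc, hθ⟩ := theta m φh hφ
  refine ⟨c / 2, by positivity, ?_⟩
  intro φ1 φ2 h1 h2 hle hlt K hK hb V _ S
  obtain ⟨hT, hc1⟩ := hθ φ1 φ2 h1 h2 hle hlt K hK hb
  have hle1 : φ1 ≤ φh := by linarith
  have hs1 := wf_tsum m φh φ1 h1 hle1 K hK hb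
  have hs2 := wf_tsum m φh φ2 h2 hle K hK hb
  have hap : 0 < Real.sqrt φ1 := Real.sqrt_pos.2 h1
  have hbp : 0 < Real.sqrt φ2 := Real.sqrt_pos.2 h2
  have hab : Real.sqrt φ1 ≤ Real.sqrt φ2 := Real.sqrt_le_sqrt hlt.le
  set t : ℝ≥0∞ := ENNReal.ofReal (Real.sqrt φ1 / Real.sqrt φ2) with ht
  set s : ℝ≥0∞ := ENNReal.ofReal (Real.sqrt φ2 / Real.sqrt φ1) with hs
  have hts : s * t = 1 := by
    rw [hs, ht, ← ENNReal.ofReal_mul (by positivity)]
    have : Real.sqrt φ2 / Real.sqrt φ1 * (Real.sqrt φ1 / Real.sqrt φ2) = 1 := by field_simp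
    rw [this, ENNReal.ofReal_one]
  have hs_one : 1 ≤ s := by
    rw [hs, ENNReal.one_le_ofReal]
    rw [le_div_iff₀ hap, one_mul]
    exact hab
  set T1 := ∑' k, (wf m φ2 h2).m1 K k * t ^ k with hT1
  set T2 := ∑' k, (wf m φ1 h1).m1 K k * s ^ k with hT2
  set y := c * (φ2 - φ1) ^ 2 with hy
  have hy0 : 0 ≤ y := by positivity
  set θ : ℝ≥0∞ := ENNReal.ofReal (1 - y / 2) with hθ'
  have hθp : 0 < 1 - y / 2 := by linarith
  have hθ0 : θ ≠ 0 := by
    rw [hθ', ENNReal.ofReal_ne_zero_iff]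
    exact hθp
  have hθt : θ ≠ ⊤ := ENNReal.ofReal_ne_top
  have hθ2 : ENNReal.ofReal (1 - y) ≤ θ * θ := by
    rw [hθ', ← ENNReal.ofReal_mul hθp.le]
    refine ENNReal.ofReal_le_ofReal ?_
    nlinarith
  have hθe : ∀ n : ℕ, θ ^ n ≤ ENNReal.ofReal (Real.exp (- (c / 2 * (φ2 - φ1) ^ 2 * n))) := by
    intro n
    rw [hθ', ← ENNReal.ofReal_pow hθp.le]
    refine ENNReal.ofReal_le_ofReal ?_
    have e1 : 1 - y / 2 ≤ Real.exp (-(y / 2)) := by
      have := Real.add_one_le_exp (-(y / 2))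
      linarith
    calc (1 - y / 2) ^ n ≤ (Real.exp (-(y / 2))) ^ n := pow_le_pow_left₀ hθp.le e1 n
      _ = Real.exp (- (c / 2 * (φ2 - φ1) ^ 2 * n)) := by
          rw [← Real.exp_nat_mul]
          congr 1
          rw [hy]
          ring
  -- `T1`, `T2` are positive and finite
  have hT2one : 1 ≤ T2 := by
    rw [← hs1, hT2]
    refine ENNReal.tsum_le_tsum fun k => ?_
    exact le_mul_of_one_le_right zero_le (one_le_pow₀ hs_one)
  have hT20 : T2 ≠ 0 := (lt_of_lt_of_le zero_lt_one hT2one).ne'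
  have hT10 : T1 ≠ 0 := by
    have e1 : (wf m φ2 h2).m1 K 0 * t ^ 0 ≤ T1 :=
      ENNReal.le_tsum (f := fun k => (wf m φ2 h2).m1 K k * t ^ k) 0
    rw [pow_zero, mul_one] at e1
    have e2 : (wf m φ2 h2).m1 K 0 ≠ 0 := by
      unfold Model.m1
      rw [ENNReal.ofReal_ne_zero_iff]
      exact div_pos (wt_pos (wf m φ2 h2) K hK 0)
        (tsum_wt_pos (wf m φ2 h2) K hK (by show 2 * φ2 ≤ m.g K; linarith))
    intro h
    rw [h] at e1
    exact e2 (le_antisymm e1 zero_le)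
  have hTT : T1 * T2 ≠ ⊤ := ne_top_of_le_ne_top ENNReal.ofReal_ne_top hT
  have hT2t : T2 ≠ ⊤ := by
    intro h
    rw [h, ENNReal.mul_top hT10] at hTT
    exact hTT rfl
  set n := S.card with hn
  set u : ℝ≥0∞ := (T2 / θ) ^ n with hu
  have hu0 : u ≠ 0 := by
    rw [hu]
    refine pow_ne_zero n ?_
    exact (ENNReal.div_pos hT20 hθt).ne'
  have hut : u ≠ ⊤ := by
    rw [hu]
    exact ENNReal.pow_ne_top (ENNReal.div_ne_top hT2t hθ0)
  obtain ⟨A, hA⟩ : ∃ A : (V → ℕ) → Prop, ∀ η, A η ↔ s ^ (∑ x ∈ S, η x) ≤ u :=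
    ⟨fun η => s ^ (∑ x ∈ S, η x) ≤ u, fun _ => Iff.rfl⟩
  obtain ⟨B, hB⟩ : ∃ B : (V → ℕ) → Prop, ∀ ζ, B ζ ↔ u ≤ s ^ (∑ x ∈ S, ζ x) :=
    ⟨fun ζ => u ≤ s ^ (∑ x ∈ S, ζ x), fun _ => Iff.rfl⟩
  refine ⟨A, B, ?_, ?_, ?_⟩
  · intro η ζ hηζ
    rcases le_total (s ^ (∑ x ∈ S, η x)) u with h | h
    · exact Or.inl ((hA η).2 h)
    · exact Or.inr ((hB ζ).2 (h.trans (pow_le_pow_right₀ hs_one hηζ)))
  · have e1 : ∀ η : V → ℕ, prw ((wf m φ2 h2).m1 K) η *
        (if A η then (1 : ℝ≥0∞) else 0) ≤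
        u * (prw ((wf m φ2 h2).m1 K) η * t ^ (∑ x ∈ S, η x)) := by
      intro η
      by_cases h' : A η
      · have h := (hA η).1 h'
        rw [if_pos h', mul_one]
        have e2 : 1 ≤ u * t ^ (∑ x ∈ S, η x) := by
          calc (1 : ℝ≥0∞) = s ^ (∑ x ∈ S, η x) * t ^ (∑ x ∈ S, η x) := by
                rw [← mul_pow, hts, one_pow]
            _ ≤ u * t ^ (∑ x ∈ S, η x) := mul_le_mul_left h _
        calc prw ((wf m φ2 h2).m1 K) η = prw ((wf m φ2 h2).m1 K) η * 1 := (mul_one _).symm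
          _ ≤ prw ((wf m φ2 h2).m1 K) η * (u * t ^ (∑ x ∈ S, η x)) := mul_le_mul_right e2 _
          _ = _ := by ring
      · rw [if_neg h', mul_zero]
        exact zero_le
    refine (ENNReal.tsum_le_tsum e1).trans ?_
    rw [ENNReal.tsum_mul_left, prw_pow _ hs2 S t, ← hT1, ← hn, hu]
    refine le_trans ?_ (hθe n)
    rw [← mul_pow]
    refine pow_le_pow_left' ?_ n
    have e3 : T2 / θ * T1 = (T1 * T2) / θ := by
      rw [div_eq_mul_inv, div_eq_mul_inv]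
      ring
    rw [e3, ENNReal.div_le_iff hθ0 hθt]
    exact hT.trans hθ2
  · have e1 : ∀ ζ : V → ℕ, prw ((wf m φ1 h1).m1 K) ζ *
        (if B ζ then (1 : ℝ≥0∞) else 0) ≤
        u⁻¹ * (prw ((wf m φ1 h1).m1 K) ζ * s ^ (∑ x ∈ S, ζ x)) := by
      intro ζ
      by_cases h' : B ζ
      · have h := (hB ζ).1 h'
        rw [if_pos h', mul_one]
        have e2 : 1 ≤ u⁻¹ * s ^ (∑ x ∈ S, ζ x) := by
          calc (1 : ℝ≥0∞) = u⁻¹ * u := (ENNReal.inv_mul_cancel hu0 hut).symm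
            _ ≤ u⁻¹ * s ^ (∑ x ∈ S, ζ x) := mul_le_mul_right h _
        calc prw ((wf m φ1 h1).m1 K) ζ = prw ((wf m φ1 h1).m1 K) ζ * 1 := (mul_one _).symm
          _ ≤ prw ((wf m φ1 h1).m1 K) ζ * (u⁻¹ * s ^ (∑ x ∈ S, ζ x)) := mul_le_mul_right e2 _
          _ = _ := by ring
      · rw [if_neg h', mul_zero]
        exact zero_le
    refine (ENNReal.tsum_le_tsum e1).trans ?_
    rw [ENNReal.tsum_mul_left, prw_pow _ hs1 S s, ← hT2, ← hn, hu]
    refine le_trans (le_of_eq ?_) (hθe n)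
    rw [ENNReal.inv_pow, ← mul_pow]
    congr 1
    rw [ENNReal.inv_div (Or.inl hθt) (Or.inl hθ0), ENNReal.div_mul_cancel hT20 hT2t]

end ZPD
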