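import Pool.Agent.ZP.NMOf
import Pool.Agent.ZP.BU
import Pool.Agent.ZP.BKa

/-! # Row NU: not being in a hub, constants polynomial in the fugacity -/

set_option autoImplicit false

open scoped ENNReal BigOperators Classical Pointwise

noncomputable section

namespace ZP.Rows

open ZP ZP.NM

/-- not being in a hub, letters version, at nearby fugacities; constants polynomial in the fugacity -/
theorem nmemb_prob_u (m : Model) (d : ℕ) (hd : 0 < d) : ∃ α0 : ℕ, ∀ α ≥ α0, ∀ γ ≥ α + 20, ∃ C0 : ℕ,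
    ∀ A : Prm, A.α = α → A.γ = γ → A.L ≤ A.τ → A.τ ≤ A.L ^ 2 → ∀ (φ0 : ℝ) (h0 : 0 < φ0), 2 ≤ φ0 →
    C0 * φ0 ^ C0 ≤ (A.L : ℝ) → ∀ (δ : ℝ) (q : Par d (wf m φ0 h0) δ)
    (n : ℕ), q.Tiny n → 4 * φ0 ≤ m.g q.K → ∀ p0 : ℝ, 0 ≤ p0 → (A.L : ℝ) ^ (CstU d A) * p0 ≤ 1 →
    (∀ (hφ : 0 < φ0 / 2) (hK : 2 * (φ0 / 2) ≤ m.g q.K),
      (q.wf (φ0 / 2) hφ hK).PP (A.τ * q.N1) (fun η w => ¬ Opn q.N1 A.L A.τ η w) ≤
        ENNReal.ofReal p0) →
    ∀ k : ℕ, A.S k ≤ n → 100 * A.S k + 10 * A.L ^ 2 ≤ q.M →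
    ∀ (φ' : ℝ) (h' : 0 < φ') (hK' : 2 * φ' ≤ m.g q.K), 7 / 8 * φ0 ≤ φ' → φ' ≤ 9 / 8 * φ0 →
    ∀ (b : Bool) (c : Pos d),
    (q.wf φ' h' hK').PP (8 * A.T d k * q.N1) (NMemb q.N1 A b k c) ≤ ENNReal.ofReal (1 / 64) := by
  obtain ⟨α0, hα0⟩ := bad_prob_u m d hd
  refine ⟨α0, fun α hα γ hγ => ?_⟩
  obtain ⟨C1, hL1⟩ := hα0 α hα γ hγ
  obtain ⟨L2, hL2, hsum⟩ := sum_le d α γ (by omega)
  refine ⟨max C1 L2, ?_⟩
  intro A hAα hAγ hτ hτ2 φ0 h0 h20 hL δ q n hT hg p0 hp0 hp1 hopn k hk hM φ' h' hK' h7 h9 b c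
  have hmx : ∀ C : ℕ, C ≤ max C1 L2 → C * φ0 ^ C ≤ (A.L : ℝ) := by
    intro C hC
    refine le_trans ?_ hL
    have h1 : (C : ℝ) ≤ ((max C1 L2 : ℕ) : ℝ) := by exact_mod_cast hC
    have h2 : φ0 ^ C ≤ φ0 ^ (max C1 L2) := pow_le_pow_right₀ (by linarith) hC
    exact mul_le_mul h1 h2 (by positivity) (by positivity)
  have hLC1 := hmx C1 (le_max_left _ _)
  have hL2' : L2 ≤ A.L := by
    have h1 := hmx L2 (le_max_right _ _)
    have h2 : (1 : ℝ) ≤ φ0 ^ L2 := one_le_pow₀ (by linarith)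
    have h3 : (L2 : ℝ) ≤ L2 * φ0 ^ L2 := le_mul_of_one_le_right (by positivity) h2
    exact_mod_cast h3.trans h1
  have hLd : 1000 * (d + 1) ≤ A.L := hL2.trans hL2'
  have hγ12 : A.α + 12 ≤ A.γ := by omega
  have hSk : ∀ l < k, A.S l ≤ A.S k := fun l hl => S_mono A (by omega) (by omega) hl.le
  have hLL : 10 ≤ A.L ^ 2 := by nlinarith
  have hMl : ∀ l < k, 12 * A.S l + 4 * A.L ^ 2 + 10 ≤ q.M := by
    intro l hl
    have := hSk l hl
    omega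
  have hbad : ∀ l < k, (q.wf φ' h' hK').PP (6 * A.T d l * q.N1)
      (if b then BadP q.N1 A l else BadM q.N1 A l) ≤
      ENNReal.ofReal (if l = 0 then p0 + Real.exp (-(A.L : ℝ)) else Real.exp (-(A.S (l - 1) : ℝ))) := by
    intro l hl
    obtain ⟨h1, h2⟩ := hL1 A hAα hAγ hτ hτ2 φ0 h0 h20 hLC1 δ q n hT hg p0 hp0 hp1 hopn
      l ((hSk l hl).trans hk) (by have := hSk l hl; omega) φ' h' hK' h7 h9
    cases b with
    | false => simpa using h1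
    | true =>
      refine le_trans (by simpa using h2) (ENNReal.ofReal_le_ofReal ?_)
      split_ifs with h0
      · positivity
      · exact le_rfl
  have hmain := nmemb_le (q.wf φ' h' hK') hd A (by omega) hγ12 k b c
    (fun l => if b then BadP q.N1 A l else BadM q.N1 A l) (fun l => rfl)
    (fun l => Bt (0 : Tor d q.M) (6 * A.S l + A.L ^ 2 + 1))
    (fun l hl => by
      cases b with
      | false =>
        exact DecE.loc _ (badM_dec (M := q.M) (K := q.K) q.N1 A hLd hγ12 l (hMl l hl))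
      | true =>
        exact IncE.loc _ (badP_inc (M := q.M) (K := q.K) q.N1 A hLd hγ12 l (hMl l hl)))
    (fun l => ENNReal.ofReal (if l = 0 then p0 + Real.exp (-(A.L : ℝ)) else
      Real.exp (-(A.S (l - 1) : ℝ)))) hbad
  refine le_trans hmain ?_
  have hnn : ∀ l : ℕ, 0 ≤ (if l = 0 then p0 + Real.exp (-(A.L : ℝ)) else
      Real.exp (-(A.S (l - 1) : ℝ))) := by
    intro l
    split_ifs <;> positivity
  have h3 : ∑ l ∈ Finset.range k, ((2 * A.D l + 1) ^ (d + 1) : ℕ) *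
      ENNReal.ofReal (if l = 0 then p0 + Real.exp (-(A.L : ℝ)) else
        Real.exp (-(A.S (l - 1) : ℝ))) =
      ENNReal.ofReal (∑ l ∈ Finset.range k, (((2 * A.D l + 1) ^ (d + 1) : ℕ) : ℝ) *
        (if l = 0 then p0 + Real.exp (-(A.L : ℝ)) else Real.exp (-(A.S (l - 1) : ℝ)))) := by
    rw [ENNReal.ofReal_sum_of_nonneg fun l _ => mul_nonneg (Nat.cast_nonneg _) (hnn l)]
    refine Finset.sum_congr rfl fun l _ => ?_
    rw [ENNReal.ofReal_mul (Nat.cast_nonneg _), ENNReal.ofReal_natCast]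
  rw [h3]
  exact ENNReal.ofReal_le_ofReal (hsum A hAα hAγ hL2' p0 hp0 hp1 k)

end ZP.Rows
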