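import Pool.Agent.ZP.T1c
import Pool.Agent.ZP.T1
import Pool.Agent.ZP.BU
import Pool.Agent.ZP.NU
import Pool.Agent.ZP.BB
import Pool.Agent.ZP.D2
import Pool.Agent.ZI.P3

/-! # Row T1U: the good event for large densities and all recovery rates; the constants -/

set_option autoImplicit false

open scoped ENNReal BigOperators Classical

noncomputable section

namespace ZP.Rows

open ZP ZP.T1

theorem good_whp_u (m : Model) (d : ℕ) (hd : 0 < d) : ∃ φ1 : ℝ, 0 < φ1 ∧ ∀ (φ0 : ℝ) (h0 : 0 < φ0), φ1 ≤ φ0 →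
    ∃ Cv a0 : ℕ, ∃ c : ℝ, 0 < c ∧
    ∀ δ : ℝ, ∀ a ≥ a0, ∀ A : ℕ, 4 * a ≤ A → ∃ r0 : ℕ, ∀ r ≥ r0, ∀ n : ℕ,
    r ^ A ≤ n → n ≤ (2 * r) ^ A → ∀ q : Par d (wf m φ0 h0) δ, q.M = n ^ 4 → q.Tiny n →
    q.PP (n ^ 2 * q.N1) (fun η l => ¬ (envT q η l).Good r (r ^ a) Cv (n ^ 2) (n ^ 2)) ≤
      ENNReal.ofReal (Real.exp (- c * r)) := by
  obtain ⟨α1, hbad⟩ := bad_prob_u m d hd
  obtain ⟨α2, hnm⟩ := nmemb_prob_u m d hd
  obtain ⟨C1, hbad⟩ := hbad (max α1 α2) (le_max_left _ _) (max α1 α2 + 20) le_rfl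
  obtain ⟨C2, hnm⟩ := hnm (max α1 α2) (le_max_right _ _) (max α1 α2 + 20) le_rfl
  obtain ⟨φ1, hφ1, hbase⟩ := base_big m d hd (3 * (d + 1) * (max α1 α2 + 20 + 1))
    (max (max C1 C2) (1000 * (d + 1) * 3 ^ d))
  refine ⟨φ1, by linarith, fun φ0 h0 hφ0 => ?_⟩
  obtain ⟨L, τ, hL, hL3', hτ1, hτ2, hbase⟩ := hbase φ0 h0 hφ0
  have hL3 : 1000 * (d + 1) * 3 ^ d ≤ L := (le_max_right _ _).trans hL3'
  have h20 : 2 ≤ φ0 := hφ1.trans hφ0
  have hmono : ∀ C : ℕ, C ≤ max (max C1 C2) (1000 * (d + 1) * 3 ^ d) → C * φ0 ^ C ≤ (L : ℝ) := by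
    intro C hC
    refine le_trans ?_ hL
    have h1 : (C : ℝ) ≤ ((max (max C1 C2) (1000 * (d + 1) * 3 ^ d) : ℕ) : ℝ) := by exact_mod_cast hC
    have h2 : φ0 ^ C ≤ φ0 ^ (max (max C1 C2) (1000 * (d + 1) * 3 ^ d)) :=
      pow_le_pow_right₀ (by linarith) hC
    exact mul_le_mul h1 h2 (by positivity) (by positivity)
  have hLC1 := hmono C1 ((le_max_left _ _).trans (le_max_left _ _))
  have hLC2 := hmono C2 ((le_max_right _ _).trans (le_max_left _ _))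
  set A : Prm := ⟨L, τ, max α1 α2 + 20, max α1 α2⟩ with hA
  have hcore := good_core (wf m φ0 h0) d hd A Set.univ hL3 rfl hτ1 hτ2 (by
    intro δ _ q n hT hn hφK hM
    have hbs := hbase δ q n hT hn hφK hM
    have hp0 : (A.L : ℝ) ^ (CstU d A) * (1 / (L : ℝ) ^ (3 * (d + 1) * (max α1 α2 + 20 + 1))) ≤ 1 := by
      have h1 : CstU d A = 3 * (d + 1) * (max α1 α2 + 20 + 1) := rfl
      have h2 : (0 : ℝ) < (L : ℝ) ^ (3 * (d + 1) * (max α1 α2 + 20 + 1)) := by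
        have h3 : 0 < 1000 * (d + 1) * 3 ^ d := by positivity
        have : (0 : ℝ) < L := by exact_mod_cast (show 0 < L by omega)
        positivity
      rw [h1, mul_one_div, div_self h2.ne']
    have hp00 : (0 : ℝ) ≤ 1 / (L : ℝ) ^ (3 * (d + 1) * (max α1 α2 + 20 + 1)) := by positivity
    have hbadk := hbad A rfl rfl hτ1 hτ2 φ0 h0 h20 hLC1 δ q n hT hφK _ hp00 hp0 hbs.1
    have hnmk := hnm A rfl rfl hτ1 hτ2 φ0 h0 h20 hLC2 δ q n hT hφK _ hp00 hp0 hbs.1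
    refine ⟨fun k hk hSn hMk => ⟨?_, hnmk k hSn hMk⟩, hbs.2⟩
    have hk0 : k ≠ 0 := by omega
    have h := hbadk k hSn hMk φ0 h0 q.K_big (by linarith) (by linarith)
    rw [if_neg hk0, if_neg hk0] at h
    exact h)
  obtain ⟨Cv, a0, hcore⟩ := hcore
  refine ⟨Cv, a0, 1 / 2, by norm_num, ?_⟩
  intro δ a ha A' hA'
  exact hcore δ (Set.mem_univ _) a ha A' hA'

/-- the constants for large densities -/
theorem base_exists_u (m : Model) (d : ℕ) (hd : 0 < d) : ∃ φ1 : ℝ, 0 < φ1 ∧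
    ∀ (φ0 : ℝ) (h0 : 0 < φ0), φ1 ≤ φ0 → ∀ δ : ℝ,
    ∃ (Cv a A r0 : ℕ) (c : ℝ), Base (wf m φ0 h0) δ d Cv a A r0 c := by
  obtain ⟨φ1, hφ1, hgood⟩ := good_whp_u m d hd
  refine ⟨φ1, hφ1, fun φ0 h0 hφ0 δ => ?_⟩
  obtain ⟨Cv0, a0, c, hc, hgood⟩ := hgood φ0 h0 hφ0
  obtain ⟨a, ha, A0, hfacts⟩ := block_facts d hd (Cv0 + 1) (max a0 10)
  have ha0 : a0 ≤ a := (le_max_left _ _).trans ha
  have ha10 : 10 ≤ a := (le_max_right _ _).trans ha
  obtain ⟨r1, h1⟩ := hgood δ a ha0 (max A0 (1000 * a))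
    (by have := le_max_right A0 (1000 * a); omega)
  obtain ⟨r2, h2⟩ := hfacts (max A0 (1000 * a)) (le_max_left _ _)
  refine ⟨Cv0 + 1, a, max A0 (1000 * a), max (max r1 r2) 10, c, ?_⟩
  refine
    { d_pos := hd
      c_pos := hc
      Cv_pos := Nat.succ_pos _
      a_big := ha10
      A_big := le_max_right _ _
      r0_big := le_max_right _ _
      good := ?_
      facts := ?_ }
  · intro r hr n hn1 hn2 q hM hT
    refine le_trans (PP_mono q _ fun η l _ hG hG' => hG (good_Cv (Nat.le_succ Cv0) hG'))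
      (h1 r ((le_max_left _ _).trans ((le_max_left _ _).trans hr)) n hn1 hn2 q hM hT)
  · intro r hr n hn E hE u hu m' hm1 hm2 z s hs hs'
    exact h2 r ((le_max_right _ _).trans ((le_max_left _ _).trans hr)) n hn E hE u hu m' hm1 hm2 z s
      hs hs'

/-- the density is at most `φ / Gm` -/
theorem dens_le (m : Model) : m.Gm * (∑' k : ℕ, (k : ℝ) * m.wt0 k) ≤ m.φ * ∑' k : ℕ, m.wt0 k := by
  have hGm := m.Gm_pos
  have hφ := m.φ_pos
  have hg : ∀ k : ℕ, m.Gm * k ≤ m.g k := ZI.F1c.g_lb m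
  have hgp : ∀ k : ℕ, 0 < m.g (k + 1) := by
    intro k
    have h1 := hg (k + 1)
    have h2 : (0 : ℝ) < m.Gm * ((k + 1 : ℕ) : ℝ) := by positivity
    linarith
  have hw : ∀ k, 0 < m.wt0 k := by
    intro k
    unfold ZI.Model.wt0
    exact div_pos (pow_pos hφ k) (Finset.prod_pos fun i _ => hgp i)
  have hstep : ∀ k : ℕ, m.wt0 (k + 1) * m.g (k + 1) = m.φ * m.wt0 k := by
    intro k
    unfold ZI.Model.wt0
    rw [Finset.prod_range_succ, pow_succ]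
    have h1 : (∏ i ∈ Finset.range k, m.g (i + 1)) ≠ 0 := (Finset.prod_pos fun i _ => hgp i).ne'
    have h2 := (hgp k).ne'
    field_simp
  have hterm : ∀ k : ℕ, m.Gm * (((k + 1 : ℕ) : ℝ) * m.wt0 (k + 1)) ≤ m.φ * m.wt0 k := by
    intro k
    rw [← hstep k]
    have h1 := hg (k + 1)
    have h2 := (hw (k + 1)).le
    nlinarith
  have hs : Summable m.wt0 := ZI.P3aux.summable_wt0 m
  by_cases hsum : Summable (fun k : ℕ => (k : ℝ) * m.wt0 k)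
  · have h1 : ∑' k : ℕ, (k : ℝ) * m.wt0 k = ∑' k : ℕ, ((k + 1 : ℕ) : ℝ) * m.wt0 (k + 1) := by
      rw [hsum.tsum_eq_zero_add]
      simp
    have hsum' : Summable (fun k : ℕ => ((k + 1 : ℕ) : ℝ) * m.wt0 (k + 1)) :=
      (summable_nat_add_iff 1).2 hsum
    rw [h1, ← tsum_mul_left, ← tsum_mul_left]
    exact (hsum'.mul_left _).tsum_le_tsum hterm (hs.mul_left _)
  · rw [tsum_eq_zero_of_not_summable hsum, mul_zero]
    have : 0 ≤ ∑' k, m.wt0 k := tsum_nonneg fun k => (hw k).le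
    positivity

end ZP.Rows
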