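import Pool.Agent.ZP.F2
import Pool.Agent.ZP.POS
import Pool.Agent.ZP.EX
import Pool.Agent.ZP.T1U
import Pool.Agent.ZI.Phi

/-! # Shape theorem for the infection on the zero-range process, large densities, all finite recovery rates

`Model`: the rate function `g` with `g 0 = 0` and increments in `[Gm, Gp]`, `0 < Gm ≤ 1 ≤ Gp`, and the fugacity
`φ > 0` of the invariant product measure.  `Clocks m δ d P`: the graphical construction on a probability space
with the recovery rate `δ` (independent Poisson clocks and an independent initial configuration with the invariant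
product law).  `infd C ω t`: the infected sites at the time `t`; at the time `0` the particles at the origin are
infected; an infected particle that is alone at its site recovers at the rate `δ`.  `Surv C`: at every time there is
an infected particle.  `Iset C ω t`: the sites that contain an infected particle at some time in `[0, t]`.
-/

set_option autoImplicit false

open scoped ENNReal BigOperators Classical Pointwise
open MeasureTheory ZP

noncomputable section

namespace Pool.Agent.Results.MP_646828_pr.HighDensity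

/-- the density of the invariant product measure of fugacity `m.φ` -/
def dens (m : Model) : ℝ := (∑' k : ℕ, (k : ℝ) * m.wt0 k) / ∑' k : ℕ, m.wt0 k

/-- The shape theorem for large densities: for every dimension `d ≥ 1` and every rate function there is a density
`ρ1` such that for every density `ρ ≥ ρ1` and EVERY finite recovery rate `δ ≥ 0` the following holds.  The density
`ρ` is attained by some fugacity; the clocks exist; the infection survives with positive probability; and there is a
deterministic shape `B`: almost surely on the event of survival the visited set has the asymptotic shape `B`. -/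
theorem result (d : ℕ) (hd : 0 < d) (g : ℕ → ℝ) (Gm Gp : ℝ) (g0 : g 0 = 0) (hGm : 0 < Gm)
    (hGm1 : Gm ≤ 1) (hGp : 1 ≤ Gp) (hlb : ∀ k, Gm ≤ g (k + 1) - g k)
    (hub : ∀ k, g (k + 1) - g k ≤ Gp) : ∃ ρ1 : ℝ, 0 < ρ1 ∧ ∀ ρ : ℝ, ρ1 ≤ ρ →
    (∃ m : Model, m.g = g ∧ m.Gm = Gm ∧ m.Gp = Gp ∧ dens m = ρ) ∧
    ∀ m : Model, m.g = g → m.Gm = Gm → m.Gp = Gp → dens m = ρ → ∀ δ : ℝ, 0 ≤ δ →
      (∃ (Ω : Type) (_ : MeasurableSpace Ω) (P : Measure Ω) (_ : IsProbabilityMeasure P),
        Nonempty (Clocks m δ d P)) ∧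
      ∀ (Ω : Type) [MeasurableSpace Ω] (P : Measure Ω) [IsProbabilityMeasure P]
        (C : Clocks m δ d P), 0 < P (Surv C) ∧
        ∃ B : Set (Fin d → ℝ), IsCompact B ∧ Convex ℝ B ∧ (interior B).Nonempty ∧
          ∀ ε : ℝ, 0 < ε → ε < 1 → ∀ᵐ ω ∂P, ω ∈ Surv C →
            ∃ T0 : ℝ, ∀ t : ℝ, T0 ≤ t → ∀ x : Pos d,
              ((fun j => (x j : ℝ)) ∈ ((1 - ε) * t) • B → x ∈ Iset C ω t) ∧
              (x ∈ Iset C ω t → (fun j => (x j : ℝ)) ∈ ((1 + ε) * t) • B) := by
  obtain ⟨φ1, hφ1, hB⟩ :=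
    Rows.base_exists_u ⟨g, Gm, Gp, 1, g0, hGm, hGm1, hGp, hlb, hub, one_pos⟩ d hd
  refine ⟨φ1 / Gm, div_pos hφ1 hGm, fun ρ hρ => ?_⟩
  have hρ0 : 0 < ρ := (div_pos hφ1 hGm).trans_le hρ
  refine ⟨?_, ?_⟩
  · obtain ⟨φ, hφ, hs, _, h⟩ := ZI.Rows.exists_fugacity g Gm Gp g0 hGm hlb hub ρ hρ0
    refine ⟨⟨g, Gm, Gp, φ, g0, hGm, hGm1, hGp, hlb, hub, hφ⟩, rfl, rfl, rfl, ?_⟩
    have hg : ∀ k, 0 < g (k + 1) := by
      intro k
      induction k with
      | zero =>
        have h1 := hlb 0
        rw [g0] at h1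
        linarith
      | succ k ih =>
        have h1 := hlb (k + 1)
        linarith
    have hpos : 0 < ∑' k : ℕ, φ ^ k / ∏ i ∈ Finset.range k, g (i + 1) := by
      refine hs.tsum_pos (fun k => ?_) 0 (by simp)
      exact div_nonneg (pow_nonneg hφ.le _) (Finset.prod_nonneg (fun i _ => (hg i).le))
    show (∑' k : ℕ, (k : ℝ) * (φ ^ k / ∏ i ∈ Finset.range k, g (i + 1))) /
      ∑' k : ℕ, φ ^ k / ∏ i ∈ Finset.range k, g (i + 1) = ρ
    rw [h, mul_div_assoc, div_self hpos.ne', mul_one]
  · intro m hg1 hg2 hg3 hdens δ hδ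
    have hm : m = wf ⟨g, Gm, Gp, 1, g0, hGm, hGm1, hGp, hlb, hub, one_pos⟩ m.φ m.φ_pos := by
      cases m
      simp only at hg1 hg2 hg3
      subst hg1 hg2 hg3
      rfl
    have hZ : 1 ≤ ∑' k, m.wt0 k := ZI.P3aux.one_le_Z0 m
    have hle := Rows.dens_le m
    have hφ1' : φ1 ≤ m.φ := by
      rw [div_le_iff₀ hGm] at hρ
      unfold dens at hdens
      rw [div_eq_iff (by linarith)] at hdens
      rw [hdens, ← mul_assoc] at hle
      have h2 := le_of_mul_le_mul_right hle (by linarith)
      rw [hg2] at h2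
      linarith
    obtain ⟨Cv, a, A, r0, c, hBase⟩ := hB m.φ m.φ_pos hφ1' δ
    rw [← hm] at hBase
    refine ⟨Rows.exists_clocks m δ hδ d, fun Ω _ P _ C => ?_⟩
    exact ⟨Rows.surv_pos hd hδ C hBase, Rows.shape_theorem hd hδ C hBase⟩

end Pool.Agent.Results.MP_646828_pr.HighDensity
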