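import Pool.Agent.ZP.Trk
import Pool.Agent.ZI.R5b

/-! # One window: a discrepancy with a discrepancy of the other sign nearby is annihilated with polynomial probability -/

set_option autoImplicit false

open scoped ENNReal BigOperators Classical

noncomputable section

namespace ZPD

open ZI ZI.Rows

variable {d : ℕ}

theorem supn_add' (v w : Pos d) : supn (v + w) ≤ supn v + supn w := by
  unfold supn
  refine Finset.sup_le fun j _ => ?_
  have h1 : (v j).natAbs ≤ Finset.univ.sup (fun j => (v j).natAbs) :=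
    Finset.le_sup (f := fun j => (v j).natAbs) (Finset.mem_univ j)
  have h2 : (w j).natAbs ≤ Finset.univ.sup (fun j => (w j).natAbs) :=
    Finset.le_sup (f := fun j => (w j).natAbs) (Finset.mem_univ j)
  have h3 : ((v + w) j).natAbs ≤ (v j).natAbs + (w j).natAbs := Int.natAbs_add_le _ _
  omega

theorem supn_neg' (v : Pos d) : supn (-v) = supn v := by
  unfold supn
  congr 1
  funext j
  simp

/-- the sites at the distance `≤ R` -/
def near {M : ℕ} (z : Tor d M) (R : ℕ) : Set (Tor d M) := {x | ∃ v : Pos d, supn v ≤ R ∧ x = z + tv v}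

theorem near_comm {M : ℕ} (z x : Tor d M) (R : ℕ) (h : x ∈ near z R) : z ∈ near x R := by
  obtain ⟨v, hv, rfl⟩ := h
  refine ⟨-v, by rw [supn_neg']; exact hv, ?_⟩
  have h0 : (tv (-v) : Tor d M) = - tv v := by
    funext j
    simp [tv]
  rw [h0, add_neg_cancel_right]

/-- a lift of a site -/
def lift {M : ℕ} (z : Tor d M) : Pos d := fun j => ((z j).val : ℤ)

theorem tv_lift {M : ℕ} [NeZero M] (z : Tor d M) : (tv (lift z) : Tor d M) = z := by
  funext j
  simp [tv, lift]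

/-- the number of the sites of a ball -/
theorem card_near {M : ℕ} [NeZero M] (x : Tor d M) (R : ℕ) :
    (Finset.univ.filter (fun z : Tor d M => x ∈ near z R)).card ≤ (2 * R + 1) ^ d := by
  set box : Finset (Pos d) := Fintype.piFinset (fun _ : Fin d => Finset.Icc (-(R : ℤ)) R) with hbox
  have hc : box.card = (2 * R + 1) ^ d := by
    rw [hbox, Fintype.card_piFinset, Finset.prod_const, Finset.card_univ, Fintype.card_fin,
      Int.card_Icc]
    congr 1
    omega
  rw [← hc]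
  refine (Finset.card_le_card (t := box.image (fun v => x + tv v)) ?_).trans Finset.card_image_le
  intro z hz
  rw [Finset.mem_filter] at hz
  obtain ⟨v, hv, hzv⟩ := near_comm _ _ _ hz.2
  rw [Finset.mem_image]
  refine ⟨v, ?_, hzv.symm⟩
  rw [hbox, Fintype.mem_piFinset]
  intro j
  rw [Finset.mem_Icc]
  have h1 : (v j).natAbs ≤ supn v := Finset.le_sup (f := fun j => (v j).natAbs) (Finset.mem_univ j)
  omega

variable {m : Model}

/-- the lower bound for one window -/
theorem win_lb (m : Model) (d : ℕ) (hd : 0 < d) : ∃ C : ℕ, 0 < C ∧ ∀ (q : Par d m) (r : ℕ), 1 ≤ r →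
    ∀ (η ζ : Tor d q.M → ℕ) (z : Tor d q.M) (v : Pos d), supn v ≤ r → η z < ζ z →
    ζ (z + tv v) < η (z + tv v) →
    ENNReal.ofReal (1 / (C * (r : ℝ) ^ C)) ≤
      PrE q.w (C * r ^ 2 * q.N1)
        (fun l => 1 ≤ annS (fun x => if x ∈ near z (2 * C * r ^ 2) then 1 else 0) η ζ l) +
      ENNReal.ofReal (C * Real.exp (- r / C)) +
      (PrE q.w (C * r ^ 2 * q.N1) (Hits stepA (capd q.K (near z (2 * C * r ^ 2))) η) +
       PrE q.w (C * r ^ 2 * q.N1) (Hits stepA (capd q.K (near z (2 * C * r ^ 2))) ζ)) := by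
  have hd' : (0 : ℝ) < d := by exact_mod_cast hd
  have hGp : 0 < m.Gp := by have := m.le_Gp; linarith
  have hGm := m.Gm_pos
  have hGmp : m.Gm ≤ m.Gp := by have := m.Gm_le; have := m.le_Gp; linarith
  obtain ⟨C1, hC1, hhit⟩ := walk_hit d hd (m.Gm / (2 * d)) (m.Gp / d) (by positivity)
    (by
      rw [div_le_div_iff₀ (by positivity) hd']
      nlinarith)
  obtain ⟨C2, hC2, hdisp⟩ := walk_disp d (m.Gp / (2 * d)) (by positivity)
  set C : ℕ := 2 * C1 * d ^ 2 + C1 * d ^ C1 + C1 + 2 * C2 with hC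
  have hCpos : 0 < C := by omega
  refine ⟨C, hCpos, ?_⟩
  intro q r hr η ζ z v hv hz hy
  have hM : 2 ≤ q.M := by have := q.M_ge; omega
  have hp := q.p_pos
  have hps := q.p_small
  set R := 2 * C * r ^ 2 with hR
  set W := C * r ^ 2 with hW
  have hW1 : 1 ≤ W := Nat.mul_pos hCpos (pow_pos (by omega) 2)
  have hr' : (1 : ℝ) ≤ r := by exact_mod_cast hr
  have hCr : (1 : ℝ) ≤ C := by exact_mod_cast hCpos
  have hWr : (W : ℝ) = C * (r : ℝ) ^ 2 := by rw [hW]; push_cast; ring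
  -- the time
  have hNp : ((W * q.N1 : ℕ) : ℝ) * q.p ≤ W := by
    push_cast
    rw [mul_assoc]
    have h1 := q.p_ub
    have h2 : (0 : ℝ) ≤ W := by positivity
    nlinarith
  have hNp2 : (W : ℝ) / 2 ≤ ((W * q.N1 : ℕ) : ℝ) * q.p := by
    push_cast
    rw [mul_assoc]
    have h1 := q.p_lb
    have h2 : (0 : ℝ) ≤ W := by positivity
    nlinarith
  -- the initial state
  set X0 := lift z with hX0
  set s0 : St2 d q.M := ((η, ζ), (X0, X0 + v)) with hs0
  have htX : (tv X0 : Tor d q.M) = z := tv_lift z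
  have htY : (tv (X0 + v) : Tor d q.M) = z + tv v := by rw [tv_add, htX]
  -- the three walks
  have hdr : 1 ≤ d * r := Nat.mul_pos hd (by omega)
  have hA := hhit (St2 d q.M) (Let d q.M q.K) q.w st2 (fun s => s.2.1 - s.2.2) (act2 q.K) q.p hp
    (by
      have : 2 * d * (m.Gp / d) * q.p = 2 * m.Gp * q.p := by field_simp
      rw [this]
      linarith)
    (sum_w q hd) (symW_D q hd) (d * r) hdr s0
    (by
      show nrm (X0 - (X0 + v)) ≤ _
      have h1 : X0 - (X0 + v) = -v := by abel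
      rw [h1]
      refine (Geo.nrm_le_supn (-v)).trans ?_
      rw [supn_neg']
      push_cast
      refine mul_le_mul_of_nonneg_left ?_ hd'.le
      exact_mod_cast hv)
    (W * q.N1)
    (by
      refine le_trans ?_ hNp2
      rw [hWr, hC]
      push_cast
      have h1 : (0 : ℝ) ≤ C1 * (d : ℝ) ^ C1 := by positivity
      have h2 : (0 : ℝ) ≤ (r : ℝ) ^ 2 := by positivity
      have h3 : (0 : ℝ) ≤ (C1 * (d : ℝ) ^ C1 + C1 + 2 * C2) * (r : ℝ) ^ 2 := by positivity
      nlinarith)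
  have hsm : 2 * d * (m.Gp / (2 * d)) * q.p ≤ 1 / 2 := by
    rw [mul_div_cancel₀ _ (by positivity)]
    linarith
  have hX := hdisp (St2 d q.M) (Let d q.M q.K) q.w st2 (fun s => s.2.1) (act2 q.K) q.p hp hsm
    (sum_w q hd) (symW_X q hd) s0 (W * q.N1) W r (by exact_mod_cast hW1) hNp (by linarith)
  have hY := hdisp (St2 d q.M) (Let d q.M q.K) q.w st2 (fun s => s.2.2) (act2 q.K) q.p hp hsm
    (sum_w q hd) (symW_Y q hd) s0 (W * q.N1) W r (by exact_mod_cast hW1) hNp (by linarith)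
  -- the radius
  have hrad : (r : ℝ) * Real.sqrt W ≤ W := by
    have h1 : Real.sqrt W ≤ C * r := by
      rw [hWr]
      refine Real.sqrt_le_iff.2 ⟨by positivity, ?_⟩
      nlinarith [sq_nonneg (r : ℝ)]
    calc (r : ℝ) * Real.sqrt W ≤ r * (C * r) := mul_le_mul_of_nonneg_left h1 (by linarith)
      _ = W := by rw [hWr]; ring
  have hf1 : ∀ s : St2 d q.M, ¬ ((r : ℝ) * Real.sqrt W ≤ nrm (s.2.1 - s0.2.1)) →
      (tv s.2.1 : Tor d q.M) ∈ near z R := by
    intro s hs
    push Not at hs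
    have h1 : supn (s.2.1 - s0.2.1) ≤ W := Geo.supn_le_of_nrm (hs.le.trans hrad)
    refine ⟨s.2.1 - s0.2.1, h1.trans ?_, ?_⟩
    · rw [hR, hW]; nlinarith [Nat.zero_le (C * r ^ 2)]
    · show (tv s.2.1 : Tor d q.M) = z + tv (s.2.1 - X0)
      rw [tv_sub, htX]
      abel
  have hf2 : ∀ s : St2 d q.M, ¬ ((r : ℝ) * Real.sqrt W ≤ nrm (s.2.2 - s0.2.2)) →
      (tv s.2.2 : Tor d q.M) ∈ near z R := by
    intro s hs
    push Not at hs
    have h1 : supn (s.2.2 - s0.2.2) ≤ W := Geo.supn_le_of_nrm (hs.le.trans hrad)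
    refine ⟨(s.2.2 - s0.2.2) + v, (supn_add' _ _).trans ?_, ?_⟩
    · have h2 : r ≤ C * r ^ 2 := by
        have h3 : r ≤ r ^ 2 := by nlinarith
        nlinarith
      have h3 : 2 * C * r ^ 2 = C * r ^ 2 + C * r ^ 2 := by ring
      rw [hR, h3]
      rw [hW] at h1
      exact add_le_add h1 (hv.trans h2)
    · show (tv s.2.2 : Tor d q.M) = z + tv ((s.2.2 - (X0 + v)) + v)
      rw [tv_add, tv_sub, htY]
      abel
  -- the events
  have hincl : ∀ l : List (Let d q.M q.K), l.length = W * q.N1 →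
      Hits st2 (fun s : St2 d q.M => s.2.1 - s.2.2 = 0 ∨ ¬ act2 q.K s) s0 l →
      (((1 ≤ annS (fun x => if x ∈ near z R then 1 else 0) η ζ l ∨
        HitsBefore st2 (fun s => ¬ act2 q.K s)
          (fun s => (r : ℝ) * Real.sqrt W ≤ nrm (s.2.1 - s0.2.1)) s0 l) ∨
        HitsBefore st2 (fun s => ¬ act2 q.K s)
          (fun s => (r : ℝ) * Real.sqrt W ≤ nrm (s.2.2 - s0.2.2)) s0 l) ∨
        (Hits stepA (capd q.K (near z R)) η l ∨ Hits stepA (capd q.K (near z R)) ζ l)) := by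
    intro l _ hl
    by_contra hcon
    push Not at hcon
    obtain ⟨⟨⟨h1, h2⟩, h3⟩, h4, h5⟩ := hcon
    have h0 : (tv (0 : Pos d) : Tor d q.M) = 0 := by
      funext j
      simp [tv]
    have hzn : z ∈ near z R := ⟨0, by simp [supn], by rw [h0, add_zero]⟩
    have hyn : z + tv v ∈ near z R := ⟨v, hv.trans (by
      have h6 : r ≤ r ^ 2 := by nlinarith
      rw [hR]
      nlinarith), rfl⟩
    have hk1 : η z < q.K := by
      by_contra h
      exact h4 (hits_self _ _ _ _ ⟨z, hzn, not_lt.1 h⟩)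
    have hk2 : ζ (z + tv v) < q.K := by
      by_contra h
      exact h5 (hits_self _ _ _ _ ⟨z + tv v, hyn, not_lt.1 h⟩)
    have hact : act2 q.K s0 := by
      refine ⟨?_, ?_, ?_, ?_⟩
      · show η (tv X0) < ζ (tv X0)
        rw [htX]; exact hz
      · show ζ (tv (X0 + v)) < η (tv (X0 + v))
        rw [htY]; exact hy
      · show η (tv X0) < q.K
        rw [htX]; exact hk1
      · show ζ (tv (X0 + v)) < q.K
        rw [htY]; exact hk2
    have := det hM (near z R) _ _ hf1 hf2 l s0 hact hl h2 h3 h4 h5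
    exact absurd this (not_le.2 h1)
  have hall := PrE_mono q.w (W * q.N1) hincl
  have hfirst : ENNReal.ofReal (1 / (C * (r : ℝ) ^ C)) ≤
      ENNReal.ofReal (1 / (C1 * ((d * r : ℕ) : ℝ) ^ C1)) := by
    refine ENNReal.ofReal_le_ofReal (one_div_le_one_div_of_le (by positivity) ?_)
    push_cast
    rw [mul_pow, ← mul_assoc]
    have h1 : (C1 : ℝ) * (d : ℝ) ^ C1 ≤ C := by
      rw [hC]
      push_cast
      have h2 : (0 : ℝ) ≤ 2 * C1 * (d : ℝ) ^ 2 := by positivity
      have h3 : (0 : ℝ) ≤ (C1 : ℝ) + 2 * C2 := by positivity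
      linarith
    have h2 : (r : ℝ) ^ C1 ≤ (r : ℝ) ^ C := pow_le_pow_right₀ hr' (by omega)
    exact mul_le_mul h1 h2 (by positivity) (by positivity)
  have hexp : ENNReal.ofReal (C2 * Real.exp (-(r : ℝ) / C2)) +
      ENNReal.ofReal (C2 * Real.exp (-(r : ℝ) / C2)) ≤ ENNReal.ofReal (C * Real.exp (- r / C)) := by
    rw [← ENNReal.ofReal_add (by positivity) (by positivity)]
    refine ENNReal.ofReal_le_ofReal ?_
    have hC2' : (0 : ℝ) < C2 := by exact_mod_cast hC2
    have h1 : 2 * (C2 : ℝ) ≤ C := by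
      rw [hC]
      push_cast
      have h3 : (0 : ℝ) ≤ 2 * C1 * (d : ℝ) ^ 2 + C1 * (d : ℝ) ^ C1 + C1 := by positivity
      linarith
    have h2 : Real.exp (-(r : ℝ) / C2) ≤ Real.exp (-(r : ℝ) / C) := by
      rw [Real.exp_le_exp, neg_div, neg_div, neg_le_neg_iff]
      exact div_le_div_of_nonneg_left (by linarith) hC2' (by linarith)
    have h3 : 0 < Real.exp (-(r : ℝ) / C2) := Real.exp_pos _
    nlinarith
  calc ENNReal.ofReal (1 / (C * (r : ℝ) ^ C))
      ≤ ENNReal.ofReal (1 / (C1 * ((d * r : ℕ) : ℝ) ^ C1)) := hfirst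
    _ ≤ _ := hA
    _ ≤ _ := hall
    _ ≤ _ := PrE_or _ _ _ _
    _ ≤ (PrE q.w (W * q.N1) (fun l => (1 ≤ annS (fun x => if x ∈ near z R then 1 else 0) η ζ l ∨
        HitsBefore st2 (fun s => ¬ act2 q.K s)
          (fun s => (r : ℝ) * Real.sqrt W ≤ nrm (s.2.1 - s0.2.1)) s0 l)) +
        PrE q.w (W * q.N1) (HitsBefore st2 (fun s => ¬ act2 q.K s)
          (fun s => (r : ℝ) * Real.sqrt W ≤ nrm (s.2.2 - s0.2.2)) s0)) + _ :=
        add_le_add (PrE_or _ _ _ _) (PrE_or _ _ _ _)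
    _ ≤ ((PrE q.w (W * q.N1) (fun l => 1 ≤ annS (fun x => if x ∈ near z R then 1 else 0) η ζ l) +
        PrE q.w (W * q.N1) (HitsBefore st2 (fun s => ¬ act2 q.K s)
          (fun s => (r : ℝ) * Real.sqrt W ≤ nrm (s.2.1 - s0.2.1)) s0)) +
        PrE q.w (W * q.N1) (HitsBefore st2 (fun s => ¬ act2 q.K s)
          (fun s => (r : ℝ) * Real.sqrt W ≤ nrm (s.2.2 - s0.2.2)) s0)) + _ :=
        add_le_add (add_le_add (PrE_or _ _ _ _) le_rfl) le_rfl
    _ ≤ ((PrE q.w (W * q.N1) (fun l => 1 ≤ annS (fun x => if x ∈ near z R then 1 else 0) η ζ l) +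
        ENNReal.ofReal (C2 * Real.exp (-(r : ℝ) / C2))) +
        ENNReal.ofReal (C2 * Real.exp (-(r : ℝ) / C2))) + _ :=
        add_le_add (add_le_add (add_le_add le_rfl hX) hY) le_rfl
    _ ≤ _ := by
        refine add_le_add ?_ le_rfl
        rw [add_assoc]
        exact add_le_add le_rfl hexp

end ZPD
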