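import Pool.Agent.ZP.Gap
import Pool.Agent.ZP.WinD

/-! # The joint expectation of two independent configurations driven by the same letters -/

set_option autoImplicit false

open scoped ENNReal BigOperators Classical

noncomputable section

namespace ZPD

open ZI ZI.Rows ZI.R2aux ZP

variable {d : ℕ}

section je

variable {M K : ℕ} [NeZero M]

/-- the joint expectation -/
def JE (P2 P1 : (Tor d M → ℕ) → ℝ≥0∞) (w : Let d M K → ℝ≥0∞) (N : ℕ)
    (F : (Tor d M → ℕ) → (Tor d M → ℕ) → List (Let d M K) → ℝ≥0∞) : ℝ≥0∞ :=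
  ∑' η, P2 η * ∑' ζ, P1 ζ * EvE w N (F η ζ)

variable (P2 P1 : (Tor d M → ℕ) → ℝ≥0∞) (w : Let d M K → ℝ≥0∞)

theorem JE_mono (N : ℕ) {F G : (Tor d M → ℕ) → (Tor d M → ℕ) → List (Let d M K) → ℝ≥0∞}
    (h : ∀ η ζ l, l.length = N → F η ζ l ≤ G η ζ l) : JE P2 P1 w N F ≤ JE P2 P1 w N G :=
  ENNReal.tsum_le_tsum fun η => mul_le_mul_right (ENNReal.tsum_le_tsum fun ζ =>
    mul_le_mul_right (EvE_mono w N fun l hl => h η ζ l hl) _) _

theorem JE_congr (N : ℕ) {F G : (Tor d M → ℕ) → (Tor d M → ℕ) → List (Let d M K) → ℝ≥0∞}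
    (h : ∀ η ζ l, l.length = N → F η ζ l = G η ζ l) : JE P2 P1 w N F = JE P2 P1 w N G :=
  le_antisymm (JE_mono P2 P1 w N fun η ζ l hl => (h η ζ l hl).le)
    (JE_mono P2 P1 w N fun η ζ l hl => (h η ζ l hl).ge)

theorem JE_add (N : ℕ) (F G : (Tor d M → ℕ) → (Tor d M → ℕ) → List (Let d M K) → ℝ≥0∞) :
    JE P2 P1 w N (fun η ζ l => F η ζ l + G η ζ l) = JE P2 P1 w N F + JE P2 P1 w N G := by
  unfold JE
  rw [← ENNReal.tsum_add]
  refine tsum_congr fun η => ?_
  rw [← mul_add, ← ENNReal.tsum_add]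
  congr 1
  refine tsum_congr fun ζ => ?_
  rw [← mul_add]
  congr 1
  exact EvE_add w N (F η ζ) (G η ζ)

theorem JE_mul (N : ℕ) (c : ℝ≥0∞) (F : (Tor d M → ℕ) → (Tor d M → ℕ) → List (Let d M K) → ℝ≥0∞) :
    JE P2 P1 w N (fun η ζ l => c * F η ζ l) = c * JE P2 P1 w N F := by
  unfold JE
  rw [← ENNReal.tsum_mul_left]
  refine tsum_congr fun η => ?_
  have h1 : ∑' ζ, P1 ζ * EvE w N (fun l => c * F η ζ l) = c * ∑' ζ, P1 ζ * EvE w N (F η ζ) := by
    rw [← ENNReal.tsum_mul_left]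
    refine tsum_congr fun ζ => ?_
    rw [ZI.EvE_mul w N c (F η ζ)]
    ring
  rw [h1]
  ring

theorem JE_sum {ι : Type} (s : Finset ι) (N : ℕ)
    (F : ι → (Tor d M → ℕ) → (Tor d M → ℕ) → List (Let d M K) → ℝ≥0∞) :
    JE P2 P1 w N (fun η ζ l => ∑ i ∈ s, F i η ζ l) = ∑ i ∈ s, JE P2 P1 w N (F i) := by
  induction s using Finset.induction_on with
  | empty =>
    simp only [Finset.sum_empty]
    have := JE_mul P2 P1 w N 0 (fun _ _ _ => 0)
    simpa using this
  | insert i s hi ih =>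
    simp only [Finset.sum_insert hi]
    rw [JE_add, ih]

theorem JE_left (h1 : ∑' ζ, P1 ζ = 1) (N : ℕ) (G : (Tor d M → ℕ) → List (Let d M K) → ℝ≥0∞) :
    JE P2 P1 w N (fun η _ l => G η l) = ∑' η, P2 η * EvE w N (G η) := by
  unfold JE
  refine tsum_congr fun η => ?_
  rw [ENNReal.tsum_mul_right, h1, one_mul]

theorem JE_right (h2 : ∑' η, P2 η = 1) (N : ℕ) (G : (Tor d M → ℕ) → List (Let d M K) → ℝ≥0∞) :
    JE P2 P1 w N (fun _ ζ l => G ζ l) = ∑' ζ, P1 ζ * EvE w N (G ζ) := by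
  unfold JE
  rw [ENNReal.tsum_mul_right, h2, one_mul]

theorem JE_const (h1 : ∑' ζ, P1 ζ = 1) (h2 : ∑' η, P2 η = 1) (hw : ∑ a, w a = 1) (N : ℕ)
    (c : ℝ≥0∞) : JE P2 P1 w N (fun _ _ _ => c) = c := by
  rw [JE_left P2 P1 w h1 N (fun _ _ => c)]
  have h : ∀ η, P2 η * EvE w N (fun _ => c) = P2 η * c := fun η => by
    rw [ZI.EvE_const w hw N c]
  rw [tsum_congr h, ENNReal.tsum_mul_right, h2, one_mul]

/-- two successive words -/
theorem JE_split (N N' : ℕ) (F : (Tor d M → ℕ) → (Tor d M → ℕ) → List (Let d M K) → ℝ≥0∞) :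
    JE P2 P1 w (N + N') (fun η ζ l => F ((l.take N).foldl stepA η) ((l.take N).foldl stepA ζ) (l.drop N)) =
      JE P2 P1 w N (fun η ζ l => EvE w N' (F (l.foldl stepA η) (l.foldl stepA ζ))) := by
  unfold JE
  refine tsum_congr fun η => ?_
  congr 1
  refine tsum_congr fun ζ => ?_
  congr 1
  exact EvE_take_drop w N' N (fun l l' => F (l.foldl stepA η) (l.foldl stepA ζ) l')

/-! ### translations -/

omit [NeZero M] in
theorem stepA_sh (z : Tor d M) (η : Tor d M → ℕ) (a : Let d M K) :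
    stepA (fun x => η (x - z)) (shL z a) = fun x => stepA η a (x - z) := by
  cases a with
  | none => rfl
  | some l =>
    obtain ⟨x, k, e⟩ := l
    show mv nbT (fun x => η (x - z)) (x + z, (k : ℕ), e) = fun y => mv nbT η (x, (k : ℕ), e) (y - z)
    funext y
    rw [mv_val, mv_val]
    simp only [add_sub_cancel_right]
    have h1 : (y = x + z) ↔ (y - z = x) := by
      constructor
      · intro h; rw [h, add_sub_cancel_right]
      · intro h; rw [← h, sub_add_cancel]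
    have h2 : (y = x + z + tv (dv e)) ↔ (y - z = x + tv (dv e)) := by
      constructor
      · intro h; rw [h]; abel
      · intro h; rw [← sub_add_cancel y z, h]; abel
    simp only [h1, h2]

omit [NeZero M] in
theorem foldl_sh (z : Tor d M) (l : List (Let d M K)) : ∀ η : Tor d M → ℕ,
    (l.map (shL z)).foldl stepA (fun x => η (x - z)) = fun x => l.foldl stepA η (x - z) := by
  induction l with
  | nil => intro η; rfl
  | cons a l ih =>
    intro η
    rw [List.map_cons, List.foldl_cons, List.foldl_cons, stepA_sh, ih]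

end je

section sh

variable {m : Model} (q : Par d m)

theorem prw_sh (m1 : ℕ → ℝ≥0∞) (z : Tor d q.M) (F : (Tor d q.M → ℕ) → ℝ≥0∞) :
    ∑' η : Tor d q.M → ℕ, prw m1 η * F (fun x => η (x - z)) =
      ∑' η : Tor d q.M → ℕ, prw m1 η * F η := by
  rw [← Equiv.tsum_eq (Equiv.arrowCongr (Equiv.addRight z) (Equiv.refl ℕ))
    (fun η => prw m1 η * F η)]
  refine tsum_congr fun η => ?_
  have h2 : (Equiv.arrowCongr (Equiv.addRight z) (Equiv.refl ℕ)) η = fun x => η (x - z) := by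
    funext x
    simp [Equiv.arrowCongr, sub_eq_add_neg]
  rw [h2]
  congr 1
  unfold prw
  exact (Equiv.prod_comp (Equiv.subRight z) (fun x => m1 (η x))).symm

/-- translation invariance of the joint expectation -/
theorem JE_sh (m2 m1 : ℕ → ℝ≥0∞) (z : Tor d q.M) (N : ℕ)
    (F : (Tor d q.M → ℕ) → (Tor d q.M → ℕ) → List (Let d q.M q.K) → ℝ≥0∞) :
    JE (prw m2) (prw m1) q.w N (fun η ζ l => F (fun x => η (x - z)) (fun x => ζ (x - z)) (l.map (shL z))) =
      JE (prw m2) (prw m1) q.w N F := by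
  unfold JE
  have h1 : ∀ η ζ : Tor d q.M → ℕ,
      EvE q.w N (fun l => F (fun x => η (x - z)) (fun x => ζ (x - z)) (l.map (shL z))) =
        EvE q.w N (F (fun x => η (x - z)) (fun x => ζ (x - z))) := fun η ζ =>
    EvE_map q.w (shE z) (w_shL q z) N (F (fun x => η (x - z)) (fun x => ζ (x - z)))
  simp_rw [h1]
  have h2 : ∀ η : Tor d q.M → ℕ, ∑' ζ, prw m1 ζ *
      EvE q.w N (F (fun x => η (x - z)) (fun x => ζ (x - z))) =
      ∑' ζ, prw m1 ζ * EvE q.w N (F (fun x => η (x - z)) ζ) := fun η =>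
    prw_sh q m1 z (fun ζ => EvE q.w N (F (fun x => η (x - z)) ζ))
  simp_rw [h2]
  exact prw_sh q m2 z (fun η => ∑' ζ, prw m1 ζ * EvE q.w N (F η ζ))

/-- the expected number of discrepancies at a site -/
def bs (m2 m1 : ℕ → ℝ≥0∞) (N : ℕ) (x : Tor d q.M) : ℝ≥0∞ :=
  JE (prw m2) (prw m1) q.w N (fun η ζ l => ((l.foldl stepA ζ x - l.foldl stepA η x : ℕ) : ℝ≥0∞))

theorem bs_sh (m2 m1 : ℕ → ℝ≥0∞) (N : ℕ) (x y : Tor d q.M) : bs q m2 m1 N x = bs q m2 m1 N y := by
  have h := JE_sh q m2 m1 (y - x) N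
    (fun η ζ l => ((l.foldl stepA ζ y - l.foldl stepA η y : ℕ) : ℝ≥0∞))
  unfold bs
  rw [← h]
  refine JE_congr _ _ _ N fun η ζ l _ => ?_
  rw [foldl_sh, foldl_sh]
  have h2 : y - (y - x) = x := by abel
  simp only [h2]

/-- the total -/
theorem bs_sum (m2 m1 : ℕ → ℝ≥0∞) (N : ℕ) (x : Tor d q.M) :
    JE (prw m2) (prw m1) q.w N (fun η ζ l => nG (fun _ => 1) (l.foldl stepA η) (l.foldl stepA ζ)) =
      (q.M : ℝ≥0∞) ^ d * bs q m2 m1 N x := by
  have h1 : JE (prw m2) (prw m1) q.w N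
      (fun η ζ l => nG (fun _ => 1) (l.foldl stepA η) (l.foldl stepA ζ)) =
      ∑ z : Tor d q.M, bs q m2 m1 N z := by
    unfold bs
    rw [← JE_sum]
    refine JE_congr _ _ _ N fun η ζ l _ => ?_
    unfold nG
    simp only [mul_one]
  rw [h1, Finset.sum_congr rfl fun z _ => bs_sh q m2 m1 N z x, Finset.sum_const, Finset.card_univ,
    nsmul_eq_mul, Fintype.card_fun, Fintype.card_fin, ZMod.card]
  push_cast
  rfl

end sh

end ZPD
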