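import Pool.Agent.ZP.SF1
import Pool.Agent.ZP.SF2
import Pool.Agent.ZP.SF3
import Pool.Agent.ZP.BE
import Pool.Agent.ZP.BKb

/-! # Row ML: the meeting property in a window (deterministic part and probability) -/

set_option autoImplicit false

open scoped ENNReal BigOperators Classical Pointwise

noncomputable section

namespace ZP.ML

open ZP ZP.Rows

variable {d : ℕ}

/-! ### the scales -/

section scales

variable (A : Prm)

theorem S_pos (hL : 1 ≤ A.L) (k : ℕ) : 1 ≤ A.S k := Nat.one_le_pow _ _ hL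

theorem n_pos (hL : 1 ≤ A.L) (k : ℕ) : 1 ≤ A.n k := Nat.one_le_pow _ _ (S_pos A hL k)

theorem nt_ge (d : ℕ) (hL : 1 ≤ A.L) (k : ℕ) : 8 ≤ A.nt d k := by
  unfold Prm.nt
  have := n_pos A hL k
  nlinarith

theorem T_succ (d k : ℕ) : A.T d (k + 1) = A.nt d k * A.T d k := by
  unfold Prm.T
  rw [Prm.ix, mul_assoc]

theorem eight_T (d : ℕ) (hL : 1 ≤ A.L) (k : ℕ) : 8 * A.T d k ≤ A.T d (k + 1) := by
  rw [T_succ]
  exact Nat.mul_le_mul_right _ (nt_ge A d hL k)

theorem T_mono (d : ℕ) (hL : 1 ≤ A.L) {l k : ℕ} (h : l ≤ k) : A.T d l ≤ A.T d k := by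
  induction k, h using Nat.le_induction with
  | base => exact le_rfl
  | succ k _ ih =>
    have := eight_T A d hL k
    omega

theorem tau_le_T (d : ℕ) (hL : 1 ≤ A.L) (k : ℕ) : A.τ ≤ A.T d k := by
  have h := T_mono A d hL (Nat.zero_le k)
  have h0 : A.T d 0 = A.τ := by
    unfold Prm.T
    rw [Prm.ix, one_mul]
  rwa [h0] at h

theorem ix_dvd (d : ℕ) {l k : ℕ} (h : l ≤ k) : A.ix d l ∣ A.ix d k := by
  induction k, h using Nat.le_induction with
  | base => exact dvd_rfl
  | succ k _ ih => exact ih.trans (by rw [Prm.ix]; exact Dvd.intro_left _ rfl)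

theorem ix_div_mul (d : ℕ) {l k : ℕ} (h : l ≤ k) : A.ix d k / A.ix d l * A.T d l = A.T d k := by
  unfold Prm.T
  rw [← mul_assoc, Nat.div_mul_cancel (ix_dvd A d h)]

theorem U_le (d : ℕ) (hL : 1 ≤ A.L) (hγ : A.α + 12 ≤ A.γ) (k : ℕ) :
    A.U d (k + 1) ≤ 4 * A.T d (k + 1) := by
  rw [T_succ, Prm.U, ← mul_assoc]
  refine Nat.mul_le_mul_right _ ?_
  have h1 : A.S k ^ (A.α + 4) ≤ A.S k ^ (A.γ - 1) :=
    Nat.pow_le_pow_right (S_pos A hL k) (by omega)
  unfold Prm.nt Prm.n
  have h2 : 1 * A.S k ^ (A.γ - 1) ≤ (4 * (8 * d + 8)) * A.S k ^ (A.γ - 1) :=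
    Nat.mul_le_mul_right _ (by omega)
  rw [one_mul, mul_assoc] at h2
  exact h1.trans h2

end scales

/-! ### events that depend on an initial piece of the word only -/

section time

variable {M K : ℕ} {N1 : ℕ}

/-- the event depends on the letters up to the time `U` only -/
def Tm (N1 U : ℕ) (E : Ev d M K) : Prop := ∀ η w, E η (w.take (U * N1)) ↔ E η w

theorem Tm.mono {U V : ℕ} {E : Ev d M K} (h : Tm N1 U E) (hUV : U ≤ V) : Tm N1 V E := by
  intro η w
  rw [← h η (w.take (V * N1)), ← h η w, List.take_take, min_eq_left (Nat.mul_le_mul_right _ hUV)]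

theorem Tm.sft {U : ℕ} {E : Ev d M K} (h : Tm N1 U E) (x : Pos d) (t : ℕ) :
    Tm N1 (t + U) (ZP.sft N1 x t E) := by
  intro η w
  have h1 : stt η (w.take ((t + U) * N1)) (t * N1) = stt η w (t * N1) :=
    SF2.stt_take η w _ _ (Nat.mul_le_mul_right _ (Nat.le_add_right t U))
  have h2 : (w.take ((t + U) * N1)).drop (t * N1) = (w.drop (t * N1)).take (U * N1) := by
    rw [List.drop_take]
    congr 1
    rw [← Nat.sub_mul, Nat.add_sub_cancel_left]
  show E _ _ ↔ E _ _
  rw [h1, h2, List.map_take]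
  exact h _ _

theorem Tm.not {U : ℕ} {E : Ev d M K} (h : Tm N1 U E) : Tm N1 U (fun η w => ¬ E η w) :=
  fun η w => not_congr (h η w)

theorem tm_popn (L τ : ℕ) : Tm (d := d) (M := M) (K := K) N1 τ (POpn N1 L τ) := by
  intro η w
  have h2 : ∀ i ≤ τ * N1, (w.take (τ * N1)).take i = w.take i := by
    intro i hi
    rw [List.take_take, min_eq_left hi]
  unfold POpn
  rw [h2 _ le_rfl]
  refine and_congr Iff.rfl (and_congr Iff.rfl ?_)
  refine forall_congr' fun x => forall_congr' fun _ => forall_congr' fun _ => forall_congr' fun b =>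
    forall_congr' fun _ => exists_congr fun i => and_congr_right fun hi => ?_
  rw [h2 i hi]

theorem tm_fopn (L τ : ℕ) : Tm (d := d) (M := M) (K := K) N1 τ (FOpn N1 L τ) := by
  intro η w
  unfold FOpn
  rw [List.take_take, min_self, SF2.stt_take η w _ _ le_rfl]

theorem tm_fast (S U : ℕ) : Tm (d := d) (M := M) (K := K) N1 U (Fast N1 S U) := by
  intro η w
  unfold Fast
  refine exists_congr fun x => and_congr_right fun _ => and_congr_right fun _ => exists_congr fun i =>
    and_congr_right fun hi => ?_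
  rw [List.take_take, min_eq_left hi]

theorem tm_rec (A : Prm) (hL : 1 ≤ A.L) (k : ℕ) {X : Ev d M K} (h : Tm N1 (6 * A.T d k) X) :
    Tm N1 (6 * A.T d (k + 1)) (RecE N1 A k X) := by
  intro η w
  unfold RecE
  refine exists_congr fun f => and_congr_right fun h1 => and_congr_right fun _ =>
    forall_congr' fun i => ?_
  refine ((h.sft _ _).mono ?_) η w
  rw [T_succ, ← Nat.add_mul, ← mul_assoc]
  refine Nat.mul_le_mul_right _ ?_
  have h3 := (h1 i).2
  have h4 := nt_ge A d hL k
  omega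

theorem tm_pbad (A : Prm) (hL : 1 ≤ A.L) (hγ : A.α + 12 ≤ A.γ) (b : Bool) (k : ℕ) :
    Tm (d := d) (M := M) (K := K) N1 (6 * A.T d k) (PBad N1 A b k) := by
  cases b with
  | true =>
    show Tm N1 (6 * A.T d k) (BadP N1 A k)
    induction k with
    | zero => exact fun _ _ => Iff.rfl
    | succ k ih =>
      intro η w
      refine or_congr ?_ (tm_rec A hL k ih η w)
      refine (((tm_fast _ _).sft _ _).mono ?_) η w
      have := U_le A d hL hγ k
      omega
  | false =>
    show Tm N1 (6 * A.T d k) (PBadM N1 A k)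
    induction k with
    | zero =>
      refine ((tm_popn _ _).not.sft _ _).mono ?_
      have := tau_le_T A d hL 0
      omega
    | succ k ih => exact tm_rec A hL k ih

/-- time of the last letter that decides about a block in the neighbourhood -/
theorem blk_time (A : Prm) (d : ℕ) (hL : 1 ≤ A.L) {l k i : ℕ} (hl : l < k)
    (h : i < (8 * d + 8) * A.n l * (3 * (A.ix d k / A.ix d (l + 1)) + 3)) :
    i * A.T d l + 4 * A.T d l ≤ 7 * A.T d k := by
  have h1 : i * A.T d l ≤ (8 * d + 8) * A.n l * (3 * (A.ix d k / A.ix d (l + 1)) + 3) * A.T d l :=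
    Nat.mul_le_mul_right _ h.le
  have h2 : (8 * d + 8) * A.n l * (3 * (A.ix d k / A.ix d (l + 1)) + 3) * A.T d l =
      3 * (A.ix d k / A.ix d (l + 1) * A.T d (l + 1)) + 3 * A.T d (l + 1) := by
    rw [T_succ]
    unfold Prm.nt
    ring
  rw [h2, ix_div_mul A d (show l + 1 ≤ k by omega)] at h1
  have h3 := eight_T A d hL l
  have h4 := T_mono A d hL (show l + 1 ≤ k by omega)
  omega

theorem tm_membE (A : Prm) (hL : 1 ≤ A.L) (hγ : A.α + 12 ≤ A.γ) (k : ℕ) (c : Pos d) :
    Tm (M := M) (K := K) N1 (8 * A.T d k) (MembE N1 A k c) := by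
  intro η w
  unfold MembE Memb
  refine forall_congr' fun l => forall_congr' fun hl => forall_congr' fun Q => forall_congr' fun hQ =>
    forall_congr' fun _ => not_congr ?_
  have key : ∀ b : Bool, badW N1 A η (w.take (8 * A.T d k * N1)) 0 b l Q ↔ badW N1 A η w 0 b l Q := by
    intro b
    unfold badW
    by_cases h2 : Q.2 < 2
    · simp [h2]
    refine or_congr Iff.rfl ?_
    refine (((tm_pbad A hL hγ b l).sft _ _).mono ?_) η w
    have h3 := blk_time A d hL hl hQ.2.2
    have h4 : (Q.2 - 2) * A.T d l + 2 * A.T d l = Q.2 * A.T d l := by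
      rw [← Nat.add_mul]
      congr 1
      omega
    omega
  exact or_congr (key false) (key true)

end time

/-! ### reversed words -/

section rev

variable {M K : ℕ}

theorem toLab_inj {a b : Let d M K} (h : toLab a = toLab b) : a = b := by
  cases a with
  | none =>
    cases b with
    | none => rfl
    | some l => simp [toLab] at h
  | some l =>
    cases b with
    | none => simp [toLab] at h
    | some l' =>
      obtain ⟨x, k, e⟩ := l
      obtain ⟨x', k', e'⟩ := l'
      have h1 : (some (x, (k : ℕ), e) : Option (Lab (Tor d M) d)) = some (x', (k' : ℕ), e') := h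
      obtain ⟨h2, h3, h4⟩ := Prod.mk.inj (Option.some.inj h1) |>.imp id Prod.mk.inj
      rw [h2, Fin.ext h3, h4]

/-- the letter of a reversed jump -/
theorem canL_back (hM : 3 ≤ M) (hK : 0 < K) (η : Tor d M → ℕ) (v : Tor d M) (k : ℕ) (e : Dir d)
    (hk : k < η v) :
    toLab (canL none (ZI.mv nbT η (v, k, e)) η : Let d M (K + 1)) =
      some (v + tv (dv e), 1, ZI.R2aux.ng e) := by
  have hM2 : 2 ≤ M := by omega
  have hv : 0 < η v := lt_of_le_of_lt (Nat.zero_le _) hk
  have hmv : ZI.mv nbT η (v, k, e) = ZI.R2aux.add (ZI.R2aux.rem η v) (v + tv (dv e)) :=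
    ZI.C5.mv_add η (v, k, e) hk
  obtain ⟨a1, a2, a3⟩ := ZI.C5.jump_vals hM2 η v e hv
  have h1 : 0 < ZI.mv nbT η (v, k, e) (v + tv (dv e)) := by
    rw [hmv, a2]
    omega
  have hback : ZI.mv nbT (ZI.mv nbT η (v, k, e)) (v + tv (dv e), 0, ZI.R2aux.ng e) = η := by
    rw [ZI.C5.mv_add _ (v + tv (dv e), 0, ZI.R2aux.ng e) h1]
    show ZI.R2aux.add (ZI.R2aux.rem (ZI.mv nbT η (v, k, e)) (v + tv (dv e)))
      (v + tv (dv e) + tv (dv (ZI.R2aux.ng e))) = η
    rw [hmv, ZI.R2aux.rem_add, ZI.R2aux.tv_ng, add_neg_cancel_right, ZI.R2aux.add_rem η v hv]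
  have h2 := E1.canL_jump hM hK (ZI.mv nbT η (v, k, e)) (v + tv (dv e)) 0 (ZI.R2aux.ng e) h1
  rw [hback] at h2
  exact h2

/-- a letter at a site of the region is determined by the restriction -/
theorem eq_of_res {Λ : Set (Tor d M)} {a a' : Let d M K} {l : Tor d M × Fin K × Dir d}
    (h : res Λ a = res Λ a') (ha : a = some l) (hl : l.1 ∈ Λ) : a' = some l := by
  subst ha
  have h1 : res Λ (some l : Let d M K) = some l := if_pos hl
  rw [h1] at h
  cases a' with
  | none => exact absurd h (by simp [res])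
  | some l' =>
    by_cases h2 : l'.1 ∈ Λ
    · have h3 : res Λ (some l' : Let d M K) = some l' := if_pos h2
      rw [h3] at h
      exact h.symm
    · have h3 : res Λ (some l' : Let d M K) = none := if_neg h2
      rw [h3] at h
      simp at h

theorem canL_back_loc (hd : 0 < d) (hM : 3 ≤ M) (hK : 0 < K) {Λ Λ' : Set (Tor d M)} (h0 : Λ' ⊆ Λ)
    (h1 : ∀ x ∈ Λ', ∀ e : Dir d, x - tv (dv e) ∈ Λ) (η η' : Tor d M → ℕ) (a a' : Let d M (K + 1))
    (hη : ∀ v ∈ Λ, η v = η' v) (ha : res Λ a = res Λ a') (l : Tor d M × Fin (K + 1) × Dir d)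
    (hl : canL (mark a) (stepA η a) η = some l) (hl' : l.1 ∈ Λ') :
    canL (mark a') (stepA η' a') η' = some l := by
  have hM2 : 2 ≤ M := by omega
  cases h : toLab a with
  | none =>
    rw [E1.stepA_none _ _ h, E1.mark_none a h, E1.canL_stay hM2] at hl
    simp at hl
  | some b =>
    obtain ⟨v, j, e⟩ := b
    -- the letter itself
    obtain ⟨l0, hl0⟩ : ∃ l0, a = some l0 := by
      cases a with
      | none => simp [toLab] at h
      | some l0 => exact ⟨l0, rfl⟩
    have hv0 : l0.1 = v := by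
      rw [hl0] at h
      have h2 : (some (l0.1, (l0.2.1 : ℕ), l0.2.2) : Option (Lab (Tor d M) d)) = some (v, j, e) := h
      exact (Prod.mk.inj (Option.some.inj h2)).1
    cases j with
    | zero =>
      rw [E1.mark_zero a v e h] at hl
      obtain ⟨e', he'⟩ := E1.canL_rec (K := K) hd v (stepA η a) η
      rw [hl] at he'
      have hv : l.1 = v := by
        have h2 : (some (l.1, (l.2.1 : ℕ), l.2.2) : Option (Lab (Tor d M) d)) = some (v, 0, e') := he'
        exact (Prod.mk.inj (Option.some.inj h2)).1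
      have ha' : a' = some l0 := eq_of_res ha hl0 (by rw [hv0, ← hv]; exact h0 hl')
      rw [← hl0] at ha'
      subst ha'
      rw [E1.mark_zero a' v e h]
      exact hl
    | succ k =>
      rw [E1.mark_succ a v k e h] at hl
      have hs : stepA η a = ZI.mv nbT η (v, k, e) := E1.stepA_some η a _ h
      rw [hs] at hl
      by_cases hk : k < η v
      · have h2 := canL_back hM hK η v k e hk
        rw [hl] at h2
        have hv : l.1 = v + tv (dv e) := by
          have h3 : (some (l.1, (l.2.1 : ℕ), l.2.2) : Option (Lab (Tor d M) d)) =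
            some (v + tv (dv e), 1, ZI.R2aux.ng e) := h2
          exact (Prod.mk.inj (Option.some.inj h3)).1
        have hvΛ : v ∈ Λ := by
          have h3 := h1 _ hl' e
          rwa [hv, add_sub_cancel_right] at h3
        have ha' : a' = some l0 := eq_of_res ha hl0 (by rw [hv0]; exact hvΛ)
        rw [← hl0] at ha'
        subst ha'
        have hs' : stepA η' a' = ZI.mv nbT η' (v, k, e) := E1.stepA_some η' a' _ h
        have hk' : k < η' v := by rw [← hη v hvΛ]; exact hk
        rw [E1.mark_succ a' v k e h, hs']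
        apply toLab_inj
        rw [canL_back hM hK η' v k e hk', h2]
      · rw [ZI.C5.mv_stay _ _ hk, E1.canL_stay hM2] at hl
        simp at hl

theorem res_eq_of {Λ : Set (Tor d M)} {r r' : Let d M K}
    (h1 : ∀ l, r = some l → l.1 ∈ Λ → r' = some l) (h2 : ∀ l, r' = some l → l.1 ∈ Λ → r = some l) :
    res Λ r = res Λ r' := by
  have none_of : ∀ {r : Let d M K}, (∀ l, r = some l → l.1 ∉ Λ) → res Λ r = none := by
    intro r h
    cases r with
    | none => rfl
    | some l => exact if_neg (h l rfl)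
  by_cases h : ∃ l, r = some l ∧ l.1 ∈ Λ
  · obtain ⟨l, hl, hl'⟩ := h
    rw [h1 l hl hl', hl]
  · by_cases h' : ∃ l, r' = some l ∧ l.1 ∈ Λ
    · obtain ⟨l, hl, hl'⟩ := h'
      rw [h2 l hl hl', hl]
    · rw [none_of fun l hl hl' => h ⟨l, hl, hl'⟩, none_of fun l hl hl' => h' ⟨l, hl, hl'⟩]

end rev

section par

variable {m : Model} {δ : ℝ} (q : Par d m δ)

/-- the configuration of the reversed word -/
theorem stt_rword (hd : 0 < d) (η : Tor d q.M → ℕ) (w : List (Let d q.M (q.K + 1))) (i : ℕ)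
    (hi : i ≤ w.length) :
    stt (stt η w w.length) (rword η w) i = stt η w (w.length - i) := by
  have hw : w = w.take (w.length - i) ++ w.drop (w.length - i) := (List.take_append_drop _ _).symm
  have hl : (rword (stt η w (w.length - i)) (w.drop (w.length - i))).length = i := by
    rw [SF3.rword_length q hd, List.length_drop]
    omega
  have hr : rword η w = rword (stt η w (w.length - i)) (w.drop (w.length - i)) ++
      rword η (w.take (w.length - i)) := by
    conv_lhs => rw [hw]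
    rw [SF3.rword_append]
    rfl
  have hf : stt η w w.length = (w.drop (w.length - i)).foldl stepA (stt η w (w.length - i)) := by
    unfold stt
    rw [List.take_length, ← List.foldl_append, ← hw]
  rw [hf]
  conv_lhs => unfold stt
  rw [hr, List.take_left' hl]
  exact SF3.foldl_rword q hd _ _

/-- the letters of the reversed word -/
theorem getD_rword (hd : 0 < d) (η : Tor d q.M → ℕ) (w : List (Let d q.M (q.K + 1))) (i : ℕ)
    (hi : i < w.length) :
    (rword η w).getD i none = canL (mark (w.getD (w.length - 1 - i) none))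
      (stepA (stt η w (w.length - 1 - i)) (w.getD (w.length - 1 - i) none))
      (stt η w (w.length - 1 - i)) := by
  obtain ⟨j, hj⟩ : ∃ j, j = w.length - 1 - i := ⟨_, rfl⟩
  rw [← hj]
  have hjl : j < w.length := by omega
  have hg : w.getD j none = w[j] := by
    rw [List.getD_eq_getElem?_getD, List.getElem?_eq_getElem hjl]
    rfl
  rw [hg]
  have hw : w = w.take j ++ w[j] :: w.drop (j + 1) := by
    rw [List.getElem_cons_drop, List.take_append_drop]
  have hl : (rword (stepA (stt η w j) w[j]) (w.drop (j + 1))).length = i := by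
    rw [SF3.rword_length q hd, List.length_drop]
    omega
  have hr : rword η w = rword (stepA (stt η w j) w[j]) (w.drop (j + 1)) ++
      (canL (mark w[j]) (stepA (stt η w j) w[j]) (stt η w j) :: rword η (w.take j)) := by
    conv_lhs => rw [hw]
    rw [SF3.rword_append, SF3.rword_cons, List.append_assoc]
    rfl
  rw [hr, List.getD_eq_getElem?_getD, List.getElem?_append_right (by rw [hl]), hl, Nat.sub_self]
  rfl

/-- the relation of the reversed words -/
theorem rel_rev (hd : 0 < d) {Λ Λ' : Set (Tor d q.M)} (h0 : Λ' ⊆ Λ)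
    (h1 : ∀ x ∈ Λ', ∀ e : Dir d, x - tv (dv e) ∈ Λ) (U : ℕ) (η η' : Tor d q.M → ℕ)
    (w w' : List (Let d q.M (q.K + 1))) (hw : w.length = U * q.N1) (hw' : w'.length = U * q.N1)
    (hR : Rel q.N1 Λ 0 U η w η' w') (hR' : Rel q.N1 Λ 0 U η' w' η w) :
    Rel q.N1 Λ' 0 U (stt η w w.length) (rword η w) (stt η' w' w'.length) (rword η' w') := by
  have hM : 3 ≤ q.M := by have := q.M_ge; omega
  have hK : 0 < q.K := by have := q.K_ge; omega
  have heq : ∀ i ≤ U * q.N1, ∀ v ∈ Λ, stt η w i v = stt η' w' i v := fun i hi v hv =>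
    le_antisymm (hR.cfg i (by simp) hi v hv) (hR'.cfg i (by simp) hi v hv)
  refine ⟨?_, ?_, ?_, ?_⟩
  · rw [SF3.rword_length q hd, hw]
  · rw [SF3.rword_length q hd, hw']
  · intro i _ hi v hv
    rw [stt_rword q hd η w i (by omega), stt_rword q hd η' w' i (by omega), hw, hw']
    exact (heq _ (by omega) v (h0 hv)).le
  · intro i _ hi
    rw [getD_rword q hd η w i (by omega), getD_rword q hd η' w' i (by omega), hw, hw']
    obtain ⟨j, hj⟩ : ∃ j, j = U * q.N1 - 1 - i := ⟨_, rfl⟩
    rw [← hj]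
    have hj' : j < U * q.N1 := by omega
    have hl := hR.lets j (by simp) hj'
    exact res_eq_of
      (fun l e1 e2 => canL_back_loc hd hM hK h0 h1 _ _ _ _ (heq j hj'.le) hl l e1 e2)
      (fun l e1 e2 => canL_back_loc hd hM hK h0 h1 _ _ _ _ (fun v hv => (heq j hj'.le v hv).symm)
        hl.symm l e1 e2)

theorem rel_take {M K N1 : ℕ} {Λ : Set (Tor d M)} {U : ℕ} {η η' : Tor d M → ℕ}
    {w w' : List (Let d M (K + 1))} (h : Rel N1 Λ 0 U η w η' w') :
    Rel N1 Λ 0 U η (w.take (U * N1)) η' (w'.take (U * N1)) where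
  len := by
    have := h.len
    rw [List.length_take, min_eq_left this]
  len' := by
    have := h.len'
    rw [List.length_take, min_eq_left this]
  cfg := by
    intro i h1 h2 v hv
    rw [SF2.stt_take _ _ _ _ h2, SF2.stt_take _ _ _ _ h2]
    exact h.cfg i h1 h2 v hv
  lets := by
    intro i h1 h2
    rw [SF2.getD_take _ _ _ _ h2, SF2.getD_take _ _ _ _ h2]
    exact h.lets i h1 h2

theorem sub_tv_mem {M : ℕ} {x : Tor d M} {ρ : ℕ} {v : Tor d M} (h : v ∈ Bt x ρ) (e : Dir d) :
    v - tv (dv e) ∈ Bt x (ρ + 1) := by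
  obtain ⟨y, hy, rfl⟩ := h
  refine ⟨y - dv e, ?_, ?_⟩
  · have h1 : ∀ j, (dv e j).natAbs ≤ 1 := by
      intro j
      unfold dv
      by_cases h : j = e.1
      · subst h
        rw [Pi.single_eq_same]
        split_ifs <;> simp
      · rw [Pi.single_eq_of_ne h]
        simp
    unfold supn at hy ⊢
    refine Finset.sup_le fun j hj => ?_
    have h2 : (y j).natAbs ≤ ρ := (Finset.le_sup (f := fun j => (y j).natAbs) hj).trans hy
    have h3 := h1 j
    have h4 : (y - dv e) j = y j - dv e j := rfl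
    rw [h4]
    omega
  · have h5 : (tv (y - dv e) : Tor d M) = tv y - tv (dv e) := by
      funext j
      simp [ZI.tv]
    rw [h5]
    abel

theorem bt_mono {M : ℕ} {x : Tor d M} {ρ ρ' : ℕ} (h : ρ ≤ ρ') : Bt x ρ ⊆ Bt x ρ' := by
  rintro v ⟨y, hy, rfl⟩
  exact ⟨y, hy.trans h, rfl⟩

/-- a pure time shift -/
theorem sft0_iff {M K : ℕ} (N1 t : ℕ) (E : Ev d M K) (η : Tor d M → ℕ) (w : List (Let d M (K + 1))) :
    sft N1 0 t E η w ↔ E (stt η w (t * N1)) (w.drop (t * N1)) := by
  have hx : (fun z => stt η w (t * N1) (z + tv (0 : Pos d))) = stt η w (t * N1) := by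
    funext z
    rw [SF1.tv_zero, add_zero]
  have hy : (w.drop (t * N1)).map (shL (-(tv (0 : Pos d)))) = w.drop (t * N1) := by
    rw [SF1.tv_zero, neg_zero]
    have : (shL 0 : Let d M (K + 1) → Let d M (K + 1)) = id := funext SF1.shL_zero
    rw [this, List.map_id]
  show E (fun z => stt η w (t * N1) (z + tv (0 : Pos d)))
    ((w.drop (t * N1)).map (shL (-(tv (0 : Pos d))))) ↔ _
  rw [hx, hy]

theorem sft_of {M K : ℕ} {N1 u t : ℕ} {y : Pos d} {E : Ev d M K} {η : Tor d M → ℕ}
    {w : List (Let d M (K + 1))} (h : sft N1 y t E (stt η w (u * N1)) (w.drop (u * N1))) :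
    sft N1 y (u + t) E η w := by
  have h1 := (sft0_iff N1 u (sft N1 y t E) η w).2 h
  rwa [sft_sft, zero_add] at h1

end par

end ZP.ML

namespace ZP.Rows

open ZP ZP.ML

variable {d : ℕ}

section ML

variable {m : Model} {δ : ℝ} (q : Par d m δ) (A : Prm)

theorem meet_local (hd : 0 < d) (hL : 1000 * (d + 1) ≤ A.L) (hγ : A.α + 12 ≤ A.γ)
    (hτ : A.τ ≤ A.L ^ 2) (hτ1 : 1 ≤ A.τ) (k : ℕ) (hk : 1 ≤ k) (c : Pos d) (H s' : ℕ)
    (η : Tor d q.M → ℕ) (w : List (Let d q.M (q.K + 1))) (hw : w.length = H * q.N1)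
    (h1 : 8 * A.T d k ≤ s') (h2 : s' + 8 * A.T d k ≤ H) :
    sft q.N1 0 (s' - 8 * A.T d k) (MeetL q.N1 A k c) η w → Meet q.N1 A k H s' c η w := by
  have hL1 : 1 ≤ A.L := by omega
  have hτT := tau_le_T A d hL1 k
  have hM1 := tm_membE (M := q.M) (K := q.K) (N1 := q.N1) A hL1 hγ k c
  intro h
  rw [sft0_iff] at h
  unfold MeetL Meet at h
  unfold Meet
  obtain ⟨T, hT⟩ : ∃ T, T = A.T d k := ⟨_, rfl⟩
  rw [← hT] at h1 h2 hτT h hM1 ⊢
  obtain ⟨u, rfl⟩ := Nat.exists_eq_add_of_le' h1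
  obtain ⟨v, rfl⟩ := Nat.exists_eq_add_of_le h2
  rw [Nat.add_sub_cancel] at h
  obtain ⟨g1, g2, g3⟩ := h
  refine ⟨?_, ?_, ?_⟩
  · -- the membership at the time `s'`
    have e : u + 8 * T - 3 * T = u + (8 * T - 3 * T) := by omega
    rw [e]
    refine sft_of ?_
    exact (((hM1.sft 0 (8 * T - 3 * T)).mono (by omega)) _ _).1 g1
  · -- the meeting cell
    refine sft_of ?_
    exact ((((tm_fopn A.L A.τ).sft (sm A.L c) (8 * T)).mono (by omega)) _ _).1 g2
  · -- the reversed membership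
    set ξ1 := stt η w (u * q.N1) with hξ1
    set w0 := w.take (u * q.N1) with hw0
    set w1 := (w.drop (u * q.N1)).take (16 * T * q.N1) with hw1
    set w2 := w.drop ((u + 16 * T) * q.N1) with hw2
    have hww : w = w0 ++ (w1 ++ w2) := by
      conv_lhs => rw [← List.take_append_drop (u * q.N1) w,
        ← List.take_append_drop (16 * T * q.N1) (w.drop (u * q.N1))]
      rw [List.drop_drop, ← Nat.add_mul]
    have hl1 : w1.length = 16 * T * q.N1 := by
      rw [hw1, List.length_take, List.length_drop, hw, ← Nat.sub_mul]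
      exact min_eq_left (Nat.mul_le_mul_right _ (by omega))
    have hl2 : w2.length = v * q.N1 := by
      rw [hw2, List.length_drop, hw, ← Nat.sub_mul]
      congr 1
      omega
    have hr : rword η w = rword (w1.foldl stepA ξ1) w2 ++ (rword ξ1 w1 ++ rword η w0) := by
      conv_lhs => rw [hww]
      rw [SF3.rword_append, SF3.rword_append, List.append_assoc]
      rfl
    have hf : stt η w w.length = w2.foldl stepA (w1.foldl stepA ξ1) := by
      unfold stt at hξ1 ⊢
      rw [List.take_length, hξ1, ← List.foldl_append, ← List.foldl_append, ← hw0, ← hww]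
    have hlr : (rword (w1.foldl stepA ξ1) w2).length = v * q.N1 := by
      rw [SF3.rword_length q hd, hl2]
    have hst : stt (stt η w w.length) (rword η w) (v * q.N1) = stt ξ1 w1 w1.length := by
      rw [hf]
      unfold stt
      rw [hr, List.take_left' hlr, List.take_length]
      exact SF3.foldl_rword q hd _ w2
    have hdr : (rword η w).drop (v * q.N1) = rword ξ1 w1 ++ rword η w0 := by
      rw [hr, List.drop_left' hlr]
    have e : u + 8 * T + 8 * T + v - (u + 8 * T + A.τ) - 3 * T =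
        v + (16 * T - (8 * T + A.τ) - 3 * T) := by omega
    rw [e]
    refine sft_of ?_
    rw [hst, hdr]
    have ht := (hM1.sft 0 (16 * T - (8 * T + A.τ) - 3 * T)).mono
      (show 16 * T - (8 * T + A.τ) - 3 * T + 8 * T ≤ 16 * T by omega)
    rw [← ht, List.take_left' (by rw [SF3.rword_length q hd, hl1])]
    exact g3

theorem meetL_loc (hd : 0 < d) (hL : 1000 * (d + 1) ≤ A.L) (hγ : A.α + 12 ≤ A.γ)
    (hτ : A.τ ≤ A.L ^ 2) (hτ1 : 1 ≤ A.τ) (k : ℕ) (hk : 1 ≤ k) (c : Pos d)
    (hM : 12 * A.S k + 4 * A.L ^ 2 + 20 ≤ q.M) :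
    LocE q.N1 (Bt (tv (sm A.L c) : Tor d q.M) (6 * A.S k + A.L ^ 2 + 3)) 0 (16 * A.T d k)
      (MeetL (K := q.K) q.N1 A k c) := by
  have hL1 : 1 ≤ A.L := by omega
  have hτT := tau_le_T A d hL1 k
  have hmem := membE_loc (K := q.K) q.N1 A hL hγ k c (show 12 * A.S k + 4 * A.L ^ 2 + 10 ≤ q.M by omega)
  have hfo := fopn_loc (d := d) (K := q.K) q.N1 A hL1 (show 2 * A.L ^ 2 + 4 ≤ q.M by omega)
  intro η w η' w' hR hR' h
  have hRt := rel_take hR
  have hRt' := rel_take hR'
  unfold MeetL at h ⊢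
  have hlw : (w.take (16 * A.T d k * q.N1)).length = 16 * A.T d k * q.N1 := by
    rw [List.length_take, min_eq_left hR.len]
  have hlw' : (w'.take (16 * A.T d k * q.N1)).length = 16 * A.T d k * q.N1 := by
    rw [List.length_take, min_eq_left hR.len']
  generalize w.take (16 * A.T d k * q.N1) = w1 at h hRt hRt' hlw
  generalize w'.take (16 * A.T d k * q.N1) = w1' at hRt hRt' hlw' ⊢
  obtain ⟨T, hT⟩ : ∃ T, T = A.T d k := ⟨_, rfl⟩
  unfold Meet at h ⊢
  rw [← hT] at h hRt hRt' hlw hlw' hmem hτT ⊢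
  obtain ⟨g1, g2, g3⟩ := h
  have sub0 : ∀ (Λ : Set (Tor d q.M)), {v : Tor d q.M | v - tv (0 : Pos d) ∈ Λ} = Λ := by
    intro Λ
    ext v
    show v - tv (0 : Pos d) ∈ Λ ↔ _
    rw [SF1.tv_zero, sub_zero]
  refine ⟨?_, ?_, ?_⟩
  · have h1 := LocE.sft q.N1 hmem 0 (8 * T - 3 * T)
    rw [sub0] at h1
    exact LocE.mono q.N1 h1 (bt_mono (by omega)) (by omega) (show _ ≤ 16 * T by omega)
      _ _ _ _ hRt hRt' g1
  · have h1 := LocE.sft q.N1 hfo (sm A.L c) (8 * T)
    refine LocE.mono q.N1 h1 ?_ (by omega) (show _ ≤ 16 * T by omega) _ _ _ _ hRt hRt' g2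
    rintro v ⟨y, hy, hv⟩
    refine ⟨y, hy.trans (by omega), ?_⟩
    rw [zero_add] at hv
    rw [← hv]
    abel
  · have h1 := LocE.sft q.N1 hmem 0 (16 * T - (8 * T + A.τ) - 3 * T)
    rw [sub0] at h1
    have h2 := LocE.mono q.N1 h1 subset_rfl (show 0 ≤ _ by omega) (show _ ≤ 16 * T by omega)
    have hsub : ∀ x ∈ Bt (tv (sm A.L c) : Tor d q.M) (6 * A.S k + A.L ^ 2 + 1), ∀ e : Dir d,
        x - tv (dv e) ∈ Bt (tv (sm A.L c) : Tor d q.M) (6 * A.S k + A.L ^ 2 + 3) :=
      fun x hx e => bt_mono (by omega) (sub_tv_mem hx e)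
    exact h2 _ _ _ _ (rel_rev q hd (bt_mono (by omega)) hsub (16 * T) _ _ _ _ hlw hlw' hRt hRt')
      (rel_rev q hd (bt_mono (by omega)) hsub (16 * T) _ _ _ _ hlw' hlw hRt' hRt) g3

/-- probability that the meeting property fails -/
theorem meetL_prob (hd : 0 < d) (hL : 1000 * (d + 1) ≤ A.L) (hγ : A.α + 12 ≤ A.γ)
    (hτ : A.τ ≤ A.L ^ 2) (hτ1 : 1 ≤ A.τ) (k : ℕ) (hk : 1 ≤ k) (c : Pos d)
    (hM : 12 * A.S k + 4 * A.L ^ 2 + 20 ≤ q.M)
    (h1 : ∀ (b : Bool) (c : Pos d), q.PP (8 * A.T d k * q.N1) (NMemb q.N1 A b k c) ≤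
      ENNReal.ofReal (1 / 64))
    (h2 : q.PP (A.τ * q.N1) (fun η w => ¬ FOpn q.N1 A.L A.τ η w) ≤ ENNReal.ofReal (1 / 32)) :
    q.PP (16 * A.T d k * q.N1) (fun η w => ¬ MeetL q.N1 A k c η w) ≤ ENNReal.ofReal (3 / 32) := by
  have hL1 : 1 ≤ A.L := by omega
  have hτT := tau_le_T A d hL1 k
  have hM1 : 12 * A.S k + 4 * A.L ^ 2 + 10 ≤ q.M := by omega
  have hM2 : 2 * A.L ^ 2 + 4 ≤ q.M := by omega
  have hM5 : 5 ≤ q.M := q.M_ge
  have hinc := nmemb_inc (K := q.K) q.N1 A hL hγ k c hM1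
  have hdec := nmemb_dec (K := q.K) q.N1 A hL hγ k c hM1
  have hmem := membE_loc (K := q.K) q.N1 A hL hγ k c hM1
  have hfo := fopn_loc (d := d) (K := q.K) q.N1 A hL1 hM2
  have hpth := membE_pth (K := q.K) q.N1 A hM5 k c
  have hnm := fun η w => not_membE (K := q.K) q.N1 A η w hL hγ hM2 k c
  have h1c := fun b => h1 b c
  unfold MeetL Meet
  obtain ⟨T, hT⟩ : ∃ T, T = A.T d k := ⟨_, rfl⟩
  rw [← hT] at hinc hdec hmem hτT h1c ⊢
  -- not being in a hub
  have key : q.PP (8 * T * q.N1) (fun η w => ¬ MembE q.N1 A k c η w) ≤ ENNReal.ofReal (1 / 32) := by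
    have h3 : q.PP (8 * T * q.N1) (fun η w => ¬ MembE q.N1 A k c η w) ≤
        q.PP (8 * T * q.N1) (NMemb q.N1 A true k c) + q.PP (8 * T * q.N1) (NMemb q.N1 A false k c) :=
      (PP_mono q _ (fun η w _ h => hnm η w h)).trans (PP_or q _ _ _)
    refine h3.trans ((add_le_add (h1c true) (h1c false)).trans ?_)
    rw [← ENNReal.ofReal_add (by norm_num) (by norm_num)]
    exact ENNReal.ofReal_le_ofReal (by norm_num)
  have key2 : ∀ t : ℕ, t + 8 * T ≤ 16 * T →
      q.PP (16 * T * q.N1) (fun η w => ¬ sft q.N1 0 t (MembE q.N1 A k c) η w) ≤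
        ENNReal.ofReal (1 / 32) := by
    intro t ht
    obtain ⟨v, hv⟩ := Nat.exists_eq_add_of_le ht
    have e : 16 * T * q.N1 = t * q.N1 + (8 * T + v) * q.N1 := by
      rw [← Nat.add_mul]
      congr 1
      omega
    have e2 : (fun (η : Tor d q.M → ℕ) (w : List (Let d q.M (q.K + 1))) =>
        ¬ sft q.N1 0 t (MembE q.N1 A k c) η w) =
        sft q.N1 0 t (fun η w => ¬ MembE q.N1 A k c η w) := rfl
    rw [e, e2, PP_sft q hd, PP_loc q hd (LocE.not q.N1 hmem) _ (Nat.mul_le_mul_right _ (by omega))]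
    exact key
  have key3 : q.PP (16 * T * q.N1)
      (fun η w => ¬ sft q.N1 (sm A.L c) (8 * T) (FOpn q.N1 A.L A.τ) η w) ≤ ENNReal.ofReal (1 / 32) := by
    have e : 16 * T * q.N1 = 8 * T * q.N1 + 8 * T * q.N1 := by
      rw [← Nat.add_mul]
      congr 1
      omega
    have e2 : (fun (η : Tor d q.M → ℕ) (w : List (Let d q.M (q.K + 1))) =>
        ¬ sft q.N1 (sm A.L c) (8 * T) (FOpn q.N1 A.L A.τ) η w) =
        sft q.N1 (sm A.L c) (8 * T) (fun η w => ¬ FOpn q.N1 A.L A.τ η w) := rfl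
    rw [e, e2, PP_sft q hd, PP_loc q hd (LocE.not q.N1 hfo) _ (Nat.mul_le_mul_right _ (by omega))]
    exact h2
  have key4 : q.PP (16 * T * q.N1)
      (fun η w => ¬ sft q.N1 0 (16 * T - (8 * T + A.τ) - 3 * T) (MembE q.N1 A k c)
        (stt η w w.length) (rword η w)) ≤ ENNReal.ofReal (1 / 32) := by
    have h3 := PP_rev q hd (16 * T * q.N1)
      (fun η w => ¬ sft q.N1 0 (16 * T - (8 * T + A.τ) - 3 * T) (MembE q.N1 A k c) η w) (by
        intro η w w' hp hm hE hE'
        exact hE (PthE.sft q.N1 hpth 0 _ η w' w hp.symm hm.symm hE'))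
    have h4 := key2 (16 * T - (8 * T + A.τ) - 3 * T) (by omega)
    rw [← h3] at h4
    exact h4
  have h5 : q.PP (16 * T * q.N1) (fun η w => ¬
      (sft q.N1 0 (8 * T - 3 * T) (MembE q.N1 A k c) η (w.take (16 * T * q.N1)) ∧
      sft q.N1 (sm A.L c) (8 * T) (FOpn q.N1 A.L A.τ) η (w.take (16 * T * q.N1)) ∧
      sft q.N1 0 (16 * T - (8 * T + A.τ) - 3 * T) (MembE q.N1 A k c)
        (stt η (w.take (16 * T * q.N1)) (w.take (16 * T * q.N1)).length)
        (rword η (w.take (16 * T * q.N1))))) ≤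
      q.PP (16 * T * q.N1) (fun η w => (¬ sft q.N1 0 (8 * T - 3 * T) (MembE q.N1 A k c) η w) ∨
        ((¬ sft q.N1 (sm A.L c) (8 * T) (FOpn q.N1 A.L A.τ) η w) ∨
        ¬ sft q.N1 0 (16 * T - (8 * T + A.τ) - 3 * T) (MembE q.N1 A k c)
          (stt η w w.length) (rword η w))) := by
    refine PP_mono q _ (fun η w hw h => ?_)
    rw [List.take_of_length_le hw.le] at h
    tauto
  refine h5.trans ((PP_or q _ _ _).trans ?_)
  refine (add_le_add (key2 _ (by omega)) ((PP_or q _ _ _).trans (add_le_add key3 key4))).trans ?_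
  rw [← ENNReal.ofReal_add (by norm_num) (by norm_num), ← ENNReal.ofReal_add (by norm_num) (by norm_num)]
  exact ENNReal.ofReal_le_ofReal (by norm_num)

end ML

end ZP.Rows
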