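import Pool.Agent.ZP.Trk
import Pool.Agent.ZP.Wf
import Pool.Agent.ZI.C5
import Pool.Agent.ZI.C6

/-! # A maximal inequality with a compensator, and the level cap -/

set_option autoImplicit false

open scoped ENNReal BigOperators Classical

noncomputable section

namespace ZPD

open ZI ZI.Rows ZI.R2aux ZP

variable {d : ℕ}

/-- maximal inequality with a compensator -/
theorem hits_le {σ α : Type} [Fintype α] (w : α → ℝ≥0∞) (hw : ∑ a, w a = 1) (step : σ → α → σ)
    (f h : σ → ℝ≥0∞) (hs : ∀ s, ∑ a, w a * f (step s a) ≤ f s + h s) (N : ℕ) : ∀ s : σ,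
    PrE w N (Hits step (fun s => 1 ≤ f s) s) ≤
      f s + ∑ i ∈ Finset.range N, EvE w i (fun l => h (l.foldl step s)) := by
  induction N with
  | zero =>
    intro s
    rw [PrE, EvE_zero, Finset.range_zero, Finset.sum_empty, add_zero]
    by_cases hb : 1 ≤ f s
    · rw [if_pos (show Hits step (fun s => 1 ≤ f s) s [] from hb)]
      exact hb
    · rw [if_neg (show ¬ Hits step (fun s => 1 ≤ f s) s [] from hb)]
      exact zero_le
  | succ N ih =>
    intro s
    by_cases hb : 1 ≤ f s
    · exact (PrE_le_one w hw _ _).trans (hb.trans le_self_add)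
    · rw [PrE, EvE_succ]
      have h1 : ∀ a, EvE w N (fun l => if Hits step (fun s => 1 ≤ f s) s (a :: l) then (1 : ℝ≥0∞) else 0) ≤
          f (step s a) + ∑ i ∈ Finset.range N, EvE w i (fun l => h (l.foldl step (step s a))) := by
        intro a
        refine le_trans (EvE_mono w N (fun l _ => ?_)) (ih (step s a))
        have h2 : Hits step (fun s => 1 ≤ f s) s (a :: l) ↔
            Hits step (fun s => 1 ≤ f s) (step s a) l := by
          rw [hits_cons]
          exact ⟨fun h => h.resolve_left hb, Or.inr⟩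
        simp only [h2, le_refl]
      refine (Finset.sum_le_sum fun a _ => mul_le_mul_right (h1 a) _).trans ?_
      simp only [mul_add, Finset.sum_add_distrib]
      rw [Finset.sum_range_succ', ← add_assoc, add_comm (f s) _, add_assoc]
      rw [add_comm]
      refine add_le_add ?_ ?_
      · refine le_of_eq ?_
        simp only [Finset.mul_sum]
        rw [Finset.sum_comm]
        refine Finset.sum_congr rfl fun i _ => ?_
        rw [EvE_succ]
        rfl
      · exact hs s

theorem hits_mono {σ α : Type} (step : σ → α → σ) {bad bad' : σ → Prop} (h : ∀ s, bad s → bad' s)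
    (l : List α) : ∀ s, Hits step bad s l → Hits step bad' s l := by
  induction l with
  | nil => exact h
  | cons a l ih =>
    intro s hs
    rcases hs with hs | hs
    · exact Or.inl (h s hs)
    · exact Or.inr (ih _ hs)

section stat

variable {m : Model} (q : Par d m)

/-- the stationary form -/
theorem hits_stat (hd : 0 < d) (f h : (Tor d q.M → ℕ) → ℝ≥0∞)
    (hs : ∀ η, ∑ a, q.w a * f (stepA η a) ≤ f η + h η) (N : ℕ) :
    ∑' η : Tor d q.M → ℕ, prw (m.m1 q.K) η * PrE q.w N (Hits stepA (fun η => 1 ≤ f η) η) ≤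
      (∑' η : Tor d q.M → ℕ, prw (m.m1 q.K) η * f η) +
        N * ∑' η : Tor d q.M → ℕ, prw (m.m1 q.K) η * h η := by
  refine (ENNReal.tsum_le_tsum fun η =>
    mul_le_mul_right (hits_le q.w (sum_w q hd) stepA f h hs N η) _).trans ?_
  simp only [mul_add]
  rw [ENNReal.tsum_add]
  refine add_le_add le_rfl (le_of_eq ?_)
  simp only [Finset.mul_sum]
  rw [Summable.tsum_finsetSum (fun i _ => ENNReal.summable)]
  have h1 : ∀ i ∈ Finset.range N, (∑' η : Tor d q.M → ℕ, prw (m.m1 q.K) η *
      EvE q.w i (fun l => h (l.foldl stepA η))) = ∑' η : Tor d q.M → ℕ, prw (m.m1 q.K) η * h η :=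
    fun i _ => stat_aux q hd h i
  rw [Finset.sum_congr rfl h1, Finset.sum_const, Finset.card_range, nsmul_eq_mul]

/-- the weight of one site -/
def fx (b : ℝ≥0∞) (x : Tor d q.M) (η : Tor d q.M → ℕ) : ℝ≥0∞ := b ^ (η x)

/-- the compensator of one site -/
def hx (b : ℝ≥0∞) (x : Tor d q.M) (η : Tor d q.M → ℕ) : ℝ≥0∞ :=
  ∑ y, ∑ e : Dir d, ENNReal.ofReal (m.gK q.K (η y) / (2 * d) * q.p) *
    (if x = y + tv (dv e) then (b - 1) * b ^ (η x) else 0)

theorem fx_step (hd : 0 < d) (b : ℝ≥0∞) (hb : 1 ≤ b) (x : Tor d q.M)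
    (η : Tor d q.M → ℕ) : ∑ a, q.w a * fx q b x (stepA η a) ≤ fx q b x η + hx q b x η := by
  have h0 : fx q b x η = ∑ a, q.w a * fx q b x η := by
    rw [← Finset.sum_mul, sum_w q hd, one_mul]
  have h1 : hx q b x η = ∑ a : Let d q.M q.K, q.w a * (match toLab a with
      | none => 0
      | some c => if c.2.1 < η c.1 then
          (if x = c.1 + tv (dv c.2.2) then (b - 1) * b ^ (η x) else 0) else 0) :=
    (C5.sum_letters q η (fun y e => if x = y + tv (dv e) then (b - 1) * b ^ (η x) else 0)).symm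
  rw [h1, h0, ← Finset.sum_add_distrib]
  refine Finset.sum_le_sum fun a _ => ?_
  rw [← mul_add]
  refine mul_le_mul_right ?_ _
  cases a with
  | none => exact le_self_add
  | some c =>
    obtain ⟨y, k, e⟩ := c
    show b ^ (mv nbT η (y, (k : ℕ), e) x) ≤ b ^ (η x) + (if (k : ℕ) < η y then
          (if x = y + tv (dv e) then (b - 1) * b ^ (η x) else 0) else 0)
    rw [mv_val]
    by_cases hk : (k : ℕ) < η y
    · rw [if_pos hk, if_pos hk]
      have h2 : (if x = y then η y - 1 else η x) ≤ η x := by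
        split_ifs with h
        · rw [h]; omega
        · exact le_rfl
      by_cases hxy : x = y + tv (dv e)
      · rw [if_pos hxy, if_pos hxy, pow_succ]
        have h3 : b ^ (η x) + (b - 1) * b ^ (η x) = b ^ (η x) * b := by
          rw [mul_comm (b - 1), ← mul_one_add, add_tsub_cancel_of_le hb]
        rw [h3]
        exact mul_le_mul_left (pow_le_pow_right₀ hb h2) _
      · rw [if_neg hxy, if_neg hxy, add_zero, add_zero]
        exact pow_le_pow_right₀ hb h2
    · rw [if_neg hk, if_neg hk, add_zero]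

theorem add_ne' (x y : Tor d q.M) (hne : x ≠ y) (η : Tor d q.M → ℕ) (n : ℕ) :
    Function.update η y n x = η x := Function.update_of_ne hne _ _

theorem hx_mean (hd : 0 < d) (b : ℝ≥0∞) (x : Tor d q.M) :
    ∑' η : Tor d q.M → ℕ, prw (m.m1 q.K) η * hx q b x η =
      ENNReal.ofReal q.p * (ENNReal.ofReal m.φ * ((b - 1) *
        ∑' η : Tor d q.M → ℕ, prw (m.m1 q.K) η * fx q b x η)) := by
  have hM : 2 ≤ q.M := by have := q.M_ge; omega
  have hp := q.p_pos
  set B : ℝ≥0∞ := ∑' η : Tor d q.M → ℕ, prw (m.m1 q.K) η * fx q b x η with hB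
  unfold hx
  simp only [Finset.mul_sum]
  rw [Summable.tsum_finsetSum (fun i _ => ENNReal.summable)]
  have h1 : ∀ y : Tor d q.M, (∑' η : Tor d q.M → ℕ, ∑ e : Dir d, prw (m.m1 q.K) η *
      (ENNReal.ofReal (m.gK q.K (η y) / (2 * d) * q.p) *
        (if x = y + tv (dv e) then (b - 1) * b ^ (η x) else 0))) =
      ∑ e : Dir d, (if y = x - tv (dv e) then
        ENNReal.ofReal (1 / (2 * d) * q.p) * (ENNReal.ofReal m.φ * ((b - 1) * B)) else 0) := by
    intro y
    rw [Summable.tsum_finsetSum (fun i _ => ENNReal.summable)]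
    refine Finset.sum_congr rfl fun e _ => ?_
    by_cases hxy : x = y + tv (dv e)
    · have hyx : y = x - tv (dv e) := by rw [hxy, add_sub_cancel_right]
      have hne : x ≠ y := by
        rw [hxy]
        exact add_tv_ne hM y e
      rw [if_pos hyx]
      simp only [if_pos hxy]
      have h2 : ∀ η : Tor d q.M → ℕ, prw (m.m1 q.K) η *
          (ENNReal.ofReal (m.gK q.K (η y) / (2 * d) * q.p) * ((b - 1) * b ^ (η x))) =
          (ENNReal.ofReal (1 / (2 * d) * q.p)) *
            (prw (m.m1 q.K) η * (ENNReal.ofReal (m.gK q.K (η y)) * ((b - 1) * fx q b x η))) := by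
        intro η
        have h3 : m.gK q.K (η y) / (2 * d) * q.p = (1 / (2 * d) * q.p) * m.gK q.K (η y) := by
          ring
        rw [h3, ENNReal.ofReal_mul (by positivity)]
        unfold fx
        ring
      rw [tsum_congr h2, ENNReal.tsum_mul_left, shift_prw q y (fun η => (b - 1) * fx q b x η)]
      congr 2
      have h4 : ∀ η : Tor d q.M → ℕ, prw (m.m1 q.K) η *
          ((b - 1) * fx q b x (Function.update η y (η y + 1))) =
          (b - 1) * (prw (m.m1 q.K) η * fx q b x η) := by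
        intro η
        unfold fx
        rw [Function.update_of_ne hne]
        ring
      rw [tsum_congr h4, ENNReal.tsum_mul_left]
    · have hyx : ¬ y = x - tv (dv e) := by
        intro h
        exact hxy (by rw [h, sub_add_cancel])
      rw [if_neg hyx]
      simp [if_neg hxy]
  rw [Finset.sum_congr rfl fun y _ => h1 y, Finset.sum_comm]
  have h5 : ∀ e : Dir d, (∑ y : Tor d q.M, (if y = x - tv (dv e) then
        ENNReal.ofReal (1 / (2 * d) * q.p) * (ENNReal.ofReal m.φ * ((b - 1) * B)) else 0)) =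
        ENNReal.ofReal (1 / (2 * d) * q.p) * (ENNReal.ofReal m.φ * ((b - 1) * B)) := by
    intro e
    rw [Finset.sum_ite_eq' Finset.univ (x - tv (dv e)), if_pos (Finset.mem_univ _)]
  rw [Finset.sum_congr rfl fun e _ => h5 e, Finset.sum_const, Finset.card_univ, nsmul_eq_mul,
    Fintype.card_prod, Fintype.card_fin, Fintype.card_bool, ← mul_assoc]
  congr 1
  rw [← ENNReal.ofReal_natCast, ← ENNReal.ofReal_mul (by positivity)]
  congr 1
  have hd' : (d : ℝ) ≠ 0 := by positivity
  push_cast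
  field_simp

/-- the cap on a finite set -/
theorem cap_sum (hd : 0 < d) (b : ℝ≥0∞) (hb : 1 ≤ b) (hbt : b ≠ ⊤) (S : Finset (Tor d q.M)) (N : ℕ) :
    ∑' η : Tor d q.M → ℕ, prw (m.m1 q.K) η *
      PrE q.w N (Hits stepA (capd q.K (S : Set (Tor d q.M))) η) ≤
      (1 + N * (ENNReal.ofReal q.p * (ENNReal.ofReal m.φ * (b - 1)))) * ((b ^ q.K)⁻¹ *
        ∑ x ∈ S, ∑' η : Tor d q.M → ℕ, prw (m.m1 q.K) η * fx q b x η) := by
  set c : ℝ≥0∞ := (b ^ q.K)⁻¹ with hc
  have hb0 : b ^ q.K ≠ 0 := by
    have : (1 : ℝ≥0∞) ≤ b ^ q.K := one_le_pow₀ hb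
    exact (lt_of_lt_of_le zero_lt_one this).ne'
  have hbt' : b ^ q.K ≠ ⊤ := ENNReal.pow_ne_top hbt
  have h1 : ∀ η : Tor d q.M → ℕ, ∑ a, q.w a * (c * ∑ x ∈ S, fx q b x (stepA η a)) ≤
      c * ∑ x ∈ S, fx q b x η + c * ∑ x ∈ S, hx q b x η := by
    intro η
    rw [← mul_add, ← Finset.sum_add_distrib]
    calc ∑ a, q.w a * (c * ∑ x ∈ S, fx q b x (stepA η a))
        = c * ∑ x ∈ S, ∑ a, q.w a * fx q b x (stepA η a) := by
          rw [Finset.sum_comm, Finset.mul_sum]
          refine Finset.sum_congr rfl fun a _ => ?_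
          rw [← Finset.mul_sum]
          ring
      _ ≤ c * ∑ x ∈ S, (fx q b x η + hx q b x η) :=
          mul_le_mul_right (Finset.sum_le_sum fun x _ => fx_step q hd b hb x η) _
  have h2 := hits_stat q hd (fun η => c * ∑ x ∈ S, fx q b x η) (fun η => c * ∑ x ∈ S, hx q b x η) h1 N
  have h3 : ∀ η : Tor d q.M → ℕ, capd q.K (S : Set (Tor d q.M)) η → 1 ≤ c * ∑ x ∈ S, fx q b x η := by
    rintro η ⟨x, hx, hK⟩
    have h4 : b ^ q.K ≤ ∑ x ∈ S, fx q b x η := by
      refine le_trans (pow_le_pow_right₀ hb hK) ?_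
      exact Finset.single_le_sum (f := fun x => fx q b x η) (fun _ _ => zero_le) hx
    calc (1 : ℝ≥0∞) = c * b ^ q.K := by rw [hc, ENNReal.inv_mul_cancel hb0 hbt']
      _ ≤ _ := mul_le_mul_right h4 _
  refine le_trans (ENNReal.tsum_le_tsum fun η => mul_le_mul_right (PrE_mono q.w N fun l _ hl =>
    hits_mono stepA h3 l η hl) _) (h2.trans ?_)
  have h5 : (∑' η : Tor d q.M → ℕ, prw (m.m1 q.K) η * (c * ∑ x ∈ S, fx q b x η)) =
      c * ∑ x ∈ S, ∑' η : Tor d q.M → ℕ, prw (m.m1 q.K) η * fx q b x η := by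
    rw [← Summable.tsum_finsetSum (fun i _ => ENNReal.summable), ← ENNReal.tsum_mul_left]
    refine tsum_congr fun η => ?_
    rw [← Finset.mul_sum]
    ring
  have h6 : (∑' η : Tor d q.M → ℕ, prw (m.m1 q.K) η * (c * ∑ x ∈ S, hx q b x η)) =
      (ENNReal.ofReal q.p * (ENNReal.ofReal m.φ * (b - 1))) *
        (c * ∑ x ∈ S, ∑' η : Tor d q.M → ℕ, prw (m.m1 q.K) η * fx q b x η) := by
    have h7 : (∑' η : Tor d q.M → ℕ, prw (m.m1 q.K) η * (c * ∑ x ∈ S, hx q b x η)) =
        c * ∑ x ∈ S, ∑' η : Tor d q.M → ℕ, prw (m.m1 q.K) η * hx q b x η := by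
      rw [← Summable.tsum_finsetSum (fun i _ => ENNReal.summable), ← ENNReal.tsum_mul_left]
      refine tsum_congr fun η => ?_
      rw [← Finset.mul_sum]
      ring
    rw [h7, Finset.sum_congr rfl fun x _ => hx_mean q hd b x, ← Finset.mul_sum, ← Finset.mul_sum,
      ← Finset.mul_sum]
    ring
  rw [h5, h6]
  refine le_of_eq ?_
  ring

end stat

end ZPD
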