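import Pool.Agent.ZP.SF1
import Pool.Agent.ZP.SF2

/-! # Row NM: not being in a hub, letters version (over the statements of BP and BK) -/

set_option autoImplicit false

open scoped ENNReal BigOperators Classical Pointwise

noncomputable section

namespace ZP.NM

open ZP ZP.Rows

variable {d : ℕ}

/-! ### scales -/

theorem S_succ (A : Prm) (k : ℕ) : A.S (k + 1) = A.S k ^ A.γ := by
  unfold Prm.S
  rw [pow_succ, pow_mul]

theorem S_ge (A : Prm) (hL : 2 ≤ A.L) (hγ : 2 ≤ A.γ) (k : ℕ) : A.L + k ≤ A.S k := by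
  induction k with
  | zero => simp [Prm.S]
  | succ k ih =>
    rw [S_succ]
    have h1 : 2 ≤ A.S k := by omega
    have h2 : A.S k ^ 2 ≤ A.S k ^ A.γ := Nat.pow_le_pow_right (by omega) hγ
    nlinarith

theorem S_mono (A : Prm) (hL : 2 ≤ A.L) (hγ : 2 ≤ A.γ) {l k : ℕ} (h : l ≤ k) :
    A.S l ≤ A.S k := by
  induction h with
  | refl => exact le_rfl
  | step _ ih =>
    refine ih.trans ?_
    rw [S_succ]
    exact Nat.le_self_pow (by omega) _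

theorem nt_pos (A : Prm) (hL : 1 ≤ A.L) (k : ℕ) : 0 < A.nt d k := by
  unfold Prm.nt Prm.n Prm.S
  have : 0 < A.L := hL
  positivity

theorem ix_pos (A : Prm) (hL : 1 ≤ A.L) (k : ℕ) : 0 < A.ix d k := by
  induction k with
  | zero => exact Nat.one_pos
  | succ k ih => exact Nat.mul_pos (nt_pos A hL k) ih

theorem ix_dvd (A : Prm) {l k : ℕ} (h : l ≤ k) : A.ix d l ∣ A.ix d k := by
  induction h with
  | refl => exact dvd_rfl
  | step _ ih => exact ih.trans (Dvd.intro_left _ rfl)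

theorem T_mono (A : Prm) (hL : 1 ≤ A.L) {l k : ℕ} (h : l ≤ k) : A.T d l ≤ A.T d k :=
  Nat.mul_le_mul_right _ (Nat.le_of_dvd (ix_pos A hL k) (ix_dvd A h))

theorem T_div (A : Prm) (hL : 1 ≤ A.L) {l k : ℕ} (h : l ≤ k) :
    A.ix d k / A.ix d l * A.T d l = A.T d k := by
  unfold Prm.T
  rw [← mul_assoc, Nat.div_mul_cancel (ix_dvd A h)]

theorem D_T_le (A : Prm) (hL : 1000 ≤ A.L) (hγ : A.α + 12 ≤ A.γ) {l k : ℕ} (h : l < k) :
    (A.D l + 4) * A.T d l ≤ 5 * A.T d k := by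
  have h1 : A.T d (l + 1) ≤ A.T d k := T_mono A (by omega) h
  have h2 : A.T d (l + 1) = A.nt d l * A.T d l := by
    show A.nt d l * A.ix d l * A.τ = A.nt d l * (A.ix d l * A.τ)
    rw [mul_assoc]
  have h3 : A.D l + 4 ≤ 5 * A.nt d l := by
    have hS : 1000 ≤ A.S l := by
      have := S_ge A (by omega) (by omega) l
      omega
    have h4 : A.S l ^ (A.α + 2) ≤ A.n l := by
      unfold Prm.n
      exact Nat.pow_le_pow_right (by omega) (by omega)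
    have h5 : A.nt d l = (8 * d + 8) * A.n l := rfl
    have h6 : A.D l = 100 * A.S l ^ (A.α + 1) := rfl
    have h7 : A.S l ^ (A.α + 2) = A.S l ^ (A.α + 1) * A.S l := pow_succ _ _
    have h8 : 1 ≤ A.S l ^ (A.α + 1) := Nat.one_le_pow _ _ (by omega)
    have h9 : A.n l ≤ A.nt d l := by
      rw [h5]
      exact Nat.le_mul_of_pos_left _ (by omega)
    rw [h6]
    nlinarith
  calc (A.D l + 4) * A.T d l ≤ (5 * A.nt d l) * A.T d l := Nat.mul_le_mul_right _ h3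
    _ = 5 * A.T d (l + 1) := by rw [h2, mul_assoc]
    _ ≤ 5 * A.T d k := Nat.mul_le_mul_left _ h1

/-! ### blocks near a block -/

/-- the blocks within the distance `D` -/
def nearB (P : Blk d) (D : ℕ) : Finset (Blk d) :=
  (Fintype.piFinset fun j => Finset.Icc (P.1 j - (D : ℤ)) (P.1 j + D)) ×ˢ
    Finset.Icc (P.2 - D) (P.2 + D)

theorem mem_nearB (P Q : Blk d) (D : ℕ) (h : bd Q P ≤ D) : Q ∈ nearB P D := by
  unfold bd at h
  have h1 : supn (Q.1 - P.1) ≤ D := (le_max_left _ _).trans h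
  have h2 : (((Q.2 : ℤ) - (P.2 : ℤ)).natAbs) ≤ D := (le_max_right _ _).trans h
  refine Finset.mem_product.2 ⟨?_, ?_⟩
  · rw [Fintype.mem_piFinset]
    intro j
    have h3 : ((Q.1 - P.1) j).natAbs ≤ D :=
      le_trans (Finset.le_sup (f := fun j => ((Q.1 - P.1) j).natAbs) (Finset.mem_univ j)) h1
    rw [Pi.sub_apply] at h3
    rw [Finset.mem_Icc]
    omega
  · rw [Finset.mem_Icc]
    omega

theorem card_nearB (P : Blk d) (D : ℕ) : (nearB P D).card ≤ (2 * D + 1) ^ (d + 1) := by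
  unfold nearB
  rw [Finset.card_product, Fintype.card_piFinset, pow_succ]
  refine Nat.mul_le_mul ?_ ?_
  · have h1 : ∀ j, (Finset.Icc (P.1 j - (D : ℤ)) (P.1 j + D)).card = 2 * D + 1 := by
      intro j
      rw [Int.card_Icc]
      omega
    rw [Finset.prod_congr rfl fun j _ => h1 j, Finset.prod_const, Finset.card_univ,
      Fintype.card_fin]
  · rw [Nat.card_Icc]
    omega

/-! ### the union bound -/

theorem nmemb_le {m : Model} {δ : ℝ} (q : Par d m δ) (hd : 0 < d) (A : Prm) (hL : 1000 ≤ A.L)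
    (hγ : A.α + 12 ≤ A.γ) (k : ℕ) (b : Bool) (c : Pos d) (X : ℕ → Ev d q.M q.K)
    (hX : ∀ l, X l = if b then BadP q.N1 A l else BadM q.N1 A l)
    (Λ : ℕ → Set (Tor d q.M)) (hloc : ∀ l < k, LocE q.N1 (Λ l) 0 (6 * A.T d l) (X l))
    (p : ℕ → ℝ≥0∞) (hp : ∀ l < k, q.PP (6 * A.T d l * q.N1) (X l) ≤ p l) :
    q.PP (8 * A.T d k * q.N1) (NMemb q.N1 A b k c) ≤
      ∑ l ∈ Finset.range k, ((2 * A.D l + 1) ^ (d + 1) : ℕ) * p l := by
  have h1 : q.PP (8 * A.T d k * q.N1) (NMemb q.N1 A b k c) ≤ q.PP (8 * A.T d k * q.N1)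
      (fun η w => ∃ l ∈ Finset.range k, ∃ Q ∈ (nearB (anc A l c, 3 * (A.ix d k / A.ix d l))
        (A.D l)).filter (fun Q => 2 ≤ Q.2),
        sft q.N1 (sm (A.S l) Q.1) ((Q.2 - 2) * A.T d l) (X l) η w) := by
    refine PP_mono q _ ?_
    rintro η w _ ⟨l, hl, Q, -, h2, h3, h4⟩
    refine ⟨l, Finset.mem_range.2 hl, Q, Finset.mem_filter.2 ⟨mem_nearB _ _ _ h2, h3⟩, ?_⟩
    rw [hX]
    exact h4
  refine h1.trans ((PP_finset q _ _ _).trans (Finset.sum_le_sum fun l hl => ?_))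
  rw [Finset.mem_range] at hl
  refine (PP_finset q _ _ _).trans ?_
  have h2 : ∀ Q ∈ (nearB (anc A l c, 3 * (A.ix d k / A.ix d l)) (A.D l)).filter
      (fun Q => 2 ≤ Q.2),
      q.PP (8 * A.T d k * q.N1) (sft q.N1 (sm (A.S l) Q.1) ((Q.2 - 2) * A.T d l) (X l)) ≤ p l := by
    intro Q hQ
    rw [Finset.mem_filter] at hQ
    have h3 : Q.2 ≤ 3 * (A.ix d k / A.ix d l) + A.D l := by
      have := (Finset.mem_product.1 hQ.1).2
      rw [Finset.mem_Icc] at this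
      exact this.2
    have h4 : (Q.2 - 2) * A.T d l + 6 * A.T d l ≤ 8 * A.T d k := by
      have h5 := D_T_le (d := d) A hL hγ hl
      have h6 := T_div (d := d) A (by omega) hl.le
      have h7 : (Q.2 - 2) * A.T d l + 6 * A.T d l = (Q.2 + 4) * A.T d l := by
        rw [← add_mul]
        congr 1
        omega
      rw [h7]
      calc (Q.2 + 4) * A.T d l ≤ (3 * (A.ix d k / A.ix d l) + A.D l + 4) * A.T d l :=
            Nat.mul_le_mul_right _ (by omega)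
        _ = 3 * (A.ix d k / A.ix d l * A.T d l) + (A.D l + 4) * A.T d l := by ring
        _ ≤ 3 * A.T d k + 5 * A.T d k := by rw [h6]; omega
        _ = 8 * A.T d k := by ring
    have h8 : 8 * A.T d k * q.N1 = (Q.2 - 2) * A.T d l * q.N1 +
        (8 * A.T d k - (Q.2 - 2) * A.T d l) * q.N1 := by
      rw [← add_mul]
      congr 1
      omega
    rw [h8, PP_sft q hd, PP_loc q hd (hloc l hl) _ (Nat.mul_le_mul_right _ (by omega))]
    exact hp l hl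
  refine (Finset.sum_le_card_nsmul _ _ _ h2).trans ?_
  rw [nsmul_eq_mul]
  refine mul_le_mul_left ?_ _
  exact_mod_cast (Finset.card_filter_le _ _).trans (card_nearB _ _)

/-! ### numbers -/

theorem exists_L0 (C : ℕ) : ∃ L0 : ℕ, ∀ s : ℕ, L0 ≤ s →
    (s : ℝ) ^ C * Real.exp (-(s : ℝ)) ≤ (1 / 2) ^ s := by
  have h1 : Filter.Tendsto (fun x : ℝ => x ^ C * Real.exp (-((1 - Real.log 2) * x)))
      Filter.atTop (nhds 0) := by
    have hb : 0 < 1 - Real.log 2 := by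
      have := Real.log_two_lt_d9
      linarith
    have h2 := Real.tendsto_pow_mul_exp_neg_atTop_nhds_zero C
    have h3 : Filter.Tendsto (fun x : ℝ => (1 - Real.log 2) * x) Filter.atTop Filter.atTop :=
      Filter.tendsto_id.const_mul_atTop hb
    have h4 := (h2.comp h3).const_mul (((1 - Real.log 2) ^ C)⁻¹)
    rw [mul_zero] at h4
    refine h4.congr fun x => ?_
    show ((1 - Real.log 2) ^ C)⁻¹ * (((1 - Real.log 2) * x) ^ C *
      Real.exp (-((1 - Real.log 2) * x))) = _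
    rw [mul_pow]
    field_simp
  have h5 := (h1.comp tendsto_natCast_atTop_atTop).eventually (gt_mem_nhds one_pos)
  obtain ⟨L0, hL0⟩ := h5.exists_forall_of_atTop
  refine ⟨L0, fun s hs => ?_⟩
  have h6 : (s : ℝ) ^ C * Real.exp (-((1 - Real.log 2) * s)) < 1 := hL0 s hs
  have h7 : Real.exp (-(s : ℝ)) = Real.exp (-((1 - Real.log 2) * s)) * (1 / 2) ^ s := by
    have h8 : ((1 : ℝ) / 2) ^ s = Real.exp (-(Real.log 2 * s)) := by
      rw [Real.exp_neg, mul_comm, Real.exp_nat_mul, Real.exp_log (by norm_num)]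
      rw [one_div, inv_pow]
    rw [h8, ← Real.exp_add]
    congr 1
    ring
  rw [h7, ← mul_assoc]
  exact mul_le_of_le_one_left (by positivity) h6.le

theorem sum_half (k L : ℕ) : ∑ l ∈ Finset.range k, ((1 : ℝ) / 2) ^ (L + l) ≤ 2 * (1 / 2) ^ L := by
  have h1 : ∑ l ∈ Finset.range k, ((1 : ℝ) / 2) ^ (L + l) =
      (1 / 2) ^ L * ∑ l ∈ Finset.range k, ((1 : ℝ) / 2) ^ l := by
    rw [Finset.mul_sum]
    exact Finset.sum_congr rfl fun l _ => pow_add _ _ _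
  have h2 : ∑ l ∈ Finset.range k, ((1 : ℝ) / 2) ^ l ≤ 2 := by
    have h3 := geom_sum_eq (x := (1 : ℝ) / 2) (by norm_num) k
    rw [h3]
    have h4 : (0 : ℝ) ≤ (1 / 2) ^ k := by positivity
    have h5 : ((1 : ℝ) / 2) ^ k ≤ 1 := pow_le_one₀ (by norm_num) (by norm_num)
    rw [div_le_iff_of_neg (by norm_num)]
    linarith
  rw [h1, mul_comm]
  exact mul_le_mul_of_nonneg_right h2 (by positivity)

/-- the sum of the probabilities -/
theorem sum_le (d α γ : ℕ) (hγ : α + 12 ≤ γ) : ∃ L0 : ℕ, 1000 * (d + 1) ≤ L0 ∧ ∀ A : Prm, A.α = α →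
    A.γ = γ → L0 ≤ A.L → ∀ p0 : ℝ, 0 ≤ p0 → (A.L : ℝ) ^ (3 * (d + 1) * (A.γ + 1)) * p0 ≤ 1 → ∀ k : ℕ,
    ∑ l ∈ Finset.range k, (((2 * A.D l + 1) ^ (d + 1) : ℕ) : ℝ) *
      (if l = 0 then p0 + Real.exp (-(A.L : ℝ)) else Real.exp (-(A.S (l - 1) : ℝ))) ≤ 1 / 64 := by
  obtain ⟨L1, hL1⟩ := exists_L0 (γ * ((α + 2) * (d + 1)))
  refine ⟨max (1000 * (d + 1)) L1, le_max_left _ _, ?_⟩
  rintro A hα rfl hL p0 hp0 hp1 k
  subst hα
  have hLa : 1000 * (d + 1) ≤ A.L := (le_max_left _ _).trans hL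
  have hL1' : L1 ≤ A.L := (le_max_right _ _).trans hL
  have hL1000 : 1000 ≤ A.L := by omega
  have hLr : (1000 : ℝ) ≤ (A.L : ℝ) := by exact_mod_cast hL1000
  -- size of the neighbourhoods
  have hD : ∀ l, (((2 * A.D l + 1) ^ (d + 1) : ℕ) : ℝ) ≤ (A.S l : ℝ) ^ ((A.α + 2) * (d + 1)) := by
    intro l
    have hS : 1000 ≤ A.S l := by
      have := S_ge A (by omega) (by omega) l
      omega
    have h1 : 2 * A.D l + 1 ≤ A.S l ^ (A.α + 2) := by
      have h6 : A.D l = 100 * A.S l ^ (A.α + 1) := rfl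
      have h8 : 1 ≤ A.S l ^ (A.α + 1) := Nat.one_le_pow _ _ (by omega)
      rw [h6, pow_succ _ (A.α + 1)]
      nlinarith
    calc (((2 * A.D l + 1) ^ (d + 1) : ℕ) : ℝ) ≤ (((A.S l ^ (A.α + 2)) ^ (d + 1) : ℕ) : ℝ) := by
          exact_mod_cast Nat.pow_le_pow_left h1 _
      _ = (A.S l : ℝ) ^ ((A.α + 2) * (d + 1)) := by
          push_cast
          rw [← pow_mul]
  -- the terms
  have hS0 : A.S 0 = A.L := by simp [Prm.S]
  have hlow : (1 : ℝ) / 2 ^ 0 = 1 := by norm_num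
  have hterm0 : (((2 * A.D 0 + 1) ^ (d + 1) : ℕ) : ℝ) * (p0 + Real.exp (-(A.L : ℝ))) ≤ 1 / 128 := by
    have h1 := hD 0
    rw [hS0] at h1
    have h2 : (A.L : ℝ) ^ ((A.α + 2) * (d + 1)) * p0 ≤ 1 / 1000 := by
      have h3 : (A.α + 2) * (d + 1) + 1 ≤ 3 * (d + 1) * (A.γ + 1) := by nlinarith
      have h4 : (A.L : ℝ) ^ ((A.α + 2) * (d + 1) + 1) ≤ (A.L : ℝ) ^ (3 * (d + 1) * (A.γ + 1)) :=
        pow_le_pow_right₀ (by linarith) h3
      have h5 : (A.L : ℝ) ^ ((A.α + 2) * (d + 1) + 1) * p0 ≤ 1 :=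
        (mul_le_mul_of_nonneg_right h4 hp0).trans hp1
      rw [pow_succ] at h5
      have h6 : 0 ≤ (A.L : ℝ) ^ ((A.α + 2) * (d + 1)) * p0 := by positivity
      nlinarith
    have h3 : (A.L : ℝ) ^ ((A.α + 2) * (d + 1)) * Real.exp (-(A.L : ℝ)) ≤ 1 / 1000 := by
      have h4 := hL1 A.L hL1'
      have h5 : (A.L : ℝ) ^ ((A.α + 2) * (d + 1)) ≤
          (A.L : ℝ) ^ (A.γ * ((A.α + 2) * (d + 1))) :=
        pow_le_pow_right₀ (by linarith) (Nat.le_mul_of_pos_left _ (by omega))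
      have h6 : ((1 : ℝ) / 2) ^ A.L ≤ (1 / 2) ^ 10 :=
        pow_le_pow_of_le_one (by norm_num) (by norm_num) (by omega)
      calc (A.L : ℝ) ^ ((A.α + 2) * (d + 1)) * Real.exp (-(A.L : ℝ))
          ≤ (A.L : ℝ) ^ (A.γ * ((A.α + 2) * (d + 1))) * Real.exp (-(A.L : ℝ)) :=
            mul_le_mul_of_nonneg_right h5 (Real.exp_pos _).le
        _ ≤ (1 / 2) ^ 10 := h4.trans h6
        _ ≤ 1 / 1000 := by norm_num
    have h4 : 0 ≤ p0 + Real.exp (-(A.L : ℝ)) := by positivity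
    calc _ ≤ (A.L : ℝ) ^ ((A.α + 2) * (d + 1)) * (p0 + Real.exp (-(A.L : ℝ))) :=
          mul_le_mul_of_nonneg_right h1 h4
      _ ≤ 1 / 1000 + 1 / 1000 := by rw [mul_add]; linarith
      _ ≤ 1 / 128 := by norm_num
  have hterm : ∀ l, (((2 * A.D (l + 1) + 1) ^ (d + 1) : ℕ) : ℝ) * Real.exp (-(A.S l : ℝ)) ≤
      (1 / 2) ^ (A.L + l) := by
    intro l
    have hS := S_ge A (by omega) (by omega) l
    have h1 := hD (l + 1)
    have h2 : (A.S (l + 1) : ℝ) ^ ((A.α + 2) * (d + 1)) =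
        (A.S l : ℝ) ^ (A.γ * ((A.α + 2) * (d + 1))) := by
      rw [S_succ]
      push_cast
      rw [← pow_mul]
    rw [h2] at h1
    calc _ ≤ (A.S l : ℝ) ^ (A.γ * ((A.α + 2) * (d + 1))) * Real.exp (-(A.S l : ℝ)) :=
          mul_le_mul_of_nonneg_right h1 (Real.exp_pos _).le
      _ ≤ (1 / 2) ^ A.S l := hL1 _ (by omega)
      _ ≤ (1 / 2) ^ (A.L + l) := pow_le_pow_of_le_one (by norm_num) (by norm_num) hS
  rcases k with _ | k
  · simp
  rw [Finset.sum_range_succ', if_pos rfl]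
  have h1 : ∑ l ∈ Finset.range k, (((2 * A.D (l + 1) + 1) ^ (d + 1) : ℕ) : ℝ) *
      (if l + 1 = 0 then p0 + Real.exp (-(A.L : ℝ)) else Real.exp (-(A.S (l + 1 - 1) : ℝ))) ≤
      1 / 128 := by
    calc _ ≤ ∑ l ∈ Finset.range k, ((1 : ℝ) / 2) ^ (A.L + l) := by
          refine Finset.sum_le_sum fun l _ => ?_
          rw [if_neg (Nat.succ_ne_zero l), Nat.add_sub_cancel]
          exact hterm l
      _ ≤ 2 * (1 / 2) ^ A.L := sum_half k A.L
      _ ≤ 2 * (1 / 2) ^ 10 := by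
          have h6 : ((1 : ℝ) / 2) ^ A.L ≤ (1 / 2) ^ 10 :=
            pow_le_pow_of_le_one (by norm_num) (by norm_num) (by omega)
          linarith
      _ ≤ 1 / 128 := by norm_num
  linarith

/-- numerical constants of the recursion (the value of `ZP.Rows.Cst`) -/
def CstV (d : ℕ) (A : Prm) : ℕ := 3 * (d + 1) * (A.γ + 1)

/-- the row NM over the statements of the rows BP and BK -/
theorem nmemb_prob_of (m : Model) (d : ℕ) (hd : 0 < d)
    (bad_prob : ∃ α0 : ℕ, ∀ α ≥ α0, ∀ γ ≥ α + 20, ∃ L0 : ℕ,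
    ∀ A : Prm, A.α = α → A.γ = γ → L0 ≤ A.L → A.L ≤ A.τ → A.τ ≤ A.L ^ 2 → ∀ (δ : ℝ) (q : Par d m δ)
    (n : ℕ), q.Tiny n → 4 * m.φ ≤ m.g q.K → ∀ p0 : ℝ, 0 ≤ p0 → (A.L : ℝ) ^ (CstV d A) * p0 ≤ 1 →
    (∀ (hφ : 0 < m.φ / 2) (hK : 2 * (m.φ / 2) ≤ m.g q.K),
      (q.wf (m.φ / 2) hφ hK).PP (A.τ * q.N1) (fun η w => ¬ Opn q.N1 A.L A.τ η w) ≤
        ENNReal.ofReal p0) →
    ∀ k : ℕ, A.S k ≤ n → 100 * A.S k + 10 * A.L ^ 2 ≤ q.M →
    ∀ (φ' : ℝ) (h' : 0 < φ') (hK' : 2 * φ' ≤ m.g q.K), 7 / 8 * m.φ ≤ φ' → φ' ≤ 9 / 8 * m.φ →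
    (q.wf φ' h' hK').PP (6 * A.T d k * q.N1) (BadM q.N1 A k) ≤
      ENNReal.ofReal (if k = 0 then p0 + Real.exp (-(A.L : ℝ)) else Real.exp (-(A.S (k - 1) : ℝ))) ∧
    (q.wf φ' h' hK').PP (6 * A.T d k * q.N1) (BadP q.N1 A k) ≤
      ENNReal.ofReal (if k = 0 then 0 else Real.exp (-(A.S (k - 1) : ℝ))))
    (badM_dec : ∀ (M K N1 : ℕ) (A : Prm), 1000 * (d + 1) ≤ A.L → A.α + 12 ≤ A.γ → ∀ k : ℕ,
      12 * A.S k + 4 * A.L ^ 2 + 10 ≤ M →
      DecE N1 (Bt (0 : Tor d M) (6 * A.S k + A.L ^ 2 + 1)) 0 (6 * A.T d k) (BadM (K := K) N1 A k))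
    (badP_inc : ∀ (M K N1 : ℕ) (A : Prm), 1000 * (d + 1) ≤ A.L → A.α + 12 ≤ A.γ → ∀ k : ℕ,
      12 * A.S k + 4 * A.L ^ 2 + 10 ≤ M →
      IncE N1 (Bt (0 : Tor d M) (6 * A.S k + A.L ^ 2 + 1)) 0 (6 * A.T d k) (BadP (K := K) N1 A k)) :
    ∃ α0 : ℕ, ∀ α ≥ α0, ∀ γ ≥ α + 20, ∃ L0 : ℕ,
    ∀ A : Prm, A.α = α → A.γ = γ → L0 ≤ A.L → A.L ≤ A.τ → A.τ ≤ A.L ^ 2 → ∀ (δ : ℝ) (q : Par d m δ)
    (n : ℕ), q.Tiny n → 4 * m.φ ≤ m.g q.K → ∀ p0 : ℝ, 0 ≤ p0 → (A.L : ℝ) ^ (CstV d A) * p0 ≤ 1 →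
    (∀ (hφ : 0 < m.φ / 2) (hK : 2 * (m.φ / 2) ≤ m.g q.K),
      (q.wf (m.φ / 2) hφ hK).PP (A.τ * q.N1) (fun η w => ¬ Opn q.N1 A.L A.τ η w) ≤
        ENNReal.ofReal p0) →
    ∀ k : ℕ, A.S k ≤ n → 100 * A.S k + 10 * A.L ^ 2 ≤ q.M →
    ∀ (φ' : ℝ) (h' : 0 < φ') (hK' : 2 * φ' ≤ m.g q.K), 7 / 8 * m.φ ≤ φ' → φ' ≤ 9 / 8 * m.φ →
    ∀ (b : Bool) (c : Pos d),
    (q.wf φ' h' hK').PP (8 * A.T d k * q.N1) (NMemb q.N1 A b k c) ≤ ENNReal.ofReal (1 / 64) := by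
  obtain ⟨α0, hα0⟩ := bad_prob
  refine ⟨α0, fun α hα γ hγ => ?_⟩
  obtain ⟨L1, hL1⟩ := hα0 α hα γ hγ
  obtain ⟨L2, hL2, hsum⟩ := sum_le d α γ (by omega)
  refine ⟨max L1 L2, ?_⟩
  intro A hAα hAγ hL hτ hτ2 δ q n hT hg p0 hp0 hp1 hopn k hk hM φ' h' hK' h7 h9 b c
  have hLd : 1000 * (d + 1) ≤ A.L := hL2.trans ((le_max_right _ _).trans hL)
  have hγ12 : A.α + 12 ≤ A.γ := by omega
  have hSk : ∀ l < k, A.S l ≤ A.S k := fun l hl => S_mono A (by omega) (by omega) hl.le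
  have hLL : 10 ≤ A.L ^ 2 := by nlinarith
  have hMl : ∀ l < k, 12 * A.S l + 4 * A.L ^ 2 + 10 ≤ q.M := by
    intro l hl
    have := hSk l hl
    omega
  have hbad : ∀ l < k, (q.wf φ' h' hK').PP (6 * A.T d l * q.N1)
      (if b then BadP q.N1 A l else BadM q.N1 A l) ≤
      ENNReal.ofReal (if l = 0 then p0 + Real.exp (-(A.L : ℝ)) else Real.exp (-(A.S (l - 1) : ℝ))) := by
    intro l hl
    obtain ⟨h1, h2⟩ := hL1 A hAα hAγ ((le_max_left _ _).trans hL) hτ hτ2 δ q n hT hg p0 hp0 hp1 hopn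
      l ((hSk l hl).trans hk) (by have := hSk l hl; omega) φ' h' hK' h7 h9
    cases b with
    | false => simpa using h1
    | true =>
      refine le_trans (by simpa using h2) (ENNReal.ofReal_le_ofReal ?_)
      split_ifs with h0
      · positivity
      · exact le_rfl
  have hmain := nmemb_le (q.wf φ' h' hK') hd A (by omega) hγ12 k b c
    (fun l => if b then BadP q.N1 A l else BadM q.N1 A l) (fun l => rfl)
    (fun l => Bt (0 : Tor d q.M) (6 * A.S l + A.L ^ 2 + 1))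
    (fun l hl => by
      cases b with
      | false =>
        exact DecE.loc _ (badM_dec q.M q.K q.N1 A hLd hγ12 l (hMl l hl))
      | true =>
        exact IncE.loc _ (badP_inc q.M q.K q.N1 A hLd hγ12 l (hMl l hl)))
    (fun l => ENNReal.ofReal (if l = 0 then p0 + Real.exp (-(A.L : ℝ)) else
      Real.exp (-(A.S (l - 1) : ℝ)))) hbad
  refine le_trans hmain ?_
  have hnn : ∀ l : ℕ, 0 ≤ (if l = 0 then p0 + Real.exp (-(A.L : ℝ)) else
      Real.exp (-(A.S (l - 1) : ℝ))) := by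
    intro l
    split_ifs <;> positivity
  have h3 : ∑ l ∈ Finset.range k, ((2 * A.D l + 1) ^ (d + 1) : ℕ) *
      ENNReal.ofReal (if l = 0 then p0 + Real.exp (-(A.L : ℝ)) else
        Real.exp (-(A.S (l - 1) : ℝ))) =
      ENNReal.ofReal (∑ l ∈ Finset.range k, (((2 * A.D l + 1) ^ (d + 1) : ℕ) : ℝ) *
        (if l = 0 then p0 + Real.exp (-(A.L : ℝ)) else Real.exp (-(A.S (l - 1) : ℝ)))) := by
    rw [ENNReal.ofReal_sum_of_nonneg fun l _ => mul_nonneg (Nat.cast_nonneg _) (hnn l)]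
    refine Finset.sum_congr rfl fun l _ => ?_
    rw [ENNReal.ofReal_mul (Nat.cast_nonneg _), ENNReal.ofReal_natCast]
  rw [h3]
  exact ENNReal.ofReal_le_ofReal (hsum A hAα hAγ ((le_max_right _ _).trans hL) p0 hp0 hp1 k)

end ZP.NM
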