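import Pool.Agent.ZP.SF1
import Pool.Agent.ZP.SF2
import Pool.Agent.ZP.ML
import Pool.Agent.ZP.SI
import Pool.Agent.ZI.PPc

/-! # Row P2: meeting cells exist -/

set_option autoImplicit false

open scoped ENNReal BigOperators Classical Pointwise

noncomputable section

namespace ZP.P2

open ZP ZP.Rows

variable {d : ℕ}

/-! ### the scales -/

theorem nx_succ (A : Prm) (k : ℕ) : A.nx (k + 1) = A.n k * A.nx k := rfl

theorem S_pos (A : Prm) (hL : 1 ≤ A.L) (k : ℕ) : 1 ≤ A.S k := Nat.one_le_pow _ _ hL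

theorem n_pos (A : Prm) (hL : 1 ≤ A.L) (k : ℕ) : 1 ≤ A.n k := Nat.one_le_pow _ _ (S_pos A hL k)

theorem nx_pos (A : Prm) (hL : 1 ≤ A.L) (k : ℕ) : 1 ≤ A.nx k := by
  induction k with
  | zero => exact le_rfl
  | succ k ih =>
    rw [nx_succ]
    exact Nat.mul_pos (n_pos A hL k) ih

theorem nx_dvd (A : Prm) {l k : ℕ} (h : l ≤ k) : A.nx l ∣ A.nx k := by
  induction k, h using Nat.le_induction with
  | base => exact dvd_rfl
  | succ k _ ih =>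
    rw [nx_succ]
    exact ih.mul_left _

theorem S_succ (A : Prm) (hγ : 1 ≤ A.γ) (k : ℕ) : A.S (k + 1) = A.n k * A.S k := by
  unfold Prm.n Prm.S
  rw [← pow_succ, Nat.sub_add_cancel hγ, ← pow_mul, ← pow_succ]

theorem S_eq (A : Prm) (hγ : 1 ≤ A.γ) (k : ℕ) : A.S k = A.nx k * A.L := by
  induction k with
  | zero =>
    unfold Prm.S Prm.nx
    rw [pow_zero, pow_one, one_mul]
  | succ k ih => rw [S_succ A hγ, ih, nx_succ, mul_assoc]

theorem nx_le_ix (A : Prm) (k : ℕ) : A.nx k ≤ A.ix d k := by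
  induction k with
  | zero => exact le_rfl
  | succ k ih =>
    change A.n k * A.nx k ≤ (8 * d + 8) * A.n k * A.ix d k
    calc A.n k * A.nx k ≤ A.n k * A.ix d k := Nat.mul_le_mul_left _ ih
      _ ≤ (8 * d + 8) * (A.n k * A.ix d k) := Nat.le_mul_of_pos_left _ (by omega)
      _ = _ := by ring

theorem S_le_T (A : Prm) (hγ : 1 ≤ A.γ) (hτ : A.L ≤ A.τ) (k : ℕ) : A.S k ≤ A.T d k := by
  rw [S_eq A hγ]
  exact Nat.mul_le_mul (nx_le_ix A k) hτ

theorem nx_le_T (A : Prm) (hτ : 1 ≤ A.τ) (k : ℕ) : A.nx k ≤ A.T d k := by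
  have h := Nat.mul_le_mul (nx_le_ix (d := d) A k) hτ
  rw [mul_one] at h
  exact h

/-! ### periodicity -/

theorem anc_shift (A : Prm) (hL : 1 ≤ A.L) {l k : ℕ} (h : l ≤ k) (M : ℕ) (c v : Pos d) :
    anc A l (c + sm (M * A.nx k) v) = anc A l c + sm (M * (A.nx k / A.nx l)) v := by
  obtain ⟨e, he⟩ := nx_dvd A h
  have hp : 0 < A.nx l := nx_pos A hL l
  funext t
  have h1 : A.nx k / A.nx l = e := by rw [he]; exact Nat.mul_div_cancel_left e hp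
  unfold anc sm
  rw [h1, he]
  change (c t + ((M * (A.nx l * e) : ℕ) : ℤ) * v t) / (A.nx l : ℤ) =
    c t / (A.nx l : ℤ) + ((M * e : ℕ) : ℤ) * v t
  have h2 : c t + ((M * (A.nx l * e) : ℕ) : ℤ) * v t =
      c t + (((M * e : ℕ) : ℤ) * v t) * (A.nx l : ℤ) := by push_cast; ring
  rw [h2, Int.add_mul_ediv_right _ _ (by exact_mod_cast hp.ne')]

theorem tv_sm_shift (M s e : ℕ) (x v : Pos d) :
    (tv (sm s (x + sm (M * e) v)) : Tor d M) = tv (sm s x) := by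
  funext t
  unfold ZI.tv sm
  change (((s : ℤ) * (x t + ((M * e : ℕ) : ℤ) * v t) : ℤ) : ZMod M) = (((s : ℤ) * x t : ℤ) : ZMod M)
  push_cast
  rw [ZMod.natCast_self]
  ring

section per

variable {M K : ℕ} (N1 : ℕ) (A : Prm)

theorem badW_shift (η : Tor d M → ℕ) (w : List (Let d M (K + 1))) (a : ℕ) (b : Bool) (l e : ℕ)
    (x v : Pos d) (i : ℕ) :
    badW N1 A η w a b l (x + sm (M * e) v, i) ↔ badW N1 A η w a b l (x, i) := by
  unfold badW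
  rw [SF2.sft_tv N1 (sm (A.S l) (x + sm (M * e) v)) (sm (A.S l) x) (tv_sm_shift M _ e x v)]

theorem badA_shift (η : Tor d M → ℕ) (w : List (Let d M (K + 1))) (a : ℕ) (l e : ℕ)
    (x v : Pos d) (i : ℕ) :
    badA N1 A η w a l (x + sm (M * e) v, i) ↔ badA N1 A η w a l (x, i) := by
  unfold badA Bad
  rw [badW_shift, badW_shift]

theorem memb_shift (hL : 1 ≤ A.L) (η : Tor d M → ℕ) (w : List (Let d M (K + 1))) (a k : ℕ)
    (c v : Pos d) (j : ℕ) (h : Memb A (badA N1 A η w a) k c j) :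
    Memb A (badA N1 A η w a) k (c + sm (M * A.nx k) v) j := by
  intro l hl Q hQ hbd hbad
  rw [anc_shift A hL hl.le] at hbd
  rw [anc_shift A hL (by omega : l + 1 ≤ k)] at hQ
  set e := A.nx k / A.nx l with he
  have hne : A.n l * (A.nx k / A.nx (l + 1)) = e := by
    obtain ⟨f, hf⟩ := nx_dvd A (by omega : l + 1 ≤ k)
    have hp : 0 < A.nx l := nx_pos A hL l
    have hp' : 0 < A.nx (l + 1) := nx_pos A hL (l + 1)
    rw [he, hf, Nat.mul_div_cancel_left f hp', nx_succ]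
    rw [show A.n l * A.nx l * f = A.nx l * (A.n l * f) by ring, Nat.mul_div_cancel_left _ hp]
  obtain ⟨x, i⟩ := Q
  have hx : x = (x - sm (M * e) v) + sm (M * e) v := by rw [sub_add_cancel]
  rw [hx] at hbad
  rw [badA_shift] at hbad
  refine h l hl (x - sm (M * e) v, i) ?_ ?_ hbad
  · obtain ⟨h1, h2, h3⟩ := hQ
    refine ⟨fun t => ?_, h2, h3⟩
    have h4 := h1 t
    have h5 : ((A.n l : ℕ) : ℤ) * ((anc A (l + 1) c + sm (M * (A.nx k / A.nx (l + 1))) v) t) =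
        (A.n l : ℤ) * anc A (l + 1) c t + sm (M * e) v t := by
      unfold sm
      change (A.n l : ℤ) * (anc A (l + 1) c t + ((M * (A.nx k / A.nx (l + 1)) : ℕ) : ℤ) * v t) =
        (A.n l : ℤ) * anc A (l + 1) c t + ((M * e : ℕ) : ℤ) * v t
      rw [← hne]
      push_cast
      ring
    rw [h5] at h4
    change (A.n l : ℤ) * anc A (l + 1) c t - 4 * (A.n l : ℤ) ≤ x t - sm (M * e) v t ∧
      x t - sm (M * e) v t ≤ (A.n l : ℤ) * anc A (l + 1) c t + 4 * (A.n l : ℤ)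
    constructor
    · linarith [h4.1]
    · linarith [h4.2]
  · have h6 : bd (x - sm (M * e) v, i) (anc A l c, j * (A.ix d k / A.ix d l)) =
        bd (x, i) (anc A l c + sm (M * e) v, j * (A.ix d k / A.ix d l)) := by
      unfold bd
      have h7 : x - sm (M * e) v - anc A l c = x - (anc A l c + sm (M * e) v) := by abel
      rw [h7]
    rw [h6]
    exact hbd

theorem meet_shift (hL : 1 ≤ A.L) (k H s' : ℕ) (c v : Pos d) (η : Tor d M → ℕ)
    (w : List (Let d M (K + 1))) (h : Meet N1 A k H s' c η w) :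
    Meet N1 A k H s' (c + sm (M * A.nx k) v) η w := by
  obtain ⟨h1, h2, h3⟩ := h
  refine ⟨memb_shift N1 A hL _ _ 0 k c v 3 h1, ?_, memb_shift N1 A hL _ _ 0 k c v 3 h3⟩
  rw [SF2.sft_tv N1 (sm A.L (c + sm (M * A.nx k) v)) (sm A.L c) (tv_sm_shift M _ _ c v)]
  exact h2

end per

theorem dg_shift (c : Pos d) (P : ℕ) (v : Pos d) (s : ℕ) : dg (c + sm P v) s = dg c s + sm P v := by
  funext t
  unfold dg
  change c t + sm P v t + (s : ℤ) = c t + (s : ℤ) + sm P v t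
  ring

theorem reduce (P : ℕ) (hP : 0 < P) (c : Pos d) :
    ∃ (i : Fin d → Fin P) (v : Pos d), c = (fun j => ((i j : ℕ) : ℤ)) + sm P v := by
  have hP' : (0 : ℤ) < P := by exact_mod_cast hP
  refine ⟨fun j => ⟨(c j % P).toNat, ?_⟩, fun j => c j / P, ?_⟩
  · have h1 := Int.emod_nonneg (c j) hP'.ne'
    have h2 := Int.emod_lt_of_pos (c j) hP'
    omega
  · funext j
    have h1 := Int.emod_nonneg (c j) hP'.ne'
    change c j = (((c j % P).toNat : ℕ) : ℤ) + (P : ℤ) * (c j / P)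
    rw [Int.toNat_of_nonneg h1]
    exact (Int.emod_add_mul_ediv (c j) P).symm

/-! ### numerical facts -/

theorem growthT (C : ℕ) : ∃ T0 : ℕ, ∀ T : ℕ, T0 ≤ T → ∀ x : ℝ, 0 ≤ x → x ≤ 2 * (T : ℝ) ^ 2 →
    C * x ^ C * Real.exp (C * (16 * T) - (T : ℝ) ^ 2) ≤ Real.exp (-(T : ℝ)) := by
  obtain ⟨r0, h0⟩ := ZI.Rows.T1.growth C (2 * C) 1 one_pos
  refine ⟨r0 + (16 * C + 2), fun T hT x hx0 hx => ?_⟩
  have h1 := h0 T (by omega)
  have h2 : (16 * C + 2 : ℝ) ≤ T := by exact_mod_cast (by omega : 16 * C + 2 ≤ T)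
  have hT0 : (0 : ℝ) ≤ T := Nat.cast_nonneg T
  have h3 : x ^ C ≤ (2 * (T : ℝ)) ^ (2 * C) := by
    rw [pow_mul]
    refine pow_le_pow_left₀ hx0 (hx.trans ?_) C
    nlinarith
  calc C * x ^ C * Real.exp (C * (16 * T) - (T : ℝ) ^ 2)
      ≤ C * (2 * (T : ℝ)) ^ (2 * C) * Real.exp (C * (16 * T) - (T : ℝ) ^ 2) := by gcongr
    _ ≤ Real.exp (1 * T) * Real.exp (C * (16 * T) - (T : ℝ) ^ 2) := by gcongr
    _ = Real.exp (1 * T + (C * (16 * T) - (T : ℝ) ^ 2)) := by rw [← Real.exp_add]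
    _ ≤ Real.exp (-(T : ℝ)) := by
      refine Real.exp_le_exp.2 ?_
      nlinarith [mul_le_mul_of_nonneg_right h2 hT0]

theorem tiny_bound {m : Model} {δ : ℝ} (q : Par d m δ) {n T : ℕ} (hT : 30 ≤ T) (hn : T ^ 4 ≤ n)
    (hq : q.Tiny n) : ((16 * T : ℕ) : ℝ≥0∞) * q.N1 *
      ENNReal.ofReal ((q.M : ℝ) ^ d * (m.g q.K + δ) * q.p) ^ 2 ≤ ENNReal.ofReal (Real.exp (-(T : ℝ))) := by
  have hg : 0 ≤ m.g q.K := by
    have h1 := q.K_big
    have h2 := m.φ_pos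
    linarith
  have hδ := q.δ_nn
  have hp := q.p_pos.le
  have hM : (0 : ℝ) ≤ (q.M : ℝ) ^ d := by positivity
  have h0 : ((16 * T : ℕ) : ℝ≥0∞) = ENNReal.ofReal (16 * T) := by
    rw [← ENNReal.ofReal_natCast]
    push_cast
    rfl
  have h1 : ((16 * T : ℕ) : ℝ≥0∞) * q.N1 * ENNReal.ofReal ((q.M : ℝ) ^ d * (m.g q.K + δ) * q.p) ^ 2 =
      ENNReal.ofReal ((16 * T : ℝ) * q.N1 * ((q.M : ℝ) ^ d * (m.g q.K + δ) * q.p) ^ 2) := by
    rw [h0, ← ENNReal.ofReal_natCast q.N1, ← ENNReal.ofReal_pow (by positivity),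
      ← ENNReal.ofReal_mul (by positivity), ← ENNReal.ofReal_mul (by positivity)]
  rw [h1]
  refine ENNReal.ofReal_le_ofReal ?_
  have hN : (q.N1 : ℝ) * q.p ≤ 1 := q.p_ub
  have hNn : (0 : ℝ) ≤ q.N1 := Nat.cast_nonneg _
  have h2 : ((q.M : ℝ) ^ d * (m.g q.K + δ)) ^ 2 * q.p ≤ Real.exp (-(n : ℝ)) := by
    refine le_trans ?_ hq.2
    rw [mul_pow, ← pow_mul, mul_comm d 2]
    have h7 : (m.g q.K + δ) ^ 2 ≤ (m.g q.K + δ + 1) ^ 2 :=
      pow_le_pow_left₀ (by positivity) (by linarith) 2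
    exact mul_le_mul_of_nonneg_right (mul_le_mul_of_nonneg_left h7 (by positivity)) hp
  have hT0 : (30 : ℝ) ≤ T := by exact_mod_cast hT
  have h3 : (16 * T : ℝ) * q.N1 * ((q.M : ℝ) ^ d * (m.g q.K + δ) * q.p) ^ 2 =
      16 * T * (q.N1 * q.p) * (((q.M : ℝ) ^ d * (m.g q.K + δ)) ^ 2 * q.p) := by ring
  rw [h3]
  have h4 : (16 * T : ℝ) * (q.N1 * q.p) ≤ 16 * T * 1 := by gcongr
  have h5 : (T : ℝ) ^ 4 ≤ n := by exact_mod_cast hn
  have h6 : (16 * T : ℝ) ≤ Real.exp T := by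
    have h7 := Real.quadratic_le_exp_of_nonneg (by linarith : (0 : ℝ) ≤ T)
    nlinarith
  calc (16 * T : ℝ) * (q.N1 * q.p) * (((q.M : ℝ) ^ d * (m.g q.K + δ)) ^ 2 * q.p)
      ≤ 16 * T * 1 * Real.exp (-(n : ℝ)) := by
        refine mul_le_mul h4 h2 (by positivity) (by positivity)
    _ ≤ Real.exp T * Real.exp (-(n : ℝ)) := by rw [mul_one]; gcongr
    _ = Real.exp ((T : ℝ) + -(n : ℝ)) := by rw [← Real.exp_add]
    _ ≤ Real.exp (-(T : ℝ)) := by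
      refine Real.exp_le_exp.2 ?_
      have h8 : 2 * (T : ℝ) ≤ (T : ℝ) ^ 4 := by
        have h9 : (1 : ℝ) ≤ (T : ℝ) ^ 3 := one_le_pow₀ (by linarith)
        have h10 : (T : ℝ) ^ 4 = T * (T : ℝ) ^ 3 := by ring
        have h11 : (2 : ℝ) ≤ (T : ℝ) ^ 3 := by
          calc (2 : ℝ) ≤ T := by linarith
            _ ≤ (T : ℝ) ^ 3 := le_self_pow₀ (by linarith) (by norm_num)
        rw [h10]
        nlinarith
      linarith

/-- one time and one place -/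
theorem one_pair (m : Model) (d : ℕ) (hd : 0 < d) : ∃ T0 : ℕ, ∀ (A : Prm),
    1000 * (d + 1) ≤ A.L → A.α + 12 ≤ A.γ → A.L ≤ A.τ → A.τ ≤ A.L ^ 2 → ∀ (δ : ℝ) (q : Par d m δ)
    (k r n H : ℕ), 1 ≤ k → 8 * r ≤ A.S k → T0 ≤ A.T d k → A.L ^ 4 ≤ A.T d k → q.Tiny n →
    A.T d k ^ 4 ≤ n → A.T d k ^ 6 ≤ q.M →
    (∀ (b : Bool) (c : Pos d), q.PP (8 * A.T d k * q.N1) (NMemb q.N1 A b k c) ≤
      ENNReal.ofReal (1 / 64)) →
    q.PP (A.τ * q.N1) (fun η w => ¬ FOpn q.N1 A.L A.τ η w) ≤ ENNReal.ofReal (1 / 32) →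
    ∀ (s' : ℕ) (c : Pos d), 10 * A.T d k ≤ s' → s' + 10 * A.T d k ≤ H →
    q.PP (H * q.N1) (fun η w => ¬ ∃ i < 3 * r, Meet q.N1 A k H s' (dg c (i * A.T d k ^ 2)) η w) ≤
      (ENNReal.ofReal (3 / 32) + ENNReal.ofReal (Real.exp (-(A.T d k : ℝ)))) ^ (3 * r) +
        (((3 * r : ℕ) : ℝ≥0∞) + ((3 * r : ℕ) : ℝ≥0∞) ^ 2) * ENNReal.ofReal (Real.exp (-(A.T d k : ℝ))) := by
  obtain ⟨C, hC⟩ := spatial m d hd m.φ
  obtain ⟨T0, hT0⟩ := growthT C
  refine ⟨T0 + 1000, fun A hL hγ hτ hτ2 δ q k r n H hk hr hT hLT hq hTn hTM h1 h2 s' c hs1 hs2 => ?_⟩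
  have hL1 : 1 ≤ A.L := by omega
  have hτ1 : 1 ≤ A.τ := by omega
  have hST : A.S k ≤ A.T d k := S_le_T A (by omega) hτ k
  generalize hTdef : A.T d k = T at *
  have hT1000 : 1000 ≤ T := by omega
  have hLT1 : A.L ≤ T := by
    calc A.L = A.L ^ 1 := (pow_one _).symm
      _ ≤ A.L ^ 4 := Nat.pow_le_pow_right hL1 (by norm_num)
      _ ≤ T := hLT
  have hL2T : A.L ^ 2 ≤ T := (Nat.pow_le_pow_right hL1 (by norm_num)).trans hLT
  have hT2 : 1000 * T ≤ T ^ 2 := by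
    rw [pow_two]
    exact Nat.mul_le_mul_right T hT1000
  have hT6 : 1000 * T ^ 4 ≤ T ^ 6 := by
    calc 1000 * T ^ 4 ≤ T ^ 2 * T ^ 4 := Nat.mul_le_mul_right _ (hT1000.trans (by nlinarith))
      _ = T ^ 6 := by ring
  have hT42 : T ^ 2 ≤ T ^ 4 := Nat.pow_le_pow_right (by omega) (by norm_num)
  have hM : 12 * A.S k + 4 * A.L ^ 2 + 20 ≤ q.M := by omega
  set ρ : ℕ := 6 * A.S k + A.L ^ 2 + 3 with hρ
  have hρT : ρ ≤ 8 * T := by omega
  set x : Fin (3 * r) → Pos d := fun i => sm A.L (dg c (i * T ^ 2)) with hx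
  set E : Fin (3 * r) → Ev d q.M q.K := fun i η w => ¬ MeetL q.N1 A k (dg c (i * T ^ 2)) η w with hE
  have hloc : ∀ i, LocE q.N1 (Bt (tv (x i)) ρ) 0 (16 * T) (E i) := by
    intro i
    have h3 := meetL_loc q A hd hL hγ hτ2 hτ1 k hk (dg c (i * T ^ 2)) hM
    rw [hTdef] at h3
    exact LocE.not q.N1 h3
  -- first step: the shifted window
  have e1 : q.PP (H * q.N1) (fun η w => ¬ ∃ i < 3 * r, Meet q.N1 A k H s' (dg c (i * T ^ 2)) η w) ≤
      q.PP (H * q.N1) (sft q.N1 0 (s' - 8 * T) (fun η w => ∀ i, E i η w)) := by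
    refine PP_mono q _ fun η w hw h3 i hi => h3 ⟨i, i.2, ?_⟩
    have h4 := meet_local q A hd hL hγ hτ2 hτ1 k hk (dg c (i * T ^ 2)) H s' η w hw
      (by rw [hTdef]; omega) (by rw [hTdef]; omega)
    rw [hTdef] at h4
    exact h4 hi
  have e2 : q.PP (H * q.N1) (sft q.N1 0 (s' - 8 * T) (fun η w => ∀ i, E i η w)) =
      q.PP ((H - (s' - 8 * T)) * q.N1) (fun η w => ∀ i, E i η w) := by
    rw [← PP_sft q hd 0 (s' - 8 * T) ((H - (s' - 8 * T)) * q.N1), ← add_mul]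
    congr 2
    omega
  have hlocA : LocE q.N1 (Set.univ : Set (Tor d q.M)) 0 (16 * T) (fun η w => ∀ i, E i η w) := by
    intro η w η' w' ha hb h3 i
    exact (LocE.mono q.N1 (hloc i) (Set.subset_univ _) le_rfl le_rfl) η w η' w' ha hb (h3 i)
  have e3 : q.PP ((H - (s' - 8 * T)) * q.N1) (fun η w => ∀ i, E i η w) =
      q.PP (16 * T * q.N1) (fun η w => ∀ i, E i η w) :=
    PP_loc q hd hlocA _ (Nat.mul_le_mul_right _ (by omega))
  have hdisj : ∀ i j, i ≠ j → Disjoint (Bt (tv (x i) : Tor d q.M) (ρ + T ^ 2))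
      (Bt (tv (x j)) (ρ + T ^ 2)) := by
    intro i j hij
    rw [Set.disjoint_left]
    rintro u ⟨y, hy, rfl⟩ ⟨y', hy', he⟩
    have h3 := congrFun he ⟨0, hd⟩
    set t : Fin d := ⟨0, hd⟩ with ht
    have h4 : ((x j t + y' t : ℤ) : ZMod q.M) = ((x i t + y t : ℤ) : ZMod q.M) := by
      rw [Int.cast_add, Int.cast_add]
      exact h3.symm
    rw [ZMod.intCast_eq_intCast_iff_dvd_sub] at h4
    have h5 : (y t).natAbs ≤ ρ + T ^ 2 :=
      (Finset.le_sup (f := fun j => (y j).natAbs) (Finset.mem_univ t)).trans hy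
    have h6 : (y' t).natAbs ≤ ρ + T ^ 2 :=
      (Finset.le_sup (f := fun j => (y' j).natAbs) (Finset.mem_univ t)).trans hy'
    have h7 : x i t + y t - (x j t + y' t) = (A.L : ℤ) * T ^ 2 * ((i : ℕ) - (j : ℕ) : ℤ) +
        (y t - y' t) := by
      rw [hx]
      change (A.L : ℤ) * (c t + ((i * T ^ 2 : ℕ) : ℤ)) + y t -
        ((A.L : ℤ) * (c t + ((j * T ^ 2 : ℕ) : ℤ)) + y' t) = _
      push_cast
      ring
    rw [h7] at h4
    have hij' : ((i : ℕ) : ℤ) - (j : ℕ) ≠ 0 := by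
      intro h8
      apply hij
      apply Fin.ext
      omega
    have hi := i.2
    have hj := j.2
    have h8 : 3 * r ≤ T := by omega
    have h9 : |((i : ℕ) : ℤ) - (j : ℕ)| ≤ T := by
      rw [abs_le]
      constructor <;> omega
    have h10 : 1 ≤ |((i : ℕ) : ℤ) - (j : ℕ)| := Int.one_le_abs hij'
    have h11 : |y t - y' t| ≤ 3 * (T : ℤ) ^ 2 := by
      have h12 : (2 * (ρ + T ^ 2) : ℕ) ≤ 3 * T ^ 2 := by omega
      have h13 : (2 * (ρ + T ^ 2) : ℤ) ≤ 3 * (T : ℤ) ^ 2 := by exact_mod_cast h12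
      rw [abs_le]
      constructor
      · have : ((ρ + T ^ 2 : ℕ) : ℤ) = (ρ : ℤ) + (T : ℤ) ^ 2 := by push_cast; ring
        omega
      · have : ((ρ + T ^ 2 : ℕ) : ℤ) = (ρ : ℤ) + (T : ℤ) ^ 2 := by push_cast; ring
        omega
    have hLZ : (1000 : ℤ) ≤ A.L := by exact_mod_cast (by omega : 1000 ≤ A.L)
    have hLTZ : (A.L : ℤ) ≤ T := by exact_mod_cast hLT1
    have hTZ : (1000 : ℤ) ≤ T := by exact_mod_cast hT1000
    have hMZ : (T : ℤ) ^ 6 ≤ q.M := by exact_mod_cast hTM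
    have hT2pos : (0 : ℤ) < (T : ℤ) ^ 2 := by positivity
    have h14 : |(A.L : ℤ) * T ^ 2 * (((i : ℕ) : ℤ) - (j : ℕ))| =
        (A.L : ℤ) * T ^ 2 * |((i : ℕ) : ℤ) - (j : ℕ)| := by
      rw [abs_mul, abs_of_nonneg (by positivity : (0 : ℤ) ≤ (A.L : ℤ) * T ^ 2)]
    have h15 : (A.L : ℤ) * T ^ 2 * |((i : ℕ) : ℤ) - (j : ℕ)| ≤ (T : ℤ) ^ 4 := by
      calc (A.L : ℤ) * T ^ 2 * |((i : ℕ) : ℤ) - (j : ℕ)| ≤ (T : ℤ) * T ^ 2 * T := by gcongr
        _ = (T : ℤ) ^ 4 := by ring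
    have h16 : 1000 * (T : ℤ) ^ 2 ≤ (A.L : ℤ) * T ^ 2 * |((i : ℕ) : ℤ) - (j : ℕ)| := by
      calc 1000 * (T : ℤ) ^ 2 = 1000 * (T : ℤ) ^ 2 * 1 := by ring
        _ ≤ (A.L : ℤ) * T ^ 2 * |((i : ℕ) : ℤ) - (j : ℕ)| := by gcongr
    have h17 : |(A.L : ℤ) * T ^ 2 * (((i : ℕ) : ℤ) - (j : ℕ)) + (y t - y' t)| < q.M := by
      refine lt_of_le_of_lt (abs_add_le _ _) ?_
      rw [h14]
      have h18 : (T : ℤ) ^ 2 ≤ (T : ℤ) ^ 4 := by exact_mod_cast hT42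
      have h19 : 1000 * (T : ℤ) ^ 4 ≤ (T : ℤ) ^ 6 := by exact_mod_cast hT6
      have h20 : (0 : ℤ) < (T : ℤ) ^ 4 := by positivity
      linarith
    have h18 := Int.eq_zero_of_abs_lt_dvd h4 h17
    have h19 : (A.L : ℤ) * T ^ 2 * (((i : ℕ) : ℤ) - (j : ℕ)) = -(y t - y' t) := by linarith
    rw [h19, abs_neg] at h14
    linarith
  have e4 := hC δ m.φ m.φ_pos le_rfl q (3 * r) ρ (T ^ 2) (16 * T) x E (by omega) hdisj hloc
    (ENNReal.ofReal (Real.exp (-(T : ℝ)))) ?_ (tiny_bound q (by omega) hTn hq)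
  · refine (e1.trans_eq (e2.trans e3)).trans (e4.trans ?_)
    refine add_le_add ?_ le_rfl
    calc ∏ i, (q.PP (16 * T * q.N1) (E i) + ENNReal.ofReal (Real.exp (-(T : ℝ))))
        ≤ ∏ _i : Fin (3 * r), (ENNReal.ofReal (3 / 32) + ENNReal.ofReal (Real.exp (-(T : ℝ)))) := by
          refine Finset.prod_le_prod' fun i _ => ?_
          refine add_le_add ?_ le_rfl
          have h3 := meetL_prob q A hd hL hγ hτ2 hτ1 k hk (dg c (i * T ^ 2)) hM
            (by rw [hTdef]; exact h1) h2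
          rw [hTdef] at h3
          exact h3
      _ = _ := by rw [Finset.prod_const, Finset.card_univ, Fintype.card_fin]
  · refine ENNReal.ofReal_le_ofReal ?_
    have h3 := hT0 T (by omega) ((ρ : ℝ) + ((T ^ 2 : ℕ) : ℝ) + 1) (by positivity) (by
      have h4 : ρ + T ^ 2 + 1 ≤ 2 * T ^ 2 := by omega
      exact_mod_cast h4)
    refine le_trans (le_of_eq ?_) h3
    push_cast
    ring_nf

theorem exp7 : (0.09475 : ℝ) ^ 3 ≤ Real.exp (-7) := by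
  have h1 := Real.exp_one_lt_d9
  have h2 : Real.exp 7 = Real.exp 1 ^ 7 := by rw [← Real.exp_nat_mul]; norm_num
  have h3 : Real.exp 7 ≤ 2.7182818286 ^ 7 := by
    rw [h2]
    exact pow_le_pow_left₀ (Real.exp_pos 1).le h1.le 7
  rw [Real.exp_neg, le_inv_comm₀ (by positivity) (Real.exp_pos 7)]
  refine h3.trans ?_
  norm_num

/-- the final estimate -/
theorem final_num : ∃ r0 : ℕ, ∀ r ≥ r0, ∀ x : ℝ, 0 ≤ x → x ≤ Real.exp (-(8 * r : ℝ)) →
    (3 / 32 + x) ^ (3 * r) + (3 * r + (3 * r) ^ 2) * x ≤ Real.exp (-(6 * r : ℝ)) := by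
  obtain ⟨r0, h0⟩ := ZI.Rows.T1.growth 3 2 1 one_pos
  refine ⟨r0 + 10, fun r hr x hx0 hx => ?_⟩
  have hr1 : (10 : ℝ) ≤ r := by exact_mod_cast (by omega : 10 ≤ r)
  have h1 := h0 r (by omega)
  have he7 := exp7
  have h2 : x ≤ 1 / 1000 := by
    refine hx.trans ?_
    have h3 : Real.exp (-(8 * r : ℝ)) ≤ Real.exp (-7) := Real.exp_le_exp.2 (by linarith)
    refine h3.trans ?_
    have h4 := Real.add_one_le_exp (7 : ℝ)
    have h5 : Real.exp 1 ^ 7 = Real.exp 7 := by rw [← Real.exp_nat_mul]; norm_num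
    have h6 := Real.exp_one_gt_d9
    have h7 : (2.7182818283 : ℝ) ^ 7 ≤ Real.exp 7 := by
      rw [← h5]
      exact pow_le_pow_left₀ (by norm_num) h6.le 7
    rw [Real.exp_neg, inv_le_comm₀ (Real.exp_pos 7) (by norm_num)]
    refine le_trans ?_ h7
    norm_num
  have h3 : (3 / 32 + x) ^ (3 * r) ≤ Real.exp (-(7 * r : ℝ)) := by
    rw [pow_mul]
    have h4 : (3 / 32 + x) ^ 3 ≤ Real.exp (-7) := by
      refine le_trans (pow_le_pow_left₀ (by positivity) ?_ 3) he7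
      linarith
    calc ((3 / 32 + x) ^ 3) ^ r ≤ Real.exp (-7) ^ r := pow_le_pow_left₀ (by positivity) h4 r
      _ = Real.exp (-(7 * r : ℝ)) := by rw [← Real.exp_nat_mul]; congr 1; ring
  have h4 : (3 * r + (3 * r) ^ 2 : ℝ) ≤ Real.exp (1 * r) := by
    refine le_trans ?_ h1
    push_cast
    nlinarith
  have h5 : (3 * r + (3 * r) ^ 2 : ℝ) * x ≤ Real.exp (-(7 * r : ℝ)) := by
    calc (3 * r + (3 * r) ^ 2 : ℝ) * x ≤ Real.exp (1 * r) * Real.exp (-(8 * r : ℝ)) :=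
          mul_le_mul h4 hx hx0 (Real.exp_pos _).le
      _ = Real.exp (-(7 * r : ℝ)) := by rw [← Real.exp_add]; congr 1; ring
  have h6 : (2 : ℝ) ≤ Real.exp r := by
    have := Real.add_one_le_exp (r : ℝ)
    linarith
  calc (3 / 32 + x) ^ (3 * r) + (3 * r + (3 * r) ^ 2) * x
      ≤ Real.exp (-(7 * r : ℝ)) + Real.exp (-(7 * r : ℝ)) := add_le_add h3 h5
    _ = 2 * Real.exp (-(7 * r : ℝ)) := by ring
    _ ≤ Real.exp r * Real.exp (-(7 * r : ℝ)) := by gcongr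
    _ = Real.exp (-(6 * r : ℝ)) := by rw [← Real.exp_add]; congr 1; ring

end ZP.P2

namespace ZP.Rows

open ZP ZP.P2

variable {d : ℕ}

theorem meet_prob (m : Model) (d : ℕ) (hd : 0 < d) : ∃ r0 : ℕ, ∀ r ≥ r0, ∀ (A : Prm),
    1000 * (d + 1) ≤ A.L → A.α + 12 ≤ A.γ → A.L ≤ A.τ → A.τ ≤ A.L ^ 2 → ∀ (δ : ℝ) (q : Par d m δ)
    (k n H : ℕ), 1 ≤ k → 8 * r ≤ A.S k → r0 * A.L ^ 4 ≤ A.T d k → q.Tiny n → A.T d k ^ 4 ≤ n →
    A.T d k ^ 6 ≤ q.M →
    (∀ (b : Bool) (c : Pos d), q.PP (8 * A.T d k * q.N1) (NMemb q.N1 A b k c) ≤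
      ENNReal.ofReal (1 / 64)) →
    q.PP (A.τ * q.N1) (fun η w => ¬ FOpn q.N1 A.L A.τ η w) ≤ ENNReal.ofReal (1 / 32) →
    q.PP (H * q.N1) (fun η w => ¬ ∀ (s' : ℕ) (c : Pos d), 10 * A.T d k ≤ s' →
        s' + 10 * A.T d k ≤ H → ∃ i < 3 * r, Meet q.N1 A k H s' (dg c (i * A.T d k ^ 2)) η w) ≤
      (H + 1) * (q.M : ℝ≥0∞) ^ (2 * d) * ENNReal.ofReal (Real.exp (-(6 * r : ℝ))) := by
  obtain ⟨T0, hT0⟩ := one_pair m d hd
  obtain ⟨r1, hr1⟩ := final_num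
  refine ⟨T0 + r1 + 1, fun r hr A hL hγ hτ hτ2 δ q k n H hk hrS hT hq hTn hTM h1 h2 => ?_⟩
  have hL1 : 1 ≤ A.L := by omega
  have hτ1 : 1 ≤ A.τ := by omega
  have hL4 : 1 ≤ A.L ^ 4 := Nat.one_le_pow _ _ hL1
  have hTT0 : T0 ≤ A.T d k := by
    calc T0 ≤ (T0 + r1 + 1) * 1 := by omega
      _ ≤ (T0 + r1 + 1) * A.L ^ 4 := Nat.mul_le_mul_left _ hL4
      _ ≤ A.T d k := hT
  have hTL : A.L ^ 4 ≤ A.T d k := (Nat.le_mul_of_pos_left _ (by omega)).trans hT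
  have hST : A.S k ≤ A.T d k := S_le_T A (by omega) hτ k
  set P : ℕ := q.M * A.nx k with hP
  have hPpos : 0 < P := Nat.mul_pos (by have := q.M_ge; omega) (nx_pos A hL1 k)
  have hTpos : 1 ≤ A.T d k := by omega
  have hnxM : A.nx k ≤ q.M := by
    refine (nx_le_T (d := d) A hτ1 k).trans (le_trans ?_ hTM)
    exact Nat.le_self_pow (by norm_num) _
  have hP2 : P ^ d ≤ q.M ^ (2 * d) := by
    rw [pow_mul]
    refine Nat.pow_le_pow_left ?_ d
    rw [hP, pow_two]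
    exact Nat.mul_le_mul_left _ hnxM
  have hx := hr1 r (by omega) (Real.exp (-(A.T d k : ℝ))) (Real.exp_pos _).le (by
    refine Real.exp_le_exp.2 ?_
    have : (8 * r : ℝ) ≤ A.T d k := by exact_mod_cast hrS.trans hST
    linarith)
  have hone : ∀ (s' : ℕ) (c : Pos d), 10 * A.T d k ≤ s' → s' + 10 * A.T d k ≤ H →
      q.PP (H * q.N1) (fun η w => ¬ ∃ i < 3 * r, Meet q.N1 A k H s' (dg c (i * A.T d k ^ 2)) η w) ≤
        ENNReal.ofReal (Real.exp (-(6 * r : ℝ))) := by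
    intro s' c hs1 hs2
    refine (hT0 A hL hγ hτ hτ2 δ q k r n H hk hrS hTT0 hTL hq hTn hTM h1 h2 s' c hs1 hs2).trans ?_
    refine le_trans (le_of_eq ?_) (ENNReal.ofReal_le_ofReal hx)
    have e1 : ((3 * r : ℕ) : ℝ≥0∞) = ENNReal.ofReal (3 * r) := by
      rw [← ENNReal.ofReal_natCast]
      push_cast
      rfl
    rw [e1, ← ENNReal.ofReal_add (by norm_num) (Real.exp_pos _).le, ← ENNReal.ofReal_pow (by positivity),
      ← ENNReal.ofReal_pow (by positivity), ← ENNReal.ofReal_add (by positivity) (by positivity),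
      ← ENNReal.ofReal_mul (by positivity), ← ENNReal.ofReal_add (by positivity) (by positivity)]
  set I : Finset (ℕ × (Fin d → Fin P)) := ((Finset.range (H + 1)).filter
    (fun s' => 10 * A.T d k ≤ s' ∧ s' + 10 * A.T d k ≤ H)) ×ˢ Finset.univ with hI
  have hmain : q.PP (H * q.N1) (fun η w => ¬ ∀ (s' : ℕ) (c : Pos d), 10 * A.T d k ≤ s' →
        s' + 10 * A.T d k ≤ H → ∃ i < 3 * r, Meet q.N1 A k H s' (dg c (i * A.T d k ^ 2)) η w) ≤
      q.PP (H * q.N1) (fun η w => ∃ a ∈ I, ¬ ∃ i < 3 * r, Meet q.N1 A k H a.1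
        (dg (fun j => ((a.2 j : ℕ) : ℤ)) (i * A.T d k ^ 2)) η w) := by
    refine PP_mono q _ fun η w _ h => ?_
    push Not at h
    obtain ⟨s', c, hs1, hs2, h3⟩ := h
    obtain ⟨a, v, hav⟩ := reduce P hPpos c
    refine ⟨(s', a), ?_, ?_⟩
    · rw [hI, Finset.mem_product, Finset.mem_filter, Finset.mem_range]
      exact ⟨⟨by omega, hs1, hs2⟩, Finset.mem_univ _⟩
    · rintro ⟨i, hi, h4⟩
      refine h3 i hi ?_
      rw [hav, dg_shift]
      exact meet_shift q.N1 A hL1 k H s' _ v η w h4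
  refine hmain.trans ((PP_finset q _ I _).trans ?_)
  calc ∑ a ∈ I, q.PP (H * q.N1) (fun η w => ¬ ∃ i < 3 * r, Meet q.N1 A k H a.1
        (dg (fun j => ((a.2 j : ℕ) : ℤ)) (i * A.T d k ^ 2)) η w)
      ≤ ∑ _a ∈ I, ENNReal.ofReal (Real.exp (-(6 * r : ℝ))) := by
        refine Finset.sum_le_sum fun a ha => ?_
        rw [hI, Finset.mem_product, Finset.mem_filter] at ha
        exact hone a.1 _ ha.1.2.1 ha.1.2.2
    _ = (I.card : ℝ≥0∞) * ENNReal.ofReal (Real.exp (-(6 * r : ℝ))) := by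
        rw [Finset.sum_const, nsmul_eq_mul]
    _ ≤ (H + 1) * (q.M : ℝ≥0∞) ^ (2 * d) * ENNReal.ofReal (Real.exp (-(6 * r : ℝ))) := by
        refine mul_le_mul' ?_ le_rfl
        have hc : I.card ≤ (H + 1) * q.M ^ (2 * d) := by
          rw [hI, Finset.card_product, Finset.card_univ, Fintype.card_fun, Fintype.card_fin,
            Fintype.card_fin]
          refine Nat.mul_le_mul ?_ hP2
          refine (Finset.card_filter_le _ _).trans ?_
          rw [Finset.card_range]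
        exact_mod_cast hc

end ZP.Rows
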