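import Pool.Agent.ZP.P3c
import Pool.Agent.ZP.P3n
import Pool.Agent.ZP.BKb
import Pool.Agent.ZP.DC

/-! # Row P3: visits -/

set_option autoImplicit false

open scoped ENNReal BigOperators Classical

noncomputable section

namespace ZP.P3

open ZP ZP.Rows

variable {d : ℕ} {m : Model} {δ : ℝ}

theorem PP_wf_self (q : Par d m δ) (h : 0 < m.φ) (hK : 2 * m.φ ≤ m.g q.K) (N : ℕ)
    (E : Ev d q.M q.K) : (q.wf m.φ h hK).PP N E = q.PP N E := by
  unfold Par.PP Par.EE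
  rw [DC.w_wf]
  rfl

theorem ix_pos (A : Prm) (hL : 1 ≤ A.L) (k : ℕ) : 1 ≤ A.ix d k :=
  (nx_pos A hL k).trans_le (nx_le_ix A k)

theorem S_le_T (A : Prm) (hL : 1 ≤ A.L) (hγ : 1 ≤ A.γ) (hτ : A.L ≤ A.τ) (k : ℕ) :
    A.S k ≤ A.T d k := by
  induction k with
  | zero =>
    show A.L ^ A.γ ^ 0 ≤ 1 * A.τ
    simpa using hτ
  | succ k ih =>
    have h1 : A.S (k + 1) = A.S k * A.n k := by
      unfold Prm.n Prm.S
      rw [pow_succ, pow_mul]
      have : (A.L ^ A.γ ^ k) ^ A.γ = (A.L ^ A.γ ^ k) ^ (1 + (A.γ - 1)) := by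
        congr 1
        omega
      rw [this, pow_add, pow_one]
    have h2 : A.T d (k + 1) = A.nt d k * A.T d k := by
      show A.nt d k * A.ix d k * A.τ = A.nt d k * (A.ix d k * A.τ)
      ring
    rw [h1, h2, mul_comm (A.S k)]
    refine Nat.mul_le_mul ?_ ih
    unfold Prm.nt
    nlinarith [Nat.zero_le (A.n k)]

theorem L_le_S (A : Prm) (hL : 1 ≤ A.L) (hγ : 1 ≤ A.γ) (k : ℕ) : A.L ≤ A.S k := by
  unfold Prm.S
  exact Nat.le_self_pow (pow_pos (by omega) k).ne' A.L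

end ZP.P3

namespace ZP.Rows

open ZP ZP.P3

theorem visit_prob (m : Model) (d : ℕ) (hd : 0 < d) : ∃ Cs : ℕ, ∀ γ α : ℕ, ∃ r0 : ℕ, ∀ r ≥ r0,
    ∀ (A : Prm), A.γ = γ → A.α = α →
    1000 * (d + 1) ≤ A.L → A.α + 12 ≤ A.γ → A.L ≤ A.τ → A.τ ≤ A.L ^ 2 → ∀ (δ : ℝ) (q : Par d m δ)
    (k n H Θ : ℕ), 1 ≤ k → 8 * r ≤ A.S k → A.T d k ≤ r ^ A.γ ^ 3 → r ^ Cs + 8 * A.T d k ≤ Θ →
    q.Tiny n → A.T d k ^ 4 ≤ n → r ^ Cs ≤ n → A.T d k ^ 6 ≤ q.M → r ^ Cs ≤ q.M →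
    4 * m.φ ≤ m.g q.K →
    (∀ (φ' : ℝ) (h' : 0 < φ') (hK' : 2 * φ' ≤ m.g q.K), 7 / 8 * m.φ ≤ φ' → φ' ≤ 9 / 8 * m.φ →
      ∀ (b : Bool) (c : Pos d),
      (q.wf φ' h' hK').PP (8 * A.T d k * q.N1) (NMemb q.N1 A b k c) ≤ ENNReal.ofReal (1 / 64)) →
    q.PP (H * q.N1) (fun η w => ¬ ∀ (s : ℕ) (c : Pos d), 10 * A.T d k ≤ s →
        s + A.T d k ^ 4 + (4 * r + 1) * Θ ≤ H →
        ∃ i < 4 * r, sft q.N1 0 (s + A.T d k ^ 4 + i * Θ - 3 * A.T d k) (MembE q.N1 A k c) η w) ≤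
      (H + 1) * (q.M : ℝ≥0∞) ^ (2 * d) * ENNReal.ofReal (Real.exp (-(5 * r : ℝ))) := by
  have hφ := m.φ_pos
  obtain ⟨Cs, l0, hdc⟩ := decouple m d hd (7 / 8 * m.φ) (9 / 8 * m.φ) (by positivity) (by positivity)
  refine ⟨4 * Cs + 12, fun γ α => ?_⟩
  obtain ⟨r0, hnum⟩ := num (γ ^ 3 * (3 * d + 2)) l0 m.φ hφ
  refine ⟨r0, ?_⟩
  intro r hr A hAγ hAα hL hγ hτ1 hτ2 δ q k n H Θ hk hrS hTr hΘ hTiny hTn hrn hTM hrM hgK hNM
  obtain ⟨hr1, hl0, hgap, hfin⟩ := hnum r hr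
  set T := A.T d k with hT
  have hL1 : 1 ≤ A.L := by omega
  have hγ1 : 1 ≤ A.γ := by omega
  have hST : A.S k ≤ T := S_le_T A hL1 hγ1 hτ1 k
  have hLS : A.L ≤ A.S k := L_le_S A hL1 hγ1 k
  have hT1000 : 1000 ≤ T := by
    have : 1000 * 1 ≤ 1000 * (d + 1) := Nat.mul_le_mul_left _ (by omega)
    omega
  have hLT : A.L ≤ T := hLS.trans hST
  have hLT2 : A.L ^ 2 ≤ T ^ 2 := Nat.pow_le_pow_left hLT 2
  set ρ := 6 * A.S k + A.L ^ 2 + 1 with hρ
  have hT2 : 1000 * T ≤ T ^ 2 := by nlinarith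
  have hT3 : 1000 * T ^ 2 ≤ T ^ 3 := by
    have : T ^ 3 = T * T ^ 2 := by ring
    rw [this]
    exact Nat.mul_le_mul_right _ hT1000
  have hT36 : T ^ 3 ≤ T ^ 6 := Nat.pow_le_pow_right (by omega) (by norm_num)
  have hT4 : 3 * T ≤ T ^ 4 := by
    have : T ^ 3 ≤ T ^ 4 := Nat.pow_le_pow_right (by omega) (by norm_num)
    omega
  have hρ3 : 2 * ρ + 1 ≤ T ^ 3 := by omega
  have hMk : 12 * A.S k + 4 * A.L ^ 2 + 10 ≤ q.M := by omega
  -- the gap
  set G := r ^ (4 * Cs) with hG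
  have hG12 : G ≤ r ^ (4 * Cs + 12) := Nat.pow_le_pow_right hr1 (by omega)
  have hl3M : (r ^ 4) ^ 3 ≤ q.M := by
    rw [← pow_mul]
    exact (Nat.pow_le_pow_right hr1 (by omega)).trans hrM
  have hlK : r ^ 4 ≤ q.K := (Nat.pow_le_pow_right hr1 (by omega)).trans (hrn.trans hTiny.1)
  have hlCs : (r ^ 4) ^ Cs ≤ G := by rw [← pow_mul]
  have hK0 : 2 * m.φ ≤ m.g q.K := by linarith
  have hK1 : 2 * (7 / 8 * m.φ) ≤ m.g q.K := by linarith
  have hK2 : 2 * (9 / 8 * m.φ) ≤ m.g q.K := by linarith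
  -- the error
  set e : ℝ≥0∞ := (2 * (ρ : ℝ≥0∞) + 1) ^ d * (((G + 8 * T : ℕ) : ℝ≥0∞) - (G : ℝ≥0∞) + 1) *
    ENNReal.ofReal (Real.exp (-Real.sqrt ((r ^ 4 : ℕ) : ℝ))) with he
  set p : ℝ≥0∞ := ENNReal.ofReal (1 / 64) with hp
  have hp1 : p ≤ 1 := by
    rw [hp]
    exact ENNReal.ofReal_le_one.mpr (by norm_num)
  -- one step of decoupling
  have hdec : ∀ (c : Pos d) (b : Bool) (s : ℕ) (A' : Ev d q.M q.K),
      (∀ η w, A' η w ↔ A' η (w.take (s * q.N1))) →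
      q.PP ((s + (G + 8 * T)) * q.N1)
        (fun η w => A' η w ∧ sft q.N1 0 s (sft q.N1 0 G (NMemb q.N1 A b k c)) η w) ≤
        q.PP (s * q.N1) A' * p + e := by
    intro c b s A' hA'
    have hset : {v : Tor d q.M | v - tv (0 : Pos d) ∈ Bt (tv (sm A.L c) : Tor d q.M) ρ} =
        Bt (tv (sm A.L c)) ρ := by
      ext v
      rw [Set.mem_setOf_eq, SF1.tv_zero, sub_zero]
    cases b with
    | false =>
      have h1 := nmemb_dec (d := d) (M := q.M) (K := q.K) q.N1 A hL hγ k c hMk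
      have h2 := DecE.sft q.N1 h1 0 G
      rw [hset, zero_add, add_comm (8 * A.T d k) G] at h2
      have h3 := (hdc (r ^ 4) hl0 (7 / 8 * m.φ) m.φ (by positivity) hφ le_rfl (by linarith)
        (by linarith) (by
          have : m.φ - 7 / 8 * m.φ = m.φ / 8 := by ring
          rw [this]
          exact hgap) δ q hK1 hK0 hK2 hl3M hlK s G (G + 8 * T) ρ (sm A.L c) hlCs (by omega)
        (by omega) A' hA' _).1 h2
      rw [PP_wf_self, PP_wf_self] at h3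
      have h4 := PP_sft (q.wf (7 / 8 * m.φ) (by positivity) hK1) hd 0 G (8 * A.T d k * q.N1)
        (NMemb q.N1 A false k c)
      have h5 := hNM (7 / 8 * m.φ) (by positivity) hK1 le_rfl (by linarith) false c
      have h6 : (q.wf (7 / 8 * m.φ) (by positivity) hK1).PP ((G + 8 * T) * q.N1)
          (sft q.N1 0 G (NMemb q.N1 A false k c)) ≤ p := by
        rw [add_mul]
        exact h4.le.trans h5
      exact h3.trans (add_le_add (by gcongr; exact h6) (le_of_eq (by rw [he])))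
    | true =>
      have h1 := nmemb_inc (d := d) (M := q.M) (K := q.K) q.N1 A hL hγ k c hMk
      have h2 := IncE.sft q.N1 h1 0 G
      rw [hset, zero_add, add_comm (8 * A.T d k) G] at h2
      have h3 := (hdc (r ^ 4) hl0 m.φ (9 / 8 * m.φ) hφ (by positivity) (by linarith) le_rfl
        (by linarith) (by
          have : 9 / 8 * m.φ - m.φ = m.φ / 8 := by ring
          rw [this]
          exact hgap) δ q hK0 hK2 hK2 hl3M hlK s G (G + 8 * T) ρ (sm A.L c) hlCs (by omega)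
        (by omega) A' hA' _).2 h2
      rw [PP_wf_self, PP_wf_self] at h3
      have h4 := PP_sft (q.wf (9 / 8 * m.φ) (by positivity) hK2) hd 0 G (8 * A.T d k * q.N1)
        (NMemb q.N1 A true k c)
      have h5 := hNM (9 / 8 * m.φ) (by positivity) hK2 (by linarith) le_rfl true c
      have h6 : (q.wf (9 / 8 * m.φ) (by positivity) hK2).PP ((G + 8 * T) * q.N1)
          (sft q.N1 0 G (NMemb q.N1 A true k c)) ≤ p := by
        rw [add_mul]
        exact h4.le.trans h5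
      exact h3.trans (add_le_add (by gcongr; exact h6) (le_of_eq (by rw [he])))
  -- the numerical bound
  have hbound : 2 * 2 ^ (4 * r) * (p ^ (2 * r) + (4 * r : ℕ) * e) ≤
      ENNReal.ofReal (Real.exp (-(5 * r : ℝ))) := by
    have hsqrt : Real.sqrt ((r ^ 4 : ℕ) : ℝ) = (r : ℝ) ^ 2 := by
      push_cast
      rw [show (r : ℝ) ^ 4 = ((r : ℝ) ^ 2) ^ 2 by ring]
      exact Real.sqrt_sq (by positivity)
    have hnat : (2 * ρ + 1) ^ d * (8 * T + 1) ≤ r ^ (γ ^ 3 * (3 * d + 2)) := by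
      have h1 : (2 * ρ + 1) ^ d ≤ T ^ (3 * d) := by
        rw [pow_mul]
        exact Nat.pow_le_pow_left hρ3 d
      have h2 : 8 * T + 1 ≤ T ^ 2 := by omega
      calc (2 * ρ + 1) ^ d * (8 * T + 1) ≤ T ^ (3 * d) * T ^ 2 := Nat.mul_le_mul h1 h2
        _ = T ^ (3 * d + 2) := by rw [pow_add]
        _ ≤ (r ^ γ ^ 3) ^ (3 * d + 2) := Nat.pow_le_pow_left (by rw [← hAγ]; exact hTr) _
        _ = r ^ (γ ^ 3 * (3 * d + 2)) := by rw [← pow_mul]
    have he2 : e ≤ ((r ^ (γ ^ 3 * (3 * d + 2)) : ℕ) : ℝ≥0∞) *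
        ENNReal.ofReal (Real.exp (-((r : ℝ) ^ 2))) := by
      rw [he, hsqrt]
      have h1 : ((G + 8 * T : ℕ) : ℝ≥0∞) - (G : ℝ≥0∞) + 1 = ((8 * T + 1 : ℕ) : ℝ≥0∞) := by
        rw [← ENNReal.natCast_sub, show G + 8 * T - G = 8 * T by omega]
        push_cast
        rfl
      have h2 : (2 * (ρ : ℝ≥0∞) + 1) ^ d = (((2 * ρ + 1) ^ d : ℕ) : ℝ≥0∞) := by
        push_cast
        rfl
      rw [h1, h2, ← Nat.cast_mul]
      gcongr
    have hx : 0 ≤ Real.exp (-((r : ℝ) ^ 2)) := (Real.exp_pos _).le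
    have h3 : 2 * 2 ^ (4 * r) * (p ^ (2 * r) + (4 * r : ℕ) * (((r ^ (γ ^ 3 * (3 * d + 2)) : ℕ) :
        ℝ≥0∞) * ENNReal.ofReal (Real.exp (-((r : ℝ) ^ 2))))) =
        ENNReal.ofReal (2 * 2 ^ (4 * r) * ((1 / 64 : ℝ) ^ (2 * r) + (4 * r : ℝ) *
          ((r : ℝ) ^ (γ ^ 3 * (3 * d + 2)) * Real.exp (-((r : ℝ) ^ 2))))) := by
      rw [ENNReal.ofReal_mul (by positivity), ENNReal.ofReal_add (by positivity) (by positivity),
        ENNReal.ofReal_mul (by positivity), ENNReal.ofReal_mul (by positivity),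
        ENNReal.ofReal_mul (by positivity), ENNReal.ofReal_mul (by positivity),
        ENNReal.ofReal_pow (by norm_num), ENNReal.ofReal_pow (by norm_num),
        ENNReal.ofReal_pow (by positivity), ENNReal.ofReal_natCast]
      have h4 : ENNReal.ofReal 2 = 2 := by simp
      have h5 : ENNReal.ofReal 4 = 4 := by simp
      rw [h4, h5]
      push_cast
      rfl
    calc 2 * 2 ^ (4 * r) * (p ^ (2 * r) + (4 * r : ℕ) * e) ≤
        2 * 2 ^ (4 * r) * (p ^ (2 * r) + (4 * r : ℕ) * (((r ^ (γ ^ 3 * (3 * d + 2)) : ℕ) :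
        ℝ≥0∞) * ENNReal.ofReal (Real.exp (-((r : ℝ) ^ 2))))) := by gcongr
      _ ≤ _ := by
        rw [h3]
        exact ENNReal.ofReal_le_ofReal hfin
  -- one pair (s, c)
  have hΘG : G + 8 * T ≤ Θ := by omega
  have hLM : 2 * A.L ^ 2 + 4 ≤ q.M := by omega
  have hone : ∀ s c, (10 * T ≤ s ∧ s + T ^ 4 + (4 * r + 1) * Θ ≤ H) →
      q.PP (H * q.N1) (fun η w => ∀ i < 4 * r,
        ¬ sft q.N1 0 (s + T ^ 4 + i * Θ - 3 * T) (MembE q.N1 A k c) η w) ≤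
        ENNReal.ofReal (Real.exp (-(5 * r : ℝ))) := by
    intro s c hs
    refine le_trans ?_ hbound
    refine two_signs q hd p e hp1 G (8 * T) (MembE q.N1 A k c) (fun b => NMemb q.N1 A b k c)
      (Bt (tv (sm A.L c)) ρ) ?_ (hdec c) (fun η w h => not_membE q.N1 A η w hL hγ hLM k c h) ?_
      (fun i => s + T ^ 4 + i * Θ - 3 * T) ?_ r H ?_
    · intro b
      cases b with
      | false => exact DecE.loc q.N1 (nmemb_dec (d := d) (M := q.M) (K := q.K) q.N1 A hL hγ k c hMk)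
      | true => exact IncE.loc q.N1 (nmemb_inc (d := d) (M := q.M) (K := q.K) q.N1 A hL hγ k c hMk)
    · intro b
      have h1 := hNM m.φ hφ hK0 (by linarith) (by linarith) b c
      rw [PP_wf_self] at h1
      exact h1
    · intro i
      have h1 : (i + 1) * Θ = i * Θ + Θ := by ring
      show s + T ^ 4 + i * Θ - 3 * T + 8 * T + G ≤ s + T ^ 4 + (i + 1) * Θ - 3 * T
      omega
    · have h1 : (4 * r + 1) * Θ = 4 * r * Θ + Θ := by ring
      show s + T ^ 4 + 4 * r * Θ - 3 * T ≤ H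
      omega
  -- the union
  have hnxT : A.nx k ≤ q.M := by
    have h1 : A.nx k ≤ A.ix d k := nx_le_ix A k
    have h2 : A.ix d k ≤ T := by
      rw [hT]
      show A.ix d k ≤ A.ix d k * A.τ
      exact Nat.le_mul_of_pos_right _ (by omega)
    have h3 : T ≤ T ^ 6 := Nat.le_self_pow (by norm_num) T
    omega
  refine le_trans (PP_mono q _ fun η w _ h => ?_)
    (union_sc q (A.nx k) H (nx_pos A hL1 k) hnxT
      (fun s => 10 * T ≤ s ∧ s + T ^ 4 + (4 * r + 1) * Θ ≤ H) (fun s hs => by omega)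
      (fun s c η w => ∀ i < 4 * r,
        ¬ sft q.N1 0 (s + T ^ 4 + i * Θ - 3 * T) (MembE q.N1 A k c) η w)
      (ENNReal.ofReal (Real.exp (-(5 * r : ℝ)))) ?_ hone)
  · push Not at h
    obtain ⟨s, c, h1, h2, h3⟩ := h
    exact ⟨s, c, ⟨h1, h2⟩, h3⟩
  · intro s c z η w h i hi h2
    exact h i hi (membE_period q.N1 A hL1 k c z _ _ h2)

end ZP.Rows
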