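import Pool.Agent.ZP.SF1
import Pool.Agent.ZP.SF2
import Pool.Agent.ZP.DCa

/-! # Row P3, part a: many windows in time -/

set_option autoImplicit false

open scoped ENNReal BigOperators Classical

noncomputable section

namespace ZP.P3

open ZP ZP.Rows

variable {d : ℕ}

theorem loc_take' {M K N1 : ℕ} {Λ : Set (Tor d M)} {u1 u2 : ℕ} {E : Ev d M K}
    (h : LocE N1 Λ u1 u2 E) (η : Tor d M → ℕ) (w : List (Let d M (K + 1))) (L : ℕ)
    (hL : u2 * N1 ≤ L) (hw : L ≤ w.length) : E η (w.take L) ↔ E η w := by
  have hl : (w.take L).length = L := by rw [List.length_take, min_eq_left hw]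
  rw [← SF2.loc_take h η (w.take L) (by rw [hl]; exact hL), ← SF2.loc_take h η w (hL.trans hw),
    List.take_take, min_eq_left hL]

variable {m : Model} {δ : ℝ}

theorem PP_take (q : Par d m δ) (hd : 0 < d) (N L : ℕ) (E : Ev d q.M q.K) :
    q.PP (N + L) (fun η w => E η (w.take N)) = q.PP N E :=
  SF2.EE_take q hd N L (fun η w => if E η w then (1 : ℝ≥0∞) else 0)

/-- the probability of the occurrence of the event in all chosen windows -/
theorem chain_dec (q : Par d m δ) (hd : 0 < d) (p e : ℝ≥0∞) (hp : p ≤ 1) (G W : ℕ)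
    (E0 : Ev d q.M q.K) {Λ : Set (Tor d q.M)} (hE0 : LocE q.N1 Λ 0 W E0)
    (hdec : ∀ (s : ℕ) (A : Ev d q.M q.K), (∀ η w, A η w ↔ A η (w.take (s * q.N1))) →
      q.PP ((s + (G + W)) * q.N1) (fun η w => A η w ∧ sft q.N1 0 s (sft q.N1 0 G E0) η w) ≤
        q.PP (s * q.N1) A * p + e)
    (h0 : q.PP (W * q.N1) E0 ≤ p)
    (t : ℕ → ℕ) (ht : ∀ i, t i + W + G ≤ t (i + 1)) (I : Finset ℕ) (n : ℕ) :
    q.PP (t n * q.N1) (fun η w => ∀ i < n, i ∈ I → sft q.N1 0 (t i) E0 η w) ≤
      p ^ ((Finset.range n).filter (· ∈ I)).card + n * e := by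
  have hmono : ∀ i j, i ≤ j → t i ≤ t j := by
    intro i j hij
    induction j, hij using Nat.le_induction with
    | base => exact le_rfl
    | succ j _ ih => have := ht j; omega
  have hwin : ∀ i j, i < j → t i + W + G ≤ t j := by
    intro i j hij
    exact (ht i).trans (hmono _ _ hij)
  have hloc : ∀ i, ∃ Λ' : Set (Tor d q.M), LocE q.N1 Λ' (0 + t i) (W + t i) (sft q.N1 0 (t i) E0) :=
    fun i => ⟨_, LocE.sft q.N1 hE0 0 (t i)⟩
  -- locality of the intersection
  have hcut : ∀ n η (w : List (Let d q.M (q.K + 1))) L, (∀ i < n, (W + t i) * q.N1 ≤ L) →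
      L ≤ w.length → ((∀ i < n, i ∈ I → sft q.N1 0 (t i) E0 η (w.take L)) ↔
        (∀ i < n, i ∈ I → sft q.N1 0 (t i) E0 η w)) := by
    intro n η w L hL hw
    refine forall_congr' fun i => forall_congr' fun hi => forall_congr' fun _ => ?_
    obtain ⟨Λ', hΛ'⟩ := hloc i
    exact loc_take' hΛ' η w L (hL i hi) hw
  -- change of the length of the word
  have hlen : ∀ n a b : ℕ, (∀ i < n, W + t i ≤ a) → a ≤ b →
      q.PP (b * q.N1) (fun η w => ∀ i < n, i ∈ I → sft q.N1 0 (t i) E0 η w) =
      q.PP (a * q.N1) (fun η w => ∀ i < n, i ∈ I → sft q.N1 0 (t i) E0 η w) := by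
    intro n a b ha hab
    have hab' : a * q.N1 ≤ b * q.N1 := Nat.mul_le_mul_right _ hab
    obtain ⟨L, hL⟩ := Nat.exists_eq_add_of_le hab'
    have h1 : q.PP (b * q.N1) (fun η w => ∀ i < n, i ∈ I → sft q.N1 0 (t i) E0 η w) =
        q.PP (b * q.N1) (fun η w => (fun η w => ∀ i < n, i ∈ I → sft q.N1 0 (t i) E0 η w) η
          (w.take (a * q.N1))) := by
      refine SF2.PP_congr q _ fun η w hw => ?_
      exact (hcut n η w (a * q.N1) (fun i hi => Nat.mul_le_mul_right _ (ha i hi))
        (by omega)).symm
    rw [h1, hL]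
    exact PP_take q hd (a * q.N1) L (fun η w => ∀ i < n, i ∈ I → sft q.N1 0 (t i) E0 η w)
  induction n with
  | zero =>
    refine (PP_le_one q hd _ _).trans ?_
    simp
  | succ n ih =>
    by_cases hn : n ∈ I
    · have hcard : ((Finset.range (n + 1)).filter (· ∈ I)).card =
          ((Finset.range n).filter (· ∈ I)).card + 1 := by
        rw [Finset.range_add_one, Finset.filter_insert, if_pos hn, Finset.card_insert_of_notMem]
        simp
      by_cases hn0 : n = 0
      · subst hn0
        rw [hcard]
        simp only [Finset.range_zero, Finset.filter_empty, Finset.card_empty, zero_add, pow_one]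
        refine le_trans ?_ le_self_add
        rw [hlen 1 (t 0 + W) (t 1) (fun i hi => by
          have : i = 0 := by omega
          subst this
          omega) (by have := ht 0; simp only [zero_add] at this; omega)]
        have h1 := PP_sft q hd 0 (t 0) (W * q.N1) E0
        rw [← add_mul] at h1
        refine le_trans (PP_mono q _ fun η w _ h => h 0 (by norm_num) hn) (h1.le.trans h0)
      set s := t n - G with hs
      have hG : G ≤ t n := by
        have h1 := hwin 0 n (by omega)
        omega
      have hsG : s + G = t n := Nat.sub_add_cancel hG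
      have hprev : ∀ i < n, W + t i ≤ s := fun i hi => by have := hwin i n hi; omega
      set A' : Ev d q.M q.K := fun η w =>
        ∀ i < n, i ∈ I → sft q.N1 0 (t i) E0 η (w.take (s * q.N1)) with hA'
      have hdep : ∀ η w, A' η w ↔ A' η (w.take (s * q.N1)) := by
        intro η w
        simp only [hA', List.take_take, min_self]
      have key := hdec s A' hdep
      -- the probability of the past
      have h1 : q.PP (s * q.N1) A' =
          q.PP (t n * q.N1) (fun η w => ∀ i < n, i ∈ I → sft q.N1 0 (t i) E0 η w) := by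
        rw [hlen n s (t n) hprev (by omega)]
        refine SF2.PP_congr q _ fun η w hw => ?_
        simp only [hA']
        rw [← hw, List.take_length]
      -- the new event
      have h2 : q.PP (t (n + 1) * q.N1)
          (fun η w => ∀ i < n + 1, i ∈ I → sft q.N1 0 (t i) E0 η w) ≤
          q.PP ((s + (G + W)) * q.N1)
            (fun η w => A' η w ∧ sft q.N1 0 s (sft q.N1 0 G E0) η w) := by
        have h3 : ∀ i < n + 1, W + t i ≤ s + (G + W) := by
          intro i hi
          have := hmono i n (by omega)
          omega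
        rw [hlen (n + 1) (s + (G + W)) (t (n + 1)) h3 (by have := ht n; omega)]
        refine PP_mono q _ fun η w hw h => ⟨?_, ?_⟩
        · simp only [hA']
          refine (hcut n η w (s * q.N1) (fun i hi => Nat.mul_le_mul_right _ (hprev i hi)) ?_).mpr
            fun i hi hI => h i (by omega) hI
          rw [hw]
          exact Nat.mul_le_mul_right _ (by omega)
        · rw [sft_sft]
          have h4 := h n (by omega) hn
          rw [add_zero, hsG]
          exact h4
      rw [hcard]
      calc _ ≤ q.PP (s * q.N1) A' * p + e := h2.trans key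
        _ ≤ (p ^ ((Finset.range n).filter (· ∈ I)).card + n * e) * p + e := by
            rw [h1]
            gcongr
        _ ≤ p ^ (((Finset.range n).filter (· ∈ I)).card + 1) + ((n + 1 : ℕ) : ℝ≥0∞) * e := by
            rw [add_mul, pow_succ, add_assoc]
            refine add_le_add le_rfl ?_
            push_cast
            rw [add_mul, one_mul]
            refine add_le_add ?_ le_rfl
            calc (n : ℝ≥0∞) * e * p ≤ n * e * 1 := by gcongr
              _ = n * e := mul_one _
    · have hcard : ((Finset.range (n + 1)).filter (· ∈ I)).card =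
          ((Finset.range n).filter (· ∈ I)).card := by
        rw [Finset.range_add_one, Finset.filter_insert, if_neg hn]
      rw [hcard]
      have h3 : ∀ i < n, W + t i ≤ t n := fun i hi => by have := hwin i n hi; omega
      calc q.PP (t (n + 1) * q.N1) (fun η w => ∀ i < n + 1, i ∈ I → sft q.N1 0 (t i) E0 η w) ≤
          q.PP (t (n + 1) * q.N1) (fun η w => ∀ i < n, i ∈ I → sft q.N1 0 (t i) E0 η w) :=
            PP_mono q _ fun η w _ h i hi hI => h i (by omega) hI
        _ = q.PP (t n * q.N1) (fun η w => ∀ i < n, i ∈ I → sft q.N1 0 (t i) E0 η w) :=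
            hlen n (t n) (t (n + 1)) h3 (hmono _ _ (by omega))
        _ ≤ _ := ih
        _ ≤ _ := by
            gcongr
            omega

end ZP.P3
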