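import Pool.Agent.ZP.P3b

/-! # Row P3, part c: periodicity in the index, union bound -/

set_option autoImplicit false

open scoped ENNReal BigOperators Classical

noncomputable section

namespace ZP.P3

open ZP ZP.Rows

variable {d : ℕ}

theorem n_pos (A : Prm) (hL : 1 ≤ A.L) (k : ℕ) : 0 < A.n k := by
  unfold Prm.n Prm.S
  positivity

theorem nx_pos (A : Prm) (hL : 1 ≤ A.L) (k : ℕ) : 0 < A.nx k := by
  induction k with
  | zero => exact Nat.one_pos
  | succ k ih => exact Nat.mul_pos (n_pos A hL k) ih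

theorem nx_dvd (A : Prm) (l k : ℕ) (h : l ≤ k) : A.nx l ∣ A.nx k := by
  induction k, h using Nat.le_induction with
  | base => exact dvd_rfl
  | succ k _ ih => exact ih.mul_left _

theorem nx_le_ix (A : Prm) (k : ℕ) : A.nx k ≤ A.ix d k := by
  induction k with
  | zero => exact le_rfl
  | succ k ih =>
    show A.n k * A.nx k ≤ A.nt d k * A.ix d k
    refine Nat.mul_le_mul ?_ ih
    unfold Prm.nt
    nlinarith [Nat.zero_le (A.n k)]

theorem anc_add (A : Prm) (hL : 1 ≤ A.L) (l k : ℕ) (h : l ≤ k) (c : Pos d) (x : Pos d) :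
    anc A l (fun t => c t + (A.nx k : ℤ) * x t) =
      fun t => anc A l c t + ((A.nx k / A.nx l : ℕ) : ℤ) * x t := by
  funext t
  obtain ⟨e, he⟩ := nx_dvd A l k h
  have hp := nx_pos A hL l
  have hp' : ((A.nx l : ℕ) : ℤ) ≠ 0 := by exact_mod_cast hp.ne'
  unfold anc
  have e1 : A.nx k / A.nx l = e := by rw [he, Nat.mul_div_cancel_left _ hp]
  rw [e1, he]
  push_cast
  rw [mul_assoc, Int.add_mul_ediv_left _ _ hp']

theorem membE_period {M K : ℕ} (N1 : ℕ) (A : Prm) (hL : 1 ≤ A.L) (k : ℕ) (c z : Pos d)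
    (η : Tor d M → ℕ) (w : List (Let d M (K + 1))) (h : MembE N1 A k c η w) :
    MembE N1 A k (fun t => c t + (A.nx k : ℤ) * ((M : ℤ) * z t)) η w := by
  intro l hl Q hQ hbd
  set x : Pos d := fun t => (M : ℤ) * z t with hx
  have e1 := anc_add A hL l k hl.le c x
  have e2 := anc_add A hL (l + 1) k hl c x
  change Q ∈ Rg (A.n l) (8 * d + 8) (anc A (l + 1) (fun t => c t + (A.nx k : ℤ) * x t), _) at hQ
  change bd Q (anc A l (fun t => c t + (A.nx k : ℤ) * x t), _) ≤ A.D l at hbd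
  rw [e2] at hQ
  rw [e1] at hbd
  set v : Pos d := fun t => ((A.nx k / A.nx l : ℕ) : ℤ) * x t with hv
  have hdiv : ((A.nx k / A.nx l : ℕ) : ℤ) = (A.n l : ℤ) * ((A.nx k / A.nx (l + 1) : ℕ) : ℤ) := by
    obtain ⟨e, he⟩ := nx_dvd A (l + 1) k hl
    have hp := nx_pos A hL l
    have hp1 := nx_pos A hL (l + 1)
    have h1 : A.nx k / A.nx (l + 1) = e := by rw [he, Nat.mul_div_cancel_left _ hp1]
    have h2 : A.nx k / A.nx l = A.n l * e := by
      rw [he]
      show A.n l * A.nx l * e / A.nx l = A.n l * e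
      rw [mul_comm (A.n l), mul_assoc, Nat.mul_div_cancel_left _ hp]
    rw [h1, h2]
    push_cast
    ring
  set Q0 : Blk d := (fun t => Q.1 t - v t, Q.2) with hQ0
  have hR : Q0 ∈ Rg (A.n l) (8 * d + 8) (anc A (l + 1) c, 3 * (A.ix d k / A.ix d (l + 1))) := by
    obtain ⟨h1, h2, h3⟩ := hQ
    refine ⟨fun j => ?_, h2, h3⟩
    have h4 := h1 j
    simp only [hQ0, hv] at h4 ⊢
    rw [hdiv]
    constructor
    · linarith [h4.1]
    · linarith [h4.2]
  have hb : bd Q0 (anc A l c, 3 * (A.ix d k / A.ix d l)) ≤ A.D l := by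
    have h1 : Q0.1 - anc A l c = Q.1 - (fun t => anc A l c t + v t) := by
      funext t
      simp only [hQ0, Pi.sub_apply]
      ring
    have h2 : bd Q0 (anc A l c, 3 * (A.ix d k / A.ix d l)) =
        bd Q ((fun t => anc A l c t + v t), 3 * (A.ix d k / A.ix d l)) := by
      unfold bd
      rw [show (anc A l c, 3 * (A.ix d k / A.ix d l)).1 = anc A l c from rfl, h1]
    rw [h2]
    exact hbd
  have h5 := h l hl Q0 hR hb
  have htv : (tv (sm (A.S l) Q0.1) : Tor d M) = tv (sm (A.S l) Q.1) := by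
    funext j
    show (((A.S l : ℤ) * (Q.1 j - ((A.nx k / A.nx l : ℕ) : ℤ) * ((M : ℤ) * z j)) : ℤ) : ZMod M) =
      (((A.S l : ℤ) * Q.1 j : ℤ) : ZMod M)
    push_cast
    rw [ZMod.natCast_self]
    ring
  intro h6
  apply h5
  unfold badA Bad badW at h6 ⊢
  rw [SF2.sft_tv N1 _ _ htv, SF2.sft_tv N1 _ _ htv]
  exact h6

variable {m : Model} {δ : ℝ}

/-- union bound over the times and the indices -/
theorem union_sc (q : Par d m δ) (P H : ℕ) (hP : 0 < P) (hPM : P ≤ q.M) (cond : ℕ → Prop)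
    (hcond : ∀ s, cond s → s ≤ H) (X : ℕ → Pos d → Ev d q.M q.K) (ε : ℝ≥0∞)
    (hper : ∀ s (c z : Pos d) η w, X s (fun t => c t + (P : ℤ) * ((q.M : ℤ) * z t)) η w → X s c η w)
    (hb : ∀ s c, cond s → q.PP (H * q.N1) (X s c) ≤ ε) :
    q.PP (H * q.N1) (fun η w => ∃ s c, cond s ∧ X s c η w) ≤
      (H + 1) * (q.M : ℝ≥0∞) ^ (2 * d) * ε := by
  have hM : 0 < q.M := by have := q.M_ge; omega
  set S : Finset (ℕ × Pos d) := ((Finset.range (H + 1)).filter cond) ×ˢ
    (Fintype.piFinset fun _ => Finset.Ico (0 : ℤ) (P * q.M)) with hS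
  have h1 : q.PP (H * q.N1) (fun η w => ∃ s c, cond s ∧ X s c η w) ≤
      q.PP (H * q.N1) (fun η w => ∃ x ∈ S, (fun (x : ℕ × Pos d) => X x.1 x.2) x η w) := by
    refine PP_mono q _ fun η w _ h => ?_
    obtain ⟨s, c, hs, hX⟩ := h
    refine ⟨(s, fun t => c t % (P * q.M)), ?_, ?_⟩
    · rw [hS, Finset.mem_product]
      refine ⟨Finset.mem_filter.mpr ⟨Finset.mem_range.mpr ?_, hs⟩, ?_⟩
      · have := hcond s hs
        show s < H + 1
        omega
      · rw [Fintype.mem_piFinset]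
        intro t
        have hpos : (0 : ℤ) < (P : ℤ) * q.M := by positivity
        exact Finset.mem_Ico.mpr ⟨Int.emod_nonneg _ hpos.ne', Int.emod_lt_of_pos _ hpos⟩
    · refine hper s _ (fun t => c t / (P * q.M)) η w ?_
      have : (fun t => c t % (P * q.M) + (P : ℤ) * ((q.M : ℤ) * (c t / (P * q.M)))) = c := by
        funext t
        rw [← mul_assoc]
        exact Int.emod_add_mul_ediv _ _
      rw [this]
      exact hX
  refine h1.trans ((PP_finset q _ S _).trans ?_)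
  have h2 : ∀ x ∈ S, q.PP (H * q.N1) (X x.1 x.2) ≤ ε := by
    intro x hx
    rw [hS, Finset.mem_product] at hx
    exact hb _ _ (Finset.mem_filter.mp hx.1).2
  refine (Finset.sum_le_sum h2).trans ?_
  rw [Finset.sum_const, nsmul_eq_mul]
  gcongr
  have h3 : S.card ≤ (H + 1) * q.M ^ (2 * d) := by
    rw [hS, Finset.card_product]
    refine Nat.mul_le_mul ((Finset.card_filter_le _ _).trans (by rw [Finset.card_range])) ?_
    rw [Fintype.card_piFinset]
    simp only [Finset.prod_const, Finset.card_univ, Fintype.card_fin, Int.card_Ico]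
    have h4 : ((P : ℤ) * q.M - 0).toNat = P * q.M := by
      rw [sub_zero, ← Nat.cast_mul, Int.toNat_natCast]
    rw [h4, pow_mul]
    refine Nat.pow_le_pow_left ?_ d
    rw [sq]
    exact Nat.mul_le_mul_right _ hPM
  calc (S.card : ℝ≥0∞) ≤ (((H + 1) * q.M ^ (2 * d) : ℕ) : ℝ≥0∞) := by exact_mod_cast h3
    _ = _ := by push_cast; rfl

end ZP.P3
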