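import Pool.Agent.ZI.C8

/-! # Pairs of configurations driven by the same letters: discrepancies and annihilations

`η`, `ζ` are two configurations. A *discrepancy* of `ζ` at `x` is a unit of `(ζ x - η x)^+`.
`nG G η ζ` is the weighted number of the discrepancies, `ann1` the weighted number of the annihilations of a letter. -/

set_option autoImplicit false

open scoped ENNReal BigOperators Classical

noncomputable section

namespace ZPD

open ZI ZI.Rows

variable {d : ℕ} {M K : ℕ}

/-- the weighted number of the discrepancies -/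
def nG [NeZero M] (G : Tor d M → ℝ≥0∞) (η ζ : Tor d M → ℕ) : ℝ≥0∞ :=
  ∑ z, ((ζ z - η z : ℕ) : ℝ≥0∞) * G z

/-- the label makes an annihilation at its target -/
def isAnn (η ζ : Tor d M → ℕ) (l : Lab (Tor d M) d) : Prop :=
  (l.2.1 < η l.1 ∧ ¬ l.2.1 < ζ l.1 ∧ η (l.1 + tv (dv l.2.2)) < ζ (l.1 + tv (dv l.2.2))) ∨
  (l.2.1 < ζ l.1 ∧ ¬ l.2.1 < η l.1 ∧ ζ (l.1 + tv (dv l.2.2)) < η (l.1 + tv (dv l.2.2)))

/-- only the second configuration moves -/
def onlyB (η ζ : Tor d M → ℕ) (l : Lab (Tor d M) d) : Prop :=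
  l.2.1 < ζ l.1 ∧ ¬ l.2.1 < η l.1

/-- the weight of the annihilation of one letter -/
def ann1 (f : Tor d M → ℝ≥0∞) (η ζ : Tor d M → ℕ) (a : Let d M K) : ℝ≥0∞ :=
  match toLab a with
  | none => 0
  | some l => if isAnn η ζ l then f (l.1 + tv (dv l.2.2)) else 0

/-- the weight of the annihilations along a word -/
def annS (f : Tor d M → ℝ≥0∞) : (Tor d M → ℕ) → (Tor d M → ℕ) → List (Let d M K) → ℝ≥0∞
  | _, _, [] => 0
  | η, ζ, a :: l => ann1 f η ζ a + annS f (stepA η a) (stepA ζ a) l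

/-- two sites of the sum -/
theorem nG_two [NeZero M] (G : Tor d M → ℝ≥0∞) (η ζ : Tor d M → ℕ) (x y : Tor d M) (h : y ≠ x) :
    nG G η ζ = ((ζ x - η x : ℕ) : ℝ≥0∞) * G x + (((ζ y - η y : ℕ) : ℝ≥0∞) * G y +
      ∑ z ∈ (Finset.univ.erase x).erase y, ((ζ z - η z : ℕ) : ℝ≥0∞) * G z) := by
  unfold nG
  rw [← Finset.add_sum_erase Finset.univ _ (Finset.mem_univ x),
    ← Finset.add_sum_erase (Finset.univ.erase x) _ (Finset.mem_erase.2 ⟨h, Finset.mem_univ y⟩)]

/-- one label -/
theorem nG_mv [NeZero M] (hM : 2 ≤ M) (G : Tor d M → ℝ≥0∞) (η ζ : Tor d M → ℕ)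
    (l : Lab (Tor d M) d) :
    nG G (mv nbT η l) (mv nbT ζ l) +
      ((if isAnn η ζ l then G (l.1 + tv (dv l.2.2)) else 0) +
        (if onlyB η ζ l then G l.1 else 0)) =
    nG G η ζ + (if onlyB η ζ l then G (l.1 + tv (dv l.2.2)) else 0) := by
  obtain ⟨x, k, e⟩ := l
  simp only
  have hne := add_tv_ne hM x e
  set y := x + tv (dv e) with hy
  rw [nG_two G _ _ x y hne, nG_two G η ζ x y hne]
  have hrest : ∑ z ∈ (Finset.univ.erase x).erase y,
      ((mv nbT ζ (x, k, e) z - mv nbT η (x, k, e) z : ℕ) : ℝ≥0∞) * G z =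
      ∑ z ∈ (Finset.univ.erase x).erase y, ((ζ z - η z : ℕ) : ℝ≥0∞) * G z := by
    refine Finset.sum_congr rfl fun z hz => ?_
    have hzy : z ≠ y := Finset.ne_of_mem_erase hz
    have hzx : z ≠ x := Finset.ne_of_mem_erase (Finset.mem_of_mem_erase hz)
    have h1 : ∀ ξ : Tor d M → ℕ, mv nbT ξ (x, k, e) z = ξ z := by
      intro ξ
      by_cases h : k < ξ x
      · rw [C8.mv_apply ξ (x, k, e) z h, if_neg hzx, if_neg hzy, add_zero]
      · rw [mv_neff ξ (x, k, e) h]
    rw [h1, h1]
  rw [hrest]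
  set R := ∑ z ∈ (Finset.univ.erase x).erase y, ((ζ z - η z : ℕ) : ℝ≥0∞) * G z
  have vx : ∀ ξ : Tor d M → ℕ, mv nbT ξ (x, k, e) x = if k < ξ x then ξ x - 1 else ξ x := by
    intro ξ
    by_cases h : k < ξ x
    · rw [C8.mv_apply ξ (x, k, e) x h, if_pos rfl, if_neg hne.symm, add_zero, if_pos h]
    · rw [mv_neff ξ (x, k, e) h, if_neg h]
  have vy : ∀ ξ : Tor d M → ℕ, mv nbT ξ (x, k, e) y = if k < ξ x then ξ y + 1 else ξ y := by
    intro ξ
    by_cases h : k < ξ x
    · rw [C8.mv_apply ξ (x, k, e) y h, if_neg hne, if_pos rfl, if_pos h]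
    · rw [mv_neff ξ (x, k, e) h, if_neg h]
  rw [vx, vx, vy, vy]
  unfold isAnn onlyB
  simp only
  rw [← hy]
  by_cases h1 : k < η x
  · by_cases h2 : k < ζ x
    · simp only [h1, h2, if_true, not_true_eq_false, false_and, and_false, or_self, if_false,
        add_zero]
      have e1 : ζ x - 1 - (η x - 1) = ζ x - η x := by omega
      have e2 : ζ y + 1 - (η y + 1) = ζ y - η y := by omega
      rw [e1, e2]
    · simp only [h1, h2, if_true, not_true_eq_false, false_and, and_false, or_false, if_false,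
        add_zero, not_false_eq_true, true_and]
      have e1 : ζ x - (η x - 1) = ζ x - η x := by omega
      rw [e1]
      by_cases h3 : η y < ζ y
      · have e2 : ζ y - η y = (ζ y - (η y + 1)) + 1 := by omega
        rw [if_pos h3, e2]
        push_cast
        ring
      · have e2 : ζ y - η y = (ζ y - (η y + 1)) := by omega
        rw [if_neg h3, e2, add_zero]
  · by_cases h2 : k < ζ x
    · simp only [h1, h2, if_true, not_false_eq_true, true_and, false_and, false_or, if_false]
      have e1 : ζ x - η x = (ζ x - 1 - η x) + 1 := by omega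
      rw [e1]
      by_cases h3 : ζ y < η y
      · have e2 : ζ y + 1 - η y = ζ y - η y := by omega
        rw [if_pos h3, e2]
        push_cast
        ring
      · have e2 : ζ y + 1 - η y = (ζ y - η y) + 1 := by omega
        rw [if_neg h3, e2]
        push_cast
        ring
    · simp only [h1, h2, if_false, false_and, or_self, add_zero]

theorem stepA_some' (η : Tor d M → ℕ) (x : Tor d M) (k : Fin K) (e : Dir d) :
    stepA η (some (x, k, e) : Let d M K) = mv nbT η (x, (k : ℕ), e) := rfl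

theorem ann1_some (f : Tor d M → ℝ≥0∞) (η ζ : Tor d M → ℕ) (x : Tor d M) (k : Fin K) (e : Dir d) :
    ann1 f η ζ (some (x, k, e) : Let d M K) =
      if isAnn η ζ (x, (k : ℕ), e) then f (x + tv (dv e)) else 0 := rfl

theorem ann1_none (f : Tor d M → ℝ≥0∞) (η ζ : Tor d M → ℕ) :
    ann1 f η ζ (none : Let d M K) = 0 := rfl

variable {m : Model} (q : Par d m)

/-- expected weighted number after one letter -/
theorem nG_step (hd : 0 < d) (G : Tor d q.M → ℝ≥0∞) (hGt : ∀ x, G x ≠ ⊤) (c : ℝ≥0∞)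
    (hG : ∀ x, ∑ e : Dir d, G (x + tv (dv e)) ≤ (2 * d * (1 + c)) * G x) (η ζ : Tor d q.M → ℕ) :
    ∑ a, q.w a * (nG G (stepA η a) (stepA ζ a) + ann1 G η ζ a) ≤
      (1 + c * ENNReal.ofReal (m.Gp * q.p)) * nG G η ζ := by
  have hM : 2 ≤ q.M := by have := q.M_ge; omega
  set Y : ℝ≥0∞ := ∑ a : Let d q.M q.K, q.w a * (match toLab a with
    | none => 0
    | some l => if onlyB η ζ l then G l.1 else 0) with hY
  set Z : ℝ≥0∞ := ∑ a : Let d q.M q.K, q.w a * (match toLab a with
    | none => 0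
    | some l => if onlyB η ζ l then G (l.1 + tv (dv l.2.2)) else 0) with hZ
  -- the balance
  have hbal : ∑ a, q.w a * (nG G (stepA η a) (stepA ζ a) + ann1 G η ζ a) + Y = nG G η ζ + Z := by
    have h1 : nG G η ζ = ∑ a, q.w a * nG G η ζ := by
      rw [← Finset.sum_mul, sum_w q hd, one_mul]
    rw [h1, hY, hZ, ← Finset.sum_add_distrib, ← Finset.sum_add_distrib]
    refine Finset.sum_congr rfl fun a _ => ?_
    rw [← mul_add, ← mul_add]
    congr 1
    cases a with
    | none =>
      show nG G η ζ + 0 + 0 = nG G η ζ + 0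
      rw [add_zero]
    | some l =>
      obtain ⟨x, k, e⟩ := l
      have := nG_mv hM G η ζ (x, (k : ℕ), e)
      rw [ann1_some, stepA_some', stepA_some']
      rw [add_assoc]
      exact this
  -- the sums over the letters
  have hYs : Y = ∑ x, ∑ k : Fin q.K, ∑ e : Dir d, ENNReal.ofReal (m.lam d k * q.p) *
      (if onlyB η ζ (x, (k : ℕ), e) then G x else 0) := by
    rw [hY, Fintype.sum_option]
    have h0 : q.w (none : Let d q.M q.K) * (match toLab (none : Let d q.M q.K) with
      | none => (0 : ℝ≥0∞)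
      | some l => if onlyB η ζ l then G l.1 else 0) = 0 := mul_zero _
    rw [h0, zero_add, Fintype.sum_prod_type]
    refine Finset.sum_congr rfl fun x _ => ?_
    rw [Fintype.sum_prod_type]
    rfl
  have hZs : Z = ∑ x, ∑ k : Fin q.K, ∑ e : Dir d, ENNReal.ofReal (m.lam d k * q.p) *
      (if onlyB η ζ (x, (k : ℕ), e) then G (x + tv (dv e)) else 0) := by
    rw [hZ, Fintype.sum_option]
    have h0 : q.w (none : Let d q.M q.K) * (match toLab (none : Let d q.M q.K) with
      | none => (0 : ℝ≥0∞)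
      | some l => if onlyB η ζ l then G (l.1 + tv (dv l.2.2)) else 0) = 0 := mul_zero _
    rw [h0, zero_add, Fintype.sum_prod_type]
    refine Finset.sum_congr rfl fun x _ => ?_
    rw [Fintype.sum_prod_type]
    rfl
  -- `Z ≤ (1 + c) Y`
  have hcard : ((Fintype.card (Dir d) : ℕ) : ℝ≥0∞) = 2 * d := by
    rw [Fintype.card_prod, Fintype.card_fin, Fintype.card_bool]
    push_cast
    ring
  have hZY : Z ≤ (1 + c) * Y := by
    rw [hYs, hZs, Finset.mul_sum]
    refine Finset.sum_le_sum fun x _ => ?_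
    rw [Finset.mul_sum]
    refine Finset.sum_le_sum fun k _ => ?_
    by_cases h : (k : ℕ) < ζ x ∧ ¬ (k : ℕ) < η x
    · have h' : ∀ e : Dir d, onlyB η ζ (x, (k : ℕ), e) := fun e => h
      simp only [h', if_true]
      rw [← Finset.mul_sum, ← Finset.mul_sum]
      calc ENNReal.ofReal (m.lam d k * q.p) * ∑ e : Dir d, G (x + tv (dv e))
          ≤ ENNReal.ofReal (m.lam d k * q.p) * ((2 * d * (1 + c)) * G x) :=
            mul_le_mul_right (hG x) _
        _ = (1 + c) * (ENNReal.ofReal (m.lam d k * q.p) * ∑ e : Dir d, G x) := by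
            rw [Finset.sum_const, Finset.card_univ, nsmul_eq_mul, hcard]
            ring
    · have h' : ∀ e : Dir d, ¬ onlyB η ζ (x, (k : ℕ), e) := fun e => h
      simp only [h', if_false, mul_zero, Finset.sum_const_zero, le_refl]
  -- `Y ≤ Gp p nG`
  have hYn : Y ≤ ENNReal.ofReal (m.Gp * q.p) * nG G η ζ := by
    rw [hYs, nG, Finset.mul_sum]
    refine Finset.sum_le_sum fun x _ => ?_
    have h1 : ∀ k : Fin q.K, ∑ e : Dir d, ENNReal.ofReal (m.lam d k * q.p) *
        (if onlyB η ζ (x, (k : ℕ), e) then G x else 0) ≤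
        (if (k : ℕ) < ζ x ∧ ¬ (k : ℕ) < η x then 1 else 0) * (ENNReal.ofReal (m.Gp * q.p) * G x) := by
      intro k
      by_cases h : (k : ℕ) < ζ x ∧ ¬ (k : ℕ) < η x
      · have h' : ∀ e : Dir d, onlyB η ζ (x, (k : ℕ), e) := fun e => h
        simp only [h', if_true]
        rw [if_pos h, one_mul, Finset.sum_const, Finset.card_univ, nsmul_eq_mul, hcard, ← mul_assoc]
        refine mul_le_mul_left ?_ _
        have hd0 : (2 * d : ℝ≥0∞) = ENNReal.ofReal (2 * d) := by
          rw [ENNReal.ofReal_mul (by norm_num), ENNReal.ofReal_ofNat, ENNReal.ofReal_natCast]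
        rw [hd0, ← ENNReal.ofReal_mul (by positivity)]
        refine ENNReal.ofReal_le_ofReal ?_
        have h2 := C4.two_d_lam m hd k
        have h3 := q.p_pos
        calc 2 * d * (m.lam d k * q.p) = (2 * d * m.lam d k) * q.p := by ring
          _ ≤ m.Gp * q.p := mul_le_mul_of_nonneg_right h2 h3.le
      · have h' : ∀ e : Dir d, ¬ onlyB η ζ (x, (k : ℕ), e) := fun e => h
        simp only [h', if_false, mul_zero, Finset.sum_const_zero]
        exact zero_le
    refine (Finset.sum_le_sum fun k _ => h1 k).trans ?_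
    rw [← Finset.sum_mul]
    have h2 : ∑ k : Fin q.K, (if (k : ℕ) < ζ x ∧ ¬ (k : ℕ) < η x then (1 : ℝ≥0∞) else 0) ≤
        ((ζ x - η x : ℕ) : ℝ≥0∞) := by
      rw [Fin.sum_univ_eq_sum_range
        (fun k => if k < ζ x ∧ ¬ k < η x then (1 : ℝ≥0∞) else 0) q.K, ← Finset.sum_filter,
        Finset.sum_const, nsmul_eq_mul, mul_one]
      have h3 : (Finset.range q.K).filter (fun k => k < ζ x ∧ ¬ k < η x) ⊆
          Finset.Ico (η x) (ζ x) := by
        intro k hk
        rw [Finset.mem_filter] at hk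
        rw [Finset.mem_Ico]
        omega
      have h4 := Finset.card_le_card h3
      rw [Nat.card_Ico] at h4
      exact_mod_cast h4
    calc (∑ k : Fin q.K, (if (k : ℕ) < ζ x ∧ ¬ (k : ℕ) < η x then (1 : ℝ≥0∞) else 0)) *
          (ENNReal.ofReal (m.Gp * q.p) * G x)
        ≤ ((ζ x - η x : ℕ) : ℝ≥0∞) * (ENNReal.ofReal (m.Gp * q.p) * G x) :=
          mul_le_mul_left h2 _
      _ = ENNReal.ofReal (m.Gp * q.p) * (((ζ x - η x : ℕ) : ℝ≥0∞) * G x) := by ring
  -- finiteness
  have hnt : nG G η ζ ≠ ⊤ := by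
    unfold nG
    refine ENNReal.sum_ne_top.2 fun x _ => ENNReal.mul_ne_top (ENNReal.natCast_ne_top _) (hGt x)
  have hYt : Y ≠ ⊤ := ne_top_of_le_ne_top (ENNReal.mul_ne_top ENNReal.ofReal_ne_top hnt) hYn
  have h5 : ∑ a, q.w a * (nG G (stepA η a) (stepA ζ a) + ann1 G η ζ a) + Y ≤
      (nG G η ζ + c * Y) + Y := by
    rw [hbal]
    calc nG G η ζ + Z ≤ nG G η ζ + (1 + c) * Y := add_le_add le_rfl hZY
      _ = (nG G η ζ + c * Y) + Y := by ring
  have h6 := (ENNReal.add_le_add_iff_right hYt).1 h5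
  refine h6.trans ?_
  calc nG G η ζ + c * Y ≤ nG G η ζ + c * (ENNReal.ofReal (m.Gp * q.p) * nG G η ζ) :=
        add_le_add le_rfl (mul_le_mul_right hYn c)
    _ = (1 + c * ENNReal.ofReal (m.Gp * q.p)) * nG G η ζ := by ring

/-- a window -/
theorem nG_window (hd : 0 < d) (G : Tor d q.M → ℝ≥0∞) (hGt : ∀ x, G x ≠ ⊤) (c : ℝ≥0∞)
    (hG : ∀ x, ∑ e : Dir d, G (x + tv (dv e)) ≤ (2 * d * (1 + c)) * G x) (N : ℕ) :
    ∀ η ζ : Tor d q.M → ℕ,
    EvE q.w N (fun l => nG G (l.foldl stepA η) (l.foldl stepA ζ) + annS G η ζ l) ≤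
      (1 + c * ENNReal.ofReal (m.Gp * q.p)) ^ N * nG G η ζ := by
  set κ : ℝ≥0∞ := 1 + c * ENNReal.ofReal (m.Gp * q.p) with hκ
  have hκ1 : 1 ≤ κ := le_self_add
  induction N with
  | zero =>
    intro η ζ
    rw [EvE_zero]
    simp [annS]
  | succ N ih =>
    intro η ζ
    rw [EvE_succ]
    have h1 : ∀ a : Let d q.M q.K, EvE q.w N (fun l =>
        nG G ((a :: l).foldl stepA η) ((a :: l).foldl stepA ζ) + annS G η ζ (a :: l)) ≤
        κ ^ N * (nG G (stepA η a) (stepA ζ a) + ann1 G η ζ a) := by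
      intro a
      have h2 : EvE q.w N (fun l =>
          nG G ((a :: l).foldl stepA η) ((a :: l).foldl stepA ζ) + annS G η ζ (a :: l)) =
          EvE q.w N (fun l => nG G (l.foldl stepA (stepA η a)) (l.foldl stepA (stepA ζ a)) +
            annS G (stepA η a) (stepA ζ a) l) + ann1 G η ζ a := by
        conv_rhs => rw [← EvE_const q.w (sum_w q hd) N (ann1 G η ζ a)]
        rw [← EvE_add]
        refine EvE_congr q.w N fun l _ => ?_
        simp only [List.foldl_cons, annS]
        ring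
      rw [h2, mul_add]
      refine add_le_add (ih _ _) ?_
      calc ann1 G η ζ a = 1 * ann1 G η ζ a := (one_mul _).symm
        _ ≤ κ ^ N * ann1 G η ζ a := mul_le_mul_left (one_le_pow₀ hκ1) _
    calc ∑ a, q.w a * EvE q.w N (fun l =>
          nG G ((a :: l).foldl stepA η) ((a :: l).foldl stepA ζ) + annS G η ζ (a :: l))
        ≤ ∑ a, q.w a * (κ ^ N * (nG G (stepA η a) (stepA ζ a) + ann1 G η ζ a)) :=
          Finset.sum_le_sum fun a _ => mul_le_mul_right (h1 a) _
      _ = κ ^ N * ∑ a, q.w a * (nG G (stepA η a) (stepA ζ a) + ann1 G η ζ a) := by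
          rw [Finset.mul_sum]
          exact Finset.sum_congr rfl fun a _ => by ring
      _ ≤ κ ^ N * (κ * nG G η ζ) := mul_le_mul_right (nG_step q hd G hGt c hG η ζ) _
      _ = κ ^ (N + 1) * nG G η ζ := by rw [pow_succ]; ring

/-- linearity of the weight of the annihilations -/
theorem ann1_sum {ι : Type} (s : Finset ι) (f : ι → Tor d M → ℝ≥0∞) (η ζ : Tor d M → ℕ)
    (a : Let d M K) :
    ∑ i ∈ s, ann1 (f i) η ζ a = ann1 (fun x => ∑ i ∈ s, f i x) η ζ a := by
  cases a with
  | none => simp [ann1_none]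
  | some l =>
    obtain ⟨x, k, e⟩ := l
    simp only [ann1_some]
    split_ifs <;> simp

theorem annS_sum {ι : Type} (s : Finset ι) (f : ι → Tor d M → ℝ≥0∞) (l : List (Let d M K)) :
    ∀ η ζ : Tor d M → ℕ, ∑ i ∈ s, annS (f i) η ζ l = annS (fun x => ∑ i ∈ s, f i x) η ζ l := by
  induction l with
  | nil => intro η ζ; simp [annS]
  | cons a l ih =>
    intro η ζ
    simp only [annS, Finset.sum_add_distrib, ih, ann1_sum]

theorem annS_mono (f g : Tor d M → ℝ≥0∞) (h : ∀ x, f x ≤ g x) (l : List (Let d M K)) :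
    ∀ η ζ : Tor d M → ℕ, annS f η ζ l ≤ annS g η ζ l := by
  induction l with
  | nil => intro η ζ; simp [annS]
  | cons a l ih =>
    intro η ζ
    simp only [annS]
    refine add_le_add ?_ (ih _ _)
    cases a with
    | none => simp [ann1_none]
    | some b =>
      obtain ⟨x, k, e⟩ := b
      simp only [ann1_some]
      split_ifs
      · exact h _
      · exact le_rfl

theorem annS_mul (c : ℝ≥0∞) (f : Tor d M → ℝ≥0∞) (l : List (Let d M K)) :
    ∀ η ζ : Tor d M → ℕ, annS (fun x => c * f x) η ζ l = c * annS f η ζ l := by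
  induction l with
  | nil => intro η ζ; simp [annS]
  | cons a l ih =>
    intro η ζ
    simp only [annS, ih, mul_add]
    congr 1
    cases a with
    | none => simp [ann1_none]
    | some b =>
      obtain ⟨x, k, e⟩ := b
      simp only [ann1_some]
      split_ifs <;> simp

end ZPD
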