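import Pool.Agent.ZI.Blocks

/-! # The path lemma: in a hierarchy of well separated clusters, good points in a cone are joined by a path

`bump`: one level.  `path_lemma`: all levels. -/

set_option autoImplicit false

open scoped BigOperators Classical

noncomputable section

namespace ZP

open ZI (Pos supn)

variable {d : ℕ}

/-- sup distance in space-time -/
def dd (p q : Pos d × ℤ) : ℕ := max (supn (p.1 - q.1)) (p.2 - q.2).natAbs

lemma supn_le_iff (v : Pos d) (n : ℕ) : supn v ≤ n ↔ ∀ j, |v j| ≤ (n : ℤ) := by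
  unfold supn
  rw [Finset.sup_le_iff]
  constructor
  · intro h j
    have := h j (Finset.mem_univ j)
    rw [Int.abs_eq_natAbs]
    exact_mod_cast this
  · intro h j _
    have := h j
    rw [Int.abs_eq_natAbs] at this
    exact_mod_cast this

/-- the clamped time -/
def bumpF (sk η : ℝ) (τ : Set ℝ) (t : ℝ) : ℝ :=
  if τ.Nonempty then max 0 (12 * sk - η * max 0 (Metric.infDist t τ - sk)) else 0

lemma bumpF_nonneg (sk η : ℝ) (τ : Set ℝ) (t : ℝ) : 0 ≤ bumpF sk η τ t := by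
  unfold bumpF
  split_ifs
  · exact le_max_left _ _
  · exact le_rfl

lemma bumpF_le (sk η : ℝ) (hs : 0 ≤ sk) (hη : 0 ≤ η) (τ : Set ℝ) (t : ℝ) : bumpF sk η τ t ≤ 12 * sk := by
  unfold bumpF
  split_ifs
  · refine max_le (by linarith) ?_
    have : 0 ≤ η * max 0 (Metric.infDist t τ - sk) := mul_nonneg hη (le_max_left _ _)
    linarith
  · linarith

lemma bumpF_lip (sk η : ℝ) (hη : 0 ≤ η) (τ : Set ℝ) (t t' : ℝ) :
    |bumpF sk η τ t - bumpF sk η τ t'| ≤ η * |t - t'| := by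
  unfold bumpF
  split_ifs with h
  · have h1 : |Metric.infDist t τ - Metric.infDist t' τ| ≤ |t - t'| := by
      have := (Metric.lipschitz_infDist_pt τ).dist_le_mul t t'
      simpa [Real.dist_eq] using this
    have h2 : |max 0 (Metric.infDist t τ - sk) - max 0 (Metric.infDist t' τ - sk)| ≤ |t - t'| := by
      refine (abs_max_sub_max_le_max _ _ _ _).trans ?_
      refine max_le (by simp) ?_
      have : Metric.infDist t τ - sk - (Metric.infDist t' τ - sk) = Metric.infDist t τ - Metric.infDist t' τ := by ring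
      rw [this]; exact h1
    refine (abs_max_sub_max_le_max _ _ _ _).trans ?_
    refine max_le ?_ ?_
    · simp; positivity
    · have : 12 * sk - η * max 0 (Metric.infDist t τ - sk) - (12 * sk - η * max 0 (Metric.infDist t' τ - sk))
        = - (η * (max 0 (Metric.infDist t τ - sk) - max 0 (Metric.infDist t' τ - sk))) := by ring
      rw [this, abs_neg, abs_mul, abs_of_nonneg hη]
      exact mul_le_mul_of_nonneg_left h2 hη
  · simp; positivity

/-- the full height near a point of the set -/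
lemma bumpF_full (sk η : ℝ) (hs : 0 ≤ sk) (hη : 0 ≤ η) (τ : Set ℝ) (t a : ℝ) (ha : a ∈ τ) (h : |t - a| ≤ sk) :
    bumpF sk η τ t = 12 * sk := by
  unfold bumpF
  rw [if_pos ⟨a, ha⟩]
  have h1 : Metric.infDist t τ ≤ sk := by
    refine (Metric.infDist_le_dist_of_mem ha).trans ?_
    rwa [Real.dist_eq]
  rw [max_eq_left (by linarith : Metric.infDist t τ - sk ≤ 0)]
  rw [mul_zero, sub_zero, max_eq_right (by linarith)]

/-- zero far from the set -/
lemma bumpF_zero (sk η W : ℝ) (hη : 0 < η) (hW : 12 * sk ≤ η * (W - sk)) (τ : Set ℝ) (t : ℝ)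
    (h : ∀ a ∈ τ, W ≤ |t - a|) : bumpF sk η τ t = 0 := by
  unfold bumpF
  split_ifs with hne
  · have h1 : W ≤ Metric.infDist t τ := by
      refine (Metric.le_infDist hne).2 ?_
      intro a ha
      rw [Real.dist_eq]
      exact h a ha
    rw [max_eq_left]
    have h2 : W - sk ≤ max 0 (Metric.infDist t τ - sk) := le_trans (by linarith) (le_max_right _ _)
    nlinarith [mul_le_mul_of_nonneg_left h2 hη.le]
  · rfl

/-- one level of the hierarchy: a Lipschitz path is shifted away from the isolated clusters -/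
lemma bump (F : ℤ → Fin d → ℝ) (i0 : Fin d) (C : Set (Pos d × ℤ)) (tP tQ : ℤ) (sk L : ℕ) (η W : ℝ)
    (hF : ∀ t t' i, |F t i - F t' i| ≤ (1 / 2) * |(t : ℝ) - t'|)
    (hC : ∀ q ∈ C, ∀ q' ∈ C, dd q q' ≤ L → dd q q' ≤ sk)
    (hη : 0 < η) (hW : 12 * (sk : ℝ) ≤ η * (W - sk)) (hL : 2 * W + 100 * (sk : ℝ) ≤ L)
    (hWs : (sk : ℝ) ≤ W)
    (hend : ∀ q ∈ C, tP ≤ q.2 → q.2 ≤ tQ → (∀ i, |F q.2 i - q.1 i| < 20 * sk) →
      (tP : ℝ) + W ≤ q.2 ∧ (q.2 : ℝ) + W ≤ tQ) :
    ∃ h : ℤ → ℝ, (∀ t, 0 ≤ h t) ∧ (∀ t, h t ≤ 12 * sk) ∧ (∀ t t' : ℤ, |h t - h t'| ≤ η * |(t : ℝ) - t'|) ∧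
      (∀ t : ℤ, t ≤ tP ∨ tQ ≤ t → h t = 0) ∧
      ∀ q ∈ C, tP ≤ q.2 → q.2 ≤ tQ → ∃ i, 2 * (sk : ℝ) ≤ |F q.2 i + (if i = i0 then h q.2 else 0) - q.1 i| := by
  set A : Set (Pos d × ℤ) := {q | q ∈ C ∧ tP ≤ q.2 ∧ q.2 ≤ tQ ∧ (∀ i, |F q.2 i - q.1 i| < 20 * sk) ∧
    -8 * (sk : ℝ) < F q.2 i0 - q.1 i0} with hA
  set τ : Set ℝ := {a | ∃ q ∈ A, a = (q.2 : ℝ)} with hτ
  have hs0 : (0 : ℝ) ≤ sk := Nat.cast_nonneg _
  refine ⟨fun t => bumpF sk η τ t, fun t => bumpF_nonneg _ _ _ _, fun t => bumpF_le _ _ hs0 hη.le _ _,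
    fun t t' => bumpF_lip _ _ hη.le _ _ _, ?_, ?_⟩
  · intro t ht
    refine bumpF_zero _ _ W hη hW _ _ ?_
    rintro a ⟨q, hq, rfl⟩
    obtain ⟨h1, h2, h3, h4, h5⟩ := hq
    obtain ⟨h6, h7⟩ := hend q h1 h2 h3 h4
    rcases ht with ht | ht
    · have : (t : ℝ) ≤ tP := by exact_mod_cast ht
      rw [abs_sub_comm]
      exact le_trans (by linarith) (le_abs_self _)
    · have : (tQ : ℝ) ≤ t := by exact_mod_cast ht
      exact le_trans (by linarith) (le_abs_self _)
  · intro q hq h1 h2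
    show ∃ i, 2 * (sk : ℝ) ≤ |F q.2 i + (if i = i0 then bumpF sk η τ q.2 else 0) - q.1 i|
    -- two near points: same cluster or far in time
    have key : ∀ a ∈ A, (∀ i, |F q.2 i - q.1 i| < 20 * sk) → |(q.2 : ℝ) - a.2| < W → dd a q ≤ sk := by
      intro a ha hn hlt
      obtain ⟨a1, a2, a3, a4, a5⟩ := ha
      refine hC a a1 q hq ?_
      have hLR : (2 : ℝ) * W + 100 * sk ≤ L := hL
      have hW0 : 0 ≤ W := le_trans hs0 hWs
      unfold dd
      refine max_le ?_ ?_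
      · rw [supn_le_iff]
        intro j
        have e1 := a4 j
        have e2 := hn j
        have e3 := hF a.2 q.2 j
        have e4 : |(a.2 : ℝ) - q.2| < W := by rw [abs_sub_comm]; exact hlt
        have : |((a.1 j - q.1 j : ℤ) : ℝ)| ≤ L := by
          push_cast
          have : (a.1 j : ℝ) - q.1 j = -(F a.2 j - a.1 j) + (F a.2 j - F q.2 j) + (F q.2 j - q.1 j) := by ring
          rw [this]
          refine (abs_add_le _ _).trans ?_
          have := abs_add_le (-(F a.2 j - a.1 j)) (F a.2 j - F q.2 j)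
          rw [abs_neg] at this
          nlinarith [abs_nonneg ((a.2 : ℝ) - q.2)]
        have h' : |a.1 j - q.1 j| ≤ (L : ℤ) := by exact_mod_cast this
        simpa using h'
      · have : |((a.2 - q.2 : ℤ) : ℝ)| ≤ L := by
          push_cast
          rw [abs_sub_comm]
          linarith
        have h' : |a.2 - q.2| ≤ (L : ℤ) := by exact_mod_cast this
        rw [Int.abs_eq_natAbs] at h'
        exact_mod_cast h'
    by_cases hn : ∀ i, |F q.2 i - q.1 i| < 20 * sk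
    · by_cases hex : ∃ a ∈ A, |(q.2 : ℝ) - a.2| < W
      · obtain ⟨a, ha, hlt⟩ := hex
        have hd := key a ha hn hlt
        have hd1 : |(q.2 : ℝ) - a.2| ≤ sk := by
          have : (a.2 - q.2).natAbs ≤ sk := le_trans (le_max_right _ _) hd
          have h' : |q.2 - a.2| ≤ (sk : ℤ) := by
            rw [abs_sub_comm, Int.abs_eq_natAbs]
            exact_mod_cast this
          exact_mod_cast h'
        have hd2 : |(a.1 i0 : ℝ) - q.1 i0| ≤ sk := by
          have h0 : supn (a.1 - q.1) ≤ sk := le_trans (le_max_left _ _) hd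
          rw [supn_le_iff] at h0
          have h' := h0 i0
          simp only [Pi.sub_apply] at h'
          exact_mod_cast h'
        have hfull : bumpF sk η τ q.2 = 12 * sk :=
          bumpF_full _ _ hs0 hη.le _ _ (a.2 : ℝ) ⟨a, ha, rfl⟩ hd1
        refine ⟨i0, ?_⟩
        rw [if_pos rfl, hfull]
        have a5 := ha.2.2.2.2
        have e3 := hF q.2 a.2 i0
        have e4 := abs_le.1 (e3.trans (mul_le_mul_of_nonneg_left hd1 (by norm_num)))
        have e5 := abs_le.1 hd2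
        refine le_trans ?_ (le_abs_self _)
        linarith [e4.1, e5.1]
      · push Not at hex
        have hz : bumpF sk η τ q.2 = 0 := by
          refine bumpF_zero _ _ W hη hW _ _ ?_
          rintro a ⟨p, hp, rfl⟩
          exact hex p hp
        refine ⟨i0, ?_⟩
        rw [if_pos rfl, hz, add_zero]
        by_contra hcon
        push Not at hcon
        have hqA : q ∈ A := by
          refine ⟨hq, h1, h2, hn, ?_⟩
          have := (abs_lt.1 hcon).1
          linarith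
        have := hex q hqA
        rw [sub_self, abs_zero] at this
        have hW0 : 0 ≤ W := le_trans hs0 hWs
        have hW1 : W = 0 := le_antisymm this hW0
        have hs1 : (sk : ℝ) = 0 := le_antisymm (by linarith) hs0
        rw [hs1] at hcon
        have := abs_nonneg (F q.2 i0 - q.1 i0)
        linarith
    · push Not at hn
      obtain ⟨i, hi⟩ := hn
      refine ⟨i, ?_⟩
      have hb1 := bumpF_nonneg sk η τ q.2
      have hb2 := bumpF_le sk η hs0 hη.le τ q.2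
      by_cases hii : i = i0
      · rw [if_pos hii]
        have : F q.2 i + bumpF sk η τ q.2 - q.1 i = (F q.2 i - q.1 i) + bumpF sk η τ q.2 := by ring
        rw [this]
        have h3 := abs_sub_abs_le_abs_sub (F q.2 i - q.1 i) (-(bumpF sk η τ q.2))
        rw [abs_neg, abs_of_nonneg hb1, sub_neg_eq_add] at h3
        linarith
      · rw [if_neg hii, add_zero]
        linarith

/-- a hierarchy of well separated clusters: `Zs 0` = closed blocks, the points of `Zs k` that are not in `Zs (k + 1)`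
are isolated: within the distance `ℓ (k + 1)` of them, `Zs k` has only points at distance `≤ s k` -/
structure HierP (K : ℕ) (s ℓ : ℕ → ℕ) (Zs : ℕ → Set (Pos d × ℤ)) : Prop where
  s0 : 4 ≤ s 0
  sum : ∀ k, 24 * ∑ j ∈ Finset.range k, s j ≤ s k
  sep : ∀ k, 2 ^ (k + 9) * s k ≤ ℓ (k + 1)
  iso : ∀ k < K, ∀ p ∈ Zs k, p ∉ Zs (k + 1) → ∀ q ∈ Zs k, dd p q ≤ ℓ (k + 1) → dd p q ≤ s k

/-- `P` is outside the neighbourhoods of the levels `< K` -/
def GoodPt (K : ℕ) (s : ℕ → ℕ) (Zs : ℕ → Set (Pos d × ℤ)) (P : Pos d × ℤ) : Prop :=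
  ∀ k < K, ∀ p ∈ Zs k, p ∉ Zs (k + 1) → 2 ^ (k + 8) * s k < dd P p

/-- the straight line from `P` to `Q` -/
def seg (P Q : Pos d × ℤ) (t : ℤ) (i : Fin d) : ℝ :=
  P.1 i + ((Q.1 i : ℝ) - P.1 i) / ((Q.2 : ℝ) - P.2) * ((max P.2 (min t Q.2) : ℤ) - P.2 : ℝ)

lemma seg_P (P Q : Pos d × ℤ) (h : P.2 < Q.2) (t : ℤ) (ht : t ≤ P.2) (i : Fin d) : seg P Q t i = P.1 i := by
  unfold seg
  rw [min_eq_left (by omega : t ≤ Q.2), max_eq_left ht, sub_self, mul_zero, add_zero]

lemma seg_Q (P Q : Pos d × ℤ) (h : P.2 < Q.2) (t : ℤ) (ht : Q.2 ≤ t) (i : Fin d) : seg P Q t i = Q.1 i := by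
  unfold seg
  rw [min_eq_right ht, max_eq_right h.le]
  have h' : (P.2 : ℝ) < Q.2 := by exact_mod_cast h
  have : (Q.2 : ℝ) - P.2 ≠ 0 := by
    intro h0
    linarith
  field_simp
  ring

lemma seg_lip (P Q : Pos d × ℤ) (h : P.2 < Q.2) (hc : ∀ i, 4 * |Q.1 i - P.1 i| ≤ Q.2 - P.2) (t t' : ℤ)
    (i : Fin d) : |seg P Q t i - seg P Q t' i| ≤ (1 / 4) * |(t : ℝ) - t'| := by
  unfold seg
  have h' : (0 : ℝ) < (Q.2 : ℝ) - P.2 := by
    have : (P.2 : ℝ) < Q.2 := by exact_mod_cast h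
    linarith
  have h1 : |((Q.1 i : ℝ) - P.1 i) / ((Q.2 : ℝ) - P.2)| ≤ 1 / 4 := by
    rw [abs_div, abs_of_pos h', div_le_iff₀ h']
    have := hc i
    have h2 : (4 : ℝ) * |(Q.1 i : ℝ) - P.1 i| ≤ Q.2 - P.2 := by exact_mod_cast this
    linarith
  have h2 : |(((max P.2 (min t Q.2) : ℤ) : ℝ) - P.2) - (((max P.2 (min t' Q.2) : ℤ) : ℝ) - P.2)| ≤ |(t : ℝ) - t'| := by
    have h3 : |(max P.2 (min t Q.2) : ℤ) - (max P.2 (min t' Q.2) : ℤ)| ≤ |t - t'| := by
      refine (abs_max_sub_max_le_max _ _ _ _).trans ?_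
      refine max_le (by simp) ?_
      refine (abs_min_sub_min_le_max _ _ _ _).trans ?_
      exact max_le le_rfl (by simp)
    have h4 : |(((max P.2 (min t Q.2) : ℤ) : ℝ) - ((max P.2 (min t' Q.2) : ℤ) : ℝ))| ≤ |(t : ℝ) - t'| := by
      exact_mod_cast h3
    have e : (((max P.2 (min t Q.2) : ℤ) : ℝ) - P.2) - (((max P.2 (min t' Q.2) : ℤ) : ℝ) - P.2) =
      (((max P.2 (min t Q.2) : ℤ) : ℝ) - ((max P.2 (min t' Q.2) : ℤ) : ℝ)) := by ring
    rw [e]; exact h4
  have e : (P.1 i : ℝ) + ((Q.1 i : ℝ) - P.1 i) / ((Q.2 : ℝ) - P.2) * (((max P.2 (min t Q.2) : ℤ) : ℝ) - P.2) -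
      ((P.1 i : ℝ) + ((Q.1 i : ℝ) - P.1 i) / ((Q.2 : ℝ) - P.2) * (((max P.2 (min t' Q.2) : ℤ) : ℝ) - P.2)) =
      ((Q.1 i : ℝ) - P.1 i) / ((Q.2 : ℝ) - P.2) *
        ((((max P.2 (min t Q.2) : ℤ) : ℝ) - P.2) - (((max P.2 (min t' Q.2) : ℤ) : ℝ) - P.2)) := by ring
  rw [e, abs_mul]
  exact mul_le_mul h1 h2 (abs_nonneg _) (by norm_num)

/-- the path corrected down to the level `k` -/
def Lvl (K : ℕ) (s : ℕ → ℕ) (Zs : ℕ → Set (Pos d × ℤ)) (i0 : Fin d) (P Q : Pos d × ℤ) (k : ℕ) : Prop :=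
  ∃ g : ℤ → ℝ, (∀ t, 0 ≤ g t) ∧ (∀ t, g t ≤ 12 * ∑ j ∈ Finset.Ico k K, (s j : ℝ)) ∧
    (∀ t t' : ℤ, |g t - g t'| ≤ (∑ j ∈ Finset.Ico k K, (1 / 2 : ℝ) ^ (j + 3)) * |(t : ℝ) - t'|) ∧
    (∀ t : ℤ, t ≤ P.2 ∨ Q.2 ≤ t → g t = 0) ∧
    ∀ j, k ≤ j → j < K → ∀ q ∈ Zs j, q ∉ Zs (j + 1) → P.2 ≤ q.2 → q.2 ≤ Q.2 →
      ∃ i, 2 * (s j : ℝ) - 12 * ∑ l ∈ Finset.Ico k j, (s l : ℝ) ≤
        |seg P Q q.2 i + (if i = i0 then g q.2 else 0) - q.1 i|

lemma geo_le (k K : ℕ) : ∑ j ∈ Finset.Ico k K, (1 / 2 : ℝ) ^ (j + 3) ≤ 1 / 4 := by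
  have h1 : ∑ j ∈ Finset.Ico k K, (1 / 2 : ℝ) ^ (j + 3) ≤ ∑ j ∈ Finset.range K, (1 / 2 : ℝ) ^ (j + 3) := by
    refine Finset.sum_le_sum_of_subset_of_nonneg ?_ ?_
    · intro j hj
      rw [Finset.mem_range]
      exact (Finset.mem_Ico.1 hj).2
    · intro j _ _
      positivity
  refine h1.trans ?_
  have h2 : ∀ n : ℕ, ∑ j ∈ Finset.range n, (1 / 2 : ℝ) ^ (j + 3) = 1 / 4 - (1 / 2) ^ (n + 2) := by
    intro n
    induction n with
    | zero => norm_num
    | succ n ih =>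
      rw [Finset.sum_range_succ, ih]
      ring
  rw [h2]
  have : (0 : ℝ) ≤ (1 / 2) ^ (K + 2) := by positivity
  linarith

lemma lvl_step {K : ℕ} {s ℓ : ℕ → ℕ} {Zs : ℕ → Set (Pos d × ℤ)} (H : HierP K s ℓ Zs) (i0 : Fin d)
    (P Q : Pos d × ℤ) (hP : GoodPt K s Zs P) (hQ : GoodPt K s Zs Q) (hPQ : P.2 < Q.2)
    (hc : ∀ i, 4 * |Q.1 i - P.1 i| ≤ Q.2 - P.2) (k : ℕ) (hk : k < K)
    (hl : Lvl K s Zs i0 P Q (k + 1)) : Lvl K s Zs i0 P Q k := by
  obtain ⟨g, g0, g1, g2, g3, g4⟩ := hl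
  set F : ℤ → Fin d → ℝ := fun t i => seg P Q t i + (if i = i0 then g t else 0) with hFdef
  set C : Set (Pos d × ℤ) := {q | q ∈ Zs k ∧ q ∉ Zs (k + 1)} with hC
  have hF : ∀ t t' i, |F t i - F t' i| ≤ (1 / 2) * |(t : ℝ) - t'| := by
    intro t t' i
    have h1 := seg_lip P Q hPQ hc t t' i
    have h2 := g2 t t'
    have h3 := geo_le (k + 1) K
    have h4 : |(if i = i0 then g t else 0) - (if i = i0 then g t' else 0)| ≤ (1 / 4) * |(t : ℝ) - t'| := by
      split_ifs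
      · exact h2.trans (mul_le_mul_of_nonneg_right h3 (abs_nonneg _))
      · simp
    have e : F t i - F t' i = (seg P Q t i - seg P Q t' i) +
        ((if i = i0 then g t else 0) - (if i = i0 then g t' else 0)) := by
      simp only [hFdef]; ring
    rw [e]
    refine (abs_add_le _ _).trans ?_
    linarith
  set W : ℝ := 2 ^ (k + 7) * (s k : ℝ) with hWdef
  have hs0 : (0 : ℝ) ≤ s k := Nat.cast_nonneg _
  have hp7 : (128 : ℝ) ≤ 2 ^ (k + 7) := by
    have : (1 : ℝ) ≤ 2 ^ k := one_le_pow₀ (by norm_num)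
    rw [pow_add]; norm_num; linarith
  have hWs : (s k : ℝ) ≤ W := by rw [hWdef]; nlinarith
  have hW : 12 * (s k : ℝ) ≤ (1 / 2) ^ (k + 3) * (W - s k) := by
    have e : ((1 : ℝ) / 2) ^ (k + 3) * (W - s k) = 16 * (s k : ℝ) - (1 / 2) ^ (k + 3) * s k := by
      have : ((1 : ℝ) / 2) ^ (k + 3) * 2 ^ (k + 7) = 16 := by
        rw [show k + 7 = (k + 3) + 4 from rfl, pow_add (2 : ℝ) (k + 3) 4, ← mul_assoc, ← mul_pow]
        norm_num
      rw [hWdef, mul_sub, ← mul_assoc, this]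
    rw [e]
    have h1 : ((1 : ℝ) / 2) ^ (k + 3) ≤ 1 := pow_le_one₀ (by norm_num) (by norm_num)
    nlinarith
  have hL : 2 * W + 100 * (s k : ℝ) ≤ (ℓ (k + 1) : ℝ) := by
    have h1 : ((2 ^ (k + 9) * s k : ℕ) : ℝ) ≤ (ℓ (k + 1) : ℝ) := by exact_mod_cast H.sep k
    push_cast at h1
    have e : (2 : ℝ) ^ (k + 9) * s k = 4 * W := by rw [hWdef]; ring
    rw [e] at h1
    have : 100 * (s k : ℝ) ≤ 2 * W := by rw [hWdef]; nlinarith
    linarith
  have hFP : ∀ i, F P.2 i = P.1 i := by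
    intro i
    simp only [hFdef]
    rw [seg_P P Q hPQ P.2 le_rfl i, g3 P.2 (Or.inl le_rfl)]
    simp
  have hFQ : ∀ i, F Q.2 i = Q.1 i := by
    intro i
    simp only [hFdef]
    rw [seg_Q P Q hPQ Q.2 le_rfl i, g3 Q.2 (Or.inr le_rfl)]
    simp
  -- a near point at time distance < W of an end point R contradicts that R is good
  have hfar : ∀ R : Pos d × ℤ, GoodPt K s Zs R → (∀ i, F R.2 i = R.1 i) → ∀ q ∈ C,
      (∀ i, |F q.2 i - q.1 i| < 20 * (s k : ℝ)) → W ≤ |(q.2 : ℝ) - R.2| := by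
    intro R hR hFR q hq hn
    by_contra hcon
    push Not at hcon
    have hdd : dd R q ≤ 2 ^ (k + 8) * s k := by
      have hb : ∀ x : ℤ, |(x : ℝ)| ≤ W + 20 * (s k : ℝ) → x.natAbs ≤ 2 ^ (k + 8) * s k := by
        intro x hx
        have h1 : W + 20 * (s k : ℝ) ≤ ((2 ^ (k + 8) * s k : ℕ) : ℝ) := by
          push_cast
          have e : (2 : ℝ) ^ (k + 8) * s k = 2 * W := by rw [hWdef]; ring
          rw [e]
          have : 20 * (s k : ℝ) ≤ W := by rw [hWdef]; nlinarith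
          linarith
        have h2 : ((x.natAbs : ℕ) : ℝ) ≤ ((2 ^ (k + 8) * s k : ℕ) : ℝ) := by
          have h3 : ((x.natAbs : ℕ) : ℝ) = |(x : ℝ)| := by
            rw [Nat.cast_natAbs, Int.cast_abs]
          rw [h3]; exact hx.trans h1
        exact_mod_cast h2
      unfold dd
      refine max_le ?_ ?_
      · rw [supn_le_iff]
        intro j
        have h1 := hn j
        have h2 := hF R.2 q.2 j
        rw [hFR j] at h2
        have h3 : |(((R.1 - q.1) j : ℤ) : ℝ)| ≤ W + 20 * (s k : ℝ) := by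
          rw [Pi.sub_apply]
          push_cast
          have e : (R.1 j : ℝ) - q.1 j = ((R.1 j : ℝ) - F q.2 j) + (F q.2 j - q.1 j) := by ring
          rw [e]
          refine (abs_add_le _ _).trans ?_
          rw [abs_sub_comm (R.2 : ℝ)] at h2
          have hW0 : 0 ≤ W := hs0.trans hWs
          linarith
        have h4 := hb _ h3
        rw [Int.abs_eq_natAbs]
        exact_mod_cast h4
      · refine hb _ ?_
        push_cast
        rw [abs_sub_comm]
        linarith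
    exact absurd (hR k hk q hq.1 hq.2) (not_lt.2 hdd)
  obtain ⟨h, h0, h1, h2, h3, h4⟩ := bump F i0 C P.2 Q.2 (s k) (ℓ (k + 1)) ((1 / 2) ^ (k + 3)) W hF
    (fun q hq q' hq' => H.iso k hk q hq.1 hq.2 q' hq'.1) (by positivity) hW hL hWs
    (by
      intro q hq hq1 hq2 hn
      have e1 := hfar P hP hFP q hq hn
      have e2 := hfar Q hQ hFQ q hq hn
      have hq1' : (P.2 : ℝ) ≤ q.2 := by exact_mod_cast hq1
      have hq2' : (q.2 : ℝ) ≤ Q.2 := by exact_mod_cast hq2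
      rw [abs_of_nonneg (by linarith)] at e1
      rw [abs_of_nonpos (by linarith)] at e2
      exact ⟨by linarith, by linarith⟩)
  have hIco : ∀ m, k < m → ∀ φ : ℕ → ℝ, ∑ j ∈ Finset.Ico k m, φ j = φ k + ∑ j ∈ Finset.Ico (k + 1) m, φ j := by
    intro m hm φ
    rw [← Finset.sum_eq_sum_Ico_succ_bot hm]
  refine ⟨fun t => g t + h t, fun t => add_nonneg (g0 t) (h0 t), ?_, ?_, ?_, ?_⟩
  · intro t
    rw [hIco K hk (fun j => (s j : ℝ))]
    have := g1 t
    have := h1 t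
    linarith
  · intro t t'
    rw [hIco K hk (fun j => (1 / 2 : ℝ) ^ (j + 3))]
    have e : g t + h t - (g t' + h t') = (g t - g t') + (h t - h t') := by ring
    rw [e]
    refine (abs_add_le _ _).trans ?_
    have := g2 t t'
    have := h2 t t'
    linarith
  · intro t ht
    show g t + h t = 0
    rw [g3 t ht, h3 t ht, add_zero]
  · intro j hj hjK q hq hq' hq1 hq2
    rcases Nat.eq_or_lt_of_le hj with hjk | hjk
    · subst hjk
      obtain ⟨i, hi⟩ := h4 q ⟨hq, hq'⟩ hq1 hq2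
      refine ⟨i, ?_⟩
      rw [Finset.Ico_self, Finset.sum_empty, mul_zero, sub_zero]
      refine hi.trans (le_of_eq ?_)
      congr 1
      simp only [hFdef]
      split_ifs <;> ring
    · obtain ⟨i, hi⟩ := g4 j hjk hjK q hq hq' hq1 hq2
      refine ⟨i, ?_⟩
      rw [hIco j hjk (fun l => (s l : ℝ))]
      have e : seg P Q q.2 i + (if i = i0 then g q.2 + h q.2 else 0) - q.1 i =
          (seg P Q q.2 i + (if i = i0 then g q.2 else 0) - q.1 i) + (if i = i0 then h q.2 else 0) := by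
        split_ifs <;> ring
      rw [e]
      have e1 : |(if i = i0 then h q.2 else 0)| ≤ 12 * (s k : ℝ) := by
        split_ifs
        · rw [abs_of_nonneg (h0 _)]; exact h1 _
        · simp
      have e2 := abs_sub_abs_le_abs_sub (seg P Q q.2 i + (if i = i0 then g q.2 else 0) - q.1 i)
        (-(if i = i0 then h q.2 else 0))
      rw [abs_neg, sub_neg_eq_add] at e2
      linarith

/-- THE PATH LEMMA -/
theorem path_lemma {K : ℕ} {s ℓ : ℕ → ℕ} {Zs : ℕ → Set (Pos d × ℤ)} (H : HierP K s ℓ Zs) (i0 : Fin d)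
    (P Q : Pos d × ℤ) (hP : GoodPt K s Zs P) (hQ : GoodPt K s Zs Q) (hPQ : P.2 < Q.2)
    (hc : ∀ i, 4 * |Q.1 i - P.1 i| ≤ Q.2 - P.2)
    (hK : ∀ q ∈ Zs K, P.2 ≤ q.2 → q.2 ≤ Q.2 →
      ∃ i, 12 * ∑ j ∈ Finset.range K, (s j : ℝ) + 2 ≤ |seg P Q q.2 i - q.1 i|) :
    ∃ f : ℤ → Pos d, f P.2 = P.1 ∧ f Q.2 = Q.1 ∧ (∀ t i, |f (t + 1) i - f t i| ≤ 1) ∧
      (∀ t, P.2 ≤ t → t ≤ Q.2 → (f t, t) ∉ Zs 0) ∧
      ∀ t i, |(f t i : ℝ) - seg P Q t i| ≤ 12 * ∑ j ∈ Finset.range K, (s j : ℝ) + 1 := by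
  have hall : ∀ n k, k + n = K → Lvl K s Zs i0 P Q k := by
    intro n
    induction n with
    | zero =>
      intro k hk
      have : k = K := by omega
      subst this
      refine ⟨fun _ => 0, fun _ => le_rfl, fun _ => by simp, fun _ _ => by simp, fun _ _ => rfl, ?_⟩
      intro j h1 h2
      omega
    | succ n ih =>
      intro k hk
      exact lvl_step H i0 P Q hP hQ hPQ hc k (by omega) (ih (k + 1) (by omega))
  obtain ⟨g, g0, g1, g2, g3, g4⟩ := hall K 0 (by omega)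
  rw [Finset.range_eq_Ico]
  rw [Finset.range_eq_Ico] at hK
  set F : ℤ → Fin d → ℝ := fun t i => seg P Q t i + (if i = i0 then g t else 0) with hFdef
  have hcl : ∀ t i, |F t i - seg P Q t i| ≤ 12 * ∑ j ∈ Finset.Ico 0 K, (s j : ℝ) := by
    intro t i
    simp only [hFdef, add_sub_cancel_left]
    split_ifs
    · rw [abs_of_nonneg (g0 t)]; exact g1 t
    · rw [abs_zero]; positivity
  have hfl : ∀ t i, |((⌊F t i⌋ : ℤ) : ℝ) - F t i| < 1 := by
    intro t i
    rw [abs_lt]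
    have := Int.floor_le (F t i)
    have := Int.lt_floor_add_one (F t i)
    constructor <;> linarith
  refine ⟨fun t i => ⌊F t i⌋, ?_, ?_, ?_, ?_, ?_⟩
  · funext i
    simp only [hFdef]
    rw [seg_P P Q hPQ P.2 le_rfl i, g3 P.2 (Or.inl le_rfl)]
    simp
  · funext i
    simp only [hFdef]
    rw [seg_Q P Q hPQ Q.2 le_rfl i, g3 Q.2 (Or.inr le_rfl)]
    simp
  · intro t i
    have h1 := seg_lip P Q hPQ hc (t + 1) t i
    have h2 := g2 (t + 1) t
    have h3 := geo_le 0 K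
    have e1 : |((t + 1 : ℤ) : ℝ) - t| = 1 := by push_cast; simp
    rw [e1, mul_one] at h1 h2
    have h4 : |F (t + 1) i - F t i| ≤ 1 / 2 := by
      have e : F (t + 1) i - F t i = (seg P Q (t + 1) i - seg P Q t i) +
          ((if i = i0 then g (t + 1) else 0) - (if i = i0 then g t else 0)) := by
        simp only [hFdef]; ring
      rw [e]
      refine (abs_add_le _ _).trans ?_
      have : |(if i = i0 then g (t + 1) else 0) - (if i = i0 then g t else 0)| ≤ 1 / 4 := by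
        split_ifs
        · linarith
        · simp
      linarith
    have h5 := hfl (t + 1) i
    have h6 := hfl t i
    rw [abs_lt] at h5 h6
    rw [abs_le] at h4
    have h7 : (((⌊F (t + 1) i⌋ - ⌊F t i⌋ : ℤ)) : ℝ) < 2 := by
      push_cast
      have a1 := Int.floor_le (F (t + 1) i)
      have a2 := Int.lt_floor_add_one (F t i)
      linarith [h4.2]
    have h8 : (-2 : ℝ) < (((⌊F (t + 1) i⌋ - ⌊F t i⌋ : ℤ)) : ℝ) := by
      push_cast
      have a1 := Int.floor_le (F t i)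
      have a2 := Int.lt_floor_add_one (F (t + 1) i)
      linarith [h4.1]
    have h7' : ⌊F (t + 1) i⌋ - ⌊F t i⌋ < 2 := by exact_mod_cast h7
    have h8' : -2 < ⌊F (t + 1) i⌋ - ⌊F t i⌋ := by exact_mod_cast h8
    show |⌊F (t + 1) i⌋ - ⌊F t i⌋| ≤ 1
    rw [abs_le]
    constructor <;> omega
  · intro t ht1 ht2 hmem
    -- the point (f t, t)
    by_cases hex : ∃ j, j < K ∧ (((fun i => ⌊F t i⌋ : Pos d), t) : Pos d × ℤ) ∉ Zs (j + 1)
    · obtain ⟨hj1, hj2⟩ := Nat.find_spec hex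
      set j := Nat.find hex with hj
      have hjmem : (((fun i => ⌊F t i⌋ : Pos d), t) : Pos d × ℤ) ∈ Zs j := by
        by_cases hj0 : j = 0
        · rw [hj0]; exact hmem
        · obtain ⟨j', hj'⟩ := Nat.exists_eq_succ_of_ne_zero hj0
          have hmin := Nat.find_min hex (m := j') (by rw [← hj, hj']; exact Nat.lt_succ_self _)
          push Not at hmin
          have := hmin (by omega)
          rw [hj']
          exact this
      obtain ⟨i, hi⟩ := g4 j (Nat.zero_le _) hj1 _ hjmem hj2 ht1 ht2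
      have h1 := hfl t i
      have e : seg P Q t i + (if i = i0 then g t else 0) - ((⌊F t i⌋ : ℤ) : ℝ) = F t i - ((⌊F t i⌋ : ℤ) : ℝ) := rfl
      have h2 : 2 * (s j : ℝ) - 12 * ∑ l ∈ Finset.Ico 0 j, (s l : ℝ) < 1 := by
        refine lt_of_le_of_lt hi ?_
        show |seg P Q t i + (if i = i0 then g t else 0) - ((⌊F t i⌋ : ℤ) : ℝ)| < 1
        rw [e, abs_sub_comm]
        exact h1
      have h3 : 24 * ∑ l ∈ Finset.Ico 0 j, (s l : ℝ) ≤ s j := by
        rw [← Finset.range_eq_Ico]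
        exact_mod_cast H.sum j
      have h4 : (1 : ℝ) ≤ s j := by
        by_cases hj0 : j = 0
        · rw [hj0]
          have := H.s0
          have : 1 ≤ s 0 := by omega
          exact_mod_cast this
        · have h5 : s 0 ≤ ∑ l ∈ Finset.range j, s l :=
            Finset.single_le_sum (f := s) (fun _ _ => Nat.zero_le _) (Finset.mem_range.2 (Nat.pos_of_ne_zero hj0))
          have h6 := H.sum j
          have h7 := H.s0
          have : 1 ≤ s j := by omega
          exact_mod_cast this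
      linarith
    · push Not at hex
      have hKm : (((fun i => ⌊F t i⌋ : Pos d), t) : Pos d × ℤ) ∈ Zs K := by
        by_cases hK0 : K = 0
        · rw [hK0]; exact hmem
        · obtain ⟨K', hK'⟩ := Nat.exists_eq_succ_of_ne_zero hK0
          have := hex K' (by omega)
          rw [hK']; exact this
      obtain ⟨i, hi⟩ := hK _ hKm ht1 ht2
      have h1 := hfl t i
      have h2 := hcl t i
      have h3 : |seg P Q t i - ((⌊F t i⌋ : ℤ) : ℝ)| ≤ |F t i - seg P Q t i| + |((⌊F t i⌋ : ℤ) : ℝ) - F t i| := by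
        have e : seg P Q t i - ((⌊F t i⌋ : ℤ) : ℝ) = -((F t i - seg P Q t i) + (((⌊F t i⌋ : ℤ) : ℝ) - F t i)) := by ring
        rw [e, abs_neg]
        exact abs_add_le _ _
      have hi' : 12 * ∑ j ∈ Finset.Ico 0 K, (s j : ℝ) + 2 ≤ |seg P Q t i - ((⌊F t i⌋ : ℤ) : ℝ)| := hi
      linarith
  · intro t i
    have h1 := hfl t i
    have h2 := hcl t i
    show |((⌊F t i⌋ : ℤ) : ℝ) - seg P Q t i| ≤ _
    have e : ((⌊F t i⌋ : ℤ) : ℝ) - seg P Q t i = (((⌊F t i⌋ : ℤ) : ℝ) - F t i) + (F t i - seg P Q t i) := by ring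
    rw [e]
    refine (abs_add_le _ _).trans ?_
    linarith

end ZP
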