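import Pool.Agent.ZP.SF1

/-! # Row RC, part a: groups of separated blocks (text M4) -/

set_option autoImplicit false

open scoped ENNReal BigOperators Classical

noncomputable section

namespace ZP.RC

open ZP ZP.Rows

variable {d : ℕ}

/-- a gap between the times of a finite family -/
theorem gap {ι : Type} (G : Finset ι) (hG : G.Nonempty) (τ : ι → ℕ) (A : ℕ) :
    ∃ i0 ∈ G, (∀ j ∈ G, τ j < τ i0 → τ j + A < τ i0) ∧
      (∀ j ∈ G, τ i0 ≤ τ j → τ j ≤ τ i0 + G.card * A) := by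
  set Pr : ι → Prop := fun i => ∀ j ∈ G, τ i ≤ τ j →
    τ j ≤ τ i + (G.filter (fun l => τ i < τ l)).card * A with hPr
  have hne : (G.filter Pr).Nonempty := by
    obtain ⟨i, hi, him⟩ := G.exists_max_image τ hG
    refine ⟨i, Finset.mem_filter.mpr ⟨hi, fun j hj _ => ?_⟩⟩
    have := him j hj
    omega
  obtain ⟨i0, hi0, hmin⟩ := (G.filter Pr).exists_min_image τ hne
  have hi0G : i0 ∈ G := (Finset.mem_filter.mp hi0).1
  have hi0P : Pr i0 := (Finset.mem_filter.mp hi0).2
  refine ⟨i0, hi0G, ?_, ?_⟩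
  · intro j hj hlt
    by_contra hcon
    have hle : τ i0 ≤ τ j + A := not_lt.mp hcon
    have hPj : Pr j := by
      intro l hl hjl
      have hcard : (G.filter (fun l => τ i0 < τ l)).card + 1 ≤
          (G.filter (fun l => τ j < τ l)).card := by
        have hsub : insert i0 (G.filter (fun l => τ i0 < τ l)) ⊆
            G.filter (fun l => τ j < τ l) := by
          intro l' hl'
          rw [Finset.mem_insert, Finset.mem_filter] at hl'
          rw [Finset.mem_filter]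
          rcases hl' with rfl | ⟨h1, h2⟩
          · exact ⟨hi0G, hlt⟩
          · exact ⟨h1, hlt.trans h2⟩
        have h3 := Finset.card_le_card hsub
        rw [Finset.card_insert_of_notMem (by simp)] at h3
        exact h3
      have h4 : ((G.filter (fun l => τ i0 < τ l)).card + 1) * A ≤
          (G.filter (fun l => τ j < τ l)).card * A := Nat.mul_le_mul_right _ hcard
      rcases lt_or_ge (τ l) (τ i0) with h5 | h5
      · have h6 : A ≤ ((G.filter (fun l => τ i0 < τ l)).card + 1) * A :=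
          Nat.le_mul_of_pos_left _ (Nat.succ_pos _)
        omega
      · have h6 := hi0P l hl h5
        have h7 : ((G.filter (fun l => τ i0 < τ l)).card + 1) * A =
            (G.filter (fun l => τ i0 < τ l)).card * A + A := by ring
        omega
    have h8 := hmin j (Finset.mem_filter.mpr ⟨hj, hPj⟩)
    omega
  · intro j hj hle
    refine (hi0P j hj hle).trans ?_
    have h1 := Finset.card_filter_le G (fun l => τ i0 < τ l)
    have h2 := Nat.mul_le_mul_right A h1
    omega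

/-! ### balls in the torus -/

theorem supn_le_iff (v : Pos d) (k : ℕ) : supn v ≤ k ↔ ∀ j, (v j).natAbs ≤ k := by
  unfold ZI.supn
  rw [Finset.sup_le_iff]
  simp

theorem disj_balls {M : ℕ} (x x' : Pos d) (ρ : ℕ) (h1 : 2 * ρ < supn (x - x'))
    (h2 : supn (x - x') + 2 * ρ < M) :
    Disjoint (Bt (tv x : Tor d M) ρ) (Bt (tv x') ρ) := by
  rw [Set.disjoint_left]
  rintro v ⟨y, hy, hv⟩ ⟨y', hy', hv'⟩
  have hsup := (supn_le_iff (x - x') (supn (x - x'))).mp le_rfl
  rw [supn_le_iff] at hy hy'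
  have hkey : ∀ j, x j - x' j = y' j - y j := by
    intro j
    have h3 : ((x j : ℤ) : ZMod M) + ((y j : ℤ) : ZMod M) =
        ((x' j : ℤ) : ZMod M) + ((y' j : ℤ) : ZMod M) := by
      have h4 := congrFun (hv.symm.trans hv') j
      exact h4
    have h5 : ((x j + y j : ℤ) : ZMod M) = ((x' j + y' j : ℤ) : ZMod M) := by
      push_cast
      exact h3
    rw [ZMod.intCast_eq_intCast_iff_dvd_sub] at h5
    obtain ⟨c, hc⟩ := h5
    have h6 := hsup j
    have h7 := hy j
    have h8 := hy' j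
    rw [Pi.sub_apply] at h6
    have h9 : c = 0 := by
      by_contra h10
      rcases lt_or_gt_of_ne h10 with h11 | h11
      · have : (M : ℤ) * c ≤ -M := by nlinarith
        omega
      · have : (M : ℤ) ≤ M * c := by nlinarith
        omega
    rw [h9, mul_zero] at hc
    omega
  have h3 : supn (x - x') ≤ 2 * ρ := by
    rw [supn_le_iff]
    intro j
    rw [Pi.sub_apply, hkey j]
    have h7 := hy j
    have h8 := hy' j
    omega
  omega

theorem supn_sm (s : ℕ) (v v' : Pos d) : supn (sm s v - sm s v') = s * supn (v - v') := by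
  have h0 : ∀ j, ((sm s v - sm s v') j).natAbs = s * ((v - v') j).natAbs := by
    intro j
    rw [Pi.sub_apply, Pi.sub_apply]
    unfold sm
    rw [← mul_sub, Int.natAbs_mul, Int.natAbs_natCast]
  apply le_antisymm
  · rw [supn_le_iff]
    intro j
    rw [h0 j]
    exact Nat.mul_le_mul_left _ ((supn_le_iff (v - v') _).mp le_rfl j)
  · rcases Nat.eq_zero_or_pos s with hs | hs
    · rw [hs, zero_mul]
      exact Nat.zero_le _
    · have h1 : supn (v - v') ≤ supn (sm s v - sm s v') / s := by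
        rw [supn_le_iff]
        intro j
        rw [Nat.le_div_iff_mul_le hs, Nat.mul_comm, ← h0 j]
        exact (supn_le_iff (sm s v - sm s v') _).mp le_rfl j
      calc s * supn (v - v') ≤ s * (supn (sm s v - sm s v') / s) := Nat.mul_le_mul_left _ h1
        _ ≤ _ := Nat.mul_div_le _ _

theorem supn_sm0 (s : ℕ) (v : Pos d) : supn (sm s v) = s * supn v := by
  have h := supn_sm s v 0
  have h1 : sm s (0 : Pos d) = 0 := by
    funext j
    simp [sm]
  rwa [h1, sub_zero, sub_zero] at h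

theorem supn_add_le (v w : Pos d) : supn (v + w) ≤ supn v + supn w := by
  rw [supn_le_iff]
  intro j
  have h1 := (supn_le_iff v (supn v)).mp le_rfl j
  have h2 := (supn_le_iff w (supn w)).mp le_rfl j
  have h3 : ((v + w) j).natAbs ≤ (v j).natAbs + (w j).natAbs := Int.natAbs_add_le _ _
  omega

theorem supn_sub_le (v w : Pos d) : supn (v - w) ≤ supn v + supn w := by
  rw [supn_le_iff]
  intro j
  have h1 := (supn_le_iff v (supn v)).mp le_rfl j
  have h2 := (supn_le_iff w (supn w)).mp le_rfl j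
  have h3 : ((v - w) j).natAbs ≤ (v j).natAbs + (w j).natAbs := by
    rw [Pi.sub_apply]
    omega
  omega

/-- the translate of a ball around the origin -/
theorem ball_sub {M : ℕ} (x : Pos d) (ρ : ℕ) :
    {v : Tor d M | v - tv x ∈ Bt (0 : Tor d M) ρ} ⊆ Bt (tv x) ρ := by
  rintro v ⟨y, hy, hv⟩
  refine ⟨y, hy, ?_⟩
  rw [zero_add] at hv
  rw [← hv]
  abel

theorem ball_sub' {M : ℕ} (x : Pos d) (ρ ρ' : ℕ) (h : supn x + ρ ≤ ρ') :
    {v : Tor d M | v - tv x ∈ Bt (0 : Tor d M) ρ} ⊆ Bt (tv 0) ρ' := by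
  rintro v ⟨y, hy, hv⟩
  refine ⟨x + y, (supn_add_le x y).trans (by omega), ?_⟩
  rw [zero_add] at hv
  funext j
  have h1 : v j - ((x j : ℤ) : ZMod M) = ((y j : ℤ) : ZMod M) := congrFun hv j
  show v j = (((0 : Pos d) j : ℤ) : ZMod M) + (((x + y) j : ℤ) : ZMod M)
  rw [Pi.add_apply, Pi.zero_apply]
  push_cast
  rw [← h1]
  ring

/-! ### the groups -/

/-- a class of monotone local events -/
structure MonC {M K : ℕ} (N1 : ℕ) (Q : Set (Tor d M) → ℕ → ℕ → Ev d M K → Prop) : Prop where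
  loc : ∀ Λ u1 u2 E, Q Λ u1 u2 E → LocE N1 Λ u1 u2 E
  sft : ∀ Λ u1 u2 E x t, Q Λ u1 u2 E →
    Q {v | v - tv x ∈ Λ} (u1 + t) (u2 + t) (sft N1 x t E)
  mono : ∀ Λ Λ' u1 u2 v1 v2 E, Q Λ u1 u2 E → Λ ⊆ Λ' → v1 ≤ u1 → u2 ≤ v2 → Q Λ' v1 v2 E
  all : ∀ (n : ℕ) (G : Finset (Fin n)) Λ u1 u2 (E : Fin n → Ev d M K),
    (∀ i ∈ G, Q Λ u1 u2 (E i)) → G.Nonempty → Q Λ u1 u2 (fun η w => ∀ i ∈ G, E i η w)

theorem monC_inc {M K : ℕ} (N1 : ℕ) :
    MonC (d := d) (M := M) (K := K) N1 (fun Λ u1 u2 E => IncE N1 Λ u1 u2 E) where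
  loc := fun _ _ _ _ h => IncE.loc N1 h
  sft := fun _ _ _ _ x t h => IncE.sft N1 h x t
  mono := fun _ _ _ _ _ _ _ h h1 h2 h3 => IncE.mono N1 h h1 h2 h3
  all := fun _ _ _ _ _ _ h _ η w η' w' hr hE i hi => h i hi η w η' w' hr (hE i hi)

theorem monC_dec {M K : ℕ} (N1 : ℕ) :
    MonC (d := d) (M := M) (K := K) N1 (fun Λ u1 u2 E => DecE N1 Λ u1 u2 E) where
  loc := fun _ _ _ _ h => DecE.loc N1 h
  sft := fun _ _ _ _ x t h => DecE.sft N1 h x t
  mono := fun _ _ _ _ _ _ _ h h1 h2 h3 => DecE.mono N1 h h1 h2 h3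
  all := fun _ _ _ _ _ _ h _ η w η' w' hr hE i hi => h i hi η w η' w' hr (hE i hi)

/-- local events of a truncated word -/
theorem LocE.take {M K : ℕ} {N1 : ℕ} {Λ : Set (Tor d M)} {u1 u2 t : ℕ} {E : Ev d M K}
    (h : LocE N1 Λ u1 u2 E) (ht : u2 ≤ t) (η : Tor d M → ℕ) (w : List (Let d M (K + 1)))
    (hw : u2 * N1 ≤ w.length) : E η (w.take (t * N1)) ↔ E η w := by
  have hle : u2 * N1 ≤ t * N1 := Nat.mul_le_mul_right _ ht
  have hst : ∀ i, i ≤ u2 * N1 → stt η (w.take (t * N1)) i = stt η w i := by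
    intro i hi
    unfold stt
    rw [List.take_take, min_eq_left (hi.trans hle)]
  have hlen : u2 * N1 ≤ (w.take (t * N1)).length := by
    rw [List.length_take]
    exact le_min hle hw
  have hget : ∀ i, i < u2 * N1 → (w.take (t * N1)).getD i none = w.getD i none := by
    intro i hi
    rw [List.getD_eq_getElem?_getD, List.getD_eq_getElem?_getD, List.getElem?_take_of_lt (by omega)]
  constructor
  · intro hE
    refine h η (w.take (t * N1)) η w ⟨hlen, hw, ?_, ?_⟩ ⟨hw, hlen, ?_, ?_⟩ hE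
    · intro i _ hi v _
      rw [hst i hi]
    · intro i _ hi
      rw [hget i hi]
    · intro i _ hi v _
      rw [hst i hi]
    · intro i _ hi
      rw [hget i hi]
  · intro hE
    refine h η w η (w.take (t * N1)) ⟨hw, hlen, ?_, ?_⟩ ⟨hlen, hw, ?_, ?_⟩ hE
    · intro i _ hi v _
      rw [hst i hi]
    · intro i _ hi
      rw [hget i hi]
    · intro i _ hi v _
      rw [hst i hi]
    · intro i _ hi
      rw [hget i hi]

theorem locE_all {M K : ℕ} {N1 : ℕ} {n : ℕ} (G : Finset (Fin n)) {Λ : Set (Tor d M)} {u1 u2 : ℕ}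
    {E : Fin n → Ev d M K} (h : ∀ i ∈ G, LocE N1 Λ u1 u2 (E i)) :
    LocE N1 Λ u1 u2 (fun η w => ∀ i ∈ G, E i η w) :=
  fun η w η' w' h1 h2 hE i hi => h i hi η w η' w' h1 h2 (hE i hi)

theorem groups {M K N1 : ℕ} (PA PB : ℕ → Ev d M K → ℝ≥0∞)
    (Q : Set (Tor d M) → ℕ → ℕ → Ev d M K → Prop) (hQ : MonC N1 Q)
    (PBmono : ∀ N E E', (∀ η w, w.length = N → E η w → E' η w) → PB N E ≤ PB N E')
    (PBone : ∀ N E, PB N E ≤ 1)
    (PBloc : ∀ Λ u1 u2 E N, LocE N1 Λ u1 u2 E → u2 * N1 ≤ N → PB N E = PB (u2 * N1) E)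
    (PAmono : ∀ N E E', (∀ η w, w.length = N → E η w → E' η w) → PA N E ≤ PA N E')
    (s T nt Aa aa ρ D ρ' R1 : ℕ) (X : Ev d M K) (hX : Q (Bt 0 ρ) 0 (6 * T) X)
    (hA6 : 6 ≤ Aa) (hAnt : (s + 1) * Aa + 4 ≤ nt) (hAaa : (s + 1) * Aa ≤ aa)
    (hg1 : 2 * (ρ + D) < s * (aa + 1)) (hg2 : 2 * (s * R1) + 2 * (ρ + D) < M)
    (hg3 : s * R1 + ρ ≤ ρ') (p ε edc esp : ℝ≥0∞) (hp : p + ε ≤ 1)
    (dc : ∀ (t u2 : ℕ) (A E : Ev d M K), (∀ η w, A η w ↔ A η (w.take (t * N1))) →
      (Aa - 6) * T ≤ u2 → u2 ≤ (s + 2) * Aa * T → Q (Bt (tv 0) ρ') ((Aa - 6) * T) u2 E →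
      PB ((t + u2) * N1) (fun η w => A η w ∧ sft N1 0 t E η w) ≤
        PB (t * N1) A * PA (u2 * N1) E + edc)
    (sp : ∀ (n u2 : ℕ) (x : Fin n → Pos d) (E : Fin n → Ev d M K), n ≤ s + 1 →
      u2 ≤ (s + 2) * Aa * T →
      (∀ i j, i ≠ j → Disjoint (Bt (tv (x i) : Tor d M) (ρ + D)) (Bt (tv (x j)) (ρ + D))) →
      (∀ i, LocE N1 (Bt (tv (x i)) ρ) 0 u2 (E i)) →
      PA (u2 * N1) (fun η w => ∀ i, E i η w) ≤ ∏ i, (PA (u2 * N1) (E i) + ε) + esp)
    (pa : ∀ (x : Pos d) (t N : ℕ), (t + 6 * T) * N1 ≤ N → PA N (sft N1 x t X) ≤ p)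
    (f : Fin (s + 1) → Blk d) (hf1 : ∀ i, supn (f i).1 ≤ R1) (hf2 : ∀ i, (f i).2 < 4 * nt)
    (hf3 : ∀ i j, i ≠ j → aa < bd (f i) (f j)) :
    ∀ (g : ℕ) (G : Finset (Fin (s + 1))), G.card = g →
    PB (6 * (nt * T) * N1) (fun η w => ∀ i ∈ G,
      sft N1 (sm s (f i).1) ((nt - 2 + (f i).2) * T) X η w) ≤ (p + ε) ^ g + g * (edc + esp) := by
  intro g
  induction g using Nat.strong_induction_on with
  | _ g ih =>
  intro G hGc
  rcases G.eq_empty_or_nonempty with hG | hG
  · subst hG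
    rw [Finset.card_empty] at hGc
    subst hGc
    refine (PBone _ _).trans ?_
    simp
  -- the split
  set τ : Fin (s + 1) → ℕ := fun i => (f i).2 with hτ
  obtain ⟨i0, hi0, hgap, hspan⟩ := gap G hG τ Aa
  set G2 := G.filter (fun i => τ i0 ≤ τ i) with hG2
  set G1 := G.filter (fun i => ¬ τ i0 ≤ τ i) with hG1
  have hcards : G2.card + G1.card = G.card := Finset.card_filter_add_card_filter_not _
  have hi02 : i0 ∈ G2 := Finset.mem_filter.mpr ⟨hi0, le_rfl⟩
  have hg2pos : 1 ≤ G2.card := Finset.card_pos.mpr ⟨i0, hi02⟩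
  have hGle : G.card ≤ s + 1 := by
    have := Finset.card_le_univ G
    simpa using this
  have hGA : G.card * Aa ≤ (s + 1) * Aa := Nat.mul_le_mul_right _ hGle
  have hA1 : Aa ≤ (s + 1) * Aa := Nat.le_mul_of_pos_left _ (Nat.succ_pos _)
  have hAle : Aa ≤ nt := by omega
  set t : ℕ := (nt + 4 - Aa + τ i0) * T with ht
  set u2 : ℕ := (Aa + G.card * Aa) * T with hu2
  have hτ0 : τ i0 < 4 * nt := hf2 i0
  -- windows
  have hEloc : ∀ i, LocE N1 Set.univ 0 ((nt - 2 + τ i) * T + 6 * T)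
      (sft N1 (sm s (f i).1) ((nt - 2 + τ i) * T) X) := by
    intro i
    have h1 := hQ.sft _ _ _ _ (sm s (f i).1) ((nt - 2 + τ i) * T) hX
    have h2 := hQ.mono _ Set.univ _ _ 0 ((nt - 2 + τ i) * T + 6 * T) _ h1 (Set.subset_univ _)
      (Nat.zero_le _) (by omega)
    exact hQ.loc _ _ _ _ h2
  have hw1 : ∀ i ∈ G1, (nt - 2 + τ i) * T + 6 * T ≤ t := by
    intro i hi
    have h1 := Finset.mem_filter.mp hi
    have h2 := hgap i h1.1 (not_le.mp h1.2)
    rw [ht, ← Nat.add_mul]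
    exact Nat.mul_le_mul_right _ (by omega)
  have hw2 : ∀ i ∈ G2, (nt - 2 + τ i) * T = t + (Aa - 6 + (τ i - τ i0)) * T := by
    intro i hi
    have h1 := Finset.mem_filter.mp hi
    rw [ht, ← Nat.add_mul]
    congr 1
    omega
  have hw3 : ∀ i ∈ G2, (Aa - 6 + (τ i - τ i0)) * T + 6 * T ≤ u2 := by
    intro i hi
    have h1 := Finset.mem_filter.mp hi
    have h2 := hspan i h1.1 h1.2
    rw [hu2, ← Nat.add_mul]
    exact Nat.mul_le_mul_right _ (by omega)
  have hw4 : ∀ i ∈ G, (nt - 2 + τ i) * T + 6 * T ≤ t + u2 := by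
    intro i hi
    by_cases h1 : τ i0 ≤ τ i
    · have h2 : i ∈ G2 := Finset.mem_filter.mpr ⟨hi, h1⟩
      rw [hw2 i h2]
      have := hw3 i h2
      omega
    · have h2 : i ∈ G1 := Finset.mem_filter.mpr ⟨hi, h1⟩
      have := hw1 i h2
      omega
  have hw5 : t + u2 ≤ 6 * (nt * T) := by
    rw [ht, hu2, ← Nat.add_mul, ← Nat.mul_assoc]
    exact Nat.mul_le_mul_right _ (by omega)
  have hu2U : u2 ≤ (s + 2) * Aa * T := by
    rw [hu2]
    refine Nat.mul_le_mul_right _ ?_
    have h1 : (s + 2) * Aa = (s + 1) * Aa + Aa := by ring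
    omega
  have hu1 : (Aa - 6) * T ≤ u2 := by
    rw [hu2]
    exact Nat.mul_le_mul_right _ (by omega)
  -- the events
  set E : Fin (s + 1) → Ev d M K := fun i => sft N1 (sm s (f i).1) ((nt - 2 + τ i) * T) X with hE
  set F : Fin (s + 1) → Ev d M K :=
    fun i => sft N1 (sm s (f i).1) ((Aa - 6 + (τ i - τ i0)) * T) X with hF
  have hFQ : ∀ i ∈ G2, Q (Bt (tv 0) ρ') ((Aa - 6) * T) u2 (F i) := by
    intro i hi
    have h1 := hQ.sft _ _ _ _ (sm s (f i).1) ((Aa - 6 + (τ i - τ i0)) * T) hX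
    refine hQ.mono _ _ _ _ _ _ _ h1 (ball_sub' _ ρ ρ' ?_) ?_ ?_
    · rw [supn_sm0]
      have := Nat.mul_le_mul_left s (hf1 i)
      omega
    · rw [Nat.zero_add]
      exact Nat.mul_le_mul_right _ (by omega)
    · have := hw3 i hi
      omega
  have hFloc : ∀ i ∈ G2, LocE N1 (Bt (tv (sm s (f i).1)) ρ) 0 u2 (F i) := by
    intro i hi
    have h1 := hQ.loc _ _ _ _ (hQ.sft _ _ _ _ (sm s (f i).1) ((Aa - 6 + (τ i - τ i0)) * T) hX)
    refine LocE.mono N1 h1 (ball_sub _ ρ) (Nat.zero_le _) ?_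
    have := hw3 i hi
    omega
  have hEF : ∀ i ∈ G2, sft N1 0 t (F i) = E i := by
    intro i hi
    rw [hF, hE]
    simp only
    rw [sft_sft, zero_add, hw2 i hi]
  -- the past
  have hpast : PB (t * N1) (fun η w => ∀ i ∈ G1, E i η (w.take (t * N1))) ≤
      (p + ε) ^ G1.card + G1.card * (edc + esp) := by
    have h1 := ih G1.card (by omega) G1 rfl
    refine le_trans (le_trans (PBmono _ _ (fun η w => ∀ i ∈ G1, E i η w) ?_) (le_of_eq ?_)) h1
    · intro η w hw h i hi
      have h2 := h i hi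
      rwa [List.take_of_length_le hw.le] at h2
    · have h2 : LocE N1 Set.univ 0 t (fun η w => ∀ i ∈ G1, E i η w) :=
        locE_all G1 fun i hi => LocE.mono N1 (hEloc i) le_rfl le_rfl (hw1 i hi)
      exact (PBloc _ _ _ _ _ h2 (Nat.mul_le_mul_right _ (by omega))).symm
  -- the future
  have hfut : PA (u2 * N1) (fun η w => ∀ i ∈ G2, F i η w) ≤ (p + ε) ^ G2.card + esp := by
    have h1 := sp G2.card u2 (fun a => sm s (f (G2.equivFin.symm a).1).1)
      (fun a => F (G2.equivFin.symm a).1) (by omega) hu2U (by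
        intro a b hab
        have hne : (G2.equivFin.symm a).1 ≠ (G2.equivFin.symm b).1 := fun h =>
          hab (G2.equivFin.symm.injective (Subtype.ext h))
        have ha := (Finset.mem_filter.mp (G2.equivFin.symm a).2)
        have hb := (Finset.mem_filter.mp (G2.equivFin.symm b).2)
        have h3 := hf3 _ _ hne
        have h4 := hspan _ ha.1 ha.2
        have h5 := hspan _ hb.1 hb.2
        have h6 : aa < supn ((f (G2.equivFin.symm a).1).1 - (f (G2.equivFin.symm b).1).1) := by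
          unfold bd at h3
          rcases lt_max_iff.mp h3 with h7 | h7
          · exact h7
          · exfalso
            have h8 := ha.2
            have h9 := hb.2
            simp only [hτ] at h4 h5 h8 h9
            omega
        have h7 : s * (aa + 1) ≤ s * supn ((f (G2.equivFin.symm a).1).1 -
            (f (G2.equivFin.symm b).1).1) := Nat.mul_le_mul_left _ h6
        refine disj_balls _ _ (ρ + D) ?_ ?_
        · rw [supn_sm]
          omega
        · have h8 := supn_sub_le (sm s (f (G2.equivFin.symm a).1).1)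
            (sm s (f (G2.equivFin.symm b).1).1)
          rw [supn_sm0, supn_sm0] at h8
          have h9 := Nat.mul_le_mul_left s (hf1 (G2.equivFin.symm a).1)
          have h10 := Nat.mul_le_mul_left s (hf1 (G2.equivFin.symm b).1)
          omega) (fun a => hFloc _ (G2.equivFin.symm a).2)
    refine (PAmono _ _ _ fun η w _ h a => h _ (G2.equivFin.symm a).2).trans (h1.trans ?_)
    refine add_le_add ?_ le_rfl
    calc ∏ a : Fin G2.card, (PA (u2 * N1) (F (G2.equivFin.symm a).1) + ε)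
        ≤ ∏ _a : Fin G2.card, (p + ε) := by
          refine Finset.prod_le_prod' fun a _ => add_le_add ?_ le_rfl
          refine pa _ _ _ (Nat.mul_le_mul_right _ ?_)
          exact hw3 _ (G2.equivFin.symm a).2
      _ = (p + ε) ^ G2.card := by
          rw [Finset.prod_const, Finset.card_univ, Fintype.card_fin]
  -- the decoupling
  have hall : LocE N1 Set.univ 0 (t + u2) (fun η w => ∀ i ∈ G, E i η w) :=
    locE_all G fun i hi => LocE.mono N1 (hEloc i) le_rfl le_rfl (hw4 i hi)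
  have hdc := dc t u2 (fun η w => ∀ i ∈ G1, E i η (w.take (t * N1)))
    (fun η w => ∀ i ∈ G2, F i η w) (fun η w => by
      simp only [List.take_take, min_self]) hu1 hu2U
    (hQ.all _ G2 _ _ _ F hFQ ⟨i0, hi02⟩)
  have hmain : PB (6 * (nt * T) * N1) (fun η w => ∀ i ∈ G, E i η w) ≤
      PB ((t + u2) * N1) (fun η w => (∀ i ∈ G1, E i η (w.take (t * N1))) ∧
        sft N1 0 t (fun η w => ∀ i ∈ G2, F i η w) η w) := by
    rw [PBloc _ _ _ _ _ hall (Nat.mul_le_mul_right _ hw5)]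
    refine PBmono _ _ _ fun η w hw h => ⟨fun i hi => ?_, fun i hi => ?_⟩
    · refine (LocE.take (hEloc i) (hw1 i hi) η w ?_).mpr (h i (Finset.mem_filter.mp hi).1)
      rw [hw]
      exact Nat.mul_le_mul_right _ (hw4 i (Finset.mem_filter.mp hi).1)
    · have h1 := h i (Finset.mem_filter.mp hi).1
      rw [← hEF i hi] at h1
      exact h1
  refine (hmain.trans hdc).trans ?_
  set P := p + ε with hP
  set e := edc + esp with he
  set a1 := PB (t * N1) (fun η w => ∀ i ∈ G1, E i η (w.take (t * N1))) with ha1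
  set b2 := PA (u2 * N1) (fun η w => ∀ i ∈ G2, F i η w) with hb2
  have ha1' : a1 ≤ 1 := PBone _ _
  have hP2 : P ^ G2.card ≤ 1 := pow_le_one' hp _
  have hg : g = G1.card + G2.card := by omega
  calc a1 * b2 + edc ≤ a1 * (P ^ G2.card + esp) + edc :=
        add_le_add (mul_le_mul' le_rfl hfut) le_rfl
    _ = a1 * P ^ G2.card + a1 * esp + edc := by rw [mul_add]
    _ ≤ (P ^ G1.card + G1.card * e) * P ^ G2.card + 1 * esp + edc :=
        add_le_add (add_le_add (mul_le_mul' hpast le_rfl) (mul_le_mul' ha1' le_rfl)) le_rfl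
    _ = P ^ (G1.card + G2.card) + G1.card * e * P ^ G2.card + (edc + esp) := by
        rw [add_mul, ← pow_add, one_mul]
        ring
    _ ≤ P ^ (G1.card + G2.card) + G1.card * e * 1 + (edc + esp) :=
        add_le_add (add_le_add le_rfl (mul_le_mul' le_rfl hP2)) le_rfl
    _ = P ^ g + ((G1.card + 1 : ℕ) : ℝ≥0∞) * e := by
        rw [hg, he]
        push_cast
        ring
    _ ≤ P ^ g + (g : ℝ≥0∞) * e := by
        refine add_le_add le_rfl (mul_le_mul' ?_ le_rfl)
        exact_mod_cast (by omega : G1.card + 1 ≤ g)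

end ZP.RC
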