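import Pool.Agent.ZP.RCa

/-! # Row RC, part b: numbers -/

set_option autoImplicit false

open scoped ENNReal BigOperators Classical

noncomputable section

namespace ZP.RC

open ZP

/-! ### the scales -/

theorem S_succ (A : Prm) (k : ℕ) : A.S (k + 1) = A.S k ^ A.γ := by
  unfold Prm.S
  rw [← pow_mul, ← pow_succ]

theorem S_ge (A : Prm) (hγ : 1 ≤ A.γ) (_hL : 1 ≤ A.L) (k : ℕ) : A.L ≤ A.S k := by
  unfold Prm.S
  exact Nat.le_self_pow (pow_pos (by omega) k).ne' _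

theorem T_succ (A : Prm) (d k : ℕ) : A.T d (k + 1) = A.nt d k * A.T d k := by
  unfold Prm.T
  rw [Prm.ix, mul_assoc]

theorem T_pos (A : Prm) (d : ℕ) (hL : 1 ≤ A.L) (hτ : 1 ≤ A.τ) (k : ℕ) : 1 ≤ A.T d k := by
  induction k with
  | zero =>
    unfold Prm.T Prm.ix
    omega
  | succ k ih =>
    rw [T_succ]
    have h1 : 0 < A.nt d k := by
      unfold Prm.nt Prm.n Prm.S
      positivity
    exact Nat.mul_pos h1 ih

theorem T_le (A : Prm) (d : ℕ) (hγ : 2 ≤ A.γ) (hL : 8 * d + 8 ≤ A.L) (hτ : A.τ ≤ A.L ^ 2) (k : ℕ) :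
    A.T d k ≤ A.S k ^ 2 := by
  induction k with
  | zero =>
    unfold Prm.T Prm.ix Prm.S
    simpa using hτ
  | succ k ih =>
    have hSL := S_ge A (by omega) (by omega) k
    have hS1 : 1 ≤ A.S k := by omega
    rw [T_succ, S_succ]
    unfold Prm.nt Prm.n
    calc (8 * d + 8) * A.S k ^ (A.γ - 1) * A.T d k
        ≤ A.S k * A.S k ^ (A.γ - 1) * A.S k ^ 2 := by
          refine Nat.mul_le_mul (Nat.mul_le_mul_right _ (by omega)) ih
      _ = A.S k ^ (1 + (A.γ - 1) + 2) := by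
          rw [pow_add, pow_add, pow_one]
      _ ≤ A.S k ^ (A.γ * 2) := Nat.pow_le_pow_right hS1 (by omega)
      _ = (A.S k ^ A.γ) ^ 2 := pow_mul _ _ _

/-! ### natural numbers -/

theorem nat_nums (d α' α γ s T L : ℕ) (h1 : 1 ≤ α') (h2 : α' + 6 ≤ α) (h3 : α + 20 ≤ γ)
    (hs : 32 * (d + 1) ≤ s) (hT : T ≤ s ^ 2) (hL : L ≤ s) :
    6 ≤ s ^ α' ∧ (s + 1) * s ^ α' + 4 ≤ (8 * d + 8) * s ^ (γ - 1) ∧ (s + 1) * s ^ α' ≤ s ^ α ∧
    2 * ((6 * s + L ^ 2 + 1) + s ^ α) < s * (s ^ α + 1) ∧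
    2 * (s * (4 * s ^ (γ - 1))) + 2 * ((6 * s + L ^ 2 + 1) + s ^ α) + 4 < 100 * s ^ γ ∧
    s * (4 * s ^ (γ - 1)) + (6 * s + L ^ 2 + 1) ≤ 5 * s ^ γ ∧
    (s + 2) * s ^ α' * T + 1 ≤ s ^ (α' + 4) ∧
    (6 * s + L ^ 2 + 1) + s ^ α + 1 ≤ s ^ (α + 1) ∧
    (2 * (4 * s ^ (γ - 1)) + 1) ^ d * (4 * ((8 * d + 8) * s ^ (γ - 1))) ≤ s ^ (γ * (d + 1)) := by
  have hs32 : 32 ≤ s := by omega
  have hs1 : 1 ≤ s := by omega
  have hpos : ∀ e, 1 ≤ s ^ e := fun e => Nat.one_le_pow _ _ hs1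
  have hL2 : L ^ 2 ≤ s ^ 2 := Nat.pow_le_pow_left hL 2
  have hss : 32 * s ≤ s ^ 2 := by
    rw [pow_two]
    exact Nat.mul_le_mul_right _ hs32
  have hρ : 6 * s + L ^ 2 + 1 ≤ 2 * s ^ 2 := by nlinarith
  have hmono : ∀ {a b : ℕ}, a ≤ b → s ^ a ≤ s ^ b := fun h => Nat.pow_le_pow_right hs1 h
  have hstep : ∀ a : ℕ, 32 * s ^ a ≤ s ^ (a + 1) := fun a => by
    rw [pow_succ, Nat.mul_comm (s ^ a) s]
    exact Nat.mul_le_mul_right _ hs32
  have hsγ : s * s ^ (γ - 1) = s ^ γ := by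
    rw [← pow_succ']
    congr 1
    omega
  have e1 : (s + 1) * s ^ α' ≤ s ^ (α' + 2) := by
    calc (s + 1) * s ^ α' ≤ (s * s) * s ^ α' := Nat.mul_le_mul_right _ (by nlinarith)
      _ = s ^ (α' + 2) := by ring
  refine ⟨?_, ?_, ?_, ?_, ?_, ?_, ?_, ?_, ?_⟩
  · calc 6 ≤ s ^ 1 := by rw [pow_one]; omega
      _ ≤ s ^ α' := hmono h1
  · have h4 : s ^ (α' + 2) ≤ s ^ (γ - 1) := hmono (by omega)
    have h5 : 4 ≤ 4 * s ^ (γ - 1) := by
      have := hpos (γ - 1)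
      omega
    have h6 : 8 * s ^ (γ - 1) ≤ (8 * d + 8) * s ^ (γ - 1) := Nat.mul_le_mul_right _ (by omega)
    omega
  · exact e1.trans (hmono (by omega))
  · have h4 : s ^ 2 ≤ s ^ α := hmono (by omega)
    have h5 : 32 * s ^ α ≤ s * s ^ α := Nat.mul_le_mul_right _ hs32
    have h6 : s * (s ^ α + 1) = s * s ^ α + s := by ring
    have h7 := hpos α
    omega
  · have h4 : s ^ 2 ≤ s ^ α := hmono (by omega)
    have h5 : s ^ α ≤ s ^ γ := hmono (by omega)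
    have h6 : s * (4 * s ^ (γ - 1)) = 4 * s ^ γ := by rw [← hsγ]; ring
    have h7 := hpos γ
    omega
  · have h4 : 32 * s ^ 2 ≤ s ^ 3 := hstep 2
    have h5 : s ^ 3 ≤ s ^ γ := hmono (by omega)
    have h6 : s * (4 * s ^ (γ - 1)) = 4 * s ^ γ := by rw [← hsγ]; ring
    omega
  · have h4 : (s + 2) * s ^ α' * T ≤ (s + 2) * s ^ α' * s ^ 2 := Nat.mul_le_mul_left _ hT
    have h5 : (s + 2) * s ^ α' * s ^ 2 ≤ 2 * s ^ (α' + 3) := by
      calc (s + 2) * s ^ α' * s ^ 2 ≤ (2 * s) * s ^ α' * s ^ 2 :=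
            Nat.mul_le_mul_right _ (Nat.mul_le_mul_right _ (by omega))
        _ = 2 * s ^ (α' + 3) := by ring
    have h6 : 32 * s ^ (α' + 3) ≤ s ^ (α' + 4) := hstep (α' + 3)
    have h7 := hpos (α' + 3)
    omega
  · have h4 : s ^ 2 ≤ s ^ α := hmono (by omega)
    have h5 := hstep α
    have h6 := hpos α
    omega
  · have h4 : 2 * (4 * s ^ (γ - 1)) + 1 ≤ s ^ γ := by
      have h5 := hpos (γ - 1)
      have h6 : 32 * s ^ (γ - 1) ≤ s * s ^ (γ - 1) := Nat.mul_le_mul_right _ hs32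
      omega
    have h5 : 4 * ((8 * d + 8) * s ^ (γ - 1)) ≤ s ^ γ := by
      rw [← hsγ]
      calc 4 * ((8 * d + 8) * s ^ (γ - 1)) = (32 * (d + 1)) * s ^ (γ - 1) := by ring
        _ ≤ s * s ^ (γ - 1) := Nat.mul_le_mul_right _ hs
    calc (2 * (4 * s ^ (γ - 1)) + 1) ^ d * (4 * ((8 * d + 8) * s ^ (γ - 1)))
        ≤ (s ^ γ) ^ d * s ^ γ := Nat.mul_le_mul (Nat.pow_le_pow_left h4 d) h5
      _ = s ^ (γ * (d + 1)) := by rw [pow_mul, pow_succ]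

/-! ### real numbers -/

/-- powers are at most exponentials -/
theorem pow_le_exp (s : ℕ) (e : ℕ) : (s : ℝ) ^ e ≤ Real.exp ((s : ℝ) * e) := by
  rw [mul_comm, Real.exp_nat_mul]
  refine pow_le_pow_left₀ (Nat.cast_nonneg _) ?_ e
  have := Real.add_one_le_exp (s : ℝ)
  linarith

/-- the error of the spatial decoupling -/
theorem sp_err (α' α C s ρ D u : ℕ) (h2 : α' + 6 ≤ α) (hs : 32 ≤ s)
    (hsC : (α + 1) * C + 1 ≤ s) (hρ : ρ + D + 1 ≤ s ^ (α + 1)) (hD : D = s ^ α)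
    (hu : u + 1 ≤ s ^ (α' + 4)) :
    (C : ℝ) * ((ρ : ℝ) + D + 1) ^ C * Real.exp (C * u - D) ≤ Real.exp (-(s : ℝ) ^ 4) := by
  have hs0 : (1 : ℝ) ≤ s := by
    have : 1 ≤ s := by omega
    exact_mod_cast this
  have hCs : (C : ℝ) ≤ s := by
    have h1 : C ≤ s := by
      have : C ≤ (α + 1) * C := Nat.le_mul_of_pos_left _ (Nat.succ_pos _)
      omega
    exact_mod_cast h1
  have hρ' : (ρ : ℝ) + D + 1 ≤ (s : ℝ) ^ (α + 1) := by exact_mod_cast hρ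
  have hsC' : (((α + 1) * C + 1 : ℕ) : ℝ) ≤ s := by exact_mod_cast hsC
  have h3 : (C : ℝ) * ((ρ : ℝ) + D + 1) ^ C ≤ Real.exp ((s : ℝ) * s) := by
    calc (C : ℝ) * ((ρ : ℝ) + D + 1) ^ C ≤ s * ((s : ℝ) ^ (α + 1)) ^ C := by gcongr
      _ = (s : ℝ) ^ ((α + 1) * C + 1) := by
          rw [← pow_mul, pow_succ]
          ring
      _ ≤ Real.exp ((s : ℝ) * ((α + 1) * C + 1 : ℕ)) := pow_le_exp s _
      _ ≤ Real.exp ((s : ℝ) * s) := by
          refine Real.exp_le_exp.mpr ?_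
          gcongr
  have h4 : (C : ℝ) * u ≤ (s : ℝ) ^ (α' + 5) := by
    have hu' : (u : ℝ) ≤ (s : ℝ) ^ (α' + 4) := by
      have : u ≤ s ^ (α' + 4) := by omega
      exact_mod_cast this
    calc (C : ℝ) * u ≤ s * (s : ℝ) ^ (α' + 4) := by gcongr
      _ = (s : ℝ) ^ (α' + 5) := by ring
  have h5 : (D : ℝ) = (s : ℝ) ^ α := by
    rw [hD]
    push_cast
    rfl
  have h6 : (s : ℝ) * s + (s : ℝ) ^ (α' + 5) + (s : ℝ) ^ 4 ≤ (s : ℝ) ^ α := by
    have h7 : (s : ℝ) ^ (α' + 5) ≤ (s : ℝ) ^ (α - 1) := pow_le_pow_right₀ hs0 (by omega)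
    have h8 : (s : ℝ) ^ 4 ≤ (s : ℝ) ^ (α - 1) := pow_le_pow_right₀ hs0 (by omega)
    have h9 : (s : ℝ) * s ≤ (s : ℝ) ^ (α - 1) := by
      rw [← pow_two]
      exact pow_le_pow_right₀ hs0 (by omega)
    have h10 : (32 : ℝ) * (s : ℝ) ^ (α - 1) ≤ (s : ℝ) ^ α := by
      have h11 : (s : ℝ) ^ α = s * (s : ℝ) ^ (α - 1) := by
        rw [← pow_succ']
        congr 1
        omega
      rw [h11]
      have h12 : (32 : ℝ) ≤ s := by exact_mod_cast hs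
      gcongr
    have h13 : (0 : ℝ) ≤ (s : ℝ) ^ (α - 1) := by positivity
    linarith
  calc (C : ℝ) * ((ρ : ℝ) + D + 1) ^ C * Real.exp (C * u - D)
      ≤ Real.exp ((s : ℝ) * s) * Real.exp (C * u - D) := by gcongr
    _ = Real.exp ((s : ℝ) * s + (C * u - D)) := (Real.exp_add _ _).symm
    _ ≤ Real.exp (-(s : ℝ) ^ 4) := by
        refine Real.exp_le_exp.mpr ?_
        rw [h5]
        linarith

/-- the error of the letters -/
theorem lt_err (α' γ s n u : ℕ) (hγ : 6 ≤ γ) (hs : 32 ≤ s) (hsa : α' + 4 ≤ s) (hn : s ^ γ ≤ n)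
    (hu : u + 1 ≤ s ^ (α' + 4)) :
    (u : ℝ) * Real.exp (-(n : ℝ)) ≤ Real.exp (-(s : ℝ) ^ 4) := by
  have hs0 : (1 : ℝ) ≤ s := by
    have : 1 ≤ s := by omega
    exact_mod_cast this
  have hu' : (u : ℝ) ≤ Real.exp ((s : ℝ) * s) := by
    have h1 : (u : ℝ) ≤ (s : ℝ) ^ (α' + 4) := by
      have : u ≤ s ^ (α' + 4) := by omega
      exact_mod_cast this
    have h2 : ((α' + 4 : ℕ) : ℝ) ≤ s := by exact_mod_cast hsa
    refine h1.trans ((pow_le_exp s _).trans (Real.exp_le_exp.mpr ?_))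
    gcongr
  have hn' : (s : ℝ) ^ γ ≤ n := by exact_mod_cast hn
  have h6 : (s : ℝ) * s + (s : ℝ) ^ 4 ≤ (s : ℝ) ^ γ := by
    have h8 : (s : ℝ) ^ 4 ≤ (s : ℝ) ^ (γ - 1) := pow_le_pow_right₀ hs0 (by omega)
    have h9 : (s : ℝ) * s ≤ (s : ℝ) ^ (γ - 1) := by
      rw [← pow_two]
      exact pow_le_pow_right₀ hs0 (by omega)
    have h10 : (32 : ℝ) * (s : ℝ) ^ (γ - 1) ≤ (s : ℝ) ^ γ := by
      have h11 : (s : ℝ) ^ γ = s * (s : ℝ) ^ (γ - 1) := by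
        rw [← pow_succ']
        congr 1
        omega
      rw [h11]
      have h12 : (32 : ℝ) ≤ s := by exact_mod_cast hs
      gcongr
    have h13 : (0 : ℝ) ≤ (s : ℝ) ^ (γ - 1) := by positivity
    linarith
  calc (u : ℝ) * Real.exp (-(n : ℝ)) ≤ Real.exp ((s : ℝ) * s) * Real.exp (-(n : ℝ)) := by gcongr
    _ = Real.exp ((s : ℝ) * s + -(n : ℝ)) := (Real.exp_add _ _).symm
    _ ≤ _ := by
        refine Real.exp_le_exp.mpr ?_
        linarith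

/-- the final estimate -/
theorem final_err (d α' γ s : ℕ) (p B ec : ℝ) (hs : 32 ≤ s)
    (hs3 : γ * (d + 1) + ((γ + 1) * d + α' + 4) + 6 ≤ s) (hp : 0 ≤ p)
    (hsp : (s : ℝ) ^ (3 * (d + 1) * (γ + 1)) * p ≤ 1) (hB0 : 0 ≤ B) (hB : B ≤ (s : ℝ) ^ (γ * (d + 1)))
    (hec0 : 0 ≤ ec) (hec : ec ≤ (s : ℝ) ^ ((γ + 1) * d + α' + 4) * Real.exp (-(s : ℝ) ^ 4)) :
    B ^ (s + 1) * ((p + Real.exp (-(s : ℝ) ^ 4)) ^ (s + 1) + ((s + 1 : ℕ) : ℝ) *
      (ec + (((s + 1 : ℕ) : ℝ) + ((s + 1 : ℕ) : ℝ) ^ 2) * Real.exp (-(s : ℝ) ^ 4))) ≤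
      Real.exp (-(2 * (s : ℝ))) := by
  have hs32 : (32 : ℝ) ≤ s := by exact_mod_cast hs
  have hs0 : (1 : ℝ) ≤ s := by linarith
  set ε := Real.exp (-(s : ℝ) ^ 4) with hε
  have hε0 : 0 < ε := Real.exp_pos _
  set E0 := (γ + 1) * d + α' + 4 with hE0
  have hs3' : ((γ * (d + 1) + E0 + 6 : ℕ) : ℝ) ≤ s := by exact_mod_cast hs3
  have hs4 : (s : ℝ) ^ 3 ≤ (s : ℝ) ^ 4 := pow_le_pow_right₀ hs0 (by norm_num)
  -- first term
  have h1 : B * (p + ε) ≤ Real.exp (-3) := by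
    have h2 : (s : ℝ) ^ 2 * ((s : ℝ) ^ (γ * (d + 1)) * p) ≤ 1 := by
      refine le_trans ?_ hsp
      rw [← mul_assoc, ← pow_add]
      refine mul_le_mul_of_nonneg_right (pow_le_pow_right₀ hs0 ?_) hp
      nlinarith
    have h3 : (s : ℝ) ^ 2 * ((s : ℝ) ^ (γ * (d + 1)) * ε) ≤ 1 := by
      rw [← mul_assoc, ← pow_add]
      calc (s : ℝ) ^ (2 + γ * (d + 1)) * ε
          ≤ Real.exp ((s : ℝ) * ((2 + γ * (d + 1) : ℕ) : ℝ)) * ε := by
            gcongr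
            exact pow_le_exp s _
        _ = Real.exp ((s : ℝ) * ((2 + γ * (d + 1) : ℕ) : ℝ) + -(s : ℝ) ^ 4) :=
            (Real.exp_add _ _).symm
        _ ≤ Real.exp 0 := by
            refine Real.exp_le_exp.mpr ?_
            have h4 : ((2 + γ * (d + 1) : ℕ) : ℝ) ≤ s := by
              have : 2 + γ * (d + 1) ≤ s := by omega
              exact_mod_cast this
            have h5 : (s : ℝ) * ((2 + γ * (d + 1) : ℕ) : ℝ) ≤ s * s := by gcongr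
            have h6 : (s : ℝ) * s ≤ (s : ℝ) ^ 4 := by
              rw [← pow_two]
              exact pow_le_pow_right₀ hs0 (by norm_num)
            linarith
        _ = 1 := Real.exp_zero
    have h4 : B * (p + ε) ≤ (s : ℝ) ^ (γ * (d + 1)) * (p + ε) := by gcongr
    have h5 : (s : ℝ) ^ 2 * (B * (p + ε)) ≤ 2 := by
      calc (s : ℝ) ^ 2 * (B * (p + ε)) ≤ (s : ℝ) ^ 2 * ((s : ℝ) ^ (γ * (d + 1)) * (p + ε)) := by
            gcongr
        _ = (s : ℝ) ^ 2 * ((s : ℝ) ^ (γ * (d + 1)) * p) +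
            (s : ℝ) ^ 2 * ((s : ℝ) ^ (γ * (d + 1)) * ε) := by ring
        _ ≤ 2 := by linarith
    have h6 : (1000 : ℝ) ≤ (s : ℝ) ^ 2 := by nlinarith
    have h7 : B * (p + ε) ≤ 1 / 500 := by
      have h8 : 0 ≤ B * (p + ε) := by positivity
      nlinarith
    refine h7.trans ?_
    have h8 : Real.exp 3 ≤ 27 := by
      have h9 := Real.exp_one_lt_d9
      have h10 : Real.exp 3 = Real.exp 1 ^ 3 := by
        rw [← Real.exp_nat_mul]
        norm_num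
      rw [h10]
      have h11 : Real.exp 1 ^ 3 ≤ 3 ^ 3 := pow_le_pow_left₀ (Real.exp_pos _).le (by linarith) 3
      norm_num at h11 ⊢
      exact h11
    rw [Real.exp_neg, one_div]
    gcongr
    linarith
  have h2 : (B * (p + ε)) ^ (s + 1) ≤ Real.exp (-(2 * (s : ℝ))) / 2 := by
    calc (B * (p + ε)) ^ (s + 1) ≤ Real.exp (-3) ^ (s + 1) :=
          pow_le_pow_left₀ (by positivity) h1 _
      _ = Real.exp (-(2 * (s : ℝ))) * Real.exp (-(s : ℝ) - 3) := by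
          rw [← Real.exp_nat_mul, ← Real.exp_add]
          congr 1
          push_cast
          ring
      _ ≤ Real.exp (-(2 * (s : ℝ))) * (1 / 2) := by
          gcongr
          have h3 : Real.exp (-(s : ℝ) - 3) ≤ Real.exp (-1) := Real.exp_le_exp.mpr (by linarith)
          have h4 := Real.exp_one_gt_d9
          have h5 : Real.exp (-1) ≤ 1 / 2 := by
            rw [Real.exp_neg, one_div]
            gcongr
            linarith
          linarith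
      _ = _ := by ring
  -- second term
  have h3 : ((s + 1 : ℕ) : ℝ) * (ec + (((s + 1 : ℕ) : ℝ) + ((s + 1 : ℕ) : ℝ) ^ 2) * ε) ≤
      (s : ℝ) ^ (E0 + 3) * ε := by
    have h4 : (((s + 1 : ℕ) : ℝ) + ((s + 1 : ℕ) : ℝ) ^ 2) ≤ (s : ℝ) ^ E0 := by
      calc (((s + 1 : ℕ) : ℝ) + ((s + 1 : ℕ) : ℝ) ^ 2) ≤ (s : ℝ) ^ 4 := by
            push_cast
            nlinarith [pow_le_pow_right₀ hs0 (show 3 ≤ 4 by norm_num),
              mul_self_nonneg ((s : ℝ) ^ 2 - 1)]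
        _ ≤ (s : ℝ) ^ E0 := pow_le_pow_right₀ hs0 (by omega)
    have h5 : ((s + 1 : ℕ) : ℝ) ≤ 2 * s := by
      push_cast
      linarith
    have h6 : (0 : ℝ) ≤ (s : ℝ) ^ E0 * ε := by positivity
    calc ((s + 1 : ℕ) : ℝ) * (ec + (((s + 1 : ℕ) : ℝ) + ((s + 1 : ℕ) : ℝ) ^ 2) * ε)
        ≤ (2 * s) * ((s : ℝ) ^ E0 * ε + (s : ℝ) ^ E0 * ε) := by gcongr
      _ = (4 * s) * ((s : ℝ) ^ E0 * ε) := by ring
      _ ≤ (s : ℝ) ^ 3 * ((s : ℝ) ^ E0 * ε) := by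
          refine mul_le_mul_of_nonneg_right ?_ h6
          nlinarith [mul_self_nonneg ((s : ℝ) - 2)]
      _ = (s : ℝ) ^ (E0 + 3) * ε := by
          rw [pow_add]
          ring
  have h4 : B ^ (s + 1) * ((s : ℝ) ^ (E0 + 3) * ε) ≤ Real.exp (-(2 * (s : ℝ))) / 2 := by
    calc B ^ (s + 1) * ((s : ℝ) ^ (E0 + 3) * ε)
        ≤ ((s : ℝ) ^ (γ * (d + 1))) ^ (s + 1) * ((s : ℝ) ^ (E0 + 3) * ε) := by gcongr
      _ = (s : ℝ) ^ (γ * (d + 1) * (s + 1) + (E0 + 3)) * ε := by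
          rw [← pow_mul, ← mul_assoc, ← pow_add]
      _ ≤ Real.exp ((s : ℝ) * ((γ * (d + 1) * (s + 1) + (E0 + 3) : ℕ) : ℝ)) * ε := by
          gcongr
          exact pow_le_exp s _
      _ = Real.exp ((s : ℝ) * ((γ * (d + 1) * (s + 1) + (E0 + 3) : ℕ) : ℝ) + -(s : ℝ) ^ 4) :=
          (Real.exp_add _ _).symm
      _ ≤ Real.exp (-(2 * (s : ℝ)) - 1) := by
          refine Real.exp_le_exp.mpr ?_
          have h5 : ((γ * (d + 1) * (s + 1) + (E0 + 3) : ℕ) : ℝ) + 3 ≤ s * ((s : ℝ) + 1) := by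
            have h6 : γ * (d + 1) * (s + 1) + (E0 + 3) + 3 ≤ (γ * (d + 1) + E0 + 6) * (s + 1) := by
              nlinarith
            have h7 : ((γ * (d + 1) * (s + 1) + (E0 + 3) : ℕ) : ℝ) + 3 ≤
                ((γ * (d + 1) + E0 + 6 : ℕ) : ℝ) * ((s : ℝ) + 1) := by exact_mod_cast h6
            refine h7.trans ?_
            gcongr
          have h8 : (s : ℝ) * (s * ((s : ℝ) + 1)) ≤ (s : ℝ) ^ 4 := by
            have h9 : (s : ℝ) + 1 ≤ s * s := by nlinarith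
            calc (s : ℝ) * (s * ((s : ℝ) + 1)) ≤ s * (s * (s * s)) := by gcongr
              _ = (s : ℝ) ^ 4 := by ring
          have h10 : (s : ℝ) * (((γ * (d + 1) * (s + 1) + (E0 + 3) : ℕ) : ℝ) + 3) ≤
              (s : ℝ) * (s * ((s : ℝ) + 1)) := by gcongr
          have h11 : (s : ℝ) * (((γ * (d + 1) * (s + 1) + (E0 + 3) : ℕ) : ℝ) + 3) =
              (s : ℝ) * ((γ * (d + 1) * (s + 1) + (E0 + 3) : ℕ) : ℝ) + 3 * s := by ring
          linarith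
      _ = Real.exp (-(2 * (s : ℝ))) * Real.exp (-1) := by
          rw [← Real.exp_add]
          rfl
      _ ≤ Real.exp (-(2 * (s : ℝ))) * (1 / 2) := by
          gcongr
          have h5 := Real.exp_one_gt_d9
          rw [Real.exp_neg, one_div]
          gcongr
          linarith
      _ = _ := by ring
  calc B ^ (s + 1) * ((p + ε) ^ (s + 1) + ((s + 1 : ℕ) : ℝ) *
      (ec + (((s + 1 : ℕ) : ℝ) + ((s + 1 : ℕ) : ℝ) ^ 2) * ε))
      ≤ B ^ (s + 1) * ((p + ε) ^ (s + 1) + (s : ℝ) ^ (E0 + 3) * ε) := by gcongr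
    _ = (B * (p + ε)) ^ (s + 1) + B ^ (s + 1) * ((s : ℝ) ^ (E0 + 3) * ε) := by
        rw [mul_add, mul_pow]
    _ ≤ _ := by linarith

end ZP.RC
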