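import Pool.Agent.ZP.JE

/-! # The recursion for the expected number of discrepancies -/

set_option autoImplicit false

open scoped ENNReal BigOperators Classical

noncomputable section

namespace ZPD

open ZI ZI.Rows ZI.R2aux ZP

variable {d : ℕ} {m : Model}

/-- a line of `r` sites next to `z` -/
def lineS {M : ℕ} (hd : 0 < d) (r : ℕ) (z : Tor d M) : Finset (Tor d M) :=
  (Finset.range r).image (fun k : ℕ => z + tv (Pi.single (⟨0, hd⟩ : Fin d) ((k : ℤ) + 1)))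

theorem card_lineS {M : ℕ} (hd : 0 < d) (r : ℕ) (z : Tor d M) (hr : r < M) :
    (lineS hd r z).card = r := by
  unfold lineS
  rw [Finset.card_image_of_injOn, Finset.card_range]
  intro k hk k' hk' h
  have hk1 : k < r := by simpa using hk
  have hk2 : k' < r := by simpa using hk'
  have h4 : (tv (Pi.single (⟨0, hd⟩ : Fin d) ((k : ℤ) + 1)) : Tor d M) =
      tv (Pi.single (⟨0, hd⟩ : Fin d) ((k' : ℤ) + 1)) := add_left_cancel h
  have h5 := congrFun h4 ⟨0, hd⟩
  simp only [tv, Pi.single_eq_same] at h5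
  have h6 : (((k + 1 : ℕ)) : ZMod M) = ((k' + 1 : ℕ) : ZMod M) := by
    push_cast at h5 ⊢
    exact h5
  rw [ZMod.natCast_eq_natCast_iff'] at h6
  rw [Nat.mod_eq_of_lt (by omega), Nat.mod_eq_of_lt (by omega)] at h6
  omega

theorem lineS_near {M : ℕ} (hd : 0 < d) (r : ℕ) (z x : Tor d M) (hx : x ∈ lineS hd r z) :
    ∃ v : Pos d, supn v ≤ r ∧ x = z + tv v := by
  obtain ⟨k, hk, rfl⟩ := Finset.mem_image.mp hx
  have hk1 : k < r := by simpa using hk
  refine ⟨_, ?_, rfl⟩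
  unfold supn
  refine Finset.sup_le fun j _ => ?_
  by_cases hj : j = ⟨0, hd⟩
  · rw [hj, Pi.single_eq_same]
    omega
  · rw [Pi.single_eq_of_ne hj]
    simp

/-- the annihilations of the window, all weights -/
theorem ann_total {M K : ℕ} [NeZero M] (R : ℕ) (η ζ : Tor d M → ℕ)
    (l : List (Let d M K)) :
    ∑ z : Tor d M, annS (fun x => if x ∈ near z R then 1 else 0) η ζ l ≤
      (((2 * R + 1) ^ d : ℕ) : ℝ≥0∞) * annS (fun _ => 1) η ζ l := by
  rw [annS_sum, ← annS_mul]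
  refine annS_mono _ _ (fun x => ?_) l η ζ
  rw [mul_one]
  have h := card_near x R
  rw [Finset.sum_ite, Finset.sum_const_zero, add_zero, Finset.sum_const, nsmul_eq_mul, mul_one]
  exact_mod_cast h

/-- the inequality for one state -/
theorem state_ineq (q : Par d m) (hd : 0 < d) (r N : ℕ) (q0 dsp : ℝ≥0∞) (hq0 : q0 ≤ 1) (R : ℕ)
    (hwin : ∀ (η ζ : Tor d q.M → ℕ) (z : Tor d q.M) (v : Pos d), supn v ≤ r → η z < ζ z →
      ζ (z + tv v) < η (z + tv v) →
      q0 ≤ PrE q.w N (fun l => 1 ≤ annS (fun x => if x ∈ near z R then 1 else 0) η ζ l) + dsp +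
        (PrE q.w N (Hits stepA (capd q.K (near z R)) η) +
         PrE q.w N (Hits stepA (capd q.K (near z R)) ζ)))
    (η ζ : Tor d q.M → ℕ) :
    q0 * nG (fun _ => 1) η ζ ≤
      (r * (((2 * R + 1) ^ d : ℕ) : ℝ≥0∞)) * EvE q.w N (annS (fun _ => 1) η ζ) +
      ∑ z : Tor d q.M, (r * (dsp + (PrE q.w N (Hits stepA (capd q.K (near z R)) η) +
         PrE q.w N (Hits stepA (capd q.K (near z R)) ζ))) +
         r * (if ∑ x ∈ lineS hd r z, η x ≤ ∑ x ∈ lineS hd r z, ζ x then 1 else 0) +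
         (if r < ζ z then (ζ z : ℝ≥0∞) else 0)) := by
  -- the sum of the probabilities
  have h1 : ∑ z : Tor d q.M, PrE q.w N (fun l => 1 ≤ annS (fun x => if x ∈ near z R then 1 else 0) η ζ l) ≤
      (((2 * R + 1) ^ d : ℕ) : ℝ≥0∞) * EvE q.w N (annS (fun _ => 1) η ζ) := by
    have h2 : ∀ z : Tor d q.M,
        PrE q.w N (fun l => 1 ≤ annS (fun x => if x ∈ near z R then 1 else 0) η ζ l) ≤
        EvE q.w N (annS (fun x => if x ∈ near z R then 1 else 0) η ζ) := by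
      intro z
      have h3 := PrE_markov q.w N 1 (annS (fun x => if x ∈ near z R then 1 else 0) η ζ)
      rw [one_mul] at h3
      exact h3
    refine (Finset.sum_le_sum fun z _ => h2 z).trans ?_
    have h4 : ∑ z : Tor d q.M, EvE q.w N (annS (fun x => if x ∈ near z R then 1 else 0) η ζ) =
        EvE q.w N (fun l => ∑ z : Tor d q.M, annS (fun x => if x ∈ near z R then 1 else 0) η ζ l) := by
      have h5 := ZI.EvE_tsum q.w N (fun (z : Tor d q.M) => annS (fun x => if x ∈ near z R then 1 else 0) η ζ)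
      rw [tsum_fintype] at h5
      rw [← h5]
      refine EvE_congr q.w N fun l _ => ?_
      rw [tsum_fintype]
    rw [h4, ← ZI.EvE_mul]
    exact EvE_mono q.w N fun l _ => ann_total R η ζ l
  -- one site
  have h2 : ∀ z : Tor d q.M, q0 * (((ζ z - η z : ℕ) : ℝ≥0∞) * 1) ≤
      r * PrE q.w N (fun l => 1 ≤ annS (fun x => if x ∈ near z R then 1 else 0) η ζ l) +
      (r * (dsp + (PrE q.w N (Hits stepA (capd q.K (near z R)) η) +
         PrE q.w N (Hits stepA (capd q.K (near z R)) ζ))) +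
         r * (if ∑ x ∈ lineS hd r z, η x ≤ ∑ x ∈ lineS hd r z, ζ x then 1 else 0) +
         (if r < ζ z then (ζ z : ℝ≥0∞) else 0)) := by
    intro z
    rw [mul_one]
    by_cases hr : r < ζ z
    · rw [if_pos hr]
      have h3 : q0 * ((ζ z - η z : ℕ) : ℝ≥0∞) ≤ (ζ z : ℝ≥0∞) := by
        calc q0 * ((ζ z - η z : ℕ) : ℝ≥0∞) ≤ 1 * (ζ z : ℝ≥0∞) := by
              refine mul_le_mul' hq0 ?_
              exact_mod_cast Nat.sub_le _ _
          _ = _ := one_mul _
      exact h3.trans (le_add_self.trans le_add_self)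
    · have hle : ((ζ z - η z : ℕ) : ℝ≥0∞) ≤ r := by
        exact_mod_cast (by omega : ζ z - η z ≤ r)
      by_cases hz : η z < ζ z
      · by_cases hg : ∑ x ∈ lineS hd r z, η x ≤ ∑ x ∈ lineS hd r z, ζ x
        · rw [if_pos hg, mul_one]
          have h3 : q0 * ((ζ z - η z : ℕ) : ℝ≥0∞) ≤ r := by
            calc q0 * ((ζ z - η z : ℕ) : ℝ≥0∞) ≤ 1 * (r : ℝ≥0∞) := mul_le_mul' hq0 hle
              _ = _ := one_mul _
          refine h3.trans ?_
          refine le_trans ?_ le_add_self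
          refine le_trans ?_ le_self_add
          exact le_add_self
        · rw [if_neg hg, mul_zero, add_zero]
          push Not at hg
          obtain ⟨x, hx, hlt⟩ := Finset.exists_lt_of_sum_lt hg
          obtain ⟨v, hv, rfl⟩ := lineS_near hd r z x hx
          have h3 := hwin η ζ z v hv hz hlt
          calc q0 * ((ζ z - η z : ℕ) : ℝ≥0∞) ≤ q0 * r := mul_le_mul_right hle _
            _ = r * q0 := mul_comm _ _
            _ ≤ r * (PrE q.w N (fun l => 1 ≤ annS (fun x => if x ∈ near z R then 1 else 0) η ζ l) + dsp +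
                (PrE q.w N (Hits stepA (capd q.K (near z R)) η) +
                 PrE q.w N (Hits stepA (capd q.K (near z R)) ζ))) := mul_le_mul_right h3 _
            _ = r * PrE q.w N (fun l => 1 ≤ annS (fun x => if x ∈ near z R then 1 else 0) η ζ l) +
                (r * (dsp + (PrE q.w N (Hits stepA (capd q.K (near z R)) η) +
                 PrE q.w N (Hits stepA (capd q.K (near z R)) ζ)))) := by ring
            _ ≤ _ := add_le_add le_rfl le_self_add
      · have h3 : ζ z - η z = 0 := by omega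
        rw [h3, Nat.cast_zero, mul_zero]
        exact zero_le
  unfold nG
  rw [Finset.mul_sum]
  refine (Finset.sum_le_sum fun z _ => h2 z).trans ?_
  rw [Finset.sum_add_distrib]
  refine add_le_add ?_ le_rfl
  rw [← Finset.mul_sum, mul_assoc]
  exact mul_le_mul_right h1 _

/-! ### expectations -/

/-- the parameters at another fugacity -/
abbrev toF {φh : ℝ} {hφ : 0 < φh} (q : Par d (wf m φh hφ)) (φ : ℝ) (h : 0 < φ) (hle : φ ≤ φh) :
    Par d (wf m φ h) where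
  M := q.M
  K := q.K
  N1 := q.N1
  p := q.p
  M_ge := q.M_ge
  K_ge := q.K_ge
  K_big := by
    have := q.K_big
    show 2 * φ ≤ m.g q.K
    change 2 * φh ≤ m.g q.K at this
    linarith
  N1_pos := q.N1_pos
  p_pos := q.p_pos
  p_lb := q.p_lb
  p_ub := q.p_ub
  p_small := q.p_small
  p_tot := q.p_tot

section rec

variable {φh : ℝ} {hφ : 0 < φh} (q : Par d (wf m φh hφ)) (φ1 φ2 : ℝ) (h1 : 0 < φ1) (h2 : 0 < φ2)

/-- the law of the second configuration -/
abbrev pr1 : (Tor d q.M → ℕ) → ℝ≥0∞ := prw ((wf m φ1 h1).m1 q.K)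

theorem pr_tsum (φ : ℝ) (h : 0 < φ) (hle : φ ≤ φh) : ∑' ζ, pr1 q φ h ζ = 1 :=
  tsum_prw (toF q φ h hle)

theorem toF_w (φ : ℝ) (h : 0 < φ) (hle : φ ≤ φh) : (toF q φ h hle).w = q.w := by
  funext a
  cases a with
  | none => rfl
  | some l => rfl

theorem pr_stat (hd : 0 < d) (φ : ℝ) (h : 0 < φ) (hle : φ ≤ φh) (F : (Tor d q.M → ℕ) → ℝ≥0∞)
    (N : ℕ) : ∑' η, pr1 q φ h η * EvE q.w N (fun l => F (l.foldl stepA η)) =
      ∑' η, pr1 q φ h η * F η := by
  have h3 := stat_aux (toF q φ h hle) hd F N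
  rw [toF_w] at h3
  exact h3

variable (hle1 : φ1 ≤ φh) (hle2 : φ2 ≤ φh)

include hle1 in
theorem JE_fst (hd : 0 < d) (hle2 : φ2 ≤ φh) (N : ℕ) (F : (Tor d q.M → ℕ) → ℝ≥0∞) :
    JE (pr1 q φ2 h2) (pr1 q φ1 h1) q.w N (fun η _ l => F (l.foldl stepA η)) =
      ∑' η, pr1 q φ2 h2 η * F η := by
  rw [JE_left _ _ _ (pr_tsum q φ1 h1 hle1) N (fun η l => F (l.foldl stepA η))]
  exact pr_stat q hd φ2 h2 hle2 F N

include hle1 in
theorem JE_snd (hd : 0 < d) (hle2 : φ2 ≤ φh) (N : ℕ) (F : (Tor d q.M → ℕ) → ℝ≥0∞) :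
    JE (pr1 q φ2 h2) (pr1 q φ1 h1) q.w N (fun _ ζ l => F (l.foldl stepA ζ)) =
      ∑' ζ, pr1 q φ1 h1 ζ * F ζ := by
  rw [JE_right _ _ _ (pr_tsum q φ2 h2 hle2) N (fun η l => F (l.foldl stepA η))]
  exact pr_stat q hd φ1 h1 hle1 F N

theorem foldl_td {M K : ℕ} (N : ℕ) (η : Tor d M → ℕ) (l : List (Let d M K)) :
    l.foldl stepA η = (l.drop N).foldl stepA ((l.take N).foldl stepA η) := by
  rw [← List.foldl_append, List.take_append_drop]

/-- the balance of a window -/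
theorem balance_win (hd : 0 < d) (x : Tor d q.M) (N0 N : ℕ) :
    (q.M : ℝ≥0∞) ^ d * bs q ((wf m φ2 h2).m1 q.K) ((wf m φ1 h1).m1 q.K) (N0 + N) x +
      JE (pr1 q φ2 h2) (pr1 q φ1 h1) q.w N0
        (fun η ζ l => EvE q.w N (annS (fun _ => 1) (l.foldl stepA η) (l.foldl stepA ζ))) ≤
      (q.M : ℝ≥0∞) ^ d * bs q ((wf m φ2 h2).m1 q.K) ((wf m φ1 h1).m1 q.K) N0 x := by
  rw [← bs_sum, ← bs_sum]
  have h3 : JE (prw ((wf m φ2 h2).m1 q.K)) (prw ((wf m φ1 h1).m1 q.K)) q.w (N0 + N)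
      (fun η ζ l => nG (fun _ => 1) (l.foldl stepA η) (l.foldl stepA ζ)) =
      JE (pr1 q φ2 h2) (pr1 q φ1 h1) q.w N0 (fun η ζ l => EvE q.w N (fun l' =>
        nG (fun _ => 1) (l'.foldl stepA (l.foldl stepA η)) (l'.foldl stepA (l.foldl stepA ζ)))) := by
    rw [← JE_split _ _ _ N0 N (fun η ζ l' => nG (fun _ => 1) (l'.foldl stepA η) (l'.foldl stepA ζ))]
    refine JE_congr _ _ _ _ fun η ζ l _ => ?_
    rw [← foldl_td, ← foldl_td]
  rw [h3, ← JE_add]
  refine JE_mono _ _ _ N0 fun η ζ l _ => ?_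
  rw [← ZI.EvE_add]
  have h4 := nG_window q hd (fun _ => 1) (fun _ => ENNReal.one_ne_top) 0 (fun x => by
    rw [Finset.sum_const, Finset.card_univ, nsmul_eq_mul, Fintype.card_prod, Fintype.card_fin,
      Fintype.card_bool]
    push_cast
    rw [add_zero, mul_one, mul_one, mul_one, mul_comm]) N (l.foldl stepA η) (l.foldl stepA ζ)
  rw [zero_mul, add_zero, one_pow, one_mul] at h4
  exact h4

theorem bs_anti (hd : 0 < d) (x : Tor d q.M) (N0 N : ℕ) :
    bs q ((wf m φ2 h2).m1 q.K) ((wf m φ1 h1).m1 q.K) (N0 + N) x ≤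
      bs q ((wf m φ2 h2).m1 q.K) ((wf m φ1 h1).m1 q.K) N0 x := by
  have h3 := (le_self_add).trans (balance_win q φ1 φ2 h1 h2 hd x N0 N)
  have hM : (q.M : ℝ≥0∞) ^ d ≠ 0 := by
    have := q.M_ge
    refine pow_ne_zero d ?_
    exact_mod_cast (by omega : q.M ≠ 0)
  exact (ENNReal.mul_le_mul_iff_right hM (ENNReal.pow_ne_top (ENNReal.natCast_ne_top _))).1 h3

/-- the recursion -/
theorem rec_ineq (hd : 0 < d) (r N : ℕ) (hr : 1 ≤ r) (q0 dsp : ℝ≥0∞) (hq0 : q0 ≤ 1) (R : ℕ)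
    (hwin : ∀ (η ζ : Tor d q.M → ℕ) (z : Tor d q.M) (v : Pos d), supn v ≤ r → η z < ζ z →
      ζ (z + tv v) < η (z + tv v) →
      q0 ≤ PrE q.w N (fun l => 1 ≤ annS (fun x => if x ∈ near z R then 1 else 0) η ζ l) + dsp +
        (PrE q.w N (Hits stepA (capd q.K (near z R)) η) +
         PrE q.w N (Hits stepA (capd q.K (near z R)) ζ)))
    (N0 : ℕ) (ε : ℝ≥0∞)
    (hε : ∀ z : Tor d q.M, JE (pr1 q φ2 h2) (pr1 q φ1 h1) q.w N0 (fun η ζ l =>
      (fun η ζ : Tor d q.M → ℕ => (r * (dsp + (PrE q.w N (Hits stepA (capd q.K (near z R)) η) +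
         PrE q.w N (Hits stepA (capd q.K (near z R)) ζ))) +
         r * (if ∑ x ∈ lineS hd r z, η x ≤ ∑ x ∈ lineS hd r z, ζ x then 1 else 0) +
         (if r < ζ z then (ζ z : ℝ≥0∞) else 0))) (l.foldl stepA η) (l.foldl stepA ζ)) ≤ ε)
    (x : Tor d q.M) :
    bs q ((wf m φ2 h2).m1 q.K) ((wf m φ1 h1).m1 q.K) (N0 + N) x +
      q0 / (r * (((2 * R + 1) ^ d : ℕ) : ℝ≥0∞)) *
        bs q ((wf m φ2 h2).m1 q.K) ((wf m φ1 h1).m1 q.K) N0 x ≤
      bs q ((wf m φ2 h2).m1 q.K) ((wf m φ1 h1).m1 q.K) N0 x + ε := by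
  have hbal := balance_win q φ1 φ2 h1 h2 hd x N0 N
  set B := bs q ((wf m φ2 h2).m1 q.K) ((wf m φ1 h1).m1 q.K) N0 x with hB
  set B' := bs q ((wf m φ2 h2).m1 q.K) ((wf m φ1 h1).m1 q.K) (N0 + N) x with hB'
  set A := JE (pr1 q φ2 h2) (pr1 q φ1 h1) q.w N0
        (fun η ζ l => EvE q.w N (annS (fun _ => 1) (l.foldl stepA η) (l.foldl stepA ζ))) with hA
  set Md : ℝ≥0∞ := (q.M : ℝ≥0∞) ^ d with hMd
  set c : ℝ≥0∞ := r * (((2 * R + 1) ^ d : ℕ) : ℝ≥0∞) with hc
  have hM0 : Md ≠ 0 := by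
    have := q.M_ge
    refine pow_ne_zero d ?_
    exact_mod_cast (by omega : q.M ≠ 0)
  have hMt : Md ≠ ⊤ := ENNReal.pow_ne_top (ENNReal.natCast_ne_top _)
  have hc1 : 1 ≤ c := by
    rw [hc]
    have h3 : 1 ≤ r * (2 * R + 1) ^ d := Nat.mul_pos (by omega) (pow_pos (by omega) d)
    exact_mod_cast h3
  have hct : c ≠ ⊤ := by
    rw [hc]
    exact ENNReal.mul_ne_top (ENNReal.natCast_ne_top _) (ENNReal.natCast_ne_top _)
  -- the integrated state inequality
  have hst : q0 * (Md * B) ≤ c * A + Md * ε := by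
    rw [hMd, hB, ← bs_sum, ← JE_mul]
    refine (JE_mono _ _ _ N0 fun η ζ l _ => state_ineq q hd r N q0 dsp hq0 R hwin
      (l.foldl stepA η) (l.foldl stepA ζ)).trans ?_
    rw [JE_add, JE_mul, JE_sum]
    refine add_le_add le_rfl ?_
    refine (Finset.sum_le_sum fun z _ => hε z).trans (le_of_eq ?_)
    rw [Finset.sum_const, Finset.card_univ, nsmul_eq_mul, Fintype.card_fun, Fintype.card_fin,
      ZMod.card]
    push_cast
    rfl
  have h3 : q0 / c * (Md * B) ≤ A + Md * ε := by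
    have h4 : q0 / c * (Md * B) = (q0 * (Md * B)) / c := by
      rw [div_eq_mul_inv, div_eq_mul_inv]
      ring
    rw [h4, ENNReal.div_le_iff (lt_of_lt_of_le zero_lt_one hc1).ne' hct]
    refine hst.trans ?_
    rw [add_mul]
    refine add_le_add (le_of_eq (mul_comm _ _)) ?_
    exact le_mul_of_one_le_right zero_le hc1
  have h5 : Md * (B' + q0 / c * B) ≤ Md * (B + ε) := by
    calc Md * (B' + q0 / c * B) = Md * B' + q0 / c * (Md * B) := by ring
      _ ≤ Md * B' + (A + Md * ε) := add_le_add le_rfl h3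
      _ = (Md * B' + A) + Md * ε := by ring
      _ ≤ Md * B + Md * ε := add_le_add hbal le_rfl
      _ = Md * (B + ε) := by ring
  exact (ENNReal.mul_le_mul_iff_right hM0 hMt).1 h5

end rec

end ZPD
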