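import Pool.Agent.ZP.S3b
import Pool.Agent.ZP.S1
import Pool.Agent.ZP.S2

/-! # Row S3: the speeds exist (with recovery) -/

set_option autoImplicit false

open scoped ENNReal NNReal BigOperators Classical Topology
open MeasureTheory

noncomputable section

namespace ZP.S3

open ZP

variable {d : ℕ} {Ω : Type} [MeasurableSpace Ω] {P : Measure Ω}

/-! ### summable errors -/

/-- the errors are summable, even after multiplication by `4 ^ k` -/
lemma ep_summable (A : ℕ) (hA : 0 < A) : Summable (fun k : ℕ => (4 : ℝ) ^ k * ep A k) := by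
  have h1 := tendsto_pow_const_div_const_pow_of_one_lt 2 (r := (2 : ℝ)) (by norm_num)
  have hApos : (0 : ℝ) < A := by exact_mod_cast hA
  have h2 : ∀ᶠ n : ℕ in Filter.atTop, ((n : ℝ) ^ 2 / 2 ^ n) < 1 / (18 * (A : ℝ) ^ 2) :=
    h1.eventually_lt_const (by positivity)
  obtain ⟨J, hJ⟩ := Filter.eventually_atTop.1 h2
  have h3 : ∀ k : ℕ, J * A ≤ k → 3 * (k : ℝ) ≤ Real.sqrt (rr A k : ℝ) := by
    intro k hk
    have h4 : J ≤ k / A := (Nat.le_div_iff_mul_le hA).2 hk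
    have h5 := hJ (k / A + 1) (by omega)
    have h6 : (k : ℝ) ≤ A * ((k / A : ℕ) + 1) := by
      have : k ≤ A * (k / A + 1) := (Nat.lt_mul_div_succ k hA).le
      exact_mod_cast this
    refine Real.le_sqrt_of_sq_le ?_
    have h7 : (rr A k : ℝ) = 2 ^ (k / A) := by
      unfold rr
      push_cast
      rfl
    rw [h7]
    rw [div_lt_div_iff₀ (by positivity) (by positivity), one_mul, pow_succ (2 : ℝ) (k / A)] at h5
    push_cast at h5
    have h8 : (k : ℝ) ^ 2 ≤ (A * ((k / A : ℕ) + 1)) ^ 2 :=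
      pow_le_pow_left₀ (Nat.cast_nonneg _) h6 2
    have h9 : (A * (((k / A : ℕ) : ℝ) + 1)) ^ 2 = (((k / A : ℕ) : ℝ) + 1) ^ 2 * A ^ 2 := by ring
    rw [h9] at h8
    nlinarith
  have h4 : Summable (fun k : ℕ => ((1 : ℝ) / 2) ^ k) :=
    summable_geometric_of_lt_one (by norm_num) (by norm_num)
  refine Summable.of_norm_bounded_eventually_nat (g := fun k : ℕ => ((1 : ℝ) / 2) ^ k) h4 ?_
  refine Filter.eventually_atTop.2 ⟨J * A, fun k hk => ?_⟩
  have h5 := h3 k hk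
  have h6 : ep A k ≤ ((1 : ℝ) / 8) ^ k := by
    have h7 : ep A k ≤ Real.exp (-(3 * (k : ℝ))) := Real.exp_le_exp.2 (neg_le_neg h5)
    refine h7.trans ?_
    have h8 : Real.exp (-(3 * (k : ℝ))) = (Real.exp (-3)) ^ k := by
      rw [← Real.exp_nat_mul]
      congr 1
      ring
    rw [h8]
    refine pow_le_pow_left₀ (Real.exp_pos _).le ?_ k
    have h9 : Real.exp (-3) = (Real.exp (-1)) ^ 3 := by
      rw [← Real.exp_nat_mul]
      norm_num
    have h10 : Real.exp (-1) ≤ 1 / 2 := by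
      have := Real.exp_neg_one_lt_d9
      linarith
    rw [h9]
    calc Real.exp (-1) ^ 3 ≤ (1 / 2 : ℝ) ^ 3 := pow_le_pow_left₀ (Real.exp_pos _).le h10 3
      _ = 1 / 8 := by norm_num
  rw [Real.norm_of_nonneg (mul_nonneg (by positivity) (ep_pos _ _).le)]
  calc (4 : ℝ) ^ k * ep A k ≤ 4 ^ k * (1 / 8) ^ k := mul_le_mul_of_nonneg_left h6 (by positivity)
    _ = (1 / 2) ^ k := by rw [← mul_pow]; norm_num

/-- the waiting time of the scale `k + 1` divided by `2 ^ (k + 1)` -/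
def dl (S : Sys d P) (k : ℕ) : ℝ := ((PK d S.a S.A (k + 1)).Δ : ℝ) / 2 ^ (k + 1)

lemma dl_nonneg (S : Sys d P) (k : ℕ) : 0 ≤ dl S k := div_nonneg (Nat.cast_nonneg _) (by positivity)

lemma dl_le (S : Sys d P) (k : ℕ) : dl S k ≤ 66 * (3 / 4 : ℝ) ^ (k + 1) := by
  have h1 := div_bound (a := S.a) (A := S.A) (k := k + 1) S.A_big
  set r := rr S.A (k + 1) with hr
  have hr1 : 1 ≤ r := rr_pos _ _
  have h2 : (PK d S.a S.A (k + 1)).Δ ≤ 66 * r ^ (4 * S.a) := by
    have h5 : (64 * r ^ (3 * S.a) + 2) * r ^ S.a ≤ 66 * r ^ (4 * S.a) := by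
      have h6 : 1 ≤ r ^ (3 * S.a) := Nat.one_le_pow _ _ hr1
      calc (64 * r ^ (3 * S.a) + 2) * r ^ S.a ≤ (66 * r ^ (3 * S.a)) * r ^ S.a :=
            Nat.mul_le_mul_right _ (by omega)
        _ = 66 * r ^ (4 * S.a) := by ring
    exact h5
  have h3 : (r ^ (4 * S.a)) ^ 2 ≤ 2 ^ (k + 1) := by
    rw [hr, rr_pow_eq, ← pow_mul]
    refine Nat.pow_le_pow_right (by norm_num) ?_
    have : 4 * S.a * ((k + 1) / S.A) * 2 = 8 * (S.a * ((k + 1) / S.A)) := by ring
    omega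
  set x : ℝ := ((r ^ (4 * S.a) : ℕ) : ℝ) with hx
  have h4 : x ^ 2 ≤ 2 ^ (k + 1) := by
    rw [hx]
    exact_mod_cast h3
  have h5 : x / 2 ^ (k + 1) ≤ (3 / 4 : ℝ) ^ (k + 1) := by
    refine le_of_sq_le_sq ?_ (by positivity)
    calc (x / 2 ^ (k + 1)) ^ 2 = x ^ 2 / (2 ^ (k + 1)) ^ 2 := div_pow _ _ _
      _ ≤ 2 ^ (k + 1) / (2 ^ (k + 1)) ^ 2 := by gcongr
      _ = (1 / 2) ^ (k + 1) := by
          rw [sq, ← div_div, div_self (by positivity), one_div, one_div, inv_pow]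
      _ ≤ (9 / 16) ^ (k + 1) := pow_le_pow_left₀ (by norm_num) (by norm_num) _
      _ = ((3 / 4 : ℝ) ^ (k + 1)) ^ 2 := by rw [← pow_mul, mul_comm, pow_mul]; norm_num
  have h6 : ((PK d S.a S.A (k + 1)).Δ : ℝ) ≤ 66 * x := by
    rw [hx]
    exact_mod_cast h2
  unfold dl
  calc ((PK d S.a S.A (k + 1)).Δ : ℝ) / 2 ^ (k + 1) ≤ 66 * x / 2 ^ (k + 1) := by gcongr
    _ = 66 * (x / 2 ^ (k + 1)) := by ring
    _ ≤ _ := by gcongr

lemma dl_le' (S : Sys d P) (k : ℕ) : dl S k ≤ 66 := by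
  refine (dl_le S k).trans ?_
  have : (3 / 4 : ℝ) ^ (k + 1) ≤ 1 := pow_le_one₀ (by norm_num) (by norm_num)
  linarith

lemma dl_summable (S : Sys d P) : Summable (dl S) := by
  have h1 : Summable (fun k : ℕ => ((3 : ℝ) / 4) ^ k) :=
    summable_geometric_of_lt_one (by norm_num) (by norm_num)
  have h2 : Summable (fun k : ℕ => 66 * ((3 : ℝ) / 4) ^ (k + 1)) :=
    ((summable_nat_add_iff 1).2 h1).mul_left 66
  exact Summable.of_nonneg_of_le (dl_nonneg S) (dl_le S) h2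

variable [IsProbabilityMeasure P]

/-- Chebyshev inequality for the truncated duration -/
lemma cheb (S : Sys d P) {k : ℕ} (hk : S.k0 ≤ k) (u : Fin d → ℝ) :
    0 ≤ m2 S k u - m1 S k u ^ 2 ∧ ∀ δ : ℝ, 0 < δ →
      (P {ω | δ < |((min ((S.E k ω).blk (PK d S.a S.A k) u (2 ^ k) 0 (kp S.a S.A k)).1 ((2 ^ k) ^ 2) : ℕ) : ℝ) -
        m1 S k u|}).toReal * δ ^ 2 ≤ m2 S k u - m1 S k u ^ 2 := by
  set Q := QK P S.E S.a S.A k u (2 ^ k) with hQdef
  set f : ℕ × Pos d → ℝ := fun y => ((min y.1 ((2 ^ k) ^ 2) : ℕ) : ℝ) with hf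
  set T : ℝ := (((2 ^ k) ^ 2 : ℕ) : ℝ) with hT
  have hf0 : ∀ y, 0 ≤ f y := fun y => Nat.cast_nonneg _
  have hfT : ∀ y, f y ≤ T := fun y => by
    have : min y.1 ((2 ^ k) ^ 2) ≤ (2 ^ k) ^ 2 := min_le_right _ _
    exact Nat.cast_le.2 this
  have hQ := S.tsumQ k hk u (2 ^ k)
  have hfin : ∀ y, Q y ≠ ∞ := QK_ne_top S hk u _
  have hP : Summable (fun y => (Q y).toReal) := ENNReal.summable_toReal (by rw [hQ]; simp)
  have hP1 : ∑' y, (Q y).toReal = 1 := by
    rw [← ENNReal.tsum_toReal_eq hfin, hQ, ENNReal.toReal_one]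
  have hPf : Summable (fun y => (Q y).toReal * f y) := by
    refine Summable.of_norm_bounded (hP.mul_right T) fun y => ?_
    rw [Real.norm_of_nonneg (mul_nonneg ENNReal.toReal_nonneg (hf0 y))]
    exact mul_le_mul_of_nonneg_left (hfT y) ENNReal.toReal_nonneg
  have hPf2 : Summable (fun y => (Q y).toReal * f y ^ 2) := by
    refine Summable.of_norm_bounded (hP.mul_right (T ^ 2)) fun y => ?_
    rw [Real.norm_of_nonneg (mul_nonneg ENNReal.toReal_nonneg (sq_nonneg _))]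
    exact mul_le_mul_of_nonneg_left (pow_le_pow_left₀ (hf0 y) (hfT y) 2) ENNReal.toReal_nonneg
  have e1 : ∑' y, (Q y).toReal * f y = m1 S k u := by
    unfold m1 M1
    rw [ENNReal.tsum_toReal_eq]
    · refine tsum_congr fun y => ?_
      rw [ENNReal.toReal_mul, ENNReal.toReal_natCast]
    · intro y
      exact ENNReal.mul_ne_top (hfin y) (ENNReal.natCast_ne_top _)
  have e2 : ∑' y, (Q y).toReal * f y ^ 2 = m2 S k u := by
    unfold m2 M2
    rw [ENNReal.tsum_toReal_eq]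
    · refine tsum_congr fun y => ?_
      rw [ENNReal.toReal_mul, ENNReal.toReal_natCast]
      congr 1
      simp only [hf]
      push_cast
      rfl
    · intro y
      exact ENNReal.mul_ne_top (hfin y) (ENNReal.natCast_ne_top _)
  set μ := m1 S k u with hμ
  have h1 : ∀ y, (Q y).toReal * (f y - μ) ^ 2 =
      (Q y).toReal * f y ^ 2 + (Q y).toReal * f y * (-2 * μ) + (Q y).toReal * μ ^ 2 :=
    fun y => by ring
  have hs : Summable (fun y => (Q y).toReal * (f y - μ) ^ 2) := by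
    simp only [h1]
    exact (hPf2.add (hPf.mul_right _)).add (hP.mul_right _)
  have e3 : ∑' y, (Q y).toReal * (f y - μ) ^ 2 = m2 S k u - μ ^ 2 := by
    simp only [h1]
    rw [(hPf2.add (hPf.mul_right _)).tsum_add (hP.mul_right _), hPf2.tsum_add (hPf.mul_right _),
      tsum_mul_right, tsum_mul_right, hP1, e1, e2]
    ring
  constructor
  · rw [← e3]
    exact tsum_nonneg fun y => mul_nonneg ENNReal.toReal_nonneg (sq_nonneg _)
  · intro δ hδ
    have h2 := tailQ S hk u (2 ^ k) (fun y => δ < |f y - μ|)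
    have h3 : P {ω | δ < |((min ((S.E k ω).blk (PK d S.a S.A k) u (2 ^ k) 0 (kp S.a S.A k)).1
        ((2 ^ k) ^ 2) : ℕ) : ℝ) - μ|} = ∑' y, Q y * ind (δ < |f y - μ|) := h2
    have hi : ∀ p : Prop, (ind p).toReal ≤ 1 ∧ ind p ≠ ⊤ := by
      intro p
      by_cases hp : p
      · rw [ind_true hp]; simp
      · rw [ind_false hp]; simp
    rw [h3, ENNReal.tsum_toReal_eq (fun y => ENNReal.mul_ne_top (hfin y) (hi _).2), ← e3,
      ← tsum_mul_right]
    refine Summable.tsum_le_tsum (fun y => ?_) ?_ hs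
    · rw [ENNReal.toReal_mul, mul_assoc]
      refine mul_le_mul_of_nonneg_left ?_ ENNReal.toReal_nonneg
      by_cases hp : δ < |f y - μ|
      · rw [ind_true hp, ENNReal.toReal_one, one_mul, ← sq_abs (f y - μ)]
        exact pow_le_pow_left₀ hδ.le hp.le 2
      · rw [ind_false hp, ENNReal.toReal_zero, zero_mul]
        exact sq_nonneg _
    · refine Summable.of_nonneg_of_le (fun y => mul_nonneg ENNReal.toReal_nonneg (sq_nonneg _))
        (fun y => ?_) (hP.mul_right (δ ^ 2))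
      rw [ENNReal.toReal_mul]
      refine mul_le_mul_of_nonneg_right ?_ (sq_nonneg _)
      exact mul_le_of_le_one_right ENNReal.toReal_nonneg (hi _).1

/-- level is at most the norm -/
lemma lev_le_nrm (u : Fin d → ℝ) (hu : ∑ j, u j ^ 2 = 1) (v : Pos d) : lev u v ≤ nrm v := by
  unfold lev nrm
  refine Real.le_sqrt_of_sq_le ?_
  have h := Finset.sum_mul_sq_le_sq_mul_sq Finset.univ u (fun j => (v j : ℝ))
  rwa [hu, one_mul] at h

omit [IsProbabilityMeasure P] in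
/-- facts on the block of size `2 ^ k` at the origin -/
lemma facts0 (S : Sys d P) {k : ℕ} (hk0 : S.k0 ≤ k) (hk : 15 ≤ k) (u : Fin d → ℝ)
    (hu : ∑ j, u j ^ 2 = 1) (E : Env d) (hg : GoodK S.a S.A S.Cv k E) :
    BlockFacts E (PK d S.a S.A k) u (rr S.A k) S.Cv (2 ^ k) (2 ^ k) 0 (kp S.a S.A k) ∧
      E.bh (PK d S.a S.A k) u (2 ^ k) 0 (kp S.a S.A k) ≤ (2 ^ k) ^ 2 := by
  have hs := rr_small S.A_big (a := S.a) (A := S.A) hk
  set r := rr S.A k with hr
  have hr1 : 1 ≤ r := rr_pos _ _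
  have hrp : ∀ b ≤ 7 * S.a, 66 * r ^ b ≤ 2 ^ k := fun b hb =>
    (Nat.mul_le_mul_left _ ((Nat.pow_le_pow_right hr1 hb).trans
      (Nat.pow_le_pow_left (rr_mono (Nat.le_succ k)) _))).trans hs
  have h7 : r ^ (7 * S.a) ≤ 2 ^ k := by have := hrp _ le_rfl; omega
  have hpa : 66 * r ^ S.a ≤ 2 ^ k := hrp _ (by omega)
  have hp2 : 66 * r ^ (2 * S.a) ≤ 2 ^ k := hrp _ (by omega)
  have hp3 : 66 * r ^ (3 * S.a) ≤ 2 ^ k := hrp _ (by omega)
  have hf := S.facts k hk0 E hg u hu (2 ^ k) h7 (Nat.le_mul_of_pos_left _ hr1) 0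
    (kp S.a S.A k) le_rfl (by
    have g0 : kp S.a S.A k = r ^ S.a := rfl
    have g1 : 2 ^ k ≤ 2 ^ k * 2 ^ k := Nat.le_mul_of_pos_left _ (by positivity)
    have g2 : 66 * (r ^ (2 * S.a) * 2 ^ k) ≤ 2 ^ k * 2 ^ k := by
      rw [← mul_assoc]
      exact Nat.mul_le_mul_right _ hp2
    rw [g0, sq]
    show r ^ S.a + r ^ (2 * S.a) * 2 ^ k ≤ 2 ^ k * 2 ^ k
    omega)
  refine ⟨hf, ?_⟩
  have h5 := hf.h_ub
  have hκ : (PK d S.a S.A k).κ = r ^ S.a := rfl
  have hmg : (PK d S.a S.A k).mg = r ^ (3 * S.a) := rfl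
  have h6 : (E.bh (PK d S.a S.A k) u (2 ^ k) 0 (kp S.a S.A k) : ℝ) ≤
      ((4 * (PK d S.a S.A k).κ * (2 ^ k + 2 * (PK d S.a S.A k).mg) : ℕ) : ℝ) := by
    push_cast
    push_cast at h5
    exact h5
  have h7 : E.bh (PK d S.a S.A k) u (2 ^ k) 0 (kp S.a S.A k) ≤
    4 * (PK d S.a S.A k).κ * (2 ^ k + 2 * (PK d S.a S.A k).mg) := by exact_mod_cast h6
  refine h7.trans ?_
  rw [hκ, hmg, sq]
  calc 4 * r ^ S.a * (2 ^ k + 2 * r ^ (3 * S.a)) ≤ 4 * r ^ S.a * (3 * 2 ^ k) :=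
        Nat.mul_le_mul_left _ (by omega)
    _ = (12 * r ^ S.a) * 2 ^ k := by ring
    _ ≤ 2 ^ k * 2 ^ k := Nat.mul_le_mul_right _ (by omega)

/-- lower bound of the mean -/
lemma m1_lb (S : Sys d P) {k : ℕ} (hk0 : S.k0 ≤ k) (hk : 15 ≤ k) (hkd : 2 * d + 6 ≤ k)
    (u : Fin d → ℝ) (hu : ∑ j, u j ^ 2 = 1) : 1 / (4 * (S.Cv : ℝ)) ≤ m1 S k u / 2 ^ k := by
  have hCv : (0 : ℝ) < S.Cv := by exact_mod_cast S.Cv_pos
  -- probability of the good event
  have h1 : P {ω | ¬ (2 ^ k ≤ 2 * S.Cv * ((S.E k ω).blk (PK d S.a S.A k) u (2 ^ k) 0 (kp S.a S.A k)).1)} ≤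
      err (rr S.A k) := by
    refine (measure_mono fun ω hω => ?_).trans (S.good k hk0)
    intro hg
    apply hω
    have hf := (facts0 S hk0 hk u hu _ hg).1
    have h2 := hf.x_lev
    have h3 := lev_le_nrm u hu ((S.E k ω).bx (PK d S.a S.A k) u (2 ^ k) 0 (kp S.a S.A k))
    have h4 := hf.x_nrm
    have h5 : 4 * (d * (PK d S.a S.A k).κ) ≤ 2 ^ k := by
      have h6 : (PK d S.a S.A k).κ ≤ 2 ^ (k / 2) := ZP.Rows.S5.kp_le_half S.a S.A k S.A_big
      have h7 : d ≤ 2 ^ d := Nat.lt_two_pow_self.le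
      calc 4 * (d * (PK d S.a S.A k).κ) ≤ 2 ^ 2 * (2 ^ d * 2 ^ (k / 2)) :=
            Nat.mul_le_mul (by norm_num) (Nat.mul_le_mul h7 h6)
        _ = 2 ^ (2 + (d + k / 2)) := by rw [pow_add, pow_add]
        _ ≤ 2 ^ k := Nat.pow_le_pow_right (by norm_num) (by omega)
    have h6 : 4 * ((d : ℝ) * (PK d S.a S.A k).κ) ≤ 2 ^ k := by exact_mod_cast h5
    have h7 : ((2 ^ k : ℕ) : ℝ) ≤ S.Cv * ((S.E k ω).bh (PK d S.a S.A k) u (2 ^ k) 0 (kp S.a S.A k) : ℝ) +
        2 * d * (PK d S.a S.A k).κ := h2.trans (h3.trans h4)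
    push_cast at h7
    have h8 : (2 : ℝ) ^ k ≤ 2 * S.Cv * ((S.E k ω).bh (PK d S.a S.A k) u (2 ^ k) 0 (kp S.a S.A k) : ℝ) := by
      linarith
    have h9 : 2 ^ k ≤ 2 * S.Cv * (S.E k ω).bh (PK d S.a S.A k) u (2 ^ k) 0 (kp S.a S.A k) := by exact_mod_cast h8
    exact h9
  have h2 : (1 : ℝ≥0∞) ≤
      P {ω | 2 ^ k ≤ 2 * S.Cv * ((S.E k ω).blk (PK d S.a S.A k) u (2 ^ k) 0 (kp S.a S.A k)).1} +
        err (rr S.A k) := by
    refine le_trans ?_ (add_le_add le_rfl h1)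
    rw [← measure_univ (μ := P)]
    refine (measure_mono (fun ω _ => ?_)).trans (measure_union_le _ _)
    by_cases h : 2 ^ k ≤ 2 * S.Cv * ((S.E k ω).blk (PK d S.a S.A k) u (2 ^ k) 0 (kp S.a S.A k)).1
    · exact Or.inl h
    · exact Or.inr h
  rw [tailQ S hk0 u (2 ^ k) (fun y => 2 ^ k ≤ 2 * S.Cv * y.1)] at h2
  have h3 : (2 : ℝ≥0∞) ^ k * ∑' y, QK P S.E S.a S.A k u (2 ^ k) y * ind (2 ^ k ≤ 2 * S.Cv * y.1) ≤
      2 * S.Cv * M1 S k u := by
    unfold M1
    rw [← ENNReal.tsum_mul_left, ← ENNReal.tsum_mul_left]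
    refine ENNReal.tsum_le_tsum fun y => ?_
    by_cases h : 2 ^ k ≤ 2 * S.Cv * y.1
    · rw [ind_true h, mul_one]
      have h4 : 2 ^ k ≤ 2 * S.Cv * min y.1 ((2 ^ k) ^ 2) := by
        rcases le_total y.1 ((2 ^ k) ^ 2) with h5 | h5
        · rw [min_eq_left h5]
          exact h
        · rw [min_eq_right h5, sq, ← mul_assoc]
          exact Nat.le_mul_of_pos_left _ (by have := S.Cv_pos; positivity)
      have h5 : (2 : ℝ≥0∞) ^ k ≤ 2 * S.Cv * ((min y.1 ((2 ^ k) ^ 2) : ℕ) : ℝ≥0∞) := by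
        exact_mod_cast h4
      calc (2 : ℝ≥0∞) ^ k * QK P S.E S.a S.A k u (2 ^ k) y ≤
          (2 * S.Cv * ((min y.1 ((2 ^ k) ^ 2) : ℕ) : ℝ≥0∞)) * QK P S.E S.a S.A k u (2 ^ k) y :=
            mul_le_mul_left h5 _
        _ = _ := by ring
    · rw [ind_false h, mul_zero, mul_zero]
      exact zero_le
  set X := ∑' y, QK P S.E S.a S.A k u (2 ^ k) y * ind (2 ^ k ≤ 2 * S.Cv * y.1) with hX
  have t1 : M1 S k u ≠ ⊤ := ne_top_of_le_ne_top (by finiteness) (M1_le S hk0 u)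
  have t2 : X ≠ ⊤ := by
    refine ne_top_of_le_ne_top ENNReal.one_ne_top ?_
    rw [← S.tsumQ k hk0 u (2 ^ k)]
    refine ENNReal.tsum_le_tsum fun y => ?_
    by_cases h : 2 ^ k ≤ 2 * S.Cv * y.1
    · rw [ind_true h, mul_one]
    · rw [ind_false h, mul_zero]
      exact zero_le
  rw [err_eq] at h2
  have hx : ((Real.toNNReal (ep S.A k) : ℝ≥0) : ℝ) = ep S.A k := Real.coe_toNNReal _ (ep_pos _ _).le
  have hh := ep_half S.A k
  rw [← hx] at hh
  unfold m1
  generalize Real.toNNReal (ep S.A k) = e at *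
  clear_value X
  lift M1 S k u to ℝ≥0 using t1 with x
  lift X to ℝ≥0 using t2 with y
  have g1 : (1 : ℝ) ≤ y + e := by exact_mod_cast h2
  have g2 : (2 : ℝ) ^ k * y ≤ 2 * S.Cv * x := by exact_mod_cast h3
  simp only [ENNReal.coe_toReal]
  rw [div_le_div_iff₀ (by positivity) (by positivity)]
  have h2k : (0 : ℝ) < 2 ^ k := by positivity
  nlinarith

end ZP.S3

namespace ZP.S3

open ZP

variable {d : ℕ} {Ω : Type} [MeasurableSpace Ω] {P : Measure Ω}

lemma Chain1.mono {S : Sys d P} {k k' : ℕ} (h : Chain1 S k) (hk : k ≤ k') : Chain1 S k' :=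
  fun j hj => h j (hk.trans hj)

lemma Scale1.mono {S : Sys d P} {k k' : ℕ} (h : Scale1 S k) (hk : k ≤ k') : Scale1 S k' :=
  fun j hj => h j (hk.trans hj)

/-- the first error sequence -/
def e0 (S : Sys d P) (k : ℕ) : ℝ := dl S k + 9 * (4 ^ k * ep S.A k)

/-- the second error sequence -/
def e1 (S : Sys d P) (C0 : ℝ) (k : ℕ) : ℝ := (67 + 2 * C0) * dl S k + 700 * (4 ^ k * ep S.A k)

lemma A_pos (S : Sys d P) : 0 < S.A := by
  have h1 := S.A_big
  have h2 := S.a_big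
  omega

lemma e0_nonneg (S : Sys d P) (k : ℕ) : 0 ≤ e0 S k := by
  have h1 := dl_nonneg S k
  have h2 := ep_pos S.A k
  unfold e0
  positivity

lemma e1_nonneg (S : Sys d P) {C0 : ℝ} (hC : 0 ≤ C0) (k : ℕ) : 0 ≤ e1 S C0 k := by
  have h1 := dl_nonneg S k
  have h2 := ep_pos S.A k
  unfold e1
  positivity

lemma e0_summable (S : Sys d P) : Summable (e0 S) :=
  (dl_summable S).add ((ep_summable S.A (A_pos S)).mul_left 9)

lemma e1_summable (S : Sys d P) (C0 : ℝ) : Summable (e1 S C0) :=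
  ((dl_summable S).mul_left _).add ((ep_summable S.A (A_pos S)).mul_left 700)

lemma shift_summable {f : ℕ → ℝ} (h : Summable f) (K : ℕ) : Summable (fun j => f (K + j)) := by
  have := (summable_nat_add_iff K).2 h
  simpa [add_comm] using this

variable [IsProbabilityMeasure P]

/-- first recursion -/
lemma rec_a (S : Sys d P) {k1 k : ℕ} (hS1 : Chain1 S k1) (hS2 : Scale1 S k1) (hk0 : S.k0 ≤ k)
    (hk1 : k1 ≤ k) (hk : 15 ≤ k) (hkd : d ≤ 2 ^ (k / 4)) (u : Fin d → ℝ) (hu : ∑ j, u j ^ 2 = 1) :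
    m1 S (k + 1) u / 2 ^ (k + 1) ≤ m1 S k u / 2 ^ k + e0 S k := by
  have h := (rec_real S hS1 hS2 hk0 hk1 hk hkd u hu).1
  have h2 : (0 : ℝ) < 2 ^ k := by positivity
  have h3 : (1 : ℝ) ≤ 2 ^ k := one_le_pow₀ (by norm_num)
  have h4 := ep_pos S.A k
  have h5 : (4 : ℝ) ^ k * ep S.A k ≤ 2 ^ k * (4 ^ k * ep S.A k) :=
    le_mul_of_one_le_left (by positivity) h3
  have h6 : ((PK d S.a S.A (k + 1)).Δ : ℝ) = dl S k * 2 ^ (k + 1) := by
    unfold dl
    field_simp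
  rw [div_le_iff₀ (by positivity)]
  calc m1 S (k + 1) u ≤ 2 * m1 S k u + (PK d S.a S.A (k + 1)).Δ + 18 * 4 ^ k * ep S.A k := h
    _ ≤ 2 * m1 S k u + dl S k * 2 ^ (k + 1) + 18 * (2 ^ k * (4 ^ k * ep S.A k)) := by
        rw [h6]
        linarith
    _ = (m1 S k u / 2 ^ k + e0 S k) * 2 ^ (k + 1) := by
        unfold e0
        field_simp
        ring

/-- second recursion -/
lemma rec_v (S : Sys d P) {k1 k : ℕ} (hS1 : Chain1 S k1) (hS2 : Scale1 S k1) (hk0 : S.k0 ≤ k)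
    (hk1 : k1 ≤ k) (hk : 15 ≤ k) (hkd : d ≤ 2 ^ (k / 4)) (u : Fin d → ℝ) (hu : ∑ j, u j ^ 2 = 1) (C0 : ℝ)
    (hC : m1 S k u / 2 ^ k ≤ C0) :
    m2 S (k + 1) u / 4 ^ (k + 1) ≤
      (m2 S k u / 4 ^ k - (m1 S k u / 2 ^ k) ^ 2) / 2 + (m1 S k u / 2 ^ k) ^ 2 + e1 S C0 k := by
  have h := (rec_real S hS1 hS2 hk0 hk1 hk hkd u hu).2
  have h2 : (0 : ℝ) < 2 ^ k := by positivity
  have hq : (1 : ℝ) ≤ 2 ^ k := one_le_pow₀ (by norm_num)
  have hε := ep_pos S.A k
  have hε2 := ep_half S.A k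
  have hD := dl_nonneg S k
  have hD2 := dl_le' S k
  have h6 : ((PK d S.a S.A (k + 1)).Δ : ℝ) = dl S k * (2 * 2 ^ k) := by
    unfold dl
    rw [pow_succ]
    field_simp
  have p1 : (4 : ℝ) ^ k = (2 ^ k) ^ 2 := by rw [← pow_mul, mul_comm, pow_mul]; norm_num
  have p2 : (16 : ℝ) ^ k = (2 ^ k) ^ 4 := by
    rw [show (16 : ℝ) = 2 ^ 4 by norm_num, ← pow_mul, ← pow_mul, mul_comm]
  have p3 : (4 : ℝ) ^ (k + 1) = 4 * (2 ^ k) ^ 2 := by rw [pow_succ, p1]; ring
  have hm1 := m1_le S hk0 u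
  have hm0 := m1_nonneg S k u
  rw [h6, p2] at h
  unfold e1
  rw [p1] at h hm1 ⊢
  rw [p3]
  set q : ℝ := 2 ^ k with hqdef
  set ε := ep S.A k with hεdef
  set D := dl S k with hDdef
  set A := m1 S k u / q with hA
  set B := m2 S k u / q ^ 2 with hB
  have e1' : m1 S k u = A * q := by rw [hA]; field_simp
  have e2' : m2 S k u = B * q ^ 2 := by rw [hB]; field_simp
  have hA0 : 0 ≤ A := div_nonneg hm0 h2.le
  have hAq : A ≤ q := by
    rw [hA, div_le_iff₀ h2]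
    nlinarith
  rw [e1', e2'] at h
  rw [div_le_iff₀ (by positivity)]
  have t1 : q ^ 2 * ε ≥ q * ε := by
    have : q * ε ≤ q * (q * ε) := le_mul_of_one_le_left (by positivity) hq
    linarith
  have t2 : A * q * ε ≤ q ^ 2 * ε := by
    have : A * q ≤ q * q := mul_le_mul_of_nonneg_right hAq h2.le
    nlinarith
  have t3 : q ^ 2 * ε ^ 2 ≤ q ^ 2 * ε * (1 / 2) := by
    have : q ^ 2 * ε * ε ≤ q ^ 2 * ε * (1 / 2) := mul_le_mul_of_nonneg_left hε2 (by positivity)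
    linarith
  have t4 : D * (q * ε) ≤ 66 * (q ^ 2 * ε) :=
    mul_le_mul hD2 t1 (by positivity) (by norm_num)
  have t5 : D * A ≤ D * C0 := mul_le_mul_of_nonneg_left hC hD
  have t6 : D ^ 2 ≤ 66 * D := by nlinarith
  have key : (21 / 2 : ℝ) * (q ^ 2 * ε) + B / 2 + (A ^ 2 + 10 * (A * q * ε) + 25 * (q ^ 2 * ε ^ 2)) / 2 +
      2 * (D * A) + 10 * (D * (q * ε)) + D ^ 2 ≤
      (B - A ^ 2) / 2 + A ^ 2 + ((67 + 2 * C0) * D + 700 * (q ^ 2 * ε)) := by
    have h0 : 0 ≤ q ^ 2 * ε := by positivity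
    linarith
  have key2 := mul_le_mul_of_nonneg_right key (show (0 : ℝ) ≤ 4 * q ^ 2 by positivity)
  refine le_trans (le_trans h (le_of_eq ?_)) key2
  ring

/-- the speeds exist, from the statements of S1 and S2 -/
theorem gamma_exists_of (S : Sys d P) (h1 : ∃ k1 ≥ S.k0, Chain1 S k1)
    (h2 : ∃ k1 ≥ S.k0, Scale1 S k1) :
    ∃ (γ : (Fin d → ℝ) → ℝ) (c C : ℝ), IsGamma S γ c C := by
  obtain ⟨k1, hk1, hS1⟩ := h1
  obtain ⟨k2, -, hS2⟩ := h2
  set K := max (max k1 k2) (max 15 (4 * d + 6)) with hK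
  have hKk1 : k1 ≤ K := (le_max_left _ _).trans (le_max_left _ _)
  have hKk2 : k2 ≤ K := (le_max_right _ _).trans (le_max_left _ _)
  have hK15 : 15 ≤ K := (le_max_left _ _).trans (le_max_right _ _)
  have hKd : 4 * d + 6 ≤ K := (le_max_right _ _).trans (le_max_right _ _)
  have hdK : ∀ k, K ≤ k → d ≤ 2 ^ (k / 4) := fun k hk =>
    Nat.lt_two_pow_self.le.trans (Nat.pow_le_pow_right (by norm_num) (by omega))
  have hK0 : S.k0 ≤ K := le_trans hk1 hKk1
  have hC1 : Chain1 S K := hS1.mono hKk1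
  have hC2 : Scale1 S K := hS2.mono hKk2
  have hs0 := shift_summable (e0_summable S) K
  set C0 : ℝ := 2 ^ K + ∑' j, e0 S (K + j) with hC0
  have hC0nn : 0 ≤ C0 := add_nonneg (by positivity) (tsum_nonneg fun j => e0_nonneg S _)
  have hs1 := shift_summable (e1_summable S C0) K
  -- bound of the means
  have ha0 : ∀ u : Fin d → ℝ, m1 S K u / 2 ^ K ≤ 2 ^ K := by
    intro u
    rw [div_le_iff₀ (by positivity)]
    refine (m1_le S hK0 u).trans (le_of_eq ?_)
    rw [← mul_pow]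
    norm_num
  have haC : ∀ u : Fin d → ℝ, ∑ j, u j ^ 2 = 1 → ∀ j, m1 S (K + j) u / 2 ^ (K + j) ≤ C0 := by
    intro u hu j
    have h3 : ∀ j, m1 S (K + j) u / 2 ^ (K + j) ≤
        m1 S K u / 2 ^ K + ∑ i ∈ Finset.range j, e0 S (K + i) := by
      intro j
      induction j with
      | zero => simp
      | succ j ih =>
        rw [Finset.sum_range_succ]
        have h4 := rec_a S hC1 hC2 (k := K + j) (by omega) (by omega) (by omega) (hdK _ (by omega)) u hu
        have h5 : m1 S (K + (j + 1)) u / 2 ^ (K + (j + 1)) ≤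
          m1 S (K + j) u / 2 ^ (K + j) + e0 S (K + j) := h4
        linarith
    refine (h3 j).trans (add_le_add (ha0 u) ?_)
    exact hs0.sum_le_tsum _ fun i _ => e0_nonneg S _
  -- the recursion
  have hrec : ∀ u : Fin d → ℝ, ∑ j, u j ^ 2 = 1 → ∃ γ : ℝ,
      Filter.Tendsto (fun j => m1 S (K + j) u / 2 ^ (K + j)) Filter.atTop (𝓝 γ) ∧
      γ ≤ 2 ^ K + ∑' j, e1 S C0 (K + j) ∧
      Summable (fun j => m2 S (K + j) u / 4 ^ (K + j) - (m1 S (K + j) u / 2 ^ (K + j)) ^ 2) := by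
    intro u hu
    obtain ⟨⟨γ, hγ1, hγ2⟩, hv⟩ := ZI.Rows.recursion (fun j => m1 S (K + j) u / 2 ^ (K + j))
      (fun j => m2 S (K + j) u / 4 ^ (K + j) - (m1 S (K + j) u / 2 ^ (K + j)) ^ 2)
      (fun j => e1 S C0 (K + j)) (fun j => div_nonneg (m1_nonneg S _ u) (by positivity))
      (fun j => by
        have h3 := (cheb S (k := K + j) (by omega) u).1
        have h4 : m2 S (K + j) u / 4 ^ (K + j) - (m1 S (K + j) u / 2 ^ (K + j)) ^ 2 =
            (m2 S (K + j) u - m1 S (K + j) u ^ 2) / 4 ^ (K + j) := by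
          rw [div_pow, ← pow_mul, mul_comm (K + j) 2, pow_mul, show (2 : ℝ) ^ 2 = 4 by norm_num,
            sub_div]
        rw [h4]
        exact div_nonneg h3 (by positivity))
      (fun j => e1_nonneg S hC0nn _) hs1
      (fun j => by
        have h4 := rec_a S hC1 hC2 (k := K + j) (by omega) (by omega) (by omega) (hdK _ (by omega)) u hu
        refine h4.trans (add_le_add le_rfl ?_)
        have h5 := dl_nonneg S (K + j)
        have h6 := ep_pos S.A (K + j)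
        have h7 : 0 ≤ (4 : ℝ) ^ (K + j) * ep S.A (K + j) := by positivity
        have h8 : 0 ≤ C0 * dl S (K + j) := mul_nonneg hC0nn h5
        unfold e0 e1
        nlinarith)
      (fun j => by
        have h4 := rec_v S hC1 hC2 (k := K + j) (by omega) (by omega) (by omega) (hdK _ (by omega)) u hu C0
          (haC u hu j)
        have h5 : m2 S (K + (j + 1)) u / 4 ^ (K + (j + 1)) ≤
          (m2 S (K + j) u / 4 ^ (K + j) - (m1 S (K + j) u / 2 ^ (K + j)) ^ 2) / 2 +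
          (m1 S (K + j) u / 2 ^ (K + j)) ^ 2 + e1 S C0 (K + j) := h4
        linarith)
    refine ⟨γ, hγ1, ?_, hv⟩
    have h3 := hγ2 0
    simp only [zero_add, add_zero] at h3
    exact h3.trans (add_le_add (ha0 u) le_rfl)
  choose! γ hγ1 hγ2 hγ3 using hrec
  refine ⟨γ, 1 / (4 * (S.Cv : ℝ)), 2 ^ K + ∑' j, e1 S C0 (K + j), ?_, ?_, ?_, ?_, ?_⟩
  · have : (0 : ℝ) < S.Cv := by exact_mod_cast S.Cv_pos
    positivity
  · intro u hu
    refine ge_of_tendsto (hγ1 u hu) (Filter.Eventually.of_forall fun j => ?_)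
    exact m1_lb S (by omega) (by omega) (by omega) u hu
  · intro u hu
    exact hγ2 u hu
  · intro u hu
    have h3 := hγ1 u hu
    rw [← Filter.tendsto_add_atTop_iff_nat K]
    refine h3.congr fun j => ?_
    rw [add_comm j K, mu_eq S (by omega) u]
  · intro u hu ε hε
    set γu := γ u with hγu
    -- the tail of the sum
    have h3 : ∀ᶠ j in Filter.atTop, |m1 S (K + j) u / 2 ^ (K + j) - γu| < ε / 2 := by
      have := (hγ1 u hu).eventually (Metric.ball_mem_nhds γu (half_pos hε))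
      filter_upwards [this] with j hj
      rwa [Real.dist_eq] at hj
    obtain ⟨J, hJ⟩ := Filter.eventually_atTop.1 h3
    set v : ℕ → ℝ := fun j => m2 S (K + j) u / 4 ^ (K + j) - (m1 S (K + j) u / 2 ^ (K + j)) ^ 2
      with hv
    have h4 : ∀ j, J ≤ j → P {ω | ε < |((S.E (K + j) ω).bh (PK d S.a S.A (K + j)) u
        (2 ^ (K + j)) 0 (kp S.a S.A (K + j)) : ℝ) / 2 ^ (K + j) - γu|} ≤
        ENNReal.ofReal (ep S.A (K + j) + v j * (4 / ε ^ 2)) := by
      intro j hj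
      set k := K + j with hk
      have h5 : {ω | ε < |((S.E k ω).bh (PK d S.a S.A k) u (2 ^ k) 0 (kp S.a S.A k) : ℝ) / 2 ^ k - γu|} ⊆
          {ω | ¬ GoodK S.a S.A S.Cv k (S.E k ω)} ∪
          {ω | ε / 2 * 2 ^ k < |((min ((S.E k ω).blk (PK d S.a S.A k) u (2 ^ k) 0 (kp S.a S.A k)).1
            ((2 ^ k) ^ 2) : ℕ) : ℝ) - m1 S k u|} := by
        intro ω hω
        by_cases hg : GoodK S.a S.A S.Cv k (S.E k ω)
        swap
        · exact Or.inl hg
        right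
        have h6 := (facts0 S (k := k) (by omega) (by omega) u hu _ hg).2
        have h7 : min ((S.E k ω).blk (PK d S.a S.A k) u (2 ^ k) 0 (kp S.a S.A k)).1 ((2 ^ k) ^ 2) =
          (S.E k ω).bh (PK d S.a S.A k) u (2 ^ k) 0 (kp S.a S.A k) := min_eq_left h6
        show ε / 2 * 2 ^ k < _
        rw [h7]
        set h := (S.E k ω).bh (PK d S.a S.A k) u (2 ^ k) 0 (kp S.a S.A k) with hh
        have h8 : ε < |(h : ℝ) / 2 ^ k - γu| := hω
        have h9 := hJ j hj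
        have h10 : |(h : ℝ) / 2 ^ k - γu| ≤ |(h : ℝ) / 2 ^ k - m1 S k u / 2 ^ k| +
          |m1 S k u / 2 ^ k - γu| := abs_sub_le _ _ _
        have h11 : ε / 2 < |(h : ℝ) / 2 ^ k - m1 S k u / 2 ^ k| := by linarith
        rw [← sub_div, abs_div, abs_of_pos (show (0 : ℝ) < 2 ^ k by positivity),
          lt_div_iff₀ (by positivity)] at h11
        exact h11
      have h6 := (cheb S (k := k) (by omega) u).2 (ε / 2 * 2 ^ k) (by positivity)
      have h7 : P {ω | ε / 2 * 2 ^ k < |((min ((S.E k ω).blk (PK d S.a S.A k) u (2 ^ k) 0 (kp S.a S.A k)).1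
            ((2 ^ k) ^ 2) : ℕ) : ℝ) - m1 S k u|} ≤ ENNReal.ofReal (v j * (4 / ε ^ 2)) := by
        refine (ENNReal.le_ofReal_iff_toReal_le (measure_ne_top _ _) ?_).2 ?_
        · refine mul_nonneg ?_ (by positivity)
          have h3 := (cheb S (k := K + j) (by omega) u).1
          have h4 : m2 S (K + j) u / 4 ^ (K + j) - (m1 S (K + j) u / 2 ^ (K + j)) ^ 2 =
              (m2 S (K + j) u - m1 S (K + j) u ^ 2) / 4 ^ (K + j) := by
            rw [div_pow, ← pow_mul, mul_comm (K + j) 2, pow_mul, show (2 : ℝ) ^ 2 = 4 by norm_num,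
              sub_div]
          show 0 ≤ m2 S (K + j) u / 4 ^ (K + j) - (m1 S (K + j) u / 2 ^ (K + j)) ^ 2
          rw [h4]
          exact div_nonneg h3 (by positivity)
        · have h8 : v j * (4 / ε ^ 2) = (m2 S k u - m1 S k u ^ 2) / (ε / 2 * 2 ^ k) ^ 2 := by
            show (m2 S k u / 4 ^ k - (m1 S k u / 2 ^ k) ^ 2) * (4 / ε ^ 2) = _
            have p1 : (4 : ℝ) ^ k = (2 ^ k) ^ 2 := by
              rw [← pow_mul, mul_comm, pow_mul]
              norm_num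
            rw [p1]
            field_simp
            ring
          rw [h8, le_div_iff₀ (by positivity)]
          exact h6
      calc _ ≤ P _ := measure_mono h5
        _ ≤ err (rr S.A k) + ENNReal.ofReal (v j * (4 / ε ^ 2)) :=
            (measure_union_le _ _).trans (add_le_add (S.good k (by omega)) h7)
        _ ≤ _ := by
            have h8 : err (rr S.A k) = ENNReal.ofReal (ep S.A k) := rfl
            rw [h8, ← ENNReal.ofReal_add (ep_pos _ _).le]
            refine mul_nonneg ?_ (by positivity)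
            have h3 := (cheb S (k := K + j) (by omega) u).1
            have h4 : m2 S (K + j) u / 4 ^ (K + j) - (m1 S (K + j) u / 2 ^ (K + j)) ^ 2 =
                (m2 S (K + j) u - m1 S (K + j) u ^ 2) / 4 ^ (K + j) := by
              rw [div_pow, ← pow_mul, mul_comm (K + j) 2, pow_mul, show (2 : ℝ) ^ 2 = 4 by norm_num,
                sub_div]
            show 0 ≤ m2 S (K + j) u / 4 ^ (K + j) - (m1 S (K + j) u / 2 ^ (K + j)) ^ 2
            rw [h4]
            exact div_nonneg h3 (by positivity)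
    have hsum : Summable (fun j => ep S.A (K + j) + v j * (4 / ε ^ 2)) := by
      refine Summable.add ?_ ((hγ3 u hu).mul_right _)
      refine Summable.of_nonneg_of_le (fun j => (ep_pos _ _).le) (fun j => ?_)
        (shift_summable (ep_summable S.A (A_pos S)) K)
      exact le_mul_of_one_le_left (ep_pos _ _).le (one_le_pow₀ (by norm_num))
    -- split the sum
    set f : ℕ → ℝ≥0∞ := fun k => P {ω | ε < |((S.E k ω).bh (PK d S.a S.A k) u
        (2 ^ k) 0 (kp S.a S.A k) : ℝ) / 2 ^ k - γu|} with hf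
    have h5 : ∑' k, f k = ∑ i ∈ Finset.range (K + J), f i + ∑' k, f (k + (K + J)) :=
      (Summable.sum_add_tsum_nat_add' (ENNReal.summable)).symm
    show ∑' k, f k ≠ ⊤
    rw [h5]
    refine ENNReal.add_ne_top.2 ⟨?_, ?_⟩
    · exact ENNReal.sum_ne_top.2 fun i _ => measure_ne_top _ _
    · have h6 : ∑' k, f (k + (K + J)) ≤
          ∑' k, ENNReal.ofReal (ep S.A (K + (k + J)) + v (k + J) * (4 / ε ^ 2)) := by
        refine ENNReal.tsum_le_tsum fun k => ?_
        have h7 := h4 (k + J) (by omega)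
        have h8 : k + (K + J) = K + (k + J) := by ring
        rw [h8]
        exact h7
      refine ne_top_of_le_ne_top ?_ h6
      have h7 : Summable (fun k => ep S.A (K + (k + J)) + v (k + J) * (4 / ε ^ 2)) :=
        (summable_nat_add_iff J).2 hsum
      exact h7.tsum_ofReal_ne_top

end ZP.S3

namespace ZP.Rows

open ZP

variable {d : ℕ} {Ω : Type} [MeasurableSpace Ω] {P : Measure Ω}

theorem gamma_exists [IsProbabilityMeasure P] (S : Sys d P) :
    ∃ (γ : (Fin d → ℝ) → ℝ) (c C : ℝ), IsGamma S γ c C :=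
  ZP.S3.gamma_exists_of S (bh_chain S) (bh_scale S)

end ZP.Rows
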