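import Pool.Agent.ZP.Aux79
import Pool.Agent.ZI.S3a

/-! # Row S3 (with recovery), first part: the two recursive inequalities for the moments -/

set_option autoImplicit false

open scoped ENNReal NNReal BigOperators Classical
open MeasureTheory

noncomputable section

namespace ZP.S3

open ZP

export ZI.S3 (ind ind_true ind_false law_eq sum_ind layer compare prod_fac prod_one prod_two)

variable {d : ℕ} {Ω : Type} [MeasurableSpace Ω] {P : Measure Ω}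

/-- the statement of row S1 -/
def Chain1 (S : Sys d P) (k1 : ℕ) : Prop := ∀ k ≥ k1, ∀ E : Env d, GoodK S.a S.A S.Cv k E →
    ∀ u : Fin d → ℝ, ∑ j, u j ^ 2 = 1 → ∀ ms : List ℕ, ms ≠ [] →
    (∀ m ∈ ms, rr S.A k ^ (7 * S.a) ≤ m) → ms.sum ≤ rr S.A k * 2 ^ k → ∀ (z : Pos d) (s : ℕ),
    kp S.a S.A k ≤ s → 2 * s ≤ (2 ^ k) ^ 2 →
    E.bh (PK d S.a S.A k) u ms.sum z s ≤
      ((E.chain (PK d S.a S.A k) u ms z s).map Prod.fst).sum + (ms.length - 1) * (PK d S.a S.A k).Δ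

/-- the statement of row S2 -/
def Scale1 (S : Sys d P) (k1 : ℕ) : Prop := ∀ k ≥ k1, ∀ k' ≥ k, k' ≤ 10 * k → ∀ E E' : Env d,
    GoodK S.a S.A S.Cv k E → GoodK S.a S.A S.Cv k' E' → Agree ((2 ^ k) ^ 2) E E' →
    ∀ u : Fin d → ℝ, ∑ j, u j ^ 2 = 1 → ∀ m : ℕ, rr S.A k ^ (7 * S.a) ≤ m → m ≤ rr S.A k * 2 ^ k →
    ∀ s : ℕ, kp S.a S.A k' + 4 * d * kp S.a S.A k' ^ 2 ≤ s → 4 * s ≤ (2 ^ k) ^ 2 →
    E'.bh (PK d S.a S.A k') u m 0 s ≤ E.bh (PK d S.a S.A k) u m 0 s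

/-! ### the scales -/

lemma rr_mono {A k k' : ℕ} (h : k ≤ k') : rr A k ≤ rr A k' :=
  Nat.pow_le_pow_right (by norm_num) (Nat.div_le_div_right h)

lemma rr_pos (A k : ℕ) : 1 ≤ rr A k := Nat.one_le_two_pow

lemma err_anti {r r' : ℕ} (h : r ≤ r') : err r' ≤ err r := by
  unfold err
  refine ENNReal.ofReal_le_ofReal (Real.exp_le_exp.2 (neg_le_neg (Real.sqrt_le_sqrt ?_)))
  exact_mod_cast h

lemma div_bound {a A k : ℕ} (hA : 1000 * a ≤ A) : 1000 * (a * (k / A)) ≤ k := by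
  calc 1000 * (a * (k / A)) = 1000 * a * (k / A) := by ring
    _ ≤ A * (k / A) := Nat.mul_le_mul_right _ hA
    _ ≤ k := Nat.mul_div_le k A

lemma rr_pow_eq (A k b : ℕ) : rr A k ^ b = 2 ^ (b * (k / A)) := by
  unfold rr
  rw [← pow_mul, mul_comm]

/-- all the powers that occur are small -/
lemma rr_small {a A k : ℕ} (hA : 1000 * a ≤ A) (hk : 15 ≤ k) :
    66 * rr A (k + 1) ^ (7 * a) ≤ 2 ^ k := by
  have h1 := div_bound (k := k + 1) hA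
  rw [rr_pow_eq]
  calc 66 * 2 ^ (7 * a * ((k + 1) / A)) ≤ 2 ^ 7 * 2 ^ (7 * a * ((k + 1) / A)) :=
        Nat.mul_le_mul_right _ (by norm_num)
    _ = 2 ^ (7 + 7 * a * ((k + 1) / A)) := (pow_add _ _ _).symm
    _ ≤ 2 ^ k := by
        refine Nat.pow_le_pow_right (by norm_num) ?_
        have : 7 * a * ((k + 1) / A) = 7 * (a * ((k + 1) / A)) := by ring
        omega

variable [IsProbabilityMeasure P]

/-- the law of the block variable -/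
lemma tailQ (S : Sys d P) {k : ℕ} (hk : S.k0 ≤ k) (u : Fin d → ℝ) (m : ℕ)
    (G : ℕ × Pos d → Prop) :
    P {ω | G ((S.E k ω).blk (PK d S.a S.A k) u m 0 (kp S.a S.A k))} =
      ∑' y, QK P S.E S.a S.A k u m y * ind (G y) :=
  law_eq (fun ω => (S.E k ω).blk (PK d S.a S.A k) u m 0 (kp S.a S.A k)) (S.tsumQ k hk u m) G

/-- two blocks instead of one -/
lemma rec_step (S : Sys d P) {k1 k : ℕ} (hS : Chain1 S k1) (hk0 : S.k0 ≤ k) (hk1 : k1 ≤ k)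
    (hk : 15 ≤ k) (u : Fin d → ℝ) (hu : ∑ j, u j ^ 2 = 1) (φ : ℕ → ℕ) (hφ : Monotone φ) :
    ∑' y, QK P S.E S.a S.A (k + 1) u (2 ^ (k + 1)) y *
        ((φ (min y.1 ((2 ^ (k + 1)) ^ 2)) : ℕ) : ℝ≥0∞) ≤
      ((φ ((2 ^ (k + 1)) ^ 2) : ℕ) : ℝ≥0∞) * (2 * err (rr S.A k)) +
      ∑' y : (ℕ × Pos d) × (ℕ × Pos d), QK P S.E S.a S.A (k + 1) u (2 ^ k) y.1 *
        QK P S.E S.a S.A (k + 1) u (2 ^ k) y.2 *
        ((φ (min y.1.1 ((2 ^ k) ^ 2) + min y.2.1 ((2 ^ k) ^ 2) + (PK d S.a S.A (k + 1)).Δ) : ℕ) :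
          ℝ≥0∞) := by
  refine compare (q := QK P S.E S.a S.A (k + 1) u (2 ^ (k + 1)))
    (q' := fun y : (ℕ × Pos d) × (ℕ × Pos d) => QK P S.E S.a S.A (k + 1) u (2 ^ k) y.1 *
        QK P S.E S.a S.A (k + 1) u (2 ^ k) y.2) (F := fun y => φ (min y.1 ((2 ^ (k + 1)) ^ 2)))
    (F' := fun y => φ (min y.1.1 ((2 ^ k) ^ 2) + min y.2.1 ((2 ^ k) ^ 2) +
      (PK d S.a S.A (k + 1)).Δ)) (M := φ ((2 ^ (k + 1)) ^ 2)) (fun y => hφ (min_le_right _ _))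
      (2 * err (rr S.A k)) fun t _ => ?_
  have hs := rr_small S.A_big (a := S.a) (A := S.A) hk
  set r := rr S.A (k + 1) with hr
  have hr1 : 1 ≤ r := rr_pos _ _
  have hrp : ∀ b ≤ 7 * S.a, 66 * r ^ b ≤ 2 ^ k := fun b hb =>
    (Nat.mul_le_mul_left _ (Nat.pow_le_pow_right hr1 hb)).trans hs
  have h7 : r ^ (7 * S.a) ≤ 2 ^ k := by have := hrp _ le_rfl; omega
  set ms : List ℕ := [2 ^ k, 2 ^ k] with hms
  have hsum : ms.sum = 2 ^ (k + 1) := by simp [hms, pow_succ]; ring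
  have hm : ∀ m ∈ ms, r ^ (7 * S.a) ≤ m := by
    intro m hm
    simp only [hms, List.mem_cons, List.not_mem_nil, or_false, or_self] at hm
    rw [hm]
    exact h7
  have hle : ms.sum ≤ r * 2 ^ (k + 1) := by
    rw [hsum]
    exact Nat.le_mul_of_pos_left _ hr1
  set T : ℕ := (2 ^ k) ^ 2 with hT
  set G : List (ℕ × Pos d) → Prop := fun l =>
    t < φ ((l.map (fun y => min y.1 T)).sum + (PK d S.a S.A (k + 1)).Δ) with hG
  have hk2' : 0 < 2 ^ k := by positivity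
  have hkp2 : 2 * kp S.a S.A (k + 1) ≤ (2 ^ (k + 1)) ^ 2 := by
    have h8 : 66 * r ^ S.a ≤ 2 ^ k := hrp _ (by omega)
    have h9 : 66 * kp S.a S.A (k + 1) ≤ 2 ^ k := h8
    have h10 : (2 ^ (k + 1)) ^ 2 = 4 * (2 ^ k * 2 ^ k) := by rw [pow_succ (n := k)]; ring
    have h11 : 2 ^ k ≤ 2 ^ k * 2 ^ k := Nat.le_mul_of_pos_left _ hk2'
    omega
  have h1 := S.chain (k + 1) (by omega) u hu ms hm hle 0 (kp S.a S.A (k + 1)) le_rfl hkp2 G
  have h2 := tailQ S (k := k + 1) (by omega) u (2 ^ (k + 1))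
    (fun y => t < φ (min y.1 ((2 ^ (k + 1)) ^ 2)))
  rw [← h2]
  -- the deterministic inclusion
  have h3 : {ω | t < φ (min ((S.E (k + 1) ω).blk (PK d S.a S.A (k + 1)) u (2 ^ (k + 1)) 0 (kp S.a S.A (k + 1))).1
      ((2 ^ (k + 1)) ^ 2))} ⊆ {ω | ¬ GoodK S.a S.A S.Cv (k + 1) (S.E (k + 1) ω)} ∪
      {ω | G ((S.E (k + 1) ω).chain (PK d S.a S.A (k + 1)) u ms 0 (kp S.a S.A (k + 1)))} := by
    intro ω hω
    by_cases hg : GoodK S.a S.A S.Cv (k + 1) (S.E (k + 1) ω)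
    swap
    · exact Or.inl hg
    right
    have h4 := hS (k + 1) (by omega) (S.E (k + 1) ω) hg u hu ms (by simp [hms]) hm hle 0
      (kp S.a S.A (k + 1)) le_rfl hkp2
    rw [hsum] at h4
    set E := S.E (k + 1) ω with hE
    set p := PK d S.a S.A (k + 1) with hp
    have hκ : p.κ = r ^ S.a := rfl
    have hmg : p.mg = r ^ (3 * S.a) := rfl
    have hΔ : p.Δ = (64 * r ^ (3 * S.a) + 2) * r ^ S.a := rfl
    have hT0 : T = 2 ^ k * 2 ^ k := by rw [hT]; ring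
    have hT1 : (2 ^ (k + 1)) ^ 2 = 4 * T := by rw [hT]; ring
    have hk2 : 0 < 2 ^ k := by positivity
    have hpa : 66 * r ^ S.a ≤ 2 ^ k := hrp _ (by omega)
    have hp2 : 66 * r ^ (2 * S.a) ≤ 2 ^ k := hrp _ (by omega)
    have hp3 : 66 * r ^ (3 * S.a) ≤ 2 ^ k := hrp _ (by omega)
    have hp4 : 66 * r ^ (4 * S.a) ≤ 2 ^ k := hrp _ (by omega)
    have hΔ' : p.Δ + kp S.a S.A (k + 1) ≤ T := by
      have h7a : 66 * kp S.a S.A (k + 1) ≤ 2 ^ k := hpa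
      have h7b : p.Δ ≤ 2 ^ k := by
        rw [hΔ]
        have h5 : (64 * r ^ (3 * S.a) + 2) * r ^ S.a ≤ 66 * r ^ (4 * S.a) := by
          have h6 : 1 ≤ r ^ (3 * S.a) := Nat.one_le_pow _ _ hr1
          calc (64 * r ^ (3 * S.a) + 2) * r ^ S.a ≤ (66 * r ^ (3 * S.a)) * r ^ S.a :=
                Nat.mul_le_mul_right _ (by omega)
            _ = 66 * r ^ (4 * S.a) := by ring
        exact h5.trans hp4
      have h7c : 2 * 2 ^ k ≤ 2 ^ k * 2 ^ k := by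
        refine Nat.mul_le_mul_right _ ?_
        calc 2 = 2 ^ 1 := rfl
          _ ≤ 2 ^ k := Nat.pow_le_pow_right (by norm_num) (by omega)
      rw [hT0]
      omega
    have hb2 : r ^ (2 * S.a) * 2 ^ k ≤ T := by
      rw [hT0]
      exact Nat.mul_le_mul_right _ (by omega)
    have hh : ∀ (z : Pos d) (s : ℕ), kp S.a S.A (k + 1) ≤ s → s ≤ 2 * T →
        E.bh p u (2 ^ k) z s ≤ T := by
      intro z s hs0 hs
      have hf := S.facts (k + 1) (by omega) E hg u hu (2 ^ k) h7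
        (by rw [pow_succ]; nlinarith [hr1, hk2]) z s hs0 (by rw [hT1]; show s + r ^ (2 * S.a) * 2 ^ k ≤ 4 * T; omega)
      have h5 := hf.h_ub
      have h6 : (E.bh p u (2 ^ k) z s : ℝ) ≤ ((4 * p.κ * (2 ^ k + 2 * p.mg) : ℕ) : ℝ) := by
        push_cast
        push_cast at h5
        exact h5
      have h7 : E.bh p u (2 ^ k) z s ≤ 4 * p.κ * (2 ^ k + 2 * p.mg) := by exact_mod_cast h6
      refine h7.trans ?_
      rw [hκ, hmg, hT0]
      calc 4 * r ^ S.a * (2 ^ k + 2 * r ^ (3 * S.a)) ≤ 4 * r ^ S.a * (3 * 2 ^ k) :=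
            Nat.mul_le_mul_left _ (by omega)
        _ = (12 * r ^ S.a) * 2 ^ k := by ring
        _ ≤ 2 ^ k * 2 ^ k := Nat.mul_le_mul_right _ (by omega)
    set κ0 := kp S.a S.A (k + 1) with hκ0
    have e1 : E.chain p u ms 0 κ0 = [E.blk p u (2 ^ k) 0 κ0,
        E.blk p u (2 ^ k) (0 + (E.blk p u (2 ^ k) 0 κ0).2 + v0 p u)
          (κ0 + (E.blk p u (2 ^ k) 0 κ0).1 + p.Δ)] := rfl
    have g1 := hh 0 κ0 le_rfl (by omega)
    have g2 := hh (0 + (E.blk p u (2 ^ k) 0 κ0).2 + v0 p u)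
      (κ0 + (E.blk p u (2 ^ k) 0 κ0).1 + p.Δ) (by omega) (by
        have : (E.blk p u (2 ^ k) 0 κ0).1 = E.bh p u (2 ^ k) 0 κ0 := rfl
        rw [this]
        omega)
    rw [e1] at h4
    show G (E.chain p u ms 0 κ0)
    rw [hG, e1]
    show t < φ _
    refine lt_of_lt_of_le hω (hφ ?_)
    refine (min_le_left _ _).trans ?_
    refine le_trans (show (E.blk p u (2 ^ (k + 1)) 0 (kp S.a S.A (k + 1))).1 ≤ _ from h4) ?_
    simp only [List.map_cons, List.map_nil, List.sum_cons, List.sum_nil, hms, List.length_cons,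
      List.length_nil]
    have g1' : min (E.blk p u (2 ^ k) 0 κ0).1 T = (E.blk p u (2 ^ k) 0 κ0).1 := min_eq_left g1
    have g2' : min (E.blk p u (2 ^ k) (0 + (E.blk p u (2 ^ k) 0 κ0).2 + v0 p u)
          (κ0 + (E.blk p u (2 ^ k) 0 κ0).1 + p.Δ)).1 T = (E.blk p u (2 ^ k)
          (0 + (E.blk p u (2 ^ k) 0 κ0).2 + v0 p u) (κ0 + (E.blk p u (2 ^ k) 0 κ0).1 + p.Δ)).1 :=
      min_eq_left g2
    rw [g1', g2']
    omega
  have herr : err r ≤ err (rr S.A k) := err_anti (rr_mono (Nat.le_succ k))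
  have h5 : prodQ (QK P S.E S.a S.A (k + 1) u) ms G =
      ∑' y : (ℕ × Pos d) × (ℕ × Pos d), QK P S.E S.a S.A (k + 1) u (2 ^ k) y.1 *
        QK P S.E S.a S.A (k + 1) u (2 ^ k) y.2 *
        ind (t < φ (min y.1.1 T + min y.2.1 T + (PK d S.a S.A (k + 1)).Δ)) := by
    rw [ENNReal.tsum_prod']
    show ∑' y, QK P S.E S.a S.A (k + 1) u (2 ^ k) y *
      ∑' z, QK P S.E S.a S.A (k + 1) u (2 ^ k) z * ind (G [y, z]) = _
    refine tsum_congr fun y => ?_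
    rw [← ENNReal.tsum_mul_left]
    refine tsum_congr fun z => ?_
    rw [← mul_assoc]
    congr 2
  calc P {ω | t < φ (min ((S.E (k + 1) ω).blk (PK d S.a S.A (k + 1)) u (2 ^ (k + 1)) 0 (kp S.a S.A (k + 1))).1
      ((2 ^ (k + 1)) ^ 2))} ≤ P _ := measure_mono h3
    _ ≤ err r + (prodQ (QK P S.E S.a S.A (k + 1) u) ms G + err r) :=
        (measure_union_le _ _).trans (add_le_add (S.good (k + 1) (by omega)) h1)
    _ ≤ err (rr S.A k) + (prodQ (QK P S.E S.a S.A (k + 1) u) ms G + err (rr S.A k)) := by gcongr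
    _ = _ := by rw [h5]; ring

omit [IsProbabilityMeasure P] in
/-- the waiting time needed for the comparison of the scales `k` and `k + 1` is small -/
lemma wait_small (S : Sys d P) {k : ℕ} (hk : 15 ≤ k) (hkd : d ≤ 2 ^ (k / 4)) :
    4 * (kp S.a S.A (k + 1) + 4 * d * kp S.a S.A (k + 1) ^ 2) ≤ (2 ^ k) ^ 2 := by
  have hs := rr_small S.A_big (a := S.a) (A := S.A) hk
  set r := rr S.A (k + 1) with hr
  have hr1 : 1 ≤ r := rr_pos _ _
  have hrp : ∀ b ≤ 7 * S.a, 66 * r ^ b ≤ 2 ^ k := fun b hb =>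
    (Nat.mul_le_mul_left _ (Nat.pow_le_pow_right hr1 hb)).trans hs
  have e1 : kp S.a S.A (k + 1) = r ^ S.a := rfl
  have e2 : kp S.a S.A (k + 1) ^ 2 = r ^ (2 * S.a) := by rw [e1, ← pow_mul, mul_comm]
  have h1 := hrp S.a (by omega)
  have h2 := hrp (2 * S.a) (by omega)
  rw [e2, e1]
  have h3 : d ≤ 2 ^ k := hkd.trans (Nat.pow_le_pow_right (by norm_num) (Nat.div_le_self _ _))
  have h4 : 66 * (d * r ^ (2 * S.a)) ≤ 2 ^ k * 2 ^ k := by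
    calc 66 * (d * r ^ (2 * S.a)) = d * (66 * r ^ (2 * S.a)) := by ring
      _ ≤ 2 ^ k * 2 ^ k := Nat.mul_le_mul h3 h2
  have h5 : 2 ^ k ≤ 2 ^ k * 2 ^ k := Nat.le_mul_of_pos_left _ (by positivity)
  have h6 : (2 ^ k) ^ 2 = 2 ^ k * 2 ^ k := sq _
  have h7 : 4 * (r ^ S.a + 4 * d * r ^ (2 * S.a)) = 4 * r ^ S.a + 16 * (d * r ^ (2 * S.a)) := by ring
  rw [h6, h7]
  omega

/-- the product law of one block -/
lemma prodQ_one (Q : ℕ → (ℕ × Pos d) → ℝ≥0∞) (m : ℕ) (G : List (ℕ × Pos d) → Prop) :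
    prodQ Q [m] G = ∑' y, Q m y * ind (G [y]) := rfl

/-- comparison of the scales -/
lemma scale_step (S : Sys d P) {k1 k : ℕ} (hS : Scale1 S k1) (hk0 : S.k0 ≤ k) (hk1 : k1 ≤ k)
    (hk : 15 ≤ k) (hkd : d ≤ 2 ^ (k / 4)) (u : Fin d → ℝ) (hu : ∑ j, u j ^ 2 = 1) (φ : ℕ → ℕ)
    (hφ : Monotone φ) :
    ∑' y, QK P S.E S.a S.A (k + 1) u (2 ^ k) y * ((φ (min y.1 ((2 ^ k) ^ 2)) : ℕ) : ℝ≥0∞) ≤
      ((φ ((2 ^ k) ^ 2) : ℕ) : ℝ≥0∞) * (5 * err (rr S.A k)) +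
      ∑' y, QK P S.E S.a S.A k u (2 ^ k) y * ((φ (min y.1 ((2 ^ k) ^ 2)) : ℕ) : ℝ≥0∞) := by
  refine compare (q := QK P S.E S.a S.A (k + 1) u (2 ^ k))
    (q' := QK P S.E S.a S.A k u (2 ^ k)) (F := fun y => φ (min y.1 ((2 ^ k) ^ 2)))
    (F' := fun y => φ (min y.1 ((2 ^ k) ^ 2))) (M := φ ((2 ^ k) ^ 2)) (fun y => hφ (min_le_right _ _))
      (5 * err (rr S.A k)) fun t _ => ?_
  set G : List (ℕ × Pos d) → Prop := fun l => t < φ (min (l.map Prod.fst).sum ((2 ^ k) ^ 2)) with hG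
  have hG1 : ∀ y : ℕ × Pos d, G [y] = (t < φ (min y.1 ((2 ^ k) ^ 2))) := fun y => by
    simp only [hG, List.map_cons, List.map_nil, List.sum_cons, List.sum_nil, add_zero]
  have hw := wait_small S hk hkd
  set s := kp S.a S.A (k + 1) + 4 * d * kp S.a S.A (k + 1) ^ 2 with hs'
  have hs := rr_small S.A_big (a := S.a) (A := S.A) hk
  have h7' : rr S.A (k + 1) ^ (7 * S.a) ≤ 2 ^ k := by omega
  have h7 : rr S.A k ^ (7 * S.a) ≤ 2 ^ k := by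
    have : rr S.A k ^ (7 * S.a) ≤ rr S.A (k + 1) ^ (7 * S.a) :=
      Nat.pow_le_pow_left (rr_mono (Nat.le_succ k)) _
    omega
  have hkk : kp S.a S.A k ≤ kp S.a S.A (k + 1) := Nat.pow_le_pow_left (rr_mono (Nat.le_succ k)) _
  have hkN : 2 * s ≤ (2 ^ k) ^ 2 := by omega
  have hNN : (2 ^ k) ^ 2 ≤ (2 ^ (k + 1)) ^ 2 :=
    Nat.pow_le_pow_left (Nat.pow_le_pow_right (by norm_num) (Nat.le_succ k)) 2
  have e1 : ∑' y, QK P S.E S.a S.A (k + 1) u (2 ^ k) y * ind (t < φ (min y.1 ((2 ^ k) ^ 2))) =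
      prodQ (QK P S.E S.a S.A (k + 1) u) [2 ^ k] G := by
    rw [prodQ_one]
    exact tsum_congr fun y => by rw [hG1]
  have e2 : ∑' y, QK P S.E S.a S.A k u (2 ^ k) y * ind (t < φ (min y.1 ((2 ^ k) ^ 2))) =
      prodQ (QK P S.E S.a S.A k u) [2 ^ k] G := by
    rw [prodQ_one]
    exact tsum_congr fun y => by rw [hG1]
  rw [e1, e2]
  have a1 := ZP.Rows.S5.chain_rev S (k + 1) (by omega) u hu [2 ^ k] (by
      intro m hm
      rw [List.mem_singleton] at hm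
      rw [hm]
      exact h7') (by
      rw [List.sum_singleton]
      calc 2 ^ k ≤ 2 ^ (k + 1) := Nat.pow_le_pow_right (by norm_num) (Nat.le_succ k)
        _ ≤ _ := Nat.le_mul_of_pos_left _ (rr_pos _ _)) 0 s (by omega) (by omega) G
  have a2 := S.chain k hk0 u hu [2 ^ k] (by
      intro m hm
      rw [List.mem_singleton] at hm
      rw [hm]
      exact h7) (by
      rw [List.sum_singleton]
      exact Nat.le_mul_of_pos_left _ (rr_pos _ _)) 0 s (by omega) hkN G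
  have h3 : {ω | G ((S.E (k + 1) ω).chain (PK d S.a S.A (k + 1)) u [2 ^ k] 0 s)} ⊆
      ({ω | ¬ GoodK S.a S.A S.Cv (k + 1) (S.E (k + 1) ω)} ∪
      {ω | ¬ GoodK S.a S.A S.Cv k (S.E k ω)} ∪
      {ω | ¬ Agree ((2 ^ k) ^ 2) (S.E k ω) (S.E (k + 1) ω)}) ∪
      {ω | G ((S.E k ω).chain (PK d S.a S.A k) u [2 ^ k] 0 s)} := by
    intro ω hω
    by_cases hg : GoodK S.a S.A S.Cv (k + 1) (S.E (k + 1) ω)
    swap
    · exact Or.inl (Or.inl (Or.inl hg))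
    by_cases hg' : GoodK S.a S.A S.Cv k (S.E k ω)
    swap
    · exact Or.inl (Or.inl (Or.inr hg'))
    by_cases ha : Agree ((2 ^ k) ^ 2) (S.E k ω) (S.E (k + 1) ω)
    swap
    · exact Or.inl (Or.inr ha)
    right
    have h4 := hS k hk1 (k + 1) (by omega) (by omega) _ _ hg' hg ha u hu (2 ^ k) h7
      (Nat.le_mul_of_pos_left _ (rr_pos _ _)) s le_rfl hw
    have c1 : (S.E (k + 1) ω).chain (PK d S.a S.A (k + 1)) u [2 ^ k] 0 s =
      [(S.E (k + 1) ω).blk (PK d S.a S.A (k + 1)) u (2 ^ k) 0 s] := rfl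
    have c2 : (S.E k ω).chain (PK d S.a S.A k) u [2 ^ k] 0 s =
      [(S.E k ω).blk (PK d S.a S.A k) u (2 ^ k) 0 s] := rfl
    have hω' : G ((S.E (k + 1) ω).chain (PK d S.a S.A (k + 1)) u [2 ^ k] 0 s) := hω
    show G ((S.E k ω).chain (PK d S.a S.A k) u [2 ^ k] 0 s)
    rw [c1, hG1] at hω'
    rw [c2, hG1]
    refine lt_of_lt_of_le hω' (hφ ?_)
    exact min_le_min h4 le_rfl
  have herr : err (rr S.A (k + 1)) ≤ err (rr S.A k) := err_anti (rr_mono (Nat.le_succ k))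
  calc _ ≤ P {ω | G ((S.E (k + 1) ω).chain (PK d S.a S.A (k + 1)) u [2 ^ k] 0 s)} +
        err (rr S.A (k + 1)) := a1
    _ ≤ ((err (rr S.A (k + 1)) + err (rr S.A k) + err (rr S.A k)) +
        (prodQ (QK P S.E S.a S.A k u) [2 ^ k] G + err (rr S.A k))) + err (rr S.A (k + 1)) := by
        refine add_le_add ?_ le_rfl
        refine (measure_mono h3).trans ?_
        refine (measure_union_le _ _).trans (add_le_add ?_ a2)
        refine (measure_union_le _ _).trans (add_le_add ?_ (S.agree k hk0 (k + 1) (by omega)))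
        exact (measure_union_le _ _).trans (add_le_add (S.good (k + 1) (by omega)) (S.good k hk0))
    _ ≤ ((err (rr S.A k) + err (rr S.A k) + err (rr S.A k)) +
        (prodQ (QK P S.E S.a S.A k u) [2 ^ k] G + err (rr S.A k))) + err (rr S.A k) := by gcongr
    _ = _ := by ring

end ZP.S3

namespace ZP.S3

open ZP

variable {d : ℕ} {Ω : Type} [MeasurableSpace Ω] {P : Measure Ω}

/-- the error of the scale `k` as a real number -/
def ep (A k : ℕ) : ℝ := Real.exp (-Real.sqrt (rr A k : ℝ))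

lemma err_eq (A k : ℕ) : err (rr A k) = ((Real.toNNReal (ep A k) : ℝ≥0) : ℝ≥0∞) := rfl

lemma ep_pos (A k : ℕ) : 0 < ep A k := Real.exp_pos _

lemma ep_half (A k : ℕ) : ep A k ≤ 1 / 2 := by
  have h1 : (1 : ℝ) ≤ Real.sqrt (rr A k : ℝ) := by
    rw [Real.one_le_sqrt]
    exact_mod_cast rr_pos A k
  have h2 : ep A k ≤ Real.exp (-1) := Real.exp_le_exp.2 (by linarith)
  have h3 := Real.exp_neg_one_lt_d9
  unfold ep at *
  linarith

/-- the truncated first moment -/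
def M1 (S : Sys d P) (k : ℕ) (u : Fin d → ℝ) : ℝ≥0∞ :=
  ∑' y, QK P S.E S.a S.A k u (2 ^ k) y * ((min y.1 ((2 ^ k) ^ 2) : ℕ) : ℝ≥0∞)

/-- the truncated second moment -/
def M2 (S : Sys d P) (k : ℕ) (u : Fin d → ℝ) : ℝ≥0∞ :=
  ∑' y, QK P S.E S.a S.A k u (2 ^ k) y * (((min y.1 ((2 ^ k) ^ 2)) ^ 2 : ℕ) : ℝ≥0∞)

lemma M1_le (S : Sys d P) {k : ℕ} (hk : S.k0 ≤ k) (u : Fin d → ℝ) : M1 S k u ≤ 4 ^ k := by
  have h := S.tsumQ k hk u (2 ^ k)
  calc M1 S k u ≤ ∑' y, QK P S.E S.a S.A k u (2 ^ k) y * 4 ^ k := by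
        refine ENNReal.tsum_le_tsum fun y => mul_le_mul_right ?_ _
        have : min y.1 ((2 ^ k) ^ 2) ≤ 4 ^ k := by
          refine (min_le_right _ _).trans (le_of_eq ?_)
          rw [← pow_mul, mul_comm, pow_mul]
          norm_num
        exact_mod_cast this
    _ = 4 ^ k := by rw [ENNReal.tsum_mul_right, h, one_mul]

lemma M2_le (S : Sys d P) {k : ℕ} (hk : S.k0 ≤ k) (u : Fin d → ℝ) : M2 S k u ≤ 16 ^ k := by
  have h := S.tsumQ k hk u (2 ^ k)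
  calc M2 S k u ≤ ∑' y, QK P S.E S.a S.A k u (2 ^ k) y * 16 ^ k := by
        refine ENNReal.tsum_le_tsum fun y => mul_le_mul_right ?_ _
        have : (min y.1 ((2 ^ k) ^ 2)) ^ 2 ≤ 16 ^ k := by
          refine (Nat.pow_le_pow_left (min_le_right _ _) 2).trans (le_of_eq ?_)
          rw [← pow_mul, ← pow_mul, show (16 : ℕ) = 2 ^ 4 by norm_num, ← pow_mul]
          congr 1
          ring
        exact_mod_cast this
    _ = 16 ^ k := by rw [ENNReal.tsum_mul_right, h, one_mul]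

/-- real version of the first moment -/
def m1 (S : Sys d P) (k : ℕ) (u : Fin d → ℝ) : ℝ := (M1 S k u).toReal

/-- real version of the second moment -/
def m2 (S : Sys d P) (k : ℕ) (u : Fin d → ℝ) : ℝ := (M2 S k u).toReal

lemma QK_ne_top (S : Sys d P) {k : ℕ} (hk : S.k0 ≤ k) (u : Fin d → ℝ) (m : ℕ) (y : ℕ × Pos d) :
    QK P S.E S.a S.A k u m y ≠ ⊤ := by
  refine ne_top_of_le_ne_top ENNReal.one_ne_top ?_
  rw [← S.tsumQ k hk u m]
  exact ENNReal.le_tsum y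

lemma mu_eq (S : Sys d P) {k : ℕ} (hk : S.k0 ≤ k) (u : Fin d → ℝ) : muK S k u = m1 S k u := by
  unfold muK m1 M1
  rw [ENNReal.tsum_toReal_eq]
  · refine tsum_congr fun y => ?_
    rw [ENNReal.toReal_mul, ENNReal.toReal_natCast]
    congr 1
    push_cast
    rfl
  · intro y
    exact ENNReal.mul_ne_top (QK_ne_top S hk u _ y) (ENNReal.natCast_ne_top _)

lemma m1_nonneg (S : Sys d P) (k : ℕ) (u : Fin d → ℝ) : 0 ≤ m1 S k u := ENNReal.toReal_nonneg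

lemma m2_nonneg (S : Sys d P) (k : ℕ) (u : Fin d → ℝ) : 0 ≤ m2 S k u := ENNReal.toReal_nonneg

lemma m1_le (S : Sys d P) {k : ℕ} (hk : S.k0 ≤ k) (u : Fin d → ℝ) : m1 S k u ≤ 4 ^ k := by
  have h := ENNReal.toReal_mono (by finiteness) (M1_le S hk u)
  simpa [m1] using h

variable [IsProbabilityMeasure P]

/-- the two recursive inequalities for the moments -/
lemma rec_real (S : Sys d P) {k1 k : ℕ} (hS1 : Chain1 S k1) (hS2 : Scale1 S k1) (hk0 : S.k0 ≤ k)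
    (hk1 : k1 ≤ k) (hk : 15 ≤ k) (hkd : d ≤ 2 ^ (k / 4)) (u : Fin d → ℝ) (hu : ∑ j, u j ^ 2 = 1) :
    m1 S (k + 1) u ≤ 2 * m1 S k u + (PK d S.a S.A (k + 1)).Δ + 18 * 4 ^ k * ep S.A k ∧
    m2 S (k + 1) u ≤ 42 * 16 ^ k * ep S.A k + 2 * m2 S k u + 2 * (m1 S k u + 5 * 4 ^ k * ep S.A k) ^ 2 +
      4 * (PK d S.a S.A (k + 1)).Δ * (m1 S k u + 5 * 4 ^ k * ep S.A k) +
      ((PK d S.a S.A (k + 1)).Δ : ℝ) ^ 2 := by
  set D := (PK d S.a S.A (k + 1)).Δ with hD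
  have hq := S.tsumQ (k + 1) (by omega) u (2 ^ k)
  have a1 := rec_step S hS1 hk0 hk1 hk u hu (fun n => n) (fun _ _ h => h)
  have a2 := rec_step S hS1 hk0 hk1 hk u hu (fun n => n ^ 2) (fun _ _ h => Nat.pow_le_pow_left h 2)
  have b1 := scale_step S hS2 hk0 hk1 hk hkd u hu (fun n => n) (fun _ _ h => h)
  have b2 := scale_step S hS2 hk0 hk1 hk hkd u hu (fun n => n ^ 2) (fun _ _ h => Nat.pow_le_pow_left h 2)
  have c1 := prod_one (QK P S.E S.a S.A (k + 1) u (2 ^ k)) hq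
    (fun y => ((min y.1 ((2 ^ k) ^ 2) : ℕ) : ℝ≥0∞)) (D : ℝ≥0∞)
  have c2 := prod_two (QK P S.E S.a S.A (k + 1) u (2 ^ k)) hq
    (fun y => ((min y.1 ((2 ^ k) ^ 2) : ℕ) : ℝ≥0∞)) (D : ℝ≥0∞)
  simp only [Nat.cast_add, Nat.cast_pow] at a1 a2 b1 b2 c1 c2
  rw [c1] at a1
  rw [c2] at a2
  set E1 := ∑' y, QK P S.E S.a S.A (k + 1) u (2 ^ k) y * ((min y.1 ((2 ^ k) ^ 2) : ℕ) : ℝ≥0∞)
    with hE1
  set E2 := ∑' y, QK P S.E S.a S.A (k + 1) u (2 ^ k) y * ((min y.1 ((2 ^ k) ^ 2) : ℕ) : ℝ≥0∞) ^ 2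
    with hE2
  have hM1 : M1 S (k + 1) u ≤ (((2 : ℕ) : ℝ≥0∞) ^ (k + 1)) ^ 2 * (2 * err (rr S.A k)) + (2 * E1 + D) := a1
  have hM2 : M2 S (k + 1) u ≤ ((((2 : ℕ) : ℝ≥0∞) ^ (k + 1)) ^ 2) ^ 2 * (2 * err (rr S.A k)) +
      (2 * E2 + 2 * E1 ^ 2 + 4 * D * E1 + (D : ℝ≥0∞) ^ 2) := by
    refine le_trans (le_of_eq ?_) a2
    unfold M2
    simp only [Nat.cast_pow]
  have hN1 : E1 ≤ (((2 : ℕ) : ℝ≥0∞) ^ k) ^ 2 * (5 * err (rr S.A k)) + M1 S k u := b1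
  have hN2 : E2 ≤ ((((2 : ℕ) : ℝ≥0∞) ^ k) ^ 2) ^ 2 * (5 * err (rr S.A k)) + M2 S k u := by
    refine b2.trans (le_of_eq ?_)
    unfold M2
    simp only [Nat.cast_pow]
  rw [err_eq] at hM1 hM2 hN1 hN2
  have t1 : M1 S k u ≠ ⊤ := ne_top_of_le_ne_top (by finiteness) (M1_le S hk0 u)
  have t2 : M2 S k u ≠ ⊤ := ne_top_of_le_ne_top (by finiteness) (M2_le S hk0 u)
  have t3 : M1 S (k + 1) u ≠ ⊤ := ne_top_of_le_ne_top (by finiteness) (M1_le S (by omega) u)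
  have t4 : M2 S (k + 1) u ≠ ⊤ := ne_top_of_le_ne_top (by finiteness) (M2_le S (by omega) u)
  have t5 : E1 ≠ ⊤ := ne_top_of_le_ne_top (by finiteness) hN1
  have t6 : E2 ≠ ⊤ := ne_top_of_le_ne_top (by finiteness) hN2
  have hx : ((Real.toNNReal (ep S.A k) : ℝ≥0) : ℝ) = ep S.A k := Real.coe_toNNReal _ (ep_pos _ _).le
  unfold m1 m2
  generalize Real.toNNReal (ep S.A k) = e at *
  lift M1 S k u to ℝ≥0 using t1 with x1
  lift M2 S k u to ℝ≥0 using t2 with x2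
  lift M1 S (k + 1) u to ℝ≥0 using t3 with x3
  lift M2 S (k + 1) u to ℝ≥0 using t4 with x4
  lift E1 to ℝ≥0 using t5 with y1
  lift E2 to ℝ≥0 using t6 with y2
  rw [← hx]
  have g1 : (x3 : ℝ) ≤ ((2 : ℝ) ^ (k + 1)) ^ 2 * (2 * e) + (2 * y1 + D) := by exact_mod_cast hM1
  have g2 : (x4 : ℝ) ≤ (((2 : ℝ) ^ (k + 1)) ^ 2) ^ 2 * (2 * e) +
      (2 * y2 + 2 * (y1 : ℝ) ^ 2 + 4 * D * y1 + (D : ℝ) ^ 2) := by exact_mod_cast hM2
  have g3 : (y1 : ℝ) ≤ ((2 : ℝ) ^ k) ^ 2 * (5 * e) + x1 := by exact_mod_cast hN1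
  have g4 : (y2 : ℝ) ≤ (((2 : ℝ) ^ k) ^ 2) ^ 2 * (5 * e) + x2 := by exact_mod_cast hN2
  have p1 : ((2 : ℝ) ^ k) ^ 2 = 4 ^ k := by rw [← pow_mul, mul_comm, pow_mul]; norm_num
  have p2 : ((2 : ℝ) ^ (k + 1)) ^ 2 = 4 * 4 ^ k := by rw [pow_succ (2 : ℝ) k, mul_pow, p1]; ring
  have p3 : ((4 : ℝ) ^ k) ^ 2 = 16 ^ k := by rw [← pow_mul, mul_comm, pow_mul]; norm_num
  rw [p2] at g1 g2
  rw [p1] at g3 g4
  have p4 : (4 * (4 : ℝ) ^ k) ^ 2 = 16 * 16 ^ k := by rw [mul_pow, p3]; ring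
  rw [p4] at g2
  rw [p3] at g4
  simp only [ENNReal.coe_toReal]
  have hD0 : (0 : ℝ) ≤ D := Nat.cast_nonneg _
  have hy : (y1 : ℝ) ≤ x1 + 5 * 4 ^ k * e := by linarith
  have hy0 : (0 : ℝ) ≤ y1 := y1.2
  have hy2 : (y1 : ℝ) ^ 2 ≤ (x1 + 5 * 4 ^ k * e) ^ 2 := pow_le_pow_left₀ hy0 hy 2
  have hy3 : 4 * (D : ℝ) * y1 ≤ 4 * D * (x1 + 5 * 4 ^ k * e) :=
    mul_le_mul_of_nonneg_left hy (by positivity)
  constructor
  · linarith
  · linarith

end ZP.S3
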