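import Pool.Agent.ZP.Sys2
import Pool.Agent.ZP.D0
import Pool.Agent.ZI.S6

/-! # S6, first part: one block, restricted to a tube (with recovery) -/

set_option autoImplicit false

open scoped ENNReal BigOperators Classical
open MeasureTheory

noncomputable section

namespace ZP.Rows

open ZP

variable {d : ℕ}

namespace S6

export ZI.Rows.S6 (nr nr_eq nr_nonneg nr_sq nr_add_le nr_neg nr_sub_le nr_smul dot_le nr_one nr_le_card
  abs_le_nr rv nrm_eq_nr rv_add rv_sub nrm_le_supn supn_le_of_nrm v0_err nrm_v0 lev_v0 lev_eq lev_le_nrm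
  scale_large dD mem_tube dD_add rr_pos drift exists_dir)

variable {Ω : Type} [MeasurableSpace Ω] {P : Measure Ω}

/-- the nearest `ok` position of an `ok` position is this position -/
theorem near_self (E : Env d) {κ s : ℕ} {x : Pos d} (h : E.ok κ s x) : E.near κ s x = x := by
  have hne : {v : Pos d | E.ok κ s (x + v)}.Nonempty := ⟨0, by simpa using h⟩
  rw [Env.near, dif_pos hne]
  have h0 : (0 : Pos d) ∈ {v : Pos d | E.ok κ s (x + v)} := by simpa using h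
  have h1 := Function.argminOn_le rk _ h0
  have h2 : supn (Function.argminOn rk {v : Pos d | E.ok κ s (x + v)} hne) ≤ supn (0 : Pos d) := by
    have := Prod.Lex.le_iff.1 h1
    rcases this with h | h
    · exact le_of_lt h
    · exact le_of_eq h.1
  have h3 : supn (0 : Pos d) = 0 := by simp [supn]
  rw [h3] at h2
  have h4 : Function.argminOn rk {v : Pos d | E.ok κ s (x + v)} hne = 0 := by
    funext j
    have : ((Function.argminOn rk {v : Pos d | E.ok κ s (x + v)} hne) j).natAbs ≤ 0 :=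
      (Finset.le_sup (f := fun j => ((Function.argminOn rk {v : Pos d | E.ok κ s (x + v)} hne) j).natAbs)
        (Finset.mem_univ j)).trans h2
    simpa using this
  rw [h4, add_zero]

/-- restriction to the tube of the infection during one block -/
theorem R_tube (E : Env d) {r κ Cv S Dm : ℕ} (hg : E.Good r κ Cv S Dm) {G : ℕ → Set (Pos d)}
    {x0 : Pos d} {b0 : Fin d → ℝ} {s0 s t : ℕ} {B ρ : ℝ} {x y : Pos d} (hB : nr b0 ≤ B)
    (hR : E.R G s x t y) (hst : s ≤ t) (ht : t ≤ S)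
    (hρ : nr (dD x0 b0 s0 x s) + (Cv + B) * ((t : ℝ) - s) + r ≤ ρ) :
    E.R (tube (fun j => (x0 j : ℝ)) b0 s0 ρ) s x t y := by
  have hB0 : 0 ≤ B := (nr_nonneg _).trans hB
  have hst' : (s : ℝ) ≤ t := by exact_mod_cast hst
  have h0 : 0 ≤ ((Cv : ℝ) + B) * ((t : ℝ) - s) := mul_nonneg (by positivity) (by linarith)
  have hr0 : (0 : ℝ) ≤ r := by positivity
  refine R_mono E (fun _ => Set.inter_subset_right) (R_restrict E hR (G' := tube (fun j => (x0 j : ℝ)) b0 s0 ρ)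
    ?_ ?_)
  · rw [mem_tube]
    linarith
  · intro j hj b hb
    have hv : E.vis (fun _ => Set.univ) s x (s + j + 1) b :=
      vis_mono E (fun _ => Set.subset_univ _) ⟨j, by omega, hb⟩
    have h1 := hg.g4' s (s + j + 1) x b (by omega) (by omega) hv
    rw [mem_tube]
    have h2 : b = x + (b - x) := by abel
    rw [h2, dD_add]
    have h3 : ((s + j + 1 : ℕ) : ℝ) ≤ t := by exact_mod_cast (show s + j + 1 ≤ t by omega)
    push_cast at h1 h3
    have h4 : nr (rv (b - x) - (j : ℝ) • b0) ≤ Cv * ((s : ℝ) + j + 1 - s) + r + j * B := by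
      refine (nr_sub_le _ _).trans ?_
      rw [nr_smul, abs_of_nonneg (by positivity), ← nrm_eq_nr]
      have : (j : ℝ) * nr b0 ≤ j * B := mul_le_mul_of_nonneg_left hB (by positivity)
      linarith
    refine (nr_add_le _ _).trans ?_
    have h5 : (Cv : ℝ) * ((s : ℝ) + j + 1 - s) ≤ Cv * ((t : ℝ) - s) :=
      mul_le_mul_of_nonneg_left (by linarith) (by positivity)
    have h6 : (j : ℝ) * B ≤ ((t : ℝ) - s) * B := mul_le_mul_of_nonneg_right (by linarith) hB0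
    nlinarith

/-- facts on one block -/
structure Step (E : Env d) (κ : ℕ) (u : Fin d → ℝ) (Γu Γm : ℝ) (Cv m : ℕ) (q : ℝ) (z : Pos d) (s : ℕ)
    (h Δ : ℕ) (X v : Pos d) (G : ℕ → Set (Pos d)) : Prop where
  ok : E.ok κ s (E.near κ s z)
  near : nrm (E.near κ s z - z) ≤ d * q
  R1 : E.R G s (E.near κ s z) (s + h) (z + X)
  R2 : E.R G s (E.near κ s z) (s + h + Δ) (E.near κ (s + h + Δ) (z + X + v))
  h_ub : (h : ℝ) ≤ Γu * m
  h_lb : (m : ℝ) ≤ 2 * Cv * h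
  X_nrm : nrm X ≤ Cv * h + 2 * d * q
  X_lev : (m : ℝ) ≤ lev u X
  v_nrm : nrm v ≤ (32 + d) * q
  v_lev : -(d : ℝ) * q ≤ lev u v
  Δ_ub : (Δ : ℝ) ≤ 66 * q


/-- one block, restricted to the tube -/
theorem step (S : Sys d P) {k : ℕ} (hk : S.k0 ≤ k) {E : Env d} (hE : GoodK S.a S.A S.Cv k E)
    {u : Fin d → ℝ} (hu : ∑ j, u j ^ 2 = 1) {Γu Γm : ℝ} {m : ℕ} {q : ℝ}
    (hq : q = (rr S.A k : ℝ) ^ (7 * S.a)) (b1 : 4 * d * q ≤ m) (b2 : 2 * q ≤ m)
    (b3 : 2 * (Γm + 66) ≤ 2 ^ k) (hm : m ≤ 2 ^ k) {z : Pos d} {s : ℕ} (hks : kp S.a S.A k ≤ s) (hs : 2 * s ≤ (2 ^ k) ^ 2)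
    (hb : (E.bh (PK d S.a S.A k) u m z s : ℝ) ≤ Γu * m) (hΓ : Γu ≤ Γm) {x0 : Pos d} {b0 : Fin d → ℝ}
    {s0 : ℕ} {B ρ : ℝ} (hB : nr b0 ≤ B)
    (hρ : nr (dD x0 b0 s0 z s) + d * q + (S.Cv + B) * (Γm * m + 66 * q) + q ≤ ρ) :
    ∃ (h Δ : ℕ) (X v : Pos d),
      Step E (kp S.a S.A k) u Γu Γm S.Cv m q z s h Δ X v (tube (fun j => (x0 j : ℝ)) b0 s0 ρ) := by
  set r := rr S.A k with hr
  have hr1 : 1 ≤ r := rr_pos _ _
  have hr1' : (1 : ℝ) ≤ r := by exact_mod_cast hr1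
  have hq1 : 1 ≤ q := by rw [hq]; exact one_le_pow₀ hr1'
  have ha := S.a_big
  have hrq : (r : ℝ) ≤ q := by
    rw [hq]
    calc (r : ℝ) = (r : ℝ) ^ 1 := (pow_one _).symm
      _ ≤ (r : ℝ) ^ (7 * S.a) := pow_le_pow_right₀ hr1' (by omega)
  have hκq : (r : ℝ) ^ S.a ≤ q := by
    rw [hq]
    exact pow_le_pow_right₀ hr1' (by omega)
  have hqn : q = ((r ^ (7 * S.a) : ℕ) : ℝ) := by rw [hq]; push_cast; rfl
  have hm0 : (0 : ℝ) < m := by linarith
  have hmn : (m : ℝ) ≤ 2 ^ k := by exact_mod_cast hm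
  have hB0 : 0 ≤ B := (nr_nonneg _).trans hB
  have f1 : r ^ (7 * S.a) ≤ m := by
    have : ((r ^ (7 * S.a) : ℕ) : ℝ) ≤ m := by rw [← hqn]; linarith
    exact_mod_cast this
  have f2 : m ≤ r * 2 ^ k := hm.trans (Nat.le_mul_of_pos_left _ hr1)
  have f3 : s + r ^ (2 * S.a) * m ≤ (2 ^ k) ^ 2 := by
    have h1 : r ^ (2 * S.a) ≤ r ^ (7 * S.a) := Nat.pow_le_pow_right hr1 (by omega)
    have h2 : 2 * r ^ (7 * S.a) ≤ m := by
      have : ((2 * r ^ (7 * S.a) : ℕ) : ℝ) ≤ m := by push_cast; push_cast at hqn; rw [← hqn]; linarith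
      exact_mod_cast this
    have h3 : 2 * (r ^ (2 * S.a) * m) ≤ (2 ^ k) ^ 2 := by
      calc 2 * (r ^ (2 * S.a) * m) = (2 * r ^ (2 * S.a)) * m := by ring
        _ ≤ (2 ^ k) * 2 ^ k := Nat.mul_le_mul (by omega) hm
        _ = (2 ^ k) ^ 2 := by ring
    omega
  have hf := S.facts k hk E hE u hu m f1 f2 z s hks f3
  set h := E.bh (PK d S.a S.A k) u m z s with hh
  set X := E.bx (PK d S.a S.A k) u m z s with hX
  have hΔ : ((PK d S.a S.A k).Δ : ℝ) ≤ 66 * q := by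
    have e1 : (PK d S.a S.A k).Δ = (64 * r ^ (3 * S.a) + 2) * r ^ S.a := rfl
    have e2 : (64 * r ^ (3 * S.a) + 2) * r ^ S.a ≤ 66 * r ^ (7 * S.a) := by
      have e3 : r ^ (7 * S.a) = r ^ (3 * S.a) * r ^ (3 * S.a) * r ^ S.a := by
        rw [← pow_add, ← pow_add]; congr 1; ring
      have e4 : 1 ≤ r ^ (3 * S.a) := Nat.one_le_pow _ _ hr1
      rw [e3]
      have e5 : 64 * r ^ (3 * S.a) + 2 ≤ 66 * (r ^ (3 * S.a) * r ^ (3 * S.a)) := by nlinarith
      calc (64 * r ^ (3 * S.a) + 2) * r ^ S.a ≤ 66 * (r ^ (3 * S.a) * r ^ (3 * S.a)) * r ^ S.a :=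
            Nat.mul_le_mul_right _ e5
        _ = _ := by ring
    rw [e1, hqn]
    exact_mod_cast e2
  have hl0 : ((PK d S.a S.A k).l0 : ℝ) ≤ 32 * q := by
    have e1 : (PK d S.a S.A k).l0 = 32 * r ^ (3 * S.a) := rfl
    rw [e1, hqn]
    have e2 : r ^ (3 * S.a) ≤ r ^ (7 * S.a) := Nat.pow_le_pow_right hr1 (by omega)
    exact_mod_cast Nat.mul_le_mul_left 32 e2
  have hd0 : (0 : ℝ) ≤ d := by positivity
  have hxl : (m : ℝ) ≤ lev u X := hf.x_lev
  have hxn : nrm X ≤ S.Cv * h + 2 * d * q := by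
    refine hf.x_nrm.trans ?_
    have e1 : ((PK d S.a S.A k).κ : ℝ) = (r : ℝ) ^ S.a := by
      show ((r ^ S.a : ℕ) : ℝ) = (r : ℝ) ^ S.a
      push_cast
      rfl
    have : 2 * (d : ℝ) * (PK d S.a S.A k).κ ≤ 2 * d * q := by
      rw [e1]
      exact mul_le_mul_of_nonneg_left hκq (by positivity)
    linarith
  have hlb : (m : ℝ) ≤ 2 * S.Cv * h := by
    have h1 := lev_le_nrm hu X
    nlinarith
  have hnear : nrm (E.near (kp S.a S.A k) s z - z) ≤ d * q := by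
    refine (nrm_le_supn _).trans ?_
    refine mul_le_mul_of_nonneg_left ?_ hd0
    have : ((supn (E.near (kp S.a S.A k) s z - z) : ℕ) : ℝ) ≤ ((r ^ S.a : ℕ) : ℝ) := by
      exact_mod_cast hf.near_supn
    push_cast at this
    linarith
  have hD : nr (dD x0 b0 s0 (E.near (kp S.a S.A k) s z) s) ≤ nr (dD x0 b0 s0 z s) + d * q := by
    have e1 : dD x0 b0 s0 (E.near (kp S.a S.A k) s z) s = dD x0 b0 s0 z s + rv (E.near (kp S.a S.A k) s z - z) := by
      funext j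
      simp only [dD, rv, Pi.add_apply, Pi.sub_apply]
      push_cast
      ring
    rw [e1]
    refine (nr_add_le _ _).trans ?_
    rw [← nrm_eq_nr]
    linarith
  have hhm : (h : ℝ) ≤ Γm * m := hb.trans (mul_le_mul_of_nonneg_right hΓ hm0.le)
  have hC0 : 0 ≤ (S.Cv : ℝ) + B := by positivity
  have htot : s + h + (PK d S.a S.A k).Δ ≤ (2 ^ k) ^ 2 := by
    have e1 : (s : ℝ) ≤ (2 ^ k) ^ 2 / 2 := by
      have : ((2 * s : ℕ) : ℝ) ≤ (((2 ^ k) ^ 2 : ℕ) : ℝ) := by exact_mod_cast hs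
      push_cast at this
      linarith
    have e2 : Γm * m + 66 * q ≤ (Γm + 66) * m := by nlinarith
    have hG0 : 0 ≤ Γm := by
      by_contra hc
      push Not at hc
      have : (h : ℝ) < 0 := lt_of_le_of_lt hhm (mul_neg_of_neg_of_pos hc hm0)
      have : (0 : ℝ) ≤ h := by positivity
      linarith
    have e3 : 2 * ((Γm + 66) * m) ≤ (2 : ℝ) ^ k * 2 ^ k := by
      calc 2 * ((Γm + 66) * m) = (2 * (Γm + 66)) * m := by ring
        _ ≤ (2 : ℝ) ^ k * 2 ^ k := mul_le_mul b3 hmn hm0.le (by positivity)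
    have e4 : ((s + h + (PK d S.a S.A k).Δ : ℕ) : ℝ) ≤ (((2 ^ k) ^ 2 : ℕ) : ℝ) := by
      push_cast
      have : (2 : ℝ) ^ k * 2 ^ k = (2 ^ k) ^ 2 := by ring
      linarith
    exact_mod_cast e4
  have hGood : E.Good r (r ^ S.a) S.Cv ((2 ^ k) ^ 2) ((2 ^ k) ^ 2) := hE
  refine ⟨h, (PK d S.a S.A k).Δ, X, v0 (PK d S.a S.A k) u, ⟨hf.near_ok, hnear, ?_, ?_, hb, hlb, hxn, hxl, ?_, ?_, hΔ⟩⟩
  · refine R_tube E hGood hB hf.x_mem (by omega) (by omega) ?_
    push_cast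
    have e1 : ((S.Cv : ℝ) + B) * ((s : ℝ) + h - s) ≤ (S.Cv + B) * (Γm * m + 66 * q) :=
      mul_le_mul_of_nonneg_left (by linarith) hC0
    linarith
  · refine R_tube E hGood hB hf.next_mem (by omega) (by omega) ?_
    push_cast
    have e1 : ((S.Cv : ℝ) + B) * ((s : ℝ) + h + (PK d S.a S.A k).Δ - s) ≤ (S.Cv + B) * (Γm * m + 66 * q) :=
      mul_le_mul_of_nonneg_left (by linarith) hC0
    linarith
  · refine (nrm_v0 _ hu).trans ?_
    nlinarith
  · have := lev_v0 (PK d S.a S.A k) hu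
    nlinarith


end S6

end ZP.Rows
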