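import Pool.Agent.ZP.SHa
import Pool.Agent.ZP.PJ
import Pool.Agent.ZI.C5
import Pool.Agent.ZI.T1

/-! # SH: finite speed for the words of the chain -/

set_option autoImplicit false

open scoped ENNReal BigOperators Classical

noncomputable section

namespace ZP.Rows

open ZP

variable {d : ℕ}

namespace SHa

open ZI.Rows ZI.Rows.T1

theorem nrm_zero' : nrm (0 : Pos d) = 0 := by simp [ZI.nrm]

/-- finite speed without recovery, from the windows -/
theorem speed_of {m : Model} (q : ZI.Par d m) (η : Tor d q.M → ℕ) (l : List (Let d q.M q.K))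
    (r Cv H : ℕ)
    (hW : ∀ s T, 1 ≤ T → s + T ≤ H → ¬ B4 q r Cv T ((l.take (s * q.N1)).foldl ZI.stepA η)
      ((l.drop (s * q.N1)).take (T * q.N1))) :
    (∀ s t x y, s ≤ t → t ≤ H → (ZI.envT q η l).R (fun _ => Set.univ) s x t y →
      nrm (y - x) ≤ Cv * ((t : ℝ) - s) + r) ∧
    (∀ s t x y, s ≤ t → t ≤ H → (ZI.envT q η l).vis (fun _ => Set.univ) s x t y →
      nrm (y - x) ≤ Cv * ((t : ℝ) - s) + r) := by
  constructor
  · intro s t x y hst ht hR
    obtain ⟨j, hj, hy⟩ := hR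
    have hy' : y ∈ ZI.inf nbT tv η (units q.N1 l) (fun _ => Set.univ) s {x} j := hy
    rcases Nat.eq_zero_or_pos j with h0 | h0
    · subst h0
      have h1 : y = x := hy'.1
      have h2 : (t : ℝ) = s := by rw [hj]; simp
      rw [h1, sub_self, nrm_zero', h2]
      simp
    · have h1 := not_B4 (hW s j h0 (by omega)) x y (j * q.N1) (le_refl _)
        (by rw [infL_window q.N1 η l Set.univ s j x _ (le_refl _), infL_mul]; exact hy')
      have h2 : ((t : ℝ) - s) = j := by rw [hj]; push_cast; ring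
      rw [h2]
      exact h1
  · intro s t x y hst ht hv
    obtain ⟨j, hj, hy⟩ := hv
    have hy' : y ∈ ZI.visU nbT tv η (units q.N1 l) (fun _ => Set.univ) s {x} j := hy
    obtain ⟨k, hk, h1⟩ := visU_to q.N1 η l Set.univ s x y j hy'
    have hk' : k ≤ (t - s) * q.N1 := le_trans hk (Nat.mul_le_mul_right _ (by omega))
    have h2 := not_B4 (hW s (t - s) (by omega) (by omega)) x y k hk'
      (by rw [infL_window q.N1 η l Set.univ s (t - s) x k hk']; exact h1)
    have h3 : ((t : ℝ) - s) = ((t - s : ℕ) : ℝ) := by rw [Nat.cast_sub hst]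
    rw [h3]
    exact h2

end SHa

open ZI.Rows ZI.Rows.T1 in
/-- finite speed for the words of the chain (from ZI.C5, PJ; compare ZI/T1) -/
theorem speed_prob (m : Model) (d : ℕ) (hd : 0 < d) : ∃ Cv : ℕ, ∀ (δ : ℝ) (q : Par d m δ) (r H : ℕ),
    4 * (Cv * H + r + 2) < q.M →
    q.PP (H * q.N1) (fun η w => ¬ Speed (envT q η w) Cv r H) ≤
      (H + 1 : ℝ≥0∞) ^ 2 * (q.M : ℝ≥0∞) ^ d * ENNReal.ofReal (Cv * Real.exp (-(r : ℝ))) := by
  obtain ⟨Cv, hf⟩ := ZI.Rows.finite_speed m d
  refine ⟨Cv, fun δ q r H hM => ?_⟩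
  obtain ⟨q0, hq0⟩ : ∃ q0 : ZI.Par d m, q0 = q.toZI := ⟨_, rfl⟩
  -- the event in the chain without recovery
  have h1 : q.PP (H * q.N1) (fun η w => ¬ Speed (envT q η w) Cv r H) ≤
      q0.PP (H * q0.N1) (fun η l =>
        ∃ sT ∈ Finset.range (H + 1) ×ˢ Finset.range (H + 1), ((1 ≤ sT.2 ∧ sT.1 + sT.2 ≤ H) ∧
          B4 q0 r Cv sT.2 ((l.take (sT.1 * q0.N1)).foldl ZI.stepA η)
            ((l.drop (sT.1 * q0.N1)).take (sT.2 * q0.N1)))) := by
    subst hq0
    show _ ≤ q.toZI.PP (H * q.N1) _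
    rw [← PP_prj q hd]
    unfold Par.PP
    refine E4.EE_mono q _ fun η w => ?_
    by_cases h : Speed (envT q η w) Cv r H
    · rw [if_neg (not_not.2 h)]
      exact zero_le
    · rw [if_pos h, if_pos]
      by_contra hcon
      apply h
      have h2 := SHa.speed_of q.toZI η (w.map prj) r Cv H (by
        intro s T hT hsT hB
        exact hcon ⟨(s, T), Finset.mem_product.2 ⟨Finset.mem_range.2 (by simp only; omega),
          Finset.mem_range.2 (by simp only; omega)⟩, ⟨hT, hsT⟩, hB⟩)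
      have h3 : (envT q η w).toZI = ZI.envT q.toZI η (w.map prj) := envT_toZI q η w
      constructor
      · intro s t x y hst ht hR
        refine h2.1 s t x y hst ht ?_
        rw [← h3]
        exact R_toZI _ hR
      · intro s t x y hst ht hR
        refine h2.2 s t x y hst ht ?_
        rw [← h3]
        exact vis_toZI _ hR
  refine h1.trans ?_
  have h2 := ZI.Rows.T1.PP_finset_le q0 (H * q0.N1) (Finset.range (H + 1) ×ˢ Finset.range (H + 1))
    (fun sT η l => (1 ≤ sT.2 ∧ sT.1 + sT.2 ≤ H) ∧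
          B4 q0 r Cv sT.2 ((l.take (sT.1 * q0.N1)).foldl ZI.stepA η)
            ((l.drop (sT.1 * q0.N1)).take (sT.2 * q0.N1)))
    (((Fd d q0.M).card : ℝ≥0∞) * ENNReal.ofReal (Cv * Real.exp (- (r : ℝ)))) ?_
  · refine h2.trans (le_of_eq ?_)
    rw [Finset.card_product, Finset.card_range, card_Fd]
    push_cast
    rw [hq0]
    show _ = _ * (q.toZI.M : ℝ≥0∞) ^ d * _
    ring
  · rintro ⟨s, T⟩ -
    by_cases hsT : 1 ≤ T ∧ s + T ≤ H
    · refine le_trans (ZI.Rows.T1.PP_mono q0 _ fun η l _ h => h.2) ?_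
      have h3 := ZI.Rows.T1.PP_shift q0 hd H s T hsT.2 (B4 q0 r Cv T)
      rw [h3]
      refine PP_B4 q0 Cv r T hsT.1 fun x => hf q0 x T r ?_
      have h4 : q0.M = q.M := by rw [hq0]; rfl
      have : Cv * T ≤ Cv * H := Nat.mul_le_mul_left _ (by omega)
      omega
    · have h0 : q0.PP (H * q0.N1) (fun η l => (1 ≤ T ∧ s + T ≤ H) ∧
            B4 q0 r Cv T ((l.take (s * q0.N1)).foldl ZI.stepA η)
            ((l.drop (s * q0.N1)).take (T * q0.N1))) ≤ 0 := by
        refine ZI.Rows.T1.PP_le q0 _ _ _ fun η => ?_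
        rw [ZI.Rows.T1.PrE_zero_of]
        intro l hl
        exact hsT hl.1
      exact le_trans h0 zero_le

end ZP.Rows
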