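import Pool.Agent.ZP.Core
import Pool.Agent.ZP.D0
import Pool.Agent.ZP.E4

/-! # SH: shifted environments (the deterministic part) -/

set_option autoImplicit false

open scoped ENNReal BigOperators Classical

noncomputable section

namespace ZP.Rows

open ZP

variable {d : ℕ}

namespace SHa

variable {V : Type} (nb : V → Dir d → Option V) (pr : Pos d → V) (η0 : V → ℕ)
  (U : ℕ → List (Lab V d))

theorem cfg_shift (u : ℕ) : ∀ t : ℕ,
    cfg nb (cfg nb η0 U u) (fun t => U (u + t)) t = cfg nb η0 U (u + t) := by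
  intro t
  induction t with
  | zero => rfl
  | succ t ih =>
    show (U (u + t)).foldl (mv nb) (cfg nb (cfg nb η0 U u) (fun t => U (u + t)) t) = _
    rw [ih]
    rfl

theorem inf_shift (u : ℕ) (G : ℕ → Set (Pos d)) (s : ℕ) (A : Set (Pos d)) : ∀ j : ℕ,
    inf nb pr (cfg nb η0 U u) (fun t => U (u + t)) G s A j =
      inf nb pr η0 U (fun τ => G (τ - u)) (u + s) A j := by
  intro j
  induction j with
  | zero =>
    show {z | z ∈ A ∧ z ∈ G s ∧ 0 < cfg nb (cfg nb η0 U u) (fun t => U (u + t)) s (pr z)} =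
      {z | z ∈ A ∧ z ∈ G (u + s - u) ∧ 0 < cfg nb η0 U (u + s) (pr z)}
    rw [cfg_shift, Nat.add_sub_cancel_left]
  | succ j ih =>
    show ((U (u + (s + j))).foldl (stepR nb pr (G (s + j)))
      (cfg nb (cfg nb η0 U u) (fun t => U (u + t)) (s + j),
        inf nb pr (cfg nb η0 U u) (fun t => U (u + t)) G s A j ∩ G (s + j))).2 =
      ((U (u + s + j)).foldl (stepR nb pr (G (u + s + j - u)))
      (cfg nb η0 U (u + s + j), inf nb pr η0 U (fun τ => G (τ - u)) (u + s) A j ∩
        G (u + s + j - u))).2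
    rw [ih, cfg_shift, show u + (s + j) = u + s + j by ring,
      show u + s + j - u = s + j by omega]

theorem visU_shift (u : ℕ) (G : ℕ → Set (Pos d)) (s : ℕ) (A : Set (Pos d)) (j : ℕ) :
    visU nb pr (cfg nb η0 U u) (fun t => U (u + t)) G s A j =
      visU nb pr η0 U (fun τ => G (τ - u)) (u + s) A j := by
  show {z | ∃ i ≤ (U (u + (s + j))).length, z ∈ (((U (u + (s + j))).take i).foldl
      (stepR nb pr (G (s + j))) (cfg nb (cfg nb η0 U u) (fun t => U (u + t)) (s + j),
        inf nb pr (cfg nb η0 U u) (fun t => U (u + t)) G s A j ∩ G (s + j))).2} =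
    {z | ∃ i ≤ (U (u + s + j)).length, z ∈ (((U (u + s + j)).take i).foldl
      (stepR nb pr (G (u + s + j - u))) (cfg nb η0 U (u + s + j),
        inf nb pr η0 U (fun τ => G (τ - u)) (u + s) A j ∩ G (u + s + j - u))).2}
  rw [inf_shift, cfg_shift, show u + (s + j) = u + s + j by ring,
    show u + s + j - u = s + j by omega]

end SHa

section SH

variable (E : Env d)

theorem shift_occ (u t : ℕ) (x : Pos d) : (E.shift u).occ t x ↔ E.occ (u + t) x := by
  unfold Env.occ
  show 0 < cfg E.nb (cfg E.nb E.η0 E.U u) (fun t => E.U (u + t)) t (E.pr x) ↔ _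
  rw [SHa.cfg_shift]

theorem shift_R (u : ℕ) (G : ℕ → Set (Pos d)) (s t : ℕ) (x y : Pos d) :
    (E.shift u).R G s x t y ↔ E.R (fun τ => G (τ - u)) (u + s) x (u + t) y := by
  unfold Env.R
  refine exists_congr fun j => ?_
  have h : inf (E.shift u).nb (E.shift u).pr (E.shift u).η0 (E.shift u).U G s {x} j =
      inf E.nb E.pr E.η0 E.U (fun τ => G (τ - u)) (u + s) {x} j :=
    SHa.inf_shift E.nb E.pr E.η0 E.U u G s {x} j
  rw [h]
  refine and_congr ?_ Iff.rfl
  omega

theorem shift_vis (u : ℕ) (G : ℕ → Set (Pos d)) (s t : ℕ) (x y : Pos d) :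
    (E.shift u).vis G s x t y ↔ E.vis (fun τ => G (τ - u)) (u + s) x (u + t) y := by
  unfold Env.vis
  refine exists_congr fun j => ?_
  have h : visU (E.shift u).nb (E.shift u).pr (E.shift u).η0 (E.shift u).U G s {x} j =
      visU E.nb E.pr E.η0 E.U (fun τ => G (τ - u)) (u + s) {x} j :=
    SHa.visU_shift E.nb E.pr E.η0 E.U u G s {x} j
  rw [h]
  refine and_congr ?_ Iff.rfl
  omega

variable {m : Model} {δ : ℝ} (q : Par d m δ)

theorem envT_shift (η : Tor d q.M → ℕ) (w : List (Let d q.M (q.K + 1))) (u : ℕ) :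
    (envT q η w).shift u = envT q (stt η w (u * q.N1)) (w.drop (u * q.N1)) := by
  have h1 : cfg nbT η (units q.N1 w) u = stt η w (u * q.N1) := E1.cfg_eq q.N1 η w u
  have h2 : (fun t => units q.N1 w (u + t)) = units q.N1 (w.drop (u * q.N1)) := by
    funext t
    unfold ZI.units
    rw [List.drop_drop, add_mul]
  show (⟨Tor d q.M, nbT, tv, cfg nbT η (units q.N1 w) u, fun t => units q.N1 w (u + t)⟩ : Env d) =
    ⟨Tor d q.M, nbT, tv, stt η w (u * q.N1), units q.N1 (w.drop (u * q.N1))⟩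
  rw [h1, h2]

end SH

namespace SHa

/-- two environments with the same routes, visits and occupied positions up to the time `S` -/
theorem good_congr {E E' : Env d} {r κ Cv S Dm : ℕ}
    (hR : ∀ G s x t y, t ≤ S → (E.R G s x t y ↔ E'.R G s x t y))
    (hv : ∀ G s x t y, t ≤ S → (E.vis G s x t y ↔ E'.vis G s x t y))
    (h : E.Good r κ Cv S Dm) : E'.Good r κ Cv S Dm := by
  have hfg : ∀ t x, t + κ ≤ S → (E.fg κ t x ↔ E'.fg κ t x) := fun t x ht =>
    exists_congr fun y => hR _ _ _ _ _ ht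
  have hbg : ∀ t x, t ≤ S → (E.bg κ t x ↔ E'.bg κ t x) := fun t x ht =>
    exists_congr fun s => exists_congr fun y => and_congr Iff.rfl (hR _ _ _ _ _ ht)
  refine ⟨?_, ?_, ?_, ?_, ?_⟩
  · intro t h1 h2 x
    obtain ⟨v, h3, h4, h5, h6⟩ := h.g1 t h1 h2 x
    exact ⟨v, h3, h4, (hfg t _ h2).1 h5, (hbg t _ (by omega)).1 h6⟩
  · intro s t x y h1 h2 h3 h4 h5 h6 h7
    exact (hR _ _ _ _ _ (by omega)).1 (h.g3 s t x y h1 h2 h3 ((hfg s x (by omega)).2 h4)
      ((hbg t y (by omega)).2 h5) h6 h7)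
  · intro s t x b h1 h2 h3 h4 h5 h6
    exact (hv _ _ _ _ _ (by omega)).1 (h.g3' s t x b h1 h2 h3 ((hfg s x (by omega)).2 h4) h5 h6)
  · intro s t x y h1 h2 h3
    exact h.g4 s t x y h1 h2 ((hR _ _ _ _ _ h2).2 h3)
  · intro s t x y h1 h2 h3
    exact h.g4' s t x y h1 h2 ((hv _ _ _ _ _ h2).2 h3)

theorem vis_take {m : Model} {δ : ℝ} (q : Par d m δ) (η : Tor d q.M → ℕ)
    (l : List (Let d q.M (q.K + 1))) (T : ℕ) (G : ℕ → Set (Pos d)) (s : ℕ) (x : Pos d) (t : ℕ)
    (y : Pos d) (ht : t ≤ T) :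
    (envT q η l).vis G s x t y ↔ (envT q η (l.take (T * q.N1))).vis G s x t y := by
  have hU : ∀ t < T, units q.N1 l t = units q.N1 (l.take (T * q.N1)) t := fun t ht =>
    E4.units_take q.N1 l T t ht
  refine exists_congr fun j => ?_
  by_cases hj : s + j < t
  · refine and_congr Iff.rfl ?_
    have h1 : cfg nbT η (units q.N1 l) (s + j) =
        cfg nbT η (units q.N1 (l.take (T * q.N1))) (s + j) := E4.cfg_congr nbT η hU _ (by omega)
    have h2 : inf nbT tv η (units q.N1 l) G s {x} j =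
        inf nbT tv η (units q.N1 (l.take (T * q.N1))) G s {x} j :=
      E4.inf_congr nbT tv η hU G s {x} j (by omega)
    show y ∈ visU nbT tv η (units q.N1 l) G s {x} j ↔
      y ∈ visU nbT tv η (units q.N1 (l.take (T * q.N1))) G s {x} j
    unfold visU
    rw [h1, h2, hU (s + j) (by omega)]
  · exact ⟨fun h => absurd h.1 hj, fun h => absurd h.1 hj⟩

end SHa

section SH

variable {m : Model} {δ : ℝ} (q : Par d m δ)

/-- the good event depends on the word up to the horizon only -/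
theorem good_take (η : Tor d q.M → ℕ) (w : List (Let d q.M (q.K + 1))) (r κ Cv S Dm : ℕ) :
    (envT q η (w.take (S * q.N1))).Good r κ Cv S Dm ↔ (envT q η w).Good r κ Cv S Dm := by
  have hA := agree_take q η w S (fun _ => Set.univ)
  have h1 : ∀ G s x t y, t ≤ S → ((envT q η w).R G s x t y ↔
      (envT q η (w.take (S * q.N1))).R G s x t y) := fun G s x t y ht =>
    hA.R G (fun _ _ => Set.subset_univ _) s t x y ht
  have h2 : ∀ G s x t y, t ≤ S → ((envT q η w).vis G s x t y ↔
      (envT q η (w.take (S * q.N1))).vis G s x t y) := fun G s x t y ht =>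
    SHa.vis_take q η w S G s x t y ht
  exact ⟨SHa.good_congr (fun G s x t y ht => (h1 G s x t y ht).symm)
    (fun G s x t y ht => (h2 G s x t y ht).symm), SHa.good_congr h1 h2⟩

end SH

end ZP.Rows
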