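import Pool.Agent.ZP.Site

/-! # Single site estimates with explicit constants (for large fugacities) -/

set_option autoImplicit false

open scoped ENNReal BigOperators Classical

noncomputable section

namespace ZPD

open ZI ZI.Rows ZI.R2aux ZP

section site

variable (m : Model) (φh : ℝ)

/-- geometric tail -/
theorem tail_of (k0 : ℕ) (hk0 : 2 * φh ≤ m.g k0) : ∀ (φ : ℝ) (h : 0 < φ), φ ≤ φh → ∀ K : ℕ, 2 ≤ K →
    2 * φh ≤ m.g K → ∀ k, (wf m φ h).m1 K k ≤ 2 ^ k0 * (1 / 2 : ℝ≥0∞) ^ k := by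
  intro φ h hle K hK hb
  have h1 := wf_tsum m φh φ h hle K hK hb
  -- the ratio
  have hr : ∀ k, k0 ≤ k + 1 → (wf m φ h).m1 K (k + 1) * 2 ≤ (wf m φ h).m1 K k := by
    intro k hk
    have h2 := wf_m1_succ m φh φ h hle K hK hb k
    have h3 : ENNReal.ofReal (2 * φ) ≤ ENNReal.ofReal (m.gK K (k + 1)) := by
      refine ENNReal.ofReal_le_ofReal ?_
      unfold Model.gK
      rcases le_total (k + 1) K with h4 | h4
      · rw [min_eq_left h4]
        have := g_mono m hk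
        linarith
      · rw [min_eq_right h4]
        linarith
    have h4 : (wf m φ h).m1 K (k + 1) * ENNReal.ofReal (2 * φ) ≤
        ENNReal.ofReal φ * (wf m φ h).m1 K k := by
      rw [← h2]
      exact mul_le_mul_right h3 _
    rw [ENNReal.ofReal_mul (by norm_num), ENNReal.ofReal_ofNat] at h4
    have h5 : ENNReal.ofReal φ ≠ 0 := by
      rw [ENNReal.ofReal_ne_zero_iff]
      exact h
    have h6 : ENNReal.ofReal φ * ((wf m φ h).m1 K (k + 1) * 2) ≤
        ENNReal.ofReal φ * (wf m φ h).m1 K k := by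
      refine le_trans (le_of_eq ?_) h4
      ring
    exact (ENNReal.mul_le_mul_iff_right h5 ENNReal.ofReal_ne_top).mp h6
  have hone : ∀ k, (wf m φ h).m1 K k ≤ 1 := by
    intro k
    rw [← h1]
    exact ENNReal.le_tsum _
  have h2p : ∀ n : ℕ, (2 : ℝ≥0∞) ^ n * (1 / 2 : ℝ≥0∞) ^ n = 1 := by
    intro n
    rw [← mul_pow, one_div, ENNReal.mul_inv_cancel (by norm_num) (by norm_num), one_pow]
  intro k
  rcases le_total k k0 with hk | hk
  · refine (hone k).trans ?_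
    obtain ⟨j, rfl⟩ := Nat.exists_eq_add_of_le hk
    rw [pow_add]
    calc (1 : ℝ≥0∞) = 2 ^ k * (1 / 2) ^ k := (h2p k).symm
      _ ≤ 2 ^ k * 2 ^ j * (1 / 2) ^ k := by
          refine mul_le_mul_left ?_ _
          exact le_mul_of_one_le_right zero_le (one_le_pow₀ (by norm_num))
  · obtain ⟨j, rfl⟩ := Nat.exists_eq_add_of_le hk
    have h3 : (wf m φ h).m1 K (k0 + j) ≤ (1 / 2 : ℝ≥0∞) ^ j := by
      clear hk
      induction j with
      | zero =>
        rw [pow_zero]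
        exact hone _
      | succ j ih =>
        rw [← add_assoc, pow_succ]
        calc (wf m φ h).m1 K (k0 + j + 1) = ((wf m φ h).m1 K (k0 + j + 1) * 2) * (1 / 2) := by
              rw [mul_assoc, one_div, ENNReal.mul_inv_cancel (by norm_num) (by norm_num), mul_one]
          _ ≤ (1 / 2 : ℝ≥0∞) ^ j * (1 / 2) := by
              gcongr
              exact (hr (k0 + j) (by omega)).trans ih
    calc (wf m φ h).m1 K (k0 + j) ≤ (1 / 2 : ℝ≥0∞) ^ j := h3
      _ = 2 ^ k0 * (1 / 2 : ℝ≥0∞) ^ (k0 + j) := by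
          rw [pow_add, ← mul_assoc, h2p, one_mul]

/-- the same with real numbers -/
theorem tail'_of (k0 : ℕ) (hk0 : 2 * φh ≤ m.g k0) : ∀ (φ : ℝ) (h : 0 < φ), φ ≤ φh → ∀ K : ℕ, 2 ≤ K →
    2 * φh ≤ m.g K → ∀ k, (wf m φ h).m1 K k ≤ ENNReal.ofReal (2 ^ k0 * (1 / 2) ^ k) := by
  refine fun φ h hle K hK hb k => (tail_of m φh k0 hk0 φ h hle K hK hb k).trans (le_of_eq ?_)
  rw [ENNReal.ofReal_mul (by positivity), ENNReal.ofReal_pow (by positivity),
    ENNReal.ofReal_pow (by positivity), ENNReal.ofReal_ofNat]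
  congr 2
  rw [one_div, one_div, ENNReal.ofReal_inv_of_pos (by norm_num), ENNReal.ofReal_ofNat]

/-- exponential moment -/
theorem exp_mom_of (k0 : ℕ) (hk0 : 2 * φh ≤ m.g k0) : ∀ (φ : ℝ) (h : 0 < φ), φ ≤ φh → ∀ K : ℕ, 2 ≤ K →
    2 * φh ≤ m.g K →
    (∑' k, (wf m φ h).m1 K k * ENNReal.ofReal (3 / 2) ^ k ≤ ENNReal.ofReal (16 * 2 ^ k0)) ∧
    (∑' k, (wf m φ h).m1 K k * (k : ℝ≥0∞) ≤ ENNReal.ofReal (16 * 2 ^ k0)) ∧
    ∀ l : ℕ, ∑' k, (wf m φ h).m1 K k * ((if l < k then (k : ℝ≥0∞) else 0)) ≤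
      ENNReal.ofReal (16 * 2 ^ k0 * (5 / 6) ^ l) := by
  intro φ h hle K hK hb
  have hk := tail'_of m φh k0 hk0 φ h hle K hK hb
  have hbern : ∀ k : ℕ, (k : ℝ) ≤ 4 * (5 / 4) ^ k := by
    intro k
    have := one_add_mul_le_pow (a := (1 / 4 : ℝ)) (by norm_num) k
    norm_num at this
    linarith
  have hmain : ∀ l : ℕ, ∑' k, (wf m φ h).m1 K k * ((if l < k then (k : ℝ≥0∞) else 0)) ≤
      ENNReal.ofReal (16 * 2 ^ k0 * (5 / 6) ^ l) := by
    intro l
    have h1 : ∀ k : ℕ, (wf m φ h).m1 K k * ((if l < k then (k : ℝ≥0∞) else 0)) ≤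
        ENNReal.ofReal ((4 * 2 ^ k0 * (5 / 6) ^ l) * (3 / 4) ^ k) := by
      intro k
      by_cases hl : l < k
      · rw [if_pos hl]
        refine (mul_le_mul_left (hk k) _).trans ?_
        rw [← ENNReal.ofReal_natCast, ← ENNReal.ofReal_mul (by positivity)]
        refine ENNReal.ofReal_le_ofReal ?_
        have h2 := hbern k
        have h3 : (1 : ℝ) ≤ (5 / 6) ^ l * (6 / 5) ^ k := by
          obtain ⟨j, rfl⟩ := Nat.exists_eq_add_of_le hl.le
          rw [pow_add, ← mul_assoc, ← mul_pow]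
          norm_num
          exact one_le_pow₀ (by norm_num)
        have h4 : (0 : ℝ) ≤ 2 ^ k0 * (1 / 2) ^ k := by positivity
        calc 2 ^ k0 * (1 / 2) ^ k * (k : ℝ) ≤ 2 ^ k0 * (1 / 2) ^ k * (4 * (5 / 4) ^ k) :=
              mul_le_mul_of_nonneg_left h2 h4
          _ = (2 ^ k0 * (1 / 2) ^ k * (4 * (5 / 4) ^ k)) * 1 := (mul_one _).symm
          _ ≤ (2 ^ k0 * (1 / 2) ^ k * (4 * (5 / 4) ^ k)) * ((5 / 6) ^ l * (6 / 5) ^ k) :=
              mul_le_mul_of_nonneg_left h3 (by positivity)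
          _ = (4 * 2 ^ k0 * (5 / 6) ^ l) * ((1 / 2) ^ k * (5 / 4) ^ k * (6 / 5) ^ k) := by ring
          _ = (4 * 2 ^ k0 * (5 / 6) ^ l) * (3 / 4) ^ k := by
              rw [← mul_pow, ← mul_pow]
              norm_num
      · rw [if_neg hl, mul_zero]
        exact zero_le
    refine (ENNReal.tsum_le_tsum h1).trans (le_of_eq ?_)
    rw [geo _ _ (by positivity) (by norm_num) (by norm_num)]
    congr 1
    ring
  refine ⟨?_, ?_, hmain⟩
  · have h1 : ∀ k : ℕ, (wf m φ h).m1 K k * ENNReal.ofReal (3 / 2) ^ k ≤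
        ENNReal.ofReal (2 ^ k0 * (3 / 4) ^ k) := by
      intro k
      refine (mul_le_mul_left (hk k) _).trans (le_of_eq ?_)
      rw [← ENNReal.ofReal_pow (by norm_num), ← ENNReal.ofReal_mul (by positivity)]
      congr 1
      rw [mul_assoc, ← mul_pow]
      norm_num
    refine (ENNReal.tsum_le_tsum h1).trans ?_
    rw [geo _ _ (by positivity) (by norm_num) (by norm_num)]
    refine ENNReal.ofReal_le_ofReal ?_
    have : (0 : ℝ) < 2 ^ k0 := by positivity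
    norm_num
    linarith
  · have h1 := hmain 0
    refine le_trans (ENNReal.tsum_le_tsum fun k => ?_) (h1.trans (ENNReal.ofReal_le_ofReal (by simp)))
    refine mul_le_mul_right ?_ _
    rcases Nat.eq_zero_or_pos k with rfl | hk
    · simp
    · rw [if_pos hk]

/-- the level of the tail is linear in the fugacity -/
theorem exists_k0_le (hφ : 1 ≤ φh) : ∃ k0 : ℕ, 2 * φh ≤ m.g k0 ∧ (k0 : ℝ) ≤ (2 / m.Gm + 1) * φh := by
  have h : ∀ k : ℕ, m.Gm * k ≤ m.g k := fun k => by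
    induction k with
    | zero => simp [m.g0]
    | succ k ih =>
      have := m.inc_lb k
      push_cast
      linarith
  have hG := m.Gm_pos
  refine ⟨⌈2 * φh / m.Gm⌉₊, ?_, ?_⟩
  · refine le_trans ?_ (h _)
    have h1 := Nat.le_ceil (2 * φh / m.Gm)
    rw [div_le_iff₀ hG] at h1
    linarith
  · have h2 : (0 : ℝ) ≤ 2 * φh / m.Gm := by positivity
    have h1 := (Nat.ceil_lt_add_one h2).le
    calc (⌈2 * φh / m.Gm⌉₊ : ℝ) ≤ 2 * φh / m.Gm + 1 := h1
      _ ≤ 2 * φh / m.Gm + φh := by linarith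
      _ = (2 / m.Gm + 1) * φh := by ring

/-- exponential moment, constant `exp (B φh)` -/
theorem exp_mom_poly : ∃ B : ℕ, ∀ φh : ℝ, 1 ≤ φh → ∀ (φ : ℝ) (h : 0 < φ), φ ≤ φh → ∀ K : ℕ, 2 ≤ K →
    2 * φh ≤ m.g K →
    (∑' k, (wf m φ h).m1 K k * ENNReal.ofReal (3 / 2) ^ k ≤ ENNReal.ofReal (Real.exp (B * φh))) ∧
    (∑' k, (wf m φ h).m1 K k * (k : ℝ≥0∞) ≤ ENNReal.ofReal (Real.exp (B * φh))) ∧
    ∀ l : ℕ, ∑' k, (wf m φ h).m1 K k * ((if l < k then (k : ℝ≥0∞) else 0)) ≤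
      ENNReal.ofReal (Real.exp (B * φh) * (5 / 6) ^ l) := by
  obtain ⟨B, hB⟩ := exists_nat_ge (4 + (2 / m.Gm + 1))
  refine ⟨B, ?_⟩
  intro φh hφ φ h hle K hK hb
  obtain ⟨k0, hk0, hk1⟩ := exists_k0_le m φh hφ
  have hC : (16 * 2 ^ k0 : ℝ) ≤ Real.exp (B * φh) := by
    have h2 : (2 : ℝ) ≤ Real.exp 1 := by
      have := Real.add_one_le_exp (1 : ℝ)
      linarith
    have h3 : (16 * 2 ^ k0 : ℝ) = 2 ^ (4 + k0) := by rw [pow_add]; norm_num
    rw [h3]
    calc (2 : ℝ) ^ (4 + k0) ≤ Real.exp 1 ^ (4 + k0) := pow_le_pow_left₀ (by norm_num) h2 _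
      _ = Real.exp ((4 + k0 : ℕ) * 1) := by rw [← Real.exp_nat_mul]
      _ ≤ Real.exp (B * φh) := by
          refine Real.exp_le_exp.2 ?_
          push_cast
          have h4 : (4 + (2 / m.Gm + 1)) * φh ≤ B * φh := mul_le_mul_of_nonneg_right hB (by linarith)
          nlinarith
  obtain ⟨a1, a2, a3⟩ := exp_mom_of m φh k0 hk0 φ h hle K hK hb
  refine ⟨a1.trans (ENNReal.ofReal_le_ofReal hC), a2.trans (ENNReal.ofReal_le_ofReal hC), fun l =>
    (a3 l).trans (ENNReal.ofReal_le_ofReal ?_)⟩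
  exact mul_le_mul_of_nonneg_right hC (by positivity)

end site

end ZPD
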