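import Pool.Agent.ZP.SPc
import Pool.Agent.ZP.SiteP

/-! # Row SU: sprinkled domination for large fugacities, over the gap -/

set_option autoImplicit false

open scoped ENNReal BigOperators Classical

noncomputable section

namespace ZPD

open ZI ZI.Rows ZI.R2aux ZP

/-- numbers: the constants may be exponential in the fugacity, the rate is polynomial -/
theorem num_u (A0 : ℝ) (hA0 : 0 ≤ A0) (a : ℕ) (B c0 : ℝ) (_hB : 0 ≤ B) (hc : 0 < c0) : ∃ C0 : ℕ,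
    ∀ Φ : ℝ, 1 ≤ Φ → ∀ l : ℕ, C0 * Φ ^ C0 ≤ (l : ℝ) →
    A0 * Real.exp (B * Φ) * (l : ℝ) ^ a * Real.exp (-(c0 / Φ ^ 4 * Real.sqrt (Real.sqrt l) ^ 3)) ≤
      Real.exp (-Real.sqrt l) := by
  obtain ⟨Y, hY1, hY⟩ : ∃ Y : ℝ, 1 ≤ Y ∧ ∀ y ≥ Y, A0 * y ^ (4 * a) * Real.exp (-(y ^ 2)) ≤ 1 := by
    have h1 := Real.tendsto_pow_mul_exp_neg_atTop_nhds_zero (4 * a)
    have h2 : Filter.Tendsto (fun x : ℝ => A0 * (x ^ (4 * a) * Real.exp (-x))) Filter.atTop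
        (nhds (A0 * 0)) := h1.const_mul A0
    rw [mul_zero] at h2
    have h3 : ∀ᶠ x : ℝ in Filter.atTop, A0 * (x ^ (4 * a) * Real.exp (-x)) < 1 :=
      h2.eventually_lt_const (by norm_num)
    obtain ⟨X1, hX1⟩ := Filter.eventually_atTop.1 h3
    refine ⟨max X1 1, le_max_right _ _, ?_⟩
    intro y hy
    have hy1 : X1 ≤ y := (le_max_left _ _).trans hy
    have hy2 : 1 ≤ y := (le_max_right _ _).trans hy
    refine le_trans ?_ (hX1 y hy1).le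
    rw [mul_assoc]
    refine mul_le_mul_of_nonneg_left (mul_le_mul_of_nonneg_left ?_ (by positivity)) hA0
    refine Real.exp_le_exp.2 (neg_le_neg ?_)
    nlinarith
  obtain ⟨K, hK⟩ := exists_nat_ge (max (max (3 / c0) B) Y)
  have hK1 : 3 / c0 ≤ K := (le_max_left _ _).trans ((le_max_left _ _).trans hK)
  have hK2 : B ≤ K := (le_max_right _ _).trans ((le_max_left _ _).trans hK)
  have hK3 : Y ≤ K := (le_max_right _ _).trans hK
  refine ⟨K ^ 4 + 20, ?_⟩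
  intro Φ hΦ l hl
  set y := Real.sqrt (Real.sqrt l) with hy
  have hy2 : y ^ 2 = Real.sqrt l := Real.sq_sqrt (Real.sqrt_nonneg _)
  have hy4 : y ^ 4 = l := by
    have : y ^ 4 = (y ^ 2) ^ 2 := by ring
    rw [this, hy2, Real.sq_sqrt (Nat.cast_nonneg l)]
  have hy0 : 0 ≤ y := Real.sqrt_nonneg _
  -- `K Φ ^ 5 ≤ y`
  have hKy : K * Φ ^ 5 ≤ y := by
    have h1 : (K * Φ ^ 5) ^ 4 ≤ y ^ 4 := by
      rw [hy4]
      refine le_trans ?_ hl
      have h2 : Φ ^ 20 ≤ Φ ^ (K ^ 4 + 20) := pow_le_pow_right₀ hΦ (by omega)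
      have h3 : (0 : ℝ) ≤ Φ ^ 20 := by positivity
      calc (K * Φ ^ 5) ^ 4 = (K : ℝ) ^ 4 * Φ ^ 20 := by ring
        _ ≤ ((K ^ 4 + 20 : ℕ) : ℝ) * Φ ^ (K ^ 4 + 20) := by
            refine mul_le_mul ?_ h2 h3 (by positivity)
            push_cast
            linarith
    exact le_of_pow_le_pow_left₀ (by norm_num) hy0 h1
  have hΦ4 : 1 ≤ Φ ^ 4 := one_le_pow₀ hΦ
  have hΦ5 : 1 ≤ Φ ^ 5 := one_le_pow₀ hΦ
  have hK0 : (0 : ℝ) ≤ K := Nat.cast_nonneg K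
  have hyK : (K : ℝ) ≤ y := le_trans (by nlinarith) hKy
  have hyY : Y ≤ y := hK3.trans hyK
  have hy1 : 1 ≤ y := hY1.trans hyY
  have hyB : B * Φ ≤ y ^ 2 := by
    have h1 : Φ ≤ Φ ^ 5 := by
      calc Φ = Φ * 1 := (mul_one Φ).symm
        _ ≤ Φ * Φ ^ 4 := mul_le_mul_of_nonneg_left hΦ4 (by linarith)
        _ = Φ ^ 5 := by ring
    have h2 : B * Φ ≤ K * Φ ^ 5 := mul_le_mul hK2 h1 (by linarith) hK0
    nlinarith
  have hexp : 3 * y ^ 2 ≤ c0 / Φ ^ 4 * y ^ 3 := by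
    have h1 : 3 ≤ c0 * K := by
      rw [div_le_iff₀ hc] at hK1
      linarith
    have h2 : 3 * Φ ^ 4 ≤ c0 * y := by
      have h3 : Φ ^ 4 ≤ Φ ^ 5 := pow_le_pow_right₀ hΦ (by norm_num)
      calc 3 * Φ ^ 4 ≤ (c0 * K) * Φ ^ 5 := mul_le_mul h1 h3 (by positivity) (by positivity)
        _ = c0 * (K * Φ ^ 5) := by ring
        _ ≤ c0 * y := mul_le_mul_of_nonneg_left hKy hc.le
    have h4 : 3 ≤ c0 / Φ ^ 4 * y := by
      rw [div_mul_eq_mul_div, le_div_iff₀ (by positivity)]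
      exact h2
    calc 3 * y ^ 2 ≤ (c0 / Φ ^ 4 * y) * y ^ 2 := mul_le_mul_of_nonneg_right h4 (by positivity)
      _ = _ := by ring
  have hY' := hY y hyY
  have hla : (l : ℝ) ^ a = y ^ (4 * a) := by rw [pow_mul, hy4]
  rw [hla, ← hy2]
  calc A0 * Real.exp (B * Φ) * y ^ (4 * a) * Real.exp (-(c0 / Φ ^ 4 * y ^ 3))
      ≤ A0 * Real.exp (y ^ 2) * y ^ (4 * a) * Real.exp (-(3 * y ^ 2)) := by
        gcongr
    _ = (A0 * y ^ (4 * a) * Real.exp (-(y ^ 2))) * Real.exp (-(y ^ 2)) := by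
        have h1 : Real.exp (-(3 * y ^ 2)) = Real.exp (-(y ^ 2)) * Real.exp (-(y ^ 2)) * Real.exp (-(y ^ 2)) := by
          rw [← Real.exp_add, ← Real.exp_add]
          congr 1
          ring
        have h2 : Real.exp (y ^ 2) * Real.exp (-(y ^ 2)) = 1 := by
          rw [← Real.exp_add, add_neg_cancel, Real.exp_zero]
        rw [h1]
        calc A0 * Real.exp (y ^ 2) * y ^ (4 * a) *
              (Real.exp (-(y ^ 2)) * Real.exp (-(y ^ 2)) * Real.exp (-(y ^ 2)))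
            = (A0 * y ^ (4 * a) * Real.exp (-(y ^ 2))) * Real.exp (-(y ^ 2)) *
              (Real.exp (y ^ 2) * Real.exp (-(y ^ 2))) := by ring
          _ = _ := by rw [h2, mul_one]
    _ ≤ 1 * Real.exp (-(y ^ 2)) := mul_le_mul_of_nonneg_right hY' (Real.exp_pos _).le
    _ = _ := one_mul _

/-- the statement of the gap for large fugacities (row GU) -/
def GapU (m : Model) : Prop := ∃ c : ℝ, 0 < c ∧ ∀ (Φ φ1 φ2 : ℝ) (h1 : 0 < φ1) (h2 : 0 < φ2), 1 ≤ φ1 →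
    φ2 ≤ Φ → φ1 < φ2 → ∀ K : ℕ, 2 ≤ K → 2 * Φ ≤ m.g K →
    ∀ (V : Type) [Fintype V] (S : Finset V), ∃ A B : (V → ℕ) → Prop,
      (∀ η ζ : V → ℕ, ∑ x ∈ S, η x ≤ ∑ x ∈ S, ζ x → A η ∨ B ζ) ∧
      (∑' η : V → ℕ, prw ((wf m φ2 h2).m1 K) η * (if A η then 1 else 0) ≤
        ENNReal.ofReal (Real.exp (- (c / Φ ^ 4 * (φ2 - φ1) ^ 2 * S.card)))) ∧
      (∑' ζ : V → ℕ, prw ((wf m φ1 h1).m1 K) ζ * (if B ζ then 1 else 0) ≤
        ENNReal.ofReal (Real.exp (- (c / Φ ^ 4 * (φ2 - φ1) ^ 2 * S.card))))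

end ZPD
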