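import Pool.Agent.ZP.SUa

/-! # Row SU: sprinkled domination for large fugacities, over the gap -/

set_option autoImplicit false

open scoped ENNReal BigOperators Classical

noncomputable section

namespace ZPD

open ZI ZI.Rows ZI.R2aux ZP

/-- sprinkled domination for large fugacities, over the statement of the gap -/
theorem sprinkle_u_of (m : Model) (d : ℕ) (hd : 0 < d) (hG : GapU m) :
    ∃ Cs C0 : ℕ, ∀ (Φ : ℝ) (hΦ : 0 < Φ), 1 ≤ Φ → ∀ l : ℕ, C0 * Φ ^ C0 ≤ (l : ℝ) →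
    ∀ (φ1 φ2 : ℝ) (h1 : 0 < φ1) (h2 : 0 < φ2), 1 ≤ φ1 → φ2 ≤ Φ → φ1 < φ2 →
    1 ≤ (φ2 - φ1) ^ 8 * l → ∀ q : ZI.Par d (wf m Φ hΦ), l ^ 3 ≤ q.M → l ≤ q.K →
    ∀ (x : Tor d q.M) (u : ℕ), l ^ Cs ≤ u →
    ∑' η : Tor d q.M → ℕ, prw ((wf m φ2 h2).m1 q.K) η * ∑' ζ : Tor d q.M → ℕ,
      prw ((wf m φ1 h1).m1 q.K) ζ * PrE q.w ((u + 1) * q.N1) (fun w => ∃ i, u * q.N1 ≤ i ∧
        i ≤ (u + 1) * q.N1 ∧ (w.take i).foldl ZI.stepA η x < (w.take i).foldl ZI.stepA ζ x) ≤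
      ENNReal.ofReal (Real.exp (-Real.sqrt l)) := by
  obtain ⟨c, hc, hgap⟩ := hG
  obtain ⟨C0, hC0, hwin⟩ := win_lb (wf m 1 one_pos) d hd
  obtain ⟨B1, hmom⟩ := exp_mom_poly m
  have hGp : 0 < m.Gp := by have := m.le_Gp; linarith
  have hC0' : (1 : ℝ) ≤ C0 := by exact_mod_cast hC0
  have hlog : 0 < Real.log (6 / 5) := Real.log_pos (by norm_num)
  set D : ℕ := C0 * (5 * C0) ^ d with hD
  set c0 : ℝ := min (min (1 / (C0 : ℝ)) c) (Real.log (6 / 5)) with hc0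
  have hc0p : 0 < c0 := lt_min (lt_min (by positivity) hc) hlog
  set A0 : ℝ := (1 + m.Gp) * (1 + D * C0 + D * (3 * (2 * C0) * (5 * C0) ^ d) + 2 * D + D * 3) with hA0
  have hA0p : 0 ≤ A0 := by positivity
  obtain ⟨C1, hC1⟩ := num_u A0 hA0p (C0 + 1 + 2 * d + 4 + 2 * d) (B1 + 1) c0 (by positivity) hc0p
  refine ⟨C0 + 1 + 2 * d + 4, C1 + D * C0 + 1, ?_⟩
  intro Φ hΦ hΦ1 l hl
  -- consequences of the size of `l`
  have hpow : ∀ a : ℕ, (1 : ℝ) ≤ Φ ^ a := fun a => one_le_pow₀ hΦ1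
  have hlC1 : C1 * Φ ^ C1 ≤ (l : ℝ) := by
    refine le_trans ?_ hl
    have h2 : Φ ^ C1 ≤ Φ ^ (C1 + D * C0 + 1) := pow_le_pow_right₀ hΦ1 (by omega)
    refine mul_le_mul ?_ h2 (by positivity) (by positivity)
    push_cast
    have : (0 : ℝ) ≤ D * C0 := by positivity
    linarith
  have hlD : D * C0 ≤ l := by
    have h2 := hpow (C1 + D * C0 + 1)
    have h3 : ((D * C0 : ℕ) : ℝ) ≤ l := by
      refine le_trans ?_ hl
      push_cast
      have h4 : (0 : ℝ) ≤ C1 := by positivity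
      have h5 : (0 : ℝ) ≤ D * C0 := by positivity
      nlinarith
    exact_mod_cast h3
  have hl1 : 1 ≤ l := by
    have h2 : 0 < D := by positivity
    have h3 : 1 ≤ D * C0 := Nat.mul_pos h2 hC0
    omega
  -- constants
  set E1 : ℝ := Real.exp (B1 * Φ) with hE1
  have hE1p : 0 < E1 := Real.exp_pos _
  have hcap := cap_le_of m d hd Φ hΦ E1 hE1p (fun φ h hle K hK hb => (hmom Φ hΦ1 φ h hle K hK hb).1)
  have heps := eps_le_of m d hd Φ hΦ 1 (E1 * (1 + Φ)) E1 (c / Φ ^ 4) (by positivity) hE1p hcap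
    (fun φ h hle K hK hb => (hmom Φ hΦ1 φ h hle K hK hb).2.2)
    (by
      intro φ1 φ2 h1 h2 hlo hle hlt K hK hb V _ S
      obtain ⟨A, B, hAB, hA, hB⟩ := hgap Φ φ1 φ2 h1 h2 hlo hle hlt K hK hb V S
      have hmon : Real.exp (-(c / Φ ^ 4 * (φ2 - φ1) ^ 2 * S.card)) ≤
          Real.exp (-(c / Φ ^ 4 * min 1 ((φ2 - φ1) ^ 2) * S.card)) := by
        refine Real.exp_le_exp.2 (neg_le_neg ?_)
        have h3 : 0 ≤ c / Φ ^ 4 := by positivity
        exact mul_le_mul_of_nonneg_right (mul_le_mul_of_nonneg_left (min_le_right _ _) h3)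
          (Nat.cast_nonneg _)
      exact ⟨A, B, hAB, hA.trans (ENNReal.ofReal_le_ofReal hmon),
        hB.trans (ENNReal.ofReal_le_ofReal hmon)⟩)
  have hC2p : 0 < 2 * (E1 * (1 + Φ)) + E1 := by positivity
  refine sprinkle_core m d hd Φ hΦ C0 hC0 1 (2 * (E1 * (1 + Φ)) + E1) (c / Φ ^ 4) E1 hC2p
    (by positivity) hE1p ?_ heps (fun φ h hle K hK hb => (hmom Φ hΦ1 φ h hle K hK hb).2.1) l hl1 hlD ?_
  · -- the window does not depend on the fugacity
    intro q r hr η ζ z v hv hz hy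
    have h3 := hwin (toF q 1 one_pos hΦ1) r hr η ζ z v hv hz hy
    rw [toF_w] at h3
    exact h3
  · -- the numbers
    have h3 := hC1 Φ hΦ1 l hlC1
    refine le_trans ?_ h3
    set a : ℕ := C0 + 1 + 2 * d + 4 + 2 * d with ha
    set G : ℝ := Real.exp ((B1 + 1) * Φ) with hG
    have hG1 : 1 ≤ G := Real.one_le_exp (by positivity)
    have hEG : E1 * (1 + Φ) ≤ G := by
      have h4 : 1 + Φ ≤ Real.exp Φ := by
        have := Real.add_one_le_exp Φ
        linarith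
      calc E1 * (1 + Φ) ≤ E1 * Real.exp Φ := mul_le_mul_of_nonneg_left h4 hE1p.le
        _ = G := by rw [hE1, hG, ← Real.exp_add]; congr 1; ring
    have hE1G : E1 ≤ G := by
      refine le_trans ?_ hEG
      nlinarith
    have hpre : (1 + m.Gp) * (E1 + (D : ℝ) * C0 +
        (D : ℝ) * ((2 * (E1 * (1 + Φ)) + E1) * (2 * C0) * (5 * C0) ^ d) + 2 * (D : ℝ) +
        (D : ℝ) * (2 * (E1 * (1 + Φ)) + E1)) ≤ A0 * G := by
      have h4 : 2 * (E1 * (1 + Φ)) + E1 ≤ 3 * G := by linarith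
      have h5 : (0 : ℝ) ≤ D * C0 := by positivity
      have h6 : (D : ℝ) * C0 ≤ D * C0 * G := by nlinarith
      have h7 : (D : ℝ) * ((2 * (E1 * (1 + Φ)) + E1) * (2 * C0) * (5 * C0) ^ d) ≤
          D * ((3 * G) * (2 * C0) * (5 * C0) ^ d) := by gcongr
      have h8 : 2 * (D : ℝ) ≤ 2 * D * G := by
        have : (0 : ℝ) ≤ 2 * D := by positivity
        nlinarith
      have h9 : (D : ℝ) * (2 * (E1 * (1 + Φ)) + E1) ≤ D * (3 * G) :=
        mul_le_mul_of_nonneg_left h4 (Nat.cast_nonneg _)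
      have h10 : E1 + (D : ℝ) * C0 +
        (D : ℝ) * ((2 * (E1 * (1 + Φ)) + E1) * (2 * C0) * (5 * C0) ^ d) + 2 * (D : ℝ) +
        (D : ℝ) * (2 * (E1 * (1 + Φ)) + E1) ≤
          (1 + D * C0 + D * (3 * (2 * C0) * (5 * C0) ^ d) + 2 * D + D * 3) * G := by
        calc _ ≤ G + D * C0 * G + D * ((3 * G) * (2 * C0) * (5 * C0) ^ d) + 2 * D * G + D * (3 * G) :=
              add_le_add (add_le_add (add_le_add (add_le_add hE1G h6) h7) h8) h9
          _ = _ := by ring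
      calc _ ≤ (1 + m.Gp) * ((1 + D * C0 + D * (3 * (2 * C0) * (5 * C0) ^ d) + 2 * D + D * 3) * G) :=
            mul_le_mul_of_nonneg_left h10 (by linarith)
        _ = A0 * G := by rw [hA0]; ring
    have hrate : c0 / Φ ^ 4 ≤ min (min (1 / (C0 : ℝ)) (c / Φ ^ 4)) (Real.log (6 / 5)) := by
      have hΦ4 := hpow 4
      have hle : ∀ t : ℝ, 0 < t → t / Φ ^ 4 ≤ t := fun t ht => div_le_self ht.le hΦ4
      refine le_min (le_min ?_ ?_) ?_
      · exact (hle c0 hc0p).trans ((min_le_left _ _).trans (min_le_left _ _))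
      · refine div_le_div_of_nonneg_right ?_ (by positivity)
        exact (min_le_left _ _).trans (min_le_right _ _)
      · exact (hle c0 hc0p).trans (min_le_right _ _)
    refine mul_le_mul ?_ ?_ (Real.exp_pos _).le (by positivity)
    · exact mul_le_mul_of_nonneg_right hpre (by positivity)
    · refine Real.exp_le_exp.2 (neg_le_neg ?_)
      exact mul_le_mul_of_nonneg_right hrate (by positivity)

end ZPD
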