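import Pool.Agent.ZP.Mx

/-! # Single site estimates, uniform in the cap and in the fugacity -/

set_option autoImplicit false

open scoped ENNReal BigOperators Classical

noncomputable section

namespace ZPD

open ZI ZI.Rows ZI.R2aux ZP

section site

variable (m : Model) (φh : ℝ)

theorem wf_m1_succ (φ : ℝ) (h : 0 < φ) (hle : φ ≤ φh) (K : ℕ) (hK : 2 ≤ K) (hb : 2 * φh ≤ m.g K)
    (k : ℕ) : (wf m φ h).m1 K (k + 1) * ENNReal.ofReal (m.gK K (k + 1)) =
      ENNReal.ofReal φ * (wf m φ h).m1 K k :=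
  m1_succ (wf m φ h) K hK (by show 2 * φ ≤ m.g K; linarith) k

theorem wf_tsum (φ : ℝ) (h : 0 < φ) (hle : φ ≤ φh) (K : ℕ) (hK : 2 ≤ K) (hb : 2 * φh ≤ m.g K) :
    ∑' k, (wf m φ h).m1 K k = 1 :=
  tsum_m1 (wf m φ h) K hK (by show 2 * φ ≤ m.g K; linarith)

/-- geometric tail -/
theorem tail (hφ : 0 < φh) : ∃ k0 : ℕ, ∀ (φ : ℝ) (h : 0 < φ), φ ≤ φh → ∀ K : ℕ, 2 ≤ K → 2 * φh ≤ m.g K →
    ∀ k, (wf m φ h).m1 K k ≤ 2 ^ k0 * (1 / 2 : ℝ≥0∞) ^ k := by
  obtain ⟨k0, hk0⟩ := exists_k0 (wf m φh hφ)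
  change 2 * φh ≤ m.g k0 at hk0
  refine ⟨k0, ?_⟩
  intro φ h hle K hK hb
  have h1 := wf_tsum m φh φ h hle K hK hb
  -- the ratio
  have hr : ∀ k, k0 ≤ k + 1 → (wf m φ h).m1 K (k + 1) * 2 ≤ (wf m φ h).m1 K k := by
    intro k hk
    have h2 := wf_m1_succ m φh φ h hle K hK hb k
    have h3 : ENNReal.ofReal (2 * φ) ≤ ENNReal.ofReal (m.gK K (k + 1)) := by
      refine ENNReal.ofReal_le_ofReal ?_
      unfold Model.gK
      rcases le_total (k + 1) K with h4 | h4
      · rw [min_eq_left h4]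
        have := g_mono m hk
        linarith
      · rw [min_eq_right h4]
        linarith
    have h4 : (wf m φ h).m1 K (k + 1) * ENNReal.ofReal (2 * φ) ≤
        ENNReal.ofReal φ * (wf m φ h).m1 K k := by
      rw [← h2]
      exact mul_le_mul_right h3 _
    rw [ENNReal.ofReal_mul (by norm_num), ENNReal.ofReal_ofNat] at h4
    have h5 : ENNReal.ofReal φ ≠ 0 := by
      rw [ENNReal.ofReal_ne_zero_iff]
      exact h
    have h6 : ENNReal.ofReal φ * ((wf m φ h).m1 K (k + 1) * 2) ≤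
        ENNReal.ofReal φ * (wf m φ h).m1 K k := by
      refine le_trans (le_of_eq ?_) h4
      ring
    exact (ENNReal.mul_le_mul_iff_right h5 ENNReal.ofReal_ne_top).mp h6
  have hone : ∀ k, (wf m φ h).m1 K k ≤ 1 := by
    intro k
    rw [← h1]
    exact ENNReal.le_tsum _
  have h2p : ∀ n : ℕ, (2 : ℝ≥0∞) ^ n * (1 / 2 : ℝ≥0∞) ^ n = 1 := by
    intro n
    rw [← mul_pow, one_div, ENNReal.mul_inv_cancel (by norm_num) (by norm_num), one_pow]
  intro k
  rcases le_total k k0 with hk | hk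
  · refine (hone k).trans ?_
    obtain ⟨j, rfl⟩ := Nat.exists_eq_add_of_le hk
    rw [pow_add]
    calc (1 : ℝ≥0∞) = 2 ^ k * (1 / 2) ^ k := (h2p k).symm
      _ ≤ 2 ^ k * 2 ^ j * (1 / 2) ^ k := by
          refine mul_le_mul_left ?_ _
          exact le_mul_of_one_le_right zero_le (one_le_pow₀ (by norm_num))
  · obtain ⟨j, rfl⟩ := Nat.exists_eq_add_of_le hk
    have h3 : (wf m φ h).m1 K (k0 + j) ≤ (1 / 2 : ℝ≥0∞) ^ j := by
      clear hk
      induction j with
      | zero =>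
        rw [pow_zero]
        exact hone _
      | succ j ih =>
        rw [← add_assoc, pow_succ]
        calc (wf m φ h).m1 K (k0 + j + 1) = ((wf m φ h).m1 K (k0 + j + 1) * 2) * (1 / 2) := by
              rw [mul_assoc, one_div, ENNReal.mul_inv_cancel (by norm_num) (by norm_num), mul_one]
          _ ≤ (1 / 2 : ℝ≥0∞) ^ j * (1 / 2) := by
              gcongr
              exact (hr (k0 + j) (by omega)).trans ih
    calc (wf m φ h).m1 K (k0 + j) ≤ (1 / 2 : ℝ≥0∞) ^ j := h3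
      _ = 2 ^ k0 * (1 / 2 : ℝ≥0∞) ^ (k0 + j) := by
          rw [pow_add, ← mul_assoc, h2p, one_mul]

/-- the same with real numbers -/
theorem tail' (hφ : 0 < φh) : ∃ k0 : ℕ, ∀ (φ : ℝ) (h : 0 < φ), φ ≤ φh → ∀ K : ℕ, 2 ≤ K → 2 * φh ≤ m.g K →
    ∀ k, (wf m φ h).m1 K k ≤ ENNReal.ofReal (2 ^ k0 * (1 / 2) ^ k) := by
  obtain ⟨k0, hk0⟩ := tail m φh hφ
  refine ⟨k0, fun φ h hle K hK hb k => (hk0 φ h hle K hK hb k).trans (le_of_eq ?_)⟩
  rw [ENNReal.ofReal_mul (by positivity), ENNReal.ofReal_pow (by positivity),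
    ENNReal.ofReal_pow (by positivity), ENNReal.ofReal_ofNat]
  congr 2
  rw [one_div, one_div, ENNReal.ofReal_inv_of_pos (by norm_num), ENNReal.ofReal_ofNat]

/-- geometric series -/
theorem geo (c x : ℝ) (hc : 0 ≤ c) (hx : 0 ≤ x) (hx1 : x < 1) :
    ∑' k : ℕ, ENNReal.ofReal (c * x ^ k) = ENNReal.ofReal (c * (1 - x)⁻¹) := by
  rw [← ENNReal.ofReal_tsum_of_nonneg (fun k => by positivity)
    ((summable_geometric_of_lt_one hx hx1).mul_left c), tsum_mul_left,
    tsum_geometric_of_lt_one hx hx1]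

/-- exponential moment -/
theorem exp_mom (hφ : 0 < φh) : ∃ C : ℝ, 0 < C ∧ ∀ (φ : ℝ) (h : 0 < φ), φ ≤ φh → ∀ K : ℕ, 2 ≤ K →
    2 * φh ≤ m.g K →
    (∑' k, (wf m φ h).m1 K k * ENNReal.ofReal (3 / 2) ^ k ≤ ENNReal.ofReal C) ∧
    (∑' k, (wf m φ h).m1 K k * (k : ℝ≥0∞) ≤ ENNReal.ofReal C) ∧
    ∀ l : ℕ, ∑' k, (wf m φ h).m1 K k * ((if l < k then (k : ℝ≥0∞) else 0)) ≤
      ENNReal.ofReal (C * (5 / 6) ^ l) := by
  obtain ⟨k0, hk0⟩ := tail' m φh hφ
  refine ⟨16 * 2 ^ k0, by positivity, ?_⟩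
  intro φ h hle K hK hb
  have hk := hk0 φ h hle K hK hb
  have hbern : ∀ k : ℕ, (k : ℝ) ≤ 4 * (5 / 4) ^ k := by
    intro k
    have := one_add_mul_le_pow (a := (1 / 4 : ℝ)) (by norm_num) k
    norm_num at this
    linarith
  have hmain : ∀ l : ℕ, ∑' k, (wf m φ h).m1 K k * ((if l < k then (k : ℝ≥0∞) else 0)) ≤
      ENNReal.ofReal (16 * 2 ^ k0 * (5 / 6) ^ l) := by
    intro l
    have h1 : ∀ k : ℕ, (wf m φ h).m1 K k * ((if l < k then (k : ℝ≥0∞) else 0)) ≤
        ENNReal.ofReal ((4 * 2 ^ k0 * (5 / 6) ^ l) * (3 / 4) ^ k) := by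
      intro k
      by_cases hl : l < k
      · rw [if_pos hl]
        refine (mul_le_mul_left (hk k) _).trans ?_
        rw [← ENNReal.ofReal_natCast, ← ENNReal.ofReal_mul (by positivity)]
        refine ENNReal.ofReal_le_ofReal ?_
        have h2 := hbern k
        have h3 : (1 : ℝ) ≤ (5 / 6) ^ l * (6 / 5) ^ k := by
          obtain ⟨j, rfl⟩ := Nat.exists_eq_add_of_le hl.le
          rw [pow_add, ← mul_assoc, ← mul_pow]
          norm_num
          exact one_le_pow₀ (by norm_num)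
        have h4 : (0 : ℝ) ≤ 2 ^ k0 * (1 / 2) ^ k := by positivity
        calc 2 ^ k0 * (1 / 2) ^ k * (k : ℝ) ≤ 2 ^ k0 * (1 / 2) ^ k * (4 * (5 / 4) ^ k) :=
              mul_le_mul_of_nonneg_left h2 h4
          _ = (2 ^ k0 * (1 / 2) ^ k * (4 * (5 / 4) ^ k)) * 1 := (mul_one _).symm
          _ ≤ (2 ^ k0 * (1 / 2) ^ k * (4 * (5 / 4) ^ k)) * ((5 / 6) ^ l * (6 / 5) ^ k) :=
              mul_le_mul_of_nonneg_left h3 (by positivity)
          _ = (4 * 2 ^ k0 * (5 / 6) ^ l) * ((1 / 2) ^ k * (5 / 4) ^ k * (6 / 5) ^ k) := by ring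
          _ = (4 * 2 ^ k0 * (5 / 6) ^ l) * (3 / 4) ^ k := by
              rw [← mul_pow, ← mul_pow]
              norm_num
      · rw [if_neg hl, mul_zero]
        exact zero_le
    refine (ENNReal.tsum_le_tsum h1).trans (le_of_eq ?_)
    rw [geo _ _ (by positivity) (by norm_num) (by norm_num)]
    congr 1
    ring
  refine ⟨?_, ?_, hmain⟩
  · have h1 : ∀ k : ℕ, (wf m φ h).m1 K k * ENNReal.ofReal (3 / 2) ^ k ≤
        ENNReal.ofReal (2 ^ k0 * (3 / 4) ^ k) := by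
      intro k
      refine (mul_le_mul_left (hk k) _).trans (le_of_eq ?_)
      rw [← ENNReal.ofReal_pow (by norm_num), ← ENNReal.ofReal_mul (by positivity)]
      congr 1
      rw [mul_assoc, ← mul_pow]
      norm_num
    refine (ENNReal.tsum_le_tsum h1).trans ?_
    rw [geo _ _ (by positivity) (by norm_num) (by norm_num)]
    refine ENNReal.ofReal_le_ofReal ?_
    have : (0 : ℝ) < 2 ^ k0 := by positivity
    norm_num
    linarith
  · have h1 := hmain 0
    refine le_trans (ENNReal.tsum_le_tsum fun k => ?_) (h1.trans (ENNReal.ofReal_le_ofReal (by simp)))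
    refine mul_le_mul_right ?_ _
    rcases Nat.eq_zero_or_pos k with rfl | hk
    · simp
    · rw [if_pos hk]

/-- lower bound for the probability of an empty site -/
theorem zero_lb (hφ : 0 < φh) : ∃ c : ℝ, 0 < c ∧ ∀ (φ : ℝ) (h : 0 < φ), φ ≤ φh → ∀ K : ℕ, 2 ≤ K →
    2 * φh ≤ m.g K → c ≤ 1 / ∑' j, (wf m φ h).wt K j := by
  obtain ⟨k0, hk0⟩ := tail' m φh hφ
  have hρ : (1 : ℝ) ≤ 1 + φh / m.Gm := by
    have : 0 < φh / m.Gm := div_pos hφ m.Gm_pos
    linarith
  refine ⟨1 / (2 * ((k0 + 2 : ℕ) * (1 + φh / m.Gm) ^ (k0 + 2))), by positivity, ?_⟩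
  intro φ h hle K hK hb
  have hk := hk0 φ h hle K hK hb
  have h1 := wf_tsum m φh φ h hle K hK hb
  set Z := ∑' j, (wf m φ h).wt K j with hZ
  have hbφ : 2 * (wf m φ h).φ ≤ (wf m φ h).g K := by show 2 * φ ≤ m.g K; linarith
  have hs := summable_wt (wf m φ h) K hK hbφ
  have hwp := wt_pos (wf m φ h) K hK
  have hZp : 0 < Z := tsum_wt_pos (wf m φ h) K hK hbφ
  -- the weights grow at most geometrically
  have hgr : ∀ k, (wf m φ h).wt K k ≤ (1 + φh / m.Gm) ^ k := by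
    intro k
    induction k with
    | zero => simp [Model.wt]
    | succ k ih =>
      have h2 := wt_succ (wf m φ h) K hK k
      have h3 : m.Gm ≤ (wf m φ h).gK K (k + 1) := by
        show m.Gm ≤ m.g (min (k + 1) K)
        have h4 : m.g 1 ≤ m.g (min (k + 1) K) := g_mono m (by omega)
        have h5 := m.inc_lb 0
        rw [m.g0] at h5
        linarith
      have h4 : (wf m φ h).wt K (k + 1) * m.Gm ≤ φh * (1 + φh / m.Gm) ^ k := by
        calc (wf m φ h).wt K (k + 1) * m.Gm ≤ (wf m φ h).wt K (k + 1) * (wf m φ h).gK K (k + 1) :=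
              mul_le_mul_of_nonneg_left h3 (hwp _).le
          _ = φ * (wf m φ h).wt K k := h2
          _ ≤ φh * (1 + φh / m.Gm) ^ k :=
              mul_le_mul hle ih (hwp _).le hφ.le
      rw [pow_succ]
      have h5 : (wf m φ h).wt K (k + 1) ≤ φh * (1 + φh / m.Gm) ^ k / m.Gm := by
        rw [le_div_iff₀ m.Gm_pos]
        exact h4
      refine h5.trans ?_
      have h6 : (0 : ℝ) ≤ (1 + φh / m.Gm) ^ k := by positivity
      calc φh * (1 + φh / m.Gm) ^ k / m.Gm = (1 + φh / m.Gm) ^ k * (φh / m.Gm) := by ring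
        _ ≤ (1 + φh / m.Gm) ^ k * (1 + φh / m.Gm) :=
            mul_le_mul_of_nonneg_left (by linarith) h6
  -- the sum
  have h2 : ∀ k, (wf m φ h).m1 K k ≤ (if k < k0 + 2 then
      ENNReal.ofReal ((1 + φh / m.Gm) ^ (k0 + 2) / Z) else 0) +
      (if k < k0 + 2 then 0 else ENNReal.ofReal (2 ^ k0 * (1 / 2) ^ k)) := by
    intro k
    by_cases hlt : k < k0 + 2
    · rw [if_pos hlt, if_pos hlt, add_zero]
      unfold Model.m1
      refine ENNReal.ofReal_le_ofReal (div_le_div_of_nonneg_right ((hgr k).trans ?_) hZp.le)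
      exact pow_le_pow_right₀ hρ hlt.le
    · rw [if_neg hlt, if_neg hlt, zero_add]
      exact hk k
  have h3 : (1 : ℝ≥0∞) ≤ ENNReal.ofReal ((k0 + 2 : ℕ) * ((1 + φh / m.Gm) ^ (k0 + 2) / Z)) +
      ENNReal.ofReal (1 / 2) := by
    rw [← h1]
    refine (ENNReal.tsum_le_tsum h2).trans ?_
    rw [ENNReal.tsum_add]
    refine add_le_add ?_ ?_
    · rw [tsum_eq_sum (s := Finset.range (k0 + 2)) (fun k hk => by
        rw [Finset.mem_range] at hk
        exact if_neg hk)]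
      rw [Finset.sum_congr rfl fun k hk => by rw [if_pos (Finset.mem_range.1 hk)],
        Finset.sum_const, Finset.card_range, nsmul_eq_mul, ← ENNReal.ofReal_natCast,
        ← ENNReal.ofReal_mul (by positivity)]
    · have h4 : (∑' k, (if k < k0 + 2 then 0 else ENNReal.ofReal (2 ^ k0 * (1 / 2) ^ k))) =
          ∑' j, ENNReal.ofReal ((1 / 4) * (1 / 2) ^ j) := by
        rw [← (add_right_injective (k0 + 2)).tsum_eq
          (f := fun k => if k < k0 + 2 then 0 else ENNReal.ofReal (2 ^ k0 * (1 / 2) ^ k))]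
        · refine tsum_congr fun j => ?_
          rw [if_neg (by omega)]
          congr 1
          rw [pow_add, pow_add, ← mul_assoc, ← mul_assoc, ← mul_pow]
          norm_num
        · intro k hk
          refine ⟨k - (k0 + 2), ?_⟩
          have h5 : ¬ k < k0 + 2 := by
            intro h6
            exact hk (if_pos h6)
          show k0 + 2 + (k - (k0 + 2)) = k
          omega
      rw [h4, geo _ _ (by norm_num) (by norm_num) (by norm_num)]
      refine ENNReal.ofReal_le_ofReal (by norm_num)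
  rw [← ENNReal.ofReal_add (by positivity) (by norm_num), ← ENNReal.ofReal_one,
    ENNReal.ofReal_le_ofReal_iff (by positivity)] at h3
  have h4 : 1 / 2 ≤ ((k0 + 2 : ℕ) * (1 + φh / m.Gm) ^ (k0 + 2)) * (1 / Z) := by
    have h5 : ((k0 + 2 : ℕ) : ℝ) * ((1 + φh / m.Gm) ^ (k0 + 2) / Z) =
        ((k0 + 2 : ℕ) * (1 + φh / m.Gm) ^ (k0 + 2)) * (1 / Z) := by ring
    rw [← h5]
    linarith
  have h6 : (0 : ℝ) < (k0 + 2 : ℕ) * (1 + φh / m.Gm) ^ (k0 + 2) := by positivity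
  rw [div_le_iff₀ (by positivity)]
  nlinarith [h4]

end site

end ZPD
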