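import Pool.Agent.ZP.Eps

/-! # From the integer time to all steps of one unit of time -/

set_option autoImplicit false

open scoped ENNReal BigOperators Classical

noncomputable section

namespace ZPD

open ZI ZI.Rows ZI.R2aux ZP

variable {d : ℕ}

theorem hits_of_take {σ α : Type} (step : σ → α → σ) (bad : σ → Prop) (l : List α) :
    ∀ (s : σ) (j : ℕ), j ≤ l.length → bad ((l.take j).foldl step s) → Hits step bad s l := by
  induction l with
  | nil =>
    intro s j hj h
    show bad s
    simpa using h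
  | cons a l ih =>
    intro s j hj h
    cases j with
    | zero => exact Or.inl (by simpa using h)
    | succ j => exact Or.inr (ih (step s a) j (by simpa using hj) (by simpa using h))

/-- the pair of the configurations along one letter -/
def stp2 {M K : ℕ} (s : (Tor d M → ℕ) × (Tor d M → ℕ)) (a : Let d M K) :
    (Tor d M → ℕ) × (Tor d M → ℕ) := (stepA s.1 a, stepA s.2 a)

theorem foldl_stp2 {M K : ℕ} (l : List (Let d M K)) : ∀ s : (Tor d M → ℕ) × (Tor d M → ℕ),
    l.foldl stp2 s = (l.foldl stepA s.1, l.foldl stepA s.2) := by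
  induction l with
  | nil => intro s; rfl
  | cons a l ih => intro s; rw [List.foldl_cons, ih]; rfl

variable {m : Model} (q : Par d m)

/-- the arrivals at `x` -/
theorem arr_le (hd : 0 < d) (x : Tor d q.M) (s : (Tor d q.M → ℕ) × (Tor d q.M → ℕ)) :
    ∑ a, q.w a * ((((stp2 s a).2 x - (stp2 s a).1 x : ℕ)) : ℝ≥0∞) ≤ ((s.2 x - s.1 x : ℕ) : ℝ≥0∞) +
      ENNReal.ofReal (m.Gp / (2 * d) * q.p) *
        ∑ e : Dir d, ((s.2 (x - tv (dv e)) - s.1 (x - tv (dv e)) : ℕ) : ℝ≥0∞) := by
  obtain ⟨η, ζ⟩ := s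
  have hM : 2 ≤ q.M := by have := q.M_ge; omega
  simp only [stp2]
  -- one letter
  have h1 : ∀ a : Let d q.M q.K, q.w a * (((stepA ζ a x - stepA η a x : ℕ)) : ℝ≥0∞) ≤
      q.w a * ((ζ x - η x : ℕ) : ℝ≥0∞) + (match a with
        | none => 0
        | some l => q.w (some l) * (if onlyB η ζ (l.1, (l.2.1 : ℕ), l.2.2) ∧ x = l.1 + tv (dv l.2.2)
            then 1 else 0)) := by
    intro a
    cases a with
    | none => exact le_self_add
    | some l =>
      obtain ⟨y, k, e⟩ := l
      show q.w (some (y, k, e)) * ((mv nbT ζ (y, (k : ℕ), e) x - mv nbT η (y, (k : ℕ), e) x : ℕ) : ℝ≥0∞) ≤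
        q.w (some (y, k, e)) * ((ζ x - η x : ℕ) : ℝ≥0∞) + q.w (some (y, k, e)) *
          (if onlyB η ζ (y, (k : ℕ), e) ∧ x = y + tv (dv e) then 1 else 0)
      rw [← mul_add]
      refine mul_le_mul_right ?_ _
      have hne := add_tv_ne hM y e
      rw [mv_val, mv_val]
      unfold onlyB
      simp only
      by_cases h : ((k : ℕ) < ζ y ∧ ¬ (k : ℕ) < η y) ∧ x = y + tv (dv e)
      · rw [if_pos h]
        obtain ⟨⟨h2, h3⟩, h4⟩ := h
        rw [if_pos h2, if_neg h3, if_pos h4]
        have h5 : x ≠ y := by rw [h4]; exact hne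
        rw [if_neg h5]
        have h6 : ζ x + 1 - η x ≤ (ζ x - η x) + 1 := by omega
        exact_mod_cast h6
      · rw [if_neg h, add_zero]
        have h6 : ((if (k : ℕ) < ζ y then (if x = y then ζ y - 1 else ζ x) +
            (if x = y + tv (dv e) then 1 else 0) else ζ x) -
            (if (k : ℕ) < η y then (if x = y then η y - 1 else η x) +
            (if x = y + tv (dv e) then 1 else 0) else η x)) ≤ ζ x - η x := by
          by_cases h2 : (k : ℕ) < ζ y
          · by_cases h3 : (k : ℕ) < η y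
            · rw [if_pos h2, if_pos h3]
              by_cases hxy : x = y
              · rw [if_pos hxy, if_pos hxy, hxy]
                omega
              · rw [if_neg hxy, if_neg hxy]
                omega
            · rw [if_pos h2, if_neg h3]
              have h4 : ¬ x = y + tv (dv e) := fun h4 => h ⟨⟨h2, h3⟩, h4⟩
              rw [if_neg h4, add_zero]
              by_cases hxy : x = y
              · rw [if_pos hxy, hxy]
                omega
              · rw [if_neg hxy]
          · rw [if_neg h2]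
            by_cases h3 : (k : ℕ) < η y
            · rw [if_pos h3]
              by_cases hxy : x = y
              · rw [if_pos hxy]
                rw [hxy]
                omega
              · rw [if_neg hxy]
                omega
            · rw [if_neg h3]
        exact_mod_cast h6
  refine (Finset.sum_le_sum fun a _ => h1 a).trans ?_
  rw [Finset.sum_add_distrib]
  refine add_le_add (le_of_eq ?_) ?_
  · rw [← Finset.sum_mul, sum_w q hd, one_mul]
  · rw [Fintype.sum_option, zero_add, Fintype.sum_prod_type, Finset.mul_sum]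
    -- sum over the sites
    have h2 : ∀ y : Tor d q.M, (∑ c : Fin q.K × Dir d, q.w (some (y, c)) *
        (if onlyB η ζ (y, (c.1 : ℕ), c.2) ∧ x = y + tv (dv c.2) then 1 else 0)) ≤
        ∑ e : Dir d, (if y = x - tv (dv e) then ENNReal.ofReal (m.Gp / (2 * d) * q.p) *
          ((ζ (x - tv (dv e)) - η (x - tv (dv e)) : ℕ) : ℝ≥0∞) else 0) := by
      intro y
      rw [Fintype.sum_prod_type_right]
      refine Finset.sum_le_sum fun e _ => ?_
      by_cases hy : y = x - tv (dv e)
      · rw [if_pos hy]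
        have hx : x = y + tv (dv e) := by rw [hy, sub_add_cancel]
        have h3 : ∀ k : Fin q.K, q.w (some (y, k, e)) *
            (if onlyB η ζ (y, (k : ℕ), e) ∧ x = y + tv (dv e) then 1 else 0) ≤
            (if (k : ℕ) < ζ y ∧ ¬ (k : ℕ) < η y then 1 else 0) * ENNReal.ofReal (m.Gp / (2 * d) * q.p) := by
          intro k
          by_cases h : (k : ℕ) < ζ y ∧ ¬ (k : ℕ) < η y
          · rw [if_pos h, one_mul, if_pos ⟨h, hx⟩, mul_one]
            show ENNReal.ofReal (m.lam d k * q.p) ≤ _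
            refine ENNReal.ofReal_le_ofReal ?_
            exact mul_le_mul_of_nonneg_right (C2.lam_ub m hd k) q.p_pos.le
          · rw [if_neg (fun hh => h hh.1), mul_zero]
            exact zero_le
        refine (Finset.sum_le_sum fun k _ => h3 k).trans ?_
        rw [← Finset.sum_mul, mul_comm]
        refine mul_le_mul_right ?_ _
        rw [← hy]
        rw [Fin.sum_univ_eq_sum_range
          (fun k => if k < ζ y ∧ ¬ k < η y then (1 : ℝ≥0∞) else 0) q.K, ← Finset.sum_filter,
          Finset.sum_const, nsmul_eq_mul, mul_one]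
        have h4 : (Finset.range q.K).filter (fun k => k < ζ y ∧ ¬ k < η y) ⊆
            Finset.Ico (η y) (ζ y) := by
          intro k hk
          rw [Finset.mem_filter] at hk
          rw [Finset.mem_Ico]
          omega
        have h5 := Finset.card_le_card h4
        rw [Nat.card_Ico] at h5
        exact_mod_cast h5
      · rw [if_neg hy]
        have hx : ¬ x = y + tv (dv e) := by
          intro h
          exact hy (by rw [h, add_sub_cancel_right])
        refine le_of_eq (Finset.sum_eq_zero fun k _ => ?_)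
        rw [if_neg (fun hh => hx hh.2), mul_zero]
    refine (Finset.sum_le_sum fun y _ => h2 y).trans (le_of_eq ?_)
    rw [Finset.sum_comm]
    refine Finset.sum_congr rfl fun e _ => ?_
    rw [Finset.sum_ite_eq' Finset.univ (x - tv (dv e)), if_pos (Finset.mem_univ _)]

section unit

/-- a discrepancy appears at `x` along the word -/
def ghit {M K : ℕ} (x : Tor d M) (η ζ : Tor d M → ℕ) (l : List (Let d M K)) : ℝ≥0∞ :=
  if Hits stp2 (fun s : (Tor d M → ℕ) × (Tor d M → ℕ) =>
    (1 : ℝ≥0∞) ≤ ((s.2 x - s.1 x : ℕ) : ℝ≥0∞)) (η, ζ) l then 1 else 0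

variable {φh : ℝ} {hφ : 0 < φh} (q : Par d (wf m φh hφ)) (φ1 φ2 : ℝ) (h1 : 0 < φ1) (h2 : 0 < φ2)

/-- one unit of time -/
theorem unit_le (hd : 0 < d) (u : ℕ) (x : Tor d q.M) :
    JE (pr1 q φ2 h2) (pr1 q φ1 h1) q.w ((u + 1) * q.N1) (fun η ζ l =>
      if ∃ i, u * q.N1 ≤ i ∧ i ≤ (u + 1) * q.N1 ∧
        (l.take i).foldl stepA η x < (l.take i).foldl stepA ζ x then 1 else 0) ≤
      ENNReal.ofReal (1 + m.Gp) *
        bs q ((wf m φ2 h2).m1 q.K) ((wf m φ1 h1).m1 q.K) (u * q.N1) x := by
  have hGp : 0 < m.Gp := by have := m.le_Gp; linarith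
  have hd' : (0 : ℝ) < d := by exact_mod_cast hd
  set B := bs q ((wf m φ2 h2).m1 q.K) ((wf m φ1 h1).m1 q.K) (u * q.N1) x with hB
  set N := u * q.N1 with hN
  have hNN : (u + 1) * q.N1 = N + q.N1 := by rw [hN]; ring
  rw [hNN]
  set κ := ENNReal.ofReal (m.Gp / (2 * d) * q.p) with hκ
  -- the event
  have e1 : JE (pr1 q φ2 h2) (pr1 q φ1 h1) q.w (N + q.N1) (fun η ζ l =>
      if ∃ i, N ≤ i ∧ i ≤ N + q.N1 ∧
        (l.take i).foldl stepA η x < (l.take i).foldl stepA ζ x then 1 else 0) ≤
      JE (pr1 q φ2 h2) (pr1 q φ1 h1) q.w (N + q.N1) (fun η ζ l =>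
        ghit x ((l.take N).foldl stepA η) ((l.take N).foldl stepA ζ) (l.drop N)) := by
    refine JE_mono _ _ _ _ fun η ζ l hl => ?_
    by_cases h : ∃ i, N ≤ i ∧ i ≤ N + q.N1 ∧
        (l.take i).foldl stepA η x < (l.take i).foldl stepA ζ x
    · rw [if_pos h]
      obtain ⟨i, hi1, hi2, hi3⟩ := h
      unfold ghit
      rw [if_pos]
      obtain ⟨j, rfl⟩ := Nat.exists_eq_add_of_le hi1
      refine hits_of_take stp2 _ (l.drop N) _ j (by rw [List.length_drop]; omega) ?_
      rw [foldl_stp2]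
      simp only
      rw [← List.foldl_append, ← List.foldl_append]
      have h3 : l.take N ++ (l.drop N).take j = l.take (N + j) := by
        rw [List.take_add]
      rw [h3]
      have h4 : 1 ≤ (l.take (N + j)).foldl stepA ζ x - (l.take (N + j)).foldl stepA η x := by
        omega
      exact_mod_cast h4
    · rw [if_neg h]
      exact zero_le
  refine e1.trans ?_
  refine (le_of_eq (JE_split (pr1 q φ2 h2) (pr1 q φ1 h1) q.w N q.N1 (ghit x))).trans ?_
  -- the maximal inequality
  have e2 : ∀ η ζ : Tor d q.M → ℕ, EvE q.w q.N1 (ghit x η ζ) ≤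
      ((ζ x - η x : ℕ) : ℝ≥0∞) + ∑ i ∈ Finset.range q.N1, EvE q.w i (fun l =>
        κ * ∑ e : Dir d, ((l.foldl stepA ζ (x - tv (dv e)) - l.foldl stepA η (x - tv (dv e)) : ℕ) : ℝ≥0∞)) := by
    intro η ζ
    have h3 := hits_le q.w (sum_w q hd) stp2 (fun s => ((s.2 x - s.1 x : ℕ) : ℝ≥0∞))
      (fun s => κ * ∑ e : Dir d, ((s.2 (x - tv (dv e)) - s.1 (x - tv (dv e)) : ℕ) : ℝ≥0∞))
      (fun s => arr_le q hd x s) q.N1 (η, ζ)
    simp only [foldl_stp2] at h3
    exact h3
  have e3 : JE (pr1 q φ2 h2) (pr1 q φ1 h1) q.w N (fun η ζ l =>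
      EvE q.w q.N1 (ghit x (l.foldl stepA η) (l.foldl stepA ζ))) ≤
      JE (pr1 q φ2 h2) (pr1 q φ1 h1) q.w N (fun η ζ l =>
        ((l.foldl stepA ζ x - l.foldl stepA η x : ℕ) : ℝ≥0∞) + ∑ i ∈ Finset.range q.N1,
          EvE q.w i (fun l' => κ * ∑ e : Dir d,
            ((l'.foldl stepA (l.foldl stepA ζ) (x - tv (dv e)) -
              l'.foldl stepA (l.foldl stepA η) (x - tv (dv e)) : ℕ) : ℝ≥0∞))) :=
    JE_mono _ _ _ N fun η ζ l _ => e2 (l.foldl stepA η) (l.foldl stepA ζ)
  refine e3.trans ?_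
  rw [JE_add, JE_sum]
  have e4 : ∀ i ∈ Finset.range q.N1, JE (pr1 q φ2 h2) (pr1 q φ1 h1) q.w N (fun η ζ l =>
      EvE q.w i (fun l' => κ * ∑ e : Dir d,
            ((l'.foldl stepA (l.foldl stepA ζ) (x - tv (dv e)) -
              l'.foldl stepA (l.foldl stepA η) (x - tv (dv e)) : ℕ) : ℝ≥0∞))) ≤
      ENNReal.ofReal (m.Gp * q.p) * B := by
    intro i _
    have h3 := JE_split (pr1 q φ2 h2) (pr1 q φ1 h1) q.w N i
      (fun (η ζ : Tor d q.M → ℕ) (l' : List (Let d q.M q.K)) => κ * ∑ e : Dir d,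
            ((l'.foldl stepA ζ (x - tv (dv e)) - l'.foldl stepA η (x - tv (dv e)) : ℕ) : ℝ≥0∞))
    rw [← h3]
    have h4 : JE (pr1 q φ2 h2) (pr1 q φ1 h1) q.w (N + i) (fun η ζ l =>
        κ * ∑ e : Dir d, (((l.drop N).foldl stepA ((l.take N).foldl stepA ζ) (x - tv (dv e)) -
          (l.drop N).foldl stepA ((l.take N).foldl stepA η) (x - tv (dv e)) : ℕ) : ℝ≥0∞)) =
        κ * ∑ e : Dir d, bs q ((wf m φ2 h2).m1 q.K) ((wf m φ1 h1).m1 q.K) (N + i) (x - tv (dv e)) := by
      rw [JE_mul, JE_sum]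
      congr 1
      refine Finset.sum_congr rfl fun e _ => ?_
      unfold bs
      refine JE_congr _ _ _ _ fun η ζ l _ => ?_
      rw [← foldl_td, ← foldl_td]
    refine (le_of_eq h4).trans ?_
    have h5 : ∀ e : Dir d, bs q ((wf m φ2 h2).m1 q.K) ((wf m φ1 h1).m1 q.K) (N + i) (x - tv (dv e)) ≤ B := by
      intro e
      rw [bs_sh q _ _ (N + i) (x - tv (dv e)) x]
      exact bs_anti q φ1 φ2 h1 h2 hd x N i
    calc κ * ∑ e : Dir d, bs q ((wf m φ2 h2).m1 q.K) ((wf m φ1 h1).m1 q.K) (N + i) (x - tv (dv e))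
        ≤ κ * ∑ e : Dir d, B := mul_le_mul_right (Finset.sum_le_sum fun e _ => h5 e) _
      _ = ENNReal.ofReal (m.Gp * q.p) * B := by
          rw [Finset.sum_const, Finset.card_univ, nsmul_eq_mul, ← mul_assoc, hκ,
            Fintype.card_prod, Fintype.card_fin, Fintype.card_bool, ← ENNReal.ofReal_natCast,
            ← ENNReal.ofReal_mul (by have := q.p_pos; positivity)]
          congr 2
          push_cast
          field_simp
  have e5 : JE (pr1 q φ2 h2) (pr1 q φ1 h1) q.w N (fun η ζ l =>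
        ((l.foldl stepA ζ x - l.foldl stepA η x : ℕ) : ℝ≥0∞)) = B := rfl
  rw [e5]
  calc B + ∑ i ∈ Finset.range q.N1, _ ≤ B + ∑ i ∈ Finset.range q.N1, ENNReal.ofReal (m.Gp * q.p) * B :=
        add_le_add le_rfl (Finset.sum_le_sum e4)
    _ = (1 + q.N1 * ENNReal.ofReal (m.Gp * q.p)) * B := by
        rw [Finset.sum_const, Finset.card_range, nsmul_eq_mul]
        ring
    _ ≤ ENNReal.ofReal (1 + m.Gp) * B := by
        refine mul_le_mul_left ?_ _
        rw [ENNReal.ofReal_add (by norm_num) hGp.le, ENNReal.ofReal_one]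
        refine add_le_add le_rfl ?_
        rw [← ENNReal.ofReal_natCast, ← ENNReal.ofReal_mul (by positivity)]
        refine ENNReal.ofReal_le_ofReal ?_
        have h6 := q.p_ub
        calc (q.N1 : ℝ) * (m.Gp * q.p) = m.Gp * (q.N1 * q.p) := by ring
          _ ≤ m.Gp * 1 := mul_le_mul_of_nonneg_left h6 hGp.le
          _ = m.Gp := mul_one _

end unit

end ZPD
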