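import Pool.Agent.ZP.Sys
import Pool.Agent.ZI.Sys2

/-! # Definitions for sections 6 - 8: means, step property, tubes (with recovery) -/

set_option autoImplicit false

open scoped ENNReal BigOperators Classical
open MeasureTheory

noncomputable section

namespace ZP

export ZI (IsNet tube)

variable {d : ℕ} {Ω : Type} [MeasurableSpace Ω] {P : Measure Ω}

/-- truncated mean duration of the block of size `2 ^ k` at the scale `k` -/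
def muK (S : Sys d P) (k : ℕ) (u : Fin d → ℝ) : ℝ :=
  ∑' y, (QK P S.E S.a S.A k u (2 ^ k) y).toReal * min (y.1 : ℝ) (((2 : ℝ) ^ k) ^ 2)

/-- `γ u` is the asymptotic duration per unit of level in the direction `u` -/
structure IsGamma (S : Sys d P) (γ : (Fin d → ℝ) → ℝ) (c C : ℝ) : Prop where
  c_pos : 0 < c
  lb : ∀ u : Fin d → ℝ, ∑ j, u j ^ 2 = 1 → c ≤ γ u
  ub : ∀ u : Fin d → ℝ, ∑ j, u j ^ 2 = 1 → γ u ≤ C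
  lim : ∀ u : Fin d → ℝ, ∑ j, u j ^ 2 = 1 →
    Filter.Tendsto (fun k : ℕ => muK S k u / 2 ^ k) Filter.atTop (nhds (γ u))
  conc : ∀ u : Fin d → ℝ, ∑ j, u j ^ 2 = 1 → ∀ ε : ℝ, 0 < ε →
    ∑' k : ℕ, P {ω | ε < |((S.E k ω).bh (PK d S.a S.A k) u (2 ^ k) 0 (kp S.a S.A k) : ℝ) / 2 ^ k - γ u|}
      ≠ ⊤

/-- upper tail of the durations: blocks of the sizes between `√n` and `n`, all starting points -/
def UpTail (S : Sys d P) (γ : (Fin d → ℝ) → ℝ) : Prop :=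
  ∀ u : Fin d → ℝ, ∑ j, u j ^ 2 = 1 → ∀ ε : ℝ, 0 < ε → ∃ k1 : ℕ, ∀ k ≥ k1, ∀ m : ℕ, 2 ^ k ≤ m ^ 2 →
    m ≤ 2 ^ k → ∀ (z : Pos d) (s : ℕ), kp S.a S.A k ≤ s → 2 * s ≤ (2 ^ k) ^ 2 →
    P {ω | (γ u + ε) * m < ((S.E k ω).bh (PK d S.a S.A k) u m z s : ℝ)} ≤ 8 * err (rr S.A k)

/-- lower tail of the durations: sizes between `e1 n` and `n / 2` -/
def LowTail (S : Sys d P) (γ : (Fin d → ℝ) → ℝ) : Prop :=
  ∀ u : Fin d → ℝ, ∑ j, u j ^ 2 = 1 → ∀ ε e1 : ℝ, 0 < ε → 0 < e1 → ∃ q : ℕ → ℝ≥0∞,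
    ∑' k, q k ≠ ⊤ ∧ ∃ k1 : ℕ, ∀ k ≥ k1, ∀ m : ℕ, e1 * 2 ^ k ≤ m → 2 * m ≤ 2 ^ k →
    ∀ (z : Pos d) (s : ℕ), kp S.a S.A k ≤ s → 2 * s ≤ (2 ^ k) ^ 2 →
    P {ω | ((S.E k ω).bh (PK d S.a S.A k) u m z s : ℝ) ≤ (γ u - ε) * m} ≤ q k

/-- step property: blocks in the directions of `𝒰` of the sizes between `√n` and `n` have speed at least `1 / Γ` -/
def StepP (a A k : ℕ) (E : Env d) (𝒰 : Finset (Fin d → ℝ)) (Γ : (Fin d → ℝ) → ℝ) : Prop :=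
  ∀ u ∈ 𝒰, ∀ m : ℕ, 2 ^ k ≤ m ^ 2 → m ≤ 2 ^ k → ∀ (z : Pos d) (s : ℕ), supn z ≤ (2 ^ k) ^ 2 →
    kp a A k ≤ s → 2 * s ≤ (2 ^ k) ^ 2 → (E.bh (PK d a A k) u m z s : ℝ) ≤ Γ u * m

end ZP
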