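import Pool.Agent.ZP.Core

/-! # Row T1, part a: numerics of the scales -/

set_option autoImplicit false

open scoped ENNReal BigOperators Classical

noncomputable section

namespace ZP.T1

open ZP

variable {d : ℕ}

theorem S_succ (A : Prm) (hγ : 1 ≤ A.γ) (k : ℕ) : A.S (k + 1) = A.n k * A.S k := by
  unfold Prm.n Prm.S
  rw [← pow_succ, Nat.sub_add_cancel hγ, ← pow_mul, ← pow_succ]

theorem S_zero (A : Prm) : A.S 0 = A.L := by simp [Prm.S]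

theorem S_ge (A : Prm) (hL : 1 ≤ A.L) (hγ : 1 ≤ A.γ) (k : ℕ) : A.L ≤ A.S k := by
  unfold Prm.S
  calc A.L = A.L ^ 1 := (pow_one _).symm
    _ ≤ A.L ^ A.γ ^ k := Nat.pow_le_pow_right hL (Nat.one_le_pow _ _ hγ)

theorem n_ge (A : Prm) (hL : 1 ≤ A.L) (hγ : 2 ≤ A.γ) (k : ℕ) : A.L ≤ A.n k := by
  unfold Prm.n
  calc A.L ≤ A.S k := S_ge A hL (by omega) k
    _ = A.S k ^ 1 := (pow_one _).symm
    _ ≤ A.S k ^ (A.γ - 1) := Nat.pow_le_pow_right (hL.trans (S_ge A hL (by omega) k)) (by omega)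

theorem T_succ (A : Prm) (k : ℕ) : A.T d (k + 1) = (8 * d + 8) * A.n k * A.T d k := by
  simp only [Prm.T, Prm.ix, Prm.nt]
  ring

theorem T_zero (A : Prm) : A.T d 0 = A.τ := by simp [Prm.T, Prm.ix]

theorem T_le (A : Prm) (hL : 8 * d + 8 ≤ A.L) (hγ : 2 ≤ A.γ) (hτ : A.τ ≤ A.L ^ 2) (k : ℕ) :
    A.T d k ≤ A.S k ^ 3 := by
  induction k with
  | zero =>
    rw [T_zero, S_zero]
    exact hτ.trans (Nat.pow_le_pow_right (by omega) (by norm_num))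
  | succ k ih =>
    rw [T_succ, S_succ A (by omega)]
    have h1 : A.L ≤ A.n k := n_ge A (by omega) hγ k
    have h2 : 8 * d + 8 ≤ A.n k ^ 2 := by nlinarith
    calc (8 * d + 8) * A.n k * A.T d k ≤ A.n k ^ 2 * A.n k * A.S k ^ 3 := by gcongr
      _ = (A.n k * A.S k) ^ 3 := by ring

theorem T_ge (A : Prm) (hγ : 1 ≤ A.γ) (hτ : A.L ≤ A.τ) (k : ℕ) : A.S k ≤ A.T d k := by
  induction k with
  | zero => rw [T_zero, S_zero]; exact hτ
  | succ k ih =>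
    rw [T_succ, S_succ A hγ]
    calc A.n k * A.S k ≤ A.n k * A.T d k := by gcongr
      _ ≤ (8 * d + 8) * (A.n k * A.T d k) := Nat.le_mul_of_pos_left _ (by omega)
      _ = (8 * d + 8) * A.n k * A.T d k := by ring

theorem S_mono_succ (A : Prm) (hL : 1 ≤ A.L) (hγ : 2 ≤ A.γ) (k : ℕ) : A.S k ≤ A.S (k + 1) := by
  rw [S_succ A (by omega)]
  exact Nat.le_mul_of_pos_left _ (hL.trans (n_ge A hL hγ k))

theorem S_unbounded (A : Prm) (hL : 2 ≤ A.L) (hγ : 2 ≤ A.γ) (x : ℕ) : ∃ j, x ≤ A.S j := by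
  refine ⟨x, ?_⟩
  unfold Prm.S
  calc x ≤ 2 ^ x := Nat.lt_two_pow_self.le
    _ ≤ A.γ ^ x := Nat.pow_le_pow_left hγ x
    _ ≤ 2 ^ A.γ ^ x := Nat.lt_two_pow_self.le
    _ ≤ A.L ^ A.γ ^ x := Nat.pow_le_pow_left hL _

/-- the level of the scale `r` -/
theorem level (A : Prm) (hL : 8 * d + 8 ≤ A.L) (hγ : 2 ≤ A.γ) (hτ : A.τ ≤ A.L ^ 2) (r : ℕ)
    (hr : A.L ≤ r) : ∃ k, 1 ≤ k ∧ 8 * r ≤ A.S (k - 1) ∧ A.T d k ≤ (8 * r) ^ (3 * A.γ ^ 2) := by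
  have hL2 : 2 ≤ A.L := by omega
  have hex := S_unbounded A hL2 hγ (8 * r)
  classical
  set j := Nat.find hex with hj
  have hj1 : 8 * r ≤ A.S j := Nat.find_spec hex
  have hj0 : j ≠ 0 := by
    intro h0
    rw [h0, S_zero] at hj1
    omega
  obtain ⟨i, hi⟩ : ∃ i, j = i + 1 := ⟨j - 1, by omega⟩
  have hi1 : A.S i < 8 * r := by
    have := Nat.find_min hex (m := i) (by omega)
    omega
  refine ⟨j + 1, by omega, by simpa using hj1, ?_⟩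
  calc A.T d (j + 1) ≤ A.S (j + 1) ^ 3 := T_le A hL hγ hτ _
    _ = (A.S i ^ A.γ ^ 2) ^ 3 := by
        rw [hi]
        unfold Prm.S
        rw [← pow_mul (A.L) (A.γ ^ i) (A.γ ^ 2), ← pow_add]
    _ ≤ ((8 * r) ^ A.γ ^ 2) ^ 3 := by gcongr
    _ = (8 * r) ^ (3 * A.γ ^ 2) := by rw [← pow_mul]; ring_nf

end ZP.T1
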