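import Pool.Agent.ZP.T1b
import Pool.Agent.ZP.SH
import Pool.Agent.ZP.P2
import Pool.Agent.ZP.P3
import Pool.Agent.ZP.CO1
import Pool.Agent.ZP.CO2
import Pool.Agent.ZP.CF
import Pool.Agent.ZP.SF2
import Pool.Agent.ZP.D2
import Pool.Agent.ZI.F1cA

/-! # Row T1, part c: the good event from the bounds of the multi-scale analysis -/

set_option autoImplicit false

open scoped ENNReal BigOperators Classical

noncomputable section

namespace ZP.T1

open ZP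

variable {d : ℕ}

/-- polynomials against exponentials -/
theorem poly_exp (N : ℕ) (C : ℝ) : ∃ r0 : ℕ, ∀ r ≥ r0, C * (2 * (r : ℝ)) ^ N * Real.exp (-(r : ℝ)) ≤
    Real.exp (-(1 / 2) * (r : ℝ)) := by
  have h1 : Filter.Tendsto (fun x : ℝ => x ^ N * Real.exp (-x)) Filter.atTop (nhds 0) := by
    have := Real.tendsto_pow_mul_exp_neg_atTop_nhds_zero N
    simpa using this
  have h2 : Filter.Tendsto (fun r : ℕ => ((r : ℝ) / 2) ^ N * Real.exp (-((r : ℝ) / 2)))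
      Filter.atTop (nhds 0) :=
    h1.comp ((tendsto_natCast_atTop_atTop (R := ℝ)).atTop_div_const (by norm_num))
  have h3 : Filter.Tendsto (fun r : ℕ => (|C| * 4 ^ N) *
      (((r : ℝ) / 2) ^ N * Real.exp (-((r : ℝ) / 2)))) Filter.atTop (nhds ((|C| * 4 ^ N) * 0)) :=
    h2.const_mul _
  rw [mul_zero] at h3
  obtain ⟨r0, hr0⟩ := Filter.eventually_atTop.1 (h3.eventually (ge_mem_nhds (zero_lt_one' ℝ)))
  refine ⟨r0, fun r hr => ?_⟩
  have h4 := hr0 r hr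
  have h5 : Real.exp (-(r : ℝ)) = Real.exp (-((r : ℝ) / 2)) * Real.exp (-(1 / 2) * (r : ℝ)) := by
    rw [← Real.exp_add]
    congr 1
    ring
  have h6 : (2 * (r : ℝ)) ^ N = 4 ^ N * ((r : ℝ) / 2) ^ N := by
    rw [← mul_pow]
    congr 1
    ring
  have h7 : C * (2 * (r : ℝ)) ^ N * Real.exp (-((r : ℝ) / 2)) ≤ 1 := by
    refine le_trans ?_ h4
    rw [h6]
    have : C * (4 ^ N * ((r : ℝ) / 2) ^ N) * Real.exp (-((r : ℝ) / 2)) =
      C * (4 ^ N * (((r : ℝ) / 2) ^ N * Real.exp (-((r : ℝ) / 2)))) := by ring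
    rw [this, mul_assoc (|C|)]
    exact mul_le_mul_of_nonneg_right (le_abs_self C) (by positivity)
  calc C * (2 * (r : ℝ)) ^ N * Real.exp (-(r : ℝ))
      = (C * (2 * (r : ℝ)) ^ N * Real.exp (-((r : ℝ) / 2))) * Real.exp (-(1 / 2) * (r : ℝ)) := by
        rw [h5]; ring
    _ ≤ 1 * Real.exp (-(1 / 2) * (r : ℝ)) :=
        mul_le_mul_of_nonneg_right h7 (Real.exp_pos _).le
    _ = _ := one_mul _

theorem sft_good {m : Model} {δ : ℝ} (q : Par d m δ) (η : Tor d q.M → ℕ)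
    (w : List (Let d q.M (q.K + 1))) (u r κ Cv S Dm : ℕ) :
    sft q.N1 0 u (fun η w => ¬ (envT q η w).Good r κ Cv S Dm) η w ↔
      ¬ ((envT q η w).shift u).Good r κ Cv S Dm := by
  have h0 : (tv (0 : Pos d) : Tor d q.M) = 0 := by
    funext j
    simp [ZI.tv]
  have h1 : ∀ l : List (Let d q.M (q.K + 1)), l.map (shL (-(0 : Tor d q.M))) = l := by
    intro l
    have : (shL (-(0 : Tor d q.M)) : Let d q.M (q.K + 1) → _) = id := by
      funext a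
      cases a with
      | none => rfl
      | some b => simp [ZI.shL]
    rw [this, List.map_id]
  unfold sft
  rw [h0, h1]
  simp only [add_zero]
  rw [Rows.envT_shift]


/-- the failure of the good event is local -/
theorem loc_good {m : Model} {δ : ℝ} (q : Par d m δ) (r κ Cv S Dm : ℕ) :
    LocE q.N1 (Set.univ : Set (Tor d q.M)) 0 S
      (fun η w => ¬ (envT q η w).Good r κ Cv S Dm) := by
  intro η w η' w' h h' hE hE'
  apply hE
  have h1 : η = η' := by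
    funext v
    refine le_antisymm ?_ ?_
    · simpa [stt] using h.cfg 0 (by omega) (by omega) v (Set.mem_univ _)
    · simpa [stt] using h'.cfg 0 (by omega) (by omega) v (Set.mem_univ _)
  have hres : ∀ a : Let d q.M (q.K + 1), res (Set.univ : Set (Tor d q.M)) a = a := by
    intro a
    cases a with
    | none => rfl
    | some b => simp [res]
  have h2 : w.take (S * q.N1) = w'.take (S * q.N1) := by
    refine List.ext_getElem? fun i => ?_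
    rw [List.getElem?_take, List.getElem?_take]
    split_ifs with hi
    · have h3 := h.lets i (by omega) hi
      rw [hres, hres] at h3
      have hl := h.len
      have hl' := h.len'
      rw [List.getD_eq_getElem?_getD, List.getD_eq_getElem?_getD,
        List.getElem?_eq_getElem (by omega), List.getElem?_eq_getElem (by omega)] at h3
      simp only [Option.getD_some] at h3
      rw [List.getElem?_eq_getElem (by omega), List.getElem?_eq_getElem (by omega), h3]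
    · rfl
  rw [← Rows.good_take, h1, h2]
  exact (Rows.good_take q η' w' r κ Cv S Dm).2 hE'

theorem exp_ofReal_mono {x y : ℝ} (h : x ≤ y) :
    ENNReal.ofReal (Real.exp x) ≤ ENNReal.ofReal (Real.exp y) :=
  ENNReal.ofReal_le_ofReal (Real.exp_le_exp.2 h)

/-- the two bounds for the bad blocks and the hubs at the level `k` -/
def BadB {m : Model} {δ : ℝ} (q : Par d m δ) (A : Prm) (k : ℕ) : Prop :=
  (q.PP (6 * A.T d k * q.N1) (BadM q.N1 A k) ≤ ENNReal.ofReal (Real.exp (-(A.S (k - 1) : ℝ)))) ∧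
  (q.PP (6 * A.T d k * q.N1) (BadP q.N1 A k) ≤ ENNReal.ofReal (Real.exp (-(A.S (k - 1) : ℝ))))

def NmB {m : Model} {δ : ℝ} (q : Par d m δ) (A : Prm) (k : ℕ) : Prop :=
  ∀ (φ' : ℝ) (h' : 0 < φ') (hK' : 2 * φ' ≤ m.g q.K), 7 / 8 * m.φ ≤ φ' → φ' ≤ 9 / 8 * m.φ →
    ∀ (b : Bool) (c : Pos d),
    (q.wf φ' h' hK').PP (8 * A.T d k * q.N1) (NMemb q.N1 A b k c) ≤ ENNReal.ofReal (1 / 64)

set_option maxHeartbeats 4000000 in
/-- the good event, from the bounds of the multi-scale analysis -/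
theorem good_core (m : Model) (d : ℕ) (hd : 0 < d) (A : Prm) (Δ : Set ℝ) (hL3 : 1000 * (d + 1) * 3 ^ d ≤ A.L)
    (hγ : A.γ = A.α + 20) (hτ1 : A.L ≤ A.τ) (hτ2 : A.τ ≤ A.L ^ 2)
    (hyp : ∀ δ ∈ Δ, ∀ (q : Par d m δ) (n : ℕ), q.Tiny n → A.L ^ 5 ≤ n → 4 * m.φ ≤ m.g q.K →
      4 * A.L ^ 5 ≤ q.M →
      (∀ k, 1 ≤ k → A.S k ≤ n → 100 * A.S k + 10 * A.L ^ 2 ≤ q.M → BadB q A k ∧ NmB q A k) ∧
      q.PP (A.τ * q.N1) (fun η w => ¬ FOpn q.N1 A.L A.τ η w) ≤ ENNReal.ofReal (1 / 32)) :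
    ∃ Cv a0 : ℕ, ∀ δ ∈ Δ, ∀ a ≥ a0, ∀ A' : ℕ, 4 * a ≤ A' → ∃ r0 : ℕ, ∀ r ≥ r0, ∀ n : ℕ,
    r ^ A' ≤ n → n ≤ (2 * r) ^ A' → ∀ q : Par d m δ, q.M = n ^ 4 → q.Tiny n →
    q.PP (n ^ 2 * q.N1) (fun η l => ¬ (envT q η l).Good r (r ^ a) Cv (n ^ 2) (n ^ 2)) ≤
      ENNReal.ofReal (Real.exp (- (1 / 2) * r)) := by
  obtain ⟨Cv, hspeed⟩ := Rows.speed_prob m d hd
  obtain ⟨Cs, hvisit⟩ := Rows.visit_prob m d hd
  obtain ⟨C0, hgood⟩ := Rows.good_of_route d hd Cv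
  obtain ⟨T0, hcore⟩ := Rows.core_route d hd Cv
  obtain ⟨r1, hmeet⟩ := Rows.meet_prob m d hd
  obtain ⟨r2, hvisit⟩ := hvisit A.γ A.α
  obtain ⟨L, hLd⟩ : ∃ L, L = A.L := ⟨_, rfl⟩
  obtain ⟨γ, hγd⟩ : ∃ γ, γ = A.γ := ⟨_, rfl⟩
  have hAL : A.L = L := hLd.symm
  have hAγ : A.γ = γ := hγd.symm
  have hL4 : 1000 * (d + 1) ≤ L := by
    rw [hLd]
    exact le_trans (Nat.le_mul_of_pos_right _ (by positivity)) hL3
  have hγα : A.α + 12 ≤ A.γ := by rw [hγ]; omega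
  refine ⟨Cv, 36 * γ ^ 2 + Cs + 10, ?_⟩
  intro δ hδ a ha A' hA'
  obtain ⟨r3, hr3⟩ := poly_exp (A' * (8 * d + 10)) (64 * (Cv + 1))
  refine ⟨max r1 r2 + r3 + r1 * L ^ 4 + T0 + 10 * C0 + 10 * L + 100 * (Cv + 10) +
    Nat.ceil (4 * m.φ / m.Gm) + L ^ 5 + 1000, ?_⟩
  intro r hr n hn1 hn2 q hM hT
  have hLpos : 1 ≤ L := by omega
  have hL45 : L ^ 4 ≤ L ^ 5 := Nat.pow_le_pow_right hLpos (by norm_num)
  have hL25 : L ^ 2 ≤ L ^ 5 := Nat.pow_le_pow_right hLpos (by norm_num)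
  have hrr1 : r1 ≤ r := by have := le_max_left r1 r2; omega
  have hrr2 : r2 ≤ r := by have := le_max_right r1 r2; omega
  have hrr3 : r3 ≤ r := by omega
  have hrL : L ≤ r := by omega
  have hr8 : 1000 ≤ r := by omega
  have hrpos : 1 ≤ r := by omega
  obtain ⟨k, hk1, hk2, hk3⟩ := level (d := d) A (by rw [hAL]; omega) (by rw [hγ]; omega)
    hτ2 r (by rw [hAL]; exact hrL)
  obtain ⟨T, hTdef⟩ : ∃ T, T = A.T d k := ⟨_, rfl⟩
  have hST : A.S k ≤ T := by rw [hTdef]; exact T_ge A (by rw [hγ]; omega) hτ1 k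
  have hSk : 8 * r ≤ A.S k := by
    obtain ⟨i, rfl⟩ : ∃ i, k = i + 1 := ⟨k - 1, by omega⟩
    exact hk2.trans (by
      simpa using S_mono_succ A (by rw [hAL]; omega) (by rw [hγ]; omega) i)
  have hT8 : 8 * r ≤ T := hSk.trans hST
  -- T is a power of r
  have hr2 : 8 * r ≤ r ^ 2 := by nlinarith
  have hTb : T ≤ r ^ (6 * γ ^ 2) := by
    rw [hTdef]
    calc A.T d k ≤ (8 * r) ^ (3 * A.γ ^ 2) := hk3
      _ ≤ (r ^ 2) ^ (3 * A.γ ^ 2) := Nat.pow_le_pow_left hr2 _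
      _ = r ^ (6 * γ ^ 2) := by rw [← pow_mul, hAγ]; ring_nf
  obtain ⟨Θ, hΘ⟩ : ∃ Θ, Θ = T * (r ^ Cs + 8) := ⟨_, rfl⟩
  have hTpos : 1 ≤ T := by omega
  have ha36 : 36 * γ ^ 2 + 10 ≤ a := by omega
  obtain ⟨hT6n, hT4n, hTn, hrn, hT16, hT6M, hH3, hnn4⟩ :=
    num_n γ T r a A' n hr8 hTb hTpos ha36 hA' hn1
  have hκ := num_kappa C0 Cs γ T r a Θ (by omega) (by omega) hTb hΘ hTpos (by omega)
  obtain ⟨H, hH⟩ : ∃ H, H = n ^ 2 + 200 * T := ⟨_, rfl⟩
  rw [← hH] at hH3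
  have hvel : 4 * (Cv * H + r + 2) < q.M := num_vel Cv H r n q.M hM (by omega) hrn hH3
  have hφK : 4 * m.φ ≤ m.g q.K := by
    have h1 := ZI.F1c.g_lb m q.K
    have h2 : ((Nat.ceil (4 * m.φ / m.Gm) : ℕ) : ℝ) ≤ q.K := by
      have := hT.1
      exact_mod_cast (show Nat.ceil (4 * m.φ / m.Gm) ≤ q.K by omega)
    have h3 := (Nat.le_ceil (4 * m.φ / m.Gm)).trans h2
    rw [div_le_iff₀ m.Gm_pos] at h3
    linarith
  have hMn : 1000 * n ≤ q.M := by rw [hM]; exact hnn4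
  have hSn : A.S k ≤ n := hST.trans hTn
  have hL2n : L ^ 2 ≤ n := by omega
  have hL5n : L ^ 5 ≤ n := by omega
  -- the multi-scale bounds
  obtain ⟨hyp1, hyp2⟩ := hyp δ hδ q n hT (by rw [hAL]; exact hL5n) hφK (by rw [hAL]; omega)
  have hMk : 100 * A.S k + 10 * A.L ^ 2 ≤ q.M := by rw [hAL]; omega
  obtain ⟨hbadk', hnmk'⟩ := hyp1 k hk1 hSn hMk
  have hnmk0 : ∀ (b : Bool) (c : Pos d), q.PP (8 * A.T d k * q.N1) (NMemb q.N1 A b k c) ≤
      ENNReal.ofReal (1 / 64) := fun b c =>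
    hnmk' m.φ m.φ_pos q.K_big (by linarith [m.φ_pos]) (by linarith [m.φ_pos]) b c
  have hT' : A.T d k = T := hTdef.symm
  -- the four bounds
  have b1 := Rows.core_fwd m d hd q A k r H (ENNReal.ofReal (Real.exp (-(A.S (k - 1) : ℝ))))
    (by rw [hAL]; exact hL4) hγα (by rw [hAL]; omega) hbadk'.1 hbadk'.2
  have b2 := hmeet r hrr1 A (by rw [hAL]; exact hL4) hγα hτ1 hτ2 δ q k n H hk1 hSk
    (by rw [hAL, hT']; omega) hT (by rw [hT']; exact hT4n) (by rw [hT', hM]; exact hT6M) hnmk0 hyp2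
  have b3 := hvisit r hrr2 A rfl rfl (by rw [hAL]; exact hL4) hγα hτ1 hτ2 δ q k n H Θ hk1 hSk
    (by
      rw [hT', hAγ]
      refine hTb.trans (Nat.pow_le_pow_right hrpos ?_)
      have : γ ^ 3 = γ * γ ^ 2 := by ring
      rw [this]
      exact Nat.mul_le_mul_right _ (by omega))
    (by
      rw [hT', hΘ, Nat.mul_add]
      have : r ^ Cs ≤ T * r ^ Cs := Nat.le_mul_of_pos_left _ hTpos
      omega)
    hT (by rw [hT']; exact hT4n) ((Nat.pow_le_pow_right hrpos (by omega)).trans hn1)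
    (by rw [hT', hM]; exact hT6M)
    (((Nat.pow_le_pow_right hrpos (by omega)).trans hn1).trans (by omega)) hφK hnmk'
  have b4 := hspeed δ q r H hvel
  -- shift of the event
  have hA1 : n ^ 2 * q.N1 ≤ (n ^ 2 + 100 * T) * q.N1 := Nat.mul_le_mul_right _ (by omega)
  have e1 : q.PP (n ^ 2 * q.N1) (fun η l => ¬ (envT q η l).Good r (r ^ a) Cv (n ^ 2) (n ^ 2)) =
      q.PP (H * q.N1) (sft q.N1 0 (100 * T)
        (fun η l => ¬ (envT q η l).Good r (r ^ a) Cv (n ^ 2) (n ^ 2))) := by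
    have h1 : H * q.N1 = 100 * T * q.N1 + (n ^ 2 + 100 * T) * q.N1 := by rw [hH]; ring
    rw [h1, Rows.PP_sft q hd, Rows.PP_loc q hd (loc_good q r (r ^ a) Cv (n ^ 2) (n ^ 2)) _ hA1]
  rw [e1]
  refine le_trans (Rows.PP_mono q (H * q.N1) (E' := fun η w =>
    (¬ ((∀ (x : Pos d) (t : ℕ), t + 6 * A.T d k ≤ H → ∀ b,
        ¬ sft q.N1 x t (PBad q.N1 A b k) η w) ∧
      ∀ (x : Pos d) (t : ℕ), t + 6 * A.T d k ≤ H → ∀ b,
        ¬ sft q.N1 x t (PBad q.N1 A b k) (stt η w w.length) (rword η w))) ∨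
    ((¬ ∀ (s' : ℕ) (c : Pos d), 10 * A.T d k ≤ s' →
        s' + 10 * A.T d k ≤ H → ∃ i < 3 * r, Meet q.N1 A k H s' (dg c (i * A.T d k ^ 2)) η w) ∨
    ((¬ ∀ (s : ℕ) (c : Pos d), 10 * A.T d k ≤ s →
        s + A.T d k ^ 4 + (4 * r + 1) * Θ ≤ H →
        ∃ i < 4 * r, sft q.N1 0 (s + A.T d k ^ 4 + i * Θ - 3 * A.T d k) (MembE q.N1 A k c) η w) ∨
    ¬ Speed (envT q η w) Cv r H))) ?_) ?_
  · intro η w hw hE
    by_contra hcon
    simp only [not_or, not_not] at hcon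
    obtain ⟨⟨c1, c2⟩, c3, c4, c5⟩ := hcon
    have hcoreE : CoreE q.N1 A k r H Θ η w := ⟨hw, c1, c2, c3, c4⟩
    have hroute := hcore A hL3 hγα hτ1 hτ2 m δ q η w k r H Θ hk1
      (by rw [hT']; omega) hSk (by rw [hT', hΘ]; exact Dvd.intro _ rfl)
      (by rw [hT', hΘ, Nat.mul_add]; omega) (by rw [hT', hM]; exact hT16) hcoreE c5
    rw [hT'] at hroute
    rw [sft_good] at hE
    exact hE (hgood (envT q η w) T (T ^ 4 + (4 * r + 2) * Θ) H r (r ^ a) (n ^ 2) (100 * T) (n ^ 2)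
      hroute c5 (by omega) (by omega) hκ le_rfl (by rw [hH]; omega))
  · refine le_trans (Rows.PP_or q _ _ _) ?_
    refine le_trans (add_le_add b1 ((Rows.PP_or q _ _ _).trans (add_le_add b2
      ((Rows.PP_or q _ _ _).trans (add_le_add b3 b4))))) ?_
    have hs : (8 * r : ℝ) ≤ (A.S (k - 1) : ℝ) := by exact_mod_cast hk2
    have := num_sum Cv d n r A' H q.M hM hH3 (by omega) hrpos hn2 (A.S (k - 1) : ℝ) hs (hr3 r hrr3)
    exact this

end ZP.T1
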