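import Pool.Agent.ZP.Pair
import Pool.Agent.ZI.C2
import Pool.Agent.ZI.Geo

/-! # The tracker of a pair of discrepancies

`X` follows a discrepancy of `ζ` over `η` (level `η (tv X)`), `Y` one of `η` over `ζ` (level `ζ (tv Y)`). As long as
both exist, the difference `X - Y` is a symmetric walk. If it hits `0`, an annihilation has happened before. -/

set_option autoImplicit false

open scoped ENNReal BigOperators Classical

noncomputable section

namespace ZPD

open ZI ZI.Rows

variable {d : ℕ}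

section basic

variable {M K : ℕ}

/-- the tracker of the lowest discrepancy at `X` over the configuration `η` -/
def trk (η : Tor d M → ℕ) (X : Pos d) (a : Let d M K) : Pos d :=
  match toLab a with
  | none => X
  | some l => if l.1 = tv X ∧ l.2.1 = η (tv X) then X + dv l.2.2 else X

theorem trk_none (η : Tor d M → ℕ) (X : Pos d) : trk η X (none : Let d M K) = X := rfl

theorem trk_some (η : Tor d M → ℕ) (X : Pos d) (x : Tor d M) (k : Fin K) (e : Dir d) :
    trk η X (some (x, k, e) : Let d M K) = if x = tv X ∧ (k : ℕ) = η (tv X) then X + dv e else X := rfl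

/-- the states of the pair tracker -/
abbrev St2 (d M : ℕ) := ((Tor d M → ℕ) × (Tor d M → ℕ)) × (Pos d × Pos d)

/-- one letter -/
def st2 (s : St2 d M) (a : Let d M K) : St2 d M :=
  ((stepA s.1.1 a, stepA s.1.2 a), (trk s.1.1 s.2.1 a, trk s.1.2 s.2.2 a))

/-- both discrepancies exist and can move -/
def act2 (K : ℕ) (s : St2 d M) : Prop :=
  s.1.1 (tv s.2.1) < s.1.2 (tv s.2.1) ∧ s.1.2 (tv s.2.2) < s.1.1 (tv s.2.2) ∧
    s.1.1 (tv s.2.1) < K ∧ s.1.2 (tv s.2.2) < K

theorem act2_ne {s : St2 d M} (h : act2 K s) : (tv s.2.1 : Tor d M) ≠ tv s.2.2 := by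
  intro he
  obtain ⟨h1, h2, _, _⟩ := h
  rw [he] at h1
  omega

/-- the values after a label -/
theorem mv_val (x : Tor d M) (k : ℕ) (e : Dir d) (ξ : Tor d M → ℕ) (z : Tor d M) :
    mv nbT ξ (x, k, e) z = if k < ξ x then (if z = x then ξ x - 1 else ξ z) +
      (if z = x + tv (dv e) then 1 else 0) else ξ z := by
  by_cases h : k < ξ x
  · rw [C8.mv_apply ξ (x, k, e) z h, if_pos h]
  · rw [mv_neff ξ (x, k, e) h, if_neg h]

/-- the tracker along one letter: it survives or there is an annihilation at its place -/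
theorem trk_step (hM : 2 ≤ M) (η ζ : Tor d M → ℕ) (X : Pos d) (h : η (tv X) < ζ (tv X))
    (a : Let d M K) (hn : ¬ stepA η a (tv (trk η X a)) < stepA ζ a (tv (trk η X a)))
    (f : Tor d M → ℝ≥0∞) : f (tv (trk η X a)) ≤ ann1 f η ζ a := by
  cases a with
  | none => exact absurd h hn
  | some l =>
    obtain ⟨x, k, e⟩ := l
    rw [ann1_some]
    rw [trk_some, stepA_some', stepA_some'] at hn
    rw [trk_some]
    have hne := add_tv_ne hM x e
    by_cases hx : x = tv X
    · by_cases hk : (k : ℕ) = η (tv X)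
      · -- the tracker moves
        rw [if_pos ⟨hx, hk⟩] at hn ⊢
        rw [tv_add, ← hx] at hn ⊢
        rw [← hx] at h hk
        have h1 : ¬ (k : ℕ) < η x := by omega
        have h2 : (k : ℕ) < ζ x := by omega
        rw [mv_val, mv_val, if_neg h1, if_pos h2, if_neg hne, if_pos rfl] at hn
        rw [if_pos]
        refine Or.inr ⟨h2, h1, ?_⟩
        show ζ (x + tv (dv e)) < η (x + tv (dv e))
        omega
      · -- the tracker stays, a particle leaves the site
        exfalso
        rw [if_neg (fun hh => hk hh.2)] at hn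
        apply hn
        rw [← hx] at h hk ⊢
        rw [mv_val, mv_val, if_neg hne.symm]
        simp only [if_true]
        split_ifs <;> omega
    · rw [if_neg (fun hh => hx hh.1)] at hn ⊢
      have hx' : (tv X : Tor d M) ≠ x := fun hh => hx hh.symm
      rw [mv_val, mv_val] at hn
      simp only [if_neg hx'] at hn
      by_cases h1 : (k : ℕ) < η x
      · by_cases h2 : (k : ℕ) < ζ x
        · exfalso
          apply hn
          rw [if_pos h1, if_pos h2]
          split_ifs <;> omega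
        · rw [if_pos h1, if_neg h2] at hn
          by_cases hy : (tv X : Tor d M) = x + tv (dv e)
          · rw [if_pos]
            · exact le_of_eq (by rw [hy])
            · refine Or.inl ⟨h1, h2, ?_⟩
              show η (x + tv (dv e)) < ζ (x + tv (dv e))
              rw [← hy]
              exact h
          · rw [if_neg hy] at hn
            exact absurd h hn
      · exfalso
        apply hn
        rw [if_neg h1]
        split_ifs <;> omega

/-- the annihilations are symmetric in the two configurations -/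
theorem isAnn_comm (η ζ : Tor d M → ℕ) (l : Lab (Tor d M) d) : isAnn η ζ l ↔ isAnn ζ η l := by
  unfold isAnn
  tauto

theorem ann1_comm (f : Tor d M → ℝ≥0∞) (η ζ : Tor d M → ℕ) (a : Let d M K) :
    ann1 f η ζ a = ann1 f ζ η a := by
  cases a with
  | none => rfl
  | some l =>
    obtain ⟨x, k, e⟩ := l
    rw [ann1_some, ann1_some]
    simp only [isAnn_comm η ζ]

end basic

/-! ### the symmetric walks -/

section walks

variable {m : Model} (q : Par d m)

open C2

theorem trk_L (η : Tor d q.M → ℕ) (X : Pos d) (hk : η (tv X) < q.K) (e : Dir d) :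
    trk η X (L q (tv X) (η (tv X)) hk e) = X + dv e := by
  rw [L, trk_some, if_pos ⟨rfl, rfl⟩]

theorem trk_off (η : Tor d q.M → ℕ) (X : Pos d) (hk : η (tv X) < q.K) (a : Let d q.M q.K)
    (ha : a ∉ LS q (tv X) (η (tv X)) hk) : trk η X a = X := by
  cases a with
  | none => rfl
  | some l =>
    obtain ⟨x, k, e⟩ := l
    rw [trk_some, if_neg]
    rintro ⟨h1, h2⟩
    refine ha ((mem_LS q _ _ _ _).2 ⟨e, ?_⟩)
    rw [L]
    have : (⟨η (tv X), hk⟩ : Fin q.K) = k := Fin.ext h2.symm
    rw [this, h1]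

theorem trk_site (η : Tor d q.M → ℕ) (X : Pos d) (x : Tor d q.M) (hx : x ≠ tv X) (k : ℕ)
    (hk : k < q.K) (e : Dir d) : trk η X (L q x k hk e) = X := by
  rw [L, trk_some, if_neg (fun h => hx h.1)]

/-- the difference is a symmetric walk -/
theorem symW_D (hd : 0 < d) :
    SymW q.w (st2 (d := d) (M := q.M) (K := q.K)) (fun s => s.2.1 - s.2.2) (act2 q.K)
      (m.Gm / (2 * d)) (m.Gp / d) q.p := by
  rintro ⟨⟨η, ζ⟩, ⟨X, Y⟩⟩ hact
  have hne := act2_ne hact
  obtain ⟨_, _, hk1, hk2⟩ := hact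
  simp only at hk1 hk2 hne
  have hd' : (0 : ℝ) < d := by exact_mod_cast hd
  have hp := q.p_pos
  set x0 : Tor d q.M := tv X with hx0
  set y0 : Tor d q.M := tv Y with hy0
  have hl1 := lam_ub m hd (η x0)
  have hl1p := lam_pos m hd (η x0)
  have hl1b := lam_lb m hd (η x0)
  have hl2 := lam_ub m hd (ζ y0)
  have hl2p := lam_pos m hd (ζ y0)
  refine ⟨m.lam d (η x0) + m.lam d (ζ y0), by linarith, ?_, ?_⟩
  · have : m.Gp / d = m.Gp / (2 * d) + m.Gp / (2 * d) := by field_simp; ring
    rw [this]; linarith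
  intro F
  set S : Finset (Let d q.M q.K) := LS q x0 (η x0) hk1 ∪ LS q y0 (ζ y0) hk2 with hS
  have hdisj : Disjoint (LS q x0 (η x0) hk1) (LS q y0 (ζ y0) hk2) := by
    rw [Finset.disjoint_left]
    intro a ha hb
    rw [mem_LS] at ha hb
    obtain ⟨e, he⟩ := ha
    obtain ⟨e', he'⟩ := hb
    rw [← he] at he'
    simp only [L, Option.some.injEq, Prod.mk.injEq] at he'
    exact hne he'.1.symm
  have hSw : ∑ a ∈ S, q.w a =
      ENNReal.ofReal (2 * d * (m.lam d (η x0) + m.lam d (ζ y0)) * q.p) := by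
    rw [hS, Finset.sum_union hdisj, sum_LS', sum_LS', ← ENNReal.ofReal_add (by positivity) (by positivity)]
    congr 1; ring
  show ∑ a, q.w a * F (trk η X a - trk ζ Y a) = _
  rw [sum_split q.w (sum_w q hd) S (F (X - Y)) _ (fun a ha => by
    rw [trk_off q η X hk1 a (fun h => ha (by rw [hS, Finset.mem_union]; exact Or.inl h)),
      trk_off q ζ Y hk2 a (fun h => ha (by rw [hS, Finset.mem_union]; exact Or.inr h))]), hSw]
  have e1 : (1 : ℝ≥0∞) - ENNReal.ofReal (2 * d * (m.lam d (η x0) + m.lam d (ζ y0)) * q.p) =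
      ENNReal.ofReal (1 - 2 * d * (m.lam d (η x0) + m.lam d (ζ y0)) * q.p) := by
    rw [ENNReal.ofReal_sub _ (by positivity), ENNReal.ofReal_one]
  rw [e1]
  congr 1
  rw [hS, Finset.sum_union hdisj, sum_LS q x0 (η x0) hk1 (fun a => F (trk η X a - trk ζ Y a)),
    sum_LS q y0 (ζ y0) hk2 (fun a => F (trk η X a - trk ζ Y a))]
  have e2 : ∑ e : Dir d, ENNReal.ofReal (m.lam d (ζ y0) * q.p) *
      F (trk η X (L q y0 (ζ y0) hk2 e) - trk ζ Y (L q y0 (ζ y0) hk2 e)) =
      ∑ e : Dir d, ENNReal.ofReal (m.lam d (ζ y0) * q.p) * F (X - Y + dv e) := by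
    rw [← Equiv.sum_comp oppE]
    refine Finset.sum_congr rfl (fun e _ => ?_)
    rw [trk_site q η X y0 hne.symm, trk_L q ζ Y hk2]
    congr 2
    show X - (Y + dv (opp e)) = _
    rw [dv_opp]; abel
  rw [e2, ← Finset.sum_add_distrib]
  refine Finset.sum_congr rfl (fun e _ => ?_)
  have e3 : X + dv e - Y = X - Y + dv e := by abel
  rw [trk_site q ζ Y x0 hne, trk_L q η X hk1, e3, ← add_mul,
    ← ENNReal.ofReal_add (by positivity) (by positivity)]
  congr 2
  ring

/-- one coordinate of the pair is a symmetric walk -/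
theorem symW_X (hd : 0 < d) :
    SymW q.w (st2 (d := d) (M := q.M) (K := q.K)) (fun s => s.2.1) (act2 q.K)
      0 (m.Gp / (2 * d)) q.p := by
  rintro ⟨⟨η, ζ⟩, ⟨X, Y⟩⟩ hact
  obtain ⟨_, _, hk1, _⟩ := hact
  simp only at hk1
  have hp := q.p_pos
  have hl1 := lam_ub m hd (η (tv X))
  have hl1p := lam_pos m hd (η (tv X))
  refine ⟨m.lam d (η (tv X)), hl1p.le, hl1, ?_⟩
  intro F
  show ∑ a, q.w a * F (trk η X a) = _
  rw [sum_split q.w (sum_w q hd) (LS q (tv X) (η (tv X)) hk1) (F X) _ (fun a ha => by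
    rw [trk_off q η X hk1 a ha]), sum_LS']
  have e1 : (1 : ℝ≥0∞) - ENNReal.ofReal (2 * d * m.lam d (η (tv X)) * q.p) =
      ENNReal.ofReal (1 - 2 * d * m.lam d (η (tv X)) * q.p) := by
    rw [ENNReal.ofReal_sub _ (by positivity), ENNReal.ofReal_one]
  rw [e1]
  congr 1
  rw [sum_LS q (tv X) (η (tv X)) hk1 (fun a => F (trk η X a))]
  refine Finset.sum_congr rfl (fun e _ => ?_)
  rw [trk_L q η X hk1]

theorem symW_Y (hd : 0 < d) :
    SymW q.w (st2 (d := d) (M := q.M) (K := q.K)) (fun s => s.2.2) (act2 q.K)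
      0 (m.Gp / (2 * d)) q.p := by
  rintro ⟨⟨η, ζ⟩, ⟨X, Y⟩⟩ hact
  obtain ⟨_, _, _, hk1⟩ := hact
  simp only at hk1
  have hp := q.p_pos
  have hl1 := lam_ub m hd (ζ (tv Y))
  have hl1p := lam_pos m hd (ζ (tv Y))
  refine ⟨m.lam d (ζ (tv Y)), hl1p.le, hl1, ?_⟩
  intro F
  show ∑ a, q.w a * F (trk ζ Y a) = _
  rw [sum_split q.w (sum_w q hd) (LS q (tv Y) (ζ (tv Y)) hk1) (F Y) _ (fun a ha => by
    rw [trk_off q ζ Y hk1 a ha]), sum_LS']
  have e1 : (1 : ℝ≥0∞) - ENNReal.ofReal (2 * d * m.lam d (ζ (tv Y)) * q.p) =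
      ENNReal.ofReal (1 - 2 * d * m.lam d (ζ (tv Y)) * q.p) := by
    rw [ENNReal.ofReal_sub _ (by positivity), ENNReal.ofReal_one]
  rw [e1]
  congr 1
  rw [sum_LS q (tv Y) (ζ (tv Y)) hk1 (fun a => F (trk ζ Y a))]
  refine Finset.sum_congr rfl (fun e _ => ?_)
  rw [trk_L q ζ Y hk1]

end walks

/-! ### the deterministic part -/

section det

variable {M K : ℕ}

/-- the cap is reached in the set `S` -/
def capd (K : ℕ) (S : Set (Tor d M)) (η : Tor d M → ℕ) : Prop := ∃ x ∈ S, K ≤ η x

theorem hits_cons {σ α : Type} (step : σ → α → σ) (bad : σ → Prop) (s : σ) (a : α) (l : List α) :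
    Hits step bad s (a :: l) ↔ bad s ∨ Hits step bad (step s a) l := Iff.rfl

theorem hits_self {σ α : Type} (step : σ → α → σ) (bad : σ → Prop) (s : σ) (l : List α)
    (h : bad s) : Hits step bad s l := by
  cases l with
  | nil => exact h
  | cons a l => exact Or.inl h

theorem hb_self {σ α : Type} (step : σ → α → σ) (stop bad : σ → Prop) (s : σ) (l : List α)
    (h : bad s) : HitsBefore step stop bad s l := by
  cases l with
  | nil => exact h
  | cons a l => exact Or.inl h

/-- if the tracked pair meets or stops, without going far and without the cap, there is an annihilation nearby -/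
theorem det (hM : 2 ≤ M) (S : Set (Tor d M)) (far1 far2 : St2 d M → Prop)
    (h1 : ∀ s, ¬ far1 s → tv s.2.1 ∈ S) (h2 : ∀ s, ¬ far2 s → tv s.2.2 ∈ S)
    (l : List (Let d M K)) : ∀ s : St2 d M, act2 K s →
    Hits st2 (fun s => s.2.1 - s.2.2 = 0 ∨ ¬ act2 K s) s l →
    ¬ HitsBefore st2 (fun s => ¬ act2 K s) far1 s l →
    ¬ HitsBefore st2 (fun s => ¬ act2 K s) far2 s l →
    ¬ Hits stepA (capd K S) s.1.1 l → ¬ Hits stepA (capd K S) s.1.2 l →
    1 ≤ annS (fun x => if x ∈ S then 1 else 0) s.1.1 s.1.2 l := by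
  induction l with
  | nil =>
    intro s hs hh _ _ _ _
    exfalso
    rcases hh with hh | hh
    · exact act2_ne hs (by rw [sub_eq_zero.1 hh])
    · exact hh hs
  | cons a l ih =>
    intro s hs hh hf1 hf2 hc1 hc2
    rw [hits_cons] at hh
    have hh' : Hits st2 (fun s => s.2.1 - s.2.2 = 0 ∨ ¬ act2 K s) (st2 s a) l := by
      rcases hh with hh | hh
      · exfalso
        rcases hh with hh | hh
        · exact act2_ne hs (by rw [sub_eq_zero.1 hh])
        · exact hh hs
      · exact hh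
    have hf1' : ¬ HitsBefore st2 (fun s => ¬ act2 K s) far1 (st2 s a) l := by
      intro h
      exact hf1 (Or.inr ⟨fun h' => h' hs, h⟩)
    have hf2' : ¬ HitsBefore st2 (fun s => ¬ act2 K s) far2 (st2 s a) l := by
      intro h
      exact hf2 (Or.inr ⟨fun h' => h' hs, h⟩)
    have hc1' : ¬ Hits stepA (capd K S) (stepA s.1.1 a) l := fun h => hc1 (Or.inr h)
    have hc2' : ¬ Hits stepA (capd K S) (stepA s.1.2 a) l := fun h => hc2 (Or.inr h)
    show 1 ≤ ann1 _ s.1.1 s.1.2 a + annS _ (stepA s.1.1 a) (stepA s.1.2 a) l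
    by_cases hact : act2 K (st2 s a)
    · exact (ih (st2 s a) hact hh' hf1' hf2' hc1' hc2').trans le_add_self
    · refine le_trans ?_ le_self_add
      have hs1 : tv (st2 s a).2.1 ∈ S := h1 _ fun h => hf1' (hb_self _ _ _ _ _ h)
      have hs2 : tv (st2 s a).2.2 ∈ S := h2 _ fun h => hf2' (hb_self _ _ _ _ _ h)
      have hk1 : (st2 s a).1.1 (tv (st2 s a).2.1) < K := by
        by_contra h
        exact hc1' (hits_self _ _ _ _ ⟨_, hs1, not_lt.1 h⟩)
      have hk2 : (st2 s a).1.2 (tv (st2 s a).2.2) < K := by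
        by_contra h
        exact hc2' (hits_self _ _ _ _ ⟨_, hs2, not_lt.1 h⟩)
      by_cases hX : (st2 s a).1.1 (tv (st2 s a).2.1) < (st2 s a).1.2 (tv (st2 s a).2.1)
      · have hY : ¬ (st2 s a).1.2 (tv (st2 s a).2.2) < (st2 s a).1.1 (tv (st2 s a).2.2) :=
          fun hY => hact ⟨hX, hY, hk1, hk2⟩
        have := trk_step hM s.1.2 s.1.1 s.2.2 hs.2.1 a hY (fun x => if x ∈ S then 1 else 0)
        rw [ann1_comm]
        refine le_trans (le_of_eq ?_) this
        rw [if_pos]
        exact hs2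
      · have := trk_step hM s.1.1 s.1.2 s.2.1 hs.1 a hX (fun x => if x ∈ S then 1 else 0)
        refine le_trans (le_of_eq ?_) this
        rw [if_pos]
        exact hs1

end det

end ZPD
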